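import Pool.Agent.AAS.Defs


set_option autoImplicit false

namespace Pool.Agent.AAS

open Complex Finset MeasureTheory Filter Topology Set
open Pool.Agent.H26


theorem mem_blk {j : ℕ} {p : ℕ × ℕ} : p ∈ blk j ↔
    Nat.Coprime p.1 p.2 ∧ 2 ^ j ≤ p.1 * p.2 ∧ p.1 * p.2 < 2 ^ (j + 1) := by
  constructor
  · intro h
    exact (Finset.mem_filter.mp h).2
  · intro h
    have h0 : 0 < p.1 * p.2 := lt_of_lt_of_le (by positivity) h.2.1
    have h1 : 0 < p.1 := Nat.pos_of_mul_pos_right h0 |> fun _ => by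
      rcases Nat.eq_zero_or_pos p.1 with h' | h'
      · rw [h'] at h0; simp at h0
      · exact h'
    have h2 : 0 < p.2 := by
      rcases Nat.eq_zero_or_pos p.2 with h' | h'
      · rw [h'] at h0; simp at h0
      · exact h'
    refine Finset.mem_filter.mpr ⟨Finset.mem_product.mpr ⟨Finset.mem_range.mpr ?_,
      Finset.mem_range.mpr ?_⟩, h⟩
    · exact lt_of_le_of_lt (Nat.le_mul_of_pos_right _ h2) h.2.2
    · exact lt_of_le_of_lt (Nat.le_mul_of_pos_left _ h1) h.2.2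

theorem mem_low {J : ℕ} {p : ℕ × ℕ} : p ∈ low J ↔
    Nat.Coprime p.1 p.2 ∧ 1 ≤ p.1 * p.2 ∧ p.1 * p.2 < 2 ^ J := by
  constructor
  · intro h
    exact (Finset.mem_filter.mp h).2
  · intro h
    have h0 : 0 < p.1 * p.2 := h.2.1
    have h1 : 0 < p.1 := by
      rcases Nat.eq_zero_or_pos p.1 with h' | h'
      · rw [h'] at h0; simp at h0
      · exact h'
    have h2 : 0 < p.2 := by
      rcases Nat.eq_zero_or_pos p.2 with h' | h'
      · rw [h'] at h0; simp at h0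
      · exact h'
    refine Finset.mem_filter.mpr ⟨Finset.mem_product.mpr ⟨Finset.mem_range.mpr ?_,
      Finset.mem_range.mpr ?_⟩, h⟩
    · exact lt_of_le_of_lt (Nat.le_mul_of_pos_right _ h2) h.2.2
    · exact lt_of_le_of_lt (Nat.le_mul_of_pos_left _ h1) h.2.2

private theorem BLK_pos {p : ℕ × ℕ} (h : 1 ≤ p.1 * p.2) : 0 < p.1 ∧ 0 < p.2 := by
  constructor
  · rcases Nat.eq_zero_or_pos p.1 with h' | h'
    · rw [h'] at h; simp at h
    · exact h'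
  · rcases Nat.eq_zero_or_pos p.2 with h' | h'
    · rw [h'] at h; simp at h
    · exact h'

private theorem BLK_log_lt {A B N : ℕ} (hA : 0 < A) (hAB : A < B) (h : A * B ≤ N * N) :
    1 / (N : ℝ) ≤ Real.log B - Real.log A := by
  have hAN : A < N := by
    by_contra hc
    have h1 : N ≤ A := not_lt.mp hc
    have h2 : N * N < A * B := lt_of_le_of_lt (Nat.mul_le_mul h1 h1)
      (Nat.mul_lt_mul_of_pos_left hAB hA)
    omega
  have hAr : (0 : ℝ) < A := by exact_mod_cast hA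
  have hA1 : (0 : ℝ) < (A : ℝ) + 1 := by linarith
  have h1 : Real.log ((A : ℝ) + 1) ≤ Real.log B := by
    apply Real.log_le_log hA1
    exact_mod_cast hAB
  have h2 : Real.log ((A : ℝ) / (A + 1)) ≤ (A : ℝ) / (A + 1) - 1 :=
    Real.log_le_sub_one_of_pos (by positivity)
  have h3 : Real.log ((A : ℝ) / (A + 1)) = Real.log A - Real.log (A + 1) :=
    Real.log_div hAr.ne' hA1.ne'
  have h4 : (A : ℝ) / (A + 1) - 1 = -(1 / (A + 1)) := by
    field_simp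
    ring
  have h5 : 1 / (N : ℝ) ≤ 1 / ((A : ℝ) + 1) := by
    apply one_div_le_one_div_of_le hA1
    exact_mod_cast hAN
  linarith

private theorem BLK_log {A B N : ℕ} (hA : 0 < A) (hB : 0 < B) (hAB : A ≠ B)
    (h : A * B ≤ N * N) : 1 / (N : ℝ) ≤ |Real.log A - Real.log B| := by
  rcases lt_or_gt_of_ne hAB with h1 | h1
  · have := BLK_log_lt hA h1 h
    rw [abs_sub_comm]
    exact le_trans this (le_abs_self _)
  · have := BLK_log_lt hB h1 (by rw [Nat.mul_comm]; exact h)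
    exact le_trans this (le_abs_self _)

private theorem BLK_sep {p q : ℕ × ℕ} {N : ℕ} (hp : Nat.Coprime p.1 p.2)
    (hq : Nat.Coprime q.1 q.2) (hp1 : 1 ≤ p.1 * p.2) (hq1 : 1 ≤ q.1 * q.2)
    (hpN : p.1 * p.2 < N) (hqN : q.1 * q.2 < N) (hpq : p ≠ q) :
    1 / (N : ℝ) ≤ |lq p - lq q| := by
  obtain ⟨p1, p2⟩ := BLK_pos hp1
  obtain ⟨q1, q2⟩ := BLK_pos hq1
  have hne : p.1 * q.2 ≠ q.1 * p.2 := by
    intro h
    apply hpq
    have h1 : p.1 ∣ q.1 := by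
      have : p.1 ∣ q.1 * p.2 := ⟨q.2, h.symm⟩
      exact hp.dvd_of_dvd_mul_right this
    have h2 : q.1 ∣ p.1 := by
      have : q.1 ∣ p.1 * q.2 := ⟨p.2, h⟩
      exact hq.dvd_of_dvd_mul_right this
    have h3 : p.1 = q.1 := Nat.dvd_antisymm h1 h2
    have h4 : q.2 = p.2 := by
      rw [h3] at h
      exact Nat.eq_of_mul_eq_mul_left q1 h
    exact Prod.ext h3 h4.symm
  have hprod : (p.1 * q.2) * (q.1 * p.2) ≤ N * N := by
    calc (p.1 * q.2) * (q.1 * p.2) = (p.1 * p.2) * (q.1 * q.2) := by ring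
      _ ≤ N * N := Nat.mul_le_mul hpN.le hqN.le
  have := BLK_log (Nat.mul_pos p1 q2) (Nat.mul_pos q1 p2) hne hprod
  have e : lq p - lq q = Real.log ((p.1 * q.2 : ℕ) : ℝ) - Real.log ((q.1 * p.2 : ℕ) : ℝ) := by
    unfold lq
    push_cast
    rw [Real.log_mul (by positivity) (by positivity), Real.log_mul (by positivity) (by positivity)]
    ring
  rw [e]
  exact this

/-- B1 -/
theorem sep_blk {j : ℕ} {p q : ℕ × ℕ} (hp : p ∈ blk j) (hq : q ∈ blk j) (hpq : p ≠ q) :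
    1 / (2:ℝ) ^ (j + 1) ≤ |lq p - lq q| := by
  obtain ⟨a1, a2, a3⟩ := mem_blk.mp hp
  obtain ⟨b1, b2, b3⟩ := mem_blk.mp hq
  have h1 : 1 ≤ 2 ^ j := Nat.one_le_two_pow
  have := BLK_sep a1 b1 (le_trans h1 a2) (le_trans h1 b2) a3 b3 hpq
  simpa using this

theorem sep_low {J : ℕ} {p q : ℕ × ℕ} (hp : p ∈ low J) (hq : q ∈ low J) (hpq : p ≠ q) :
    1 / (2:ℝ) ^ J ≤ |lq p - lq q| := by
  obtain ⟨a1, a2, a3⟩ := mem_low.mp hp
  obtain ⟨b1, b2, b3⟩ := mem_low.mp hq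
  have := BLK_sep a1 b1 a2 b2 a3 b3 hpq
  simpa using this

private theorem BLK_harm (N : ℕ) : ∑ m ∈ Finset.Ico 1 N, ((m : ℝ))⁻¹ ≤ 1 + Real.log N := by
  have h1 : ∑ m ∈ Finset.Ico 1 N, ((m : ℝ))⁻¹ ≤ ∑ m ∈ Finset.Icc 1 N, ((m : ℝ))⁻¹ := by
    apply Finset.sum_le_sum_of_subset_of_nonneg
    · intro x hx
      rw [Finset.mem_Ico] at hx
      rw [Finset.mem_Icc]
      exact ⟨hx.1, hx.2.le⟩
    · intro i _ _
      positivity
  have h2 : ((harmonic N : ℚ) : ℝ) = ∑ m ∈ Finset.Icc 1 N, ((m : ℝ))⁻¹ := by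
    rw [harmonic_eq_sum_Icc]
    push_cast
    rfl
  have h3 := harmonic_le_one_add_log N
  linarith [h1, h2, h3]

private theorem BLK_harm2 (J : ℕ) :
    ∑ m ∈ Finset.Ico (1 : ℕ) (2 ^ J), ((m : ℝ))⁻¹ ≤ (J : ℝ) + 1 := by
  have h := BLK_harm (2 ^ J)
  have h2 : Real.log ((2 ^ J : ℕ) : ℝ) = J * Real.log 2 := by
    push_cast
    rw [Real.log_pow]
  have h3 : Real.log 2 ≤ 1 := by linarith [Real.log_two_lt_d9]
  have h4 : (J : ℝ) * Real.log 2 ≤ J := by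
    have : (0 : ℝ) ≤ J := Nat.cast_nonneg J
    nlinarith
  rw [h2] at h
  linarith

private theorem BLK_card (J : ℕ) : ((low J).card : ℝ) ≤ ((J : ℝ) + 1) * 2 ^ J := by
  have hmap : ∀ p ∈ low J, p.1 ∈ Finset.Ico 1 (2 ^ J) := by
    intro p hp
    have hm := mem_low.mp hp
    obtain ⟨p1, p2⟩ := BLK_pos hm.2.1
    rw [Finset.mem_Ico]
    exact ⟨p1, lt_of_le_of_lt (Nat.le_mul_of_pos_right _ p2) hm.2.2⟩
  have hc := Finset.card_eq_sum_card_fiberwise (f := Prod.fst) (s := low J)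
    (t := Finset.Ico 1 (2 ^ J)) hmap
  have hfib : ∀ m ∈ Finset.Ico 1 (2 ^ J),
      ((Finset.filter (fun p : ℕ × ℕ => p.1 = m) (low J)).card : ℝ) ≤ 2 ^ J * ((m : ℝ))⁻¹ := by
    intro m hm
    rw [Finset.mem_Ico] at hm
    have h1 : (Finset.filter (fun p : ℕ × ℕ => p.1 = m) (low J)).card ≤
        (Finset.Icc 1 (2 ^ J / m)).card := by
      apply Finset.card_le_card_of_injOn Prod.snd
      · intro p hp
        have hp' := Finset.mem_filter.mp (Finset.mem_coe.mp hp)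
        have hm' := mem_low.mp hp'.1
        obtain ⟨p1, p2⟩ := BLK_pos hm'.2.1
        rw [Finset.mem_coe, Finset.mem_Icc]
        refine ⟨p2, ?_⟩
        rw [Nat.le_div_iff_mul_le hm.1, Nat.mul_comm, ← hp'.2]
        exact hm'.2.2.le
      · intro p hp q hq hpq
        have hp' := Finset.mem_filter.mp (Finset.mem_coe.mp hp)
        have hq' := Finset.mem_filter.mp (Finset.mem_coe.mp hq)
        exact Prod.ext (hp'.2.trans hq'.2.symm) hpq
    have h2 : (Finset.Icc 1 (2 ^ J / m)).card = 2 ^ J / m := by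
      rw [Nat.card_Icc]; simp
    have h3 : (((2 ^ J / m : ℕ)) : ℝ) ≤ ((2 ^ J : ℕ) : ℝ) / m := Nat.cast_div_le
    calc ((Finset.filter (fun p : ℕ × ℕ => p.1 = m) (low J)).card : ℝ)
        ≤ ((2 ^ J / m : ℕ) : ℝ) := by
          rw [← h2]; exact_mod_cast h1
      _ ≤ ((2 ^ J : ℕ) : ℝ) / m := h3
      _ = 2 ^ J * ((m : ℝ))⁻¹ := by push_cast; rw [div_eq_mul_inv]
  rw [hc]
  push_cast
  calc ∑ m ∈ Finset.Ico (1 : ℕ) (2 ^ J),
        ((Finset.filter (fun p : ℕ × ℕ => p.1 = m) (low J)).card : ℝ)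
      ≤ ∑ m ∈ Finset.Ico (1 : ℕ) (2 ^ J), 2 ^ J * ((m : ℝ))⁻¹ := Finset.sum_le_sum hfib
    _ = 2 ^ J * ∑ m ∈ Finset.Ico (1 : ℕ) (2 ^ J), ((m : ℝ))⁻¹ := by rw [Finset.mul_sum]
    _ ≤ 2 ^ J * ((J : ℝ) + 1) := by
        apply mul_le_mul_of_nonneg_left (BLK_harm2 J) (by positivity)
    _ = ((J : ℝ) + 1) * 2 ^ J := by ring

theorem card_blk_le (j : ℕ) : ((blk j).card : ℝ) ≤ (j + 2) * 2 ^ (j + 1) := by
  have h : (blk j).card ≤ (low (j + 1)).card := by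
    apply Finset.card_le_card
    intro p hp
    obtain ⟨a1, a2, a3⟩ := mem_blk.mp hp
    exact mem_low.mpr ⟨a1, le_trans Nat.one_le_two_pow a2, a3⟩
  have h2 := BLK_card (j + 1)
  have h3 : ((blk j).card : ℝ) ≤ ((low (j + 1)).card : ℝ) := by exact_mod_cast h
  calc ((blk j).card : ℝ) ≤ ((low (j + 1)).card : ℝ) := h3
    _ ≤ (((j + 1 : ℕ) : ℝ) + 1) * 2 ^ (j + 1) := h2
    _ = (j + 2) * 2 ^ (j + 1) := by push_cast; ring

private theorem BLK_low_succ (J : ℕ) : low (J + 1) = low J ∪ blk J := by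
  ext p
  rw [Finset.mem_union, mem_low, mem_low, mem_blk]
  have h2 : 2 ^ (J + 1) = 2 * 2 ^ J := by ring
  have h1 : 1 ≤ 2 ^ J := Nat.one_le_two_pow
  constructor
  · rintro ⟨a, b, c⟩
    by_cases h : p.1 * p.2 < 2 ^ J
    · exact Or.inl ⟨a, b, h⟩
    · exact Or.inr ⟨a, not_lt.mp h, c⟩
  · rintro (⟨a, b, c⟩ | ⟨a, b, c⟩)
    · exact ⟨a, b, by omega⟩
    · exact ⟨a, by omega, c⟩

private theorem BLK_low_disj (J : ℕ) : Disjoint (low J) (blk J) := by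
  rw [Finset.disjoint_left]
  intro p hp hq
  have h1 := (mem_low.mp hp).2.2
  have h2 := (mem_blk.mp hq).2.1
  omega

theorem DP_low (J : ℕ) (a b : ℝ) (s : ℂ) (x : ℝ) :
    DP (low J) a b s x = ∑ j ∈ Finset.range J, DP (blk j) a b s x := by
  induction J with
  | zero =>
    have : low 0 = ∅ := by
      ext p
      rw [mem_low]
      simp only [pow_zero, Finset.notMem_empty, iff_false]
      omega
    rw [this]
    simp [DP]
  | succ J ih =>
    rw [Finset.sum_range_succ, ← ih, BLK_low_succ]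
    unfold DP
    rw [Finset.sum_union (BLK_low_disj J)]

theorem norm_cf (a b : ℝ) (s : ℂ) {p : ℕ × ℕ} (hp : 1 ≤ p.1 * p.2) :
    ‖cf a b s p‖ = ((p.1 * p.2 : ℕ) : ℝ) ^ (-(1 / 2) - s.re) := by
  obtain ⟨p1, p2⟩ := BLK_pos hp
  unfold cf
  rw [norm_mul, Complex.norm_natCast_cpow_of_pos p1, Complex.norm_natCast_cpow_of_pos p2]
  have e1 : (-(1 / 2 + I * (a : ℂ) + s)).re = -(1 / 2) - s.re := by
    simp
    ring
  have e2 : (-(1 / 2 - I * (b : ℂ) + s)).re = -(1 / 2) - s.re := by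
    simp
    ring
  rw [e1, e2]
  push_cast
  rw [Real.mul_rpow (by positivity) (by positivity)]

theorem card_low_le (J : ℕ) : ((low J).card : ℝ) ≤ 4 ^ J := by
  have h : (low J).card ≤ 2 ^ J * 2 ^ J := by
    have := Finset.card_filter_le ((Finset.range (2 ^ J)) ×ˢ (Finset.range (2 ^ J)))
      (fun p => Nat.Coprime p.1 p.2 ∧ 1 ≤ p.1 * p.2 ∧ p.1 * p.2 < 2 ^ J)
    rw [Finset.card_product, Finset.card_range] at this
    exact this
  have h2 : (4 : ℝ) ^ J = 2 ^ J * 2 ^ J := by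
    rw [← mul_pow]; norm_num
  rw [h2]
  exact_mod_cast h

theorem sum_low_inv_le (J : ℕ) :
    ∑ p ∈ low J, (((p.1 * p.2 : ℕ) : ℝ))⁻¹ ≤ 2 * ((J : ℝ) + 2) ^ 2 := by
  have hsub : low J ⊆ (Finset.Ico 1 (2 ^ J)) ×ˢ (Finset.Ico 1 (2 ^ J)) := by
    intro p hp
    have hm := mem_low.mp hp
    obtain ⟨p1, p2⟩ := BLK_pos hm.2.1
    rw [Finset.mem_product, Finset.mem_Ico, Finset.mem_Ico]
    exact ⟨⟨p1, lt_of_le_of_lt (Nat.le_mul_of_pos_right _ p2) hm.2.2⟩,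
      ⟨p2, lt_of_le_of_lt (Nat.le_mul_of_pos_left _ p1) hm.2.2⟩⟩
  have h0 : (0 : ℝ) ≤ ∑ m ∈ Finset.Ico (1 : ℕ) (2 ^ J), ((m : ℝ))⁻¹ :=
    Finset.sum_nonneg (fun _ _ => by positivity)
  have h1 := BLK_harm2 J
  calc ∑ p ∈ low J, (((p.1 * p.2 : ℕ) : ℝ))⁻¹
      ≤ ∑ p ∈ (Finset.Ico 1 (2 ^ J)) ×ˢ (Finset.Ico 1 (2 ^ J)),
          (((p.1 * p.2 : ℕ) : ℝ))⁻¹ :=
        Finset.sum_le_sum_of_subset_of_nonneg hsub (fun _ _ _ => by positivity)
    _ = (∑ m ∈ Finset.Ico (1 : ℕ) (2 ^ J), ((m : ℝ))⁻¹) *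
          (∑ m ∈ Finset.Ico (1 : ℕ) (2 ^ J), ((m : ℝ))⁻¹) := by
        rw [Finset.sum_product, Finset.sum_mul_sum]
        refine Finset.sum_congr rfl (fun i _ => Finset.sum_congr rfl (fun j _ => ?_))
        push_cast
        rw [mul_inv]
    _ ≤ ((J : ℝ) + 1) * ((J : ℝ) + 1) := by
        apply mul_le_mul h1 h1 h0 (by positivity)
    _ ≤ 2 * ((J : ℝ) + 2) ^ 2 := by
        have : (0 : ℝ) ≤ J := Nat.cast_nonneg J
        nlinarith

/-- frequencies of products -/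
theorem log_prod_ge {k J : ℕ} {p : Fin k → ℕ × ℕ} (hp : ∀ j, p j ∈ low J)
    (hne : ∏ j, (p j).1 ≠ ∏ j, (p j).2) : 1 / (2:ℝ) ^ (k * J) ≤ |∑ j, lq (p j)| := by
  have hpos : ∀ j, 0 < (p j).1 ∧ 0 < (p j).2 := fun j => BLK_pos (mem_low.mp (hp j)).2.1
  have hA : 0 < ∏ j, (p j).1 := Finset.prod_pos (fun j _ => (hpos j).1)
  have hB : 0 < ∏ j, (p j).2 := Finset.prod_pos (fun j _ => (hpos j).2)
  have hAB : (∏ j, (p j).1) * (∏ j, (p j).2) ≤ 2 ^ (k * J) * 2 ^ (k * J) := by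
    rw [← Finset.prod_mul_distrib]
    calc ∏ j, (p j).1 * (p j).2 ≤ ∏ _j : Fin k, 2 ^ J :=
          Finset.prod_le_prod' (fun j _ => (mem_low.mp (hp j)).2.2.le)
      _ = 2 ^ (k * J) := by
          rw [Finset.prod_const, Finset.card_univ, Fintype.card_fin, ← pow_mul, Nat.mul_comm]
      _ ≤ 2 ^ (k * J) * 2 ^ (k * J) := Nat.le_mul_of_pos_right _ (by positivity)
  have h := BLK_log hA hB hne hAB
  have e : ∑ j, lq (p j) = Real.log ((∏ j, (p j).1 : ℕ) : ℝ) -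
      Real.log ((∏ j, (p j).2 : ℕ) : ℝ) := by
    unfold lq
    rw [Finset.sum_sub_distrib]
    push_cast
    rw [Real.log_prod (fun j _ => by have := (hpos j).1; positivity),
      Real.log_prod (fun j _ => by have := (hpos j).2; positivity)]
  rw [e]
  push_cast at h ⊢
  exact h

end Pool.Agent.AAS
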