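import Pool.Agent.AAS.Defs
import Pool.Agent.H26.Shift


set_option autoImplicit false

namespace Pool.Agent.AAS

open Complex Finset MeasureTheory Filter Topology Set
open Pool.Agent.H26


private lemma RES_integrable_inv {δ : ℝ} (hδ : 0 < δ) :
    Integrable (fun y : ℝ => (δ ^ 2 + y ^ 2)⁻¹) := by
  have h1 : Integrable (fun y : ℝ => (1 + (y / δ) ^ 2)⁻¹) :=
    integrable_inv_one_add_sq.comp_div hδ.ne'
  refine (h1.const_mul ((δ ^ 2)⁻¹)).congr (Eventually.of_forall fun y => ?_)
  have h2 : δ ≠ 0 := hδ.ne'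
  have h3 : δ ^ 2 + y ^ 2 ≠ 0 := by positivity
  have h4 : 1 + (y / δ) ^ 2 ≠ 0 := by positivity
  simp only
  rw [← mul_inv]
  congr 1
  field_simp

private lemma RES_integral_inv {c : ℝ} (hc : c ≠ 0) :
    ∫ y : ℝ, c / (c ^ 2 + y ^ 2) = |c| / c * Real.pi := by
  have h1 : ∀ y : ℝ, c / (c ^ 2 + y ^ 2) = c⁻¹ * (1 + (y / c) ^ 2)⁻¹ := by
    intro y
    have h3 : c ^ 2 + y ^ 2 ≠ 0 := by positivity
    have h4 : 1 + (y / c) ^ 2 ≠ 0 := by positivity
    field_simp
  simp_rw [h1]
  rw [integral_const_mul]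
  rw [Measure.integral_comp_div (fun y : ℝ => (1 + y ^ 2)⁻¹) c, integral_univ_inv_one_add_sq,
    smul_eq_mul]
  field_simp

/-- the comparison function -/
private lemma RES_den {c β : ℝ} (y : ℝ) (hc : c ≠ 0) (hβ : β - c ≠ 0) :
    ((c : ℂ) + y * I ≠ 0) ∧ ((β : ℂ) - (c + y * I) ≠ 0) := by
  constructor
  · intro h
    have := congrArg Complex.re h
    simp at this
    exact hc this
  · intro h
    have := congrArg Complex.re h
    simp at this
    exact hβ this

private lemma RES_int_G {c β : ℝ} (hc : c ≠ 0) (hβ : β - c ≠ 0) :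
    Integrable (fun y : ℝ => (β : ℂ) / ((β : ℂ) - (c + y * I)) / (c + y * I)) := by
  set δ : ℝ := min |c| |β - c| with hδ
  have hδ0 : 0 < δ := lt_min (abs_pos.2 hc) (abs_pos.2 hβ)
  have hcont : Continuous (fun y : ℝ => (β : ℂ) / ((β : ℂ) - (c + y * I)) / (c + y * I)) := by
    refine Continuous.div (Continuous.div continuous_const (by fun_prop) fun y => ?_)
      (by fun_prop) fun y => ?_
    · exact (RES_den y hc hβ).2
    · exact (RES_den y hc hβ).1
  refine Integrable.mono' ((RES_integrable_inv hδ0).const_mul |β|) hcont.aestronglyMeasurable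
    (Eventually.of_forall fun y => ?_)
  have h0 : 0 < δ ^ 2 + y ^ 2 := by positivity
  have n1 : δ ^ 2 + y ^ 2 ≤ ‖(c : ℂ) + y * I‖ ^ 2 := by
    rw [← Complex.normSq_eq_norm_sq, Complex.normSq_apply]
    simp only [add_re, ofReal_re, mul_re, I_re, mul_zero, ofReal_im, I_im, mul_one, sub_self,
      add_zero, add_im, mul_im, zero_add]
    have : δ ^ 2 ≤ |c| ^ 2 := pow_le_pow_left₀ hδ0.le (min_le_left _ _) 2
    rw [sq_abs] at this
    nlinarith
  have n2 : δ ^ 2 + y ^ 2 ≤ ‖(β : ℂ) - (c + y * I)‖ ^ 2 := by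
    rw [← Complex.normSq_eq_norm_sq, Complex.normSq_apply]
    simp only [sub_re, add_re, ofReal_re, mul_re, I_re, mul_zero, ofReal_im, I_im, mul_one,
      sub_self, add_zero, sub_im, add_im, mul_im, zero_add]
    have : δ ^ 2 ≤ |β - c| ^ 2 := pow_le_pow_left₀ hδ0.le (min_le_right _ _) 2
    rw [sq_abs] at this
    nlinarith
  set A := ‖(c : ℂ) + y * I‖
  set B := ‖(β : ℂ) - (c + y * I)‖
  rw [norm_div, norm_div, norm_real, Real.norm_eq_abs, div_div, ← div_eq_mul_inv]
  refine div_le_div_of_nonneg_left (abs_nonneg _) h0 ?_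
  have hA : 0 ≤ A := norm_nonneg _
  have hB : 0 ≤ B := norm_nonneg _
  have : (δ ^ 2 + y ^ 2) ^ 2 ≤ (B * A) ^ 2 := by
    rw [mul_pow, sq]
    exact mul_le_mul n2 n1 h0.le (by positivity)
  exact le_of_sq_le_sq this (by positivity)

private lemma RES_integral_G {c β : ℝ} (hc : c ≠ 0) (hβ : β - c ≠ 0) :
    ∫ y : ℝ, (β : ℂ) / ((β : ℂ) - (c + y * I)) / (c + y * I) =
      ((|c| / c * Real.pi + |β - c| / (β - c) * Real.pi : ℝ) : ℂ) := by
  have hG := RES_int_G hc hβ
  set G : ℝ → ℂ := fun y => (β : ℂ) / ((β : ℂ) - (c + y * I)) / (c + y * I) with hGdef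
  have hconj : ∀ y, G (-y) = (starRingEnd ℂ) (G y) := by
    intro y
    simp only [hGdef, map_div₀, map_sub, map_add, map_mul, conj_ofReal, conj_I]
    push_cast
    ring_nf
  have e1 : ∫ y, G y = (starRingEnd ℂ) (∫ y, G y) := by
    rw [← integral_conj]
    simp_rw [← hconj]
    exact (integral_neg_eq_self G volume).symm
  have hre : (∫ y, G y).re = ∫ y, (G y).re := by
    have := integral_re (𝕜 := ℂ) hG
    simpa using this.symm
  have hGre : ∀ y, (G y).re = c / (c ^ 2 + y ^ 2) + (β - c) / ((β - c) ^ 2 + y ^ 2) := by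
    intro y
    have hd := RES_den y hc hβ
    have e2 : G y = ((c : ℂ) + y * I)⁻¹ + ((β : ℂ) - (c + y * I))⁻¹ := by
      simp only [hGdef]
      have h1 := hd.1
      have h2 := hd.2
      field_simp
      ring
    rw [e2, add_re, inv_re, inv_re, normSq_apply, normSq_apply]
    simp only [sub_re, add_re, ofReal_re, mul_re, I_re, mul_zero, ofReal_im, I_im, mul_one,
      sub_self, add_zero, sub_im, add_im, mul_im, zero_add]
    congr 2
    · ring
    · ring
  have h3 : (∫ y, G y).re = |c| / c * Real.pi + |β - c| / (β - c) * Real.pi := by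
    rw [hre]
    simp_rw [hGre]
    have i1 : ∀ d : ℝ, d ≠ 0 → Integrable (fun y : ℝ => d / (d ^ 2 + y ^ 2)) := by
      intro d hd
      have := (RES_integrable_inv (abs_pos.2 hd)).const_mul d
      refine this.congr (Eventually.of_forall fun y => ?_)
      simp only [sq_abs]
      rw [div_eq_mul_inv]
    rw [integral_add (i1 c hc) (i1 (β - c) hβ), RES_integral_inv hc, RES_integral_inv hβ]
  have him : (∫ y, G y).im = 0 := by
    have := congrArg Complex.im e1
    rw [conj_im] at this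
    linarith
  apply Complex.ext
  · rw [h3, ofReal_re]
  · rw [him, ofReal_im]

/-- A6: the residue at `0` -/
theorem LI_res {h : ℂ → ℂ} {a b : ℝ} (ha : a < 0) (hb : 0 < b)
    (hd : ∀ z : ℂ, a ≤ z.re → z.re ≤ b → DifferentiableAt ℂ h z) {m : ℝ → ℝ}
    (hm : ∀ x y : ℝ, a ≤ x → x ≤ b → ‖h (x + y * I)‖ ≤ m y) (hmi : Integrable m)
    (hm0 : Tendsto m atTop (𝓝 0)) (hm0' : Tendsto m atBot (𝓝 0)) :
    LI b (fun s => h s / s) - LI a (fun s => h s / s) = h 0 := by
  set β : ℝ := b + 1 with hβ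
  have hβ0 : 0 < β := by linarith
  have hm_nonneg : ∀ y, 0 ≤ m y := fun y => (norm_nonneg _).trans (hm 0 y ha.le hb.le)
  -- the comparison function
  set E : ℂ → ℂ := fun s => (β : ℂ) / ((β : ℂ) - s) with hE
  set g : ℂ → ℂ := fun s => h s - h 0 * E s with hg
  have hE0 : E 0 = 1 := by
    simp only [hE, sub_zero]
    exact div_self (by exact_mod_cast hβ0.ne')
  have hg0 : g 0 = 0 := by simp only [hg, hE0, mul_one, sub_self]
  have hEd : ∀ z : ℂ, z.re ≤ b → DifferentiableAt ℂ E z := by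
    intro z hz
    refine DifferentiableAt.div (differentiableAt_const _) (by fun_prop) ?_
    intro h0
    have := congrArg Complex.re h0
    simp only [sub_re, ofReal_re, zero_re] at this
    linarith
  have hgd : ∀ z : ℂ, a ≤ z.re → z.re ≤ b → DifferentiableAt ℂ g z := fun z h1 h2 =>
    (hd z h1 h2).sub ((hEd z h2).const_mul _)
  set D : ℂ → ℂ := dslope g 0 with hD
  have hDd : ∀ z : ℂ, a ≤ z.re → z.re ≤ b → DifferentiableAt ℂ D z := by
    intro z h1 h2
    by_cases hz : z = 0
    · subst hz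
      have ho : IsOpen {w : ℂ | a < w.re ∧ w.re < b} :=
        (isOpen_lt continuous_const Complex.continuous_re).inter
          (isOpen_lt Complex.continuous_re continuous_const)
      have hn : {w : ℂ | a < w.re ∧ w.re < b} ∈ 𝓝 (0 : ℂ) := ho.mem_nhds ⟨by simpa using ha,
        by simpa using hb⟩
      have h3 : DifferentiableOn ℂ g {w : ℂ | a < w.re ∧ w.re < b} := fun w hw =>
        (hgd w hw.1.le hw.2.le).differentiableWithinAt
      exact ((Complex.differentiableOn_dslope hn).2 h3).differentiableAt hn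
    · exact (differentiableAt_dslope_of_ne hz).2 (hgd z h1 h2)
  have hDs : ∀ z : ℂ, z ≠ 0 → D z = g z / z := by
    intro z hz
    rw [hD, dslope_of_ne _ hz, slope_def_field, hg0, sub_zero, sub_zero]
  -- the bound
  have hK : ∃ K : ℝ, 0 ≤ K ∧ ∀ x y : ℝ, a ≤ x → x ≤ b → |y| ≤ 1 → ‖D (x + y * I)‖ ≤ K := by
    have hc : IsCompact (Icc a b ×ˢ Icc (-1 : ℝ) 1) := isCompact_Icc.prod isCompact_Icc
    have hcont : ContinuousOn (fun p : ℝ × ℝ => D (p.1 + p.2 * I)) (Icc a b ×ˢ Icc (-1 : ℝ) 1) := by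
      intro p hp
      have h1 : ContinuousAt D ((p.1 : ℂ) + p.2 * I) :=
        (hDd _ (by simpa using hp.1.1) (by simpa using hp.1.2)).continuousAt
      have h2 : ContinuousAt (fun p : ℝ × ℝ => ((p.1 : ℂ) + p.2 * I)) p := by fun_prop
      exact (ContinuousAt.comp (f := fun p : ℝ × ℝ => ((p.1 : ℂ) + p.2 * I)) h1
        h2).continuousWithinAt
    obtain ⟨K, hK⟩ := hc.exists_bound_of_continuousOn hcont
    refine ⟨max K 0, le_max_right _ _, fun x y h1 h2 h3 => (hK (x, y) ?_).trans (le_max_left _ _)⟩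
    exact ⟨⟨h1, h2⟩, abs_le.1 h3⟩
  obtain ⟨K, hK0, hK⟩ := hK
  set M : ℝ → ℝ := fun y => m y + (2 * (‖h 0‖ * β) + 2 * K) * (1 + y ^ 2)⁻¹ with hM
  have hbound : ∀ x y : ℝ, a ≤ x → x ≤ b → ‖D (x + y * I)‖ ≤ M y := by
    intro x y h1 h2
    have hp : 0 < (1 + y ^ 2)⁻¹ := by positivity
    have hq : 0 ≤ ‖h 0‖ * β := by positivity
    by_cases hy : |y| ≤ 1
    · refine (hK x y h1 h2 hy).trans ?_
      have h3 : y ^ 2 ≤ 1 := by
        rw [← sq_abs]
        nlinarith [abs_nonneg y]
      have h4 : (2 : ℝ)⁻¹ ≤ (1 + y ^ 2)⁻¹ := by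
        apply inv_anti₀ (by positivity)
        linarith
      have h5 : K ≤ 2 * K * (1 + y ^ 2)⁻¹ := by nlinarith
      have h6 : 0 ≤ 2 * (‖h 0‖ * β) * (1 + y ^ 2)⁻¹ := by positivity
      have h7 := hm_nonneg y
      simp only [hM]
      nlinarith
    · rw [not_le] at hy
      have hy0 : 0 < |y| := by linarith
      have hz : (x : ℂ) + y * I ≠ 0 := by
        intro h0
        have := congrArg Complex.im h0
        simp at this
        rw [this] at hy
        simp at hy
        linarith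
      have n1 : |y| ≤ ‖(x : ℂ) + y * I‖ := by
        have := Complex.abs_im_le_norm ((x : ℂ) + y * I)
        simpa using this
      have n2 : |y| ≤ ‖(β : ℂ) - ((x : ℂ) + y * I)‖ := by
        have := Complex.abs_im_le_norm ((β : ℂ) - ((x : ℂ) + y * I))
        simpa using this
      rw [hDs _ hz, norm_div]
      have e1 : ‖g (x + y * I)‖ ≤ m y + ‖h 0‖ * (β / |y|) := by
        simp only [hg]
        refine (norm_sub_le _ _).trans (add_le_add (hm x y h1 h2) ?_)
        rw [norm_mul]
        refine mul_le_mul_of_nonneg_left ?_ (norm_nonneg _)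
        simp only [hE]
        rw [norm_div, norm_real, Real.norm_eq_abs, abs_of_pos hβ0]
        exact div_le_div_of_nonneg_left hβ0.le hy0 n2
      have e2 : ‖g (x + y * I)‖ / ‖(x : ℂ) + y * I‖ ≤ (m y + ‖h 0‖ * (β / |y|)) / |y| := by
        refine div_le_div₀ ?_ e1 hy0 n1
        have := hm_nonneg y
        positivity
      refine e2.trans ?_
      rw [add_div]
      have e3 : m y / |y| ≤ m y := div_le_self (hm_nonneg y) hy.le
      have e4 : ‖h 0‖ * (β / |y|) / |y| = ‖h 0‖ * β * (y ^ 2)⁻¹ := by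
        rw [← sq_abs y]
        field_simp
      have h3 : 1 ≤ y ^ 2 := by
        rw [← sq_abs]
        nlinarith
      have e5 : (y ^ 2)⁻¹ ≤ 2 * (1 + y ^ 2)⁻¹ := by
        have : 2 * (1 + y ^ 2)⁻¹ = ((1 + y ^ 2) / 2)⁻¹ := by
          rw [inv_div]
          ring
        rw [this]
        apply inv_anti₀ (by positivity)
        linarith
      rw [e4]
      have e6 : ‖h 0‖ * β * (y ^ 2)⁻¹ ≤ ‖h 0‖ * β * (2 * (1 + y ^ 2)⁻¹) :=
        mul_le_mul_of_nonneg_left e5 hq
      have e7 : 0 ≤ 2 * K * (1 + y ^ 2)⁻¹ := by positivity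
      simp only [hM]
      nlinarith
  have hMi : Integrable M := hmi.add (integrable_inv_one_add_sq.const_mul _)
  have hinv0 : Tendsto (fun y : ℝ => (1 + y ^ 2)⁻¹) atTop (𝓝 0) := by
    refine tendsto_inv_atTop_zero.comp ?_
    exact tendsto_atTop_add_const_left _ _ (tendsto_pow_atTop (by norm_num))
  have hinv0' : Tendsto (fun y : ℝ => (1 + y ^ 2)⁻¹) atBot (𝓝 0) := by
    have := hinv0.comp tendsto_neg_atBot_atTop
    refine this.congr fun y => ?_
    simp [Function.comp]
  have hM0 : Tendsto M atTop (𝓝 0) := by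
    simpa using hm0.add (hinv0.const_mul (2 * (‖h 0‖ * β) + 2 * K))
  have hM0' : Tendsto M atBot (𝓝 0) := by
    simpa using hm0'.add (hinv0'.const_mul (2 * (‖h 0‖ * β) + 2 * K))
  have hshift := integral_vertical_shift (f := D) (ha.le.trans hb.le) hDd hbound hMi hM0 hM0'
  -- splitting
  have hsplit : ∀ c : ℝ, a ≤ c → c ≤ b → c ≠ 0 →
      ∫ y : ℝ, h (c + y * I) / (c + y * I) = (∫ y : ℝ, D (c + y * I)) +
        h 0 * ((|c| / c * Real.pi + |β - c| / (β - c) * Real.pi : ℝ) : ℂ) := by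
    intro c h1 h2 h3
    have hbc : β - c ≠ 0 := by
      have : 0 < β - c := by linarith
      exact this.ne'
    have hDc : Continuous (fun y : ℝ => D (c + y * I)) := by
      rw [continuous_iff_continuousAt]
      intro y
      have h1 : ContinuousAt D (c + y * I) := (hDd _ (by simpa using h1) (by simpa using h2)
        ).continuousAt
      have h2 : ContinuousAt (fun y : ℝ => (c + y * I : ℂ)) y := by fun_prop
      exact (ContinuousAt.comp (f := fun y : ℝ => (c + y * I : ℂ)) h1 h2)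
    have hDi : Integrable (fun y : ℝ => D (c + y * I)) :=
      Integrable.mono' hMi hDc.aestronglyMeasurable (Eventually.of_forall fun y =>
        hbound c y h1 h2)
    rw [← RES_integral_G h3 hbc, ← integral_const_mul,
      ← integral_add hDi ((RES_int_G h3 hbc).const_mul _)]
    refine integral_congr_ae (Eventually.of_forall fun y => ?_)
    have hz := (RES_den y h3 hbc).1
    simp only
    rw [hDs _ hz]
    simp only [hg, hE]
    ring
  unfold LI
  rw [hsplit b (ha.le.trans hb.le) le_rfl hb.ne', hsplit a le_rfl (ha.le.trans hb.le) ha.ne,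
    hshift]
  have hb1 : |b| / b = 1 := by rw [abs_of_pos hb, div_self hb.ne']
  have ha1 : |a| / a = -1 := by rw [abs_of_neg ha, neg_div, div_self ha.ne]
  have hb2 : |β - b| / (β - b) = 1 := by
    have : 0 < β - b := by linarith
    rw [abs_of_pos this, div_self this.ne']
  have ha2 : |β - a| / (β - a) = 1 := by
    have : 0 < β - a := by linarith
    rw [abs_of_pos this, div_self this.ne']
  rw [hb1, ha1, hb2, ha2]
  generalize (∫ y : ℝ, D (a + y * I)) = J
  have hpi : (Real.pi : ℂ) ≠ 0 := by exact_mod_cast Real.pi_ne_zero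
  push_cast
  field_simp
  ring

end Pool.Agent.AAS
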