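import Pool.Agent.AAS.Defs


set_option autoImplicit false

namespace Pool.Agent.AAS

open Complex Finset MeasureTheory Filter Topology Set
open Pool.Agent.H26

lemma YKB_half_le (y : ℝ) : 1 / 2 ≤ ‖(1 / 2 + I * (y : ℂ))‖ := by
  have h := Complex.abs_re_le_norm (1 / 2 + I * (y : ℂ))
  have h1 : (1 / 2 + I * (y : ℂ)).re = 1 / 2 := by simp
  rw [h1, abs_of_pos (by norm_num)] at h
  exact h

lemma YKB_half_le' (y : ℝ) : 1 / 2 ≤ ‖(1 / 2 - I * (y : ℂ))‖ := by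
  have h := YKB_half_le (-y)
  have h1 : (1 / 2 + I * ((-y : ℝ) : ℂ)) = 1 / 2 - I * (y : ℂ) := by push_cast; ring
  rw [h1] at h
  exact h

lemma YKB_div_le {s z : ℂ} (hz : 1 / 2 ≤ ‖z‖) : ‖1 - s / z‖ ≤ 2 * (1 + ‖s‖) := by
  have h0 : 0 < ‖z‖ := by linarith
  have h1 : ‖s / z‖ ≤ 2 * ‖s‖ := by
    rw [norm_div, div_le_iff₀ h0]
    nlinarith [norm_nonneg s]
  have h2 := norm_sub_le (1 : ℂ) (s / z)
  rw [norm_one] at h2
  linarith

/-- the bound for the polynomial factor -/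
lemma YKB_P1_le (a b : ℝ) (s : ℂ) (x : ℝ) : ‖P1 a b s x‖ ≤ 4 * (1 + ‖s‖) ^ 2 := by
  unfold P1
  rw [norm_mul]
  have h1 := YKB_div_le (s := s) (YKB_half_le' (x + a))
  have h2 := YKB_div_le (s := s) (YKB_half_le (x + b))
  rw [Complex.ofReal_add] at h1 h2
  have h3 := norm_nonneg s
  calc _ ≤ (2 * (1 + ‖s‖)) * (2 * (1 + ‖s‖)) :=
        mul_le_mul h1 h2 (norm_nonneg _) (by linarith)
    _ = _ := by ring

lemma YKB_w1_re (a : ℝ) (s : ℂ) (x : ℝ) : (1 / 2 + I * ((x : ℂ) + a) - s).re = 1 / 2 - s.re := by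
  simp

lemma YKB_w2_re (b : ℝ) (s : ℂ) (x : ℝ) : (1 / 2 - I * ((x : ℂ) + b) - s).re = 1 / 2 - s.re := by
  simp

lemma YKB_w1_im (a : ℝ) (s : ℂ) (x : ℝ) : (1 / 2 + I * ((x : ℂ) + a) - s).im = x + a - s.im := by
  simp

lemma YKB_w2_im (b : ℝ) (s : ℂ) (x : ℝ) :
    (1 / 2 - I * ((x : ℂ) + b) - s).im = -(x + b) - s.im := by
  simp

lemma YKB_abs1 {B a x : ℝ} {s : ℂ} (ha : |a| ≤ B) :
    1 + |x + a - s.im| ≤ 1 + |x| + B + ‖s‖ := by
  have h1 := Complex.abs_im_le_norm s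
  have h2 := abs_add_le (x + a) (-s.im)
  have h3 := abs_add_le x a
  rw [abs_neg, ← sub_eq_add_neg] at h2
  linarith

lemma YKB_abs2 {B b x : ℝ} {s : ℂ} (hb : |b| ≤ B) :
    1 + |-(x + b) - s.im| ≤ 1 + |x| + B + ‖s‖ := by
  have h1 := Complex.abs_im_le_norm s
  have h2 := abs_add_le (-(x + b)) (-s.im)
  have h3 := abs_add_le x b
  rw [abs_neg, abs_neg, ← sub_eq_add_neg] at h2
  linarith

lemma YKB_rpow_le {B T x σ n m : ℝ} (hB : 0 ≤ B) (hT : 1 ≤ T) (hx : |x| ≤ 3 * T) (hn : 0 ≤ n)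
    (hm0 : 0 ≤ m) (hm : m ≤ 1 + |x| + B + n) (h0 : 0 ≤ σ) (h1 : σ ≤ 1) :
    m ^ σ ≤ (4 + B) * (1 + n) * T ^ σ := by
  have h2 : m ≤ ((4 + B) * (1 + n)) * T := by
    refine hm.trans ?_
    have e : ((4 + B) * (1 + n)) * T = 4 * T + 4 * (n * T) + B * T + B * (n * T) := by ring
    rw [e]
    have h3 : n ≤ n * T := le_mul_of_one_le_right hn hT
    have h4 : B ≤ B * T := le_mul_of_one_le_right hB hT
    have h5 : 0 ≤ B * (n * T) := mul_nonneg hB (mul_nonneg hn (by linarith))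
    linarith
  have hA : 1 ≤ (4 + B) * (1 + n) := by nlinarith
  calc m ^ σ ≤ (((4 + B) * (1 + n)) * T) ^ σ := Real.rpow_le_rpow hm0 h2 h0
    _ = ((4 + B) * (1 + n)) ^ σ * T ^ σ := Real.mul_rpow (by linarith) (by linarith)
    _ ≤ ((4 + B) * (1 + n)) ^ (1 : ℝ) * T ^ σ := by
        gcongr
    _ = _ := by rw [Real.rpow_one]

/-- the bound for the product of the two `chi` factors -/
lemma YKB_exists_chi (B : ℝ) (hB : 0 ≤ B) : ∃ C : ℝ, 1 ≤ C ∧ ∀ T : ℝ, 1 ≤ T →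
    ∀ a b : ℝ, |a| ≤ B → |b| ≤ B → ∀ s : ℂ, 0 ≤ s.re → s.re ≤ 3 / 4 →
    ∀ x : ℝ, |x| ≤ 3 * T →
      ‖chi (1 / 2 + I * (x + a) - s) * chi (1 / 2 - I * (x + b) - s)‖ ≤
        C * (1 + ‖s‖) ^ 2 * (T ^ s.re * T ^ s.re) := by
  obtain ⟨C, hC1, hC⟩ := CHI.exists_norm_chi_strip
  refine ⟨(C * (4 + B)) ^ 2, ?_, ?_⟩
  · have : 1 ≤ C * (4 + B) := by nlinarith
    exact one_le_pow₀ this
  intro T hT a b ha hb s h0 h1 x hx
  have hs := norm_nonneg s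
  have e1 := hC (1 / 2 + I * (x + a) - s) (by rw [YKB_w1_re]; linarith) (by rw [YKB_w1_re]; linarith)
  have e2 := hC (1 / 2 - I * (x + b) - s) (by rw [YKB_w2_re]; linarith) (by rw [YKB_w2_re]; linarith)
  rw [YKB_w1_re, YKB_w1_im] at e1
  rw [YKB_w2_re, YKB_w2_im] at e2
  have e3 : 1 / 2 - (1 / 2 - s.re) = s.re := by ring
  rw [e3] at e1 e2
  have f1 := YKB_rpow_le (σ := s.re) hB hT hx hs (by positivity : 0 ≤ 1 + |x + a - s.im|)
    (YKB_abs1 ha) h0 (by linarith)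
  have f2 := YKB_rpow_le (σ := s.re) hB hT hx hs (by positivity : 0 ≤ 1 + |-(x + b) - s.im|)
    (YKB_abs2 hb) h0 (by linarith)
  rw [norm_mul]
  have hC0 : 0 ≤ C := by linarith
  have hTs : 0 ≤ T ^ s.re := Real.rpow_nonneg (by linarith) _
  calc _ ≤ (C * ((4 + B) * (1 + ‖s‖) * T ^ s.re)) * (C * ((4 + B) * (1 + ‖s‖) * T ^ s.re)) :=
        mul_le_mul (e1.trans (mul_le_mul_of_nonneg_left f1 hC0))
          (e2.trans (mul_le_mul_of_nonneg_left f2 hC0)) (norm_nonneg _) (by positivity)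
    _ = _ := by ring

lemma YKB_pow_le {n : ℝ} (hn : 0 ≤ n) {k : ℕ} (hk : k ≤ 8) : (1 + n) ^ k ≤ (1 + n) ^ 8 :=
  pow_le_pow_right₀ (by linarith) hk

lemma YKB_norm_cpow {T : ℝ} (hT : 0 < T) (s : ℂ) : ‖(T : ℂ) ^ s‖ = T ^ s.re :=
  Complex.norm_cpow_eq_rpow_re_of_pos hT s

/-- C1 -/
theorem exists_Yk_bound (B : ℝ) (hB : 0 ≤ B) : ∃ C : ℝ, 1 ≤ C ∧ ∀ T : ℝ, 1 ≤ T →
    ∀ a b : ℝ, |a| ≤ B → |b| ≤ B → ∀ κ : Bool, ∀ s : ℂ, 0 ≤ s.re → s.re ≤ 3 / 4 →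
    ∀ x : ℝ, |x| ≤ 3 * T → ‖Yk a b T κ s x‖ ≤ C * (1 + ‖s‖) ^ 8 * T ^ s.re := by
  obtain ⟨C, hC1, hC⟩ := YKB_exists_chi B hB
  refine ⟨4 * C, by linarith, ?_⟩
  intro T hT a b ha hb κ s h0 h1 x hx
  have hs := norm_nonneg s
  have hT0 : 0 < T := by linarith
  have hTs : 0 < T ^ s.re := Real.rpow_pos_of_pos hT0 _
  have h8 : (1 + ‖s‖) ^ 2 ≤ (1 + ‖s‖) ^ 8 := YKB_pow_le hs (by norm_num)
  have h84 : (1 + ‖s‖) ^ 4 ≤ (1 + ‖s‖) ^ 8 := YKB_pow_le hs (by norm_num)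
  have hp8 : 0 ≤ (1 + ‖s‖) ^ 8 := by positivity
  cases κ
  · have e : Yk a b T false s x = (T : ℂ) ^ s * P1 a b s x := by simp [Yk]
    rw [e, norm_mul, YKB_norm_cpow hT0]
    calc T ^ s.re * ‖P1 a b s x‖ ≤ T ^ s.re * (4 * (1 + ‖s‖) ^ 2) := by
          gcongr
          exact YKB_P1_le a b s x
      _ ≤ T ^ s.re * (4 * (1 + ‖s‖) ^ 8) := by gcongr
      _ = 4 * 1 * (1 + ‖s‖) ^ 8 * T ^ s.re := by ring
      _ ≤ _ := by gcongr
  · have e : Yk a b T true s x = (T : ℂ) ^ (-s) * P1 a b (-s) x *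
      (chi (1 / 2 + I * (x + a) - s) * chi (1 / 2 - I * (x + b) - s)) := by simp [Yk]
    rw [e, norm_mul, norm_mul, YKB_norm_cpow hT0]
    have h2 := YKB_P1_le a b (-s) x
    rw [norm_neg] at h2
    have h3 := hC T hT a b ha hb s h0 h1 x hx
    have h4 : T ^ (-s).re = (T ^ s.re)⁻¹ := by
      rw [Complex.neg_re, Real.rpow_neg hT0.le]
    rw [h4]
    calc _ ≤ (T ^ s.re)⁻¹ * (4 * (1 + ‖s‖) ^ 2) * (C * (1 + ‖s‖) ^ 2 * (T ^ s.re * T ^ s.re)) := by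
          gcongr
      _ = 4 * C * (1 + ‖s‖) ^ 4 * T ^ s.re := by
          field_simp
      _ ≤ _ := by gcongr

/-- C3 -/
theorem exists_Yk_left (B : ℝ) (hB : 0 ≤ B) : ∃ C : ℝ, 1 ≤ C ∧ ∀ T : ℝ, 1 ≤ T →
    ∀ a b : ℝ, |a| ≤ B → |b| ≤ B → ∀ κ : Bool, ∀ s : ℂ, s.re = -(1 / 5) →
    ∀ x : ℝ, T ^ (7 / 8 : ℝ) / 2 ≤ x → x ≤ 3 * T →
      ‖Yk a b T κ s x‖ ≤ C * (1 + ‖s‖) ^ 8 * T ^ (-(3 / 20) : ℝ) := by
  obtain ⟨C, hC1, hC⟩ := CHI.exists_norm_chi_strip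
  refine ⟨8 * (C * (1 + B)) ^ 2, ?_, ?_⟩
  · have : 1 ≤ C * (1 + B) := by nlinarith
    have := one_le_pow₀ (n := 2) this
    linarith
  intro T hT a b ha hb κ s hre x hx1 hx2
  have hs := norm_nonneg s
  have hT0 : 0 < T := by linarith
  have h8 : (1 + ‖s‖) ^ 2 ≤ (1 + ‖s‖) ^ 8 := YKB_pow_le hs (by norm_num)
  have h84 : (1 + ‖s‖) ^ 4 ≤ (1 + ‖s‖) ^ 8 := YKB_pow_le hs (by norm_num)
  have hCB : 1 ≤ (C * (1 + B)) ^ 2 := by
    have : 1 ≤ C * (1 + B) := by nlinarith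
    exact one_le_pow₀ this
  have hp8 : 0 ≤ (1 + ‖s‖) ^ 8 := by positivity
  have hT3 : 0 < T ^ (-(3 / 20) : ℝ) := Real.rpow_pos_of_pos hT0 _
  cases κ
  · have e : Yk a b T false s x = (T : ℂ) ^ s * P1 a b s x := by simp [Yk]
    rw [e, norm_mul, YKB_norm_cpow hT0, hre]
    have h1 : T ^ (-(1 / 5) : ℝ) ≤ T ^ (-(3 / 20) : ℝ) :=
      Real.rpow_le_rpow_of_exponent_le hT (by norm_num)
    calc T ^ (-(1 / 5) : ℝ) * ‖P1 a b s x‖ ≤ T ^ (-(3 / 20) : ℝ) * (4 * (1 + ‖s‖) ^ 2) := by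
          gcongr
          exact YKB_P1_le a b s x
      _ ≤ T ^ (-(3 / 20) : ℝ) * (4 * (1 + ‖s‖) ^ 8) := by gcongr
      _ = 4 * 1 * (1 + ‖s‖) ^ 8 * T ^ (-(3 / 20) : ℝ) := by ring
      _ ≤ 8 * (C * (1 + B)) ^ 2 * (1 + ‖s‖) ^ 8 * T ^ (-(3 / 20) : ℝ) := by
          gcongr
          norm_num
  · have e : Yk a b T true s x = (T : ℂ) ^ (-s) * P1 a b (-s) x *
      (chi (1 / 2 + I * (x + a) - s) * chi (1 / 2 - I * (x + b) - s)) := by simp [Yk]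
    rw [e, norm_mul, norm_mul, norm_mul, YKB_norm_cpow hT0]
    have h2 := YKB_P1_le a b (-s) x
    rw [norm_neg] at h2
    have h4 : (-s).re = 1 / 5 := by rw [Complex.neg_re, hre]; norm_num
    rw [h4]
    have e1 := hC (1 / 2 + I * (x + a) - s) (by rw [YKB_w1_re]; linarith)
      (by rw [YKB_w1_re]; linarith)
    have e2 := hC (1 / 2 - I * (x + b) - s) (by rw [YKB_w2_re]; linarith)
      (by rw [YKB_w2_re]; linarith)
    rw [YKB_w1_re, YKB_w1_im, hre] at e1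
    rw [YKB_w2_re, YKB_w2_im, hre] at e2
    have e3 : (1 / 2 - (1 / 2 - -(1 / 5)) : ℝ) = -(1 / 5) := by norm_num
    rw [e3] at e1 e2
    have hx0 : 0 ≤ x := by
      have : 0 < T ^ (7 / 8 : ℝ) := Real.rpow_pos_of_pos hT0 _
      linarith
    have hT7 : 0 < T ^ (7 / 8 : ℝ) := Real.rpow_pos_of_pos hT0 _
    -- the key comparison
    have key : ∀ u v : ℝ, x ≤ |u| + |v| → |v| ≤ B + ‖s‖ →
        (1 + |u|) ^ (-(1 / 5) : ℝ) ≤ (1 + B) * (1 + ‖s‖) * (1 + x) ^ (-(1 / 5) : ℝ) := by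
      intro u v h5 h6
      have hu := abs_nonneg u
      have hv := abs_nonneg v
      have h7 : 1 + x ≤ (1 + |u|) * (1 + |v|) := by nlinarith
      have h8' : ((1 + |u|) * (1 + |v|)) ^ (-(1 / 5) : ℝ) ≤ (1 + x) ^ (-(1 / 5) : ℝ) :=
        Real.rpow_le_rpow_of_nonpos (by linarith) h7 (by norm_num)
      rw [Real.mul_rpow (by linarith) (by linarith)] at h8'
      have h9 : 0 < (1 + |v|) ^ (-(1 / 5) : ℝ) := Real.rpow_pos_of_pos (by linarith) _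
      have h10 : (1 + |v|) ^ (1 / 5 : ℝ) * (1 + |v|) ^ (-(1 / 5) : ℝ) = 1 := by
        rw [← Real.rpow_add (by linarith)]
        norm_num
      have h11 : (1 + |v|) ^ (1 / 5 : ℝ) ≤ (1 + B) * (1 + ‖s‖) := by
        calc (1 + |v|) ^ (1 / 5 : ℝ) ≤ (1 + |v|) ^ (1 : ℝ) :=
              Real.rpow_le_rpow_of_exponent_le (by linarith) (by norm_num)
          _ = 1 + |v| := Real.rpow_one _
          _ ≤ _ := by nlinarith
      have h12 : 0 ≤ (1 + |v|) ^ (1 / 5 : ℝ) := Real.rpow_nonneg (by linarith) _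
      have h13 : 0 ≤ (1 + x) ^ (-(1 / 5) : ℝ) := Real.rpow_nonneg (by linarith) _
      calc (1 + |u|) ^ (-(1 / 5) : ℝ)
          = (1 + |v|) ^ (1 / 5 : ℝ) * ((1 + |u|) ^ (-(1 / 5) : ℝ) * (1 + |v|) ^ (-(1 / 5) : ℝ)) := by
            rw [mul_comm ((1 + |u|) ^ (-(1 / 5) : ℝ)), ← mul_assoc, h10, one_mul]
        _ ≤ (1 + |v|) ^ (1 / 5 : ℝ) * (1 + x) ^ (-(1 / 5) : ℝ) :=
            mul_le_mul_of_nonneg_left h8' h12
        _ ≤ _ := mul_le_mul_of_nonneg_right h11 h13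
    have him := Complex.abs_im_le_norm s
    have k1 := key (x + a - s.im) (a - s.im) (by
      have : x = (x + a - s.im) - (a - s.im) := by ring
      calc x ≤ |x| := le_abs_self x
        _ = |(x + a - s.im) - (a - s.im)| := by rw [← this]
        _ ≤ _ := abs_sub _ _) (by
      have := abs_sub a s.im
      linarith)
    have k2 := key (-(x + b) - s.im) (b + s.im) (by
      have : -x = (-(x + b) - s.im) + (b + s.im) := by ring
      calc x ≤ |x| := le_abs_self x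
        _ = |-x| := (abs_neg x).symm
        _ = |(-(x + b) - s.im) + (b + s.im)| := by rw [← this]
        _ ≤ _ := abs_add_le _ _) (by
      have := abs_add_le b s.im
      linarith)
    have hC0 : 0 ≤ C := by linarith
    have hx13 : 0 ≤ (1 + x) ^ (-(1 / 5) : ℝ) := Real.rpow_nonneg (by linarith) _
    have hxx : (1 + x) ^ (-(1 / 5) : ℝ) * (1 + x) ^ (-(1 / 5) : ℝ) ≤ 2 * T ^ (-(7 / 20) : ℝ) := by
      rw [← Real.rpow_add (by linarith)]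
      have h5 : (1 + x) ^ (-(1 / 5) + -(1 / 5) : ℝ) ≤ (T ^ (7 / 8 : ℝ) / 2) ^ (-(1 / 5) + -(1 / 5) : ℝ) :=
        Real.rpow_le_rpow_of_nonpos (by linarith) (by linarith) (by norm_num)
      refine h5.trans ?_
      rw [Real.div_rpow hT7.le (by norm_num), ← Real.rpow_mul hT0.le]
      have h6 : (7 / 8 : ℝ) * (-(1 / 5) + -(1 / 5)) = -(7 / 20) := by norm_num
      rw [h6]
      have h7 : (1 / 2 : ℝ) ≤ 2 ^ (-(1 / 5) + -(1 / 5) : ℝ) := by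
        calc (1 / 2 : ℝ) = 2 ^ (-1 : ℝ) := by rw [Real.rpow_neg_one]; norm_num
          _ ≤ _ := Real.rpow_le_rpow_of_exponent_le (by norm_num) (by norm_num)
      have h9 : 0 < T ^ (-(7 / 20) : ℝ) := Real.rpow_pos_of_pos hT0 _
      rw [div_le_iff₀ (by linarith)]
      nlinarith
    have hT5 : 0 ≤ T ^ (1 / 5 : ℝ) := Real.rpow_nonneg hT0.le _
    calc T ^ (1 / 5 : ℝ) * ‖P1 a b (-s) x‖ *
          (‖chi (1 / 2 + I * (x + a) - s)‖ * ‖chi (1 / 2 - I * (x + b) - s)‖)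
        ≤ T ^ (1 / 5 : ℝ) * (4 * (1 + ‖s‖) ^ 2) *
          ((C * ((1 + B) * (1 + ‖s‖) * (1 + x) ^ (-(1 / 5) : ℝ))) *
            (C * ((1 + B) * (1 + ‖s‖) * (1 + x) ^ (-(1 / 5) : ℝ)))) := by
          gcongr
          · exact e1.trans (mul_le_mul_of_nonneg_left k1 hC0)
          · exact e2.trans (mul_le_mul_of_nonneg_left k2 hC0)
      _ = 4 * (C * (1 + B)) ^ 2 * (1 + ‖s‖) ^ 4 * (T ^ (1 / 5 : ℝ) *
            ((1 + x) ^ (-(1 / 5) : ℝ) * (1 + x) ^ (-(1 / 5) : ℝ))) := by ring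
      _ ≤ 4 * (C * (1 + B)) ^ 2 * (1 + ‖s‖) ^ 8 * (T ^ (1 / 5 : ℝ) *
            (2 * T ^ (-(7 / 20) : ℝ))) := by gcongr
      _ = 8 * (C * (1 + B)) ^ 2 * (1 + ‖s‖) ^ 8 * (T ^ (1 / 5 : ℝ) * T ^ (-(7 / 20) : ℝ)) := by ring
      _ = _ := by
          rw [← Real.rpow_add hT0]
          norm_num

/-- C4: a crude bound in the whole strip, for the contour shifts -/
theorem exists_Yk_crude (a b T x : ℝ) (hT : 0 < T) (κ : Bool) : ∃ C : ℝ, 0 ≤ C ∧ ∀ s : ℂ,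
    -(1 / 4) ≤ s.re → s.re ≤ 3 / 4 → ‖Yk a b T κ s x‖ ≤ C * (1 + ‖s‖) ^ 8 := by
  obtain ⟨C, hC1, hC⟩ := CHI.exists_norm_chi_strip
  -- powers of `T`
  have hpow : ∀ σ : ℝ, -(3 / 4) ≤ σ → σ ≤ 3 / 4 → T ^ σ ≤ T ^ (3 / 4 : ℝ) + T ^ (-(3 / 4) : ℝ) := by
    intro σ h1 h2
    have p1 : 0 < T ^ (3 / 4 : ℝ) := Real.rpow_pos_of_pos hT _
    have p2 : 0 < T ^ (-(3 / 4) : ℝ) := Real.rpow_pos_of_pos hT _
    rcases le_total 1 T with h | h
    · have := Real.rpow_le_rpow_of_exponent_le h h2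
      linarith
    · have := Real.rpow_le_rpow_of_exponent_ge hT h h1
      linarith
  set D : ℝ := T ^ (3 / 4 : ℝ) + T ^ (-(3 / 4) : ℝ) with hD
  have hD0 : 0 ≤ D := by positivity
  set B : ℝ := |a| + |b| with hB
  have hB0 : 0 ≤ B := by positivity
  have ha : |a| ≤ B := by linarith [abs_nonneg b]
  have hb : |b| ≤ B := by linarith [abs_nonneg a]
  refine ⟨4 * D * (C * (1 + |x| + B)) ^ 2 + 4 * D, by positivity, ?_⟩
  intro s h0 h1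
  have hs := norm_nonneg s
  have h8 : (1 + ‖s‖) ^ 2 ≤ (1 + ‖s‖) ^ 8 := YKB_pow_le hs (by norm_num)
  have h84 : (1 + ‖s‖) ^ 4 ≤ (1 + ‖s‖) ^ 8 := YKB_pow_le hs (by norm_num)
  have hp8 : 0 ≤ (1 + ‖s‖) ^ 8 := by positivity
  cases κ
  · have e : Yk a b T false s x = (T : ℂ) ^ s * P1 a b s x := by simp [Yk]
    rw [e, norm_mul, YKB_norm_cpow hT]
    have h2 : 0 ≤ 4 * D * (C * (1 + |x| + B)) ^ 2 * (1 + ‖s‖) ^ 8 := by positivity
    calc T ^ s.re * ‖P1 a b s x‖ ≤ D * (4 * (1 + ‖s‖) ^ 2) := by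
          refine mul_le_mul (hpow _ (by linarith) h1) (YKB_P1_le a b s x) (norm_nonneg _) hD0
      _ ≤ D * (4 * (1 + ‖s‖) ^ 8) := by gcongr
      _ ≤ _ := by linarith
  · have e : Yk a b T true s x = (T : ℂ) ^ (-s) * P1 a b (-s) x *
      (chi (1 / 2 + I * (x + a) - s) * chi (1 / 2 - I * (x + b) - s)) := by simp [Yk]
    rw [e, norm_mul, norm_mul, norm_mul, YKB_norm_cpow hT]
    have h2 := YKB_P1_le a b (-s) x
    rw [norm_neg] at h2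
    have e1 := hC (1 / 2 + I * (x + a) - s) (by rw [YKB_w1_re]; linarith)
      (by rw [YKB_w1_re]; linarith)
    have e2 := hC (1 / 2 - I * (x + b) - s) (by rw [YKB_w2_re]; linarith)
      (by rw [YKB_w2_re]; linarith)
    rw [YKB_w1_re, YKB_w1_im] at e1
    rw [YKB_w2_re, YKB_w2_im] at e2
    have e3 : 1 / 2 - (1 / 2 - s.re) = s.re := by ring
    rw [e3] at e1 e2
    have key : ∀ m : ℝ, 1 ≤ m → m ≤ 1 + |x| + B + ‖s‖ →
        m ^ s.re ≤ (1 + |x| + B) * (1 + ‖s‖) := by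
      intro m hm1 hm
      calc m ^ s.re ≤ m ^ (1 : ℝ) := Real.rpow_le_rpow_of_exponent_le hm1 (by linarith)
        _ = m := Real.rpow_one m
        _ ≤ 1 + |x| + B + ‖s‖ := hm
        _ ≤ _ := by nlinarith [abs_nonneg x, mul_nonneg (abs_nonneg x) hs, mul_nonneg hB0 hs]
    have k1 := key (1 + |x + a - s.im|) (by linarith [abs_nonneg (x + a - s.im)]) (YKB_abs1 ha)
    have k2 := key (1 + |-(x + b) - s.im|) (by linarith [abs_nonneg (-(x + b) - s.im)])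
      (YKB_abs2 hb)
    have hC0 : 0 ≤ C := by linarith
    have hx := abs_nonneg x
    have hre : (-s).re = -s.re := Complex.neg_re s
    calc T ^ (-s).re * ‖P1 a b (-s) x‖ *
          (‖chi (1 / 2 + I * (x + a) - s)‖ * ‖chi (1 / 2 - I * (x + b) - s)‖)
        ≤ D * (4 * (1 + ‖s‖) ^ 2) *
          ((C * ((1 + |x| + B) * (1 + ‖s‖))) * (C * ((1 + |x| + B) * (1 + ‖s‖)))) := by
          gcongr
          · rw [hre]
            exact hpow _ (by linarith) (by linarith)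
          · exact e1.trans (mul_le_mul_of_nonneg_left k1 hC0)
          · exact e2.trans (mul_le_mul_of_nonneg_left k2 hC0)
      _ = 4 * D * (C * (1 + |x| + B)) ^ 2 * (1 + ‖s‖) ^ 4 := by ring
      _ ≤ 4 * D * (C * (1 + |x| + B)) ^ 2 * (1 + ‖s‖) ^ 8 := by gcongr
      _ ≤ _ := by
          have : 0 ≤ 4 * D * (1 + ‖s‖) ^ 8 := by positivity
          linarith

end Pool.Agent.AAS
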