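import Pool.Agent.AAS.YKC
import Pool.Agent.AAS.YKB
import Pool.Agent.AAS.BLK
import Pool.Agent.AAS.RES


set_option autoImplicit false

namespace Pool.Agent.AAS

open Complex Finset MeasureTheory Filter Topology Set
open Pool.Agent.H26

/-- The entire function `(w - 1) ζ(w)`. -/
noncomputable def shfZ (w : ℂ) : ℂ := 1 + (w - 1) * riemannZeta₀ w

lemma shfZ_diff : Differentiable ℂ shfZ := by
  unfold shfZ
  exact ((differentiable_id.sub_const 1).mul differentiable_riemannZeta₀).const_add 1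

lemma shfZ_eq {w : ℂ} (hw : w ≠ 1) : riemannZeta w * (w - 1) = shfZ w := by
  have h : w - 1 ≠ 0 := sub_ne_zero.2 hw
  rw [riemannZeta_eq_inv_sub_add hw, shfZ]
  field_simp

lemma shfZ_norm {s : ℂ} (hs : 1 / 2 ≤ s.re) : ‖shfZ s‖ ≤ 3 * (1 + ‖s‖) ^ 2 := by
  have h0 : 0 < s.re := by linarith
  have h1 := norm_riemannZeta₀_le h0
  have h2 : ‖s‖ / s.re ≤ 2 * ‖s‖ := by
    rw [div_le_iff₀ h0]
    nlinarith [norm_nonneg s]
  have h3 : ‖s - 1‖ ≤ ‖s‖ + 1 := by
    have := norm_sub_le s 1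
    rwa [norm_one] at this
  unfold shfZ
  calc ‖1 + (s - 1) * riemannZeta₀ s‖ ≤ ‖(1 : ℂ)‖ + ‖(s - 1) * riemannZeta₀ s‖ := norm_add_le _ _
    _ = 1 + ‖s - 1‖ * ‖riemannZeta₀ s‖ := by rw [norm_one, norm_mul]
    _ ≤ 1 + (‖s‖ + 1) * (1 + 2 * ‖s‖) := by
        have : ‖riemannZeta₀ s‖ ≤ 1 + 2 * ‖s‖ := h1.trans (by linarith)
        have := mul_le_mul h3 this (norm_nonneg _) (by positivity)
        linarith
    _ ≤ 3 * (1 + ‖s‖) ^ 2 := by nlinarith [norm_nonneg s]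

lemma shf_gauss (n : ℕ) (y : ℝ) : (2 + |y|) ^ n * Real.exp (-y ^ 2) ≤
    n.factorial * Real.exp 3 * Real.exp (-(y ^ 2 / 2)) := by
  have h0 : 0 ≤ 2 + |y| := by positivity
  have h1 := Real.pow_div_factorial_le_exp (2 + |y|) h0 n
  have hn : (0:ℝ) < n.factorial := by exact_mod_cast n.factorial_pos
  rw [div_le_iff₀ hn] at h1
  have h2 : Real.exp (2 + |y|) * Real.exp (-y ^ 2) ≤ Real.exp 3 * Real.exp (-(y ^ 2 / 2)) := by
    rw [← Real.exp_add, ← Real.exp_add]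
    apply Real.exp_le_exp.2
    have : 0 ≤ (|y| - 1) ^ 2 := sq_nonneg _
    have h3 : |y| ^ 2 = y ^ 2 := sq_abs y
    nlinarith
  calc (2 + |y|) ^ n * Real.exp (-y ^ 2) ≤ (Real.exp (2 + |y|) * n.factorial) * Real.exp (-y ^ 2) := by
        gcongr
    _ = n.factorial * (Real.exp (2 + |y|) * Real.exp (-y ^ 2)) := by ring
    _ ≤ n.factorial * (Real.exp 3 * Real.exp (-(y ^ 2 / 2))) := by gcongr
    _ = _ := by ring

lemma shf_int (K : ℝ) : Integrable fun y : ℝ => K * Real.exp (-(y ^ 2 / 2)) := by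
  have h := (integrable_exp_neg_mul_sq (b := 1 / 2) (by norm_num)).const_mul K
  refine h.congr (Eventually.of_forall fun y => ?_)
  simp only
  congr 2
  ring

lemma shf_top (K : ℝ) : Tendsto (fun y : ℝ => K * Real.exp (-(y ^ 2 / 2))) atTop (𝓝 0) := by
  have h1 : Tendsto (fun y : ℝ => y ^ 2 / 2) atTop atTop :=
    (tendsto_pow_atTop two_ne_zero).atTop_div_const two_pos
  have h2 := (Real.tendsto_exp_neg_atTop_nhds_zero.comp h1).const_mul K
  rwa [mul_zero] at h2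

lemma shf_bot (K : ℝ) : Tendsto (fun y : ℝ => K * Real.exp (-(y ^ 2 / 2))) atBot (𝓝 0) := by
  have h := (shf_top K).comp tendsto_neg_atBot_atTop
  refine h.congr fun y => ?_
  simp

lemma shf_pos {j : ℕ} {p : ℕ × ℕ} (hp : p ∈ blk j) : 1 ≤ p.1 * p.2 :=
  (Nat.one_le_two_pow).trans (mem_blk.1 hp).2.1

lemma shf_pos1 {j : ℕ} {p : ℕ × ℕ} (hp : p ∈ blk j) : (p.1 : ℂ) ≠ 0 := by
  have := shf_pos hp
  have : p.1 ≠ 0 := by
    intro h
    rw [h] at this
    simp at this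
  exact_mod_cast this

lemma shf_pos2 {j : ℕ} {p : ℕ × ℕ} (hp : p ∈ blk j) : (p.2 : ℂ) ≠ 0 := by
  have := shf_pos hp
  have : p.2 ≠ 0 := by
    intro h
    rw [h] at this
    simp at this
  exact_mod_cast this

lemma shf_norm_osc (r x : ℝ) : ‖cexp (-(I * r * x))‖ = 1 := by
  rw [Complex.norm_exp]
  simp

lemma shf_DP_le (j : ℕ) (a b : ℝ) {s : ℂ} (hs : -(1 / 2) ≤ s.re) (x : ℝ) :
    ‖DP (blk j) a b s x‖ ≤ ((blk j).card : ℝ) := by
  unfold DP
  refine (norm_sum_le _ _).trans ?_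
  calc ∑ p ∈ blk j, ‖cf a b s p * cexp (-(I * lq p * x))‖ ≤ ∑ p ∈ blk j, (1:ℝ) := by
        refine Finset.sum_le_sum fun p hp => ?_
        rw [norm_mul, shf_norm_osc, mul_one, norm_cf a b s (shf_pos hp)]
        apply Real.rpow_le_one_of_one_le_of_nonpos
        · exact_mod_cast shf_pos hp
        · linarith
    _ = _ := by simp

lemma shf_DP_diff (j : ℕ) (a b x : ℝ) : Differentiable ℂ fun s => DP (blk j) a b s x := by
  unfold DP cf
  intro s
  refine DifferentiableAt.fun_sum fun p hp => ?_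
  refine DifferentiableAt.mul_const (DifferentiableAt.mul ?_ ?_) _
  · exact DifferentiableAt.const_cpow (by fun_prop) (Or.inl (shf_pos1 hp))
  · exact DifferentiableAt.const_cpow (by fun_prop) (Or.inl (shf_pos2 hp))

/-- The difference of the swapped shifts. -/
def shfD (κ : Bool) (a b : ℝ) : ℝ := sw κ a b - sw κ b a

lemma shfD_sq (κ : Bool) (a b : ℝ) : shfD κ a b ^ 2 = (a - b) ^ 2 := by
  cases κ <;> simp [shfD, sw]
  ring

lemma shfD_ne {a b : ℝ} (hab : a ≠ b) (κ : Bool) : shfD κ a b ≠ 0 := by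
  intro h
  have h1 := shfD_sq κ a b
  rw [h] at h1
  have : a - b = 0 := by
    have : (a - b) ^ 2 = 0 := by rw [← h1]; norm_num
    exact pow_eq_zero_iff (two_ne_zero) |>.1 this
  exact hab (by linarith)

/-- `s` times the integrand, without the removable singularity. -/
noncomputable def shfh (a b T : ℝ) (κ : Bool) (j : ℕ) (x : ℝ) (s : ℂ) : ℂ :=
  cexp (s ^ 2) * (-I * (shfD κ a b + 2 * I * s) / (shfD κ a b : ℂ) ^ 2) *
    shfZ (1 + 2 * s + I * shfD κ a b) * Yk a b T κ s x * DP (blk j) (sw κ a b) (sw κ b a) s x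

lemma shf_alg {D : ℂ} (hD : D ≠ 0) (s : ℂ) :
    1 + 4 * s ^ 2 / D ^ 2 = -I * (D + 2 * I * s) / D ^ 2 * (2 * s + I * D) := by
  field_simp
  linear_combination (D ^ 2 + 4 * s ^ 2 + 2 * I * s * D) * I_sq

lemma shf_AI_eq {a b : ℝ} (hab : a ≠ b) (T : ℝ) (κ : Bool) (j : ℕ) (x : ℝ) {s : ℂ}
    (hs : s.re ≠ 0) : AI a b T κ j s x = shfh a b T κ j x s / s := by
  have hs0 : s ≠ 0 := by rintro rfl; simp at hs
  have hD : (shfD κ a b : ℂ) ≠ 0 := by exact_mod_cast shfD_ne hab κ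
  have hab' : ((a - b : ℝ) : ℂ) ^ 2 = (shfD κ a b : ℂ) ^ 2 := by
    exact_mod_cast (shfD_sq κ a b).symm
  have hw : (1 + 2 * s + I * shfD κ a b : ℂ) ≠ 1 := by
    intro h
    have := congrArg Complex.re h
    simp at this
    exact hs this
  have hz := shfZ_eq hw
  have h1 : (I * (sw κ a b - sw κ b a : ℂ)) = I * shfD κ a b := by
    unfold shfD
    push_cast
    ring
  unfold AI KD shfh
  rw [h1, hab', ← hz, shf_alg hD s]
  have e : (1 + 2 * s + I * (shfD κ a b : ℂ) - 1) = 2 * s + I * (shfD κ a b : ℂ) := by ring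
  rw [e]
  ring

lemma shf_h_diff {a b T : ℝ} (hT : 0 < T) (κ : Bool) (j : ℕ) (x : ℝ) {s : ℂ}
    (hs : -(1 / 2) < s.re) : DifferentiableAt ℂ (shfh a b T κ j x) s := by
  unfold shfh
  refine DifferentiableAt.mul (DifferentiableAt.mul (DifferentiableAt.mul (DifferentiableAt.mul
    ?_ ?_) ?_) ?_) ?_
  · fun_prop
  · fun_prop
  · exact (shfZ_diff _).comp s (by fun_prop)
  · exact differentiableAt_Yk a b T x hT κ hs
  · exact shf_DP_diff j _ _ x s

lemma shf_norm_line {u v : ℝ} (hu : |u| ≤ 1) : ‖(u : ℂ) + v * I‖ ≤ 1 + |v| := by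
  refine (norm_add_le _ _).trans ?_
  rw [norm_mul, Complex.norm_I, mul_one, Complex.norm_real, Complex.norm_real, Real.norm_eq_abs,
    Real.norm_eq_abs]
  linarith

lemma shf_exp_le {u v : ℝ} (hu : |u| ≤ 1) : ‖cexp (((u : ℂ) + v * I) ^ 2)‖ ≤
    Real.exp 1 * Real.exp (-v ^ 2) := by
  rw [Complex.norm_exp, ← Real.exp_add]
  apply Real.exp_le_exp.2
  have h : (((u : ℂ) + v * I) ^ 2).re = u ^ 2 - v ^ 2 := by
    simp [sq]
  rw [h]
  have : u ^ 2 ≤ 1 := by
    rw [← sq_abs]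
    exact pow_le_one₀ (abs_nonneg _) hu
  linarith

/-- bound of the regularized integrand -/
lemma shf_h_le {a b T : ℝ} (hT : 0 < T) (κ : Bool) (j : ℕ) (x : ℝ) :
    ∃ K : ℝ, 0 ≤ K ∧ ∀ u v : ℝ, -(1 / 5) ≤ u → u ≤ 3 / 4 →
    ‖shfh a b T κ j x (u + v * I)‖ ≤ K * Real.exp (-(v ^ 2 / 2)) := by
  obtain ⟨C, hC0, hC⟩ := exists_Yk_crude a b T x hT κ
  set D : ℝ := shfD κ a b with hD
  set N : ℝ := ((blk j).card : ℝ) with hN
  have hN0 : 0 ≤ N := by positivity
  set K0 : ℝ := Real.exp 1 * ((|D| + 2) / D ^ 2) * (3 * (2 + |D|) ^ 2) * C * N with hK0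
  have hK00 : 0 ≤ K0 := by positivity
  refine ⟨K0 * ((Nat.factorial 11 : ℝ) * Real.exp 3), by positivity, fun u v hu1 hu2 => ?_⟩
  have hu : |u| ≤ 1 := abs_le.2 ⟨by linarith, by linarith⟩
  set s : ℂ := (u : ℂ) + v * I with hs
  have hre : s.re = u := by simp [hs]
  have hsn : ‖s‖ ≤ 1 + |v| := shf_norm_line hu
  set n : ℝ := 1 + ‖s‖ with hn
  have hn1 : 1 ≤ n := by have := norm_nonneg s; linarith
  have hnv : n ≤ 2 + |v| := by linarith
  have h1 : ‖cexp (s ^ 2)‖ ≤ Real.exp 1 * Real.exp (-v ^ 2) := shf_exp_le hu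
  have h2 : ‖-I * ((D : ℂ) + 2 * I * s) / (D : ℂ) ^ 2‖ ≤ (|D| + 2) / D ^ 2 * n := by
    rw [norm_div, norm_mul, norm_neg, Complex.norm_I, one_mul, norm_pow, Complex.norm_real,
      Real.norm_eq_abs, sq_abs, div_mul_eq_mul_div]
    gcongr
    refine (norm_add_le _ _).trans ?_
    rw [norm_mul, norm_mul, Complex.norm_I, Complex.norm_real, Real.norm_eq_abs]
    have h2n : ‖(2:ℂ)‖ = 2 := by simp
    rw [h2n, hn]
    nlinarith [abs_nonneg D, norm_nonneg s]
  have h3 : ‖shfZ (1 + 2 * s + I * D)‖ ≤ 3 * (2 + |D|) ^ 2 * n ^ 2 := by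
    refine (shfZ_norm ?_).trans ?_
    · simp [hre]
      linarith
    · have h31 : 1 + ‖1 + 2 * s + I * (D : ℂ)‖ ≤ (2 + |D|) * n := by
        have h4 : ‖1 + 2 * s + I * (D : ℂ)‖ ≤ 1 + 2 * ‖s‖ + |D| := by
          refine (norm_add_le _ _).trans ?_
          rw [norm_mul, Complex.norm_I, one_mul, Complex.norm_real, Real.norm_eq_abs]
          gcongr
          refine (norm_add_le _ _).trans ?_
          rw [norm_one, norm_mul]
          simp
        rw [hn]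
        nlinarith [abs_nonneg D, norm_nonneg s]
      calc 3 * (1 + ‖1 + 2 * s + I * (D : ℂ)‖) ^ 2 ≤ 3 * ((2 + |D|) * n) ^ 2 := by gcongr
        _ = _ := by ring
  have h4 : ‖Yk a b T κ s x‖ ≤ C * n ^ 8 := hC s (by rw [hre]; linarith) (by rw [hre]; linarith)
  have h5 : ‖DP (blk j) (sw κ a b) (sw κ b a) s x‖ ≤ N :=
    shf_DP_le j _ _ (by rw [hre]; linarith) x
  unfold shfh
  rw [← hD, norm_mul, norm_mul, norm_mul, norm_mul]
  calc ‖cexp (s ^ 2)‖ * ‖-I * ((D : ℂ) + 2 * I * s) / (D : ℂ) ^ 2‖ *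
        ‖shfZ (1 + 2 * s + I * D)‖ * ‖Yk a b T κ s x‖ *
        ‖DP (blk j) (sw κ a b) (sw κ b a) s x‖
      ≤ (Real.exp 1 * Real.exp (-v ^ 2)) * ((|D| + 2) / D ^ 2 * n) *
        (3 * (2 + |D|) ^ 2 * n ^ 2) * (C * n ^ 8) * N := by gcongr
    _ = K0 * (n ^ 11 * Real.exp (-v ^ 2)) := by rw [hK0]; ring
    _ ≤ K0 * ((2 + |v|) ^ 11 * Real.exp (-v ^ 2)) := by gcongr
    _ ≤ K0 * ((Nat.factorial 11 : ℝ) * Real.exp 3 * Real.exp (-(v ^ 2 / 2))) := by
        have := shf_gauss 11 v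
        gcongr
    _ = _ := by ring

lemma shf_LIb_eq {a b : ℝ} (hab : a ≠ b) (T : ℝ) (κ : Bool) (j : ℕ) (x : ℝ) {c : ℝ}
    (hc : c ≠ 0) : LIb a b T κ j c x = LI c (fun s => shfh a b T κ j x s / s) := by
  unfold LIb LI
  congr 1
  refine integral_congr_ae (Eventually.of_forall fun y => ?_)
  exact shf_AI_eq hab T κ j x (by simpa using hc)

/-- The Gaussian integral. -/
noncomputable def shfG : ℝ := ∫ y : ℝ, Real.exp (-(y ^ 2 / 2))

lemma shfG_nonneg : 0 ≤ shfG := integral_nonneg fun _ => (Real.exp_pos _).le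

lemma shf_LI_le {g : ℂ → ℂ} {c K : ℝ} (_hK : 0 ≤ K)
    (h : ∀ y : ℝ, ‖g (c + y * I)‖ ≤ K * Real.exp (-(y ^ 2 / 2))) : ‖LI c g‖ ≤ K * shfG := by
  unfold LI
  rw [norm_mul]
  have h1 : ‖∫ y : ℝ, g (c + y * I)‖ ≤ K * shfG := by
    have := norm_integral_le_of_norm_le (shf_int K) (Eventually.of_forall h)
    rwa [integral_const_mul] at this
  have h2 : ‖(2 * Real.pi : ℂ)⁻¹‖ ≤ 1 := by
    have h3 : (2 * Real.pi : ℂ) = ((2 * Real.pi : ℝ) : ℂ) := by push_cast; ring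
    rw [norm_inv, h3, Complex.norm_real, Real.norm_of_nonneg (by positivity)]
    apply inv_le_one_of_one_le₀
    have := Real.pi_gt_three
    linarith
  calc ‖(2 * Real.pi : ℂ)⁻¹‖ * ‖∫ y : ℝ, g (c + y * I)‖ ≤ 1 * (K * shfG) := by
        gcongr
    _ = _ := one_mul _

lemma shf_zeta_le {B : ℝ} (κ : Bool) {a b : ℝ} (ha : |a| ≤ B) (hb : |b| ≤ B) {c : ℝ}
    (hc : c ≠ 0) (hc1 : -(1 / 4) ≤ c) (y : ℝ) :
    ‖riemannZeta (1 + 2 * ((c : ℂ) + y * I) + I * (sw κ a b - sw κ b a))‖ ≤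
      (1 / |c| + 5 + 4 * B) * (1 + ‖(c : ℂ) + y * I‖) := by
  have hB : 0 ≤ B := (abs_nonneg a).trans ha
  have hD : |sw κ a b - sw κ b a| ≤ 2 * B := by
    have h1 := abs_le.1 ha
    have h2 := abs_le.1 hb
    cases κ <;> simp only [sw, if_true, if_false, Bool.false_eq_true] <;>
      exact abs_le.2 ⟨by linarith [h1.1, h1.2, h2.1, h2.2], by linarith [h1.1, h1.2, h2.1, h2.2]⟩
  set D : ℝ := sw κ a b - sw κ b a with hDD
  have hcast : (sw κ a b - sw κ b a : ℂ) = (D : ℂ) := by rw [hDD]; push_cast; ring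
  rw [hcast]
  set s : ℂ := (c : ℂ) + y * I with hs
  have hre : s.re = c := by simp [hs]
  set w : ℂ := 1 + 2 * s + I * D with hw
  have hwre : w.re = 1 + 2 * c := by simp [hw, hre]
  have hw1 : w ≠ 1 := by
    intro h
    have h1 := congrArg Complex.re h
    rw [hwre] at h1
    simp at h1
    exact hc h1
  have h1 := norm_riemannZeta_le (s := w) (by rw [hwre]; linarith) hw1
  have hc0 : 0 < |c| := abs_pos.2 hc
  have h2 : ‖w - 1‖⁻¹ ≤ 1 / |c| := by
    rw [← one_div]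
    apply one_div_le_one_div_of_le hc0
    have h3 := Complex.abs_re_le_norm (w - 1)
    have h4 : (w - 1).re = 2 * c := by
      rw [Complex.sub_re, hwre]
      simp
    rw [h4, abs_mul, abs_two] at h3
    linarith
  have hwn : ‖w‖ ≤ 1 + 2 * ‖s‖ + 2 * B := by
    rw [hw]
    refine (norm_add_le _ _).trans ?_
    rw [norm_mul, Complex.norm_I, one_mul, Complex.norm_real, Real.norm_eq_abs]
    gcongr
    refine (norm_add_le _ _).trans ?_
    rw [norm_one, norm_mul]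
    simp
  have h3 : ‖w‖ / w.re ≤ 2 * ‖w‖ := by
    rw [div_le_iff₀ (by rw [hwre]; linarith), hwre]
    nlinarith [norm_nonneg w]
  have h5 : 0 ≤ 1 / |c| := by positivity
  have h6 := norm_nonneg s
  nlinarith [mul_nonneg h5 h6, mul_nonneg hB h6]

/-- D3: moving the line of a block -/
theorem LIb_shift {a b : ℝ} (hab : a ≠ b) {T : ℝ} (hT : 0 < T) (κ : Bool) (j : ℕ) (x : ℝ)
    {c : ℝ} (hc : 0 < c) (hc1 : c ≤ 3 / 4) : LIb a b T κ j (3 / 4) x = LIb a b T κ j c x := by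
  rw [shf_LIb_eq hab T κ j x (by norm_num), shf_LIb_eq hab T κ j x hc.ne']
  obtain ⟨K, hK0, hK⟩ := shf_h_le (a := a) (b := b) hT κ j x
  unfold LI
  congr 1
  refine integral_vertical_shift (f := fun s => shfh a b T κ j x s / s) hc1 ?_
    (m := fun y => K / c * Real.exp (-(y ^ 2 / 2))) ?_ (shf_int _) (shf_top _) (shf_bot _)
  · intro z h1 _
    refine (shf_h_diff hT κ j x (by linarith)).div differentiableAt_id ?_
    rintro rfl
    simp at h1
    linarith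
  · intro u v h1 h2
    have h3 := hK u v (by linarith) h2
    have h4 : c ≤ ‖(u : ℂ) + v * I‖ := by
      have := Complex.abs_re_le_norm ((u : ℂ) + v * I)
      simp at this
      exact (h1.trans (le_abs_self u)).trans this
    simp only [norm_div]
    rw [div_mul_eq_mul_div]
    gcongr

theorem LIb_res {a b : ℝ} (hab : a ≠ b) {T : ℝ} (hT : 0 < T) (κ : Bool) (j : ℕ) (x : ℝ) :
    LIb a b T κ j (3 / 4) x = (if κ then XX a b x *
        (riemannZeta (1 + I * (b - a)) * DP (blk j) b a 0 x)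
      else riemannZeta (1 + I * (a - b)) * DP (blk j) a b 0 x) +
      LIb a b T κ j (-(1 / 5)) x := by
  rw [shf_LIb_eq hab T κ j x (by norm_num), shf_LIb_eq hab T κ j x (by norm_num)]
  obtain ⟨K, hK0, hK⟩ := shf_h_le (a := a) (b := b) hT κ j x
  have h := LI_res (h := shfh a b T κ j x) (a := -(1 / 5)) (b := 3 / 4) (by norm_num)
    (by norm_num) (fun z h1 _ => shf_h_diff hT κ j x (by linarith))
    (m := fun y => K * Real.exp (-(y ^ 2 / 2)))
    (fun u v h1 h2 => hK u v h1 h2) (shf_int _) (shf_top _) (shf_bot _)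
  rw [sub_eq_iff_eq_add] at h
  rw [h]
  congr 1
  have hD : (shfD κ a b : ℂ) ≠ 0 := by exact_mod_cast shfD_ne hab κ
  have hw : (1 + I * shfD κ a b : ℂ) ≠ 1 := by
    intro h
    have h1 : I * (shfD κ a b : ℂ) = 0 := by linear_combination h
    rcases mul_eq_zero.1 h1 with h2 | h2
    · exact I_ne_zero h2
    · exact hD h2
  have hz := shfZ_eq hw
  have hY : Yk a b T κ 0 x = if κ then XX a b x else 1 := by
    cases κ
    · simp [Yk, P1]
    · simp [Yk, P1, XX]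
  have e1 : shfh a b T κ j x 0 = riemannZeta (1 + I * shfD κ a b) *
      Yk a b T κ 0 x * DP (blk j) (sw κ a b) (sw κ b a) 0 x := by
    unfold shfh
    have e2 : (1 + 2 * 0 + I * shfD κ a b : ℂ) = 1 + I * shfD κ a b := by ring
    rw [e2, ← hz]
    simp only [ne_eq, OfNat.ofNat_ne_zero, not_false_eq_true, zero_pow, Complex.exp_zero, mul_zero,
      add_zero, one_mul]
    field_simp
    ring_nf
    simp only [I_sq]
    ring
  rw [e1, hY]
  cases κ
  · simp [shfD, sw]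
  · simp [shfD, sw]
    ring

end Pool.Agent.AAS
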