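import Pool.Agent.AAS.RES
import Pool.Agent.AAS.SHF
import Pool.Agent.H26.SP.ZHI


set_option autoImplicit false

namespace Pool.Agent.AAS

open Complex Finset MeasureTheory Filter Topology Set
open Pool.Agent.H26

/-- The regularized integrand. -/
noncomputable def af1H (N v : ℝ) (s : ℂ) : ℂ :=
  cexp (s ^ 2) * ((N : ℂ) ^ s * (-(shfZ (1 / 2 + I * v + s)) / (1 / 2 - I * v)))

lemma af1_ne (v : ℝ) : (1 / 2 - I * (v : ℂ)) ≠ 0 := by
  intro h
  have h1 := YKB_half_le' v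
  rw [h, norm_zero] at h1
  norm_num at h1

lemma af1_eq (N v : ℝ) {s : ℂ} (hs : s ≠ 1 / 2 - I * v) :
    af1H N v s = cexp (s ^ 2) * ((N : ℂ) ^ s * (1 - s / (1 / 2 - I * v)) *
      riemannZeta (1 / 2 + I * v + s)) := by
  have h1 : (1 / 2 + I * v + s : ℂ) ≠ 1 := by
    intro h
    apply hs
    linear_combination h
  have h2 := af1_ne v
  rw [af1H, ← shfZ_eq h1]
  have e : -(riemannZeta (1 / 2 + I * v + s) * (1 / 2 + I * v + s - 1)) / (1 / 2 - I * v) =
      (1 - s / (1 / 2 - I * v)) * riemannZeta (1 / 2 + I * v + s) := by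
    rw [div_eq_iff h2]
    have e1 : (1 - s / (1 / 2 - I * v)) * (1 / 2 - I * v : ℂ) = 1 / 2 - I * v - s := by
      rw [sub_mul, div_mul_cancel₀ _ h2, one_mul]
    calc _ = (1 / 2 - I * v - s) * riemannZeta (1 / 2 + I * v + s) := by ring
      _ = ((1 - s / (1 / 2 - I * v)) * (1 / 2 - I * v)) * riemannZeta (1 / 2 + I * v + s) := by
          rw [e1]
      _ = _ := by ring
  rw [e]
  ring

lemma af1_diff {N : ℝ} (hN : 0 < N) (v : ℝ) : Differentiable ℂ (af1H N v) := by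
  have hN' : (N : ℂ) ≠ 0 := by exact_mod_cast hN.ne'
  unfold af1H
  refine Differentiable.mul (by fun_prop) ?_
  refine Differentiable.mul ?_ ?_
  · intro s
    exact differentiableAt_id.const_cpow (Or.inl hN')
  · refine Differentiable.div_const ?_ _
    refine Differentiable.neg ?_
    exact shfZ_diff.comp (by fun_prop : Differentiable ℂ fun s : ℂ => (1 / 2 + I * v + s : ℂ))

lemma af1_zero (N v : ℝ) : af1H N v 0 = riemannZeta (1 / 2 + I * v) := by
  rw [af1_eq N v (fun h => af1_ne v h.symm)]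
  simp

lemma af1_shfZ : ∃ C : ℝ, 0 ≤ C ∧ ∀ w : ℂ, -(1 / 4) ≤ w.re →
    ‖shfZ w‖ ≤ C * (1 + ‖w‖) ^ 4 := by
  obtain ⟨C, hC, hb⟩ := ZHI.exists_norm_zeta_left 1
  refine ⟨C + 3, by linarith, fun w hw => ?_⟩
  have h0 : (1:ℝ) ≤ 1 + ‖w‖ := by linarith [norm_nonneg w]
  rcases le_total (1 / 2) w.re with h | h
  · refine (shfZ_norm h).trans ?_
    have h1 : (1 + ‖w‖) ^ 2 ≤ (1 + ‖w‖) ^ 4 := pow_le_pow_right₀ h0 (by norm_num)
    have h2 : 0 ≤ C * (1 + ‖w‖) ^ 4 := by positivity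
    nlinarith
  · have h1 : w ≠ 1 := by
      rintro rfl
      norm_num at h
    have h2 := hb w (by push_cast; linarith) h
    have h3 : 1 + |w.im| ≤ 1 + ‖w‖ := by linarith [Complex.abs_im_le_norm w]
    have h4 : ‖w - 1‖ ≤ 1 + ‖w‖ := by
      have := norm_sub_le w 1
      rw [norm_one] at this
      linarith
    rw [← shfZ_eq h1, norm_mul]
    calc ‖riemannZeta w‖ * ‖w - 1‖ ≤ (C * (1 + |w.im|) ^ (1 + 2)) * (1 + ‖w‖) := by gcongr
      _ ≤ (C * (1 + ‖w‖) ^ (1 + 2)) * (1 + ‖w‖) := by gcongr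
      _ = C * (1 + ‖w‖) ^ 4 := by ring
      _ ≤ (C + 3) * (1 + ‖w‖) ^ 4 := by
        have : (0:ℝ) ≤ (1 + ‖w‖) ^ 4 := by positivity
        nlinarith

lemma af1_bound {N : ℝ} (hN : 0 < N) (v : ℝ) : ∃ K : ℝ, ∀ x y : ℝ, -(3 / 4) ≤ x → x ≤ 3 / 4 →
    ‖af1H N v (x + y * I)‖ ≤ K * Real.exp (-(y ^ 2 / 2)) := by
  obtain ⟨C, hC, hb⟩ := af1_shfZ
  refine ⟨Real.exp 1 * ((N ^ (3 / 4 : ℝ) + N ^ (-(3 / 4) : ℝ)) * (2 * (C * (2 + |v|) ^ 4))) *
    ((4 : ℕ).factorial * Real.exp 3), fun x y hx hx' => ?_⟩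
  have hx1 : |x| ≤ 1 := abs_le.2 ⟨by linarith, by linarith⟩
  have h1 := shf_exp_le (u := x) (v := y) hx1
  have h2 : ‖(N : ℂ) ^ ((x : ℂ) + y * I)‖ ≤ N ^ (3 / 4 : ℝ) + N ^ (-(3 / 4) : ℝ) := by
    rw [Complex.norm_cpow_eq_rpow_re_of_pos hN]
    have hre : ((x : ℂ) + y * I).re = x := by simp
    rw [hre]
    have p1 : 0 < N ^ (3 / 4 : ℝ) := Real.rpow_pos_of_pos hN _
    have p2 : 0 < N ^ (-(3 / 4) : ℝ) := Real.rpow_pos_of_pos hN _
    rcases le_total 1 N with h | h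
    · have := Real.rpow_le_rpow_of_exponent_le h hx'
      linarith
    · have := Real.rpow_le_rpow_of_exponent_ge hN h hx
      linarith
  have h3 : ‖(1 / 2 + I * v + ((x : ℂ) + y * I) : ℂ)‖ ≤ 1 + |v| + (1 + |y|) := by
    have e1 := shf_norm_line (u := x) (v := y) hx1
    have e2 : ‖(1 / 2 + I * v : ℂ)‖ ≤ 1 + |v| := by
      refine (norm_add_le _ _).trans ?_
      rw [norm_mul, Complex.norm_I, one_mul, Complex.norm_real, Real.norm_eq_abs]
      norm_num
    exact (norm_add_le _ _).trans (add_le_add e2 e1)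
  have h4 : (1 / 2 + I * v + ((x : ℂ) + y * I) : ℂ).re = 1 / 2 + x := by simp
  have h5 := hb (1 / 2 + I * v + ((x : ℂ) + y * I)) (by rw [h4]; linarith)
  have h6 : ‖shfZ (1 / 2 + I * v + ((x : ℂ) + y * I))‖ ≤ C * (2 + |v|) ^ 4 * (2 + |y|) ^ 4 := by
    refine h5.trans ?_
    have e1 : 1 + ‖(1 / 2 + I * v + ((x : ℂ) + y * I) : ℂ)‖ ≤ (2 + |v|) * (2 + |y|) := by
      nlinarith [abs_nonneg v, abs_nonneg y, mul_nonneg (abs_nonneg v) (abs_nonneg y)]
    calc C * (1 + ‖(1 / 2 + I * v + ((x : ℂ) + y * I) : ℂ)‖) ^ 4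
        ≤ C * ((2 + |v|) * (2 + |y|)) ^ 4 := by gcongr
      _ = _ := by ring
  have h7 : ‖(-(shfZ (1 / 2 + I * v + ((x : ℂ) + y * I))) / (1 / 2 - I * v) : ℂ)‖ ≤
      2 * (C * (2 + |v|) ^ 4) * (2 + |y|) ^ 4 := by
    rw [norm_div, norm_neg, div_le_iff₀ (by linarith [YKB_half_le' v])]
    have e1 := YKB_half_le' v
    have e2 : 0 ≤ 2 * (C * (2 + |v|) ^ 4) * (2 + |y|) ^ 4 := by positivity
    nlinarith
  have h8 := shf_gauss 4 y
  rw [af1H, norm_mul, norm_mul]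
  have hG : 0 ≤ Real.exp (-y ^ 2) := (Real.exp_pos _).le
  have hN1 : 0 ≤ N ^ (3 / 4 : ℝ) + N ^ (-(3 / 4) : ℝ) := by positivity
  calc _ ≤ (Real.exp 1 * Real.exp (-y ^ 2)) * ((N ^ (3 / 4 : ℝ) + N ^ (-(3 / 4) : ℝ)) *
        (2 * (C * (2 + |v|) ^ 4) * (2 + |y|) ^ 4)) := by gcongr
    _ = Real.exp 1 * ((N ^ (3 / 4 : ℝ) + N ^ (-(3 / 4) : ℝ)) * (2 * (C * (2 + |v|) ^ 4))) *
        ((2 + |y|) ^ 4 * Real.exp (-y ^ 2)) := by ring
    _ ≤ Real.exp 1 * ((N ^ (3 / 4 : ℝ) + N ^ (-(3 / 4) : ℝ)) * (2 * (C * (2 + |v|) ^ 4))) *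
        ((4 : ℕ).factorial * Real.exp 3 * Real.exp (-(y ^ 2 / 2))) := by gcongr
    _ = _ := by ring

lemma af1_chi {s : ℂ} (hs0 : s ≠ 0) (hs1 : 1 - s ≠ 0) (hG1 : Gamma (s / 2) ≠ 0)
    (hG2 : Gamma ((1 - s) / 2) ≠ 0) : riemannZeta s = chi s * riemannZeta (1 - s) := by
  have hpi : (Real.pi : ℂ) ≠ 0 := by exact_mod_cast Real.pi_ne_zero
  rw [riemannZeta_def_of_ne_zero hs0, riemannZeta_def_of_ne_zero hs1, completedRiemannZeta_one_sub,
    Complex.Gammaℝ_def, Complex.Gammaℝ_def, chi]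
  have e1 : (Real.pi : ℂ) ^ (s - 1 / 2) = (Real.pi : ℂ) ^ (-(1 - s) / 2) / (Real.pi : ℂ) ^ (-s / 2) := by
    rw [← Complex.cpow_sub _ _ hpi]
    congr 1
    ring
  have h2 : (Real.pi : ℂ) ^ (-(1 - s) / 2) ≠ 0 := (Complex.cpow_ne_zero_iff_of_exponent_ne_zero (by
    intro h
    have h3 : 1 - s = 0 := by linear_combination (-2) * h
    exact hs1 h3)).2 hpi
  have h3 : (Real.pi : ℂ) ^ (-s / 2) ≠ 0 := (Complex.cpow_ne_zero_iff_of_exponent_ne_zero (by
    intro h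
    have h3 : s = 0 := by linear_combination (-2) * h
    exact hs0 h3)).2 hpi
  rw [e1]
  field_simp

/-- E5a: exact approximate functional equation of `ζ(1/2 + iv)` -/
theorem zeta_single_AFE {N : ℝ} (hN : 0 < N) (v : ℝ) :
    riemannZeta (1 / 2 + I * v) =
      LI (3 / 4) (fun s => cexp (s ^ 2) / s * ((N : ℂ) ^ s * (1 - s / (1 / 2 - I * v)) *
        riemannZeta (1 / 2 + I * v + s))) +
      LI (3 / 4) (fun s => cexp (s ^ 2) / s * ((N : ℂ) ^ (-s) * (1 + s / (1 / 2 - I * v)) *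
        chi (1 / 2 + I * v - s) * riemannZeta (1 / 2 - I * v + s))) := by
  obtain ⟨K, hK⟩ := af1_bound hN v
  have h := LI_res (h := af1H N v) (a := -(3 / 4)) (b := 3 / 4) (by norm_num) (by norm_num)
    (fun z _ _ => af1_diff hN v z) (m := fun y => K * Real.exp (-(y ^ 2 / 2))) hK (shf_int K)
    (shf_top K) (shf_bot K)
  rw [af1_zero] at h
  rw [← h, sub_eq_add_neg]
  congr 1
  · unfold LI
    congr 1
    apply integral_congr_ae
    filter_upwards with y
    have h1 : (((3 / 4 : ℝ) : ℂ) + y * I) ≠ 1 / 2 - I * v := by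
      intro h2
      have := congrArg Complex.re h2
      simp at this
      norm_num at this
    rw [af1_eq N v h1]
    ring
  · unfold LI
    rw [← mul_neg, ← integral_neg]
    congr 1
    rw [← integral_neg_eq_self]
    apply integral_congr_ae
    filter_upwards with y
    have e0 : (((-(3 / 4) : ℝ) : ℂ) + ((-y : ℝ) : ℂ) * I) = -(((3 / 4 : ℝ) : ℂ) + y * I) := by
      push_cast; ring
    rw [e0]
    set s : ℂ := ((3 / 4 : ℝ) : ℂ) + y * I with hs
    have hre : s.re = 3 / 4 := by simp [hs]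
    have h1 : -s ≠ 1 / 2 - I * v := by
      intro h2
      have := congrArg Complex.re h2
      simp [hre] at this
      norm_num at this
    rw [af1_eq N v h1]
    have h3 : riemannZeta (1 / 2 + I * v + -s) =
        chi (1 / 2 + I * v - s) * riemannZeta (1 / 2 - I * v + s) := by
      have hr : (1 / 2 + I * v + -s : ℂ).re = -(1 / 4) := by
        simp [hre]
        norm_num
      have h4 := af1_chi (s := 1 / 2 + I * v + -s) (fun h => by
        have := congrArg Complex.re h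
        rw [hr] at this
        norm_num at this) (fun h => by
        have := congrArg Complex.re h
        rw [Complex.sub_re, hr] at this
        norm_num at this) (Complex.Gamma_ne_zero fun m hm => by
        have := congrArg Complex.re hm
        have e2 : ((1 / 2 + I * v + -s : ℂ) / 2).re = (1 / 2 + I * v + -s : ℂ).re / 2 := by simp
        rw [e2, hr] at this
        simp only [Complex.neg_re, Complex.natCast_re] at this
        have h5 : (m : ℝ) = 1 / 8 := by linarith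
        have h6 : ((8 * m : ℕ) : ℝ) = (1 : ℕ) := by push_cast; linarith
        have h7 : 8 * m = 1 := by exact_mod_cast h6
        omega) (Complex.Gamma_ne_zero_of_re_pos (by
        have e2 : ((1 - (1 / 2 + I * v + -s) : ℂ) / 2).re = (1 - (1 / 2 + I * v + -s : ℂ).re) / 2 := by
          simp
        rw [e2, hr]
        norm_num))
      rw [h4]
      congr 2
      ring
    rw [h3]
    ring_nf

end Pool.Agent.AAS
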