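import Pool.Agent.AAS.Defs


set_option autoImplicit false

namespace Pool.Agent.AAS

open Complex Finset MeasureTheory Filter Topology Set
open Pool.Agent.H26

lemma YKC_den1 (a x : ℝ) : (1 / 2 - I * ((x : ℂ) + a)) ≠ 0 := by
  intro h
  have := congrArg Complex.re h
  simp at this

lemma YKC_den2 (b x : ℝ) : (1 / 2 + I * ((x : ℂ) + b)) ≠ 0 := by
  intro h
  have := congrArg Complex.re h
  simp at this

/-- C5 -/
theorem continuous_Yk (a b T : ℝ) (hT : 0 < T) (κ : Bool) {c : ℝ} (hc : -(1 / 2) < c) :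
    Continuous fun p : ℝ × ℝ => Yk a b T κ (c + p.1 * I) p.2 := by
  have hT' : (T : ℂ) ≠ 0 := by exact_mod_cast hT.ne'
  have hs : Continuous fun p : ℝ × ℝ => ((c : ℂ) + p.1 * I) := by fun_prop
  have hP : ∀ f : ℝ × ℝ → ℂ, Continuous f → Continuous fun p : ℝ × ℝ => P1 a b (f p) p.2 := by
    intro f hf
    unfold P1
    refine Continuous.mul ?_ ?_
    · refine continuous_const.sub (hf.div (by fun_prop) fun p => YKC_den1 a p.2)
    · refine continuous_const.sub (hf.div (by fun_prop) fun p => YKC_den2 b p.2)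
  have hchi : ∀ f : ℝ × ℝ → ℂ, Continuous f → (∀ p, (f p).re < 1) →
      Continuous fun p : ℝ × ℝ => chi (f p) := by
    intro f hf h
    exact CHI.differentiableOn_chi.continuousOn.comp_continuous hf h
  cases κ with
  | false =>
    have e : (fun p : ℝ × ℝ => Yk a b T false (c + p.1 * I) p.2) =
        fun p : ℝ × ℝ => (T : ℂ) ^ ((c : ℂ) + p.1 * I) * P1 a b (c + p.1 * I) p.2 := by
      funext p
      simp [Yk]
    rw [e]
    exact (hs.const_cpow (Or.inl hT')).mul (hP _ hs)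
  | true =>
    have e : (fun p : ℝ × ℝ => Yk a b T true (c + p.1 * I) p.2) =
        fun p : ℝ × ℝ => (T : ℂ) ^ (-((c : ℂ) + p.1 * I)) * P1 a b (-(c + p.1 * I)) p.2 *
          (chi (1 / 2 + I * (p.2 + a) - (c + p.1 * I)) *
            chi (1 / 2 - I * (p.2 + b) - (c + p.1 * I))) := by
      funext p
      simp only [Yk, if_true]
    rw [e]
    refine ((hs.neg.const_cpow (Or.inl hT')).mul (hP _ hs.neg)).mul ?_
    refine (hchi _ (by fun_prop) fun p => ?_).mul (hchi _ (by fun_prop) fun p => ?_)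
    · have : (1 / 2 + I * ((p.2 : ℂ) + a) - (c + p.1 * I)).re = 1 / 2 - c := by simp
      rw [this]; linarith
    · have : (1 / 2 - I * ((p.2 : ℂ) + b) - (c + p.1 * I)).re = 1 / 2 - c := by simp
      rw [this]; linarith

theorem differentiableAt_Yk (a b T x : ℝ) (hT : 0 < T) (κ : Bool) {s : ℂ}
    (hs : -(1 / 2) < s.re) : DifferentiableAt ℂ (fun s => Yk a b T κ s x) s := by
  have hT' : (T : ℂ) ≠ 0 := by exact_mod_cast hT.ne'
  have hP : ∀ f : ℂ → ℂ, DifferentiableAt ℂ f s →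
      DifferentiableAt ℂ (fun z => P1 a b (f z) x) s := by
    intro f hf
    unfold P1
    exact ((hf.div_const _).const_sub 1).mul ((hf.div_const _).const_sub 1)
  cases κ with
  | false =>
    have e : (fun s => Yk a b T false s x) = fun s : ℂ => (T : ℂ) ^ s * P1 a b s x := by
      funext s
      simp [Yk]
    rw [e]
    exact (differentiableAt_id.const_cpow (Or.inl hT')).mul (hP _ differentiableAt_id)
  | true =>
    have e : (fun s => Yk a b T true s x) = fun s : ℂ => (T : ℂ) ^ (-s) * P1 a b (-s) x *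
          (chi (1 / 2 + I * (x + a) - s) * chi (1 / 2 - I * (x + b) - s)) := by
      funext s
      simp only [Yk, if_true]
    rw [e]
    have hn : DifferentiableAt ℂ (fun z : ℂ => -z) s := differentiableAt_id.neg
    refine ((hn.const_cpow (Or.inl hT')).mul (hP _ hn)).mul ?_
    refine DifferentiableAt.mul ?_ ?_
    · have h : DifferentiableAt ℂ chi (1 / 2 + I * ((x : ℂ) + a) - s) :=
        differentiableAt_chi (by
          have : (1 / 2 + I * ((x : ℂ) + a) - s).re = 1 / 2 - s.re := by simp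
          rw [this]; linarith)
      exact DifferentiableAt.comp (f := fun z : ℂ => 1 / 2 + I * ((x : ℂ) + a) - z) s h
        (differentiableAt_id.const_sub _)
    · have h : DifferentiableAt ℂ chi (1 / 2 - I * ((x : ℂ) + b) - s) :=
        differentiableAt_chi (by
          have : (1 / 2 - I * ((x : ℂ) + b) - s).re = 1 / 2 - s.re := by simp
          rw [this]; linarith)
      exact DifferentiableAt.comp (f := fun z : ℂ => 1 / 2 - I * ((x : ℂ) + b) - z) s h
        (differentiableAt_id.const_sub _)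

/-- C6 -/
theorem norm_KD_le {D : ℝ} (hD : D ≠ 0) {c : ℝ} (hc : c ≠ 0) (hc1 : |c| ≤ 1) (y : ℝ) :
    ‖KD D (c + y * I)‖ ≤ 100 / |c| * (1 + 1 / D ^ 2) * ((1 + y ^ 2) * Real.exp (-y ^ 2)) := by
  have hc0 : 0 < |c| := abs_pos.2 hc
  have hc2 : c ^ 2 ≤ 1 := by
    rw [← sq_abs]
    exact pow_le_one₀ hc0.le hc1
  have hD2 : 0 < D ^ 2 := by positivity
  have hns : ‖(c : ℂ) + y * I‖ ^ 2 = c ^ 2 + y ^ 2 := by
    rw [← Complex.normSq_eq_norm_sq, Complex.normSq_add_mul_I]
  have h1 : ‖cexp (((c : ℂ) + y * I) ^ 2)‖ = Real.exp (c ^ 2 - y ^ 2) := by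
    rw [Complex.norm_exp]
    congr 1
    have : (((c : ℂ) + y * I) ^ 2).re = c ^ 2 - y ^ 2 := by
      rw [pow_two, Complex.mul_re]
      simp
      ring
    rw [this]
  have h2 : ‖1 + 4 * ((c : ℂ) + y * I) ^ 2 / (D : ℂ) ^ 2‖ ≤
      4 * (1 + 1 / D ^ 2) * (1 + y ^ 2) := by
    refine (norm_add_le _ _).trans ?_
    rw [norm_div, norm_mul, norm_pow, hns, norm_one, norm_pow, Complex.norm_real,
      Real.norm_eq_abs, sq_abs]
    have e : ‖(4 : ℂ)‖ = 4 := by simp
    rw [e]
    have h3 : 4 * (c ^ 2 + y ^ 2) / D ^ 2 ≤ 4 * (1 + y ^ 2) * (1 / D ^ 2) := by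
      rw [div_eq_mul_one_div]
      have : 0 ≤ 1 / D ^ 2 := by positivity
      gcongr
    have h4 : (1:ℝ) ≤ 4 * (1 + y ^ 2) := by nlinarith [sq_nonneg y]
    linarith
  have h3 : |c| ≤ ‖(c : ℂ) + y * I‖ := by
    have := Complex.abs_re_le_norm ((c : ℂ) + y * I)
    simpa using this
  unfold KD
  rw [norm_div, norm_mul, h1]
  have h5 : Real.exp (c ^ 2 - y ^ 2) ≤ 3 * Real.exp (-y ^ 2) := by
    have e : c ^ 2 - y ^ 2 = c ^ 2 + -y ^ 2 := by ring
    rw [e, Real.exp_add]
    have : Real.exp (c ^ 2) ≤ 3 :=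
      (Real.exp_le_exp.2 hc2).trans (by have := Real.exp_one_lt_d9; linarith)
    gcongr
  calc _ ≤ 3 * Real.exp (-y ^ 2) * (4 * (1 + 1 / D ^ 2) * (1 + y ^ 2)) / |c| := by
        gcongr
    _ = 12 / |c| * (1 + 1 / D ^ 2) * ((1 + y ^ 2) * Real.exp (-y ^ 2)) := by ring
    _ ≤ _ := by
        gcongr
        norm_num

end Pool.Agent.AAS
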