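import Pool.Agent.AAS.RES
import Pool.Agent.AAS.YKC
import Pool.Agent.AAS.YKB
import Pool.Agent.AAS.AF1


set_option autoImplicit false

namespace Pool.Agent.AAS

open Complex Finset MeasureTheory Filter Topology Set
open Pool.Agent.H26

/-- One regularized factor. -/
private noncomputable def afeF (v : ℝ) (s : ℂ) : ℂ :=
  -(shfZ (1 / 2 + I * v + s)) / (1 / 2 - I * v)

private lemma afeF_eq (v : ℝ) {s : ℂ} (hs : s ≠ 1 / 2 - I * v) :
    afeF v s = (1 - s / (1 / 2 - I * v)) * riemannZeta (1 / 2 + I * v + s) := by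
  have h1 : (1 / 2 + I * v + s : ℂ) ≠ 1 := by
    intro h
    apply hs
    linear_combination h
  have h2 := af1_ne v
  rw [afeF, ← shfZ_eq h1, div_eq_iff h2]
  have e1 : (1 - s / (1 / 2 - I * v)) * (1 / 2 - I * v : ℂ) = 1 / 2 - I * v - s := by
    rw [sub_mul, div_mul_cancel₀ _ h2, one_mul]
  calc _ = (1 / 2 - I * v - s) * riemannZeta (1 / 2 + I * v + s) := by ring
    _ = ((1 - s / (1 / 2 - I * v)) * (1 / 2 - I * v)) * riemannZeta (1 / 2 + I * v + s) := by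
        rw [e1]
    _ = _ := by ring

private lemma afeF_zero (v : ℝ) : afeF v 0 = riemannZeta (1 / 2 + I * v) := by
  rw [afeF_eq v (fun h => af1_ne v h.symm)]
  simp

private lemma afeF_diff (v : ℝ) : Differentiable ℂ (afeF v) := by
  unfold afeF
  refine Differentiable.div_const ?_ _
  refine Differentiable.neg ?_
  exact shfZ_diff.comp (by fun_prop : Differentiable ℂ fun s : ℂ => (1 / 2 + I * v + s : ℂ))

private lemma afeF_bound (v : ℝ) : ∃ K : ℝ, 0 ≤ K ∧ ∀ x y : ℝ, -(3 / 4) ≤ x → x ≤ 3 / 4 →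
    ‖afeF v (x + y * I)‖ ≤ K * (2 + |y|) ^ 4 := by
  obtain ⟨C, hC, hb⟩ := af1_shfZ
  refine ⟨2 * (C * (2 + |v|) ^ 4), by positivity, fun x y hx hx' => ?_⟩
  have hx1 : |x| ≤ 1 := abs_le.2 ⟨by linarith, by linarith⟩
  have h3 : ‖(1 / 2 + I * v + ((x : ℂ) + y * I) : ℂ)‖ ≤ 1 + |v| + (1 + |y|) := by
    have e1 := shf_norm_line (u := x) (v := y) hx1
    have e2 : ‖(1 / 2 + I * v : ℂ)‖ ≤ 1 + |v| := by
      refine (norm_add_le _ _).trans ?_
      rw [norm_mul, Complex.norm_I, one_mul, Complex.norm_real, Real.norm_eq_abs]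
      norm_num
    exact (norm_add_le _ _).trans (add_le_add e2 e1)
  have h4 : (1 / 2 + I * v + ((x : ℂ) + y * I) : ℂ).re = 1 / 2 + x := by simp
  have h5 := hb (1 / 2 + I * v + ((x : ℂ) + y * I)) (by rw [h4]; linarith)
  have h6 : ‖shfZ (1 / 2 + I * v + ((x : ℂ) + y * I))‖ ≤ C * (2 + |v|) ^ 4 * (2 + |y|) ^ 4 := by
    refine h5.trans ?_
    have e1 : 1 + ‖(1 / 2 + I * v + ((x : ℂ) + y * I) : ℂ)‖ ≤ (2 + |v|) * (2 + |y|) := by
      nlinarith [abs_nonneg v, abs_nonneg y, mul_nonneg (abs_nonneg v) (abs_nonneg y)]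
    calc C * (1 + ‖(1 / 2 + I * v + ((x : ℂ) + y * I) : ℂ)‖) ^ 4
        ≤ C * ((2 + |v|) * (2 + |y|)) ^ 4 := by gcongr
      _ = _ := by ring
  rw [afeF, norm_div, norm_neg, div_le_iff₀ (by linarith [YKB_half_le' v])]
  have e1 := YKB_half_le' v
  have e2 : 0 ≤ 2 * (C * (2 + |v|) ^ 4) * (2 + |y|) ^ 4 := by positivity
  nlinarith

private lemma afeF_refl (v : ℝ) {s : ℂ} (hre : s.re = 3 / 4) :
    afeF v (-s) = (1 + s / (1 / 2 - I * v)) *
      (chi (1 / 2 + I * v - s) * riemannZeta (1 / 2 - I * v + s)) := by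
  have h1 : -s ≠ 1 / 2 - I * v := by
    intro h2
    have := congrArg Complex.re h2
    simp [hre] at this
    norm_num at this
  rw [afeF_eq v h1]
  have h3 : riemannZeta (1 / 2 + I * v + -s) =
      chi (1 / 2 + I * v - s) * riemannZeta (1 / 2 - I * v + s) := by
    have hr : (1 / 2 + I * v + -s : ℂ).re = -(1 / 4) := by
      simp [hre]
      norm_num
    have h4 := af1_chi (s := 1 / 2 + I * v + -s) (fun h => by
      have := congrArg Complex.re h
      rw [hr] at this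
      norm_num at this) (fun h => by
      have := congrArg Complex.re h
      rw [Complex.sub_re, hr] at this
      norm_num at this) (Complex.Gamma_ne_zero fun m hm => by
      have := congrArg Complex.re hm
      have e2 : ((1 / 2 + I * v + -s : ℂ) / 2).re = (1 / 2 + I * v + -s : ℂ).re / 2 := by simp
      rw [e2, hr] at this
      simp only [Complex.neg_re, Complex.natCast_re] at this
      have h5 : (m : ℝ) = 1 / 8 := by linarith
      have h6 : ((8 * m : ℕ) : ℝ) = (1 : ℕ) := by push_cast; linarith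
      have h7 : 8 * m = 1 := by exact_mod_cast h6
      omega) (Complex.Gamma_ne_zero_of_re_pos (by
      have e2 : ((1 - (1 / 2 + I * v + -s) : ℂ) / 2).re = (1 - (1 / 2 + I * v + -s : ℂ).re) / 2 := by
        simp
      rw [e2, hr]
      norm_num))
    rw [h4]
    congr 2
    ring
  rw [h3]
  ring

/-- The regularized integrand. -/
private noncomputable def afeH (D T v w : ℝ) (s : ℂ) : ℂ :=
  cexp (s ^ 2) * (1 + 4 * s ^ 2 / D ^ 2) * (T : ℂ) ^ s * (afeF v s * afeF w s)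

private lemma afeH_diff {D T : ℝ} (hT : 0 < T) (v w : ℝ) : Differentiable ℂ (afeH D T v w) := by
  have hT' : (T : ℂ) ≠ 0 := by exact_mod_cast hT.ne'
  unfold afeH
  refine Differentiable.mul (Differentiable.mul (by fun_prop) ?_) ?_
  · intro s
    exact differentiableAt_id.const_cpow (Or.inl hT')
  · exact (afeF_diff v).mul (afeF_diff w)

private lemma afeH_bound {D T : ℝ} (hT : 0 < T) (v w : ℝ) : ∃ K : ℝ, ∀ x y : ℝ,
    -(3 / 4) ≤ x → x ≤ 3 / 4 → ‖afeH D T v w (x + y * I)‖ ≤ K * Real.exp (-(y ^ 2 / 2)) := by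
  obtain ⟨K₁, hK₁, h₁⟩ := afeF_bound v
  obtain ⟨K₂, hK₂, h₂⟩ := afeF_bound w
  refine ⟨Real.exp 1 * (1 + 4 / D ^ 2) * (T ^ (3 / 4 : ℝ) + T ^ (-(3 / 4) : ℝ)) * (K₁ * K₂) *
    ((10 : ℕ).factorial * Real.exp 3), fun x y hx hx' => ?_⟩
  have hx1 : |x| ≤ 1 := abs_le.2 ⟨by linarith, by linarith⟩
  have f1 := shf_exp_le (u := x) (v := y) hx1
  have f2 : ‖(T : ℂ) ^ ((x : ℂ) + y * I)‖ ≤ T ^ (3 / 4 : ℝ) + T ^ (-(3 / 4) : ℝ) := by
    rw [Complex.norm_cpow_eq_rpow_re_of_pos hT]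
    have hre : ((x : ℂ) + y * I).re = x := by simp
    rw [hre]
    have p1 : 0 < T ^ (3 / 4 : ℝ) := Real.rpow_pos_of_pos hT _
    have p2 : 0 < T ^ (-(3 / 4) : ℝ) := Real.rpow_pos_of_pos hT _
    rcases le_total 1 T with h | h
    · have := Real.rpow_le_rpow_of_exponent_le h hx'
      linarith
    · have := Real.rpow_le_rpow_of_exponent_ge hT h hx
      linarith
  have f3 : ‖1 + 4 * ((x : ℂ) + y * I) ^ 2 / (D : ℂ) ^ 2‖ ≤ (1 + 4 / D ^ 2) * (2 + |y|) ^ 2 := by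
    refine (norm_add_le _ _).trans ?_
    have e1 := shf_norm_line (u := x) (v := y) hx1
    have e2 : ‖((x : ℂ) + y * I)‖ ≤ 2 + |y| := by linarith
    rw [norm_one, norm_div, norm_mul, norm_pow, norm_pow, Complex.norm_real, Real.norm_eq_abs,
      sq_abs]
    have e3 : ‖(4 : ℂ)‖ = 4 := by simp
    rw [e3]
    have e4 : (1 : ℝ) ≤ (2 + |y|) ^ 2 := by nlinarith [abs_nonneg y]
    have e5 : 4 * ‖((x : ℂ) + y * I)‖ ^ 2 / D ^ 2 ≤ 4 * (2 + |y|) ^ 2 / D ^ 2 := by gcongr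
    calc 1 + 4 * ‖((x : ℂ) + y * I)‖ ^ 2 / D ^ 2 ≤ (2 + |y|) ^ 2 + 4 * (2 + |y|) ^ 2 / D ^ 2 :=
          add_le_add e4 e5
      _ = _ := by ring
  have f4 := h₁ x y hx hx'
  have f5 := h₂ x y hx hx'
  have f6 := shf_gauss 10 y
  have hG : 0 ≤ Real.exp (-y ^ 2) := (Real.exp_pos _).le
  have hT1 : 0 ≤ T ^ (3 / 4 : ℝ) + T ^ (-(3 / 4) : ℝ) := by positivity
  have hD1 : 0 ≤ 1 + 4 / D ^ 2 := by positivity
  rw [afeH, norm_mul, norm_mul, norm_mul, norm_mul]
  calc _ ≤ (Real.exp 1 * Real.exp (-y ^ 2)) * ((1 + 4 / D ^ 2) * (2 + |y|) ^ 2) *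
        (T ^ (3 / 4 : ℝ) + T ^ (-(3 / 4) : ℝ)) * ((K₁ * (2 + |y|) ^ 4) * (K₂ * (2 + |y|) ^ 4)) := by
        gcongr
    _ = Real.exp 1 * (1 + 4 / D ^ 2) * (T ^ (3 / 4 : ℝ) + T ^ (-(3 / 4) : ℝ)) * (K₁ * K₂) *
        ((2 + |y|) ^ 10 * Real.exp (-y ^ 2)) := by ring
    _ ≤ Real.exp 1 * (1 + 4 / D ^ 2) * (T ^ (3 / 4 : ℝ) + T ^ (-(3 / 4) : ℝ)) * (K₁ * K₂) *
        ((10 : ℕ).factorial * Real.exp 3 * Real.exp (-(y ^ 2 / 2))) := by gcongr
    _ = _ := by ring

/-- D1: exact form -/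
theorem pf_eq_LI {a b : ℝ} (hab : a ≠ b) {T : ℝ} (hT : 0 < T) (x : ℝ) :
    pf a b x =
      LI (3 / 4) (fun s => KD (a - b) s * Yk a b T false s x *
        (riemannZeta (1 / 2 + I * (x + a) + s) * riemannZeta (1 / 2 - I * (x + b) + s))) +
      LI (3 / 4) (fun s => KD (a - b) s * Yk a b T true s x *
        (riemannZeta (1 / 2 + I * (x + b) + s) * riemannZeta (1 / 2 - I * (x + a) + s))) := by
  have hT' : (T : ℂ) ≠ 0 := by exact_mod_cast hT.ne'
  obtain ⟨K, hK⟩ := afeH_bound (D := a - b) hT (x + a) (-(x + b))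
  have h := LI_res (h := afeH (a - b) T (x + a) (-(x + b))) (a := -(3 / 4)) (b := 3 / 4)
    (by norm_num) (by norm_num)
    (fun z _ _ => afeH_diff hT _ _ z) (m := fun y => K * Real.exp (-(y ^ 2 / 2))) hK (shf_int K)
    (shf_top K) (shf_bot K)
  have h0 : afeH (a - b) T (x + a) (-(x + b)) 0 = pf a b x := by
    rw [afeH, afeF_zero, afeF_zero, pf]
    push_cast
    simp only [ne_eq, OfNat.ofNat_ne_zero, not_false_eq_true, zero_pow, mul_zero, zero_div,
      add_zero, cpow_zero, Complex.exp_zero, one_mul, mul_one]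
    congr 2
    ring_nf
  rw [h0] at h
  rw [← h, sub_eq_add_neg]
  have c1 : (1 / 2 - I * ((-(x + b) : ℝ) : ℂ)) = 1 / 2 + I * (x + b) := by push_cast; ring
  have c2 : (1 / 2 + I * ((-(x + b) : ℝ) : ℂ)) = 1 / 2 - I * (x + b) := by push_cast; ring
  have c3 : (((x + a : ℝ)) : ℂ) = (x : ℂ) + a := by push_cast; ring
  congr 1
  · unfold LI
    congr 1
    apply integral_congr_ae
    filter_upwards with y
    have h1 : (((3 / 4 : ℝ) : ℂ) + y * I) ≠ 1 / 2 - I * ((x + a : ℝ) : ℂ) := by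
      intro h2
      have := congrArg Complex.re h2
      simp at this
      norm_num at this
    have h2 : (((3 / 4 : ℝ) : ℂ) + y * I) ≠ 1 / 2 - I * ((-(x + b) : ℝ) : ℂ) := by
      intro h2
      have := congrArg Complex.re h2
      simp at this
      norm_num at this
    have e1 : Yk a b T false (((3 / 4 : ℝ) : ℂ) + y * I) x =
        (T : ℂ) ^ (((3 / 4 : ℝ) : ℂ) + y * I) * P1 a b (((3 / 4 : ℝ) : ℂ) + y * I) x := by
      simp [Yk]
    rw [afeH, afeF_eq _ h1, afeF_eq _ h2, c1, c2, c3, KD, e1, P1]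
    generalize ((3 / 4 : ℝ) : ℂ) + y * I = s
    ring
  · unfold LI
    rw [← mul_neg, ← integral_neg]
    congr 1
    rw [← integral_neg_eq_self]
    apply integral_congr_ae
    filter_upwards with y
    have e0 : (((-(3 / 4) : ℝ) : ℂ) + ((-y : ℝ) : ℂ) * I) = -(((3 / 4 : ℝ) : ℂ) + y * I) := by
      push_cast; ring
    rw [e0]
    set s : ℂ := ((3 / 4 : ℝ) : ℂ) + y * I with hs
    have hre : s.re = 3 / 4 := by simp [hs]
    have e1 : Yk a b T true s x = (T : ℂ) ^ (-s) * P1 a b (-s) x *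
        (chi (1 / 2 + I * (x + a) - s) * chi (1 / 2 - I * (x + b) - s)) := by
      simp [Yk]
    rw [afeH, afeF_refl _ hre, afeF_refl _ hre, c1, c2, c3, KD, e1, P1]
    clear_value s
    ring

end Pool.Agent.AAS
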