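import Pool.Agent.AAS.Defs

set_option autoImplicit false

namespace Pool.Agent.AAS

open Finset MeasureTheory Filter Topology Set
open scoped ENNReal

namespace IND

variable {k : ℕ}

lemma mem_box_iff {v : Fin k → ℝ} {V : ℝ} (hV : 0 ≤ V) : v ∈ box k V ↔ ‖v‖ ≤ V := by
  rw [pi_norm_le_iff_of_nonneg hV]
  constructor
  · intro h j
    rw [Real.norm_eq_abs]
    exact abs_le.2 (h j (Set.mem_univ j))
  · intro h j _
    have := h j
    rw [Real.norm_eq_abs] at this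
    exact abs_le.1 this

/-- sum of a geometric series in the lower integral sense -/
lemma tsum_geometric_le {x : ℝ} (hx0 : 0 ≤ x) (hx : x < 1) (K : ℝ) (hK : 0 ≤ K) :
    ∑' n : ℕ, ENNReal.ofReal (K * x ^ n) ≤ ENNReal.ofReal (K * (1 - x)⁻¹) := by
  have h1 : Summable fun n : ℕ => K * x ^ n := (summable_geometric_of_lt_one hx0 hx).mul_left K
  rw [← ENNReal.ofReal_tsum_of_nonneg (fun n => by positivity) h1, tsum_mul_left,
    tsum_geometric_of_lt_one hx0 hx]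

/-- the dyadic shells -/
def Sh (k n : ℕ) : Set (Fin k → ℝ) := {v | ‖v‖ ≤ 2 ^ n ∧ (2:ℝ) ^ n ≤ 2 * ‖v‖}

lemma measurableSet_Sh (k n : ℕ) : MeasurableSet (Sh k n) :=
  ((isClosed_le continuous_norm continuous_const).inter
    (isClosed_le continuous_const (continuous_const.mul continuous_norm))).measurableSet

lemma exists_Sh {v : Fin k → ℝ} (hv : 1 ≤ ‖v‖) : ∃ n, v ∈ Sh k n := by
  obtain ⟨j, hj1, hj2⟩ := exists_nat_pow_near hv (by norm_num : (1:ℝ) < 2)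
  refine ⟨j + 1, hj2.le, ?_⟩
  rw [pow_succ]
  linarith

/-- the bad set of a shell for a fixed bound of the shifts -/
lemma exists_shell {θ₁ θ₂ c C T₁ : ℝ} (hθ2 : θ₂ ≤ 1) (hc : 0 < c) (hC : 0 ≤ C)
    {Q : (Fin k → ℝ) → ℝ → Prop}
    (h : ∀ T H : ℝ, T₁ ≤ T → T ^ θ₁ ≤ H → H ≤ 4 * T ^ θ₂ → ∃ Ex : Set (Fin k → ℝ),
      volume Ex ≤ ENNReal.ofReal (C * H ^ k * T ^ (-c)) ∧ ∀ v ∈ box k H, v ∉ Ex →
      ∀ T' ∈ Set.Icc T (2 * T), Q v T') : ∃ C' : ℝ, 0 ≤ C' ∧ ∀ n : ℕ,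
    ∃ A : Set (Fin k → ℝ), MeasurableSet A ∧
      volume A ≤ ENNReal.ofReal (C' * ((2:ℝ) ^ n) ^ (k - c / 2)) ∧
      ∀ v ∈ Sh k n, v ∉ A → ∀ m : ℕ, T₁ ≤ 2 ^ m → ((2:ℝ) ^ m) ^ θ₁ ≤ 2 ^ n →
      (2:ℝ) ^ n ≤ 4 * ((2:ℝ) ^ m) ^ θ₂ → ∀ T' ∈ Set.Icc ((2:ℝ) ^ m) (2 * 2 ^ m), Q v T' := by
  classical
  set x : ℝ := (2:ℝ) ^ (-(c / 2)) with hx
  have hx0 : 0 < x := by positivity
  have hx1 : x < 1 := Real.rpow_lt_one_of_one_lt_of_neg (by norm_num) (by linarith)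
  set K : ℝ := C * 4 ^ (c / 2) with hK
  have hK0 : 0 ≤ K := by positivity
  refine ⟨K * (1 - x)⁻¹, mul_nonneg hK0 (inv_nonneg.2 (by linarith)), fun n => ?_⟩
  have hn0 : (0:ℝ) < 2 ^ n := by positivity
  have hD : ∀ m : ℕ, ∃ D : Set (Fin k → ℝ), MeasurableSet D ∧
      volume D ≤ ENNReal.ofReal (K * ((2:ℝ) ^ n) ^ (k - c / 2) * x ^ m) ∧
      (T₁ ≤ 2 ^ m → ((2:ℝ) ^ m) ^ θ₁ ≤ 2 ^ n → (2:ℝ) ^ n ≤ 4 * ((2:ℝ) ^ m) ^ θ₂ →
        ∀ v ∈ Sh k n, v ∉ D → ∀ T' ∈ Set.Icc ((2:ℝ) ^ m) (2 * 2 ^ m), Q v T') := by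
    intro m
    by_cases hcond : T₁ ≤ 2 ^ m ∧ ((2:ℝ) ^ m) ^ θ₁ ≤ 2 ^ n ∧ (2:ℝ) ^ n ≤ 4 * ((2:ℝ) ^ m) ^ θ₂
    · obtain ⟨Ex, hE1, hE2⟩ := h (2 ^ m) (2 ^ n) hcond.1 hcond.2.1 hcond.2.2
      have hm1 : (1:ℝ) ≤ 2 ^ m := one_le_pow₀ (by norm_num)
      have hm0 : (0:ℝ) < 2 ^ m := by positivity
      refine ⟨toMeasurable volume Ex, measurableSet_toMeasurable _ _, ?_, ?_⟩
      · rw [measure_toMeasurable]
        refine hE1.trans (ENNReal.ofReal_le_ofReal ?_)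
        have h1 : (2:ℝ) ^ n ≤ 4 * 2 ^ m := by
          refine hcond.2.2.trans ?_
          gcongr
          calc ((2:ℝ) ^ m) ^ θ₂ ≤ ((2:ℝ) ^ m) ^ (1:ℝ) :=
                Real.rpow_le_rpow_of_exponent_le hm1 hθ2
            _ = 2 ^ m := Real.rpow_one _
        have h2 : ((2:ℝ) ^ m) ^ (-c) = x ^ m * ((2:ℝ) ^ m) ^ (-(c / 2)) := by
          have e1 : x ^ m = ((2:ℝ) ^ m) ^ (-(c / 2)) := by
            rw [hx, ← Real.rpow_natCast, ← Real.rpow_mul (by norm_num), mul_comm,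
              Real.rpow_mul (by norm_num), Real.rpow_natCast]
          rw [e1, ← Real.rpow_add hm0]
          congr 1
          ring
        have h3 : ((2:ℝ) ^ m) ^ (-(c / 2)) ≤ 4 ^ (c / 2) * ((2:ℝ) ^ n) ^ (-(c / 2)) := by
          have h4 : (4 * (2:ℝ) ^ m) ^ (-(c / 2)) ≤ ((2:ℝ) ^ n) ^ (-(c / 2)) :=
            Real.rpow_le_rpow_of_nonpos hn0 h1 (by linarith)
          rw [Real.mul_rpow (by norm_num) hm0.le, Real.rpow_neg (by norm_num)] at h4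
          have h5 : (0:ℝ) < 4 ^ (c / 2) := by positivity
          calc ((2:ℝ) ^ m) ^ (-(c / 2)) =
                4 ^ (c / 2) * ((4 ^ (c / 2))⁻¹ * ((2:ℝ) ^ m) ^ (-(c / 2))) := by field_simp
            _ ≤ _ := by gcongr
        have h6 : ((2:ℝ) ^ n) ^ ((k:ℝ) - c / 2) = ((2:ℝ) ^ n) ^ k * ((2:ℝ) ^ n) ^ (-(c / 2)) := by
          rw [sub_eq_add_neg, Real.rpow_add hn0, Real.rpow_natCast]
        rw [h2, h6, hK]
        calc C * ((2:ℝ) ^ n) ^ k * (x ^ m * ((2:ℝ) ^ m) ^ (-(c / 2))) ≤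
              C * ((2:ℝ) ^ n) ^ k * (x ^ m * (4 ^ (c / 2) * ((2:ℝ) ^ n) ^ (-(c / 2)))) := by
              gcongr
          _ = _ := by ring
      · intro _ _ _ v hv hvD T' hT'
        exact hE2 v ((mem_box_iff hn0.le).2 hv.1) (fun hm => hvD (subset_toMeasurable _ _ hm)) T'
          hT'
    · refine ⟨∅, MeasurableSet.empty, by simp, fun h1 h2 h3 => absurd ⟨h1, h2, h3⟩ hcond⟩
  choose D hDm hDv hDQ using hD
  refine ⟨⋃ m, D m, MeasurableSet.iUnion hDm, ?_, ?_⟩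
  · refine (measure_iUnion_le _).trans ((ENNReal.tsum_le_tsum hDv).trans ?_)
    refine (tsum_geometric_le hx0.le hx1 _ (by positivity)).trans (le_of_eq ?_)
    congr 1
    ring
  · intro v hv hvA m h1 h2 h3 T' hT'
    exact hDQ m h1 h2 h3 v hv (fun hm => hvA (Set.mem_iUnion.2 ⟨m, hm⟩)) T' hT'

end IND

open IND in
/-- one exceptional set for all times and all bounds of the shifts -/
theorem ind_abs {k : ℕ} {θ₁ θ₂ c : ℝ} (hθ : 0 < θ₁) (hθ2 : θ₂ ≤ 1) (hc : 0 < c)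
    (hck : c ≤ k) (P : ℝ → ℝ → (Fin k → ℝ) → ℝ → Prop)
    (mono : ∀ B B' C C' v T, B ≤ B' → C' ≤ C → 1 ≤ T → P B' C' v T → P B C v T)
    (h : ∀ B : ℝ, 0 ≤ B → ∃ C T₁ : ℝ, 1 ≤ C ∧ 1 ≤ T₁ ∧ ∀ T H : ℝ, T₁ ≤ T → T ^ θ₁ ≤ H →
      H ≤ 4 * T ^ θ₂ → ∃ Ex : Set (Fin k → ℝ),
      volume Ex ≤ ENNReal.ofReal (C * H ^ k * T ^ (-c)) ∧ ∀ v ∈ box k H, v ∉ Ex →
      ∀ T' ∈ Set.Icc T (2 * T), P B C v T')
    (triv : ∀ B T₂ : ℝ, 0 ≤ B → 1 ≤ T₂ → ∃ C : ℝ, ∀ v T, 1 ≤ T → T ≤ T₂ → ‖v‖ ≤ T → P B C v T) :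
    ∃ Ex : Set (Fin k → ℝ), MeasurableSet Ex ∧
    (∀ V : ℝ, 1 ≤ V → volume (Ex ∩ box k V) ≤ ENNReal.ofReal (V ^ (k - c / 8))) ∧
    ∀ B : ℝ, ∃ C : ℝ, ∀ v, v ∉ Ex → ∀ T : ℝ, 1 ≤ T → T ^ θ₁ ≤ ‖v‖ → ‖v‖ ≤ T ^ θ₂ →
      P B C v T := by
  classical
  choose Cf Tf hCf hTf hf using fun B : ℕ => h B (Nat.cast_nonneg B)
  have hsh := fun B : ℕ => exists_shell (k := k) hθ2 hc (by linarith [hCf B] : 0 ≤ Cf B)
    (Q := P B (Cf B)) (hf B)
  choose C' hC' A hAm hAv hAQ using hsh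
  -- the ratio
  set r : ℝ := (2:ℝ) ^ (-(c / 8)) with hr
  have hr0 : 0 < r := by positivity
  have hr1 : r < 1 := Real.rpow_lt_one_of_one_lt_of_neg (by norm_num) (by linarith)
  set κ : ℝ := (2:ℝ)⁻¹ ^ k * (1 - r) with hκ
  have hκ0 : 0 < κ := by
    have : 0 < 1 - r := by linarith
    positivity
  -- thresholds
  have hthr : ∀ B : ℕ, ∃ n₀ : ℕ, ∀ n, n₀ ≤ n →
      C' B ≤ κ * (2⁻¹ ^ (B + 1)) * ((2:ℝ) ^ n) ^ (c / 4) := by
    intro B
    have hpos : 0 < κ * (2⁻¹ ^ (B + 1)) := by positivity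
    have h1 : (1:ℝ) < 2 ^ (c / 4) := Real.one_lt_rpow (by norm_num) (by linarith)
    have h2 := (tendsto_pow_atTop_atTop_of_one_lt h1).eventually_ge_atTop
      (C' B / (κ * (2⁻¹ ^ (B + 1))))
    obtain ⟨n₀, hn₀⟩ := Filter.eventually_atTop.1 h2
    refine ⟨n₀, fun n hn => ?_⟩
    have h3 := hn₀ n hn
    rw [div_le_iff₀ hpos] at h3
    have e1 : ((2:ℝ) ^ n) ^ (c / 4) = (2 ^ (c / 4)) ^ n := by
      rw [← Real.rpow_natCast, ← Real.rpow_mul (by norm_num), mul_comm,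
        Real.rpow_mul (by norm_num), Real.rpow_natCast]
    rw [e1]
    linarith
  choose n₀ hn₀ using hthr
  set Af : ℕ → ℕ → Set (Fin k → ℝ) := fun B n => if n₀ B ≤ n then A B n ∩ Sh k n else ∅ with hAf
  have hAfm : ∀ B n, MeasurableSet (Af B n) := by
    intro B n
    simp only [hAf]
    split_ifs
    · exact (hAm B n).inter (measurableSet_Sh k n)
    · exact MeasurableSet.empty
  refine ⟨⋃ B, ⋃ n, Af B n, MeasurableSet.iUnion fun B => MeasurableSet.iUnion fun n => hAfm B n,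
    fun V hV => ?_, fun B => ?_⟩
  · -- the volume
    have hV0 : 0 < V := by linarith
    have h1 : ∀ B n, volume (Af B n ∩ box k V) ≤
        ENNReal.ofReal (2⁻¹ ^ (B + 1) * (V ^ (k - c / 8) * (1 - r)) * r ^ n) := by
      intro B n
      simp only [hAf]
      split_ifs with hn
      · by_cases hne : (A B n ∩ Sh k n ∩ box k V).Nonempty
        · obtain ⟨v, ⟨_, hv2⟩, hv3⟩ := hne
          have hvV : ‖v‖ ≤ V := (mem_box_iff hV0.le).1 hv3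
          have h2V : (2:ℝ) ^ n ≤ 2 * V := hv2.2.trans (by linarith)
          have hn0 : (0:ℝ) < 2 ^ n := by positivity
          have h2n1 : (1:ℝ) ≤ 2 ^ n := one_le_pow₀ (by norm_num)
          refine (measure_mono (Set.inter_subset_left.trans Set.inter_subset_left)).trans
            ((hAv B n).trans (ENNReal.ofReal_le_ofReal ?_))
          have h3 := hn₀ B n hn
          have h4 : ((2:ℝ) ^ n) ^ (c / 4) * ((2:ℝ) ^ n) ^ ((k:ℝ) - c / 2) =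
              ((2:ℝ) ^ n) ^ ((k:ℝ) - c / 8) * r ^ n * 1 := by
            have e1 : r ^ n = ((2:ℝ) ^ n) ^ (-(c / 8)) := by
              rw [hr, ← Real.rpow_natCast, ← Real.rpow_mul (by norm_num), mul_comm,
                Real.rpow_mul (by norm_num), Real.rpow_natCast]
            rw [e1, mul_one, ← Real.rpow_add hn0, ← Real.rpow_add hn0]
            congr 1
            ring
          have h5 : ((2:ℝ) ^ n) ^ ((k:ℝ) - c / 8) ≤ 2 ^ k * V ^ ((k:ℝ) - c / 8) := by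
            have h6 : 0 ≤ (k:ℝ) - c / 8 := by linarith
            calc ((2:ℝ) ^ n) ^ ((k:ℝ) - c / 8) ≤ (2 * V) ^ ((k:ℝ) - c / 8) :=
                  Real.rpow_le_rpow hn0.le h2V h6
              _ = 2 ^ ((k:ℝ) - c / 8) * V ^ ((k:ℝ) - c / 8) :=
                  Real.mul_rpow (by norm_num) hV0.le
              _ ≤ 2 ^ (k:ℝ) * V ^ ((k:ℝ) - c / 8) := by
                  gcongr
                  · norm_num
                  · linarith
              _ = _ := by rw [Real.rpow_natCast]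
          calc C' B * ((2:ℝ) ^ n) ^ ((k:ℝ) - c / 2) ≤
                κ * (2⁻¹ ^ (B + 1)) * ((2:ℝ) ^ n) ^ (c / 4) * ((2:ℝ) ^ n) ^ ((k:ℝ) - c / 2) := by
                gcongr
            _ = κ * (2⁻¹ ^ (B + 1)) * (((2:ℝ) ^ n) ^ (c / 4) * ((2:ℝ) ^ n) ^ ((k:ℝ) - c / 2)) := by
                ring
            _ = κ * (2⁻¹ ^ (B + 1)) * (((2:ℝ) ^ n) ^ ((k:ℝ) - c / 8) * r ^ n) := by
                rw [h4, mul_one]
            _ ≤ κ * (2⁻¹ ^ (B + 1)) * (2 ^ k * V ^ ((k:ℝ) - c / 8) * r ^ n) := by gcongr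
            _ = _ := by
                rw [hκ, inv_pow 2 k]
                field_simp
        · rw [Set.not_nonempty_iff_eq_empty.1 hne]
          simp
      · simp
    have h2 : (⋃ B, ⋃ n, Af B n) ∩ box k V = ⋃ B, ⋃ n, (Af B n ∩ box k V) := by
      simp only [Set.iUnion_inter]
    rw [h2]
    calc volume (⋃ B, ⋃ n, (Af B n ∩ box k V)) ≤ ∑' B, ∑' n, volume (Af B n ∩ box k V) :=
          (measure_iUnion_le _).trans (ENNReal.tsum_le_tsum fun B => measure_iUnion_le _)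
      _ ≤ ∑' B : ℕ, ∑' n : ℕ,
            ENNReal.ofReal (2⁻¹ ^ (B + 1) * (V ^ (k - c / 8) * (1 - r)) * r ^ n) :=
          ENNReal.tsum_le_tsum fun B => ENNReal.tsum_le_tsum fun n => h1 B n
      _ ≤ ∑' B : ℕ, ENNReal.ofReal (2⁻¹ * V ^ (k - c / 8) * 2⁻¹ ^ B) := by
          refine ENNReal.tsum_le_tsum fun B => ?_
          have h1r : 0 < 1 - r := by linarith
          refine (tsum_geometric_le hr0.le hr1 _ (by positivity)).trans (le_of_eq ?_)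
          congr 1
          rw [pow_succ]
          field_simp
      _ ≤ ENNReal.ofReal (2⁻¹ * V ^ (k - c / 8) * (1 - 2⁻¹)⁻¹) :=
          tsum_geometric_le (by norm_num) (by norm_num) _ (by positivity)
      _ = ENNReal.ofReal (V ^ (k - c / 8)) := by
          congr 1
          norm_num
          ring
  · -- the property
    set Bn : ℕ := ⌈|B|⌉₊ with hBn
    have hBB : B ≤ Bn := (le_abs_self B).trans (Nat.le_ceil _)
    set T₂ : ℝ := max (2 * Tf Bn) (((2:ℝ) ^ n₀ Bn) ^ θ₁⁻¹) with hT₂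
    have hT₂1 : 1 ≤ T₂ := le_trans (by linarith [hTf Bn]) (le_max_left _ _)
    obtain ⟨Ct, hCt⟩ := triv Bn T₂ (Nat.cast_nonneg _) hT₂1
    refine ⟨max (Cf Bn) Ct, fun v hv T hT hv1 hv2 => ?_⟩
    have hT0 : 0 < T := by linarith
    by_cases hTT : T ≤ T₂
    · have hvT : ‖v‖ ≤ T := by
        refine hv2.trans ?_
        calc T ^ θ₂ ≤ T ^ (1:ℝ) := Real.rpow_le_rpow_of_exponent_le hT hθ2
          _ = T := Real.rpow_one T
      exact mono _ _ _ _ v T hBB (le_max_right _ _) hT (hCt v T hT hTT hvT)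
    · push Not at hTT
      have hv0 : 1 ≤ ‖v‖ := (Real.one_le_rpow hT hθ.le).trans hv1
      obtain ⟨n, hn⟩ := exists_Sh hv0
      obtain ⟨m, hm1, hm2⟩ := exists_nat_pow_near hT (by norm_num : (1:ℝ) < 2)
      have hm2' : T ≤ 2 * 2 ^ m := by rw [pow_succ] at hm2; linarith
      have hnn : n₀ Bn ≤ n := by
        by_contra hcon
        push Not at hcon
        have h1 : (2:ℝ) ^ n ≤ 2 ^ n₀ Bn := pow_le_pow_right₀ (by norm_num) hcon.le
        have h2 : T ^ θ₁ ≤ 2 ^ n₀ Bn := hv1.trans (hn.1.trans h1)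
        have h3 : T ≤ ((2:ℝ) ^ n₀ Bn) ^ θ₁⁻¹ := by
          have h4 := Real.rpow_le_rpow (by positivity) h2 (inv_nonneg.2 hθ.le)
          rwa [← Real.rpow_mul hT0.le, mul_inv_cancel₀ hθ.ne', Real.rpow_one] at h4
        have h4 : ((2:ℝ) ^ n₀ Bn) ^ θ₁⁻¹ ≤ T₂ := le_max_right _ _
        linarith
      have hTm : Tf Bn ≤ 2 ^ m := by
        have h1 : 2 * Tf Bn ≤ T₂ := le_max_left _ _
        linarith
      have hvA : v ∉ A Bn n := by
        intro hvA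
        refine hv (Set.mem_iUnion.2 ⟨Bn, Set.mem_iUnion.2 ⟨n, ?_⟩⟩)
        simp only [hAf, if_pos hnn]
        exact ⟨hvA, hn⟩
      have hm0 : (0:ℝ) < 2 ^ m := by positivity
      have h1 : ((2:ℝ) ^ m) ^ θ₁ ≤ 2 ^ n :=
        (Real.rpow_le_rpow hm0.le hm1 hθ.le).trans (hv1.trans hn.1)
      have h2 : (2:ℝ) ^ n ≤ 4 * ((2:ℝ) ^ m) ^ θ₂ := by
        by_cases h0 : 0 ≤ θ₂
        · calc (2:ℝ) ^ n ≤ 2 * ‖v‖ := hn.2
            _ ≤ 2 * T ^ θ₂ := by gcongr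
            _ ≤ 2 * (2 * 2 ^ m) ^ θ₂ := by gcongr
            _ = 2 * (2 ^ θ₂ * ((2:ℝ) ^ m) ^ θ₂) := by rw [Real.mul_rpow (by norm_num) hm0.le]
            _ ≤ 2 * (2 * ((2:ℝ) ^ m) ^ θ₂) := by
                gcongr
                calc (2:ℝ) ^ θ₂ ≤ 2 ^ (1:ℝ) :=
                      Real.rpow_le_rpow_of_exponent_le (by norm_num) hθ2
                  _ = 2 := Real.rpow_one 2
            _ = _ := by ring
        · push Not at h0
          have h3 : T ^ θ₂ ≤ ((2:ℝ) ^ m) ^ θ₂ := Real.rpow_le_rpow_of_nonpos hm0 hm1 h0.le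
          calc (2:ℝ) ^ n ≤ 2 * ‖v‖ := hn.2
            _ ≤ 2 * T ^ θ₂ := by gcongr
            _ ≤ 2 * ((2:ℝ) ^ m) ^ θ₂ := by gcongr
            _ ≤ _ := by
                have : 0 ≤ ((2:ℝ) ^ m) ^ θ₂ := by positivity
                linarith
      have hP := hAQ Bn n v hn hvA m hTm h1 h2 T ⟨hm1, hm2'⟩
      exact mono _ _ _ _ v T hBB (le_max_left _ _) hT hP

end Pool.Agent.AAS
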