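import Pool.Agent.AAS.RM1

set_option autoImplicit false

namespace Pool.Agent.AAS

open Complex Finset MeasureTheory Filter Topology Set
open Pool.Agent.H26

/-- from a small exceptional set of shifts to all shifts: `H26.exists_direction` (with
`ρ = ρ₀ T^(-e/(2k+1))`, `s = ρ/1000`), `exists_line_extension` and
`H26.norm_zero_le_of_large_set` with `n` of size `(A + 1) (2k+1) / e` -/
theorem exists_sup_of_small (k : ℕ) (B e c : ℝ) (hB : 0 ≤ B) (he : 0 < e) (hc : 0 ≤ c)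
    (hc1 : c ≤ 1) : ∃ C : ℝ, 1 ≤ C ∧ ∀ T : ℝ, 1 ≤ T → ∀ u ∈ box k T,
    volume {γ : Ix k → ℝ | (∀ i, |γ i| ≤ B + 1) ∧ T ^ (1 - c) < ‖Er (γ + Sum.elim u u) T‖} ≤
      ENNReal.ofReal (C⁻¹ * T ^ (-e)) →
    ∀ γ : Ix k → ℝ, (∀ i, |γ i| ≤ B) → ‖Er (γ + Sum.elim u u) T‖ ≤ C * T ^ (1 - c) := by
  obtain ⟨C0, A, hC0, hline⟩ := exists_line_extension k
  set d : ℕ := Fintype.card (Ix k) with hd
  have hd1 : (0 : ℝ) < (d : ℝ) + 1 := by positivity
  obtain ⟨n, hn⟩ := exists_nat_ge (2 * A * ((d : ℝ) + 1) / e + 1)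
  have hn1 : (1 : ℝ) ≤ n := by
    have : 0 ≤ 2 * A * ((d : ℝ) + 1) / e := by positivity
    linarith
  have hn0 : 0 < n := by
    have : (0 : ℝ) < n := by linarith
    exact_mod_cast this
  set C1 : ℝ := C0 * (2 + B) ^ A * 2 ^ A with hC1
  have hC10 : 0 ≤ C1 := by positivity
  refine ⟨1 + 2000 ^ (d + 1) * 96 ^ d + 3 ^ n + 2 * C1, ?_, ?_⟩
  · have h1 : (0 : ℝ) ≤ 2000 ^ (d + 1) * 96 ^ d := by positivity
    have h2 : (0 : ℝ) ≤ 3 ^ n := by positivity
    linarith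
  intro T hT u hu hbad γ hγ
  set C : ℝ := 1 + 2000 ^ (d + 1) * 96 ^ d + 3 ^ n + 2 * C1 with hC
  have hT0 : 0 < T := by linarith
  have hu' : ∀ j, |u j| ≤ T := by
    intro j
    have := hu j (Set.mem_univ j)
    exact abs_le.mpr ⟨this.1, this.2⟩
  -- parameters
  set τ : ℝ := T ^ (-(e / ((d : ℝ) + 1))) with hτ
  have hτ0 : 0 < τ := Real.rpow_pos_of_pos hT0 _
  have hτ1 : τ ≤ 1 := by
    rw [hτ]
    apply Real.rpow_le_one_of_one_le_of_nonpos hT
    have : 0 ≤ e / ((d : ℝ) + 1) := by positivity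
    linarith
  set ρ : ℝ := τ / 96 with hρ
  have hρ0 : 0 < ρ := by positivity
  have hρ1 : ρ ≤ 1 / 96 := by
    rw [hρ]
    linarith
  set s : ℝ := ρ / 1000 with hs
  have hs0 : 0 < s := by positivity
  -- the bad set
  set Bad : Set (Ix k → ℝ) := {γ : Ix k → ℝ | (∀ i, |γ i| ≤ B + 1) ∧
    T ^ (1 - c) < ‖Er (γ + Sum.elim u u) T‖} with hBad
  have hcontE : Continuous fun γ : Ix k → ℝ => ‖Er (γ + Sum.elim u u) T‖ :=
    ((continuous_Er T).comp (continuous_id.add continuous_const)).norm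
  have hBadm : MeasurableSet Bad := by
    have h1 : IsClosed {γ : Ix k → ℝ | ∀ i, |γ i| ≤ B + 1} := by
      have : {γ : Ix k → ℝ | ∀ i, |γ i| ≤ B + 1} = ⋂ i, {γ : Ix k → ℝ | |γ i| ≤ B + 1} := by
        ext γ
        simp
      rw [this]
      exact isClosed_iInter fun i => isClosed_le (continuous_apply i).abs continuous_const
    have h2 : IsOpen {γ : Ix k → ℝ | T ^ (1 - c) < ‖Er (γ + Sum.elim u u) T‖} :=
      isOpen_lt continuous_const hcontE
    exact h1.measurableSet.inter h2.measurableSet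
  have hvol : volume Bad ≤ ENNReal.ofReal ((s / 2) ^ (Fintype.card (Ix k) + 1) / ρ) := by
    refine hbad.trans (ENNReal.ofReal_le_ofReal ?_)
    rw [← hd]
    have e1 : (s / 2) ^ (d + 1) / ρ = τ ^ d / (2000 ^ (d + 1) * 96 ^ d) := by
      rw [hs, hρ]
      rw [show τ / 96 / 1000 / 2 = (τ / 96) / 2000 by ring, div_pow, pow_succ (τ / 96) d, div_pow]
      field_simp
    have e2 : T ^ (-e) ≤ τ ^ d := by
      rw [hτ, ← Real.rpow_natCast (T ^ (-(e / ((d : ℝ) + 1)))) d, ← Real.rpow_mul hT0.le]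
      apply Real.rpow_le_rpow_of_exponent_le hT
      have : (d : ℝ) / ((d : ℝ) + 1) ≤ 1 := by
        rw [div_le_one hd1]
        linarith
      have h3 : -(e / ((d : ℝ) + 1)) * (d : ℝ) = -(e * ((d : ℝ) / ((d : ℝ) + 1))) := by ring
      rw [h3]
      nlinarith
    have h4 : (0 : ℝ) < 2000 ^ (d + 1) * 96 ^ d := by positivity
    have h5 : (2000 : ℝ) ^ (d + 1) * 96 ^ d ≤ C := by
      have h2 : (0 : ℝ) ≤ 3 ^ n := by positivity
      rw [hC]
      linarith
    rw [e1, div_eq_inv_mul]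
    apply mul_le_mul _ e2 (Real.rpow_nonneg hT0.le _) (by positivity)
    exact inv_anti₀ h4 h5
  obtain ⟨v, hv, hvinj, hvle⟩ := exists_direction hBadm γ hρ0 hs0 hvol
  have hvn : ∀ i, |v i| ≤ 1 := fun i => by
    rw [abs_of_nonneg (hv.1 i)]; exact hv.2 i
  obtain ⟨f, hfd, hfb, hfx⟩ := hline (γ + Sum.elim u u) v T (B + T) hT0.le (by linarith)
    (fun i => by
      have h1 := hγ i
      have h2 : |Sum.elim u u i| ≤ T := by
        rcases i with i | i
        · exact hu' i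
        · exact hu' i
      calc |(γ + Sum.elim u u) i| = |γ i + Sum.elim u u i| := rfl
        _ ≤ |γ i| + |Sum.elim u u i| := abs_add_le _ _
        _ ≤ B + T := by linarith) hvinj hvn
  set Acl : Set ℝ := {x | ‖Er (γ + x • v + Sum.elim u u) T‖ ≤ T ^ (1 - c)} with hAcl
  have hAclosed : IsClosed Acl := by
    have hc : Continuous fun x : ℝ => ‖Er (γ + x • v + Sum.elim u u) T‖ := by
      have h1 : Continuous fun x : ℝ => γ + x • v := by fun_prop
      exact hcontE.comp h1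
    exact isClosed_le hc continuous_const
  have hball : ∀ x : ℝ, 0 < x → x ≤ ρ → x ∉ Acl → γ + x • v ∈ Bad := by
    intro x hx0 hx hxA
    refine ⟨fun i => ?_, not_le.mp hxA⟩
    calc |(γ + x • v) i| = |γ i + x * v i| := rfl
      _ ≤ |γ i| + |x * v i| := abs_add_le _ _
      _ = |γ i| + x * |v i| := by rw [abs_mul, abs_of_pos hx0]
      _ ≤ B + 1 * 1 := by
          have h1 := hγ i
          have h2 : x * |v i| ≤ 1 * 1 :=
            mul_le_mul (by linarith) (hvn i) (abs_nonneg _) (by norm_num)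
          linarith
      _ = B + 1 := by ring
  have hphi : ρ - ρ / 1000 ≤ phiA Acl ρ := by
    have h1 : (volume (Ioc 0 ρ)).toReal = ρ := by
      rw [Real.volume_Ioc, sub_zero, ENNReal.toReal_ofReal hρ0.le]
    have h2 : volume (Ioc 0 ρ) ≤ volume (Acl ∩ Ioc 0 ρ) + ENNReal.ofReal s := by
      calc volume (Ioc 0 ρ) ≤ volume ((Acl ∩ Ioc 0 ρ) ∪ {x : ℝ | x ∈ Ioc 0 ρ ∧ γ + x • v ∈ Bad}) := by
            refine measure_mono fun x hx => ?_
            by_cases h : x ∈ Acl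
            · exact Or.inl ⟨h, hx⟩
            · exact Or.inr ⟨hx, hball x hx.1 hx.2 h⟩
        _ ≤ _ := measure_union_le _ _
        _ ≤ _ := by gcongr
    have h3 := ENNReal.toReal_mono (by
      exact ENNReal.add_ne_top.2 ⟨volume_inter_Ioc_ne_top _ _ _, ENNReal.ofReal_ne_top⟩) h2
    rw [h1, ENNReal.toReal_add (volume_inter_Ioc_ne_top _ _ _) ENNReal.ofReal_ne_top,
      ENNReal.toReal_ofReal hs0.le] at h3
    unfold phiA
    linarith
  set M : ℝ := C1 * T ^ (2 * A) with hM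
  have hfb' : ∀ z ∈ Metric.ball (0 : ℂ) (1 / 16), ‖f z‖ ≤ M := by
    intro z hz
    refine (hfb z hz).trans ?_
    have h1 : (1 + (B + T)) ^ A ≤ ((2 + B) * T) ^ A := by
      apply pow_le_pow_left₀ (by linarith)
      nlinarith
    have h2 : (1 + T) ^ A ≤ (2 * T) ^ A := by
      apply pow_le_pow_left₀ (by linarith)
      linarith
    calc C0 * (1 + (B + T)) ^ A * (1 + T) ^ A
        ≤ C0 * ((2 + B) * T) ^ A * (2 * T) ^ A := by gcongr
      _ = M := by
          rw [hM, hC1, mul_pow, mul_pow, two_mul A, pow_add]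
          ring
  have hfA : ∀ x ∈ Acl, 0 < x → x ≤ ρ → ‖f x‖ ≤ T ^ (1 - c) := by
    intro x hx hx0 hxρ
    have h1 : |x| < 1 / 16 := by
      rw [abs_of_pos hx0]
      linarith
    rw [hfx x h1]
    have h2 : γ + Sum.elim u u + x • v = γ + x • v + Sum.elim u u := by
      rw [add_right_comm]
    rw [h2]
    exact hx
  have hmain := norm_zero_le_of_large_set (f := f) (R := 1 / 16) (M := M)
    (m := T ^ (1 - c)) (ρ := ρ) hAclosed (by norm_num) hρ0 (by linarith) hfd hfb'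
    (Real.rpow_nonneg hT0.le _) hfA hphi (n := n) hn0
  have hf0 : f 0 = Er (γ + Sum.elim u u) T := by
    have := hfx 0 (by simp)
    rw [zero_smul, add_zero] at this
    exact_mod_cast this
  rw [hf0] at hmain
  have hT1 : 1 ≤ T ^ (1 - c) := Real.one_le_rpow hT (by linarith)
  have hpw : (3 : ℝ) ^ n * (2 * ρ / (1 / 16)) ^ n = τ ^ n := by
    rw [← mul_pow]
    congr 1
    rw [hρ]
    ring
  have hTn : T ^ (2 * A) * τ ^ n ≤ 1 := by
    rw [hτ, ← Real.rpow_natCast (T ^ (-(e / ((d : ℝ) + 1)))) n, ← Real.rpow_mul hT0.le,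
      ← Real.rpow_natCast T (2 * A), ← Real.rpow_add hT0]
    apply Real.rpow_le_one_of_one_le_of_nonpos hT
    push_cast
    have h1 : 2 * (A : ℝ) * ((d : ℝ) + 1) / e ≤ n := by linarith
    have h2 : 2 * (A : ℝ) ≤ n * (e / ((d : ℝ) + 1)) := by
      rw [div_le_iff₀ he] at h1
      rw [← mul_div_assoc, le_div_iff₀ hd1]
      exact h1
    nlinarith
  calc ‖Er (γ + Sum.elim u u) T‖
      ≤ 3 ^ n * (T ^ (1 - c) + 2 * M * (2 * ρ / (1 / 16)) ^ n) := hmain
    _ = 3 ^ n * T ^ (1 - c) + 2 * C1 * (T ^ (2 * A) * (3 ^ n * (2 * ρ / (1 / 16)) ^ n)) := by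
        rw [hM]
        ring
    _ = 3 ^ n * T ^ (1 - c) + 2 * C1 * (T ^ (2 * A) * τ ^ n) := by rw [hpw]
    _ ≤ 3 ^ n * T ^ (1 - c) + 2 * C1 * 1 := by gcongr
    _ ≤ 3 ^ n * T ^ (1 - c) + 2 * C1 * T ^ (1 - c) := by gcongr
    _ ≤ C * T ^ (1 - c) := by
        have h1 : (0 : ℝ) ≤ 2000 ^ (d + 1) * 96 ^ d := by positivity
        rw [hC]
        have h2 : 3 ^ n * T ^ (1 - c) + 2 * C1 * T ^ (1 - c) = (3 ^ n + 2 * C1) * T ^ (1 - c) := by
          ring
        rw [h2]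
        apply mul_le_mul_of_nonneg_right _ (by linarith)
        linarith

end Pool.Agent.AAS
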