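import Pool.Agent.AAS.MXA
import Pool.Agent.AAS.IND
import Pool.Agent.AAS.RMZ

set_option autoImplicit false

namespace Pool.Agent.AAS

open Complex Finset MeasureTheory Filter Topology Set
open Pool.Agent.H26

lemma EG_univ {k : ℕ} (γ : Ix k → ℝ) (T : ℝ) : EG Set.univ γ T = Er γ T := by
  unfold EG
  simp

theorem supG_univ (k : ℕ) : SupG k Set.univ := by
  intro B e c hB he hc hc1
  obtain ⟨C, hC, h⟩ := exists_sup_of_small k B e c hB he hc hc1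
  refine ⟨C, hC, fun T hT u hu hv γ hγ => ?_⟩
  simp only [EG_univ] at hv ⊢
  exact h T hT u hu hv γ hγ

/-- the trivial bound for bounded times -/
theorem exists_triv (k : ℕ) (B T₂ : ℝ) (hB : 0 ≤ B) (hT₂ : 1 ≤ T₂) : ∃ C : ℝ, 0 ≤ C ∧
    ∀ v : Fin k → ℝ, ∀ T : ℝ, 1 ≤ T → T ≤ T₂ → ‖v‖ ≤ T → ∀ α β : Fin (k + 1) → ℝ,
    (∀ j, |α j| ≤ B) → (∀ j, |β j| ≤ B) →
    ‖E (fun j => α j + fx v j) (fun j => β j + fx v j) T‖ ≤ C := by
  obtain ⟨C₄, hC₄, hpoly⟩ := BASE.exists_Er_poly_zero (k + 1)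
  refine ⟨C₄ * (1 + (B + T₂)) ^ NK (k + 1) * (1 + T₂) ^ (2 * (k + 1) + 1), by positivity,
    fun v T hT hTT hv α β hα hβ => ?_⟩
  have hv' : v ∈ box k T := (IND.mem_box_iff (by linarith)).2 hv
  have h3 : ∀ j, |fx v j| ≤ T := fun j => MXA.abs_fx_le (by linarith) hv' j
  have h2 := hpoly (Sum.elim (fun j => α j + fx v j) (fun j => β j + fx v j)) (B + T) T
    (by linarith) (by linarith) (by
      intro i
      cases i with
      | inl j =>
        have : |α j + fx v j| ≤ |α j| + |fx v j| := abs_add_le _ _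
        have h4 := hα j
        have h5 := h3 j
        show |α j + fx v j| ≤ B + T
        linarith
      | inr j =>
        have : |β j + fx v j| ≤ |β j| + |fx v j| := abs_add_le _ _
        have h4 := hβ j
        have h5 := h3 j
        show |β j + fx v j| ≤ B + T
        linarith)
  have h6 : ‖Er (Sum.elim (fun j => α j + fx v j) (fun j => β j + fx v j)) T‖ =
    ‖E (fun j => α j + fx v j) (fun j => β j + fx v j) T‖ := rfl
  rw [← h6]
  refine h2.trans ?_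
  gcongr

/-- the trivial bound for the truncated error and bounded times -/
theorem exists_trivG (k : ℕ) (G : Set ℝ) (B T₂ : ℝ) (hB : 0 ≤ B) (hT₂ : 1 ≤ T₂) :
    ∃ C : ℝ, 0 ≤ C ∧ ∀ v : Fin k → ℝ, ∀ T : ℝ, 1 ≤ T → T ≤ T₂ → ‖v‖ ≤ T →
    ∀ α β : Fin (k + 1) → ℝ, (∀ j, |α j| ≤ B) → (∀ j, |β j| ≤ B) →
    ‖EG G (Sum.elim (fun j => α j + fx v j) (fun j => β j + fx v j)) T‖ ≤ C := by
  obtain ⟨C, hC0, hC⟩ := exists_triv k B T₂ hB hT₂
  -- a bound for the pairs on a compact set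
  have hcont : Continuous fun q : ℝ × ℝ × ℝ => pf q.1 q.2.1 q.2.2 :=
    EGB.continuous_pf_comp continuous_fst (continuous_fst.comp continuous_snd)
      (continuous_snd.comp continuous_snd)
  obtain ⟨K, hK⟩ := ((isCompact_Icc (a := -(B + T₂)) (b := B + T₂)).prod
    ((isCompact_Icc (a := -(B + T₂)) (b := B + T₂)).prod
      (isCompact_Icc (a := (0:ℝ)) (b := T₂)))).exists_bound_of_continuousOn hcont.continuousOn
  have hK0 : 0 ≤ K := by
    have h := hK (0, 0, 0) ⟨⟨by linarith, by linarith⟩, ⟨by linarith, by linarith⟩,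
      le_rfl, by linarith⟩
    exact (norm_nonneg _).trans h
  refine ⟨C + K ^ (k + 1) * T₂, by positivity, fun v T hT hTT hv α β hα hβ => ?_⟩
  unfold EG
  refine (norm_sub_le _ _).trans (add_le_add (hC v T hT hTT hv α β hα hβ) ?_)
  have hv' : v ∈ box k T := (IND.mem_box_iff (by linarith)).2 hv
  have h3 : ∀ j, |fx v j| ≤ T := fun j => MXA.abs_fx_le (by linarith) hv' j
  have hb : ∀ t ∈ Set.Icc 0 T \ G, ‖Z (fun j => (Sum.elim (fun j => α j + fx v j)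
      (fun j => β j + fx v j) : Ix (k + 1) → ℝ) (Sum.inl j))
      (fun j => (Sum.elim (fun j => α j + fx v j) (fun j => β j + fx v j) :
        Ix (k + 1) → ℝ) (Sum.inr j)) t‖ ≤ K ^ (k + 1) := by
    intro t ht
    rw [EGB.Z_eq, norm_prod]
    calc ∏ j : Fin (k + 1), ‖pf ((Sum.elim (fun j => α j + fx v j) (fun j => β j + fx v j) :
          Ix (k + 1) → ℝ) (Sum.inl j)) ((Sum.elim (fun j => α j + fx v j)
          (fun j => β j + fx v j) : Ix (k + 1) → ℝ) (Sum.inr j)) t‖ ≤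
          ∏ _j : Fin (k + 1), K := by
          refine Finset.prod_le_prod (fun _ _ => norm_nonneg _) fun j _ => ?_
          simp only [Sum.elim_inl, Sum.elim_inr]
          have h4 : |α j + fx v j| ≤ B + T₂ := (abs_add_le _ _).trans
            (add_le_add (hα j) ((h3 j).trans hTT))
          have h5 : |β j + fx v j| ≤ B + T₂ := (abs_add_le _ _).trans
            (add_le_add (hβ j) ((h3 j).trans hTT))
          exact hK (α j + fx v j, β j + fx v j, t) ⟨abs_le.1 h4, abs_le.1 h5, ht.1.1,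
            ht.1.2.trans hTT⟩
      _ = K ^ (k + 1) := by simp
  have hvol : volume (Set.Icc 0 T \ G) ≤ ENNReal.ofReal T := by
    refine (measure_mono Set.diff_subset).trans ?_
    rw [Real.volume_Icc, sub_zero]
  have h4 := norm_setIntegral_le_of_norm_le_const (hvol.trans_lt ENNReal.ofReal_lt_top) hb
  refine h4.trans ?_
  have h5 : volume.real (Set.Icc 0 T \ G) ≤ T := by
    rw [Measure.real]
    exact ENNReal.toReal_le_of_le_ofReal (by linarith) hvol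
  have h6 : 0 ≤ K ^ (k + 1) := by positivity
  exact mul_le_mul_of_nonneg_left (h5.trans hTT) h6

/-- One exceptional set for the truncated error and all times `T` with
`T ^ θ₁ ≤ ‖v‖ ≤ T ^ θ₂`. -/
theorem final_of_G {k : ℕ} {G : Set ℝ} (hG : MeasurableSet G) {θ₀ θ₁ θ₂ θ₃ : ℝ} (h0 : 0 < θ₀)
    (h01 : θ₀ < θ₁) (h12 : θ₁ ≤ θ₂) (h23 : θ₂ < θ₃) (h31 : θ₃ < 1) (hcore : CoreG k G θ₀ θ₃)
    (hmax : MaxG k G θ₀ θ₃) (hsup : SupG (k + 1) G) : ∃ c : ℝ, 0 < c ∧ c ≤ 1 ∧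
    ∃ Ex : Set (Fin k → ℝ), MeasurableSet Ex ∧
    (∀ V : ℝ, 1 ≤ V → volume (Ex ∩ {v | ‖v‖ ≤ V}) ≤ ENNReal.ofReal (V ^ (k - c))) ∧
    ∀ B : ℝ, ∃ C : ℝ, 0 ≤ C ∧ ∀ v, v ∉ Ex → ∀ T : ℝ, 1 ≤ T → T ^ θ₁ ≤ ‖v‖ → ‖v‖ ≤ T ^ θ₂ →
    ∀ α β : Fin (k + 1) → ℝ, (∀ j, |α j| ≤ B) → (∀ j, |β j| ≤ B) →
    ‖EG G (Sum.elim (fun j => α j + fx v j) (fun j => β j + fx v j)) T‖ ≤ C * T ^ (1 - c) := by
  rcases Nat.eq_zero_or_pos k with rfl | hk
  · refine ⟨1, one_pos, le_rfl, ∅, MeasurableSet.empty, fun V _ => by simp,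
      fun B => ⟨0, le_rfl, ?_⟩⟩
    intro v _ T hT hv1
    exfalso
    have h1 : 0 < T ^ θ₁ := by positivity
    have h2 : ‖v‖ = 0 := by
      rw [Subsingleton.elim v 0, norm_zero]
    linarith
  obtain ⟨c, hc, hc1, hex⟩ := exists_exceptional (k := k) hG h0 (by linarith : 0 ≤ θ₃) h31
    hcore hmax hsup
  have hck : c ≤ (k:ℝ) := by
    have : (1:ℝ) ≤ k := by exact_mod_cast hk
    linarith
  have key := ind_abs (k := k) (θ₁ := θ₁) (θ₂ := θ₂) (c := c) (by linarith) (by linarith) hc hck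
    (fun B C v T => ∀ α β : Fin (k + 1) → ℝ, (∀ j, |α j| ≤ B) → (∀ j, |β j| ≤ B) →
      ‖EG G (Sum.elim (fun j => α j + fx v j) (fun j => β j + fx v j)) T‖ ≤
        C * T ^ (1 - c)) ?_ ?_ ?_
  · obtain ⟨Ex, hE1, hE2, hE3⟩ := key
    refine ⟨c / 8, by positivity, by linarith, Ex, hE1, ?_, fun B => ?_⟩
    · intro V hV
      have e : {v : Fin k → ℝ | ‖v‖ ≤ V} = box k V := by
        ext v
        exact (IND.mem_box_iff (by linarith)).symm
      rw [e]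
      exact hE2 V hV
    · obtain ⟨C, hC⟩ := hE3 B
      refine ⟨max C 0, le_max_right _ _, fun v hv T hT h1 h2 α β hα hβ => ?_⟩
      refine (hC v hv T hT h1 h2 α β hα hβ).trans ?_
      have h3 : T ^ (1 - c) ≤ T ^ (1 - c / 8) :=
        Real.rpow_le_rpow_of_exponent_le hT (by linarith)
      calc C * T ^ (1 - c) ≤ max C 0 * T ^ (1 - c) := by
            gcongr
            exact le_max_left _ _
        _ ≤ max C 0 * T ^ (1 - c / 8) := by gcongr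
  · intro B B' C C' v T hBB hCC hT hP α β hα hβ
    refine (hP α β (fun j => (hα j).trans hBB) (fun j => (hβ j).trans hBB)).trans ?_
    gcongr
  · intro B hB
    obtain ⟨C, T₁, hC, hT₁, h⟩ := hex B hB
    set T₂ : ℝ := max T₁ (max ((2 ^ θ₀) ^ (θ₁ - θ₀)⁻¹) (2 ^ (θ₃ - θ₂)⁻¹)) with hT₂
    refine ⟨C, T₂, hC, hT₁.trans (le_max_left _ _), fun T H hTT hTH hHT => ?_⟩
    have hT : 1 ≤ T := (hT₁.trans (le_max_left _ _)).trans hTT
    have hT0 : 0 < T := by linarith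
    have h4 : (2:ℝ) ^ θ₀ ≤ T ^ (θ₁ - θ₀) := MXA.le_rpow_of_le (by positivity) (by linarith)
      (((le_max_left _ _).trans (le_max_right _ _)).trans hTT)
    have h5 : (2:ℝ) ≤ T ^ (θ₃ - θ₂) := MXA.le_rpow_of_le (by norm_num) (by linarith)
      (((le_max_right _ _).trans (le_max_right _ _)).trans hTT)
    obtain ⟨Ex, hE1, hE2⟩ := h T H ((le_max_left _ _).trans hTT) (by
      rw [Real.mul_rpow (by norm_num) hT0.le]
      calc (2:ℝ) ^ θ₀ * T ^ θ₀ ≤ T ^ (θ₁ - θ₀) * T ^ θ₀ := by gcongr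
        _ = T ^ θ₁ := by rw [← Real.rpow_add hT0, sub_add_cancel]
        _ ≤ H := hTH) (by
      refine hHT.trans ?_
      calc 4 * T ^ θ₂ = 2 * (2 * T ^ θ₂) := by ring
        _ ≤ 2 * (T ^ (θ₃ - θ₂) * T ^ θ₂) := by gcongr
        _ = 2 * T ^ θ₃ := by rw [← Real.rpow_add hT0, sub_add_cancel])
    refine ⟨Ex, hE1, fun v hv hvE T' hT' α β hα hβ => ?_⟩
    have h6 := hE2 v hv hvE T' hT' α β hα hβ
    refine h6.trans ?_
    have h7 : T ^ (1 - c) ≤ T' ^ (1 - c) := Real.rpow_le_rpow hT0.le hT'.1 (by linarith)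
    gcongr
  · intro B T₂ hB hT₂
    obtain ⟨C, hC0, hC⟩ := exists_trivG k G B T₂ hB hT₂
    refine ⟨C, fun v T hT hTT hv α β hα hβ => ?_⟩
    refine (hC v T hT hTT hv α β hα hβ).trans ?_
    have h1 : 1 ≤ T ^ (1 - c) := Real.one_le_rpow hT (by linarith)
    calc C = C * 1 := by ring
      _ ≤ _ := by gcongr

/-- The case of all times. -/
theorem final_of_univ {k : ℕ} {θ₀ θ₁ θ₂ θ₃ : ℝ} (h0 : 0 < θ₀)
    (h01 : θ₀ < θ₁) (h12 : θ₁ ≤ θ₂) (h23 : θ₂ < θ₃) (h31 : θ₃ < 1)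
    (hcore : CoreG k Set.univ θ₀ θ₃) (hmax : MaxG k Set.univ θ₀ θ₃) : ∃ c : ℝ, 0 < c ∧
    ∃ Ex : Set (Fin k → ℝ), MeasurableSet Ex ∧
    (∀ V : ℝ, 1 ≤ V → volume (Ex ∩ {v | ‖v‖ ≤ V}) ≤ ENNReal.ofReal (V ^ (k - c))) ∧
    ∀ B : ℝ, ∃ C : ℝ, ∀ v, v ∉ Ex → ∀ T : ℝ, 1 ≤ T → T ^ θ₁ ≤ ‖v‖ → ‖v‖ ≤ T ^ θ₂ →
    ∀ α β : Fin (k + 1) → ℝ, (∀ j, |α j| ≤ B) → (∀ j, |β j| ≤ B) →
    ‖E (fun j => α j + fx v j) (fun j => β j + fx v j) T‖ ≤ C * T ^ (1 - c) := by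
  obtain ⟨c, hc, -, Ex, h1, h2, h3⟩ := final_of_G MeasurableSet.univ h0 h01 h12 h23 h31 hcore
    hmax (supG_univ (k + 1))
  refine ⟨c, hc, Ex, h1, h2, fun B => ?_⟩
  obtain ⟨C, -, hC⟩ := h3 B
  refine ⟨C, fun v hv T hT hv1 hv2 α β hα hβ => ?_⟩
  have h := hC v hv T hT hv1 hv2 α β hα hβ
  rw [EG_univ] at h
  exact h

end Pool.Agent.AAS
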