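import Pool.Agent.AAS.Defs
import Pool.Agent.H26.Transl


set_option autoImplicit false

namespace Pool.Agent.AAS

open Complex Finset MeasureTheory Filter Topology Set
open Pool.Agent.H26

/-- U_4: the error for well separated shifts -/
theorem E_eq {k : ℕ} {a b u : Fin k → ℝ} (hinj : Function.Injective (gm a b u)) (T : ℝ) :
    E (fun j => a j + u j) (fun j => b j + u j) T =
      ∫ t in (0:ℝ)..T, (∏ j, pf (a j) (b j) (t + u j) -
        ∑ S ∈ (univ : Finset (Ix k)).powersetCard k, G S (fun i => (gm a b u i : ℂ)) t *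
          zetaAB S (fun i => (gm a b u i : ℂ))) := by
  have h := Er_eq_integral hinj T
  have e1 : Er (gm a b u) T = E (fun j => a j + u j) (fun j => b j + u j) T := rfl
  rw [e1] at h
  rw [h]
  congr 1
  funext t
  congr 1
  unfold Zc pf
  refine Finset.prod_congr rfl fun j _ => ?_
  simp only [gm, Sum.elim_inl, Sum.elim_inr]
  push_cast
  congr 3 <;> ring

theorem continuous_E_u {k : ℕ} (a b : Fin k → ℝ) (T : ℝ) :
    Continuous fun u : Fin k → ℝ => E (fun j => a j + u j) (fun j => b j + u j) T := by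
  have key : Continuous fun γ : Ix k → ℝ => Er γ T := by
    rw [continuous_iff_continuousAt]
    intro γ₀
    obtain ⟨r, hr⟩ := exists_adm γ₀
    have hopen : IsOpen {γ : Ix k → ℝ | (fun i => (γ i : ℂ)) ∈ polyD (fun i => (γ₀ i : ℂ)) r} := by
      refine (isOpen_polyD (c := fun i => (γ₀ i : ℂ)) (r := r)).preimage ?_
      fun_prop
    have hmem : γ₀ ∈ {γ : Ix k → ℝ | (fun i => (γ i : ℂ)) ∈ polyD (fun i => (γ₀ i : ℂ)) r} := by
      intro i
      exact Metric.mem_ball_self (hr.pos i)
    have hon : ContinuousOn (fun γ : Ix k → ℝ => Er γ T)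
        {γ : Ix k → ℝ | (fun i => (γ i : ℂ)) ∈ polyD (fun i => (γ₀ i : ℂ)) r} := by
      have h1 : ContinuousOn (fun γ : Ix k → ℝ => Fext (fun i => (γ₀ i : ℂ)) r T
          (fun i => (γ i : ℂ)))
          {γ : Ix k → ℝ | (fun i => (γ i : ℂ)) ∈ polyD (fun i => (γ₀ i : ℂ)) r} := by
        rw [continuousOn_iff_continuous_domRestrict]
        have : LocallyCompactSpace
            {γ : Ix k → ℝ | (fun i => (γ i : ℂ)) ∈ polyD (fun i => (γ₀ i : ℂ)) r} :=
          hopen.locallyCompactSpace
        exact continuous_Fext_comp hr (Y :=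
          {γ : Ix k → ℝ | (fun i => (γ i : ℂ)) ∈ polyD (fun i => (γ₀ i : ℂ)) r})
          (g := fun γ => fun i => ((γ : Ix k → ℝ) i : ℂ)) (continuous_pi fun i =>
            Complex.continuous_ofReal.comp ((continuous_apply i).comp continuous_subtype_val))
          (fun y => y.2) T
      exact h1.congr fun γ hγ => Er_eq_Fext hr hγ T
    exact hon.continuousAt (hopen.mem_nhds hmem)
  have h2 : Continuous fun u : Fin k → ℝ => gm a b u := by
    refine continuous_pi fun i => ?_
    rcases i with j | j
    · simp only [gm, Sum.elim_inl]; fun_prop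
    · simp only [gm, Sum.elim_inr]; fun_prop
  have h3 : ∀ u : Fin k → ℝ, E (fun j => a j + u j) (fun j => b j + u j) T =
      Er (gm a b u) T := fun u => rfl
  simp only [h3]
  exact key.comp h2

end Pool.Agent.AAS
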