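import Pool.Agent.AAS.Defs


set_option autoImplicit false

namespace Pool.Agent.AAS

open Complex Finset MeasureTheory Filter Topology Set
open Pool.Agent.H26

private lemma pfl_conj (x : ℝ) :
    ‖riemannZeta (1 / 2 - I * x)‖ = ‖riemannZeta (1 / 2 + I * x)‖ := by
  have h : (1 / 2 - I * x : ℂ) = (starRingEnd ℂ) (1 / 2 + I * x) := by
    apply Complex.ext <;> simp
  rw [h, riemannZeta_conj, Complex.norm_conj]

private lemma pfl_cont (a : ℝ) (t : ℝ) :
    Continuous fun u : ℝ => ‖riemannZeta (1 / 2 + I * (t + u + a))‖ := by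
  refine Continuous.norm ?_
  rw [continuous_iff_continuousAt]
  intro u
  have hw : (1 / 2 + I * (t + u + a) : ℂ) ≠ 1 := by
    intro h
    have := congrArg Complex.re h
    norm_num at this
  exact ContinuousAt.comp (f := fun u : ℝ => (1 / 2 + I * (t + u + a) : ℂ))
    (differentiableAt_riemannZeta hw).continuousAt (by fun_prop)

/-- E6 -/
theorem exists_pf_local {w : ℝ} (hw : LocalBound w) (B ε : ℝ) (hB : 0 ≤ B) (hε : 0 < ε) :
    ∃ C : ℝ, 1 ≤ C ∧ ∀ T H : ℝ, 1 ≤ T → T ^ w ≤ H → H ≤ T → ∀ a b : ℝ, |a| ≤ B →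
    |b| ≤ B → ∀ t : ℝ, |t| ≤ T →
    ∫ u in (-H)..H, ‖pf a b (t + u)‖ ≤ C * T ^ ε * (2 * H) := by
  obtain ⟨C, hC1, hC⟩ := hw B ε hB hε
  refine ⟨C, hC1, ?_⟩
  intro T H hT hTH hHT a b ha hb t ht
  have hT0 : 0 < T := by linarith
  have hH0 : 0 ≤ H := le_trans (Real.rpow_nonneg hT0.le _) hTH
  have hle : -H ≤ H := by linarith
  have h1 := hC T H hT hTH hHT a ha t ht
  have h2 := hC T H hT hTH hHT b hb t ht
  have c1 := pfl_cont a t
  have c2 := pfl_cont b t
  have hpt : ∀ u : ℝ, ‖pf a b (t + u)‖ ≤ (‖riemannZeta (1 / 2 + I * (t + u + a))‖ ^ 2 +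
      ‖riemannZeta (1 / 2 + I * (t + u + b))‖ ^ 2) / 2 := by
    intro u
    have e1 : ‖pf a b (t + u)‖ = ‖riemannZeta (1 / 2 + I * (t + u + a))‖ *
        ‖riemannZeta (1 / 2 + I * (t + u + b))‖ := by
      unfold pf
      rw [norm_mul]
      have e2 : (1 / 2 - I * (((t + u : ℝ) : ℂ) + b) : ℂ) = 1 / 2 - I * ((t + u + b : ℝ) : ℂ) := by
        push_cast
        ring
      rw [e2, pfl_conj]
      push_cast
      rfl
    rw [e1]
    nlinarith [sq_nonneg (‖riemannZeta (1 / 2 + I * (t + u + a))‖ -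
      ‖riemannZeta (1 / 2 + I * (t + u + b))‖)]
  have hpf : Continuous fun u : ℝ => ‖pf a b (t + u)‖ := by
    have e : (fun u : ℝ => ‖pf a b (t + u)‖) = fun u : ℝ =>
        ‖riemannZeta (1 / 2 + I * (t + u + a))‖ * ‖riemannZeta (1 / 2 + I * (t + u + b))‖ := by
      funext u
      unfold pf
      rw [norm_mul]
      have e2 : (1 / 2 - I * (((t + u : ℝ) : ℂ) + b) : ℂ) = 1 / 2 - I * ((t + u + b : ℝ) : ℂ) := by
        push_cast
        ring
      rw [e2, pfl_conj]
      push_cast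
      rfl
    rw [e]
    exact c1.mul c2
  calc ∫ u in (-H)..H, ‖pf a b (t + u)‖
      ≤ ∫ u in (-H)..H, (‖riemannZeta (1 / 2 + I * (t + u + a))‖ ^ 2 +
        ‖riemannZeta (1 / 2 + I * (t + u + b))‖ ^ 2) / 2 := by
        refine intervalIntegral.integral_mono_on hle (hpf.intervalIntegrable _ _) ?_ fun u _ => hpt u
        exact (((c1.pow 2).add (c2.pow 2)).div_const 2).intervalIntegrable _ _
    _ = ((∫ u in (-H)..H, ‖riemannZeta (1 / 2 + I * (t + u + a))‖ ^ 2) +
        ∫ u in (-H)..H, ‖riemannZeta (1 / 2 + I * (t + u + b))‖ ^ 2) / 2 := by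
        have i1 : IntervalIntegrable (fun u : ℝ => ‖riemannZeta (1 / 2 + I * (t + u + a))‖ ^ 2)
          volume (-H) H := (c1.pow 2).intervalIntegrable _ _
        have i2 : IntervalIntegrable (fun u : ℝ => ‖riemannZeta (1 / 2 + I * (t + u + b))‖ ^ 2)
          volume (-H) H := (c2.pow 2).intervalIntegrable _ _
        rw [intervalIntegral.integral_div, intervalIntegral.integral_add i1 i2]
    _ ≤ C * T ^ ε * (2 * H) := by linarith

end Pool.Agent.AAS
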