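import Pool.Agent.AAS.Defs

set_option autoImplicit false

namespace Pool.Agent.AAS

open Complex Finset MeasureTheory Filter Topology Set
open Pool.Agent.H26

namespace ZTRaux

/-- `s - 1` times the term `(n+1)^(-s) - ∫_n^(n+1) x^(-s) dx` -/
noncomputable def hh (n : ℕ) (s : ℂ) : ℂ :=
  (s - 1) * ((n + 1 : ℕ) : ℂ) ^ (-s) + ((n + 1 : ℕ) : ℂ) ^ (1 - s) - (n : ℂ) ^ (1 - s)

lemma cpow_sub_bound {s : ℂ} (hs : 0 < s.re) {a b : ℝ} (ha : 0 < a) (hab : a ≤ b) :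
    ‖(b : ℂ) ^ (-s) - (a : ℂ) ^ (-s)‖ ≤ ‖s‖ / s.re * (a ^ (-s.re) - b ^ (-s.re)) := by
  have hs0 : s ≠ 0 := by intro h; rw [h] at hs; simp at hs
  have h0 : (0 : ℝ) ∉ Set.uIcc a b := by
    rw [Set.uIcc_of_le hab]; intro h; exact absurd h.1 (not_le.2 ha)
  have h1 : ∫ x in a..b, (x : ℂ) ^ (-s - 1) = ((b : ℂ) ^ (-s) - (a : ℂ) ^ (-s)) / (-s) := by
    rw [integral_cpow (Or.inr ⟨by intro h; apply hs0; linear_combination -h, h0⟩)]
    simp
  have h2 : (b : ℂ) ^ (-s) - (a : ℂ) ^ (-s) = (-s) * ∫ x in a..b, (x : ℂ) ^ (-s - 1) := by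
    rw [h1]; field_simp
  have h3 : ∫ x in a..b, x ^ (-s.re - 1) = (b ^ (-s.re) - a ^ (-s.re)) / (-s.re) := by
    rw [integral_rpow (Or.inr ⟨by intro h; linarith, h0⟩)]
    simp
  have h4 : ‖∫ x in a..b, (x : ℂ) ^ (-s - 1)‖ ≤ ∫ x in a..b, x ^ (-s.re - 1) := by
    refine intervalIntegral.norm_integral_le_of_norm_le hab ?_ ?_
    · filter_upwards with x hx
      have hx0 : 0 < x := ha.trans hx.1
      rw [Complex.norm_cpow_eq_rpow_re_of_pos hx0]; simp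
    · exact intervalIntegral.intervalIntegrable_rpow (Or.inr h0)
  rw [h2, norm_mul, norm_neg]
  calc ‖s‖ * ‖∫ x in a..b, (x : ℂ) ^ (-s - 1)‖ ≤ ‖s‖ * ∫ x in a..b, x ^ (-s.re - 1) :=
        mul_le_mul_of_nonneg_left h4 (norm_nonneg _)
    _ = ‖s‖ / s.re * (a ^ (-s.re) - b ^ (-s.re)) := by
        rw [h3]; field_simp; ring

lemma hh_eq {s : ℂ} (hs1 : s ≠ 1) {n : ℕ} (hn : 1 ≤ n) :
    hh n s = (s - 1) * ∫ x in (n : ℝ)..((n + 1 : ℕ) : ℝ),
      ((((n + 1 : ℕ) : ℝ) : ℂ) ^ (-s) - (x : ℂ) ^ (-s)) := by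
  have hnR : (0 : ℝ) < n := by exact_mod_cast hn
  have hle : (n : ℝ) ≤ ((n + 1 : ℕ) : ℝ) := by push_cast; linarith
  have h0 : (0 : ℝ) ∉ Set.uIcc (n : ℝ) ((n + 1 : ℕ) : ℝ) := by
    rw [Set.uIcc_of_le hle]; intro h; exact absurd h.1 (not_le.2 hnR)
  have hs1' : (1 : ℂ) - s ≠ 0 := sub_ne_zero.2 (Ne.symm hs1)
  have hii : IntervalIntegrable (fun x : ℝ => (x : ℂ) ^ (-s)) volume (n : ℝ) ((n + 1 : ℕ) : ℝ) :=
    intervalIntegral.intervalIntegrable_cpow (Or.inr h0)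
  rw [intervalIntegral.integral_sub intervalIntegrable_const hii, intervalIntegral.integral_const,
    integral_cpow (Or.inr ⟨by intro h; apply hs1; linear_combination -h, h0⟩)]
  have e1 : -s + 1 = 1 - s := by ring
  rw [e1]
  simp only [hh]
  push_cast
  simp only [add_sub_cancel_left, one_smul]
  field_simp
  ring

lemma norm_hh_le {s : ℂ} (hs : 0 < s.re) {n : ℕ} (hn : 1 ≤ n) :
    ‖hh n s‖ ≤ ‖s - 1‖ * (‖s‖ / s.re * ((n : ℝ) ^ (-s.re) - ((n + 1 : ℕ) : ℝ) ^ (-s.re))) := by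
  have hnR : (0 : ℝ) < n := by exact_mod_cast hn
  have hle : (n : ℝ) ≤ ((n + 1 : ℕ) : ℝ) := by push_cast; linarith
  by_cases hs1 : s = 1
  · subst hs1
    simp [hh]
  rw [hh_eq hs1 hn, norm_mul]
  refine mul_le_mul_of_nonneg_left ?_ (norm_nonneg _)
  have := intervalIntegral.norm_integral_le_of_norm_le_const (a := (n : ℝ))
    (b := ((n + 1 : ℕ) : ℝ)) (C := ‖s‖ / s.re * ((n : ℝ) ^ (-s.re) - ((n + 1 : ℕ) : ℝ) ^ (-s.re)))
    (f := fun x : ℝ => ((((n + 1 : ℕ) : ℝ) : ℂ) ^ (-s) - (x : ℂ) ^ (-s))) ?_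
  · refine this.trans (le_of_eq ?_)
    push_cast; simp
  · intro x hx
    rw [Set.uIoc_of_le hle] at hx
    have hx0 : 0 < x := hnR.trans hx.1
    refine (cpow_sub_bound hs hx0 hx.2).trans ?_
    refine mul_le_mul_of_nonneg_left ?_ (by positivity)
    have : x ^ (-s.re) ≤ (n : ℝ) ^ (-s.re) :=
      Real.rpow_le_rpow_of_nonpos hnR hx.1.le (by linarith)
    linarith

/-- differences of powers -/
lemma rpow_diff_le {σ : ℝ} (hσ : 0 < σ) {n : ℕ} (hn : 1 ≤ n) :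
    (n : ℝ) ^ (-σ) - ((n + 1 : ℕ) : ℝ) ^ (-σ) ≤ σ * (n : ℝ) ^ (-σ - 1) := by
  have hnR : (0 : ℝ) < n := by exact_mod_cast hn
  have hle : (n : ℝ) ≤ ((n + 1 : ℕ) : ℝ) := by push_cast; linarith
  have h0 : (0 : ℝ) ∉ Set.uIcc (n : ℝ) ((n + 1 : ℕ) : ℝ) := by
    rw [Set.uIcc_of_le hle]; intro h; exact absurd h.1 (not_le.2 hnR)
  have h3 : ∫ x in (n : ℝ)..((n + 1 : ℕ) : ℝ), x ^ (-σ - 1) =
      (((n + 1 : ℕ) : ℝ) ^ (-σ) - (n : ℝ) ^ (-σ)) / (-σ) := by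
    rw [integral_rpow (Or.inr ⟨by intro h; linarith, h0⟩)]
    simp
  have h4 : ∫ x in (n : ℝ)..((n + 1 : ℕ) : ℝ), x ^ (-σ - 1) ≤
      ∫ x in (n : ℝ)..((n + 1 : ℕ) : ℝ), (n : ℝ) ^ (-σ - 1) := by
    refine intervalIntegral.integral_mono_on hle
      (intervalIntegral.intervalIntegrable_rpow (Or.inr h0)) intervalIntegrable_const ?_
    intro x hx
    exact Real.rpow_le_rpow_of_nonpos hnR hx.1 (by linarith)
  rw [h3, intervalIntegral.integral_const] at h4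
  have e : (((n + 1 : ℕ) : ℝ) - n) • (n : ℝ) ^ (-σ - 1) = (n : ℝ) ^ (-σ - 1) := by
    push_cast; simp
  rw [e, div_le_iff_of_neg (by linarith)] at h4
  linarith

lemma norm_hh_le' {s : ℂ} (hs : 0 < s.re) {n : ℕ} (hn : 1 ≤ n) :
    ‖hh n s‖ ≤ ‖s - 1‖ * ‖s‖ * (n : ℝ) ^ (-s.re - 1) := by
  refine (norm_hh_le hs hn).trans ?_
  have := rpow_diff_le hs hn
  calc ‖s - 1‖ * (‖s‖ / s.re * ((n : ℝ) ^ (-s.re) - ((n + 1 : ℕ) : ℝ) ^ (-s.re)))
      ≤ ‖s - 1‖ * (‖s‖ / s.re * (s.re * (n : ℝ) ^ (-s.re - 1))) := by gcongr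
    _ = _ := by field_simp

lemma summable_hh {s : ℂ} (hs : 0 < s.re) {N : ℕ} (hN : 1 ≤ N) :
    Summable (fun n : ℕ => hh (N + n) s) := by
  have h1 : Summable (fun n : ℕ => (n : ℝ) ^ (-s.re - 1)) :=
    Real.summable_nat_rpow.2 (by linarith)
  have h2 : Summable (fun n : ℕ => ‖s - 1‖ * ‖s‖ * ((N + n : ℕ) : ℝ) ^ (-s.re - 1)) := by
    refine Summable.mul_left _ ?_
    have := (summable_nat_add_iff N).2 h1
    refine this.congr fun n => ?_
    rw [add_comm]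
  exact Summable.of_norm_bounded h2 fun n => norm_hh_le' hs (by omega)

lemma sum_hh (s : ℂ) (N M : ℕ) :
    ∑ n ∈ Finset.range M, hh (N + n) s =
      (s - 1) * ∑ n ∈ Finset.range M, ((N + n + 1 : ℕ) : ℂ) ^ (-s) +
        ((N + M : ℕ) : ℂ) ^ (1 - s) - (N : ℂ) ^ (1 - s) := by
  induction M with
  | zero => simp
  | succ M ih =>
    rw [Finset.sum_range_succ, ih, Finset.sum_range_succ]
    simp only [hh]
    rw [show N + (M + 1) = N + M + 1 by ring]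
    ring

lemma norm_tsum_hh_le {s : ℂ} (hs : 0 < s.re) {N : ℕ} (hN : 1 ≤ N) :
    ‖∑' n : ℕ, hh (N + n) s‖ ≤ ‖s - 1‖ * (‖s‖ / s.re * (N : ℝ) ^ (-s.re)) := by
  have ht := (summable_hh hs hN).hasSum.tendsto_sum_nat
  refine le_of_tendsto ht.norm ?_
  filter_upwards with M
  have hind : ∀ M : ℕ, ∑ n ∈ Finset.range M,
      (((N + n : ℕ) : ℝ) ^ (-s.re) - ((N + n + 1 : ℕ) : ℝ) ^ (-s.re)) =
      (N : ℝ) ^ (-s.re) - ((N + M : ℕ) : ℝ) ^ (-s.re) := by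
    intro M
    induction M with
    | zero => simp
    | succ M ih =>
      rw [Finset.sum_range_succ, ih, show N + (M + 1) = N + M + 1 by ring]; ring
  calc ‖∑ n ∈ Finset.range M, hh (N + n) s‖ ≤ ∑ n ∈ Finset.range M, ‖hh (N + n) s‖ :=
        norm_sum_le _ _
    _ ≤ ∑ n ∈ Finset.range M, ‖s - 1‖ * (‖s‖ / s.re *
          (((N + n : ℕ) : ℝ) ^ (-s.re) - ((N + n + 1 : ℕ) : ℝ) ^ (-s.re))) :=
        Finset.sum_le_sum fun n _ => norm_hh_le hs (by omega)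
    _ = ‖s - 1‖ * (‖s‖ / s.re * ((N : ℝ) ^ (-s.re) - ((N + M : ℕ) : ℝ) ^ (-s.re))) := by
        rw [← Finset.mul_sum, ← Finset.mul_sum, hind]
    _ ≤ _ := by
        have : 0 ≤ ((N + M : ℕ) : ℝ) ^ (-s.re) := by positivity
        gcongr
        linarith

lemma identity_of_one_lt {s : ℂ} (hs : 1 < s.re) {N : ℕ} (hN : 1 ≤ N) :
    riemannZeta₁ s = (s - 1) * ∑ n ∈ Finset.Icc 1 N, (n : ℂ) ^ (-s) + (N : ℂ) ^ (1 - s) +
      ∑' n : ℕ, hh (N + n) s := by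
  have hs1 : s ≠ 1 := by intro h; rw [h] at hs; simp at hs
  have hs0 : s ≠ 0 := by intro h; rw [h] at hs; norm_num at hs
  have hζ : riemannZeta₁ s = (s - 1) * riemannZeta s := by
    rw [riemannZeta_eq_inv_sub_mul hs1, ← mul_assoc, mul_inv_cancel₀ (sub_ne_zero.2 hs1), one_mul]
  set f : ℕ → ℂ := fun n => 1 / (n : ℂ) ^ s with hf
  have hfs : Summable f := Complex.summable_one_div_nat_cpow.2 hs
  have hz : riemannZeta s = ∑' n : ℕ, f n := zeta_eq_tsum_one_div_nat_cpow hs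
  have hfe : ∀ n : ℕ, f n = (n : ℂ) ^ (-s) := by
    intro n; rw [Complex.cpow_neg, hf]; simp
  have hsum : ∑ n ∈ Finset.Icc 1 N, (n : ℂ) ^ (-s) = ∑ n ∈ Finset.range (N + 1), f n := by
    rw [Finset.range_eq_Ico, Finset.sum_eq_sum_Ico_succ_bot (by omega)]
    have h0 : f 0 = 0 := by simp [hf, Complex.zero_cpow hs0]
    rw [h0, zero_add]
    have : Finset.Icc 1 N = Finset.Ico (0 + 1) (N + 1) := by
      ext n; simp [Finset.mem_Icc, Finset.mem_Ico]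
    rw [this]
    exact Finset.sum_congr rfl fun n _ => (hfe n).symm
  have hdec : riemannZeta s = ∑ n ∈ Finset.Icc 1 N, (n : ℂ) ^ (-s) +
      ∑' n : ℕ, f (n + (N + 1)) := by
    rw [hz, hsum, hfs.sum_add_tsum_nat_add (N + 1)]
  have ht1 := (summable_hh (zero_lt_one.trans hs) hN).hasSum.tendsto_sum_nat
  have ht2 : Tendsto (fun M : ℕ => ∑ n ∈ Finset.range M, ((N + n + 1 : ℕ) : ℂ) ^ (-s)) atTop
      (𝓝 (∑' n : ℕ, f (n + (N + 1)))) := by
    have := ((summable_nat_add_iff (N + 1)).2 hfs).hasSum.tendsto_sum_nat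
    refine this.congr fun M => Finset.sum_congr rfl fun n _ => ?_
    rw [hfe, show n + (N + 1) = N + n + 1 by ring]
  have ht3 : Tendsto (fun M : ℕ => ((N + M : ℕ) : ℂ) ^ (1 - s)) atTop (𝓝 0) := by
    rw [tendsto_zero_iff_norm_tendsto_zero]
    have h1 : Tendsto (fun M : ℕ => ((N + M : ℕ) : ℝ) ^ (-(s.re - 1))) atTop (𝓝 0) := by
      refine (tendsto_rpow_neg_atTop (by linarith)).comp ?_
      refine tendsto_natCast_atTop_atTop.comp ?_
      exact tendsto_atTop_mono (fun M => Nat.le_add_left M N) tendsto_id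
    refine h1.congr fun M => ?_
    rw [Complex.norm_natCast_cpow_of_pos (by omega)]
    congr 1; simp
  have ht4 := ((ht2.const_mul (s - 1)).add ht3).sub_const ((N : ℂ) ^ (1 - s))
  have hu := tendsto_nhds_unique ht1 (ht4.congr fun M => (sum_hh s N M).symm)
  rw [hu, hζ, hdec]; ring

lemma differentiableOn_tsum_hh {N : ℕ} (hN : 1 ≤ N) :
    DifferentiableOn ℂ (fun s : ℂ => ∑' n : ℕ, hh (N + n) s) {s : ℂ | 0 < s.re} := by
  intro s₀ hs₀
  have hs₀' : 0 < s₀.re := hs₀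
  set U : Set ℂ := {s : ℂ | s₀.re / 2 < s.re} ∩ Metric.ball 0 (‖s₀‖ + 1) with hU
  have hUo : IsOpen U := (isOpen_lt continuous_const Complex.continuous_re).inter Metric.isOpen_ball
  have hmem : s₀ ∈ U := ⟨by simp only [Set.mem_setOf_eq]; linarith, by simp⟩
  have h1 : Summable (fun n : ℕ => (n : ℝ) ^ (-(s₀.re / 2) - 1)) :=
    Real.summable_nat_rpow.2 (by linarith)
  have h2 : Summable (fun n : ℕ => (‖s₀‖ + 2) * (‖s₀‖ + 1) *
      ((N + n : ℕ) : ℝ) ^ (-(s₀.re / 2) - 1)) := by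
    refine Summable.mul_left _ ?_
    have := (summable_nat_add_iff N).2 h1
    refine this.congr fun n => ?_
    rw [add_comm]
  have hd : DifferentiableOn ℂ (fun s : ℂ => ∑' n : ℕ, hh (N + n) s) U := by
    refine differentiableOn_tsum_of_summable_norm h2 ?_ hUo ?_
    · intro n
      have hn1 : ((N + n + 1 : ℕ) : ℂ) ≠ 0 := by exact_mod_cast (by omega : N + n + 1 ≠ 0)
      have hn0 : ((N + n : ℕ) : ℂ) ≠ 0 := by exact_mod_cast (by omega : N + n ≠ 0)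
      have hd1 : Differentiable ℂ (fun s : ℂ => hh (N + n) s) := by
        unfold hh
        refine ((Differentiable.mul (by fun_prop) ?_).add ?_).sub ?_
        · exact Differentiable.const_cpow (by fun_prop) (Or.inl hn1)
        · exact Differentiable.const_cpow (by fun_prop) (Or.inl hn1)
        · exact Differentiable.const_cpow (by fun_prop) (Or.inl hn0)
      exact hd1.differentiableOn
    · intro n s hs
      have hsre : s₀.re / 2 < s.re := hs.1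
      have hsn : ‖s‖ < ‖s₀‖ + 1 := by simpa using hs.2
      have hpos : 0 < s.re := by linarith
      have hNn : (1 : ℝ) ≤ ((N + n : ℕ) : ℝ) := by
        exact_mod_cast (by omega : 1 ≤ N + n)
      refine (norm_hh_le' hpos (by omega)).trans ?_
      have e1 : ‖s - 1‖ ≤ ‖s₀‖ + 2 := by
        have := norm_sub_le s 1
        rw [norm_one] at this
        linarith
      have e2 : ((N + n : ℕ) : ℝ) ^ (-s.re - 1) ≤ ((N + n : ℕ) : ℝ) ^ (-(s₀.re / 2) - 1) :=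
        Real.rpow_le_rpow_of_exponent_le hNn (by linarith)
      have e3 : (0 : ℝ) ≤ ((N + n : ℕ) : ℝ) ^ (-s.re - 1) := by positivity
      gcongr
  exact ((hd.differentiableAt (hUo.mem_nhds hmem))).differentiableWithinAt

lemma identity {s : ℂ} (hs : 0 < s.re) {N : ℕ} (hN : 1 ≤ N) :
    riemannZeta₁ s = (s - 1) * ∑ n ∈ Finset.Icc 1 N, (n : ℂ) ^ (-s) + (N : ℂ) ^ (1 - s) +
      ∑' n : ℕ, hh (N + n) s := by
  set U : Set ℂ := {s : ℂ | 0 < s.re} with hU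
  have hUo : IsOpen U := isOpen_lt continuous_const Complex.continuous_re
  have hUc : IsPreconnected U := (convex_halfSpace_re_gt 0).isPreconnected
  have hN0 : (N : ℂ) ≠ 0 := by exact_mod_cast (by omega : N ≠ 0)
  have hf : AnalyticOnNhd ℂ riemannZeta₁ U :=
    (differentiable_riemannZeta₁.differentiableOn).analyticOnNhd hUo
  have hg : AnalyticOnNhd ℂ (fun s : ℂ => (s - 1) * ∑ n ∈ Finset.Icc 1 N, (n : ℂ) ^ (-s) +
      (N : ℂ) ^ (1 - s) + ∑' n : ℕ, hh (N + n) s) U := by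
    refine DifferentiableOn.analyticOnNhd ?_ hUo
    refine DifferentiableOn.add ?_ (differentiableOn_tsum_hh hN)
    refine Differentiable.differentiableOn ?_
    refine ((Differentiable.mul (by fun_prop) ?_).add ?_)
    · refine Differentiable.fun_sum fun n hn => ?_
      have hn0 : (n : ℂ) ≠ 0 := by
        have := (Finset.mem_Icc.1 hn).1
        exact_mod_cast (by omega : n ≠ 0)
      exact Differentiable.const_cpow (by fun_prop) (Or.inl hn0)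
    · exact Differentiable.const_cpow (by fun_prop) (Or.inl hN0)
  have h2 : (2 : ℂ) ∈ U := by simp [hU]
  have hev : riemannZeta₁ =ᶠ[𝓝 (2 : ℂ)] (fun s : ℂ => (s - 1) * ∑ n ∈ Finset.Icc 1 N,
      (n : ℂ) ^ (-s) + (N : ℂ) ^ (1 - s) + ∑' n : ℕ, hh (N + n) s) := by
    have ho : IsOpen {s : ℂ | 1 < s.re} := isOpen_lt continuous_const Complex.continuous_re
    filter_upwards [ho.mem_nhds (show (2 : ℂ) ∈ {s : ℂ | 1 < s.re} by simp)] with s hs
    exact identity_of_one_lt hs hN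
  exact hf.eqOn_of_preconnected_of_eventuallyEq hg hUc h2 hev hs

end ZTRaux

/-- the truncated series of zeta: `ζ(s) = ∑_{n ≤ N} n^(-s) + N^(1-s)/(s-1) - s ∫_N^∞ {x} x^(-s-1) dx` -/
theorem norm_zeta_sub_le {s : ℂ} (hs : 0 < s.re) (hs1 : s ≠ 1) {N : ℕ} (hN : 1 ≤ N) :
    ‖riemannZeta s - ∑ n ∈ Finset.Icc 1 N, (n : ℂ) ^ (-s) - (N : ℂ) ^ (1 - s) / (s - 1)‖ ≤
      ‖s‖ / s.re * (N : ℝ) ^ (-s.re) := by
  have hs1' : s - 1 ≠ 0 := sub_ne_zero.2 hs1
  have h := ZTRaux.identity hs hN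
  have e : riemannZeta s - ∑ n ∈ Finset.Icc 1 N, (n : ℂ) ^ (-s) - (N : ℂ) ^ (1 - s) / (s - 1) =
      (∑' n : ℕ, ZTRaux.hh (N + n) s) / (s - 1) := by
    rw [riemannZeta_eq_inv_sub_mul hs1, h]
    field_simp
    ring
  rw [e, norm_div, div_le_iff₀ (norm_pos_iff.2 hs1')]
  refine (ZTRaux.norm_tsum_hh_le hs hN).trans (le_of_eq ?_)
  ring

/-- on the line `1` zeta grows at most like the logarithm -/
theorem norm_zeta_one_add_le {v : ℝ} (hv : v ≠ 0) :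
    ‖riemannZeta (1 + I * v)‖ ≤ 5 + 1 / |v| + Real.log (1 + |v|) := by
  set s : ℂ := 1 + I * v with hsdef
  have hre : s.re = 1 := by simp [hsdef]
  have hs1 : s ≠ 1 := by
    intro h
    have : (I * v : ℂ) = 0 := by linear_combination h
    simp [hv] at this
  have hsub : s - 1 = I * v := by simp [hsdef]
  have hvpos : 0 < |v| := abs_pos.2 hv
  have hns1 : ‖s - 1‖ = |v| := by rw [hsub]; simp
  have hns : ‖s‖ ≤ 1 + |v| := by
    calc ‖s‖ ≤ ‖(1 : ℂ)‖ + ‖I * v‖ := norm_add_le _ _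
      _ = 1 + |v| := by simp
  set N : ℕ := ⌊|v|⌋₊ + 1 with hN
  have hN1 : 1 ≤ N := by omega
  have hNR : (1 : ℝ) ≤ N := by exact_mod_cast hN1
  have hNgt : |v| < N := by rw [hN]; push_cast; exact Nat.lt_floor_add_one _
  have hNle : (N : ℝ) ≤ 1 + |v| := by
    rw [hN]; push_cast
    have := Nat.floor_le hvpos.le
    linarith
  have h := norm_zeta_sub_le (s := s) (by rw [hre]; norm_num) hs1 hN1
  rw [hre] at h
  have hsum : ‖∑ n ∈ Finset.Icc 1 N, (n : ℂ) ^ (-s)‖ ≤ 1 + Real.log N := by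
    calc ‖∑ n ∈ Finset.Icc 1 N, (n : ℂ) ^ (-s)‖ ≤ ∑ n ∈ Finset.Icc 1 N, ‖(n : ℂ) ^ (-s)‖ :=
          norm_sum_le _ _
      _ = ∑ n ∈ Finset.Icc 1 N, ((n : ℝ))⁻¹ := by
          refine Finset.sum_congr rfl fun n hn => ?_
          have := (Finset.mem_Icc.1 hn).1
          rw [Complex.norm_natCast_cpow_of_pos (by omega)]
          simp only [Complex.neg_re, hre, Real.rpow_neg_one]
      _ = ((harmonic N : ℚ) : ℝ) := by
          rw [harmonic_eq_sum_Icc]; push_cast; rfl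
      _ ≤ 1 + Real.log N := harmonic_le_one_add_log N
  have hlog : Real.log N ≤ Real.log (1 + |v|) := Real.log_le_log (by linarith) hNle
  have h2 : ‖(N : ℂ) ^ (1 - s) / (s - 1)‖ = 1 / |v| := by
    rw [norm_div, hns1, Complex.norm_natCast_cpow_of_pos (by omega)]
    simp [hre]
  have h3 : ‖s‖ / 1 * (N : ℝ) ^ (-(1 : ℝ)) ≤ 2 := by
    rw [div_one, Real.rpow_neg_one, ← div_eq_mul_inv, div_le_iff₀ (by linarith)]
    linarith
  calc ‖riemannZeta s‖ = ‖(riemannZeta s - ∑ n ∈ Finset.Icc 1 N, (n : ℂ) ^ (-s) -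
        (N : ℂ) ^ (1 - s) / (s - 1)) + ∑ n ∈ Finset.Icc 1 N, (n : ℂ) ^ (-s) +
        (N : ℂ) ^ (1 - s) / (s - 1)‖ := by congr 1; ring
    _ ≤ ‖riemannZeta s - ∑ n ∈ Finset.Icc 1 N, (n : ℂ) ^ (-s) -
        (N : ℂ) ^ (1 - s) / (s - 1)‖ + ‖∑ n ∈ Finset.Icc 1 N, (n : ℂ) ^ (-s)‖ +
        ‖(N : ℂ) ^ (1 - s) / (s - 1)‖ := norm_add₃_le
    _ ≤ 2 + (1 + Real.log N) + 1 / |v| := by
        refine add_le_add (add_le_add (h.trans h3) hsum) (le_of_eq h2)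
    _ ≤ 5 + 1 / |v| + Real.log (1 + |v|) := by linarith

end Pool.Agent.AAS
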