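import Pool.Agent.AAS.Defs
import Pool.Agent.AAS.ZTR
import Pool.Agent.H26.QBound


set_option autoImplicit false

namespace Pool.Agent.AAS

open Complex Finset MeasureTheory Filter Topology Set
open Pool.Agent.H26

/-- U_2 -/
theorem exists_zetaAB_le (k : ℕ) (B ε : ℝ) (hB : 0 ≤ B) (hε : 0 < ε) : ∃ C : ℝ, 1 ≤ C ∧
    ∀ T : ℝ, 1 ≤ T → ∀ a b u : Fin k → ℝ, (∀ j, |a j| ≤ B) → (∀ j, |b j| ≤ B) →
    (∀ j, T ^ (-ε) ≤ |a j - b j|) → u ∈ box k T → u ∈ U1 k (2 * B + 1) →
    ∀ S : Finset (Ix k), ‖zetaAB S (fun i => (gm a b u i : ℂ))‖ ≤ C * T ^ (4 * k ^ 2 * ε) := by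
  -- the bound for one factor
  set D : ℝ := 6 + (3 + 2 * B) ^ ε / ε with hD
  have hD6 : 6 ≤ D := by
    have : 0 ≤ (3 + 2 * B) ^ ε / ε := by positivity
    linarith
  have hD1 : 1 ≤ D := by linarith
  have hBF : 0 ≤ BF (2 * k) := (Real.exp_pos _).le
  refine ⟨(BF (2 * k) + 1) * D ^ (2 * k * (2 * k)), ?_, ?_⟩
  · have := one_le_pow₀ hD1 (n := 2 * k * (2 * k))
    nlinarith
  intro T hT a b u ha hb hab hu hu1 S
  have hT0 : 0 < T := by linarith
  have hTε : 1 ≤ T ^ ε := Real.one_le_rpow hT hε.le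
  set γ : Ix k → ℝ := gm a b u with hγ
  have habs : ∀ j, |u j| ≤ T := fun j => abs_le.2 (hu j (Set.mem_univ _))
  -- one factor
  have key : ∀ i l : Ix k, i ≠ l → ‖riemannZeta (1 + I * ((γ i : ℂ) - (γ l : ℂ)))‖ ≤
      D * T ^ ε := by
    intro i l hil
    have hbig : |γ i - γ l| ≤ 2 * B + 2 * T := by
      have h1 : ∀ i, |γ i| ≤ B + T := by
        rintro (j | j)
        · simp only [hγ, gm, Sum.elim_inl]
          exact (abs_add_le _ _).trans (add_le_add (ha j) (habs j))
        · simp only [hγ, gm, Sum.elim_inr]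
          exact (abs_add_le _ _).trans (add_le_add (hb j) (habs j))
      have := (abs_sub (γ i) (γ l)).trans (add_le_add (h1 i) (h1 l))
      linarith
    have hsmall : T ^ (-ε) ≤ |γ i - γ l| := by
      have hTle : T ^ (-ε) ≤ 1 := Real.rpow_le_one_of_one_le_of_nonpos hT (by linarith)
      have hsep : ∀ (x y : ℝ) (j l : Fin k), j ≠ l → |x| ≤ B → |y| ≤ B →
          1 ≤ |(x + u j) - (y + u l)| := by
        intro x y j l hjl hx hy
        have h1 := hu1 j l hjl
        have h2 : |u j - u l| ≤ |(x + u j) - (y + u l)| + (|x| + |y|) := by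
          calc |u j - u l| = |((x + u j) - (y + u l)) - (x - y)| := by ring_nf
            _ ≤ |(x + u j) - (y + u l)| + |x - y| := abs_sub _ _
            _ ≤ _ := by gcongr; exact abs_sub _ _
        linarith
      rcases i with j | j <;> rcases l with l | l
      · simp only [hγ, gm, Sum.elim_inl]
        have hjl : j ≠ l := fun h => hil (by rw [h])
        exact hTle.trans (hsep _ _ j l hjl (ha j) (ha l))
      · simp only [hγ, gm, Sum.elim_inl, Sum.elim_inr]
        by_cases hjl : j = l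
        · subst hjl
          have e : a j + u j - (b j + u j) = a j - b j := by ring
          rw [e]
          exact hab j
        · exact hTle.trans (hsep _ _ j l hjl (ha j) (hb l))
      · simp only [hγ, gm, Sum.elim_inl, Sum.elim_inr]
        by_cases hjl : j = l
        · subst hjl
          have e : |b j + u j - (a j + u j)| = |a j - b j| := by
            rw [← abs_neg]; congr 1; ring
          rw [e]
          exact hab j
        · exact hTle.trans (hsep _ _ j l hjl (hb j) (ha l))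
      · simp only [hγ, gm, Sum.elim_inr]
        have hjl : j ≠ l := fun h => hil (by rw [h])
        exact hTle.trans (hsep _ _ j l hjl (hb j) (hb l))
    have hTεpos : 0 < T ^ (-ε) := Real.rpow_pos_of_pos hT0 _
    have hne : γ i - γ l ≠ 0 := by
      intro h
      rw [h, abs_zero] at hsmall
      linarith
    have h1 := norm_zeta_one_add_le hne
    have e1 : (1 + I * ((γ i : ℂ) - (γ l : ℂ))) = 1 + I * ((γ i - γ l : ℝ) : ℂ) := by push_cast; ring
    rw [e1]
    refine h1.trans ?_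
    have h2 : 1 / |γ i - γ l| ≤ T ^ ε := by
      rw [div_le_iff₀ (by positivity)]
      have h3 : T ^ ε * T ^ (-ε) = 1 := by
        rw [← Real.rpow_add hT0, add_neg_cancel, Real.rpow_zero]
      calc (1:ℝ) = T ^ ε * T ^ (-ε) := h3.symm
        _ ≤ _ := by gcongr
    have h3 : Real.log (1 + |γ i - γ l|) ≤ (3 + 2 * B) ^ ε / ε * T ^ ε := by
      have h4 : (1 + |γ i - γ l|) ≤ (3 + 2 * B) * T := by nlinarith
      have h5 := Real.log_le_rpow_div (x := (3 + 2 * B) * T) (by positivity) hε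
      have h6 : Real.log (1 + |γ i - γ l|) ≤ Real.log ((3 + 2 * B) * T) :=
        Real.log_le_log (by positivity) h4
      refine (h6.trans h5).trans (le_of_eq ?_)
      rw [Real.mul_rpow (by positivity) hT0.le]
      ring
    rw [hD, add_mul]
    nlinarith
  have hγt : (fun i => (γ i : ℂ)) ∈ tube (Ix k) := by
    intro i
    simp
  have hcard : Fintype.card (Ix k) = 2 * k := by
    rw [Fintype.card_sum, Fintype.card_fin]; ring
  have h1 := norm_eulerF_le (S := S) hγt
  rw [hcard] at h1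
  have hDT : 1 ≤ D * T ^ ε := by nlinarith
  unfold zetaAB
  rw [norm_mul]
  have h2 : ‖∏ j ∈ S, ∏ l ∈ Sᶜ, riemannZeta (1 + I * ((γ j : ℂ) - (γ l : ℂ)))‖ ≤
      (D * T ^ ε) ^ (2 * k * (2 * k)) := by
    rw [norm_prod]
    calc ∏ j ∈ S, ‖∏ l ∈ Sᶜ, riemannZeta (1 + I * ((γ j : ℂ) - (γ l : ℂ)))‖
        ≤ ∏ _j ∈ S, (D * T ^ ε) ^ (2 * k) := by
          refine Finset.prod_le_prod (fun _ _ => norm_nonneg _) fun j hj => ?_
          rw [norm_prod]
          calc ∏ l ∈ Sᶜ, ‖riemannZeta (1 + I * ((γ j : ℂ) - (γ l : ℂ)))‖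
              ≤ ∏ _l ∈ Sᶜ, (D * T ^ ε) := by
                refine Finset.prod_le_prod (fun _ _ => norm_nonneg _) fun l hl => ?_
                refine key j l ?_
                rintro rfl
                exact (Finset.mem_compl.1 hl) hj
            _ = (D * T ^ ε) ^ (Sᶜ.card) := by rw [Finset.prod_const]
            _ ≤ _ := by
                refine pow_le_pow_right₀ hDT ?_
                rw [← hcard]
                exact Finset.card_le_univ _
      _ = ((D * T ^ ε) ^ (2 * k)) ^ S.card := by rw [Finset.prod_const]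
      _ ≤ ((D * T ^ ε) ^ (2 * k)) ^ (2 * k) := by
          refine pow_le_pow_right₀ (one_le_pow₀ hDT) ?_
          rw [← hcard]
          exact Finset.card_le_univ _
      _ = _ := by rw [← pow_mul]
  calc ‖eulerF S (fun i => (γ i : ℂ))‖ *
        ‖∏ j ∈ S, ∏ l ∈ Sᶜ, riemannZeta (1 + I * ((γ j : ℂ) - (γ l : ℂ)))‖
      ≤ (BF (2 * k) + 1) * (D * T ^ ε) ^ (2 * k * (2 * k)) :=
        mul_le_mul h1 h2 (norm_nonneg _) (by linarith)
    _ = (BF (2 * k) + 1) * D ^ (2 * k * (2 * k)) * T ^ (4 * k ^ 2 * ε) := by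
        rw [mul_pow, ← Real.rpow_mul_natCast hT0.le]
        have e : ε * ((2 * k * (2 * k) : ℕ) : ℝ) = 4 * k ^ 2 * ε := by push_cast; ring
        rw [e]
        ring

theorem ZLE_norm_chi_aux (x : ℝ) : ‖chi (1 / 2 + I * x)‖ = 1 := by
  unfold chi
  have hG2 : Gamma ((1 / 2 + I * x) / 2) ≠ 0 := Gamma_ne_zero_of_re_pos (by simp)
  have hG2' : 0 < ‖Gamma ((1 / 2 + I * x) / 2)‖ := norm_pos_iff.2 hG2
  have e1 : ‖Gamma ((1 - (1 / 2 + I * x)) / 2)‖ = ‖Gamma ((1 / 2 + I * x) / 2)‖ := by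
    have h := norm_Gamma_symm (1 / 4) (x / 2)
    have e2 : (1 - (1 / 2 + I * x)) / 2 = ((1 / 4 : ℝ) : ℂ) - ((x / 2 : ℝ) : ℂ) * I := by
      push_cast; ring
    have e3 : (1 / 2 + I * (x : ℂ)) / 2 = ((1 / 4 : ℝ) : ℂ) + ((x / 2 : ℝ) : ℂ) * I := by
      push_cast; ring
    rw [e2, e3]
    exact h
  rw [norm_div, norm_mul, norm_pi_cpow, e1, div_eq_one_iff_eq hG2'.ne']
  have hre : (1 / 2 + I * (x : ℂ) - 1 / 2).re = 0 := by simp
  rw [hre, Real.rpow_zero, one_mul]

theorem ZLE_norm_chi (x : ℝ) : ‖chi (1 / 2 + I * x)‖ = 1 ∧ ‖chi (1 / 2 - I * x)‖ = 1 := by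
  refine ⟨ZLE_norm_chi_aux x, ?_⟩
  have h := ZLE_norm_chi_aux (-x)
  push_cast at h
  rw [mul_neg, ← sub_eq_add_neg] at h
  exact h

theorem norm_G_real {k : ℕ} (S : Finset (Ix k)) (γ : Ix k → ℝ) (t : ℝ) :
    ‖G S (fun i => (γ i : ℂ)) t‖ = 1 := by
  unfold G
  rw [norm_mul, norm_prod, norm_prod]
  rw [Finset.prod_eq_one, Finset.prod_eq_one, one_mul]
  · intro l _
    by_cases h : Sum.inl l ∈ S
    · rw [if_pos h, norm_one]
    · rw [if_neg h]
      have := (ZLE_norm_chi (t + γ (Sum.inl l))).1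
      push_cast at this
      exact this
  · intro l _
    by_cases h : Sum.inr l ∈ S
    · rw [if_pos h]
      have := (ZLE_norm_chi (t + γ (Sum.inr l))).2
      push_cast at this
      exact this
    · rw [if_neg h, norm_one]

end Pool.Agent.AAS
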