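import Pool.Agent.AAS.SHR
import Pool.Agent.AAS.EEQ
import Pool.Agent.AAS.ZLE
import Pool.Agent.AAS.PFL
import Pool.Agent.H26.Transl

set_option autoImplicit false

namespace Pool.Agent.AAS

open Complex Finset MeasureTheory Filter Topology Set
open Pool.Agent.H26

theorem fx1_continuous_pf (a b : ℝ) : Continuous (pf a b) := by
  have h : ∀ (c : ℝ) (s : ℂ), s.re = 0 →
      Continuous fun x : ℝ => riemannZeta (1 / 2 + s * (x + c)) := by
    intro c s hs
    refine continuous_iff_continuousAt.2 fun x => ?_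
    have h1 : (1 / 2 + s * ((x : ℂ) + c)) ≠ 1 := by
      intro h
      have := congrArg Complex.re h
      simp [hs] at this
    exact (differentiableAt_riemannZeta h1).continuousAt.comp
      (f := fun x : ℝ => 1 / 2 + s * ((x : ℂ) + c)) (by fun_prop)
  have h1 := h a I (by simp)
  have h2 := h b (-I) (by simp)
  have h3 : Continuous fun x : ℝ => riemannZeta (1 / 2 - I * (x + b)) := by
    refine h2.congr fun x => ?_
    congr 1
    ring
  exact h1.mul h3

/-- moving along the diagonal (`H26.Er_add`): for distinct shifts the error changes by the integral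
of `Z - Q` over two intervals of length at most `H` -/
theorem norm_E_le_shift {k : ℕ} {a b u : Fin k → ℝ} (hinj : Function.Injective (gm a b u))
    {s H T : ℝ} (hs : 0 ≤ s) (hsH : s ≤ H) (hT : 0 ≤ T) :
    ‖E (fun j => a j + u j) (fun j => b j + u j) T‖ ≤
      ‖E (fun j => a j + (u j + s)) (fun j => b j + (u j + s)) T‖ +
      (∫ t in (0:ℝ)..H, ∏ j, ‖pf (a j) (b j) (t + u j)‖) +
      (∫ t in T..(T + H), ∏ j, ‖pf (a j) (b j) (t + u j)‖) +
      2 * H * ∑ S ∈ (univ : Finset (Ix k)).powersetCard k,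
        ‖zetaAB S (fun i => (gm a b u i : ℂ))‖ := by
  set M : ℝ := ∑ S ∈ (univ : Finset (Ix k)).powersetCard k,
    ‖zetaAB S (fun i => (gm a b u i : ℂ))‖ with hM
  set D : ℝ → ℂ := fun t => Zc (fun i => (gm a b u i : ℂ)) t - Qsum (fun i => (gm a b u i : ℂ)) t
    with hD
  have hDc : Continuous D := continuous_ZQ hinj
  have hPc : Continuous fun t : ℝ => ∏ j, ‖pf (a j) (b j) (t + u j)‖ := by
    refine continuous_finsetProd _ fun j _ => ?_
    exact ((fx1_continuous_pf (a j) (b j)).comp (by fun_prop)).norm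
  have hDle : ∀ t : ℝ, ‖D t‖ ≤ (∏ j, ‖pf (a j) (b j) (t + u j)‖) + M := by
    intro t
    refine (norm_sub_le _ _).trans (add_le_add (le_of_eq ?_) ?_)
    · unfold Zc pf
      rw [norm_prod]
      refine Finset.prod_congr rfl fun j _ => ?_
      congr 1
      simp only [gm, Sum.elim_inl, Sum.elim_inr]
      push_cast
      congr 3 <;> ring
    · unfold Qsum
      refine (norm_sum_le _ _).trans (le_of_eq ?_)
      rw [hM]
      refine Finset.sum_congr rfl fun S _ => ?_
      rw [norm_mul, norm_G_real, one_mul]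
  have hE : ∀ T : ℝ, Er (gm a b u) T = ∫ t in (0:ℝ)..T, D t := fun T => Er_eq_integral hinj T
  have e0 : E (fun j => a j + u j) (fun j => b j + u j) T = Er (gm a b u) T := rfl
  have hshift : E (fun j => a j + (u j + s)) (fun j => b j + (u j + s)) T =
      Er (gm a b u) (T + s) - Er (gm a b u) s := by
    rw [← Er_add hinj s T]
    unfold Er
    congr 1
    · funext j; simp only [gm, Sum.elim_inl]; ring
    · funext j; simp only [gm, Sum.elim_inr]; ring
  have hi : ∀ x y : ℝ, IntervalIntegrable D volume x y := fun x y => hDc.intervalIntegrable _ _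
  have e1 : Er (gm a b u) T = (Er (gm a b u) (T + s) - Er (gm a b u) s) +
      (∫ t in (0:ℝ)..(0 + s), D t) - ∫ t in T..(T + s), D t := by
    rw [hE, hE, hE, zero_add]
    have := intervalIntegral.integral_add_adjacent_intervals (hi 0 T) (hi T (T + s))
    rw [← this]
    ring
  have hb : ∀ A : ℝ, ‖∫ t in A..(A + s), D t‖ ≤
      (∫ t in A..(A + H), ∏ j, ‖pf (a j) (b j) (t + u j)‖) + H * M := by
    intro A
    have h1 : ‖∫ t in A..(A + s), D t‖ ≤ ∫ t in A..(A + s), ‖D t‖ :=
      intervalIntegral.norm_integral_le_integral_norm (by linarith)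
    have h2 : ∫ t in A..(A + s), ‖D t‖ ≤ ∫ t in A..(A + H), ‖D t‖ := by
      refine intervalIntegral.integral_mono_interval le_rfl (by linarith) (by linarith) ?_
        (hDc.norm.intervalIntegrable _ _)
      exact Filter.Eventually.of_forall fun t => norm_nonneg _
    have h3 : ∫ t in A..(A + H), ‖D t‖ ≤
        ∫ t in A..(A + H), ((∏ j, ‖pf (a j) (b j) (t + u j)‖) + M) := by
      refine intervalIntegral.integral_mono_on (by linarith) (hDc.norm.intervalIntegrable _ _)
        ((hPc.add continuous_const).intervalIntegrable _ _) fun t _ => hDle t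
    rw [intervalIntegral.integral_add (hPc.intervalIntegrable _ _)
      (continuous_const.intervalIntegrable _ _), intervalIntegral.integral_const,
      add_sub_cancel_left, smul_eq_mul] at h3
    exact (h1.trans h2).trans h3
  have hb0 := hb 0
  have hbT := hb T
  rw [zero_add H] at hb0
  rw [e0, hshift]
  calc ‖Er (gm a b u) T‖ = ‖(Er (gm a b u) (T + s) - Er (gm a b u) s) +
        (∫ t in (0:ℝ)..(0 + s), D t) - ∫ t in T..(T + s), D t‖ := by rw [← e1]
    _ ≤ ‖Er (gm a b u) (T + s) - Er (gm a b u) s‖ + ‖∫ t in (0:ℝ)..(0 + s), D t‖ +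
        ‖∫ t in T..(T + s), D t‖ := (norm_sub_le _ _).trans (by gcongr; exact norm_add_le _ _)
    _ ≤ _ := by linarith

/-- the mean over the translations of the product of the pairs over a short interval; the first
pair is fixed -/
theorem exists_short_mean {w : ℝ} (hw : LocalBound w) (k : ℕ) (B ε : ℝ) (hB : 0 ≤ B)
    (hε : 0 < ε) : ∃ C : ℝ, 1 ≤ C ∧ ∀ T A H : ℝ, 1 ≤ T → 0 ≤ A → A + H ≤ T → T ^ w ≤ H →
    ∀ a b : Fin (k + 1) → ℝ, (∀ j, |a j| ≤ B) → (∀ j, |b j| ≤ B) →
    ∫ v in box k H, ∫ t in A..(A + H), ∏ j, ‖pf (a j) (b j) (t + fx v j)‖ ≤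
      (2 * H) ^ k * (C * T ^ ε * H) := by
  have hk : (0:ℝ) < (k:ℝ) + 1 := by positivity
  obtain ⟨C1, hC1, hloc⟩ := exists_pf_local hw B (ε / (k + 1)) hB (div_pos hε hk)
  refine ⟨2 * C1 ^ (k + 1), ?_, ?_⟩
  · have := one_le_pow₀ hC1 (n := k + 1)
    linarith
  intro T A H hT hA hAH hwH a b ha hb
  have hT0 : 0 < T := by linarith
  have hH : 0 < H := lt_of_lt_of_le (Real.rpow_pos_of_pos hT0 w) hwH
  have hHT : H ≤ T := by linarith
  set L : ℝ := C1 * T ^ (ε / (k + 1)) * (2 * H) with hL
  have hL0 : 0 ≤ L := by positivity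
  have h1 : ∀ (j : Fin (k + 1)) (t : ℝ), |t| ≤ T →
      ∫ u in (-H)..H, ‖pf (a j) (b j) (t + u)‖ ≤ L :=
    fun j t ht => hloc T H hT hwH hHT (a j) (b j) (ha j) (hb j) t ht
  set F : ℝ → (Fin k → ℝ) → ℝ := fun t v => ∏ j, ‖pf (a j) (b j) (t + fx v j)‖ with hF
  have hfxc : ∀ j : Fin (k + 1), Continuous fun v : Fin k → ℝ => fx v j := by
    intro j
    refine Fin.cases ?_ (fun i => ?_) j
    · simp only [fx, Fin.cons_zero]; exact continuous_const
    · simp only [fx, Fin.cons_succ]; exact continuous_apply i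
  have hFc : Continuous (Function.uncurry F) := by
    show Continuous fun p : ℝ × (Fin k → ℝ) => ∏ j, ‖pf (a j) (b j) (p.1 + fx p.2 j)‖
    refine continuous_finsetProd _ fun j _ => ?_
    exact ((fx1_continuous_pf (a j) (b j)).comp
      (continuous_fst.add ((hfxc j).comp continuous_snd))).norm
  have hbc : IsCompact (box k H) := isCompact_univ_pi fun _ => isCompact_Icc
  have hFint : Integrable (Function.uncurry F)
      ((volume.restrict (Set.uIoc A (A + H))).prod (volume.restrict (box k H))) := by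
    rw [Measure.prod_restrict]
    have h2 : IntegrableOn (Function.uncurry F) (Set.uIcc A (A + H) ×ˢ box k H)
        ((volume : Measure ℝ).prod (volume : Measure (Fin k → ℝ))) :=
      hFc.continuousOn.integrableOn_compact (isCompact_uIcc.prod hbc)
    exact h2.mono_set (Set.prod_mono Set.uIoc_subset_uIcc le_rfl)
  have hswap := intervalIntegral_integral_swap hFint
  have hin : ∀ t : ℝ, ∫ v in box k H, F t v = ‖pf (a 0) (b 0) t‖ *
      ∏ i : Fin k, ∫ u in (-H)..H, ‖pf (a i.succ) (b i.succ) (t + u)‖ := by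
    intro t
    have e : ∀ v : Fin k → ℝ, F t v = ‖pf (a 0) (b 0) t‖ *
        ∏ i : Fin k, ‖pf (a i.succ) (b i.succ) (t + v i)‖ := by
      intro v
      simp only [hF, Fin.prod_univ_succ, fx, Fin.cons_zero, Fin.cons_succ, add_zero]
    simp only [e]
    rw [integral_const_mul]
    congr 1
    rw [box, volume_pi, Measure.restrict_pi_pi]
    rw [integral_fintype_prod_eq_prod (fun (i : Fin k) x => ‖pf (a i.succ) (b i.succ) (t + x)‖)]
    refine Finset.prod_congr rfl fun i _ => ?_
    rw [intervalIntegral.integral_of_le (by linarith), integral_Icc_eq_integral_Ioc]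
  have hnn : ∀ (j : Fin (k + 1)) (t : ℝ), 0 ≤ ∫ u in (-H)..H, ‖pf (a j) (b j) (t + u)‖ :=
    fun j t => intervalIntegral.integral_nonneg (by linarith) fun _ _ => norm_nonneg _
  have hbd : ∀ t ∈ Set.Icc A (A + H), ∫ v in box k H, F t v ≤ ‖pf (a 0) (b 0) t‖ * L ^ k := by
    intro t ht
    rw [hin]
    refine mul_le_mul_of_nonneg_left ?_ (norm_nonneg _)
    have h3 : |t| ≤ T := abs_le.2 ⟨by linarith [ht.1], by linarith [ht.2]⟩
    calc ∏ i : Fin k, ∫ u in (-H)..H, ‖pf (a i.succ) (b i.succ) (t + u)‖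
        ≤ ∏ _i : Fin k, L := Finset.prod_le_prod (fun i _ => hnn _ _) fun i _ => h1 _ t h3
      _ = L ^ k := by simp
  have hcF : Continuous fun t : ℝ => ∫ v in box k H, F t v :=
    continuous_parametric_integral_of_continuous hFc hbc
  have hp0 : Continuous fun t : ℝ => ‖pf (a 0) (b 0) t‖ := (fx1_continuous_pf _ _).norm
  have h4 : ∫ t in A..(A + H), ∫ v in box k H, F t v ≤
      ∫ t in A..(A + H), ‖pf (a 0) (b 0) t‖ * L ^ k :=
    intervalIntegral.integral_mono_on (by linarith) (hcF.intervalIntegrable _ _)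
      ((hp0.mul continuous_const).intervalIntegrable _ _) hbd
  have h5 : ∫ t in A..(A + H), ‖pf (a 0) (b 0) t‖ ≤ L := by
    have h6 := h1 0 A (abs_le.2 ⟨by linarith, by linarith⟩)
    have h7 : ∫ t in A..(A + H), ‖pf (a 0) (b 0) t‖ =
        ∫ u in (0:ℝ)..H, ‖pf (a 0) (b 0) (A + u)‖ := by
      rw [intervalIntegral.integral_comp_add_left (fun t => ‖pf (a 0) (b 0) t‖) A, add_zero]
    rw [h7]
    refine le_trans ?_ h6
    refine intervalIntegral.integral_mono_interval (by linarith) hH.le le_rfl ?_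
      ((hp0.comp (continuous_const.add continuous_id)).intervalIntegrable _ _)
    exact Filter.Eventually.of_forall fun t => norm_nonneg _
  have h8 : ∫ v in box k H, ∫ t in A..(A + H), F t v ≤ L * L ^ k := by
    rw [← hswap]
    refine h4.trans ?_
    rw [intervalIntegral.integral_mul_const]
    exact mul_le_mul_of_nonneg_right h5 (by positivity)
  refine h8.trans (le_of_eq ?_)
  have e2 : (T ^ (ε / ((k:ℝ) + 1))) ^ (k + 1) = T ^ ε := by
    rw [← Real.rpow_mul_natCast hT0.le]
    congr 1
    push_cast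
    field_simp
  rw [← pow_succ', hL, mul_pow, mul_pow, e2, pow_succ (2 * H) k]
  ring

end Pool.Agent.AAS
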