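import Pool.Agent.AAS.Defs


set_option autoImplicit false

namespace Pool.Agent.AAS

open Complex Finset MeasureTheory Filter Topology Set
open Pool.Agent.H26

theorem measurableSet_box (k : ℕ) (H : ℝ) : MeasurableSet (box k H) :=
  MeasurableSet.univ_pi fun _ => measurableSet_Icc

theorem VOL_box (k : ℕ) {H : ℝ} : volume (box k H) = ENNReal.ofReal (2 * H) ^ k := by
  unfold box
  rw [volume_pi_pi]
  simp only [Real.volume_Icc, Finset.prod_const, Finset.card_univ, Fintype.card_fin]
  congr 2
  ring

theorem VOL_continuous_lamS {k : ℕ} (S : Finset (Ix k)) : Continuous fun u => lamS S u := by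
  unfold lamS
  refine Continuous.sub (continuous_finsetSum _ fun j _ => ?_)
    (continuous_finsetSum _ fun j _ => ?_)
  · by_cases h : Sum.inr j ∈ S
    · simp only [h, if_true]; fun_prop
    · simp only [h, if_false]; fun_prop
  · by_cases h : Sum.inl j ∈ S
    · simp only [h, if_true]; fun_prop
    · simp only [h, if_false]; fun_prop

theorem measurableSet_U1 (k : ℕ) (R : ℝ) : MeasurableSet (U1 k R) := by
  have h : IsClosed (U1 k R) := by
    unfold U1
    simp only [Set.ofPred_forall]
    refine isClosed_iInter fun j => isClosed_iInter fun l => isClosed_iInter fun _ => ?_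
    exact isClosed_le continuous_const (by fun_prop)
  exact h.measurableSet

theorem measurableSet_U2 (k : ℕ) (R : ℝ) : MeasurableSet (U2 k R) := by
  have h : IsClosed (U2 k R) := by
    unfold U2
    simp only [Set.ofPred_forall]
    refine isClosed_iInter fun S => isClosed_iInter fun _ => isClosed_iInter fun _ => ?_
    exact isClosed_le continuous_const (continuous_abs.comp (VOL_continuous_lamS S))
  exact h.measurableSet

/-- slabs -/
theorem VOL_slab {n : ℕ} (c : Fin (n + 1) → ℝ) (j₀ : Fin (n + 1)) (hc : |c j₀| = 1) (H R : ℝ) :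
    volume {u : Fin (n + 1) → ℝ | u ∈ box (n + 1) H ∧ |∑ j, c j * u j| < R} ≤
      ENNReal.ofReal (2 * R) * ENNReal.ofReal (2 * H) ^ n := by
  set A : Set (Fin (n + 1) → ℝ) := {u | u ∈ box (n + 1) H ∧ |∑ j, c j * u j| < R} with hA
  have hAm : MeasurableSet A := by
    refine (measurableSet_box _ _).inter ?_
    have ho : IsOpen {u : Fin (n + 1) → ℝ | |∑ j, c j * u j| < R} :=
      isOpen_lt (by fun_prop) continuous_const
    exact ho.measurableSet
  have hmp := volume_preserving_piFinSuccAbove (fun _ : Fin (n + 1) => ℝ) j₀
  have h1 : volume A = volume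
      ((MeasurableEquiv.piFinSuccAbove (fun _ : Fin (n + 1) => ℝ) j₀).symm ⁻¹' A) := by
    rw [(hmp.symm _).measure_preimage_equiv]
  rw [h1, Measure.volume_eq_prod, Measure.prod_apply_symm
    ((MeasurableEquiv.measurable _) hAm)]
  have h2 : ∀ y : Fin n → ℝ, volume ((fun x : ℝ => (x, y)) ⁻¹'
      ((MeasurableEquiv.piFinSuccAbove (fun _ : Fin (n + 1) => ℝ) j₀).symm ⁻¹' A)) ≤
      (box n H).indicator (fun _ => ENNReal.ofReal (2 * R)) y := by
    intro y
    by_cases hy : y ∈ box n H
    · rw [Set.indicator_of_mem hy]
      set s : ℝ := ∑ i, c (j₀.succAbove i) * y i with hs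
      have hsub : ((fun x : ℝ => (x, y)) ⁻¹'
          ((MeasurableEquiv.piFinSuccAbove (fun _ : Fin (n + 1) => ℝ) j₀).symm ⁻¹' A)) ⊆
          Set.Ioo (-(c j₀ * s) - R) (-(c j₀ * s) + R) := by
        intro x hx
        have hx1 : Fin.insertNth j₀ x y ∈ A := hx
        have hx2 := hx1.2
        rw [Fin.sum_univ_succAbove _ j₀] at hx2
        simp only [Fin.insertNth_apply_same, Fin.insertNth_apply_succAbove] at hx2
        rw [← hs] at hx2
        have hcc : c j₀ * c j₀ = 1 := by
          rw [← abs_mul_abs_self, hc, one_mul]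
        have e : |x + c j₀ * s| = |c j₀ * x + s| := by
          have : x + c j₀ * s = c j₀ * (c j₀ * x + s) := by
            linear_combination (-x) * hcc
          rw [this, abs_mul, hc, one_mul]
        rw [← e, abs_lt] at hx2
        constructor <;> linarith [hx2.1, hx2.2]
      refine (measure_mono hsub).trans ?_
      rw [Real.volume_Ioo]
      apply le_of_eq
      congr 1
      ring
    · rw [Set.indicator_of_notMem hy]
      refine le_of_eq ?_
      convert measure_empty (μ := (volume : Measure ℝ))
      ext x
      simp only [Set.mem_preimage, Set.mem_empty_iff_false, iff_false]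
      intro hx
      have hx1 : Fin.insertNth j₀ x y ∈ A := hx
      apply hy
      intro i _
      have h3 := hx1.1 (j₀.succAbove i) (Set.mem_univ _)
      rwa [Fin.insertNth_apply_succAbove] at h3
  refine (lintegral_mono h2).trans ?_
  rw [lintegral_indicator (measurableSet_box n H), lintegral_const, Measure.restrict_apply_univ,
    VOL_box]

/-- U_3 -/
theorem exists_volume_bad (k : ℕ) : ∃ C : ℝ, 1 ≤ C ∧ ∀ H R R' : ℝ, 1 ≤ H → 0 ≤ R → 0 ≤ R' →
    volume (box k H \ (U1 k R ∩ U2 k R')) ≤ ENNReal.ofReal (C * (H ^ ((k : ℝ) - 1) * (R + R'))) := by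
  rcases k with _ | n
  · refine ⟨1, le_refl _, fun H R R' _ _ _ => ?_⟩
    have h1 : box 0 H \ (U1 0 R ∩ U2 0 R') = ∅ := by
      rw [Set.sdiff_eq_empty]
      intro u _
      refine ⟨fun j => j.elim0, fun S _ hS => ?_⟩
      exact absurd (by ext i; rcases i with j | j <;> exact j.elim0) (hS (fun j => j.elim0))
    rw [h1, measure_empty]
    exact zero_le
  · refine ⟨(((Finset.univ : Finset (Fin (n + 1) × Fin (n + 1))).card : ℝ) +
        (Finset.univ : Finset (Finset (Ix (n + 1)))).card) * 2 ^ (n + 1) + 1, by
        have : (0:ℝ) ≤ (((Finset.univ : Finset (Fin (n + 1) × Fin (n + 1))).card : ℝ) +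
          (Finset.univ : Finset (Finset (Ix (n + 1)))).card) * 2 ^ (n + 1) := by positivity
        linarith, fun H R R' hH hR hR' => ?_⟩
    set A : Fin (n + 1) × Fin (n + 1) → Set (Fin (n + 1) → ℝ) := fun p =>
      {u | (p.1 ≠ p.2) ∧ u ∈ box (n + 1) H ∧ |u p.1 - u p.2| < R} with hA
    set A' : Finset (Ix (n + 1)) → Set (Fin (n + 1) → ℝ) := fun S =>
      {u | (∀ κ, S ≠ Sk κ) ∧ u ∈ box (n + 1) H ∧ |lamS S u| < R'} with hA'
    have hsub : box (n + 1) H \ (U1 (n + 1) R ∩ U2 (n + 1) R') ⊆
        (⋃ p ∈ (Finset.univ : Finset (Fin (n + 1) × Fin (n + 1))), A p) ∪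
        (⋃ S ∈ (Finset.univ : Finset (Finset (Ix (n + 1)))), A' S) := by
      rintro u ⟨hu, hu'⟩
      rw [Set.mem_inter_iff, not_and_or] at hu'
      rcases hu' with h | h
      · left
        simp only [U1, Set.mem_ofPred_eq, not_forall, not_le] at h
        obtain ⟨j, l, hjl, h⟩ := h
        simp only [Set.mem_iUnion]
        exact ⟨(j, l), Finset.mem_univ _, hjl, hu, h⟩
      · right
        simp only [U2, Set.mem_ofPred_eq, not_forall, not_le] at h
        obtain ⟨S, _, hS, h⟩ := h
        simp only [Set.mem_iUnion]
        exact ⟨S, Finset.mem_univ _, hS, hu, h⟩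
    have b1 : ∀ p ∈ (Finset.univ : Finset (Fin (n + 1) × Fin (n + 1))),
        volume (A p) ≤ ENNReal.ofReal (2 * (R + R')) * ENNReal.ofReal (2 * H) ^ n := by
      intro p _
      by_cases hp : p.1 = p.2
      · have : A p = ∅ := by
          ext u
          simp [hA, hp]
        rw [this, measure_empty]
        exact zero_le
      · have hs := VOL_slab (fun j => if j = p.1 then 1 else if j = p.2 then -1 else 0) p.1
          (by simp) H R
        refine le_trans (measure_mono ?_) (hs.trans ?_)
        · rintro u ⟨_, hu, h⟩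
          refine ⟨hu, ?_⟩
          have e : ∑ j, (if j = p.1 then (1:ℝ) else if j = p.2 then -1 else 0) * u j =
              u p.1 - u p.2 := by
            have e1 : ∀ j, (if j = p.1 then (1:ℝ) else if j = p.2 then -1 else 0) * u j =
                (if j = p.1 then u j else 0) - (if j = p.2 then u j else 0) := by
              intro j
              by_cases h1 : j = p.1
              · subst h1
                simp [hp]
              · by_cases h2 : j = p.2
                · have h3 : ¬ p.2 = p.1 := fun h => hp h.symm
                  simp [h2, h3]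
                · simp [h1, h2]
            simp only [e1, Finset.sum_sub_distrib, Finset.sum_ite_eq', Finset.mem_univ, if_true]
          rw [e]
          exact h
        · gcongr
          linarith
    have b2 : ∀ S ∈ (Finset.univ : Finset (Finset (Ix (n + 1)))),
        volume (A' S) ≤ ENNReal.ofReal (2 * (R + R')) * ENNReal.ofReal (2 * H) ^ n := by
      intro S _
      by_cases hS : ∃ κ, S = Sk κ
      · have : A' S = ∅ := by
          ext u
          simp only [hA', Set.mem_ofPred_eq, Set.mem_empty_iff_false, iff_false]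
          rintro ⟨h, _⟩
          obtain ⟨κ, hκ⟩ := hS
          exact h κ hκ
        rw [this, measure_empty]
        exact zero_le
      · set c : Fin (n + 1) → ℝ := fun j =>
          (if Sum.inr j ∈ S then 1 else 0) - (if Sum.inl j ∈ S then 0 else 1) with hc
        have hex : ∃ j₀, |c j₀| = 1 := by
          by_contra hno
          push Not at hno
          apply hS
          refine ⟨fun j => decide (Sum.inr j ∈ S), ?_⟩
          ext i
          rcases i with j | j
          · simp only [Sk, Finset.mem_filter, Finset.mem_univ, true_and, Sum.elim_inl]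
            have := hno j
            by_cases h1 : Sum.inr j ∈ S <;> by_cases h2 : Sum.inl j ∈ S <;>
              simp [hc, h1, h2] at this ⊢
          · simp only [Sk, Finset.mem_filter, Finset.mem_univ, true_and, Sum.elim_inr]
            simp
        obtain ⟨j₀, hj₀⟩ := hex
        have hs := VOL_slab c j₀ hj₀ H R'
        refine le_trans (measure_mono ?_) (hs.trans ?_)
        · rintro u ⟨_, hu, h⟩
          refine ⟨hu, ?_⟩
          have e : ∑ j, c j * u j = lamS S u := by
            unfold lamS
            rw [← Finset.sum_sub_distrib]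
            refine Finset.sum_congr rfl fun j _ => ?_
            simp only [hc]
            by_cases h1 : Sum.inr j ∈ S <;> by_cases h2 : Sum.inl j ∈ S <;> simp [h1, h2]
          rw [e]
          exact h
        · gcongr
          linarith
    have t1 := (measure_mono hsub).trans (measure_union_le (μ := volume) _ _)
    have t2 := measure_biUnion_finset_le (μ := volume)
      (Finset.univ : Finset (Fin (n + 1) × Fin (n + 1))) A
    have t3 := measure_biUnion_finset_le (μ := volume)
      (Finset.univ : Finset (Finset (Ix (n + 1)))) A'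
    have t4 := Finset.sum_le_card_nsmul _ _ _ b1
    have t5 := Finset.sum_le_card_nsmul _ _ _ b2
    refine t1.trans ((add_le_add (t2.trans t4) (t3.trans t5)).trans ?_)
    rw [nsmul_eq_mul, nsmul_eq_mul, ← add_mul]
    have e1 : (H : ℝ) ^ (((n + 1 : ℕ) : ℝ) - 1) = H ^ n := by
      rw [← Real.rpow_natCast]
      congr 1
      push_cast
      ring
    rw [e1]
    have h2H : (0:ℝ) ≤ 2 * H := by linarith
    rw [← ENNReal.ofReal_pow h2H, ← ENNReal.ofReal_mul (by positivity)]
    have e2 : (((Finset.univ : Finset (Fin (n + 1) × Fin (n + 1))).card : ENNReal) +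
        ((Finset.univ : Finset (Finset (Ix (n + 1)))).card : ENNReal)) = ENNReal.ofReal
        (((Finset.univ : Finset (Fin (n + 1) × Fin (n + 1))).card : ℝ) +
        ((Finset.univ : Finset (Finset (Ix (n + 1)))).card : ℝ)) := by
      rw [ENNReal.ofReal_add (by positivity) (by positivity), ENNReal.ofReal_natCast,
        ENNReal.ofReal_natCast]
    rw [e2, ← ENNReal.ofReal_mul (by positivity)]
    apply ENNReal.ofReal_le_ofReal
    have hpos : 0 ≤ H ^ n * (R + R') := by positivity
    have e3 : (2 * (R + R')) * (2 * H) ^ n = 2 ^ (n + 1) * (H ^ n * (R + R')) := by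
      rw [mul_pow]; ring
    rw [e3]
    have e4 : ∀ c : ℝ, c * (2 ^ (n + 1) * (H ^ n * (R + R'))) ≤
        (c * 2 ^ (n + 1) + 1) * (H ^ n * (R + R')) := by
      intro c
      nlinarith
    exact e4 _

end Pool.Agent.AAS
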