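import Pool.Agent.AAS.SHR
import Pool.Agent.AAS.VOL

set_option autoImplicit false

namespace Pool.Agent.AAS

open Complex Finset MeasureTheory Filter Topology Set
open Pool.Agent.H26

/-- the translations for which the recipe is well behaved, one pair fixed -/
def Vg (k : ℕ) (H R R' : ℝ) : Set (Fin k → ℝ) :=
  {v | v ∈ box k H ∧ fx v ∈ U1 (k + 1) R ∧ fx v ∈ U2 (k + 1) R'}

theorem vo2_measurable_fx (k : ℕ) : Measurable (fun v : Fin k → ℝ => fx v) := by
  rw [measurable_pi_iff]
  intro j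
  refine Fin.cases ?_ (fun i => ?_) j
  · simp only [fx, Fin.cons_zero]; exact measurable_const
  · simp only [fx, Fin.cons_succ]; exact measurable_pi_apply i

theorem measurableSet_Vg (k : ℕ) (H R R' : ℝ) : MeasurableSet (Vg k H R R') := by
  have hfx := vo2_measurable_fx k
  have h : Vg k H R R' = box k H ∩ ((fun v : Fin k → ℝ => fx v) ⁻¹' U1 (k + 1) R ∩
      (fun v : Fin k → ℝ => fx v) ⁻¹' U2 (k + 1) R') := by
    ext v; rfl
  rw [h]
  exact (measurableSet_box k H).inter
    ((hfx (measurableSet_U1 _ _)).inter (hfx (measurableSet_U2 _ _)))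

/-- from `exists_volume_bad (k+1)` with `2 * H` and `lintegral_shear_le` with the indicator of the
bad set (invariant along the diagonal) -/
theorem exists_volume_bad_fixed (k : ℕ) : ∃ C : ℝ, 1 ≤ C ∧ ∀ H R R' : ℝ, 1 ≤ H → 0 ≤ R →
    0 ≤ R' → volume (box k H \ Vg k H R R') ≤
      ENNReal.ofReal (C * (H ^ ((k : ℝ) - 1) * (R + R'))) := by
  obtain ⟨C, hC1, hC⟩ := exists_volume_bad (k + 1)
  refine ⟨C * 2 ^ k, one_le_mul_of_one_le_of_one_le hC1 (one_le_pow₀ one_le_two),
    fun H R R' hH hR hR' => ?_⟩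
  have hH0 : 0 < H := by linarith
  set W : Set (Fin (k + 1) → ℝ) := U1 (k + 1) R ∩ U2 (k + 1) R' with hW
  have hWm : MeasurableSet W := (measurableSet_U1 _ _).inter (measurableSet_U2 _ _)
  have hfx := vo2_measurable_fx k
  have hf : Measurable (Wᶜ.indicator (1 : (Fin (k + 1) → ℝ) → ENNReal)) :=
    measurable_one.indicator hWm.compl
  have hsh : ∀ (s : ℝ) (v : Fin k → ℝ), Wᶜ.indicator (1 : (Fin (k + 1) → ℝ) → ENNReal) (sh s v) =
      ((fun v : Fin k → ℝ => fx v) ⁻¹' Wᶜ).indicator (1 : (Fin k → ℝ) → ENNReal) v := by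
    intro s v
    have h1 : sh s v ∈ W ↔ fx v ∈ W := by
      rw [hW, Set.mem_inter_iff, Set.mem_inter_iff, sh_mem_U1, sh_mem_U2]
    by_cases h : fx v ∈ W
    · rw [Set.indicator_of_notMem, Set.indicator_of_notMem]
      · simpa using h
      · simpa using h1.2 h
    · rw [Set.indicator_of_mem, Set.indicator_of_mem]
      · rfl
      · exact h
      · exact fun h2 => h (h1.1 h2)
  have key := lintegral_shear_le (k := k) (H := H) hH0.le hf
  rw [lintegral_indicator_one hWm.compl, Measure.restrict_apply hWm.compl] at key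
  simp only [hsh] at key
  simp only [lintegral_const, Measure.restrict_apply_univ, Real.volume_Icc, sub_zero] at key
  rw [lintegral_mul_const _ (measurable_one.indicator (hfx hWm.compl)),
    lintegral_indicator_one (hfx hWm.compl), Measure.restrict_apply (hfx hWm.compl)] at key
  have e1 : box k H \ Vg k H R R' = (fun v : Fin k → ℝ => fx v) ⁻¹' Wᶜ ∩ box k H := by
    ext v
    simp only [Set.mem_sdiff, Vg, Set.mem_inter_iff, Set.mem_preimage, Set.mem_compl_iff, hW,
      Set.mem_ofPred_eq]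
    tauto
  have e2 : Wᶜ ∩ box (k + 1) (2 * H) = box (k + 1) (2 * H) \ (U1 (k + 1) R ∩ U2 (k + 1) R') := by
    rw [hW, Set.inter_comm, Set.sdiff_eq]
  rw [e2] at key
  have key2 := key.trans (hC (2 * H) R R' (by linarith) hR hR')
  rw [e1]
  have e3 : (2 * H) ^ (((k + 1 : ℕ) : ℝ) - 1) = 2 ^ k * H ^ ((k : ℝ) - 1) * H := by
    have h1 : (((k + 1 : ℕ) : ℝ) - 1) = (k : ℝ) := by push_cast; ring
    rw [h1, Real.rpow_natCast, mul_pow, mul_assoc]
    congr 1
    rw [Real.rpow_sub_one hH0.ne', Real.rpow_natCast]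
    field_simp
  have e4 : C * ((2 * H) ^ (((k + 1 : ℕ) : ℝ) - 1) * (R + R')) =
      (C * 2 ^ k * (H ^ ((k : ℝ) - 1) * (R + R'))) * H := by
    rw [e3]; ring
  rw [e4, ENNReal.ofReal_mul' hH0.le] at key2
  have hne : ENNReal.ofReal H ≠ 0 := by
    rw [Ne, ENNReal.ofReal_eq_zero]; linarith
  exact (ENNReal.mul_le_mul_iff_left hne ENNReal.ofReal_ne_top).1 key2

end Pool.Agent.AAS
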