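import Pool.Agent.AAS.COR
import Pool.Agent.AAS.VO2
import Pool.Agent.AAS.FX1

set_option autoImplicit false

namespace Pool.Agent.AAS

open Complex Finset MeasureTheory Filter Topology Set
open Pool.Agent.H26

namespace FIX

variable {k : ℕ}

lemma isCompact_box (k : ℕ) (H : ℝ) : IsCompact (box k H) :=
  isCompact_univ_pi fun _ => isCompact_Icc

lemma volume_box (k : ℕ) {H : ℝ} (hH : 0 ≤ H) : volume (box k H) = ENNReal.ofReal ((2 * H) ^ k) := by
  unfold box
  rw [volume_pi_pi]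
  simp only [Real.volume_Icc, Finset.prod_const, Finset.card_univ, Fintype.card_fin]
  rw [← ENNReal.ofReal_pow (by linarith)]
  congr 2
  ring

lemma setIntegral_const_le {Ω : Set (Fin k → ℝ)} {H : ℝ} (hH : 0 ≤ H) (hΩ : Ω ⊆ box k H) {M : ℝ}
    (hM : 0 ≤ M) : IntegrableOn (fun _ => M) Ω ∧ ∫ _ in Ω, M ≤ (2 * H) ^ k * M := by
  have h1 : volume Ω ≤ ENNReal.ofReal ((2 * H) ^ k) := (measure_mono hΩ).trans (volume_box k hH).le
  have h2 : volume Ω ≠ ⊤ := ne_top_of_le_ne_top ENNReal.ofReal_ne_top h1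
  refine ⟨integrableOn_const h2, ?_⟩
  rw [setIntegral_const, smul_eq_mul]
  refine mul_le_mul_of_nonneg_right ?_ hM
  rw [Measure.real]
  exact ENNReal.toReal_le_of_le_ofReal (by positivity) h1

lemma continuous_fx : Continuous (fx (k := k)) := by
  unfold fx
  refine continuous_pi fun j => ?_
  refine Fin.cases ?_ (fun i => ?_) j
  · simp only [Fin.cons_zero]
    exact continuous_const
  · simp only [Fin.cons_succ]
    fun_prop

lemma continuous_shp : Continuous fun p : (Fin k → ℝ) × ℝ => sh p.2 p.1 := by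
  unfold sh
  refine continuous_pi fun j => ?_
  refine Fin.cases ?_ (fun i => ?_) j
  · simp only [Fin.cons_zero]
    exact continuous_snd
  · simp only [Fin.cons_succ]
    fun_prop

lemma continuous_pf (a b : ℝ) : Continuous (pf a b) := by
  have h : ∀ (c : ℝ) (s : ℂ), s.re = 0 → Continuous fun x : ℝ => riemannZeta (1 / 2 + s * (x + c)) := by
    intro c s hs
    refine continuous_iff_continuousAt.2 fun x => ?_
    have h1 : (1 / 2 + s * ((x : ℂ) + c)) ≠ 1 := by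
      intro h
      have := congrArg Complex.re h
      simp [hs] at this
    exact (differentiableAt_riemannZeta h1).continuousAt.comp
      (f := fun x : ℝ => 1 / 2 + s * ((x : ℂ) + c)) (by fun_prop)
  have h1 := h a I (by simp)
  have h2 := h b (-I) (by simp)
  have h3 : Continuous fun x : ℝ => riemannZeta (1 / 2 - I * (x + b)) := by
    refine h2.congr fun x => ?_
    congr 1
    ring
  exact h1.mul h3

lemma continuous_prod_int (a b : Fin (k + 1) → ℝ) (A A' : ℝ) : Continuous fun v : Fin k → ℝ =>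
    ∫ t in A..A', ∏ j, ‖pf (a j) (b j) (t + fx v j)‖ := by
  refine intervalIntegral.continuous_parametric_intervalIntegral_of_continuous' ?_ A A'
  refine continuous_finsetProd _ fun j _ => ?_
  refine ((continuous_pf (a j) (b j)).comp ?_).norm
  exact continuous_snd.add (((continuous_apply j).comp continuous_fx).comp continuous_fst)

lemma continuous_E (a b : Fin (k + 1) → ℝ) (T : ℝ) : Continuous fun u : Fin (k + 1) → ℝ =>
    E (fun j => a j + u j) (fun j => b j + u j) T := continuous_E_u a b T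

/-- the mean over the diagonal shift -/
lemma mean_shift_le {g : (Fin (k + 1) → ℝ) → ℂ} (hgc : Continuous g) {H R R' M : ℝ} (hH : 0 ≤ H)
    (h : ∫ u in box (k + 1) (2 * H) ∩ (U1 (k + 1) R ∩ U2 (k + 1) R'), ‖g u‖ ≤ M) :
    IntegrableOn (fun v => ∫ s in (0:ℝ)..H, ‖g (sh s v)‖) (Vg k H R R') ∧
    ∫ v in Vg k H R R', ∫ s in (0:ℝ)..H, ‖g (sh s v)‖ ≤ M := by
  have hF : Continuous fun p : (Fin k → ℝ) × ℝ => ‖g (sh p.2 p.1)‖ :=
    (hgc.comp continuous_shp).norm
  have hc : Continuous fun v : Fin k → ℝ => ∫ s in (0:ℝ)..H, ‖g (sh s v)‖ :=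
    intervalIntegral.continuous_parametric_intervalIntegral_of_continuous' hF 0 H
  have hsub : Vg k H R R' ⊆ box k H := fun v hv => hv.1
  have hi : IntegrableOn (fun v => ∫ s in (0:ℝ)..H, ‖g (sh s v)‖) (Vg k H R R') :=
    (hc.continuousOn.integrableOn_compact (isCompact_box k H)).mono_set hsub
  refine ⟨hi, ?_⟩
  have hM0 : 0 ≤ M := le_trans (by positivity) h
  have hnn : ∀ v, 0 ≤ ∫ s in (0:ℝ)..H, ‖g (sh s v)‖ := fun v =>
    intervalIntegral.integral_nonneg hH fun s _ => norm_nonneg _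
  have key : ENNReal.ofReal (∫ v in Vg k H R R', ∫ s in (0:ℝ)..H, ‖g (sh s v)‖) ≤
      ENNReal.ofReal M := by
    rw [ofReal_integral_eq_lintegral_ofReal hi (Eventually.of_forall hnn)]
    set Ω : Set (Fin (k + 1) → ℝ) := U1 (k + 1) R ∩ U2 (k + 1) R' with hΩ
    have hΩm : MeasurableSet Ω := (measurableSet_U1 _ _).inter (measurableSet_U2 _ _)
    set f : (Fin (k + 1) → ℝ) → ENNReal := Ω.indicator fun u => ‖g u‖ₑ with hf
    have hfm : Measurable f := hgc.enorm.measurable.indicator hΩm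
    have h1 : ∀ v ∈ Vg k H R R', ENNReal.ofReal (∫ s in (0:ℝ)..H, ‖g (sh s v)‖) =
        ∫⁻ s in Icc 0 H, f (sh s v) := by
      intro v hv
      have hcs : Continuous fun s : ℝ => ‖g (sh s v)‖ :=
        hF.comp (by fun_prop : Continuous fun s : ℝ => (v, s))
      rw [intervalIntegral.integral_of_le hH, ← integral_Icc_eq_integral_Ioc,
        ofReal_integral_eq_lintegral_ofReal (hcs.continuousOn.integrableOn_compact isCompact_Icc)
          (Eventually.of_forall fun s => norm_nonneg _)]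
      refine lintegral_congr fun s => ?_
      have hmem : sh s v ∈ Ω := ⟨(sh_mem_U1 s v R).2 hv.2.1, (sh_mem_U2 s v R').2 hv.2.2⟩
      rw [hf, Set.indicator_of_mem hmem, ofReal_norm]
    calc ∫⁻ v in Vg k H R R', ENNReal.ofReal (∫ s in (0:ℝ)..H, ‖g (sh s v)‖) =
          ∫⁻ v in Vg k H R R', ∫⁻ s in Icc 0 H, f (sh s v) :=
          setLIntegral_congr_fun (measurableSet_Vg k H R R') h1
      _ ≤ ∫⁻ v in box k H, ∫⁻ s in Icc 0 H, f (sh s v) := lintegral_mono_set hsub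
      _ ≤ ∫⁻ u in box (k + 1) (2 * H), f u := lintegral_shear_le hH hfm
      _ = ∫⁻ u in box (k + 1) (2 * H) ∩ Ω, ‖g u‖ₑ := by
          rw [hf, lintegral_indicator hΩm, Measure.restrict_restrict hΩm, Set.inter_comm]
      _ = ENNReal.ofReal (∫ u in box (k + 1) (2 * H) ∩ Ω, ‖g u‖) := by
          have hint : IntegrableOn g (box (k + 1) (2 * H) ∩ Ω) :=
            (hgc.continuousOn.integrableOn_compact (isCompact_box (k + 1) (2 * H))).mono_set
              Set.inter_subset_left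
          rw [ofReal_integral_norm_eq_lintegral_enorm hint]
      _ ≤ _ := ENNReal.ofReal_le_ofReal h
  exact (ENNReal.ofReal_le_ofReal_iff hM0).1 key

lemma abs_fx_le {H : ℝ} (hH : 0 ≤ H) {v : Fin k → ℝ} (hv : v ∈ box k H) (j : Fin (k + 1)) :
    |fx v j| ≤ H := by
  unfold fx
  refine Fin.cases ?_ (fun i => ?_) j
  · simpa using hH
  · simpa using abs_le.2 (hv i (Set.mem_univ i))

lemma fx_mem_box {H H' : ℝ} (hH : 0 ≤ H) (hHH : H ≤ H') {v : Fin k → ℝ} (hv : v ∈ box k H) :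
    fx v ∈ box (k + 1) H' := fun j _ => abs_le.1 ((abs_fx_le hH hv j).trans hHH)

lemma measurable_E_fx (a b : Fin (k + 1) → ℝ) (T : ℝ) : Continuous fun v : Fin k → ℝ =>
    ‖E (fun j => a j + fx v j) (fun j => b j + fx v j) T‖ :=
  ((continuous_E a b T).comp continuous_fx).norm

/-- the pointwise inequality after averaging over the diagonal -/
lemma pointwise {a b : Fin (k + 1) → ℝ} {v : Fin k → ℝ}
    (hinj : Function.Injective (gm a b (fx v))) {H T Z : ℝ} (hH : 0 ≤ H) (hT : 0 ≤ T)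
    (hZ : ∑ S ∈ (univ : Finset (Ix (k + 1))).powersetCard (k + 1),
      ‖zetaAB S (fun i => (gm a b (fx v) i : ℂ))‖ ≤ Z) :
    H * ‖E (fun j => a j + fx v j) (fun j => b j + fx v j) T‖ ≤
      (∫ s in (0:ℝ)..H, ‖E (fun j => a j + sh s v j) (fun j => b j + sh s v j) T‖) +
      H * (∫ t in (0:ℝ)..(0 + H), ∏ j, ‖pf (a j) (b j) (t + fx v j)‖) +
      H * (∫ t in T..(T + H), ∏ j, ‖pf (a j) (b j) (t + fx v j)‖) + H * (2 * H * Z) := by
  have hc : Continuous fun s : ℝ =>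
      ‖E (fun j => a j + sh s v j) (fun j => b j + sh s v j) T‖ := by
    have h1 : Continuous fun s : ℝ => sh s v :=
      continuous_shp.comp (Continuous.prodMk_right v)
    exact ((continuous_E a b T).comp h1).norm
  set X : ℝ := ‖E (fun j => a j + fx v j) (fun j => b j + fx v j) T‖ with hX
  set P : ℝ := ∫ t in (0:ℝ)..(0 + H), ∏ j, ‖pf (a j) (b j) (t + fx v j)‖ with hP
  set P' : ℝ := ∫ t in T..(T + H), ∏ j, ‖pf (a j) (b j) (t + fx v j)‖ with hP'
  have h1 : ∀ s ∈ Icc (0:ℝ) H, X - P - P' - 2 * H * Z ≤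
      ‖E (fun j => a j + sh s v j) (fun j => b j + sh s v j) T‖ := by
    intro s hs
    have h := norm_E_le_shift hinj hs.1 hs.2 hT
    have e1 : (fun j => a j + sh s v j) = fun j => a j + (fx v j + s) := by
      funext j; rw [sh_eq]
    have e2 : (fun j => b j + sh s v j) = fun j => b j + (fx v j + s) := by
      funext j; rw [sh_eq]
    have h2 : 2 * H * ∑ S ∈ (univ : Finset (Ix (k + 1))).powersetCard (k + 1),
        ‖zetaAB S (fun i => (gm a b (fx v) i : ℂ))‖ ≤ 2 * H * Z := by gcongr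
    rw [e1, e2]
    rw [zero_add] at hP
    rw [hP, hP', hX]
    linarith
  have h3 : ∫ s in (0:ℝ)..H, (X - P - P' - 2 * H * Z) ≤
      ∫ s in (0:ℝ)..H, ‖E (fun j => a j + sh s v j) (fun j => b j + sh s v j) T‖ :=
    intervalIntegral.integral_mono_on hH (by simp) (hc.intervalIntegrable 0 H) h1
  rw [intervalIntegral.integral_const, sub_zero, smul_eq_mul] at h3
  linarith

end FIX

open FIX in
/-- the core theorem with one pair fixed -/
theorem exists_core_fixed {w : ℝ} (hw : LocalBound w) (hw1 : 1 / 4 ≤ w) (k : ℕ) (θ₁ θ₂ : ℝ)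
    (hθ : w < θ₁) (hθ' : θ₁ ≤ θ₂) (hθ1 : θ₂ < 1) :
    ∃ c c₂ ε₀ : ℝ, 0 < c ∧ 2 * c ≤ 1 ∧ 0 < c₂ ∧ c₂ < θ₁ / 2 ∧ 0 < ε₀ ∧ ∀ B ε : ℝ,
    0 ≤ B → 0 < ε → ε ≤ ε₀ → ∃ C T₁ : ℝ, 1 ≤ C ∧ 1 ≤ T₁ ∧ ∀ T H : ℝ, T₁ ≤ T → T ^ θ₁ ≤ H →
    H ≤ 2 * T ^ θ₂ → ∀ a b : Fin (k + 1) → ℝ,
    (∀ j, |a j| ≤ B) → (∀ j, |b j| ≤ B) → (∀ j, T ^ (-ε) ≤ |a j - b j|) →
    ∫ v in Vg k H (2 * B + 1) (2 * H * T ^ (-c₂)),
      ‖E (fun j => a j + fx v j) (fun j => b j + fx v j) T‖ ≤
      (2 * H) ^ k * (C * T ^ (1 - c)) := by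
  obtain ⟨c, c₂, ε₀, hc, hc₂, hc₂', hε₀, hcore⟩ := exists_core_gen hw hw1 (k + 1) θ₁ θ₂ hθ hθ' hθ1
  set κ : ℝ := 1 - θ₂ with hκ
  have hκ0 : 0 < κ := by rw [hκ]; linarith
  have hθ0 : 0 < θ₁ := by linarith
  have hθ20 : 0 < θ₂ := by linarith
  have hw0 : 0 ≤ w := by linarith
  have hκ1 : κ ≤ 1 := by rw [hκ]; linarith
  refine ⟨min c (κ / 4), c₂, min ε₀ (κ / (16 * ((k:ℝ) + 1) ^ 2)), lt_min hc (by positivity),
    ?_, hc₂, hc₂', lt_min hε₀ (by positivity), fun B ε hB hε hε' => ?_⟩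
  · have := min_le_right c (κ / 4)
    linarith
  set c' : ℝ := min c (κ / 4) with hc'
  have hc'0 : 0 < c' := lt_min hc (by positivity)
  have hc'1 : c' ≤ c := min_le_left _ _
  have hc'2 : c' ≤ κ / 4 := min_le_right _ _
  have hεε : ε ≤ ε₀ := hε'.trans (min_le_left _ _)
  have hεκ : 4 * ((k:ℝ) + 1) ^ 2 * ε ≤ κ / 4 := by
    have h1 : ε ≤ κ / (16 * ((k:ℝ) + 1) ^ 2) := hε'.trans (min_le_right _ _)
    rw [le_div_iff₀ (by positivity)] at h1
    linarith
  obtain ⟨C₁, hC₁, hcore⟩ := hcore B ε hB hε hεε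
  obtain ⟨C₂, hC₂, hshort⟩ := exists_short_mean hw k B c' hB hc'0
  obtain ⟨C₃, hC₃, hzeta⟩ := exists_zetaAB_le (k + 1) B ε hB hε
  set NS : ℝ := (((univ : Finset (Ix (k + 1))).powersetCard (k + 1)).card : ℝ) with hNS
  have hNS0 : 0 ≤ NS := Nat.cast_nonneg _
  set T₁ : ℝ := max ((2 ^ w) ^ ((θ₁ - w)⁻¹)) (2 ^ (κ⁻¹)) with hT₁
  have h2w : 1 ≤ (2:ℝ) ^ w := Real.one_le_rpow (by norm_num) hw0
  have hT₁1 : 1 ≤ T₁ :=
    (Real.one_le_rpow h2w (inv_nonneg.2 (by linarith))).trans (le_max_left _ _)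
  set C : ℝ := 2 ^ (k + 2) * C₁ + 8 * C₂ + 4 * (NS * C₃) with hC
  have hC1 : 1 ≤ C := by
    have h1 : (1:ℝ) ≤ 8 * C₂ := by linarith
    have h2 : 0 ≤ 2 ^ (k + 2) * C₁ + 4 * (NS * C₃) := by positivity
    rw [hC]; linarith
  refine ⟨C, T₁, hC1, hT₁1, fun T H hTT hTH hHT' a b ha hb hab => ?_⟩
  have hT : 1 ≤ T := hT₁1.trans hTT
  have hT0 : 0 < T := by linarith
  have hH1 : 1 ≤ H := (Real.one_le_rpow hT hθ0.le).trans hTH
  have hH0 : 0 < H := by linarith
  have h2κ : 2 ≤ T ^ κ := by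
    have h2 : (2 ^ (κ⁻¹)) ^ κ ≤ T ^ κ :=
      Real.rpow_le_rpow (by positivity) ((le_max_right _ _).trans hTT) hκ0.le
    rwa [← Real.rpow_mul (by norm_num), inv_mul_cancel₀ hκ0.ne', Real.rpow_one] at h2
  have hHT : H ≤ T := by
    refine hHT'.trans ?_
    calc 2 * T ^ θ₂ ≤ T ^ κ * T ^ θ₂ := by gcongr
      _ = T := by
        rw [← Real.rpow_add hT0, hκ, sub_add_cancel, Real.rpow_one]
  set R' : ℝ := 2 * H * T ^ (-c₂) with hR'
  have hsub : Vg k H (2 * B + 1) R' ⊆ box k H := fun v hv => hv.1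
  have hVm : MeasurableSet (Vg k H (2 * B + 1) R') := measurableSet_Vg k H _ _
  have hEint : IntegrableOn (fun v : Fin k → ℝ =>
      ‖E (fun j => a j + fx v j) (fun j => b j + fx v j) T‖) (Vg k H (2 * B + 1) R') :=
    ((measurable_E_fx a b T).continuousOn.integrableOn_compact (isCompact_box k H)).mono_set hsub
  have hT1c : 1 ≤ T ^ (1 - c') := Real.one_le_rpow hT (by linarith)
  have hcond1 : (2 * T) ^ w ≤ T ^ θ₁ := by
    have h1 : (2:ℝ) ^ w ≤ T ^ (θ₁ - w) := by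
      have h2 : ((2 ^ w) ^ ((θ₁ - w)⁻¹)) ^ (θ₁ - w) ≤ T ^ (θ₁ - w) :=
        Real.rpow_le_rpow (by positivity) ((le_max_left _ _).trans hTT) (by linarith)
      rwa [← Real.rpow_mul (by positivity), inv_mul_cancel₀ (by linarith),
        Real.rpow_one] at h2
    rw [Real.mul_rpow (by norm_num) hT0.le]
    calc (2:ℝ) ^ w * T ^ w ≤ T ^ (θ₁ - w) * T ^ w := by gcongr
      _ = T ^ θ₁ := by rw [← Real.rpow_add hT0, sub_add_cancel]
  have hcond : (2 * T) ^ w ≤ H := hcond1.trans hTH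
  -- the three integrals
  have h0 := hshort (2 * T) 0 H (by linarith) le_rfl (by linarith) hcond a b ha hb
  have h1 := hshort (2 * T) T H (by linarith) hT0.le (by linarith) hcond a b ha hb
  have hc0 := continuous_prod_int a b 0 (0 + H)
  have hc1 := continuous_prod_int a b T (T + H)
  have hnn : ∀ A l : ℝ, 0 ≤ l → ∀ v : Fin k → ℝ,
      0 ≤ ∫ t in A..(A + l), ∏ j, ‖pf (a j) (b j) (t + fx v j)‖ := fun A l hl v =>
    intervalIntegral.integral_nonneg (by linarith) fun t _ =>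
      Finset.prod_nonneg fun j _ => norm_nonneg _
  have hi0 := hc0.continuousOn.integrableOn_compact (μ := volume) (isCompact_box k H)
  have hi1 := hc1.continuousOn.integrableOn_compact (μ := volume) (isCompact_box k H)
  have h0' : ∫ v in Vg k H (2 * B + 1) R', ∫ t in (0:ℝ)..(0 + H),
      ∏ j, ‖pf (a j) (b j) (t + fx v j)‖ ≤ (2 * H) ^ k * (C₂ * (2 * T) ^ c' * H) :=
    (setIntegral_mono_set hi0 (Eventually.of_forall fun v => hnn 0 H hH0.le v)
      (Eventually.of_forall hsub)).trans h0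
  have h1' : ∫ v in Vg k H (2 * B + 1) R', ∫ t in T..(T + H),
      ∏ j, ‖pf (a j) (b j) (t + fx v j)‖ ≤ (2 * H) ^ k * (C₂ * (2 * T) ^ c' * H) :=
    (setIntegral_mono_set hi1 (Eventually.of_forall fun v => hnn T H hH0.le v)
      (Eventually.of_forall hsub)).trans h1
  have hcoreT := hcore T (2 * H) hT (by linarith) (by linarith) a b ha hb hab
  obtain ⟨hiS, hS⟩ := mean_shift_le (continuous_E a b T) hH0.le hcoreT
  set Z : ℝ := NS * (C₃ * T ^ (4 * ((k:ℝ) + 1) ^ 2 * ε)) with hZ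
  have hZ0 : 0 ≤ Z := by positivity
  have habne : ∀ j, a j ≠ b j := fun j h => by
    have := hab j
    rw [h, sub_self, abs_zero] at this
    have h2 : 0 < T ^ (-ε) := by positivity
    linarith
  have hpt : ∀ v ∈ Vg k H (2 * B + 1) R',
      H * ‖E (fun j => a j + fx v j) (fun j => b j + fx v j) T‖ ≤
      (∫ s in (0:ℝ)..H, ‖E (fun j => a j + sh s v j) (fun j => b j + sh s v j) T‖) +
      H * (∫ t in (0:ℝ)..(0 + H), ∏ j, ‖pf (a j) (b j) (t + fx v j)‖) +
      H * (∫ t in T..(T + H), ∏ j, ‖pf (a j) (b j) (t + fx v j)‖) + H * (2 * H * Z) := by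
    intro v hv
    refine pointwise (gm_injective ha hb habne hv.2.1) hH0.le hT0.le ?_
    calc ∑ S ∈ (univ : Finset (Ix (k + 1))).powersetCard (k + 1),
          ‖zetaAB S (fun i => (gm a b (fx v) i : ℂ))‖ ≤
          ∑ S ∈ (univ : Finset (Ix (k + 1))).powersetCard (k + 1),
            C₃ * T ^ (4 * ((k:ℝ) + 1) ^ 2 * ε) := by
          refine Finset.sum_le_sum fun S _ => ?_
          have h := hzeta T hT a b (fx v) ha hb hab (fx_mem_box hH0.le hHT (hsub hv)) hv.2.1 S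
          push_cast at h
          exact h
      _ = Z := by rw [Finset.sum_const, nsmul_eq_mul]
  obtain ⟨hiZ, hZi⟩ := setIntegral_const_le (k := k) hH0.le hsub
    (M := H * (2 * H * Z)) (by positivity)
  have hiA := (hi0.mono_set hsub).const_mul H
  have hiB := (hi1.mono_set hsub).const_mul H
  have hsum := ((hiS.add hiA).add hiB).add hiZ
  have hI : H * ∫ v in Vg k H (2 * B + 1) R',
      ‖E (fun j => a j + fx v j) (fun j => b j + fx v j) T‖ ≤
      (2 * (2 * H)) ^ (k + 1) * (C₁ * T ^ (1 - c)) +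
      H * ((2 * H) ^ k * (C₂ * (2 * T) ^ c' * H)) +
      H * ((2 * H) ^ k * (C₂ * (2 * T) ^ c' * H)) +
      (2 * H) ^ k * (H * (2 * H * Z)) := by
    rw [← integral_const_mul]
    refine (setIntegral_mono_on (hEint.const_mul H) hsum hVm hpt).trans ?_
    have e1 := integral_add (μ := volume.restrict (Vg k H (2 * B + 1) R'))
      ((hiS.add hiA).add hiB) hiZ
    have e2 := integral_add (μ := volume.restrict (Vg k H (2 * B + 1) R'))
      (hiS.add hiA) hiB
    have e3 := integral_add (μ := volume.restrict (Vg k H (2 * B + 1) R')) hiS hiA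
    refine e1.le.trans ?_
    refine add_le_add (e2.le.trans ?_) hZi
    refine add_le_add (e3.le.trans ?_) ?_
    · refine add_le_add hS ?_
      rw [integral_const_mul]
      exact mul_le_mul_of_nonneg_left h0' hH0.le
    · rw [integral_const_mul]
      exact mul_le_mul_of_nonneg_left h1' hH0.le
  -- divide by `H`
  have hexp1 : T ^ (1 - c) ≤ T ^ (1 - c') :=
    Real.rpow_le_rpow_of_exponent_le hT (by linarith)
  have h2c : (2 * T) ^ c' ≤ 2 * T ^ c' := by
    rw [Real.mul_rpow (by norm_num) hT0.le]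
    gcongr
    calc (2:ℝ) ^ c' ≤ 2 ^ (1:ℝ) :=
          Real.rpow_le_rpow_of_exponent_le (by norm_num) (by linarith)
      _ = 2 := Real.rpow_one 2
  have hexp2 : (2 * T) ^ c' * H ≤ 4 * T ^ (1 - c') := by
    calc (2 * T) ^ c' * H ≤ 2 * T ^ c' * (2 * T ^ θ₂) := by gcongr
      _ = 4 * T ^ (c' + θ₂) := by rw [Real.rpow_add hT0]; ring
      _ ≤ 4 * T ^ (1 - c') := by
          gcongr 4 * ?_
          exact Real.rpow_le_rpow_of_exponent_le hT (by linarith)
  have hexp3 : T ^ (4 * ((k:ℝ) + 1) ^ 2 * ε) * H ≤ 2 * T ^ (1 - c') := by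
    calc T ^ (4 * ((k:ℝ) + 1) ^ 2 * ε) * H ≤ T ^ (4 * ((k:ℝ) + 1) ^ 2 * ε) * (2 * T ^ θ₂) := by
          gcongr
      _ = 2 * T ^ (4 * ((k:ℝ) + 1) ^ 2 * ε + θ₂) := by rw [Real.rpow_add hT0]; ring
      _ ≤ 2 * T ^ (1 - c') := by
          gcongr 2 * ?_
          exact Real.rpow_le_rpow_of_exponent_le hT (by linarith)
  have hP : 0 ≤ (2 * H) ^ k := by positivity
  refine le_of_mul_le_mul_left (hI.trans ?_) hH0
  have e0 : (2 * (2 * H)) ^ (k + 1) = (2 * H) ^ k * (2 ^ (k + 2) * H) := by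
    rw [mul_pow 2 (2 * H) (k + 1), pow_succ (2 * H) k, pow_succ 2 (k + 1)]
    ring
  calc (2 * (2 * H)) ^ (k + 1) * (C₁ * T ^ (1 - c)) +
      H * ((2 * H) ^ k * (C₂ * (2 * T) ^ c' * H)) +
      H * ((2 * H) ^ k * (C₂ * (2 * T) ^ c' * H)) +
      (2 * H) ^ k * (H * (2 * H * Z)) =
      H * ((2 * H) ^ k * (2 ^ (k + 2) * C₁ * T ^ (1 - c) +
        2 * C₂ * ((2 * T) ^ c' * H) +
        2 * (NS * C₃) * (T ^ (4 * ((k:ℝ) + 1) ^ 2 * ε) * H))) := by
        rw [e0, hZ]; ring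
    _ ≤ H * ((2 * H) ^ k * (2 ^ (k + 2) * C₁ * T ^ (1 - c') +
        2 * C₂ * (4 * T ^ (1 - c')) + 2 * (NS * C₃) * (2 * T ^ (1 - c')))) := by gcongr
    _ = H * ((2 * H) ^ k * ((2 ^ (k + 2) * C₁ + 8 * C₂ + 4 * (NS * C₃)) *
        T ^ (1 - c'))) := by ring

end Pool.Agent.AAS
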