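import Pool.Agent.AAS.Defs


set_option autoImplicit false

namespace Pool.Agent.AAS

open Complex Finset MeasureTheory Filter Topology Set
open Pool.Agent.H26

lemma XXF_norm_chi {s : ℂ} (h : s.re = 1 / 2) : ‖chi s‖ = 1 := by
  have h1 : (1 - s) / 2 = (starRingEnd ℂ) (s / 2) := by
    apply Complex.ext
    · have e : ((1 - s) / 2).re = (1 - s.re) / 2 := by simp
      have e2 : ((starRingEnd ℂ) (s / 2)).re = s.re / 2 := by
        rw [Complex.conj_re]
        simp
      rw [e, e2, h]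
      norm_num
    · have e : ((1 - s) / 2).im = -s.im / 2 := by simp
      have e2 : ((starRingEnd ℂ) (s / 2)).im = -(s.im / 2) := by
        rw [Complex.conj_im]
        simp
      rw [e, e2]
      ring
  have hre : (s / 2).re = 1 / 4 := by
    have e2 : (s / 2).re = s.re / 2 := by simp
    rw [e2, h]
    norm_num
  have h2 : Gamma (s / 2) ≠ 0 := Complex.Gamma_ne_zero_of_re_pos (by rw [hre]; norm_num)
  have h3 : ‖Gamma (s / 2)‖ ≠ 0 := norm_ne_zero_iff.2 h2
  have h4 : (s - 1 / 2).re = 0 := by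
    have e : (s - 1 / 2).re = s.re - 1 / 2 := by simp
    rw [e, h]
    norm_num
  unfold chi
  rw [h1, Complex.Gamma_conj, norm_div, norm_mul, RCLike.norm_conj, norm_pi_cpow, h4,
    Real.rpow_zero, one_mul, div_self h3]

/-- C7 -/
theorem norm_XX (a b x : ℝ) : ‖XX a b x‖ = 1 := by
  unfold XX
  rw [norm_mul, XXF_norm_chi (by simp), XXF_norm_chi (by simp), one_mul]

lemma XXF_eq (a b x : ℝ) : XX a b x =
    Gd ({Sum.inr 0} : Finset (Ix 1)) (Sum.elim (fun _ => a) (fun _ => b)) 0 x := by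
  unfold Gd G XX
  simp
  ring

theorem continuous_XX (a b : ℝ) : Continuous (XX a b) := by
  have e : XX a b = fun x : ℝ =>
      Gd ({Sum.inr 0} : Finset (Ix 1)) (Sum.elim (fun _ => a) (fun _ => b)) 0 x := by
    funext x
    exact XXF_eq a b x
  rw [e]
  refine continuous_iff_continuousAt.2 fun x => ?_
  exact (CHI.hasDerivAt_Gd _ _ (by simp) x).continuousAt

theorem exists_XX_deriv (B : ℝ) (hB : 0 ≤ B) : ∃ C : ℝ, 1 ≤ C ∧ ∀ a b : ℝ, |a| ≤ B → |b| ≤ B →
    ∃ X' : ℝ → ℂ, Continuous X' ∧ (∀ x, HasDerivAt (XX a b) (X' x) x) ∧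
      ∀ x : ℝ, 1 ≤ x → ‖X' x‖ ≤ C / x := by
  obtain ⟨C, hC, N, g, h1, -, -, h4, h5⟩ := exists_Gd ({Sum.inr 0} : Finset (Ix 1)) (by simp)
  refine ⟨C * (1 + B) ^ N + 1, by
    have : 0 ≤ C * (1 + B) ^ N := by positivity
    linarith, fun a b ha hb => ?_⟩
  set γ : Ix 1 → ℝ := Sum.elim (fun _ => a) (fun _ => b) with hγ
  have hn : ‖γ‖ ≤ B := by
    refine (pi_norm_le_iff_of_nonneg hB).2 fun i => ?_
    rcases i with l | l
    · exact ha
    · exact hb
  refine ⟨fun x => g γ 0 x, ?_, fun x => ?_, fun x hx => ?_⟩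
  · have hc : Continuous fun x : ℝ => ((0 : ℂ), x) := by fun_prop
    exact (h4 γ).comp_continuous hc fun x => ⟨by simp, trivial⟩
  · have e : XX a b = fun x : ℝ => Gd ({Sum.inr 0} : Finset (Ix 1)) γ 0 x := by
      funext x
      exact XXF_eq a b x
    rw [e]
    exact h1 γ 0 x (by simp)
  · have h := (h5 γ 0 x (by norm_num) (by simp) hx).2
    have hx0 : 0 < x := by linarith
    have e : (∑ i, corner ({Sum.inr 0} : Finset (Ix 1)) i) * |(0 : ℂ).im| - 1 = -1 := by simp
    rw [e, Real.rpow_neg_one] at h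
    have e1 : |(0 : ℂ).re| = 0 := by simp
    rw [e1, add_zero, one_pow, mul_one] at h
    refine h.trans ?_
    rw [div_eq_mul_inv]
    have : C * (1 + ‖γ‖) ^ N ≤ C * (1 + B) ^ N + 1 := by
      have : C * (1 + ‖γ‖) ^ N ≤ C * (1 + B) ^ N := by gcongr
      linarith
    gcongr

end Pool.Agent.AAS
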