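import Pool.Agent.AAS.YKC
import Pool.Agent.AAS.YKB
import Pool.Agent.AAS.XXF
import Pool.Agent.AAS.BLK
import Pool.Agent.AAS.SHF


set_option autoImplicit false

namespace Pool.Agent.AAS

open Complex Finset MeasureTheory Filter Topology Set
open Pool.Agent.H26

private lemma cts_AI {a b : ℝ} (T : ℝ) (hT : 0 < T) (κ : Bool) (j : ℕ) {c : ℝ}
    (hc : 0 < c) : Continuous fun p : ℝ × ℝ => AI a b T κ j (c + p.1 * I) p.2 := by
  have hs0 : ∀ y : ℝ, (c : ℂ) + y * I ≠ 0 := by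
    intro y h
    have := congrArg Complex.re h
    simp at this
    exact hc.ne' this
  unfold AI
  refine Continuous.mul (Continuous.mul (Continuous.mul ?_ ?_) ?_) ?_
  · unfold KD
    refine Continuous.div (by fun_prop) (by fun_prop) fun p => hs0 p.1
  · exact continuous_Yk a b T hT κ (by linarith)
  · rw [continuous_iff_continuousAt]
    intro p
    have hw : (1 + 2 * ((c : ℂ) + p.1 * I) + I * (sw κ a b - sw κ b a) : ℂ) ≠ 1 := by
      intro h
      have := congrArg Complex.re h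
      simp at this
      exact hc.ne' this
    exact ContinuousAt.comp (f := fun p : ℝ × ℝ =>
      (1 + 2 * ((c : ℂ) + p.1 * I) + I * (sw κ a b - sw κ b a) : ℂ))
      (differentiableAt_riemannZeta hw).continuousAt (by fun_prop)
  · unfold DP cf
    refine continuous_finsetSum _ fun p hp => ?_
    refine Continuous.mul (Continuous.mul ?_ ?_) (by fun_prop)
    · exact Continuous.const_cpow (by fun_prop) (Or.inl (shf_pos1 hp))
    · exact Continuous.const_cpow (by fun_prop) (Or.inl (shf_pos2 hp))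

/-- the change of the scale -/
private lemma cts_scale (a b x : ℝ) {T U : ℝ} (hT : 0 < T) (hU : 0 < U) (κ : Bool) (s : ℂ) :
    ‖Yk a b T κ s x‖ ≤ ((T / U) ^ s.re + (T / U) ^ (-s.re)) * ‖Yk a b U κ s x‖ := by
  have hTU : 0 < T / U := div_pos hT hU
  have p1 : 0 < (T / U) ^ s.re := Real.rpow_pos_of_pos hTU _
  have p2 : 0 < (T / U) ^ (-s.re) := Real.rpow_pos_of_pos hTU _
  cases κ
  · have e : ∀ V : ℝ, Yk a b V false s x = (V : ℂ) ^ s * P1 a b s x := fun V => by simp [Yk]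
    rw [e, e, norm_mul, norm_mul, YKB_norm_cpow hT, YKB_norm_cpow hU]
    have e1 : T ^ s.re = (T / U) ^ s.re * U ^ s.re := by
      rw [← Real.mul_rpow hTU.le hU.le, div_mul_cancel₀ _ hU.ne']
    rw [e1, mul_assoc]
    have h0 : 0 ≤ U ^ s.re * ‖P1 a b s x‖ :=
      mul_nonneg (Real.rpow_nonneg hU.le _) (norm_nonneg _)
    nlinarith
  · have e : ∀ V : ℝ, Yk a b V true s x = (V : ℂ) ^ (-s) * (P1 a b (-s) x *
      (chi (1 / 2 + I * (x + a) - s) * chi (1 / 2 - I * (x + b) - s))) := fun V => by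
        simp [Yk, mul_assoc]
    rw [e, e, norm_mul ((T : ℂ) ^ (-s)), norm_mul ((U : ℂ) ^ (-s)), YKB_norm_cpow hT,
      YKB_norm_cpow hU, Complex.neg_re]
    have e1 : T ^ (-s.re) = (T / U) ^ (-s.re) * U ^ (-s.re) := by
      rw [← Real.mul_rpow hTU.le hU.le, div_mul_cancel₀ _ hU.ne']
    rw [e1, mul_assoc]
    have h0 : 0 ≤ U ^ (-s.re) * ‖P1 a b (-s) x *
      (chi (1 / 2 + I * (x + a) - s) * chi (1 / 2 - I * (x + b) - s))‖ :=
      mul_nonneg (Real.rpow_nonneg hU.le _) (norm_nonneg _)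
    nlinarith

/-- a bound of the integrand, locally uniform in `x` -/
private lemma cts_bound {a b : ℝ} (hab : a ≠ b) {T : ℝ} (hT : 0 < T) (κ : Bool) (j : ℕ)
    {c : ℝ} (hc : 0 < c) (hc1 : c ≤ 3 / 4) (R : ℝ) : ∃ K : ℝ, ∀ x y : ℝ, |x| ≤ R →
    ‖AI a b T κ j (c + y * I) x‖ ≤ K * Real.exp (-(y ^ 2 / 2)) := by
  set B : ℝ := max |a| |b| with hB
  have hB0 : 0 ≤ B := (abs_nonneg a).trans (le_max_left _ _)
  have ha : |a| ≤ B := le_max_left _ _
  have hb : |b| ≤ B := le_max_right _ _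
  obtain ⟨C, hC1, hC⟩ := exists_Yk_bound B hB0
  set U : ℝ := max 1 R with hU
  have hU1 : 1 ≤ U := le_max_left _ _
  have hUR : R ≤ U := le_max_right _ _
  have hU0 : 0 < U := by linarith
  have hD : a - b ≠ 0 := sub_ne_zero.2 hab
  set Q : ℝ := (T / U) ^ c + (T / U) ^ (-c) with hQ
  have hTU : 0 < T / U := div_pos hT hU0
  have hQ0 : 0 ≤ Q := add_nonneg (Real.rpow_nonneg hTU.le _) (Real.rpow_nonneg hTU.le _)
  set N : ℝ := ((blk j).card : ℝ) with hN
  have hN0 : 0 ≤ N := by positivity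
  set W : ℝ := 1 / |c| + 5 + 4 * B with hW
  have hW0 : 0 ≤ W := by positivity
  have hUc : 0 ≤ U ^ c := Real.rpow_nonneg hU0.le _
  set L : ℝ := 100 / |c| * (1 + 1 / (a - b) ^ 2) * (Q * (C * U ^ c)) * W * N with hL
  have hL0 : 0 ≤ L := by positivity
  refine ⟨L * ((Nat.factorial 11 : ℝ) * Real.exp 3), fun x y hx => ?_⟩
  have hcabs : |c| ≤ 1 := by rw [abs_of_pos hc]; linarith
  set s : ℂ := (c : ℂ) + y * I with hs
  have hre : s.re = c := by simp [hs]
  have hsn : ‖s‖ ≤ 1 + |y| := shf_norm_line hcabs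
  set n : ℝ := 2 + |y| with hn
  have hn0 : 0 ≤ n := by positivity
  have hsn' : 1 + ‖s‖ ≤ n := by rw [hn]; linarith
  have h1 : ‖KD (a - b) s‖ ≤ 100 / |c| * (1 + 1 / (a - b) ^ 2) * (n ^ 2 * Real.exp (-y ^ 2)) := by
    refine (norm_KD_le hD hc.ne' hcabs y).trans ?_
    have : 1 + y ^ 2 ≤ n ^ 2 := by
      rw [hn, ← sq_abs y]
      nlinarith [abs_nonneg y]
    gcongr
  have h2 : ‖Yk a b T κ s x‖ ≤ Q * (C * U ^ c) * n ^ 8 := by
    have e1 := cts_scale a b x hT hU0 κ s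
    rw [hre] at e1
    have e2 := hC U hU1 a b ha hb κ s (by rw [hre]; exact hc.le) (by rw [hre]; exact hc1) x
      (by linarith)
    rw [hre] at e2
    calc ‖Yk a b T κ s x‖ ≤ Q * ‖Yk a b U κ s x‖ := e1
      _ ≤ Q * (C * (1 + ‖s‖) ^ 8 * U ^ c) := by gcongr
      _ ≤ Q * (C * n ^ 8 * U ^ c) := by gcongr
      _ = _ := by ring
  have h3 : ‖riemannZeta (1 + 2 * s + I * (sw κ a b - sw κ b a))‖ ≤ W * n := by
    refine (shf_zeta_le κ ha hb hc.ne' (by linarith) y).trans ?_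
    gcongr
  have h4 : ‖DP (blk j) (sw κ a b) (sw κ b a) s x‖ ≤ N :=
    shf_DP_le j _ _ (by rw [hre]; linarith) x
  have h5 := shf_gauss 11 y
  unfold AI
  rw [norm_mul, norm_mul, norm_mul]
  calc ‖KD (a - b) s‖ * ‖Yk a b T κ s x‖ *
        ‖riemannZeta (1 + 2 * s + I * (sw κ a b - sw κ b a))‖ *
        ‖DP (blk j) (sw κ a b) (sw κ b a) s x‖
      ≤ (100 / |c| * (1 + 1 / (a - b) ^ 2) * (n ^ 2 * Real.exp (-y ^ 2))) *
        (Q * (C * U ^ c) * n ^ 8) * (W * n) * N := by gcongr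
    _ = L * (n ^ 11 * Real.exp (-y ^ 2)) := by rw [hL]; ring
    _ ≤ L * ((Nat.factorial 11 : ℝ) * Real.exp 3 * Real.exp (-(y ^ 2 / 2))) := by
        gcongr
    _ = _ := by ring

theorem continuous_LIb {a b : ℝ} (hab : a ≠ b) {T : ℝ} (hT : 0 < T) (κ : Bool) (j : ℕ)
    {c : ℝ} (hc : 0 < c) (hc1 : c ≤ 3 / 4) : Continuous (LIb a b T κ j c) := by
  have hcont := cts_AI (a := a) (b := b) T hT κ j hc
  rw [continuous_iff_continuousAt]
  intro x₀
  obtain ⟨K, hK⟩ := cts_bound hab hT κ j hc hc1 (|x₀| + 1)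
  obtain ⟨F, hF⟩ : ∃ F : ℝ → ℝ → ℂ, F = fun x y : ℝ => AI a b T κ j ((c : ℂ) + (y : ℂ) * I) x := ⟨_, rfl⟩
  have hF1 : ∀ x y, F x y = AI a b T κ j (c + y * I) x := fun x y => by rw [hF]
  have hcF : Continuous fun p : ℝ × ℝ => F p.2 p.1 := by
    rw [hF]; exact hcont
  have hKF : ∀ x y : ℝ, |x| ≤ |x₀| + 1 → ‖F x y‖ ≤ K * Real.exp (-(y ^ 2 / 2)) := by
    intro x y hx
    rw [hF1]
    exact hK x y hx
  have hcy : ∀ x : ℝ, Continuous (F x) := fun x =>
    hcF.comp (Continuous.prodMk continuous_id continuous_const)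
  have hcx : ∀ y : ℝ, Continuous fun x => F x y := fun y =>
    hcF.comp (Continuous.prodMk continuous_const continuous_id)
  have h1 : ∀ᶠ x in 𝓝 x₀, |x| ≤ |x₀| + 1 := by
    have : ∀ᶠ x in 𝓝 x₀, |x| < |x₀| + 1 :=
      continuous_abs.continuousAt.eventually (gt_mem_nhds (by linarith))
    exact this.mono fun x hx => hx.le
  have key : ContinuousAt (fun x => ∫ y : ℝ, F x y) x₀ :=
    continuousAt_of_dominated (bound := fun y : ℝ => K * Real.exp (-(y ^ 2 / 2)))
      (Eventually.of_forall fun x => (hcy x).aestronglyMeasurable)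
      (h1.mono fun x hx => Eventually.of_forall fun y => hKF x y hx)
      (shf_int K) (Eventually.of_forall fun y => (hcx y).continuousAt)
  have e : LIb a b T κ j c = fun x => (2 * Real.pi : ℂ)⁻¹ * ∫ y : ℝ, F x y := by
    funext x
    rw [LIb, LI, hF]
  rw [e]
  exact key.const_mul _

theorem continuous_pf (a b : ℝ) : Continuous (pf a b) := by
  rw [continuous_iff_continuousAt]
  intro x
  unfold pf
  have h1 : (1 / 2 + I * ((x : ℂ) + a)) ≠ 1 := by
    intro h
    have := congrArg Complex.re h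
    simp at this
  have h2 : (1 / 2 - I * ((x : ℂ) + b)) ≠ 1 := by
    intro h
    have := congrArg Complex.re h
    simp at this
  refine ContinuousAt.mul ?_ ?_
  · exact ContinuousAt.comp (f := fun x : ℝ => (1 / 2 + I * ((x : ℂ) + a)))
      (differentiableAt_riemannZeta h1).continuousAt (by fun_prop)
  · exact ContinuousAt.comp (f := fun x : ℝ => (1 / 2 - I * ((x : ℂ) + b)))
      (differentiableAt_riemannZeta h2).continuousAt (by fun_prop)

private lemma cts_DP (S : Finset (ℕ × ℕ)) (a b : ℝ) (s : ℂ) : Continuous (DP S a b s) := by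
  unfold DP
  refine continuous_finsetSum _ fun p _ => ?_
  fun_prop

private lemma cts_XX (a b : ℝ) : Continuous (XX a b) := by
  have hchi : ∀ f : ℝ → ℂ, Continuous f → (∀ p, (f p).re < 1) →
      Continuous fun p : ℝ => chi (f p) := by
    intro f hf h
    exact CHI.differentiableOn_chi.continuousOn.comp_continuous hf h
  unfold XX
  refine (hchi _ (by fun_prop) fun x => ?_).mul (hchi _ (by fun_prop) fun x => ?_)
  · have : (1 / 2 + I * ((x : ℂ) + a)).re = 1 / 2 := by simp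
    rw [this]; norm_num
  · have : (1 / 2 - I * ((x : ℂ) + b)).re = 1 / 2 := by simp
    rw [this]; norm_num

theorem continuous_lo (a b : ℝ) (J : ℕ) : Continuous (lo a b J) := by
  unfold lo
  exact (continuous_const.mul (cts_DP _ a b 0)).add
    ((cts_XX a b).mul (continuous_const.mul (cts_DP _ b a 0)))

end Pool.Agent.AAS
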