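import Pool.Agent.AAS.BLO
import Pool.Agent.AAS.SHF


set_option autoImplicit false

namespace Pool.Agent.AAS

open Complex Finset MeasureTheory Filter Topology Set
open Pool.Agent.H26

/-- the shifted blocks on the left line -/
lemma dec_left (B : ℝ) (hB : 0 ≤ B) : ∃ C : ℝ, 1 ≤ C ∧ ∀ T : ℝ, 1 ≤ T →
    ∀ a b : ℝ, |a| ≤ B → |b| ≤ B → a ≠ b → ∀ κ : Bool, ∀ j : ℕ,
    ∀ x : ℝ, T ^ (7 / 8 : ℝ) / 2 ≤ x → x ≤ 3 * T →
    ‖LIb a b T κ j (-(1 / 5)) x‖ ≤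
      C * (1 + 1 / (a - b) ^ 2) * T ^ (-(3 / 20) : ℝ) * ((blk j).card : ℝ) := by
  obtain ⟨C, hC1, hC⟩ := exists_Yk_left B hB
  set K : ℝ := 500 * C * (10 + 4 * B) * ((Nat.factorial 11 : ℝ) * Real.exp 3) * shfG with hK
  have hK0 : 0 ≤ K := by
    have := shfG_nonneg
    positivity
  refine ⟨1 + K, by linarith, fun T hT a b ha hb hab κ j x hx1 hx2 => ?_⟩
  set E : ℝ := 1 + 1 / (a - b) ^ 2 with hE
  have hE0 : 0 ≤ E := by positivity
  set N : ℝ := ((blk j).card : ℝ) with hN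
  have hN0 : 0 ≤ N := by positivity
  set t : ℝ := T ^ (-(3 / 20) : ℝ) with ht
  have ht0 : 0 ≤ t := Real.rpow_nonneg (by linarith) _
  have hD : a - b ≠ 0 := sub_ne_zero.2 hab
  have hmain : ‖LIb a b T κ j (-(1 / 5)) x‖ ≤
      (500 * C * (10 + 4 * B) * ((Nat.factorial 11 : ℝ) * Real.exp 3) * E * t * N) * shfG := by
    unfold LIb
    refine shf_LI_le (by positivity) fun y => ?_
    have hu : |(-(1 / 5) : ℝ)| ≤ 1 := by rw [abs_neg, abs_of_pos] <;> norm_num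
    have h1 := norm_KD_le hD (c := -(1 / 5)) (by norm_num) hu y
    have h3 := shf_zeta_le κ ha hb (c := -(1 / 5)) (by norm_num) (by norm_num) y
    have habs : |(-(1 / 5) : ℝ)| = 1 / 5 := by rw [abs_neg, abs_of_pos]; norm_num
    rw [habs] at h1 h3
    have hsn : ‖((-(1 / 5) : ℝ) : ℂ) + y * I‖ ≤ 1 + |y| := shf_norm_line hu
    set s : ℂ := ((-(1 / 5) : ℝ) : ℂ) + y * I with hs
    have hre : s.re = -(1 / 5) := by simp [hs]
    have h2 := hC T hT a b ha hb κ s hre x hx1 hx2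
    have h4 : ‖DP (blk j) (sw κ a b) (sw κ b a) s x‖ ≤ N :=
      shf_DP_le j _ _ (by rw [hre]; norm_num) x
    set n : ℝ := 1 + ‖s‖ with hn
    have hn1 : 1 ≤ n := by have := norm_nonneg s; linarith
    have hnv : n ≤ 2 + |y| := by linarith
    have h5 : 1 + y ^ 2 ≤ (2 + |y|) ^ 2 := by
      have := sq_abs y
      nlinarith [abs_nonneg y]
    unfold AI
    rw [norm_mul, norm_mul, norm_mul]
    calc ‖KD (a - b) s‖ * ‖Yk a b T κ s x‖ *
          ‖riemannZeta (1 + 2 * s + I * (sw κ a b - sw κ b a))‖ *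
          ‖DP (blk j) (sw κ a b) (sw κ b a) s x‖
        ≤ (100 / (1 / 5) * E * ((1 + y ^ 2) * Real.exp (-y ^ 2))) * (C * n ^ 8 * t) *
          ((1 / (1 / 5) + 5 + 4 * B) * n) * N := by gcongr
      _ = (500 * C * (10 + 4 * B) * E * t * N) * (n ^ 9 * (1 + y ^ 2) * Real.exp (-y ^ 2)) := by
          ring
      _ ≤ (500 * C * (10 + 4 * B) * E * t * N) *
          ((2 + |y|) ^ 9 * (2 + |y|) ^ 2 * Real.exp (-y ^ 2)) := by gcongr
      _ = (500 * C * (10 + 4 * B) * E * t * N) * ((2 + |y|) ^ 11 * Real.exp (-y ^ 2)) := by ring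
      _ ≤ (500 * C * (10 + 4 * B) * E * t * N) *
          ((Nat.factorial 11 : ℝ) * Real.exp 3 * Real.exp (-(y ^ 2 / 2))) := by
          have := shf_gauss 11 y
          gcongr
      _ = _ := by ring
  refine hmain.trans ?_
  have : (500 * C * (10 + 4 * B) * ((Nat.factorial 11 : ℝ) * Real.exp 3) * E * t * N) * shfG =
      K * E * t * N := by rw [hK]; ring
  rw [this]
  have : 0 ≤ E * t * N := by positivity
  nlinarith

lemma dec_card (J : ℕ) : ∑ j ∈ Finset.range J, ((blk j).card : ℝ) ≤ 2 * ((2:ℝ) ^ J * 2 ^ J) := by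
  have h1 : ∀ j ∈ Finset.range J, ((blk j).card : ℝ) ≤ (J + 1) * 2 ^ (j + 1) := by
    intro j hj
    refine (card_blk_le j).trans ?_
    have : (j : ℝ) + 1 ≤ J := by exact_mod_cast Finset.mem_range.1 hj
    have h2 : (j : ℝ) + 2 ≤ J + 1 := by linarith
    exact mul_le_mul_of_nonneg_right h2 (by positivity)
  refine (Finset.sum_le_sum h1).trans ?_
  rw [← Finset.mul_sum]
  have h2 : ∑ j ∈ Finset.range J, (2:ℝ) ^ (j + 1) ≤ 2 * 2 ^ J := by
    have : ∑ j ∈ Finset.range J, (2:ℝ) ^ (j + 1) = 2 * ∑ j ∈ Finset.range J, (2:ℝ) ^ j := by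
      rw [Finset.mul_sum]
      exact Finset.sum_congr rfl fun j _ => by ring
    rw [this, geom_sum_eq (by norm_num)]
    have : (0:ℝ) ≤ 2 ^ J := by positivity
    norm_num
  have h3 : (J : ℝ) + 1 ≤ 2 ^ J := by exact_mod_cast Nat.lt_two_pow_self (n := J)
  calc ((J : ℝ) + 1) * ∑ j ∈ Finset.range J, (2:ℝ) ^ (j + 1) ≤ 2 ^ J * (2 * 2 ^ J) := by
        gcongr
    _ = _ := by ring

/-- D4: the decomposition of a pair -/
theorem exists_pf_decomp (B ε : ℝ) (hB : 0 ≤ B) (hε : 0 < ε) (hε1 : ε ≤ 1 / 100) :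
    ∃ C : ℝ, 1 ≤ C ∧ ∀ T : ℝ, 1 ≤ T → ∀ a b : ℝ, |a| ≤ B → |b| ≤ B → a ≠ b →
    ∀ J J₁ J₂ : ℕ, J ≤ J₁ → J₁ ≤ J₂ → (2:ℝ) ^ J ≤ T ^ (1 / 40 : ℝ) → T ^ (8:ℝ) ≤ 2 ^ J₂ →
    ∀ x : ℝ, T ^ (7 / 8 : ℝ) / 2 ≤ x → x ≤ 3 * T →
    ‖pf a b x - lo a b J x - ∑ κ : Bool, (∑ j ∈ Finset.Ico J J₁, LIb a b T κ j ε x +
      ∑ j ∈ Finset.Ico J₁ J₂, LIb a b T κ j (3 / 4) x)‖ ≤
      C * (1 + 1 / (a - b) ^ 2) * T ^ (-(1 / 10) : ℝ) := by
  obtain ⟨C1, hC11, hC1⟩ := exists_pf_blocks B hB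
  obtain ⟨C2, hC21, hC2⟩ := dec_left B hB
  refine ⟨C1 + 4 * C2, by linarith, fun T hT a b ha hb hab J J₁ J₂ hJ1 hJ2 hJ hJT x hx1 hx2 => ?_⟩
  have hT0 : 0 < T := by linarith
  have hx0 : 0 ≤ x := (div_nonneg (Real.rpow_nonneg hT0.le _) (by norm_num)).trans hx1
  have hxa : |x| ≤ 3 * T := by rwa [abs_of_nonneg hx0]
  set E : ℝ := 1 + 1 / (a - b) ^ 2 with hE
  have hE0 : 0 ≤ E := by positivity
  -- the algebra
  have key : pf a b x - lo a b J x - ∑ κ : Bool, (∑ j ∈ Finset.Ico J J₁, LIb a b T κ j ε x +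
      ∑ j ∈ Finset.Ico J₁ J₂, LIb a b T κ j (3 / 4) x) =
      (pf a b x - ∑ κ : Bool, ∑ j ∈ Finset.range J₂, LIb a b T κ j (3 / 4) x) +
      ∑ κ : Bool, ∑ j ∈ Finset.range J, LIb a b T κ j (-(1 / 5)) x := by
    have e1 : ∀ κ : Bool, ∑ j ∈ Finset.range J₂, LIb a b T κ j (3 / 4) x =
        ∑ j ∈ Finset.range J, LIb a b T κ j (3 / 4) x +
        ∑ j ∈ Finset.Ico J J₁, LIb a b T κ j ε x +
        ∑ j ∈ Finset.Ico J₁ J₂, LIb a b T κ j (3 / 4) x := by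
      intro κ
      rw [← Finset.sum_range_add_sum_Ico _ (hJ1.trans hJ2),
        ← Finset.sum_Ico_consecutive _ hJ1 hJ2, add_assoc]
      congr 2
      exact Finset.sum_congr rfl fun j _ => LIb_shift hab hT0 κ j x hε (by linarith)
    have e2 : ∑ j ∈ Finset.range J, LIb a b T false j (3 / 4) x =
        riemannZeta (1 + I * (a - b)) * DP (low J) a b 0 x +
        ∑ j ∈ Finset.range J, LIb a b T false j (-(1 / 5)) x := by
      rw [DP_low, Finset.mul_sum, ← Finset.sum_add_distrib]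
      refine Finset.sum_congr rfl fun j _ => ?_
      rw [LIb_res hab hT0]
      simp
    have e3 : ∑ j ∈ Finset.range J, LIb a b T true j (3 / 4) x =
        XX a b x * (riemannZeta (1 + I * (b - a)) * DP (low J) b a 0 x) +
        ∑ j ∈ Finset.range J, LIb a b T true j (-(1 / 5)) x := by
      rw [DP_low, Finset.mul_sum, Finset.mul_sum, ← Finset.sum_add_distrib]
      refine Finset.sum_congr rfl fun j _ => ?_
      rw [LIb_res hab hT0]
      simp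
    simp only [Fintype.sum_bool]
    rw [e1 true, e1 false, e2, e3]
    unfold lo
    ring
  rw [key]
  refine (norm_add_le _ _).trans ?_
  -- first part
  have p1 : ‖pf a b x - ∑ κ : Bool, ∑ j ∈ Finset.range J₂, LIb a b T κ j (3 / 4) x‖ ≤
      C1 * E * T ^ (-(1 / 10) : ℝ) := by
    refine (hC1 T hT a b ha hb hab x hxa J₂).trans ?_
    have h1 : (2:ℝ) ^ (-(J₂ : ℝ) / 8) ≤ T ^ (-1 : ℝ) := by
      have e1 : (2:ℝ) ^ (-(J₂ : ℝ) / 8) = ((2:ℝ) ^ J₂) ^ (-(1 / 8) : ℝ) := by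
        rw [← Real.rpow_natCast, ← Real.rpow_mul (by norm_num)]
        congr 1
        ring
      have e2 : T ^ (-1 : ℝ) = (T ^ (8:ℝ)) ^ (-(1 / 8) : ℝ) := by
        rw [← Real.rpow_mul hT0.le]
        norm_num
      rw [e1, e2]
      exact Real.rpow_le_rpow_of_nonpos (Real.rpow_pos_of_pos hT0 _) hJT (by norm_num)
    have h2 : T ^ (3 / 4 : ℝ) * 2 ^ (-(J₂ : ℝ) / 8) ≤ T ^ (-(1 / 10) : ℝ) := by
      calc T ^ (3 / 4 : ℝ) * 2 ^ (-(J₂ : ℝ) / 8) ≤ T ^ (3 / 4 : ℝ) * T ^ (-1 : ℝ) := by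
            gcongr
        _ = T ^ (-(1 / 4) : ℝ) := by
            rw [← Real.rpow_add hT0]
            norm_num
        _ ≤ _ := Real.rpow_le_rpow_of_exponent_le hT (by norm_num)
    gcongr
  have p2 : ‖∑ κ : Bool, ∑ j ∈ Finset.range J, LIb a b T κ j (-(1 / 5)) x‖ ≤
      4 * C2 * E * T ^ (-(1 / 10) : ℝ) := by
    have q1 : ∀ κ : Bool, ‖∑ j ∈ Finset.range J, LIb a b T κ j (-(1 / 5)) x‖ ≤
        2 * C2 * E * T ^ (-(1 / 10) : ℝ) := by
      intro κ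
      refine (norm_sum_le _ _).trans ?_
      calc ∑ j ∈ Finset.range J, ‖LIb a b T κ j (-(1 / 5)) x‖
          ≤ ∑ j ∈ Finset.range J, C2 * E * T ^ (-(3 / 20) : ℝ) * ((blk j).card : ℝ) :=
            Finset.sum_le_sum fun j _ => hC2 T hT a b ha hb hab κ j x hx1 hx2
        _ = C2 * E * T ^ (-(3 / 20) : ℝ) * ∑ j ∈ Finset.range J, ((blk j).card : ℝ) := by
            rw [Finset.mul_sum]
        _ ≤ C2 * E * T ^ (-(3 / 20) : ℝ) * (2 * (T ^ (1 / 40 : ℝ) * T ^ (1 / 40 : ℝ))) := by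
            have := (dec_card J).trans (show 2 * ((2:ℝ) ^ J * 2 ^ J) ≤
              2 * (T ^ (1 / 40 : ℝ) * T ^ (1 / 40 : ℝ)) by gcongr)
            gcongr
        _ = 2 * C2 * E * (T ^ (-(3 / 20) : ℝ) * (T ^ (1 / 40 : ℝ) * T ^ (1 / 40 : ℝ))) := by ring
        _ = _ := by
            rw [← Real.rpow_add hT0, ← Real.rpow_add hT0]
            norm_num
    rw [Fintype.sum_bool]
    refine (norm_add_le _ _).trans ?_
    have := q1 true
    have := q1 false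
    linarith
  calc _ ≤ C1 * E * T ^ (-(1 / 10) : ℝ) + 4 * C2 * E * T ^ (-(1 / 10) : ℝ) := add_le_add p1 p2
    _ = _ := by ring

end Pool.Agent.AAS
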