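import Pool.Agent.AAS.L2K
import Pool.Agent.AAS.DEC
import Pool.Agent.AAS.CTS


set_option autoImplicit false

namespace Pool.Agent.AAS

open Complex Finset MeasureTheory Filter Topology Set
open Pool.Agent.H26

private lemma l2f_lo (a b x : ℝ) : lo a b 0 x = 0 := by
  have h : low 0 = ∅ := by
    unfold low
    rw [Finset.filter_eq_empty_iff]
    rintro p _ ⟨_, h1, h2⟩
    rw [pow_zero] at h2
    omega
  unfold lo DP
  rw [h]
  simp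

private lemma l2f_low {T ε C : ℝ} (hT : 1 ≤ T) (hε : 0 < ε) (hC : 0 ≤ C) {j : ℕ} {Q : ℝ}
    (hQ : (j : ℝ) + 1 ≤ Q) (hj : (2:ℝ) ^ j ≤ T) :
    C * (T ^ ε * 2 ^ (-ε * j) * ((j : ℝ) + 1) * √(T + 2 ^ j)) ≤
      2 * C * Q * (T ^ ε * T ^ (1 / 2 : ℝ)) := by
  have hT0 : 0 < T := by linarith
  have h2j : (0:ℝ) < 2 ^ j := by positivity
  have hj0 : (0:ℝ) ≤ j := Nat.cast_nonneg j
  have hs : √(T + 2 ^ j) ≤ 2 * T ^ (1 / 2 : ℝ) := by
    rw [← Real.sqrt_eq_rpow]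
    apply Real.sqrt_le_iff.mpr
    refine ⟨by positivity, ?_⟩
    rw [mul_pow, Real.sq_sqrt hT0.le]
    linarith
  have e6 : (2:ℝ) ^ (-ε * (j:ℝ)) ≤ 1 := by
    apply Real.rpow_le_one_of_one_le_of_nonpos (by norm_num)
    nlinarith
  have hTe : 0 < T ^ ε := Real.rpow_pos_of_pos hT0 _
  have hT2 : 0 < T ^ (1 / 2 : ℝ) := Real.rpow_pos_of_pos hT0 _
  have hp : (0:ℝ) < (2:ℝ) ^ (-ε * (j:ℝ)) := Real.rpow_pos_of_pos (by norm_num) _
  have hQ0 : 0 < Q := by linarith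
  calc C * (T ^ ε * 2 ^ (-ε * j) * ((j : ℝ) + 1) * √(T + 2 ^ j))
      ≤ C * (T ^ ε * 1 * Q * (2 * T ^ (1 / 2 : ℝ))) := by gcongr
    _ = _ := by ring

private lemma l2f_high {T C : ℝ} (hT : 1 ≤ T) (hC : 0 ≤ C) {j : ℕ} {Q : ℝ}
    (hQ : (j : ℝ) + 1 ≤ Q) (hj : T ≤ (2:ℝ) ^ j) :
    C * (T ^ (3 / 4 : ℝ) * 2 ^ (-(3 / 4 : ℝ) * j) * ((j : ℝ) + 1) * √(T + 2 ^ j)) ≤
      2 * C * Q * T ^ (1 / 2 : ℝ) := by
  have hT0 : 0 < T := by linarith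
  have h2j : (0:ℝ) < 2 ^ j := by positivity
  have hj0 : (0:ℝ) ≤ j := Nat.cast_nonneg j
  set q := ((2:ℝ) ^ j) ^ (1 / 2 : ℝ) with hq
  have hq0 : 0 < q := Real.rpow_pos_of_pos h2j _
  have hs : √(T + 2 ^ j) ≤ 2 * q := by
    rw [hq, ← Real.sqrt_eq_rpow]
    apply Real.sqrt_le_iff.mpr
    refine ⟨by positivity, ?_⟩
    rw [mul_pow, Real.sq_sqrt h2j.le]
    linarith
  have e4 : (2:ℝ) ^ (-(3 / 4 : ℝ) * j) * q = ((2:ℝ) ^ j) ^ (-(1 / 4) : ℝ) := by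
    rw [hq, ← Real.rpow_natCast, ← Real.rpow_mul (by norm_num), ← Real.rpow_mul (by norm_num),
      ← Real.rpow_add (by norm_num)]
    congr 1; ring
  have e7 : ((2:ℝ) ^ j) ^ (-(1 / 4) : ℝ) ≤ T ^ (-(1 / 4) : ℝ) :=
    Real.rpow_le_rpow_of_nonpos hT0 hj (by norm_num)
  have e9 : T ^ (3 / 4 : ℝ) * T ^ (-(1 / 4) : ℝ) = T ^ (1 / 2 : ℝ) := by
    rw [← Real.rpow_add hT0]; norm_num
  have hT34 : (0:ℝ) < T ^ (3 / 4 : ℝ) := Real.rpow_pos_of_pos hT0 _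
  have hp : (0:ℝ) < (2:ℝ) ^ (-(3 / 4 : ℝ) * j) := Real.rpow_pos_of_pos (by norm_num) _
  have hQ0 : 0 < Q := by linarith
  calc C * (T ^ (3 / 4 : ℝ) * 2 ^ (-(3 / 4 : ℝ) * j) * ((j : ℝ) + 1) * √(T + 2 ^ j))
      ≤ C * (T ^ (3 / 4 : ℝ) * 2 ^ (-(3 / 4 : ℝ) * j) * Q * (2 * q)) := by gcongr
    _ = 2 * C * Q * (T ^ (3 / 4 : ℝ) * (2 ^ (-(3 / 4 : ℝ) * j) * q)) := by ring
    _ ≤ 2 * C * Q * (T ^ (3 / 4 : ℝ) * T ^ (-(1 / 4) : ℝ)) := by rw [e4]; gcongr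
    _ = _ := by rw [e9]

theorem exists_l2_pf (B ε : ℝ) (hB : 0 ≤ B) (hε : 0 < ε) (hε1 : ε ≤ 1 / 100) :
    ∃ C : ℝ, 1 ≤ C ∧ ∀ T : ℝ, 1 ≤ T → ∀ a b : ℝ, |a| ≤ B → |b| ≤ B → a ≠ b →
    ∫ x in (T ^ (7 / 8 : ℝ) / 2)..(3 * T), ‖pf a b x‖ ^ 2 ≤
      C * (1 + 1 / (a - b) ^ 2) ^ 2 * T ^ (1 + 6 * ε) := by
  obtain ⟨C₁, hC₁, h₁⟩ := exists_l2_block B ε hB hε (by linarith)
  obtain ⟨C₂, hC₂, h₂⟩ := exists_l2_block B (3 / 4) hB (by norm_num) le_rfl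
  obtain ⟨C₃, hC₃, h₃⟩ := exists_pf_decomp B ε hB hε hε1
  set N : ℝ := 1 / ε / Real.log 2 + 1 with hN
  have hlog2 : 0 < Real.log 2 := Real.log_pos (by norm_num)
  have hN1 : 1 ≤ N := by
    have : 0 ≤ 1 / ε / Real.log 2 := by positivity
    linarith
  set K : ℝ := 2 * (N * (2 * C₁ * N) + 8 * N * (2 * C₂ * (8 * N))) + 2 * C₃ with hK
  have hK1 : 1 ≤ K := by
    have h1 : 0 ≤ N * (2 * C₁ * N) := by positivity
    have h2 : 0 ≤ 8 * N * (2 * C₂ * (8 * N)) := by positivity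
    linarith
  refine ⟨K ^ 2, one_le_pow₀ hK1, ?_⟩
  intro T hT a b ha hb hab
  have hT0 : 0 < T := by linarith
  set D : ℝ := 1 + 1 / (a - b) ^ 2 with hD
  have hD1 : 1 ≤ D := by
    have : 0 ≤ 1 / (a - b) ^ 2 := by positivity
    linarith
  have hT78 : T ^ (7 / 8 : ℝ) ≤ T := by
    conv_rhs => rw [← Real.rpow_one T]
    exact Real.rpow_le_rpow_of_exponent_le hT (by norm_num)
  have hT78' : 0 < T ^ (7 / 8 : ℝ) := Real.rpow_pos_of_pos hT0 _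
  set A₀ : ℝ := T ^ (7 / 8 : ℝ) / 2 with hA₀
  have hAB : A₀ ≤ 3 * T := by rw [hA₀]; linarith
  obtain ⟨n, hn1, hn2⟩ := exists_nat_pow_near hT (by norm_num : (1:ℝ) < 2)
  set J₁ := n + 1 with hJ₁
  set J₂ := 8 * J₁ with hJ₂
  have hJ12 : J₁ ≤ J₂ := by omega
  have hT8 : T ^ (8:ℝ) ≤ 2 ^ J₂ := by
    have h8 : T ^ (8:ℝ) = T ^ 8 := by exact_mod_cast Real.rpow_natCast T 8
    rw [h8, hJ₂, mul_comm, pow_mul]
    exact pow_le_pow_left₀ hT0.le hn2.le 8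
  have hTe : 1 ≤ T ^ ε := Real.one_le_rpow hT hε.le
  have hnT : (J₁ : ℝ) ≤ N * T ^ ε := by
    have h1 : (n:ℝ) * Real.log 2 ≤ Real.log T := by
      rw [← Real.log_pow]
      exact Real.log_le_log (by positivity) hn1
    have h2 : Real.log T ≤ T ^ ε / ε := Real.log_le_rpow_div hT0.le hε
    have h3 : (n:ℝ) ≤ 1 / ε / Real.log 2 * T ^ ε := by
      have : (n:ℝ) ≤ T ^ ε / ε / Real.log 2 := by
        rw [le_div_iff₀ hlog2]; linarith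
      calc (n:ℝ) ≤ T ^ ε / ε / Real.log 2 := this
        _ = _ := by ring
    rw [hJ₁, hN]; push_cast; nlinarith
  -- the main bound for a block
  set W : ℝ := T ^ ε * (T ^ ε * T ^ (1 / 2 : ℝ)) with hW
  have hT2 : 0 < T ^ (1 / 2 : ℝ) := Real.rpow_pos_of_pos hT0 _
  have hW0 : 0 < W := by positivity
  have hlow : ∀ κ : Bool, ∀ j ∈ Finset.Ico 0 J₁,
      L2B A₀ (3 * T) (LIb a b T κ j ε) (2 * C₁ * N * D * W) := by
    intro κ j hj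
    rw [Finset.mem_Ico] at hj
    refine L2B.mono (h₁ T hT a b ha hb hab κ j) ?_
    have hjT : (2:ℝ) ^ j ≤ T := le_trans (pow_le_pow_right₀ (by norm_num) (by omega)) hn1
    have hjQ : (j : ℝ) + 1 ≤ N * T ^ ε := by
      have : (j : ℝ) + 1 ≤ J₁ := by exact_mod_cast hj.2
      linarith
    have := l2f_low (C := C₁ * D) hT hε (by positivity) hjQ hjT
    calc _ ≤ _ := this
      _ = _ := by rw [hW]; ring
  have hhigh : ∀ κ : Bool, ∀ j ∈ Finset.Ico J₁ J₂,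
      L2B A₀ (3 * T) (LIb a b T κ j (3 / 4)) (2 * C₂ * (8 * N) * D * W) := by
    intro κ j hj
    rw [Finset.mem_Ico] at hj
    refine L2B.mono (h₂ T hT a b ha hb hab κ j) ?_
    have hjT : T ≤ (2:ℝ) ^ j := le_trans hn2.le (pow_le_pow_right₀ (by norm_num) hj.1)
    have hjQ : (j : ℝ) + 1 ≤ 8 * (N * T ^ ε) := by
      have h1 : (j : ℝ) + 1 ≤ J₂ := by exact_mod_cast hj.2
      have h2 : (J₂ : ℝ) = 8 * J₁ := by rw [hJ₂]; push_cast; ring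
      linarith
    have := l2f_high (C := C₂ * D) hT (by positivity) hjQ hjT
    calc _ ≤ _ := this
      _ = 2 * C₂ * (8 * N) * D * (1 * (T ^ ε * T ^ (1 / 2 : ℝ))) := by ring
      _ ≤ _ := by rw [hW]; gcongr
  have clow : ∀ κ : Bool, ∀ j ∈ Finset.Ico 0 J₁, Continuous (LIb a b T κ j ε) := fun κ j _ =>
    continuous_LIb hab hT0 κ j hε (by linarith)
  have chigh : ∀ κ : Bool, ∀ j ∈ Finset.Ico J₁ J₂, Continuous (LIb a b T κ j (3 / 4)) :=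
    fun κ j _ => continuous_LIb hab hT0 κ j (by norm_num) le_rfl
  have cS1 : ∀ κ : Bool, Continuous (fun x => ∑ j ∈ Finset.Ico 0 J₁, LIb a b T κ j ε x) :=
    fun κ => continuous_finsetSum _ (clow κ)
  have cS2 : ∀ κ : Bool, Continuous (fun x => ∑ j ∈ Finset.Ico J₁ J₂, LIb a b T κ j (3 / 4) x) :=
    fun κ => continuous_finsetSum _ (chigh κ)
  have b1 : ∀ κ : Bool, L2B A₀ (3 * T) (fun x => ∑ j ∈ Finset.Ico 0 J₁, LIb a b T κ j ε x +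
      ∑ j ∈ Finset.Ico J₁ J₂, LIb a b T κ j (3 / 4) x)
      (∑ j ∈ Finset.Ico 0 J₁, 2 * C₁ * N * D * W +
        ∑ j ∈ Finset.Ico J₁ J₂, 2 * C₂ * (8 * N) * D * W) :=
    fun κ => L2B.add hAB (cS1 κ) (cS2 κ) (L2B.sum hAB _ (clow κ) (hlow κ))
      (L2B.sum hAB _ (chigh κ) (hhigh κ))
  have cb : ∀ κ : Bool, Continuous (fun x => ∑ j ∈ Finset.Ico 0 J₁, LIb a b T κ j ε x +
      ∑ j ∈ Finset.Ico J₁ J₂, LIb a b T κ j (3 / 4) x) := fun κ => (cS1 κ).add (cS2 κ)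
  have b2 := L2B.sum hAB (Finset.univ : Finset Bool) (fun κ _ => cb κ) (fun κ _ => b1 κ)
  have cS : Continuous (fun x => ∑ κ : Bool, (∑ j ∈ Finset.Ico 0 J₁, LIb a b T κ j ε x +
      ∑ j ∈ Finset.Ico J₁ J₂, LIb a b T κ j (3 / 4) x)) :=
    continuous_finsetSum _ (fun κ _ => cb κ)
  -- the error
  set R : ℝ → ℂ := fun x => pf a b x - lo a b 0 x - ∑ κ : Bool,
      (∑ j ∈ Finset.Ico 0 J₁, LIb a b T κ j ε x +
      ∑ j ∈ Finset.Ico J₁ J₂, LIb a b T κ j (3 / 4) x) with hR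
  have cR : Continuous R := ((continuous_pf a b).sub (continuous_lo a b 0)).sub cS
  have hJ0 : (2:ℝ) ^ 0 ≤ T ^ (1 / 40 : ℝ) := by
    rw [pow_zero]
    exact Real.one_le_rpow hT (by norm_num)
  have hRb : ∀ x ∈ Icc A₀ (3 * T), ‖R x‖ ≤ C₃ * D * T ^ (-(1 / 10) : ℝ) := by
    intro x hx
    exact h₃ T hT a b ha hb hab 0 J₁ J₂ (Nat.zero_le _) hJ12 hJ0 hT8 x hx.1 hx.2
  have bR : L2B A₀ (3 * T) R (2 * C₃ * D * T ^ (1 / 2 : ℝ)) := by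
    refine ⟨by positivity, ?_⟩
    have hle1 : T ^ (-(1 / 10) : ℝ) ≤ 1 := Real.rpow_le_one_of_one_le_of_nonpos hT (by norm_num)
    have hTp : 0 < T ^ (-(1 / 10) : ℝ) := Real.rpow_pos_of_pos hT0 _
    calc ∫ x in A₀..(3 * T), ‖R x‖ ^ 2 ≤ ∫ _x in A₀..(3 * T), (C₃ * D) ^ 2 := by
          refine intervalIntegral.integral_mono_on hAB ((cR.norm.pow 2).intervalIntegrable _ _)
            intervalIntegrable_const fun x hx => ?_
          refine pow_le_pow_left₀ (norm_nonneg _) ((hRb x hx).trans ?_) 2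
          calc C₃ * D * T ^ (-(1 / 10) : ℝ) ≤ C₃ * D * 1 := by gcongr
            _ = _ := mul_one _
      _ = (3 * T - A₀) * (C₃ * D) ^ 2 := by
          rw [intervalIntegral.integral_const, smul_eq_mul]
      _ ≤ (4 * T) * (C₃ * D) ^ 2 := by
          gcongr
          have : 0 < A₀ := by rw [hA₀]; positivity
          linarith
      _ = _ := by
          have e : T = T ^ (1 / 2 : ℝ) * T ^ (1 / 2 : ℝ) := by
            rw [← Real.rpow_add hT0]; norm_num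
          calc (4 * T) * (C₃ * D) ^ 2 = 4 * (C₃ * D) ^ 2 * T := by ring
            _ = 4 * (C₃ * D) ^ 2 * (T ^ (1 / 2 : ℝ) * T ^ (1 / 2 : ℝ)) := by rw [← e]
            _ = _ := by ring
  have b3 := L2B.add hAB cS cR b2 bR
  have hfun : (fun x => pf a b x) = fun x => (∑ κ : Bool,
      (∑ j ∈ Finset.Ico 0 J₁, LIb a b T κ j ε x +
      ∑ j ∈ Finset.Ico J₁ J₂, LIb a b T κ j (3 / 4) x)) + R x := by
    funext x
    simp only [hR, l2f_lo]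
    ring
  rw [← hfun] at b3
  have card1 : ((Finset.Ico 0 J₁).card : ℝ) ≤ J₁ := by
    rw [Nat.card_Ico]; exact_mod_cast Nat.sub_le _ _
  have card2 : ((Finset.Ico J₁ J₂).card : ℝ) ≤ 8 * J₁ := by
    rw [Nat.card_Ico]
    have : J₂ - J₁ ≤ 8 * J₁ := by omega
    exact_mod_cast this
  have b4 := L2B.mono b3 (N := K * D * T ^ (1 / 2 + 3 * ε)) (by
    set V : ℝ := T ^ (1 / 2 + 3 * ε) with hV
    have hV0 : 0 < V := Real.rpow_pos_of_pos hT0 _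
    have hWV : T ^ ε * W = V := by
      rw [hW, hV, ← Real.rpow_add hT0, ← Real.rpow_add hT0, ← Real.rpow_add hT0]
      congr 1; ring
    have hRV : T ^ (1 / 2 : ℝ) ≤ V :=
      Real.rpow_le_rpow_of_exponent_le hT (by linarith)
    simp only [Finset.sum_const, nsmul_eq_mul, Finset.card_univ, Fintype.card_bool]
    have m1 : ((Finset.Ico 0 J₁).card : ℝ) * (2 * C₁ * N * D * W) ≤ N * (2 * C₁ * N) * D * V := by
      calc ((Finset.Ico 0 J₁).card : ℝ) * (2 * C₁ * N * D * W)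
          ≤ (N * T ^ ε) * (2 * C₁ * N * D * W) := by
            gcongr; exact card1.trans hnT
        _ = N * (2 * C₁ * N) * D * (T ^ ε * W) := by ring
        _ = _ := by rw [hWV]
    have m2 : ((Finset.Ico J₁ J₂).card : ℝ) * (2 * C₂ * (8 * N) * D * W) ≤
        8 * N * (2 * C₂ * (8 * N)) * D * V := by
      calc ((Finset.Ico J₁ J₂).card : ℝ) * (2 * C₂ * (8 * N) * D * W)
          ≤ (8 * (N * T ^ ε)) * (2 * C₂ * (8 * N) * D * W) := by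
            gcongr; exact card2.trans (by linarith)
        _ = 8 * N * (2 * C₂ * (8 * N)) * D * (T ^ ε * W) := by ring
        _ = _ := by rw [hWV]
    have m3 : 2 * C₃ * D * T ^ (1 / 2 : ℝ) ≤ 2 * C₃ * D * V := by gcongr
    push_cast
    rw [hK]
    linear_combination 2 * m1 + 2 * m2 + m3)
  calc ∫ x in A₀..(3 * T), ‖pf a b x‖ ^ 2 ≤ (K * D * T ^ (1 / 2 + 3 * ε)) ^ 2 := b4.2
    _ = K ^ 2 * D ^ 2 * T ^ (1 + 6 * ε) := by
        have e : T ^ (1 + 6 * ε) = T ^ (1 / 2 + 3 * ε) * T ^ (1 / 2 + 3 * ε) := by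
          rw [← Real.rpow_add hT0]; congr 1; ring
        rw [e]; ring

end Pool.Agent.AAS
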