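import Pool.Agent.AAS.AVC


set_option autoImplicit false

namespace Pool.Agent.AAS

open Complex Finset MeasureTheory Filter Topology Set
open Pool.Agent.H26
open scoped ENNReal

/-! ### lintegral over powers -/

theorem TEL_succ {k : ℕ} (μ : Measure ℝ) [SigmaFinite μ] (F : (Fin (k + 1) → ℝ) → ℝ≥0∞)
    (hF : Measurable F) :
    ∫⁻ u, F u ∂(Measure.pi fun _ : Fin (k + 1) => μ) =
      ∫⁻ z : ℝ × (Fin k → ℝ), F (Fin.cons z.1 z.2)
        ∂(μ.prod (Measure.pi fun _ : Fin k => μ)) := by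
  have h := (measurePreserving_piFinSuccAbove (fun _ : Fin (k + 1) => μ) 0).symm
  rw [← h.lintegral_comp hF]
  refine lintegral_congr fun z => ?_
  congr 1
  funext j
  refine Fin.cases ?_ (fun i => ?_) j
  · simp [MeasurableEquiv.piFinSuccAbove]
  · simp [MeasurableEquiv.piFinSuccAbove]

theorem TEL_meas_cons {k : ℕ} : Measurable fun z : ℝ × (Fin k → ℝ) =>
    (Fin.cons z.1 z.2 : Fin (k + 1) → ℝ) := by
  refine measurable_pi_lambda _ fun j => ?_
  refine Fin.cases ?_ (fun i => ?_) j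
  · simpa using measurable_fst
  · simp only [Fin.cons_succ]
    exact (measurable_pi_apply i).comp measurable_snd

theorem TEL_prod (μ : Measure ℝ) [SigmaFinite μ] {k : ℕ} (F : Fin k → ℝ → ℝ≥0∞)
    (hF : ∀ j, Measurable (F j)) :
    ∫⁻ u, ∏ j, F j (u j) ∂(Measure.pi fun _ : Fin k => μ) = ∏ j, ∫⁻ x, F j x ∂μ := by
  induction k with
  | zero => simp
  | succ k ih =>
    rw [TEL_succ μ (fun u => ∏ j, F j (u j))
      (Finset.measurable_prod _ fun j _ => (hF j).comp (measurable_pi_apply j))]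
    simp only [Fin.prod_univ_succ, Fin.cons_zero, Fin.cons_succ]
    rw [lintegral_prod_mul (f := F 0) (g := fun v : Fin k → ℝ => ∏ j : Fin k, F j.succ (v j))
      (hF 0).aemeasurable
      (Finset.measurable_prod _ fun j _ => (hF j.succ).comp
        (measurable_pi_apply j)).aemeasurable]
    rw [ih _ fun j => hF j.succ]

/-! ### Minkowski -/

theorem TEL_mink {α : Type*} [MeasurableSpace α] {μ : Measure α} {a b : α → ℝ≥0∞}
    (ha : AEMeasurable a μ) (hb : AEMeasurable b μ) {x y : ℝ} (hx : 0 ≤ x) (hy : 0 ≤ y)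
    {N : ℝ≥0∞} (h1 : ∫⁻ z, a z ^ 2 ∂μ ≤ ENNReal.ofReal (x ^ 2) * N)
    (h2 : ∫⁻ z, b z ^ 2 ∂μ ≤ ENNReal.ofReal (y ^ 2) * N) :
    ∫⁻ z, (a z + b z) ^ 2 ∂μ ≤ ENNReal.ofReal ((x + y) ^ 2) * N := by
  have h := ENNReal.lintegral_Lp_add_le ha hb (p := 2) (by norm_num)
  simp only [Pi.add_apply, ENNReal.rpow_two] at h
  have e1 : (ENNReal.ofReal (x ^ 2) * N) ^ (1 / (2:ℝ)) = ENNReal.ofReal x * N ^ (1 / (2:ℝ)) := by
    rw [ENNReal.mul_rpow_of_nonneg _ _ (by norm_num), ENNReal.ofReal_pow hx,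
      ← ENNReal.rpow_natCast, ← ENNReal.rpow_mul]
    norm_num
  have e2 : (ENNReal.ofReal (y ^ 2) * N) ^ (1 / (2:ℝ)) = ENNReal.ofReal y * N ^ (1 / (2:ℝ)) := by
    rw [ENNReal.mul_rpow_of_nonneg _ _ (by norm_num), ENNReal.ofReal_pow hy,
      ← ENNReal.rpow_natCast, ← ENNReal.rpow_mul]
    norm_num
  have e3 : (∫⁻ z, (a z + b z) ^ 2 ∂μ) ^ (1 / (2:ℝ)) ≤
      ENNReal.ofReal (x + y) * N ^ (1 / (2:ℝ)) := by
    refine h.trans ?_
    rw [ENNReal.ofReal_add hx hy, add_mul, ← e1, ← e2]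
    exact add_le_add (ENNReal.rpow_le_rpow h1 (by norm_num))
      (ENNReal.rpow_le_rpow h2 (by norm_num))
  have e4 := ENNReal.rpow_le_rpow e3 (show (0:ℝ) ≤ 2 by norm_num)
  rw [← ENNReal.rpow_mul, ENNReal.mul_rpow_of_nonneg _ _ (by norm_num), ← ENNReal.rpow_mul] at e4
  norm_num at e4
  rw [ENNReal.ofReal_pow (by positivity)]
  exact e4

/-! ### test functions -/

/-- Bounded measurable functions supported on `G`. -/
structure TEL_Bd (G : Set ℝ) (Ψ : ℝ → ℂ) : Prop where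
  meas : Measurable Ψ
  bdd : ∃ K, ∀ t, ‖Ψ t‖ ≤ K
  supp : ∀ t, t ∉ G → Ψ t = 0

theorem TEL_Bd.mul {G : Set ℝ} {T₀ T : ℝ} (hG : G ⊆ Icc T₀ T) {Ψ : ℝ → ℂ} (h : TEL_Bd G Ψ)
    {φ : ℝ → ℂ} (hφ : Continuous φ) : TEL_Bd G (fun t => Ψ t * φ t) := by
  obtain ⟨K, hK⟩ := h.bdd
  obtain ⟨L, hL⟩ := isCompact_Icc.exists_bound_of_continuousOn (s := Icc T₀ T) hφ.continuousOn
  refine ⟨h.meas.mul hφ.measurable, ⟨|K| * |L|, fun t => ?_⟩, fun t ht => by simp [h.supp t ht]⟩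
  by_cases ht : t ∈ G
  · rw [norm_mul]
    exact mul_le_mul ((hK t).trans (le_abs_self _)) ((hL t (hG ht)).trans (le_abs_self _))
      (norm_nonneg _) (abs_nonneg _)
  · rw [h.supp t ht]
    simp only [zero_mul, norm_zero]
    positivity

theorem TEL_Bd.integrable {G : Set ℝ} {Ψ : ℝ → ℂ} (h : TEL_Bd G Ψ) (μ : Measure ℝ)
    [IsFiniteMeasure μ] : Integrable Ψ μ := by
  obtain ⟨K, hK⟩ := h.bdd
  exact Integrable.of_bound h.meas.aestronglyMeasurable K (Eventually.of_forall hK)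


theorem TEL_enorm_prod {ι : Type*} (s : Finset ι) (a : ι → ℂ) :
    ‖∏ j ∈ s, a j‖ₑ = ∏ j ∈ s, ‖a j‖ₑ := by
  simp only [enorm_eq_nnnorm, nnnorm_prod, ENNReal.ofNNReal_finsetProd]

theorem TEL_meas_int {X : Type*} [MeasurableSpace X] (μ : Measure ℝ) [SFinite μ]
    {F : X → ℝ → ℂ} (hF : Measurable (Function.uncurry F)) :
    Measurable fun u => ‖∫ t, F u t ∂μ‖ₑ :=
  (hF.stronglyMeasurable.integral_prod_right).measurable.enorm

theorem TEL_claim {G : Set ℝ} {T₀ T : ℝ} (hG : G ⊆ Icc T₀ T) (μ ν : Measure ℝ)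
    [IsFiniteMeasure μ] [IsFiniteMeasure ν] {M D : ℝ} (hM : 0 ≤ M) (hD : 0 ≤ D) (C : ℝ≥0∞)
    (k : ℕ) : ∀ (f l : Fin k → ℝ → ℂ), (∀ j, Continuous (f j)) → (∀ j, Continuous (l j)) →
    (∀ j, ∀ Ψ, TEL_Bd G Ψ → ∫⁻ x, ‖∫ t, Ψ t * (f j (t + x) - l j (t + x)) ∂μ‖ₑ ^ 2 ∂ν ≤
      ENNReal.ofReal (M ^ 2) * (C * ∫⁻ t, ‖Ψ t‖ₑ ^ 2 ∂μ)) →
    (∀ j, ∀ t ∈ G, ∫⁻ x, ‖f j (t + x)‖ₑ ^ 2 ∂ν ≤ ENNReal.ofReal (D ^ 2) * C) →
    (∀ j, ∀ t ∈ G, ∫⁻ x, ‖l j (t + x)‖ₑ ^ 2 ∂ν ≤ ENNReal.ofReal (D ^ 2) * C) →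
    ∀ Ψ, TEL_Bd G Ψ →
    ∫⁻ u, ‖∫ t, Ψ t * (∏ j, f j (t + u j) - ∏ j, l j (t + u j)) ∂μ‖ₑ ^ 2
      ∂(Measure.pi fun _ : Fin k => ν) ≤
      ENNReal.ofReal ((k * M * D ^ (k - 1)) ^ 2) * (C ^ k * ∫⁻ t, ‖Ψ t‖ₑ ^ 2 ∂μ) := by
  induction k with
  | zero => intro f l _ _ _ _ _ Ψ _; simp
  | succ k ih =>
    intro f l hf hl h1 h3 h3' Ψ hΨ
    have hfm : ∀ j, Measurable (f j) := fun j => (hf j).measurable
    have hlm : ∀ j, Measurable (l j) := fun j => (hl j).measurable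
    have hPf : Measurable fun p : (Fin k → ℝ) × ℝ => ∏ j : Fin k, f j.succ (p.2 + p.1 j) :=
      Finset.measurable_prod _ fun j _ => (hfm j.succ).comp
        (measurable_snd.add ((measurable_pi_apply j).comp measurable_fst))
    have hPl : Measurable fun p : (Fin k → ℝ) × ℝ => ∏ j : Fin k, l j.succ (p.2 + p.1 j) :=
      Finset.measurable_prod _ fun j _ => (hlm j.succ).comp
        (measurable_snd.add ((measurable_pi_apply j).comp measurable_fst))
    have hPfc : ∀ v : Fin k → ℝ, Continuous fun t => ∏ j : Fin k, f j.succ (t + v j) :=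
      fun v => continuous_finsetProd _ fun j _ => (hf j.succ).comp (continuous_id.add
        continuous_const)
    have hPlc : ∀ v : Fin k → ℝ, Continuous fun t => ∏ j : Fin k, l j.succ (t + v j) :=
      fun v => continuous_finsetProd _ fun j _ => (hl j.succ).comp (continuous_id.add
        continuous_const)
    have hf0c : ∀ x : ℝ, Continuous fun t => f 0 (t + x) :=
      fun x => (hf 0).comp (continuous_id.add continuous_const)
    have hl0c : ∀ x : ℝ, Continuous fun t => l 0 (t + x) :=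
      fun x => (hl 0).comp (continuous_id.add continuous_const)
    -- the two parts
    let a : ℝ × (Fin k → ℝ) → ℝ≥0∞ := fun z => ‖∫ t, (Ψ t * f 0 (t + z.1)) *
      (∏ j : Fin k, f j.succ (t + z.2 j) - ∏ j : Fin k, l j.succ (t + z.2 j)) ∂μ‖ₑ
    let b : ℝ × (Fin k → ℝ) → ℝ≥0∞ := fun z => ‖∫ t, (Ψ t * ∏ j : Fin k, l j.succ (t + z.2 j)) *
      (f 0 (t + z.1) - l 0 (t + z.1)) ∂μ‖ₑ
    have ham : Measurable a := by
      refine TEL_meas_int μ (F := fun (z : ℝ × (Fin k → ℝ)) t => (Ψ t * f 0 (t + z.1)) *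
        (∏ j : Fin k, f j.succ (t + z.2 j) - ∏ j : Fin k, l j.succ (t + z.2 j))) ?_
      refine Measurable.mul (Measurable.mul (hΨ.meas.comp measurable_snd)
        ((hfm 0).comp (measurable_snd.add (measurable_fst.comp measurable_fst)))) ?_
      exact (hPf.comp ((measurable_snd.comp measurable_fst).prodMk measurable_snd)).sub
        (hPl.comp ((measurable_snd.comp measurable_fst).prodMk measurable_snd))
    have hbm : Measurable b := by
      refine TEL_meas_int μ (F := fun (z : ℝ × (Fin k → ℝ)) t =>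
        (Ψ t * ∏ j : Fin k, l j.succ (t + z.2 j)) * (f 0 (t + z.1) - l 0 (t + z.1))) ?_
      refine Measurable.mul (Measurable.mul (hΨ.meas.comp measurable_snd)
        (hPl.comp ((measurable_snd.comp measurable_fst).prodMk measurable_snd))) ?_
      exact ((hfm 0).comp (measurable_snd.add (measurable_fst.comp measurable_fst))).sub
        ((hlm 0).comp (measurable_snd.add (measurable_fst.comp measurable_fst)))
    have hmain : Measurable fun u : Fin (k + 1) → ℝ =>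
        ‖∫ t, Ψ t * (∏ j, f j (t + u j) - ∏ j, l j (t + u j)) ∂μ‖ₑ ^ 2 := by
      refine (TEL_meas_int μ (F := fun (u : Fin (k + 1) → ℝ) t =>
        Ψ t * (∏ j, f j (t + u j) - ∏ j, l j (t + u j))) ?_).pow_const 2
      refine (hΨ.meas.comp measurable_snd).mul ?_
      exact (Finset.measurable_prod _ fun j _ => (hfm j).comp
        (measurable_snd.add ((measurable_pi_apply j).comp measurable_fst))).sub
        (Finset.measurable_prod _ fun j _ => (hlm j).comp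
        (measurable_snd.add ((measurable_pi_apply j).comp measurable_fst)))
    rw [TEL_succ ν _ hmain]
    have hle : ∀ z : ℝ × (Fin k → ℝ),
        ‖∫ t, Ψ t * (∏ j, f j (t + (Fin.cons z.1 z.2 : Fin (k + 1) → ℝ) j) -
          ∏ j, l j (t + (Fin.cons z.1 z.2 : Fin (k + 1) → ℝ) j)) ∂μ‖ₑ ^ 2 ≤
          (a z + b z) ^ 2 := by
      intro z
      have e : ∫ t, Ψ t * (∏ j, f j (t + (Fin.cons z.1 z.2 : Fin (k + 1) → ℝ) j) -
          ∏ j, l j (t + (Fin.cons z.1 z.2 : Fin (k + 1) → ℝ) j)) ∂μ =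
          (∫ t, (Ψ t * f 0 (t + z.1)) *
            (∏ j : Fin k, f j.succ (t + z.2 j) - ∏ j : Fin k, l j.succ (t + z.2 j)) ∂μ) +
          ∫ t, (Ψ t * ∏ j : Fin k, l j.succ (t + z.2 j)) *
            (f 0 (t + z.1) - l 0 (t + z.1)) ∂μ := by
        rw [← integral_add]
        · refine integral_congr_ae (Eventually.of_forall fun t => ?_)
          simp only [Fin.prod_univ_succ, Fin.cons_zero, Fin.cons_succ]
          ring
        · exact ((hΨ.mul hG (hf0c z.1)).mul hG ((hPfc z.2).sub (hPlc z.2))).integrable μ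
        · exact ((hΨ.mul hG (hPlc z.2)).mul hG ((hf0c z.1).sub (hl0c z.1))).integrable μ
      rw [e]
      exact pow_le_pow_left' (enorm_add_le _ _) 2
    refine (lintegral_mono hle).trans ?_
    set N : ℝ≥0∞ := ∫⁻ t, ‖Ψ t‖ₑ ^ 2 ∂μ with hN
    -- first part
    have hA : ∫⁻ z, a z ^ 2 ∂(ν.prod (Measure.pi fun _ : Fin k => ν)) ≤
        ENNReal.ofReal ((k * M * D ^ k) ^ 2) * (C ^ (k + 1) * N) := by
      rw [lintegral_prod _ (ham.pow_const 2).aemeasurable]
      have s1 : ∀ x : ℝ, ∫⁻ v, a (x, v) ^ 2 ∂(Measure.pi fun _ : Fin k => ν) ≤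
          ENNReal.ofReal ((k * M * D ^ (k - 1)) ^ 2) *
            (C ^ k * ∫⁻ t, ‖Ψ t * f 0 (t + x)‖ₑ ^ 2 ∂μ) := fun x =>
        ih (fun j => f j.succ) (fun j => l j.succ) (fun j => hf _) (fun j => hl _)
          (fun j => h1 _) (fun j => h3 _) (fun j => h3' _) _ (hΨ.mul hG (hf0c x))
      refine (lintegral_mono s1).trans ?_
      have hm2 : Measurable (Function.uncurry fun (x : ℝ) (t : ℝ) =>
          ‖Ψ t * f 0 (t + x)‖ₑ ^ 2) :=
        (((hΨ.meas.comp measurable_snd).mul ((hfm 0).comp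
          (measurable_snd.add measurable_fst))).enorm).pow_const 2
      rw [lintegral_const_mul _ (Measurable.const_mul (hm2.lintegral_prod_right) _),
        lintegral_const_mul _ (hm2.lintegral_prod_right), lintegral_lintegral_swap
        hm2.aemeasurable]
      have s2 : ∀ t, ∫⁻ x, ‖Ψ t * f 0 (t + x)‖ₑ ^ 2 ∂ν ≤
          ‖Ψ t‖ₑ ^ 2 * (ENNReal.ofReal (D ^ 2) * C) := by
        intro t
        by_cases ht : t ∈ G
        · simp only [enorm_mul, mul_pow]
          rw [lintegral_const_mul]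
          · exact mul_le_mul_right (h3 0 t ht) _
          · exact (((hfm 0).comp (measurable_const.add measurable_id)).enorm).pow_const 2
        · simp [hΨ.supp t ht]
      calc ENNReal.ofReal ((k * M * D ^ (k - 1)) ^ 2) *
            (C ^ k * ∫⁻ t, ∫⁻ x, ‖Ψ t * f 0 (t + x)‖ₑ ^ 2 ∂ν ∂μ)
          ≤ ENNReal.ofReal ((k * M * D ^ (k - 1)) ^ 2) *
            (C ^ k * ∫⁻ t, ‖Ψ t‖ₑ ^ 2 * (ENNReal.ofReal (D ^ 2) * C) ∂μ) := by
            gcongr with t; exact s2 t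
        _ = (ENNReal.ofReal ((k * M * D ^ (k - 1)) ^ 2) * ENNReal.ofReal (D ^ 2)) *
            (C ^ (k + 1) * N) := by
            rw [lintegral_mul_const _ (hΨ.meas.enorm.pow_const 2), ← hN]; ring
        _ = ENNReal.ofReal ((k * M * D ^ k) ^ 2) * (C ^ (k + 1) * N) := by
            rw [← ENNReal.ofReal_mul (by positivity)]
            congr 2
            rcases k with _ | k
            · simp
            · simp only [Nat.add_sub_cancel]; ring
    -- second part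
    have hB : ∫⁻ z, b z ^ 2 ∂(ν.prod (Measure.pi fun _ : Fin k => ν)) ≤
        ENNReal.ofReal ((M * D ^ k) ^ 2) * (C ^ (k + 1) * N) := by
      rw [lintegral_prod_symm' _ (hbm.pow_const 2)]
      have s1 : ∀ v : Fin k → ℝ, ∫⁻ x, b (x, v) ^ 2 ∂ν ≤
          ENNReal.ofReal (M ^ 2) *
            (C * ∫⁻ t, ‖Ψ t * ∏ j : Fin k, l j.succ (t + v j)‖ₑ ^ 2 ∂μ) := fun v =>
        h1 0 _ (hΨ.mul hG (hPlc v))
      refine (lintegral_mono s1).trans ?_
      have hm2 : Measurable (Function.uncurry fun (v : Fin k → ℝ) (t : ℝ) =>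
          ‖Ψ t * ∏ j : Fin k, l j.succ (t + v j)‖ₑ ^ 2) :=
        (((hΨ.meas.comp measurable_snd).mul hPl).enorm).pow_const 2
      rw [lintegral_const_mul _ (Measurable.const_mul (hm2.lintegral_prod_right) _),
        lintegral_const_mul _ (hm2.lintegral_prod_right), lintegral_lintegral_swap
        hm2.aemeasurable]
      have s2 : ∀ t, ∫⁻ v, ‖Ψ t * ∏ j : Fin k, l j.succ (t + v j)‖ₑ ^ 2
          ∂(Measure.pi fun _ : Fin k => ν) ≤
          ‖Ψ t‖ₑ ^ 2 * (ENNReal.ofReal (D ^ 2) * C) ^ k := by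
        intro t
        by_cases ht : t ∈ G
        · have e : ∀ v : Fin k → ℝ, ‖Ψ t * ∏ j : Fin k, l j.succ (t + v j)‖ₑ ^ 2 =
              ‖Ψ t‖ₑ ^ 2 * ∏ j : Fin k, ‖l j.succ (t + v j)‖ₑ ^ 2 := by
            intro v
            rw [enorm_mul, mul_pow, Finset.prod_pow, TEL_enorm_prod]
          simp only [e]
          have hmj : ∀ j : Fin k, Measurable fun x : ℝ => ‖l j.succ (t + x)‖ₑ ^ 2 := fun j =>
            (((hlm j.succ).comp (measurable_const.add measurable_id)).enorm).pow_const 2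
          rw [lintegral_const_mul (f := fun v : Fin k → ℝ => ∏ j : Fin k,
              ‖l j.succ (t + v j)‖ₑ ^ 2) _ (Finset.measurable_prod _ fun j _ =>
            (hmj j).comp (measurable_pi_apply j)),
            TEL_prod ν (fun j x => ‖l j.succ (t + x)‖ₑ ^ 2) hmj]
          refine mul_le_mul_right ?_ _
          calc ∏ j : Fin k, ∫⁻ x, ‖l j.succ (t + x)‖ₑ ^ 2 ∂ν
              ≤ ∏ _j : Fin k, (ENNReal.ofReal (D ^ 2) * C) :=
                Finset.prod_le_prod' fun j _ => h3' j.succ t ht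
            _ = (ENNReal.ofReal (D ^ 2) * C) ^ k := by simp
        · simp [hΨ.supp t ht]
      calc ENNReal.ofReal (M ^ 2) * (C * ∫⁻ t, ∫⁻ v : Fin k → ℝ,
            ‖Ψ t * ∏ j : Fin k, l j.succ (t + v j)‖ₑ ^ 2 ∂(Measure.pi fun _ : Fin k => ν) ∂μ)
          ≤ ENNReal.ofReal (M ^ 2) *
            (C * ∫⁻ t, ‖Ψ t‖ₑ ^ 2 * (ENNReal.ofReal (D ^ 2) * C) ^ k ∂μ) := by
            gcongr with t; exact s2 t
        _ = (ENNReal.ofReal (M ^ 2) * ENNReal.ofReal (D ^ 2) ^ k) * (C ^ (k + 1) * N) := by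
            rw [lintegral_mul_const _ (hΨ.meas.enorm.pow_const 2), ← hN, mul_pow]; ring
        _ = ENNReal.ofReal ((M * D ^ k) ^ 2) * (C ^ (k + 1) * N) := by
            rw [← ENNReal.ofReal_pow (by positivity), ← ENNReal.ofReal_mul (by positivity)]
            congr 2
            ring
    have h := TEL_mink ham.aemeasurable hbm.aemeasurable (by positivity) (by positivity) hA hB
    refine h.trans (le_of_eq ?_)
    congr 2
    push_cast
    ring


theorem TEL_lint_sq {α : Type*} [MeasurableSpace α] {ν : Measure α} [IsFiniteMeasure ν]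
    {φ : α → ℂ} (hm : AEStronglyMeasurable φ ν) {K : ℝ} (hb : ∀ᵐ x ∂ν, ‖φ x‖ ≤ K) :
    ∫⁻ x, ‖φ x‖ₑ ^ 2 ∂ν = ENNReal.ofReal (∫ x, ‖φ x‖ ^ 2 ∂ν) := by
  have hi : Integrable (fun x => ‖φ x‖ ^ 2) ν := by
    refine Integrable.of_bound (hm.norm.pow 2) (K ^ 2) ?_
    filter_upwards [hb] with x hx
    rw [norm_pow, norm_norm]
    exact pow_le_pow_left₀ (norm_nonneg _) hx 2
  rw [ofReal_integral_eq_lintegral_ofReal hi (Eventually.of_forall fun x => by positivity)]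
  refine lintegral_congr fun x => ?_
  rw [ENNReal.ofReal_pow (norm_nonneg _), ofReal_norm]

theorem TEL_lint_one {α : Type*} [MeasurableSpace α] {ν : Measure α} [IsFiniteMeasure ν]
    {φ : α → ℂ} (hm : AEStronglyMeasurable φ ν) {K : ℝ} (hb : ∀ᵐ x ∂ν, ‖φ x‖ ≤ K) :
    ∫⁻ x, ‖φ x‖ₑ ∂ν = ENNReal.ofReal (∫ x, ‖φ x‖ ∂ν) := by
  have hi : Integrable φ ν := Integrable.of_bound hm K hb
  exact (ofReal_integral_norm_eq_lintegral_enorm hi).symm

theorem TEL_cs {α : Type*} [MeasurableSpace α] {μ : Measure α} {F : α → ℝ≥0∞}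
    (hF : AEMeasurable F μ) {x y : ℝ} (hx : 0 ≤ x) (hy : 0 ≤ y)
    (h : ∫⁻ z, F z ^ 2 ∂μ ≤ ENNReal.ofReal (x ^ 2) * (μ univ * ENNReal.ofReal (y ^ 2))) :
    ∫⁻ z, F z ∂μ ≤ ENNReal.ofReal x * (μ univ * ENNReal.ofReal y) := by
  have h2 := ENNReal.lintegral_mul_le_Lp_mul_Lq μ Real.HolderConjugate.two_two hF
    (g := fun _ => 1) aemeasurable_const
  simp only [Pi.mul_apply, mul_one, ENNReal.rpow_two, one_pow, lintegral_one] at h2
  refine h2.trans ?_
  have e1 := ENNReal.rpow_le_rpow h (show (0:ℝ) ≤ 1 / 2 by norm_num)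
  refine (mul_le_mul_left e1 _).trans (le_of_eq ?_)
  rw [ENNReal.mul_rpow_of_nonneg _ _ (by norm_num), ENNReal.mul_rpow_of_nonneg _ _ (by norm_num),
    ENNReal.ofReal_pow hx, ENNReal.ofReal_pow hy, ← ENNReal.rpow_natCast,
    ← ENNReal.rpow_natCast, ← ENNReal.rpow_mul, ← ENNReal.rpow_mul]
  norm_num
  have e2 : μ univ ^ (1 / (2:ℝ)) * μ univ ^ (1 / (2:ℝ)) = μ univ := by
    rw [← ENNReal.rpow_add_of_nonneg _ _ (by norm_num) (by norm_num)]
    norm_num
  calc ENNReal.ofReal x * (μ univ ^ (1 / (2:ℝ)) * ENNReal.ofReal y) * μ univ ^ (1 / (2:ℝ))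
      = ENNReal.ofReal x * ((μ univ ^ (1 / (2:ℝ)) * μ univ ^ (1 / (2:ℝ))) *
        ENNReal.ofReal y) := by ring
    _ = _ := by rw [e2]

/-- F1: telescoping -/
theorem telescope {k : ℕ} {H T₀ T : ℝ} (hH : 0 < H) (hT : T₀ ≤ T) {Gs : Set ℝ}
    (hG : MeasurableSet Gs) {f l : Fin k → ℝ → ℂ} (hf : ∀ j, Continuous (f j))
    (hl : ∀ j, Continuous (l j)) {M D A m : ℝ} (hD : 0 ≤ D) (hA : 0 ≤ A)
    (hm : 0 ≤ m)
    (h1 : ∀ j, AvB H T₀ T (fun x => f j x - l j x) M)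
    (h2 : ∀ j, ∀ t ∈ Icc T₀ T, ∫ u in (-H)..H, ‖f j (t + u)‖ ≤ 2 * H * A)
    (h2' : ∀ j, ∀ t ∈ Icc T₀ T, ∫ u in (-H)..H, ‖l j (t + u)‖ ≤ 2 * H * A)
    (h3 : ∀ j, ∀ t ∈ Gs ∩ Icc T₀ T, ∫ u in (-H)..H, ‖f j (t + u)‖ ^ 2 ≤ 2 * H * D ^ 2)
    (h3' : ∀ j, ∀ t ∈ Gs ∩ Icc T₀ T, ∫ u in (-H)..H, ‖l j (t + u)‖ ^ 2 ≤ 2 * H * D ^ 2)
    (h4 : volume (Icc T₀ T \ Gs) ≤ ENNReal.ofReal m) :
    ∫ u in box k H, ‖∫ t in T₀..T, (∏ j, f j (t + u j) - ∏ j, l j (t + u j))‖ ≤
      (2 * H) ^ k * (2 * m * A ^ k + k * M * D ^ (k - 1) * √(T - T₀)) := by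
  rcases Nat.eq_zero_or_pos k with rfl | hk
  · simp only [Finset.univ_eq_empty, Finset.prod_empty, sub_self]
    simp [hm]
  have hM : 0 ≤ M := (h1 ⟨0, hk⟩).1
  have hHH : -H ≤ H := by linarith
  set μ : Measure ℝ := volume.restrict (Ioc T₀ T) with hμ
  set ν : Measure ℝ := volume.restrict (Icc (-H) H) with hν
  set C : ℝ≥0∞ := ENNReal.ofReal (2 * H) with hC
  have : IsFiniteMeasure μ := by rw [hμ]; infer_instance
  have : IsFiniteMeasure ν := by rw [hν]; infer_instance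
  have hνu : ν univ = C := by
    rw [hν, Measure.restrict_apply_univ, Real.volume_Icc, hC]; congr 1; ring
  have hbox : volume.restrict (box k H) = Measure.pi fun _ : Fin k => ν := by
    rw [box, volume_pi, Measure.restrict_pi_pi]
  set G : Set ℝ := Gs ∩ Icc T₀ T with hGd
  have hGm : MeasurableSet G := hG.inter measurableSet_Icc
  have hGI : G ⊆ Icc T₀ T := Set.inter_subset_right
  have hfm : ∀ j, Measurable (f j) := fun j => (hf j).measurable
  have hlm : ∀ j, Measurable (l j) := fun j => (hl j).measurable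
  have hνi : ∀ g : ℝ → ℝ, ∫ u in (-H)..H, g u = ∫ u, g u ∂ν := fun g => by
    rw [intervalIntegral.integral_of_le hHH, hν, integral_Icc_eq_integral_Ioc]
  have hμi : ∀ g : ℝ → ℂ, ∫ t in T₀..T, g t = ∫ t, g t ∂μ := fun g => by
    rw [intervalIntegral.integral_of_le hT]
  have hμi' : ∀ g : ℝ → ℝ, ∫ t in T₀..T, g t = ∫ t, g t ∂μ := fun g => by
    rw [intervalIntegral.integral_of_le hT]
  have hνae : ∀ᵐ x ∂ν, x ∈ Icc (-H) H := ae_restrict_mem measurableSet_Icc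
  have hμae : ∀ᵐ t ∂μ, t ∈ Ioc T₀ T := ae_restrict_mem measurableSet_Ioc
  -- bounds on windows
  have hwin : ∀ {g : ℝ → ℂ}, Continuous g → ∀ t, ∃ K, ∀ᵐ x ∂ν, ‖g (t + x)‖ ≤ K := by
    intro g hg t
    obtain ⟨K, hK⟩ := isCompact_Icc.exists_bound_of_continuousOn (s := Icc (-H) H)
      (f := fun x => g (t + x)) (hg.comp (continuous_const.add continuous_id)).continuousOn
    exact ⟨K, by filter_upwards [hνae] with x hx using hK x hx⟩
  have hsm : ∀ {g : ℝ → ℂ}, Continuous g → ∀ t, AEStronglyMeasurable (fun x => g (t + x)) ν :=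
    fun {g} hg t => (hg.comp (continuous_const.add continuous_id)).aestronglyMeasurable
  -- (h1) as lintegral
  have h1c : ∀ j, ∀ Ψ, TEL_Bd G Ψ → ∫⁻ x, ‖∫ t, Ψ t * (f j (t + x) - l j (t + x)) ∂μ‖ₑ ^ 2 ∂ν ≤
      ENNReal.ofReal (M ^ 2) * (C * ∫⁻ t, ‖Ψ t‖ₑ ^ 2 ∂μ) := by
    intro j Ψ hΨ
    obtain ⟨K, hK⟩ := hΨ.bdd
    have hgc : Continuous fun x => f j x - l j x := (hf j).sub (hl j)
    obtain ⟨L, hL⟩ := isCompact_Icc.exists_bound_of_continuousOn (s := Icc (T₀ - H) (T + H))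
      hgc.continuousOn
    have hfin := (h1 j).2 Ψ hΨ.meas hΨ.bdd
    have hφm : Measurable fun x => ∫ t, Ψ t * (f j (t + x) - l j (t + x)) ∂μ := by
      have : Measurable (Function.uncurry fun (x : ℝ) (t : ℝ) =>
          Ψ t * (f j (t + x) - l j (t + x))) :=
        (hΨ.meas.comp measurable_snd).mul
          (((hfm j).comp (measurable_snd.add measurable_fst)).sub
          ((hlm j).comp (measurable_snd.add measurable_fst)))
      exact (this.stronglyMeasurable.integral_prod_right).measurable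
    have hφb : ∀ᵐ x ∂ν, ‖∫ t, Ψ t * (f j (t + x) - l j (t + x)) ∂μ‖ ≤
        |K| * |L| * μ.real univ := by
      filter_upwards [hνae] with x hx
      refine norm_integral_le_of_norm_le_const ?_
      filter_upwards [hμae] with t ht
      rw [norm_mul]
      refine mul_le_mul ((hK t).trans (le_abs_self _)) ?_ (norm_nonneg _) (abs_nonneg _)
      exact (hL (t + x) ⟨by linarith [ht.1, hx.1], by linarith [ht.2, hx.2]⟩).trans
        (le_abs_self _)
    rw [TEL_lint_sq hφm.aestronglyMeasurable hφb,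
      TEL_lint_sq hΨ.meas.aestronglyMeasurable (Eventually.of_forall hK), hC,
      ← ENNReal.ofReal_mul (by positivity), ← ENNReal.ofReal_mul (by positivity)]
    refine ENNReal.ofReal_le_ofReal ?_
    rw [hνi, hμi'] at hfin
    simp only [hμi] at hfin
    refine hfin.trans (le_of_eq (by ring))
  have h3c : ∀ {g : ℝ → ℂ}, Continuous g → ∀ t,
      ∫ u in (-H)..H, ‖g (t + u)‖ ^ 2 ≤ 2 * H * D ^ 2 →
      ∫⁻ x, ‖g (t + x)‖ₑ ^ 2 ∂ν ≤ ENNReal.ofReal (D ^ 2) * C := by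
    intro g hg t h
    obtain ⟨K, hK⟩ := hwin hg t
    rw [TEL_lint_sq (hsm hg t) hK, hC, ← ENNReal.ofReal_mul (by positivity)]
    refine ENNReal.ofReal_le_ofReal ?_
    rw [hνi] at h
    linarith
  have h2c : ∀ {g : ℝ → ℂ}, Continuous g → ∀ t,
      ∫ u in (-H)..H, ‖g (t + u)‖ ≤ 2 * H * A →
      ∫⁻ x, ‖g (t + x)‖ₑ ∂ν ≤ ENNReal.ofReal (2 * H * A) := by
    intro g hg t h
    obtain ⟨K, hK⟩ := hwin hg t
    rw [TEL_lint_one (hsm hg t) hK]
    refine ENNReal.ofReal_le_ofReal ?_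
    rwa [hνi] at h
  -- the test function
  let Ψ : ℝ → ℂ := G.indicator 1
  have hΨ : TEL_Bd G Ψ := by
    refine ⟨measurable_const.indicator hGm, ⟨1, fun t => ?_⟩, fun t ht => ?_⟩
    · by_cases ht : t ∈ G
      · simp [Ψ, ht]
      · simp [Ψ, ht]
    · simp [Ψ, ht]
  have hcl := TEL_claim hGI μ ν hM hD C k f l hf hl h1c
    (fun j t ht => h3c (hf j) t (h3 j t ht)) (fun j t ht => h3c (hl j) t (h3' j t ht)) Ψ hΨ
  have hPm : Measurable fun p : (Fin k → ℝ) × ℝ =>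
      (∏ j, f j (p.2 + p.1 j) - ∏ j, l j (p.2 + p.1 j)) :=
    (Finset.measurable_prod _ fun j _ => (hfm j).comp
        (measurable_snd.add ((measurable_pi_apply j).comp measurable_fst))).sub
        (Finset.measurable_prod _ fun j _ => (hlm j).comp
        (measurable_snd.add ((measurable_pi_apply j).comp measurable_fst)))
  have hpiu : (Measure.pi fun _ : Fin k => ν) univ = C ^ k := by
    rw [Measure.pi_univ]; simp [hνu]
  have hΨN : ∫⁻ t, ‖Ψ t‖ₑ ^ 2 ∂μ ≤ ENNReal.ofReal (√(T - T₀) ^ 2) := by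
    rw [Real.sq_sqrt (by linarith)]
    calc ∫⁻ t, ‖Ψ t‖ₑ ^ 2 ∂μ ≤ ∫⁻ _t, 1 ∂μ := by
          refine lintegral_mono fun t => ?_
          by_cases ht : t ∈ G
          · simp [Ψ, ht]
          · simp [Ψ, ht]
      _ = ENNReal.ofReal (T - T₀) := by
          rw [lintegral_one, hμ, Measure.restrict_apply_univ, Real.volume_Ioc]
  have hI1 : ∫⁻ u, ‖∫ t, Ψ t * (∏ j, f j (t + u j) - ∏ j, l j (t + u j)) ∂μ‖ₑ
      ∂(Measure.pi fun _ : Fin k => ν) ≤
      ENNReal.ofReal (k * M * D ^ (k - 1)) * (C ^ k * ENNReal.ofReal (√(T - T₀))) := by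
    rw [← hpiu]
    refine TEL_cs ?_ (by positivity) (by positivity) ?_
    · exact (TEL_meas_int μ (F := fun (u : Fin k → ℝ) t =>
        Ψ t * (∏ j, f j (t + u j) - ∏ j, l j (t + u j)))
        ((hΨ.meas.comp measurable_snd).mul hPm)).aemeasurable
    · refine hcl.trans ?_
      rw [hpiu]
      gcongr
  -- the complement
  have hmeasF : ∀ {g : Fin k → ℝ → ℂ}, (∀ j, Continuous (g j)) →
      Measurable (Function.uncurry fun (u : Fin k → ℝ) (t : ℝ) =>
        Gᶜ.indicator (1 : ℝ → ℝ≥0∞) t * ∏ j, ‖g j (t + u j)‖ₑ) := by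
    intro g hg
    refine ((measurable_const.indicator hGm.compl).comp measurable_snd).mul ?_
    exact Finset.measurable_prod _ fun j _ => (((hg j).measurable.comp
        (measurable_snd.add ((measurable_pi_apply j).comp measurable_fst))).enorm)
  have hI2 : ∀ {g : Fin k → ℝ → ℂ}, (∀ j, Continuous (g j)) →
      (∀ j, ∀ t ∈ Icc T₀ T, ∫ u in (-H)..H, ‖g j (t + u)‖ ≤ 2 * H * A) →
      ∫⁻ u : Fin k → ℝ, ∫⁻ t, Gᶜ.indicator (1 : ℝ → ℝ≥0∞) t * ∏ j, ‖g j (t + u j)‖ₑ ∂μ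
        ∂(Measure.pi fun _ : Fin k => ν) ≤ ENNReal.ofReal m * ENNReal.ofReal (2 * H * A) ^ k := by
    intro g hg hg2
    rw [lintegral_lintegral_swap (hmeasF hg).aemeasurable]
    have s2 : ∀ᵐ t ∂μ, ∫⁻ u : Fin k → ℝ, Gᶜ.indicator (1 : ℝ → ℝ≥0∞) t *
        ∏ j, ‖g j (t + u j)‖ₑ ∂(Measure.pi fun _ : Fin k => ν) ≤
        Gᶜ.indicator (1 : ℝ → ℝ≥0∞) t * ENNReal.ofReal (2 * H * A) ^ k := by
      filter_upwards [hμae] with t ht
      have hmj : ∀ j : Fin k, Measurable fun x : ℝ => ‖g j (t + x)‖ₑ := fun j =>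
        ((hg j).measurable.comp (measurable_const.add measurable_id)).enorm
      rw [lintegral_const_mul (f := fun u : Fin k → ℝ => ∏ j : Fin k, ‖g j (t + u j)‖ₑ) _
        (Finset.measurable_prod _ fun j _ => (hmj j).comp (measurable_pi_apply j)),
        TEL_prod ν (fun j x => ‖g j (t + x)‖ₑ) hmj]
      refine mul_le_mul_right ?_ _
      calc ∏ j : Fin k, ∫⁻ x, ‖g j (t + x)‖ₑ ∂ν
          ≤ ∏ _j : Fin k, ENNReal.ofReal (2 * H * A) :=
            Finset.prod_le_prod' fun j _ => h2c (hg j) t (hg2 j t ⟨ht.1.le, ht.2⟩)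
        _ = ENNReal.ofReal (2 * H * A) ^ k := by simp
    refine (lintegral_mono_ae s2).trans ?_
    rw [lintegral_mul_const _ (measurable_one.indicator hGm.compl),
      lintegral_indicator_one hGm.compl]
    refine mul_le_mul_left ?_ _
    rw [hμ, Measure.restrict_apply hGm.compl]
    refine (measure_mono ?_).trans h4
    rintro t ⟨ht, ht2⟩
    refine ⟨⟨ht2.1.le, ht2.2⟩, fun hg => ht ⟨hg, ht2.1.le, ht2.2⟩⟩
  -- pointwise
  have hpt : ∀ u : Fin k → ℝ, ‖∫ t, (∏ j, f j (t + u j) - ∏ j, l j (t + u j)) ∂μ‖ₑ ≤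
      ‖∫ t, Ψ t * (∏ j, f j (t + u j) - ∏ j, l j (t + u j)) ∂μ‖ₑ +
      (∫⁻ t, Gᶜ.indicator (1 : ℝ → ℝ≥0∞) t * ∏ j, ‖f j (t + u j)‖ₑ ∂μ +
       ∫⁻ t, Gᶜ.indicator (1 : ℝ → ℝ≥0∞) t * ∏ j, ‖l j (t + u j)‖ₑ ∂μ) := by
    intro u
    have hFc : Continuous fun t => (∏ j, f j (t + u j) - ∏ j, l j (t + u j)) :=
      (continuous_finsetProd _ fun j _ => (hf j).comp (continuous_id.add
        continuous_const)).sub (continuous_finsetProd _ fun j _ => (hl j).comp (continuous_id.add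
        continuous_const))
    have hFi : Integrable (fun t => (∏ j, f j (t + u j) - ∏ j, l j (t + u j))) μ := by
      rw [hμ]
      exact (hFc.integrableOn_Icc (a := T₀) (b := T)).mono_set Ioc_subset_Icc_self
    have hΨi : Integrable (fun t => Ψ t * (∏ j, f j (t + u j) - ∏ j, l j (t + u j))) μ :=
      (hΨ.mul hGI hFc).integrable μ
    have e : ∫ t, (∏ j, f j (t + u j) - ∏ j, l j (t + u j)) ∂μ =
        (∫ t, Ψ t * (∏ j, f j (t + u j) - ∏ j, l j (t + u j)) ∂μ) +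
        ∫ t, (1 - Ψ t) * (∏ j, f j (t + u j) - ∏ j, l j (t + u j)) ∂μ := by
      rw [← integral_add hΨi]
      · refine integral_congr_ae (Eventually.of_forall fun t => ?_)
        simp only
        ring
      · refine (hFi.sub hΨi).congr (Eventually.of_forall fun t => ?_)
        simp only [Pi.sub_apply]
        ring
    rw [e]
    refine (enorm_add_le _ _).trans (add_le_add le_rfl ?_)
    refine (enorm_integral_le_lintegral_enorm _).trans ?_
    have hm1 : Measurable fun t => Gᶜ.indicator (1 : ℝ → ℝ≥0∞) t * ∏ j, ‖f j (t + u j)‖ₑ :=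
      (measurable_const.indicator hGm.compl).mul (Finset.measurable_prod _ fun j _ =>
        ((hfm j).comp (measurable_id.add measurable_const)).enorm)
    rw [← lintegral_add_left hm1]
    refine lintegral_mono fun t => ?_
    by_cases ht : t ∈ G
    · simp [Ψ, ht]
    · have e1 : Gᶜ.indicator (1 : ℝ → ℝ≥0∞) t = 1 := by simp [ht]
      have e2 : Ψ t = 0 := by simp [Ψ, ht]
      simp only [e1, e2, sub_zero, one_mul]
      refine (enorm_sub_le).trans ?_
      rw [TEL_enorm_prod, TEL_enorm_prod]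
  -- assembly
  have hmeasL : AEStronglyMeasurable (fun u : Fin k → ℝ =>
      ∫ t, (∏ j, f j (t + u j) - ∏ j, l j (t + u j)) ∂μ) (Measure.pi fun _ : Fin k => ν) :=
    (hPm.stronglyMeasurable.integral_prod_right
      (f := fun (u : Fin k → ℝ) t => (∏ j, f j (t + u j) - ∏ j, l j (t + u j)))).aestronglyMeasurable
  simp only [hμi]
  rw [hbox, integral_norm_eq_lintegral_enorm hmeasL]
  refine ENNReal.toReal_le_of_le_ofReal (by positivity) ?_
  refine (lintegral_mono hpt).trans ?_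
  rw [lintegral_add_left, lintegral_add_left]
  · refine (add_le_add hI1 (add_le_add (hI2 hf h2) (hI2 hl h2'))).trans (le_of_eq ?_)
    rw [hC, ← ENNReal.ofReal_pow (by positivity), ← ENNReal.ofReal_pow (by positivity),
      ← ENNReal.ofReal_mul (by positivity), ← ENNReal.ofReal_mul (by positivity),
      ← ENNReal.ofReal_mul (by positivity), ← ENNReal.ofReal_add (by positivity) (by positivity),
      ← ENNReal.ofReal_add (by positivity) (by positivity)]
    congr 1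
    ring
  · exact (hmeasF hf).lintegral_prod_right
  · exact TEL_meas_int μ (F := fun (u : Fin k → ℝ) t =>
        Ψ t * (∏ j, f j (t + u j) - ∏ j, l j (t + u j)))
        ((hΨ.meas.comp measurable_snd).mul hPm)

end Pool.Agent.AAS
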