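import Pool.Agent.AAS.FX1
import Pool.Agent.AAS.L2F
import Pool.Agent.AAS.TEL

set_option autoImplicit false

namespace Pool.Agent.AAS

open Complex Finset MeasureTheory Filter Topology Set
open Pool.Agent.H26
open scoped ENNReal

namespace MXS

lemma le_add_sq {x l : ℝ≥0∞} (hl : l ≠ 0) (hl' : l ≠ ⊤) : x ≤ l + l⁻¹ * x ^ 2 := by
  by_cases h : x ≤ l
  · exact h.trans le_self_add
  · push Not at h
    have h1 : 1 ≤ l⁻¹ * x := by
      rw [← ENNReal.inv_mul_cancel hl hl']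
      gcongr
    calc x = 1 * x := by rw [one_mul]
      _ ≤ l⁻¹ * x * x := by gcongr
      _ = l⁻¹ * x ^ 2 := by ring
      _ ≤ _ := le_add_self

/-- Markov for the bad set -/
lemma volume_bad {k : ℕ} {I : Set ℝ} {L : Fin k → ℝ → ℝ≥0∞}
    (hL : ∀ j, Measurable (L j)) {x M : ℝ≥0∞} (hx : x ≠ 0) (hx' : x ≠ ⊤)
    (h : ∀ j, ∫⁻ t in I, L j t ≤ M) :
    volume.restrict I {t | ∀ j, L j t ≤ x}ᶜ ≤ k * (M / x) := by
  have h1 : ({t | ∀ j, L j t ≤ x}ᶜ : Set ℝ) ⊆ ⋃ j : Fin k, {t | x ≤ L j t} := by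
    intro t ht
    simp only [Set.mem_compl_iff, Set.mem_ofPred_eq, not_forall, not_le] at ht
    obtain ⟨j, hj⟩ := ht
    exact Set.mem_iUnion.2 ⟨j, hj.le⟩
  refine (measure_mono h1).trans ((measure_iUnion_le _).trans ?_)
  rw [tsum_fintype]
  calc ∑ j : Fin k, volume.restrict I {t | x ≤ L j t} ≤ ∑ _j : Fin k, M / x := by
        refine Finset.sum_le_sum fun j _ => ?_
        refine (meas_ge_le_lintegral_div (hL j).aemeasurable hx hx').trans ?_
        gcongr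
        exact h j
    _ = k * (M / x) := by simp

/-- the product of the local functions -/
noncomputable def Pe {k : ℕ} (p : Fin (k + 1) → ℝ → ℝ≥0∞) (v : Fin k → ℝ) (t : ℝ) : ℝ≥0∞ :=
  p 0 t * ∏ j : Fin k, p j.succ (t + v j)

lemma measurable_Pe {k : ℕ} {p : Fin (k + 1) → ℝ → ℝ≥0∞} (hp : ∀ j, Measurable (p j)) :
    Measurable (Function.uncurry (Pe p)) := by
  have : Measurable fun q : (Fin k → ℝ) × ℝ => p 0 q.2 * ∏ j : Fin k, p j.succ (q.2 + q.1 j) := by
    refine ((hp 0).comp measurable_snd).mul (Finset.measurable_prod _ fun j _ => ?_)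
    exact (hp j.succ).comp (measurable_snd.add ((measurable_pi_apply j).comp measurable_fst))
  exact this

/-- the local second moments -/
noncomputable def Lj {k : ℕ} (p : Fin (k + 1) → ℝ → ℝ≥0∞) (H : ℝ) (j : Fin k) (t : ℝ) : ℝ≥0∞ :=
  ∫⁻ u in Icc (-H) H, p j.succ (t + u) ^ 2

lemma measurable_Lj {k : ℕ} {p : Fin (k + 1) → ℝ → ℝ≥0∞} (hp : ∀ j, Measurable (p j)) (H : ℝ)
    (j : Fin k) : Measurable (Lj p H j) := by
  unfold Lj
  have : Measurable fun q : ℝ × ℝ => p j.succ (q.1 + q.2) ^ 2 :=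
    ((hp j.succ).comp (measurable_fst.add measurable_snd)).pow_const 2
  exact this.lintegral_prod_right'

/-- the majorant -/
noncomputable def Rm {k : ℕ} (p : Fin (k + 1) → ℝ → ℝ≥0∞) (G : Set ℝ) (l : ℝ≥0∞)
    (v : Fin k → ℝ) (t : ℝ) : ℝ≥0∞ :=
  G.indicator (fun t => l⁻¹ * Pe p v t ^ 2) t + Gᶜ.indicator (fun t => Pe p v t) t

lemma measurable_Rm {k : ℕ} {p : Fin (k + 1) → ℝ → ℝ≥0∞} (hp : ∀ j, Measurable (p j))
    {G : Set ℝ} (hG : MeasurableSet G) (l : ℝ≥0∞) : Measurable (Function.uncurry (Rm p G l)) := by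
  have h1 : Measurable fun q : (Fin k → ℝ) × ℝ =>
      (Prod.snd ⁻¹' G).indicator (fun q : (Fin k → ℝ) × ℝ => l⁻¹ * Pe p q.1 q.2 ^ 2) q +
      (Prod.snd ⁻¹' Gᶜ).indicator (fun q : (Fin k → ℝ) × ℝ => Pe p q.1 q.2) q := by
    refine Measurable.add ?_ ?_
    · exact (((measurable_Pe hp).pow_const 2).const_mul _).indicator (measurable_snd hG)
    · exact (measurable_Pe hp).indicator (measurable_snd hG.compl)
  exact h1

lemma Pe_le {k : ℕ} {p : Fin (k + 1) → ℝ → ℝ≥0∞} {G : Set ℝ} {l : ℝ≥0∞} (hl : l ≠ 0)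
    (hl' : l ≠ ⊤) (v : Fin k → ℝ) (t : ℝ) : Pe p v t ≤ l + Rm p G l v t := by
  unfold Rm
  by_cases h : t ∈ G
  · rw [Set.indicator_of_mem h, Set.indicator_of_notMem (by simpa using h), add_zero]
    exact le_add_sq hl hl'
  · rw [Set.indicator_of_notMem h, Set.indicator_of_mem (by simpa using h), zero_add]
    exact le_add_self

lemma lintegral_box_prod {k : ℕ} (H : ℝ) {f : Fin k → ℝ → ℝ≥0∞} (hf : ∀ j, Measurable (f j)) :
    ∫⁻ v in box k H, ∏ j, f j (v j) = ∏ j, ∫⁻ u in Icc (-H) H, f j u := by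
  unfold box
  rw [volume_pi, Measure.restrict_pi_pi]
  exact TEL_prod _ _ hf

lemma lintegral_Pe {k : ℕ} {p : Fin (k + 1) → ℝ → ℝ≥0∞} (hp : ∀ j, Measurable (p j)) (H t : ℝ) :
    ∫⁻ v in box k H, Pe p v t = p 0 t * ∏ j : Fin k, ∫⁻ u in Icc (-H) H, p j.succ (t + u) := by
  unfold Pe
  rw [lintegral_const_mul _ (Finset.measurable_prod _ fun j _ =>
    (hp j.succ).comp (measurable_const.add (measurable_pi_apply j)))]
  congr 1
  exact lintegral_box_prod H (f := fun j u => p j.succ (t + u))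
    fun j => (hp j.succ).comp (measurable_const.add measurable_id)

lemma lintegral_Pe_sq {k : ℕ} {p : Fin (k + 1) → ℝ → ℝ≥0∞} (hp : ∀ j, Measurable (p j))
    (H t : ℝ) : ∫⁻ v in box k H, Pe p v t ^ 2 = p 0 t ^ 2 * ∏ j : Fin k, Lj p H j t := by
  have e : ∀ v : Fin k → ℝ, Pe p v t ^ 2 = p 0 t ^ 2 * ∏ j : Fin k, p j.succ (t + v j) ^ 2 := by
    intro v
    unfold Pe
    rw [mul_pow, Finset.prod_pow]
  simp only [e]
  rw [lintegral_const_mul _ (Finset.measurable_prod _ fun j _ =>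
    ((hp j.succ).comp (measurable_const.add (measurable_pi_apply j))).pow_const 2)]
  congr 1
  exact lintegral_box_prod H (f := fun j u => p j.succ (t + u) ^ 2)
    fun j => ((hp j.succ).comp (measurable_const.add measurable_id)).pow_const 2

/-- the mean of the majorant -/
lemma lintegral_Rm {k : ℕ} {p : Fin (k + 1) → ℝ → ℝ≥0∞} (hp : ∀ j, Measurable (p j))
    {I : Set ℝ} (hI : MeasurableSet I) {H : ℝ} {l x y A L M : ℝ≥0∞} (hx : x ≠ 0)
    (hx' : x ≠ ⊤) (hy : y ≠ 0) (hy' : y ≠ ⊤)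
    (hA : ∀ j : Fin k, ∀ t ∈ I, ∫⁻ u in Icc (-H) H, p j.succ (t + u) ≤ A)
    (hL : ∫⁻ t in I, p 0 t ^ 2 ≤ L) (hM : ∀ j : Fin k, ∫⁻ t in I, Lj p H j t ≤ M) :
    ∫⁻ v in box k H, ∫⁻ t in I, Rm p {t | ∀ j, Lj p H j t ≤ x} l v t ≤
      l⁻¹ * x ^ k * L + A ^ k * (y * (k * (M / x)) + y⁻¹ * L) := by
  set G : Set ℝ := {t | ∀ j, Lj p H j t ≤ x} with hG
  have hGm : MeasurableSet G := by
    have : G = ⋂ j : Fin k, {t | Lj p H j t ≤ x} := by ext t; simp [hG]
    rw [this]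
    exact MeasurableSet.iInter fun j => measurableSet_le (measurable_Lj hp H j) measurable_const
  rw [lintegral_lintegral_swap ((measurable_Rm hp hGm l).aemeasurable)]
  have h1 : ∀ t ∈ I, ∫⁻ v in box k H, Rm p G l v t ≤
      l⁻¹ * x ^ k * p 0 t ^ 2 + A ^ k * Gᶜ.indicator (fun t => p 0 t) t := by
    intro t ht
    unfold Rm
    by_cases h : t ∈ G
    · have h2 : t ∉ Gᶜ := by simpa using h
      simp only [Set.indicator_of_mem h, Set.indicator_of_notMem h2, add_zero, mul_zero]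
      have hPm : Measurable fun v : Fin k → ℝ => Pe p v t :=
        (measurable_Pe hp).comp (Measurable.prodMk measurable_id measurable_const)
      rw [lintegral_const_mul _ (hPm.pow_const 2), lintegral_Pe_sq hp, mul_assoc,
        mul_comm (x ^ k)]
      gcongr
      calc ∏ j : Fin k, Lj p H j t ≤ ∏ _j : Fin k, x := Finset.prod_le_prod' fun j _ => h j
        _ = x ^ k := by simp
    · have h2 : t ∈ Gᶜ := h
      simp only [Set.indicator_of_mem h2, Set.indicator_of_notMem h, zero_add]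
      rw [lintegral_Pe hp]
      refine le_trans ?_ le_add_self
      rw [mul_comm]
      gcongr
      calc ∏ j : Fin k, ∫⁻ u in Icc (-H) H, p j.succ (t + u) ≤ ∏ _j : Fin k, A :=
            Finset.prod_le_prod' fun j _ => hA j t ht
        _ = A ^ k := by simp
  refine (setLIntegral_mono' hI h1).trans ?_
  have hp0 : Measurable (p 0) := hp 0
  rw [lintegral_add_left ((hp0.pow_const 2).const_mul _), lintegral_const_mul _ (hp0.pow_const 2),
    lintegral_const_mul _ (hp0.indicator hGm.compl)]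
  have h2 : ∫⁻ t in I, Gᶜ.indicator (fun t => p 0 t) t ≤ y * (k * (M / x)) + y⁻¹ * L := by
    calc ∫⁻ t in I, Gᶜ.indicator (fun t => p 0 t) t ≤
          ∫⁻ t in I, (Gᶜ.indicator (fun _ => y) t + y⁻¹ * p 0 t ^ 2) := by
          refine lintegral_mono fun t => ?_
          by_cases h : t ∈ Gᶜ
          · simp only [Set.indicator_of_mem h]
            exact le_add_sq hy hy'
          · simp [Set.indicator_of_notMem h]
      _ = y * (volume.restrict I) Gᶜ + y⁻¹ * ∫⁻ t in I, p 0 t ^ 2 := by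
          rw [lintegral_add_left (measurable_const.indicator hGm.compl),
            lintegral_const_mul _ (hp0.pow_const 2), lintegral_indicator hGm.compl]
          simp
      _ ≤ _ := by
          gcongr
          exact volume_bad (fun j => measurable_Lj hp H j) hx hx' hM
  gcongr

lemma lintegral_Lj_le {k : ℕ} {p : Fin (k + 1) → ℝ → ℝ≥0∞} (hp : ∀ j, Measurable (p j))
    {T H : ℝ} (hH : 0 ≤ H) (hHT : H ≤ T / 2) {L : ℝ≥0∞} (j : Fin k)
    (hL : ∫⁻ x in Icc (T / 2) (4 * T), p j.succ x ^ 2 ≤ L) :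
    ∫⁻ t in Icc T (3 * T), Lj p H j t ≤ ENNReal.ofReal (2 * H) * L := by
  unfold Lj
  have hm : Measurable fun x => p j.succ x ^ 2 := (hp j.succ).pow_const 2
  have hm2 : Measurable (Function.uncurry fun t u : ℝ => p j.succ (t + u) ^ 2) :=
    hm.comp (measurable_fst.add measurable_snd)
  rw [lintegral_lintegral_swap hm2.aemeasurable]
  have h1 : ∀ u ∈ Icc (-H) H, ∫⁻ t in Icc T (3 * T), p j.succ (t + u) ^ 2 ≤ L := by
    intro u hu
    refine le_trans ?_ hL
    rw [← lintegral_indicator measurableSet_Icc, ← lintegral_indicator measurableSet_Icc,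
      ← lintegral_add_right_eq_self (μ := volume)
        ((Icc (T / 2) (4 * T)).indicator fun x => p j.succ x ^ 2) u]
    refine lintegral_mono fun t => ?_
    by_cases ht : t ∈ Icc T (3 * T)
    · rw [Set.indicator_of_mem ht, Set.indicator_of_mem]
      exact ⟨by linarith [ht.1, hu.1], by linarith [ht.2, hu.2]⟩
    · rw [Set.indicator_of_notMem ht]
      exact zero_le
  refine (setLIntegral_mono' measurableSet_Icc h1).trans ?_
  have e : H - -H = 2 * H := by ring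
  rw [setLIntegral_const, Real.volume_Icc, mul_comm, e]

lemma continuous_P {k : ℕ} (a b : Fin (k + 1) → ℝ) : Continuous fun q : (Fin k → ℝ) × ℝ =>
    ∏ j, ‖pf (a j) (b j) (q.2 + fx q.1 j)‖ := by
  refine continuous_finsetProd _ fun j _ => ?_
  refine ((fx1_continuous_pf (a j) (b j)).comp (continuous_snd.add ?_)).norm
  refine Fin.cases ?_ (fun i => ?_) j
  · simp only [fx, Fin.cons_zero]; exact continuous_const
  · simp only [fx, Fin.cons_succ]; exact (continuous_apply i).comp continuous_fst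

lemma ofReal_P {k : ℕ} (a b : Fin (k + 1) → ℝ) (v : Fin k → ℝ) (t : ℝ) :
    ENNReal.ofReal (∏ j, ‖pf (a j) (b j) (t + fx v j)‖) =
      Pe (fun j x => ‖pf (a j) (b j) x‖ₑ) v t := by
  rw [ENNReal.ofReal_prod_of_nonneg fun j _ => norm_nonneg _, Fin.prod_univ_succ]
  unfold Pe
  simp only [fx, Fin.cons_zero, Fin.cons_succ, add_zero, ofReal_norm]

/-- the function whose supremum is bounded -/
noncomputable def Sp {k : ℕ} (a b : Fin (k + 1) → ℝ) (T h : ℝ) (N : ℕ) (v : Fin k → ℝ) : ℝ :=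
  (Finset.range (N + 1)).sup' Finset.nonempty_range_add_one (fun i =>
    ∫ t in (T + i * h)..(T + (i + 1) * h), ∏ j, ‖pf (a j) (b j) (t + fx v j)‖)

lemma continuous_Sp {k : ℕ} (a b : Fin (k + 1) → ℝ) (T h : ℝ) (N : ℕ) :
    Continuous (Sp a b T h N) := by
  unfold Sp
  refine Continuous.finset_sup'_apply _ fun i _ => ?_
  exact intervalIntegral.continuous_parametric_intervalIntegral_of_continuous'
    (continuous_P a b) _ _

lemma Sp_nonneg {k : ℕ} (a b : Fin (k + 1) → ℝ) (T : ℝ) {h : ℝ} (hh : 0 ≤ h) (N : ℕ)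
    (v : Fin k → ℝ) : 0 ≤ Sp a b T h N v := by
  unfold Sp
  refine le_trans ?_ (Finset.le_sup' _ (Finset.mem_range.2 (Nat.succ_pos N)))
  refine intervalIntegral.integral_nonneg (by push_cast; nlinarith) fun t _ =>
    Finset.prod_nonneg fun j _ => norm_nonneg _

lemma ofReal_int_le {k : ℕ} (a b : Fin (k + 1) → ℝ) {T x y : ℝ} (hxy : x ≤ y) (hx : T ≤ x)
    (hy : y ≤ 3 * T) (v : Fin k → ℝ) (G : Set ℝ) {l : ℝ≥0∞} (hl : l ≠ 0) (hl' : l ≠ ⊤) :
    ENNReal.ofReal (∫ t in x..y, ∏ j, ‖pf (a j) (b j) (t + fx v j)‖) ≤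
      ENNReal.ofReal (y - x) * l +
      ∫⁻ t in Icc T (3 * T), Rm (fun j x => ‖pf (a j) (b j) x‖ₑ) G l v t := by
  have hc : Continuous fun t : ℝ => ∏ j, ‖pf (a j) (b j) (t + fx v j)‖ := by
    refine continuous_finsetProd _ fun j _ => ?_
    exact ((fx1_continuous_pf (a j) (b j)).comp (by fun_prop)).norm
  have hi : IntegrableOn (fun t : ℝ => ∏ j, ‖pf (a j) (b j) (t + fx v j)‖) (Ioc x y) :=
    (hc.integrableOn_Icc (a := x) (b := y)).mono_set Ioc_subset_Icc_self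
  have hsub : Ioc x y ⊆ Icc T (3 * T) := fun t ht => ⟨by linarith [ht.1], by linarith [ht.2]⟩
  have h0 : ENNReal.ofReal (∫ t in x..y, ∏ j, ‖pf (a j) (b j) (t + fx v j)‖) =
      ∫⁻ t in Ioc x y, Pe (fun j x => ‖pf (a j) (b j) x‖ₑ) v t := by
    rw [intervalIntegral.integral_of_le hxy, ofReal_integral_eq_lintegral_ofReal hi
      (Eventually.of_forall fun t => Finset.prod_nonneg fun j _ => norm_nonneg _)]
    exact lintegral_congr fun t => ofReal_P a b v t
  rw [h0]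
  calc ∫⁻ t in Ioc x y, Pe (fun j x => ‖pf (a j) (b j) x‖ₑ) v t ≤
        ∫⁻ t in Ioc x y, (l + Rm (fun j x => ‖pf (a j) (b j) x‖ₑ) G l v t) :=
        lintegral_mono fun t => Pe_le hl hl' v t
    _ = ENNReal.ofReal (y - x) * l + ∫⁻ t in Ioc x y,
          Rm (fun j x => ‖pf (a j) (b j) x‖ₑ) G l v t := by
        rw [lintegral_add_left measurable_const, setLIntegral_const, Real.volume_Ioc, mul_comm]
    _ ≤ _ := add_le_add le_rfl (lintegral_mono_set hsub)

lemma ofReal_Sp_le {k : ℕ} (a b : Fin (k + 1) → ℝ) {T h : ℝ} (hh : 0 ≤ h)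
    (hhT : h ≤ T) {N : ℕ} (hN : N * h ≤ T) (v : Fin k → ℝ) (G : Set ℝ) {l : ℝ≥0∞} (hl : l ≠ 0)
    (hl' : l ≠ ⊤) : ENNReal.ofReal (Sp a b T h N v) ≤ ENNReal.ofReal h * l +
      ∫⁻ t in Icc T (3 * T), Rm (fun j x => ‖pf (a j) (b j) x‖ₑ) G l v t := by
  obtain ⟨i, hi, hie⟩ := Finset.exists_mem_eq_sup' (Finset.nonempty_range_add_one (n := N))
    (fun i : ℕ => ∫ t in (T + i * h)..(T + (i + 1) * h), ∏ j, ‖pf (a j) (b j) (t + fx v j)‖)
  have hi' : (i:ℝ) ≤ N := by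
    have := Finset.mem_range.1 hi
    exact_mod_cast Nat.lt_succ_iff.1 this
  have hmul : (i:ℝ) * h ≤ T := (mul_le_mul_of_nonneg_right hi' hh).trans hN
  have h0 : 0 ≤ (i:ℝ) * h := by positivity
  have h1 := ofReal_int_le a b (T := T) (x := T + i * h) (y := T + (i + 1) * h) (by linarith)
    (by linarith) (by linarith) v G hl hl'
  have e : T + (i + 1) * h - (T + i * h) = h := by ring
  rw [e] at h1
  have e2 : Sp a b T h N v =
      ∫ t in (T + i * h)..(T + (i + 1) * h), ∏ j, ‖pf (a j) (b j) (t + fx v j)‖ := hie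
  rw [e2]
  exact h1

lemma volume_box (k : ℕ) {H : ℝ} (hH : 0 ≤ H) : volume (box k H) = ENNReal.ofReal ((2 * H) ^ k) := by
  unfold box
  rw [volume_pi_pi]
  simp only [Real.volume_Icc, Finset.prod_const, Finset.card_univ, Fintype.card_fin]
  rw [← ENNReal.ofReal_pow (by linarith)]
  congr 2
  ring

/-- the mean of the supremum, in terms of real constants -/
lemma integral_Sp_le {k : ℕ} (a b : Fin (k + 1) → ℝ) {T h H l x y A L : ℝ} (hT : 0 < T)
    (hh : 0 ≤ h) (hhT : h ≤ T) (hH : 0 < H) (hHT : H ≤ T / 2) (hl : 0 < l) (hx : 0 < x)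
    (hy : 0 < y) (hA0 : 0 ≤ A) (hL0 : 0 ≤ L) {N : ℕ} (hN : N * h ≤ T)
    (hA : ∀ j, ∀ t ∈ Icc T (3 * T), ∫ u in (-H)..H, ‖pf (a j) (b j) (t + u)‖ ≤ A)
    (hL : ∀ j, ∫ t in (T / 2)..(4 * T), ‖pf (a j) (b j) t‖ ^ 2 ≤ L) :
    ∫ v in box k H, Sp a b T h N v ≤ (2 * H) ^ k * (h * l) +
      (l⁻¹ * x ^ k * L + A ^ k * (y * (k * (2 * H * L / x)) + y⁻¹ * L)) := by
  have hcp : ∀ j, Continuous (pf (a j) (b j)) := fun j => fx1_continuous_pf (a j) (b j)
  have hpm : ∀ j, Measurable fun x : ℝ => ‖pf (a j) (b j) x‖ₑ := fun j =>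
    (hcp j).measurable.enorm
  set p : Fin (k + 1) → ℝ → ℝ≥0∞ := fun j x => ‖pf (a j) (b j) x‖ₑ with hp
  have hL2 : ∀ j, ∫⁻ t in Icc (T / 2) (4 * T), p j t ^ 2 ≤ ENNReal.ofReal L := by
    intro j
    refine le_trans (le_of_eq ?_) (ENNReal.ofReal_le_ofReal (hL j))
    have hc : Continuous fun t : ℝ => ‖pf (a j) (b j) t‖ ^ 2 := (hcp j).norm.pow 2
    rw [intervalIntegral.integral_of_le (by linarith), ← integral_Icc_eq_integral_Ioc,
      ofReal_integral_eq_lintegral_ofReal hc.integrableOn_Icc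
        (Eventually.of_forall fun t => sq_nonneg _)]
    refine lintegral_congr fun t => ?_
    rw [ENNReal.ofReal_pow (norm_nonneg _), ofReal_norm]
  have hL3 : ∫⁻ t in Icc T (3 * T), p 0 t ^ 2 ≤ ENNReal.ofReal L :=
    (lintegral_mono_set (Set.Icc_subset_Icc (by linarith) (by linarith))).trans (hL2 0)
  have hA2 : ∀ j : Fin k, ∀ t ∈ Icc T (3 * T),
      ∫⁻ u in Icc (-H) H, p j.succ (t + u) ≤ ENNReal.ofReal A := by
    intro j t ht
    refine le_trans (le_of_eq ?_) (ENNReal.ofReal_le_ofReal (hA j.succ t ht))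
    have hc : Continuous fun u : ℝ => ‖pf (a j.succ) (b j.succ) (t + u)‖ :=
      ((hcp j.succ).comp (by fun_prop)).norm
    rw [intervalIntegral.integral_of_le (by linarith), ← integral_Icc_eq_integral_Ioc,
      ofReal_integral_eq_lintegral_ofReal (hc.integrableOn_Icc)
        (Eventually.of_forall fun t => norm_nonneg _)]
    refine lintegral_congr fun u => ?_
    rw [ofReal_norm]
  have hM2 : ∀ j : Fin k, ∫⁻ t in Icc T (3 * T), Lj p H j t ≤ ENNReal.ofReal (2 * H * L) := by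
    intro j
    rw [ENNReal.ofReal_mul (by positivity)]
    exact lintegral_Lj_le hpm hH.le hHT j (hL2 j.succ)
  have hx0 : ENNReal.ofReal x ≠ 0 := (ENNReal.ofReal_pos.2 hx).ne'
  have hy0 : ENNReal.ofReal y ≠ 0 := (ENNReal.ofReal_pos.2 hy).ne'
  have hl0 : ENNReal.ofReal l ≠ 0 := (ENNReal.ofReal_pos.2 hl).ne'
  have hR := lintegral_Rm (l := ENNReal.ofReal l) hpm (measurableSet_Icc (a := T) (b := 3 * T))
    hx0 ENNReal.ofReal_ne_top hy0 ENNReal.ofReal_ne_top hA2 hL3 hM2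
  have hcS := continuous_Sp a b T h N
  have hiS : IntegrableOn (Sp a b T h N) (box k H) :=
    hcS.continuousOn.integrableOn_compact (isCompact_univ_pi fun _ => isCompact_Icc)
  have hbound0 : 0 ≤ (2 * H) ^ k * (h * l) +
      (l⁻¹ * x ^ k * L + A ^ k * (y * (k * (2 * H * L / x)) + y⁻¹ * L)) := by positivity
  refine (ENNReal.ofReal_le_ofReal_iff hbound0).1 ?_
  rw [ofReal_integral_eq_lintegral_ofReal hiS
    (Eventually.of_forall fun v => Sp_nonneg a b T hh N v)]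
  calc ∫⁻ v in box k H, ENNReal.ofReal (Sp a b T h N v) ≤
        ∫⁻ v in box k H, (ENNReal.ofReal h * ENNReal.ofReal l +
          ∫⁻ t in Icc T (3 * T), Rm p {t | ∀ j, Lj p H j t ≤ ENNReal.ofReal x}
            (ENNReal.ofReal l) v t) :=
        lintegral_mono fun v => ofReal_Sp_le a b hh hhT hN v _ hl0 ENNReal.ofReal_ne_top
    _ = ENNReal.ofReal h * ENNReal.ofReal l * ENNReal.ofReal ((2 * H) ^ k) +
        ∫⁻ v in box k H, ∫⁻ t in Icc T (3 * T), Rm p {t | ∀ j, Lj p H j t ≤ ENNReal.ofReal x}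
            (ENNReal.ofReal l) v t := by
        rw [lintegral_add_left measurable_const, setLIntegral_const, volume_box k hH.le]
    _ ≤ _ := add_le_add le_rfl hR
    _ = _ := by
        have e1 : ENNReal.ofReal (l⁻¹ * x ^ k * L) =
            (ENNReal.ofReal l)⁻¹ * ENNReal.ofReal x ^ k * ENNReal.ofReal L := by
          rw [ENNReal.ofReal_mul (by positivity), ENNReal.ofReal_mul (by positivity),
            ENNReal.ofReal_inv_of_pos hl, ENNReal.ofReal_pow hx.le]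
        have e3 : ENNReal.ofReal (y * (k * (2 * H * L / x))) =
            ENNReal.ofReal y * (k * (ENNReal.ofReal (2 * H * L) / ENNReal.ofReal x)) := by
          rw [ENNReal.ofReal_mul (by positivity), ENNReal.ofReal_mul (by positivity),
            ENNReal.ofReal_natCast, ENNReal.ofReal_div_of_pos hx]
        have e4 : ENNReal.ofReal (y⁻¹ * L) = (ENNReal.ofReal y)⁻¹ * ENNReal.ofReal L := by
          rw [ENNReal.ofReal_mul (by positivity), ENNReal.ofReal_inv_of_pos hy]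
        have e2 : ENNReal.ofReal (A ^ k * (y * (k * (2 * H * L / x)) + y⁻¹ * L)) =
            ENNReal.ofReal A ^ k * (ENNReal.ofReal y *
              (k * (ENNReal.ofReal (2 * H * L) / ENNReal.ofReal x)) +
              (ENNReal.ofReal y)⁻¹ * ENNReal.ofReal L) := by
          rw [ENNReal.ofReal_mul (by positivity), ENNReal.ofReal_add (by positivity)
            (by positivity), e3, e4, ENNReal.ofReal_pow hA0]
        have e5 : ENNReal.ofReal ((2 * H) ^ k * (h * l)) =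
            ENNReal.ofReal h * ENNReal.ofReal l * ENNReal.ofReal ((2 * H) ^ k) := by
          rw [ENNReal.ofReal_mul (by positivity), ENNReal.ofReal_mul hh, mul_comm]
        rw [ENNReal.ofReal_add (by positivity) (by positivity),
          ENNReal.ofReal_add (by positivity) (by positivity), e1, e2, e5]

end MXS

open MXS in
/-- the mean over the translations of the largest integral of the product of the pairs over a
short interval in `[T, 3T]`; the first pair is fixed -/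
theorem exists_max_short {w : ℝ} (hw : LocalBound w) (k : ℕ) (κ : ℝ) (hκ : 0 < κ) (hκ1 : κ ≤ 1) :
    ∃ c ε₀ : ℝ, 0 < c ∧ c ≤ 1 ∧ 0 < ε₀ ∧ ∀ B ε : ℝ, 0 ≤ B → 0 < ε → ε ≤ ε₀ → ∃ C : ℝ, 1 ≤ C ∧
    ∀ T H : ℝ, 128 ≤ T → (4 * T) ^ w ≤ H → H ≤ T / 2 → ∀ a b : Fin (k + 1) → ℝ,
    (∀ j, |a j| ≤ B) → (∀ j, |b j| ≤ B) → (∀ j, T ^ (-ε) ≤ |a j - b j|) →
    ∀ N : ℕ, N * T ^ (1 - κ) ≤ T →
    ∫ v in box k H, Sp a b T (T ^ (1 - κ)) N v ≤ (2 * H) ^ k * (C * T ^ (1 - c)) := by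
  set ρ : ℝ := κ / (4 * ((k:ℝ) + 1)) with hρ
  have hk1 : (1:ℝ) ≤ (k:ℝ) + 1 := by
    have : (0:ℝ) ≤ k := Nat.cast_nonneg k
    linarith
  have hρ0 : 0 < ρ := by positivity
  have hρκ : ((k:ℝ) + 1) * ρ = κ / 4 := by
    rw [hρ]; field_simp
  have hρ4 : ρ ≤ κ / 4 := by
    rw [← hρκ]
    nlinarith
  have hkρ : (k:ℝ) * ρ ≤ κ / 4 := by
    rw [← hρκ]
    nlinarith
  refine ⟨ρ / 4, min (1 / 100) (ρ / (4 * ((k:ℝ) + 10))), by positivity, by linarith,
    lt_min (by norm_num) (by positivity), fun B ε hB hε hε' => ?_⟩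
  have hε1 : ε ≤ 1 / 100 := hε'.trans (min_le_left _ _)
  have hε2 : ((k:ℝ) + 10) * ε ≤ ρ / 4 := by
    have h1 : ε ≤ ρ / (4 * ((k:ℝ) + 10)) := hε'.trans (min_le_right _ _)
    rw [le_div_iff₀ (by positivity)] at h1
    linarith
  have hkε : 0 ≤ (k:ℝ) * ε := by positivity
  obtain ⟨CA, hCA, hloc⟩ := exists_pf_local hw B ε hB hε
  obtain ⟨C2, hC2, hl2⟩ := exists_l2_pf B ε hB hε hε1
  have hCA0 : 0 < CA := by linarith
  have hC20 : 0 < C2 := by linarith
  refine ⟨1 + 16 * C2 + (4 * CA) ^ k * ((k + 1) * (16 * C2)), ?_, ?_⟩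
  · have : 0 ≤ 16 * C2 + (4 * CA) ^ k * ((k + 1) * (16 * C2)) := by positivity
    linarith
  intro T H hT hTH hHT a b ha hb hab N hN
  have hT1 : 1 ≤ T := by linarith
  have hT0 : 0 < T := by linarith
  have hH0 : 0 < H := lt_of_lt_of_le (by positivity) hTH
  have habne : ∀ j, a j ≠ b j := fun j h => by
    have := hab j
    rw [h, sub_self, abs_zero] at this
    have h2 : 0 < T ^ (-ε) := by positivity
    linarith
  have hh0 : 0 < T ^ (1 - κ) := by positivity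
  have hhT : T ^ (1 - κ) ≤ T := by
    calc T ^ (1 - κ) ≤ T ^ (1:ℝ) := Real.rpow_le_rpow_of_exponent_le hT1 (by linarith)
      _ = T := Real.rpow_one T
  -- the local first moment
  set A : ℝ := CA * (4 * T) ^ ε * (2 * H) with hA
  have hA0 : 0 ≤ A := by positivity
  have hAle : A ≤ 2 * H * (4 * CA * T ^ ε) := by
    have h1 : (4 * T) ^ ε ≤ 4 * T ^ ε := by
      rw [Real.mul_rpow (by norm_num) hT0.le]
      gcongr
      calc (4:ℝ) ^ ε ≤ 4 ^ (1:ℝ) :=
            Real.rpow_le_rpow_of_exponent_le (by norm_num) (by linarith)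
        _ = 4 := Real.rpow_one 4
    calc A ≤ CA * (4 * T ^ ε) * (2 * H) := by rw [hA]; gcongr
      _ = _ := by ring
  have hAloc : ∀ j, ∀ t ∈ Icc T (3 * T), ∫ u in (-H)..H, ‖pf (a j) (b j) (t + u)‖ ≤ A := by
    intro j t ht
    exact hloc (4 * T) H (by linarith) hTH (by linarith) (a j) (b j) (ha j) (hb j) t
      (abs_le.2 ⟨by linarith [ht.1], by linarith [ht.2]⟩)
  -- the second moment
  set L : ℝ := 16 * C2 * T ^ (1 + 10 * ε) with hL
  have hL0 : 0 ≤ L := by positivity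
  have h78 : (2 * T) ^ (7 / 8 : ℝ) ≤ T := by
    have h1 : (2:ℝ) ^ (7 / 8 : ℝ) ≤ T ^ (1 / 8 : ℝ) := by
      have h2 : (128:ℝ) ^ (1 / 8 : ℝ) ≤ T ^ (1 / 8 : ℝ) :=
        Real.rpow_le_rpow (by norm_num) hT (by norm_num)
      have h3 : (128:ℝ) ^ (1 / 8 : ℝ) = 2 ^ (7 / 8 : ℝ) := by
        rw [show (128:ℝ) = 2 ^ (7:ℝ) by norm_num, ← Real.rpow_mul (by norm_num)]
        norm_num
      rwa [h3] at h2
    rw [Real.mul_rpow (by norm_num) hT0.le]
    calc (2:ℝ) ^ (7 / 8 : ℝ) * T ^ (7 / 8 : ℝ) ≤ T ^ (1 / 8 : ℝ) * T ^ (7 / 8 : ℝ) := by gcongr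
      _ = T := by
        rw [← Real.rpow_add hT0]
        norm_num
  have hLle : ∀ j, ∫ t in (T / 2)..(4 * T), ‖pf (a j) (b j) t‖ ^ 2 ≤ L := by
    intro j
    have h1 := hl2 (2 * T) (by linarith) (a j) (b j) (ha j) (hb j) (habne j)
    have hc : Continuous fun t : ℝ => ‖pf (a j) (b j) t‖ ^ 2 := (fx1_continuous_pf _ _).norm.pow 2
    have h2 : ∫ t in (T / 2)..(4 * T), ‖pf (a j) (b j) t‖ ^ 2 ≤
        ∫ t in ((2 * T) ^ (7 / 8 : ℝ) / 2)..(3 * (2 * T)), ‖pf (a j) (b j) t‖ ^ 2 :=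
      intervalIntegral.integral_mono_interval (by linarith) (by linarith) (by linarith)
        (Eventually.of_forall fun t => sq_nonneg _) (hc.intervalIntegrable _ _)
    refine h2.trans (h1.trans ?_)
    have h3 : 1 / (a j - b j) ^ 2 ≤ T ^ (2 * ε) := by
      have h4 : (T ^ (-ε)) ^ 2 ≤ (a j - b j) ^ 2 := by
        rw [← sq_abs (a j - b j)]
        have := hab j
        gcongr
      have h5 : 0 < (T ^ (-ε)) ^ 2 := by positivity
      calc 1 / (a j - b j) ^ 2 ≤ 1 / (T ^ (-ε)) ^ 2 := one_div_le_one_div_of_le h5 h4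
        _ = T ^ (2 * ε) := by
          rw [← Real.rpow_mul_natCast hT0.le, one_div, ← Real.rpow_neg hT0.le]
          congr 1
          push_cast
          ring
    have h6 : 1 ≤ T ^ (2 * ε) := Real.one_le_rpow hT1 (by positivity)
    have h7 : (1 + 1 / (a j - b j) ^ 2) ^ 2 ≤ 4 * T ^ (4 * ε) := by
      have h8 : 0 ≤ 1 / (a j - b j) ^ 2 := by positivity
      calc (1 + 1 / (a j - b j) ^ 2) ^ 2 ≤ (2 * T ^ (2 * ε)) ^ 2 := by
            gcongr
            linarith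
        _ = 4 * T ^ (4 * ε) := by
            rw [mul_pow, ← Real.rpow_mul_natCast hT0.le]
            norm_num
            ring_nf
    have h9 : (2 * T) ^ (1 + 6 * ε) ≤ 4 * T ^ (1 + 6 * ε) := by
      rw [Real.mul_rpow (by norm_num) hT0.le]
      gcongr
      calc (2:ℝ) ^ (1 + 6 * ε) ≤ 2 ^ (2:ℝ) :=
            Real.rpow_le_rpow_of_exponent_le (by norm_num) (by linarith)
        _ = 4 := by norm_num
    calc C2 * (1 + 1 / (a j - b j) ^ 2) ^ 2 * (2 * T) ^ (1 + 6 * ε) ≤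
          C2 * (4 * T ^ (4 * ε)) * (4 * T ^ (1 + 6 * ε)) := by gcongr
      _ = 16 * C2 * (T ^ (4 * ε) * T ^ (1 + 6 * ε)) := by ring
      _ = L := by
          rw [← Real.rpow_add hT0, hL]
          congr 2
          ring
  have hmain := integral_Sp_le a b (T := T) (h := T ^ (1 - κ)) (H := H) (l := T ^ (3 * κ / 4))
    (x := 2 * H * T ^ ρ) (y := T ^ (ρ / 2)) (A := A) (L := L) hT0 hh0.le hhT hH0 hHT
    (by positivity) (by positivity) (by positivity) hA0 hL0 hN hAloc hLle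
  refine hmain.trans ?_
  have e1 : T ^ (1 - κ) * T ^ (3 * κ / 4) ≤ T ^ (1 - ρ / 4) := by
    rw [← Real.rpow_add hT0]
    exact Real.rpow_le_rpow_of_exponent_le hT1 (by linarith)
  have e2 : (T ^ (3 * κ / 4))⁻¹ * (2 * H * T ^ ρ) ^ k * L ≤
      (2 * H) ^ k * (16 * C2 * T ^ (1 - ρ / 4)) := by
    have h1 : (T ^ ρ) ^ k = T ^ (k * ρ) := by
      rw [← Real.rpow_mul_natCast hT0.le, mul_comm]
    rw [mul_pow, h1, ← Real.rpow_neg hT0.le, hL]
    calc T ^ (-(3 * κ / 4)) * ((2 * H) ^ k * T ^ (k * ρ)) * (16 * C2 * T ^ (1 + 10 * ε)) =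
          (2 * H) ^ k * (16 * C2 * (T ^ (-(3 * κ / 4)) * T ^ (k * ρ) * T ^ (1 + 10 * ε))) := by
          ring
      _ ≤ _ := by
          rw [← Real.rpow_add hT0, ← Real.rpow_add hT0]
          gcongr
          linarith
  have e3 : T ^ (ρ / 2) * (k * (2 * H * L / (2 * H * T ^ ρ))) + (T ^ (ρ / 2))⁻¹ * L =
      (k + 1) * (16 * C2 * T ^ (1 + 10 * ε - ρ / 2)) := by
    have h1 : 2 * H * L / (2 * H * T ^ ρ) = L * T ^ (-ρ) := by
      rw [Real.rpow_neg hT0.le]
      field_simp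
    have h2 : T ^ (ρ / 2) * T ^ (-ρ) = T ^ (-(ρ / 2)) := by
      rw [← Real.rpow_add hT0]
      congr 1
      ring
    have h3 : T ^ (-(ρ / 2)) * L = 16 * C2 * T ^ (1 + 10 * ε - ρ / 2) := by
      rw [hL]
      have : T ^ (1 + 10 * ε - ρ / 2) = T ^ (-(ρ / 2)) * T ^ (1 + 10 * ε) := by
        rw [← Real.rpow_add hT0]
        congr 1
        ring
      rw [this]
      ring
    rw [h1, ← Real.rpow_neg hT0.le]
    calc T ^ (ρ / 2) * (k * (L * T ^ (-ρ))) + T ^ (-(ρ / 2)) * L =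
          k * ((T ^ (ρ / 2) * T ^ (-ρ)) * L) + T ^ (-(ρ / 2)) * L := by ring
      _ = (k + 1) * (T ^ (-(ρ / 2)) * L) := by rw [h2]; ring
      _ = _ := by rw [h3]
  have e4 : A ^ k * ((k + 1) * (16 * C2 * T ^ (1 + 10 * ε - ρ / 2))) ≤
      (2 * H) ^ k * ((4 * CA) ^ k * ((k + 1) * (16 * C2)) * T ^ (1 - ρ / 4)) := by
    have h1 : (T ^ ε) ^ k = T ^ (k * ε) := by
      rw [← Real.rpow_mul_natCast hT0.le, mul_comm]
    calc A ^ k * ((k + 1) * (16 * C2 * T ^ (1 + 10 * ε - ρ / 2))) ≤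
          (2 * H * (4 * CA * T ^ ε)) ^ k * ((k + 1) * (16 * C2 * T ^ (1 + 10 * ε - ρ / 2))) := by
          gcongr
      _ = (2 * H) ^ k * ((4 * CA) ^ k * ((k + 1) * (16 * C2)) *
          (T ^ (k * ε) * T ^ (1 + 10 * ε - ρ / 2))) := by
          rw [mul_pow, mul_pow (4 * CA), h1]
          ring
      _ ≤ _ := by
          rw [← Real.rpow_add hT0]
          gcongr
          linarith
  rw [e3]
  have hP : 0 ≤ (2 * H) ^ k := by positivity
  calc (2 * H) ^ k * (T ^ (1 - κ) * T ^ (3 * κ / 4)) +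
        ((T ^ (3 * κ / 4))⁻¹ * (2 * H * T ^ ρ) ^ k * L +
          A ^ k * ((k + 1) * (16 * C2 * T ^ (1 + 10 * ε - ρ / 2)))) ≤
        (2 * H) ^ k * T ^ (1 - ρ / 4) + ((2 * H) ^ k * (16 * C2 * T ^ (1 - ρ / 4)) +
          (2 * H) ^ k * ((4 * CA) ^ k * ((k + 1) * (16 * C2)) * T ^ (1 - ρ / 4))) := by
        gcongr
    _ = _ := by ring

end Pool.Agent.AAS
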