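import Pool.Agent.AAS.AUB
import Pool.Agent.AAS.MXS
import Pool.Agent.AAS.FIX

set_option autoImplicit false

namespace Pool.Agent.AAS

open Complex Finset MeasureTheory Filter Topology Set
open Pool.Agent.H26

theorem coreG_univ_of_local {w : ℝ} (hw : LocalBound w) (hw1 : 1 / 4 ≤ w) (k : ℕ) {θ₁ θ₂ : ℝ}
    (hθ : w < θ₁) (hθ' : θ₁ ≤ θ₂) (hθ1 : θ₂ < 1) : CoreG k Set.univ θ₁ θ₂ := by
  obtain ⟨c, c₂, ε₀, hc, -, hc₂, -, hε₀, h⟩ := exists_core_fixed hw hw1 k θ₁ θ₂ hθ hθ' hθ1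
  refine ⟨c, c₂, ε₀, hc, hc₂, hε₀, fun B ε hB hε hε' => ?_⟩
  obtain ⟨C, T₁, hC, hT₁, h⟩ := h B ε hB hε hε'
  refine ⟨C, T₁, hC, hT₁, fun T H hT hTH hHT a b ha hb hab => ?_⟩
  simp only [EG_univ]
  exact h T H hT hTH hHT a b ha hb hab

lemma SpG_univ {k : ℕ} (a b : Fin (k + 1) → ℝ) (T : ℝ) {h : ℝ} (hh : 0 ≤ h) (N : ℕ)
    (v : Fin k → ℝ) : SpG Set.univ a b T h N v = MXS.Sp a b T h N v := by
  unfold SpG MXS.Sp
  refine Finset.sup'_congr _ rfl fun i _ => ?_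
  rw [Set.inter_univ, intervalIntegral.integral_of_le (by nlinarith),
    integral_Icc_eq_integral_Ioc]

theorem maxG_univ_of_local {w : ℝ} (hw : LocalBound w) (k : ℕ) {θ₁ θ₂ : ℝ}
    (hθ : w < θ₁) (hθ1 : θ₂ < 1) : MaxG k Set.univ θ₁ θ₂ := by
  intro κ hκ hκ1
  obtain ⟨c, ε₀, hc, -, hε₀, h⟩ := exists_max_short hw k κ hκ hκ1
  refine ⟨c, ε₀, hc, hε₀, fun B ε hB hε hε' => ?_⟩
  obtain ⟨C, hC, h⟩ := h B ε hB hε hε'
  set T₁ : ℝ := max 128 (max ((4 ^ w) ^ (θ₁ - w)⁻¹) (4 ^ (1 - θ₂)⁻¹)) with hT₁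
  refine ⟨C, T₁, hC, le_trans (by norm_num) (le_max_left _ _),
    fun T H hTT hTH hHT a b ha hb hab N hN => ?_⟩
  have hT128 : 128 ≤ T := (le_max_left _ _).trans hTT
  have hT0 : 0 < T := by linarith
  have hT : 1 ≤ T := by linarith
  have h4 : (4:ℝ) ^ w ≤ T ^ (θ₁ - w) := MXA.le_rpow_of_le (by positivity) (by linarith)
    (((le_max_left _ _).trans (le_max_right _ _)).trans hTT)
  have h5 : (4:ℝ) ≤ T ^ (1 - θ₂) := MXA.le_rpow_of_le (by norm_num) (by linarith)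
    (((le_max_right _ _).trans (le_max_right _ _)).trans hTT)
  have h6 : (4 * T) ^ w ≤ H := by
    rw [Real.mul_rpow (by norm_num) hT0.le]
    calc (4:ℝ) ^ w * T ^ w ≤ T ^ (θ₁ - w) * T ^ w := by gcongr
      _ = T ^ θ₁ := by rw [← Real.rpow_add hT0, sub_add_cancel]
      _ ≤ H := hTH
  have h7 : H ≤ T / 2 := by
    refine hHT.trans ?_
    rw [le_div_iff₀ (by norm_num)]
    calc 2 * T ^ θ₂ * 2 = 4 * T ^ θ₂ := by ring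
      _ ≤ T ^ (1 - θ₂) * T ^ θ₂ := by gcongr
      _ = T := by rw [← Real.rpow_add hT0, sub_add_cancel, Real.rpow_one]
  have h8 : ∀ v, SpG Set.univ a b T (T ^ (1 - κ)) N v = MXS.Sp a b T (T ^ (1 - κ)) N v :=
    fun v => SpG_univ a b T (by positivity) N v
  simp only [h8]
  exact h T H hT128 h6 h7 a b ha hb hab N hN

/-- Theorem A: one exceptional set, all times `T` with `T ^ θ₁ ≤ ‖v‖ ≤ T ^ θ₂`. -/
theorem almost_all {w : ℝ} (hw : LocalBound w) (hw1 : 1 / 4 ≤ w) (k : ℕ) {θ₁ θ₂ : ℝ}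
    (hθ : w < θ₁) (hθ' : θ₁ ≤ θ₂) (hθ1 : θ₂ < 1) : ∃ c : ℝ, 0 < c ∧
    ∃ Ex : Set (Fin k → ℝ), MeasurableSet Ex ∧
    (∀ V : ℝ, 1 ≤ V → volume (Ex ∩ {v | ‖v‖ ≤ V}) ≤ ENNReal.ofReal (V ^ (k - c))) ∧
    ∀ B : ℝ, ∃ C : ℝ, ∀ v, v ∉ Ex → ∀ T : ℝ, 1 ≤ T → T ^ θ₁ ≤ ‖v‖ → ‖v‖ ≤ T ^ θ₂ →
    ∀ α β : Fin (k + 1) → ℝ, (∀ j, |α j| ≤ B) → (∀ j, |β j| ≤ B) →
    ‖E (fun j => α j + fx v j) (fun j => β j + fx v j) T‖ ≤ C * T ^ (1 - c) :=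
  final_of_univ (θ₀ := (w + θ₁) / 2) (θ₃ := (θ₂ + 1) / 2) (by linarith) (by linarith) hθ'
    (by linarith) (by linarith)
    (coreG_univ_of_local hw hw1 k (by linarith) (by linarith) (by linarith))
    (maxG_univ_of_local hw k (by linarith) (by linarith))

end Pool.Agent.AAS
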