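import Pool.Agent.AAS.L2C


set_option autoImplicit false

namespace Pool.Agent.AAS

open Complex Finset MeasureTheory Filter Topology Set
open Pool.Agent.H26


/-- the transform is continuous in the parameters -/
theorem avc_cont {T₀ T : ℝ} {Ψ : ℝ → ℂ} (hΨ : Measurable Ψ)
    {K : ℝ} (hK : ∀ t, ‖Ψ t‖ ≤ K) {g : ℝ → ℝ → ℂ}
    (hg : Continuous fun p : ℝ × ℝ => g p.1 p.2) :
    Continuous fun p : ℝ × ℝ => ∫ t in T₀..T, Ψ t * g p.1 (t + p.2) := by
  have hK0 : 0 ≤ K := (norm_nonneg _).trans (hK 0)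
  refine continuous_iff_continuousAt.2 fun p0 => ?_
  have hgc : Continuous fun q : (ℝ × ℝ) × ℝ => g q.1.1 (q.2 + q.1.2) :=
    hg.comp ((continuous_fst.comp continuous_fst).prodMk
      (continuous_snd.add (continuous_snd.comp continuous_fst)))
  obtain ⟨C, hC⟩ := ((isCompact_closedBall p0 1).prod (isCompact_uIcc (a := T₀) (b := T))
    ).exists_bound_of_continuousOn hgc.continuousOn
  refine intervalIntegral.continuousAt_of_dominated_interval (bound := fun _ => K * C) ?_ ?_ ?_ ?_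
  · refine Eventually.of_forall fun p => ?_
    exact (hΨ.aestronglyMeasurable.mul
      (hg.comp (continuous_const.prodMk (continuous_id.add continuous_const))).aestronglyMeasurable)
  · filter_upwards [Metric.closedBall_mem_nhds p0 one_pos] with p hp
    refine Eventually.of_forall fun t ht => ?_
    rw [norm_mul]
    exact mul_le_mul (hK t) (hC (p, t) ⟨hp, uIoc_subset_uIcc ht⟩) (norm_nonneg _) hK0
  · exact intervalIntegrable_const
  · refine Eventually.of_forall fun t _ => ?_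
    exact (continuous_const.mul (hgc.comp (continuous_id.prodMk continuous_const))).continuousAt

theorem avc_cont1 {T₀ T : ℝ} {Ψ : ℝ → ℂ} (hΨ : Measurable Ψ)
    {K : ℝ} (hK : ∀ t, ‖Ψ t‖ ≤ K) {g : ℝ → ℂ} (hg : Continuous g) :
    Continuous fun u : ℝ => ∫ t in T₀..T, Ψ t * g (t + u) := by
  have h := (avc_cont (T₀ := T₀) (T := T) hΨ hK (g := fun _ x => g x) (hg.comp continuous_snd)).comp
    (continuous_const.prodMk continuous_id : Continuous fun u : ℝ => ((0 : ℝ), u))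
  exact h

theorem avc_int {T₀ T : ℝ} {Ψ : ℝ → ℂ} (hΨ : Measurable Ψ)
    {K : ℝ} (hK : ∀ t, ‖Ψ t‖ ≤ K) {g : ℝ → ℂ} (hg : Continuous g) (u : ℝ) :
    IntervalIntegrable (fun t => Ψ t * g (t + u)) volume T₀ T := by
  have h1 : IntervalIntegrable (fun t => g (t + u)) volume T₀ T :=
    (hg.comp (continuous_id.add continuous_const)).intervalIntegrable _ _
  refine ⟨?_, ?_⟩
  · exact (h1.1.bdd_mul hΨ.aestronglyMeasurable (Eventually.of_forall hK))
  · exact (h1.2.bdd_mul hΨ.aestronglyMeasurable (Eventually.of_forall hK))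

/-- the size of the weight -/
noncomputable def avcW (H T₀ T : ℝ) (Ψ : ℝ → ℂ) : ℝ := √(2 * H * ∫ t in T₀..T, ‖Ψ t‖ ^ 2)

theorem avcW_nonneg (H T₀ T : ℝ) (Ψ : ℝ → ℂ) : 0 ≤ avcW H T₀ T Ψ := Real.sqrt_nonneg _

theorem avcW_sq {H T₀ T : ℝ} (hH : 0 < H) (hT : T₀ ≤ T) (Ψ : ℝ → ℂ) :
    avcW H T₀ T Ψ ^ 2 = 2 * H * ∫ t in T₀..T, ‖Ψ t‖ ^ 2 := by
  have : 0 ≤ ∫ t in T₀..T, ‖Ψ t‖ ^ 2 := intervalIntegral.integral_nonneg hT fun _ _ => sq_nonneg _
  exact Real.sq_sqrt (by positivity)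

theorem avb_iff {H T₀ T : ℝ} (hH : 0 < H) (hT : T₀ ≤ T) {g : ℝ → ℂ} {M : ℝ} :
    AvB H T₀ T g M ↔ 0 ≤ M ∧ ∀ Ψ : ℝ → ℂ, Measurable Ψ → (∃ K, ∀ t, ‖Ψ t‖ ≤ K) →
      L2B (-H) H (fun u => ∫ t in T₀..T, Ψ t * g (t + u)) (M * avcW H T₀ T Ψ) := by
  constructor
  · rintro ⟨hM, h⟩
    refine ⟨hM, fun Ψ hΨ hK => ⟨mul_nonneg hM (avcW_nonneg _ _ _ _), ?_⟩⟩
    refine (h Ψ hΨ hK).trans_eq ?_
    rw [mul_pow, avcW_sq hH hT]
    ring
  · rintro ⟨hM, h⟩
    refine ⟨hM, fun Ψ hΨ hK => ?_⟩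
    refine (h Ψ hΨ hK).2.trans_eq ?_
    rw [mul_pow, avcW_sq hH hT]
    ring

/-- A4 -/
theorem AvB.add {H T₀ T : ℝ} (hH : 0 < H) (hT : T₀ ≤ T) {f g : ℝ → ℂ} (hf : Continuous f)
    (hg : Continuous g) {M N : ℝ} (h1 : AvB H T₀ T f M) (h2 : AvB H T₀ T g N) :
    AvB H T₀ T (fun x => f x + g x) (M + N) := by
  rw [avb_iff hH hT] at h1 h2 ⊢
  refine ⟨add_nonneg h1.1 h2.1, ?_⟩
  rintro Ψ hΨ ⟨K, hK⟩
  have h3 := L2B.add (by linarith : -H ≤ H) (avc_cont1 hΨ hK hf) (avc_cont1 hΨ hK hg)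
    (h1.2 Ψ hΨ ⟨K, hK⟩) (h2.2 Ψ hΨ ⟨K, hK⟩)
  rw [← add_mul] at h3
  have h4 : (fun u => ∫ t in T₀..T, Ψ t * (f (t + u) + g (t + u))) =
      fun u => (∫ t in T₀..T, Ψ t * f (t + u)) + ∫ t in T₀..T, Ψ t * g (t + u) := by
    funext u
    rw [← intervalIntegral.integral_add (avc_int hΨ hK hf u) (avc_int hΨ hK hg u)]
    simp only [mul_add]
  rw [h4]
  exact h3

theorem AvB.mono {H T₀ T : ℝ} (hH : 0 < H) (hT : T₀ ≤ T) {g : ℝ → ℂ} {M N : ℝ}
    (h : AvB H T₀ T g M) (hMN : M ≤ N) : AvB H T₀ T g N := by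
  rw [avb_iff hH hT] at h ⊢
  exact ⟨h.1.trans hMN, fun Ψ hΨ hK => (h.2 Ψ hΨ hK).mono
    (mul_le_mul_of_nonneg_right hMN (avcW_nonneg _ _ _ _))⟩

theorem AvB.sum {H T₀ T : ℝ} (hH : 0 < H) (hT : T₀ ≤ T) {ι : Type*} (S : Finset ι)
    {f : ι → ℝ → ℂ} {M : ι → ℝ} (hf : ∀ i ∈ S, Continuous (f i))
    (h : ∀ i ∈ S, AvB H T₀ T (f i) (M i)) :
    AvB H T₀ T (fun x => ∑ i ∈ S, f i x) (∑ i ∈ S, M i) := by
  classical
  induction S using Finset.induction_on with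
  | empty =>
    refine ⟨by simp, fun Ψ _ _ => ?_⟩
    simp
  | insert i S hi ih =>
    simp only [Finset.sum_insert hi]
    refine AvB.add hH hT (hf i (Finset.mem_insert_self i S)) ?_
      (h i (Finset.mem_insert_self i S)) ?_
    · exact continuous_finsetSum _ fun j hj => hf j (Finset.mem_insert_of_mem hj)
    · exact ih (fun j hj => hf j (Finset.mem_insert_of_mem hj))
        (fun j hj => h j (Finset.mem_insert_of_mem hj))

theorem AvB.integral {H T₀ T : ℝ} (hH : 0 < H) (hT : T₀ ≤ T) {g : ℝ → ℝ → ℂ}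
    (hg : Continuous fun p : ℝ × ℝ => g p.1 p.2) {m : ℝ → ℝ} (hm : Integrable m)
    (hb : ∀ y, ∀ x ∈ Icc (T₀ - H) (T + H), ‖g y x‖ ≤ m y) {M : ℝ → ℝ} (hM : Integrable M)
    (hM0 : ∀ y, 0 < M y) (h : ∀ y, AvB H T₀ T (g y) (M y)) :
    AvB H T₀ T (fun x => ∫ y, g y x) (∫ y, M y) := by
  have hHH : -H ≤ H := by linarith
  rw [avb_iff hH hT]
  refine ⟨integral_nonneg fun y => (hM0 y).le, ?_⟩
  rintro Ψ hΨ ⟨K, hK⟩
  have hK0 : 0 ≤ K := (norm_nonneg _).trans (hK 0)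
  have hm0 : ∀ y, 0 ≤ m y := fun y =>
    (norm_nonneg _).trans (hb y T₀ ⟨by linarith, by linarith⟩)
  have hmem : ∀ t ∈ Icc T₀ T, ∀ u ∈ Icc (-H) H, t + u ∈ Icc (T₀ - H) (T + H) := by
    intro t ht u hu
    exact ⟨by linarith [ht.1, hu.1], by linarith [ht.2, hu.2]⟩
  have hcont := avc_cont (T₀ := T₀) (T := T) hΨ hK hg
  have hbd : ∀ y, ∀ u ∈ Icc (-H) H, ‖∫ t in T₀..T, Ψ t * g y (t + u)‖ ≤ K * (T - T₀) * m y := by
    intro y u hu
    have h1 : ∀ t ∈ Set.uIoc T₀ T, ‖Ψ t * g y (t + u)‖ ≤ K * m y := by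
      intro t ht
      rw [uIoc_of_le hT] at ht
      rw [norm_mul]
      exact mul_le_mul (hK t) (hb y _ (hmem t ⟨ht.1.le, ht.2⟩ u hu)) (norm_nonneg _) hK0
    have h2 := intervalIntegral.norm_integral_le_of_norm_le_const h1
    rw [abs_of_nonneg (by linarith)] at h2
    linarith
  have key : ∀ ε : ℝ, 0 < ε → L2B (-H) H (fun u => ∫ y, ∫ t in T₀..T, Ψ t * g y (t + u))
      ((∫ y, M y) * (avcW H T₀ T Ψ + ε)) := by
    intro ε hε
    have h1 := L2B.integral hHH (g := fun y u => ∫ t in T₀..T, Ψ t * g y (t + u)) hcont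
      (hm.const_mul (K * (T - T₀))) hbd (hM.mul_const (avcW H T₀ T Ψ + ε))
      (fun y => mul_pos (hM0 y) (by linarith [avcW_nonneg H T₀ T Ψ])) ?_
    · rwa [integral_mul_const] at h1
    · intro y
      have h2 := ((avb_iff hH hT).1 (h y)).2 Ψ hΨ ⟨K, hK⟩
      exact h2.mono (mul_le_mul_of_nonneg_left (by linarith) (hM0 y).le)
  have hswap : ∀ u ∈ Icc (-H) H, ∫ t in T₀..T, Ψ t * ∫ y, g y (t + u) =
      ∫ y, ∫ t in T₀..T, Ψ t * g y (t + u) := by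
    intro u hu
    have h0 : ∫ t in T₀..T, Ψ t * ∫ y, g y (t + u) = ∫ t in T₀..T, ∫ y, Ψ t * g y (t + u) := by
      refine intervalIntegral.integral_congr fun t _ => ?_
      exact (integral_const_mul _ _).symm
    rw [h0]
    simp only [intervalIntegral.integral_of_le hT]
    refine integral_integral_swap (f := fun t y => Ψ t * g y (t + u)) ?_
    have hbd : Integrable (fun p : ℝ × ℝ => K * m p.2)
        ((volume.restrict (Ioc T₀ T)).prod volume) :=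
      (hm.comp_snd (μ := volume.restrict (Ioc T₀ T))).const_mul _
    refine hbd.mono' ?_ ?_
    · refine AEStronglyMeasurable.mul ?_ ?_
      · exact (hΨ.comp measurable_fst).aestronglyMeasurable
      · exact (hg.comp (continuous_snd.prodMk
          (continuous_fst.add continuous_const))).aestronglyMeasurable
    · have h3 : ∀ᵐ p ∂((volume.restrict (Ioc T₀ T)).prod (volume : Measure ℝ)),
          p.1 ∈ Ioc T₀ T := by
        have h4 : ∀ᵐ t ∂(volume.restrict (Ioc T₀ T)), t ∈ Ioc T₀ T :=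
          ae_restrict_mem measurableSet_Ioc
        exact Measure.quasiMeasurePreserving_fst.ae h4
      filter_upwards [h3] with p hp
      simp only [Function.uncurry]
      rw [norm_mul]
      exact mul_le_mul (hK _) (hb _ _ (hmem _ ⟨hp.1.le, hp.2⟩ u hu)) (norm_nonneg _) hK0
  refine ⟨mul_nonneg (integral_nonneg fun y => (hM0 y).le) (avcW_nonneg _ _ _ _), ?_⟩
  have heq : ∫ u in (-H)..H, ‖∫ t in T₀..T, Ψ t * ∫ y, g y (t + u)‖ ^ 2 =
      ∫ u in (-H)..H, ‖∫ y, ∫ t in T₀..T, Ψ t * g y (t + u)‖ ^ 2 := by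
    refine intervalIntegral.integral_congr fun u hu => ?_
    rw [uIcc_of_le hHH] at hu
    simp only [hswap u hu]
  rw [heq]
  have hlim : Tendsto (fun ε : ℝ => ((∫ y, M y) * (avcW H T₀ T Ψ + ε)) ^ 2) (𝓝[>] 0)
      (𝓝 (((∫ y, M y) * (avcW H T₀ T Ψ + 0)) ^ 2)) := by
    apply Tendsto.mono_left _ nhdsWithin_le_nhds
    exact (by fun_prop : Continuous fun ε : ℝ =>
      ((∫ y, M y) * (avcW H T₀ T Ψ + ε)) ^ 2).tendsto 0
  have h3 := ge_of_tendsto hlim (by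
    filter_upwards [self_mem_nhdsWithin] with ε hε using (key ε hε).2)
  simpa using h3

theorem AvB.of_bound {H T₀ T : ℝ} (hH : 0 < H) (hT : T₀ ≤ T) {g : ℝ → ℂ} (hg : Continuous g)
    {η : ℝ} (hη : 0 ≤ η) (hb : ∀ x ∈ Icc (T₀ - H) (T + H), ‖g x‖ ≤ η) :
    AvB H T₀ T g (η * √(T - T₀)) := by
  have hHH : -H ≤ H := by linarith
  refine ⟨by positivity, ?_⟩
  rintro Ψ hΨ ⟨K, hK⟩
  set P : ℝ := ∫ t in T₀..T, ‖Ψ t‖ ^ 2 with hP
  have hK0 : 0 ≤ K := (norm_nonneg _).trans (hK 0)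
  have hi1 : IntervalIntegrable (fun t => ‖Ψ t‖) volume T₀ T := by
    have h1 : IntervalIntegrable (fun _ : ℝ => K) volume T₀ T := intervalIntegrable_const
    exact h1.mono_fun hΨ.norm.aestronglyMeasurable (Eventually.of_forall fun t => by
      change ‖‖Ψ t‖‖ ≤ ‖K‖
      rw [norm_norm, Real.norm_of_nonneg hK0]; exact hK t)
  have hi2 : IntervalIntegrable (fun t => ‖Ψ t‖ ^ 2) volume T₀ T := by
    have h1 : IntervalIntegrable (fun _ : ℝ => K ^ 2) volume T₀ T := intervalIntegrable_const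
    exact h1.mono_fun (hΨ.norm.pow_const 2).aestronglyMeasurable
      (Eventually.of_forall fun t => by
        change ‖‖Ψ t‖ ^ 2‖ ≤ ‖K ^ 2‖
        rw [Real.norm_of_nonneg (sq_nonneg _), Real.norm_of_nonneg (sq_nonneg _)]
        exact pow_le_pow_left₀ (norm_nonneg _) (hK t) 2)
  have hP0 : 0 ≤ P := intervalIntegral.integral_nonneg hT fun _ _ => sq_nonneg _
  -- Cauchy-Schwarz
  have hcs : (∫ t in T₀..T, ‖Ψ t‖) ^ 2 ≤ (T - T₀) * P := by
    set Q : ℝ := ∫ t in T₀..T, ‖Ψ t‖ with hQ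
    rcases hT.eq_or_lt with h0 | hlt
    · rw [hQ, h0]; simp [hP]
    · have hd : 0 < T - T₀ := by linarith
      have h1 : 0 ≤ ∫ t in T₀..T, (‖Ψ t‖ - Q / (T - T₀)) ^ 2 :=
        intervalIntegral.integral_nonneg hT fun _ _ => sq_nonneg _
      have h2 : ∫ t in T₀..T, (‖Ψ t‖ - Q / (T - T₀)) ^ 2 =
          P - 2 * (Q / (T - T₀)) * Q + (T - T₀) * (Q / (T - T₀)) ^ 2 := by
        have h3 : (fun t => (‖Ψ t‖ - Q / (T - T₀)) ^ 2) = fun t =>
            (‖Ψ t‖ ^ 2 - 2 * (Q / (T - T₀)) * ‖Ψ t‖) + (Q / (T - T₀)) ^ 2 := by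
          funext t; ring
        rw [h3, intervalIntegral.integral_add (hi2.sub (hi1.const_mul _))
          intervalIntegrable_const, intervalIntegral.integral_sub hi2 (hi1.const_mul _),
          intervalIntegral.integral_const_mul, intervalIntegral.integral_const, ← hP, ← hQ,
          smul_eq_mul]
      rw [h2] at h1
      have h4 : P - 2 * (Q / (T - T₀)) * Q + (T - T₀) * (Q / (T - T₀)) ^ 2 =
          P - Q ^ 2 / (T - T₀) := by
        field_simp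
        ring
      rw [h4] at h1
      have h5 : Q ^ 2 / (T - T₀) ≤ P := by linarith
      rw [div_le_iff₀ hd] at h5
      linarith
  have hpt : ∀ u ∈ Icc (-H) H, ‖∫ t in T₀..T, Ψ t * g (t + u)‖ ^ 2 ≤ η ^ 2 * ((T - T₀) * P) := by
    intro u hu
    have h1 : ‖∫ t in T₀..T, Ψ t * g (t + u)‖ ≤ ∫ t in T₀..T, η * ‖Ψ t‖ := by
      refine intervalIntegral.norm_integral_le_of_norm_le hT ?_ (hi1.const_mul _)
      refine Eventually.of_forall fun t ht => ?_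
      rw [norm_mul, mul_comm]
      exact mul_le_mul_of_nonneg_right (hb _ ⟨by linarith [ht.1, hu.1], by linarith [ht.2, hu.2]⟩)
        (norm_nonneg _)
    rw [intervalIntegral.integral_const_mul] at h1
    calc ‖∫ t in T₀..T, Ψ t * g (t + u)‖ ^ 2 ≤ (η * ∫ t in T₀..T, ‖Ψ t‖) ^ 2 :=
          pow_le_pow_left₀ (norm_nonneg _) h1 2
      _ = η ^ 2 * (∫ t in T₀..T, ‖Ψ t‖) ^ 2 := by ring
      _ ≤ η ^ 2 * ((T - T₀) * P) := mul_le_mul_of_nonneg_left hcs (sq_nonneg _)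
  calc ∫ u in (-H)..H, ‖∫ t in T₀..T, Ψ t * g (t + u)‖ ^ 2
      ≤ ∫ u in (-H)..H, η ^ 2 * ((T - T₀) * P) := by
        refine intervalIntegral.integral_mono_on hHH ?_ intervalIntegrable_const hpt
        exact ((avc_cont1 hΨ hK hg).norm.pow 2).intervalIntegrable _ _
    _ = 2 * H * (η * √(T - T₀)) ^ 2 * P := by
        rw [intervalIntegral.integral_const, smul_eq_mul, mul_pow,
          Real.sq_sqrt (by linarith : 0 ≤ T - T₀)]
        ring

theorem AvB.const_mul {H T₀ T : ℝ} (hH : 0 < H) (hT : T₀ ≤ T) {g : ℝ → ℂ} {M : ℝ} (c : ℂ)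
    (h : AvB H T₀ T g M) : AvB H T₀ T (fun x => c * g x) (‖c‖ * M) := by
  refine ⟨mul_nonneg (norm_nonneg _) h.1, fun Ψ hΨ hK => ?_⟩
  have h1 := h.2 Ψ hΨ hK
  have h2 : ∀ u, ∫ t in T₀..T, Ψ t * (c * g (t + u)) = c * ∫ t in T₀..T, Ψ t * g (t + u) := by
    intro u
    rw [← intervalIntegral.integral_const_mul]
    congr 1
    funext t
    ring
  simp only [h2, norm_mul, mul_pow]
  rw [intervalIntegral.integral_const_mul]
  calc ‖c‖ ^ 2 * ∫ u in (-H)..H, ‖∫ t in T₀..T, Ψ t * g (t + u)‖ ^ 2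
      ≤ ‖c‖ ^ 2 * (2 * H * M ^ 2 * ∫ t in T₀..T, ‖Ψ t‖ ^ 2) :=
        mul_le_mul_of_nonneg_left h1 (sq_nonneg _)
    _ = 2 * H * (‖c‖ ^ 2 * M ^ 2) * ∫ t in T₀..T, ‖Ψ t‖ ^ 2 := by ring

end Pool.Agent.AAS
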