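import Pool.Agent.AAS.Defs


set_option autoImplicit false

namespace Pool.Agent.AAS

open Complex Finset MeasureTheory Filter Topology Set
open Pool.Agent.H26

private theorem add_pos {A B : ℝ} (hAB : A ≤ B) {f g : ℝ → ℂ} (hf : Continuous f)
    (hg : Continuous g) {M N : ℝ} (hM : 0 < M) (hN : 0 < N)
    (h1 : ∫ x in A..B, ‖f x‖ ^ 2 ≤ M ^ 2) (h2 : ∫ x in A..B, ‖g x‖ ^ 2 ≤ N ^ 2) :
    ∫ x in A..B, ‖f x + g x‖ ^ 2 ≤ (M + N) ^ 2 := by
  have hpt : ∀ x ∈ Icc A B, ‖f x + g x‖ ^ 2 ≤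
      (1 + N / M) * ‖f x‖ ^ 2 + (1 + M / N) * ‖g x‖ ^ 2 := by
    intro x _
    have h3 : ‖f x + g x‖ ≤ ‖f x‖ + ‖g x‖ := norm_add_le _ _
    have h4 : ‖f x + g x‖ ^ 2 ≤ (‖f x‖ + ‖g x‖) ^ 2 :=
      pow_le_pow_left₀ (norm_nonneg _) h3 2
    refine h4.trans ?_
    have h5 : 0 ≤ (N * ‖f x‖ - M * ‖g x‖) ^ 2 / (M * N) := by positivity
    have h6 : (1 + N / M) * ‖f x‖ ^ 2 + (1 + M / N) * ‖g x‖ ^ 2 - (‖f x‖ + ‖g x‖) ^ 2 =
        (N * ‖f x‖ - M * ‖g x‖) ^ 2 / (M * N) := by
      field_simp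
      ring
    linarith
  have hc1 : Continuous fun x => ‖f x‖ ^ 2 := by fun_prop
  have hc2 : Continuous fun x => ‖g x‖ ^ 2 := by fun_prop
  calc ∫ x in A..B, ‖f x + g x‖ ^ 2
      ≤ ∫ x in A..B, ((1 + N / M) * ‖f x‖ ^ 2 + (1 + M / N) * ‖g x‖ ^ 2) := by
        refine intervalIntegral.integral_mono_on hAB ?_ ?_ hpt
        · exact (by fun_prop : Continuous fun x => ‖f x + g x‖ ^ 2).intervalIntegrable _ _
        · exact (by fun_prop : Continuous fun x => (1 + N / M) * ‖f x‖ ^ 2 +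
            (1 + M / N) * ‖g x‖ ^ 2).intervalIntegrable _ _
    _ = (1 + N / M) * (∫ x in A..B, ‖f x‖ ^ 2) + (1 + M / N) * ∫ x in A..B, ‖g x‖ ^ 2 := by
        rw [intervalIntegral.integral_add, intervalIntegral.integral_const_mul,
          intervalIntegral.integral_const_mul]
        · exact (continuous_const.mul hc1).intervalIntegrable _ _
        · exact (continuous_const.mul hc2).intervalIntegrable _ _
    _ ≤ (1 + N / M) * M ^ 2 + (1 + M / N) * N ^ 2 := by
        gcongr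
    _ = (M + N) ^ 2 := by
        field_simp
        ring

/-- A3 -/
theorem L2B.add {A B : ℝ} (hAB : A ≤ B) {f g : ℝ → ℂ} (hf : Continuous f) (hg : Continuous g)
    {M N : ℝ} (h1 : L2B A B f M) (h2 : L2B A B g N) : L2B A B (fun x => f x + g x) (M + N) := by
  refine ⟨add_nonneg h1.1 h2.1, ?_⟩
  have key : ∀ ε : ℝ, 0 < ε → ∫ x in A..B, ‖f x + g x‖ ^ 2 ≤ (M + ε + (N + ε)) ^ 2 := by
    intro ε hε
    refine add_pos hAB hf hg (by linarith [h1.1]) (by linarith [h2.1]) ?_ ?_
    · exact h1.2.trans (pow_le_pow_left₀ h1.1 (by linarith) 2)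
    · exact h2.2.trans (pow_le_pow_left₀ h2.1 (by linarith) 2)
  have hlim : Tendsto (fun ε : ℝ => (M + ε + (N + ε)) ^ 2) (𝓝[>] 0) (𝓝 ((M + 0 + (N + 0)) ^ 2)) := by
    apply Tendsto.mono_left _ nhdsWithin_le_nhds
    exact (by fun_prop : Continuous fun ε : ℝ => (M + ε + (N + ε)) ^ 2).tendsto 0
  have h3 := ge_of_tendsto hlim (by
    filter_upwards [self_mem_nhdsWithin] with ε hε using key ε hε)
  simpa using h3

theorem L2B.mono {A B : ℝ} {g : ℝ → ℂ} {M N : ℝ} (h : L2B A B g M) (hMN : M ≤ N) :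
    L2B A B g N :=
  ⟨h.1.trans hMN, h.2.trans (pow_le_pow_left₀ h.1 hMN 2)⟩

theorem L2B.sum {A B : ℝ} (hAB : A ≤ B) {ι : Type*} (S : Finset ι) {f : ι → ℝ → ℂ} {M : ι → ℝ}
    (hf : ∀ i ∈ S, Continuous (f i)) (h : ∀ i ∈ S, L2B A B (f i) (M i)) :
    L2B A B (fun x => ∑ i ∈ S, f i x) (∑ i ∈ S, M i) := by
  classical
  induction S using Finset.induction_on with
  | empty =>
    refine ⟨by simp, ?_⟩
    simp
  | insert i S hi ih =>
    simp only [Finset.sum_insert hi]
    refine L2B.add hAB (hf i (Finset.mem_insert_self i S)) ?_ (h i (Finset.mem_insert_self i S)) ?_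
    · exact continuous_finsetSum _ fun j hj => hf j (Finset.mem_insert_of_mem hj)
    · exact ih (fun j hj => hf j (Finset.mem_insert_of_mem hj))
        (fun j hj => h j (Finset.mem_insert_of_mem hj))

/-- Cauchy-Schwarz on an interval against a function of mean square at most `M`. -/
theorem L2B.cs {A B : ℝ} (hAB : A ≤ B) {G : ℝ → ℝ} {g : ℝ → ℂ} (hG : Continuous G)
    (hg : Continuous g) {s M : ℝ} (hs : 0 < s) (hM : 0 < M)
    (h1 : ∫ x in A..B, G x ^ 2 ≤ s ^ 2) (h2 : ∫ x in A..B, ‖g x‖ ^ 2 ≤ M ^ 2) :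
    ∫ x in A..B, G x * ‖g x‖ ≤ s * M := by
  have hpt : ∀ x ∈ Icc A B, G x * ‖g x‖ ≤ M / (2 * s) * G x ^ 2 + s / (2 * M) * ‖g x‖ ^ 2 := by
    intro x _
    have h5 : 0 ≤ (M * G x - s * ‖g x‖) ^ 2 / (2 * s * M) := by positivity
    have h6 : M / (2 * s) * G x ^ 2 + s / (2 * M) * ‖g x‖ ^ 2 - G x * ‖g x‖ =
        (M * G x - s * ‖g x‖) ^ 2 / (2 * s * M) := by
      field_simp
      ring
    linarith
  have hc1 : Continuous fun x => G x ^ 2 := by fun_prop
  have hc2 : Continuous fun x => ‖g x‖ ^ 2 := by fun_prop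
  calc ∫ x in A..B, G x * ‖g x‖
      ≤ ∫ x in A..B, (M / (2 * s) * G x ^ 2 + s / (2 * M) * ‖g x‖ ^ 2) := by
        refine intervalIntegral.integral_mono_on hAB ?_ ?_ hpt
        · exact (by fun_prop : Continuous fun x => G x * ‖g x‖).intervalIntegrable _ _
        · exact (by fun_prop : Continuous fun x => M / (2 * s) * G x ^ 2 +
            s / (2 * M) * ‖g x‖ ^ 2).intervalIntegrable _ _
    _ = M / (2 * s) * (∫ x in A..B, G x ^ 2) + s / (2 * M) * ∫ x in A..B, ‖g x‖ ^ 2 := by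
        rw [intervalIntegral.integral_add, intervalIntegral.integral_const_mul,
          intervalIntegral.integral_const_mul]
        · exact (continuous_const.mul hc1).intervalIntegrable _ _
        · exact (continuous_const.mul hc2).intervalIntegrable _ _
    _ ≤ M / (2 * s) * s ^ 2 + s / (2 * M) * M ^ 2 := by gcongr
    _ = s * M := by
        field_simp
        ring

theorem L2B.integral {A B : ℝ} (hAB : A ≤ B) {g : ℝ → ℝ → ℂ}
    (hg : Continuous fun p : ℝ × ℝ => g p.1 p.2) {m : ℝ → ℝ} (hm : Integrable m)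
    (hb : ∀ y, ∀ x ∈ Icc A B, ‖g y x‖ ≤ m y) {M : ℝ → ℝ} (hM : Integrable M)
    (hM0 : ∀ y, 0 < M y) (h : ∀ y, L2B A B (g y) (M y)) :
    L2B A B (fun x => ∫ y, g y x) (∫ y, M y) := by
  have hK : 0 ≤ ∫ y, M y := integral_nonneg fun y => (hM0 y).le
  refine ⟨hK, ?_⟩
  set c : ℝ → ℝ := fun x => max A (min x B) with hc
  have hcc : Continuous c := by fun_prop
  have hcm : ∀ x, c x ∈ Icc A B := fun x =>
    ⟨le_max_left _ _, max_le hAB (min_le_right _ _)⟩
  have hce : ∀ x ∈ Icc A B, c x = x := by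
    intro x hx
    simp only [hc, min_eq_left hx.2, max_eq_right hx.1]
  have hgc : Continuous fun p : ℝ × ℝ => g p.2 (c p.1) :=
    hg.comp (continuous_snd.prodMk (hcc.comp continuous_fst))
  have hgy : ∀ y, Continuous fun x => g y (c x) := fun y =>
    hgc.comp (continuous_id.prodMk continuous_const)
  have hgx : ∀ x, Continuous fun y => g y (c x) := fun x =>
    hgc.comp (continuous_const.prodMk continuous_id)
  have hGc : Continuous fun x => ∫ y, g y (c x) := by
    refine continuous_of_dominated (bound := m) ?_ ?_ hm ?_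
    · exact fun x => (hgx x).aestronglyMeasurable
    · exact fun x => Eventually.of_forall fun y => hb y _ (hcm x)
    · exact Eventually.of_forall fun y => hgy y
  have hGn : Continuous fun x => ‖∫ y, g y (c x)‖ := hGc.norm
  set G : ℝ → ℝ := fun x => ‖∫ y, g y (c x)‖ with hG
  have hm0 : ∀ y, 0 ≤ m y := fun y => (norm_nonneg _).trans (hb y A ⟨le_rfl, hAB⟩)
  have hGle : ∀ x, G x ≤ ∫ y, ‖g y (c x)‖ := fun x => norm_integral_le_integral_norm _
  have hGm : ∀ x, G x ≤ ∫ y, m y := fun x => (hGle x).trans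
    (integral_mono_of_nonneg (Eventually.of_forall fun y => norm_nonneg _) hm
      (Eventually.of_forall fun y => hb y _ (hcm x)))
  have hG0 : ∀ x, 0 ≤ G x := fun x => norm_nonneg _
  have heq : ∫ x in A..B, ‖∫ y, g y x‖ ^ 2 = ∫ x in A..B, G x ^ 2 := by
    refine intervalIntegral.integral_congr fun x hx => ?_
    rw [uIcc_of_le hAB] at hx
    simp only [hG, hce x hx]
  rw [heq]
  set a : ℝ := ∫ x in A..B, G x ^ 2 with ha
  have ha0 : 0 ≤ a := intervalIntegral.integral_nonneg hAB fun x _ => sq_nonneg _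
  rcases ha0.eq_or_lt with h0 | hpos
  · rw [← h0]; positivity
  have hs : 0 < √a := Real.sqrt_pos.2 hpos
  have hs2 : √a ^ 2 = a := Real.sq_sqrt ha0
  have hswap : ∫ x in A..B, ∫ y, G x * ‖g y (c x)‖ = ∫ y, ∫ x in A..B, G x * ‖g y (c x)‖ := by
    simp only [intervalIntegral.integral_of_le hAB]
    refine integral_integral_swap (f := fun x y => G x * ‖g y (c x)‖) ?_
    have hbd : Integrable (fun p : ℝ × ℝ => (∫ y, m y) * m p.2)
        ((volume.restrict (Ioc A B)).prod volume) :=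
      (hm.comp_snd (μ := volume.restrict (Ioc A B))).const_mul _
    refine hbd.mono' ?_ (Eventually.of_forall fun p => ?_)
    · exact ((hGn.comp continuous_fst).mul hgc.norm).aestronglyMeasurable
    · simp only [Function.uncurry]
      rw [Real.norm_of_nonneg (mul_nonneg (hG0 _) (norm_nonneg _))]
      exact mul_le_mul (hGm _) (hb _ _ (hcm _)) (norm_nonneg _)
        (integral_nonneg hm0)
  have h1 : a ≤ ∫ x in A..B, ∫ y, G x * ‖g y (c x)‖ := by
    refine intervalIntegral.integral_mono_on hAB ((hGn.pow 2).intervalIntegrable _ _) ?_ ?_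
    · refine Continuous.intervalIntegrable ?_ _ _
      have : (fun x => ∫ y, G x * ‖g y (c x)‖) = fun x => G x * ∫ y, ‖g y (c x)‖ := by
        funext x
        exact integral_const_mul _ _
      rw [this]
      refine hGn.mul ?_
      refine continuous_of_dominated (bound := m) ?_ ?_ hm ?_
      · exact fun x => (hgx x).norm.aestronglyMeasurable
      · exact fun x => Eventually.of_forall fun y => by
          rw [norm_norm]; exact hb y _ (hcm x)
      · exact Eventually.of_forall fun y => (hgy y).norm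
    · intro x _
      rw [integral_const_mul, sq]
      exact mul_le_mul_of_nonneg_left (hGle x) (hG0 x)
  have h2 : ∀ y, ∫ x in A..B, G x * ‖g y (c x)‖ ≤ √a * M y := by
    intro y
    refine L2B.cs hAB hGn (hgy y) hs (hM0 y) hs2.ge ?_
    have h3 := (h y).2
    have h4 : ∫ x in A..B, ‖g y (c x)‖ ^ 2 = ∫ x in A..B, ‖g y x‖ ^ 2 := by
      refine intervalIntegral.integral_congr fun x hx => ?_
      rw [uIcc_of_le hAB] at hx
      simp only [hce x hx]
    rw [h4]
    exact h3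
  have h5 : ∫ y, ∫ x in A..B, G x * ‖g y (c x)‖ ≤ ∫ y, √a * M y := by
    refine integral_mono_of_nonneg (Eventually.of_forall fun y => ?_) (hM.const_mul _)
      (Eventually.of_forall h2)
    exact intervalIntegral.integral_nonneg hAB fun x _ => mul_nonneg (hG0 x) (norm_nonneg _)
  have h6 : √a ^ 2 ≤ √a * ∫ y, M y := by
    rw [hs2]
    rw [integral_const_mul] at h5
    linarith [h1, hswap.le, hswap.ge]
  have h7 : √a ≤ ∫ y, M y := by
    rw [sq] at h6
    exact le_of_mul_le_mul_left h6 hs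
  calc a = √a ^ 2 := hs2.symm
    _ ≤ (∫ y, M y) ^ 2 := pow_le_pow_left₀ hs.le h7 2

end Pool.Agent.AAS
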