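import Pool.Agent.AAS.LS
import Pool.Agent.AAS.L2C

set_option autoImplicit false

namespace Pool.Agent.AAS

open Complex Finset MeasureTheory Filter Topology Set
open Pool.Agent.H26

/-- the partial integral of an exponential -/
private noncomputable def avdE (H l u : ℝ) : ℂ :=
  (cexp (I * l * H) - cexp (-(I * l * u))) / (I * l)

private lemma avdE_neg (H l : ℝ) : avdE H l (-H) = 0 := by
  unfold avdE
  have h : cexp (I * l * H) - cexp (-(I * l * ((-H : ℝ) : ℂ))) = 0 := by
    rw [sub_eq_zero]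
    congr 1
    push_cast
    ring
  rw [h, zero_div]

private lemma avdE_deriv (H : ℝ) {l : ℝ} (hl : l ≠ 0) (u : ℝ) :
    HasDerivAt (fun x : ℝ => avdE H l x) (cexp (-(I * l * u))) u := by
  have hn : (I * l : ℂ) ≠ 0 := mul_ne_zero I_ne_zero (by exact_mod_cast hl)
  have h2 : HasDerivAt (fun x : ℝ => -(I * l * (x : ℂ))) (-(I * l)) u := by
    have := (Complex.ofRealCLM.hasDerivAt (x := u)).const_mul (-(I * (l : ℂ)))
    simpa [neg_mul] using this
  have h1 : HasDerivAt (fun x : ℝ => cexp (-(I * l * x))) (cexp (-(I * l * u)) * (-(I * l))) u :=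
    h2.cexp
  have h3 := (h1.const_sub (cexp (I * l * H))).div_const (I * (l : ℂ))
  have e : -(cexp (-(I * l * u)) * (-(I * l))) / (I * l) = cexp (-(I * l * u)) := by
    rw [mul_neg, neg_neg, mul_div_assoc, div_self hn, mul_one]
  rw [e] at h3
  exact h3

private lemma avdE_norm {H l u : ℝ} (hl : l ≠ 0) (hu : u ∈ Icc (-H) H) :
    ‖avdE H l u‖ ^ 2 ≤ 4 * min (H ^ 2) (1 / l ^ 2) := by
  have hH : 0 ≤ H := by linarith [hu.1, hu.2]
  have hn : ‖(I * l : ℂ)‖ = |l| := by simp
  have hlp : 0 < |l| := abs_pos.2 hl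
  have e1 : ‖cexp (I * l * H)‖ = 1 := by
    rw [show (I * l * H : ℂ) = ((l * H : ℝ) : ℂ) * I by push_cast; ring]
    exact Complex.norm_exp_ofReal_mul_I _
  have e2 : ‖cexp (-(I * l * u))‖ = 1 := by
    rw [show (-(I * l * u) : ℂ) = ((-(l * u) : ℝ) : ℂ) * I by push_cast; ring]
    exact Complex.norm_exp_ofReal_mul_I _
  have hd : cexp (I * l * H) - cexp (-(I * l * u)) =
      cexp (-(I * l * u)) * (cexp (I * ((l * (H + u) : ℝ) : ℂ)) - 1) := by
    rw [mul_sub, ← Complex.exp_add, mul_one]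
    congr 2
    push_cast
    ring
  have b1 : ‖cexp (I * l * H) - cexp (-(I * l * u))‖ ≤ 2 := by
    have := norm_sub_le (cexp (I * l * H)) (cexp (-(I * l * u)))
    rw [e1, e2] at this
    linarith
  have b2 : ‖cexp (I * l * H) - cexp (-(I * l * u))‖ ≤ 2 * H * |l| := by
    rw [hd, norm_mul, e2, one_mul]
    refine (Real.norm_exp_I_mul_ofReal_sub_one_le).trans ?_
    rw [Real.norm_eq_abs, abs_mul, mul_comm]
    refine mul_le_mul_of_nonneg_right ?_ hlp.le
    rw [abs_of_nonneg (by linarith [hu.1])]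
    linarith [hu.2]
  rw [avdE, norm_div, hn, mul_min_of_nonneg _ _ (by norm_num : (0 : ℝ) ≤ 4)]
  refine le_min ?_ ?_
  · have h : ‖cexp (I * l * H) - cexp (-(I * l * u))‖ / |l| ≤ 2 * H := by
      rw [div_le_iff₀ hlp]
      exact b2
    calc (‖cexp (I * l * H) - cexp (-(I * l * u))‖ / |l|) ^ 2 ≤ (2 * H) ^ 2 :=
          pow_le_pow_left₀ (by positivity) h 2
      _ = 4 * H ^ 2 := by ring
  · have h : ‖cexp (I * l * H) - cexp (-(I * l * u))‖ / |l| ≤ 2 / |l| := by gcongr
    calc (‖cexp (I * l * H) - cexp (-(I * l * u))‖ / |l|) ^ 2 ≤ (2 / |l|) ^ 2 :=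
          pow_le_pow_left₀ (by positivity) h 2
      _ = 4 * (1 / l ^ 2) := by rw [div_pow, sq_abs]; ring

private lemma avd_cs {H : ℝ} (hH : 0 < H) {g : ℝ → ℝ} (hg : Continuous g) :
    (∫ u in (-H)..H, g u) ^ 2 ≤ 2 * H * ∫ u in (-H)..H, g u ^ 2 := by
  set m := (∫ u in (-H)..H, g u) / (2 * H) with hm
  have h1 : 0 ≤ ∫ u in (-H)..H, (g u - m) ^ 2 :=
    intervalIntegral.integral_nonneg (by linarith) fun _ _ => sq_nonneg _
  have h2 : ∫ u in (-H)..H, (g u - m) ^ 2 =
      (∫ u in (-H)..H, g u ^ 2) - 2 * m * (∫ u in (-H)..H, g u) + 2 * H * m ^ 2 := by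
    have h : ∀ u, (g u - m) ^ 2 = (g u ^ 2 - 2 * m * g u) + m ^ 2 := fun u => by ring
    simp_rw [h]
    rw [intervalIntegral.integral_add, intervalIntegral.integral_sub,
      intervalIntegral.integral_const_mul, intervalIntegral.integral_const]
    · simp only [smul_eq_mul]
      ring
    all_goals exact Continuous.intervalIntegrable (by fun_prop) _ _
  rw [h2] at h1
  have h3 : (∫ u in (-H)..H, g u) = m * (2 * H) := by
    rw [hm]
    field_simp
  rw [h3] at h1 ⊢
  have h4 : 2 * H * m ^ 2 ≤ ∫ u in (-H)..H, g u ^ 2 := by nlinarith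
  have h5 := mul_le_mul_of_nonneg_left h4 (by positivity : 0 ≤ 2 * H)
  nlinarith

private lemma avd_swap {a b a' b' : ℝ} (hab : a ≤ b) (hab' : a' ≤ b') {f : ℝ → ℝ → ℝ}
    (hf : Continuous fun p : ℝ × ℝ => f p.1 p.2) :
    ∫ x in a..b, ∫ y in a'..b', f x y = ∫ y in a'..b', ∫ x in a..b, f x y := by
  simp only [intervalIntegral.integral_of_le hab, intervalIntegral.integral_of_le hab']
  refine integral_integral_swap (f := f) ?_
  rw [Measure.prod_restrict]
  have h1 : IntegrableOn (Function.uncurry f) (Icc a b ×ˢ Icc a' b') (volume.prod volume) :=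
    ContinuousOn.integrableOn_compact (isCompact_Icc.prod isCompact_Icc) hf.continuousOn
  exact h1.mono_set (Set.prod_mono Ioc_subset_Icc_self Ioc_subset_Icc_self)

/-- the second moment of a generalized Dirichlet polynomial with a slowly varying factor, averaged
over `[-H, H]`: integrate by parts in `u`, with `∫ v in -H..u, exp (-(I lam v))` of size at most
`2 min(H, 1/|lam|)`, then the large sieve and Minkowski -/
theorem avd_poly {ι : Type*} (S : Finset ι) (lam : ι → ℝ) {δ : ℝ} (hδ : 0 < δ)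
    (hsep : ∀ r ∈ S, ∀ s ∈ S, r ≠ s → δ ≤ |lam r - lam s|) (hlam : ∀ r ∈ S, lam r ≠ 0)
    (c : ι → ℂ) {A A' H V : ℝ} (hAA : A ≤ A') (hH : 0 < H) (hV : 0 ≤ V) {Y Y' : ℝ → ℂ}
    (hYc : Continuous Y) (hY'c : Continuous Y') (hY : ∀ x, HasDerivAt Y (Y' x) x)
    (hYb : ∀ x ∈ Icc (A - H) (A' + H), ‖Y x‖ ≤ V)
    (hY'b : ∀ x ∈ Icc (A - H) (A' + H), ‖Y' x‖ ≤ V / H) :
    L2B A A' (fun t => ∫ u in (-H)..H, Y (t + u) *
      ∑ r ∈ S, c r * cexp (-(I * lam r * (t + u))))
      (40 * V * √(((A' - A) + 1 / δ) * ∑ r ∈ S, ‖c r‖ ^ 2 * min (H ^ 2) (1 / lam r ^ 2))) := by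
  set R : ℝ := ((A' - A) + 1 / δ) * ∑ r ∈ S, ‖c r‖ ^ 2 * min (H ^ 2) (1 / lam r ^ 2) with hR
  have hW : 0 ≤ (A' - A) + 1 / δ := by
    have : 0 < 1 / δ := by positivity
    linarith
  have hR0 : 0 ≤ R := by
    refine mul_nonneg hW (Finset.sum_nonneg fun r _ => ?_)
    positivity
  set Q : ℝ → ℝ → ℂ := fun t u => ∑ r ∈ S, (c r * avdE H (lam r) u) * cexp (-(I * lam r * t))
    with hQ
  have hQu : ∀ t u : ℝ, HasDerivAt (fun x : ℝ => Q t x)
      (∑ r ∈ S, c r * cexp (-(I * lam r * (t + u)))) u := by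
    intro t u
    have h : ∀ r ∈ S, HasDerivAt (fun x : ℝ => (c r * avdE H (lam r) x) * cexp (-(I * lam r * t)))
        (c r * cexp (-(I * lam r * (t + u)))) u := by
      intro r hr
      have h1 := ((avdE_deriv H (hlam r hr) u).const_mul (c r)).mul_const (cexp (-(I * lam r * t)))
      have e : c r * cexp (-(I * lam r * u)) * cexp (-(I * lam r * t)) =
          c r * cexp (-(I * lam r * (t + u))) := by
        rw [mul_assoc, ← Complex.exp_add]
        congr 2
        ring
      rw [e] at h1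
      exact h1
    exact HasDerivAt.fun_sum h
  have hEc : ∀ r ∈ S, Continuous fun x : ℝ => avdE H (lam r) x := fun r hr =>
    continuous_iff_continuousAt.2 fun x => (avdE_deriv H (hlam r hr) x).continuousAt
  have hQc : Continuous fun p : ℝ × ℝ => Q p.1 p.2 := by
    have hterm : ∀ r ∈ S, Continuous fun p : ℝ × ℝ =>
        (c r * avdE H (lam r) p.2) * cexp (-(I * lam r * (p.1 : ℝ))) := by
      intro r hr
      have h1 : Continuous fun p : ℝ × ℝ => c r * avdE H (lam r) p.2 :=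
        Continuous.mul continuous_const (Continuous.comp (hEc r hr) continuous_snd)
      have h2 : Continuous fun p : ℝ × ℝ => cexp (-(I * (lam r : ℂ) * ((p.1 : ℝ) : ℂ))) := by
        fun_prop
      exact Continuous.mul h1 h2
    exact continuous_finsetSum S hterm
  have hQt : ∀ u : ℝ, Continuous fun t : ℝ => Q t u := by
    intro u
    have h1 : Continuous fun t : ℝ => ((t, u) : ℝ × ℝ) := by fun_prop
    have h2 := hQc.comp h1
    simpa only [Function.comp_def] using h2
  have hQx : ∀ t : ℝ, Continuous fun u : ℝ => Q t u := by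
    intro t
    have h1 : Continuous fun u : ℝ => ((t, u) : ℝ × ℝ) := by fun_prop
    have h2 := hQc.comp h1
    simpa only [Function.comp_def] using h2
  have hQ2 : ∀ u ∈ Icc (-H) H, ∫ t in A..A', ‖Q t u‖ ^ 2 ≤ 100 * R := by
    intro u hu
    refine (large_sieve S lam hδ hsep (fun r => c r * avdE H (lam r) u) hAA).trans ?_
    have h1 : ∑ r ∈ S, ‖c r * avdE H (lam r) u‖ ^ 2 ≤
        4 * ∑ r ∈ S, ‖c r‖ ^ 2 * min (H ^ 2) (1 / lam r ^ 2) := by
      rw [Finset.mul_sum]
      refine Finset.sum_le_sum fun r hr => ?_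
      rw [norm_mul, mul_pow]
      have := mul_le_mul_of_nonneg_left (avdE_norm (hlam r hr) hu) (sq_nonneg ‖c r‖)
      linarith
    have h2 := mul_le_mul_of_nonneg_left h1 (by positivity : 0 ≤ 25 * ((A' - A) + 1 / δ))
    rw [hR]
    linarith
  set F : ℝ → ℂ := fun t => ∫ u in (-H)..H, Y (t + u) *
    ∑ r ∈ S, c r * cexp (-(I * lam r * (t + u))) with hFdef
  have hFc : Continuous F := by
    refine intervalIntegral.continuous_parametric_intervalIntegral_of_continuous' ?_ _ _
    refine (hYc.comp (continuous_fst.add continuous_snd)).mul ?_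
    refine continuous_finsetSum _ fun r _ => ?_
    fun_prop
  have hF : ∀ t, F t = Y (t + H) * Q t H - ∫ u in (-H)..H, Y' (t + u) * Q t u := by
    intro t
    have h1 := intervalIntegral.integral_mul_deriv_eq_deriv_mul (a := -H) (b := H)
      (u := fun x => Y (t + x)) (v := fun x => Q t x) (u' := fun x => Y' (t + x))
      (v' := fun x => ∑ r ∈ S, c r * cexp (-(I * lam r * (t + x))))
      (fun x _ => (hY (t + x)).comp_const_add t x) (fun x _ => hQu t x)
      ((hY'c.comp (continuous_const.add continuous_id)).intervalIntegrable _ _) ?_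
    · have h2 : Q t (-H) = 0 := by
        simp only [hQ, avdE_neg, mul_zero, zero_mul, Finset.sum_const_zero]
      simp only [hFdef]
      rw [h1, h2, mul_zero, sub_zero]
    · refine Continuous.intervalIntegrable ?_ _ _
      refine continuous_finsetSum _ fun r _ => ?_
      fun_prop
  have hpt : ∀ t ∈ Icc A A', ‖F t‖ ^ 2 ≤ 3 * V ^ 2 * ‖Q t H‖ ^ 2 +
      3 * (V ^ 2 / H) * ∫ u in (-H)..H, ‖Q t u‖ ^ 2 := by
    intro t ht
    have hYt : ‖Y (t + H)‖ ≤ V := hYb _ ⟨by linarith [ht.1], by linarith [ht.2]⟩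
    have ha : ‖Y (t + H) * Q t H‖ ≤ V * ‖Q t H‖ := by
      rw [norm_mul]
      gcongr
    have hb : ‖∫ u in (-H)..H, Y' (t + u) * Q t u‖ ≤ V / H * ∫ u in (-H)..H, ‖Q t u‖ := by
      rw [← intervalIntegral.integral_const_mul]
      refine (intervalIntegral.norm_integral_le_integral_norm (by linarith)).trans ?_
      refine intervalIntegral.integral_mono_on (by linarith) ?_ ?_ ?_
      · exact (((hY'c.comp (continuous_const.add continuous_id)).mul (hQx t)).norm).intervalIntegrable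
          _ _
      · exact (continuous_const.mul (hQx t).norm).intervalIntegrable _ _
      · intro u hu
        rw [norm_mul]
        have := hY'b (t + u) ⟨by linarith [ht.1, hu.1], by linarith [ht.2, hu.2]⟩
        gcongr
    have hc := avd_cs hH (hQx t).norm
    have hb2 : ‖∫ u in (-H)..H, Y' (t + u) * Q t u‖ ^ 2 ≤
        2 * (V ^ 2 / H) * ∫ u in (-H)..H, ‖Q t u‖ ^ 2 := by
      calc ‖∫ u in (-H)..H, Y' (t + u) * Q t u‖ ^ 2
          ≤ (V / H * ∫ u in (-H)..H, ‖Q t u‖) ^ 2 := pow_le_pow_left₀ (norm_nonneg _) hb 2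
        _ = (V / H) ^ 2 * (∫ u in (-H)..H, ‖Q t u‖) ^ 2 := by ring
        _ ≤ (V / H) ^ 2 * (2 * H * ∫ u in (-H)..H, ‖Q t u‖ ^ 2) := by gcongr
        _ = 2 * (V ^ 2 / H) * ∫ u in (-H)..H, ‖Q t u‖ ^ 2 := by
            field_simp
    have ha2 : ‖Y (t + H) * Q t H‖ ^ 2 ≤ V ^ 2 * ‖Q t H‖ ^ 2 := by
      rw [← mul_pow]
      exact pow_le_pow_left₀ (norm_nonneg _) ha 2
    rw [hF t]
    set x := ‖Y (t + H) * Q t H‖ with hx
    set y := ‖∫ u in (-H)..H, Y' (t + u) * Q t u‖ with hy
    have h1 : ‖Y (t + H) * Q t H - ∫ u in (-H)..H, Y' (t + u) * Q t u‖ ≤ x + y := norm_sub_le _ _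
    have h2 : ‖Y (t + H) * Q t H - ∫ u in (-H)..H, Y' (t + u) * Q t u‖ ^ 2 ≤ (x + y) ^ 2 :=
      pow_le_pow_left₀ (norm_nonneg _) h1 2
    have h3 : (x + y) ^ 2 ≤ 3 * x ^ 2 + 3 / 2 * y ^ 2 := by nlinarith [sq_nonneg (2 * x - y)]
    linarith
  refine ⟨by positivity, ?_⟩
  have hQ2c : Continuous fun p : ℝ × ℝ => ‖Q p.1 p.2‖ ^ 2 := hQc.norm.pow 2
  have hIc : Continuous fun t => ∫ u in (-H)..H, ‖Q t u‖ ^ 2 :=
    intervalIntegral.continuous_parametric_intervalIntegral_of_continuous' hQ2c _ _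
  have hswap : ∫ t in A..A', ∫ u in (-H)..H, ‖Q t u‖ ^ 2 ≤ 2 * H * (100 * R) := by
    rw [avd_swap hAA (by linarith) hQ2c]
    have h : ∫ u in (-H)..H, ∫ t in A..A', ‖Q t u‖ ^ 2 ≤ ∫ u in (-H)..H, 100 * R := by
      refine intervalIntegral.integral_mono_on (by linarith) ?_ ?_ hQ2
      · refine Continuous.intervalIntegrable ?_ _ _
        refine intervalIntegral.continuous_parametric_intervalIntegral_of_continuous'
          (f := fun u t => ‖Q t u‖ ^ 2) ?_ _ _
        have h1 : Continuous fun p : ℝ × ℝ => ((p.2, p.1) : ℝ × ℝ) := by fun_prop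
        have h2 := hQ2c.comp h1
        simpa only [Function.comp_def, Function.uncurry_def] using h2
      · exact continuous_const.intervalIntegrable _ _
    refine h.trans (le_of_eq ?_)
    rw [intervalIntegral.integral_const, smul_eq_mul]
    ring
  have hHmem : H ∈ Icc (-H) H := ⟨by linarith, le_rfl⟩
  calc ∫ t in A..A', ‖F t‖ ^ 2
      ≤ ∫ t in A..A', (3 * V ^ 2 * ‖Q t H‖ ^ 2 +
          3 * (V ^ 2 / H) * ∫ u in (-H)..H, ‖Q t u‖ ^ 2) := by
        refine intervalIntegral.integral_mono_on hAA ((hFc.norm.pow 2).intervalIntegrable _ _) ?_ hpt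
        exact ((continuous_const.mul ((hQt H).norm.pow 2)).add
          (continuous_const.mul hIc)).intervalIntegrable _ _
    _ = 3 * V ^ 2 * (∫ t in A..A', ‖Q t H‖ ^ 2) +
          3 * (V ^ 2 / H) * ∫ t in A..A', ∫ u in (-H)..H, ‖Q t u‖ ^ 2 := by
        rw [intervalIntegral.integral_add, intervalIntegral.integral_const_mul,
          intervalIntegral.integral_const_mul]
        · exact (continuous_const.mul ((hQt H).norm.pow 2)).intervalIntegrable _ _
        · exact (continuous_const.mul hIc).intervalIntegrable _ _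
    _ ≤ 3 * V ^ 2 * (100 * R) + 3 * (V ^ 2 / H) * (2 * H * (100 * R)) := by
        gcongr
        exact hQ2 H hHmem
    _ = 900 * (V ^ 2 * R) := by
        field_simp
        ring
    _ ≤ (40 * V * √R) ^ 2 := by
        rw [mul_pow, mul_pow, Real.sq_sqrt hR0]
        have : 0 ≤ V ^ 2 * R := by positivity
        nlinarith

end Pool.Agent.AAS
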