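import Pool.Agent.AAS.AVK
import Pool.Agent.AAS.DEC
import Pool.Agent.AAS.CTS


set_option autoImplicit false

namespace Pool.Agent.AAS

open Complex Finset MeasureTheory Filter Topology Set
open Pool.Agent.H26

/-- the low blocks -/
private theorem avf_low {T H ε C : ℝ} (hT : 1 ≤ T) (hH : 0 < H) (hε : 0 < ε) (hC : 0 ≤ C)
    {J j : ℕ} (hJ : J ≤ j) (hj : (2:ℝ) ^ j ≤ T) :
    C * (T ^ ε * 2 ^ (-(1 / 2 + ε) * (j:ℝ)) * √((1 + 2 ^ j / H) * (T + 2 ^ j))) ≤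
      2 * C * (T ^ (1 / 2 + ε) * (2 ^ (-(J : ℝ) / 2) + H ^ (-(1 / 2) : ℝ))) := by
  have hT0 : 0 < T := by linarith
  have h2j : (0:ℝ) < 2 ^ j := by positivity
  have e1 : (2:ℝ) ^ j = ((2:ℝ) ^ ((j:ℝ) / 2)) ^ 2 := by
    rw [← Real.rpow_natCast, ← Real.rpow_natCast, ← Real.rpow_mul (by norm_num)]
    congr 1; push_cast; ring
  have e2 : T = (T ^ (1 / 2 : ℝ)) ^ 2 := by
    rw [← Real.rpow_natCast, ← Real.rpow_mul hT0.le]; norm_num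
  have e3 : 1 / H = (H ^ (-(1 / 2) : ℝ)) ^ 2 := by
    rw [← Real.rpow_natCast, ← Real.rpow_mul hH.le]
    norm_num [Real.rpow_neg_one]
  set t := T ^ (1 / 2 : ℝ) with ht
  set q := (2:ℝ) ^ ((j:ℝ) / 2) with hq
  set h := H ^ (-(1 / 2) : ℝ) with hh
  have ht0 : 0 < t := Real.rpow_pos_of_pos hT0 _
  have hq0 : 0 < q := Real.rpow_pos_of_pos (by norm_num) _
  have hh0 : 0 < h := Real.rpow_pos_of_pos hH _
  have hs : √((1 + 2 ^ j / H) * (T + 2 ^ j)) ≤ 2 * (t * (1 + q * h)) := by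
    apply Real.sqrt_le_iff.mpr
    refine ⟨by positivity, ?_⟩
    have : (2:ℝ) ^ j / H = q ^ 2 * h ^ 2 := by rw [div_eq_mul_one_div, e1, e3]
    rw [this]
    have h1 : T + 2 ^ j ≤ 2 * t ^ 2 := by rw [← e2]; linarith
    have h2 : 1 + q ^ 2 * h ^ 2 ≤ (1 + q * h) ^ 2 := by nlinarith [mul_pos hq0 hh0]
    calc (1 + q ^ 2 * h ^ 2) * (T + 2 ^ j) ≤ (1 + q * h) ^ 2 * (2 * t ^ 2) := by gcongr
      _ ≤ (2 * (t * (1 + q * h))) ^ 2 := by nlinarith [sq_nonneg (t * (1 + q * h))]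
  have e4 : (2:ℝ) ^ (-(1 / 2 + ε) * (j:ℝ)) * q = 2 ^ (-ε * (j:ℝ)) := by
    rw [hq, ← Real.rpow_add (by norm_num)]; congr 1; ring
  have e5 : (2:ℝ) ^ (-(1 / 2 + ε) * (j:ℝ)) ≤ 2 ^ (-(J : ℝ) / 2) := by
    apply Real.rpow_le_rpow_of_exponent_le (by norm_num)
    have : (J:ℝ) ≤ j := by exact_mod_cast hJ
    have h0 : (0:ℝ) ≤ j := Nat.cast_nonneg j
    nlinarith
  have e6 : (2:ℝ) ^ (-ε * (j:ℝ)) ≤ 1 := by
    apply Real.rpow_le_one_of_one_le_of_nonpos (by norm_num)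
    have h0 : (0:ℝ) ≤ j := Nat.cast_nonneg j
    nlinarith
  have e7 : T ^ (1 / 2 + ε) = T ^ ε * t := by
    rw [ht, ← Real.rpow_add hT0]; congr 1; ring
  have hTe : 0 < T ^ ε := Real.rpow_pos_of_pos hT0 _
  have hp : (0:ℝ) < (2:ℝ) ^ (-(1 / 2 + ε) * (j:ℝ)) := Real.rpow_pos_of_pos (by norm_num) _
  calc C * (T ^ ε * 2 ^ (-(1 / 2 + ε) * (j:ℝ)) * √((1 + 2 ^ j / H) * (T + 2 ^ j)))
      ≤ C * (T ^ ε * 2 ^ (-(1 / 2 + ε) * (j:ℝ)) * (2 * (t * (1 + q * h)))) := by gcongr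
    _ = 2 * C * (T ^ ε * t * (2 ^ (-(1 / 2 + ε) * (j:ℝ)) +
        (2 ^ (-(1 / 2 + ε) * (j:ℝ)) * q) * h)) := by ring
    _ ≤ 2 * C * (T ^ ε * t * (2 ^ (-(J : ℝ) / 2) + 1 * h)) := by
        rw [e4]; gcongr
    _ = _ := by rw [e7]; ring

/-- the high blocks -/
private theorem avf_high {T H ε C : ℝ} (hT : 1 ≤ T) (hH : 0 < H) (hε : 0 < ε) (hC : 0 ≤ C)
    {J j : ℕ} (hJ : (2:ℝ) ^ J ≤ T) (hj : T ≤ (2:ℝ) ^ j) :
    C * (T ^ (3 / 4 : ℝ) * 2 ^ (-(1 / 2 + (3 / 4 : ℝ)) * (j:ℝ)) *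
      √((1 + 2 ^ j / H) * (T + 2 ^ j))) ≤
      2 * C * (T ^ (1 / 2 + ε) * (2 ^ (-(J : ℝ) / 2) + H ^ (-(1 / 2) : ℝ))) := by
  have hT0 : 0 < T := by linarith
  have h2j : (0:ℝ) < 2 ^ j := by positivity
  have e1 : (2:ℝ) ^ j = ((2:ℝ) ^ ((j:ℝ) / 2)) ^ 2 := by
    rw [← Real.rpow_natCast, ← Real.rpow_natCast, ← Real.rpow_mul (by norm_num)]
    congr 1; push_cast; ring
  have e3 : 1 / H = (H ^ (-(1 / 2) : ℝ)) ^ 2 := by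
    rw [← Real.rpow_natCast, ← Real.rpow_mul hH.le]
    norm_num [Real.rpow_neg_one]
  set q := (2:ℝ) ^ ((j:ℝ) / 2) with hq
  set h := H ^ (-(1 / 2) : ℝ) with hh
  have hq0 : 0 < q := Real.rpow_pos_of_pos (by norm_num) _
  have hh0 : 0 < h := Real.rpow_pos_of_pos hH _
  have hs : √((1 + 2 ^ j / H) * (T + 2 ^ j)) ≤ 2 * (q * (1 + q * h)) := by
    apply Real.sqrt_le_iff.mpr
    refine ⟨by positivity, ?_⟩
    have : (2:ℝ) ^ j / H = q ^ 2 * h ^ 2 := by rw [div_eq_mul_one_div, e1, e3]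
    rw [this]
    have h1 : T + 2 ^ j ≤ 2 * q ^ 2 := by rw [← e1]; linarith
    have h2 : 1 + q ^ 2 * h ^ 2 ≤ (1 + q * h) ^ 2 := by nlinarith [mul_pos hq0 hh0]
    calc (1 + q ^ 2 * h ^ 2) * (T + 2 ^ j) ≤ (1 + q * h) ^ 2 * (2 * q ^ 2) := by gcongr
      _ ≤ (2 * (q * (1 + q * h))) ^ 2 := by nlinarith [sq_nonneg (q * (1 + q * h))]
  have hp : (0:ℝ) < (2:ℝ) ^ (-(1 / 2 + (3 / 4 : ℝ)) * (j:ℝ)) :=
    Real.rpow_pos_of_pos (by norm_num) _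
  have hT34 : (0:ℝ) < T ^ (3 / 4 : ℝ) := Real.rpow_pos_of_pos hT0 _
  -- T^(3/4) 2^(-3j/4) ≤ 1
  have e4 : (2:ℝ) ^ (-(1 / 2 + (3 / 4 : ℝ)) * (j:ℝ)) * q = ((2:ℝ) ^ j) ^ (-(3 / 4) : ℝ) := by
    rw [hq, ← Real.rpow_add (by norm_num), ← Real.rpow_natCast, ← Real.rpow_mul (by norm_num)]
    congr 1; ring
  have e5 : (2:ℝ) ^ (-(1 / 2 + (3 / 4 : ℝ)) * (j:ℝ)) * q * q = ((2:ℝ) ^ j) ^ (-(1 / 4) : ℝ) := by
    rw [hq, ← Real.rpow_add (by norm_num), ← Real.rpow_add (by norm_num),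
      ← Real.rpow_natCast, ← Real.rpow_mul (by norm_num)]
    congr 1; ring
  have e6 : ((2:ℝ) ^ j) ^ (-(3 / 4) : ℝ) ≤ T ^ (-(3 / 4) : ℝ) :=
    Real.rpow_le_rpow_of_nonpos hT0 hj (by norm_num)
  have e7 : ((2:ℝ) ^ j) ^ (-(1 / 4) : ℝ) ≤ T ^ (-(1 / 4) : ℝ) :=
    Real.rpow_le_rpow_of_nonpos hT0 hj (by norm_num)
  have e8 : T ^ (3 / 4 : ℝ) * T ^ (-(3 / 4) : ℝ) = 1 := by
    rw [← Real.rpow_add hT0]; norm_num
  have e9 : T ^ (3 / 4 : ℝ) * T ^ (-(1 / 4) : ℝ) = T ^ (1 / 2 : ℝ) := by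
    rw [← Real.rpow_add hT0]; norm_num
  have e10 : (1:ℝ) ≤ T ^ (1 / 2 : ℝ) * 2 ^ (-(J : ℝ) / 2) := by
    have : (2:ℝ) ^ ((J : ℝ) / 2) ≤ T ^ (1 / 2 : ℝ) := by
      have h1 : (2:ℝ) ^ ((J : ℝ) / 2) = ((2:ℝ) ^ J) ^ (1 / 2 : ℝ) := by
        rw [← Real.rpow_natCast, ← Real.rpow_mul (by norm_num)]; congr 1; ring
      rw [h1]
      exact Real.rpow_le_rpow (by positivity) hJ (by norm_num)
    have h2 : (2:ℝ) ^ ((J : ℝ) / 2) * 2 ^ (-(J : ℝ) / 2) = 1 := by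
      rw [← Real.rpow_add (by norm_num)]
      have : (J:ℝ) / 2 + -(J:ℝ) / 2 = 0 := by ring
      rw [this, Real.rpow_zero]
    have h3 : (0:ℝ) < (2:ℝ) ^ (-(J : ℝ) / 2) := Real.rpow_pos_of_pos (by norm_num) _
    calc (1:ℝ) = (2:ℝ) ^ ((J : ℝ) / 2) * 2 ^ (-(J : ℝ) / 2) := h2.symm
      _ ≤ _ := by gcongr
  have e11 : T ^ (1 / 2 : ℝ) ≤ T ^ (1 / 2 + ε) :=
    Real.rpow_le_rpow_of_exponent_le hT (by linarith)
  have h3 : (0:ℝ) < (2:ℝ) ^ (-(J : ℝ) / 2) := Real.rpow_pos_of_pos (by norm_num) _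
  calc C * (T ^ (3 / 4 : ℝ) * 2 ^ (-(1 / 2 + (3 / 4 : ℝ)) * (j:ℝ)) *
        √((1 + 2 ^ j / H) * (T + 2 ^ j)))
      ≤ C * (T ^ (3 / 4 : ℝ) * 2 ^ (-(1 / 2 + (3 / 4 : ℝ)) * (j:ℝ)) *
        (2 * (q * (1 + q * h)))) := by gcongr
    _ = 2 * C * (T ^ (3 / 4 : ℝ) * (2 ^ (-(1 / 2 + (3 / 4 : ℝ)) * (j:ℝ)) * q) +
        T ^ (3 / 4 : ℝ) * (2 ^ (-(1 / 2 + (3 / 4 : ℝ)) * (j:ℝ)) * q * q) * h) := by ring
    _ ≤ 2 * C * (T ^ (3 / 4 : ℝ) * T ^ (-(3 / 4) : ℝ) +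
        T ^ (3 / 4 : ℝ) * T ^ (-(1 / 4) : ℝ) * h) := by
        rw [e5, e4]; gcongr
    _ = 2 * C * (1 + T ^ (1 / 2 : ℝ) * h) := by rw [e8, e9]
    _ ≤ 2 * C * (T ^ (1 / 2 : ℝ) * 2 ^ (-(J : ℝ) / 2) + T ^ (1 / 2 : ℝ) * h) := by gcongr
    _ = 2 * C * (T ^ (1 / 2 : ℝ) * (2 ^ (-(J : ℝ) / 2) + h)) := by ring
    _ ≤ _ := by gcongr

/-- E2 -/
theorem exists_avb_pf (B ε : ℝ) (hB : 0 ≤ B) (hε : 0 < ε) (hε1 : ε ≤ 1 / 100) :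
    ∃ C : ℝ, 1 ≤ C ∧ ∀ T T₀ H : ℝ, 1 ≤ T → T ^ (7 / 8 : ℝ) ≤ T₀ → T₀ ≤ T → 1 ≤ H →
    H ≤ T₀ / 2 → ∀ a b : ℝ, |a| ≤ B → |b| ≤ B → a ≠ b → ∀ J : ℕ,
    (2:ℝ) ^ J ≤ T ^ (1 / 40 : ℝ) → AvB H T₀ T (fun x => pf a b x - lo a b J x)
      (C * (1 + 1 / (a - b) ^ 2) * (T ^ (1 / 2 + 3 * ε) *
        (2 ^ (-(J : ℝ) / 2) + H ^ (-(1 / 2) : ℝ)))) := by
  obtain ⟨C₁, hC₁, h₁⟩ := exists_avb_block B ε hB hε (by linarith)
  obtain ⟨C₂, hC₂, h₂⟩ := exists_avb_block B (3 / 4) hB (by norm_num) le_rfl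
  obtain ⟨C₃, hC₃, h₃⟩ := exists_pf_decomp B ε hB hε hε1
  set N : ℝ := 1 / ε / Real.log 2 + 1 with hN
  have hlog2 : 0 < Real.log 2 := Real.log_pos (by norm_num)
  have hN1 : 1 ≤ N := by
    have : 0 ≤ 1 / ε / Real.log 2 := by positivity
    linarith
  refine ⟨2 * (N * (2 * C₁) + 8 * N * (2 * C₂)) + C₃, by nlinarith, ?_⟩
  intro T T₀ H hT hT₀ hT₀T hH hHT a b ha hb hab J hJ
  have hT0 : 0 < T := by linarith
  have hH0 : 0 < H := by linarith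
  set D : ℝ := 1 + 1 / (a - b) ^ 2 with hD
  have hD1 : 1 ≤ D := by
    have : 0 ≤ 1 / (a - b) ^ 2 := by positivity
    linarith
  obtain ⟨n, hn1, hn2⟩ := exists_nat_pow_near hT (by norm_num : (1:ℝ) < 2)
  set J₁ := n + 1 with hJ₁
  set J₂ := 8 * J₁ with hJ₂
  have hJT : (2:ℝ) ^ J ≤ T := hJ.trans (by
    conv_rhs => rw [← Real.rpow_one T]
    exact Real.rpow_le_rpow_of_exponent_le hT (by norm_num))
  have hJJ : J ≤ J₁ := by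
    have : (2:ℝ) ^ J < 2 ^ (n + 1) := lt_of_le_of_lt hJT hn2
    exact ((pow_lt_pow_iff_right₀ (by norm_num : (1:ℝ) < 2)).mp this).le
  have hJ12 : J₁ ≤ J₂ := by omega
  have hT8 : T ^ (8:ℝ) ≤ 2 ^ J₂ := by
    have h8 : T ^ (8:ℝ) = T ^ 8 := by exact_mod_cast Real.rpow_natCast T 8
    rw [h8, hJ₂, mul_comm, pow_mul]
    exact pow_le_pow_left₀ hT0.le hn2.le 8
  have hnT : (J₁ : ℝ) ≤ N * T ^ ε := by
    have h1 : (n:ℝ) * Real.log 2 ≤ Real.log T := by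
      rw [← Real.log_pow]
      exact Real.log_le_log (by positivity) hn1
    have h2 : Real.log T ≤ T ^ ε / ε := Real.log_le_rpow_div hT0.le hε
    have h3 : (n:ℝ) ≤ 1 / ε / Real.log 2 * T ^ ε := by
      have : (n:ℝ) ≤ T ^ ε / ε / Real.log 2 := by
        rw [le_div_iff₀ hlog2]; linarith
      calc (n:ℝ) ≤ T ^ ε / ε / Real.log 2 := this
        _ = _ := by ring
    have h4 : 1 ≤ T ^ ε := Real.one_le_rpow hT hε.le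
    rw [hJ₁, hN]; push_cast; nlinarith
  -- the main bound for a block
  set W : ℝ := T ^ (1 / 2 + ε) * (2 ^ (-(J : ℝ) / 2) + H ^ (-(1 / 2) : ℝ)) with hW
  have hW0 : 0 < W := by positivity
  have hlow : ∀ κ : Bool, ∀ j ∈ Finset.Ico J J₁, AvB H T₀ T (LIb a b T κ j ε) (2 * C₁ * D * W) := by
    intro κ j hj
    rw [Finset.mem_Ico] at hj
    refine AvB.mono hH0 hT₀T (h₁ T T₀ H hT hT₀ hT₀T hH hHT a b ha hb hab κ j) ?_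
    have hjT : (2:ℝ) ^ j ≤ T := le_trans (pow_le_pow_right₀ (by norm_num) (by omega)) hn1
    have := avf_low (C := C₁ * D) hT hH0 hε (by positivity) hj.1 hjT
    calc _ ≤ _ := this
      _ = _ := by rw [hW]; ring
  have hhigh : ∀ κ : Bool, ∀ j ∈ Finset.Ico J₁ J₂,
      AvB H T₀ T (LIb a b T κ j (3 / 4)) (2 * C₂ * D * W) := by
    intro κ j hj
    rw [Finset.mem_Ico] at hj
    refine AvB.mono hH0 hT₀T (h₂ T T₀ H hT hT₀ hT₀T hH hHT a b ha hb hab κ j) ?_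
    have hjT : T ≤ (2:ℝ) ^ j := le_trans hn2.le (pow_le_pow_right₀ (by norm_num) hj.1)
    have := avf_high (C := C₂ * D) hT hH0 hε (by positivity) hJT hjT
    calc _ ≤ _ := this
      _ = _ := by rw [hW]; ring
  have clow : ∀ κ : Bool, ∀ j ∈ Finset.Ico J J₁, Continuous (LIb a b T κ j ε) := fun κ j _ =>
    continuous_LIb hab hT0 κ j hε (by linarith)
  have chigh : ∀ κ : Bool, ∀ j ∈ Finset.Ico J₁ J₂, Continuous (LIb a b T κ j (3 / 4)) :=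
    fun κ j _ => continuous_LIb hab hT0 κ j (by norm_num) le_rfl
  have cS1 : ∀ κ : Bool, Continuous (fun x => ∑ j ∈ Finset.Ico J J₁, LIb a b T κ j ε x) :=
    fun κ => continuous_finsetSum _ (clow κ)
  have cS2 : ∀ κ : Bool, Continuous (fun x => ∑ j ∈ Finset.Ico J₁ J₂, LIb a b T κ j (3 / 4) x) :=
    fun κ => continuous_finsetSum _ (chigh κ)
  have b1 : ∀ κ : Bool, AvB H T₀ T (fun x => ∑ j ∈ Finset.Ico J J₁, LIb a b T κ j ε x +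
      ∑ j ∈ Finset.Ico J₁ J₂, LIb a b T κ j (3 / 4) x)
      (∑ j ∈ Finset.Ico J J₁, 2 * C₁ * D * W + ∑ j ∈ Finset.Ico J₁ J₂, 2 * C₂ * D * W) :=
    fun κ => AvB.add hH0 hT₀T (cS1 κ) (cS2 κ) (AvB.sum hH0 hT₀T _ (clow κ) (hlow κ))
      (AvB.sum hH0 hT₀T _ (chigh κ) (hhigh κ))
  have cb : ∀ κ : Bool, Continuous (fun x => ∑ j ∈ Finset.Ico J J₁, LIb a b T κ j ε x +
      ∑ j ∈ Finset.Ico J₁ J₂, LIb a b T κ j (3 / 4) x) := fun κ => (cS1 κ).add (cS2 κ)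
  have b2 := AvB.sum hH0 hT₀T (Finset.univ : Finset Bool) (fun κ _ => cb κ) (fun κ _ => b1 κ)
  have cS : Continuous (fun x => ∑ κ : Bool, (∑ j ∈ Finset.Ico J J₁, LIb a b T κ j ε x +
      ∑ j ∈ Finset.Ico J₁ J₂, LIb a b T κ j (3 / 4) x)) :=
    continuous_finsetSum _ (fun κ _ => cb κ)
  -- the error
  set R : ℝ → ℂ := fun x => pf a b x - lo a b J x - ∑ κ : Bool,
      (∑ j ∈ Finset.Ico J J₁, LIb a b T κ j ε x +
      ∑ j ∈ Finset.Ico J₁ J₂, LIb a b T κ j (3 / 4) x) with hR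
  have cR : Continuous R := ((continuous_pf a b).sub (continuous_lo a b J)).sub cS
  have bR : AvB H T₀ T R (C₃ * D * T ^ (-(1 / 10) : ℝ) * √(T - T₀)) := by
    refine AvB.of_bound hH0 hT₀T cR (by positivity) ?_
    intro x hx
    refine h₃ T hT a b ha hb hab J J₁ J₂ hJJ hJ12 hJ hT8 x ?_ ?_
    · have := hx.1; linarith
    · have := hx.2; linarith
  have b3 := AvB.add hH0 hT₀T cS cR b2 bR
  have hfun : (fun x => pf a b x - lo a b J x) = fun x => (∑ κ : Bool,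
      (∑ j ∈ Finset.Ico J J₁, LIb a b T κ j ε x +
      ∑ j ∈ Finset.Ico J₁ J₂, LIb a b T κ j (3 / 4) x)) + R x := by
    funext x; rw [hR]; ring
  rw [hfun]
  refine AvB.mono hH0 hT₀T b3 ?_
  -- the numerical inequality
  have hTe : 1 ≤ T ^ ε := Real.one_le_rpow hT hε.le
  set V : ℝ := T ^ (1 / 2 + 3 * ε) * (2 ^ (-(J : ℝ) / 2) + H ^ (-(1 / 2) : ℝ)) with hV
  have hV0 : 0 < V := by positivity
  have hWV : T ^ ε * W ≤ V := by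
    have e : T ^ (1 / 2 + 3 * ε) = T ^ ε * T ^ ε * T ^ (1 / 2 + ε) := by
      rw [← Real.rpow_add hT0, ← Real.rpow_add hT0]; congr 1; ring
    have : V = T ^ ε * (T ^ ε * W) := by rw [hV, hW, e]; ring
    rw [this]
    have h0 : 0 ≤ T ^ ε * W := by positivity
    nlinarith
  have hRV : T ^ (-(1 / 10) : ℝ) * √(T - T₀) ≤ V := by
    have e1 : √(T - T₀) ≤ T ^ (1 / 2 : ℝ) := by
      rw [← Real.sqrt_eq_rpow]
      exact Real.sqrt_le_sqrt (by linarith [Real.rpow_pos_of_pos hT0 (7 / 8 : ℝ)])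
    have e2 : T ^ (-(1 / 10) : ℝ) ≤ 2 ^ (-(J : ℝ) / 2) := by
      have h1 : (2:ℝ) ^ (-(J : ℝ) / 2) = ((2:ℝ) ^ J) ^ (-(1 / 2) : ℝ) := by
        rw [← Real.rpow_natCast, ← Real.rpow_mul (by norm_num)]; congr 1; ring
      rw [h1]
      calc T ^ (-(1 / 10) : ℝ) ≤ T ^ ((1 / 40 : ℝ) * (-(1 / 2) : ℝ)) :=
            Real.rpow_le_rpow_of_exponent_le hT (by norm_num)
        _ = (T ^ (1 / 40 : ℝ)) ^ (-(1 / 2) : ℝ) := Real.rpow_mul hT0.le _ _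
        _ ≤ _ := Real.rpow_le_rpow_of_nonpos (by positivity) hJ (by norm_num)
    have e3 : T ^ (1 / 2 : ℝ) ≤ T ^ (1 / 2 + 3 * ε) :=
      Real.rpow_le_rpow_of_exponent_le hT (by linarith)
    have e4 : (0:ℝ) < H ^ (-(1 / 2) : ℝ) := Real.rpow_pos_of_pos hH0 _
    calc T ^ (-(1 / 10) : ℝ) * √(T - T₀) ≤ 2 ^ (-(J : ℝ) / 2) * T ^ (1 / 2 : ℝ) := by gcongr
      _ ≤ 2 ^ (-(J : ℝ) / 2) * T ^ (1 / 2 + 3 * ε) := by gcongr
      _ ≤ V := by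
        rw [hV, mul_comm]
        gcongr
        linarith
  have card1 : ((Finset.Ico J J₁).card : ℝ) ≤ J₁ := by
    rw [Nat.card_Ico]; exact_mod_cast Nat.sub_le _ _
  have card2 : ((Finset.Ico J₁ J₂).card : ℝ) ≤ 8 * J₁ := by
    rw [Nat.card_Ico]
    have : J₂ - J₁ ≤ 8 * J₁ := by omega
    exact_mod_cast this
  simp only [Finset.sum_const, nsmul_eq_mul, Finset.card_univ, Fintype.card_bool]
  have m1 : ((Finset.Ico J J₁).card : ℝ) * (2 * C₁ * D * W) ≤ N * (2 * C₁) * D * V := by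
    calc ((Finset.Ico J J₁).card : ℝ) * (2 * C₁ * D * W) ≤ (N * T ^ ε) * (2 * C₁ * D * W) := by
          gcongr; exact card1.trans hnT
      _ = N * (2 * C₁) * D * (T ^ ε * W) := by ring
      _ ≤ _ := by gcongr
  have m2 : ((Finset.Ico J₁ J₂).card : ℝ) * (2 * C₂ * D * W) ≤ 8 * N * (2 * C₂) * D * V := by
    calc ((Finset.Ico J₁ J₂).card : ℝ) * (2 * C₂ * D * W)
        ≤ (8 * (N * T ^ ε)) * (2 * C₂ * D * W) := by
          gcongr; exact card2.trans (by linarith)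
      _ = 8 * N * (2 * C₂) * D * (T ^ ε * W) := by ring
      _ ≤ _ := by gcongr
  have m3 : C₃ * D * T ^ (-(1 / 10) : ℝ) * √(T - T₀) ≤ C₃ * D * V := by
    calc C₃ * D * T ^ (-(1 / 10) : ℝ) * √(T - T₀)
        = C₃ * D * (T ^ (-(1 / 10) : ℝ) * √(T - T₀)) := by ring
      _ ≤ _ := by gcongr
  push_cast
  nlinarith

end Pool.Agent.AAS
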