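import Pool.Agent.AAS.Defs
import Pool.Agent.AAS.YKB


set_option autoImplicit false

namespace Pool.Agent.AAS

open Complex Finset MeasureTheory Filter Topology Set
open Pool.Agent.H26

lemma YKD_ne1 (a x : ℝ) : (1 / 2 - I * ((x : ℂ) + a)) ≠ 0 := by
  intro h
  have := congrArg Complex.re h
  norm_num at this

lemma YKD_ne2 (b x : ℝ) : (1 / 2 + I * ((x : ℂ) + b)) ≠ 0 := by
  intro h
  have := congrArg Complex.re h
  norm_num at this

lemma YKD_hasDerivAt_add (a x : ℝ) : HasDerivAt (fun x : ℝ => (x : ℂ) + a) 1 x := by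
  have h := (hasDerivAt_id x).ofReal_comp
  have h2 := h.add_const (a : ℂ)
  simpa using h2

lemma YKD_hasDerivAt_z1 (a x : ℝ) :
    HasDerivAt (fun x : ℝ => (1 / 2 - I * ((x : ℂ) + a))) (-I) x := by
  have h := ((YKD_hasDerivAt_add a x).const_mul I).const_sub (1 / 2)
  simpa using h

lemma YKD_hasDerivAt_z2 (b x : ℝ) :
    HasDerivAt (fun x : ℝ => (1 / 2 + I * ((x : ℂ) + b))) I x := by
  have h := ((YKD_hasDerivAt_add b x).const_mul I).const_add (1 / 2)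
  simpa using h

/-- the derivative of the polynomial factor -/
noncomputable def YKD_p1d (a b : ℝ) (s : ℂ) (x : ℝ) : ℂ :=
  (-(s * I) / (1 / 2 - I * (x + a)) ^ 2) * (1 - s / (1 / 2 + I * (x + b))) +
    (1 - s / (1 / 2 - I * (x + a))) * ((s * I) / (1 / 2 + I * (x + b)) ^ 2)

lemma YKD_hasDerivAt_P1 (a b : ℝ) (s : ℂ) (x : ℝ) :
    HasDerivAt (P1 a b s) (YKD_p1d a b s x) x := by
  have h1 : HasDerivAt (fun x : ℝ => 1 - s / (1 / 2 - I * ((x : ℂ) + a)))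
      (-(s * I) / (1 / 2 - I * (x + a)) ^ 2) x := by
    have h := (((YKD_hasDerivAt_z1 a x).fun_inv (YKD_ne1 a x)).const_mul s).const_sub 1
    refine (h.congr_deriv ?_).congr_of_eventuallyEq ?_
    · ring
    · exact Filter.Eventually.of_forall fun y => by simp [div_eq_mul_inv]
  have h2 : HasDerivAt (fun x : ℝ => 1 - s / (1 / 2 + I * ((x : ℂ) + b)))
      ((s * I) / (1 / 2 + I * (x + b)) ^ 2) x := by
    have h := (((YKD_hasDerivAt_z2 b x).fun_inv (YKD_ne2 b x)).const_mul s).const_sub 1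
    refine (h.congr_deriv ?_).congr_of_eventuallyEq ?_
    · ring
    · exact Filter.Eventually.of_forall fun y => by simp [div_eq_mul_inv]
  exact h1.mul h2

lemma YKD_continuous_p1d (a b : ℝ) (s : ℂ) : Continuous (YKD_p1d a b s) := by
  unfold YKD_p1d
  have c1 : Continuous fun x : ℝ => (1 / 2 - I * ((x : ℂ) + a)) := by fun_prop
  have c2 : Continuous fun x : ℝ => (1 / 2 + I * ((x : ℂ) + b)) := by fun_prop
  refine Continuous.add (Continuous.mul ?_ ?_) (Continuous.mul ?_ ?_)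
  · exact continuous_const.div (c1.pow 2) fun x => pow_ne_zero 2 (YKD_ne1 a x)
  · exact continuous_const.sub (continuous_const.div c2 fun x => YKD_ne2 b x)
  · exact continuous_const.sub (continuous_const.div c1 fun x => YKD_ne1 a x)
  · exact continuous_const.div (c2.pow 2) fun x => pow_ne_zero 2 (YKD_ne2 b x)

lemma YKD_sq (y : ℝ) : ‖(1 / 2 + I * (y : ℂ))‖ ^ 2 = 1 / 4 + y ^ 2 := by
  rw [← Complex.normSq_eq_norm_sq, Complex.normSq_apply]
  simp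
  ring

lemma YKD_sq' (y : ℝ) : ‖(1 / 2 - I * (y : ℂ))‖ ^ 2 = 1 / 4 + y ^ 2 := by
  rw [← Complex.normSq_eq_norm_sq, Complex.normSq_apply]
  simp
  ring

lemma YKD_x_le {B a x : ℝ} (hB : 0 ≤ B) (ha : |a| ≤ B) :
    x ≤ (1 + 4 * B) * (1 / 4 + (x + a) ^ 2) := by
  have h1 : x + a ≤ 1 / 4 + (x + a) ^ 2 := by nlinarith [sq_nonneg (x + a - 1 / 2)]
  have h2 := neg_abs_le a
  have h3 : 0 ≤ B * (x + a) ^ 2 := by positivity
  nlinarith

lemma YKD_quot {B a x : ℝ} {s : ℂ} (hB : 0 ≤ B) (ha : |a| ≤ B) (hx : 1 ≤ x) {z : ℂ}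
    (hz : ‖z‖ ^ 2 = 1 / 4 + (x + a) ^ 2) :
    ‖s * I / z ^ 2‖ ≤ (1 + 4 * B) * ‖s‖ / x := by
  have hx0 : 0 < x := by linarith
  have h := YKD_x_le (x := x) hB ha
  rw [← hz] at h
  have h0 : 0 < ‖z‖ ^ 2 := by rw [hz]; positivity
  rw [norm_div, norm_mul, norm_I, mul_one, norm_pow, div_le_div_iff₀ h0 hx0]
  nlinarith [norm_nonneg s, mul_le_mul_of_nonneg_left h (norm_nonneg s)]

lemma YKD_p1d_le {B a b x : ℝ} {s : ℂ} (hB : 0 ≤ B) (ha : |a| ≤ B) (hb : |b| ≤ B) (hx : 1 ≤ x) :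
    ‖YKD_p1d a b s x‖ ≤ 4 * (1 + 4 * B) * (1 + ‖s‖) ^ 2 / x := by
  have hx0 : 0 < x := by linarith
  have hs := norm_nonneg s
  unfold YKD_p1d
  have e1 := YKB_div_le (s := s) (YKB_half_le' (x + a))
  have e2 := YKB_div_le (s := s) (YKB_half_le (x + b))
  have e3 := YKD_quot (s := s) hB ha hx (YKD_sq' (x + a))
  have e4 := YKD_quot (s := s) hB hb hx (YKD_sq (x + b))
  rw [Complex.ofReal_add] at e1 e2 e3 e4
  refine (norm_add_le _ _).trans ?_
  rw [norm_mul, norm_mul, neg_div, norm_neg]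
  have hb0 : 0 ≤ (1 + 4 * B) * ‖s‖ / x := by positivity
  calc _ ≤ ((1 + 4 * B) * ‖s‖ / x) * (2 * (1 + ‖s‖)) + (2 * (1 + ‖s‖)) * ((1 + 4 * B) * ‖s‖ / x) := by
        gcongr
    _ = 4 * (1 + 4 * B) * (‖s‖ * (1 + ‖s‖)) / x := by ring
    _ ≤ 4 * (1 + 4 * B) * (1 + ‖s‖) ^ 2 / x := by
        gcongr
        nlinarith

/-- the derivative of the product of the two `chi` -/
noncomputable def YKD_xd (a b : ℝ) (s : ℂ) (x : ℝ) : ℂ :=
  deriv chi (1 / 2 + I * (x + a) - s) * I * chi (1 / 2 - I * (x + b) - s) +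
    chi (1 / 2 + I * (x + a) - s) * (deriv chi (1 / 2 - I * (x + b) - s) * (-I))

lemma YKD_hasDerivAt_XX {a b : ℝ} {s : ℂ} (h0 : 0 ≤ s.re) (x : ℝ) :
    HasDerivAt (fun x : ℝ => chi (1 / 2 + I * (x + a) - s) * chi (1 / 2 - I * (x + b) - s))
      (YKD_xd a b s x) x := by
  have d1 : HasDerivAt chi (deriv chi (1 / 2 + I * ((x : ℂ) + a) - s)) (1 / 2 + I * ((x : ℂ) + a) - s) :=
    (differentiableAt_chi (by rw [YKB_w1_re]; linarith)).hasDerivAt
  have d2 : HasDerivAt chi (deriv chi (1 / 2 - I * ((x : ℂ) + b) - s)) (1 / 2 - I * ((x : ℂ) + b) - s) :=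
    (differentiableAt_chi (by rw [YKB_w2_re]; linarith)).hasDerivAt
  have w1 : HasDerivAt (fun x : ℝ => (1 / 2 + I * ((x : ℂ) + a) - s)) I x :=
    (YKD_hasDerivAt_z2 a x).sub_const s
  have w2 : HasDerivAt (fun x : ℝ => (1 / 2 - I * ((x : ℂ) + b) - s)) (-I) x :=
    (YKD_hasDerivAt_z1 b x).sub_const s
  exact (d1.comp x w1).mul (d2.comp x w2)

lemma YKD_continuous_xd {a b : ℝ} {s : ℂ} (h0 : 0 ≤ s.re) : Continuous (YKD_xd a b s) := by
  unfold YKD_xd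
  have c1 : Continuous fun x : ℝ => (1 / 2 + I * ((x : ℂ) + a) - s) := by fun_prop
  have c2 : Continuous fun x : ℝ => (1 / 2 - I * ((x : ℂ) + b) - s) := by fun_prop
  have m1 : ∀ x : ℝ, (1 / 2 + I * ((x : ℂ) + a) - s) ∈ {s : ℂ | s.re < 1} := fun x => by
    show (1 / 2 + I * ((x : ℂ) + a) - s).re < 1
    rw [YKB_w1_re]; linarith
  have m2 : ∀ x : ℝ, (1 / 2 - I * ((x : ℂ) + b) - s) ∈ {s : ℂ | s.re < 1} := fun x => by
    show (1 / 2 - I * ((x : ℂ) + b) - s).re < 1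
    rw [YKB_w2_re]; linarith
  have k1 := CHI.differentiableOn_chi.continuousOn.comp_continuous c1 m1
  have k2 := CHI.differentiableOn_chi.continuousOn.comp_continuous c2 m2
  have l1 := CHI.differentiableOn_deriv_chi.continuousOn.comp_continuous c1 m1
  have l2 := CHI.differentiableOn_deriv_chi.continuousOn.comp_continuous c2 m2
  exact ((l1.mul continuous_const).mul k2).add (k1.mul (l2.mul continuous_const))

lemma YKD_exists_xd (B : ℝ) (hB : 0 ≤ B) : ∃ C : ℝ, 1 ≤ C ∧ ∀ T : ℝ, 1 ≤ T →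
    ∀ a b : ℝ, |a| ≤ B → |b| ≤ B → ∀ s : ℂ, 0 ≤ s.re → s.re ≤ 3 / 4 →
    ∀ x : ℝ, 1 ≤ x → x ≤ 3 * T →
      ‖YKD_xd a b s x‖ ≤ C * (1 + ‖s‖) ^ 3 * (T ^ s.re * T ^ s.re) / x := by
  obtain ⟨C1, hC11, hC1⟩ := YKB_exists_chi B hB
  obtain ⟨C2, hC21, hC2⟩ := CHI.exists_norm_chi_strip
  obtain ⟨C3, hC31, hC3⟩ := CHI.exists_norm_deriv_chi
  refine ⟨C1 * (4 * (6 + B)) + 200 * C3 * C2 * (1 + B) ^ 3, ?_, ?_⟩
  · have h1 : 0 ≤ 200 * C3 * C2 * (1 + B) ^ 3 := by positivity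
    nlinarith
  intro T hT a b ha hb s h0 h1 x hx1 hx2
  have hs := norm_nonneg s
  have hx0 : 0 < x := by linarith
  have hT0 : 0 < T := by linarith
  have hTs : 1 ≤ T ^ s.re := Real.one_le_rpow hT h0
  have hTT : 1 ≤ T ^ s.re * T ^ s.re := by nlinarith
  have him := Complex.abs_im_le_norm s
  have hcoef1 : 0 ≤ C1 * (4 * (6 + B)) := by positivity
  have hcoef2 : 0 ≤ 200 * C3 * C2 * (1 + B) ^ 3 := by positivity
  have hrest : 0 ≤ (1 + ‖s‖) ^ 3 * (T ^ s.re * T ^ s.re) / x := by positivity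
  rcases le_total (4 * (1 + B) * (1 + ‖s‖)) x with hx | hx
  · -- far from the real axis
    have hBs : B + ‖s‖ ≤ x / 4 := by nlinarith [mul_nonneg hB hs]
    have i1 : x / 2 ≤ (1 / 2 + I * ((x : ℂ) + a) - s).im := by
      rw [YKB_w1_im]
      have := neg_abs_le a
      have := le_abs_self s.im
      linarith
    have i2 : (1 / 2 - I * ((x : ℂ) + b) - s).im ≤ -(x / 2) := by
      rw [YKB_w2_im]
      have := neg_abs_le b
      have := neg_abs_le s.im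
      linarith
    have r1 := YKB_w1_re a s x
    have r2 := YKB_w2_re b s x
    have e : YKD_xd a b s x = (chi (1 / 2 + I * (x + a) - s) * chi (1 / 2 - I * (x + b) - s)) *
        (I * (CHI.lch (1 / 2 + I * (x + a) - s) - CHI.lch (1 - (1 / 2 - I * (x + b) - s)))) := by
      unfold YKD_xd
      rw [CHI.deriv_chi (ne_of_gt (by linarith) : (1 / 2 + I * ((x : ℂ) + a) - s).im ≠ 0),
        CHI.deriv_chi (ne_of_lt (by linarith) : (1 / 2 - I * ((x : ℂ) + b) - s).im ≠ 0),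
        CHI.lam_symm]
      ring
    have h3 : ‖CHI.lch (1 / 2 + I * (x + a) - s) - CHI.lch (1 - (1 / 2 - I * (x + b) - s))‖ ≤
        (6 + ‖(1 / 2 + I * (x + a) - s) - (1 - (1 / 2 - I * (x + b) - s))‖ / 2) / (x / 4) := by
      refine CHI.norm_lam_sub (by linarith) ?_ ?_ ?_ ?_ (Or.inl ⟨?_, ?_⟩)
      · rw [r1]; linarith
      · rw [r1]; linarith
      · rw [Complex.sub_re, r2, Complex.one_re]; linarith
      · rw [Complex.sub_re, r2, Complex.one_re]; linarith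
      · linarith
      · rw [Complex.sub_im, Complex.one_im]; linarith
    have h4 : ‖(1 / 2 + I * (x + a) - s) - (1 - (1 / 2 - I * (x + b) - s))‖ ≤ 2 * B + 2 * ‖s‖ := by
      have e5 : (1 / 2 + I * (x + a) - s) - (1 - (1 / 2 - I * (x + b) - s)) =
          I * ((a - b : ℝ) : ℂ) - 2 * s := by push_cast; ring
      rw [e5]
      refine (norm_sub_le _ _).trans ?_
      rw [norm_mul, norm_I, one_mul, norm_mul, Complex.norm_real, Real.norm_eq_abs]
      have h6 := abs_sub a b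
      have h7 : ‖(2 : ℂ)‖ = 2 := by simp
      rw [h7]
      linarith
    have h5 : (6 + ‖(1 / 2 + I * (x + a) - s) - (1 - (1 / 2 - I * (x + b) - s))‖ / 2) / (x / 4) ≤
        4 * (6 + B) * (1 + ‖s‖) / x := by
      rw [div_le_div_iff₀ (by linarith) hx0]
      have h6 : 6 + ‖(1 / 2 + I * (x + a) - s) - (1 - (1 / 2 - I * (x + b) - s))‖ / 2 ≤
        (6 + B) * (1 + ‖s‖) := by nlinarith [mul_nonneg hB hs]
      nlinarith
    rw [e, norm_mul, norm_mul I, norm_I, one_mul]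
    have h6 := hC1 T hT a b ha hb s h0 h1 x (by rw [abs_of_pos hx0]; exact hx2)
    calc _ ≤ (C1 * (1 + ‖s‖) ^ 2 * (T ^ s.re * T ^ s.re)) * (4 * (6 + B) * (1 + ‖s‖) / x) :=
          mul_le_mul h6 (h3.trans h5) (norm_nonneg _) (by positivity)
      _ = (C1 * (4 * (6 + B))) * ((1 + ‖s‖) ^ 3 * (T ^ s.re * T ^ s.re) / x) := by ring
      _ ≤ (C1 * (4 * (6 + B)) + 200 * C3 * C2 * (1 + B) ^ 3) *
            ((1 + ‖s‖) ^ 3 * (T ^ s.re * T ^ s.re) / x) := by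
          gcongr
          linarith
      _ = _ := by ring
  · -- close to the real axis
    have r1 := YKB_w1_re a s x
    have r2 := YKB_w2_re b s x
    have m1 := YKB_abs1 (x := x) (s := s) ha
    have m2 := YKB_abs2 (x := x) (s := s) hb
    rw [abs_of_pos hx0] at m1 m2
    have hm : 1 + x + B + ‖s‖ ≤ 5 * (1 + B) * (1 + ‖s‖) := by nlinarith [mul_nonneg hB hs]
    have n1 := m1.trans hm
    have n2 := m2.trans hm
    have hpow : ∀ m : ℝ, 1 ≤ m → m ≤ 5 * (1 + B) * (1 + ‖s‖) →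
        m ^ s.re ≤ 5 * (1 + B) * (1 + ‖s‖) := by
      intro m hm1 hm2
      calc m ^ s.re ≤ m ^ (1 : ℝ) := Real.rpow_le_rpow_of_exponent_le hm1 (by linarith)
        _ = m := Real.rpow_one m
        _ ≤ _ := hm2
    have q1 := hC2 (1 / 2 + I * (x + a) - s) (by rw [r1]; linarith) (by rw [r1]; linarith)
    have q2 := hC2 (1 / 2 - I * (x + b) - s) (by rw [r2]; linarith) (by rw [r2]; linarith)
    have q3 := hC3 (1 / 2 + I * (x + a) - s) (by rw [r1]; linarith) (by rw [r1]; linarith)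
    have q4 := hC3 (1 / 2 - I * (x + b) - s) (by rw [r2]; linarith) (by rw [r2]; linarith)
    rw [r1, YKB_w1_im] at q1
    rw [r2, YKB_w2_im] at q2
    rw [YKB_w1_im] at q3
    rw [YKB_w2_im] at q4
    have e3 : 1 / 2 - (1 / 2 - s.re) = s.re := by ring
    rw [e3] at q1 q2
    have hC20 : 0 ≤ C2 := by linarith
    have hC30 : 0 ≤ C3 := by linarith
    have p1 := q1.trans (mul_le_mul_of_nonneg_left
      (hpow _ (by linarith [abs_nonneg (x + a - s.im)]) n1) hC20)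
    have p2 := q2.trans (mul_le_mul_of_nonneg_left
      (hpow _ (by linarith [abs_nonneg (-(x + b) - s.im)]) n2) hC20)
    have p3 := q3.trans (mul_le_mul_of_nonneg_left n1 hC30)
    have p4 := q4.trans (mul_le_mul_of_nonneg_left n2 hC30)
    have hN : 0 ≤ 5 * (1 + B) * (1 + ‖s‖) := by positivity
    have hone : 1 ≤ 4 * (1 + B) * (1 + ‖s‖) / x := by rw [le_div_iff₀ hx0]; linarith
    unfold YKD_xd
    refine (norm_add_le _ _).trans ?_
    rw [norm_mul, norm_mul, norm_mul, norm_mul, norm_neg, norm_I, mul_one, mul_one]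
    calc _ ≤ (C3 * (5 * (1 + B) * (1 + ‖s‖))) * (C2 * (5 * (1 + B) * (1 + ‖s‖))) +
          (C2 * (5 * (1 + B) * (1 + ‖s‖))) * (C3 * (5 * (1 + B) * (1 + ‖s‖))) := by
          gcongr
      _ = (50 * C3 * C2 * (1 + B) ^ 2 * (1 + ‖s‖) ^ 2) * 1 := by ring
      _ ≤ (50 * C3 * C2 * (1 + B) ^ 2 * (1 + ‖s‖) ^ 2) * (4 * (1 + B) * (1 + ‖s‖) / x) := by
          gcongr
      _ = (200 * C3 * C2 * (1 + B) ^ 3) * ((1 + ‖s‖) ^ 3 * 1 / x) := by ring
      _ ≤ (200 * C3 * C2 * (1 + B) ^ 3) * ((1 + ‖s‖) ^ 3 * (T ^ s.re * T ^ s.re) / x) := by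
          gcongr
      _ ≤ (C1 * (4 * (6 + B)) + 200 * C3 * C2 * (1 + B) ^ 3) *
            ((1 + ‖s‖) ^ 3 * (T ^ s.re * T ^ s.re) / x) := by
          gcongr
          linarith
      _ = _ := by ring

/-- C2 -/
theorem exists_Yk_deriv (B : ℝ) (hB : 0 ≤ B) : ∃ C : ℝ, 1 ≤ C ∧ ∀ T : ℝ, 1 ≤ T →
    ∀ a b : ℝ, |a| ≤ B → |b| ≤ B → ∀ κ : Bool, ∀ s : ℂ, 0 ≤ s.re → s.re ≤ 3 / 4 →
    ∃ Y' : ℝ → ℂ, Continuous Y' ∧ (∀ x, HasDerivAt (Yk a b T κ s) (Y' x) x) ∧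
      ∀ x : ℝ, 1 ≤ x → x ≤ 3 * T → ‖Y' x‖ ≤ C * (1 + ‖s‖) ^ 8 * T ^ s.re / x := by
  obtain ⟨C1, hC11, hC1⟩ := YKB_exists_chi B hB
  obtain ⟨C2, hC21, hC2⟩ := YKD_exists_xd B hB
  refine ⟨4 * (1 + 4 * B) * C1 + 4 * C2, by nlinarith, ?_⟩
  intro T hT a b ha hb κ s h0 h1
  have hs := norm_nonneg s
  have hT0 : 0 < T := by linarith
  have hTs : 0 < T ^ s.re := Real.rpow_pos_of_pos hT0 _
  have h82 : (1 + ‖s‖) ^ 2 ≤ (1 + ‖s‖) ^ 8 := YKB_pow_le hs (by norm_num)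
  have h84 : (1 + ‖s‖) ^ 4 ≤ (1 + ‖s‖) ^ 8 := YKB_pow_le hs (by norm_num)
  have h85 : (1 + ‖s‖) ^ 5 ≤ (1 + ‖s‖) ^ 8 := YKB_pow_le hs (by norm_num)
  have hp8 : 0 ≤ (1 + ‖s‖) ^ 8 := by positivity
  cases κ
  · have e : Yk a b T false s = fun x => (T : ℂ) ^ s * P1 a b s x := by
      funext x; simp [Yk]
    refine ⟨fun x => (T : ℂ) ^ s * YKD_p1d a b s x,
      continuous_const.mul (YKD_continuous_p1d a b s), fun x => ?_, fun x hx1 hx2 => ?_⟩
    · rw [e]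
      exact (YKD_hasDerivAt_P1 a b s x).const_mul _
    · have hx0 : 0 < x := by linarith
      have h3 := YKD_p1d_le (s := s) hB ha hb hx1
      rw [norm_mul, YKB_norm_cpow hT0]
      have hC2' : 0 ≤ 4 * C2 * ((1 + ‖s‖) ^ 8 * T ^ s.re / x) := by positivity
      calc T ^ s.re * ‖YKD_p1d a b s x‖ ≤ T ^ s.re * (4 * (1 + 4 * B) * (1 + ‖s‖) ^ 2 / x) := by
            gcongr
        _ ≤ T ^ s.re * (4 * (1 + 4 * B) * (1 + ‖s‖) ^ 8 / x) := by gcongr
        _ = (4 * (1 + 4 * B) * 1) * ((1 + ‖s‖) ^ 8 * T ^ s.re / x) := by ring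
        _ ≤ (4 * (1 + 4 * B) * C1) * ((1 + ‖s‖) ^ 8 * T ^ s.re / x) := by gcongr
        _ ≤ (4 * (1 + 4 * B) * C1) * ((1 + ‖s‖) ^ 8 * T ^ s.re / x) +
            4 * C2 * ((1 + ‖s‖) ^ 8 * T ^ s.re / x) := by linarith
        _ = _ := by ring
  · have e : Yk a b T true s = fun x => (T : ℂ) ^ (-s) * P1 a b (-s) x *
        (chi (1 / 2 + I * (x + a) - s) * chi (1 / 2 - I * (x + b) - s)) := by
      funext x; simp [Yk]
    refine ⟨fun x => (T : ℂ) ^ (-s) * YKD_p1d a b (-s) x *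
        (chi (1 / 2 + I * (x + a) - s) * chi (1 / 2 - I * (x + b) - s)) +
        (T : ℂ) ^ (-s) * P1 a b (-s) x * YKD_xd a b s x, ?_, fun x => ?_, fun x hx1 hx2 => ?_⟩
    · have k1 : Continuous (fun x : ℝ => chi (1 / 2 + I * (x + a) - s) *
          chi (1 / 2 - I * (x + b) - s)) :=
        continuous_iff_continuousAt.2 fun x => (YKD_hasDerivAt_XX h0 x).continuousAt
      have k2 : Continuous (P1 a b (-s)) :=
        continuous_iff_continuousAt.2 fun x => (YKD_hasDerivAt_P1 a b (-s) x).continuousAt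
      exact ((continuous_const.mul (YKD_continuous_p1d a b (-s))).mul k1).add
        ((continuous_const.mul k2).mul (YKD_continuous_xd h0))
    · rw [e]
      exact ((YKD_hasDerivAt_P1 a b (-s) x).const_mul _).mul (YKD_hasDerivAt_XX h0 x)
    · have hx0 : 0 < x := by linarith
      have h3 := YKD_p1d_le (s := -s) hB ha hb hx1
      have h2 := YKB_P1_le a b (-s) x
      rw [norm_neg] at h2 h3
      have h4 : T ^ (-s).re = (T ^ s.re)⁻¹ := by
        rw [Complex.neg_re, Real.rpow_neg hT0.le]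
      have h5 := hC1 T hT a b ha hb s h0 h1 x (by rw [abs_of_pos hx0]; exact hx2)
      have h6 := hC2 T hT a b ha hb s h0 h1 x hx1 hx2
      refine (norm_add_le _ _).trans ?_
      rw [norm_mul, norm_mul ((T : ℂ) ^ (-s)), norm_mul ((T : ℂ) ^ (-s) * P1 a b (-s) x),
        norm_mul ((T : ℂ) ^ (-s)), YKB_norm_cpow hT0, h4]
      calc _ ≤ (T ^ s.re)⁻¹ * (4 * (1 + 4 * B) * (1 + ‖s‖) ^ 2 / x) *
              (C1 * (1 + ‖s‖) ^ 2 * (T ^ s.re * T ^ s.re)) +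
            (T ^ s.re)⁻¹ * (4 * (1 + ‖s‖) ^ 2) *
              (C2 * (1 + ‖s‖) ^ 3 * (T ^ s.re * T ^ s.re) / x) := by
            gcongr
        _ = 4 * (1 + 4 * B) * C1 * ((1 + ‖s‖) ^ 4 * T ^ s.re / x) +
            4 * C2 * ((1 + ‖s‖) ^ 5 * T ^ s.re / x) := by
            field_simp
        _ ≤ 4 * (1 + 4 * B) * C1 * ((1 + ‖s‖) ^ 8 * T ^ s.re / x) +
            4 * C2 * ((1 + ‖s‖) ^ 8 * T ^ s.re / x) := by
            gcongr
        _ = _ := by ring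

end Pool.Agent.AAS
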