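import Pool.Agent.AAS.AVP
import Pool.Agent.AAS.AVC
import Pool.Agent.AAS.YKB
import Pool.Agent.AAS.YKD
import Pool.Agent.AAS.YKC
import Pool.Agent.AAS.BLK
import Pool.Agent.AAS.CTS
import Pool.Agent.AAS.SHF


set_option autoImplicit false

namespace Pool.Agent.AAS

open Complex Finset MeasureTheory Filter Topology Set
open Pool.Agent.H26

/-- joint continuity of the integrand -/
lemma avk_continuous {a b : ℝ} (T : ℝ) (hT : 0 < T) (κ : Bool) (j : ℕ) {c : ℝ}
    (hc : 0 < c) : Continuous fun p : ℝ × ℝ => AI a b T κ j (c + p.1 * I) p.2 := by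
  have hs0 : ∀ y : ℝ, (c : ℂ) + y * I ≠ 0 := by
    intro y h
    have := congrArg Complex.re h
    simp at this
    exact hc.ne' this
  unfold AI
  refine Continuous.mul (Continuous.mul (Continuous.mul ?_ ?_) ?_) ?_
  · unfold KD
    refine Continuous.div (by fun_prop) (by fun_prop) fun p => hs0 p.1
  · exact continuous_Yk a b T hT κ (by linarith)
  · rw [continuous_iff_continuousAt]
    intro p
    have hw : (1 + 2 * ((c : ℂ) + p.1 * I) + I * (sw κ a b - sw κ b a) : ℂ) ≠ 1 := by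
      intro h
      have := congrArg Complex.re h
      simp at this
      exact hc.ne' this
    exact ContinuousAt.comp (f := fun p : ℝ × ℝ =>
      (1 + 2 * ((c : ℂ) + p.1 * I) + I * (sw κ a b - sw κ b a) : ℂ))
      (differentiableAt_riemannZeta hw).continuousAt (by fun_prop)
  · unfold DP cf
    refine continuous_finsetSum _ fun p hp => ?_
    refine Continuous.mul (Continuous.mul ?_ ?_) (by fun_prop)
    · exact Continuous.const_cpow (by fun_prop) (Or.inl (shf_pos1 hp))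
    · exact Continuous.const_cpow (by fun_prop) (Or.inl (shf_pos2 hp))

/-- E1 -/
theorem exists_avb_block (B c : ℝ) (hB : 0 ≤ B) (hc : 0 < c) (hc1 : c ≤ 3 / 4) :
    ∃ C : ℝ, 1 ≤ C ∧ ∀ T T₀ H : ℝ, 1 ≤ T → T ^ (7 / 8 : ℝ) ≤ T₀ → T₀ ≤ T → 1 ≤ H →
    H ≤ T₀ / 2 → ∀ a b : ℝ, |a| ≤ B → |b| ≤ B → a ≠ b → ∀ κ : Bool, ∀ j : ℕ,
    AvB H T₀ T (LIb a b T κ j c) (C * (1 + 1 / (a - b) ^ 2) * (T ^ c *
      2 ^ (-(1 / 2 + c) * j) * √((1 + 2 ^ j / H) * (T + 2 ^ j)))) := by
  obtain ⟨C1, hC11, hC1⟩ := exists_Yk_bound B hB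
  obtain ⟨C2, hC21, hC2⟩ := exists_Yk_deriv B hB
  set A : ℝ := (C1 + C2) * (100 / c) * (1 / c + 5 + 4 * B) *
    ((Nat.factorial 11 : ℝ) * Real.exp 3) with hA
  have hA0 : 0 < A := by positivity
  refine ⟨1 + A * 100 * shfG, by have := shfG_nonneg; nlinarith, ?_⟩
  intro T T₀ H hT hTT₀ hT₀ hH hHT a b ha hb hab κ j
  have hT0 : 0 < T := by linarith
  have hH0 : 0 < H := by linarith
  have hD : a - b ≠ 0 := sub_ne_zero.2 hab
  set E : ℝ := 1 + 1 / (a - b) ^ 2 with hE
  have hE0 : 0 < E := by positivity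
  set tc : ℝ := T ^ c with htc
  have htc0 : 0 < tc := Real.rpow_pos_of_pos hT0 _
  set w : ℝ := (2:ℝ) ^ (-(1 / 2 + c) * j) with hw
  have hw0 : 0 < w := Real.rpow_pos_of_pos (by norm_num) _
  set R : ℝ := √((1 + 2 ^ j / H) * (T + 2 ^ j)) with hR
  have hR0 : 0 < R := Real.sqrt_pos.2 (by positivity)
  have hTH : T₀ ≤ T := hT₀
  -- bounds for each `y`
  have hca : |c| = c := abs_of_pos hc
  have hcu : |c| ≤ 1 := by rw [hca]; linarith
  have hcoef : ∀ y : ℝ, ‖KD (a - b) (c + y * I)‖ *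
      ‖riemannZeta (1 + 2 * ((c : ℂ) + y * I) + I * (sw κ a b - sw κ b a))‖ *
      ((C1 + C2) * (1 + ‖(c : ℂ) + y * I‖) ^ 8) ≤ A * E * Real.exp (-(y ^ 2 / 2)) := by
    intro y
    have h1 := norm_KD_le hD hc.ne' hcu y
    have h3 := shf_zeta_le κ ha hb hc.ne' (by linarith) y
    rw [hca] at h1 h3
    have hsn : ‖(c : ℂ) + y * I‖ ≤ 1 + |y| := shf_norm_line hcu
    set s : ℂ := (c : ℂ) + y * I with hs
    set n : ℝ := 1 + ‖s‖ with hn
    have hn1 : 1 ≤ n := by have := norm_nonneg s; linarith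
    have hnv : n ≤ 2 + |y| := by linarith
    have h5 : 1 + y ^ 2 ≤ (2 + |y|) ^ 2 := by
      have := sq_abs y
      nlinarith [abs_nonneg y]
    calc ‖KD (a - b) s‖ * ‖riemannZeta (1 + 2 * s + I * (sw κ a b - sw κ b a))‖ *
          ((C1 + C2) * n ^ 8)
        ≤ (100 / c * E * ((1 + y ^ 2) * Real.exp (-y ^ 2))) *
          ((1 / c + 5 + 4 * B) * n) * ((C1 + C2) * n ^ 8) := by gcongr
      _ = ((C1 + C2) * (100 / c) * (1 / c + 5 + 4 * B) * E) *
          (n ^ 9 * (1 + y ^ 2) * Real.exp (-y ^ 2)) := by ring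
      _ ≤ ((C1 + C2) * (100 / c) * (1 / c + 5 + 4 * B) * E) *
          ((2 + |y|) ^ 9 * (2 + |y|) ^ 2 * Real.exp (-y ^ 2)) := by gcongr
      _ = ((C1 + C2) * (100 / c) * (1 / c + 5 + 4 * B) * E) *
          ((2 + |y|) ^ 11 * Real.exp (-y ^ 2)) := by ring
      _ ≤ ((C1 + C2) * (100 / c) * (1 / c + 5 + 4 * B) * E) *
          ((Nat.factorial 11 : ℝ) * Real.exp 3 * Real.exp (-(y ^ 2 / 2))) := by
          have := shf_gauss 11 y
          gcongr
      _ = _ := by rw [hA]; ring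
  have hxx : ∀ x ∈ Icc (T₀ - H) (T + H), 1 ≤ x ∧ H ≤ x ∧ x ≤ 3 * T := by
    intro x hx
    have h1 := hx.1
    have h2 := hx.2
    refine ⟨by linarith, by linarith, by linarith⟩
  have hre : ∀ y : ℝ, ((c : ℂ) + y * I).re = c := fun y => by simp
  have hYb : ∀ y : ℝ, ∀ x ∈ Icc (T₀ - H) (T + H), ‖Yk a b T κ (c + y * I) x‖ ≤
      (C1 + C2) * (1 + ‖(c : ℂ) + y * I‖) ^ 8 * tc := by
    intro y x hx
    obtain ⟨h1, h2, h3⟩ := hxx x hx
    have h4 := hC1 T hT a b ha hb κ (c + y * I) (by rw [hre]; exact hc.le)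
      (by rw [hre]; exact hc1) x (by rw [abs_of_pos (by linarith)]; exact h3)
    rw [hre] at h4
    refine h4.trans ?_
    gcongr
    linarith
  -- one block for each `y`
  have hone : ∀ y : ℝ, AvB H T₀ T (fun x => AI a b T κ j (c + y * I) x)
      (A * E * tc * w * (100 * R) * Real.exp (-(y ^ 2 / 2))) := by
    intro y
    obtain ⟨Y', hY'c, hY', hY'b⟩ := hC2 T hT a b ha hb κ (c + y * I) (by rw [hre]; exact hc.le)
      (by rw [hre]; exact hc1)
    rw [hre] at hY'b
    set s : ℂ := (c : ℂ) + y * I with hs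
    set n : ℝ := 1 + ‖s‖ with hn
    have hn1 : 1 ≤ n := by have := norm_nonneg s; linarith
    have hδ : (0:ℝ) < 1 / 2 ^ (j + 1) := by positivity
    have h1 := avb_poly (blk j) lq hδ (fun r hr s hs h => sep_blk hr hs h)
      (cf (sw κ a b) (sw κ b a) s) (C₀ := w) hw0.le (fun p hp => by
        rw [norm_cf _ _ _ (shf_pos hp), hre]
        have h5 : ((2:ℝ) ^ j) ≤ ((p.1 * p.2 : ℕ) : ℝ) := by
          exact_mod_cast (mem_blk.1 hp).2.1
        calc ((p.1 * p.2 : ℕ) : ℝ) ^ (-(1 / 2) - c) ≤ ((2:ℝ) ^ j) ^ (-(1 / 2) - c) :=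
              Real.rpow_le_rpow_of_nonpos (by positivity) h5 (by linarith)
          _ = w := by
              rw [hw, ← Real.rpow_natCast, ← Real.rpow_mul (by norm_num)]
              congr 1
              ring) (H := H) (T₀ := T₀) (T := T) hH0 hTH hY' hY'c
      (M := (C1 + C2) * n ^ 8 * tc) (fun x hx => hYb y x hx)
      (fun x hx => by
        obtain ⟨h1, h2, h3⟩ := hxx x hx
        refine (hY'b x h1 h3).trans ?_
        gcongr
        linarith)
    have h2 := h1.const_mul hH0 hTH (KD (a - b) s *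
      riemannZeta (1 + 2 * s + I * (sw κ a b - sw κ b a)))
    have h3 := h2.mono hH0 hTH (N := A * E * tc * w * (100 * R) * Real.exp (-(y ^ 2 / 2))) ?_
    · convert h3 using 1
      funext x
      unfold AI DP
      ring
    · have h6 : √(3750 * (1 + 1 / (2 * H * (1 / 2 ^ (j + 1)))) * ((T - T₀) + 1 / (1 / 2 ^ (j + 1))))
          ≤ 100 * R := by
        have e1 : (1:ℝ) / (2 * H * (1 / 2 ^ (j + 1))) = 2 ^ j / H := by
          rw [pow_succ]
          field_simp
        have e2 : (1:ℝ) / (1 / 2 ^ (j + 1)) = 2 * 2 ^ j := by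
          rw [pow_succ]
          field_simp
        rw [e1, e2, hR]
        have e3 : (100:ℝ) * √((1 + 2 ^ j / H) * (T + 2 ^ j)) =
            √(10000 * ((1 + 2 ^ j / H) * (T + 2 ^ j))) := by
          have e30 : √(10000:ℝ) = 100 := by
            rw [show (10000:ℝ) = 100 ^ 2 by norm_num, Real.sqrt_sq (by norm_num)]
          rw [Real.sqrt_mul (by norm_num : (0:ℝ) ≤ 10000) ((1 + 2 ^ j / H) * (T + 2 ^ j)), e30]
        rw [e3]
        apply Real.sqrt_le_sqrt
        have e4 : (0:ℝ) ≤ 2 ^ j / H := by positivity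
        have e5 : (0:ℝ) < 2 ^ j := by positivity
        have hT00 : 0 ≤ T₀ := by linarith
        have e6 : T - T₀ + 2 * (2:ℝ) ^ j ≤ 2 * (T + 2 ^ j) := by linarith
        calc 3750 * (1 + 2 ^ j / H) * (T - T₀ + 2 * (2:ℝ) ^ j)
            ≤ 3750 * (1 + 2 ^ j / H) * (2 * (T + 2 ^ j)) := by gcongr
          _ ≤ _ := by
              have : 0 ≤ (1 + (2:ℝ) ^ j / H) * (T + 2 ^ j) := by positivity
              nlinarith
      rw [norm_mul]
      calc ‖KD (a - b) s‖ * ‖riemannZeta (1 + 2 * s + I * (sw κ a b - sw κ b a))‖ *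
            ((C1 + C2) * n ^ 8 * tc * w * √(3750 * (1 + 1 / (2 * H * (1 / 2 ^ (j + 1)))) *
              ((T - T₀) + 1 / (1 / 2 ^ (j + 1)))))
          ≤ ‖KD (a - b) s‖ * ‖riemannZeta (1 + 2 * s + I * (sw κ a b - sw κ b a))‖ *
            ((C1 + C2) * n ^ 8 * tc * w * (100 * R)) := by gcongr
        _ = (‖KD (a - b) s‖ * ‖riemannZeta (1 + 2 * s + I * (sw κ a b - sw κ b a))‖ *
            ((C1 + C2) * n ^ 8)) * (tc * w * (100 * R)) := by ring
        _ ≤ (A * E * Real.exp (-(y ^ 2 / 2))) * (tc * w * (100 * R)) := by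
            have := hcoef y
            gcongr
        _ = _ := by ring
  -- integration
  have hint := AvB.integral hH0 hTH (g := fun y x => AI a b T κ j (c + y * I) x)
    (avk_continuous T hT0 κ j hc)
    (m := fun y => A * E * tc * ((blk j).card : ℝ) * Real.exp (-(y ^ 2 / 2))) (shf_int _)
    (fun y x hx => by
      have h4 : ‖DP (blk j) (sw κ a b) (sw κ b a) (c + y * I) x‖ ≤ ((blk j).card : ℝ) :=
        shf_DP_le j _ _ (by rw [hre]; linarith) x
      have h5 := hYb y x hx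
      have h6 := hcoef y
      unfold AI
      rw [norm_mul, norm_mul, norm_mul]
      set s : ℂ := (c : ℂ) + y * I with hs
      set n : ℝ := 1 + ‖s‖ with hn
      calc ‖KD (a - b) s‖ * ‖Yk a b T κ s x‖ *
            ‖riemannZeta (1 + 2 * s + I * (sw κ a b - sw κ b a))‖ *
            ‖DP (blk j) (sw κ a b) (sw κ b a) s x‖
          ≤ ‖KD (a - b) s‖ * ((C1 + C2) * n ^ 8 * tc) *
            ‖riemannZeta (1 + 2 * s + I * (sw κ a b - sw κ b a))‖ * ((blk j).card : ℝ) := by
            gcongr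
        _ = (‖KD (a - b) s‖ * ‖riemannZeta (1 + 2 * s + I * (sw κ a b - sw κ b a))‖ *
            ((C1 + C2) * n ^ 8)) * (tc * ((blk j).card : ℝ)) := by ring
        _ ≤ (A * E * Real.exp (-(y ^ 2 / 2))) * (tc * ((blk j).card : ℝ)) := by gcongr
        _ = _ := by ring)
    (M := fun y => A * E * tc * w * (100 * R) * Real.exp (-(y ^ 2 / 2))) (shf_int _)
    (fun y => by positivity) hone
  have h7 := hint.const_mul hH0 hTH ((2 * Real.pi : ℂ)⁻¹)
  have h8 := h7.mono hH0 hTH (N := (1 + A * 100 * shfG) * E * (tc * w * R)) ?_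
  · exact h8
  · have h9 : ∫ y : ℝ, A * E * tc * w * (100 * R) * Real.exp (-(y ^ 2 / 2)) =
        A * E * tc * w * (100 * R) * shfG := by
      rw [integral_const_mul]
      rfl
    rw [h9]
    have h10 : ‖(2 * Real.pi : ℂ)⁻¹‖ ≤ 1 := by
      have h3 : (2 * Real.pi : ℂ) = ((2 * Real.pi : ℝ) : ℂ) := by push_cast; ring
      rw [norm_inv, h3, Complex.norm_real, Real.norm_of_nonneg (by positivity)]
      apply inv_le_one_of_one_le₀
      have := Real.pi_gt_three
      linarith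
    have h11 : 0 ≤ A * E * tc * w * (100 * R) * shfG := by
      have := shfG_nonneg
      positivity
    calc ‖(2 * Real.pi : ℂ)⁻¹‖ * (A * E * tc * w * (100 * R) * shfG)
        ≤ 1 * (A * E * tc * w * (100 * R) * shfG) := by gcongr
      _ = (A * 100 * shfG) * E * (tc * w * R) := by ring
      _ ≤ _ := by
          gcongr
          linarith

end Pool.Agent.AAS
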