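import Pool.Agent.AAS.BLK

set_option autoImplicit false

namespace Pool.Agent.AAS

open Complex Finset MeasureTheory Filter Topology Set
open Pool.Agent.H26

private theorem RCT_pos {j : ℕ} {p : ℕ × ℕ} (h : p ∈ blk j) : 0 < p.1 ∧ 0 < p.2 := by
  obtain ⟨_, h2, _⟩ := mem_blk.mp h
  have h0 : 0 < p.1 * p.2 := lt_of_lt_of_le (by positivity) h2
  exact ⟨Nat.pos_of_ne_zero (fun h' => by rw [h'] at h0; simp at h0),
    Nat.pos_of_ne_zero (fun h' => by rw [h'] at h0; simp at h0)⟩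

private theorem RCT_swap {j : ℕ} {p : ℕ × ℕ} (h : p ∈ blk j) : p.swap ∈ blk j := by
  obtain ⟨h1, h2, h3⟩ := mem_blk.mp h
  refine mem_blk.mpr ⟨h1.symm, ?_, ?_⟩
  · rw [Prod.fst_swap, Prod.snd_swap, Nat.mul_comm]; exact h2
  · rw [Prod.fst_swap, Prod.snd_swap, Nat.mul_comm]; exact h3

private theorem RCT_half (j : ℕ) (r : ℝ) (hr : 0 < r) (hr1 : r ≤ 1) :
    (((blk j).filter (fun p => p.1 < p.2 ∧ |lq p| ≤ r)).card : ℝ) ≤ 4 * r * 2 ^ j := by
  classical
  set S := (blk j).filter (fun p => p.1 < p.2 ∧ |lq p| ≤ r) with hS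
  set M := Nat.sqrt (2 ^ (j + 1)) with hM
  have hmap : ∀ p ∈ S, p.1 ∈ Finset.range (M + 1) := by
    intro p hp
    obtain ⟨hb, hlt, _⟩ := Finset.mem_filter.mp hp
    obtain ⟨_, _, h3⟩ := mem_blk.mp hb
    rw [Finset.mem_range, Nat.lt_succ_iff, hM, Nat.le_sqrt]
    exact le_trans (Nat.mul_le_mul_left _ hlt.le) h3.le
  have hc := Finset.card_eq_sum_card_fiberwise (f := Prod.fst) (s := S)
    (t := Finset.range (M + 1)) hmap
  have hfib : ∀ m ∈ Finset.range (M + 1),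
      ((Finset.filter (fun p : ℕ × ℕ => p.1 = m) S).card : ℝ) ≤ 2 * r * m := by
    intro m hm
    have h1 : (Finset.filter (fun p : ℕ × ℕ => p.1 = m) S).card ≤
        (Finset.Ioc m (m + ⌊2 * r * m⌋₊)).card := by
      apply Finset.card_le_card_of_injOn Prod.snd
      · intro p hp
        obtain ⟨hpS, hpm⟩ := Finset.mem_filter.mp (Finset.mem_coe.mp hp)
        obtain ⟨hb, hlt, hlq⟩ := Finset.mem_filter.mp hpS
        obtain ⟨p1, p2⟩ := RCT_pos hb
        rw [Finset.mem_coe, Finset.mem_Ioc]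
        refine ⟨hpm ▸ hlt, ?_⟩
        have p1r : (0 : ℝ) < p.1 := by exact_mod_cast p1
        have p2r : (0 : ℝ) < p.2 := by exact_mod_cast p2
        have e1 : Real.log p.2 ≤ Real.log p.1 + r := by
          have := (abs_le.mp hlq).1
          unfold lq at this
          linarith
        have e2 : (p.2 : ℝ) ≤ p.1 * Real.exp r := by
          have := Real.exp_le_exp.mpr e1
          rwa [Real.exp_add, Real.exp_log p1r, Real.exp_log p2r] at this
        have e3 : Real.exp r ≤ 1 + 2 * r := by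
          have := Real.abs_exp_sub_one_le (x := r) (by rw [abs_of_pos hr]; exact hr1)
          rw [abs_of_pos hr] at this
          have := (abs_le.mp this).2
          linarith
        have e4 : (p.2 : ℝ) - p.1 ≤ 2 * r * p.1 := by nlinarith
        have e5 : ((p.2 - p.1 : ℕ) : ℝ) ≤ 2 * r * p.1 := by
          rw [Nat.cast_sub hlt.le]; exact e4
        have e6 : p.2 - p.1 ≤ ⌊2 * r * (p.1 : ℝ)⌋₊ := Nat.le_floor e5
        rw [← hpm]
        omega
      · intro p hp q hq hpq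
        have hp' := Finset.mem_filter.mp (Finset.mem_coe.mp hp)
        have hq' := Finset.mem_filter.mp (Finset.mem_coe.mp hq)
        exact Prod.ext (hp'.2.trans hq'.2.symm) hpq
    have h2 : (Finset.Ioc m (m + ⌊2 * r * m⌋₊)).card = ⌊2 * r * m⌋₊ := by
      rw [Nat.card_Ioc]; omega
    rw [h2] at h1
    have h3 : ((⌊2 * r * m⌋₊ : ℕ) : ℝ) ≤ 2 * r * m := Nat.floor_le (by positivity)
    have h4 : ((Finset.filter (fun p : ℕ × ℕ => p.1 = m) S).card : ℝ) ≤
        ((⌊2 * r * m⌋₊ : ℕ) : ℝ) := by exact_mod_cast h1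
    exact h4.trans h3
  rw [hc]
  push_cast
  calc ∑ m ∈ Finset.range (M + 1),
        ((Finset.filter (fun p : ℕ × ℕ => p.1 = m) S).card : ℝ)
      ≤ ∑ m ∈ Finset.range (M + 1), 2 * r * (m : ℝ) := Finset.sum_le_sum hfib
    _ = 2 * r * ((∑ m ∈ Finset.range (M + 1), m : ℕ) : ℝ) := by
        rw [← Finset.mul_sum]; push_cast; rfl
    _ ≤ 2 * r * ((2 ^ (j + 1) : ℕ) : ℝ) := by
        apply mul_le_mul_of_nonneg_left _ (by positivity)
        have h1 := Finset.sum_range_id_mul_two (M + 1)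
        have h2 : M * M ≤ 2 ^ (j + 1) := Nat.sqrt_le _
        have h3 : M ≤ M * M := Nat.le_mul_self M
        have h4 : ∑ m ∈ Finset.range (M + 1), m ≤ 2 ^ (j + 1) := by
          have h5 : (M + 1) * (M + 1 - 1) = M * M + M := by
            rw [Nat.add_sub_cancel]; ring
          omega
        exact_mod_cast h4
    _ = 4 * r * 2 ^ j := by push_cast; rw [pow_succ]; ring

/-- reduced fractions of height in `[2^j, 2^(j+1))` close to one: `m ≤ (e 2^(j+1))^(1/2)` and, for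
each `m`, at most `m (e^r - e^(-r))` integers `n ≠ m` -/
theorem exists_blk_close : ∃ C : ℝ, 1 ≤ C ∧ ∀ (j : ℕ) (r : ℝ), 0 < r → r ≤ 1 →
    (((blk j).filter (fun p => p.1 ≠ p.2 ∧ |lq p| ≤ r)).card : ℝ) ≤ C * r * 2 ^ j := by
  classical
  refine ⟨8, by norm_num, ?_⟩
  intro j r hr hr1
  set S := (blk j).filter (fun p => p.1 < p.2 ∧ |lq p| ≤ r) with hS
  have h1 := RCT_half j r hr hr1
  have hsub : (blk j).filter (fun p => p.1 ≠ p.2 ∧ |lq p| ≤ r) ⊆ S ∪ S.image Prod.swap := by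
    intro p hp
    obtain ⟨hb, hne, hlq⟩ := Finset.mem_filter.mp hp
    rcases lt_or_gt_of_ne hne with h | h
    · exact Finset.mem_union_left _ (Finset.mem_filter.mpr ⟨hb, h, hlq⟩)
    · refine Finset.mem_union_right _ (Finset.mem_image.mpr ⟨p.swap, ?_, Prod.swap_swap p⟩)
      refine Finset.mem_filter.mpr ⟨RCT_swap hb, h, ?_⟩
      have : lq p.swap = -lq p := by unfold lq; rw [Prod.fst_swap, Prod.snd_swap]; ring
      rw [this, abs_neg]
      exact hlq
  have h2 : ((blk j).filter (fun p => p.1 ≠ p.2 ∧ |lq p| ≤ r)).card ≤ S.card + S.card :=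
    le_trans (Finset.card_le_card hsub) (le_trans (Finset.card_union_le _ _)
      (Nat.add_le_add_left Finset.card_image_le _))
  have h3 : (((blk j).filter (fun p => p.1 ≠ p.2 ∧ |lq p| ≤ r)).card : ℝ) ≤
      (S.card : ℝ) + (S.card : ℝ) := by exact_mod_cast h2
  linarith

private theorem RCT_pt (H x : ℝ) (hH : 1 ≤ H) (hx : 0 < x) (N : ℕ) (hN : H < 2 ^ N) :
    min (H ^ 2) (1 / x ^ 2) ≤ 4 + ∑ i ∈ (Finset.range N).filter (fun i => (2:ℝ) ^ (i + 1) ≤ H),
      H ^ 2 * (1 / 4) ^ i * (if x ≤ 2 ^ (i + 1) / H then 1 else 0) := by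
  classical
  have hnn : ∀ i ∈ (Finset.range N).filter (fun i => (2:ℝ) ^ (i + 1) ≤ H),
      0 ≤ H ^ 2 * (1 / 4) ^ i * (if x ≤ 2 ^ (i + 1) / H then (1:ℝ) else 0) := by
    intro i _
    split_ifs <;> positivity
  have hsum0 := Finset.sum_nonneg hnn
  by_cases h1 : 1 / 2 < x
  · have h2 : 1 / x ^ 2 ≤ 4 := by
      rw [div_le_iff₀ (by positivity)]
      nlinarith
    exact le_trans (min_le_right _ _) (by linarith)
  have h1' : x ≤ 1 / 2 := not_lt.mp h1
  by_cases h2 : H < 2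
  · have h3 : H ^ 2 ≤ 4 := by nlinarith
    exact le_trans (min_le_left _ _) (by linarith)
  have h2' : 2 ≤ H := not_lt.mp h2
  have key : ∀ i : ℕ, (2:ℝ) ^ (i + 1) ≤ H → x ≤ 2 ^ (i + 1) / H →
      min (H ^ 2) (1 / x ^ 2) ≤ H ^ 2 * (1 / 4) ^ i →
      min (H ^ 2) (1 / x ^ 2) ≤ 4 + ∑ i ∈ (Finset.range N).filter (fun i => (2:ℝ) ^ (i + 1) ≤ H),
      H ^ 2 * (1 / 4) ^ i * (if x ≤ 2 ^ (i + 1) / H then 1 else 0) := by
    intro i hi hxi hm
    have hiN : i < N := by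
      have : (2:ℝ) ^ (i + 1) < 2 ^ N := lt_of_le_of_lt hi hN
      have := (pow_lt_pow_iff_right₀ (by norm_num : (1:ℝ) < 2)).mp this
      omega
    have hmem : i ∈ (Finset.range N).filter (fun i => (2:ℝ) ^ (i + 1) ≤ H) :=
      Finset.mem_filter.mpr ⟨Finset.mem_range.mpr hiN, hi⟩
    have := Finset.single_le_sum hnn hmem
    rw [if_pos hxi, mul_one] at this
    linarith
  by_cases h3 : H * x < 1
  · refine key 0 (by simpa using h2') ?_ ?_
    · rw [le_div_iff₀ (by linarith)]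
      simp only [zero_add, pow_one]
      nlinarith
    · simp
  · obtain ⟨i, hi1, hi2⟩ := exists_nat_pow_near (not_lt.mp h3) (by norm_num : (1:ℝ) < 2)
    refine key i ?_ ?_ ?_
    · calc (2:ℝ) ^ (i + 1) = 2 * 2 ^ i := by ring
        _ ≤ 2 * (H * x) := by linarith
        _ ≤ H := by nlinarith
    · rw [le_div_iff₀ (by linarith)]
      linarith
    · refine le_trans (min_le_right _ _) ?_
      rw [div_le_iff₀ (by positivity)]
      have e1 : H ^ 2 * (1 / 4) ^ i * x ^ 2 = (H * x) ^ 2 * (1 / 4) ^ i := by ring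
      rw [e1]
      have e2 : (1:ℝ) = (2 ^ i) ^ 2 * (1 / 4) ^ i := by
        rw [← pow_mul, mul_comm i 2, pow_mul, ← mul_pow]
        norm_num
      calc (1:ℝ) = (2 ^ i) ^ 2 * (1 / 4) ^ i := e2
        _ ≤ (H * x) ^ 2 * (1 / 4) ^ i := by
            apply mul_le_mul_of_nonneg_right _ (by positivity)
            exact pow_le_pow_left₀ (by positivity) hi1 2

/-- layers `2^i / H < |lq p| ≤ 2^(i+1) / H` -/
theorem exists_blk_weight : ∃ C : ℝ, 1 ≤ C ∧ ∀ (j : ℕ), 1 ≤ j → ∀ H : ℝ, 1 ≤ H →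
    ∑ p ∈ blk j, min (H ^ 2) (1 / lq p ^ 2) ≤ C * ((j : ℝ) + 1) * 2 ^ j * H := by
  classical
  obtain ⟨C, hC, hclose⟩ := exists_blk_close
  refine ⟨16 + 4 * C, by linarith, ?_⟩
  intro j hj H hH
  obtain ⟨N, hN⟩ := pow_unbounded_of_one_lt H (by norm_num : (1:ℝ) < 2)
  have hne : ∀ p ∈ blk j, p.1 ≠ p.2 := by
    intro p hp he
    obtain ⟨h1, h2, _⟩ := mem_blk.mp hp
    rw [he] at h1 h2
    have h3 : p.2 = 1 := by simpa using h1
    rw [h3] at h2
    have h4 : 2 ^ 1 ≤ 2 ^ j := Nat.pow_le_pow_right (by norm_num) hj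
    omega
  have hlq : ∀ p ∈ blk j, 0 < |lq p| := by
    intro p hp
    obtain ⟨p1, p2⟩ := RCT_pos hp
    rw [abs_pos]
    unfold lq
    intro h0
    have h1 : Real.log p.1 = Real.log p.2 := by linarith
    have h2 := Real.log_injOn_pos (Set.mem_Ioi.mpr (by exact_mod_cast p1))
      (Set.mem_Ioi.mpr (by exact_mod_cast p2)) h1
    exact hne p hp (by exact_mod_cast h2)
  set I := (Finset.range N).filter (fun i => (2:ℝ) ^ (i + 1) ≤ H) with hI
  have hstep : ∑ p ∈ blk j, min (H ^ 2) (1 / lq p ^ 2) ≤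
      ∑ p ∈ blk j, (4 + ∑ i ∈ I,
        H ^ 2 * (1 / 4) ^ i * (if |lq p| ≤ 2 ^ (i + 1) / H then 1 else 0)) := by
    apply Finset.sum_le_sum
    intro p hp
    have := RCT_pt H |lq p| hH (hlq p hp) N hN
    rwa [sq_abs] at this
  have hcard := card_blk_le j
  have hlayer : ∀ i ∈ I, ∑ p ∈ blk j,
      H ^ 2 * (1 / 4) ^ i * (if |lq p| ≤ 2 ^ (i + 1) / H then (1:ℝ) else 0) ≤
      2 * C * H * 2 ^ j * (1 / 2) ^ i := by
    intro i hi
    obtain ⟨_, hi2⟩ := Finset.mem_filter.mp hi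
    rw [← Finset.mul_sum, ← Finset.sum_filter, Finset.sum_const, nsmul_eq_mul, mul_one]
    have hH0 : 0 < H := by linarith
    have hc := hclose j (2 ^ (i + 1) / H) (by positivity) (by
      rw [div_le_one hH0]; exact hi2)
    have heq : (blk j).filter (fun p => |lq p| ≤ 2 ^ (i + 1) / H) =
        (blk j).filter (fun p => p.1 ≠ p.2 ∧ |lq p| ≤ 2 ^ (i + 1) / H) := by
      apply Finset.filter_congr
      intro p hp
      exact ⟨fun h => ⟨hne p hp, h⟩, fun h => h.2⟩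
    rw [heq]
    calc H ^ 2 * (1 / 4) ^ i * (((blk j).filter
            (fun p => p.1 ≠ p.2 ∧ |lq p| ≤ 2 ^ (i + 1) / H)).card : ℝ)
        ≤ H ^ 2 * (1 / 4) ^ i * (C * (2 ^ (i + 1) / H) * 2 ^ j) := by
          apply mul_le_mul_of_nonneg_left hc (by positivity)
      _ = 2 * C * H * 2 ^ j * ((1 / 4) ^ i * 2 ^ i) := by
          field_simp
          ring
      _ = 2 * C * H * 2 ^ j * (1 / 2) ^ i := by
          rw [← mul_pow]
          norm_num
  have hgeo : ∑ i ∈ I, (1 / 2 : ℝ) ^ i ≤ 2 := by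
    refine le_trans (Finset.sum_le_sum_of_subset_of_nonneg (Finset.filter_subset _ _)
      (fun _ _ _ => by positivity)) ?_
    exact sum_geometric_two_le N
  have hj0 : (0:ℝ) ≤ j := Nat.cast_nonneg j
  have h2j : (0:ℝ) < 2 ^ j := by positivity
  have hA : ∑ p ∈ blk j, (4:ℝ) ≤ 16 * ((j:ℝ) + 1) * 2 ^ j * H := by
    rw [Finset.sum_const, nsmul_eq_mul]
    calc ((blk j).card : ℝ) * 4 ≤ ((j:ℝ) + 2) * 2 ^ (j + 1) * 4 := by linarith
      _ = 8 * ((j:ℝ) + 2) * 2 ^ j := by rw [pow_succ]; ring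
      _ ≤ 16 * ((j:ℝ) + 1) * 2 ^ j := by nlinarith
      _ ≤ 16 * ((j:ℝ) + 1) * 2 ^ j * H := le_mul_of_one_le_right (by positivity) hH
  have hB : ∑ p ∈ blk j, ∑ i ∈ I,
        H ^ 2 * (1 / 4) ^ i * (if |lq p| ≤ 2 ^ (i + 1) / H then (1:ℝ) else 0) ≤
      4 * C * ((j:ℝ) + 1) * 2 ^ j * H := by
    rw [Finset.sum_comm]
    calc ∑ i ∈ I, ∑ p ∈ blk j,
          H ^ 2 * (1 / 4) ^ i * (if |lq p| ≤ 2 ^ (i + 1) / H then (1:ℝ) else 0)
        ≤ ∑ i ∈ I, 2 * C * H * 2 ^ j * (1 / 2) ^ i := Finset.sum_le_sum hlayer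
      _ = 2 * C * H * 2 ^ j * ∑ i ∈ I, (1 / 2 : ℝ) ^ i := by rw [Finset.mul_sum]
      _ ≤ 2 * C * H * 2 ^ j * 2 := by
          apply mul_le_mul_of_nonneg_left hgeo
          have : 0 ≤ C := by linarith
          positivity
      _ = 4 * C * 1 * 2 ^ j * H := by ring
      _ ≤ 4 * C * ((j:ℝ) + 1) * 2 ^ j * H := by
          have : 0 ≤ C := by linarith
          have h0 : 0 ≤ H := by linarith
          gcongr
          linarith
  rw [Finset.sum_add_distrib] at hstep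
  calc ∑ p ∈ blk j, min (H ^ 2) (1 / lq p ^ 2)
      ≤ 16 * ((j:ℝ) + 1) * 2 ^ j * H + 4 * C * ((j:ℝ) + 1) * 2 ^ j * H := by linarith
    _ = (16 + 4 * C) * ((j : ℝ) + 1) * 2 ^ j * H := by ring

end Pool.Agent.AAS
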