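import Pool.Agent.AAS.AVD
import Pool.Agent.AAS.RCT
import Pool.Agent.AAS.AVK
import Pool.Agent.AAS.YKB
import Pool.Agent.AAS.YKD
import Pool.Agent.AAS.CTS

set_option autoImplicit false

namespace Pool.Agent.AAS

open Complex Finset MeasureTheory Filter Topology Set
open Pool.Agent.H26

private lemma avl_const_mul {A B : ℝ} {g : ℝ → ℂ} {M : ℝ} (k : ℂ) (h : L2B A B g M) :
    L2B A B (fun x => k * g x) (‖k‖ * M) := by
  refine ⟨mul_nonneg (norm_nonneg _) h.1, ?_⟩
  have e : (fun x => ‖k * g x‖ ^ 2) = fun x => ‖k‖ ^ 2 * ‖g x‖ ^ 2 := by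
    funext x
    rw [norm_mul, mul_pow]
  rw [e, intervalIntegral.integral_const_mul, mul_pow]
  exact mul_le_mul_of_nonneg_left h.2 (by positivity)

private lemma avl_congr {A B : ℝ} (hAB : A ≤ B) {f g : ℝ → ℂ} {M : ℝ} (h : L2B A B g M)
    (hfg : ∀ x ∈ Icc A B, f x = g x) : L2B A B f M := by
  refine ⟨h.1, ?_⟩
  have e : ∫ x in A..B, ‖f x‖ ^ 2 = ∫ x in A..B, ‖g x‖ ^ 2 := by
    refine intervalIntegral.integral_congr fun x hx => ?_
    rw [uIcc_of_le hAB] at hx
    simp only [hfg x hx]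
  rw [e]
  exact h.2

private lemma avl_lq {j : ℕ} (hj : 1 ≤ j) {p : ℕ × ℕ} (hp : p ∈ blk j) : lq p ≠ 0 := by
  intro h
  have hm := mem_blk.1 hp
  have h0 := shf_pos hp
  have h1 : 0 < p.1 := Nat.pos_of_ne_zero (by rintro e; rw [e] at h0; simp at h0)
  have h2 : 0 < p.2 := Nat.pos_of_ne_zero (by rintro e; rw [e] at h0; simp at h0)
  unfold lq at h
  have h3 : (p.1 : ℝ) = p.2 := Real.log_injOn_pos (by simpa using h1) (by simpa using h2)
    (by linarith)
  have h4 : p.1 = p.2 := by exact_mod_cast h3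
  have h5 : p.2 = 1 := by
    have := hm.1
    rw [h4, Nat.coprime_self] at this
    exact this
  have h6 : (2:ℕ) ^ j ≤ p.1 * p.2 := hm.2.1
  rw [h4, h5] at h6
  have h7 : 2 ^ 1 ≤ 2 ^ j := Nat.pow_le_pow_right (by norm_num) hj
  omega

/-- the second moment of an averaged block (as `exists_l2_block` and `exists_avb_block`) -/
theorem exists_avl_block (B c : ℝ) (hB : 0 ≤ B) (hc : 0 < c) (hc1 : c ≤ 3 / 4) :
    ∃ C : ℝ, 1 ≤ C ∧ ∀ T H : ℝ, 2 ≤ T → 1 ≤ H → H ≤ T / 4 → ∀ a b : ℝ, |a| ≤ B → |b| ≤ B →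
    a ≠ b → ∀ κ : Bool, ∀ j : ℕ, 1 ≤ j →
    L2B T (2 * T) (fun t => ∫ u in (-H)..H, LIb a b T κ j c (t + u))
      (C * (1 + 1 / (a - b) ^ 2) * (T ^ c * 2 ^ (-c * j) * ((j : ℝ) + 1) * √(T + 2 ^ j) *
        √H)) := by
  obtain ⟨C1, hC11, hC1⟩ := exists_Yk_bound B hB
  obtain ⟨C2, hC21, hC2⟩ := exists_Yk_deriv B hB
  obtain ⟨C3, hC31, hC3⟩ := exists_blk_weight
  set A : ℝ := (C1 + C2) * (100 / c) * (1 / c + 5 + 4 * B) *
    ((Nat.factorial 11 : ℝ) * Real.exp 3) with hA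
  have hA0 : 0 < A := by positivity
  refine ⟨1 + A * (80 * C3) * shfG, by
    have h1 := shfG_nonneg
    have h2 : 0 ≤ A * (80 * C3) * shfG := by positivity
    linarith, ?_⟩
  intro T H hT hH hHT a b ha hb hab κ j hj
  have hT0 : 0 < T := by linarith
  have hT1 : 1 ≤ T := by linarith
  have hH0 : 0 < H := by linarith
  have hD : a - b ≠ 0 := sub_ne_zero.2 hab
  set E : ℝ := 1 + 1 / (a - b) ^ 2 with hE
  have hE0 : 0 < E := by positivity
  set tc : ℝ := T ^ c with htc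
  have htc0 : 0 < tc := Real.rpow_pos_of_pos hT0 _
  set w : ℝ := (2:ℝ) ^ (-c * j) with hw
  have hw0 : 0 < w := Real.rpow_pos_of_pos (by norm_num) _
  set R : ℝ := ((j : ℝ) + 1) * √(T + 2 ^ j) * √H with hR
  have hR0 : 0 < R := by
    have := Real.sqrt_pos.2 hH0
    have h2 := Real.sqrt_pos.2 (show (0:ℝ) < T + 2 ^ j by positivity)
    positivity
  have hAB : T ≤ 2 * T := by linarith
  -- bounds for each `y`
  have hca : |c| = c := abs_of_pos hc
  have hcu : |c| ≤ 1 := by rw [hca]; linarith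
  have hcoef : ∀ y : ℝ, ‖KD (a - b) (c + y * I)‖ *
      ‖riemannZeta (1 + 2 * ((c : ℂ) + y * I) + I * (sw κ a b - sw κ b a))‖ *
      ((C1 + C2) * (1 + ‖(c : ℂ) + y * I‖) ^ 8) ≤ A * E * Real.exp (-(y ^ 2 / 2)) := by
    intro y
    have h1 := norm_KD_le hD hc.ne' hcu y
    have h3 := shf_zeta_le κ ha hb hc.ne' (by linarith) y
    rw [hca] at h1 h3
    have hsn : ‖(c : ℂ) + y * I‖ ≤ 1 + |y| := shf_norm_line hcu
    set s : ℂ := (c : ℂ) + y * I with hs
    set n : ℝ := 1 + ‖s‖ with hn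
    have hn1 : 1 ≤ n := by have := norm_nonneg s; linarith
    have hnv : n ≤ 2 + |y| := by linarith
    have h5 : 1 + y ^ 2 ≤ (2 + |y|) ^ 2 := by
      have := sq_abs y
      nlinarith [abs_nonneg y]
    calc ‖KD (a - b) s‖ * ‖riemannZeta (1 + 2 * s + I * (sw κ a b - sw κ b a))‖ *
          ((C1 + C2) * n ^ 8)
        ≤ (100 / c * E * ((1 + y ^ 2) * Real.exp (-y ^ 2))) *
          ((1 / c + 5 + 4 * B) * n) * ((C1 + C2) * n ^ 8) := by gcongr
      _ = ((C1 + C2) * (100 / c) * (1 / c + 5 + 4 * B) * E) *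
          (n ^ 9 * (1 + y ^ 2) * Real.exp (-y ^ 2)) := by ring
      _ ≤ ((C1 + C2) * (100 / c) * (1 / c + 5 + 4 * B) * E) *
          ((2 + |y|) ^ 9 * (2 + |y|) ^ 2 * Real.exp (-y ^ 2)) := by gcongr
      _ = ((C1 + C2) * (100 / c) * (1 / c + 5 + 4 * B) * E) *
          ((2 + |y|) ^ 11 * Real.exp (-y ^ 2)) := by ring
      _ ≤ ((C1 + C2) * (100 / c) * (1 / c + 5 + 4 * B) * E) *
          ((Nat.factorial 11 : ℝ) * Real.exp 3 * Real.exp (-(y ^ 2 / 2))) := by
          have := shf_gauss 11 y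
          gcongr
      _ = _ := by rw [hA]; ring
  have hxx : ∀ x ∈ Icc (T - H) (2 * T + H), 1 ≤ x ∧ H ≤ x ∧ x ≤ 3 * T := by
    intro x hx
    have h1 := hx.1
    have h2 := hx.2
    refine ⟨by linarith, by linarith, by linarith⟩
  have hre : ∀ y : ℝ, ((c : ℂ) + y * I).re = c := fun y => by simp
  have hYb : ∀ y : ℝ, ∀ x ∈ Icc (T - H) (2 * T + H), ‖Yk a b T κ (c + y * I) x‖ ≤
      (C1 + C2) * (1 + ‖(c : ℂ) + y * I‖) ^ 8 * tc := by
    intro y x hx
    obtain ⟨h1, h2, h3⟩ := hxx x hx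
    have h4 := hC1 T hT1 a b ha hb κ (c + y * I) (by rw [hre]; exact hc.le)
      (by rw [hre]; exact hc1) x (by rw [abs_of_pos (by linarith)]; exact h3)
    rw [hre] at h4
    refine h4.trans ?_
    gcongr
    linarith
  have hAIb : ∀ y : ℝ, ∀ x ∈ Icc (T - H) (2 * T + H), ‖AI a b T κ j (c + y * I) x‖ ≤
      A * E * tc * ((blk j).card : ℝ) * Real.exp (-(y ^ 2 / 2)) := by
    intro y x hx
    have h4 : ‖DP (blk j) (sw κ a b) (sw κ b a) (c + y * I) x‖ ≤ ((blk j).card : ℝ) :=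
      shf_DP_le j _ _ (by rw [hre]; linarith) x
    have h5 := hYb y x hx
    have h6 := hcoef y
    unfold AI
    rw [norm_mul, norm_mul, norm_mul]
    set s : ℂ := (c : ℂ) + y * I with hs
    set n : ℝ := 1 + ‖s‖ with hn
    calc ‖KD (a - b) s‖ * ‖Yk a b T κ s x‖ *
          ‖riemannZeta (1 + 2 * s + I * (sw κ a b - sw κ b a))‖ *
          ‖DP (blk j) (sw κ a b) (sw κ b a) s x‖
        ≤ ‖KD (a - b) s‖ * ((C1 + C2) * n ^ 8 * tc) *
          ‖riemannZeta (1 + 2 * s + I * (sw κ a b - sw κ b a))‖ * ((blk j).card : ℝ) := by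
          gcongr
      _ = (‖KD (a - b) s‖ * ‖riemannZeta (1 + 2 * s + I * (sw κ a b - sw κ b a))‖ *
          ((C1 + C2) * n ^ 8)) * (tc * ((blk j).card : ℝ)) := by ring
      _ ≤ (A * E * Real.exp (-(y ^ 2 / 2))) * (tc * ((blk j).card : ℝ)) := by gcongr
      _ = _ := by ring
  have hAIc := avk_continuous (a := a) (b := b) T hT0 κ j hc
  -- the averaged line integrand
  have hgc : Continuous fun p : ℝ × ℝ => ∫ u in (-H)..H, AI a b T κ j (c + p.1 * I) (p.2 + u) := by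
    apply intervalIntegral.continuous_parametric_intervalIntegral_of_continuous'
    exact hAIc.comp (f := fun q : (ℝ × ℝ) × ℝ => (q.1.1, q.1.2 + q.2)) (by fun_prop)
  -- the sum of the coefficients
  have hcoe : ∀ y : ℝ, ∑ r ∈ blk j, ‖cf (sw κ a b) (sw κ b a) (c + y * I) r‖ ^ 2 *
      min (H ^ 2) (1 / lq r ^ 2) ≤ w ^ 2 * (C3 * ((j : ℝ) + 1) * H) := by
    intro y
    have h1 : ∀ r ∈ blk j, ‖cf (sw κ a b) (sw κ b a) (c + y * I) r‖ ^ 2 *
        min (H ^ 2) (1 / lq r ^ 2) ≤ ((2:ℝ) ^ (-(j:ℝ)) * w ^ 2) * min (H ^ 2) (1 / lq r ^ 2) := by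
      intro p hp
      have h0 : 0 ≤ min (H ^ 2) (1 / lq p ^ 2) := le_min (by positivity) (by positivity)
      refine mul_le_mul_of_nonneg_right ?_ h0
      rw [norm_cf _ _ _ (shf_pos hp), hre]
      have h5 : ((2:ℝ) ^ j) ≤ ((p.1 * p.2 : ℕ) : ℝ) := by
        exact_mod_cast (mem_blk.1 hp).2.1
      have h6 : ((p.1 * p.2 : ℕ) : ℝ) ^ (-(1 / 2) - c) ≤ ((2:ℝ) ^ j) ^ (-(1 / 2) - c) :=
        Real.rpow_le_rpow_of_nonpos (by positivity) h5 (by linarith)
      have h7 : (((p.1 * p.2 : ℕ) : ℝ) ^ (-(1 / 2) - c)) ^ 2 ≤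
          (((2:ℝ) ^ j) ^ (-(1 / 2) - c)) ^ 2 := pow_le_pow_left₀ (by positivity) h6 2
      refine h7.trans (le_of_eq ?_)
      rw [hw, ← Real.rpow_natCast 2 j, ← Real.rpow_mul (by norm_num), ← Real.rpow_natCast _ 2,
        ← Real.rpow_mul (by norm_num), ← Real.rpow_natCast ((2:ℝ) ^ (-c * (j:ℝ))) 2,
        ← Real.rpow_mul (by norm_num), ← Real.rpow_add (by norm_num)]
      congr 1
      push_cast
      ring
    refine (Finset.sum_le_sum h1).trans ?_
    rw [← Finset.mul_sum]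
    have h2 := hC3 j hj H hH
    have h3 : (2:ℝ) ^ (-(j:ℝ)) * 2 ^ j = 1 := by
      rw [← Real.rpow_natCast 2 j, ← Real.rpow_add (by norm_num), neg_add_cancel, Real.rpow_zero]
    calc (2:ℝ) ^ (-(j:ℝ)) * w ^ 2 * ∑ p ∈ blk j, min (H ^ 2) (1 / lq p ^ 2)
        ≤ (2:ℝ) ^ (-(j:ℝ)) * w ^ 2 * (C3 * ((j : ℝ) + 1) * 2 ^ j * H) := by gcongr
      _ = ((2:ℝ) ^ (-(j:ℝ)) * 2 ^ j) * (w ^ 2 * (C3 * ((j : ℝ) + 1) * H)) := by ring
      _ = _ := by rw [h3, one_mul]
  -- one block for each `y`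
  have hone : ∀ y : ℝ, L2B T (2 * T) (fun x => (2 * Real.pi : ℂ)⁻¹ *
      ∫ u in (-H)..H, AI a b T κ j (c + y * I) (x + u))
      (A * E * tc * w * (80 * C3 * R) * Real.exp (-(y ^ 2 / 2))) := by
    intro y
    obtain ⟨Y', hY'c, hY', hY'b⟩ := hC2 T hT1 a b ha hb κ (c + y * I) (by rw [hre]; exact hc.le)
      (by rw [hre]; exact hc1)
    rw [hre] at hY'b
    have hYc : Continuous (Yk a b T κ (c + y * I)) := by
      rw [continuous_iff_continuousAt]
      exact fun x => (hY' x).continuousAt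
    have hsum := hcoe y
    set s : ℂ := (c : ℂ) + y * I with hs
    set n : ℝ := 1 + ‖s‖ with hn
    have hn1 : 1 ≤ n := by have := norm_nonneg s; linarith
    have hδ : (0:ℝ) < 1 / 2 ^ (j + 1) := by positivity
    have h1 := avd_poly (blk j) lq hδ (fun r hr s hs h => sep_blk hr hs h)
      (fun r hr => avl_lq hj hr) (cf (sw κ a b) (sw κ b a) s) (A := T) (A' := 2 * T) (H := H)
      (V := (C1 + C2) * n ^ 8 * tc) hAB hH0 (by positivity) hYc hY'c hY'
      (fun x hx => hYb y x hx)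
      (fun x hx => by
        obtain ⟨h1, h2, h3⟩ := hxx x hx
        refine (hY'b x h1 h3).trans ?_
        gcongr
        linarith)
    have h2 := avl_const_mul ((2 * Real.pi : ℂ)⁻¹ * (KD (a - b) s *
      riemannZeta (1 + 2 * s + I * (sw κ a b - sw κ b a)))) h1
    have h3 := L2B.mono h2 (N := A * E * tc * w * (80 * C3 * R) * Real.exp (-(y ^ 2 / 2))) ?_
    · refine avl_congr hAB h3 fun x _ => ?_
      have e4 : ∫ u in (-H)..H, AI a b T κ j s (x + u) = (KD (a - b) s *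
          riemannZeta (1 + 2 * s + I * (sw κ a b - sw κ b a))) *
          ∫ u in (-H)..H, Yk a b T κ s (x + u) * ∑ r ∈ blk j, cf (sw κ a b) (sw κ b a) s r *
            cexp (-(I * lq r * (x + u))) := by
        rw [← intervalIntegral.integral_const_mul]
        refine intervalIntegral.integral_congr fun u _ => ?_
        unfold AI DP
        push_cast
        ring
      rw [e4]
      exact (mul_assoc _ _ _).symm
    · have h6 : √(((2 * T - T) + 1 / (1 / 2 ^ (j + 1))) *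
          ∑ r ∈ blk j, ‖cf (sw κ a b) (sw κ b a) s r‖ ^ 2 * min (H ^ 2) (1 / lq r ^ 2)) ≤
          2 * C3 * (w * R) := by
        have e2 : (1:ℝ) / (1 / 2 ^ (j + 1)) = 2 * 2 ^ j := by
          rw [pow_succ]
          field_simp
        rw [e2]
        apply Real.sqrt_le_iff.2
        refine ⟨by positivity, ?_⟩
        have e5 : (0:ℝ) < 2 ^ j := by positivity
        have hj0 : (0:ℝ) ≤ j := Nat.cast_nonneg j
        have e6 : 2 * T - T + 2 * (2:ℝ) ^ j ≤ 2 * (T + 2 ^ j) := by linarith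
        have e7 : (2 * C3 * (w * R)) ^ 2 =
            4 * C3 ^ 2 * w ^ 2 * (((j:ℝ) + 1) ^ 2 * (T + 2 ^ j) * H) := by
          have q1 : (√(T + 2 ^ j)) ^ 2 = T + 2 ^ j := Real.sq_sqrt (by positivity)
          have q2 : (√H) ^ 2 = H := Real.sq_sqrt hH0.le
          rw [hR]
          calc _ = 4 * C3 ^ 2 * w ^ 2 * (((j:ℝ) + 1) ^ 2 * (√(T + 2 ^ j)) ^ 2 * (√H) ^ 2) := by
                ring
            _ = _ := by rw [q1, q2]
        rw [e7]
        have e8 : C3 * ((j:ℝ) + 1) ≤ C3 ^ 2 * ((j:ℝ) + 1) ^ 2 := by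
          have q1 : 1 ≤ C3 * ((j:ℝ) + 1) := by nlinarith
          nlinarith
        calc (2 * T - T + 2 * (2:ℝ) ^ j) *
              ∑ r ∈ blk j, ‖cf (sw κ a b) (sw κ b a) s r‖ ^ 2 * min (H ^ 2) (1 / lq r ^ 2)
            ≤ (2 * (T + 2 ^ j)) * (w ^ 2 * (C3 * ((j : ℝ) + 1) * H)) :=
              mul_le_mul e6 hsum (Finset.sum_nonneg fun r _ =>
                mul_nonneg (by positivity) (le_min (by positivity) (by positivity)))
                (by positivity)
          _ = (2 * (T + 2 ^ j) * w ^ 2 * H) * (C3 * ((j:ℝ) + 1)) := by ring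
          _ ≤ (2 * (T + 2 ^ j) * w ^ 2 * H) * (C3 ^ 2 * ((j:ℝ) + 1) ^ 2) := by gcongr
          _ ≤ _ := by
              have : 0 ≤ (T + 2 ^ j) * w ^ 2 * H * (C3 ^ 2 * ((j:ℝ) + 1) ^ 2) := by positivity
              nlinarith
      have hpi : ‖(2 * Real.pi : ℂ)⁻¹‖ ≤ 1 := by
        have h3 : (2 * Real.pi : ℂ) = ((2 * Real.pi : ℝ) : ℂ) := by push_cast; ring
        rw [norm_inv, h3, Complex.norm_real, Real.norm_of_nonneg (by positivity)]
        apply inv_le_one_of_one_le₀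
        have := Real.pi_gt_three
        linarith
      rw [norm_mul, norm_mul]
      calc ‖(2 * Real.pi : ℂ)⁻¹‖ * (‖KD (a - b) s‖ *
            ‖riemannZeta (1 + 2 * s + I * (sw κ a b - sw κ b a))‖) *
            (40 * ((C1 + C2) * n ^ 8 * tc) * √(((2 * T - T) + 1 / (1 / 2 ^ (j + 1))) *
              ∑ r ∈ blk j, ‖cf (sw κ a b) (sw κ b a) s r‖ ^ 2 * min (H ^ 2) (1 / lq r ^ 2)))
          ≤ 1 * (‖KD (a - b) s‖ * ‖riemannZeta (1 + 2 * s + I * (sw κ a b - sw κ b a))‖) *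
            (40 * ((C1 + C2) * n ^ 8 * tc) * (2 * C3 * (w * R))) := by gcongr
        _ = (‖KD (a - b) s‖ * ‖riemannZeta (1 + 2 * s + I * (sw κ a b - sw κ b a))‖ *
            ((C1 + C2) * n ^ 8)) * (tc * w * (80 * C3 * R)) := by ring
        _ ≤ (A * E * Real.exp (-(y ^ 2 / 2))) * (tc * w * (80 * C3 * R)) := by
            have := hcoef y
            gcongr
        _ = _ := by ring
  have hpi : ‖(2 * Real.pi : ℂ)⁻¹‖ ≤ 1 := by
    have h3 : (2 * Real.pi : ℂ) = ((2 * Real.pi : ℝ) : ℂ) := by push_cast; ring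
    rw [norm_inv, h3, Complex.norm_real, Real.norm_of_nonneg (by positivity)]
    apply inv_le_one_of_one_le₀
    have := Real.pi_gt_three
    linarith
  -- integration
  have hint := L2B.integral hAB (g := fun y x => (2 * Real.pi : ℂ)⁻¹ *
      ∫ u in (-H)..H, AI a b T κ j (c + y * I) (x + u))
    (continuous_const.mul hgc)
    (m := fun y => (2 * H * (A * E * tc * ((blk j).card : ℝ))) * Real.exp (-(y ^ 2 / 2)))
    (shf_int _)
    (fun y x hx => by
      rw [norm_mul]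
      have h1 : ‖∫ u in (-H)..H, AI a b T κ j (c + y * I) (x + u)‖ ≤
          (A * E * tc * ((blk j).card : ℝ) * Real.exp (-(y ^ 2 / 2))) * |H - -H| := by
        refine intervalIntegral.norm_integral_le_of_norm_le_const fun u hu => ?_
        rw [uIoc_of_le (by linarith)] at hu
        exact hAIb y (x + u) ⟨by linarith [hx.1, hu.1], by linarith [hx.2, hu.2]⟩
      have h2 : |H - -H| = 2 * H := by
        rw [abs_of_pos (by linarith)]; ring
      rw [h2] at h1
      calc _ ≤ 1 * ((A * E * tc * ((blk j).card : ℝ) * Real.exp (-(y ^ 2 / 2))) * (2 * H)) := by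
            gcongr
        _ = _ := by ring)
    (M := fun y => A * E * tc * w * (80 * C3 * R) * Real.exp (-(y ^ 2 / 2))) (shf_int _)
    (fun y => by positivity) hone
  have h8 := L2B.mono hint (N := (1 + A * (80 * C3) * shfG) * E * (tc * w * R)) ?_
  · have h9 := avl_congr (f := fun t => ∫ u in (-H)..H, LIb a b T κ j c (t + u)) hAB h8 ?_
    · have e0 : (1 + A * (80 * C3) * shfG) * E * (tc * w * R) =
          (1 + A * (80 * C3) * shfG) * E * (tc * w * ((j : ℝ) + 1) * √(T + 2 ^ j) * √H) := by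
        rw [hR]
        ring
      rw [← e0]
      exact h9
    · intro x hx
      unfold LIb LI
      have e1 : ∫ u in (-H)..H, (2 * Real.pi : ℂ)⁻¹ * ∫ y : ℝ, AI a b T κ j (c + y * I) (x + u) =
          (2 * Real.pi : ℂ)⁻¹ * ∫ u in (-H)..H, ∫ y : ℝ, AI a b T κ j (c + y * I) (x + u) := by
        rw [intervalIntegral.integral_const_mul]
      have e2 : ∫ y : ℝ, (2 * Real.pi : ℂ)⁻¹ * ∫ u in (-H)..H, AI a b T κ j (c + y * I) (x + u) =
          (2 * Real.pi : ℂ)⁻¹ * ∫ y : ℝ, ∫ u in (-H)..H, AI a b T κ j (c + y * I) (x + u) := by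
        rw [integral_const_mul]
      have e3 : ∫ u in (-H)..H, ∫ y : ℝ, AI a b T κ j (c + y * I) (x + u) =
          ∫ y : ℝ, ∫ u in (-H)..H, AI a b T κ j (c + y * I) (x + u) := by
        simp only [intervalIntegral.integral_of_le (show -H ≤ H by linarith)]
        refine integral_integral_swap (μ := volume.restrict (Ioc (-H) H)) (ν := (volume : Measure ℝ))
          (f := fun (u y : ℝ) => AI a b T κ j (c + y * I) (x + u)) ?_
        have hg : Integrable (fun z : ℝ × ℝ => (1:ℝ) *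
            (A * E * tc * ((blk j).card : ℝ) * Real.exp (-(z.2 ^ 2 / 2))))
            ((volume.restrict (Ioc (-H) H)).prod volume) :=
          (integrable_const (1:ℝ)).mul_prod (shf_int _)
        refine hg.mono' ?_ ?_
        · exact (hAIc.comp (f := fun q : ℝ × ℝ => (q.2, x + q.1))
            (by fun_prop)).aestronglyMeasurable
        · have hae : ∀ᵐ z ∂((volume.restrict (Ioc (-H) H)).prod (volume : Measure ℝ)),
              z.1 ∈ Ioc (-H) H :=
            Measure.quasiMeasurePreserving_fst.ae (ae_restrict_mem measurableSet_Ioc)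
          filter_upwards [hae] with z hz
          rw [one_mul]
          exact hAIb z.2 (x + z.1) ⟨by linarith [hx.1, hz.1], by linarith [hx.2, hz.2]⟩
      rw [e1, e2, e3]
  · rw [integral_const_mul]
    have h11 : 0 ≤ A * E * tc * w * (80 * C3 * R) := by positivity
    have h12 : (∫ y : ℝ, Real.exp (-(y ^ 2 / 2))) = shfG := rfl
    rw [h12]
    calc A * E * tc * w * (80 * C3 * R) * shfG
        = (A * (80 * C3) * shfG) * E * (tc * w * R) := by ring
      _ ≤ _ := by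
          gcongr
          linarith

end Pool.Agent.AAS
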