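import Pool.Agent.AAS.LS

set_option autoImplicit false

namespace Pool.Agent.AAS

open Complex Finset MeasureTheory Filter Topology Set
open Pool.Agent.H26
open scoped Real ComplexConjugate Interval

namespace AVPX

open LSX

section P3

variable {ι : Type*} (R : Finset ι) (c : ι → ℂ) (lam : ι → ℝ) (a b : ℝ) (Ψ : ℝ → ℂ)

/-- The coefficient functions `D_r(v)`. -/
noncomputable def Dr (Φ : ℝ → ℂ) (r : ι) (v : ℝ) : ℂ := ∫ t in a..b, (Ψ t * Φ (t + v)) * cexp (-(I * lam r * t))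

/-- `G_v(u)`. -/
noncomputable def Gv (Φ : ℝ → ℂ) (v u : ℝ) : ℂ := ∫ t in a..b, Ψ t * Φ (t + v) * tp R c lam (t + u)

variable {a b Ψ}

lemma memLp_mul_shift (hab : a ≤ b) (hΨ : MemLp Ψ 2 (volume.restrict (Ioc a b))) {Φ : ℝ → ℂ}
    (hΦ : Continuous Φ) {H M : ℝ} (hM : ∀ x ∈ Icc (a - H) (b + H), ‖Φ x‖ ≤ M) {v : ℝ}
    (hv : |v| ≤ H) : MemLp (fun t => Ψ t * Φ (t + v)) 2 (volume.restrict (Ioc a b)) := by
  have hM0 : 0 ≤ M := by
    have h1 := hM a ⟨by have := abs_nonneg v; linarith, by have := abs_nonneg v; linarith⟩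
    exact (norm_nonneg _).trans h1
  refine (hΨ.const_mul (M : ℂ)).of_le
    (hΨ.aestronglyMeasurable.mul (hΦ.comp (by fun_prop)).aestronglyMeasurable) ?_
  rw [ae_restrict_iff' measurableSet_Ioc]
  refine ae_of_all _ fun t ht => ?_
  rw [norm_mul, norm_mul, mul_comm, Complex.norm_real, Real.norm_of_nonneg hM0]
  refine mul_le_mul_of_nonneg_right (hM _ ?_) (norm_nonneg _)
  have := abs_le.mp hv
  exact ⟨by linarith [ht.1], by linarith [ht.2]⟩

lemma sq_shift_le (hab : a ≤ b) (hΨ : MemLp Ψ 2 (volume.restrict (Ioc a b))) {Φ : ℝ → ℂ}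
    (hΦ : Continuous Φ) {H M : ℝ} (hM : ∀ x ∈ Icc (a - H) (b + H), ‖Φ x‖ ≤ M) {v : ℝ}
    (hv : |v| ≤ H) : ∫ t in a..b, ‖Ψ t * Φ (t + v)‖ ^ 2 ≤ M ^ 2 * ∫ t in a..b, ‖Ψ t‖ ^ 2 := by
  have h1 := memLp_mul_shift hab hΨ hΦ hM hv
  have i1 : Integrable (fun t => ‖Ψ t * Φ (t + v)‖ ^ 2) (volume.restrict (Ioc a b)) := by
    have := h1.integrable_norm_pow (by norm_num)
    simpa using this
  have i2 : Integrable (fun t => ‖Ψ t‖ ^ 2) (volume.restrict (Ioc a b)) := by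
    have := hΨ.integrable_norm_pow (by norm_num)
    simpa using this
  rw [intervalIntegral.integral_of_le hab, intervalIntegral.integral_of_le hab,
    ← integral_const_mul]
  refine setIntegral_mono_on i1 (i2.const_mul _) measurableSet_Ioc fun t ht => ?_
  rw [norm_mul, mul_pow, mul_comm]
  refine mul_le_mul_of_nonneg_right (pow_le_pow_left₀ (norm_nonneg _) (hM _ ?_) 2) (sq_nonneg _)
  have := abs_le.mp hv
  exact ⟨by linarith [ht.1], by linarith [ht.2]⟩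

lemma Gv_eq (hab : a ≤ b) (hΨ : MemLp Ψ 2 (volume.restrict (Ioc a b))) {Φ : ℝ → ℂ}
    (hΦ : Continuous Φ) {H M : ℝ} (hM : ∀ x ∈ Icc (a - H) (b + H), ‖Φ x‖ ≤ M) {v : ℝ}
    (hv : |v| ≤ H) (u : ℝ) :
    Gv R c lam a b Ψ Φ v u = tp R (fun r => c r * Dr lam a b Ψ Φ r v) lam u := by
  have h1 := (memLp_mul_shift hab hΨ hΦ hM hv).integrable one_le_two
  have hterm : ∀ r : ι, IntervalIntegrable
      (fun t => (Ψ t * Φ (t + v)) * cexp (-(I * lam r * t))) volume a b := by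
    intro r
    rw [intervalIntegrable_iff_integrableOn_Ioc_of_le hab]
    refine h1.norm.mono' (h1.aestronglyMeasurable.mul
      (Continuous.aestronglyMeasurable (by fun_prop))) (ae_of_all _ fun t => ?_)
    rw [norm_mul, show -(I * (lam r : ℂ) * t) = ((-(lam r * t) : ℝ) : ℂ) * I by push_cast; ring,
      Complex.norm_exp_ofReal_mul_I, mul_one]
  unfold Gv tp
  simp_rw [Finset.mul_sum]
  have e : ∀ (r : ι) (t : ℝ), Ψ t * Φ (t + v) * (c r * cexp (-(I * lam r * (t + u : ℝ))))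
      = (c r * cexp (-(I * lam r * u))) * ((Ψ t * Φ (t + v)) * cexp (-(I * lam r * t))) := by
    intro r t
    rw [show -(I * (lam r : ℂ) * (t + u : ℝ)) = -(I * lam r * u) + -(I * lam r * t) by push_cast; ring,
      Complex.exp_add]
    ring
  simp_rw [e]
  rw [intervalIntegral.integral_finsetSum fun r _ => (hterm r).const_mul _]
  refine Finset.sum_congr rfl fun r _ => ?_
  rw [intervalIntegral.integral_const_mul]
  unfold Dr
  ring

/-- The bound for a fixed `v`. -/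
lemma Gv_sq (hab : a ≤ b) (hΨ : MemLp Ψ 2 (volume.restrict (Ioc a b))) {dl : ℝ} (hdl : 0 < dl)
    (hs : ∀ r ∈ R, ∀ s ∈ R, r ≠ s → dl ≤ |lam r - lam s|) {m : ℝ}
    (hc : ∀ r ∈ R, ‖c r‖ ≤ m) {Φ : ℝ → ℂ}
    (hΦ : Continuous Φ) {H M : ℝ} (hH : 0 ≤ H) (hM : ∀ x ∈ Icc (a - H) (b + H), ‖Φ x‖ ≤ M) {v : ℝ}
    (hv : |v| ≤ H) :
    ∫ u in (-H)..H, ‖Gv R c lam a b Ψ Φ v u‖ ^ 2
      ≤ 25 ^ 2 * (2 * H + 1 / dl) * ((b - a) + 1 / dl) * m ^ 2 * M ^ 2 * ∫ t in a..b, ‖Ψ t‖ ^ 2 := by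
  have hdl' : 0 < 1 / dl := by positivity
  simp_rw [Gv_eq R c lam hab hΨ hΦ hM hv]
  refine (large_sieve_tp R _ lam hdl hs (by linarith)).trans ?_
  have h1 : ∑ r ∈ R, ‖c r * Dr lam a b Ψ Φ r v‖ ^ 2 ≤ m ^ 2 * ∑ r ∈ R, ‖Dr lam a b Ψ Φ r v‖ ^ 2 := by
    rw [Finset.mul_sum]
    refine Finset.sum_le_sum fun r hr => ?_
    rw [norm_mul, mul_pow]
    exact mul_le_mul_of_nonneg_right (pow_le_pow_left₀ (norm_nonneg _) (hc r hr) 2) (sq_nonneg _)
  have h2 := large_sieve_dual_mem R lam hdl hs hab (memLp_mul_shift hab hΨ hΦ hM hv)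
  have h3 := sq_shift_le hab hΨ hΦ hM hv
  have hm2 := sq_nonneg m
  have k1 : 0 ≤ 25 * ((H - -H) + 1 / dl) := by
    apply mul_nonneg (by norm_num); linarith
  have k2 : 0 ≤ 25 * ((b - a) + 1 / dl) := by
    apply mul_nonneg (by norm_num); linarith
  calc 25 * ((H - -H) + 1 / dl) * ∑ r ∈ R, ‖c r * Dr lam a b Ψ Φ r v‖ ^ 2
      ≤ 25 * ((H - -H) + 1 / dl) * (m ^ 2 * (25 * ((b - a) + 1 / dl) *
          (M ^ 2 * ∫ t in a..b, ‖Ψ t‖ ^ 2))) := by
        refine mul_le_mul_of_nonneg_left (h1.trans (mul_le_mul_of_nonneg_left ?_ hm2)) k1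
        exact h2.trans (mul_le_mul_of_nonneg_left h3 k2)
    _ = _ := by ring

lemma continuous_Dr (hab : a ≤ b) (hΨ : MemLp Ψ 2 (volume.restrict (Ioc a b))) {Φ : ℝ → ℂ}
    (hΦ : Continuous Φ) {M : ℝ} (hM : ∀ x, ‖Φ x‖ ≤ M) (r : ι) :
    Continuous (Dr lam a b Ψ Φ r) := by
  have h1 := hΨ.integrable one_le_two
  have : Dr lam a b Ψ Φ r = fun v => ∫ t in Ioc a b, (Ψ t * Φ (t + v)) * cexp (-(I * lam r * t)) := by
    funext v
    unfold Dr
    rw [intervalIntegral.integral_of_le hab]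
  rw [this]
  refine continuous_of_dominated (bound := fun t => ‖Ψ t‖ * M) ?_ ?_ (h1.norm.mul_const M) ?_
  · intro v
    exact (h1.aestronglyMeasurable.mul (hΦ.comp (by fun_prop)).aestronglyMeasurable).mul
      (Continuous.aestronglyMeasurable (by fun_prop))
  · intro v
    refine ae_of_all _ fun t => ?_
    rw [norm_mul, norm_mul, show -(I * (lam r : ℂ) * t) = ((-(lam r * t) : ℝ) : ℂ) * I by push_cast; ring,
      Complex.norm_exp_ofReal_mul_I, mul_one]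
    exact mul_le_mul_of_nonneg_left (hM _) (norm_nonneg _)
  · refine ae_of_all _ fun t => ?_
    have : Continuous fun v : ℝ => Φ (t + v) := hΦ.comp (by fun_prop)
    fun_prop

end P3


lemma cs_real {f : ℝ → ℝ} (hf : Continuous f) {x y : ℝ} (h : x ≤ y) :
    (∫ t in x..y, f t) ^ 2 ≤ (y - x) * ∫ t in x..y, (f t) ^ 2 := by
  rcases eq_or_lt_of_le h with rfl | hlt
  · simp
  set L := y - x with hL
  have hLpos : 0 < L := by rw [hL]; linarith
  set A := ∫ t in x..y, f t with hA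
  set Q := ∫ t in x..y, (f t) ^ 2 with hQ
  have h0 : 0 ≤ ∫ t in x..y, (L * f t - A) ^ 2 :=
    intervalIntegral.integral_nonneg h fun t _ => sq_nonneg _
  have h1 : ∫ t in x..y, (L * f t - A) ^ 2 = L ^ 2 * Q - 2 * L * A * A + A ^ 2 * L := by
    have e : ∀ t, (L * f t - A) ^ 2 = L ^ 2 * (f t) ^ 2 - 2 * L * A * f t + A ^ 2 := by
      intro t; ring
    simp_rw [e]
    rw [intervalIntegral.integral_add, intervalIntegral.integral_sub,
      intervalIntegral.integral_const_mul, intervalIntegral.integral_const_mul,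
      intervalIntegral.integral_const]
    · simp only [smul_eq_mul, ← hL]
      ring
    · exact (Continuous.intervalIntegrable (by fun_prop) _ _)
    · exact (Continuous.intervalIntegrable (by fun_prop) _ _)
    · exact (Continuous.intervalIntegrable (by fun_prop) _ _)
    · exact (Continuous.intervalIntegrable (by fun_prop) _ _)
  rw [h1] at h0
  have h2 : 0 ≤ L * (L * Q - A ^ 2) := by nlinarith
  have h3 : 0 ≤ L * Q - A ^ 2 := nonneg_of_mul_nonneg_right h2 hLpos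
  linarith

lemma norm_integral_sq_le {g : ℝ → ℂ} (hg : Continuous g) {u H : ℝ} (hu : |u| ≤ H) :
    ‖∫ v in (0 : ℝ)..u, g v‖ ^ 2 ≤ H * ∫ v in (-H)..H, ‖g v‖ ^ 2 := by
  have hH : 0 ≤ H := (abs_nonneg u).trans hu
  have hu' := abs_le.mp hu
  have hn : Continuous fun v => ‖g v‖ := hg.norm
  have hn2 : Continuous fun v => ‖g v‖ ^ 2 := hn.pow 2
  have hnn : ∀ v, 0 ≤ ‖g v‖ ^ 2 := fun v => sq_nonneg _
  have key : ∀ x y : ℝ, x ≤ y → -H ≤ x → y ≤ H → y - x ≤ H →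
      (∫ v in x..y, ‖g v‖) ^ 2 ≤ H * ∫ v in (-H)..H, ‖g v‖ ^ 2 := by
    intro x y hxy hx hy hL
    refine (cs_real hn hxy).trans ?_
    have h1 : ∫ v in x..y, ‖g v‖ ^ 2 ≤ ∫ v in (-H)..H, ‖g v‖ ^ 2 :=
      intervalIntegral.integral_mono_interval hx hxy hy
        (Filter.Eventually.of_forall fun v => hnn v) (hn2.intervalIntegrable _ _)
    exact mul_le_mul hL h1 (intervalIntegral.integral_nonneg hxy fun v _ => hnn v) hH
  have h0 := intervalIntegral.norm_integral_le_abs_integral_norm (f := g) (a := 0) (b := u)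
    (μ := volume)
  have h1 : ‖∫ v in (0 : ℝ)..u, g v‖ ^ 2 ≤ (∫ v in (0 : ℝ)..u, ‖g v‖) ^ 2 := by
    rw [← sq_abs (∫ v in (0 : ℝ)..u, ‖g v‖)]
    exact pow_le_pow_left₀ (norm_nonneg _) h0 2
  refine h1.trans ?_
  rcases le_total 0 u with h | h
  · exact key 0 u h (by linarith) hu'.2 (by linarith [hu'.2])
  · rw [intervalIntegral.integral_symm, neg_sq]
    exact key u 0 h hu'.1 hH (by linarith [hu'.1])

variable {ι : Type*} (R : Finset ι) (c : ι → ℂ) (lam : ι → ℝ) {a b : ℝ} {Ψ : ℝ → ℂ}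

lemma Gv_eq' (hab : a ≤ b) (hΨ : MemLp Ψ 2 (volume.restrict (Ioc a b))) {Φ : ℝ → ℂ}
    (hΦ : Continuous Φ) {M : ℝ} (hM : ∀ x, ‖Φ x‖ ≤ M) (v u : ℝ) :
    Gv R c lam a b Ψ Φ v u = tp R (fun r => c r * Dr lam a b Ψ Φ r v) lam u :=
  Gv_eq R c lam hab hΨ hΦ (fun x _ => hM x) (le_refl |v|) u

lemma continuous_Gv (hab : a ≤ b) (hΨ : MemLp Ψ 2 (volume.restrict (Ioc a b))) {Φ : ℝ → ℂ}
    (hΦ : Continuous Φ) {M : ℝ} (hM : ∀ x, ‖Φ x‖ ≤ M) :
    Continuous fun p : ℝ × ℝ => Gv R c lam a b Ψ Φ p.1 p.2 := by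
  simp_rw [Gv_eq' R c lam hab hΨ hΦ hM]
  unfold tp
  have h : ∀ r, Continuous (Dr lam a b Ψ Φ r) := fun r => continuous_Dr lam hab hΨ hΦ hM r
  refine continuous_finsetSum _ fun r _ => ?_
  exact (continuous_const.mul ((h r).comp continuous_fst)).mul (by fun_prop)

lemma norm_tp_le (u : ℝ) : ‖tp R c lam u‖ ≤ ∑ r ∈ R, ‖c r‖ := by
  unfold tp
  refine (norm_sum_le _ _).trans (Finset.sum_le_sum fun r _ => ?_)
  rw [norm_mul, show -(I * (lam r : ℂ) * u) = ((-(lam r * u) : ℝ) : ℂ) * I by push_cast; ring,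
    Complex.norm_exp_ofReal_mul_I, mul_one]

lemma integrable_mul_tp (hΨ : MemLp Ψ 2 (volume.restrict (Ioc a b))) {Φ : ℝ → ℂ}
    (hΦ : Continuous Φ) {M : ℝ} (hM : ∀ x, ‖Φ x‖ ≤ M) (v u : ℝ) :
    Integrable (fun t => Ψ t * Φ (t + v) * tp R c lam (t + u)) (volume.restrict (Ioc a b)) := by
  have h1 := hΨ.integrable one_le_two
  have c2 : Continuous fun t : ℝ => Φ (t + v) := hΦ.comp (by fun_prop)
  have c3 : Continuous fun t : ℝ => tp R c lam (t + u) := (continuous_tp R c lam).comp (by fun_prop)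
  refine ((h1.norm.mul_const M).mul_const (∑ r ∈ R, ‖c r‖)).mono'
    ((h1.aestronglyMeasurable.mul c2.aestronglyMeasurable).mul c3.aestronglyMeasurable)
    (ae_of_all _ fun t => ?_)
  rw [norm_mul, norm_mul]
  exact mul_le_mul (mul_le_mul_of_nonneg_left (hM _) (norm_nonneg _)) (norm_tp_le R c lam _)
    (norm_nonneg _) (mul_nonneg (norm_nonneg _) ((norm_nonneg _).trans (hM 0)))

lemma swap_Gv (hab : a ≤ b) (hΨ : MemLp Ψ 2 (volume.restrict (Ioc a b))) {Φ : ℝ → ℂ}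
    (hΦ : Continuous Φ) {M : ℝ} (hM : ∀ x, ‖Φ x‖ ≤ M) (u : ℝ) :
    ∫ v in (0 : ℝ)..u, Gv R c lam a b Ψ Φ v u
      = ∫ t in a..b, Ψ t * (∫ v in (0 : ℝ)..u, Φ (t + v)) * tp R c lam (t + u) := by
  unfold Gv
  rw [intervalIntegral_intervalIntegral_swap]
  · refine intervalIntegral.integral_congr fun t _ => ?_
    have e : ∀ v : ℝ, Ψ t * Φ (t + v) * tp R c lam (t + u)
        = (Ψ t * tp R c lam (t + u)) * Φ (t + v) := fun v => by ring
    simp_rw [e]
    rw [intervalIntegral.integral_const_mul]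
    ring
  · rw [uIoc_of_le hab, IntegrableOn, Measure.volume_eq_prod, ← Measure.prod_restrict]
    have h1 := hΨ.integrable one_le_two
    have h2 : Integrable (fun p : ℝ × ℝ => Ψ p.2)
        ((volume.restrict (Ι 0 u)).prod (volume.restrict (Ioc a b))) := by
      have : IsFiniteMeasure (volume.restrict (Ι (0 : ℝ) u)) :=
        ⟨by rw [Measure.restrict_apply_univ, Set.uIoc]; exact measure_Ioc_lt_top⟩
      exact h1.comp_snd _
    have c2 : Continuous fun p : ℝ × ℝ => Φ (p.2 + p.1) := hΦ.comp (by fun_prop)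
    have c3 : Continuous fun p : ℝ × ℝ => tp R c lam (p.2 + u) :=
      (continuous_tp R c lam).comp (by fun_prop)
    refine ((h2.norm.mul_const M).mul_const (∑ r ∈ R, ‖c r‖)).mono'
      ((h2.aestronglyMeasurable.mul c2.aestronglyMeasurable).mul c3.aestronglyMeasurable)
      (ae_of_all _ fun p => ?_)
    simp only [Function.uncurry]
    rw [norm_mul, norm_mul]
    exact mul_le_mul (mul_le_mul_of_nonneg_left (hM _) (norm_nonneg _)) (norm_tp_le R c lam _)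
      (norm_nonneg _) (mul_nonneg (norm_nonneg _) ((norm_nonneg _).trans (hM 0)))

/-- **P3.** The averaging inequality: `Ψ` arbitrary in `L²(a, b)`, `Y` a slowly varying weight,
`tp` a trigonometric polynomial with `dl`-separated frequencies and coefficients of size at most `m`. -/
theorem P3 (hab : a ≤ b) (hΨ : MemLp Ψ 2 (volume.restrict (Ioc a b))) {dl : ℝ} (hdl : 0 < dl)
    (hs : ∀ r ∈ R, ∀ s ∈ R, r ≠ s → dl ≤ |lam r - lam s|) {m : ℝ}
    (hc : ∀ r ∈ R, ‖c r‖ ≤ m) {H M : ℝ} (hH : 0 < H) {Y Y' : ℝ → ℂ}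
    (hY : ∀ x ∈ Icc (a - H) (b + H), HasDerivAt Y (Y' x) x)
    (hYc : ContinuousOn Y' (Icc (a - H) (b + H)))
    (hM : ∀ x ∈ Icc (a - H) (b + H), ‖Y x‖ ≤ M)
    (hM' : ∀ x ∈ Icc (a - H) (b + H), ‖Y' x‖ ≤ M / H) :
    ∫ u in (-H)..H, ‖∫ t in a..b, Ψ t * Y (t + u) * tp R c lam (t + u)‖ ^ 2
      ≤ 6 * 25 ^ 2 * (2 * H + 1 / dl) * ((b - a) + 1 / dl) * m ^ 2 * M ^ 2
        * ∫ t in a..b, ‖Ψ t‖ ^ 2 := by
  have hh : a - H ≤ b + H := by linarith
  have hM0 : 0 ≤ M := (norm_nonneg _).trans (hM (a - H) ⟨le_refl _, hh⟩)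
  have hMH : 0 ≤ M / H := by positivity
  set Y0 : ℝ → ℂ := fun x => Y (projIcc (a - H) (b + H) hh x) with hY0
  set Y1 : ℝ → ℂ := fun x => Y' (projIcc (a - H) (b + H) hh x) with hY1
  have hYcont : ContinuousOn Y (Icc (a - H) (b + H)) := fun x hx =>
    (hY x hx).continuousAt.continuousWithinAt
  have cproj : Continuous fun x : ℝ => ((projIcc (a - H) (b + H) hh x : Icc (a - H) (b + H)) : ℝ) :=
    continuous_subtype_val.comp continuous_projIcc
  have c0 : Continuous Y0 := hYcont.comp_continuous cproj fun x => (projIcc _ _ hh x).2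
  have c1 : Continuous Y1 := hYc.comp_continuous cproj fun x => (projIcc _ _ hh x).2
  have b0 : ∀ x, ‖Y0 x‖ ≤ M := fun x => hM _ (projIcc _ _ hh x).2
  have b1 : ∀ x, ‖Y1 x‖ ≤ M / H := fun x => hM' _ (projIcc _ _ hh x).2
  have e0 : ∀ x ∈ Icc (a - H) (b + H), Y0 x = Y x := fun x hx => by
    simp only [hY0, projIcc_of_mem hh hx]
  have e1 : ∀ x ∈ Icc (a - H) (b + H), Y1 x = Y' x := fun x hx => by
    simp only [hY1, projIcc_of_mem hh hx]
  set P : ℝ := ∫ t in a..b, ‖Ψ t‖ ^ 2 with hP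
  set K : ℝ := 25 ^ 2 * (2 * H + 1 / dl) * ((b - a) + 1 / dl) * m ^ 2 with hK
  -- the decomposition
  have hdec : ∀ u ∈ Icc (-H) H, ∫ t in a..b, Ψ t * Y (t + u) * tp R c lam (t + u)
      = Gv R c lam a b Ψ Y0 0 u + ∫ v in (0 : ℝ)..u, Gv R c lam a b Ψ Y1 v u := by
    intro u hu
    rw [swap_Gv R c lam hab hΨ c1 b1 u]
    unfold Gv
    have i1 := integrable_mul_tp R c lam hΨ c0 b0 0 u
    have hFTC : ∀ t ∈ Icc a b, ∫ v in (0 : ℝ)..u, Y1 (t + v) = Y (t + u) - Y0 (t + 0) := by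
      intro t ht
      have hmem : ∀ v ∈ uIcc 0 u, t + v ∈ Icc (a - H) (b + H) := by
        intro v hv
        have h1 : v ∈ Icc (-H) H := by
          have : uIcc (0 : ℝ) u ⊆ Icc (-H) H := by
            apply Set.uIcc_subset_Icc
            · exact ⟨by linarith, hH.le⟩
            · exact hu
          exact this hv
        exact ⟨by linarith [ht.1, h1.1], by linarith [ht.2, h1.2]⟩
      have h2 := intervalIntegral.integral_eq_sub_of_hasDerivAt (a := 0) (b := u)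
        (f := fun v => Y (t + v)) (f' := fun v => Y1 (t + v)) (fun v hv => by
          rw [e1 _ (hmem v hv)]
          exact (hY _ (hmem v hv)).comp_const_add t v)
        ((c1.comp (by fun_prop : Continuous fun v : ℝ => t + v)).intervalIntegrable _ _)
      rw [h2, add_zero, e0 t ⟨by linarith [ht.1], by linarith [ht.2]⟩]
    have i2 : Integrable (fun t => Ψ t * (∫ v in (0 : ℝ)..u, Y1 (t + v)) * tp R c lam (t + u))
        (volume.restrict (Ioc a b)) := by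
      have hcI : Continuous fun t : ℝ => ∫ v in (0 : ℝ)..u, Y1 (t + v) := by
        have : Continuous (Function.uncurry fun (t v : ℝ) => Y1 (t + v)) :=
          c1.comp (by fun_prop)
        exact intervalIntegral.continuous_parametric_intervalIntegral_of_continuous' this 0 u
      have hbI : ∀ t : ℝ, ‖∫ v in (0 : ℝ)..u, Y1 (t + v)‖ ≤ M / H * |u - 0| := fun t =>
        intervalIntegral.norm_integral_le_of_norm_le_const fun v _ => b1 _
      have := integrable_mul_tp R c lam hΨ hcI hbI 0 u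
      simpa using this
    rw [intervalIntegral.integral_of_le hab, intervalIntegral.integral_of_le hab,
      intervalIntegral.integral_of_le hab, ← integral_add i1 i2]
    refine setIntegral_congr_fun measurableSet_Ioc fun t ht => ?_
    rw [hFTC t ⟨ht.1.le, ht.2⟩]
    ring
  -- the two bounds
  have hA : ∫ u in (-H)..H, ‖Gv R c lam a b Ψ Y0 0 u‖ ^ 2 ≤ K * M ^ 2 * P := by
    have h := Gv_sq R c lam hab hΨ hdl hs hc c0 (H := H) hH.le (fun x _ => b0 x)
      (v := 0) (by simp [hH.le])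
    rw [hK, hP]
    exact h
  have hB : ∀ v ∈ Icc (-H) H, ∫ u in (-H)..H, ‖Gv R c lam a b Ψ Y1 v u‖ ^ 2 ≤ K * (M / H) ^ 2 * P :=
    fun v hv => Gv_sq R c lam hab hΨ hdl hs hc c1 (H := H) hH.le (fun x _ => b1 x)
      (abs_le.mpr hv)
  have cG0 : Continuous fun u : ℝ => Gv R c lam a b Ψ Y0 0 u := by
    have h := (continuous_Gv R c lam hab hΨ c0 b0).comp
      (by fun_prop : Continuous fun u : ℝ => ((0 : ℝ), u))
    exact h
  have cG1 : Continuous fun p : ℝ × ℝ => Gv R c lam a b Ψ Y1 p.1 p.2 :=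
    continuous_Gv R c lam hab hΨ c1 b1
  have cI : Continuous fun u : ℝ => ∫ v in (-H)..H, ‖Gv R c lam a b Ψ Y1 v u‖ ^ 2 := by
    have : Continuous (Function.uncurry fun (u v : ℝ) => ‖Gv R c lam a b Ψ Y1 v u‖ ^ 2) :=
      ((cG1.comp (by fun_prop : Continuous fun p : ℝ × ℝ => (p.2, p.1))).norm).pow 2
    exact intervalIntegral.continuous_parametric_intervalIntegral_of_continuous' this (-H) H
  have hle : -H ≤ H := by linarith
  have hmain : ∫ u in (-H)..H, ‖∫ t in a..b, Ψ t * Y (t + u) * tp R c lam (t + u)‖ ^ 2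
      ≤ ∫ u in (-H)..H, (2 * ‖Gv R c lam a b Ψ Y0 0 u‖ ^ 2
        + 2 * H * ∫ v in (-H)..H, ‖Gv R c lam a b Ψ Y1 v u‖ ^ 2) := by
    rw [intervalIntegral.integral_of_le hle, intervalIntegral.integral_of_le hle]
    refine integral_mono_of_nonneg (ae_of_all _ fun u => sq_nonneg _) ?_ ?_
    · have : Continuous fun u : ℝ => (2 * ‖Gv R c lam a b Ψ Y0 0 u‖ ^ 2
        + 2 * H * ∫ v in (-H)..H, ‖Gv R c lam a b Ψ Y1 v u‖ ^ 2) := by fun_prop
      exact (this.integrableOn_Icc).mono_set Ioc_subset_Icc_self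
    · rw [Filter.EventuallyLE, ae_restrict_iff' measurableSet_Ioc]
      refine ae_of_all _ fun u hu => ?_
      have hu' : u ∈ Icc (-H) H := ⟨hu.1.le, hu.2⟩
      rw [hdec u hu']
      have h1 : ‖∫ v in (0 : ℝ)..u, Gv R c lam a b Ψ Y1 v u‖ ^ 2
          ≤ H * ∫ v in (-H)..H, ‖Gv R c lam a b Ψ Y1 v u‖ ^ 2 :=
        norm_integral_sq_le (cG1.comp (by fun_prop : Continuous fun v : ℝ => (v, u)))
          (abs_le.mpr hu')
      set x := Gv R c lam a b Ψ Y0 0 u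
      set y := ∫ v in (0 : ℝ)..u, Gv R c lam a b Ψ Y1 v u
      have h2 : ‖x + y‖ ≤ ‖x‖ + ‖y‖ := norm_add_le _ _
      have h3 : ‖x + y‖ ^ 2 ≤ (‖x‖ + ‖y‖) ^ 2 := pow_le_pow_left₀ (norm_nonneg _) h2 2
      nlinarith [sq_nonneg (‖x‖ - ‖y‖)]
  refine hmain.trans ?_
  have ci1 : IntervalIntegrable (fun u : ℝ => 2 * ‖Gv R c lam a b Ψ Y0 0 u‖ ^ 2) volume (-H) H :=
    Continuous.intervalIntegrable (by fun_prop) _ _
  have ci2 : IntervalIntegrable (fun u : ℝ => 2 * H * ∫ v in (-H)..H, ‖Gv R c lam a b Ψ Y1 v u‖ ^ 2)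
      volume (-H) H := Continuous.intervalIntegrable (by fun_prop) _ _
  rw [intervalIntegral.integral_add ci1 ci2,
    intervalIntegral.integral_const_mul, intervalIntegral.integral_const_mul,
    intervalIntegral_intervalIntegral_swap]
  · have hB2 : ∫ v in (-H)..H, ∫ u in (-H)..H, ‖Gv R c lam a b Ψ Y1 v u‖ ^ 2
        ≤ ∫ v in (-H)..H, K * (M / H) ^ 2 * P := by
      refine intervalIntegral.integral_mono_on hle ?_ (by simp) hB
      have : Continuous fun v : ℝ => ∫ u in (-H)..H, ‖Gv R c lam a b Ψ Y1 v u‖ ^ 2 := by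
        have : Continuous (Function.uncurry fun (v u : ℝ) => ‖Gv R c lam a b Ψ Y1 v u‖ ^ 2) :=
          (cG1.norm).pow 2
        exact intervalIntegral.continuous_parametric_intervalIntegral_of_continuous' this (-H) H
      exact this.intervalIntegrable _ _
    rw [intervalIntegral.integral_const, smul_eq_mul] at hB2
    have h5 : 2 * H * ((H - -H) * (K * (M / H) ^ 2 * P)) = 4 * K * M ^ 2 * P := by
      field_simp
      ring
    have g2 : 2 * H * (∫ v in (-H)..H, ∫ u in (-H)..H, ‖Gv R c lam a b Ψ Y1 v u‖ ^ 2)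
        ≤ 4 * K * M ^ 2 * P := by
      rw [← h5]
      exact mul_le_mul_of_nonneg_left hB2 (by positivity)
    have g3 : 6 * 25 ^ 2 * (2 * H + 1 / dl) * ((b - a) + 1 / dl) * m ^ 2 * M ^ 2 * P
        = 6 * (K * M ^ 2 * P) := by rw [hK]; ring
    rw [g3]
    have g4 : 4 * K * M ^ 2 * P = 4 * (K * M ^ 2 * P) := by ring
    rw [g4] at g2
    linarith [hA]
  · have : Continuous (Function.uncurry fun (u v : ℝ) => ‖Gv R c lam a b Ψ Y1 v u‖ ^ 2) :=
      ((cG1.comp (by fun_prop : Continuous fun p : ℝ × ℝ => (p.2, p.1))).norm).pow 2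
    exact (this.continuousOn.integrableOn_compact
      (isCompact_uIcc.prod isCompact_uIcc)).mono_set (prod_mono uIoc_subset_uIcc uIoc_subset_uIcc)


end AVPX

open LSX AVPX in
/-- A5 -/
theorem avb_poly {ι : Type*} (S : Finset ι) (lam : ι → ℝ) {δ : ℝ} (hδ : 0 < δ)
    (hsep : ∀ r ∈ S, ∀ s ∈ S, r ≠ s → δ ≤ |lam r - lam s|) (c : ι → ℂ) {C₀ : ℝ}
    (hC0 : 0 ≤ C₀) (hC : ∀ r ∈ S, ‖c r‖ ≤ C₀) {H T₀ T : ℝ} (hH : 0 < H) (hT : T₀ ≤ T)
    {Y Y' : ℝ → ℂ} (hY : ∀ x, HasDerivAt Y (Y' x) x) (hYc : Continuous Y') {M : ℝ}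
    (hM : ∀ x ∈ Icc (T₀ - H) (T + H), ‖Y x‖ ≤ M)
    (hM' : ∀ x ∈ Icc (T₀ - H) (T + H), ‖Y' x‖ ≤ M / H) :
    AvB H T₀ T (fun x => Y x * ∑ r ∈ S, c r * cexp (-(I * lam r * x)))
      (M * C₀ * √(3750 * (1 + 1 / (2 * H * δ)) * ((T - T₀) + 1 / δ))) := by
  have hM0 : 0 ≤ M := (norm_nonneg _).trans (hM T₀ ⟨by linarith, by linarith⟩)
  have hδ' : 0 < 1 / δ := by positivity
  have hX : 0 ≤ 3750 * (1 + 1 / (2 * H * δ)) * ((T - T₀) + 1 / δ) := by
    have h1 : 0 ≤ (T - T₀) + 1 / δ := by linarith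
    positivity
  refine ⟨by positivity, fun Ψ hΨ hb => ?_⟩
  obtain ⟨K, hK⟩ := hb
  have hmem : MemLp Ψ 2 (volume.restrict (Ioc T₀ T)) :=
    MemLp.of_bound hΨ.aestronglyMeasurable K (ae_of_all _ hK)
  have h := P3 S c lam hT hmem hδ hsep hC hH (fun x _ => hY x) hYc.continuousOn hM hM'
  have e1 : ∀ u t : ℝ, Ψ t * ((fun x : ℝ => Y x * ∑ r ∈ S, c r * cexp (-(I * lam r * x))) (t + u))
      = Ψ t * Y (t + u) * tp S c lam (t + u) := by
    intro u t
    simp only [tp]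
    ring
  simp_rw [e1]
  refine h.trans (le_of_eq ?_)
  rw [mul_pow, mul_pow, Real.sq_sqrt hX]
  have hH' : (H : ℝ) ≠ 0 := hH.ne'
  have hδ'' : (δ : ℝ) ≠ 0 := hδ.ne'
  field_simp
  ring

end Pool.Agent.AAS
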