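import Pool.Agent.AAS.Defs

set_option autoImplicit false

namespace Pool.Agent.AAS

open Complex Finset MeasureTheory Filter Topology Set
open Pool.Agent.H26

/-- the translation with a fixed first pair -/
def fx {k : ℕ} (v : Fin k → ℝ) : Fin (k + 1) → ℝ := Fin.cons 0 v

/-- the same translation moved along the diagonal -/
def sh {k : ℕ} (s : ℝ) (v : Fin k → ℝ) : Fin (k + 1) → ℝ := Fin.cons s fun j => v j + s

theorem sh_eq {k : ℕ} (s : ℝ) (v : Fin k → ℝ) (j : Fin (k + 1)) : sh s v j = fx v j + s := by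
  refine Fin.cases ?_ (fun i => ?_) j
  · simp [sh, fx]
  · simp [sh, fx]

theorem sh_mem_box {k : ℕ} {s H : ℝ} {v : Fin k → ℝ} (hs : 0 ≤ s) (hs' : s ≤ H)
    (hv : v ∈ box k H) : sh s v ∈ box (k + 1) (2 * H) := by
  intro j _
  have hv' : ∀ i, -H ≤ v i ∧ v i ≤ H := fun i => hv i (Set.mem_univ i)
  revert j
  refine fun j _ => ?_
  refine Fin.cases ?_ (fun i => ?_) j
  · simp only [sh, Fin.cons_zero, Set.mem_Icc]
    constructor <;> linarith
  · simp only [sh, Fin.cons_succ, Set.mem_Icc]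
    have := hv' i
    constructor <;> linarith

/-- differences and the frequencies of the unmatched swaps are invariant -/
theorem sh_mem_U1 {k : ℕ} (s : ℝ) (v : Fin k → ℝ) (R : ℝ) :
    sh s v ∈ U1 (k + 1) R ↔ fx v ∈ U1 (k + 1) R := by
  have h : ∀ j l : Fin (k + 1), sh s v j - sh s v l = fx v j - fx v l := by
    intro j l; rw [sh_eq, sh_eq]; ring
  simp only [U1, Set.mem_setOf_eq, h]

theorem lamS_sh {k : ℕ} (s : ℝ) (v : Fin k → ℝ) {S : Finset (Ix (k + 1))}
    (hS : S.card = k + 1) : lamS S (sh s v) = lamS S (fx v) := by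
  classical
  have hcard : (univ.filter (fun j : Fin (k + 1) => (Sum.inr j : Ix (k + 1)) ∈ S)).card +
      (univ.filter (fun j : Fin (k + 1) => (Sum.inl j : Ix (k + 1)) ∈ S)).card = k + 1 := by
    refine Eq.trans ?_ hS
    have h1 : S = (univ.filter (fun j : Fin (k + 1) => (Sum.inr j : Ix (k + 1)) ∈ S)).map
          ⟨Sum.inr, Sum.inr_injective⟩ ∪
        (univ.filter (fun j : Fin (k + 1) => (Sum.inl j : Ix (k + 1)) ∈ S)).map
          ⟨Sum.inl, Sum.inl_injective⟩ := by
      ext x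
      rcases x with j | j <;> simp
    have h2 : Disjoint ((univ.filter (fun j : Fin (k + 1) => (Sum.inr j : Ix (k + 1)) ∈ S)).map
          ⟨Sum.inr, Sum.inr_injective⟩)
        ((univ.filter (fun j : Fin (k + 1) => (Sum.inl j : Ix (k + 1)) ∈ S)).map
          ⟨Sum.inl, Sum.inl_injective⟩) := by
      rw [Finset.disjoint_left]
      intro x hx hx'
      simp only [Finset.mem_map, Finset.mem_filter, Finset.mem_univ, true_and,
        Function.Embedding.coeFn_mk] at hx hx'
      obtain ⟨a, _, rfl⟩ := hx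
      obtain ⟨b, _, hb⟩ := hx'
      exact absurd hb (by simp)
    conv_rhs => rw [h1]
    rw [Finset.card_union_of_disjoint h2, Finset.card_map, Finset.card_map]
  have hneg : (univ.filter (fun j : Fin (k + 1) => (Sum.inl j : Ix (k + 1)) ∈ S)).card +
      (univ.filter (fun j : Fin (k + 1) => ¬ (Sum.inl j : Ix (k + 1)) ∈ S)).card = k + 1 := by
    rw [Finset.card_filter_add_card_filter_not]; simp
  have heq : (univ.filter (fun j : Fin (k + 1) => (Sum.inr j : Ix (k + 1)) ∈ S)).card =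
      (univ.filter (fun j : Fin (k + 1) => ¬ (Sum.inl j : Ix (k + 1)) ∈ S)).card := by omega
  unfold lamS
  have e1 : (∑ j, if (Sum.inr j : Ix (k + 1)) ∈ S then sh s v j else 0) =
      (∑ j, if (Sum.inr j : Ix (k + 1)) ∈ S then fx v j else 0) +
        ((univ.filter (fun j : Fin (k + 1) => (Sum.inr j : Ix (k + 1)) ∈ S)).card : ℝ) * s := by
    rw [← Finset.sum_filter, ← Finset.sum_filter, Finset.sum_congr rfl (fun j _ => sh_eq s v j),
      Finset.sum_add_distrib, Finset.sum_const, nsmul_eq_mul]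
  have e2 : (∑ j, if (Sum.inl j : Ix (k + 1)) ∈ S then 0 else sh s v j) =
      (∑ j, if (Sum.inl j : Ix (k + 1)) ∈ S then 0 else fx v j) +
        ((univ.filter (fun j : Fin (k + 1) => ¬ (Sum.inl j : Ix (k + 1)) ∈ S)).card : ℝ) * s := by
    have h3 : ∀ g : Fin (k + 1) → ℝ, (∑ j, if (Sum.inl j : Ix (k + 1)) ∈ S then 0 else g j) =
        ∑ j ∈ univ.filter (fun j : Fin (k + 1) => ¬ (Sum.inl j : Ix (k + 1)) ∈ S), g j := by
      intro g
      rw [Finset.sum_filter]
      refine Finset.sum_congr rfl fun j _ => ?_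
      by_cases h : (Sum.inl j : Ix (k + 1)) ∈ S <;> simp [h]
    rw [h3, h3, Finset.sum_congr rfl (fun j _ => sh_eq s v j),
      Finset.sum_add_distrib, Finset.sum_const, nsmul_eq_mul]
  rw [e1, e2, heq]; ring

theorem sh_mem_U2 {k : ℕ} (s : ℝ) (v : Fin k → ℝ) (R : ℝ) :
    sh s v ∈ U2 (k + 1) R ↔ fx v ∈ U2 (k + 1) R := by
  simp only [U2, Set.mem_setOf_eq]
  constructor
  · intro h S hS hκ
    rw [← lamS_sh s v (Finset.mem_powersetCard.1 hS).2]
    exact h S hS hκ
  · intro h S hS hκ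
    rw [lamS_sh s v (Finset.mem_powersetCard.1 hS).2]
    exact h S hS hκ

open scoped ENNReal in
/-- the shear `(s, v) ↦ (s, v + s)` preserves the measure (Tonelli, translation invariance in `v`
for fixed `s`, `MeasurableEquiv.piFinSuccAbove` / `volume_preserving_piFinSuccAbove`) -/
theorem lintegral_shear_le {k : ℕ} {H : ℝ} (hH : 0 ≤ H) {f : (Fin (k + 1) → ℝ) → ℝ≥0∞}
    (hf : Measurable f) :
    ∫⁻ v in box k H, ∫⁻ s in Icc 0 H, f (sh s v) ≤ ∫⁻ u in box (k + 1) (2 * H), f u := by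
  have hbox : ∀ (m : ℕ) (R : ℝ), MeasurableSet (box m R) := by
    intro m R
    exact MeasurableSet.univ_pi fun _ => measurableSet_Icc
  set F : (Fin (k + 1) → ℝ) → ℝ≥0∞ := (box (k + 1) (2 * H)).indicator f with hF
  have hFm : Measurable F := hf.indicator (hbox _ _)
  have hshm : Measurable (fun p : (Fin k → ℝ) × ℝ => sh p.2 p.1) := by
    rw [measurable_pi_iff]
    intro j
    refine Fin.cases ?_ (fun i => ?_) j
    · simp only [sh, Fin.cons_zero]; exact measurable_snd
    · simp only [sh, Fin.cons_succ]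
      exact ((measurable_pi_apply i).comp measurable_fst).add measurable_snd
  have hstep1 : ∫⁻ v in box k H, ∫⁻ s in Icc 0 H, f (sh s v) ≤ ∫⁻ v, ∫⁻ s, F (sh s v) := by
    calc ∫⁻ v in box k H, ∫⁻ s in Icc 0 H, f (sh s v)
        = ∫⁻ v in box k H, ∫⁻ s in Icc 0 H, F (sh s v) := by
          refine setLIntegral_congr_fun (hbox _ _) fun v hv => ?_
          refine setLIntegral_congr_fun measurableSet_Icc fun s hs => ?_
          simp only [hF]
          rw [Set.indicator_of_mem (sh_mem_box hs.1 hs.2 hv)]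
      _ ≤ ∫⁻ v in box k H, ∫⁻ s, F (sh s v) := by
          refine lintegral_mono fun v => ?_
          exact setLIntegral_le_lintegral _ _
      _ ≤ ∫⁻ v, ∫⁻ s, F (sh s v) := setLIntegral_le_lintegral _ _
  have hstep2 : ∫⁻ v : Fin k → ℝ, ∫⁻ s : ℝ, F (sh s v) = ∫⁻ s : ℝ, ∫⁻ v : Fin k → ℝ, F (sh s v) := by
    exact lintegral_lintegral_swap (hFm.comp hshm).aemeasurable
  have hstep3 : ∀ s : ℝ, ∫⁻ v : Fin k → ℝ, F (sh s v) =
      ∫⁻ v : Fin k → ℝ, F (Fin.cons s v : Fin (k + 1) → ℝ) := by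
    intro s
    have := lintegral_add_right_eq_self (μ := (volume : Measure (Fin k → ℝ)))
      (fun v : Fin k → ℝ => F (Fin.cons s v : Fin (k + 1) → ℝ)) (fun _ => s)
    rw [← this]
    rfl
  have mp := volume_preserving_piFinSuccAbove (fun _ : Fin (k + 1) => ℝ) 0
  have hstep4 : ∫⁻ u, F u = ∫⁻ s : ℝ, ∫⁻ v : Fin k → ℝ, F (Fin.cons s v : Fin (k + 1) → ℝ) := by
    have mps := mp.symm
    have hm2 : AEMeasurable (fun a : ℝ × (Fin k → ℝ) =>
        F ((MeasurableEquiv.piFinSuccAbove (fun _ : Fin (k + 1) => ℝ) 0).symm a))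
        ((volume : Measure ℝ).prod (volume : Measure (Fin k → ℝ))) :=
      (hFm.comp mps.measurable).aemeasurable
    rw [← mps.lintegral_comp hFm, Measure.volume_eq_prod, lintegral_prod _ hm2]
    refine lintegral_congr fun s => lintegral_congr fun v => ?_
    congr 1
    funext j
    refine Fin.cases ?_ (fun i => ?_) j
    · simp [MeasurableEquiv.piFinSuccAbove, Fin.insertNthEquiv]
    · simp [MeasurableEquiv.piFinSuccAbove, Fin.insertNthEquiv]
  refine hstep1.trans ?_
  rw [hstep2, lintegral_congr hstep3, ← hstep4, hF, lintegral_indicator (hbox _ _)]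

end Pool.Agent.AAS
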