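import Pool.Agent.AAS.Defs

set_option autoImplicit false

namespace Pool.Agent.AAS

open Complex Finset MeasureTheory Filter Topology Set
open Pool.Agent.H26

/-- the divided difference of a function bounded by `M` on the ball of radius `1/4`, taken at a
point `c` of the ball of radius `1/8`, is bounded by `16 M` -/
theorem itp_dslope_le (f : ℂ → ℂ) (M : ℝ) (c : ℝ) (hc0 : 0 ≤ c) (hc : c ≤ 1 / 8)
    (hd : DifferentiableOn ℂ f (Metric.ball 0 (1 / 4)))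
    (hM : ∀ z ∈ Metric.ball (0 : ℂ) (1 / 4), ‖f z‖ ≤ M) :
    ∀ z ∈ Metric.ball (0 : ℂ) (1 / 4), ‖dslope f (c : ℂ) z‖ ≤ 16 * M := by
  have hcn : ‖(c : ℂ)‖ = c := by
    rw [Complex.norm_real, Real.norm_eq_abs, abs_of_nonneg hc0]
  have hcm : (c : ℂ) ∈ Metric.ball (0 : ℂ) (1 / 4) := by
    rw [mem_ball_zero_iff, hcn]; linarith
  have hsub : Metric.ball (c : ℂ) (1 / 8) ⊆ Metric.ball (0 : ℂ) (1 / 4) := by
    intro z hz
    rw [mem_ball_zero_iff]
    rw [Metric.mem_ball, dist_eq_norm] at hz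
    calc ‖z‖ = ‖(z - c) + c‖ := by ring_nf
      _ ≤ ‖z - c‖ + ‖(c : ℂ)‖ := norm_add_le _ _
      _ < 1 / 8 + 1 / 8 := by rw [hcn]; linarith
      _ = 1 / 4 := by norm_num
  have hM0 : 0 ≤ M := (norm_nonneg _).trans (hM _ hcm)
  have h2M : ∀ z ∈ Metric.ball (0 : ℂ) (1 / 4), ‖f z - f c‖ ≤ 2 * M := by
    intro z hz
    calc ‖f z - f c‖ ≤ ‖f z‖ + ‖f c‖ := norm_sub_le _ _
      _ ≤ M + M := add_le_add (hM z hz) (hM _ hcm)
      _ = 2 * M := by ring
  intro z hz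
  by_cases hzc : z ∈ Metric.ball (c : ℂ) (1 / 8)
  · have h := Complex.norm_dslope_le_div_of_mapsTo_ball (f := f) (c := (c : ℂ)) (R₁ := 1 / 8)
      (R₂ := 2 * M) (hd.mono hsub) (fun w hw => by
        rw [Metric.mem_closedBall, dist_eq_norm]; exact h2M w (hsub hw)) hzc
    calc ‖dslope f (c : ℂ) z‖ ≤ 2 * M / (1 / 8) := h
      _ = 16 * M := by ring
  · have hzc' : 1 / 8 ≤ ‖z - c‖ := by
      rw [Metric.mem_ball, dist_eq_norm, not_lt] at hzc; exact hzc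
    have hne : z ≠ (c : ℂ) := by
      rintro rfl
      simp at hzc'
      norm_num at hzc'
    rw [dslope_of_ne _ hne, slope_def_module, norm_smul, norm_inv]
    have hpos : 0 < ‖z - c‖ := by linarith
    rw [inv_mul_le_iff₀ hpos]
    calc ‖f z - f c‖ ≤ 2 * M := h2M z hz
      _ = (1 / 8) * (16 * M) := by ring
      _ ≤ ‖z - c‖ * (16 * M) := mul_le_mul_of_nonneg_right hzc' (by linarith)

/-- extrapolation to `0` from `n` points with gaps at least `h` in `[0, D h]` -/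
theorem itp_aux (D : ℝ) (hD : 0 ≤ D) : ∀ n : ℕ, ∃ C : ℝ, 1 ≤ C ∧
    ∀ (f : ℂ → ℂ) (M h : ℝ) (x : ℕ → ℝ), 0 < h →
    (∀ i, i < n → 0 ≤ x i ∧ x i ≤ 1 / 8 ∧ x i ≤ D * h) →
    (∀ i j, i < j → j < n → h ≤ x j - x i) →
    DifferentiableOn ℂ f (Metric.ball 0 (1 / 4)) → (∀ z ∈ Metric.ball (0 : ℂ) (1 / 4), ‖f z‖ ≤ M) →
    ‖f 0‖ ≤ C * ∑ i ∈ Finset.range n, ‖f ((x i : ℝ) : ℂ)‖ + C * h ^ n * M := by
  intro n
  induction n with
  | zero =>
    refine ⟨1, le_rfl, ?_⟩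
    intro f M h x _ _ _ _ hM
    have := hM 0 (by simp)
    simpa using this
  | succ n ih =>
    obtain ⟨C, hC1, hC⟩ := ih
    have hC0 : 0 ≤ C := by linarith
    have hDC : 0 ≤ D * C := mul_nonneg hD hC0
    refine ⟨1 + n * (D * C) + 16 * (D * C) + D * C, ?_, ?_⟩
    · have : 0 ≤ (n : ℝ) * (D * C) := by positivity
      linarith
    intro f M h x hh hx hgap hd hM
    have hx0 := hx 0 (Nat.succ_pos n)
    have hx0m : ((x 0 : ℝ) : ℂ) ∈ Metric.ball (0 : ℂ) (1 / 4) := by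
      rw [mem_ball_zero_iff, Complex.norm_real, Real.norm_eq_abs, abs_of_nonneg hx0.1]
      linarith [hx0.2.1]
    have h0m : (0 : ℂ) ∈ Metric.ball (0 : ℂ) (1 / 4) := by simp
    have hM0 : 0 ≤ M := (norm_nonneg _).trans (hM _ h0m)
    set g : ℂ → ℂ := dslope f ((x 0 : ℝ) : ℂ) with hg
    have hgd : DifferentiableOn ℂ g (Metric.ball 0 (1 / 4)) :=
      (Complex.differentiableOn_dslope (Metric.isOpen_ball.mem_nhds hx0m)).mpr hd
    have hgM : ∀ z ∈ Metric.ball (0 : ℂ) (1 / 4), ‖g z‖ ≤ 16 * M :=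
      itp_dslope_le f M (x 0) hx0.1 hx0.2.1 hd hM
    have hI := hC g (16 * M) h (fun i => x (i + 1)) hh
      (fun i hi => hx (i + 1) (Nat.succ_lt_succ hi))
      (fun i j hij hj => hgap (i + 1) (j + 1) (Nat.succ_lt_succ hij) (Nat.succ_lt_succ hj)) hgd hgM
    -- values of `g` at the other points
    have hgv : ∀ i ∈ Finset.range n, h * ‖g ((x (i + 1) : ℝ) : ℂ)‖ ≤
        ‖f ((x (i + 1) : ℝ) : ℂ)‖ + ‖f ((x 0 : ℝ) : ℂ)‖ := by
      intro i hi
      rw [Finset.mem_range] at hi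
      have hgap' := hgap 0 (i + 1) (Nat.succ_pos i) (Nat.succ_lt_succ hi)
      have hne : ((x (i + 1) : ℝ) : ℂ) ≠ ((x 0 : ℝ) : ℂ) := by
        intro hE
        have := Complex.ofReal_injective hE
        rw [this] at hgap'
        linarith
      have hnrm : ‖((x (i + 1) : ℝ) : ℂ) - ((x 0 : ℝ) : ℂ)‖ = x (i + 1) - x 0 := by
        rw [← Complex.ofReal_sub, Complex.norm_real, Real.norm_eq_abs, abs_of_nonneg (by linarith)]
      rw [hg, dslope_of_ne _ hne, slope_def_module, norm_smul, norm_inv, hnrm]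
      have hpos : 0 < x (i + 1) - x 0 := by linarith
      have h1 : h * ((x (i + 1) - x 0)⁻¹ * ‖f ((x (i + 1) : ℝ) : ℂ) - f ((x 0 : ℝ) : ℂ)‖) ≤
          ‖f ((x (i + 1) : ℝ) : ℂ) - f ((x 0 : ℝ) : ℂ)‖ := by
        rw [← mul_assoc]
        have h2 : h * (x (i + 1) - x 0)⁻¹ ≤ 1 := by
          rw [← div_eq_mul_inv, div_le_one hpos]; exact hgap'
        calc h * (x (i + 1) - x 0)⁻¹ * ‖f ((x (i + 1) : ℝ) : ℂ) - f ((x 0 : ℝ) : ℂ)‖
            ≤ 1 * ‖f ((x (i + 1) : ℝ) : ℂ) - f ((x 0 : ℝ) : ℂ)‖ :=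
              mul_le_mul_of_nonneg_right h2 (norm_nonneg _)
          _ = _ := one_mul _
      exact h1.trans (norm_sub_le _ _)
    have hS : h * ∑ i ∈ Finset.range n, ‖g ((x (i + 1) : ℝ) : ℂ)‖ ≤
        ∑ i ∈ Finset.range n, ‖f ((x (i + 1) : ℝ) : ℂ)‖ + n * ‖f ((x 0 : ℝ) : ℂ)‖ := by
      rw [Finset.mul_sum]
      refine (Finset.sum_le_sum hgv).trans ?_
      rw [Finset.sum_add_distrib, Finset.sum_const, Finset.card_range, nsmul_eq_mul]
    -- the value at 0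
    have hf0 : f 0 = f ((x 0 : ℝ) : ℂ) + (0 - ((x 0 : ℝ) : ℂ)) * g 0 := by
      have h3 := sub_smul_dslope f ((x 0 : ℝ) : ℂ) 0
      rw [smul_eq_mul] at h3
      rw [hg, h3]; ring
    have hxn : ‖(0 - ((x 0 : ℝ) : ℂ))‖ = x 0 := by
      rw [zero_sub, norm_neg, Complex.norm_real, Real.norm_eq_abs, abs_of_nonneg hx0.1]
    have h4 : ‖f 0‖ ≤ ‖f ((x 0 : ℝ) : ℂ)‖ + D * h * ‖g 0‖ := by
      rw [hf0]
      refine (norm_add_le _ _).trans ?_
      rw [norm_mul, hxn]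
      gcongr
      exact hx0.2.2
    set S : ℝ := ∑ i ∈ Finset.range n, ‖f ((x (i + 1) : ℝ) : ℂ)‖ with hSdef
    set F : ℝ := ‖f ((x 0 : ℝ) : ℂ)‖ with hFdef
    set G : ℝ := ∑ i ∈ Finset.range n, ‖g ((x (i + 1) : ℝ) : ℂ)‖ with hGdef
    have hS0 : 0 ≤ S := Finset.sum_nonneg (fun _ _ => norm_nonneg _)
    have hF0 : 0 ≤ F := norm_nonneg _
    have h5 : D * h * ‖g 0‖ ≤ D * C * (S + n * F) + 16 * (D * C) * (h ^ (n + 1) * M) := by
      calc D * h * ‖g 0‖ ≤ D * h * (C * G + C * h ^ n * (16 * M)) :=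
            mul_le_mul_of_nonneg_left hI (mul_nonneg hD hh.le)
        _ = D * C * (h * G) + 16 * (D * C) * (h ^ (n + 1) * M) := by ring
        _ ≤ D * C * (S + n * F) + 16 * (D * C) * (h ^ (n + 1) * M) := by
            have := mul_le_mul_of_nonneg_left hS hDC
            linarith
    rw [Finset.sum_range_succ']
    have hhM : 0 ≤ h ^ (n + 1) * M := mul_nonneg (pow_nonneg hh.le _) hM0
    have h6 : 0 ≤ (n : ℝ) * (D * C) := by positivity
    calc ‖f 0‖ ≤ F + (D * C * (S + n * F) + 16 * (D * C) * (h ^ (n + 1) * M)) := by linarith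
      _ ≤ (1 + n * (D * C) + 16 * (D * C) + D * C) * (S + F) +
          (1 + n * (D * C) + 16 * (D * C) + D * C) * (h ^ (n + 1) * M) := by
          have e1 : 0 ≤ (1 + n * (D * C) + 16 * (D * C)) * S :=
            mul_nonneg (by linarith) hS0
          have e2 : 0 ≤ (16 * (D * C) + D * C) * F := mul_nonneg (by linarith) hF0
          have e3 : 0 ≤ (1 + n * (D * C) + D * C) * (h ^ (n + 1) * M) :=
            mul_nonneg (by linarith) hhM
          nlinarith [e1, e2, e3]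
      _ = _ := by ring

/-- extrapolation by finite differences: `∑ l, (-1)^(n-l) (n choose l) f (l h)`, `h = r / (8 (n+1))`,
is at most `h^n n! 8^n M` in absolute value -/
theorem exists_interp0 (n : ℕ) : ∃ C : ℝ, 1 ≤ C ∧ ∀ (f : ℂ → ℂ) (M r : ℝ), 0 < r → r ≤ 1 →
    DifferentiableOn ℂ f (Metric.ball 0 (1 / 4)) → (∀ z ∈ Metric.ball (0 : ℂ) (1 / 4), ‖f z‖ ≤ M) →
    ‖f 0‖ ≤ C * ∑ i ∈ Finset.range n, ‖f ((((i : ℝ) + 1) * r / (8 * ((n : ℝ) + 1)) : ℝ) : ℂ)‖ +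
      C * r ^ n * M := by
  obtain ⟨C, hC1, hC⟩ := itp_aux ((n : ℝ) + 1) (by positivity) n
  refine ⟨C, hC1, ?_⟩
  intro f M r hr hr1 hd hM
  have hn : (0 : ℝ) < (n : ℝ) + 1 := by positivity
  have hM0 : 0 ≤ M := (norm_nonneg _).trans (hM 0 (by simp))
  have hh : 0 < r / (8 * ((n : ℝ) + 1)) := by positivity
  have key : ∀ t : ℝ, t * r / (8 * ((n : ℝ) + 1)) = t * (r / (8 * ((n : ℝ) + 1))) := fun t => by ring
  have h1 := hC f M (r / (8 * ((n : ℝ) + 1))) (fun i => ((i : ℝ) + 1) * r / (8 * ((n : ℝ) + 1))) hh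
    (fun i hi => by
      have hi' : (i : ℝ) + 1 ≤ (n : ℝ) + 1 := by
        have : (i : ℝ) ≤ (n : ℝ) := by exact_mod_cast hi.le
        linarith
      refine ⟨by positivity, ?_, ?_⟩
      · rw [div_le_iff₀ (by positivity)]
        nlinarith
      · show ((i : ℝ) + 1) * r / (8 * ((n : ℝ) + 1)) ≤ ((n : ℝ) + 1) * (r / (8 * ((n : ℝ) + 1)))
        rw [key]
        exact mul_le_mul_of_nonneg_right hi' hh.le)
    (fun i j hij hj => by
      show r / (8 * ((n : ℝ) + 1)) ≤ ((j : ℝ) + 1) * r / (8 * ((n : ℝ) + 1)) -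
        ((i : ℝ) + 1) * r / (8 * ((n : ℝ) + 1))
      rw [key, key, ← sub_mul]
      have hij' : (i : ℝ) + 1 ≤ (j : ℝ) := by exact_mod_cast hij
      have : (1 : ℝ) ≤ (j : ℝ) + 1 - ((i : ℝ) + 1) := by linarith
      nlinarith [mul_le_mul_of_nonneg_right this hh.le])
    hd hM
  refine h1.trans ?_
  have h2 : r / (8 * ((n : ℝ) + 1)) ≤ r := by
    rw [div_le_iff₀ (by positivity)]
    nlinarith [Nat.cast_nonneg (α := ℝ) n]
  have h3 : (r / (8 * ((n : ℝ) + 1))) ^ n ≤ r ^ n := pow_le_pow_left₀ hh.le h2 n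
  have h4 : C * (r / (8 * ((n : ℝ) + 1))) ^ n * M ≤ C * r ^ n * M :=
    mul_le_mul_of_nonneg_right (mul_le_mul_of_nonneg_left h3 (by linarith)) hM0
  linarith

end Pool.Agent.AAS
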