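import Pool.Agent.AAS.L2F
import Pool.Agent.AAS.ITP

set_option autoImplicit false

namespace Pool.Agent.AAS

open Complex Finset MeasureTheory Filter Topology Set
open Pool.Agent.H26

private lemma m4_cont {f : ℝ → ℂ} (hf : Continuous f) (h : ∀ x, (f x).re ≠ 1) :
    Continuous fun x => riemannZeta (f x) := by
  rw [continuous_iff_continuousAt]
  intro x
  refine (differentiableAt_riemannZeta ?_).continuousAt.comp hf.continuousAt
  intro h1
  exact h x (by rw [h1]; simp)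

private lemma m4_contz : Continuous fun x : ℝ => riemannZeta (1 / 2 + I * x) :=
  m4_cont (by fun_prop) (fun x => by simp)

private lemma m4_contpf (b : ℝ) : Continuous fun x : ℝ => pf 0 b x := by
  unfold pf
  refine (m4_cont (by fun_prop) fun x => ?_).mul (m4_cont (by fun_prop) fun x => ?_)
  · simp
  · simp

private lemma m4_conj (x : ℝ) : ‖riemannZeta (1 / 2 - I * x)‖ = ‖riemannZeta (1 / 2 + I * x)‖ := by
  have h : (1 / 2 - I * x : ℂ) = (starRingEnd ℂ) (1 / 2 + I * x) := by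
    apply Complex.ext <;> simp
  rw [h, riemannZeta_conj, RCLike.norm_conj]

private lemma m4_le {x : ℝ} (hx : 1 ≤ x) {z : ℂ} (hz : ‖z‖ < 1 / 4) :
    ‖riemannZeta (1 / 2 - I * (x + z))‖ ≤ 13 * x := by
  have him : |z.im| < 1 / 4 := (Complex.abs_im_le_norm z).trans_lt hz
  have him' := abs_lt.1 him
  have hre : (1 / 2 - I * (x + z) : ℂ).re = 1 / 2 + z.im := by simp
  have hne : (1 / 2 - I * (x + z) : ℂ) ≠ 1 := by
    intro h
    have := congrArg Complex.re h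
    rw [hre] at this
    simp at this
    linarith
  refine (norm_riemannZeta_le (by rw [hre]; linarith) hne).trans ?_
  have h1 : 1 / 4 ≤ ‖(1 / 2 - I * (x + z) - 1 : ℂ)‖ := by
    refine le_trans ?_ (Complex.abs_re_le_norm _)
    have : (1 / 2 - I * (x + z) - 1 : ℂ).re = -1 / 2 + z.im := by
      rw [sub_re, hre]; simp; ring
    rw [this, abs_of_nonpos (by linarith)]
    linarith
  have h2 : ‖(1 / 2 - I * (x + z) - 1 : ℂ)‖⁻¹ ≤ 4 := by
    have := inv_anti₀ (by norm_num : (0:ℝ) < 1 / 4) h1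
    norm_num at this
    linarith
  have h3 : ‖(1 / 2 - I * (x + z) : ℂ)‖ ≤ x + 3 / 4 := by
    refine (norm_sub_le _ _).trans ?_
    rw [norm_mul, norm_I, one_mul]
    have : ‖(x + z : ℂ)‖ ≤ x + ‖z‖ := by
      refine (norm_add_le _ _).trans ?_
      rw [norm_real, Real.norm_eq_abs, abs_of_pos (by linarith)]
    have h12 : ‖(1 / 2 : ℂ)‖ = 1 / 2 := by norm_num
    rw [h12]
    linarith
  have h4 : ‖(1 / 2 - I * (x + z) : ℂ)‖ / (1 / 2 - I * (x + z) : ℂ).re ≤ 4 * (x + 3 / 4) := by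
    rw [hre, div_le_iff₀ (by linarith)]
    nlinarith
  linarith

private lemma m4_diff {x : ℝ} : DifferentiableOn ℂ (fun z : ℂ => riemannZeta (1 / 2 - I * (x + z)))
    (Metric.ball 0 (1 / 4)) := by
  intro z hz
  have hz' : ‖z‖ < 1 / 4 := by simpa using hz
  have him : |z.im| < 1 / 4 := (Complex.abs_im_le_norm z).trans_lt hz'
  have him' := abs_lt.1 him
  have hre : (1 / 2 - I * (x + z) : ℂ).re = 1 / 2 + z.im := by simp
  have hne : (1 / 2 - I * (x + z) : ℂ) ≠ 1 := by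
    intro h
    have := congrArg Complex.re h
    rw [hre] at this
    simp at this
    linarith
  refine DifferentiableAt.differentiableWithinAt ?_
  exact (differentiableAt_riemannZeta hne).comp z (by fun_prop)

private lemma m4_point (n : ℕ) (e : ℝ) (hne : 2 ≤ n * e) : ∃ C : ℝ, 1 ≤ C ∧
    ∀ T : ℝ, 1 ≤ T → ∀ x : ℝ, T ≤ x → x ≤ 3 * T →
      ‖riemannZeta (1 / 2 + I * x)‖ ^ 4 ≤ C * (1 + ∑ i ∈ Finset.range n,
        ‖pf 0 (((i : ℝ) + 1) * T ^ (-e) / (8 * ((n : ℝ) + 1))) x‖ ^ 2) := by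
  obtain ⟨C0, hC0, H⟩ := exists_interp0 n
  have hn0 : (0:ℝ) ≤ n := Nat.cast_nonneg n
  have he : 0 < e := by
    by_contra h
    push Not at h
    nlinarith [mul_nonneg hn0 (neg_nonneg.2 h)]
  have hC02 : 1 ≤ C0 ^ 2 := one_le_pow₀ hC0
  refine ⟨2 * C0 ^ 2 * (n + 1521 ^ 2), by nlinarith, ?_⟩
  intro T hT x hx hx3
  have hT0 : 0 < T := by linarith
  have hx1 : 1 ≤ x := hT.trans hx
  have hr0 : 0 < T ^ (-e) := Real.rpow_pos_of_pos hT0 _
  have hr1 : T ^ (-e) ≤ 1 := Real.rpow_le_one_of_one_le_of_nonpos hT (by linarith)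
  have h1 := H (fun z : ℂ => riemannZeta (1 / 2 - I * (x + z))) (13 * x) (T ^ (-e)) hr0 hr1
    m4_diff (fun z hz => m4_le hx1 (by simpa using hz))
  have hz0 : ‖riemannZeta (1 / 2 + I * x)‖ ≤ 13 * x := by
    have := m4_le hx1 (z := 0) (by norm_num)
    rw [add_zero, m4_conj] at this
    exact this
  set Z := ‖riemannZeta (1 / 2 + I * x)‖ with hZ
  have hZ0 : 0 ≤ Z := norm_nonneg _
  set S := ∑ i ∈ Finset.range n, ‖pf 0 (((i : ℝ) + 1) * T ^ (-e) / (8 * ((n : ℝ) + 1))) x‖ with hS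
  have hS0 : 0 ≤ S := Finset.sum_nonneg fun i _ => norm_nonneg _
  have hrn : (T ^ (-e)) ^ n ≤ T ^ (-2 : ℝ) := by
    rw [← Real.rpow_natCast, ← Real.rpow_mul hT0.le]
    exact Real.rpow_le_rpow_of_exponent_le hT (by nlinarith)
  have hT2 : T ^ (-2 : ℝ) * T ^ 2 = 1 := by
    rw [← Real.rpow_natCast T 2, ← Real.rpow_add hT0]
    norm_num
  have h2 : Z ^ 2 ≤ C0 * (S + 1521) := by
    have e1 : Z ^ 2 = Z * ‖riemannZeta (1 / 2 - I * (x + 0))‖ := by
      rw [add_zero, m4_conj, sq]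
    rw [e1]
    refine (mul_le_mul_of_nonneg_left h1 hZ0).trans ?_
    rw [mul_add, mul_add C0]
    refine add_le_add (le_of_eq ?_) ?_
    · rw [mul_left_comm, hS, Finset.mul_sum]
      congr 1
      refine Finset.sum_congr rfl fun i _ => ?_
      unfold pf
      rw [norm_mul]
      congr 1
      rw [ofReal_zero, add_zero]
    · have a1 : Z * (C0 * (T ^ (-e)) ^ n * (13 * x)) =
          C0 * ((T ^ (-e)) ^ n * (Z * (13 * x))) := by ring
      rw [a1]
      refine mul_le_mul_of_nonneg_left ?_ (by linarith)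
      have a2 : Z * (13 * x) ≤ 1521 * T ^ 2 := by
        calc Z * (13 * x) ≤ (13 * x) * (13 * x) := by gcongr
          _ ≤ (13 * (3 * T)) * (13 * (3 * T)) := by gcongr
          _ = 1521 * T ^ 2 := by ring
      calc (T ^ (-e)) ^ n * (Z * (13 * x)) ≤ T ^ (-2 : ℝ) * (1521 * T ^ 2) := by gcongr
        _ = 1521 * (T ^ (-2 : ℝ) * T ^ 2) := by ring
        _ = 1521 := by rw [hT2, mul_one]
  have h3 : S ^ 2 ≤ n * ∑ i ∈ Finset.range n,
      ‖pf 0 (((i : ℝ) + 1) * T ^ (-e) / (8 * ((n : ℝ) + 1))) x‖ ^ 2 := by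
    have := sq_sum_le_card_mul_sum_sq (s := Finset.range n)
      (f := fun i => ‖pf 0 (((i : ℝ) + 1) * T ^ (-e) / (8 * ((n : ℝ) + 1))) x‖)
    rwa [Finset.card_range] at this
  set Q := ∑ i ∈ Finset.range n,
      ‖pf 0 (((i : ℝ) + 1) * T ^ (-e) / (8 * ((n : ℝ) + 1))) x‖ ^ 2 with hQ
  have hQ0 : 0 ≤ Q := Finset.sum_nonneg fun i _ => sq_nonneg _
  calc Z ^ 4 = (Z ^ 2) ^ 2 := by ring
    _ ≤ (C0 * (S + 1521)) ^ 2 := by gcongr
    _ = C0 ^ 2 * (S + 1521) ^ 2 := by ring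
    _ ≤ C0 ^ 2 * (2 * (n * Q + 1521 ^ 2)) := by
        gcongr
        nlinarith [sq_nonneg (S - 1521)]
    _ ≤ C0 ^ 2 * (2 * ((n + 1521 ^ 2) * (1 + Q))) := by
        gcongr
        nlinarith [mul_nonneg hn0 hQ0]
    _ = _ := by ring

private lemma m4_dyadic (ε : ℝ) (hε : 0 < ε) : ∃ C : ℝ, 1 ≤ C ∧ ∀ T : ℝ, 1 ≤ T →
    ∫ x in T..(3 * T), ‖riemannZeta (1 / 2 + I * x)‖ ^ 4 ≤ C * T ^ (1 + ε) := by
  set e : ℝ := ε / 8 with he
  have he0 : 0 < e := by positivity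
  set ε' : ℝ := min (ε / 12) (1 / 100) with hε'
  have hε'0 : 0 < ε' := lt_min (by positivity) (by norm_num)
  have hε'1 : ε' ≤ 1 / 100 := min_le_right _ _
  have hε'2 : ε' ≤ ε / 12 := min_le_left _ _
  set n : ℕ := ⌈2 / e⌉₊ with hn
  have hne : 2 ≤ n * e := by
    have := Nat.le_ceil (2 / e)
    rwa [div_le_iff₀ he0] at this
  obtain ⟨C1, hC1, H1⟩ := m4_point n e hne
  obtain ⟨C2, hC2, H2⟩ := exists_l2_pf 1 ε' zero_le_one hε'0 hε'1
  have hn0 : (0:ℝ) ≤ n := Nat.cast_nonneg n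
  refine ⟨C1 * (2 + n * (C2 * (4225 * ((n:ℝ) + 1) ^ 4))), ?_, ?_⟩
  · have : 0 ≤ n * (C2 * (4225 * ((n:ℝ) + 1) ^ 4)) := by positivity
    nlinarith
  intro T hT
  have hT0 : 0 < T := by linarith
  have hle : T ≤ 3 * T := by linarith
  set b : ℕ → ℝ := fun i => ((i : ℝ) + 1) * T ^ (-e) / (8 * ((n : ℝ) + 1)) with hb
  have hi : ∀ i, IntervalIntegrable (fun x => ‖pf 0 (b i) x‖ ^ 2) volume T (3 * T) := fun i =>
    ((m4_contpf (b i)).norm.pow 2).intervalIntegrable _ _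
  have h1 : ∫ x in T..(3 * T), ‖riemannZeta (1 / 2 + I * x)‖ ^ 4 ≤
      ∫ x in T..(3 * T), C1 * (1 + ∑ i ∈ Finset.range n, ‖pf 0 (b i) x‖ ^ 2) := by
    refine intervalIntegral.integral_mono_on hle
      ((m4_contz.norm.pow 4).intervalIntegrable _ _) ?_ ?_
    · refine Continuous.intervalIntegrable ?_ _ _
      refine continuous_const.mul (continuous_const.add ?_)
      exact continuous_finsetSum _ fun i _ => (m4_contpf (b i)).norm.pow 2
    · intro x hx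
      exact H1 T hT x hx.1 hx.2
  refine h1.trans ?_
  rw [intervalIntegral.integral_const_mul, mul_assoc]
  refine mul_le_mul_of_nonneg_left ?_ (by linarith)
  have hs : IntervalIntegrable (fun x => ∑ i ∈ Finset.range n, ‖pf 0 (b i) x‖ ^ 2) volume
      T (3 * T) := Continuous.intervalIntegrable (continuous_finsetSum _ fun i _ =>
      (m4_contpf (b i)).norm.pow 2) _ _
  have hc1 : IntervalIntegrable (fun _ : ℝ => (1:ℝ)) volume T (3 * T) :=
    continuous_const.intervalIntegrable _ _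
  rw [intervalIntegral.integral_add hc1 hs,
    intervalIntegral.integral_finsetSum fun i _ => hi i]
  have hT1 : T ≤ T ^ (1 + ε) := by
    nth_rw 1 [← Real.rpow_one T]
    exact Real.rpow_le_rpow_of_exponent_le hT (by linarith)
  have h2 : ∀ i ∈ Finset.range n, ∫ x in T..(3 * T), ‖pf 0 (b i) x‖ ^ 2 ≤
      C2 * (4225 * ((n:ℝ) + 1) ^ 4) * T ^ (1 + ε) := by
    intro i hin
    have hin' : (i:ℝ) + 1 ≤ n := by exact_mod_cast (Finset.mem_range.1 hin)
    have hi0 : (0:ℝ) ≤ i := Nat.cast_nonneg i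
    have hr0 : 0 < T ^ (-e) := Real.rpow_pos_of_pos hT0 _
    have hr1 : T ^ (-e) ≤ 1 := Real.rpow_le_one_of_one_le_of_nonpos hT (by linarith)
    have hb0 : 0 < b i := by simp only [hb]; positivity
    have hb1 : b i ≤ 1 := by
      simp only [hb]
      rw [div_le_one (by positivity)]
      nlinarith
    have hb2 : T ^ (-e) ≤ 8 * ((n:ℝ) + 1) * b i := by
      simp only [hb]
      rw [mul_div_cancel₀ _ (by positivity : (8 * ((n:ℝ) + 1)) ≠ 0)]
      nlinarith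
    have h3 := H2 T hT 0 (b i) (by simp) (by rw [abs_of_pos hb0]; exact hb1) hb0.ne
    have h4 : ∫ x in T..(3 * T), ‖pf 0 (b i) x‖ ^ 2 ≤
        ∫ x in (T ^ (7 / 8 : ℝ) / 2)..(3 * T), ‖pf 0 (b i) x‖ ^ 2 := by
      have h78 : T ^ (7 / 8 : ℝ) / 2 ≤ T := by
        have : T ^ (7 / 8 : ℝ) ≤ T := by
          nth_rw 2 [← Real.rpow_one T]
          exact Real.rpow_le_rpow_of_exponent_le hT (by norm_num)
        linarith
      refine intervalIntegral.integral_mono_interval h78 hle le_rfl ?_ ?_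
      · exact Filter.Eventually.of_forall fun x => sq_nonneg _
      · exact ((m4_contpf (b i)).norm.pow 2).intervalIntegrable _ _
    refine (h4.trans h3).trans ?_
    have h5 : 1 / (0 - b i) ^ 2 ≤ 64 * ((n:ℝ) + 1) ^ 2 * T ^ (2 * e) := by
      have e1 : T ^ (2 * e) * (T ^ (-e)) ^ 2 = 1 := by
        rw [← Real.rpow_natCast (T ^ (-e)) 2, ← Real.rpow_mul hT0.le, ← Real.rpow_add hT0]
        have : 2 * e + -e * ((2:ℕ):ℝ) = 0 := by push_cast; ring
        rw [this, Real.rpow_zero]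
      have e2 : 0 < T ^ (2 * e) := Real.rpow_pos_of_pos hT0 _
      rw [zero_sub, neg_sq, div_le_iff₀ (by positivity)]
      calc (1:ℝ) = T ^ (2 * e) * (T ^ (-e)) ^ 2 := e1.symm
        _ ≤ T ^ (2 * e) * (8 * ((n:ℝ) + 1) * b i) ^ 2 := by gcongr
        _ = _ := by ring
    have h6 : 1 ≤ T ^ (2 * e) := Real.one_le_rpow hT (by linarith)
    have h7 : 1 + 1 / (0 - b i) ^ 2 ≤ 65 * ((n:ℝ) + 1) ^ 2 * T ^ (2 * e) := by
      have : 1 ≤ ((n:ℝ) + 1) ^ 2 * T ^ (2 * e) := by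
        have h8 : 1 ≤ ((n:ℝ) + 1) ^ 2 := by nlinarith
        nlinarith
      nlinarith
    calc C2 * (1 + 1 / (0 - b i) ^ 2) ^ 2 * T ^ (1 + 6 * ε')
        ≤ C2 * (65 * ((n:ℝ) + 1) ^ 2 * T ^ (2 * e)) ^ 2 * T ^ (1 + 6 * ε') := by gcongr
      _ = C2 * (4225 * ((n:ℝ) + 1) ^ 4) * ((T ^ (2 * e)) ^ 2 * T ^ (1 + 6 * ε')) := by ring
      _ ≤ C2 * (4225 * ((n:ℝ) + 1) ^ 4) * T ^ (1 + ε) := by
          gcongr
          rw [← Real.rpow_natCast (T ^ (2 * e)) 2, ← Real.rpow_mul hT0.le, ← Real.rpow_add hT0]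
          refine Real.rpow_le_rpow_of_exponent_le hT ?_
          rw [he]
          push_cast
          linarith
  have h3 := Finset.sum_le_sum h2
  rw [Finset.sum_const, Finset.card_range, nsmul_eq_mul] at h3
  have h4 : ∫ x in T..(3 * T), (1:ℝ) ≤ 2 * T ^ (1 + ε) := by
    rw [intervalIntegral.integral_const, smul_eq_mul]
    linarith
  calc _ ≤ 2 * T ^ (1 + ε) + n * (C2 * (4225 * ((n:ℝ) + 1) ^ 4) * T ^ (1 + ε)) := add_le_add h4 h3
    _ = _ := by ring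

/-- the fourth moment of zeta: `exists_l2_pf` with `a = 0`, `b` the nodes of `exists_interp0` for
`z ↦ riemannZeta (1/2 - I (x + z))` (so `|ζ|^2 ≤ C ∑ |pf 0 b| + 1`), then `[1, T]` is covered by the
intervals `[3^i, 3^(i+1)]` -/
theorem exists_zeta_fourth (ε : ℝ) (hε : 0 < ε) : ∃ C : ℝ, 1 ≤ C ∧ ∀ T : ℝ, 1 ≤ T →
    ∫ t in (-T)..T, ‖riemannZeta (1 / 2 + I * t)‖ ^ 4 ≤ C * T ^ (1 + ε) := by
  obtain ⟨C, hC, H⟩ := m4_dyadic ε hε
  set g : ℝ → ℝ := fun t => ‖riemannZeta (1 / 2 + I * t)‖ ^ 4 with hg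
  have hgc : Continuous g := m4_contz.norm.pow 4
  have hgi : ∀ a b : ℝ, IntervalIntegrable g volume a b := fun a b => hgc.intervalIntegrable _ _
  have hg0 : ∀ t, 0 ≤ g t := fun t => by simp only [hg]; positivity
  have hneg : ∀ t, g (-t) = g t := by
    intro t
    simp only [hg]
    rw [← m4_conj t]
    congr 3
    push_cast
    ring
  have hdy : ∀ k : ℕ, ∫ t in (1:ℝ)..(3:ℝ) ^ k, g t ≤ C * ((3:ℝ) ^ k) ^ (1 + ε) := by
    intro k
    induction k with
    | zero =>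
      simp
      linarith
    | succ k ih =>
      have h1 : (1:ℝ) ≤ 3 ^ k := one_le_pow₀ (by norm_num)
      rw [← intervalIntegral.integral_add_adjacent_intervals (hgi 1 (3 ^ k)) (hgi _ _)]
      have h2 := H (3 ^ k) h1
      have h3 : (3:ℝ) * 3 ^ k = 3 ^ (k + 1) := by ring
      rw [h3] at h2
      have h4 : ((3:ℝ) ^ (k + 1)) ^ (1 + ε) = (3:ℝ) ^ (1 + ε) * ((3:ℝ) ^ k) ^ (1 + ε) := by
        rw [← h3, Real.mul_rpow (by norm_num) (by positivity)]
      have h5 : (3:ℝ) ≤ (3:ℝ) ^ (1 + ε) := by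
        nth_rw 1 [← Real.rpow_one 3]
        exact Real.rpow_le_rpow_of_exponent_le (by norm_num) (by linarith)
      have h6 : 0 ≤ ((3:ℝ) ^ k) ^ (1 + ε) := by positivity
      rw [h4]
      have h7 : 0 ≤ C * ((3:ℝ) ^ k) ^ (1 + ε) := by positivity
      calc _ ≤ C * ((3:ℝ) ^ k) ^ (1 + ε) + C * ((3:ℝ) ^ k) ^ (1 + ε) := add_le_add ih h2
        _ ≤ (3:ℝ) ^ (1 + ε) * (C * ((3:ℝ) ^ k) ^ (1 + ε)) := by nlinarith
        _ = _ := by ring
  set K0 : ℝ := ∫ t in (0:ℝ)..1, g t with hK0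
  have hK00 : 0 ≤ K0 := intervalIntegral.integral_nonneg zero_le_one fun t _ => hg0 t
  have h31 : (1:ℝ) ≤ (3:ℝ) ^ (1 + ε) := Real.one_le_rpow (by norm_num) (by linarith)
  refine ⟨2 * (K0 + C * (3:ℝ) ^ (1 + ε)), by nlinarith, ?_⟩
  intro T hT
  have hT0 : 0 < T := by linarith
  obtain ⟨k, hk1, hk2⟩ := exists_nat_pow_near hT (by norm_num : (1:ℝ) < 3)
  have hT1 : 1 ≤ T ^ (1 + ε) := Real.one_le_rpow hT (by linarith)
  have h1 : ∫ t in (1:ℝ)..T, g t ≤ C * (3:ℝ) ^ (1 + ε) * T ^ (1 + ε) := by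
    have h2 : ∫ t in (1:ℝ)..T, g t ≤ ∫ t in (1:ℝ)..(3:ℝ) ^ (k + 1), g t :=
      intervalIntegral.integral_mono_interval le_rfl hT hk2.le
        (Filter.Eventually.of_forall fun x => hg0 x) (hgi _ _)
    refine h2.trans ((hdy (k + 1)).trans ?_)
    have h3 : (3:ℝ) * 3 ^ k = 3 ^ (k + 1) := by ring
    rw [← h3, Real.mul_rpow (by norm_num) (by positivity), mul_assoc]
    gcongr
  have h0T : ∫ t in (0:ℝ)..T, g t ≤ (K0 + C * (3:ℝ) ^ (1 + ε)) * T ^ (1 + ε) := by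
    rw [← intervalIntegral.integral_add_adjacent_intervals (hgi 0 1) (hgi 1 T)]
    nlinarith
  have hn : ∫ t in (-T)..0, g t = ∫ t in (0:ℝ)..T, g t := by
    have := intervalIntegral.integral_comp_neg (a := 0) (b := T) g
    rw [neg_zero] at this
    rw [← this]
    exact intervalIntegral.integral_congr fun t _ => hneg t
  rw [← intervalIntegral.integral_add_adjacent_intervals (hgi (-T) 0) (hgi 0 T), hn]
  linarith

end Pool.Agent.AAS
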