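import Pool.Agent.AAS.ZR2
import Pool.Agent.AAS.M4

set_option autoImplicit false

namespace Pool.Agent.AAS

open Complex Finset MeasureTheory Filter Topology Set
open Pool.Agent.H26

private lemma wsm_cont : Continuous fun x : ℝ => riemannZeta (1 / 2 + I * x) := by
  refine continuous_iff_continuousAt.2 fun x => ?_
  have h1 : (1 / 2 + I * (x : ℂ)) ≠ 1 := by
    intro h
    have := congrArg Complex.re h
    simp at this
  exact ContinuousAt.comp (f := fun x : ℝ => (1 / 2 + I * (x : ℂ)))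
    (differentiableAt_riemannZeta h1).continuousAt (by fun_prop)

private lemma wsm_scale {m : ℕ} {T H : ℝ} (hH : 1 ≤ H) (hm : 32 ≤ m)
    (hmT : (m : ℝ) * H ≤ 4 * T) : ∃ (j : ℕ) (l : ℝ), (m : ℝ) * H ≤ l ∧
      l + H / 2 ≤ ((m : ℝ) + 1) * H ∧ (2:ℝ) ^ j ≤ 5 * T ∧ (2:ℝ) ^ j ≤ l ∧
      l + H / 2 ≤ 2 * (2:ℝ) ^ j ∧ 16 * H ≤ (2:ℝ) ^ j ∧ (2:ℝ) ≤ (2:ℝ) ^ j := by
  have hm' : (32 : ℝ) ≤ m := by exact_mod_cast hm
  have hmH : 32 * H ≤ (m : ℝ) * H := by gcongr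
  obtain ⟨j, hj1, hj2⟩ := exists_nat_pow_near (x := (m : ℝ) * H + H / 2) (y := (2:ℝ))
    (by linarith) (by norm_num)
  have hj3 : (2:ℝ) ^ (j + 1) = 2 * (2:ℝ) ^ j := by ring
  rw [hj3] at hj2
  rcases le_total ((2:ℝ) ^ j) ((m : ℝ) * H) with h | h
  · exact ⟨j, (m : ℝ) * H, le_rfl, by nlinarith, by linarith, h, by linarith, by linarith,
      by linarith⟩
  · exact ⟨j, (m : ℝ) * H + H / 2, by linarith, by nlinarith, by linarith, hj1, by linarith,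
      by linarith, by linarith⟩

private lemma wsm_min {R : ℝ → ℝ} (hR : Continuous R) {l H : ℝ} (hH : 0 < H) :
    ∃ t ∈ Icc l (l + H / 2), R t ^ 2 ≤ 2 / H * ∫ x in Ioc l (l + H / 2), R x ^ 2 := by
  have hle : l ≤ l + H / 2 := by linarith
  obtain ⟨t, ht, hmin⟩ := isCompact_Icc.exists_isMinOn (nonempty_Icc.2 hle)
    ((hR.pow 2).continuousOn)
  refine ⟨t, ht, ?_⟩
  have h1 : ∫ x in l..(l + H / 2), R t ^ 2 ≤ ∫ x in l..(l + H / 2), R x ^ 2 :=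
    intervalIntegral.integral_mono_on hle (continuous_const.intervalIntegrable _ _) ((hR.pow 2).intervalIntegrable _ _)
      fun x hx => hmin hx
  rw [intervalIntegral.integral_const, intervalIntegral.integral_of_le hle] at h1
  have h2 : (l + H / 2 - l) • R t ^ 2 = H / 2 * R t ^ 2 := by
    rw [smul_eq_mul]
    ring
  rw [h2] at h1
  calc R t ^ 2 = 2 / H * (H / 2 * R t ^ 2) := by field_simp
    _ ≤ _ := by gcongr

private lemma wsm_shift {m : ℕ} {t H : ℝ} (hH : 1 ≤ H) (h1 : (m : ℝ) * H ≤ t)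
    (h2 : t ≤ ((m : ℝ) + 1) * H) :
    ∫ x in (((m : ℝ) - 2) * H)..(((m : ℝ) + 3) * H), ‖riemannZeta (1 / 2 + I * x)‖ ^ 2 ≤
      ∫ u in (-(4 * H))..(4 * H), ‖riemannZeta (1 / 2 + I * (t + u))‖ ^ 2 := by
  have h3 : ∫ u in (-(4 * H))..(4 * H), ‖riemannZeta (1 / 2 + I * (t + u))‖ ^ 2 =
      ∫ x in (t + -(4 * H))..(t + 4 * H), ‖riemannZeta (1 / 2 + I * x)‖ ^ 2 := by
    rw [← intervalIntegral.integral_comp_add_left
      (fun x : ℝ => ‖riemannZeta (1 / 2 + I * (x : ℂ))‖ ^ 2) t]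
    refine intervalIntegral.integral_congr fun u _ => ?_
    push_cast
    rfl
  rw [h3]
  refine intervalIntegral.integral_mono_interval (by nlinarith) (by nlinarith) (by nlinarith)
    (Filter.Eventually.of_forall fun x => by positivity) ?_
  exact (wsm_cont.norm.pow 2).intervalIntegrable _ _

private lemma wsm_small {ε C2 : ℝ} (hε : 0 < ε) (hC2 : 1 ≤ C2)
    (h2 : ∀ T : ℝ, 1 ≤ T → ∫ t in (-T)..T, ‖riemannZeta (1 / 2 + I * t)‖ ^ 4 ≤ C2 * T ^ (1 + ε))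
    {m : ℕ} {T H : ℝ} (hH : 1 ≤ H) (hHT : H ≤ T) (hm : m < 32) :
    ∫ x in (((m : ℝ) - 2) * H)..(((m : ℝ) + 3) * H), ‖riemannZeta (1 / 2 + I * x)‖ ^ 2 ≤
      (5 + C2 * 35 ^ (1 + ε)) * T ^ ε * H := by
  have hm' : (m : ℝ) ≤ 31 := by exact_mod_cast Nat.le_of_lt_succ hm
  have hm0 : (0 : ℝ) ≤ m := Nat.cast_nonneg m
  have hle : ((m : ℝ) - 2) * H ≤ ((m : ℝ) + 3) * H := by nlinarith
  have h3 : ∫ x in (((m : ℝ) - 2) * H)..(((m : ℝ) + 3) * H), ‖riemannZeta (1 / 2 + I * x)‖ ^ 2 ≤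
      ∫ x in (((m : ℝ) - 2) * H)..(((m : ℝ) + 3) * H),
        (1 + ‖riemannZeta (1 / 2 + I * x)‖ ^ 4) := by
    refine intervalIntegral.integral_mono_on hle ((wsm_cont.norm.pow 2).intervalIntegrable _ _)
      ((continuous_const.add (wsm_cont.norm.pow 4)).intervalIntegrable _ _) fun x _ => ?_
    have := sq_nonneg (‖riemannZeta (1 / 2 + I * x)‖ ^ 2 - 1)
    nlinarith [sq_nonneg (‖riemannZeta (1 / 2 + I * x)‖ ^ 2)]
  have h4 : ∫ x in (((m : ℝ) - 2) * H)..(((m : ℝ) + 3) * H),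
      (1 + ‖riemannZeta (1 / 2 + I * x)‖ ^ 4) = 5 * H +
        ∫ x in (((m : ℝ) - 2) * H)..(((m : ℝ) + 3) * H), ‖riemannZeta (1 / 2 + I * x)‖ ^ 4 := by
    have hc4 : Continuous fun x : ℝ => ‖riemannZeta (1 / 2 + I * x)‖ ^ 4 := wsm_cont.norm.pow 4
    rw [intervalIntegral.integral_add (continuous_const.intervalIntegrable _ _)
      (hc4.intervalIntegrable _ _)]
    congr 1
    rw [intervalIntegral.integral_const, smul_eq_mul]
    ring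
  have h5 : ∫ x in (((m : ℝ) - 2) * H)..(((m : ℝ) + 3) * H), ‖riemannZeta (1 / 2 + I * x)‖ ^ 4 ≤
      ∫ x in (-(35 * H))..(35 * H), ‖riemannZeta (1 / 2 + I * x)‖ ^ 4 := by
    refine intervalIntegral.integral_mono_interval (by nlinarith) hle (by nlinarith)
      (Filter.Eventually.of_forall fun x => by positivity) ?_
    exact (wsm_cont.norm.pow 4).intervalIntegrable _ _
  have h6 := h2 (35 * H) (by linarith)
  have hH0 : 0 < H := by linarith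
  have h7 : (35 * H) ^ (1 + ε) = 35 ^ (1 + ε) * (H * H ^ ε) := by
    rw [Real.mul_rpow (by norm_num) hH0.le, Real.rpow_add hH0, Real.rpow_one]
  have h8 : H ^ ε ≤ T ^ ε := Real.rpow_le_rpow hH0.le hHT hε.le
  have h9 : 1 ≤ T ^ ε := Real.one_le_rpow (by linarith) hε.le
  have h10 : (0:ℝ) ≤ 35 ^ (1 + ε) := by positivity
  rw [h7] at h6
  have h11 : C2 * (35 ^ (1 + ε) * (H * H ^ ε)) ≤ C2 * (35 ^ (1 + ε) * (H * T ^ ε)) := by gcongr
  have h12 : 5 * H ≤ 5 * T ^ ε * H := by nlinarith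
  calc _ ≤ _ := h3
    _ = _ := h4
    _ ≤ 5 * H + C2 * (35 ^ (1 + ε) * (H * T ^ ε)) := by linarith
    _ ≤ 5 * T ^ ε * H + C2 * (35 ^ (1 + ε) * (H * T ^ ε)) := by linarith
    _ = _ := by ring

private lemma wsm_geom {ε : ℝ} (hε : 0 < ε) (J : ℕ) :
    ∑ j ∈ Finset.range (J + 1), ((2:ℝ) ^ j) ^ (1 + ε) ≤ 2 * ((2:ℝ) ^ J) ^ (1 + ε) := by
  induction J with
  | zero => simp
  | succ J ih =>
    rw [Finset.sum_range_succ]
    have h1 : ((2:ℝ) ^ (J + 1)) ^ (1 + ε) = 2 ^ (1 + ε) * ((2:ℝ) ^ J) ^ (1 + ε) := by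
      rw [pow_succ, Real.mul_rpow (by positivity) (by norm_num), mul_comm]
    have h2 : (2:ℝ) ≤ 2 ^ (1 + ε) := by
      calc (2:ℝ) = 2 ^ (1:ℝ) := (Real.rpow_one 2).symm
        _ ≤ _ := Real.rpow_le_rpow_of_exponent_le (by norm_num) (by linarith)
    have h3 : (0:ℝ) ≤ ((2:ℝ) ^ J) ^ (1 + ε) := by positivity
    rw [h1]
    nlinarith

/-- the windows: `∫ |ζ|^2` over `[(m-2)H, (m+3)H]` is at most `C T^ε H + R m` with
`∑ R m ^ 2 ≤ C T^(1+ε)`; dyadic ranges of `m H`, in each window the point where `R` of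
`exists_zeta_mean` (with `4 H`) is smallest; for `m ≤ 32` the fourth moment -/
theorem exists_window_sum (ε : ℝ) (hε : 0 < ε) : ∃ C : ℝ, 1 ≤ C ∧ ∀ T H : ℝ, 1 ≤ T → 1 ≤ H →
    H ≤ T → ∃ R : ℕ → ℝ, (∀ m, 0 ≤ R m) ∧
    (∀ m : ℕ, m * H ≤ 4 * T → ∫ x in (((m : ℝ) - 2) * H)..(((m : ℝ) + 3) * H),
      ‖riemannZeta (1 / 2 + I * x)‖ ^ 2 ≤ C * T ^ ε * H + R m) ∧
    ∑ m ∈ Finset.range (⌊4 * T / H⌋₊ + 1), R m ^ 2 ≤ C * T ^ (1 + ε) := by
  obtain ⟨C1, hC1, h1⟩ := exists_zeta_mean ε hε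
  obtain ⟨C2, hC2, h2⟩ := exists_zeta_fourth ε hε
  have h5e : (1:ℝ) ≤ 5 ^ ε := Real.one_le_rpow (by norm_num) hε.le
  have h5f : (1:ℝ) ≤ 5 ^ (1 + ε) := Real.one_le_rpow (by norm_num) (by linarith)
  have h35 : (0:ℝ) ≤ 35 ^ (1 + ε) := by positivity
  set C : ℝ := (5 + C2 * 35 ^ (1 + ε)) + C1 * 5 ^ ε * 4 + 16 * C1 * 5 ^ (1 + ε) with hC
  have hCa : 5 + C2 * 35 ^ (1 + ε) ≤ C := by
    have : 0 ≤ C1 * 5 ^ ε * 4 := by positivity
    have : 0 ≤ 16 * C1 * 5 ^ (1 + ε) := by positivity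
    linarith
  have hCb : C1 * 5 ^ ε * 4 ≤ C := by
    have : 0 ≤ 5 + C2 * 35 ^ (1 + ε) := by positivity
    have : 0 ≤ 16 * C1 * 5 ^ (1 + ε) := by positivity
    linarith
  have hCc : 16 * C1 * 5 ^ (1 + ε) ≤ C := by
    have : 0 ≤ 5 + C2 * 35 ^ (1 + ε) := by positivity
    have : 0 ≤ C1 * 5 ^ ε * 4 := by positivity
    linarith
  have hC1' : 1 ≤ C := by
    have : 0 ≤ C2 * 35 ^ (1 + ε) := by positivity
    linarith
  refine ⟨C, hC1', fun T H hT hH hHT => ?_⟩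
  have hH0 : 0 < H := by linarith
  have hT0 : 0 < T := by linarith
  have hTe : 1 ≤ T ^ ε := Real.one_le_rpow hT hε.le
  -- the functions on the dyadic intervals
  have hRX : ∀ j : ℕ, ∃ R : ℝ → ℝ, Continuous R ∧ (∀ t, 0 ≤ R t) ∧
      (16 * H ≤ (2:ℝ) ^ j → (2:ℝ) ≤ (2:ℝ) ^ j →
        (∀ t ∈ Icc ((2:ℝ) ^ j) (2 * (2:ℝ) ^ j), ∫ u in (-(4 * H))..(4 * H),
          ‖riemannZeta (1 / 2 + I * (t + u))‖ ^ 2 ≤ C1 * ((2:ℝ) ^ j) ^ ε * (4 * H) + R t) ∧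
        ∫ t in ((2:ℝ) ^ j)..(2 * (2:ℝ) ^ j), R t ^ 2 ≤
          C1 * ((2:ℝ) ^ j) ^ (1 + ε) * (4 * H)) := by
    intro j
    by_cases hj : 16 * H ≤ (2:ℝ) ^ j ∧ (2:ℝ) ≤ (2:ℝ) ^ j
    · obtain ⟨R, hR1, hR2, hR3, hR4⟩ := h1 ((2:ℝ) ^ j) (4 * H) hj.2 (by linarith)
        (by linarith [hj.1])
      exact ⟨R, hR1, hR2, fun _ _ => ⟨hR3, hR4⟩⟩
    · exact ⟨fun _ => 0, continuous_const, fun _ => le_rfl, fun h h' => absurd ⟨h, h'⟩ hj⟩
  choose RX hRXc hRX0 hRXp using hRX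
  have key : ∀ m : ℕ, ∃ (r : ℝ) (j : ℕ) (l : ℝ), 0 ≤ r ∧
      ((m : ℝ) * H ≤ 4 * T → ∫ x in (((m : ℝ) - 2) * H)..(((m : ℝ) + 3) * H),
        ‖riemannZeta (1 / 2 + I * x)‖ ^ 2 ≤ C * T ^ ε * H + r) ∧
      (r ≠ 0 → (m : ℝ) * H ≤ l ∧ l + H / 2 ≤ ((m : ℝ) + 1) * H ∧ (2:ℝ) ^ j ≤ 5 * T ∧
        (2:ℝ) ^ j ≤ l ∧ l + H / 2 ≤ 2 * (2:ℝ) ^ j ∧ 16 * H ≤ (2:ℝ) ^ j ∧
        (2:ℝ) ≤ (2:ℝ) ^ j ∧ r ^ 2 ≤ 2 / H * ∫ x in Ioc l (l + H / 2), RX j x ^ 2) := by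
    intro m
    by_cases hm : m < 32
    · refine ⟨0, 0, 0, le_rfl, fun _ => ?_, fun h => absurd rfl h⟩
      have h3 := wsm_small hε hC2 h2 hH hHT hm
      have h4 : (5 + C2 * 35 ^ (1 + ε)) * T ^ ε * H ≤ C * T ^ ε * H := by gcongr
      linarith
    · by_cases hmT : (m : ℝ) * H ≤ 4 * T
      · obtain ⟨j, l, e1, e2, e3, e4, e5, e6, e7⟩ := wsm_scale hH (not_lt.1 hm) hmT
        obtain ⟨t, ht, ht2⟩ := wsm_min (hRXc j) (l := l) hH0
        refine ⟨RX j t, j, l, hRX0 j t, fun _ => ?_, fun _ => ⟨e1, e2, e3, e4, e5, e6, e7, ht2⟩⟩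
        have h3 := wsm_shift (m := m) (t := t) hH (e1.trans ht.1) (ht.2.trans e2)
        have h4 := (hRXp j e6 e7).1 t ⟨e4.trans ht.1, ht.2.trans e5⟩
        have h5 : ((2:ℝ) ^ j) ^ ε ≤ 5 ^ ε * T ^ ε := by
          rw [← Real.mul_rpow (by norm_num) hT0.le]
          exact Real.rpow_le_rpow (by positivity) e3 hε.le
        have h6 : C1 * ((2:ℝ) ^ j) ^ ε * (4 * H) ≤ C1 * (5 ^ ε * T ^ ε) * (4 * H) := by gcongr
        have h7 : C1 * (5 ^ ε * T ^ ε) * (4 * H) = C1 * 5 ^ ε * 4 * (T ^ ε * H) := by ring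
        have h8 : C1 * 5 ^ ε * 4 * (T ^ ε * H) ≤ C * (T ^ ε * H) := by gcongr
        calc _ ≤ _ := h3
          _ ≤ _ := h4
          _ ≤ C * T ^ ε * H + RX j t := by
            have : C * T ^ ε * H = C * (T ^ ε * H) := by ring
            linarith
      · exact ⟨0, 0, 0, le_rfl, fun h => absurd h hmT, fun h => absurd rfl h⟩
  choose R jj ll hR0 hRw hRp using key
  refine ⟨R, hR0, hRw, ?_⟩
  obtain ⟨J, hJ1, hJ2⟩ := exists_nat_pow_near (x := 5 * T) (y := (2:ℝ)) (by linarith)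
    (by norm_num)
  set S : Finset ℕ := (Finset.range (⌊4 * T / H⌋₊ + 1)).filter fun m => R m ≠ 0 with hS
  have hmem : ∀ m ∈ S, R m ≠ 0 := fun m hm => (Finset.mem_filter.1 hm).2
  have hsum : ∑ m ∈ Finset.range (⌊4 * T / H⌋₊ + 1), R m ^ 2 = ∑ m ∈ S, R m ^ 2 := by
    rw [hS]
    refine (Finset.sum_filter_of_ne fun m _ h => ?_).symm
    intro h0
    exact h (by rw [h0]; norm_num)
  have hmaps : ∀ m ∈ S, jj m ∈ Finset.range (J + 1) := by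
    intro m hm
    have h3 := (hRp m (hmem m hm)).2.2.1
    have h4 : (2:ℝ) ^ jj m < 2 ^ (J + 1) := lt_of_le_of_lt h3 hJ2
    exact Finset.mem_range.2 ((pow_lt_pow_iff_right₀ (by norm_num : (1:ℝ) < 2)).1 h4)
  rw [hsum, ← Finset.sum_fiberwise_of_maps_to hmaps]
  have hfib : ∀ j ∈ Finset.range (J + 1), ∑ m ∈ S with jj m = j, R m ^ 2 ≤
      8 * C1 * ((2:ℝ) ^ j) ^ (1 + ε) := by
    intro j _
    rcases Finset.eq_empty_or_nonempty (S.filter fun m => jj m = j) with he | ⟨m0, hm0⟩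
    · rw [he, Finset.sum_empty]
      positivity
    · obtain ⟨hm0S, hm0j⟩ := Finset.mem_filter.1 hm0
      obtain ⟨-, -, -, -, -, g6, g7, -⟩ := hRp m0 (hmem m0 hm0S)
      rw [hm0j] at g6 g7
      have hint : IntegrableOn (fun x => RX j x ^ 2) (Icc ((2:ℝ) ^ j) (2 * (2:ℝ) ^ j)) volume :=
        ((hRXc j).pow 2).integrableOn_Icc
      have hsub : ∀ m ∈ S.filter fun m => jj m = j,
          Ioc (ll m) (ll m + H / 2) ⊆ Icc ((2:ℝ) ^ j) (2 * (2:ℝ) ^ j) := by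
        intro m hm x hx
        obtain ⟨hmS, hmj⟩ := Finset.mem_filter.1 hm
        obtain ⟨-, -, -, e4, e5, -, -, -⟩ := hRp m (hmem m hmS)
        rw [hmj] at e4 e5
        exact ⟨e4.trans hx.1.le, hx.2.trans e5⟩
      have h3 : ∑ m ∈ S with jj m = j, R m ^ 2 ≤
          ∑ m ∈ S with jj m = j, 2 / H * ∫ x in Ioc (ll m) (ll m + H / 2), RX j x ^ 2 := by
        refine Finset.sum_le_sum fun m hm => ?_
        obtain ⟨hmS, hmj⟩ := Finset.mem_filter.1 hm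
        have := (hRp m (hmem m hmS)).2.2.2.2.2.2.2
        rw [hmj] at this
        exact this
      have h4 : ∑ m ∈ S with jj m = j, ∫ x in Ioc (ll m) (ll m + H / 2), RX j x ^ 2 =
          ∫ x in ⋃ m ∈ S.filter fun m => jj m = j, Ioc (ll m) (ll m + H / 2), RX j x ^ 2 := by
        refine (integral_biUnion_finset _ (fun m _ => measurableSet_Ioc) ?_
          fun m hm => hint.mono_set (hsub m hm)).symm
        intro m hm m' hm' hne
        obtain ⟨hmS, -⟩ := Finset.mem_filter.1 hm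
        obtain ⟨hmS', -⟩ := Finset.mem_filter.1 hm'
        obtain ⟨a1, a2, -⟩ := hRp m (hmem m hmS)
        obtain ⟨b1, b2, -⟩ := hRp m' (hmem m' hmS')
        rw [Function.onFun, Set.disjoint_left]
        intro x hx hx'
        rcases lt_or_gt_of_ne hne with hlt | hlt
        · have : ((m : ℝ) + 1) ≤ m' := by exact_mod_cast hlt
          have h7 : ((m : ℝ) + 1) * H ≤ m' * H := by gcongr
          linarith [hx.2, hx'.1]
        · have : ((m' : ℝ) + 1) ≤ m := by exact_mod_cast hlt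
          have h7 : ((m' : ℝ) + 1) * H ≤ m * H := by gcongr
          linarith [hx'.2, hx.1]
      have h5 : ∫ x in ⋃ m ∈ S.filter fun m => jj m = j, Ioc (ll m) (ll m + H / 2), RX j x ^ 2 ≤
          ∫ x in Icc ((2:ℝ) ^ j) (2 * (2:ℝ) ^ j), RX j x ^ 2 := by
        refine setIntegral_mono_set hint
          (Filter.Eventually.of_forall fun x => by positivity) ?_
        exact (Set.iUnion₂_subset hsub).eventuallyLE
      have h6 := (hRXp j g6 g7).2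
      rw [intervalIntegral.integral_of_le (by linarith), ← integral_Icc_eq_integral_Ioc] at h6
      calc _ ≤ _ := h3
        _ = 2 / H * ∑ m ∈ S with jj m = j, ∫ x in Ioc (ll m) (ll m + H / 2), RX j x ^ 2 := by
          rw [Finset.mul_sum]
        _ ≤ 2 / H * (C1 * ((2:ℝ) ^ j) ^ (1 + ε) * (4 * H)) := by
          rw [h4]
          gcongr
          exact h5.trans h6
        _ = _ := by field_simp; ring
  calc ∑ j ∈ Finset.range (J + 1), ∑ m ∈ S with jj m = j, R m ^ 2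
      ≤ ∑ j ∈ Finset.range (J + 1), 8 * C1 * ((2:ℝ) ^ j) ^ (1 + ε) := Finset.sum_le_sum hfib
    _ = 8 * C1 * ∑ j ∈ Finset.range (J + 1), ((2:ℝ) ^ j) ^ (1 + ε) := by rw [Finset.mul_sum]
    _ ≤ 8 * C1 * (2 * ((2:ℝ) ^ J) ^ (1 + ε)) := by
      gcongr
      exact wsm_geom hε J
    _ ≤ 8 * C1 * (2 * (5 * T) ^ (1 + ε)) := by gcongr
    _ = 16 * C1 * 5 ^ (1 + ε) * T ^ (1 + ε) := by
      rw [Real.mul_rpow (by norm_num) hT0.le]
      ring
    _ ≤ C * T ^ (1 + ε) := by gcongr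

end Pool.Agent.AAS
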