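import Pool.Agent.AAS.ZL1

set_option autoImplicit false

namespace Pool.Agent.AAS

open Complex Finset MeasureTheory Filter Topology Set
open Pool.Agent.H26

/-- the mean square of a block of the approximate functional equation from the mean squares of the
blocks of zeta -/
theorem exists_zl1_L2 : ∃ C : ℝ, 1 ≤ C ∧ ∀ (κ : Bool) (N c x H q : ℝ) (j : ℕ), 1 ≤ N →
    0 < c → c ≤ 3 / 4 → 0 < H → |x| + H ≤ 4 * N ^ 2 → 0 < q →
    (∀ z : ℝ, |z| = |x| → ∀ y : ℝ, ∫ u in (-H)..H, ‖zl1P j (1 / 2 + c + I * (z + y + u))‖ ^ 2 ≤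
      (q * Real.exp (y ^ 2 / 4)) ^ 2) →
    L2B (-H) H (fun u => zl1F κ N c j (x + u)) (C / c * N ^ c * q) := by
  obtain ⟨C, hC1, hC⟩ := exists_zl1K_le
  have hI0 : 0 ≤ ∫ y, zl1m y * Real.exp (y ^ 2 / 4) :=
    integral_nonneg fun y => mul_nonneg (zl1m_pos y).le (Real.exp_pos _).le
  refine ⟨C * (∫ y, zl1m y * Real.exp (y ^ 2 / 4)) + 1, by
    have : 0 ≤ C * (∫ y, zl1m y * Real.exp (y ^ 2 / 4)) := by positivity
    linarith, fun κ N c x H q j hN hc hc1 hH hx hq hbl => ?_⟩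
  have hN0 : 0 < N := by linarith
  set D : ℝ := C / c * N ^ c with hD
  have hD0 : 0 < D := by positivity
  obtain ⟨g, hg⟩ : ∃ g : ℝ → ℝ → ℂ, ∀ y u : ℝ,
      g y u = (2 * Real.pi : ℂ)⁻¹ * zl1I κ N j ((c : ℂ) + y * I) (x + u) :=
    ⟨_, fun _ _ => rfl⟩
  have hgc : Continuous fun p : ℝ × ℝ => g p.1 p.2 := by
    have h := zl1I_cont κ hN0 hc j
    have h2 : Continuous fun p : ℝ × ℝ => ((p.1, x + p.2) : ℝ × ℝ) := by fun_prop
    simp only [hg]
    exact continuous_const.mul (h.comp h2)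
  have habs : ∀ u ∈ Icc (-H) H, |x + u| ≤ 4 * N ^ 2 := by
    intro u hu
    have : |u| ≤ H := abs_le.2 hu
    exact (abs_add_le x u).trans (by linarith)
  have hpt : ∀ y, ∀ u ∈ Icc (-H) H, ‖g y u‖ ≤
      D * zl1m y * ‖zl1P j (zl1W κ (x + u) ((c : ℂ) + y * I))‖ := by
    intro y u hu
    have h1 := hC κ N (x + u) c y hN (habs u hu) hc hc1
    rw [hg, zl1I, norm_mul, norm_mul, norm_mul]
    have h0 := norm_nonneg (zl1P j (zl1W κ (x + u) ((c : ℂ) + y * I)))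
    calc ‖(2 * Real.pi : ℂ)⁻¹‖ * (‖cexp (((c : ℂ) + y * I) ^ 2) / ((c : ℂ) + y * I)‖ *
          (‖zl1A κ N (x + u) ((c : ℂ) + y * I)‖ * ‖zl1P j (zl1W κ (x + u) ((c : ℂ) + y * I))‖))
        ≤ 1 * (‖cexp (((c : ℂ) + y * I) ^ 2) / ((c : ℂ) + y * I)‖ *
          (‖zl1A κ N (x + u) ((c : ℂ) + y * I)‖ *
            ‖zl1P j (zl1W κ (x + u) ((c : ℂ) + y * I))‖)) := by
          gcongr
          exact zl1_two_pi
      _ = (‖cexp (((c : ℂ) + y * I) ^ 2) / ((c : ℂ) + y * I)‖ *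
          ‖zl1A κ N (x + u) ((c : ℂ) + y * I)‖) *
            ‖zl1P j (zl1W κ (x + u) ((c : ℂ) + y * I))‖ := by ring
      _ ≤ _ := by gcongr
  have hre : ∀ y : ℝ, ((c : ℂ) + y * I).re = c := fun y => by simp
  have hL2P : ∀ y : ℝ, ∫ u in (-H)..H, ‖zl1P j (zl1W κ (x + u) ((c : ℂ) + y * I))‖ ^ 2 ≤
      (q * Real.exp (y ^ 2 / 4)) ^ 2 := by
    intro y
    cases κ with
    | false =>
      refine le_trans (le_of_eq ?_) (hbl x rfl y)
      congr 1
      funext u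
      congr 3
      rw [zl1W_false]
      push_cast
      ring
    | true =>
      refine le_trans (le_of_eq ?_) (hbl (-x) (abs_neg x) y)
      have h1 : ∀ u : ℝ, ‖zl1P j (zl1W true (x + u) ((c : ℂ) + y * I))‖ ^ 2 =
          (fun u : ℝ => ‖zl1P j (1 / 2 + c + I * (((-x : ℝ) : ℂ) + y + u))‖ ^ 2) (-u) := by
        intro u
        simp only
        congr 3
        rw [zl1W_true]
        push_cast
        ring
      rw [intervalIntegral.integral_congr (fun u _ => h1 u),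
        intervalIntegral.integral_comp_neg (fun u : ℝ =>
          ‖zl1P j (1 / 2 + c + I * (((-x : ℝ) : ℂ) + y + u))‖ ^ 2), neg_neg]
  have hcW : ∀ y : ℝ, Continuous fun u : ℝ => zl1P j (zl1W κ (x + u) ((c : ℂ) + y * I)) := by
    intro y
    refine (zl1P_cont j).comp ?_
    have h2 : Continuous fun u : ℝ => ((y, x + u) : ℝ × ℝ) := by fun_prop
    exact (zl1W_cont κ c).comp h2
  have h2j : (0:ℝ) < 2 ^ j := by positivity
  have hb2 : ∀ y, ∀ u ∈ Icc (-H) H, ‖g y u‖ ≤ D * 2 ^ j * zl1m y := by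
    intro y u hu
    refine (hpt y u hu).trans ?_
    have h3 : ‖zl1P j (zl1W κ (x + u) ((c : ℂ) + y * I))‖ ≤ 2 ^ j := by
      refine zl1P_le j ?_
      rw [zl1W_re, hre]
      linarith
    have hm := (zl1m_pos y).le
    calc _ ≤ D * zl1m y * 2 ^ j := by gcongr
      _ = _ := by ring
  have hM : ∀ y, L2B (-H) H (g y) (D * q * (zl1m y * Real.exp (y ^ 2 / 4))) := by
    intro y
    have hm := zl1m_pos y
    refine ⟨by positivity, ?_⟩
    have h4 : ∀ u ∈ Icc (-H) H, ‖g y u‖ ^ 2 ≤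
        (D * zl1m y) ^ 2 * ‖zl1P j (zl1W κ (x + u) ((c : ℂ) + y * I))‖ ^ 2 := by
      intro u hu
      rw [← mul_pow]
      exact pow_le_pow_left₀ (norm_nonneg _) (hpt y u hu) 2
    have hyu : Continuous fun u : ℝ => ((y, u) : ℝ × ℝ) := by fun_prop
    have hgy : Continuous fun u : ℝ => g y u := hgc.comp hyu
    have h5 : Continuous fun u : ℝ =>
        (D * zl1m y) ^ 2 * ‖zl1P j (zl1W κ (x + u) ((c : ℂ) + y * I))‖ ^ 2 :=
      continuous_const.mul ((hcW y).norm.pow 2)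
    have h5' : Continuous fun u : ℝ => ‖g y u‖ ^ 2 := hgy.norm.pow 2
    calc ∫ u in (-H)..H, ‖g y u‖ ^ 2 ≤ ∫ u in (-H)..H,
          (D * zl1m y) ^ 2 * ‖zl1P j (zl1W κ (x + u) ((c : ℂ) + y * I))‖ ^ 2 :=
          intervalIntegral.integral_mono_on (by linarith) (h5'.intervalIntegrable _ _)
            (h5.intervalIntegrable _ _) h4
      _ = (D * zl1m y) ^ 2 * ∫ u in (-H)..H,
            ‖zl1P j (zl1W κ (x + u) ((c : ℂ) + y * I))‖ ^ 2 :=
          intervalIntegral.integral_const_mul _ _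
      _ ≤ (D * zl1m y) ^ 2 * (q * Real.exp (y ^ 2 / 4)) ^ 2 := by
          gcongr
          exact hL2P y
      _ = _ := by ring
  have hm1 : Integrable fun y : ℝ => D * 2 ^ j * zl1m y := zl1m_int.const_mul _
  have hM1 : Integrable fun y : ℝ => D * q * (zl1m y * Real.exp (y ^ 2 / 4)) :=
    zl1_exp_int.const_mul _
  have hM0 : ∀ y : ℝ, 0 < D * q * (zl1m y * Real.exp (y ^ 2 / 4)) := fun y =>
    mul_pos (mul_pos hD0 hq) (mul_pos (zl1m_pos y) (Real.exp_pos _))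
  have hres := L2B.integral (by linarith : -H ≤ H) hgc hm1 hb2 hM1 hM0 hM
  have e1 : (fun u => ∫ y, g y u) = fun u => zl1F κ N c j (x + u) := by
    funext u
    rw [zl1F, LI, ← integral_const_mul]
    simp only [hg]
  rw [e1] at hres
  refine L2B.mono hres ?_
  rw [integral_const_mul]
  have h6 : 0 ≤ 1 / c * N ^ c * q := by positivity
  calc D * q * ∫ y, zl1m y * Real.exp (y ^ 2 / 4)
      = C * (∫ y, zl1m y * Real.exp (y ^ 2 / 4)) * (1 / c * N ^ c * q) := by rw [hD]; ring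
    _ ≤ (C * (∫ y, zl1m y * Real.exp (y ^ 2 / 4)) + 1) * (1 / c * N ^ c * q) := by
        gcongr
        linarith
    _ = _ := by ring

end Pool.Agent.AAS
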