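import Pool.Agent.AAS.Defs

set_option autoImplicit false

namespace Pool.Agent.AAS

open Complex Finset MeasureTheory Filter Topology Set
open Pool.Agent.H26
open scoped Real ComplexConjugate Interval

namespace LSX

lemma sum_exp_le (F : Finset ℕ) (hF : ∀ k ∈ F, 1 ≤ k) :
    ∑ k ∈ F, Real.exp (-(k : ℝ) ^ 2 / 4) ≤ 7 / 4 := by
  have e4 : 1.28125 ≤ Real.exp (1 / 4) := by
    have := Real.quadratic_le_exp_of_nonneg (show (0 : ℝ) ≤ 1 / 4 by norm_num)
    norm_num at this ⊢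
    linarith
  have e2 : Real.exp (1 / 2) = Real.exp (1 / 4) * Real.exp (1 / 4) := by
    rw [← Real.exp_add]; norm_num
  have hq : Real.exp (-(1 / 2)) ≤ 0.61 := by
    rw [Real.exp_neg, e2, inv_le_comm₀ (by positivity) (by norm_num)]
    nlinarith
  have h1 : Real.exp (-(1 / 4)) ≤ 0.7806 := by
    rw [Real.exp_neg, inv_le_comm₀ (by positivity) (by norm_num)]
    refine le_trans ?_ e4
    norm_num
  set q := Real.exp (-(1 / 2)) with hqd
  have hq0 : 0 < q := Real.exp_pos _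
  have hb : ∀ k ∈ F.erase 1, Real.exp (-(k : ℝ) ^ 2 / 4) ≤ q ^ k := by
    intro k hk
    have hk2 : 2 ≤ k := by
      have h := Finset.mem_erase.mp hk
      have := hF k h.2
      have := h.1
      omega
    have hk2' : (2 : ℝ) ≤ k := by exact_mod_cast hk2
    rw [hqd, ← Real.exp_nat_mul]
    apply Real.exp_le_exp.mpr
    nlinarith
  have hgeo : ∑ k ∈ F.erase 1, q ^ k ≤ 1 / (1 - q) - 1 - q := by
    have hlt : q < 1 := by linarith
    have hs := (summable_geometric_of_lt_one hq0.le hlt)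
    have hT := tsum_geometric_of_lt_one hq0.le hlt
    have hdis : Disjoint (F.erase 1) {0, 1} := by
      rw [Finset.disjoint_left]
      intro k hk hk'
      have h := Finset.mem_erase.mp hk
      have := hF k h.2
      simp only [Finset.mem_insert, Finset.mem_singleton] at hk'
      omega
    have := hs.sum_le_tsum (F.erase 1 ∪ {0, 1}) (fun k _ => by positivity)
    rw [Finset.sum_union hdis, hT] at this
    simp at this
    rw [one_div]
    linarith
  have hnum : 1 / (1 - q) - 1 - q ≤ 0.9542 := by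
    have h : 0 < 1 - q := by linarith
    have h2 : 1 / (1 - q) - 1 - q = q ^ 2 / (1 - q) := by
      field_simp
      ring
    rw [h2, div_le_iff₀ h]
    nlinarith
  by_cases h1F : 1 ∈ F
  · rw [← Finset.add_sum_erase F _ h1F]
    have := Finset.sum_le_sum hb
    have e : Real.exp (-((1 : ℕ) : ℝ) ^ 2 / 4) = Real.exp (-(1 / 4)) := by
      congr 1; norm_num
    rw [e]
    norm_num at *
    linarith
  · have e : F = F.erase 1 := (Finset.erase_eq_of_notMem h1F).symm
    rw [e]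
    have := Finset.sum_le_sum hb
    norm_num at *
    linarith

lemma half_sum {ι : Type*} (R : Finset ι) (x : ι → ℝ) (h1 : ∀ s ∈ R, 1 ≤ x s)
    (hs : ∀ r ∈ R, ∀ s ∈ R, r ≠ s → 1 ≤ |x r - x s|) :
    ∑ s ∈ R, Real.exp (-(x s) ^ 2 / 4) ≤ 7 / 4 := by
  classical
  have hinj : Set.InjOn (fun s => ⌊x s⌋₊) (R : Set ι) := by
    intro r hr s hs' h
    by_contra hne
    have h2 := hs r hr s hs' hne
    have hr0 : 0 ≤ x r := by linarith [h1 r hr]
    have hs0 : 0 ≤ x s := by linarith [h1 s hs']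
    have a1 := Nat.floor_le hr0
    have a2 := Nat.lt_floor_add_one (x r)
    have b1 := Nat.floor_le hs0
    have b2 := Nat.lt_floor_add_one (x s)
    simp only at h
    rw [h] at a1 a2
    have : |x r - x s| < 1 := by
      rw [abs_lt]; constructor <;> linarith
    linarith
  calc ∑ s ∈ R, Real.exp (-(x s) ^ 2 / 4)
      ≤ ∑ s ∈ R, Real.exp (-((⌊x s⌋₊ : ℕ) : ℝ) ^ 2 / 4) := by
        refine Finset.sum_le_sum fun s hs' => Real.exp_le_exp.mpr ?_
        have hs0 : 0 ≤ x s := by linarith [h1 s hs']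
        have a1 := Nat.floor_le hs0
        have a0 : (0 : ℝ) ≤ ⌊x s⌋₊ := Nat.cast_nonneg _
        nlinarith
    _ = ∑ k ∈ R.image (fun s => ⌊x s⌋₊), Real.exp (-(k : ℝ) ^ 2 / 4) := by
        rw [Finset.sum_image]
        intro r hr s hs' h
        exact hinj hr hs' h
    _ ≤ 7 / 4 := by
        refine sum_exp_le _ fun k hk => ?_
        obtain ⟨s, hs', rfl⟩ := Finset.mem_image.mp hk
        exact Nat.le_floor (by simpa using h1 s hs')

lemma sep_sum_le {ι : Type*} (R : Finset ι) (lam : ι → ℝ) {dl : ℝ} (hdl : 0 < dl)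
    (hs : ∀ r ∈ R, ∀ s ∈ R, r ≠ s → dl ≤ |lam r - lam s|) {r : ι} (hr : r ∈ R) :
    ∑ s ∈ R, Real.exp (-((lam s - lam r) / dl) ^ 2 / 4) ≤ 9 / 2 := by
  classical
  have hsep : ∀ s ∈ R, ∀ t ∈ R, s ≠ t → 1 ≤ |(lam s - lam r) / dl - (lam t - lam r) / dl| := by
    intro s hs' t ht hne
    rw [← sub_div, abs_div, abs_of_pos hdl, le_div_iff₀ hdl, one_mul]
    have := hs s hs' t ht hne
    rwa [show lam s - lam r - (lam t - lam r) = lam s - lam t by ring]
  rw [← Finset.sum_filter_add_sum_filter_not R (fun s => lam r < lam s),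
    ← Finset.sum_filter_add_sum_filter_not (R.filter fun s => ¬ lam r < lam s)
      (fun s => lam s < lam r)]
  have hA : ∑ s ∈ R.filter (fun s => lam r < lam s), Real.exp (-((lam s - lam r) / dl) ^ 2 / 4)
      ≤ 7 / 4 := by
    refine half_sum _ _ (fun s hs' => ?_) (fun s hs' t ht hne => ?_)
    · rw [Finset.mem_filter] at hs'
      have h := hs s hs'.1 r hr (by rintro rfl; exact lt_irrefl _ hs'.2)
      rw [abs_of_pos (by linarith [hs'.2])] at h
      rw [le_div_iff₀ hdl]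
      linarith
    · exact hsep s (Finset.mem_filter.mp hs').1 t (Finset.mem_filter.mp ht).1 hne
  have hB : ∑ s ∈ (R.filter fun s => ¬ lam r < lam s).filter (fun s => lam s < lam r),
      Real.exp (-((lam s - lam r) / dl) ^ 2 / 4) ≤ 7 / 4 := by
    have e : ∀ s, Real.exp (-((lam s - lam r) / dl) ^ 2 / 4)
        = Real.exp (-(-((lam s - lam r) / dl)) ^ 2 / 4) := by
      intro s; congr 2; ring
    simp_rw [e]
    refine half_sum _ _ (fun s hs' => ?_) (fun s hs' t ht hne => ?_)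
    · rw [Finset.mem_filter, Finset.mem_filter] at hs'
      have h := hs s hs'.1.1 r hr (by rintro rfl; exact lt_irrefl _ hs'.2)
      rw [abs_of_neg (by linarith [hs'.2])] at h
      rw [← neg_div, le_div_iff₀ hdl]
      linarith
    · rw [Finset.mem_filter, Finset.mem_filter] at hs' ht
      have := hsep s hs'.1.1 t ht.1.1 hne
      rw [← abs_neg] at this
      rwa [show -((lam s - lam r) / dl) - -((lam t - lam r) / dl)
        = -((lam s - lam r) / dl - (lam t - lam r) / dl) by ring]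
  have hC : ∑ s ∈ (R.filter fun s => ¬ lam r < lam s).filter (fun s => ¬ lam s < lam r),
      Real.exp (-((lam s - lam r) / dl) ^ 2 / 4) ≤ 1 := by
    have hsub : (R.filter fun s => ¬ lam r < lam s).filter (fun s => ¬ lam s < lam r) ⊆ {r} := by
      intro s hs'
      rw [Finset.mem_filter, Finset.mem_filter] at hs'
      rw [Finset.mem_singleton]
      by_contra hne
      have h := hs s hs'.1.1 r hr hne
      have h2 : lam s = lam r := le_antisymm (not_lt.mp hs'.1.2) (not_lt.mp hs'.2)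
      rw [h2, sub_self, abs_zero] at h
      linarith
    refine (Finset.sum_le_sum_of_subset_of_nonneg hsub fun s _ _ => (Real.exp_pos _).le).trans ?_
    simp
  linarith

/-- The Fourier transform of the Gaussian weight. -/
lemma gauss_ft {W : ℝ} (hW : 0 < W) (m μ : ℝ) :
    ‖∫ t : ℝ, (Real.exp (1 - ((t - m) / W) ^ 2) : ℂ) * cexp (I * μ * t)‖
      ≤ 2 * Real.exp 1 * W * Real.exp (-(μ * W) ^ 2 / 4) := by
  have h1 : ∫ t : ℝ, (Real.exp (1 - ((t - m) / W) ^ 2) : ℂ) * cexp (I * μ * t)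
      = ∫ t : ℝ, (Real.exp (1 - (t / W) ^ 2) : ℂ) * cexp (I * μ * (t + m : ℝ)) := by
    rw [← integral_add_right_eq_self (fun t : ℝ =>
      (Real.exp (1 - ((t - m) / W) ^ 2) : ℂ) * cexp (I * μ * t)) m]
    simp
  have h2 : ∀ t : ℝ, (Real.exp (1 - (t / W) ^ 2) : ℂ) * cexp (I * μ * (t + m : ℝ))
      = (cexp 1 * cexp (I * μ * m)) * (cexp (I * μ * t) * cexp (-((1 / W ^ 2 : ℝ) : ℂ) * t ^ 2)) := by
    intro t
    rw [Complex.ofReal_exp, ← Complex.exp_add, ← Complex.exp_add, ← Complex.exp_add,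
      ← Complex.exp_add]
    congr 1
    push_cast
    ring
  have hb : 0 < (((1 / W ^ 2 : ℝ)) : ℂ).re := by
    rw [Complex.ofReal_re]; positivity
  rw [h1]
  simp_rw [h2]
  rw [integral_const_mul, fourierIntegral_gaussian hb, norm_mul, norm_mul, norm_mul]
  have n1 : ‖cexp 1‖ = Real.exp 1 := by
    rw [Complex.norm_exp]; simp
  have n2 : ‖cexp (I * μ * m)‖ = 1 := by
    rw [show I * (μ : ℂ) * m = ((μ * m : ℝ) : ℂ) * I by push_cast; ring, Complex.norm_exp_ofReal_mul_I]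
  have n3 : ‖((π : ℂ) / ((1 / W ^ 2 : ℝ) : ℂ)) ^ (1 / 2 : ℂ)‖ ≤ 2 * W := by
    have e1 : ((π : ℂ) / ((1 / W ^ 2 : ℝ) : ℂ)) = ((π * W ^ 2 : ℝ) : ℂ) := by
      push_cast
      have : (W : ℂ) ≠ 0 := by exact_mod_cast hW.ne'
      field_simp
    rw [e1, Complex.norm_cpow_eq_rpow_re_of_pos (by positivity)]
    have e2 : (1 / 2 : ℂ).re = 1 / 2 := by norm_num
    rw [e2, ← Real.sqrt_eq_rpow]
    calc √(π * W ^ 2) ≤ √((2 * W) ^ 2) := by
          apply Real.sqrt_le_sqrt
          nlinarith [Real.pi_lt_four, sq_nonneg W]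
      _ = 2 * W := Real.sqrt_sq (by positivity)
  have n4 : ‖cexp (-(μ : ℂ) ^ 2 / (4 * ((1 / W ^ 2 : ℝ) : ℂ)))‖ = Real.exp (-(μ * W) ^ 2 / 4) := by
    rw [show -(μ : ℂ) ^ 2 / (4 * ((1 / W ^ 2 : ℝ) : ℂ)) = ((-(μ * W) ^ 2 / 4 : ℝ) : ℂ) by
      push_cast
      have : (W : ℂ) ≠ 0 := by exact_mod_cast hW.ne'
      field_simp, ← Complex.ofReal_exp, Complex.norm_real, Real.norm_of_nonneg (Real.exp_pos _).le]
  rw [n1, n2, n4, mul_one]
  have := Real.exp_pos (-(μ * W) ^ 2 / 4)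
  have h5 := mul_le_mul_of_nonneg_right n3 this.le
  have h6 := mul_le_mul_of_nonneg_left h5 (Real.exp_pos 1).le
  calc _ ≤ Real.exp 1 * (2 * W * Real.exp (-(μ * W) ^ 2 / 4)) := h6
    _ = _ := by ring

lemma integrable_gauss_exp {W : ℝ} (hW : 0 < W) (m μ : ℝ) :
    Integrable fun t : ℝ => (Real.exp (1 - ((t - m) / W) ^ 2) : ℂ) * cexp (I * μ * t) := by
  have hb : 0 < (((1 / W ^ 2 : ℝ)) : ℂ).re := by
    rw [Complex.ofReal_re]; positivity
  have h := integrable_cexp_quadratic hb ((2 * m / W ^ 2 : ℝ) + I * μ) ((1 - m ^ 2 / W ^ 2 : ℝ) : ℂ)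
  refine h.congr (ae_of_all _ fun t => ?_)
  simp only
  rw [Complex.ofReal_exp, ← Complex.exp_add]
  congr 1
  push_cast
  have : (W : ℂ) ≠ 0 := by exact_mod_cast hW.ne'
  field_simp
  ring

/-- A trigonometric polynomial with real frequencies. -/
noncomputable def tp {ι : Type*} (R : Finset ι) (c : ι → ℂ) (lam : ι → ℝ) (t : ℝ) : ℂ :=
  ∑ r ∈ R, c r * cexp (-(I * lam r * t))

lemma continuous_tp {ι : Type*} (R : Finset ι) (c : ι → ℂ) (lam : ι → ℝ) :
    Continuous (tp R c lam) := by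
  unfold tp
  fun_prop

/-- **LS.** The large sieve for spaced real frequencies. -/
theorem large_sieve_tp {ι : Type*} (R : Finset ι) (c : ι → ℂ) (lam : ι → ℝ) {dl : ℝ} (hdl : 0 < dl)
    (hs : ∀ r ∈ R, ∀ s ∈ R, r ≠ s → dl ≤ |lam r - lam s|) {a b : ℝ} (hab : a ≤ b) :
    ∫ t in a..b, ‖tp R c lam t‖ ^ 2 ≤ 25 * ((b - a) + 1 / dl) * ∑ r ∈ R, ‖c r‖ ^ 2 := by
  set W : ℝ := (b - a) + 1 / dl with hWdef
  have hW : 0 < W := by
    have : 0 < 1 / dl := by positivity
    linarith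
  have hWdl : 1 ≤ W * dl := by
    have : 1 / dl * dl = 1 := by field_simp
    nlinarith
  set m : ℝ := (a + b) / 2 with hm
  set w : ℝ → ℝ := fun t => Real.exp (1 - ((t - m) / W) ^ 2) with hw
  -- expand
  have hexp : ∀ t : ℝ, ((w t * ‖tp R c lam t‖ ^ 2 : ℝ) : ℂ)
      = ∑ r ∈ R, ∑ s ∈ R, (c r * conj (c s)) *
        ((Real.exp (1 - ((t - m) / W) ^ 2) : ℂ) * cexp (I * ((lam s - lam r : ℝ) : ℂ) * t)) := by
    intro t
    have e1 : ((‖tp R c lam t‖ ^ 2 : ℝ) : ℂ) = tp R c lam t * conj (tp R c lam t) := by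
      rw [Complex.mul_conj, Complex.normSq_eq_norm_sq]
    have e2 : conj (tp R c lam t) = ∑ s ∈ R, conj (c s) * cexp (I * lam s * t) := by
      unfold tp
      rw [map_sum]
      refine Finset.sum_congr rfl fun s _ => ?_
      rw [map_mul, ← Complex.exp_conj]
      simp [Complex.conj_ofReal]
    rw [Complex.ofReal_mul, e1, e2]
    unfold tp
    rw [Finset.sum_mul_sum, Finset.mul_sum]
    refine Finset.sum_congr rfl fun r _ => ?_
    rw [Finset.mul_sum]
    refine Finset.sum_congr rfl fun s _ => ?_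
    have e3 : cexp (I * ((lam s - lam r : ℝ) : ℂ) * t) = cexp (-(I * lam r * t)) * cexp (I * lam s * t) := by
      rw [← Complex.exp_add]
      congr 1
      push_cast
      ring
    rw [e3]
    ring
  have hint : ∀ r s : ι, Integrable fun t : ℝ => (c r * conj (c s)) *
        ((Real.exp (1 - ((t - m) / W) ^ 2) : ℂ) * cexp (I * ((lam s - lam r : ℝ) : ℂ) * t)) :=
    fun r s => (integrable_gauss_exp hW m _).const_mul _
  have hintw : Integrable fun t : ℝ => ((w t * ‖tp R c lam t‖ ^ 2 : ℝ) : ℂ) := by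
    simp_rw [hexp]
    exact integrable_finsetSum _ fun r _ => integrable_finsetSum _ fun s _ => hint r s
  have hintwr : Integrable fun t : ℝ => w t * ‖tp R c lam t‖ ^ 2 := by
    have := hintw.re
    simp only [RCLike.re_to_complex, Complex.ofReal_re] at this
    exact this
  -- lower bound
  have h1 : ∫ t in a..b, ‖tp R c lam t‖ ^ 2 ≤ ∫ t : ℝ, w t * ‖tp R c lam t‖ ^ 2 := by
    rw [intervalIntegral.integral_of_le hab]
    calc ∫ t in Ioc a b, ‖tp R c lam t‖ ^ 2
        ≤ ∫ t in Ioc a b, w t * ‖tp R c lam t‖ ^ 2 := by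
          refine setIntegral_mono_on ?_ hintwr.integrableOn measurableSet_Ioc ?_
          · exact (((continuous_tp R c lam).norm.pow 2).integrableOn_Icc).mono_set Ioc_subset_Icc_self
          · intro t ht
            have h2 : 1 ≤ w t := by
              rw [hw]
              simp only
              apply Real.one_le_exp
              have h3 : |t - m| ≤ W := by
                rw [abs_le]
                have : 0 < 1 / dl := by positivity
                constructor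
                · have := ht.1; rw [hm, hWdef]; linarith
                · have := ht.2; rw [hm, hWdef]; linarith
              have h4 : ((t - m) / W) ^ 2 ≤ 1 := by
                rw [div_pow, div_le_one (by positivity), ← sq_abs (t - m)]
                exact pow_le_pow_left₀ (abs_nonneg _) h3 2
              linarith
            nlinarith [sq_nonneg ‖tp R c lam t‖]
      _ ≤ ∫ t : ℝ, w t * ‖tp R c lam t‖ ^ 2 :=
          setIntegral_le_integral hintwr (ae_of_all _ fun t => by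
            have := Real.exp_pos (1 - ((t - m) / W) ^ 2)
            simp only [Pi.zero_apply, hw]
            positivity)
  -- upper bound
  have h2 : ∫ t : ℝ, w t * ‖tp R c lam t‖ ^ 2
      ≤ ∑ r ∈ R, ∑ s ∈ R, ‖c r‖ * ‖c s‖ * (2 * Real.exp 1 * W *
        Real.exp (-((lam s - lam r) / dl) ^ 2 / 4)) := by
    have e0 : ((∫ t : ℝ, w t * ‖tp R c lam t‖ ^ 2 : ℝ) : ℂ)
        = ∑ r ∈ R, ∑ s ∈ R, (c r * conj (c s)) * ∫ t : ℝ,
        ((Real.exp (1 - ((t - m) / W) ^ 2) : ℂ) * cexp (I * ((lam s - lam r : ℝ) : ℂ) * t)) := by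
      rw [← integral_complex_ofReal]
      simp_rw [hexp]
      rw [integral_finsetSum _ fun r _ => integrable_finsetSum _ fun s _ => hint r s]
      refine Finset.sum_congr rfl fun r _ => ?_
      rw [integral_finsetSum _ fun s _ => hint r s]
      refine Finset.sum_congr rfl fun s _ => ?_
      rw [integral_const_mul]
    have e1 : ∫ t : ℝ, w t * ‖tp R c lam t‖ ^ 2
        ≤ ‖((∫ t : ℝ, w t * ‖tp R c lam t‖ ^ 2 : ℝ) : ℂ)‖ := by
      rw [Complex.norm_real]
      exact Real.le_norm_self _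
    refine e1.trans ?_
    rw [e0]
    refine (norm_sum_le _ _).trans (Finset.sum_le_sum fun r _ => ?_)
    refine (norm_sum_le _ _).trans (Finset.sum_le_sum fun s _ => ?_)
    rw [norm_mul, norm_mul, RCLike.norm_conj]
    refine mul_le_mul_of_nonneg_left ?_ (by positivity)
    refine (gauss_ft hW m (lam s - lam r)).trans ?_
    refine mul_le_mul_of_nonneg_left (Real.exp_le_exp.mpr ?_) (by positivity)
    have h5 : ((lam s - lam r) / dl) ^ 2 ≤ ((lam s - lam r) * W) ^ 2 := by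
      rw [div_pow, div_le_iff₀ (by positivity)]
      have : (lam s - lam r) ^ 2 * 1 ≤ (lam s - lam r) ^ 2 * (W * dl) ^ 2 := by
        apply mul_le_mul_of_nonneg_left _ (sq_nonneg _)
        exact one_le_pow₀ hWdl
      nlinarith
    linarith
  have h3 : ∑ r ∈ R, ∑ s ∈ R, ‖c r‖ * ‖c s‖ * (2 * Real.exp 1 * W *
        Real.exp (-((lam s - lam r) / dl) ^ 2 / 4))
      ≤ 25 * W * ∑ r ∈ R, ‖c r‖ ^ 2 := by
    set K : ι → ι → ℝ := fun r s => 2 * Real.exp 1 * W * Real.exp (-((lam s - lam r) / dl) ^ 2 / 4)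
      with hK
    have hK0 : ∀ r s, 0 ≤ K r s := fun r s => by rw [hK]; positivity
    have hKs : ∀ r s, K r s = K s r := fun r s => by
      simp only [hK]
      congr 3
      rw [div_pow, div_pow]
      congr 2
      ring
    have hrow : ∀ r ∈ R, ∑ s ∈ R, K r s ≤ 25 * W := by
      intro r hr
      simp only [hK]
      rw [← Finset.mul_sum]
      have h1 := sep_sum_le R lam hdl hs hr
      have h2 := Real.exp_one_lt_d9
      calc 2 * Real.exp 1 * W * ∑ s ∈ R, Real.exp (-((lam s - lam r) / dl) ^ 2 / 4)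
          ≤ 2 * Real.exp 1 * W * (9 / 2) := mul_le_mul_of_nonneg_left h1 (by positivity)
        _ ≤ 25 * W := by nlinarith
    calc ∑ r ∈ R, ∑ s ∈ R, ‖c r‖ * ‖c s‖ * K r s
        ≤ ∑ r ∈ R, ∑ s ∈ R, (‖c r‖ ^ 2 * K r s / 2 + ‖c s‖ ^ 2 * K r s / 2) := by
          refine Finset.sum_le_sum fun r _ => Finset.sum_le_sum fun s _ => ?_
          nlinarith [hK0 r s, mul_nonneg (sq_nonneg (‖c r‖ - ‖c s‖)) (hK0 r s)]
      _ = ∑ r ∈ R, ‖c r‖ ^ 2 * ∑ s ∈ R, K r s := by
          simp_rw [Finset.sum_add_distrib]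
          rw [Finset.sum_comm (f := fun r s => ‖c s‖ ^ 2 * K r s / 2), ← Finset.sum_add_distrib]
          refine Finset.sum_congr rfl fun r _ => ?_
          rw [← Finset.sum_add_distrib, Finset.mul_sum]
          refine Finset.sum_congr rfl fun s _ => ?_
          rw [hKs s r]
          ring
      _ ≤ ∑ r ∈ R, ‖c r‖ ^ 2 * (25 * W) :=
          Finset.sum_le_sum fun r hr => mul_le_mul_of_nonneg_left (hrow r hr) (sq_nonneg _)
      _ = 25 * W * ∑ r ∈ R, ‖c r‖ ^ 2 := by rw [← Finset.sum_mul]; ring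
  exact h1.trans (h2.trans h3)


/-- **LS***. The dual large sieve. -/
theorem large_sieve_dual_mem {ι : Type*} (R : Finset ι) (lam : ι → ℝ) {dl : ℝ} (hdl : 0 < dl)
    (hs : ∀ r ∈ R, ∀ s ∈ R, r ≠ s → dl ≤ |lam r - lam s|) {a b : ℝ} (hab : a ≤ b)
    {Ψ : ℝ → ℂ} (hΨ : MemLp Ψ 2 (volume.restrict (Ioc a b))) :
    ∑ r ∈ R, ‖∫ t in a..b, Ψ t * cexp (-(I * lam r * t))‖ ^ 2
      ≤ 25 * ((b - a) + 1 / dl) * ∫ t in a..b, ‖Ψ t‖ ^ 2 := by
  set K : ℝ := 25 * ((b - a) + 1 / dl) with hK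
  have hKpos : 0 < K := by
    have h1 : 0 < 1 / dl := by positivity
    rw [hK]
    apply mul_pos (by norm_num)
    linarith
  have hΨi : Integrable Ψ (volume.restrict (Ioc a b)) := hΨ.integrable one_le_two
  have hΨ2 : Integrable (fun t => ‖Ψ t‖ ^ 2) (volume.restrict (Ioc a b)) := by
    have := hΨ.integrable_norm_pow (by norm_num)
    simpa using this
  set B : ι → ℂ := fun r => ∫ t in a..b, Ψ t * cexp (-(I * lam r * t)) with hB
  set d : ι → ℂ := fun r => conj (B r) with hd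
  -- the polynomial with coefficients conj B
  have hS2 : ∫ t in a..b, ‖tp R d lam t‖ ^ 2 ≤ K * ∑ r ∈ R, ‖B r‖ ^ 2 := by
    have := large_sieve_tp R d lam hdl hs hab
    simpa [hd, hK] using this
  have hcont : Continuous (tp R d lam) := continuous_tp R d lam
  have hSi : Integrable (fun t => ‖tp R d lam t‖ ^ 2) (volume.restrict (Ioc a b)) :=
    ((hcont.norm.pow 2).integrableOn_Icc).mono_set Ioc_subset_Icc_self
  have hprod : Integrable (fun t => Ψ t * tp R d lam t) (volume.restrict (Ioc a b)) := by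
    refine (hΨi.norm.mul_const (∑ r ∈ R, ‖d r‖)).mono'
      (hΨi.aestronglyMeasurable.mul hcont.aestronglyMeasurable) (ae_of_all _ fun t => ?_)
    rw [norm_mul]
    refine mul_le_mul_of_nonneg_left ?_ (norm_nonneg _)
    unfold tp
    refine (norm_sum_le _ _).trans (Finset.sum_le_sum fun r _ => ?_)
    rw [norm_mul, show -(I * (lam r : ℂ) * t) = ((-(lam r * t) : ℝ) : ℂ) * I by push_cast; ring,
      Complex.norm_exp_ofReal_mul_I, mul_one]
  have hterm : ∀ r : ι, IntervalIntegrable (fun t => Ψ t * cexp (-(I * lam r * t))) volume a b := by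
    intro r
    rw [intervalIntegrable_iff_integrableOn_Ioc_of_le hab]
    refine hΨi.norm.mono' (hΨi.aestronglyMeasurable.mul
      (Continuous.aestronglyMeasurable (by fun_prop))) (ae_of_all _ fun t => ?_)
    rw [norm_mul, show -(I * (lam r : ℂ) * t) = ((-(lam r * t) : ℝ) : ℂ) * I by push_cast; ring,
      Complex.norm_exp_ofReal_mul_I, mul_one]
  have hX : ((∑ r ∈ R, ‖B r‖ ^ 2 : ℝ) : ℂ) = ∫ t in a..b, Ψ t * tp R d lam t := by
    unfold tp
    simp_rw [Finset.mul_sum]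
    rw [intervalIntegral.integral_finsetSum]
    · push_cast
      refine Finset.sum_congr rfl fun r _ => ?_
      have : ∀ t : ℝ, Ψ t * (d r * cexp (-(I * lam r * t))) = d r * (Ψ t * cexp (-(I * lam r * t))) := by
        intro t; ring
      simp_rw [this]
      rw [intervalIntegral.integral_const_mul]
      simp only [hd]
      rw [mul_comm]
      have := Complex.mul_conj (B r)
      rw [this, Complex.normSq_eq_norm_sq]
      push_cast
      rfl
    · intro r _
      have : (fun t : ℝ => Ψ t * (d r * cexp (-(I * lam r * t))))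
          = fun t : ℝ => d r * (Ψ t * cexp (-(I * lam r * t))) := by
        funext t; ring
      rw [this]
      exact (hterm r).const_mul _
  have hX1 : ∑ r ∈ R, ‖B r‖ ^ 2 ≤ ∫ t in a..b, (K / 2 * ‖Ψ t‖ ^ 2 + 1 / (2 * K) * ‖tp R d lam t‖ ^ 2) := by
    have e1 : ∑ r ∈ R, ‖B r‖ ^ 2 ≤ ‖((∑ r ∈ R, ‖B r‖ ^ 2 : ℝ) : ℂ)‖ := by
      rw [Complex.norm_real]; exact Real.le_norm_self _
    refine e1.trans ?_
    rw [hX]
    refine (intervalIntegral.norm_integral_le_integral_norm hab).trans ?_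
    rw [intervalIntegral.integral_of_le hab, intervalIntegral.integral_of_le hab]
    refine integral_mono hprod.norm ((hΨ2.const_mul _).add (hSi.const_mul _)) fun t => ?_
    simp only [Pi.add_apply]
    rw [norm_mul]
    have h1 : 0 ≤ (K * ‖Ψ t‖ - ‖tp R d lam t‖) ^ 2 := sq_nonneg _
    have h2 : K / 2 * ‖Ψ t‖ ^ 2 + 1 / (2 * K) * ‖tp R d lam t‖ ^ 2 - ‖Ψ t‖ * ‖tp R d lam t‖
        = (K * ‖Ψ t‖ - ‖tp R d lam t‖) ^ 2 / (2 * K) := by
      field_simp
      ring
    have h3 : 0 ≤ (K * ‖Ψ t‖ - ‖tp R d lam t‖) ^ 2 / (2 * K) := by positivity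
    linarith
  have hX2 : ∫ t in a..b, (K / 2 * ‖Ψ t‖ ^ 2 + 1 / (2 * K) * ‖tp R d lam t‖ ^ 2)
      = K / 2 * (∫ t in a..b, ‖Ψ t‖ ^ 2) + 1 / (2 * K) * ∫ t in a..b, ‖tp R d lam t‖ ^ 2 := by
    rw [intervalIntegral.integral_of_le hab, intervalIntegral.integral_of_le hab,
      intervalIntegral.integral_of_le hab, integral_add (hΨ2.const_mul _) (hSi.const_mul _),
      integral_const_mul, integral_const_mul]
  rw [hX2] at hX1
  have h4 : 1 / (2 * K) * ∫ t in a..b, ‖tp R d lam t‖ ^ 2 ≤ (∑ r ∈ R, ‖B r‖ ^ 2) / 2 := by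
    calc 1 / (2 * K) * ∫ t in a..b, ‖tp R d lam t‖ ^ 2
        ≤ 1 / (2 * K) * (K * ∑ r ∈ R, ‖B r‖ ^ 2) :=
          mul_le_mul_of_nonneg_left hS2 (by positivity)
      _ = (∑ r ∈ R, ‖B r‖ ^ 2) / 2 := by field_simp
  change ∑ r ∈ R, ‖B r‖ ^ 2 ≤ _
  linarith

end LSX

open LSX in
/-- A1 -/
theorem large_sieve {ι : Type*} (S : Finset ι) (lam : ι → ℝ) {δ : ℝ} (hδ : 0 < δ)
    (hsep : ∀ r ∈ S, ∀ s ∈ S, r ≠ s → δ ≤ |lam r - lam s|) (c : ι → ℂ) {A B : ℝ} (hAB : A ≤ B) :
    ∫ t in A..B, ‖∑ r ∈ S, c r * cexp (-(I * lam r * t))‖ ^ 2 ≤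
      25 * ((B - A) + 1 / δ) * ∑ r ∈ S, ‖c r‖ ^ 2 :=
  large_sieve_tp S c lam hδ hsep hAB

open LSX in
/-- A2 -/
theorem large_sieve_dual {ι : Type*} (S : Finset ι) (lam : ι → ℝ) {δ : ℝ} (hδ : 0 < δ)
    (hsep : ∀ r ∈ S, ∀ s ∈ S, r ≠ s → δ ≤ |lam r - lam s|) {A B : ℝ} (hAB : A ≤ B)
    {Ψ : ℝ → ℂ} (hΨ : Measurable Ψ) (hb : ∃ K, ∀ t, ‖Ψ t‖ ≤ K) :
    ∑ r ∈ S, ‖∫ t in A..B, Ψ t * cexp (-(I * lam r * t))‖ ^ 2 ≤
      25 * ((B - A) + 1 / δ) * ∫ t in A..B, ‖Ψ t‖ ^ 2 := by
  obtain ⟨K, hK⟩ := hb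
  refine large_sieve_dual_mem S lam hδ hsep hAB ?_
  exact MemLp.of_bound hΨ.aestronglyMeasurable K (ae_of_all _ hK)

end Pool.Agent.AAS
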