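import Pool.Agent.AAS.Defs


set_option autoImplicit false

namespace Pool.Agent.AAS

open Complex Finset MeasureTheory Filter Topology Set
open Pool.Agent.H26

/-- B3: the tail of the zeta function -/
theorem exists_zeta_tail : ∃ C : ℝ, 0 ≤ C ∧ ∀ w : ℂ, w.re = 5 / 4 →
    ∀ J : ℕ, ‖riemannZeta w - ∑ n ∈ Finset.Ico (1 : ℕ) (2 ^ J), (n : ℂ) ^ (-w)‖ ≤
      C * 2 ^ (-(J : ℝ) / 8) := by
  have hs98 : Summable (fun n : ℕ => ((n : ℝ)) ^ (-(9 / 8 : ℝ))) :=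
    Real.summable_nat_rpow.2 (by norm_num)
  refine ⟨∑' n : ℕ, ((n : ℝ)) ^ (-(9 / 8 : ℝ)), tsum_nonneg (fun n => by positivity), ?_⟩
  intro w hw J
  have hw1 : 1 < w.re := by rw [hw]; norm_num
  have hw0 : w ≠ 0 := by
    intro h; rw [h] at hw; norm_num at hw
  set f : ℕ → ℂ := fun n => 1 / (n : ℂ) ^ w with hf
  have hfs : Summable f := Complex.summable_one_div_nat_cpow.2 hw1
  have hz : riemannZeta w = ∑' n : ℕ, f n := zeta_eq_tsum_one_div_nat_cpow hw1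
  have hpos : 0 < 2 ^ J := by positivity
  have hsum : ∑ n ∈ Finset.Ico (1 : ℕ) (2 ^ J), (n : ℂ) ^ (-w) = ∑ n ∈ Finset.range (2 ^ J), f n := by
    rw [Finset.range_eq_Ico, Finset.sum_eq_sum_Ico_succ_bot hpos]
    have h0 : f 0 = 0 := by simp [hf, Complex.zero_cpow hw0]
    rw [h0, zero_add]
    refine Finset.sum_congr rfl fun n _ => ?_
    rw [Complex.cpow_neg, hf]; simp
  have htail : riemannZeta w - ∑ n ∈ Finset.Ico (1 : ℕ) (2 ^ J), (n : ℂ) ^ (-w) =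
      ∑' n : ℕ, f (n + 2 ^ J) := by
    rw [hz, hsum, ← hfs.sum_add_tsum_nat_add (2 ^ J)]; ring
  have hb : ∀ n : ℕ, ‖f (n + 2 ^ J)‖ ≤
      (2 : ℝ) ^ (-(J : ℝ) / 8) * ((n + 2 ^ J : ℕ) : ℝ) ^ (-(9 / 8 : ℝ)) := by
    intro n
    have hn : 0 < n + 2 ^ J := by positivity
    have hnR : (0 : ℝ) < ((n + 2 ^ J : ℕ) : ℝ) := by exact_mod_cast hn
    have hge : (2 : ℝ) ^ (J : ℝ) ≤ ((n + 2 ^ J : ℕ) : ℝ) := by
      rw [Real.rpow_natCast]; push_cast; linarith [(Nat.cast_nonneg n : (0:ℝ) ≤ n)]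
    have h1 : ‖f (n + 2 ^ J)‖ = ((n + 2 ^ J : ℕ) : ℝ) ^ (-(5 / 4 : ℝ)) := by
      simp only [hf]
      rw [norm_div, norm_one, Complex.norm_natCast_cpow_of_pos hn, hw, Real.rpow_neg hnR.le, one_div]
    rw [h1]
    have h2 : ((n + 2 ^ J : ℕ) : ℝ) ^ (-(5 / 4 : ℝ)) =
        ((n + 2 ^ J : ℕ) : ℝ) ^ (-(1 / 8 : ℝ)) * ((n + 2 ^ J : ℕ) : ℝ) ^ (-(9 / 8 : ℝ)) := by
      rw [← Real.rpow_add hnR]; norm_num
    rw [h2]
    refine mul_le_mul_of_nonneg_right ?_ (Real.rpow_nonneg hnR.le _)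
    calc ((n + 2 ^ J : ℕ) : ℝ) ^ (-(1 / 8 : ℝ)) ≤ ((2 : ℝ) ^ (J : ℝ)) ^ (-(1 / 8 : ℝ)) :=
          Real.rpow_le_rpow_of_nonpos (by positivity) hge (by norm_num)
      _ = (2 : ℝ) ^ (-(J : ℝ) / 8) := by
          rw [← Real.rpow_mul (by norm_num)]; congr 1; ring
  have hs' : Summable (fun n : ℕ => ((n + 2 ^ J : ℕ) : ℝ) ^ (-(9 / 8 : ℝ))) :=
    (summable_nat_add_iff (2 ^ J)).2 hs98
  have hle : ∑' n : ℕ, ((n + 2 ^ J : ℕ) : ℝ) ^ (-(9 / 8 : ℝ)) ≤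
      ∑' n : ℕ, ((n : ℝ)) ^ (-(9 / 8 : ℝ)) := by
    have h := hs98.sum_add_tsum_nat_add (2 ^ J)
    have h0 : 0 ≤ ∑ n ∈ Finset.range (2 ^ J), ((n : ℝ)) ^ (-(9 / 8 : ℝ)) :=
      Finset.sum_nonneg fun n _ => by positivity
    linarith
  rw [htail]
  calc ‖∑' n : ℕ, f (n + 2 ^ J)‖
      ≤ ∑' n : ℕ, (2 : ℝ) ^ (-(J : ℝ) / 8) * ((n + 2 ^ J : ℕ) : ℝ) ^ (-(9 / 8 : ℝ)) :=
        tsum_of_norm_bounded (hs'.mul_left _).hasSum hb
    _ = (2 : ℝ) ^ (-(J : ℝ) / 8) * ∑' n : ℕ, ((n + 2 ^ J : ℕ) : ℝ) ^ (-(9 / 8 : ℝ)) := tsum_mul_left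
    _ ≤ (2 : ℝ) ^ (-(J : ℝ) / 8) * ∑' n : ℕ, ((n : ℝ)) ^ (-(9 / 8 : ℝ)) :=
        mul_le_mul_of_nonneg_left hle (by positivity)
    _ = _ := mul_comm _ _

theorem sep_log {j m n : ℕ} (hm : 2 ^ j ≤ m) (hm' : m < 2 ^ (j + 1)) (hn : 2 ^ j ≤ n)
    (hn' : n < 2 ^ (j + 1)) (hmn : m ≠ n) :
    1 / (2:ℝ) ^ (j + 1) ≤ |Real.log m - Real.log n| := by
  have key : ∀ a b : ℕ, 2 ^ j ≤ a → a < b → b < 2 ^ (j + 1) →
      1 / (2:ℝ) ^ (j + 1) ≤ Real.log b - Real.log a := by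
    intro a b ha hab hb
    have hapos : 0 < a := lt_of_lt_of_le (by positivity) ha
    have hbpos : 0 < b := hapos.trans hab
    have haR : (0 : ℝ) < a := by exact_mod_cast hapos
    have hbR : (0 : ℝ) < b := by exact_mod_cast hbpos
    rw [← Real.log_div hbR.ne' haR.ne']
    have h1 := Real.one_sub_inv_le_log_of_pos (div_pos hbR haR)
    have h2 : (1 : ℝ) / 2 ^ (j + 1) ≤ 1 / b := by
      refine one_div_le_one_div_of_le hbR ?_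
      have : b ≤ 2 ^ (j + 1) := hb.le
      exact_mod_cast this
    have h3 : 1 / (b : ℝ) ≤ 1 - ((b : ℝ) / a)⁻¹ := by
      rw [inv_div, one_sub_div hbR.ne']
      refine div_le_div_of_nonneg_right ?_ hbR.le
      have : a + 1 ≤ b := hab
      have : (a : ℝ) + 1 ≤ b := by exact_mod_cast this
      linarith
    linarith
  rcases lt_or_gt_of_ne hmn with h | h
  · have := key m n hm h hn'
    rw [abs_sub_comm]
    exact this.trans (le_abs_self _)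
  · have := key n m hn h hm'
    exact this.trans (le_abs_self _)

end Pool.Agent.AAS
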