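import Pool.Agent.AAS.AF1
import Pool.Agent.AAS.ZTL
import Pool.Agent.AAS.LS
import Pool.Agent.AAS.L2C


set_option autoImplicit false

namespace Pool.Agent.AAS

open Complex Finset MeasureTheory Filter Topology Set
open Pool.Agent.H26

/-- the kernel of the two parts -/
noncomputable def zlc_K (N : ℝ) (κ : Bool) (v : ℝ) (s : ℂ) : ℂ :=
  if κ then cexp (s ^ 2) / s * ((N : ℂ) ^ (-s) * (1 + s / (1 / 2 - I * v)) *
    chi (1 / 2 + I * v - s))
  else cexp (s ^ 2) / s * ((N : ℂ) ^ s * (1 - s / (1 / 2 - I * v)))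

/-- the argument of zeta -/
noncomputable def zlc_w (κ : Bool) (v : ℝ) (s : ℂ) : ℂ :=
  if κ then 1 / 2 - I * v + s else 1 / 2 + I * v + s

/-- a dyadic block -/
noncomputable def zlc_D (κ : Bool) (j : ℕ) (v : ℝ) (s : ℂ) : ℂ :=
  ∑ n ∈ Finset.Ico (2 ^ j : ℕ) (2 ^ (j + 1)), (n : ℂ) ^ (-zlc_w κ v s)

private lemma zlc_half (v : ℝ) : (1 / 2 : ℝ) ≤ ‖(1 / 2 : ℂ) - I * v‖ := by
  have h := Complex.abs_re_le_norm ((1 / 2 : ℂ) - I * v)
  have e : ((1 / 2 : ℂ) - I * v).re = 1 / 2 := by simp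
  rw [e] at h
  rwa [abs_of_pos (by norm_num)] at h

private lemma zlc_half_ne (v : ℝ) : (1 / 2 : ℂ) - I * v ≠ 0 := by
  intro h
  have := zlc_half v
  rw [h, norm_zero] at this
  norm_num at this

private lemma zlc_div (v : ℝ) (s : ℂ) : ‖s / ((1 / 2 : ℂ) - I * v)‖ ≤ 2 * ‖s‖ := by
  rw [norm_div, div_le_iff₀ (by linarith [zlc_half v])]
  nlinarith [zlc_half v, norm_nonneg s]

private lemma zlc_poly (y : ℝ) : (3 + 2 * |y|) * (1 + |y|) ≤ 12 * Real.exp (y ^ 2 / 2) := by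
  have h1 := Real.add_one_le_exp (y ^ 2 / 2)
  have h2 : |y| ^ 2 = y ^ 2 := sq_abs y
  nlinarith [abs_nonneg y, sq_nonneg (|y| - 1)]

private lemma zlc_norm_s {c y : ℝ} (hc : 0 < c) (hc1 : c ≤ 3 / 4) :
    c ≤ ‖(c : ℂ) + y * I‖ ∧ ‖(c : ℂ) + y * I‖ ≤ 1 + |y| := by
  constructor
  · have h := Complex.abs_re_le_norm ((c : ℂ) + y * I)
    have e : ((c : ℂ) + y * I).re = c := by simp
    rw [e, abs_of_pos hc] at h
    exact h
  · refine (norm_add_le _ _).trans ?_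
    rw [norm_mul, norm_I, mul_one, Complex.norm_real, Complex.norm_real, Real.norm_eq_abs,
      Real.norm_eq_abs, abs_of_pos hc]
    linarith

private lemma zlc_exp {c y : ℝ} (hc : 0 < c) (hc1 : c ≤ 3 / 4) :
    ‖cexp (((c : ℂ) + y * I) ^ 2) / ((c : ℂ) + y * I)‖ ≤ Real.exp 1 / c * Real.exp (-y ^ 2) := by
  obtain ⟨h1, h2⟩ := zlc_norm_s (y := y) hc hc1
  rw [norm_div, Complex.norm_exp]
  have e : (((c : ℂ) + y * I) ^ 2).re = c ^ 2 - y ^ 2 := by
    simp [pow_two]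
  rw [e, div_mul_eq_mul_div, ← Real.exp_add]
  apply div_le_div₀ (Real.exp_pos _).le _ hc h1
  apply Real.exp_le_exp.2
  nlinarith

/-- the bound of the kernels -/
private lemma zlc_K_bound : ∃ A : ℝ, 1 ≤ A ∧ ∀ (N : ℝ) (κ : Bool) (v c y : ℝ), 0 < N → 0 < c →
    c ≤ 3 / 4 → ‖zlc_K N κ v (c + y * I)‖ ≤
      A / c * Real.exp (-(y ^ 2 / 2)) * (N ^ c + N ^ (-c) * (1 + |v|) ^ c) := by
  obtain ⟨C₀, hC1, hC⟩ := CHI.exists_norm_chi_strip
  refine ⟨Real.exp 1 * 12 * C₀, ?_, ?_⟩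
  · have := Real.add_one_le_exp 1
    nlinarith
  intro N κ v c y hN hc hc1
  have he := zlc_exp (y := y) hc hc1
  obtain ⟨hs1, hs2⟩ := zlc_norm_s (y := y) hc hc1
  have hre : ((c : ℂ) + y * I).re = c := by simp
  have hpoly := zlc_poly y
  have hee : Real.exp (-y ^ 2) * Real.exp (y ^ 2 / 2) = Real.exp (-(y ^ 2 / 2)) := by
    rw [← Real.exp_add]
    congr 1
    ring
  have hdiv := zlc_div v ((c : ℂ) + y * I)
  have hv0 : (0 : ℝ) ≤ |v| := abs_nonneg v
  have hy0 : (0 : ℝ) ≤ |y| := abs_nonneg y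
  have hNc : 0 < N ^ c := Real.rpow_pos_of_pos hN _
  have hNc' : 0 < N ^ (-c) := Real.rpow_pos_of_pos hN _
  have hvc : 0 < (1 + |v|) ^ c := Real.rpow_pos_of_pos (by linarith) _
  have hexp1 := Real.exp_pos (-y ^ 2)
  cases κ with
  | false =>
    have e1 : zlc_K N false v (c + y * I) = cexp (((c : ℂ) + y * I) ^ 2) / ((c : ℂ) + y * I) *
        ((N : ℂ) ^ ((c : ℂ) + y * I) * (1 - ((c : ℂ) + y * I) / (1 / 2 - I * v))) := by
      simp [zlc_K]
    rw [e1, norm_mul, norm_mul, Complex.norm_cpow_eq_rpow_re_of_pos hN, hre]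
    have h1 : ‖(1 : ℂ) - ((c : ℂ) + y * I) / (1 / 2 - I * v)‖ ≤ 3 + 2 * |y| := by
      refine (norm_sub_le _ _).trans ?_
      rw [norm_one]
      linarith
    calc ‖cexp (((c : ℂ) + y * I) ^ 2) / ((c : ℂ) + y * I)‖ *
          (N ^ c * ‖(1 : ℂ) - ((c : ℂ) + y * I) / (1 / 2 - I * v)‖)
        ≤ (Real.exp 1 / c * Real.exp (-y ^ 2)) * (N ^ c * (3 + 2 * |y|)) := by
          gcongr
      _ ≤ (Real.exp 1 / c * Real.exp (-y ^ 2)) * (N ^ c * (12 * C₀ * Real.exp (y ^ 2 / 2))) := by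
          gcongr
          have := Real.exp_pos (y ^ 2 / 2)
          nlinarith
      _ = Real.exp 1 * 12 * C₀ / c * (Real.exp (-y ^ 2) * Real.exp (y ^ 2 / 2)) * N ^ c := by
          ring
      _ = Real.exp 1 * 12 * C₀ / c * Real.exp (-(y ^ 2 / 2)) * N ^ c := by rw [hee]
      _ ≤ Real.exp 1 * 12 * C₀ / c * Real.exp (-(y ^ 2 / 2)) *
          (N ^ c + N ^ (-c) * (1 + |v|) ^ c) := by
          gcongr
          nlinarith
  | true =>
    have e1 : zlc_K N true v (c + y * I) = cexp (((c : ℂ) + y * I) ^ 2) / ((c : ℂ) + y * I) *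
        ((N : ℂ) ^ (-((c : ℂ) + y * I)) * (1 + ((c : ℂ) + y * I) / (1 / 2 - I * v)) *
          chi (1 / 2 + I * v - ((c : ℂ) + y * I))) := by
      simp [zlc_K]
    have hre' : (-((c : ℂ) + y * I)).re = -c := by simp
    rw [e1, norm_mul, norm_mul, norm_mul, Complex.norm_cpow_eq_rpow_re_of_pos hN, hre']
    have h1 : ‖(1 : ℂ) + ((c : ℂ) + y * I) / (1 / 2 - I * v)‖ ≤ 3 + 2 * |y| := by
      refine (norm_add_le _ _).trans ?_
      rw [norm_one]
      linarith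
    have er : (1 / 2 + I * v - ((c : ℂ) + y * I)).re = 1 / 2 - c := by simp
    have ei : (1 / 2 + I * v - ((c : ℂ) + y * I)).im = v - y := by simp
    have h2 : ‖chi (1 / 2 + I * v - ((c : ℂ) + y * I))‖ ≤ C₀ * ((1 + |v|) ^ c * (1 + |y|)) := by
      have h3 := hC (1 / 2 + I * v - ((c : ℂ) + y * I)) (by rw [er]; linarith)
        (by rw [er]; linarith)
      rw [er, ei] at h3
      refine h3.trans ?_
      have e3 : (1 / 2 : ℝ) - (1 / 2 - c) = c := by ring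
      rw [e3]
      apply mul_le_mul_of_nonneg_left _ (by linarith)
      have h4 : 1 + |v - y| ≤ (1 + |v|) * (1 + |y|) := by
        have := abs_sub v y
        nlinarith [mul_nonneg hv0 hy0]
      calc (1 + |v - y|) ^ c ≤ ((1 + |v|) * (1 + |y|)) ^ c :=
            Real.rpow_le_rpow (by positivity) h4 hc.le
        _ = (1 + |v|) ^ c * (1 + |y|) ^ c := Real.mul_rpow (by linarith) (by linarith)
        _ ≤ (1 + |v|) ^ c * (1 + |y|) := by
            apply mul_le_mul_of_nonneg_left _ hvc.le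
            calc (1 + |y|) ^ c ≤ (1 + |y|) ^ (1 : ℝ) :=
                  Real.rpow_le_rpow_of_exponent_le (by linarith) (by linarith)
              _ = 1 + |y| := Real.rpow_one _
    calc ‖cexp (((c : ℂ) + y * I) ^ 2) / ((c : ℂ) + y * I)‖ *
          (N ^ (-c) * ‖(1 : ℂ) + ((c : ℂ) + y * I) / (1 / 2 - I * v)‖ *
            ‖chi (1 / 2 + I * v - ((c : ℂ) + y * I))‖)
        ≤ (Real.exp 1 / c * Real.exp (-y ^ 2)) * (N ^ (-c) * (3 + 2 * |y|) *
            (C₀ * ((1 + |v|) ^ c * (1 + |y|)))) := by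
          gcongr
      _ = (Real.exp 1 / c * Real.exp (-y ^ 2)) * (N ^ (-c) * (C₀ * (1 + |v|) ^ c)) *
            ((3 + 2 * |y|) * (1 + |y|)) := by ring
      _ ≤ (Real.exp 1 / c * Real.exp (-y ^ 2)) * (N ^ (-c) * (C₀ * (1 + |v|) ^ c)) *
            (12 * Real.exp (y ^ 2 / 2)) := by
          gcongr
      _ = Real.exp 1 * 12 * C₀ / c * (Real.exp (-y ^ 2) * Real.exp (y ^ 2 / 2)) *
            (N ^ (-c) * (1 + |v|) ^ c) := by
          ring
      _ = Real.exp 1 * 12 * C₀ / c * Real.exp (-(y ^ 2 / 2)) * (N ^ (-c) * (1 + |v|) ^ c) := by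
          rw [hee]
      _ ≤ Real.exp 1 * 12 * C₀ / c * Real.exp (-(y ^ 2 / 2)) *
          (N ^ c + N ^ (-c) * (1 + |v|) ^ c) := by
          gcongr
          linarith

private lemma zlc_w_re (κ : Bool) (v : ℝ) (s : ℂ) : (zlc_w κ v s).re = 1 / 2 + s.re := by
  cases κ <;> simp [zlc_w]

private lemma zlc_D_norm (κ : Bool) (j : ℕ) (v : ℝ) {s : ℂ} (hs : 0 ≤ s.re) :
    ‖zlc_D κ j v s‖ ≤ 2 ^ j := by
  unfold zlc_D
  refine (norm_sum_le _ _).trans ?_
  have h1 : ∀ n ∈ Finset.Ico (2 ^ j : ℕ) (2 ^ (j + 1)), ‖(n : ℂ) ^ (-zlc_w κ v s)‖ ≤ 1 := by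
    intro n hn
    rw [Finset.mem_Ico] at hn
    have hn1 : 1 ≤ n := le_trans Nat.one_le_two_pow hn.1
    rw [Complex.norm_natCast_cpow_of_pos (by omega), Complex.neg_re, zlc_w_re]
    exact Real.rpow_le_one_of_one_le_of_nonpos (by exact_mod_cast hn1) (by linarith)
  refine (Finset.sum_le_card_nsmul _ _ _ h1).trans ?_
  rw [Nat.card_Ico, nsmul_eq_mul, mul_one]
  have : 2 ^ (j + 1) - 2 ^ j = 2 ^ j := by
    rw [pow_succ]
    omega
  rw [this]
  push_cast
  exact le_rfl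

private lemma zlc_diff {N : ℝ} (hN : 0 < N) (κ : Bool) (j : ℕ) (v : ℝ) {s : ℂ} (hs : 0 < s.re) :
    DifferentiableAt ℂ (fun s => zlc_K N κ v s * zlc_D κ j v s) s := by
  have hs0 : s ≠ 0 := by
    rintro rfl
    simp at hs
  have hN0 : (N : ℂ) ≠ 0 := by exact_mod_cast hN.ne'
  have hD : DifferentiableAt ℂ (fun s => zlc_D κ j v s) s := by
    unfold zlc_D
    refine DifferentiableAt.fun_sum fun n hn => ?_
    rw [Finset.mem_Ico] at hn
    have hn0 : (n : ℂ) ≠ 0 := by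
      have : 1 ≤ n := le_trans Nat.one_le_two_pow hn.1
      exact_mod_cast (by omega : n ≠ 0)
    refine DifferentiableAt.const_cpow ?_ (Or.inl hn0)
    cases κ <;> simp only [zlc_w, if_true, if_false, Bool.false_eq_true] <;> fun_prop
  refine DifferentiableAt.mul ?_ hD
  cases κ with
  | false =>
    have e : zlc_K N false v = fun s => cexp (s ^ 2) / s *
        ((N : ℂ) ^ s * (1 - s / (1 / 2 - I * v))) := by
      funext s
      simp [zlc_K]
    rw [e]
    refine DifferentiableAt.mul (DifferentiableAt.div (by fun_prop) (by fun_prop) hs0)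
      (DifferentiableAt.mul (DifferentiableAt.const_cpow (by fun_prop) (Or.inl hN0)) ?_)
    fun_prop
  | true =>
    have e : zlc_K N true v = fun s => cexp (s ^ 2) / s *
        ((N : ℂ) ^ (-s) * (1 + s / (1 / 2 - I * v)) * chi (1 / 2 + I * v - s)) := by
      funext s
      simp [zlc_K]
    rw [e]
    have hchi : DifferentiableAt ℂ (fun s : ℂ => chi (1 / 2 + I * v - s)) s := by
      have h1 : DifferentiableAt ℂ chi (1 / 2 + I * v - s) := by
        apply differentiableAt_chi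
        simp
        linarith
      exact DifferentiableAt.comp s h1 (by fun_prop)
    refine DifferentiableAt.mul (DifferentiableAt.div (by fun_prop) (by fun_prop) hs0)
      (DifferentiableAt.mul (DifferentiableAt.mul
        (DifferentiableAt.const_cpow (by fun_prop) (Or.inl hN0)) ?_) hchi)
    fun_prop

private lemma zlc_cont_K {N : ℝ} (hN : 0 < N) (κ : Bool) {c : ℝ} (hc : 0 < c) :
    Continuous fun p : ℝ × ℝ => zlc_K N κ p.2 (c + p.1 * I) := by
  have hs0 : ∀ y : ℝ, (c : ℂ) + y * I ≠ 0 := by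
    intro y h
    have := congrArg Complex.re h
    simp at this
    exact hc.ne' this
  have hN0 : (N : ℂ) ≠ 0 := by exact_mod_cast hN.ne'
  have hc1 : Continuous fun p : ℝ × ℝ => cexp (((c : ℂ) + p.1 * I) ^ 2) / ((c : ℂ) + p.1 * I) :=
    Continuous.div (by fun_prop) (by fun_prop) fun p => hs0 p.1
  have hc2 : Continuous fun p : ℝ × ℝ => ((c : ℂ) + p.1 * I) / (1 / 2 - I * p.2) :=
    Continuous.div (by fun_prop) (by fun_prop) fun p => zlc_half_ne p.2
  cases κ with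
  | false =>
    have e : (fun p : ℝ × ℝ => zlc_K N false p.2 (c + p.1 * I)) = fun p : ℝ × ℝ =>
        cexp (((c : ℂ) + p.1 * I) ^ 2) / ((c : ℂ) + p.1 * I) *
        ((N : ℂ) ^ ((c : ℂ) + p.1 * I) * (1 - ((c : ℂ) + p.1 * I) / (1 / 2 - I * p.2))) := by
      funext p
      simp [zlc_K]
    rw [e]
    refine hc1.mul (Continuous.mul (Continuous.const_cpow (by fun_prop) (Or.inl hN0)) ?_)
    exact continuous_const.sub hc2
  | true =>
    have e : (fun p : ℝ × ℝ => zlc_K N true p.2 (c + p.1 * I)) = fun p : ℝ × ℝ =>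
        cexp (((c : ℂ) + p.1 * I) ^ 2) / ((c : ℂ) + p.1 * I) *
        ((N : ℂ) ^ (-((c : ℂ) + p.1 * I)) * (1 + ((c : ℂ) + p.1 * I) / (1 / 2 - I * p.2)) *
          chi (1 / 2 + I * p.2 - ((c : ℂ) + p.1 * I))) := by
      funext p
      simp [zlc_K]
    rw [e]
    refine hc1.mul (Continuous.mul (Continuous.mul
      (Continuous.const_cpow (by fun_prop) (Or.inl hN0)) (continuous_const.add hc2)) ?_)
    rw [continuous_iff_continuousAt]
    intro p
    have h1 : ContinuousAt chi (1 / 2 + I * p.2 - ((c : ℂ) + p.1 * I)) := by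
      apply (differentiableAt_chi _).continuousAt
      simp
      linarith
    exact ContinuousAt.comp (f := fun p : ℝ × ℝ => (1 / 2 + I * p.2 - ((c : ℂ) + p.1 * I) : ℂ)) h1
      (by fun_prop)

private lemma zlc_cont_w (κ : Bool) (c : ℝ) :
    Continuous fun p : ℝ × ℝ => zlc_w κ p.2 (c + p.1 * I) := by
  cases κ <;> simp only [zlc_w, if_true, if_false, Bool.false_eq_true] <;> fun_prop

private lemma zlc_cont_D (κ : Bool) (j : ℕ) (c : ℝ) :
    Continuous fun p : ℝ × ℝ => zlc_D κ j p.2 (c + p.1 * I) := by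
  unfold zlc_D
  refine continuous_finsetSum _ fun n hn => ?_
  rw [Finset.mem_Ico] at hn
  have hn0 : (n : ℂ) ≠ 0 := by
    have : 1 ≤ n := le_trans Nat.one_le_two_pow hn.1
    exact_mod_cast (by omega : n ≠ 0)
  exact Continuous.const_cpow (zlc_cont_w κ c).neg (Or.inl hn0)

private lemma zlc_gauss_int : Integrable fun y : ℝ => Real.exp (-(y ^ 2 / 2)) := by
  have h := integrable_exp_neg_mul_sq (b := 1 / 2) (by norm_num)
  refine h.congr (Eventually.of_forall fun y => ?_)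
  simp only
  congr 1
  ring

private lemma zlc_gauss_top : Tendsto (fun y : ℝ => Real.exp (-(y ^ 2 / 2))) atTop (𝓝 0) := by
  refine Real.tendsto_exp_atBot.comp ?_
  refine tendsto_neg_atTop_atBot.comp ?_
  exact (tendsto_pow_atTop (by norm_num)).atTop_div_const (by norm_num)

private lemma zlc_gauss_bot : Tendsto (fun y : ℝ => Real.exp (-(y ^ 2 / 2))) atBot (𝓝 0) := by
  have h := zlc_gauss_top.comp tendsto_neg_atBot_atTop
  refine h.congr fun y => ?_
  simp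

/-- the shift of the line of a block -/
private lemma zlc_shift {N : ℝ} (hN : 1 ≤ N) (κ : Bool) (j : ℕ) (v : ℝ) {c : ℝ} (hc : 0 < c)
    (hc1 : c ≤ 3 / 4) :
    LI (3 / 4) (fun s => zlc_K N κ v s * zlc_D κ j v s) =
      LI c (fun s => zlc_K N κ v s * zlc_D κ j v s) := by
  obtain ⟨A, hA1, hA⟩ := zlc_K_bound
  have hN0 : 0 < N := by linarith
  unfold LI
  congr 1
  set m : ℝ → ℝ := fun y => A / c * (N ^ (3 / 4 : ℝ) + (1 + |v|) ^ (3 / 4 : ℝ)) * 2 ^ j *
    Real.exp (-(y ^ 2 / 2)) with hm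
  refine Eq.trans ?_ (integral_vertical_shift (f := fun s => zlc_K N κ v s * zlc_D κ j v s)
    (a := c) (b := 3 / 4) (m := m) hc1 (fun z h1 _ => zlc_diff hN0 κ j v (lt_of_lt_of_le hc h1))
    ?_ ?_ ?_ ?_)
  · norm_num
  · intro x y hx1 hx2
    have hx0 : 0 < x := by linarith
    rw [norm_mul]
    have h1 := hA N κ v x y hN0 hx0 hx2
    have h2 := zlc_D_norm κ j v (s := x + y * I) (by simp; linarith)
    have h3 : N ^ x + N ^ (-x) * (1 + |v|) ^ x ≤ N ^ (3 / 4 : ℝ) + (1 + |v|) ^ (3 / 4 : ℝ) := by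
      have h4 : N ^ x ≤ N ^ (3 / 4 : ℝ) := Real.rpow_le_rpow_of_exponent_le hN hx2
      have h5 : N ^ (-x) ≤ 1 := Real.rpow_le_one_of_one_le_of_nonpos hN (by linarith)
      have h6 : (1 + |v|) ^ x ≤ (1 + |v|) ^ (3 / 4 : ℝ) :=
        Real.rpow_le_rpow_of_exponent_le (by linarith [abs_nonneg v]) hx2
      have h7 : 0 ≤ (1 + |v|) ^ x := by positivity
      have h8 : 0 ≤ N ^ (-x) := by positivity
      nlinarith
    calc ‖zlc_K N κ v (x + y * I)‖ * ‖zlc_D κ j v (x + y * I)‖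
        ≤ (A / x * Real.exp (-(y ^ 2 / 2)) * (N ^ x + N ^ (-x) * (1 + |v|) ^ x)) * 2 ^ j := by
          gcongr
      _ ≤ (A / c * Real.exp (-(y ^ 2 / 2)) * (N ^ (3 / 4 : ℝ) + (1 + |v|) ^ (3 / 4 : ℝ))) *
          2 ^ j := by
          gcongr
      _ = m y := by
          rw [hm]
          ring
  · exact zlc_gauss_int.const_mul _
  · have := zlc_gauss_top.const_mul (A / c * (N ^ (3 / 4 : ℝ) + (1 + |v|) ^ (3 / 4 : ℝ)) * 2 ^ j)
    rwa [mul_zero] at this
  · have := zlc_gauss_bot.const_mul (A / c * (N ^ (3 / 4 : ℝ) + (1 + |v|) ^ (3 / 4 : ℝ)) * 2 ^ j)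
    rwa [mul_zero] at this

/-- the frequencies -/
noncomputable def zlc_lam (κ : Bool) (n : ℕ) : ℝ := if κ then -Real.log n else Real.log n

private lemma zlc_term (κ : Bool) (v₀ u : ℝ) (s : ℂ) {n : ℕ} (hn : 1 ≤ n) :
    (n : ℂ) ^ (-zlc_w κ (v₀ + u) s) =
      (n : ℂ) ^ (-zlc_w κ v₀ s) * cexp (-(I * zlc_lam κ n * u)) := by
  have hn0 : (n : ℂ) ≠ 0 := by exact_mod_cast (by omega : n ≠ 0)
  have hl : Complex.log (n : ℂ) = (Real.log n : ℂ) := (Complex.natCast_log).symm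
  have e : -zlc_w κ (v₀ + u) s = -zlc_w κ v₀ s + (if κ then I * u else -(I * u)) := by
    cases κ
    · simp only [zlc_w, if_false, Bool.false_eq_true]
      push_cast
      ring
    · simp only [zlc_w, if_true]
      push_cast
      ring
  rw [e, Complex.cpow_add _ _ hn0]
  congr 1
  rw [Complex.cpow_def_of_ne_zero hn0, hl]
  congr 1
  cases κ
  · simp only [zlc_lam, if_false, Bool.false_eq_true]
    ring
  · simp only [zlc_lam, if_true]
    push_cast
    ring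

private lemma zlc_L2_D (κ : Bool) (j : ℕ) (v₀ : ℝ) {c : ℝ} (y : ℝ) (hc : 0 ≤ c) {H : ℝ}
    (hH : 0 ≤ H) :
    ∫ u in (-H)..H, ‖zlc_D κ j (v₀ + u) (c + y * I)‖ ^ 2 ≤
      25 * (2 * H + 2 ^ (j + 1)) * ((2 : ℝ) ^ (-(c * j))) ^ 2 := by
  set S : Finset ℕ := Finset.Ico (2 ^ j : ℕ) (2 ^ (j + 1)) with hS
  set co : ℕ → ℂ := fun n => (n : ℂ) ^ (-zlc_w κ v₀ (c + y * I)) with hco
  have hδ : (0 : ℝ) < 1 / 2 ^ (j + 1) := by positivity
  have hsep : ∀ r ∈ S, ∀ s ∈ S, r ≠ s → (1 / 2 ^ (j + 1) : ℝ) ≤ |zlc_lam κ r - zlc_lam κ s| := by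
    intro m hm n hn hmn
    rw [hS, Finset.mem_Ico] at hm hn
    have h := sep_log hm.1 hm.2 hn.1 hn.2 hmn
    cases κ
    · simpa only [zlc_lam, if_false, Bool.false_eq_true] using h
    · simp only [zlc_lam, if_true]
      rw [show -Real.log (m : ℝ) - -Real.log (n : ℝ) = -(Real.log m - Real.log n) by ring, abs_neg]
      exact h
  have h := large_sieve S (zlc_lam κ) hδ hsep co (A := -H) (B := H) (by linarith)
  have e1 : ∀ u : ℝ, zlc_D κ j (v₀ + u) (c + y * I) =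
      ∑ r ∈ S, co r * cexp (-(I * zlc_lam κ r * u)) := by
    intro u
    unfold zlc_D
    refine Finset.sum_congr rfl fun n hn => ?_
    rw [Finset.mem_Ico] at hn
    exact zlc_term κ v₀ u _ (le_trans Nat.one_le_two_pow hn.1)
  have e2 : (fun u : ℝ => ‖zlc_D κ j (v₀ + u) (c + y * I)‖ ^ 2) =
      fun u : ℝ => ‖∑ r ∈ S, co r * cexp (-(I * zlc_lam κ r * u))‖ ^ 2 := by
    funext u
    rw [e1]
  rw [e2]
  refine h.trans ?_
  have hsum : ∑ r ∈ S, ‖co r‖ ^ 2 ≤ ((2 : ℝ) ^ (-(c * j))) ^ 2 := by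
    have h1 : ∀ n ∈ S, ‖co n‖ ^ 2 ≤ 1 / 2 ^ j * ((2 : ℝ) ^ (-(c * j))) ^ 2 := by
      intro n hn
      rw [hS, Finset.mem_Ico] at hn
      have hn1 : 1 ≤ n := le_trans Nat.one_le_two_pow hn.1
      have hre : (-zlc_w κ v₀ (c + y * I)).re = -(1 / 2 + c) := by
        rw [Complex.neg_re, zlc_w_re]
        simp
      rw [hco]
      simp only
      rw [Complex.norm_natCast_cpow_of_pos (by omega), hre]
      have h2 : ((n : ℝ)) ^ (-(1 / 2 + c)) ≤ ((2 : ℝ) ^ j) ^ (-(1 / 2 + c)) := by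
        apply Real.rpow_le_rpow_of_nonpos (by positivity) _ (by linarith)
        exact_mod_cast hn.1
      have h3 : ((2 : ℝ) ^ j) ^ (-(1 / 2 + c)) = (2 : ℝ) ^ (-(j : ℝ) / 2) * (2 : ℝ) ^ (-(c * j)) := by
        rw [← Real.rpow_natCast, ← Real.rpow_mul (by norm_num), ← Real.rpow_add (by norm_num)]
        congr 1
        ring
      rw [h3] at h2
      have h4 : ((2 : ℝ) ^ (-(j : ℝ) / 2)) ^ 2 = 1 / 2 ^ j := by
        rw [← Real.rpow_natCast, ← Real.rpow_mul (by norm_num)]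
        rw [show (-(j : ℝ) / 2 * ((2 : ℕ) : ℝ)) = -(j : ℝ) by push_cast; ring,
          Real.rpow_neg (by norm_num), Real.rpow_natCast, one_div]
      calc ((n : ℝ) ^ (-(1 / 2 + c))) ^ 2 ≤ ((2 : ℝ) ^ (-(j : ℝ) / 2) * (2 : ℝ) ^ (-(c * j))) ^ 2 := by
            gcongr
        _ = 1 / 2 ^ j * ((2 : ℝ) ^ (-(c * j))) ^ 2 := by rw [mul_pow, h4]
    refine (Finset.sum_le_card_nsmul _ _ _ h1).trans ?_
    rw [hS, Nat.card_Ico, nsmul_eq_mul]
    have : 2 ^ (j + 1) - 2 ^ j = 2 ^ j := by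
      rw [pow_succ]
      omega
    rw [this]
    push_cast
    have h5 : (2 : ℝ) ^ j * (1 / 2 ^ j * ((2 : ℝ) ^ (-(c * j))) ^ 2) = ((2 : ℝ) ^ (-(c * j))) ^ 2 := by
      field_simp
    rw [h5]
  have e3 : (1 : ℝ) / (1 / 2 ^ (j + 1)) = 2 ^ (j + 1) := by
    rw [one_div_one_div]
  rw [e3, show H - -H = 2 * H by ring]
  gcongr

/-- continuity of the integrals -/
private lemma zlc_cont_int {F : ℝ → ℝ → ℂ} (hF : Continuous fun p : ℝ × ℝ => F p.1 p.2)
    (hb : ∀ R : ℝ, ∃ m : ℝ → ℝ, Integrable m ∧ ∀ y v, |v| ≤ R → ‖F y v‖ ≤ m y) :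
    Continuous fun v => ∫ y, F y v := by
  rw [continuous_iff_continuousAt]
  intro v₀
  obtain ⟨m, hm, hmb⟩ := hb (|v₀| + 1)
  refine continuousAt_of_dominated (bound := m) ?_ ?_ hm ?_
  · refine Eventually.of_forall fun v => ?_
    exact (hF.comp (Continuous.prodMk_left v)).aestronglyMeasurable
  · have h1 : ∀ᶠ v in 𝓝 v₀, |v| ≤ |v₀| + 1 := by
      have : ContinuousAt (fun v : ℝ => |v|) v₀ := continuous_abs.continuousAt
      exact this.eventually (Iic_mem_nhds (by linarith))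
    filter_upwards [h1] with v hv
    exact Eventually.of_forall fun y => hmb y v hv
  · refine Eventually.of_forall fun y => ?_
    exact (hF.comp (Continuous.prodMk_right y)).continuousAt

private lemma zlc_gauss_integral : (2 * Real.pi)⁻¹ * ∫ y : ℝ, Real.exp (-(y ^ 2 / 2)) ≤ 1 := by
  have h := integral_gaussian (1 / 2)
  have e : (fun x : ℝ => Real.exp (-(1 / 2) * x ^ 2)) = fun y : ℝ => Real.exp (-(y ^ 2 / 2)) := by
    funext y
    congr 1
    ring
  rw [e] at h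
  rw [h]
  have hpi := Real.pi_gt_three
  have h1 : √(Real.pi / (1 / 2)) ≤ 2 * Real.pi := by
    rw [Real.sqrt_le_left (by linarith)]
    nlinarith
  rw [inv_mul_le_iff₀ (by positivity)]
  linarith

private lemma zlc_two_pi : ‖((2 * Real.pi : ℂ))⁻¹‖ = (2 * Real.pi)⁻¹ := by
  rw [norm_inv, norm_mul, Complex.norm_real, Real.norm_eq_abs, abs_of_pos Real.pi_pos]
  norm_num

/-- a block as a function of `v` -/
noncomputable def zlc_B (N : ℝ) (κ : Bool) (j : ℕ) (c v : ℝ) : ℂ :=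
  LI c (fun s => zlc_K N κ v s * zlc_D κ j v s)

private lemma zlc_B_cont {N : ℝ} (hN : 0 < N) (κ : Bool) (j : ℕ) {c : ℝ} (hc : 0 < c)
    (hc1 : c ≤ 3 / 4) : Continuous (zlc_B N κ j c) := by
  obtain ⟨A, hA1, hA⟩ := zlc_K_bound
  unfold zlc_B LI
  refine continuous_const.mul ?_
  refine zlc_cont_int (F := fun y v => zlc_K N κ v (c + y * I) * zlc_D κ j v (c + y * I))
    ((zlc_cont_K hN κ hc).mul (zlc_cont_D κ j c)) fun R => ?_
  refine ⟨fun y => A / c * (N ^ c + N ^ (-c) * (1 + |R|) ^ c) * 2 ^ j * Real.exp (-(y ^ 2 / 2)),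
    zlc_gauss_int.const_mul _, fun y v hv => ?_⟩
  rw [norm_mul]
  have h1 := hA N κ v c y hN hc hc1
  have h2 := zlc_D_norm κ j v (s := c + y * I) (by simp; linarith)
  have h3 : (1 + |v|) ^ c ≤ (1 + |R|) ^ c := by
    apply Real.rpow_le_rpow (by positivity) _ hc.le
    linarith [le_abs_self R]
  calc ‖zlc_K N κ v (c + y * I)‖ * ‖zlc_D κ j v (c + y * I)‖
      ≤ (A / c * Real.exp (-(y ^ 2 / 2)) * (N ^ c + N ^ (-c) * (1 + |v|) ^ c)) * 2 ^ j := by
        gcongr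
    _ ≤ (A / c * Real.exp (-(y ^ 2 / 2)) * (N ^ c + N ^ (-c) * (1 + |R|) ^ c)) * 2 ^ j := by
        gcongr
    _ = _ := by ring

private lemma zlc_B_L2 : ∃ A : ℝ, 1 ≤ A ∧ ∀ (N : ℝ) (κ : Bool) (j : ℕ) (v₀ c H R : ℝ), 0 < N →
    0 < c → c ≤ 3 / 4 → 0 ≤ H → (∀ u ∈ Icc (-H) H, |v₀ + u| ≤ R) →
    L2B (-H) H (fun u => zlc_B N κ j c (v₀ + u))
      (A / c * (N ^ c + N ^ (-c) * (1 + R) ^ c) *
        (5 * √(2 * H + 2 ^ (j + 1)) * (2 : ℝ) ^ (-(c * j)))) := by
  obtain ⟨A, hA1, hA⟩ := zlc_K_bound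
  refine ⟨A, hA1, ?_⟩
  intro N κ j v₀ c H R hN hc hc1 hH hR
  have hR0 : 0 ≤ R := (abs_nonneg _).trans (hR (-H) ⟨le_rfl, by linarith⟩)
  set Kc : ℝ := N ^ c + N ^ (-c) * (1 + R) ^ c with hKc
  have hKc0 : 0 < Kc := by positivity
  set W : ℝ := 5 * √(2 * H + 2 ^ (j + 1)) * (2 : ℝ) ^ (-(c * j)) with hW
  have hW0 : 0 < W := by positivity
  have hpi : 0 < (2 * Real.pi)⁻¹ := by positivity
  have hKb : ∀ u ∈ Icc (-H) H, ∀ y : ℝ, ‖zlc_K N κ (v₀ + u) (c + y * I)‖ ≤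
      A / c * Real.exp (-(y ^ 2 / 2)) * Kc := by
    intro u hu y
    refine (hA N κ (v₀ + u) c y hN hc hc1).trans ?_
    have h1 : (1 + |v₀ + u|) ^ c ≤ (1 + R) ^ c :=
      Real.rpow_le_rpow (by positivity) (by linarith [hR u hu]) hc.le
    rw [hKc]
    gcongr
  have hjc : Continuous fun p : ℝ × ℝ => ((2 * Real.pi : ℂ))⁻¹ *
      (zlc_K N κ (v₀ + p.2) (c + p.1 * I) * zlc_D κ j (v₀ + p.2) (c + p.1 * I)) := by
    have h1 := (zlc_cont_K hN κ hc).mul (zlc_cont_D κ j c)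
    have h2 : Continuous fun p : ℝ × ℝ => (p.1, v₀ + p.2) := by fun_prop
    exact continuous_const.mul (h1.comp h2)
  have hmain := L2B.integral (A := -H) (B := H) (by linarith)
    (g := fun y u => ((2 * Real.pi : ℂ))⁻¹ *
      (zlc_K N κ (v₀ + u) (c + y * I) * zlc_D κ j (v₀ + u) (c + y * I)))
    hjc (m := fun y => (2 * Real.pi)⁻¹ * (A / c * Kc * 2 ^ j) * Real.exp (-(y ^ 2 / 2)))
    (zlc_gauss_int.const_mul _) ?_
    (M := fun y => (2 * Real.pi)⁻¹ * (A / c * Kc * W) * Real.exp (-(y ^ 2 / 2)))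
    (zlc_gauss_int.const_mul _) (fun y => by positivity) ?_
  · have e1 : (fun u => zlc_B N κ j c (v₀ + u)) = fun u => ∫ y : ℝ, ((2 * Real.pi : ℂ))⁻¹ *
        (zlc_K N κ (v₀ + u) (c + y * I) * zlc_D κ j (v₀ + u) (c + y * I)) := by
      funext u
      unfold zlc_B LI
      rw [← integral_const_mul]
    rw [e1]
    refine L2B.mono hmain ?_
    rw [integral_const_mul]
    have h1 := zlc_gauss_integral
    have h2 : 0 ≤ A / c * Kc * W := by positivity
    calc (2 * Real.pi)⁻¹ * (A / c * Kc * W) * ∫ y : ℝ, Real.exp (-(y ^ 2 / 2))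
        = (A / c * Kc * W) * ((2 * Real.pi)⁻¹ * ∫ y : ℝ, Real.exp (-(y ^ 2 / 2))) := by ring
      _ ≤ (A / c * Kc * W) * 1 := by gcongr
      _ = A / c * Kc * W := mul_one _
  · intro y u hu
    rw [norm_mul, norm_mul, zlc_two_pi]
    have h2 := zlc_D_norm κ j (v₀ + u) (s := c + y * I) (by simp; linarith)
    calc (2 * Real.pi)⁻¹ * (‖zlc_K N κ (v₀ + u) (c + y * I)‖ * ‖zlc_D κ j (v₀ + u) (c + y * I)‖)
        ≤ (2 * Real.pi)⁻¹ * ((A / c * Real.exp (-(y ^ 2 / 2)) * Kc) * 2 ^ j) := by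
          gcongr
          exact hKb u hu y
      _ = _ := by ring
  · intro y
    refine ⟨by positivity, ?_⟩
    have hL := zlc_L2_D κ j v₀ (c := c) y hc.le hH
    have hcu : Continuous fun u : ℝ => zlc_D κ j (v₀ + u) (c + y * I) := by
      have h1 : Continuous fun u : ℝ => ((y, v₀ + u) : ℝ × ℝ) := by fun_prop
      have h2 := (zlc_cont_D κ j c).comp h1
      rw [Function.comp_def] at h2
      exact h2
    have hcK : Continuous fun u : ℝ => zlc_K N κ (v₀ + u) (c + y * I) := by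
      have h1 : Continuous fun u : ℝ => ((y, v₀ + u) : ℝ × ℝ) := by fun_prop
      have h2 := (zlc_cont_K hN κ hc).comp h1
      rw [Function.comp_def] at h2
      exact h2
    set q : ℝ := (2 * Real.pi)⁻¹ * (A / c * Real.exp (-(y ^ 2 / 2)) * Kc) with hq
    have hq0 : 0 ≤ q := by positivity
    have h1 : ∫ u in (-H)..H, ‖((2 * Real.pi : ℂ))⁻¹ *
        (zlc_K N κ (v₀ + u) (c + y * I) * zlc_D κ j (v₀ + u) (c + y * I))‖ ^ 2 ≤
        ∫ u in (-H)..H, q ^ 2 * ‖zlc_D κ j (v₀ + u) (c + y * I)‖ ^ 2 := by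
      apply intervalIntegral.integral_mono_on (by linarith)
      · exact ((continuous_const.mul (hcK.mul hcu)).norm.pow 2).intervalIntegrable _ _
      · exact (continuous_const.mul (hcu.norm.pow 2)).intervalIntegrable _ _
      · intro u hu
        rw [norm_mul, norm_mul, zlc_two_pi, ← mul_pow]
        have h3 := hKb u hu y
        have h4 : (2 * Real.pi)⁻¹ *
            (‖zlc_K N κ (v₀ + u) (c + y * I)‖ * ‖zlc_D κ j (v₀ + u) (c + y * I)‖) ≤
            q * ‖zlc_D κ j (v₀ + u) (c + y * I)‖ := by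
          rw [hq, mul_assoc (2 * Real.pi)⁻¹]
          gcongr
        gcongr
    refine h1.trans ?_
    rw [intervalIntegral.integral_const_mul]
    have h5 : W ^ 2 = 25 * (2 * H + 2 ^ (j + 1)) * ((2 : ℝ) ^ (-(c * j))) ^ 2 := by
      rw [hW, mul_pow, mul_pow, Real.sq_sqrt (by positivity)]
      norm_num
    calc q ^ 2 * ∫ u in (-H)..H, ‖zlc_D κ j (v₀ + u) (c + y * I)‖ ^ 2
        ≤ q ^ 2 * W ^ 2 := by
          rw [h5]
          gcongr
      _ = ((2 * Real.pi)⁻¹ * (A / c * Kc * W) * Real.exp (-(y ^ 2 / 2))) ^ 2 := by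
          rw [hq]
          ring

private lemma zlc_sum_D (κ : Bool) (J : ℕ) (v : ℝ) (s : ℂ) :
    ∑ j ∈ Finset.range J, zlc_D κ j v s =
      ∑ n ∈ Finset.Ico (1 : ℕ) (2 ^ J), (n : ℂ) ^ (-zlc_w κ v s) := by
  induction J with
  | zero => simp
  | succ J ih =>
    rw [Finset.sum_range_succ, ih]
    unfold zlc_D
    exact Finset.sum_Ico_consecutive _ Nat.one_le_two_pow
      (Nat.pow_le_pow_right (by norm_num) (Nat.le_succ J))

private lemma zlc_tail_part : ∃ C : ℝ, 0 ≤ C ∧ ∀ (N : ℝ) (κ : Bool) (J : ℕ) (c : ℕ → ℝ) (v : ℝ),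
    1 ≤ N → (∀ j, 0 < c j) → (∀ j, c j ≤ 3 / 4) →
    ‖LI (3 / 4) (fun s => zlc_K N κ v s * riemannZeta (zlc_w κ v s)) -
      ∑ j ∈ Finset.range J, zlc_B N κ j (c j) v‖ ≤
      C * (N ^ (3 / 4 : ℝ) + N ^ (-(3 / 4 : ℝ)) * (1 + |v|) ^ (3 / 4 : ℝ)) *
        2 ^ (-(J : ℝ) / 8) := by
  obtain ⟨A, hA1, hA⟩ := zlc_K_bound
  obtain ⟨C₁, hC0, hC⟩ := exists_zeta_tail
  refine ⟨A / (3 / 4) * C₁, by positivity, ?_⟩
  intro N κ J c v hN hc hc1
  have hN0 : 0 < N := by linarith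
  have h34 : (0 : ℝ) < 3 / 4 := by norm_num
  set Kc : ℝ := N ^ (3 / 4 : ℝ) + N ^ (-(3 / 4 : ℝ)) * (1 + |v|) ^ (3 / 4 : ℝ) with hKc
  have hKc0 : 0 < Kc := by positivity
  have hKb : ∀ y : ℝ, ‖zlc_K N κ v (((3 / 4 : ℝ) : ℂ) + y * I)‖ ≤
      A / (3 / 4) * Real.exp (-(y ^ 2 / 2)) * Kc := fun y =>
    hA N κ v (3 / 4) y hN0 h34 le_rfl
  have hcK : Continuous fun y : ℝ => zlc_K N κ v (((3 / 4 : ℝ) : ℂ) + y * I) := by
    have h1 : Continuous fun y : ℝ => ((y, v) : ℝ × ℝ) := by fun_prop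
    have h2 := (zlc_cont_K hN0 κ h34).comp h1
    rw [Function.comp_def] at h2
    exact h2
  have hcD : ∀ j, Continuous fun y : ℝ => zlc_D κ j v (((3 / 4 : ℝ) : ℂ) + y * I) := by
    intro j
    have h1 : Continuous fun y : ℝ => ((y, v) : ℝ × ℝ) := by fun_prop
    have h2 := (zlc_cont_D κ j (3 / 4)).comp h1
    rw [Function.comp_def] at h2
    exact h2
  have hwre : ∀ y : ℝ, (zlc_w κ v (((3 / 4 : ℝ) : ℂ) + y * I)).re = 5 / 4 := by
    intro y
    rw [zlc_w_re]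
    simp
    norm_num
  have hcz : Continuous fun y : ℝ => riemannZeta (zlc_w κ v (((3 / 4 : ℝ) : ℂ) + y * I)) := by
    have h1 : Continuous fun y : ℝ => ((y, v) : ℝ × ℝ) := by fun_prop
    have h2 := (zlc_cont_w κ (3 / 4)).comp h1
    rw [Function.comp_def] at h2
    rw [continuous_iff_continuousAt]
    intro y
    have h3 : ContinuousAt riemannZeta (zlc_w κ v (((3 / 4 : ℝ) : ℂ) + y * I)) := by
      apply (differentiableAt_riemannZeta _).continuousAt
      intro h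
      have := hwre y
      rw [h] at this
      norm_num at this
    exact ContinuousAt.comp (f := fun y : ℝ => zlc_w κ v (((3 / 4 : ℝ) : ℂ) + y * I)) h3
      h2.continuousAt
  have hz0 : ∀ y : ℝ, ‖riemannZeta (zlc_w κ v (((3 / 4 : ℝ) : ℂ) + y * I))‖ ≤ C₁ := by
    intro y
    have h := hC _ (hwre y) 0
    simpa using h
  have hint1 : Integrable fun y : ℝ => zlc_K N κ v (((3 / 4 : ℝ) : ℂ) + y * I) *
      riemannZeta (zlc_w κ v (((3 / 4 : ℝ) : ℂ) + y * I)) := by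
    refine Integrable.mono' (zlc_gauss_int.const_mul (A / (3 / 4) * Kc * C₁))
      (hcK.mul hcz).aestronglyMeasurable (Eventually.of_forall fun y => ?_)
    rw [norm_mul]
    calc ‖zlc_K N κ v (((3 / 4 : ℝ) : ℂ) + y * I)‖ *
          ‖riemannZeta (zlc_w κ v (((3 / 4 : ℝ) : ℂ) + y * I))‖
        ≤ (A / (3 / 4) * Real.exp (-(y ^ 2 / 2)) * Kc) * C₁ := by
          gcongr
          · exact hKb y
          · exact hz0 y
      _ = _ := by ring
  have hint2 : ∀ j, Integrable fun y : ℝ => zlc_K N κ v (((3 / 4 : ℝ) : ℂ) + y * I) *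
      zlc_D κ j v (((3 / 4 : ℝ) : ℂ) + y * I) := by
    intro j
    refine Integrable.mono' (zlc_gauss_int.const_mul (A / (3 / 4) * Kc * 2 ^ j))
      (hcK.mul (hcD j)).aestronglyMeasurable (Eventually.of_forall fun y => ?_)
    rw [norm_mul]
    have h2 := zlc_D_norm κ j v (s := ((3 / 4 : ℝ) : ℂ) + y * I) (by simp; norm_num)
    calc ‖zlc_K N κ v (((3 / 4 : ℝ) : ℂ) + y * I)‖ * ‖zlc_D κ j v (((3 / 4 : ℝ) : ℂ) + y * I)‖
        ≤ (A / (3 / 4) * Real.exp (-(y ^ 2 / 2)) * Kc) * 2 ^ j := by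
          gcongr
          exact hKb y
      _ = _ := by ring
  have e1 : ∀ j, zlc_B N κ j (c j) v = LI (3 / 4) (fun s => zlc_K N κ v s * zlc_D κ j v s) :=
    fun j => (zlc_shift hN κ j v (hc j) (hc1 j)).symm
  rw [Finset.sum_congr rfl fun j _ => e1 j]
  have e2 : LI (3 / 4) (fun s => zlc_K N κ v s * riemannZeta (zlc_w κ v s)) -
      ∑ j ∈ Finset.range J, LI (3 / 4) (fun s => zlc_K N κ v s * zlc_D κ j v s) =
      (2 * Real.pi : ℂ)⁻¹ * ∫ y : ℝ, zlc_K N κ v (((3 / 4 : ℝ) : ℂ) + y * I) *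
        (riemannZeta (zlc_w κ v (((3 / 4 : ℝ) : ℂ) + y * I)) -
          ∑ n ∈ Finset.Ico (1 : ℕ) (2 ^ J), (n : ℂ) ^ (-zlc_w κ v (((3 / 4 : ℝ) : ℂ) + y * I))) := by
    unfold LI
    rw [← Finset.mul_sum, ← mul_sub]
    congr 1
    rw [← integral_finsetSum _ fun j _ => hint2 j, ← integral_sub hint1
      (integrable_finsetSum _ fun j _ => hint2 j)]
    congr 1
    funext y
    rw [← Finset.mul_sum, zlc_sum_D, mul_sub]
  rw [e2, norm_mul, zlc_two_pi]
  have h1 : ‖∫ y : ℝ, zlc_K N κ v (((3 / 4 : ℝ) : ℂ) + y * I) *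
        (riemannZeta (zlc_w κ v (((3 / 4 : ℝ) : ℂ) + y * I)) -
          ∑ n ∈ Finset.Ico (1 : ℕ) (2 ^ J), (n : ℂ) ^ (-zlc_w κ v (((3 / 4 : ℝ) : ℂ) + y * I)))‖ ≤
      ∫ y : ℝ, (A / (3 / 4) * C₁ * Kc * 2 ^ (-(J : ℝ) / 8)) * Real.exp (-(y ^ 2 / 2)) := by
    refine norm_integral_le_of_norm_le (zlc_gauss_int.const_mul _)
      (Eventually.of_forall fun y => ?_)
    rw [norm_mul]
    have h2 := hC _ (hwre y) J
    calc ‖zlc_K N κ v (((3 / 4 : ℝ) : ℂ) + y * I)‖ *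
          ‖riemannZeta (zlc_w κ v (((3 / 4 : ℝ) : ℂ) + y * I)) -
          ∑ n ∈ Finset.Ico (1 : ℕ) (2 ^ J), (n : ℂ) ^ (-zlc_w κ v (((3 / 4 : ℝ) : ℂ) + y * I))‖
        ≤ (A / (3 / 4) * Real.exp (-(y ^ 2 / 2)) * Kc) * (C₁ * 2 ^ (-(J : ℝ) / 8)) := by
          gcongr
          exact hKb y
      _ = _ := by ring
  rw [integral_const_mul] at h1
  have h3 := zlc_gauss_integral
  have h4 : 0 ≤ A / (3 / 4) * C₁ * Kc * 2 ^ (-(J : ℝ) / 8) := by positivity
  calc (2 * Real.pi)⁻¹ * ‖∫ y : ℝ, zlc_K N κ v (((3 / 4 : ℝ) : ℂ) + y * I) *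
        (riemannZeta (zlc_w κ v (((3 / 4 : ℝ) : ℂ) + y * I)) -
          ∑ n ∈ Finset.Ico (1 : ℕ) (2 ^ J), (n : ℂ) ^ (-zlc_w κ v (((3 / 4 : ℝ) : ℂ) + y * I)))‖
      ≤ (2 * Real.pi)⁻¹ * ((A / (3 / 4) * C₁ * Kc * 2 ^ (-(J : ℝ) / 8)) *
          ∫ y : ℝ, Real.exp (-(y ^ 2 / 2))) := by
        gcongr
    _ = (A / (3 / 4) * C₁ * Kc * 2 ^ (-(J : ℝ) / 8)) *
          ((2 * Real.pi)⁻¹ * ∫ y : ℝ, Real.exp (-(y ^ 2 / 2))) := by ring
    _ ≤ (A / (3 / 4) * C₁ * Kc * 2 ^ (-(J : ℝ) / 8)) * 1 := by gcongr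
    _ = _ := mul_one _

private lemma zlc_AFE {N : ℝ} (hN : 0 < N) (v : ℝ) :
    riemannZeta (1 / 2 + I * v) =
      LI (3 / 4) (fun s => zlc_K N false v s * riemannZeta (zlc_w false v s)) +
      LI (3 / 4) (fun s => zlc_K N true v s * riemannZeta (zlc_w true v s)) := by
  rw [zeta_single_AFE hN v]
  congr 1
  · congr 1
    funext s
    simp only [zlc_K, zlc_w, if_false, Bool.false_eq_true]
    ring
  · congr 1
    funext s
    simp only [zlc_K, zlc_w, if_true]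
    ring

private lemma zlc_L2B_const {A B : ℝ} (hAB : A ≤ B) {f : ℝ → ℂ} (hf : Continuous f) {K : ℝ}
    (hK : 0 ≤ K) (h : ∀ x ∈ Icc A B, ‖f x‖ ≤ K) : L2B A B f (K * √(B - A)) := by
  refine ⟨by positivity, ?_⟩
  have h1 : ∫ x in A..B, ‖f x‖ ^ 2 ≤ ∫ x in A..B, K ^ 2 := by
    apply intervalIntegral.integral_mono_on hAB
    · exact (hf.norm.pow 2).intervalIntegrable _ _
    · exact continuous_const.intervalIntegrable _ _
    · intro x hx
      have := h x hx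
      gcongr
  refine h1.trans ?_
  rw [intervalIntegral.integral_const, mul_pow, Real.sq_sqrt (by linarith), smul_eq_mul]
  linarith

private lemma zlc_sqrt4 (x : ℝ) : 2 * √x = √(4 * x) := by
  rw [Real.sqrt_mul (by norm_num) x, show (4 : ℝ) = 2 ^ 2 by norm_num,
    Real.sqrt_sq (by norm_num)]

/-- the bound of a block in the final choice of the line -/
private lemma zlc_block_final {N H e X c : ℝ} (hN : 1 ≤ N) (hNH : N ≤ H) (he : 0 < e)
    (he1 : e ≤ 3 / 4) (hX : 1 ≤ X) (hc : c = if X ≤ N then e else 3 / 4) :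
    1 / c * N ^ c * √(2 * H + 2 * X) * X ^ (-c) ≤ 1 / e * N ^ e * (2 * √(2 * H)) := by
  have hN0 : 0 < N := by linarith
  have hX0 : 0 < X := by linarith
  have hH0 : 0 < H := by linarith
  by_cases h : X ≤ N
  · rw [if_pos h] at hc
    subst hc
    have h1 : X ^ (-c) ≤ 1 := Real.rpow_le_one_of_one_le_of_nonpos hX (by linarith)
    have h2 : √(2 * H + 2 * X) ≤ 2 * √(2 * H) := by
      rw [zlc_sqrt4]
      apply Real.sqrt_le_sqrt
      linarith
    calc 1 / c * N ^ c * √(2 * H + 2 * X) * X ^ (-c)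
        ≤ 1 / c * N ^ c * (2 * √(2 * H)) * 1 := by gcongr
      _ = _ := mul_one _
  · rw [if_neg h] at hc
    push Not at h
    have hce : e ≤ c := by rw [hc]; exact he1
    have hc0 : 0 < c := by linarith
    have h1 : N ^ c * X ^ (-c) ≤ (N / X) ^ (1 / 2 : ℝ) := by
      rw [Real.rpow_neg hX0.le, ← div_eq_mul_inv, ← Real.div_rpow hN0.le hX0.le]
      apply Real.rpow_le_rpow_of_exponent_ge (by positivity)
      · rw [div_le_one hX0]
        exact h.le
      · rw [hc]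
        norm_num
    have h2 : (N / X) ^ (1 / 2 : ℝ) * √(2 * H + 2 * X) ≤ 2 * √(2 * H) := by
      rw [← Real.sqrt_eq_rpow, ← Real.sqrt_mul (by positivity), zlc_sqrt4]
      apply Real.sqrt_le_sqrt
      have e1 : N / X * (2 * H + 2 * X) = N / X * (2 * H) + 2 * N := by
        field_simp
      rw [e1]
      have h3 : N / X ≤ 1 := by
        rw [div_le_one hX0]
        exact h.le
      nlinarith
    have h4 : 1 ≤ N ^ e := Real.one_le_rpow hN he.le
    calc 1 / c * N ^ c * √(2 * H + 2 * X) * X ^ (-c)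
        = 1 / c * ((N ^ c * X ^ (-c)) * √(2 * H + 2 * X)) := by ring
      _ ≤ 1 / e * (2 * √(2 * H)) := by
          apply mul_le_mul (one_div_le_one_div_of_le he hce) _ (by positivity) (by positivity)
          refine le_trans ?_ h2
          gcongr
      _ = 1 / e * 1 * (2 * √(2 * H)) := by ring
      _ ≤ 1 / e * N ^ e * (2 * √(2 * H)) := by gcongr

/-- E5: the local second moment of zeta for windows of length at least `T^(1/2)` -/
theorem localBound_half : LocalBound (1 / 2) := by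
  intro B ε hB hε
  obtain ⟨A, hA1, hA⟩ := zlc_B_L2
  obtain ⟨C₁, hC0, hC⟩ := zlc_tail_part
  set e : ℝ := min (ε / 4) (3 / 4) with he
  have he0 : 0 < e := lt_min (by linarith) (by norm_num)
  have he1 : e ≤ 3 / 4 := min_le_right _ _
  have he4 : 4 * e ≤ ε := by
    have := min_le_left (ε / 4) (3 / 4)
    rw [← he] at this
    linarith
  have hlog2 : 0 < Real.log 2 := Real.log_pos (by norm_num)
  -- constants
  set K₁ : ℝ := 8 / (e * Real.log 2) + 1 with hK₁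
  have hK₁0 : 0 < K₁ := by positivity
  set K₂ : ℝ := A * (4 + B) * 5 * (1 / e) * 2 with hK₂
  have hK₂0 : 0 < K₂ := by positivity
  set K₃ : ℝ := 2 * (C₁ * (4 + B)) with hK₃
  have hK₃0 : 0 ≤ K₃ := by positivity
  set K : ℝ := 2 * K₁ * K₂ + K₃ + 1 with hK
  have hK1 : 1 ≤ K := by
    have : 0 ≤ 2 * K₁ * K₂ := by positivity
    linarith
  refine ⟨K ^ 2, by nlinarith, ?_⟩
  intro T H hT hTH hHT a ha t ht
  have hT0 : 0 < T := by linarith
  set N : ℝ := T ^ (1 / 2 : ℝ) with hN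
  have hN1 : 1 ≤ N := Real.one_le_rpow hT (by norm_num)
  have hN0 : 0 < N := by linarith
  have hNN : N * N = T := by
    rw [hN, ← Real.rpow_add hT0]
    norm_num
  have hNT : N ≤ T := by nlinarith
  have hH1 : 1 ≤ H := hN1.trans hTH
  set v₀ : ℝ := t + a with hv₀
  set R : ℝ := (2 + B) * T with hR
  have hRb : ∀ u ∈ Icc (-H) H, |v₀ + u| ≤ R := by
    intro u hu
    have hu' : |u| ≤ H := abs_le.2 ⟨hu.1, hu.2⟩
    have h1 : |v₀ + u| ≤ |t| + |a| + |u| := by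
      rw [hv₀]
      exact (abs_add_le _ _).trans (by linarith [abs_add_le t a])
    rw [hR]
    nlinarith
  have hR0 : 0 ≤ R := by positivity
  have hKc : ∀ c : ℝ, 0 < c → c ≤ 3 / 4 → N ^ c + N ^ (-c) * (1 + R) ^ c ≤ (4 + B) * N ^ c := by
    intro c hc hc1
    have h1 : 1 + R ≤ (3 + B) * T := by
      rw [hR]
      nlinarith
    have h2 : (1 + R) ^ c ≤ (3 + B) * T ^ c := by
      calc (1 + R) ^ c ≤ ((3 + B) * T) ^ c := Real.rpow_le_rpow (by positivity) h1 hc.le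
        _ = (3 + B) ^ c * T ^ c := Real.mul_rpow (by linarith) hT0.le
        _ ≤ (3 + B) * T ^ c := by
            apply mul_le_mul_of_nonneg_right _ (by positivity)
            calc (3 + B) ^ c ≤ (3 + B) ^ (1 : ℝ) :=
                  Real.rpow_le_rpow_of_exponent_le (by linarith) (by linarith)
              _ = 3 + B := Real.rpow_one _
    have h3 : N ^ (-c) * T ^ c = N ^ c := by
      rw [← hNN, Real.mul_rpow hN0.le hN0.le, ← mul_assoc, ← Real.rpow_add hN0]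
      simp
    calc N ^ c + N ^ (-c) * (1 + R) ^ c ≤ N ^ c + N ^ (-c) * ((3 + B) * T ^ c) := by gcongr
      _ = N ^ c + (3 + B) * (N ^ (-c) * T ^ c) := by ring
      _ = (4 + B) * N ^ c := by rw [h3]; ring
  -- the number of blocks
  set J : ℕ := ⌈8 * (Real.log T / Real.log 2)⌉₊ with hJ
  have hlogT : 0 ≤ Real.log T := Real.log_nonneg hT
  have hJ1 : (J : ℝ) ≤ K₁ * T ^ e := by
    have h1 : (J : ℝ) ≤ 8 * (Real.log T / Real.log 2) + 1 :=
      (Nat.ceil_lt_add_one (by positivity)).le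
    have h2 : Real.log T ≤ T ^ e / e := Real.log_le_rpow_div hT0.le he0
    have h3 : 1 ≤ T ^ e := Real.one_le_rpow hT he0.le
    calc (J : ℝ) ≤ 8 * (Real.log T / Real.log 2) + 1 := h1
      _ ≤ 8 * ((T ^ e / e) / Real.log 2) + T ^ e := by gcongr
      _ = K₁ * T ^ e := by
          rw [hK₁]
          field_simp
  have hJ2 : (2 : ℝ) ^ (-(J : ℝ) / 8) ≤ 1 / T := by
    have h1 : 8 * (Real.log T / Real.log 2) ≤ J := Nat.le_ceil _
    have h2 : Real.log T ≤ (J : ℝ) / 8 * Real.log 2 := by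
      have h3 : Real.log T / Real.log 2 ≤ (J : ℝ) / 8 := by linarith
      rwa [div_le_iff₀ hlog2] at h3
    rw [Real.rpow_def_of_pos (by norm_num : (0:ℝ) < 2), one_div, ← Real.exp_log hT0, ← Real.exp_neg]
    apply Real.exp_le_exp.2
    linarith
  -- the lines
  set c : ℕ → ℝ := fun j => if (2 : ℝ) ^ j ≤ N then e else 3 / 4 with hc
  have hc0 : ∀ j, 0 < c j := by
    intro j
    simp only [hc]
    split_ifs
    · exact he0
    · norm_num
  have hc1 : ∀ j, c j ≤ 3 / 4 := by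
    intro j
    simp only [hc]
    split_ifs
    · exact he1
    · exact le_rfl
  have hshift : Continuous fun u : ℝ => v₀ + u := by fun_prop
  have hBc : ∀ κ j, Continuous fun u => zlc_B N κ j (c j) (v₀ + u) := fun κ j =>
    (zlc_B_cont hN0 κ j (hc0 j) (hc1 j)).comp hshift
  have hBL : ∀ κ j, L2B (-H) H (fun u => zlc_B N κ j (c j) (v₀ + u))
      (K₂ * T ^ e * √(2 * H)) := by
    intro κ j
    refine L2B.mono (hA N κ j v₀ (c j) H R hN0 (hc0 j) (hc1 j) (by linarith) hRb) ?_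
    have h1 := hKc (c j) (hc0 j) (hc1 j)
    have h2 := zlc_block_final (X := (2 : ℝ) ^ j) (c := c j) hN1 hTH he0 he1
      (one_le_pow₀ (by norm_num)) rfl
    have h3 : (2 : ℝ) ^ (-(c j * j)) = ((2 : ℝ) ^ j) ^ (-c j) := by
      rw [← Real.rpow_natCast, ← Real.rpow_mul (by norm_num)]
      congr 1
      ring
    have h4 : (2 : ℝ) ^ (j + 1) = 2 * 2 ^ j := by rw [pow_succ]; ring
    rw [h3, h4]
    have hcj := hc0 j
    have h5 : N ^ e ≤ T ^ e := Real.rpow_le_rpow hN0.le hNT he0.le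
    calc A / c j * (N ^ c j + N ^ (-c j) * (1 + R) ^ c j) *
          (5 * √(2 * H + 2 * 2 ^ j) * ((2 : ℝ) ^ j) ^ (-c j))
        ≤ A / c j * ((4 + B) * N ^ c j) * (5 * √(2 * H + 2 * 2 ^ j) * ((2 : ℝ) ^ j) ^ (-c j)) := by
          gcongr
      _ = A * (4 + B) * 5 *
          (1 / c j * N ^ c j * √(2 * H + 2 * 2 ^ j) * ((2 : ℝ) ^ j) ^ (-c j)) := by
          ring
      _ ≤ A * (4 + B) * 5 * (1 / e * N ^ e * (2 * √(2 * H))) := by gcongr
      _ ≤ A * (4 + B) * 5 * (1 / e * T ^ e * (2 * √(2 * H))) := by gcongr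
      _ = K₂ * T ^ e * √(2 * H) := by
          rw [hK₂]
          ring
  have hSc : ∀ κ, Continuous fun u => ∑ j ∈ Finset.range J, zlc_B N κ j (c j) (v₀ + u) :=
    fun κ => continuous_finsetSum _ fun j _ => hBc κ j
  have hSL : ∀ κ, L2B (-H) H (fun u => ∑ j ∈ Finset.range J, zlc_B N κ j (c j) (v₀ + u))
      (J * (K₂ * T ^ e * √(2 * H))) := by
    intro κ
    have h := L2B.sum (A := -H) (B := H) (by linarith) (Finset.range J)
      (f := fun j u => zlc_B N κ j (c j) (v₀ + u)) (M := fun _ => K₂ * T ^ e * √(2 * H))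
      (fun j _ => hBc κ j) (fun j _ => hBL κ j)
    rwa [Finset.sum_const, Finset.card_range, nsmul_eq_mul] at h
  -- the tail
  set tl : ℝ → ℂ := fun u => riemannZeta (1 / 2 + I * ((v₀ + u : ℝ) : ℂ)) -
    ((∑ j ∈ Finset.range J, zlc_B N false j (c j) (v₀ + u)) +
      ∑ j ∈ Finset.range J, zlc_B N true j (c j) (v₀ + u)) with htl
  have hzc : Continuous fun u : ℝ => riemannZeta (1 / 2 + I * ((v₀ + u : ℝ) : ℂ)) := by
    rw [continuous_iff_continuousAt]
    intro u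
    have h3 : ContinuousAt riemannZeta (1 / 2 + I * ((v₀ + u : ℝ) : ℂ)) := by
      apply (differentiableAt_riemannZeta _).continuousAt
      intro h
      have h4 := congrArg Complex.re h
      simp at h4
    exact ContinuousAt.comp (f := fun u : ℝ => (1 / 2 + I * ((v₀ + u : ℝ) : ℂ))) h3 (by fun_prop)
  have htc : Continuous tl := hzc.sub ((hSc false).add (hSc true))
  have htb : ∀ u ∈ Icc (-H) H, ‖tl u‖ ≤ K₃ := by
    intro u hu
    have h1 : ∀ κ, ‖LI (3 / 4) (fun s => zlc_K N κ (v₀ + u) s * riemannZeta (zlc_w κ (v₀ + u) s)) -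
        ∑ j ∈ Finset.range J, zlc_B N κ j (c j) (v₀ + u)‖ ≤ C₁ * (4 + B) := by
      intro κ
      refine (hC N κ J c (v₀ + u) hN1 hc0 hc1).trans ?_
      have h2 : N ^ (3 / 4 : ℝ) + N ^ (-(3 / 4 : ℝ)) * (1 + |v₀ + u|) ^ (3 / 4 : ℝ) ≤
          (4 + B) * N ^ (3 / 4 : ℝ) := by
        refine le_trans ?_ (hKc (3 / 4) (by norm_num) le_rfl)
        have h3 : (1 + |v₀ + u|) ^ (3 / 4 : ℝ) ≤ (1 + R) ^ (3 / 4 : ℝ) :=
          Real.rpow_le_rpow (by positivity) (by linarith [hRb u hu]) (by norm_num)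
        gcongr
      have h4 : N ^ (3 / 4 : ℝ) ≤ T := by
        calc N ^ (3 / 4 : ℝ) ≤ N ^ (1 : ℝ) :=
              Real.rpow_le_rpow_of_exponent_le hN1 (by norm_num)
          _ = N := Real.rpow_one _
          _ ≤ T := hNT
      calc C₁ * (N ^ (3 / 4 : ℝ) + N ^ (-(3 / 4 : ℝ)) * (1 + |v₀ + u|) ^ (3 / 4 : ℝ)) *
            2 ^ (-(J : ℝ) / 8)
          ≤ C₁ * ((4 + B) * T) * (1 / T) := by
            gcongr
            exact h2.trans (by gcongr)
        _ = C₁ * (4 + B) := by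
            field_simp
    have e1 : tl u = (LI (3 / 4) (fun s => zlc_K N false (v₀ + u) s *
          riemannZeta (zlc_w false (v₀ + u) s)) -
          ∑ j ∈ Finset.range J, zlc_B N false j (c j) (v₀ + u)) +
        (LI (3 / 4) (fun s => zlc_K N true (v₀ + u) s * riemannZeta (zlc_w true (v₀ + u) s)) -
          ∑ j ∈ Finset.range J, zlc_B N true j (c j) (v₀ + u)) := by
      rw [htl]
      simp only
      rw [zlc_AFE hN0 (v₀ + u)]
      ring
    rw [e1]
    refine (norm_add_le _ _).trans ?_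
    have := h1 false
    have := h1 true
    rw [hK₃]
    linarith
  have htL := zlc_L2B_const (A := -H) (B := H) (by linarith) htc hK₃0 htb
  have hsum := L2B.add (A := -H) (B := H) (by linarith) ((hSc false).add (hSc true)) htc
    (L2B.add (A := -H) (B := H) (by linarith) (hSc false) (hSc true) (hSL false) (hSL true)) htL
  have e2 : (fun u => ((∑ j ∈ Finset.range J, zlc_B N false j (c j) (v₀ + u)) +
      ∑ j ∈ Finset.range J, zlc_B N true j (c j) (v₀ + u)) + tl u) =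
      fun u => riemannZeta (1 / 2 + I * ((v₀ + u : ℝ) : ℂ)) := by
    funext u
    rw [htl]
    ring
  replace hsum : L2B (-H) H (fun u => riemannZeta (1 / 2 + I * ((v₀ + u : ℝ) : ℂ)))
      (J * (K₂ * T ^ e * √(2 * H)) + J * (K₂ * T ^ e * √(2 * H)) + K₃ * √(H - -H)) := by
    rw [← e2]
    exact hsum
  have hM : J * (K₂ * T ^ e * √(2 * H)) + J * (K₂ * T ^ e * √(2 * H)) + K₃ * √(H - -H) ≤
      K * (T ^ e * T ^ e) * √(2 * H) := by
    have h1 : 1 ≤ T ^ e := Real.one_le_rpow hT he0.le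
    have h2 : 0 ≤ √(2 * H) := Real.sqrt_nonneg _
    rw [show H - -H = 2 * H by ring]
    have h3 : 1 ≤ T ^ e * T ^ e := by nlinarith
    calc J * (K₂ * T ^ e * √(2 * H)) + J * (K₂ * T ^ e * √(2 * H)) + K₃ * √(2 * H)
        = (2 * J * K₂ * T ^ e + K₃) * √(2 * H) := by ring
      _ ≤ (2 * (K₁ * T ^ e) * K₂ * T ^ e + K₃ * (T ^ e * T ^ e)) * √(2 * H) := by
          apply mul_le_mul_of_nonneg_right _ h2
          apply add_le_add
          · gcongr
          · nlinarith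
      _ = (2 * K₁ * K₂ + K₃) * (T ^ e * T ^ e) * √(2 * H) := by ring
      _ ≤ K * (T ^ e * T ^ e) * √(2 * H) := by
          apply mul_le_mul_of_nonneg_right _ h2
          apply mul_le_mul_of_nonneg_right _ (by positivity)
          rw [hK]
          linarith
  have hfin := (L2B.mono hsum hM).2
  have e3 : (fun u : ℝ => ‖riemannZeta (1 / 2 + I * (t + u + a))‖ ^ 2) =
      fun u : ℝ => ‖riemannZeta (1 / 2 + I * ((v₀ + u : ℝ) : ℂ))‖ ^ 2 := by
    funext u
    congr 3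
    rw [hv₀]
    push_cast
    ring
  rw [e3]
  refine hfin.trans ?_
  have h6 : (T ^ e * T ^ e) * (T ^ e * T ^ e) ≤ T ^ ε := by
    rw [← Real.rpow_add hT0, ← Real.rpow_add hT0]
    apply Real.rpow_le_rpow_of_exponent_le hT
    linarith
  calc (K * (T ^ e * T ^ e) * √(2 * H)) ^ 2
      = K ^ 2 * ((T ^ e * T ^ e) * (T ^ e * T ^ e)) * (√(2 * H)) ^ 2 := by ring
    _ = K ^ 2 * ((T ^ e * T ^ e) * (T ^ e * T ^ e)) * (2 * H) := by
        rw [Real.sq_sqrt (by linarith)]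
    _ ≤ K ^ 2 * T ^ ε * (2 * H) := by gcongr

end Pool.Agent.AAS
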