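import Pool.Agent.AAS.VMS
import Pool.Agent.AAS.ZLC
import Pool.Agent.AAS.ZL2

set_option autoImplicit false

namespace Pool.Agent.AAS

open Complex Finset MeasureTheory Filter Topology Set
open Pool.Agent.H26

/-- the blocks for large `Im s` -/
private lemma zlt_large (j : ℕ) {c H : ℝ} (hc : 0 ≤ c) (hH : 1 ≤ H) (z y : ℝ) :
    ∫ u in (-H)..H, ‖zl1P j (1 / 2 + c + I * (z + y + u))‖ ^ 2 ≤
      50 * H * (1 + 2 ^ j) * 2 ^ (-2 * c * j) := by
  have h := large_sieve (Finset.Ico (2 ^ j : ℕ) (2 ^ (j + 1))) (fun n => Real.log n)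
    (δ := 1 / (2:ℝ) ^ (j + 1)) (by positivity) (by
      intro r hr s hs hrs
      rw [Finset.mem_Ico] at hr hs
      exact sep_log hr.1 hr.2 hs.1 hs.2 hrs)
    (fun n => (n : ℂ) ^ (-(1 / 2 + c + I * (z + y)) : ℂ)) (A := -H) (B := H) (by linarith)
  have e1 : ∀ u : ℝ, zl1P j (1 / 2 + c + I * (z + y + u)) =
      ∑ r ∈ Finset.Ico (2 ^ j : ℕ) (2 ^ (j + 1)), (r : ℂ) ^ (-(1 / 2 + c + I * (z + y)) : ℂ) *
        cexp (-(I * (Real.log r : ℝ) * u)) := by
    intro u
    unfold zl1P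
    refine Finset.sum_congr rfl fun n hn => ?_
    have hn0 := zl1_pow_ne hn
    rw [Complex.cpow_def_of_ne_zero hn0, Complex.cpow_def_of_ne_zero hn0, ← Complex.exp_add,
      Complex.natCast_log]
    congr 1
    ring
  simp only [e1]
  refine h.trans ?_
  have h2 : ∀ n ∈ Finset.Ico (2 ^ j : ℕ) (2 ^ (j + 1)),
      ‖(n : ℂ) ^ (-(1 / 2 + c + I * (z + y)) : ℂ)‖ ^ 2 ≤ (2:ℝ) ^ (-(j:ℝ)) * 2 ^ (-2 * c * j) := by
    intro n hn
    have h1 := (Finset.mem_Ico.1 hn).1
    have h3 : (2:ℝ) ^ j ≤ n := by exact_mod_cast h1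
    have h4 : (0:ℝ) < 2 ^ j := by positivity
    have hn0 : (0:ℝ) < n := by linarith
    have h5 : ((n : ℝ) : ℂ) = (n : ℂ) := by simp
    rw [← h5, Complex.norm_cpow_eq_rpow_re_of_pos hn0]
    have e2 : (-(1 / 2 + (c : ℂ) + I * (z + y))).re = -(1 / 2 + c) := by simp
    rw [e2, ← Real.rpow_mul_natCast hn0.le]
    calc (n : ℝ) ^ (-(1 / 2 + c) * ((2 : ℕ) : ℝ)) ≤ ((2:ℝ) ^ j) ^ (-(1 / 2 + c) * ((2 : ℕ) : ℝ)) :=
          Real.rpow_le_rpow_of_nonpos h4 h3 (by push_cast; linarith)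
      _ = _ := by
          rw [← Real.rpow_natCast 2 j, ← Real.rpow_mul (by norm_num), ← Real.rpow_add (by norm_num)]
          congr 1
          push_cast
          ring
  have h3 := Finset.sum_le_sum h2
  rw [Finset.sum_const, Nat.card_Ico, nsmul_eq_mul] at h3
  have e3 : 2 ^ (j + 1) - 2 ^ j = 2 ^ j := by rw [pow_succ]; omega
  rw [e3] at h3
  have e4 : (((2 ^ j : ℕ) : ℝ)) * ((2:ℝ) ^ (-(j:ℝ)) * 2 ^ (-2 * c * j)) = 2 ^ (-2 * c * j) := by
    push_cast
    rw [← mul_assoc, ← Real.rpow_natCast 2 j, ← Real.rpow_add (by norm_num), add_neg_cancel,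
      Real.rpow_zero, one_mul]
  rw [e4] at h3
  have h2j : (0:ℝ) < 2 ^ j := by positivity
  have hp : (0:ℝ) < 2 ^ (-2 * c * j) := by positivity
  have e5 : (H - -H) + 1 / (1 / (2:ℝ) ^ (j + 1)) = 2 * H + 2 * 2 ^ j := by
    rw [one_div_one_div, pow_succ]; ring
  rw [e5]
  calc 25 * (2 * H + 2 * 2 ^ j) * ∑ r ∈ Finset.Ico (2 ^ j : ℕ) (2 ^ (j + 1)),
        ‖(r : ℂ) ^ (-(1 / 2 + c + I * (z + y)) : ℂ)‖ ^ 2
      ≤ 25 * (2 * H + 2 * 2 ^ j) * 2 ^ (-2 * c * j) := by gcongr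
    _ ≤ 25 * (2 * (H * (1 + 2 ^ j))) * 2 ^ (-2 * c * j) := by
        gcongr
        nlinarith
    _ = _ := by ring

/-- the blocks -/
private lemma zlt_block (η A : ℝ) (hη : 0 < η) (hη1 : η ≤ 1) (hA : 1 ≤ A) : ∃ C : ℝ, 1 ≤ C ∧
    ∀ (j : ℕ) (x H c : ℝ), 4 ≤ |x| → 1 ≤ H → |x| ≤ A * H ^ 3 → 0 ≤ c → c ≤ 1 →
    (2:ℝ) ^ j ≤ 2 * |x| ^ 3 → ∀ z : ℝ, |z| = |x| → ∀ y : ℝ,
    ∫ u in (-H)..H, ‖zl1P j (1 / 2 + c + I * (z + y + u))‖ ^ 2 ≤
      C * H * 2 ^ (-2 * c * j) * ((1 + 2 ^ j) ^ η * (1 + 2 ^ j / √|x|)) *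
        Real.exp (y ^ 2 / 2) := by
  obtain ⟨C₀, hC₀1, hC₀⟩ := exists_local_block η hη hη1
  refine ⟨8 * C₀ * A + 20000, by nlinarith, ?_⟩
  intro j x H c hx hH hxH hc hc1 hj z hz y
  have hx0 : 0 < |x| := by linarith
  have hsx : 0 < √|x| := Real.sqrt_pos.2 hx0
  have h2j : (0:ℝ) < 2 ^ j := by positivity
  have hE1 : 1 ≤ Real.exp (y ^ 2 / 2) := Real.one_le_exp (by positivity)
  have hpow : 1 ≤ (1 + (2:ℝ) ^ j) ^ η := Real.one_le_rpow (by linarith) hη.le
  have hcp : (0:ℝ) < 2 ^ (-2 * c * j) := by positivity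
  have hfac : 1 ≤ (1 + (2:ℝ) ^ j) ^ η * (1 + 2 ^ j / √|x|) := by
    have : 0 ≤ (2:ℝ) ^ j / √|x| := by positivity
    nlinarith
  rcases le_or_gt |y| (|x| / 2) with hy | hy
  · -- small `y`
    have h1 : |x| / 2 ≤ |z + y| := by
      have h := abs_sub_abs_le_abs_sub z (-y)
      rw [abs_neg, sub_neg_eq_add, hz] at h
      linarith
    have h2 : |z + y| ≤ 3 / 2 * |x| := by
      have h := abs_add_le z y
      rw [hz] at h
      linarith
    have h := hC₀ j (z + y) H c (by linarith) hH hc hc1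
    have e1 : ∀ u : ℝ, zl1P j (1 / 2 + c + I * (z + y + u)) =
        ∑ n ∈ Finset.Ico (2 ^ j : ℕ) (2 ^ (j + 1)),
          (n : ℂ) ^ (-(1 / 2 + c + I * (((z + y : ℝ) : ℂ) + u))) := by
      intro u
      unfold zl1P
      refine Finset.sum_congr rfl fun n _ => ?_
      push_cast
      rfl
    simp only [e1]
    refine h.trans ?_
    have hb1 : √|z + y| * H ^ (-(3 / 2) : ℝ) ≤ 2 * A := by
      have h3 : √|z + y| ≤ √(4 * A ^ 2 * H ^ 3) := by
        apply Real.sqrt_le_sqrt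
        have : 0 < H ^ 3 := by positivity
        nlinarith
      have h4 : √(4 * A ^ 2 * H ^ 3) = 2 * A * H ^ (3 / 2 : ℝ) := by
        rw [show 4 * A ^ 2 * H ^ 3 = (2 * A) ^ 2 * H ^ 3 by ring, Real.sqrt_mul (by positivity),
          Real.sqrt_sq (by linarith), Real.sqrt_eq_rpow, ← Real.rpow_natCast H 3,
          ← Real.rpow_mul (by linarith)]
        norm_num
      rw [h4] at h3
      have hH0 : 0 < H := by linarith
      calc √|z + y| * H ^ (-(3 / 2) : ℝ) ≤ (2 * A * H ^ (3 / 2 : ℝ)) * H ^ (-(3 / 2) : ℝ) := by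
            gcongr
        _ = 2 * A * (H ^ (3 / 2 : ℝ) * H ^ (-(3 / 2) : ℝ)) := by ring
        _ = 2 * A := by rw [← Real.rpow_add hH0]; norm_num
    have hb2 : (√|z + y|)⁻¹ ≤ 2 * (√|x|)⁻¹ := by
      have h3 : √|x| / 2 ≤ √|z + y| := by
        have e : √|x| / 2 = √(|x| / 4) := by
          rw [Real.sqrt_div' _ (by norm_num)]
          have : √(4:ℝ) = 2 := by
            rw [show (4:ℝ) = 2 ^ 2 by norm_num, Real.sqrt_sq (by norm_num)]
          rw [this]
        rw [e]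
        apply Real.sqrt_le_sqrt
        linarith
      calc (√|z + y|)⁻¹ ≤ (√|x| / 2)⁻¹ := inv_anti₀ (by positivity) h3
        _ = _ := by rw [inv_div]; ring
    have hb3 : (√H)⁻¹ ≤ 1 := inv_le_one_of_one_le₀ (Real.one_le_sqrt.2 hH)
    have hb4 : (1 + (2:ℝ) ^ j / H) ^ η ≤ (1 + 2 ^ j) ^ η := by
      have : (2:ℝ) ^ j / H ≤ 2 ^ j := div_le_self h2j.le hH
      gcongr
    have hb5 : √|z + y| * H ^ (-(3 / 2) : ℝ) + 2 ^ j * (√|z + y|)⁻¹ * (√H)⁻¹ ≤
        2 * A * (1 + 2 ^ j / √|x|) := by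
      have h6 : 2 ^ j * (√|z + y|)⁻¹ * (√H)⁻¹ ≤ 2 ^ j * (2 * (√|x|)⁻¹) * 1 := by gcongr
      have h7 : (2:ℝ) ^ j * (2 * (√|x|)⁻¹) * 1 = 2 * (2 ^ j / √|x|) := by
        rw [div_eq_mul_inv]; ring
      have h8 : 0 ≤ (2:ℝ) ^ j / √|x| := by positivity
      nlinarith
    have hH0 : 0 < H := by linarith
    have hn0 : 0 ≤ √|z + y| * H ^ (-(3 / 2) : ℝ) + 2 ^ j * (√|z + y|)⁻¹ * (√H)⁻¹ := by positivity
    calc C₀ * H * 2 ^ (-2 * c * j) * (1 + (1 + 2 ^ j / H) ^ η *
          (√|z + y| * H ^ (-(3 / 2) : ℝ) + 2 ^ j * (√|z + y|)⁻¹ * (√H)⁻¹))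
        ≤ C₀ * H * 2 ^ (-2 * c * j) * ((1 + (2:ℝ) ^ j) ^ η * (1 + 2 ^ j / √|x|) +
            (1 + 2 ^ j) ^ η * (2 * A * (1 + 2 ^ j / √|x|))) := by gcongr
      _ = C₀ * (1 + 2 * A) * H * 2 ^ (-2 * c * j) *
            ((1 + 2 ^ j) ^ η * (1 + 2 ^ j / √|x|)) * 1 := by ring
      _ ≤ (8 * C₀ * A + 20000) * H * 2 ^ (-2 * c * j) *
            ((1 + 2 ^ j) ^ η * (1 + 2 ^ j / √|x|)) * Real.exp (y ^ 2 / 2) := by
          gcongr
          nlinarith
  · -- large `y`
    refine (zlt_large j hc hH z y).trans ?_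
    have h1 : 1 + (2:ℝ) ^ j ≤ 384 * Real.exp (y ^ 2 / 2) := by
      have h2 : |x| ^ 2 / 8 ≤ y ^ 2 / 2 := by
        have h3 : (|x| / 2) ^ 2 ≤ |y| ^ 2 := by gcongr
        rw [sq_abs y] at h3
        nlinarith
      have h3 : (|x| ^ 2 / 8) ^ 2 / 2 ≤ Real.exp (|x| ^ 2 / 8) := by
        have := Real.pow_div_factorial_le_exp (|x| ^ 2 / 8) (by positivity) 2
        simpa using this
      have h4 : Real.exp (|x| ^ 2 / 8) ≤ Real.exp (y ^ 2 / 2) := Real.exp_le_exp.2 h2
      have h5 : 1 + 2 * |x| ^ 3 ≤ 384 * ((|x| ^ 2 / 8) ^ 2 / 2) := by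
        have h6 : 1 ≤ |x| ^ 3 := one_le_pow₀ (by linarith)
        have h7 : 0 < |x| ^ 3 := by positivity
        nlinarith
      linarith
    have hH0 : 0 < H := by linarith
    have hn : 0 ≤ 50 * H * 2 ^ (-2 * c * j) := by positivity
    calc 50 * H * (1 + 2 ^ j) * 2 ^ (-2 * c * j)
        ≤ 50 * H * (384 * Real.exp (y ^ 2 / 2)) * 2 ^ (-2 * c * j) := by gcongr
      _ = 19200 * H * 2 ^ (-2 * c * j) * 1 * Real.exp (y ^ 2 / 2) := by ring
      _ ≤ (8 * C₀ * A + 20000) * H * 2 ^ (-2 * c * j) *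
            ((1 + 2 ^ j) ^ η * (1 + 2 ^ j / √|x|)) * Real.exp (y ^ 2 / 2) := by
          gcongr
          nlinarith

/-- the local second moment of zeta for windows of length at least `T^(1/3)`.  With `x = t + a`:
if `|x| ≤ 4 H`, `localBound_half` (window `[-5H, 5H]`).  Otherwise `N = √|x|` in
`zeta_single_AFE`, blocks as in `localBound_half`, lines `ε` for `2^j ≤ N` and `3/4` for
`2^j > N`; the block with `Im s = y`, `|y| ≤ |x|/2` by `exists_local_block` at `x + y`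
(`|x| ≤ (1 + B) H^3`, so that `√|x| H^(-3/2) ≤ √(1 + B)`), for `|y| > |x|/2` by `large_sieve`
(or trivially) and `e^{-y²}`. -/
theorem localBound_third : LocalBound (1 / 3) := by
  intro B ε hB hε
  set e : ℝ := min (ε / 16) (1 / 2) with he
  have he0 : 0 < e := lt_min (by positivity) (by norm_num)
  have he1 : e ≤ ε / 16 := min_le_left _ _
  have he2 : e ≤ 1 / 2 := min_le_right _ _
  set A : ℝ := 1 + B with hA
  have hA1 : 1 ≤ A := by linarith
  obtain ⟨C₁, hC₁1, hC₁⟩ := exists_zeta_blocks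
  obtain ⟨C₂, hC₂1, hC₂⟩ := exists_zl1_L2
  obtain ⟨C₃, hC₃1, hC₃⟩ := zlt_block e A he0 (by linarith) hA1
  obtain ⟨C₄, hC₄1, hC₄⟩ := localBound_half 0 ε le_rfl hε
  set C₆ : ℝ := 12 / e * (C₂ / e * √(8 * C₃)) + 2 * C₁ with hC₆
  have hC₆0 : 0 ≤ C₆ := by positivity
  refine ⟨5 * 5 ^ ε * C₄ + C₆ ^ 2 * A ^ ε + 1, by
    have h1 : 0 ≤ 5 * 5 ^ ε * C₄ := by positivity
    have h2 : 0 ≤ C₆ ^ 2 * A ^ ε := by positivity
    linarith, fun T H hT hTH hHT a ha t ht => ?_⟩
  have hT0 : 0 < T := by linarith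
  have hTε : 0 < T ^ ε := by positivity
  have hH1 : 1 ≤ H := (Real.one_le_rpow hT (by norm_num)).trans hTH
  have hH0 : 0 < H := by linarith
  set x : ℝ := t + a with hx
  set F : ℝ → ℝ := fun v => ‖riemannZeta (1 / 2 + I * v)‖ ^ 2 with hF
  have hζc : Continuous fun v : ℝ => riemannZeta (1 / 2 + I * v) := by
    rw [continuous_iff_continuousAt]
    intro v
    have hne : (1 / 2 + I * v : ℂ) ≠ 1 := by
      intro h
      have := congrArg Complex.re h
      simp at this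
    exact ContinuousAt.comp (f := fun v : ℝ => (1 / 2 + I * v : ℂ))
      (differentiableAt_riemannZeta hne).continuousAt (by fun_prop)
  have hFc : Continuous F := hζc.norm.pow 2
  have hF0 : ∀ v, 0 ≤ F v := fun v => by simp only [hF]; positivity
  have hint : ∫ u in (-H)..H, ‖riemannZeta (1 / 2 + I * (t + u + a))‖ ^ 2 =
      ∫ u in (-H)..H, F (x + u) := by
    congr 1
    funext u
    simp only [hF, hx]
    congr 3
    push_cast
    ring
  rw [hint]
  rcases le_or_gt |x| (4 * H) with hx4 | hx4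
  · -- low heights
    have h1 : ∫ u in (-H)..H, F (x + u) = ∫ v in (x + -H)..(x + H), F v :=
      intervalIntegral.integral_comp_add_left F x
    have hx' := abs_le.1 hx4
    have h2 : ∫ v in (x + -H)..(x + H), F v ≤ ∫ v in (-(5 * H))..(5 * H), F v :=
      intervalIntegral.integral_mono_interval (by linarith) (by linarith) (by linarith)
        (Eventually.of_forall hF0) (hFc.intervalIntegrable _ _)
    have h3 := hC₄ (5 * H) (5 * H) (by linarith) (by
      calc (5 * H) ^ (1 / 2 : ℝ) ≤ (5 * H) ^ (1 : ℝ) :=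
            Real.rpow_le_rpow_of_exponent_le (by linarith) (by norm_num)
        _ = 5 * H := Real.rpow_one _) le_rfl 0 (by simp) 0 (by rw [abs_zero]; positivity)
    have h4 : ∫ u in (-(5 * H))..(5 * H),
        ‖riemannZeta (1 / 2 + I * (((0 : ℝ) : ℂ) + u + ((0 : ℝ) : ℂ)))‖ ^ 2 =
        ∫ v in (-(5 * H))..(5 * H), F v := by
      congr 1
      funext u
      simp only [hF]
      congr 3
      push_cast
      ring
    rw [h4] at h3
    rw [h1]
    refine (h2.trans h3).trans ?_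
    have h5 : (5 * H) ^ ε ≤ 5 ^ ε * T ^ ε := by
      rw [← Real.mul_rpow (by norm_num) hT0.le]
      gcongr
    have h6 : 0 ≤ C₆ ^ 2 * A ^ ε + 1 := by positivity
    calc C₄ * (5 * H) ^ ε * (2 * (5 * H)) ≤ C₄ * (5 ^ ε * T ^ ε) * (2 * (5 * H)) := by gcongr
      _ = (5 * 5 ^ ε * C₄) * (T ^ ε * (2 * H)) := by ring
      _ ≤ (5 * 5 ^ ε * C₄ + (C₆ ^ 2 * A ^ ε + 1)) * (T ^ ε * (2 * H)) := by
          gcongr
          linarith
      _ = _ := by ring
  · -- large heights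
    have hX4 : 4 ≤ |x| := by linarith
    have hX0 : 0 < |x| := by linarith
    have hX1 : 1 ≤ |x| := by linarith
    have hTH3 : T ≤ H ^ 3 := by
      have h := pow_le_pow_left₀ (by positivity) hTH 3
      rwa [← Real.rpow_natCast, ← Real.rpow_mul hT0.le, show (1 / 3 : ℝ) * ((3 : ℕ) : ℝ) = 1 by
        norm_num, Real.rpow_one] at h
    have hxT : |x| ≤ A * T := by
      have : |x| ≤ T + B := (abs_add_le t a).trans (add_le_add ht ha)
      nlinarith
    have hxH : |x| ≤ A * H ^ 3 := hxT.trans (by gcongr)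
    set N : ℝ := √|x| with hN
    have hN2 : N ^ 2 = |x| := Real.sq_sqrt hX0.le
    have hN1 : 1 ≤ N := Real.one_le_sqrt.2 hX1
    have hN0 : 0 < N := by linarith
    obtain ⟨n, hn1, hn2⟩ := exists_nat_pow_near (x := |x| ^ 3) (y := 2) (one_le_pow₀ hX1)
      (by norm_num)
    set J : ℕ := n + 1 with hJ
    set c : ℕ → ℝ := fun j => if (2:ℝ) ^ j ≤ N then e else 3 / 4 with hc
    have hc0 : ∀ j, 0 < c j := by
      intro j
      simp only [hc]
      split_ifs <;> [exact he0; norm_num]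
    have hc1 : ∀ j, c j ≤ 3 / 4 := by
      intro j
      simp only [hc]
      split_ifs <;> [linarith; norm_num]
    have hce : ∀ j, e ≤ c j := by
      intro j
      simp only [hc]
      split_ifs <;> [exact le_rfl; linarith]
    set W : ℝ := C₂ / e * √(8 * C₃) * (√H * |x| ^ (3 / 2 * e)) with hW
    have hW0 : 0 ≤ W := by positivity
    have hjle : ∀ j ∈ Finset.range J, (2:ℝ) ^ j ≤ |x| ^ 3 := by
      intro j hj
      rw [Finset.mem_range] at hj
      exact (pow_le_pow_right₀ (by norm_num) (by omega)).trans hn1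
    -- one block
    have hblock : ∀ κ : Bool, ∀ j ∈ Finset.range J,
        L2B (-H) H (fun u => zl1F κ N (c j) j (x + u)) W := by
      intro κ j hj
      have hj3 := hjle j hj
      have h2j : (0:ℝ) < 2 ^ j := by positivity
      have h2j1 : (1:ℝ) ≤ 2 ^ j := one_le_pow₀ (by norm_num)
      set q : ℝ := √(C₃ * H * 2 ^ (-2 * c j * j) * ((1 + 2 ^ j) ^ e * (1 + 2 ^ j / √|x|))) with hq
      have hq0 : 0 < q := Real.sqrt_pos.2 (by positivity)
      have hq2 : q ^ 2 = C₃ * H * 2 ^ (-2 * c j * j) * ((1 + 2 ^ j) ^ e * (1 + 2 ^ j / √|x|)) :=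
        Real.sq_sqrt (by positivity)
      have h := hC₂ κ N (c j) x H q j hN1 (hc0 j) (hc1 j) hH0 (by rw [hN2]; linarith) hq0 (by
        intro z hz y
        have h5 := hC₃ j x H (c j) hX4 hH1 hxH (hc0 j).le (by linarith [hc1 j])
          (by linarith [pow_pos hX0 3]) z hz y
        refine h5.trans (le_of_eq ?_)
        rw [mul_pow, hq2, ← Real.exp_nat_mul]
        congr 2
        push_cast
        ring)
      refine L2B.mono h ?_
      -- the numbers
      have hkey : (N ^ c j * q) ^ 2 ≤ 8 * C₃ * (H * |x| ^ (3 * e)) := by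
        have hNc : (N ^ c j) ^ 2 = |x| ^ c j := by
          rw [← hN2, ← Real.rpow_natCast, ← Real.rpow_natCast, ← Real.rpow_mul hN0.le,
            ← Real.rpow_mul hN0.le, mul_comm]
        rw [mul_pow, hNc, hq2, ← hN]
        by_cases hjN : (2:ℝ) ^ j ≤ N
        · have hcj : c j = e := by simp only [hc]; rw [if_pos hjN]
          rw [hcj]
          have a1 : (2:ℝ) ^ (-2 * e * j) ≤ 1 :=
            Real.rpow_le_one_of_one_le_of_nonpos (by norm_num)
              (by have : (0:ℝ) ≤ j := Nat.cast_nonneg j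
                  nlinarith [mul_nonneg he0.le this])
          have a2 : (1 + (2:ℝ) ^ j) ^ e ≤ 2 * |x| ^ e := by
            have b1 : 1 + (2:ℝ) ^ j ≤ 2 * |x| := by nlinarith
            calc (1 + (2:ℝ) ^ j) ^ e ≤ (2 * |x|) ^ e := by gcongr
              _ = 2 ^ e * |x| ^ e := Real.mul_rpow (by norm_num) hX0.le
              _ ≤ 2 ^ (1:ℝ) * |x| ^ e := by
                  gcongr
                  · norm_num
                  · linarith
              _ = _ := by rw [Real.rpow_one]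
          have a3 : 1 + (2:ℝ) ^ j / N ≤ 2 := by
            have : (2:ℝ) ^ j / N ≤ 1 := (div_le_one hN0).2 hjN
            linarith
          calc |x| ^ e * (C₃ * H * 2 ^ (-2 * e * j) * ((1 + 2 ^ j) ^ e * (1 + 2 ^ j / N)))
              ≤ |x| ^ e * (C₃ * H * 1 * ((2 * |x| ^ e) * 2)) := by gcongr
            _ = 4 * C₃ * (H * (|x| ^ e * |x| ^ e)) := by ring
            _ = 4 * C₃ * (H * |x| ^ (2 * e)) := by
                rw [← Real.rpow_add hX0]; congr 3; ring
            _ ≤ 8 * C₃ * (H * |x| ^ (3 * e)) := by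
                have : |x| ^ (2 * e) ≤ |x| ^ (3 * e) :=
                  Real.rpow_le_rpow_of_exponent_le hX1 (by linarith)
                gcongr
                norm_num
        · have hcj : c j = 3 / 4 := by simp only [hc]; rw [if_neg hjN]
          rw [hcj]
          rw [not_le] at hjN
          have a1 : |x| ^ (3 / 4 : ℝ) * (2:ℝ) ^ (-2 * (3 / 4) * (j:ℝ)) * (1 + 2 ^ j / N) ≤ 2 := by
            have b1 : 1 + (2:ℝ) ^ j / N ≤ 2 * (2 ^ j / N) := by
              have : 1 ≤ (2:ℝ) ^ j / N := (one_le_div hN0).2 hjN.le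
              linarith
            have b2 : |x| ^ (3 / 4 : ℝ) = N ^ (3 / 2 : ℝ) := by
              rw [← hN2, ← Real.rpow_natCast, ← Real.rpow_mul hN0.le]
              norm_num
            have b3 : (2:ℝ) ^ (-2 * (3 / 4) * (j:ℝ)) = ((2:ℝ) ^ j) ^ (-(3 / 2) : ℝ) := by
              rw [← Real.rpow_natCast 2 j, ← Real.rpow_mul (by norm_num)]
              congr 1
              ring
            rw [b2, b3]
            calc N ^ (3 / 2 : ℝ) * ((2:ℝ) ^ j) ^ (-(3 / 2) : ℝ) * (1 + 2 ^ j / N)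
                ≤ N ^ (3 / 2 : ℝ) * ((2:ℝ) ^ j) ^ (-(3 / 2) : ℝ) * (2 * (2 ^ j / N)) := by gcongr
              _ = 2 * ((N ^ (3 / 2 : ℝ) * N⁻¹) * (((2:ℝ) ^ j) ^ (-(3 / 2) : ℝ) * 2 ^ j)) := by
                  rw [div_eq_mul_inv]; ring
              _ = 2 * (N ^ (1 / 2 : ℝ) * ((2:ℝ) ^ j) ^ (-(1 / 2) : ℝ)) := by
                  have d1 : N ^ (3 / 2 : ℝ) * N⁻¹ = N ^ (1 / 2 : ℝ) := by
                    rw [← Real.rpow_neg_one, ← Real.rpow_add hN0]; norm_num
                  have d2 : ((2:ℝ) ^ j) ^ (-(3 / 2) : ℝ) * 2 ^ j = ((2:ℝ) ^ j) ^ (-(1 / 2) : ℝ) := by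
                    nth_rewrite 2 [← Real.rpow_one ((2:ℝ) ^ j)]
                    rw [← Real.rpow_add h2j]; norm_num
                  rw [d1, d2]
              _ ≤ 2 * (((2:ℝ) ^ j) ^ (1 / 2 : ℝ) * ((2:ℝ) ^ j) ^ (-(1 / 2) : ℝ)) := by gcongr
              _ = 2 := by
                  rw [← Real.rpow_add h2j, show (1 / 2 : ℝ) + -(1 / 2) = 0 by norm_num,
                    Real.rpow_zero, mul_one]
          have a2 : (1 + (2:ℝ) ^ j) ^ e ≤ 2 * |x| ^ (3 * e) := by
            have b1 : 1 + (2:ℝ) ^ j ≤ 2 * |x| ^ 3 := by linarith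
            calc (1 + (2:ℝ) ^ j) ^ e ≤ (2 * |x| ^ 3) ^ e := by gcongr
              _ = 2 ^ e * (|x| ^ 3) ^ e := Real.mul_rpow (by norm_num) (by positivity)
              _ = 2 ^ e * |x| ^ (3 * e) := by
                  rw [← Real.rpow_natCast |x| 3, ← Real.rpow_mul hX0.le]
                  norm_num
              _ ≤ 2 ^ (1:ℝ) * |x| ^ (3 * e) := by
                  gcongr
                  · norm_num
                  · linarith
              _ = _ := by rw [Real.rpow_one]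
          calc |x| ^ (3 / 4 : ℝ) * (C₃ * H * 2 ^ (-2 * (3 / 4) * (j:ℝ)) *
                ((1 + 2 ^ j) ^ e * (1 + 2 ^ j / N)))
              = C₃ * H * (1 + 2 ^ j) ^ e * (|x| ^ (3 / 4 : ℝ) *
                (2:ℝ) ^ (-2 * (3 / 4) * (j:ℝ)) * (1 + 2 ^ j / N)) := by ring
            _ ≤ C₃ * H * (2 * |x| ^ (3 * e)) * 2 := by gcongr
            _ = 4 * C₃ * (H * |x| ^ (3 * e)) := by ring
            _ ≤ 8 * C₃ * (H * |x| ^ (3 * e)) := by gcongr; norm_num
      have hkey2 : N ^ c j * q ≤ √(8 * C₃) * (√H * |x| ^ (3 / 2 * e)) := by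
        have h7 : N ^ c j * q ≤ √(8 * C₃ * (H * |x| ^ (3 * e))) :=
          Real.le_sqrt_of_sq_le hkey
        refine h7.trans (le_of_eq ?_)
        rw [Real.sqrt_mul (by positivity), Real.sqrt_mul hH0.le]
        congr 2
        rw [Real.sqrt_eq_rpow, ← Real.rpow_mul hX0.le]
        congr 1
        ring
      have hNcq : 0 ≤ N ^ c j * q := by positivity
      calc C₂ / c j * N ^ c j * q = C₂ / c j * (N ^ c j * q) := by ring
        _ ≤ C₂ / e * (√(8 * C₃) * (√H * |x| ^ (3 / 2 * e))) := by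
            have := hce j
            gcongr
        _ = W := by rw [hW]; ring
    -- the error
    set S : ℝ → ℂ := fun u => ∑ κ : Bool, ∑ j ∈ Finset.range J, zl1F κ N (c j) j (x + u) with hS
    have hcont : ∀ κ : Bool, ∀ j, Continuous fun u : ℝ => zl1F κ N (c j) j (x + u) := fun κ j =>
      (continuous_zl1F κ hN1 (hc0 j) (hc1 j) j).comp (by fun_prop)
    have hSc : Continuous S := continuous_finsetSum _ fun κ _ =>
      continuous_finsetSum _ fun j _ => hcont κ j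
    have hζx : Continuous fun u : ℝ => riemannZeta (1 / 2 + I * ((x + u : ℝ) : ℂ)) :=
      hζc.comp (by fun_prop : Continuous fun u : ℝ => x + u)
    have hS2 : L2B (-H) H S (2 * (J * W)) := by
      have h1 : ∀ κ : Bool, L2B (-H) H
          (fun u => ∑ j ∈ Finset.range J, zl1F κ N (c j) j (x + u)) (J * W) := by
        intro κ
        have h := L2B.sum (by linarith : -H ≤ H) (Finset.range J)
          (f := fun j u => zl1F κ N (c j) j (x + u)) (M := fun _ => W)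
          (fun j _ => hcont κ j) (fun j hj => hblock κ j hj)
        rwa [Finset.sum_const, Finset.card_range, nsmul_eq_mul] at h
      have h := L2B.sum (by linarith : -H ≤ H) (Finset.univ : Finset Bool)
          (f := fun κ u => ∑ j ∈ Finset.range J, zl1F κ N (c j) j (x + u)) (M := fun _ => J * W)
          (fun κ _ => continuous_finsetSum _ fun j _ => hcont κ j) (fun κ _ => h1 κ)
      rwa [Finset.sum_const, Finset.card_univ, Fintype.card_bool, nsmul_eq_mul,
        Nat.cast_ofNat] at h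
    have herr : ∀ u ∈ Icc (-H) H, ‖riemannZeta (1 / 2 + I * ((x + u : ℝ) : ℂ)) - S u‖ ≤ C₁ := by
      intro u hu
      have hu' : |u| ≤ H := abs_le.2 hu
      have h := hC₁ N (x + u) J hN1 (by
        rw [hN2]
        exact (abs_add_le x u).trans (by linarith))
      have e1 : S u = ∑ κ : Bool, ∑ j ∈ Finset.range J, zl1F κ N (3 / 4) j (x + u) := by
        simp only [hS]
        refine Finset.sum_congr rfl fun κ _ => Finset.sum_congr rfl fun j _ => ?_
        exact (zl1F_shift κ hN1 j (x + u) (hc0 j) (hc1 j)).symm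
      rw [e1]
      refine h.trans ?_
      have h2 : N ^ (3 / 4 : ℝ) * (2:ℝ) ^ (-(J : ℝ) / 8) ≤ 1 := by
        have e2 : (2:ℝ) ^ (-(J : ℝ) / 8) = ((2:ℝ) ^ J) ^ (-(1 / 8) : ℝ) := by
          rw [← Real.rpow_natCast 2 J, ← Real.rpow_mul (by norm_num)]
          congr 1
          ring
        have e3 : N ^ (3 / 4 : ℝ) = (|x| ^ 3) ^ (1 / 8 : ℝ) := by
          rw [← hN2, ← Real.rpow_natCast, ← Real.rpow_natCast, ← Real.rpow_mul hN0.le,
            ← Real.rpow_mul hN0.le]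
          norm_num
        have h3 : (0:ℝ) < |x| ^ 3 := by positivity
        rw [e2, e3]
        calc (|x| ^ 3) ^ (1 / 8 : ℝ) * ((2:ℝ) ^ J) ^ (-(1 / 8) : ℝ)
            ≤ (|x| ^ 3) ^ (1 / 8 : ℝ) * (|x| ^ 3) ^ (-(1 / 8) : ℝ) := by
              gcongr ?_ * ?_
              exact Real.rpow_le_rpow_of_nonpos h3 hn2.le (by norm_num)
          _ = 1 := by
              rw [← Real.rpow_add h3, show (1 / 8 : ℝ) + -(1 / 8) = 0 by norm_num, Real.rpow_zero]
      calc C₁ * (N ^ (3 / 4 : ℝ) * (2:ℝ) ^ (-(J : ℝ) / 8)) ≤ C₁ * 1 := by gcongr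
        _ = C₁ := mul_one _
    have hE2 : L2B (-H) H (fun u => riemannZeta (1 / 2 + I * ((x + u : ℝ) : ℂ)) - S u)
        (2 * C₁ * √H) := by
      refine ⟨by positivity, ?_⟩
      have hEc : Continuous fun u : ℝ =>
          ‖riemannZeta (1 / 2 + I * ((x + u : ℝ) : ℂ)) - S u‖ ^ 2 := ((hζx.sub hSc).norm).pow 2
      calc ∫ u in (-H)..H, ‖riemannZeta (1 / 2 + I * ((x + u : ℝ) : ℂ)) - S u‖ ^ 2
          ≤ ∫ _u in (-H)..H, C₁ ^ 2 :=
            intervalIntegral.integral_mono_on (by linarith) (hEc.intervalIntegrable _ _)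
              (continuous_const.intervalIntegrable _ _)
              (fun u hu => pow_le_pow_left₀ (norm_nonneg _) (herr u hu) 2)
        _ = 2 * H * C₁ ^ 2 := by
            rw [intervalIntegral.integral_const, smul_eq_mul]; ring
        _ ≤ (2 * C₁ * √H) ^ 2 := by
            rw [mul_pow, mul_pow, Real.sq_sqrt hH0.le]
            have : 0 ≤ C₁ ^ 2 * H := by positivity
            nlinarith
    have htot := L2B.add (by linarith : -H ≤ H) hSc (hζx.sub hSc) hS2 hE2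
    have e5 : (fun u : ℝ => S u + (riemannZeta (1 / 2 + I * ((x + u : ℝ) : ℂ)) - S u)) =
        fun u : ℝ => riemannZeta (1 / 2 + I * ((x + u : ℝ) : ℂ)) := by
      funext u; ring
    have htot2 : L2B (-H) H (fun u : ℝ => riemannZeta (1 / 2 + I * ((x + u : ℝ) : ℂ)))
        (2 * (J * W) + 2 * C₁ * √H) := by
      rw [← e5]
      exact htot
    have hJle : (J : ℝ) ≤ 6 / e * |x| ^ e := by
      have h1 : (n : ℝ) * Real.log 2 ≤ 3 * Real.log |x| := by
        have h := Real.log_le_log (by positivity) hn1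
        rw [Real.log_pow, Real.log_pow] at h
        exact_mod_cast h
      have h2 := Real.log_le_rpow_div hX0.le he0
      have h3 : (0.6931471803 : ℝ) < Real.log 2 := Real.log_two_gt_d9
      have h4 : (n : ℝ) ≤ 5 * (|x| ^ e / e) := by
        have h5 : 0 ≤ |x| ^ e / e := by positivity
        by_contra hcon
        rw [not_le] at hcon
        have h6 : (n : ℝ) * Real.log 2 > 5 * (|x| ^ e / e) * 0.69 := by
          have : 0 < (n : ℝ) := by linarith
          nlinarith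
        nlinarith
      have h5 : 1 ≤ |x| ^ e := Real.one_le_rpow hX1 he0.le
      have h6 : 1 ≤ |x| ^ e / e := by
        rw [le_div_iff₀ he0]
        linarith
      rw [hJ]
      push_cast
      calc (n : ℝ) + 1 ≤ 5 * (|x| ^ e / e) + |x| ^ e / e := add_le_add h4 h6
        _ = _ := by ring
    have hM : 2 * (J * W) + 2 * C₁ * √H ≤ C₆ * (√H * |x| ^ (5 / 2 * e)) := by
      have h1 : |x| ^ (5 / 2 * e) = |x| ^ e * |x| ^ (3 / 2 * e) := by
        rw [← Real.rpow_add hX0]; congr 1; ring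
      have h2 : 1 ≤ |x| ^ (5 / 2 * e) := Real.one_le_rpow hX1 (by positivity)
      have h3 : (J : ℝ) * W ≤ (6 / e * |x| ^ e) * W := by gcongr
      have h4 : 2 * C₁ * √H ≤ 2 * C₁ * √H * |x| ^ (5 / 2 * e) := by
        have : 0 ≤ 2 * C₁ * √H := by positivity
        nlinarith
      calc 2 * (J * W) + 2 * C₁ * √H
          ≤ 2 * ((6 / e * |x| ^ e) * W) + 2 * C₁ * √H * |x| ^ (5 / 2 * e) := by linarith
        _ = _ := by rw [hC₆, hW, h1]; ring
    have hfin : ∫ u in (-H)..H, F (x + u) ≤ (2 * (J * W) + 2 * C₁ * √H) ^ 2 := htot2.2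
    refine hfin.trans ?_
    have hM0 : 0 ≤ 2 * (J * W) + 2 * C₁ * √H := htot2.1
    have hsq := pow_le_pow_left₀ hM0 hM 2
    refine hsq.trans ?_
    have h8 : (C₆ * (√H * |x| ^ (5 / 2 * e))) ^ 2 = C₆ ^ 2 * (H * |x| ^ (5 * e)) := by
      rw [mul_pow, mul_pow, Real.sq_sqrt hH0.le, ← Real.rpow_mul_natCast hX0.le]
      congr 3
      push_cast
      ring
    have h9 : |x| ^ (5 * e) ≤ A ^ ε * T ^ ε := by
      calc |x| ^ (5 * e) ≤ |x| ^ ε := Real.rpow_le_rpow_of_exponent_le hX1 (by linarith)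
        _ ≤ (A * T) ^ ε := by gcongr
        _ = _ := Real.mul_rpow (by linarith) hT0.le
    rw [h8]
    have h10 : 0 ≤ 5 * 5 ^ ε * C₄ + 1 := by positivity
    have h11 : 0 ≤ C₆ ^ 2 * A ^ ε * T ^ ε * H := by positivity
    have h12 : 0 ≤ (5 * 5 ^ ε * C₄ + 1) * (T ^ ε * (2 * H)) := by positivity
    calc C₆ ^ 2 * (H * |x| ^ (5 * e)) ≤ C₆ ^ 2 * (H * (A ^ ε * T ^ ε)) := by gcongr
      _ = C₆ ^ 2 * A ^ ε * T ^ ε * H := by ring
      _ ≤ 2 * (C₆ ^ 2 * A ^ ε * T ^ ε * H) := by linarith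
      _ = C₆ ^ 2 * A ^ ε * (T ^ ε * (2 * H)) := by ring
      _ ≤ _ := by linarith

end Pool.Agent.AAS
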