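import Pool.Agent.AAS.GWS
import Pool.Agent.AAS.WSM
import Pool.Agent.AAS.ZLT
import Pool.Agent.AAS.CTS
import Pool.Agent.AAS.TEL
import Pool.Agent.AAS.SHR

set_option autoImplicit false

namespace Pool.Agent.AAS

open Complex Finset MeasureTheory Filter Topology Set
open Pool.Agent.H26

private noncomputable def bwz (x : ℝ) : ℝ := ‖riemannZeta (1 / 2 + I * x)‖

private theorem bwz_nonneg (x : ℝ) : 0 ≤ bwz x := norm_nonneg _

private theorem bwz_cont : Continuous bwz := by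
  unfold bwz
  refine Continuous.norm ?_
  rw [continuous_iff_continuousAt]
  intro x
  have h1 : (1 / 2 + I * (x : ℂ)) ≠ 1 := by
    intro h
    have := congrArg Complex.re h
    simp at this
  exact ContinuousAt.comp (f := fun y : ℝ => (1 / 2 + I * (y : ℂ)))
    (differentiableAt_riemannZeta h1).continuousAt (by fun_prop)

private theorem bw_pf (a b x : ℝ) : ‖pf a b x‖ = bwz (x + a) * bwz (x + b) := by
  unfold pf bwz
  rw [norm_mul]
  have h : (1 / 2 - I * ((x : ℂ) + b)) = (starRingEnd ℂ) (1 / 2 + I * ((x + b : ℝ) : ℂ)) := by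
    simp only [map_add, map_mul, map_div₀, map_one, Complex.conj_I, Complex.conj_ofReal]
    have h2 : (starRingEnd ℂ) 2 = 2 := Complex.conj_ofReal 2
    rw [h2]
    push_cast
    ring
  rw [h, riemannZeta_conj, RCLike.norm_conj]
  push_cast
  rfl

/-- the second moment of zeta near a window -/
private noncomputable def bwL (H : ℝ) (m : ℕ) : ℝ :=
  ∫ x in (((m : ℝ) - 2) * H)..(((m : ℝ) + 3) * H), bwz x ^ 2

private theorem bw_shift (f : ℝ → ℝ) (t x y : ℝ) :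
    ∫ u in x..y, f (t + u) = ∫ x in (t + x)..(t + y), f x :=
  intervalIntegral.integral_comp_add_left f t

private theorem bw_loc {a b t H : ℝ} (hH : 0 ≤ H) (ha : |a| ≤ H) (hb : |b| ≤ H) :
    ∫ u in (-H)..H, ‖pf a b (t + u)‖ ≤ ∫ x in (t - 2 * H)..(t + 2 * H), bwz x ^ 2 := by
  have hc : Continuous fun x => bwz x ^ 2 := bwz_cont.pow 2
  have hca : ∀ a : ℝ, Continuous fun u => bwz (t + u + a) ^ 2 := fun a =>
    (bwz_cont.comp ((continuous_const.add continuous_id).add continuous_const)).pow 2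
  have key : ∀ a : ℝ, |a| ≤ H → ∫ u in (-H)..H, bwz (t + u + a) ^ 2 ≤
      ∫ x in (t - 2 * H)..(t + 2 * H), bwz x ^ 2 := by
    intro a ha
    have ha' := abs_le.1 ha
    have e : ∫ u in (-H)..H, bwz (t + u + a) ^ 2 =
        ∫ x in ((t + a) + -H)..((t + a) + H), bwz x ^ 2 := by
      rw [← bw_shift (fun x => bwz x ^ 2) (t + a)]
      refine intervalIntegral.integral_congr fun u _ => ?_
      show bwz (t + u + a) ^ 2 = bwz (t + a + u) ^ 2
      rw [show t + u + a = t + a + u by ring]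
    rw [e]
    exact intervalIntegral.integral_mono_interval (by linarith) (by linarith) (by linarith)
      (Eventually.of_forall fun x => by positivity) (hc.intervalIntegrable _ _)
  have h1 : ∀ u ∈ Icc (-H) H, ‖pf a b (t + u)‖ ≤
      1 / 2 * bwz (t + u + a) ^ 2 + 1 / 2 * bwz (t + u + b) ^ 2 := by
    intro u _
    rw [bw_pf]
    nlinarith [sq_nonneg (bwz (t + u + a) - bwz (t + u + b))]
  have h2 : ∫ u in (-H)..H, ‖pf a b (t + u)‖ ≤
      ∫ u in (-H)..H, (1 / 2 * bwz (t + u + a) ^ 2 + 1 / 2 * bwz (t + u + b) ^ 2) := by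
    refine intervalIntegral.integral_mono_on (by linarith) ?_ ?_ h1
    · exact ((continuous_pf a b).comp (continuous_const.add continuous_id)).norm.intervalIntegrable
        _ _
    · exact ((continuous_const.mul (hca a)).add (continuous_const.mul (hca b))).intervalIntegrable
        _ _
  have hi : ∀ c : ℝ, IntervalIntegrable (fun u => 1 / 2 * bwz (t + u + c) ^ 2) volume (-H) H :=
    fun c => (continuous_const.mul (hca c)).intervalIntegrable _ _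
  rw [intervalIntegral.integral_add (hi a) (hi b),
    intervalIntegral.integral_const_mul, intervalIntegral.integral_const_mul] at h2
  have h3 := key a ha
  have h4 := key b hb
  linarith

private theorem bw_win {t H : ℝ} (hH : 0 ≤ H) (m : ℕ) (h1 : m * H ≤ t) (h2 : t ≤ (m + 1) * H) :
    ∫ x in (t - 2 * H)..(t + 2 * H), bwz x ^ 2 ≤ bwL H m := by
  unfold bwL
  exact intervalIntegral.integral_mono_interval (by linarith) (by linarith) (by linarith)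
    (Eventually.of_forall fun x => by positivity) ((bwz_cont.pow 2).intervalIntegrable _ _)

private theorem bwL_nonneg {H : ℝ} (hH : 0 ≤ H) (m : ℕ) : 0 ≤ bwL H m :=
  intervalIntegral.integral_nonneg (by nlinarith) fun x _ => by positivity

private theorem bw_ofr {g : ℝ → ℂ} (hg : Continuous g) {x y : ℝ} (h : x ≤ y) :
    ∫⁻ t in Icc x y, ‖g t‖ₑ = ENNReal.ofReal (∫ t in x..y, ‖g t‖) := by
  rw [intervalIntegral.integral_of_le h, ← integral_Icc_eq_integral_Ioc,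
    ofReal_integral_norm_eq_lintegral_enorm (hg.continuousOn.integrableOn_compact isCompact_Icc)]

private theorem bw_fub {k : ℕ} (a b : Fin (k + 1) → ℝ) {H : ℝ} (hH : 0 ≤ H) (S : Set ℝ) :
    ∫⁻ v in box k H, ∫⁻ t in S, ‖PR a b v t‖ₑ =
      ∫⁻ t in S, ‖pf (a 0) (b 0) t‖ₑ * ENNReal.ofReal
        (∏ j : Fin k, ∫ u in (-H)..H, ‖pf (a j.succ) (b j.succ) (t + u)‖) := by
  have hfxc : ∀ j : Fin (k + 1), Continuous fun v : Fin k → ℝ => fx v j := by
    intro j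
    refine Fin.cases ?_ (fun i => ?_) j
    · simp only [fx, Fin.cons_zero]; exact continuous_const
    · simp only [fx, Fin.cons_succ]; exact continuous_apply i
  have hPc : Continuous (Function.uncurry fun (v : Fin k → ℝ) (t : ℝ) => PR a b v t) := by
    show Continuous fun p : (Fin k → ℝ) × ℝ => ∏ j, pf (a j) (b j) (p.2 + fx p.1 j)
    refine continuous_finsetProd _ fun j _ => ?_
    exact (continuous_pf (a j) (b j)).comp (continuous_snd.add ((hfxc j).comp continuous_fst))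
  rw [lintegral_lintegral_swap (f := fun v t => ‖PR a b v t‖ₑ)
    (hPc.measurable.enorm).aemeasurable]
  refine lintegral_congr fun t => ?_
  have e : ∀ v : Fin k → ℝ, ‖PR a b v t‖ₑ = ‖pf (a 0) (b 0) t‖ₑ *
      ∏ j : Fin k, ‖pf (a j.succ) (b j.succ) (t + v j)‖ₑ := by
    intro v
    unfold PR
    rw [Fin.prod_univ_succ, enorm_mul]
    simp only [fx, Fin.cons_zero, Fin.cons_succ, add_zero]
    congr 1
    simp only [← ofReal_norm]
    rw [norm_prod, ENNReal.ofReal_prod_of_nonneg fun j _ => norm_nonneg _]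
  have hmj : ∀ j : Fin k, Measurable fun x : ℝ => ‖pf (a j.succ) (b j.succ) (t + x)‖ₑ := fun j =>
    ((continuous_pf _ _).measurable.comp (measurable_const.add measurable_id)).enorm
  simp only [e]
  rw [lintegral_const_mul (f := fun v : Fin k → ℝ => ∏ j : Fin k,
    ‖pf (a j.succ) (b j.succ) (t + v j)‖ₑ) _ (Finset.measurable_prod _ fun j _ =>
    (hmj j).comp (measurable_pi_apply j))]
  congr 1
  rw [box, volume_pi, Measure.restrict_pi_pi,
    TEL_prod _ (fun (j : Fin k) x => ‖pf (a j.succ) (b j.succ) (t + x)‖ₑ) hmj,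
    ENNReal.ofReal_prod_of_nonneg fun j _ =>
      intervalIntegral.integral_nonneg (by linarith) fun _ _ => norm_nonneg _]
  refine Finset.prod_congr rfl fun j _ => ?_
  exact bw_ofr ((continuous_pf _ _).comp (continuous_const.add continuous_id)) (by linarith)

private theorem bw_cs {μ : Measure ℝ} {F : ℝ → ENNReal} (hF : AEMeasurable F μ) {A V : ℝ}
    (hA : 0 ≤ A) (hV : 0 ≤ V) (h1 : ∫⁻ z, F z ^ 2 ∂μ ≤ ENNReal.ofReal A)
    (h2 : μ Set.univ ≤ ENNReal.ofReal V) : ∫⁻ z, F z ∂μ ≤ ENNReal.ofReal (√A * √V) := by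
  have h := ENNReal.lintegral_mul_le_Lp_mul_Lq μ Real.HolderConjugate.two_two hF
    (g := fun _ => 1) aemeasurable_const
  simp only [Pi.mul_apply, mul_one, ENNReal.rpow_two, one_pow, lintegral_one] at h
  refine h.trans ?_
  rw [ENNReal.ofReal_mul (Real.sqrt_nonneg _), Real.sqrt_eq_rpow, Real.sqrt_eq_rpow,
    ← ENNReal.ofReal_rpow_of_nonneg hA (by norm_num),
    ← ENNReal.ofReal_rpow_of_nonneg hV (by norm_num)]
  exact mul_le_mul' (ENNReal.rpow_le_rpow h1 (by norm_num))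
    (ENNReal.rpow_le_rpow h2 (by norm_num))

private theorem bw_sec (ε B : ℝ) (hε : 0 < ε) (hB : 0 ≤ B) : ∃ C : ℝ, 1 ≤ C ∧ ∀ T : ℝ, 1 ≤ T →
    ∀ a b : ℝ, |a| ≤ B → |b| ≤ B →
    ∫ t in (0:ℝ)..(6 * T), ‖pf a b t‖ ^ 2 ≤ C * T ^ (1 + ε) := by
  obtain ⟨C₀, hC₀, h4⟩ := exists_zeta_fourth ε hε
  refine ⟨C₀ * (6 + B) ^ (1 + ε), ?_, ?_⟩
  · have : (1:ℝ) ≤ (6 + B) ^ (1 + ε) := Real.one_le_rpow (by linarith) (by linarith)
    nlinarith
  intro T hT a b ha hb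
  have hc : Continuous fun x => bwz x ^ 4 := bwz_cont.pow 4
  have hca : ∀ a : ℝ, Continuous fun u => bwz (u + a) ^ 4 := fun a =>
    (bwz_cont.comp (continuous_id.add continuous_const)).pow 4
  have hBT : 6 * T + B ≤ (6 + B) * T := by nlinarith
  have key : ∀ a : ℝ, |a| ≤ B → ∫ u in (0:ℝ)..(6 * T), bwz (u + a) ^ 4 ≤
      C₀ * (6 + B) ^ (1 + ε) * T ^ (1 + ε) := by
    intro a ha
    have ha' := abs_le.1 ha
    rw [intervalIntegral.integral_comp_add_right (fun x => bwz x ^ 4) a]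
    have h5 := h4 ((6 + B) * T) (by nlinarith)
    refine le_trans ?_ (h5.trans (le_of_eq ?_))
    · exact intervalIntegral.integral_mono_interval (by linarith) (by linarith) (by linarith)
        (Eventually.of_forall fun x => by positivity) (hc.intervalIntegrable _ _)
    · rw [Real.mul_rpow (by linarith) (by linarith)]
      ring
  have h1 : ∀ u ∈ Icc (0:ℝ) (6 * T), ‖pf a b u‖ ^ 2 ≤
      1 / 2 * bwz (u + a) ^ 4 + 1 / 2 * bwz (u + b) ^ 4 := by
    intro u _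
    rw [bw_pf]
    nlinarith [sq_nonneg (bwz (u + a) ^ 2 - bwz (u + b) ^ 2)]
  have h2 : ∫ u in (0:ℝ)..(6 * T), ‖pf a b u‖ ^ 2 ≤
      ∫ u in (0:ℝ)..(6 * T), (1 / 2 * bwz (u + a) ^ 4 + 1 / 2 * bwz (u + b) ^ 4) := by
    refine intervalIntegral.integral_mono_on (by linarith) ?_ ?_ h1
    · exact ((continuous_pf a b).norm.pow 2).intervalIntegrable _ _
    · exact ((continuous_const.mul (hca a)).add (continuous_const.mul (hca b))).intervalIntegrable
        _ _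
  have hi : ∀ c : ℝ, IntervalIntegrable (fun u => 1 / 2 * bwz (u + c) ^ 4) volume 0 (6 * T) :=
    fun c => (continuous_const.mul (hca c)).intervalIntegrable _ _
  rw [intervalIntegral.integral_add (hi a) (hi b),
    intervalIntegral.integral_const_mul, intervalIntegral.integral_const_mul] at h2
  have h3 := key a ha
  have h4 := key b hb
  linarith

private theorem bw_third (ε : ℝ) (hε : 0 < ε) : ∃ C : ℝ, 1 ≤ C ∧ ∀ T H : ℝ, 1 ≤ T → 0 < H →
    H ≤ T → ∀ m : ℕ, m * H ≤ 4 * T → bwL H m ≤ C * T ^ ε * (H + T ^ (1 / 3 : ℝ)) := by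
  obtain ⟨C₀, hC₀, hl⟩ := localBound_third 0 ε le_rfl hε
  refine ⟨C₀ * 16 ^ ε * 32, ?_, ?_⟩
  · have : (1:ℝ) ≤ 16 ^ ε := Real.one_le_rpow (by norm_num) hε.le
    nlinarith
  intro T H hT hH hHT m hm
  have h16 : (1:ℝ) ≤ 16 * T := by linarith
  set W : ℝ := max (5 / 2 * H) ((16 * T) ^ (1 / 3 : ℝ)) with hW
  have hW1 : (16 * T) ^ (1 / 3 : ℝ) ≤ 16 * T := by
    calc (16 * T) ^ (1 / 3 : ℝ) ≤ (16 * T) ^ (1:ℝ) :=
          Real.rpow_le_rpow_of_exponent_le h16 (by norm_num)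
      _ = 16 * T := Real.rpow_one _
  have hW2 : W ≤ 16 * T := max_le (by linarith) hW1
  have hW3 : 5 / 2 * H ≤ W := le_max_left _ _
  set t : ℝ := (m + 1 / 2) * H with ht
  have ht0 : 0 ≤ t := by positivity
  have ht1 : |t| ≤ 16 * T := by
    rw [abs_of_nonneg ht0, ht]
    nlinarith
  have h1 := hl (16 * T) W h16 (le_max_right _ _) hW2 0 (by simp) t ht1
  have e1 : ∫ u in (-W)..W, ‖riemannZeta (1 / 2 + I * ((t:ℂ) + (u:ℂ) + ((0:ℝ):ℂ)))‖ ^ 2 =
      ∫ x in (t + -W)..(t + W), bwz x ^ 2 := by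
    rw [← bw_shift (fun x => bwz x ^ 2) t]
    refine intervalIntegral.integral_congr fun u _ => ?_
    show ‖riemannZeta (1 / 2 + I * ((t:ℂ) + (u:ℂ) + ((0:ℝ):ℂ)))‖ ^ 2 = bwz (t + u) ^ 2
    unfold bwz
    push_cast
    rw [add_zero]
  rw [e1] at h1
  have h2 : bwL H m ≤ ∫ x in (t + -W)..(t + W), bwz x ^ 2 := by
    unfold bwL
    refine intervalIntegral.integral_mono_interval ?_ (by nlinarith) ?_
      (Eventually.of_forall fun x => by positivity) ((bwz_cont.pow 2).intervalIntegrable _ _)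
    · rw [ht]; nlinarith
    · rw [ht]; nlinarith
  refine h2.trans (h1.trans ?_)
  have h3 : (16 * T) ^ ε = 16 ^ ε * T ^ ε := Real.mul_rpow (by norm_num) (by linarith)
  have h4 : (16 * T) ^ (1 / 3 : ℝ) ≤ 16 * T ^ (1 / 3 : ℝ) := by
    rw [Real.mul_rpow (by norm_num) (by linarith)]
    have : (16:ℝ) ^ (1 / 3 : ℝ) ≤ 16 ^ (1:ℝ) :=
      Real.rpow_le_rpow_of_exponent_le (by norm_num) (by norm_num)
    rw [Real.rpow_one] at this
    exact mul_le_mul_of_nonneg_right this (by positivity)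
  have h5 : W ≤ 16 * (H + T ^ (1 / 3 : ℝ)) := by
    have : (0:ℝ) ≤ T ^ (1 / 3 : ℝ) := by positivity
    exact max_le (by linarith) (by linarith)
  rw [h3]
  have h6 : 0 ≤ C₀ * (16 ^ ε * T ^ ε) := by positivity
  calc C₀ * (16 ^ ε * T ^ ε) * (2 * W)
      ≤ C₀ * (16 ^ ε * T ^ ε) * (2 * (16 * (H + T ^ (1 / 3 : ℝ)))) := by gcongr
    _ = _ := by ring

private theorem bw_split {H T : ℝ} (hH : 0 < H) {S : Set ℝ} (hS : MeasurableSet S)
    (hST : S ⊆ Icc 0 (4 * T)) {g : ℝ → ℂ} (hg : Continuous g) (P : ℝ → ℝ) (K : ℝ) (D : ℕ → ℝ)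
    (hK : 0 ≤ K) (hD : ∀ m, 0 ≤ D m)
    (hP : ∀ t ∈ S, ∀ m : ℕ, m ≤ ⌊4 * T / H⌋₊ → m * H ≤ t → t ≤ (m + 1) * H → P t ≤ K + D m) :
    ∫⁻ t in S, ‖g t‖ₑ * ENNReal.ofReal (P t) ≤
      ENNReal.ofReal K * (∫⁻ t in S, ‖g t‖ₑ) +
        ∑ m ∈ Finset.range (⌊4 * T / H⌋₊ + 1),
          ENNReal.ofReal (D m) * ∫⁻ t in Icc (m * H) ((m + 1) * H), ‖g t‖ₑ := by
  have hgm : Measurable fun t => ‖g t‖ₑ := hg.measurable.enorm
  have hpt : ∀ t ∈ S, ‖g t‖ₑ * ENNReal.ofReal (P t) ≤ ENNReal.ofReal K * ‖g t‖ₑ +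
      ∑ m ∈ Finset.range (⌊4 * T / H⌋₊ + 1), ENNReal.ofReal (D m) *
        (Icc ((m:ℝ) * H) ((m + 1) * H)).indicator (fun t => ‖g t‖ₑ) t := by
    intro t ht
    have ht' := hST ht
    have h0 : 0 ≤ t / H := div_nonneg ht'.1 hH.le
    set m : ℕ := ⌊t / H⌋₊ with hm
    have hm1 : (m:ℝ) * H ≤ t := by
      have := Nat.floor_le h0
      rwa [le_div_iff₀ hH] at this
    have hm2 : t ≤ (m + 1) * H := by
      have := (Nat.lt_floor_add_one (t / H)).le
      rwa [div_le_iff₀ hH] at this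
    have hm3 : m ≤ ⌊4 * T / H⌋₊ :=
      Nat.floor_le_floor (div_le_div_of_nonneg_right ht'.2 hH.le)
    have h1 := hP t ht m hm3 hm1 hm2
    calc ‖g t‖ₑ * ENNReal.ofReal (P t) ≤ ‖g t‖ₑ * ENNReal.ofReal (K + D m) := by
          gcongr
      _ = ENNReal.ofReal K * ‖g t‖ₑ + ENNReal.ofReal (D m) * ‖g t‖ₑ := by
          rw [ENNReal.ofReal_add hK (hD m)]; ring
      _ ≤ _ := by
          gcongr
          have h2 : ENNReal.ofReal (D m) * ‖g t‖ₑ = ENNReal.ofReal (D m) *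
              (Icc ((m:ℝ) * H) ((m + 1) * H)).indicator (fun t => ‖g t‖ₑ) t := by
            rw [Set.indicator_of_mem (show t ∈ Icc ((m:ℝ) * H) ((m + 1) * H) from ⟨hm1, hm2⟩)]
          rw [h2]
          exact Finset.single_le_sum (f := fun m : ℕ => ENNReal.ofReal (D m) *
            (Icc ((m:ℝ) * H) ((m + 1) * H)).indicator (fun t => ‖g t‖ₑ) t)
            (fun _ _ => zero_le) (Finset.mem_range.2 (Nat.lt_succ_of_le hm3))
  calc ∫⁻ t in S, ‖g t‖ₑ * ENNReal.ofReal (P t)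
      ≤ ∫⁻ t in S, (ENNReal.ofReal K * ‖g t‖ₑ +
        ∑ m ∈ Finset.range (⌊4 * T / H⌋₊ + 1), ENNReal.ofReal (D m) *
        (Icc ((m:ℝ) * H) ((m + 1) * H)).indicator (fun t => ‖g t‖ₑ) t) :=
        setLIntegral_mono' hS hpt
    _ = ENNReal.ofReal K * (∫⁻ t in S, ‖g t‖ₑ) +
        ∑ m ∈ Finset.range (⌊4 * T / H⌋₊ + 1), ENNReal.ofReal (D m) *
          ∫⁻ t in S, (Icc ((m:ℝ) * H) ((m + 1) * H)).indicator (fun t => ‖g t‖ₑ) t := by
        rw [lintegral_add_left (hgm.const_mul _), lintegral_const_mul _ hgm,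
          lintegral_finsetSum _ fun m _ => (hgm.indicator measurableSet_Icc).const_mul _]
        refine congrArg (fun x => ENNReal.ofReal K * (∫⁻ t in S, ‖g t‖ₑ) + x)
          (Finset.sum_congr rfl fun m _ => ?_)
        rw [lintegral_const_mul _ (hgm.indicator measurableSet_Icc)]
    _ ≤ _ := by
        refine add_le_add le_rfl (Finset.sum_le_sum fun m _ => mul_le_mul' le_rfl ?_)
        rw [lintegral_indicator measurableSet_Icc,
          Measure.restrict_restrict measurableSet_Icc]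
        exact lintegral_mono_set Set.inter_subset_left

private theorem bw_ofr2 {g : ℝ → ℂ} (hg : Continuous g) {x y : ℝ} (h : x ≤ y) :
    ∫⁻ t in Icc x y, ‖g t‖ₑ ^ 2 = ENNReal.ofReal (∫ t in x..y, ‖g t‖ ^ 2) := by
  have := bw_ofr (hg.pow 2) h
  simpa only [Pi.pow_apply, enorm_pow, norm_pow] using this

private theorem bw_own {a b H : ℝ} (hH : 0 ≤ H) (ha : |a| ≤ H) (hb : |b| ≤ H) (m : ℕ) :
    ∫ x in (m * H)..((m + 1) * H), ‖pf a b x‖ ≤ bwL H m := by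
  have h1 := (bw_loc (t := (m + 1 / 2) * H) hH ha hb).trans
    (bw_win hH m (by nlinarith) (by nlinarith))
  rw [bw_shift (fun x => ‖pf a b x‖)] at h1
  refine le_trans ?_ h1
  exact intervalIntegral.integral_mono_interval (by nlinarith) (by nlinarith) (by nlinarith)
    (Eventually.of_forall fun x => norm_nonneg _) ((continuous_pf a b).norm.intervalIntegrable _ _)

private theorem bw_T1 {θ₁ θ₂ B : ℝ} (h1 : 0 < θ₁) (h2 : θ₂ < 1) : ∃ T₁ : ℝ, 1 ≤ T₁ ∧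
    ∀ T : ℝ, T₁ ≤ T → B ≤ T ^ θ₁ ∧ 2 * T ^ θ₂ ≤ T := by
  have e1 := (tendsto_rpow_atTop h1).eventually_ge_atTop B
  have e2 := (tendsto_rpow_atTop (show 0 < 1 - θ₂ by linarith)).eventually_ge_atTop 2
  obtain ⟨T₀, hT₀⟩ := Filter.eventually_atTop.1 (e1.and e2)
  refine ⟨max T₀ 1, le_max_right _ _, fun T hT => ?_⟩
  have hT1 : 1 ≤ T := (le_max_right _ _).trans hT
  obtain ⟨h3, h4⟩ := hT₀ T ((le_max_left _ _).trans hT)
  refine ⟨h3, ?_⟩
  calc 2 * T ^ θ₂ ≤ T ^ (1 - θ₂) * T ^ θ₂ := by gcongr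
    _ = T := by
      rw [← Real.rpow_add (by linarith), show 1 - θ₂ + θ₂ = (1:ℝ) by ring, Real.rpow_one]

private theorem bw_sqrt {C T e : ℝ} (hC : 1 ≤ C) (hT : 1 ≤ T) :
    √(C * T ^ e) ≤ C * T ^ (e / 2) := by
  have hT0 : 0 < T := by linarith
  rw [Real.sqrt_mul (by linarith)]
  have h1 : √C ≤ C := by
    rw [Real.sqrt_le_left (by linarith)]
    nlinarith
  have h2 : √(T ^ e) = T ^ (e / 2) := by
    rw [Real.sqrt_eq_rpow, ← Real.rpow_mul hT0.le]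
    congr 1
    ring
  rw [h2]
  exact mul_le_mul_of_nonneg_right h1 (by positivity)

private theorem bw_pw {T x : ℝ} (hT : 0 < T) (k : ℕ) : (T ^ x) ^ k = T ^ (k * x) := by
  rw [← Real.rpow_mul_natCast hT.le, mul_comm]

private theorem bw_real1 {T H C₁ C₂ C₃ ε d c : ℝ} (k : ℕ) (hT : 1 ≤ T) (hH : 0 < H)
    (hC₁ : 1 ≤ C₁) (hC₂ : 1 ≤ C₂) (hC₃ : 1 ≤ C₃) (hc : k * ε + ε / 2 - d / 4 ≤ -c) :
    (2 * C₁ * T ^ ε * H) ^ k * (√(C₃ * T ^ (1 + ε)) * √(C₂ * T ^ (1 - d / 2))) ≤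
      (2 * H) ^ k * (C₁ ^ k * (C₃ * C₂) * T ^ (1 - c)) := by
  have hT0 : 0 < T := by linarith
  have h1 := bw_sqrt (e := 1 + ε) hC₃ hT
  have h2 := bw_sqrt (e := 1 - d / 2) hC₂ hT
  have h3 : (2 * C₁ * T ^ ε * H) ^ k = (2 * H) ^ k * (C₁ ^ k * T ^ (k * ε)) := by
    rw [← bw_pw hT0, ← mul_pow, ← mul_pow]
    congr 1
    ring
  have h4 : T ^ (k * ε) * (T ^ ((1 + ε) / 2) * T ^ ((1 - d / 2) / 2)) ≤ T ^ (1 - c) := by
    rw [← Real.rpow_add hT0, ← Real.rpow_add hT0]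
    exact Real.rpow_le_rpow_of_exponent_le hT (by linarith)
  calc (2 * C₁ * T ^ ε * H) ^ k * (√(C₃ * T ^ (1 + ε)) * √(C₂ * T ^ (1 - d / 2)))
      ≤ (2 * H) ^ k * (C₁ ^ k * T ^ (k * ε)) *
        ((C₃ * T ^ ((1 + ε) / 2)) * (C₂ * T ^ ((1 - d / 2) / 2))) := by
        rw [h3]
        gcongr
    _ = (2 * H) ^ k * (C₁ ^ k * (C₃ * C₂) *
        (T ^ (k * ε) * (T ^ ((1 + ε) / 2) * T ^ ((1 - d / 2) / 2)))) := by ring
    _ ≤ _ := by gcongr

private theorem bw_real2 {T H C₁ C₄ ε c θ₁ : ℝ} (n : ℕ) (hT : 1 ≤ T) (hH : T ^ θ₁ ≤ H)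
    (hC₁ : 1 ≤ C₁) (hC₄ : 1 ≤ C₄) (hc1 : 2 * c ≤ θ₁)
    (hc2 : (n:ℝ) / 3 + 2 * c ≤ (n + 1) * θ₁) (hc : (n:ℝ) * ε + ε ≤ c) :
    4 * (C₄ * T ^ ε * (H + T ^ (1 / 3 : ℝ))) ^ n * (C₁ * T ^ (1 + ε)) ≤
      (2 * H) ^ (n + 1) * (4 * ((2 * C₄) ^ n * C₁) * T ^ (1 - c)) := by
  have hT0 : 0 < T := by linarith
  have hθ0 : 0 < T ^ θ₁ := by positivity
  have hH0 : 0 < H := hθ0.trans_le hH
  have h3 : (0:ℝ) < T ^ (1 / 3 : ℝ) := by positivity
  set W : ℝ := max H (T ^ (1 / 3 : ℝ)) with hW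
  have hW0 : 0 < W := hH0.trans_le (le_max_left _ _)
  have h4 : H + T ^ (1 / 3 : ℝ) ≤ 2 * W := by
    linarith [le_max_left H (T ^ (1 / 3 : ℝ)), le_max_right H (T ^ (1 / 3 : ℝ))]
  have h5 : W ^ n ≤ H ^ (n + 1) * T ^ (-(2 * c)) := by
    rw [Real.rpow_neg hT0.le, ← div_eq_mul_inv, le_div_iff₀ (by positivity)]
    rcases le_total (T ^ (1 / 3 : ℝ)) H with h | h
    · rw [hW, max_eq_left h, pow_succ]
      gcongr
      exact (Real.rpow_le_rpow_of_exponent_le hT hc1).trans hH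
    · rw [hW, max_eq_right h, bw_pw hT0, ← Real.rpow_add hT0]
      calc T ^ ((n:ℝ) * (1 / 3) + 2 * c) ≤ T ^ (((n + 1 : ℕ) : ℝ) * θ₁) :=
            Real.rpow_le_rpow_of_exponent_le hT (by push_cast; linarith)
        _ = (T ^ θ₁) ^ (n + 1) := (bw_pw hT0 (n + 1)).symm
        _ ≤ H ^ (n + 1) := by gcongr
  have h6 : T ^ (n * ε) * (T ^ (1 + ε) * T ^ (-(2 * c))) ≤ T ^ (1 - c) := by
    rw [← Real.rpow_add hT0, ← Real.rpow_add hT0]
    exact Real.rpow_le_rpow_of_exponent_le hT (by linarith)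
  have h7 : H ^ (n + 1) ≤ (2 * H) ^ (n + 1) := by gcongr; linarith
  calc 4 * (C₄ * T ^ ε * (H + T ^ (1 / 3 : ℝ))) ^ n * (C₁ * T ^ (1 + ε))
      ≤ 4 * (C₄ * T ^ ε * (2 * W)) ^ n * (C₁ * T ^ (1 + ε)) := by gcongr
    _ = 4 * ((2 * C₄) ^ n * (T ^ (n * ε) * W ^ n)) * (C₁ * T ^ (1 + ε)) := by
        rw [← bw_pw hT0, ← mul_pow, ← mul_pow]
        congr 3
        ring
    _ ≤ 4 * ((2 * C₄) ^ n * (T ^ (n * ε) * (H ^ (n + 1) * T ^ (-(2 * c))))) *
        (C₁ * T ^ (1 + ε)) := by gcongr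
    _ = H ^ (n + 1) * (4 * ((2 * C₄) ^ n * C₁) *
        (T ^ (n * ε) * (T ^ (1 + ε) * T ^ (-(2 * c))))) := by ring
    _ ≤ _ := by gcongr

/-- the product of the pairs on the bad windows; `R m ≤ C T^ε (H + T^(1/3))` by
`localBound_third`, `∫ v, ‖PR a b v t‖ ≤ ‖pf (a 0) (b 0) t‖ ∏ Λ m`, integrate over the window of
`t`: `Λ m ^ (k + 1)` -/
theorem exists_bad_windows (k : ℕ) (hk : 1 ≤ k) (θ₁ θ₂ d : ℝ) (hθ0 : 0 < θ₁)
    (hθ : ((k : ℝ) - 1) / (3 * k) < θ₁) (hθ1 : θ₁ ≤ θ₂) (hθ2 : θ₂ < 1) (hd : 0 < d) :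
    ∃ c : ℝ, 0 < c ∧ ∀ B : ℝ, 0 ≤ B → ∃ C T₁ : ℝ, 1 ≤ C ∧ 1 ≤ T₁ ∧ ∀ T H : ℝ, T₁ ≤ T →
    T ^ θ₁ ≤ H → H ≤ 2 * T ^ θ₂ → ∀ a b : Fin (k + 1) → ℝ, (∀ j, |a j| ≤ B) → (∀ j, |b j| ≤ B) →
    ∫⁻ v in box k H, ∫⁻ t in Icc 0 (4 * T) \ GW T H d, ‖PR a b v t‖ₑ ≤
      ENNReal.ofReal ((2 * H) ^ k * (C * T ^ (1 - c))) := by
  obtain ⟨n, rfl⟩ : ∃ n, k = n + 1 := ⟨k - 1, by omega⟩
  set η : ℝ := (n + 1) * θ₁ - (n:ℝ) / 3 with hη
  have hη0 : 0 < η := by
    push_cast at hθ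
    rw [div_lt_iff₀ (by positivity)] at hθ
    rw [hη]
    linarith
  set c : ℝ := min (d / 4) (min θ₁ η) / 2 with hc
  have hc1 : 2 * c ≤ d / 4 := by
    rw [hc]; linarith [min_le_left (d / 4) (min θ₁ η)]
  have hc2 : 2 * c ≤ min θ₁ η := by
    rw [hc]; linarith [min_le_right (d / 4) (min θ₁ η)]
  have hc3 : 2 * c ≤ θ₁ := hc2.trans (min_le_left _ _)
  have hc4 : 2 * c ≤ η := hc2.trans (min_le_right _ _)
  have hc0 : 0 < c := half_pos (lt_min (by linarith) (lt_min hθ0 hη0))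
  refine ⟨c, hc0, fun B hB => ?_⟩
  set ε : ℝ := c / (n + 2) with hε
  have hε0 : 0 < ε := by positivity
  have hnε : (n:ℝ) * ε + 2 * ε = c := by rw [hε]; field_simp
  obtain ⟨C₁, hC₁, hW⟩ := exists_window_sum ε hε0
  obtain ⟨C₂, hC₂, hV⟩ := exists_volume_GW d hd
  obtain ⟨C₃, hC₃, hS⟩ := bw_sec ε B hε0 hB
  obtain ⟨C₄, hC₄, hL⟩ := bw_third ε hε0
  obtain ⟨T₁, hT₁, hTT⟩ := bw_T1 (B := B) hθ0 hθ2
  refine ⟨C₁ ^ (n + 1) * (C₃ * C₂) + 4 * ((2 * C₄) ^ n * C₁), T₁, ?_, hT₁, ?_⟩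
  · have h1 : 1 ≤ C₁ ^ (n + 1) := one_le_pow₀ hC₁
    have h2 : 1 ≤ C₃ * C₂ := one_le_mul_of_one_le_of_one_le hC₃ hC₂
    have h3 : 1 ≤ C₁ ^ (n + 1) * (C₃ * C₂) := one_le_mul_of_one_le_of_one_le h1 h2
    have h4 : 0 ≤ 4 * ((2 * C₄) ^ n * C₁) := by positivity
    linarith
  intro T H hT hH1 hH2 a b ha hb
  have hT1 : 1 ≤ T := hT₁.trans hT
  have hT0 : 0 < T := by linarith
  obtain ⟨hBT, h2T⟩ := hTT T hT
  have hH1' : 1 ≤ H := (Real.one_le_rpow hT1 hθ0.le).trans hH1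
  have hH0 : 0 < H := by linarith
  have hBH : B ≤ H := hBT.trans hH1
  have hHT : H ≤ T := hH2.trans h2T
  obtain ⟨R, hR0, hR1, hR2⟩ := hW T H hT1 hH1' hHT
  have hmM : ∀ m : ℕ, m ≤ ⌊4 * T / H⌋₊ → m * H ≤ 4 * T := by
    intro m hm
    have := (Nat.le_floor_iff (by positivity)).1 hm
    rwa [le_div_iff₀ hH0] at this
  have hΛ : ∀ m : ℕ, m ≤ ⌊4 * T / H⌋₊ → bwL H m ≤ C₁ * T ^ ε * H + R m :=
    fun m hm => hR1 m (hmM m hm)
  have hK : 0 ≤ (2 * C₁ * T ^ ε * H) ^ (n + 1) := by positivity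
  have hSm : MeasurableSet (Icc 0 (4 * T) \ GW T H d) :=
    measurableSet_Icc.diff (measurableSet_GW hH0)
  have hg := continuous_pf (a 0) (b 0)
  rw [bw_fub a b hH0.le]
  refine (bw_split (T := T) hH0 hSm Set.sdiff_subset hg _ ((2 * C₁ * T ^ ε * H) ^ (n + 1))
    (fun m => if C₁ * T ^ ε * H < R m then bwL H m ^ (n + 1) else 0) hK ?_ ?_).trans ?_
  · intro m
    split_ifs
    · exact pow_nonneg (bwL_nonneg hH0.le m) _
    · exact le_rfl
  · intro t _ m hm h1 h2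
    have h3 : ∏ j : Fin (n + 1), ∫ u in (-H)..H, ‖pf (a j.succ) (b j.succ) (t + u)‖ ≤
        bwL H m ^ (n + 1) := by
      calc _ ≤ ∏ _j : Fin (n + 1), bwL H m :=
            Finset.prod_le_prod (fun j _ => intervalIntegral.integral_nonneg (by linarith)
              fun _ _ => norm_nonneg _) fun j _ =>
              (bw_loc hH0.le ((ha _).trans hBH) ((hb _).trans hBH)).trans (bw_win hH0.le m h1 h2)
        _ = _ := by simp
    by_cases h4 : C₁ * T ^ ε * H < R m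
    · rw [if_pos h4]
      linarith
    · rw [if_neg h4, add_zero]
      rw [not_lt] at h4
      refine h3.trans (pow_le_pow_left₀ (bwL_nonneg hH0.le m) ?_ _)
      linarith [hΛ m hm]
  have hfirst : ∫⁻ t in Icc 0 (4 * T) \ GW T H d, ‖pf (a 0) (b 0) t‖ₑ ≤
      ENNReal.ofReal (√(C₃ * T ^ (1 + ε)) * √(C₂ * T ^ (1 - d / 2))) := by
    refine bw_cs hg.measurable.enorm.aemeasurable (by positivity) (by positivity) ?_ ?_
    · calc ∫⁻ t in Icc 0 (4 * T) \ GW T H d, ‖pf (a 0) (b 0) t‖ₑ ^ 2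
          ≤ ∫⁻ t in Icc 0 (6 * T), ‖pf (a 0) (b 0) t‖ₑ ^ 2 :=
            lintegral_mono_set (Set.sdiff_subset.trans (Set.Icc_subset_Icc le_rfl (by linarith)))
        _ = _ := bw_ofr2 hg (by linarith)
        _ ≤ _ := ENNReal.ofReal_le_ofReal (hS T hT1 _ _ (ha 0) (hb 0))
    · rw [Measure.restrict_apply_univ]
      exact hV T H hT1 hH1' hHT
  have hsecond : ∑ m ∈ Finset.range (⌊4 * T / H⌋₊ + 1),
      ENNReal.ofReal (if C₁ * T ^ ε * H < R m then bwL H m ^ (n + 1) else 0) *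
        ∫⁻ t in Icc (m * H) ((m + 1) * H), ‖pf (a 0) (b 0) t‖ₑ ≤
      ENNReal.ofReal (4 * (C₄ * T ^ ε * (H + T ^ (1 / 3 : ℝ))) ^ n * (C₁ * T ^ (1 + ε))) := by
    have h1 : ∀ m ∈ Finset.range (⌊4 * T / H⌋₊ + 1),
        ENNReal.ofReal (if C₁ * T ^ ε * H < R m then bwL H m ^ (n + 1) else 0) *
        ∫⁻ t in Icc ((m:ℝ) * H) ((m + 1) * H), ‖pf (a 0) (b 0) t‖ₑ ≤
        ENNReal.ofReal (4 * (C₄ * T ^ ε * (H + T ^ (1 / 3 : ℝ))) ^ n * R m ^ 2) := by
      intro m hm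
      have hm' : m ≤ ⌊4 * T / H⌋₊ := Nat.lt_succ_iff.1 (Finset.mem_range.1 hm)
      have hb0 := bwL_nonneg hH0.le m
      split_ifs with h4
      · rw [bw_ofr hg (by nlinarith), ← ENNReal.ofReal_mul (pow_nonneg hb0 _)]
        refine ENNReal.ofReal_le_ofReal ?_
        have h5 := bw_own hH0.le ((ha 0).trans hBH) ((hb 0).trans hBH) m
        have h6 : bwL H m ≤ 2 * R m := by linarith [hΛ m hm']
        have h7 := hL T H hT1 hH0 hHT m (hmM m hm')
        calc bwL H m ^ (n + 1) * ∫ t in (m * H)..((m + 1) * H), ‖pf (a 0) (b 0) t‖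
            ≤ bwL H m ^ (n + 1) * bwL H m := by gcongr
          _ = bwL H m ^ n * bwL H m ^ 2 := by ring
          _ ≤ (C₄ * T ^ ε * (H + T ^ (1 / 3 : ℝ))) ^ n * (2 * R m) ^ 2 := by gcongr
          _ = _ := by ring
      · rw [ENNReal.ofReal_zero, zero_mul]
        exact zero_le
    refine (Finset.sum_le_sum h1).trans ?_
    rw [← ENNReal.ofReal_sum_of_nonneg fun m _ => by positivity, ← Finset.mul_sum]
    refine ENNReal.ofReal_le_ofReal ?_
    gcongr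
  calc _ ≤ ENNReal.ofReal ((2 * C₁ * T ^ ε * H) ^ (n + 1)) *
        ENNReal.ofReal (√(C₃ * T ^ (1 + ε)) * √(C₂ * T ^ (1 - d / 2))) +
        ENNReal.ofReal (4 * (C₄ * T ^ ε * (H + T ^ (1 / 3 : ℝ))) ^ n * (C₁ * T ^ (1 + ε))) :=
        add_le_add (mul_le_mul' le_rfl hfirst) hsecond
    _ = ENNReal.ofReal ((2 * C₁ * T ^ ε * H) ^ (n + 1) *
        (√(C₃ * T ^ (1 + ε)) * √(C₂ * T ^ (1 - d / 2))) +
        4 * (C₄ * T ^ ε * (H + T ^ (1 / 3 : ℝ))) ^ n * (C₁ * T ^ (1 + ε))) := by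
        rw [← ENNReal.ofReal_mul hK, ← ENNReal.ofReal_add (by positivity) (by positivity)]
    _ ≤ _ := by
        refine ENNReal.ofReal_le_ofReal ?_
        have h1 := bw_real1 (T := T) (H := H) (C₁ := C₁) (C₂ := C₂) (C₃ := C₃) (ε := ε) (d := d)
          (c := c) (n + 1) hT1 hH0 hC₁ hC₂ hC₃ (by push_cast; linarith)
        have h2 := bw_real2 (T := T) (H := H) (C₁ := C₁) (C₄ := C₄) (ε := ε) (c := c)
          (θ₁ := θ₁) n hT1 hH1 hC₁ hC₄ hc3 (by linarith) (by linarith)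
        refine (add_le_add h1 h2).trans (le_of_eq ?_)
        ring

/-- the product of the pairs on the bad windows inside a set with small local fourth moments: for
every `θ₁ > 0` -/
theorem exists_bad_windows_G (k : ℕ) (θ₁ θ₂ d d₁ : ℝ) (hθ0 : 0 < θ₁) (hθ1 : θ₁ ≤ θ₂)
    (hθ2 : θ₂ < 1) (hd : 0 < d) (hd1 : (k + 1) * d ≤ θ₁ / 2) (hd₁ : 0 < d₁) :
    ∃ c : ℝ, 0 < c ∧ ∀ B : ℝ, 0 ≤ B → ∃ C T₁ : ℝ, 1 ≤ C ∧ 1 ≤ T₁ ∧ ∀ T H : ℝ, T₁ ≤ T →
    T ^ θ₁ ≤ H → H ≤ 2 * T ^ θ₂ → ∀ G : Set ℝ, MeasurableSet G → Gd T H d G →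
    ∀ a b : Fin (k + 1) → ℝ, (∀ j, |a j| ≤ B) → (∀ j, |b j| ≤ B) →
    ∫⁻ v in box k H, ∫⁻ t in (G ∩ Icc 0 (4 * T)) \ GW T H d₁, ‖PR a b v t‖ₑ ≤
      ENNReal.ofReal ((2 * H) ^ k * (C * T ^ (1 - c))) := by
  set c : ℝ := min (d₁ / 4) (θ₁ / 4) / 2 with hc
  have hc1 : 2 * c ≤ d₁ / 4 := by
    rw [hc]; linarith [min_le_left (d₁ / 4) (θ₁ / 4)]
  have hc2 : 2 * c ≤ θ₁ / 4 := by
    rw [hc]; linarith [min_le_right (d₁ / 4) (θ₁ / 4)]
  have hc0 : 0 < c := half_pos (lt_min (by linarith) (by linarith))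
  refine ⟨c, hc0, fun B hB => ?_⟩
  set ε : ℝ := c / (k + 1) with hε
  have hε0 : 0 < ε := by positivity
  have hkε : (k:ℝ) * ε + ε = c := by rw [hε]; field_simp
  have hkε0 : 0 ≤ (k:ℝ) * ε := by positivity
  obtain ⟨C₁, hC₁, hW⟩ := exists_window_sum ε hε0
  obtain ⟨C₂, hC₂, hV⟩ := exists_volume_GW d₁ hd₁
  obtain ⟨C₃, hC₃, hS⟩ := bw_sec ε B hε0 hB
  obtain ⟨T₁, hT₁, hTT⟩ := bw_T1 (B := B) hθ0 hθ2
  refine ⟨C₁ ^ k * (C₃ * C₂) + C₁ * C₃, T₁, ?_, hT₁, ?_⟩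
  · have h1 : 1 ≤ C₁ ^ k := one_le_pow₀ hC₁
    have h2 : 1 ≤ C₃ * C₂ := one_le_mul_of_one_le_of_one_le hC₃ hC₂
    have h3 : 1 ≤ C₁ ^ k * (C₃ * C₂) := one_le_mul_of_one_le_of_one_le h1 h2
    have h4 : 0 ≤ C₁ * C₃ := by positivity
    linarith
  intro T H hT hH1 hH2 G hG hGd a b ha hb
  have hT1 : 1 ≤ T := hT₁.trans hT
  have hT0 : 0 < T := by linarith
  obtain ⟨hBT, h2T⟩ := hTT T hT
  have hH1' : 1 ≤ H := (Real.one_le_rpow hT1 hθ0.le).trans hH1
  have hH0 : 0 < H := by linarith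
  have hBH : B ≤ H := hBT.trans hH1
  have hHT : H ≤ T := hH2.trans h2T
  obtain ⟨R, hR0, hR1, hR2⟩ := hW T H hT1 hH1' hHT
  have hmM : ∀ m : ℕ, m ≤ ⌊4 * T / H⌋₊ → m * H ≤ 4 * T := by
    intro m hm
    have := (Nat.le_floor_iff (by positivity)).1 hm
    rwa [le_div_iff₀ hH0] at this
  have hΛ : ∀ m : ℕ, m ≤ ⌊4 * T / H⌋₊ → bwL H m ≤ C₁ * T ^ ε * H + R m :=
    fun m hm => hR1 m (hmM m hm)
  have hK : 0 ≤ (2 * C₁ * T ^ ε * H) ^ k := by positivity
  have hSm : MeasurableSet ((G ∩ Icc 0 (4 * T)) \ GW T H d₁) :=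
    (hG.inter measurableSet_Icc).diff (measurableSet_GW hH0)
  have hSsub : (G ∩ Icc 0 (4 * T)) \ GW T H d₁ ⊆ Icc 0 (4 * T) :=
    Set.sdiff_subset.trans Set.inter_subset_right
  have hg := continuous_pf (a 0) (b 0)
  have hc4 : Continuous fun x => bwz x ^ 4 := bwz_cont.pow 4
  -- the local bound on `G`
  have hloc4 : ∀ t ∈ G, ∫ x in (t - 2 * H)..(t + 2 * H), bwz x ^ 2 ≤ 2 * H * T ^ (d / 2) := by
    intro t ht
    have h1 : ∫ u in (-(2 * H))..(2 * H), bwz (t + u) ^ 4 ≤ H * T ^ d := by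
      refine le_trans (le_of_eq ?_) (hGd t ht)
      refine intervalIntegral.integral_congr fun u _ => ?_
      show bwz (t + u) ^ 4 = ‖riemannZeta (1 / 2 + I * ((t:ℂ) + (u:ℂ)))‖ ^ 4
      unfold bwz
      push_cast
      rfl
    rw [bw_shift (fun x => bwz x ^ 4) t] at h1
    rw [show t + -(2 * H) = t - 2 * H by ring] at h1
    -- Cauchy-Schwarz by a weighted arithmetic-geometric mean
    set L : ℝ := T ^ (d / 2) with hL
    have hL0 : 0 < L := by positivity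
    have hLL : L * L = T ^ d := by
      rw [hL, ← Real.rpow_add hT0]
      congr 1
      ring
    have h2 : ∫ x in (t - 2 * H)..(t + 2 * H), bwz x ^ 2 ≤
        ∫ x in (t - 2 * H)..(t + 2 * H), (L / 4 + L⁻¹ * bwz x ^ 4) := by
      refine intervalIntegral.integral_mono_on (by linarith)
        ((bwz_cont.pow 2).intervalIntegrable _ _)
        ((continuous_const.add (continuous_const.mul hc4)).intervalIntegrable _ _)
        fun x _ => ?_
      have h3 : 0 ≤ L⁻¹ * (bwz x ^ 2 - L / 2) ^ 2 := by positivity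
      have h4 : L⁻¹ * (bwz x ^ 2 - L / 2) ^ 2 = L⁻¹ * bwz x ^ 4 - bwz x ^ 2 + L / 4 := by
        field_simp
        ring
      linarith
    have hi4 : IntervalIntegrable (fun x => L⁻¹ * bwz x ^ 4) volume (t - 2 * H) (t + 2 * H) :=
      (continuous_const.mul hc4).intervalIntegrable _ _
    rw [intervalIntegral.integral_add (continuous_const.intervalIntegrable _ _) hi4,
      intervalIntegral.integral_const,
      intervalIntegral.integral_const_mul, smul_eq_mul] at h2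
    have h5 : L⁻¹ * ∫ x in (t - 2 * H)..(t + 2 * H), bwz x ^ 4 ≤ L⁻¹ * (H * (L * L)) := by
      rw [hLL]
      gcongr
    have h6 : L⁻¹ * (H * (L * L)) = H * L := by field_simp
    rw [h6] at h5
    nlinarith
  rw [bw_fub a b hH0.le]
  refine (bw_split (T := T) hH0 hSm hSsub hg _ ((2 * C₁ * T ^ ε * H) ^ k)
    (fun m => (2 * H) ^ k * T ^ (k * (d / 2)) * (R m / H)) hK ?_ ?_).trans ?_
  · intro m
    have := hR0 m
    positivity
  · intro t ht m hm h1 h2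
    have htG : t ∈ G := ht.1.1
    have hR0m := hR0 m
    have hpos : 0 ≤ (2 * H) ^ k * T ^ (k * (d / 2)) * (R m / H) := by positivity
    have hint : ∀ j : Fin k, 0 ≤ ∫ u in (-H)..H, ‖pf (a j.succ) (b j.succ) (t + u)‖ := fun j =>
      intervalIntegral.integral_nonneg (by linarith) fun _ _ => norm_nonneg _
    have hl : ∀ j : Fin k, ∫ u in (-H)..H, ‖pf (a j.succ) (b j.succ) (t + u)‖ ≤
        ∫ x in (t - 2 * H)..(t + 2 * H), bwz x ^ 2 := fun j =>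
      bw_loc hH0.le ((ha _).trans hBH) ((hb _).trans hBH)
    by_cases h4 : C₁ * T ^ ε * H < R m
    · have h3 : ∏ j : Fin k, ∫ u in (-H)..H, ‖pf (a j.succ) (b j.succ) (t + u)‖ ≤
          (2 * H) ^ k * T ^ (k * (d / 2)) := by
        calc _ ≤ ∏ _j : Fin k, (2 * H * T ^ (d / 2)) :=
              Finset.prod_le_prod (fun j _ => hint j) fun j _ => (hl j).trans (hloc4 t htG)
          _ = (2 * H * T ^ (d / 2)) ^ k := by simp
          _ = _ := by rw [mul_pow, bw_pw hT0]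
      have h5 : 1 ≤ R m / H := by
        rw [le_div_iff₀ hH0, one_mul]
        have h6 : 1 ≤ C₁ * T ^ ε :=
          one_le_mul_of_one_le_of_one_le hC₁ (Real.one_le_rpow hT1 hε0.le)
        nlinarith
      have h7 : (2 * H) ^ k * T ^ (k * (d / 2)) ≤
          (2 * H) ^ k * T ^ (k * (d / 2)) * (R m / H) := le_mul_of_one_le_right (by positivity) h5
      linarith
    · rw [not_lt] at h4
      have h3 : ∏ j : Fin k, ∫ u in (-H)..H, ‖pf (a j.succ) (b j.succ) (t + u)‖ ≤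
          (2 * C₁ * T ^ ε * H) ^ k := by
        calc _ ≤ ∏ _j : Fin k, (2 * C₁ * T ^ ε * H) :=
              Finset.prod_le_prod (fun j _ => hint j) fun j _ => by
                have h5 := (hl j).trans (bw_win hH0.le m h1 h2)
                linarith [hΛ m hm]
          _ = _ := by simp
      linarith
  have hfirst : ∫⁻ t in (G ∩ Icc 0 (4 * T)) \ GW T H d₁, ‖pf (a 0) (b 0) t‖ₑ ≤
      ENNReal.ofReal (√(C₃ * T ^ (1 + ε)) * √(C₂ * T ^ (1 - d₁ / 2))) := by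
    refine bw_cs hg.measurable.enorm.aemeasurable (by positivity) (by positivity) ?_ ?_
    · calc ∫⁻ t in (G ∩ Icc 0 (4 * T)) \ GW T H d₁, ‖pf (a 0) (b 0) t‖ₑ ^ 2
          ≤ ∫⁻ t in Icc 0 (6 * T), ‖pf (a 0) (b 0) t‖ₑ ^ 2 :=
            lintegral_mono_set (hSsub.trans (Set.Icc_subset_Icc le_rfl (by linarith)))
        _ = _ := bw_ofr2 hg (by linarith)
        _ ≤ _ := ENNReal.ofReal_le_ofReal (hS T hT1 _ _ (ha 0) (hb 0))
    · rw [Measure.restrict_apply_univ]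
      exact (measure_mono (Set.sdiff_subset_sdiff_left Set.inter_subset_right)).trans
        (hV T H hT1 hH1' hHT)
  -- the windows
  set q : ℕ → ℝ := fun m => ∫ t in (m * H)..((m + 1) * H), ‖pf (a 0) (b 0) t‖ ^ 2 with hq
  have hq0 : ∀ m, 0 ≤ q m := fun m =>
    intervalIntegral.integral_nonneg (by nlinarith) fun _ _ => by positivity
  have hMT : ((⌊4 * T / H⌋₊ : ℝ) + 1) * H ≤ 6 * T := by
    have := hmM _ le_rfl
    nlinarith
  have hqs : ∑ m ∈ Finset.range (⌊4 * T / H⌋₊ + 1), q m ≤ C₃ * T ^ (1 + ε) := by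
    have h1 := intervalIntegral.sum_integral_adjacent_intervals
      (f := fun t => ‖pf (a 0) (b 0) t‖ ^ 2) (μ := volume) (a := fun m : ℕ => (m:ℝ) * H)
      (n := ⌊4 * T / H⌋₊ + 1) (fun m _ => (hg.norm.pow 2).intervalIntegrable _ _)
    have h2 : ∑ m ∈ Finset.range (⌊4 * T / H⌋₊ + 1), q m =
        ∫ t in (((0:ℕ):ℝ) * H)..(((⌊4 * T / H⌋₊ + 1 : ℕ) : ℝ) * H),
          ‖pf (a 0) (b 0) t‖ ^ 2 := by
      rw [← h1]
      refine Finset.sum_congr rfl fun m _ => ?_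
      rw [hq]
      push_cast
      rfl
    rw [h2]
    refine le_trans ?_ (hS T hT1 _ _ (ha 0) (hb 0))
    push_cast
    rw [zero_mul]
    exact intervalIntegral.integral_mono_interval le_rfl (by positivity) hMT
      (Eventually.of_forall fun x => by positivity) ((hg.norm.pow 2).intervalIntegrable _ _)
  have hsecond : ∑ m ∈ Finset.range (⌊4 * T / H⌋₊ + 1),
      ENNReal.ofReal ((2 * H) ^ k * T ^ (k * (d / 2)) * (R m / H)) *
        ∫⁻ t in Icc (m * H) ((m + 1) * H), ‖pf (a 0) (b 0) t‖ₑ ≤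
      ENNReal.ofReal ((2 * H) ^ k * T ^ (k * (d / 2)) / H * √H *
        (√(C₁ * T ^ (1 + ε)) * √(C₃ * T ^ (1 + ε)))) := by
    have h1 : ∀ m ∈ Finset.range (⌊4 * T / H⌋₊ + 1),
        ENNReal.ofReal ((2 * H) ^ k * T ^ (k * (d / 2)) * (R m / H)) *
        ∫⁻ t in Icc ((m:ℝ) * H) ((m + 1) * H), ‖pf (a 0) (b 0) t‖ₑ ≤
        ENNReal.ofReal ((2 * H) ^ k * T ^ (k * (d / 2)) / H * √H * (R m * √(q m))) := by
      intro m hm
      have hR0m := hR0 m
      have h2 : ∫⁻ t in Icc ((m:ℝ) * H) ((m + 1) * H), ‖pf (a 0) (b 0) t‖ₑ ≤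
          ENNReal.ofReal (√(q m) * √H) := by
        refine bw_cs hg.measurable.enorm.aemeasurable (hq0 m) hH0.le ?_ ?_
        · rw [bw_ofr2 hg (by nlinarith)]
        · rw [Measure.restrict_apply_univ, Real.volume_Icc]
          exact ENNReal.ofReal_le_ofReal (by linarith)
      calc _ ≤ ENNReal.ofReal ((2 * H) ^ k * T ^ (k * (d / 2)) * (R m / H)) *
            ENNReal.ofReal (√(q m) * √H) := mul_le_mul' le_rfl h2
        _ = ENNReal.ofReal ((2 * H) ^ k * T ^ (k * (d / 2)) * (R m / H) * (√(q m) * √H)) := by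
            rw [← ENNReal.ofReal_mul (by positivity)]
        _ = _ := by
            congr 1
            ring
    refine (Finset.sum_le_sum h1).trans ?_
    rw [← ENNReal.ofReal_sum_of_nonneg fun m _ => by
      have := hR0 m
      positivity, ← Finset.mul_sum]
    refine ENNReal.ofReal_le_ofReal ?_
    have h3 : ∑ m ∈ Finset.range (⌊4 * T / H⌋₊ + 1), R m * √(q m) ≤
        √(C₁ * T ^ (1 + ε)) * √(C₃ * T ^ (1 + ε)) := by
      refine (Real.sum_mul_le_sqrt_mul_sqrt _ _ _).trans ?_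
      have h4 : ∑ m ∈ Finset.range (⌊4 * T / H⌋₊ + 1), √(q m) ^ 2 ≤ C₃ * T ^ (1 + ε) := by
        refine le_trans (le_of_eq ?_) hqs
        exact Finset.sum_congr rfl fun m _ => Real.sq_sqrt (hq0 m)
      gcongr
    gcongr
  calc _ ≤ ENNReal.ofReal ((2 * C₁ * T ^ ε * H) ^ k) *
        ENNReal.ofReal (√(C₃ * T ^ (1 + ε)) * √(C₂ * T ^ (1 - d₁ / 2))) +
        ENNReal.ofReal ((2 * H) ^ k * T ^ (k * (d / 2)) / H * √H *
        (√(C₁ * T ^ (1 + ε)) * √(C₃ * T ^ (1 + ε)))) :=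
        add_le_add (mul_le_mul' le_rfl hfirst) hsecond
    _ = ENNReal.ofReal ((2 * C₁ * T ^ ε * H) ^ k *
        (√(C₃ * T ^ (1 + ε)) * √(C₂ * T ^ (1 - d₁ / 2))) +
        (2 * H) ^ k * T ^ (k * (d / 2)) / H * √H *
        (√(C₁ * T ^ (1 + ε)) * √(C₃ * T ^ (1 + ε)))) := by
        rw [← ENNReal.ofReal_mul hK, ← ENNReal.ofReal_add (by positivity) (by positivity)]
    _ ≤ _ := by
        refine ENNReal.ofReal_le_ofReal ?_
        have h1 := bw_real1 (T := T) (H := H) (C₁ := C₁) (C₂ := C₂) (C₃ := C₃) (ε := ε) (d := d₁)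
          (c := c) k hT1 hH0 hC₁ hC₂ hC₃ (by linarith)
        have h2 : (2 * H) ^ k * T ^ (k * (d / 2)) / H * √H *
            (√(C₁ * T ^ (1 + ε)) * √(C₃ * T ^ (1 + ε))) ≤
            (2 * H) ^ k * (C₁ * C₃ * T ^ (1 - c)) := by
          have e1 := bw_sqrt (e := 1 + ε) hC₁ hT1
          have e3 := bw_sqrt (e := 1 + ε) hC₃ hT1
          have e4 : √H / H ≤ T ^ (-(θ₁ / 2)) := by
            rw [Real.sqrt_div_self', Real.rpow_neg hT0.le, one_div]
            refine inv_anti₀ (by positivity) ?_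
            have h5 : T ^ (θ₁ / 2) = √(T ^ θ₁) := by
              rw [Real.sqrt_eq_rpow, ← Real.rpow_mul hT0.le]
              congr 1
              ring
            rw [h5]
            exact Real.sqrt_le_sqrt hH1
          have e5 : T ^ (k * (d / 2)) * (T ^ (-(θ₁ / 2)) *
              (T ^ ((1 + ε) / 2) * T ^ ((1 + ε) / 2))) ≤ T ^ (1 - c) := by
            rw [← Real.rpow_add hT0, ← Real.rpow_add hT0, ← Real.rpow_add hT0]
            refine Real.rpow_le_rpow_of_exponent_le hT1 ?_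
            nlinarith
          calc (2 * H) ^ k * T ^ (k * (d / 2)) / H * √H *
              (√(C₁ * T ^ (1 + ε)) * √(C₃ * T ^ (1 + ε)))
              = (2 * H) ^ k * T ^ (k * (d / 2)) * (√H / H) *
              (√(C₁ * T ^ (1 + ε)) * √(C₃ * T ^ (1 + ε))) := by ring
            _ ≤ (2 * H) ^ k * T ^ (k * (d / 2)) * T ^ (-(θ₁ / 2)) *
              ((C₁ * T ^ ((1 + ε) / 2)) * (C₃ * T ^ ((1 + ε) / 2))) := by gcongr
            _ = (2 * H) ^ k * (C₁ * C₃ * (T ^ (k * (d / 2)) * (T ^ (-(θ₁ / 2)) *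
              (T ^ ((1 + ε) / 2) * T ^ ((1 + ε) / 2))))) := by ring
            _ ≤ _ := by gcongr
        refine (add_le_add h1 h2).trans (le_of_eq ?_)
        ring

end Pool.Agent.AAS
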