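import Pool.Agent.AAS.BLK


set_option autoImplicit false

namespace Pool.Agent.AAS

open Complex Finset MeasureTheory Filter Topology Set
open Pool.Agent.H26

private theorem COP_zero {w : ℂ} (hw : 1 < w.re) : ((0 : ℕ) : ℂ) ^ (-w) = 0 := by
  have h : w ≠ 0 := by
    intro h; rw [h] at hw; simp at hw; linarith
  rw [Nat.cast_zero, Complex.zero_cpow (neg_ne_zero.mpr h)]

private theorem COP_summable {w : ℂ} (hw : 1 < w.re) :
    Summable fun n : ℕ => ‖(n : ℂ) ^ (-w)‖ := by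
  have h := (Complex.summable_one_div_nat_cpow (p := w)).mpr hw
  have h2 := h.norm
  refine h2.congr fun n => ?_
  rw [Complex.cpow_neg, one_div]

private theorem COP_zeta {w : ℂ} (hw : 1 < w.re) :
    riemannZeta w = ∑' n : ℕ, (n : ℂ) ^ (-w) := by
  rw [zeta_eq_tsum_one_div_nat_cpow hw]
  refine tsum_congr fun n => ?_
  rw [Complex.cpow_neg, one_div]

private theorem COP_pos {w : ℂ} (hw : 1 < w.re) {n : ℕ} (h : (n : ℂ) ^ (-w) ≠ 0) : 0 < n := by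
  rcases Nat.eq_zero_or_pos n with h' | h'
  · rw [h', COP_zero hw] at h; exact absurd rfl h
  · exact h'

private theorem COP_ne {w : ℂ} {n : ℕ} (h : 0 < n) : (n : ℂ) ^ (-w) ≠ 0 := by
  have : (n : ℂ) ≠ 0 := by exact_mod_cast h.ne'
  rw [Ne, Complex.cpow_eq_zero_iff]
  tauto

private noncomputable def COP_c (w₁ w₂ : ℂ) (p : ℕ × ℕ) : ℂ :=
  if Nat.Coprime p.1 p.2 then (p.1 : ℂ) ^ (-w₁) * (p.2 : ℂ) ^ (-w₂) else 0

private theorem COP_c_le (w₁ w₂ : ℂ) (p : ℕ × ℕ) :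
    ‖COP_c w₁ w₂ p‖ ≤ ‖(p.1 : ℂ) ^ (-w₁)‖ * ‖(p.2 : ℂ) ^ (-w₂)‖ := by
  unfold COP_c
  split_ifs
  · rw [norm_mul]
  · rw [norm_zero]; positivity

private theorem COP_c_summable {w₁ w₂ : ℂ} (h₁ : 1 < w₁.re) (h₂ : 1 < w₂.re) :
    Summable fun p : ℕ × ℕ => ‖COP_c w₁ w₂ p‖ :=
  Summable.of_nonneg_of_le (fun _ => norm_nonneg _) (COP_c_le w₁ w₂)
    ((COP_summable h₁).mul_of_nonneg (COP_summable h₂) (fun _ => norm_nonneg _)
      (fun _ => norm_nonneg _))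

/-- The product of two zeta values as a sum over coprime pairs. -/
private theorem COP_prod {w₁ w₂ : ℂ} (h₁ : 1 < w₁.re) (h₂ : 1 < w₂.re) :
    riemannZeta w₁ * riemannZeta w₂ = riemannZeta (w₁ + w₂) * ∑' p, COP_c w₁ w₂ p := by
  have h12 : 1 < (w₁ + w₂).re := by rw [Complex.add_re]; linarith
  rw [COP_zeta h₁, COP_zeta h₂, COP_zeta h12,
    tsum_mul_tsum_of_summable_norm (COP_summable h₁) (COP_summable h₂),
    tsum_mul_tsum_of_summable_norm (COP_summable h12) (COP_c_summable h₁ h₂)]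
  set F : ℕ × (ℕ × ℕ) → ℂ := fun x => (x.1 : ℂ) ^ (-(w₁ + w₂)) * COP_c w₁ w₂ x.2 with hF
  have hsup : ∀ x : Function.support F, 0 < x.1.1 ∧ 0 < x.1.2.1 ∧ 0 < x.1.2.2 ∧
      Nat.Coprime x.1.2.1 x.1.2.2 := by
    intro x
    have hx : F x.1 ≠ 0 := x.2
    simp only [hF] at hx
    have ha := left_ne_zero_of_mul hx
    have hb := right_ne_zero_of_mul hx
    unfold COP_c at hb
    split_ifs at hb with hc
    · exact ⟨COP_pos h12 ha, COP_pos h₁ (left_ne_zero_of_mul hb),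
        COP_pos h₂ (right_ne_zero_of_mul hb), hc⟩
    · exact absurd rfl hb
  refine tsum_eq_tsum_of_ne_zero_bij
    (fun x : Function.support F => (x.1.1 * x.1.2.1, x.1.1 * x.1.2.2)) ?_ ?_ ?_
  · intro x y hxy
    obtain ⟨hx1, hx2, hx3, hx4⟩ := hsup x
    obtain ⟨hy1, hy2, hy3, hy4⟩ := hsup y
    simp only [Prod.mk.injEq] at hxy
    obtain ⟨e1, e2⟩ := hxy
    have hg : x.1.1 = y.1.1 := by
      have hgx : Nat.gcd (x.1.1 * x.1.2.1) (x.1.1 * x.1.2.2) = x.1.1 := by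
        rw [Nat.gcd_mul_left, Nat.Coprime.gcd_eq_one hx4, mul_one]
      have hgy : Nat.gcd (y.1.1 * y.1.2.1) (y.1.1 * y.1.2.2) = y.1.1 := by
        rw [Nat.gcd_mul_left, Nat.Coprime.gcd_eq_one hy4, mul_one]
      rw [← hgx, ← hgy, e1, e2]
    rw [hg] at e1 e2
    have e1' := Nat.eq_of_mul_eq_mul_left hy1 e1
    have e2' := Nat.eq_of_mul_eq_mul_left hy1 e2
    apply Subtype.ext
    exact Prod.ext hg (Prod.ext e1' e2')
  · intro q hq
    have hq' : (q.1 : ℂ) ^ (-w₁) * (q.2 : ℂ) ^ (-w₂) ≠ 0 := hq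
    have hq1 := COP_pos h₁ (left_ne_zero_of_mul hq')
    have hq2 := COP_pos h₂ (right_ne_zero_of_mul hq')
    have hgpos : 0 < Nat.gcd q.1 q.2 := Nat.gcd_pos_of_pos_left _ hq1
    have hd1 := Nat.gcd_dvd_left q.1 q.2
    have hd2 := Nat.gcd_dvd_right q.1 q.2
    have hm : 0 < q.1 / Nat.gcd q.1 q.2 := Nat.div_pos (Nat.le_of_dvd hq1 hd1) hgpos
    have hn : 0 < q.2 / Nat.gcd q.1 q.2 := Nat.div_pos (Nat.le_of_dvd hq2 hd2) hgpos
    have hcop : Nat.Coprime (q.1 / Nat.gcd q.1 q.2) (q.2 / Nat.gcd q.1 q.2) :=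
      Nat.coprime_div_gcd_div_gcd hgpos
    have hmem : F (Nat.gcd q.1 q.2, (q.1 / Nat.gcd q.1 q.2, q.2 / Nat.gcd q.1 q.2)) ≠ 0 := by
      simp only [hF, COP_c]
      rw [if_pos hcop]
      exact mul_ne_zero (COP_ne hgpos) (mul_ne_zero (COP_ne hm) (COP_ne hn))
    refine ⟨⟨_, hmem⟩, ?_⟩
    simp only
    rw [Nat.mul_div_cancel' hd1, Nat.mul_div_cancel' hd2]
  · intro x
    obtain ⟨hx1, hx2, hx3, hx4⟩ := hsup x
    simp only [COP_c]
    rw [if_pos hx4]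
    push_cast
    rw [Complex.natCast_mul_natCast_cpow, Complex.natCast_mul_natCast_cpow]
    have hne : (x.1.1 : ℂ) ≠ 0 := by exact_mod_cast hx1.ne'
    have : (x.1.1 : ℂ) ^ (-(w₁ + w₂)) = (x.1.1 : ℂ) ^ (-w₁) * (x.1.1 : ℂ) ^ (-w₂) := by
      rw [← Complex.cpow_add _ _ hne]; congr 1; ring
    rw [this]; ring

/-- B2 -/
theorem exists_coprime_tail : ∃ C : ℝ, 0 ≤ C ∧ ∀ w₁ w₂ : ℂ, w₁.re = 5 / 4 → w₂.re = 5 / 4 →
    ∀ J : ℕ, ‖riemannZeta w₁ * riemannZeta w₂ - riemannZeta (w₁ + w₂) *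
      ∑ p ∈ low J, (p.1 : ℂ) ^ (-w₁) * (p.2 : ℂ) ^ (-w₂)‖ ≤ C * 2 ^ (-(J : ℝ) / 8) := by
  have hs98 : Summable fun n : ℕ => (n : ℝ) ^ (-(9 / 8) : ℝ) :=
    Real.summable_nat_rpow.mpr (by norm_num)
  set h : ℕ × ℕ → ℝ := fun p => (p.1 : ℝ) ^ (-(9 / 8) : ℝ) * (p.2 : ℝ) ^ (-(9 / 8) : ℝ) with hh
  have hsum : Summable h :=
    hs98.mul_of_nonneg hs98 (fun n => by positivity) (fun n => by positivity)
  have hh0 : ∀ p, 0 ≤ h p := fun p => by simp only [hh]; positivity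
  refine ⟨(∑' n : ℕ, (n : ℝ) ^ (-(5 / 2) : ℝ)) * ∑' p, h p, ?_, ?_⟩
  · exact mul_nonneg (tsum_nonneg fun n => by positivity) (tsum_nonneg hh0)
  intro w₁ w₂ hw₁ hw₂ J
  have h₁ : 1 < w₁.re := by rw [hw₁]; norm_num
  have h₂ : 1 < w₂.re := by rw [hw₂]; norm_num
  have h12 : 1 < (w₁ + w₂).re := by rw [Complex.add_re]; linarith
  have hlow : ∑ p ∈ low J, (p.1 : ℂ) ^ (-w₁) * (p.2 : ℂ) ^ (-w₂) =
      ∑ p ∈ low J, COP_c w₁ w₂ p := by
    refine Finset.sum_congr rfl fun p hp => ?_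
    unfold COP_c
    rw [if_pos (mem_low.mp hp).1]
  have hcs := (COP_c_summable h₁ h₂).of_norm
  rw [COP_prod h₁ h₂, hlow, ← mul_sub, ← hcs.sum_add_tsum_subtype_compl (low J),
    add_sub_cancel_left, norm_mul]
  have hz : ‖riemannZeta (w₁ + w₂)‖ ≤ ∑' n : ℕ, (n : ℝ) ^ (-(5 / 2) : ℝ) := by
    rw [COP_zeta h12]
    refine (norm_tsum_le_tsum_norm (COP_summable h12)).trans (le_of_eq ?_)
    refine tsum_congr fun n => ?_
    rcases Nat.eq_zero_or_pos n with h0 | h0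
    · rw [h0, COP_zero h12, norm_zero, Nat.cast_zero, Real.zero_rpow (by norm_num)]
    · rw [Complex.norm_natCast_cpow_of_pos h0]
      congr 1
      rw [Complex.neg_re, Complex.add_re, hw₁, hw₂]; norm_num
  have hpt : ∀ p : {x // x ∉ low J}, ‖COP_c w₁ w₂ p.1‖ ≤ 2 ^ (-(J : ℝ) / 8) * h p.1 := by
    rintro ⟨p, hp⟩
    simp only
    unfold COP_c
    split_ifs with hc
    · rcases Nat.eq_zero_or_pos p.1 with h0 | h0
      · rw [h0, COP_zero h₁, zero_mul, norm_zero]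
        exact mul_nonneg (by positivity) (hh0 _)
      rcases Nat.eq_zero_or_pos p.2 with h0' | h0'
      · rw [h0', COP_zero h₂, mul_zero, norm_zero]
        exact mul_nonneg (by positivity) (hh0 _)
      have hge : 2 ^ J ≤ p.1 * p.2 := by
        by_contra hcon
        push Not at hcon
        exact hp (mem_low.mpr ⟨hc, Nat.mul_pos h0 h0', hcon⟩)
      have hgeR : (2 : ℝ) ^ (J : ℝ) ≤ (p.1 : ℝ) * p.2 := by
        rw [Real.rpow_natCast]; exact_mod_cast hge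
      have hp1 : (0 : ℝ) < p.1 := by exact_mod_cast h0
      have hp2 : (0 : ℝ) < p.2 := by exact_mod_cast h0'
      rw [norm_mul, Complex.norm_natCast_cpow_of_pos h0, Complex.norm_natCast_cpow_of_pos h0',
        Complex.neg_re, Complex.neg_re, hw₁, hw₂]
      simp only [hh]
      rw [← Real.mul_rpow hp1.le hp2.le, ← Real.mul_rpow hp1.le hp2.le]
      have hpp : (0 : ℝ) < (p.1 : ℝ) * p.2 := mul_pos hp1 hp2
      have hsplit : ((p.1 : ℝ) * p.2) ^ (-(5 / 4) : ℝ) =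
          ((p.1 : ℝ) * p.2) ^ (-(1 / 8) : ℝ) * ((p.1 : ℝ) * p.2) ^ (-(9 / 8) : ℝ) := by
        rw [← Real.rpow_add hpp]; norm_num
      rw [hsplit]
      refine mul_le_mul_of_nonneg_right ?_ (by positivity)
      have h2J : (2 : ℝ) ^ (-(J : ℝ) / 8) = ((2 : ℝ) ^ (J : ℝ)) ^ (-(1 / 8) : ℝ) := by
        rw [← Real.rpow_mul (by norm_num)]; congr 1; ring
      rw [h2J]
      exact Real.rpow_le_rpow_of_nonpos (by positivity) hgeR (by norm_num)
    · rw [norm_zero]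
      exact mul_nonneg (by positivity) (hh0 _)
  have hsub : Summable fun p : {x // x ∉ low J} => ‖COP_c w₁ w₂ p.1‖ :=
    (COP_c_summable h₁ h₂).subtype _
  have hsub2 : Summable fun p : {x // x ∉ low J} => h p.1 := hsum.subtype _
  have ht : ‖∑' p : {x // x ∉ low J}, COP_c w₁ w₂ p.1‖ ≤ 2 ^ (-(J : ℝ) / 8) * ∑' p, h p := by
    refine (norm_tsum_le_tsum_norm hsub).trans ?_
    refine (hsub.tsum_le_tsum hpt (hsub2.mul_left _)).trans ?_
    rw [tsum_mul_left]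
    refine mul_le_mul_of_nonneg_left ?_ (by positivity)
    exact hsum.tsum_subtype_le h {x | x ∉ low J} hh0
  calc ‖riemannZeta (w₁ + w₂)‖ * ‖∑' p : {x // x ∉ low J}, COP_c w₁ w₂ p.1‖
      ≤ (∑' n : ℕ, (n : ℝ) ^ (-(5 / 2) : ℝ)) * (2 ^ (-(J : ℝ) / 8) * ∑' p, h p) :=
        mul_le_mul hz ht (norm_nonneg _) (tsum_nonneg fun n => by positivity)
    _ = _ := by ring

end Pool.Agent.AAS
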