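import Pool.Agent.AAS.AFE
import Pool.Agent.AAS.COP
import Pool.Agent.AAS.YKB


set_option autoImplicit false

namespace Pool.Agent.AAS

open Complex Finset MeasureTheory Filter Topology Set
open Pool.Agent.H26

/-- the majorant -/
noncomputable def BLO_m (y : ℝ) : ℝ := (1 + y ^ 2) * Real.exp (-y ^ 2) * (2 + |y|) ^ 8

lemma BLO_m_nonneg (y : ℝ) : 0 ≤ BLO_m y := by
  unfold BLO_m
  positivity

lemma BLO_m_continuous : Continuous BLO_m := by
  unfold BLO_m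
  fun_prop

lemma BLO_m_integrable : Integrable BLO_m := by
  refine ((integrable_pow_mul_exp 10 one_pos).const_mul (2 ^ 8)).mono'
    BLO_m_continuous.aestronglyMeasurable (Eventually.of_forall fun y => ?_)
  rw [Real.norm_eq_abs, abs_of_nonneg (BLO_m_nonneg y)]
  unfold BLO_m
  have h0 := abs_nonneg y
  have h1 : 1 + y ^ 2 ≤ (1 + |y|) ^ 2 := by
    rw [← sq_abs y]
    nlinarith
  have h2 : 2 + |y| ≤ 2 * (1 + |y|) := by linarith
  have e : -(1 * y ^ 2) = -y ^ 2 := by ring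
  rw [e]
  calc (1 + y ^ 2) * Real.exp (-y ^ 2) * (2 + |y|) ^ 8
      ≤ (1 + |y|) ^ 2 * Real.exp (-y ^ 2) * (2 * (1 + |y|)) ^ 8 := by gcongr
    _ = 2 ^ 8 * ((1 + |y|) ^ 10 * Real.exp (-y ^ 2)) := by ring

lemma BLO_term (a b : ℝ) (s : ℂ) (x : ℝ) {p : ℕ × ℕ} (hp : 1 ≤ p.1 * p.2) :
    cf a b s p * cexp (-(I * lq p * x)) =
      (p.1 : ℂ) ^ (-(1 / 2 + I * (x + a) + s)) * (p.2 : ℂ) ^ (-(1 / 2 - I * (x + b) + s)) := by
  have h1 : (p.1 : ℂ) ≠ 0 := by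
    have : p.1 ≠ 0 := by
      rintro h
      rw [h, zero_mul] at hp
      omega
    exact_mod_cast this
  have h2 : (p.2 : ℂ) ≠ 0 := by
    have : p.2 ≠ 0 := by
      rintro h
      rw [h, mul_zero] at hp
      omega
    exact_mod_cast this
  unfold cf lq
  rw [Complex.cpow_def_of_ne_zero h1, Complex.cpow_def_of_ne_zero h2,
    Complex.cpow_def_of_ne_zero h1, Complex.cpow_def_of_ne_zero h2, ← Complex.exp_add,
    ← Complex.exp_add, ← Complex.exp_add]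
  congr 1
  push_cast [Complex.natCast_log]
  ring

/-- the remainder of the double series -/
noncomputable def BLO_R (a b : ℝ) (κ : Bool) (x : ℝ) (J : ℕ) (s : ℂ) : ℂ :=
  riemannZeta (1 / 2 + I * (x + sw κ a b) + s) * riemannZeta (1 / 2 - I * (x + sw κ b a) + s) -
    riemannZeta (1 + 2 * s + I * (sw κ a b - sw κ b a)) * DP (low J) (sw κ a b) (sw κ b a) s x

/-- the integrand of the remainder -/
noncomputable def BLO_I (a b T : ℝ) (κ : Bool) (x : ℝ) (J : ℕ) (s : ℂ) : ℂ :=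
  KD (a - b) s * Yk a b T κ s x * BLO_R a b κ x J s

lemma BLO_R_bound : ∃ C : ℝ, 0 ≤ C ∧ ∀ (a b : ℝ) (κ : Bool) (x : ℝ) (J : ℕ) (s : ℂ),
    s.re = 3 / 4 → ‖BLO_R a b κ x J s‖ ≤ C * 2 ^ (-(J : ℝ) / 8) := by
  obtain ⟨C, hC, h⟩ := exists_coprime_tail
  refine ⟨C, hC, fun a b κ x J s hs => ?_⟩
  have h1 := h (1 / 2 + I * (x + sw κ a b) + s) (1 / 2 - I * (x + sw κ b a) + s)
    (by
      have e : (1 / 2 + I * ((x : ℂ) + sw κ a b) + s).re = 1 / 2 + s.re := by simp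
      rw [e, hs]; norm_num)
    (by
      have e : (1 / 2 - I * ((x : ℂ) + sw κ b a) + s).re = 1 / 2 + s.re := by simp
      rw [e, hs]; norm_num) J
  have e1 : (1 / 2 + I * ((x : ℂ) + sw κ a b) + s) + (1 / 2 - I * ((x : ℂ) + sw κ b a) + s) =
      1 + 2 * s + I * (sw κ a b - sw κ b a) := by ring
  have e2 : DP (low J) (sw κ a b) (sw κ b a) s x =
      ∑ p ∈ low J, (p.1 : ℂ) ^ (-(1 / 2 + I * (x + sw κ a b) + s)) *
        (p.2 : ℂ) ^ (-(1 / 2 - I * (x + sw κ b a) + s)) := by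
    unfold DP
    refine Finset.sum_congr rfl fun p hp => ?_
    exact BLO_term _ _ _ _ (mem_low.1 hp).2.1
  rw [e1, ← e2] at h1
  exact h1

lemma BLO_zeta_cont {f : ℝ → ℂ} (hf : Continuous f) (h : ∀ y, (f y).re ≠ 1) :
    Continuous fun y => riemannZeta (f y) := by
  refine continuous_iff_continuousAt.2 fun y => ?_
  have hne : f y ≠ 1 := by
    intro h1
    apply h y
    rw [h1]
    simp
  exact ContinuousAt.comp (differentiableAt_riemannZeta hne).continuousAt hf.continuousAt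

lemma BLO_R_cont (a b : ℝ) (κ : Bool) (x : ℝ) (J : ℕ) :
    Continuous fun y : ℝ => BLO_R a b κ x J (((3 / 4 : ℝ) : ℂ) + y * I) := by
  unfold BLO_R
  refine Continuous.sub (Continuous.mul ?_ ?_) (Continuous.mul ?_ ?_)
  · refine BLO_zeta_cont (by fun_prop) fun y => ?_
    have e : (1 / 2 + I * ((x : ℂ) + sw κ a b) + (((3 / 4 : ℝ) : ℂ) + y * I)).re = 5 / 4 := by
      simp
      norm_num
    rw [e]; norm_num
  · refine BLO_zeta_cont (by fun_prop) fun y => ?_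
    have e : (1 / 2 - I * ((x : ℂ) + sw κ b a) + (((3 / 4 : ℝ) : ℂ) + y * I)).re = 5 / 4 := by
      simp
      norm_num
    rw [e]; norm_num
  · refine BLO_zeta_cont (by fun_prop) fun y => ?_
    have e : (1 + 2 * (((3 / 4 : ℝ) : ℂ) + y * I) + I * ((sw κ a b : ℂ) - sw κ b a)).re =
        5 / 2 := by
      simp
      norm_num
    rw [e]; norm_num
  · unfold DP cf
    refine continuous_finsetSum _ fun p hp => ?_
    have hp1 := (mem_low.1 hp).2.1
    have h1 : (p.1 : ℂ) ≠ 0 := by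
      have : p.1 ≠ 0 := by
        rintro h
        rw [h, zero_mul] at hp1
        omega
      exact_mod_cast this
    have h2 : (p.2 : ℂ) ≠ 0 := by
      have : p.2 ≠ 0 := by
        rintro h
        rw [h, mul_zero] at hp1
        omega
      exact_mod_cast this
    refine Continuous.mul (Continuous.mul ?_ ?_) continuous_const
    · exact Continuous.const_cpow (by fun_prop) (Or.inl h1)
    · exact Continuous.const_cpow (by fun_prop) (Or.inl h2)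

lemma BLO_AI (a b T : ℝ) (κ : Bool) (j : ℕ) (s : ℂ) (x : ℝ) :
    AI a b T κ j s x = BLO_I a b T κ x j s - BLO_I a b T κ x (j + 1) s := by
  have e : DP (low (j + 1)) (sw κ a b) (sw κ b a) s x =
      DP (low j) (sw κ a b) (sw κ b a) s x + DP (blk j) (sw κ a b) (sw κ b a) s x := by
    rw [DP_low, DP_low, Finset.sum_range_succ]
  unfold AI BLO_I BLO_R
  rw [e]
  ring

lemma BLO_low_zero (a b : ℝ) (s : ℂ) (x : ℝ) : DP (low 0) a b s x = 0 := by
  rw [DP_low]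
  simp

lemma BLO_KD_cont (D : ℝ) :
    Continuous fun y : ℝ => KD D (((3 / 4 : ℝ) : ℂ) + y * I) := by
  unfold KD
  refine Continuous.div (by fun_prop) (by fun_prop) fun y => ?_
  intro h
  have := congrArg Complex.re h
  simp at this

lemma BLO_Yk_cont (a b T x : ℝ) (hT : 0 < T) (κ : Bool) :
    Continuous fun y : ℝ => Yk a b T κ (((3 / 4 : ℝ) : ℂ) + y * I) x := by
  have hY := continuous_Yk a b T hT κ (c := 3 / 4) (by norm_num)
  have hp : Continuous fun y : ℝ => ((y, x) : ℝ × ℝ) := continuous_id.prodMk continuous_const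
  have h := hY.comp hp
  exact h

lemma BLO_I_cont {a b T x : ℝ} (hT : 0 < T) (κ : Bool) (J : ℕ) :
    Continuous fun y : ℝ => BLO_I a b T κ x J (((3 / 4 : ℝ) : ℂ) + y * I) := by
  have h1 := BLO_KD_cont (a - b)
  have h2 := BLO_Yk_cont a b T x hT κ
  have h3 := BLO_R_cont a b κ x J
  exact (h1.mul h2).mul h3

lemma BLO_int (B : ℝ) (hB : 0 ≤ B) : ∃ C : ℝ, 0 ≤ C ∧ ∀ T : ℝ, 1 ≤ T →
    ∀ a b : ℝ, |a| ≤ B → |b| ≤ B → a ≠ b → ∀ x : ℝ, |x| ≤ 3 * T → ∀ (κ : Bool) (J : ℕ),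
    Integrable (fun y : ℝ => BLO_I a b T κ x J (((3 / 4 : ℝ) : ℂ) + y * I)) ∧
    ‖LI (3 / 4) (BLO_I a b T κ x J)‖ ≤
      C * (1 + 1 / (a - b) ^ 2) * (T ^ (3 / 4 : ℝ) * 2 ^ (-(J : ℝ) / 8)) := by
  obtain ⟨C₁, hC₁, h₁⟩ := exists_Yk_bound B hB
  obtain ⟨C₂, hC₂, h₂⟩ := BLO_R_bound
  have hI0 : 0 ≤ ∫ y, BLO_m y := integral_nonneg BLO_m_nonneg
  refine ⟨200 * C₁ * C₂ * ∫ y, BLO_m y, by positivity, fun T hT a b ha hb hab x hx κ J => ?_⟩
  have hD : a - b ≠ 0 := sub_ne_zero.2 hab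
  have hT0 : 0 < T := by linarith
  set E : ℝ := T ^ (3 / 4 : ℝ) * 2 ^ (-(J : ℝ) / 8) with hE
  have hE0 : 0 ≤ E := by positivity
  set K : ℝ := 200 * C₁ * C₂ * (1 + 1 / (a - b) ^ 2) * E with hK
  have hK0 : 0 ≤ K := by positivity
  have hb : ∀ y : ℝ, ‖BLO_I a b T κ x J (((3 / 4 : ℝ) : ℂ) + y * I)‖ ≤ K * BLO_m y := by
    intro y
    have hre : (((3 / 4 : ℝ) : ℂ) + y * I).re = 3 / 4 := by simp
    have hn : ‖(((3 / 4 : ℝ) : ℂ) + y * I)‖ ≤ 1 + |y| := by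
      refine (Complex.norm_le_abs_re_add_abs_im _).trans ?_
      have him : (((3 / 4 : ℝ) : ℂ) + y * I).im = y := by simp
      rw [hre, him]
      have : |(3 / 4 : ℝ)| ≤ 1 := by norm_num [abs_of_pos]
      linarith
    have k1 := norm_KD_le (D := a - b) hD (c := 3 / 4) (by norm_num)
      (by norm_num [abs_of_pos]) y
    have k2 := h₁ T hT a b ha hb κ (((3 / 4 : ℝ) : ℂ) + y * I) (by rw [hre]; norm_num)
      (by rw [hre]) x hx
    have k3 := h₂ a b κ x J (((3 / 4 : ℝ) : ℂ) + y * I) hre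
    rw [hre] at k2
    have k2' : ‖Yk a b T κ (((3 / 4 : ℝ) : ℂ) + y * I) x‖ ≤
        C₁ * (2 + |y|) ^ 8 * T ^ (3 / 4 : ℝ) := by
      refine k2.trans ?_
      have : 1 + ‖(((3 / 4 : ℝ) : ℂ) + y * I)‖ ≤ 2 + |y| := by linarith
      gcongr
    have k1' : ‖KD (a - b) (((3 / 4 : ℝ) : ℂ) + y * I)‖ ≤
        200 * (1 + 1 / (a - b) ^ 2) * ((1 + y ^ 2) * Real.exp (-y ^ 2)) := by
      refine k1.trans ?_
      have : (100 : ℝ) / |3 / 4| ≤ 200 := by
        rw [abs_of_pos (by norm_num : (0:ℝ) < 3 / 4)]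
        norm_num
      gcongr
    unfold BLO_I
    rw [norm_mul, norm_mul]
    calc _ ≤ (200 * (1 + 1 / (a - b) ^ 2) * ((1 + y ^ 2) * Real.exp (-y ^ 2))) *
          (C₁ * (2 + |y|) ^ 8 * T ^ (3 / 4 : ℝ)) * (C₂ * 2 ^ (-(J : ℝ) / 8)) := by gcongr
      _ = K * BLO_m y := by
          rw [hK, hE]
          unfold BLO_m
          ring
  have hcont : Continuous fun y : ℝ => BLO_I a b T κ x J (((3 / 4 : ℝ) : ℂ) + y * I) :=
    BLO_I_cont hT0 κ J
  have hint : Integrable (fun y : ℝ => BLO_I a b T κ x J (((3 / 4 : ℝ) : ℂ) + y * I)) :=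
    (BLO_m_integrable.const_mul K).mono' hcont.aestronglyMeasurable (Eventually.of_forall hb)
  refine ⟨hint, ?_⟩
  unfold LI
  rw [norm_mul]
  have h3 : ‖(2 * Real.pi : ℂ)⁻¹‖ ≤ 1 := by
    rw [norm_inv, norm_mul, Complex.norm_real, Real.norm_eq_abs, abs_of_pos Real.pi_pos]
    have e : ‖(2 : ℂ)‖ = 2 := by simp
    rw [e]
    have := Real.pi_gt_three
    exact inv_le_one_of_one_le₀ (by linarith)
  have h4 : ‖∫ y : ℝ, BLO_I a b T κ x J (((3 / 4 : ℝ) : ℂ) + y * I)‖ ≤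
      ∫ y, K * BLO_m y :=
    norm_integral_le_of_norm_le (BLO_m_integrable.const_mul K) (Eventually.of_forall hb)
  rw [integral_const_mul] at h4
  calc _ ≤ 1 * (K * ∫ y, BLO_m y) := by gcongr
    _ = _ := by rw [hK]; ring

/-- D2: blocks -/
theorem exists_pf_blocks (B : ℝ) (hB : 0 ≤ B) : ∃ C : ℝ, 1 ≤ C ∧ ∀ T : ℝ, 1 ≤ T →
    ∀ a b : ℝ, |a| ≤ B → |b| ≤ B → a ≠ b → ∀ x : ℝ, |x| ≤ 3 * T → ∀ J : ℕ,
    ‖pf a b x - ∑ κ : Bool, ∑ j ∈ Finset.range J, LIb a b T κ j (3 / 4) x‖ ≤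
      C * (1 + 1 / (a - b) ^ 2) * (T ^ (3 / 4 : ℝ) * 2 ^ (-(J : ℝ) / 8)) := by
  obtain ⟨C, hC, h⟩ := BLO_int B hB
  refine ⟨2 * C + 1, by linarith, fun T hT a b ha hb hab x hx J => ?_⟩
  have hT0 : 0 < T := by linarith
  have hI := h T hT a b ha hb hab x hx
  have hL : ∀ (κ : Bool) (j : ℕ), LIb a b T κ j (3 / 4) x =
      LI (3 / 4) (BLO_I a b T κ x j) - LI (3 / 4) (BLO_I a b T κ x (j + 1)) := by
    intro κ j
    unfold LIb LI
    rw [← mul_sub, ← integral_sub (hI κ j).1 (hI κ (j + 1)).1]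
    congr 1
    refine integral_congr_ae (Eventually.of_forall fun y => ?_)
    exact BLO_AI a b T κ j _ x
  have hS : ∀ κ : Bool, ∑ j ∈ Finset.range J, LIb a b T κ j (3 / 4) x =
      LI (3 / 4) (BLO_I a b T κ x 0) - LI (3 / 4) (BLO_I a b T κ x J) := by
    intro κ
    rw [Finset.sum_congr rfl fun j _ => hL κ j]
    exact Finset.sum_range_sub' (fun j => LI (3 / 4) (BLO_I a b T κ x j)) J
  have hp : pf a b x = LI (3 / 4) (BLO_I a b T false x 0) + LI (3 / 4) (BLO_I a b T true x 0) := by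
    rw [pf_eq_LI hab hT0 x]
    congr 1
    · congr 1
      funext s
      unfold BLO_I BLO_R
      rw [BLO_low_zero, mul_zero, sub_zero]
      simp only [sw]
      simp
    · congr 1
      funext s
      unfold BLO_I BLO_R
      rw [BLO_low_zero, mul_zero, sub_zero]
      simp only [sw]
      simp
  have e : pf a b x - ∑ κ : Bool, ∑ j ∈ Finset.range J, LIb a b T κ j (3 / 4) x =
      LI (3 / 4) (BLO_I a b T false x J) + LI (3 / 4) (BLO_I a b T true x J) := by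
    rw [Fintype.sum_bool, hS, hS, hp]
    ring
  rw [e]
  refine (norm_add_le _ _).trans ?_
  have h1 := (hI false J).2
  have h2 := (hI true J).2
  have h0 : 0 ≤ (1 + 1 / (a - b) ^ 2) * (T ^ (3 / 4 : ℝ) * 2 ^ (-(J : ℝ) / 8)) := by positivity
  calc _ ≤ C * (1 + 1 / (a - b) ^ 2) * (T ^ (3 / 4 : ℝ) * 2 ^ (-(J : ℝ) / 8)) +
        C * (1 + 1 / (a - b) ^ 2) * (T ^ (3 / 4 : ℝ) * 2 ^ (-(J : ℝ) / 8)) := add_le_add h1 h2
    _ = 2 * C * ((1 + 1 / (a - b) ^ 2) * (T ^ (3 / 4 : ℝ) * 2 ^ (-(J : ℝ) / 8))) := by ring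
    _ ≤ (2 * C + 1) * ((1 + 1 / (a - b) ^ 2) * (T ^ (3 / 4 : ℝ) * 2 ^ (-(J : ℝ) / 8))) := by
        gcongr
        linarith
    _ = _ := by ring

end Pool.Agent.AAS
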