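import Pool.Agent.AAS.DefsG
import Pool.Agent.AAS.FX1

set_option autoImplicit false

namespace Pool.Agent.AAS

open Complex Finset MeasureTheory Filter Topology Set
open Pool.Agent.H26

namespace EGB

variable {k : ℕ}

lemma continuous_zeta_line (s : ℂ) (hs : s.re = 0) :
    Continuous fun y : ℝ => riemannZeta (1 / 2 + s * y) := by
  refine continuous_iff_continuousAt.2 fun x => ?_
  have h1 : (1 / 2 + s * (x : ℂ)) ≠ 1 := by
    intro h
    have := congrArg Complex.re h
    simp [hs] at this
  exact (differentiableAt_riemannZeta h1).continuousAt.comp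
    (f := fun x : ℝ => 1 / 2 + s * (x : ℂ)) (by fun_prop)

lemma pf_eq (a b x : ℝ) : pf a b x =
    riemannZeta (1 / 2 + I * ((x + a : ℝ) : ℂ)) * riemannZeta (1 / 2 + -I * ((x + b : ℝ) : ℂ)) := by
  unfold pf
  push_cast
  congr 2
  ring

lemma continuous_pf_comp {X : Type*} [TopologicalSpace X] {a b x : X → ℝ} (ha : Continuous a)
    (hb : Continuous b) (hx : Continuous x) : Continuous fun q => pf (a q) (b q) (x q) := by
  simp only [pf_eq]
  exact ((continuous_zeta_line I (by simp)).comp (hx.add ha)).mul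
    ((continuous_zeta_line (-I) (by simp)).comp (hx.add hb))

lemma Z_eq (α β : Fin k → ℝ) (t : ℝ) : Z α β t = ∏ j, pf (α j) (β j) t := rfl

lemma Zc_eq (a b u : Fin k → ℝ) (t : ℝ) : Zc (fun i => (gm a b u i : ℂ)) t =
    ∏ j, pf (a j) (b j) (t + u j) := by
  unfold Zc pf
  refine Finset.prod_congr rfl fun j _ => ?_
  simp only [gm, Sum.elim_inl, Sum.elim_inr]
  push_cast
  congr 2 <;> ring

lemma Z_gm (a b u : Fin k → ℝ) (t : ℝ) : Z (fun j => gm a b u (Sum.inl j))
    (fun j => gm a b u (Sum.inr j)) t = ∏ j, pf (a j) (b j) (t + u j) := by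
  rw [Z_eq]
  refine Finset.prod_congr rfl fun j _ => ?_
  unfold pf
  simp only [gm, Sum.elim_inl, Sum.elim_inr]
  push_cast
  congr 2 <;> ring

/-- the set integral over a compact set cut with a measurable set -/
lemma continuous_setIntegral {X E : Type*} [TopologicalSpace X] [FirstCountableTopology X]
    [LocallyCompactSpace X] [NormedAddCommGroup E] [NormedSpace ℝ E] {f : X → ℝ → E}
    (hf : Continuous (Function.uncurry f)) {G : Set ℝ} (hG : MeasurableSet G) (x y : ℝ) :
    Continuous fun q => ∫ t in Icc x y ∩ G, f q t := by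
  have h := continuous_parametric_integral_of_continuous (μ := volume.restrict G) hf
    (isCompact_Icc (a := x) (b := y))
  refine h.congr fun q => ?_
  rw [Measure.restrict_restrict measurableSet_Icc]

end EGB

open EGB

theorem continuous_EG {k : ℕ} {G : Set ℝ} (hG : MeasurableSet G) (T : ℝ) :
    Continuous fun γ : Ix k → ℝ => EG G γ T := by
  unfold EG
  refine (continuous_Er T).sub ?_
  have h : Continuous (Function.uncurry fun (γ : Ix k → ℝ) (t : ℝ) =>
      Z (fun j => γ (Sum.inl j)) (fun j => γ (Sum.inr j)) t) := by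
    have : Continuous fun q : (Ix k → ℝ) × ℝ =>
        ∏ j, pf (q.1 (Sum.inl j)) (q.1 (Sum.inr j)) q.2 :=
      continuous_finsetProd _ fun j _ => continuous_pf_comp
        ((continuous_apply _).comp continuous_fst) ((continuous_apply _).comp continuous_fst)
        continuous_snd
    exact this
  have h2 := continuous_setIntegral h hG.compl 0 T
  exact h2

lemma continuous_fxj {k : ℕ} (j : Fin (k + 1)) : Continuous fun v : Fin k → ℝ => fx v j := by
  refine Fin.cases ?_ (fun i => ?_) j
  · simp only [fx, Fin.cons_zero]; exact continuous_const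
  · simp only [fx, Fin.cons_succ]; exact continuous_apply i

theorem continuous_SpG {k : ℕ} {G : Set ℝ} (hG : MeasurableSet G) (T h : ℝ) (N : ℕ) :
    Continuous fun q : (Fin k → ℝ) × (Ix (k + 1) → ℝ) =>
      SpG G (fun j => q.2 (Sum.inl j)) (fun j => q.2 (Sum.inr j)) T h N q.1 := by
  unfold SpG
  refine Continuous.finset_sup'_apply _ fun i _ => ?_
  refine continuous_setIntegral (f := fun (q : (Fin k → ℝ) × (Ix (k + 1) → ℝ)) t =>
    ∏ j, ‖pf (q.2 (Sum.inl j)) (q.2 (Sum.inr j)) (t + fx q.1 j)‖) ?_ hG _ _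
  refine continuous_finsetProd _ fun j _ => (continuous_pf_comp
    ((continuous_apply _).comp (continuous_snd.comp continuous_fst))
    ((continuous_apply _).comp (continuous_snd.comp continuous_fst))
    (continuous_snd.add ((continuous_fxj j).comp (continuous_fst.comp continuous_fst)))).norm

theorem SpG_nonneg {k : ℕ} (G : Set ℝ) (a b : Fin (k + 1) → ℝ) (T h : ℝ) (N : ℕ)
    (v : Fin k → ℝ) : 0 ≤ SpG G a b T h N v := by
  unfold SpG
  refine le_trans ?_ (Finset.le_sup' _ (Finset.mem_range.2 (Nat.succ_pos N)))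
  exact integral_nonneg fun t => Finset.prod_nonneg fun j _ => norm_nonneg _

/-- the increment of the truncated error -/
theorem norm_EG_le_add {k : ℕ} {G : Set ℝ} (hG : MeasurableSet G) {a b u : Fin k → ℝ}
    (hinj : Function.Injective (gm a b u)) {A A' : ℝ} (hA : 0 ≤ A) (hAA : A ≤ A') :
    ‖EG G (gm a b u) A'‖ ≤ ‖EG G (gm a b u) A‖ +
      (∫ t in Set.Icc A A' ∩ G, ∏ j, ‖pf (a j) (b j) (t + u j)‖) +
      (A' - A) * ∑ S ∈ (univ : Finset (Ix k)).powersetCard k,
        ‖zetaAB S (fun i => (gm a b u i : ℂ))‖ := by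
  set M : ℝ := ∑ S ∈ (univ : Finset (Ix k)).powersetCard k,
    ‖zetaAB S (fun i => (gm a b u i : ℂ))‖ with hM
  set P : ℝ → ℂ := fun t => ∏ j, pf (a j) (b j) (t + u j) with hP
  set q : ℝ → ℂ := fun t => Qsum (fun i => (gm a b u i : ℂ)) t with hq
  have hPc : Continuous P := continuous_finsetProd _ fun j _ =>
    (fx1_continuous_pf (a j) (b j)).comp (by fun_prop)
  have hDc : Continuous fun t => P t - q t := by
    have h := continuous_ZQ hinj
    simp only [Zc_eq] at h
    exact h
  have hqc : Continuous q := by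
    exact (hPc.sub hDc).congr fun t => by simp
  have hqM : ∀ t, ‖q t‖ ≤ M := by
    intro t
    rw [hq, hM]
    unfold Qsum
    refine (norm_sum_le _ _).trans (le_of_eq ?_)
    refine Finset.sum_congr rfl fun S _ => ?_
    rw [norm_mul, norm_G_real, one_mul]
  have hE : ∀ T, 0 ≤ T → EG G (gm a b u) T = (∫ t in Icc 0 T ∩ G, P t) - ∫ t in Icc 0 T, q t := by
    intro T hT
    have h1 : Er (gm a b u) T = (∫ t in Icc 0 T, P t) - ∫ t in Icc 0 T, q t := by
      rw [Er_eq_integral hinj, intervalIntegral.integral_of_le hT,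
        ← integral_Icc_eq_integral_Ioc, ← integral_sub (hPc.integrableOn_Icc)
          (hqc.integrableOn_Icc)]
      refine setIntegral_congr_fun measurableSet_Icc fun t _ => ?_
      simp only [Zc_eq]
      rfl
    have h2 : ∫ t in Icc 0 T \ G, Z (fun j => gm a b u (Sum.inl j))
        (fun j => gm a b u (Sum.inr j)) t = ∫ t in Icc 0 T \ G, P t := by
      refine setIntegral_congr_fun (measurableSet_Icc.diff hG) fun t _ => ?_
      exact Z_gm a b u t
    have h3 := integral_inter_add_sdiff (μ := volume) (s := Icc 0 T) hG (hPc.integrableOn_Icc)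
    unfold EG
    rw [h1, h2, ← h3]
    ring
  have hA' : 0 ≤ A' := hA.trans hAA
  have hsplit : ∀ (f : ℝ → ℂ), Continuous f → ∀ W : Set ℝ, MeasurableSet W →
      ∫ t in Icc 0 A' ∩ W, f t = (∫ t in Icc 0 A ∩ W, f t) + ∫ t in Ioc A A' ∩ W, f t := by
    intro f hf W hW
    have e : Icc 0 A' ∩ W = (Icc 0 A ∩ W) ∪ (Ioc A A' ∩ W) := by
      rw [← Set.union_inter_distrib_right, Icc_union_Ioc_eq_Icc hA hAA]
    rw [e]
    refine setIntegral_union ?_ (measurableSet_Ioc.inter hW)
      ((hf.integrableOn_Icc).mono_set Set.inter_subset_left)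
      ((hf.integrableOn_Icc (a := A) (b := A')).mono_set
        (Set.inter_subset_left.trans Ioc_subset_Icc_self))
    rw [Set.disjoint_left]
    intro t ht ht'
    exact absurd ht.1.2 (not_le.2 ht'.1.1)
  have e1 : EG G (gm a b u) A' = EG G (gm a b u) A + (∫ t in Ioc A A' ∩ G, P t) -
      ∫ t in Ioc A A', q t := by
    have h1 := hsplit P hPc G hG
    have h2 := hsplit q hqc Set.univ MeasurableSet.univ
    simp only [Set.inter_univ] at h2
    rw [hE A' hA', hE A hA, h1, h2]
    ring
  have h1 : ‖∫ t in Ioc A A' ∩ G, P t‖ ≤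
      ∫ t in Set.Icc A A' ∩ G, ∏ j, ‖pf (a j) (b j) (t + u j)‖ := by
    refine (norm_integral_le_integral_norm _).trans ?_
    have h2 : ∀ t, ‖P t‖ = ∏ j, ‖pf (a j) (b j) (t + u j)‖ := fun t => by rw [hP, norm_prod]
    simp only [h2]
    refine setIntegral_mono_set ?_ (Eventually.of_forall fun t =>
      Finset.prod_nonneg fun j _ => norm_nonneg _) ?_
    · simp only [← h2]
      exact (hPc.norm.integrableOn_Icc).mono_set Set.inter_subset_left
    · exact Eventually.of_forall fun t ht => ⟨Ioc_subset_Icc_self ht.1, ht.2⟩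
  have h3 : ‖∫ t in Ioc A A', q t‖ ≤ (A' - A) * M := by
    have h4 := norm_setIntegral_le_of_norm_le_const (μ := volume) (s := Ioc A A') (f := q)
      (C := M) measure_Ioc_lt_top (fun t _ => hqM t)
    refine h4.trans (le_of_eq ?_)
    rw [Measure.real, Real.volume_Ioc, ENNReal.toReal_ofReal (by linarith), mul_comm]
  calc ‖EG G (gm a b u) A'‖ = ‖EG G (gm a b u) A + (∫ t in Ioc A A' ∩ G, P t) -
        ∫ t in Ioc A A', q t‖ := by rw [e1]
    _ ≤ ‖EG G (gm a b u) A‖ + ‖∫ t in Ioc A A' ∩ G, P t‖ + ‖∫ t in Ioc A A', q t‖ :=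
        (norm_sub_le _ _).trans (by gcongr; exact norm_add_le _ _)
    _ ≤ _ := by linarith

end Pool.Agent.AAS
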