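import Pool.Agent.AAS.CRG
import Pool.Agent.AAS.BDW
import Pool.Agent.AAS.EGB

set_option autoImplicit false

namespace Pool.Agent.AAS

open Complex Finset MeasureTheory Filter Topology Set
open Pool.Agent.H26

namespace CGA

lemma isCompact_box (k : ℕ) (H : ℝ) : IsCompact (box k H) :=
  isCompact_univ_pi fun _ => isCompact_Icc

lemma continuous_gm_fx {k : ℕ} (a b : Fin (k + 1) → ℝ) :
    Continuous fun v : Fin k → ℝ => gm a b (fx v) := by
  refine continuous_pi fun i => ?_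
  rcases i with j | j
  · simp only [gm, Sum.elim_inl]
    exact continuous_const.add (continuous_fxj j)
  · simp only [gm, Sum.elim_inr]
    exact continuous_const.add (continuous_fxj j)

lemma continuous_PR {k : ℕ} (a b : Fin (k + 1) → ℝ) :
    Continuous (Function.uncurry fun (v : Fin k → ℝ) (t : ℝ) => PR a b v t) := by
  have : Continuous fun q : (Fin k → ℝ) × ℝ => ∏ j, pf (a j) (b j) (q.2 + fx q.1 j) :=
    continuous_finsetProd _ fun j _ => EGB.continuous_pf_comp continuous_const continuous_const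
      (continuous_snd.add ((continuous_fxj j).comp continuous_fst))
  exact this

lemma continuous_PR_right {k : ℕ} (a b : Fin (k + 1) → ℝ) (v : Fin k → ℝ) :
    Continuous fun t : ℝ => PR a b v t :=
  continuous_finsetProd _ fun j _ => EGB.continuous_pf_comp continuous_const continuous_const
    (continuous_id.add continuous_const)

/-- comparison of the full error with the truncated one -/
lemma norm_EG_full_le {k : ℕ} {G : Set ℝ} (hG : MeasurableSet G) (a b : Fin (k + 1) → ℝ)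
    (v : Fin k → ℝ) (T : ℝ) :
    ‖EG univ (gm a b (fx v)) T‖ ≤ ‖EG G (gm a b (fx v)) T‖ +
      ∫ t in Icc 0 T ∩ Gᶜ, ‖PR a b v t‖ := by
  have e1 : EG univ (gm a b (fx v)) T = EG G (gm a b (fx v)) T +
      ∫ t in Icc 0 T ∩ Gᶜ, PR a b v t := by
    have h2 : ∫ t in Icc 0 T \ G, Z (fun j => gm a b (fx v) (Sum.inl j))
        (fun j => gm a b (fx v) (Sum.inr j)) t = ∫ t in Icc 0 T ∩ Gᶜ, PR a b v t := by
      rw [← Set.sdiff_eq]
      refine setIntegral_congr_fun (measurableSet_Icc.diff hG) fun t _ => ?_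
      exact EGB.Z_gm a b (fx v) t
    have h3 : Icc (0:ℝ) T \ univ = ∅ := by simp
    unfold EG
    rw [h2, h3]
    simp
  rw [e1]
  exact (norm_add_le _ _).trans (by gcongr; exact norm_integral_le_integral_norm _)

end CGA

open CGA

/-- the core property for `G = univ`: `exists_core_G` for `GW T H d` and `exists_bad_windows` -/
theorem coreG_univ (k : ℕ) (hk : 1 ≤ k) (θ₁ θ₂ : ℝ) (h0 : 0 < θ₁)
    (hθ : ((k : ℝ) - 1) / (3 * k) < θ₁) (h1 : θ₁ ≤ θ₂) (h2 : θ₂ < 1) : CoreG k univ θ₁ θ₂ := by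
  obtain ⟨d, hd, hcore⟩ := exists_core_G k θ₁ θ₂ h0 h1 h2
  obtain ⟨c, c₂, ε₀, hc, hc₂, hε₀, hcore⟩ := hcore (d / 4) (by positivity)
  obtain ⟨c', hc', hbad⟩ := exists_bad_windows k hk θ₁ θ₂ d h0 hθ h1 h2 hd
  obtain ⟨CV, hCV, hvol⟩ := exists_volume_GW d hd
  refine ⟨min c c', c₂, ε₀, lt_min hc hc', hc₂, hε₀, fun B ε hB hε hεε => ?_⟩
  obtain ⟨C, T₁, hC, hT₁, hcore⟩ := hcore B ε hB hε hεε
  obtain ⟨C', T₁', hC', hT₁', hbad⟩ := hbad B hB
  -- thresholds
  obtain ⟨T₂, hT₂⟩ : ∃ T₂ : ℝ, ∀ T : ℝ, T₂ ≤ T → CV ≤ T ^ (d / 4) := by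
    have h := (tendsto_rpow_atTop (y := d / 4) (by positivity)).eventually_ge_atTop CV
    obtain ⟨T₂, hT₂⟩ := eventually_atTop.1 h
    exact ⟨T₂, hT₂⟩
  obtain ⟨T₃, hT₃⟩ : ∃ T₃ : ℝ, ∀ T : ℝ, T₃ ≤ T → 2 ≤ T ^ (1 - θ₂) := by
    have h := (tendsto_rpow_atTop (y := 1 - θ₂) (by linarith)).eventually_ge_atTop 2
    obtain ⟨T₃, hT₃⟩ := eventually_atTop.1 h
    exact ⟨T₃, hT₃⟩
  refine ⟨C + C', max (max T₁ T₁') (max T₂ T₃), by linarith, ?_, ?_⟩
  · exact le_trans hT₁ (le_trans (le_max_left _ _) (le_max_left _ _))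
  intro T H hT hH1 hH2 a b ha hb hab
  have hTT₁ : T₁ ≤ T := le_trans (le_trans (le_max_left _ _) (le_max_left _ _)) hT
  have hTT₁' : T₁' ≤ T := le_trans (le_trans (le_max_right _ _) (le_max_left _ _)) hT
  have hTT₂ : T₂ ≤ T := le_trans (le_trans (le_max_left _ _) (le_max_right _ _)) hT
  have hTT₃ : T₃ ≤ T := le_trans (le_trans (le_max_right _ _) (le_max_right _ _)) hT
  have hT1 : 1 ≤ T := hT₁.trans hTT₁
  have hT0 : 0 < T := by linarith
  have hHone : 1 ≤ H := (Real.one_le_rpow hT1 h0.le).trans hH1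
  have hH0 : 0 < H := by linarith
  have hHT : H ≤ T := by
    have h3 := hT₃ T hTT₃
    have h4 : T ^ θ₂ * T ^ (1 - θ₂) = T := by
      rw [← Real.rpow_add hT0]; simp
    have h5 : 0 < T ^ θ₂ := Real.rpow_pos_of_pos hT0 _
    nlinarith
  set G : Set ℝ := GW T H d with hGdef
  have hG : MeasurableSet G := measurableSet_GW hH0
  have hGd : Gd T H d G := GW_Gd hH0
  have hGv : volume (Icc 0 T \ G) ≤ ENNReal.ofReal (T ^ (1 - d / 4)) := by
    have h5 := hvol T H hT1 hHone hHT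
    refine (measure_mono ?_).trans (h5.trans (ENNReal.ofReal_le_ofReal ?_))
    · exact Set.sdiff_subset_sdiff_left (Icc_subset_Icc_right (by linarith))
    · have h6 := hT₂ T hTT₂
      have h7 : T ^ (1 - d / 4) = T ^ (d / 4) * T ^ (1 - d / 2) := by
        rw [← Real.rpow_add hT0]; congr 1; ring
      rw [h7]
      exact mul_le_mul_of_nonneg_right h6 (Real.rpow_nonneg hT0.le _)
  have hmain := hcore T H hTT₁ hH1 hH2 G hG hGd hGv a b ha hb hab
  have hbad' := hbad T H hTT₁' hH1 hH2 a b ha hb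
  -- integrability
  have hcE : ∀ W : Set ℝ, MeasurableSet W →
      Continuous fun v : Fin k → ℝ => ‖EG W (gm a b (fx v)) T‖ := fun W hW =>
    ((continuous_EG hW T).comp (continuous_gm_fx a b)).norm
  have hcP : Continuous fun v : Fin k → ℝ => ∫ t in Icc 0 T ∩ Gᶜ, ‖PR a b v t‖ :=
    EGB.continuous_setIntegral (f := fun (v : Fin k → ℝ) (t : ℝ) => ‖PR a b v t‖)
      (continuous_PR a b).norm hG.compl 0 T
  have hsub : Vg k H (2 * B + 1) (2 * H * T ^ (-c₂)) ⊆ box k H := fun v hv => hv.1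
  have hVm := measurableSet_Vg k H (2 * B + 1) (2 * H * T ^ (-c₂))
  have hiE : IntegrableOn (fun v : Fin k → ℝ => ‖EG G (gm a b (fx v)) T‖)
      (Vg k H (2 * B + 1) (2 * H * T ^ (-c₂))) :=
    ((hcE G hG).continuousOn.integrableOn_compact (CGA.isCompact_box k H)).mono_set hsub
  have hiEu : IntegrableOn (fun v : Fin k → ℝ => ‖EG univ (gm a b (fx v)) T‖)
      (Vg k H (2 * B + 1) (2 * H * T ^ (-c₂))) :=
    ((hcE univ MeasurableSet.univ).continuousOn.integrableOn_compact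
      (CGA.isCompact_box k H)).mono_set hsub
  have hiPb : IntegrableOn (fun v : Fin k → ℝ => ∫ t in Icc 0 T ∩ Gᶜ, ‖PR a b v t‖) (box k H) :=
    hcP.continuousOn.integrableOn_compact (CGA.isCompact_box k H)
  have hP0 : ∀ v : Fin k → ℝ, 0 ≤ ∫ t in Icc 0 T ∩ Gᶜ, ‖PR a b v t‖ := fun v =>
    integral_nonneg fun t => norm_nonneg _
  -- the bad part
  have hbadR : ∫ v in box k H, ∫ t in Icc 0 T ∩ Gᶜ, ‖PR a b v t‖ ≤
      (2 * H) ^ k * (C' * T ^ (1 - c')) := by
    have hR0 : 0 ≤ (2 * H) ^ k * (C' * T ^ (1 - c')) := by positivity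
    rw [← ENNReal.ofReal_le_ofReal_iff hR0, ofReal_integral_eq_lintegral_ofReal hiPb
      (Eventually.of_forall hP0)]
    refine le_trans ?_ hbad'
    refine lintegral_mono fun v => ?_
    have hcv : Continuous fun t : ℝ => PR a b v t := continuous_PR_right a b v
    have hiv : IntegrableOn (fun t => PR a b v t) (Icc 0 T ∩ Gᶜ) :=
      (hcv.integrableOn_Icc).mono_set Set.inter_subset_left
    have h8 := ofReal_integral_norm_eq_lintegral_enorm hiv
    rw [h8]
    refine lintegral_mono_set ?_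
    rw [← Set.sdiff_eq]
    exact Set.sdiff_subset_sdiff_left (Icc_subset_Icc_right (by linarith))
  calc ∫ v in Vg k H (2 * B + 1) (2 * H * T ^ (-c₂)), ‖EG univ (gm a b (fx v)) T‖
      ≤ ∫ v in Vg k H (2 * B + 1) (2 * H * T ^ (-c₂)), (‖EG G (gm a b (fx v)) T‖ +
          ∫ t in Icc 0 T ∩ Gᶜ, ‖PR a b v t‖) :=
        integral_mono hiEu (hiE.add (hiPb.mono_set hsub))
          (fun v => norm_EG_full_le hG a b v T)
    _ = (∫ v in Vg k H (2 * B + 1) (2 * H * T ^ (-c₂)), ‖EG G (gm a b (fx v)) T‖) +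
          ∫ v in Vg k H (2 * B + 1) (2 * H * T ^ (-c₂)), ∫ t in Icc 0 T ∩ Gᶜ, ‖PR a b v t‖ :=
        integral_add hiE (hiPb.mono_set hsub)
    _ ≤ (2 * H) ^ k * (C * T ^ (1 - c)) + (2 * H) ^ k * (C' * T ^ (1 - c')) := by
        refine add_le_add hmain (le_trans ?_ hbadR)
        exact setIntegral_mono_set hiPb (Eventually.of_forall hP0) (Eventually.of_forall hsub)
    _ ≤ (2 * H) ^ k * ((C + C') * T ^ (1 - min c c')) := by
        have e1 : T ^ (1 - c) ≤ T ^ (1 - min c c') :=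
          Real.rpow_le_rpow_of_exponent_le hT1 (by linarith [min_le_left c c'])
        have e2 : T ^ (1 - c') ≤ T ^ (1 - min c c') :=
          Real.rpow_le_rpow_of_exponent_le hT1 (by linarith [min_le_right c c'])
        have e3 : 0 ≤ (2 * H) ^ k := by positivity
        have e4 := mul_le_mul_of_nonneg_left e1 (by linarith : (0:ℝ) ≤ C)
        have e5 := mul_le_mul_of_nonneg_left e2 (by linarith : (0:ℝ) ≤ C')
        nlinarith [mul_le_mul_of_nonneg_left (add_le_add e4 e5) e3]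

end Pool.Agent.AAS
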