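import Pool.Agent.AAS.DefsH
import Pool.Agent.AAS.M4

set_option autoImplicit false

namespace Pool.Agent.AAS

open Complex Finset MeasureTheory Filter Topology Set
open Pool.Agent.H26

/-- fourth power of zeta on the critical line -/
private noncomputable def gst_g (x : ℝ) : ℝ := ‖riemannZeta (1 / 2 + I * x)‖ ^ 4

private lemma gst_g_cont : Continuous gst_g := by
  unfold gst_g
  refine Continuous.pow (Continuous.norm ?_) 4
  refine continuous_iff_continuousAt.2 fun y => ?_
  have hne : (1 / 2 + I * (y : ℂ)) ≠ 1 := by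
    intro h1
    have := congrArg Complex.re h1
    simp at this
  exact ContinuousAt.comp (f := fun y : ℝ => (1 / 2 + I * (y : ℂ)))
    (differentiableAt_riemannZeta hne).continuousAt (by fun_prop)

private lemma gst_g_nonneg (x : ℝ) : 0 ≤ gst_g x := by unfold gst_g; positivity

/-- local fourth moment -/
private noncomputable def gst_f (t R : ℝ) : ℝ := ∫ u in (-R)..R, gst_g (t + u)

private lemma gst_f_eq (t R : ℝ) :
    gst_f t R = ∫ u in (-R)..R, ‖riemannZeta (1 / 2 + I * (t + u))‖ ^ 4 := by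
  unfold gst_f gst_g
  simp only [ofReal_add]

private lemma gst_f_eq' (t R : ℝ) : gst_f t R = ∫ x in (t - R)..(t + R), gst_g x := by
  unfold gst_f
  rw [intervalIntegral.integral_comp_add_left (fun x => gst_g x) t, ← sub_eq_add_neg]

private lemma gst_f_cont (R : ℝ) : Continuous fun t => gst_f t R := by
  unfold gst_f
  apply intervalIntegral.continuous_parametric_intervalIntegral_of_continuous'
  exact gst_g_cont.comp (continuous_fst.add continuous_snd)

private lemma gst_f_nonneg (t R : ℝ) (hR : 0 ≤ R) : 0 ≤ gst_f t R := by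
  unfold gst_f
  exact intervalIntegral.integral_nonneg (by linarith) fun u _ => gst_g_nonneg _

private lemma gst_mono {a b c d : ℝ} (hca : c ≤ a) (hab : a ≤ b) (hbd : b ≤ d) :
    ∫ x in a..b, gst_g x ≤ ∫ x in c..d, gst_g x :=
  intervalIntegral.integral_mono_interval hca hab hbd
    (ae_of_all _ fun x => gst_g_nonneg x) (gst_g_cont.intervalIntegrable _ _)

private lemma gst_cheb (T R A : ℝ) (hT : 0 ≤ T) (hR : 0 ≤ R) (hA : 0 < A) :
    volume ({t | A ≤ gst_f t R} ∩ Icc 0 T) ≤
      ENNReal.ofReal (2 * R * (∫ x in (-R)..(T + R), gst_g x) / A) := by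
  have hms : MeasurableSet {t | A ≤ gst_f t R} :=
    measurableSet_le measurable_const (gst_f_cont R).measurable
  have h1 := mul_meas_ge_le_integral_of_nonneg (μ := volume.restrict (Icc 0 T))
    (f := fun t => gst_f t R) (ae_of_all _ fun t => gst_f_nonneg t R hR)
    ((gst_f_cont R).continuousOn.integrableOn_Icc) A
  have h2 : ∫ t in Icc 0 T, gst_f t R ≤ 2 * R * ∫ x in (-R)..(T + R), gst_g x := by
    rw [integral_Icc_eq_integral_Ioc, ← intervalIntegral.integral_of_le hT]
    unfold gst_f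
    rw [intervalIntegral_intervalIntegral_swap]
    · have h3 : ∀ u ∈ Icc (-R) R, ∫ t in (0 : ℝ)..T, gst_g (t + u) ≤
          ∫ x in (-R)..(T + R), gst_g x := by
        intro u hu
        rw [intervalIntegral.integral_comp_add_right (fun x => gst_g x) u]
        exact gst_mono (by linarith [hu.1]) (by linarith) (by linarith [hu.2])
      have hc : Continuous fun u => ∫ t in (0 : ℝ)..T, gst_g (t + u) := by
        apply intervalIntegral.continuous_parametric_intervalIntegral_of_continuous'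
        exact gst_g_cont.comp (continuous_snd.add continuous_fst)
      calc ∫ u in (-R)..R, ∫ t in (0 : ℝ)..T, gst_g (t + u)
          ≤ ∫ _ in (-R)..R, ∫ x in (-R)..(T + R), gst_g x :=
            intervalIntegral.integral_mono_on (by linarith) (hc.intervalIntegrable _ _)
              (by simp) h3
        _ = 2 * R * ∫ x in (-R)..(T + R), gst_g x := by
            rw [intervalIntegral.integral_const, smul_eq_mul]; ring
    · have hF : Continuous (Function.uncurry fun t u : ℝ => gst_g (t + u)) :=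
        gst_g_cont.comp (continuous_fst.add continuous_snd)
      exact (hF.continuousOn.integrableOn_compact (isCompact_uIcc.prod isCompact_uIcc)).mono_set
        (Set.prod_mono uIoc_subset_uIcc uIoc_subset_uIcc)
  have hfin : volume ({t | A ≤ gst_f t R} ∩ Icc 0 T) ≠ ⊤ := by
    refine ne_top_of_le_ne_top ?_ (measure_mono inter_subset_right)
    simp
  have h4 : (volume.restrict (Icc 0 T)).real {t | A ≤ gst_f t R} =
      (volume ({t | A ≤ gst_f t R} ∩ Icc 0 T)).toReal := by
    rw [Measure.real, Measure.restrict_apply hms]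
  rw [h4] at h1
  rw [← ENNReal.ofReal_toReal hfin]
  apply ENNReal.ofReal_le_ofReal
  rw [le_div_iff₀ hA]
  linarith

theorem measurableSet_Gset (κ d : ℝ) : MeasurableSet (Gset κ d) := by
  have h : Gset κ d = {t | 1 ≤ t} ∩ ⋂ m : ℕ, ({t : ℝ | t ^ κ ≤ (2 : ℝ) ^ m}ᶜ ∪
      ({t : ℝ | (2 : ℝ) ^ m ≤ t}ᶜ ∪ {t : ℝ | gst_f t (4 * 2 ^ m) ≤ 2 ^ m * t ^ d})) := by
    ext t
    simp only [Gset, mem_setOf_eq, mem_inter_iff, mem_iInter, mem_union, mem_compl_iff]
    refine and_congr_right fun _ => forall_congr' fun m => ?_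
    rw [gst_f_eq]
    tauto
  rw [h]
  refine MeasurableSet.inter measurableSet_Ici (MeasurableSet.iInter fun m => ?_)
  refine MeasurableSet.union (MeasurableSet.compl ?_) (MeasurableSet.union
    (MeasurableSet.compl ?_) ?_)
  · exact measurableSet_le (measurable_id.pow_const κ) measurable_const
  · exact measurableSet_le measurable_const measurable_id
  · exact measurableSet_le (gst_f_cont _).measurable
      (measurable_const.mul (measurable_id.pow_const d))

/-- Chebyshev and Fubini for each `m` with `2^m ≤ T`, on `[T^(1-d/2), T]`; `exists_zeta_fourth` -/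
theorem exists_volume_Gset (κ d : ℝ) (hκ : 0 < κ) (hd : 0 < d) (hd1 : d ≤ 1 / 2) :
    ∃ C : ℝ, 1 ≤ C ∧ ∀ T : ℝ, 1 ≤ T →
    volume (Icc 0 T \ Gset κ d) ≤ ENNReal.ofReal (C * T ^ (1 - d / 2)) := by
  obtain ⟨C0, hC0, hz⟩ := exists_zeta_fourth (d / 8) (by positivity)
  have hlog2 : 0 < Real.log 2 := Real.log_pos (by norm_num)
  set C1 : ℝ := 8 / (d * Real.log 2) + 1 with hC1
  have hC1pos : 0 < C1 := by positivity
  refine ⟨1 + C1 * (8 * (C0 * 5 ^ (1 + d / 8))), ?_, ?_⟩
  · have : 0 ≤ C1 * (8 * (C0 * 5 ^ (1 + d / 8))) := by positivity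
    linarith
  intro T hT
  have hT0 : (0 : ℝ) < T := by linarith
  set T0 : ℝ := T ^ (1 - d / 2) with hT0def
  have hT01 : 1 ≤ T0 := Real.one_le_rpow hT (by linarith)
  have hT0p : 0 < T0 := by linarith
  obtain ⟨M, hM1, hM2⟩ := exists_nat_pow_near hT (by norm_num : (1 : ℝ) < 2)
  set K : ℝ := 8 * (C0 * (5 * T) ^ (1 + d / 8)) / T0 ^ d with hK
  have hKpos : 0 ≤ K := by positivity
  have hcov : Icc 0 T \ Gset κ d ⊆ Icc 0 T0 ∪
      ⋃ m ∈ Finset.range (M + 1),
        ({t | 2 ^ m * T0 ^ d ≤ gst_f t (4 * 2 ^ m)} ∩ Icc 0 T) := by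
    intro t ht
    obtain ⟨⟨ht0, htT⟩, htG⟩ := ht
    rcases le_or_gt t T0 with h | h
    · exact Or.inl ⟨ht0, h⟩
    · right
      have ht1 : 1 ≤ t := by linarith
      simp only [Gset, mem_setOf_eq, not_and, not_forall, not_le] at htG
      obtain ⟨m, hm1, hm2, hm3⟩ := htG ht1
      rw [← gst_f_eq] at hm3
      have hmM : m < M + 1 := by
        by_contra hc
        have : (2 : ℝ) ^ (M + 1) ≤ 2 ^ m := pow_le_pow_right₀ (by norm_num) (by omega)
        linarith
      simp only [mem_iUnion]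
      refine ⟨m, Finset.mem_range.2 hmM, ?_, ht0, htT⟩
      have h5 : T0 ^ d ≤ t ^ d := Real.rpow_le_rpow hT0p.le h.le hd.le
      have h6 : (2 : ℝ) ^ m * T0 ^ d ≤ 2 ^ m * t ^ d :=
        mul_le_mul_of_nonneg_left h5 (by positivity)
      exact h6.trans hm3.le
  have hterm : ∀ m ∈ Finset.range (M + 1),
      volume ({t | 2 ^ m * T0 ^ d ≤ gst_f t (4 * 2 ^ m)} ∩ Icc 0 T) ≤ ENNReal.ofReal K := by
    intro m hm
    have hmM : m ≤ M := by have := Finset.mem_range.1 hm; omega
    have h2m : (2 : ℝ) ^ m ≤ T := (pow_le_pow_right₀ (by norm_num) hmM).trans hM1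
    have h2p : (0 : ℝ) < 2 ^ m := by positivity
    refine (gst_cheb T (4 * 2 ^ m) (2 ^ m * T0 ^ d) hT0.le (by positivity)
      (by positivity)).trans ?_
    apply ENNReal.ofReal_le_ofReal
    have hI : ∫ x in (-(4 * 2 ^ m : ℝ))..(T + 4 * 2 ^ m), gst_g x ≤
        C0 * (5 * T) ^ (1 + d / 8) := by
      refine (gst_mono (c := -(5 * T)) (d := 5 * T) (by linarith) (by linarith)
        (by linarith)).trans ?_
      exact hz (5 * T) (by linarith)
    have h7 : 2 * (4 * 2 ^ m) * (∫ x in (-(4 * 2 ^ m : ℝ))..(T + 4 * 2 ^ m), gst_g x) /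
        (2 ^ m * T0 ^ d) = 8 * (∫ x in (-(4 * 2 ^ m : ℝ))..(T + 4 * 2 ^ m), gst_g x) /
        T0 ^ d := by
      field_simp
      ring
    rw [h7, hK]
    gcongr
  have hsum : volume (Icc 0 T \ Gset κ d) ≤
      ENNReal.ofReal T0 + (M + 1 : ℕ) * ENNReal.ofReal K := by
    refine (measure_mono hcov).trans ((measure_union_le _ _).trans ?_)
    refine add_le_add ?_ ?_
    · rw [Real.volume_Icc, sub_zero]
    · refine (measure_biUnion_finset_le _ _).trans ((Finset.sum_le_sum hterm).trans ?_)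
      rw [Finset.sum_const, Finset.card_range, nsmul_eq_mul]
  refine hsum.trans ?_
  rw [← ENNReal.ofReal_natCast, ← ENNReal.ofReal_mul (by positivity),
    ← ENNReal.ofReal_add hT0p.le (by positivity)]
  apply ENNReal.ofReal_le_ofReal
  have hMle : ((M + 1 : ℕ) : ℝ) ≤ C1 * T ^ (d / 8) := by
    have h8 : (M : ℝ) * Real.log 2 ≤ Real.log T := by
      rw [← Real.log_pow]
      exact Real.log_le_log (by positivity) hM1
    have h9 := Real.log_le_rpow_div hT0.le (by positivity : 0 < d / 8)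
    have h10 : (M : ℝ) ≤ 8 / (d * Real.log 2) * T ^ (d / 8) := by
      rw [div_mul_eq_mul_div, le_div_iff₀ (by positivity)]
      have h11 : T ^ (d / 8) / (d / 8) * d = 8 * T ^ (d / 8) := by
        field_simp
      nlinarith
    have h12 : 1 ≤ T ^ (d / 8) := Real.one_le_rpow hT (by positivity)
    rw [hC1]
    push_cast
    nlinarith
  have hKle : K * T ^ (d / 8) ≤ 8 * (C0 * 5 ^ (1 + d / 8)) * T0 := by
    rw [hK, hT0def, Real.mul_rpow (by norm_num) hT0.le, ← Real.rpow_mul hT0.le]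
    have h13 : 8 * (C0 * (5 ^ (1 + d / 8) * T ^ (1 + d / 8))) / T ^ ((1 - d / 2) * d) *
        T ^ (d / 8) = 8 * (C0 * 5 ^ (1 + d / 8)) *
        (T ^ (1 + d / 8) * T ^ (d / 8) / T ^ ((1 - d / 2) * d)) := by
      ring
    rw [h13, ← Real.rpow_add hT0, ← Real.rpow_sub hT0]
    apply mul_le_mul_of_nonneg_left _ (by positivity)
    apply Real.rpow_le_rpow_of_exponent_le hT
    nlinarith
  calc T0 + ((M + 1 : ℕ) : ℝ) * K ≤ T0 + C1 * T ^ (d / 8) * K := by
        gcongr
    _ = T0 + C1 * (K * T ^ (d / 8)) := by ring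
    _ ≤ T0 + C1 * (8 * (C0 * 5 ^ (1 + d / 8)) * T0) := by gcongr
    _ = (1 + C1 * (8 * (C0 * 5 ^ (1 + d / 8)))) * T0 := by ring

/-- for `t ≥ H` take `2^m ≤ H < 2^(m+1)`; for `t < H` use `exists_zeta_fourth` on `[-3H, 3H]` -/
theorem exists_Gset_GL (κ θ d d' : ℝ) (hκ : 0 < κ) (hκθ : κ < θ) (hd' : 0 < d') (hd : d' < d) :
    ∃ T₁ : ℝ, 1 ≤ T₁ ∧ ∀ T H : ℝ, T₁ ≤ T → T ^ θ ≤ H → H ≤ T →
    Gd T H d (Gset κ d' ∩ Icc 0 (4 * T)) := by
  obtain ⟨C0, hC0, hz⟩ := exists_zeta_fourth (d / 2) (by linarith)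
  obtain ⟨A1, hA1⟩ := eventually_atTop.1
    ((tendsto_rpow_atTop (show 0 < θ - κ by linarith)).eventually_ge_atTop (2 * 4 ^ κ))
  obtain ⟨A2, hA2⟩ := eventually_atTop.1
    ((tendsto_rpow_atTop (show 0 < d - d' by linarith)).eventually_ge_atTop (4 ^ d'))
  obtain ⟨A3, hA3⟩ := eventually_atTop.1
    ((tendsto_rpow_atTop (show 0 < d / 2 by linarith)).eventually_ge_atTop
      (C0 * 3 ^ (1 + d / 2)))
  refine ⟨max 1 (max A1 (max A2 A3)), le_max_left _ _, ?_⟩
  intro T H hT hH hHT t ht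
  have hT1 : 1 ≤ T := (le_max_left _ _).trans hT
  have hTA1 : A1 ≤ T := ((le_max_left _ _).trans (le_max_right _ _)).trans hT
  have hTA2 : A2 ≤ T :=
    (((le_max_left _ _).trans (le_max_right _ _)).trans (le_max_right _ _)).trans hT
  have hTA3 : A3 ≤ T :=
    (((le_max_right _ _).trans (le_max_right _ _)).trans (le_max_right _ _)).trans hT
  have hT0 : (0 : ℝ) < T := by linarith
  have hH1 : 1 ≤ H := (Real.one_le_rpow hT1 (by linarith)).trans hH
  obtain ⟨⟨ht1, htG⟩, ht0, ht4⟩ := ht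
  rw [← gst_f_eq, gst_f_eq']
  rcases le_or_gt H t with h | h
  · obtain ⟨m, hm1, hm2⟩ := exists_nat_pow_near hH1 (by norm_num : (1 : ℝ) < 2)
    have hk : t ^ κ ≤ 2 ^ m := by
      have h1 : t ^ κ ≤ (4 * T) ^ κ := Real.rpow_le_rpow ht0 ht4 hκ.le
      have h2 : (4 * T) ^ κ = 4 ^ κ * T ^ κ := Real.mul_rpow (by norm_num) hT0.le
      have h3 := hA1 T hTA1
      have h4 : T ^ θ = T ^ (θ - κ) * T ^ κ := by
        rw [← Real.rpow_add hT0]; congr 1; ring
      have h5 : 0 < T ^ κ := Real.rpow_pos_of_pos hT0 _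
      have h6 : 2 * (4 ^ κ * T ^ κ) ≤ T ^ θ := by
        rw [h4]; nlinarith
      rw [pow_succ] at hm2
      linarith
    have h7 := htG m hk (hm1.trans h)
    rw [← gst_f_eq, gst_f_eq'] at h7
    rw [pow_succ] at hm2
    refine (gst_mono (c := t - 4 * 2 ^ m) (d := t + 4 * 2 ^ m) (by linarith) (by linarith)
      (by linarith)).trans (h7.trans ?_)
    have h8 : t ^ d' ≤ T ^ d := by
      have h9 : t ^ d' ≤ (4 * T) ^ d' := Real.rpow_le_rpow ht0 ht4 hd'.le
      rw [Real.mul_rpow (by norm_num) hT0.le] at h9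
      have h10 := hA2 T hTA2
      have h11 : T ^ d = T ^ (d - d') * T ^ d' := by
        rw [← Real.rpow_add hT0]; congr 1; ring
      have h12 : 0 < T ^ d' := Real.rpow_pos_of_pos hT0 _
      rw [h11]
      nlinarith
    exact mul_le_mul hm1 h8 (Real.rpow_nonneg ht0 _) (by linarith)
  · refine (gst_mono (c := -(3 * H)) (d := 3 * H) (by linarith) (by linarith)
      (by linarith)).trans ?_
    refine (hz (3 * H) (by linarith)).trans ?_
    have hH0 : 0 < H := by linarith
    rw [Real.mul_rpow (by norm_num) hH0.le, Real.rpow_add hH0, Real.rpow_one]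
    have h1 := hA3 T hTA3
    have h2 : H ^ (d / 2) ≤ T ^ (d / 2) := Real.rpow_le_rpow hH0.le hHT (by linarith)
    have h3 : T ^ d = T ^ (d / 2) * T ^ (d / 2) := by
      rw [← Real.rpow_add hT0]; congr 1; ring
    have h4 : 0 < T ^ (d / 2) := Real.rpow_pos_of_pos hT0 _
    calc C0 * (3 ^ (1 + d / 2) * (H * H ^ (d / 2)))
        = H * (C0 * 3 ^ (1 + d / 2) * H ^ (d / 2)) := by ring
      _ ≤ H * (T ^ (d / 2) * T ^ (d / 2)) := by
          gcongr
      _ = H * T ^ d := by rw [h3]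

end Pool.Agent.AAS
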