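import Pool.Agent.AAS.CRG
import Pool.Agent.AAS.GST

set_option autoImplicit false

namespace Pool.Agent.AAS

open Complex Finset MeasureTheory Filter Topology Set
open Pool.Agent.H26

/-- the core property of the fixed set `Gset κ d'` -/
theorem exists_coreG_Gset (k : ℕ) (θ₁ θ₂ : ℝ) (h0 : 0 < θ₁) (h1 : θ₁ ≤ θ₂) (h2 : θ₂ < 1) :
    ∃ d : ℝ, 0 < d ∧ ∀ κ d' : ℝ, 0 < κ → κ < θ₁ → 0 < d' → d' ≤ d →
    CoreG k (Gset κ d') θ₁ θ₂ := by
  obtain ⟨d₀, hd₀, hcore⟩ := exists_core_G k θ₁ θ₂ h0 h1 h2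
  refine ⟨min (d₀ / 2) (1 / 2), by positivity, ?_⟩
  intro κ d' hκ hκθ hd' hd'd
  have hd1 : d' < d₀ := by
    have := hd'd.trans (min_le_left _ _)
    linarith
  have hd2 : d' ≤ 1 / 2 := hd'd.trans (min_le_right _ _)
  obtain ⟨c, c₂, ε₀, hc, hc₂, hε₀, hmain⟩ := hcore (d' / 4) (by linarith)
  obtain ⟨C₁, hC₁, hvol⟩ := exists_volume_Gset κ d' hκ hd' hd2
  obtain ⟨T₂, hT₂, hGd⟩ := exists_Gset_GL κ θ₁ d₀ d' hκ hκθ hd' hd1
  refine ⟨c, c₂, ε₀, hc, hc₂, hε₀, ?_⟩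
  intro B ε hB hε hεε
  obtain ⟨C, T₁, hC, hT₁, hb⟩ := hmain B ε hB hε hεε
  have hmax : 1 ≤ max (max T₁ T₂) (max (C₁ ^ (4 / d')) (2 ^ (1 / (1 - θ₂)))) :=
    hT₁.trans ((le_max_left _ _).trans (le_max_left _ _))
  refine ⟨C, max (max T₁ T₂) (max (C₁ ^ (4 / d')) (2 ^ (1 / (1 - θ₂)))), hC, hmax, ?_⟩
  intro T H hT hH1 hH2 a b ha hbb hab
  have hTT1 : T₁ ≤ T := ((le_max_left _ _).trans (le_max_left _ _)).trans hT
  have hTT2 : T₂ ≤ T := ((le_max_right _ _).trans (le_max_left _ _)).trans hT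
  have hTC : C₁ ^ (4 / d') ≤ T := ((le_max_left _ _).trans (le_max_right _ _)).trans hT
  have hT2 : (2:ℝ) ^ (1 / (1 - θ₂)) ≤ T := ((le_max_right _ _).trans (le_max_right _ _)).trans hT
  have hT1 : 1 ≤ T := hT₁.trans hTT1
  have hT0 : 0 < T := by linarith
  have hC10 : 0 ≤ C₁ := by linarith
  -- `C₁ ≤ T ^ (d' / 4)`
  have hC1T : C₁ ≤ T ^ (d' / 4) := by
    have h3 := Real.rpow_le_rpow (Real.rpow_nonneg hC10 _) hTC (z := d' / 4) (by linarith)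
    rw [← Real.rpow_mul hC10] at h3
    have h4 : 4 / d' * (d' / 4) = 1 := by field_simp
    rw [h4, Real.rpow_one] at h3
    exact h3
  -- `2 * T ^ θ₂ ≤ T`
  have hHT : H ≤ T := by
    have h3 := Real.rpow_le_rpow (Real.rpow_nonneg (by norm_num) _) hT2 (z := 1 - θ₂)
      (by linarith)
    rw [← Real.rpow_mul (by norm_num)] at h3
    have h4 : 1 / (1 - θ₂) * (1 - θ₂) = 1 := by
      have : (1 - θ₂) ≠ 0 := by linarith
      field_simp
    rw [h4, Real.rpow_one] at h3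
    have h5 : T ^ (1 - θ₂) * T ^ θ₂ = T := by
      rw [← Real.rpow_add hT0]
      have : 1 - θ₂ + θ₂ = 1 := by ring
      rw [this, Real.rpow_one]
    have h6 : 0 ≤ T ^ θ₂ := Real.rpow_nonneg hT0.le _
    calc H ≤ 2 * T ^ θ₂ := hH2
      _ ≤ T ^ (1 - θ₂) * T ^ θ₂ := mul_le_mul_of_nonneg_right h3 h6
      _ = T := h5
  have hset : Set.Icc 0 T \ (Gset κ d' ∩ Set.Icc 0 T) = Set.Icc 0 T \ Gset κ d' := by
    ext t
    simp only [Set.mem_sdiff, Set.mem_inter_iff, not_and]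
    tauto
  have hvol' : volume (Set.Icc 0 T \ (Gset κ d' ∩ Set.Icc 0 T)) ≤
      ENNReal.ofReal (T ^ (1 - d' / 4)) := by
    rw [hset]
    refine (hvol T hT1).trans (ENNReal.ofReal_le_ofReal ?_)
    calc C₁ * T ^ (1 - d' / 2) ≤ T ^ (d' / 4) * T ^ (1 - d' / 2) :=
          mul_le_mul_of_nonneg_right hC1T (Real.rpow_nonneg hT0.le _)
      _ = T ^ (1 - d' / 4) := by
          rw [← Real.rpow_add hT0]
          congr 1
          ring
  have hgd : Gd T H d₀ (Gset κ d' ∩ Set.Icc 0 T) := by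
    intro t ht
    refine hGd T H hTT2 hH1 hHT t ⟨ht.1, ht.2.1, ?_⟩
    linarith [ht.2.2]
  have hres := hb T H hTT1 hH1 hH2 (Gset κ d' ∩ Set.Icc 0 T)
    ((measurableSet_Gset κ d').inter measurableSet_Icc) hgd hvol' a b ha hbb hab
  have hEG : ∀ v : Fin k → ℝ, EG (Gset κ d' ∩ Set.Icc 0 T) (gm a b (fx v)) T =
      EG (Gset κ d') (gm a b (fx v)) T := by
    intro v
    unfold EG
    rw [hset]
  simp only [hEG] at hres
  exact hres

end Pool.Agent.AAS
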