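import Pool.Agent.AAS.Defs

set_option autoImplicit false

namespace Pool.Agent.AAS

open Complex Finset MeasureTheory Filter Topology Set
open Pool.Agent.H26

open scoped ENNReal in
/-- Chebyshev's inequality twice, and Tonelli -/
theorem volume_bad_le {X Y : Type*} [MeasureSpace X] [MeasureSpace Y]
    [SFinite (volume : Measure X)] [SFinite (volume : Measure Y)] {F : X → Y → ℝ≥0∞}
    (hF : Measurable fun p : X × Y => F p.1 p.2) {U : Set X} {W : Set Y} (hU : MeasurableSet U)
    (hW : MeasurableSet W) {K lam δ : ℝ≥0∞} (hl : lam ≠ 0) (hl' : lam ≠ ⊤) (hδ : δ ≠ 0)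
    (hδ' : δ ≠ ⊤) (h : ∀ y ∈ W, ∫⁻ x in U, F x y ≤ K) :
    volume {x | x ∈ U ∧ δ < volume {y | y ∈ W ∧ lam < F x y}} ≤ volume W * K / (lam * δ) := by
  set A : Set (X × Y) := {p | lam < F p.1 p.2} with hA
  have hAm : MeasurableSet A := measurableSet_lt measurable_const hF
  have hg : Measurable fun x => (volume.restrict W) (Prod.mk x ⁻¹' A) :=
    measurable_measure_prodMk_left hAm
  have h1 : ∀ x, volume {y | y ∈ W ∧ lam < F x y} = (volume.restrict W) (Prod.mk x ⁻¹' A) := by
    intro x
    rw [Measure.restrict_apply (measurable_prodMk_left hAm)]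
    congr 1
    ext y
    simp only [Set.mem_ofPred_eq, Set.mem_inter_iff, Set.mem_preimage, hA]
    exact and_comm
  have h2 : {x | x ∈ U ∧ δ < volume {y | y ∈ W ∧ lam < F x y}} =
      {x | δ < (volume.restrict W) (Prod.mk x ⁻¹' A)} ∩ U := by
    ext x
    simp only [Set.mem_ofPred_eq, Set.mem_inter_iff, h1 x]
    exact and_comm
  rw [h2, ← Measure.restrict_apply (measurableSet_lt measurable_const hg)]
  have h3 : δ * (volume.restrict U) {x | δ < (volume.restrict W) (Prod.mk x ⁻¹' A)} ≤
      ∫⁻ x in U, (volume.restrict W) (Prod.mk x ⁻¹' A) := by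
    refine le_trans ?_ (mul_meas_ge_le_lintegral hg δ)
    gcongr
    exact fun hx => le_of_lt hx
  have h4 : ∫⁻ x in U, (volume.restrict W) (Prod.mk x ⁻¹' A) =
      ∫⁻ y in W, (volume.restrict U) ((fun x => (x, y)) ⁻¹' A) := by
    rw [← Measure.prod_apply hAm, Measure.prod_apply_symm hAm]
  have h5 : ∀ y ∈ W, (volume.restrict U) ((fun x => (x, y)) ⁻¹' A) ≤ K / lam := by
    intro y hy
    rw [ENNReal.le_div_iff_mul_le (Or.inl hl) (Or.inl hl'), mul_comm]
    have hFy : Measurable fun x => F x y := hF.comp measurable_prodMk_right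
    refine le_trans ?_ (le_trans (mul_meas_ge_le_lintegral hFy lam) (h y hy))
    gcongr
    intro x hx
    have hx' : lam < F x y := hx
    exact hx'.le
  have h6 : ∫⁻ y in W, (volume.restrict U) ((fun x => (x, y)) ⁻¹' A) ≤ K / lam * volume W := by
    refine le_trans (setLIntegral_mono measurable_const h5) ?_
    rw [lintegral_const, Measure.restrict_apply_univ]
  have h7 : δ * (volume.restrict U) {x | δ < (volume.restrict W) (Prod.mk x ⁻¹' A)} ≤
      K / lam * volume W := h3.trans (h4.le.trans h6)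
  have h8 : volume W * K / (lam * δ) = K / lam * volume W / δ := by
    rw [div_eq_mul_inv, div_eq_mul_inv, div_eq_mul_inv,
      ENNReal.mul_inv (Or.inl hl) (Or.inl hl')]
    ring
  rw [h8, ENNReal.le_div_iff_mul_le (Or.inl hδ) (Or.inl hδ'), mul_comm]
  exact h7

/-- the shifts with a pair at distance less than `r` -/
theorem exists_volume_close (k : ℕ) (B : ℝ) (hB : 0 ≤ B) : ∃ C : ℝ, 1 ≤ C ∧ ∀ r : ℝ, 0 < r →
    volume {γ : Ix k → ℝ | (∀ i, |γ i| ≤ B) ∧ ∃ j, |γ (Sum.inl j) - γ (Sum.inr j)| < r} ≤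
      ENNReal.ofReal (C * r) := by
  classical
  refine ⟨1 + k * (2 * (2 * B + 1) ^ Fintype.card (Ix k)), ?_, fun r hr => ?_⟩
  · have : (0 : ℝ) ≤ k * (2 * (2 * B + 1) ^ Fintype.card (Ix k)) := by positivity
    linarith
  have hcov : {γ : Ix k → ℝ | (∀ i, |γ i| ≤ B) ∧ ∃ j, |γ (Sum.inl j) - γ (Sum.inr j)| < r} ⊆
      ⋃ j : Fin k, {γ : Ix k → ℝ | (∀ i, |γ i| ≤ B) ∧ |γ (Sum.inl j) - γ (Sum.inr j)| < r} := by
    rintro γ ⟨h1, j, h2⟩
    exact Set.mem_iUnion.2 ⟨j, h1, h2⟩
  have hone : ∀ j : Fin k,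
      volume {γ : Ix k → ℝ | (∀ i, |γ i| ≤ B) ∧ |γ (Sum.inl j) - γ (Sum.inr j)| < r} ≤
        ENNReal.ofReal (2 * (2 * B + 1) ^ Fintype.card (Ix k) * r) := by
    intro j
    let t : Matrix.TransvectionStruct (Ix k) ℝ := ⟨Sum.inl j, Sum.inr j, by simp, -1⟩
    have hmp := Real.volume_preserving_transvectionStruct t
    set Bx : Set (Ix k → ℝ) := Set.univ.pi fun i =>
      if i = Sum.inl j then Set.Icc (-r) r else Set.Icc (-B) B with hBx
    have hBm : MeasurableSet Bx := by
      refine MeasurableSet.univ_pi fun i => ?_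
      split_ifs <;> exact measurableSet_Icc
    have hval : ∀ γ : Ix k → ℝ, ∀ i, Matrix.toLin' t.toMatrix γ i =
        if i = Sum.inl j then γ (Sum.inl j) - γ (Sum.inr j) else γ i := by
      intro γ i
      simp only [t, Matrix.TransvectionStruct.toMatrix, Matrix.transvection, map_add,
        Matrix.toLin'_one, LinearMap.add_apply, LinearMap.id_apply, Pi.add_apply,
        Matrix.toLin'_apply, Matrix.single_mulVec]
      by_cases hi : i = Sum.inl j
      · subst hi
        simp [sub_eq_add_neg]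
      · simp [hi]
    have hsub : {γ : Ix k → ℝ | (∀ i, |γ i| ≤ B) ∧ |γ (Sum.inl j) - γ (Sum.inr j)| < r} ⊆
        (Matrix.toLin' t.toMatrix) ⁻¹' Bx := by
      rintro γ ⟨h1, h2⟩
      rw [Set.mem_preimage, hBx, Set.mem_univ_pi]
      intro i
      rw [hval]
      split_ifs with hi
      · exact abs_le.1 h2.le
      · exact abs_le.1 (h1 i)
    refine (measure_mono hsub).trans ?_
    rw [hmp.measure_preimage hBm.nullMeasurableSet, hBx, MeasureTheory.volume_pi_pi]
    have hle : ∀ i : Ix k, volume (if i = Sum.inl j then Set.Icc (-r) r else Set.Icc (-B) B) ≤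
        (if i = Sum.inl j then ENNReal.ofReal (2 * r) else 1) * ENNReal.ofReal (2 * B + 1) := by
      intro i
      have h1 : (1 : ENNReal) ≤ ENNReal.ofReal (2 * B + 1) := by
        rw [← ENNReal.ofReal_one]
        exact ENNReal.ofReal_le_ofReal (by linarith)
      split_ifs with hi
      · rw [Real.volume_Icc, show r - -r = 2 * r by ring]
        exact le_mul_of_one_le_right' h1
      · rw [Real.volume_Icc, one_mul]
        exact ENNReal.ofReal_le_ofReal (by linarith)
    refine (Finset.prod_le_prod' fun i _ => hle i).trans ?_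
    rw [Finset.prod_mul_distrib, Finset.prod_ite_eq', if_pos (Finset.mem_univ _),
      Finset.prod_const, Finset.card_univ, ← ENNReal.ofReal_pow (by linarith),
      ← ENNReal.ofReal_mul (by positivity)]
    apply ENNReal.ofReal_le_ofReal
    apply le_of_eq
    ring
  refine (measure_mono hcov).trans ((measure_iUnion_le _).trans ?_)
  rw [tsum_fintype]
  refine (Finset.sum_le_sum fun j _ => hone j).trans ?_
  rw [Finset.sum_const, Finset.card_univ, Fintype.card_fin, nsmul_eq_mul,
    ← ENNReal.ofReal_natCast, ← ENNReal.ofReal_mul (by positivity)]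
  apply ENNReal.ofReal_le_ofReal
  have : 0 < r := hr
  nlinarith

end Pool.Agent.AAS
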