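import Pool.Agent.AAS.Defs7

set_option autoImplicit false

namespace Pool.Agent.AAS

open Complex Finset MeasureTheory Filter Topology Set
open Pool.Agent.H26

/-- the number of reduced tuples with product `M`: the entries divide `M`, so the number is at most
`M.divisors.card ^ (2 * k)`, then `H26.card_divisors_pow_le` -/
theorem exists_card_Dg (k : ℕ) (ε : ℝ) (hε : 0 < ε) : ∃ C : ℝ, 1 ≤ C ∧ ∀ X M : ℕ, 1 ≤ M →
    (((Dg k X).filter (fun p => ∏ j, (p j).1 = M)).card : ℝ) ≤ C * (M : ℝ) ^ ε := by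
  obtain ⟨C, hC1, hC⟩ := card_divisors_pow_le (2 * k) hε
  refine ⟨C, hC1, fun X M hM => ?_⟩
  have hM0 : M ≠ 0 := by omega
  refine le_trans ?_ (hC M hM0)
  have hsub : (Dg k X).filter (fun p => ∏ j, (p j).1 = M) ⊆
      Fintype.piFinset fun _ : Fin k => M.divisors ×ˢ M.divisors := by
    intro p hp
    rw [Finset.mem_filter] at hp
    obtain ⟨hp1, hp2⟩ := hp
    rw [Dg, Finset.mem_filter] at hp1
    obtain ⟨-, -, hp3, -⟩ := hp1
    rw [Fintype.mem_piFinset]
    intro j
    rw [Finset.mem_product, Nat.mem_divisors, Nat.mem_divisors]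
    refine ⟨⟨?_, hM0⟩, ?_, hM0⟩
    · rw [← hp2]
      exact Finset.dvd_prod_of_mem (fun j => (p j).1) (Finset.mem_univ j)
    · rw [← hp2, hp3]
      exact Finset.dvd_prod_of_mem (fun j => (p j).2) (Finset.mem_univ j)
  have hcard := Finset.card_le_card hsub
  rw [Fintype.card_piFinset_const, Finset.card_product] at hcard
  calc (((Dg k X).filter (fun p => ∏ j, (p j).1 = M)).card : ℝ)
      ≤ (((M.divisors.card * M.divisors.card) ^ k : ℕ) : ℝ) := by exact_mod_cast hcard
    _ = (M.divisors.card : ℝ) ^ (2 * k) := by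
        push_cast
        rw [pow_mul, sq]

end Pool.Agent.AAS
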