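import Pool.Agent.AAS.CR1
import Pool.Agent.AAS.CTS

/-!
# Small lemmas on integrals over sets of shifts
-/

set_option autoImplicit false

namespace Pool.Agent.AAS

open Complex Finset MeasureTheory Filter Topology Set
open Pool.Agent.H26

namespace COR

/-- integrable with integral at most `M` -/
def IB {α : Type*} [MeasureSpace α] (Ω : Set α) (f : α → ℝ) (M : ℝ) : Prop :=
  IntegrableOn f Ω ∧ ∫ x in Ω, f x ≤ M

lemma IB.add {α : Type*} [MeasureSpace α] {Ω : Set α} {f g : α → ℝ} {M N : ℝ}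
    (hf : IB Ω f M) (hg : IB Ω g N) : IB Ω (fun x => f x + g x) (M + N) := by
  refine ⟨hf.1.add hg.1, ?_⟩
  rw [integral_add hf.1 hg.1]
  exact add_le_add hf.2 hg.2

lemma IB.sum {α ι : Type*} [MeasureSpace α] {Ω : Set α} (s : Finset ι) {f : ι → α → ℝ}
    {M : ι → ℝ} (hf : ∀ i ∈ s, IB Ω (f i) (M i)) :
    IB Ω (fun x => ∑ i ∈ s, f i x) (∑ i ∈ s, M i) := by
  classical
  induction s using Finset.induction_on with
  | empty =>
    refine ⟨?_, ?_⟩
    · simp only [Finset.sum_empty]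
      exact integrableOn_zero
    · simp
  | insert a s ha ih =>
    have h1 := hf a (Finset.mem_insert_self a s)
    have h2 := ih fun i hi => hf i (Finset.mem_insert_of_mem hi)
    have h3 := h1.add h2
    simp only [Finset.sum_insert ha]
    exact h3

lemma IB.const_mul {α : Type*} [MeasureSpace α] {Ω : Set α} {f : α → ℝ} {M c : ℝ}
    (hf : IB Ω f M) (hc : 0 ≤ c) : IB Ω (fun x => c * f x) (c * M) := by
  refine ⟨hf.1.const_mul c, ?_⟩
  rw [integral_const_mul]
  exact mul_le_mul_of_nonneg_left hf.2 hc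

lemma IB.mono {α : Type*} [MeasureSpace α] {Ω : Set α} {f : α → ℝ} {M N : ℝ}
    (hf : IB Ω f M) (h : M ≤ N) : IB Ω f N := ⟨hf.1, hf.2.trans h⟩

lemma IB.of_le {α : Type*} [MeasureSpace α] {Ω : Set α} {f g : α → ℝ} {M : ℝ}
    (hΩ : MeasurableSet Ω) (hf : IB Ω f M) (h0 : ∀ x ∈ Ω, 0 ≤ g x) (h : ∀ x ∈ Ω, g x ≤ f x) :
    ∫ x in Ω, g x ≤ M := by
  refine le_trans ?_ hf.2
  refine integral_mono_of_nonneg ?_ hf.1 ?_
  · exact (ae_restrict_iff' hΩ).2 (Eventually.of_forall h0)
  · exact (ae_restrict_iff' hΩ).2 (Eventually.of_forall h)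

variable {k : ℕ}

lemma volume_box (k : ℕ) {H : ℝ} (hH : 0 ≤ H) : volume (box k H) = ENNReal.ofReal ((2 * H) ^ k) := by
  unfold box
  rw [volume_pi_pi]
  simp only [Real.volume_Icc, Finset.prod_const, Finset.card_univ, Fintype.card_fin]
  rw [← ENNReal.ofReal_pow (by linarith)]
  congr 2
  ring

lemma isCompact_box (k : ℕ) (H : ℝ) : IsCompact (box k H) :=
  isCompact_univ_pi fun _ => isCompact_Icc

lemma IB_const {Ω : Set (Fin k → ℝ)} {H : ℝ} (hH : 0 ≤ H) (hΩ : Ω ⊆ box k H) {M : ℝ}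
    (hM : 0 ≤ M) : IB Ω (fun _ => M) ((2 * H) ^ k * M) := by
  have h1 : volume Ω ≤ ENNReal.ofReal ((2 * H) ^ k) := (measure_mono hΩ).trans (volume_box k hH).le
  have h2 : volume Ω ≠ ⊤ := ne_top_of_le_ne_top ENNReal.ofReal_ne_top h1
  refine ⟨integrableOn_const h2, ?_⟩
  rw [setIntegral_const, smul_eq_mul]
  refine mul_le_mul_of_nonneg_right ?_ hM
  rw [Measure.real]
  exact ENNReal.toReal_le_of_le_ofReal (by positivity) h1

lemma IB_of_cont {Ω : Set (Fin k → ℝ)} {H M : ℝ} (hΩ : Ω ⊆ box k H)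
    {f : (Fin k → ℝ) → ℝ} (hf : Continuous f) (hf0 : ∀ u, 0 ≤ f u)
    (h : ∫ u in box k H, f u ≤ M) : IB Ω f M := by
  have h1 : IntegrableOn f (box k H) := hf.continuousOn.integrableOn_compact (isCompact_box k H)
  refine ⟨h1.mono_set hΩ, le_trans ?_ h⟩
  exact setIntegral_mono_set h1 (Eventually.of_forall hf0) (Eventually.of_forall hΩ)

/-- the powers of two near a number -/
lemma exists_two_pow {x : ℝ} (hx : 1 ≤ x) : ∃ J : ℕ, x / 2 ≤ 2 ^ J ∧ (2:ℝ) ^ J ≤ x := by
  obtain ⟨n, hn1, hn2⟩ := exists_nat_pow_near hx (by norm_num : (1:ℝ) < 2)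
  refine ⟨n, ?_, hn1⟩
  rw [pow_succ] at hn2
  linarith


lemma isClosed_U1 (k : ℕ) (R : ℝ) : IsClosed (U1 k R) := by
  unfold U1
  simp only [Set.ofPred_forall]
  refine isClosed_iInter fun j => isClosed_iInter fun l => isClosed_iInter fun _ => ?_
  exact isClosed_le continuous_const (by fun_prop)

lemma continuous_PP (a b : Fin k → ℝ) (J : ℕ) : Continuous (PP a b J) := by
  unfold PP
  fun_prop

lemma continuous_gm (a b : Fin k → ℝ) :
    Continuous fun u : Fin k → ℝ => (fun i : Ix k => ((gm a b u i : ℝ) : ℂ)) := by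
  refine continuous_pi fun i => ?_
  rcases i with j | j
  · simp only [gm, Sum.elim_inl]
    fun_prop
  · simp only [gm, Sum.elim_inr]
    fun_prop

lemma continuousOn_zetaAB_gm {a b : Fin k → ℝ} {B : ℝ} (ha : ∀ j, |a j| ≤ B)
    (hb : ∀ j, |b j| ≤ B) (hab : ∀ j, a j ≠ b j) (S : Finset (Ix k)) :
    ContinuousOn (fun u => zetaAB S (fun i => (gm a b u i : ℂ))) (U1 k (2 * B + 1)) := by
  intro u hu
  have hinj := gm_injective ha hb hab hu
  have h1 : ContinuousAt (zetaAB S) (fun i => (gm a b u i : ℂ)) := by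
    refine continuousAt_zetaAB S ?_ ?_
    · intro i
      simp
    · intro i j hij
      have hij' : (gm a b u i : ℂ) = (gm a b u j : ℂ) := hij
      exact hinj (Complex.ofReal_injective hij')
  have h2 : ContinuousAt (fun u : Fin k → ℝ => (fun i : Ix k => ((gm a b u i : ℝ) : ℂ))) u :=
    (continuous_gm a b).continuousAt
  exact (ContinuousAt.comp (f := fun u : Fin k → ℝ => (fun i : Ix k => ((gm a b u i : ℝ) : ℂ)))
    h1 h2).continuousWithinAt

lemma IB_of_contOn {Ω K : Set (Fin k → ℝ)} {M : ℝ} (hK : IsCompact K)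
    (hΩ : Ω ⊆ K) {f : (Fin k → ℝ) → ℝ} (hf : ContinuousOn f K) (hf0 : ∀ u, 0 ≤ f u)
    (h : ∫ u in K, f u ≤ M) : IB Ω f M := by
  have h1 : IntegrableOn f K := hf.integrableOn_compact hK
  refine ⟨h1.mono_set hΩ, le_trans ?_ h⟩
  exact setIntegral_mono_set h1 (Eventually.of_forall hf0) (Eventually.of_forall hΩ)

lemma box_mono {H H' : ℝ} (h : H ≤ H') : box k H ⊆ box k H' := by
  unfold box
  exact Set.pi_mono fun _ _ => Set.Icc_subset_Icc (by linarith) h

lemma mem_box {H : ℝ} {u : Fin k → ℝ} (hu : u ∈ box k H) (j : Fin k) : |u j| ≤ H := by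
  unfold box at hu
  have := hu j (Set.mem_univ j)
  rw [Set.mem_Icc] at this
  exact abs_le.2 this

lemma continuous_A (a b : Fin k → ℝ) (T₀ : ℝ) :
    Continuous fun u : Fin k → ℝ => ∫ t in (0:ℝ)..T₀, ∏ j, ‖pf (a j) (b j) (t + u j)‖ := by
  refine intervalIntegral.continuous_parametric_intervalIntegral_of_continuous' ?_ 0 T₀
  simp only [Function.uncurry_def]
  refine continuous_finsetProd _ fun j _ => ?_
  exact ((continuous_pf (a j) (b j)).comp (by fun_prop)).norm

lemma continuous_Bt (a b : Fin k → ℝ) (J : ℕ) (T₀ T : ℝ) :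
    Continuous fun u : Fin k → ℝ =>
      ‖∫ t in T₀..T, (∏ j, pf (a j) (b j) (t + u j) - ∏ j, lo (a j) (b j) J (t + u j))‖ := by
  refine Continuous.norm ?_
  refine intervalIntegral.continuous_parametric_intervalIntegral_of_continuous' ?_ T₀ T
  simp only [Function.uncurry_def]
  refine Continuous.sub ?_ ?_
  · refine continuous_finsetProd _ fun j _ => ?_
    exact (continuous_pf (a j) (b j)).comp (by fun_prop)
  · refine continuous_finsetProd _ fun j _ => ?_
    exact (continuous_lo (a j) (b j) J).comp (by fun_prop)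


end COR

end Pool.Agent.AAS
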