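import Pool.Agent.AAS.Defs
import Pool.Agent.H26.Sym


set_option autoImplicit false

namespace Pool.Agent.AAS

open Complex Finset MeasureTheory Filter Topology Set
open Pool.Agent.H26

/-- The permutation of the coordinates which swaps the pairs `j` with `κ j = true`. -/
private def SKLsig {k : ℕ} (κ : Fin k → Bool) : Equiv.Perm (Ix k) where
  toFun := Sum.elim (fun j => if κ j = true then Sum.inr j else Sum.inl j)
    (fun j => if κ j = true then Sum.inl j else Sum.inr j)
  invFun := Sum.elim (fun j => if κ j = true then Sum.inr j else Sum.inl j)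
    (fun j => if κ j = true then Sum.inl j else Sum.inr j)
  left_inv := by
    rintro (j | j) <;> by_cases h : κ j = true <;> simp [h]
  right_inv := by
    rintro (j | j) <;> by_cases h : κ j = true <;> simp [h]

theorem SKL_inl_mem {k : ℕ} (κ : Fin k → Bool) (j : Fin k) :
    (Sum.inl j : Ix k) ∈ Sk κ ↔ κ j = false := by
  simp [Sk]

theorem SKL_inr_mem {k : ℕ} (κ : Fin k → Bool) (j : Fin k) :
    (Sum.inr j : Ix k) ∈ Sk κ ↔ κ j = true := by
  simp [Sk]

private theorem SKL_map {k : ℕ} (κ : Fin k → Bool) :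
    Sk κ = (S0 k).map (SKLsig κ).toEmbedding := by
  ext i
  rw [Finset.mem_map_equiv]
  rcases i with j | j
  · rw [SKL_inl_mem]
    change _ ↔ (if κ j = true then (Sum.inr j : Ix k) else Sum.inl j) ∈ S0 k
    by_cases h : κ j = true
    · simp [h, inr_notMem_S0]
    · simp [h, inl_mem_S0]
  · rw [SKL_inr_mem]
    change _ ↔ (if κ j = true then (Sum.inl j : Ix k) else Sum.inr j) ∈ S0 k
    by_cases h : κ j = true
    · simp [h, inl_mem_S0]
    · simp [h, inr_notMem_S0]

/-- H8: relabelling -/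
theorem zetaAB_Sk {k : ℕ} (κ : Fin k → Bool) (a b u : Fin k → ℝ) :
    zetaAB (Sk κ) (fun i => (gm a b u i : ℂ)) = zetaAB (S0 k)
      (fun i => (gm (fun j => sw (κ j) (a j) (b j)) (fun j => sw (κ j) (b j) (a j)) u i : ℂ)) := by
  have hγ : ∀ i, gm a b u (SKLsig κ i) =
      gm (fun j => sw (κ j) (a j) (b j)) (fun j => sw (κ j) (b j) (a j)) u i := by
    rintro (j | j)
    · change gm a b u (if κ j = true then (Sum.inr j : Ix k) else Sum.inl j) = _
      by_cases h : κ j = true
      · simp [h, gm, sw]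
      · simp [h, gm, sw]
    · change gm a b u (if κ j = true then (Sum.inl j : Ix k) else Sum.inr j) = _
      by_cases h : κ j = true
      · simp [h, gm, sw]
      · simp [h, gm, sw]
  rw [SKL_map]
  unfold zetaAB
  rw [eulerF_map, prod_prod_map (SKLsig κ) (S0 k)
    (fun j l => riemannZeta (1 + I * ((gm a b u j : ℂ) - (gm a b u l : ℂ))))]
  simp only [hγ]

theorem G_Sk {k : ℕ} (κ : Fin k → Bool) (a b u : Fin k → ℝ) (t : ℝ) :
    G (Sk κ) (fun i => (gm a b u i : ℂ)) t =
      ∏ j, if κ j then XX (a j) (b j) (t + u j) else 1 := by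
  unfold G
  rw [← Finset.prod_mul_distrib]
  refine Finset.prod_congr rfl fun j _ => ?_
  by_cases h : κ j = true
  · have h1 : (Sum.inr j : Ix k) ∈ Sk κ := (SKL_inr_mem κ j).2 h
    have h2 : (Sum.inl j : Ix k) ∉ Sk κ := by
      rw [SKL_inl_mem]; simp [h]
    rw [if_pos h1, if_neg h2, if_pos h, XX]
    simp only [gm, Sum.elim_inl, Sum.elim_inr]
    rw [mul_comm]
    push_cast
    congr 2 <;> ring
  · have h1 : (Sum.inr j : Ix k) ∉ Sk κ := fun h' => h ((SKL_inr_mem κ j).1 h')
    have h2 : (Sum.inl j : Ix k) ∈ Sk κ := by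
      rw [SKL_inl_mem]; simpa using h
    rw [if_neg h1, if_pos h2, if_neg h, one_mul]

theorem card_Sk {k : ℕ} (κ : Fin k → Bool) : (Sk κ).card = k := by
  rw [SKL_map, Finset.card_map, card_S0]

theorem Sk_injective {k : ℕ} : Function.Injective (Sk (k := k)) := by
  intro κ κ' h
  funext j
  have h1 := SKL_inr_mem κ j
  have h2 := SKL_inr_mem κ' j
  rw [h] at h1
  have h3 : κ j = true ↔ κ' j = true := h1.symm.trans h2
  by_cases h4 : κ j = true
  · rw [h4, (h3.1 h4)]
  · have h5 : κ' j ≠ true := fun h' => h4 (h3.2 h')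
    rw [Bool.eq_false_iff.2 h4, Bool.eq_false_iff.2 h5]

end Pool.Agent.AAS
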