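import Pool.Agent.AAS.EEQ
import Pool.Agent.AAS.SKL
import Pool.Agent.AAS.CTS
import Pool.Agent.AAS.ZLE
import Pool.Agent.AAS.PFL

set_option autoImplicit false

namespace Pool.Agent.AAS

open Complex Finset MeasureTheory Filter Topology Set
open Pool.Agent.H26

private lemma CR1_continuous_G {k : ℕ} (S : Finset (Ix k)) (γ : Ix k → ℝ) :
    Continuous fun t : ℝ => G S (fun i => (γ i : ℂ)) t := by
  have h1 : ∀ c : ℝ, Continuous fun t : ℝ => chi (1 / 2 - I * ((t : ℂ) + (c : ℂ))) := by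
    intro c
    rw [continuous_iff_continuousAt]
    intro t
    have h := (differentiableAt_chi (s := 1 / 2 - I * ((t : ℂ) + (c : ℂ)))
      (by simp; norm_num)).continuousAt
    exact ContinuousAt.comp (f := fun t : ℝ => (1 / 2 - I * ((t : ℂ) + (c : ℂ)) : ℂ)) h
      (by fun_prop)
  have h2 : ∀ c : ℝ, Continuous fun t : ℝ => chi (1 / 2 + I * ((t : ℂ) + (c : ℂ))) := by
    intro c
    rw [continuous_iff_continuousAt]
    intro t
    have h := (differentiableAt_chi (s := 1 / 2 + I * ((t : ℂ) + (c : ℂ)))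
      (by simp; norm_num)).continuousAt
    exact ContinuousAt.comp (f := fun t : ℝ => (1 / 2 + I * ((t : ℂ) + (c : ℂ)) : ℂ)) h
      (by fun_prop)
  unfold G
  refine Continuous.mul ?_ ?_
  · refine continuous_finsetProd _ fun j _ => ?_
    by_cases h : (Sum.inr j : Ix k) ∈ S
    · simp only [if_pos h]; exact h1 _
    · simp only [if_neg h]; exact continuous_const
  · refine continuous_finsetProd _ fun j _ => ?_
    by_cases h : (Sum.inl j : Ix k) ∈ S
    · simp only [if_pos h]; exact continuous_const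
    · simp only [if_neg h]; exact h2 _

/-- the decomposition of the error for well separated shifts (`E_eq`, the matched sets are the
`Sk κ`, `G_Sk`, `zetaAB_Sk`, `norm_G_real`, `norm_XX`) -/
theorem norm_E_le {k : ℕ} {a b u : Fin k → ℝ} (hinj : Function.Injective (gm a b u)) (J : ℕ)
    {T T₀ : ℝ} (h0 : 0 ≤ T₀) (hT : T₀ ≤ T) :
    ‖E (fun j => a j + u j) (fun j => b j + u j) T‖ ≤
      (∫ t in (0:ℝ)..T₀, ∏ j, ‖pf (a j) (b j) (t + u j)‖) +
      ‖∫ t in T₀..T, (∏ j, pf (a j) (b j) (t + u j) - ∏ j, lo (a j) (b j) J (t + u j))‖ +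
      ‖(∫ t in T₀..T, ∏ j, lo (a j) (b j) J (t + u j)) - ∑ κ : Fin k → Bool,
        (∫ t in T₀..T, ∏ j, if κ j then XX (a j) (b j) (t + u j) else 1) *
          PP (fun j => sw (κ j) (a j) (b j)) (fun j => sw (κ j) (b j) (a j)) J u‖ +
      T * ∑ κ : Fin k → Bool,
        ‖PP (fun j => sw (κ j) (a j) (b j)) (fun j => sw (κ j) (b j) (a j)) J u -
          zetaAB (S0 k) (fun i => (gm (fun j => sw (κ j) (a j) (b j))
            (fun j => sw (κ j) (b j) (a j)) u i : ℂ))‖ +
      ∑ S ∈ ((univ : Finset (Ix k)).powersetCard k).filter (fun S => ∀ κ, S ≠ Sk κ),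
        ‖∫ t in T₀..T, G S (fun i => (gm a b u i : ℂ)) t‖ *
          ‖zetaAB S (fun i => (gm a b u i : ℂ))‖ +
      T₀ * ∑ S ∈ (univ : Finset (Ix k)).powersetCard k,
        ‖zetaAB S (fun i => (gm a b u i : ℂ))‖ := by
  classical
  set f : ℝ → ℂ := fun t => ∏ j, pf (a j) (b j) (t + u j) with hf
  set lw : ℝ → ℂ := fun t => ∏ j, lo (a j) (b j) J (t + u j) with hlw
  set g : Finset (Ix k) → ℝ → ℂ := fun S t => G S (fun i => (gm a b u i : ℂ)) t with hg
  set z : Finset (Ix k) → ℂ := fun S => zetaAB S (fun i => (gm a b u i : ℂ)) with hz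
  set P : Finset (Finset (Ix k)) := (univ : Finset (Ix k)).powersetCard k with hP
  set pp : (Fin k → Bool) → ℂ := fun κ =>
    PP (fun j => sw (κ j) (a j) (b j)) (fun j => sw (κ j) (b j) (a j)) J u with hpp
  set X : (Fin k → Bool) → ℂ := fun κ =>
    ∫ t in T₀..T, ∏ j, if κ j then XX (a j) (b j) (t + u j) else 1 with hX
  have cf : Continuous f := continuous_finsetProd _ fun j _ =>
    (continuous_pf (a j) (b j)).comp (continuous_id.add continuous_const)
  have cl : Continuous lw := continuous_finsetProd _ fun j _ =>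
    (continuous_lo (a j) (b j) J).comp (continuous_id.add continuous_const)
  have cg : ∀ S, Continuous (g S) := fun S => CR1_continuous_G S (gm a b u)
  have hz2 : ∀ κ, z (Sk κ) = zetaAB (S0 k) (fun i => (gm (fun j => sw (κ j) (a j) (b j))
            (fun j => sw (κ j) (b j) (a j)) u i : ℂ)) := fun κ => zetaAB_Sk κ a b u
  have hX2 : ∀ κ, ∫ t in T₀..T, g (Sk κ) t = X κ := by
    intro κ
    refine intervalIntegral.integral_congr fun t _ => ?_
    exact G_Sk κ a b u t
  have ng : ∀ S (c d : ℝ), c ≤ d → ‖∫ t in c..d, g S t‖ ≤ d - c := by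
    intro S c d hcd
    have h := intervalIntegral.norm_integral_le_of_norm_le_const (a := c) (b := d) (C := 1)
      (f := g S) (fun t _ => (norm_G_real S (gm a b u) t).le)
    rwa [one_mul, abs_of_nonneg (by linarith)] at h
  -- the sum over the matched sets
  have hsplit : ∀ F : Finset (Ix k) → ℂ, ∑ S ∈ P, F S = ∑ κ : Fin k → Bool, F (Sk κ) +
      ∑ S ∈ P.filter (fun S => ∀ κ, S ≠ Sk κ), F S := by
    intro F
    rw [← Finset.sum_filter_add_sum_filter_not P (fun S => ∀ κ, S ≠ Sk κ) F, add_comm]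
    congr 1
    have himg : P.filter (fun S => ¬ ∀ κ, S ≠ Sk κ) =
        (univ : Finset (Fin k → Bool)).image Sk := by
      ext S
      rw [Finset.mem_filter, Finset.mem_image]
      constructor
      · rintro ⟨_, h⟩
        push Not at h
        obtain ⟨κ, hκ⟩ := h
        exact ⟨κ, Finset.mem_univ _, hκ.symm⟩
      · rintro ⟨κ, _, hκ⟩
        refine ⟨?_, ?_⟩
        · rw [hP, Finset.mem_powersetCard, ← hκ]
          exact ⟨Finset.subset_univ _, card_Sk κ⟩
        · intro h
          exact h κ hκ.symm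
    rw [himg, Finset.sum_image (fun κ _ κ' _ h => Sk_injective h)]
  have e0 := E_eq hinj T
  have e1 : E (fun j => a j + u j) (fun j => b j + u j) T =
      (∫ t in (0:ℝ)..T, f t) - ∑ S ∈ P, (∫ t in (0:ℝ)..T, g S t) * z S := by
    have e0' : E (fun j => a j + u j) (fun j => b j + u j) T =
        ∫ t in (0:ℝ)..T, (f t - ∑ S ∈ P, g S t * z S) := e0
    have cgz : ∀ S, Continuous fun t => g S t * z S := fun S => (cg S).mul continuous_const
    have cs : Continuous fun t => ∑ S ∈ P, g S t * z S := continuous_finsetSum _ fun S _ => cgz S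
    rw [e0', intervalIntegral.integral_sub (cf.intervalIntegrable _ _)
      (cs.intervalIntegrable _ _), intervalIntegral.integral_finset_sum
        (fun S _ => (cgz S).intervalIntegrable _ _)]
    congr 1
    refine Finset.sum_congr rfl fun S _ => ?_
    rw [intervalIntegral.integral_mul_const]
  have e2 : (∫ t in (0:ℝ)..T, f t) = (∫ t in (0:ℝ)..T₀, f t) + ((∫ t in T₀..T, (f t - lw t)) +
      ∫ t in T₀..T, lw t) := by
    rw [intervalIntegral.integral_sub (cf.intervalIntegrable _ _) (cl.intervalIntegrable _ _),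
      sub_add_cancel, intervalIntegral.integral_add_adjacent_intervals
        (cf.intervalIntegrable _ _) (cf.intervalIntegrable _ _)]
  have e3 : ∀ S, (∫ t in (0:ℝ)..T, g S t) = (∫ t in (0:ℝ)..T₀, g S t) + ∫ t in T₀..T, g S t :=
    fun S => (intervalIntegral.integral_add_adjacent_intervals
        ((cg S).intervalIntegrable _ _) ((cg S).intervalIntegrable _ _)).symm
  have e4 : ∑ S ∈ P, (∫ t in (0:ℝ)..T, g S t) * z S =
      ∑ S ∈ P, (∫ t in (0:ℝ)..T₀, g S t) * z S + (∑ κ : Fin k → Bool, X κ * z (Sk κ) +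
      ∑ S ∈ P.filter (fun S => ∀ κ, S ≠ Sk κ), (∫ t in T₀..T, g S t) * z S) := by
    have h := hsplit (fun S => (∫ t in T₀..T, g S t) * z S)
    simp only [hX2] at h
    rw [← h, ← Finset.sum_add_distrib]
    refine Finset.sum_congr rfl fun S _ => ?_
    rw [e3 S]
    ring
  have e5 : ∑ κ : Fin k → Bool, X κ * z (Sk κ) = ∑ κ : Fin k → Bool, X κ * pp κ -
      ∑ κ : Fin k → Bool, X κ * (pp κ - z (Sk κ)) := by
    rw [← Finset.sum_sub_distrib]
    refine Finset.sum_congr rfl fun κ _ => ?_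
    ring
  have e6 : E (fun j => a j + u j) (fun j => b j + u j) T =
      (∫ t in (0:ℝ)..T₀, f t) + (∫ t in T₀..T, (f t - lw t)) +
      ((∫ t in T₀..T, lw t) - ∑ κ : Fin k → Bool, X κ * pp κ) +
      ∑ κ : Fin k → Bool, X κ * (pp κ - z (Sk κ)) -
      ∑ S ∈ P.filter (fun S => ∀ κ, S ≠ Sk κ), (∫ t in T₀..T, g S t) * z S -
      ∑ S ∈ P, (∫ t in (0:ℝ)..T₀, g S t) * z S := by
    rw [e1, e2, e4, e5]
    ring
  have n1 : ‖∫ t in (0:ℝ)..T₀, f t‖ ≤ ∫ t in (0:ℝ)..T₀, ∏ j, ‖pf (a j) (b j) (t + u j)‖ := by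
    refine (intervalIntegral.norm_integral_le_integral_norm h0).trans (le_of_eq ?_)
    refine intervalIntegral.integral_congr fun t _ => ?_
    simp only [hf, norm_prod]
  have n4 : ‖∑ κ : Fin k → Bool, X κ * (pp κ - z (Sk κ))‖ ≤
      T * ∑ κ : Fin k → Bool, ‖pp κ - z (Sk κ)‖ := by
    rw [Finset.mul_sum]
    refine (norm_sum_le _ _).trans (Finset.sum_le_sum fun κ _ => ?_)
    rw [norm_mul]
    refine mul_le_mul_of_nonneg_right ?_ (norm_nonneg _)
    rw [← hX2 κ]
    exact (ng (Sk κ) T₀ T hT).trans (by linarith)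
  have n5 : ‖∑ S ∈ P.filter (fun S => ∀ κ, S ≠ Sk κ), (∫ t in T₀..T, g S t) * z S‖ ≤
      ∑ S ∈ P.filter (fun S => ∀ κ, S ≠ Sk κ), ‖∫ t in T₀..T, g S t‖ * ‖z S‖ :=
    (norm_sum_le _ _).trans (le_of_eq (Finset.sum_congr rfl fun S _ => norm_mul _ _))
  have n6 : ‖∑ S ∈ P, (∫ t in (0:ℝ)..T₀, g S t) * z S‖ ≤ T₀ * ∑ S ∈ P, ‖z S‖ := by
    rw [Finset.mul_sum]
    refine (norm_sum_le _ _).trans (Finset.sum_le_sum fun S _ => ?_)
    rw [norm_mul]
    refine mul_le_mul_of_nonneg_right ?_ (norm_nonneg _)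
    exact (ng S 0 T₀ h0).trans (by linarith)
  simp only [hz2] at e6 n4
  rw [e6]
  refine (norm_sub_le _ _).trans (add_le_add ?_ n6)
  refine (norm_sub_le _ _).trans (add_le_add ?_ n5)
  refine (norm_add_le _ _).trans (add_le_add ?_ n4)
  refine (norm_add_le _ _).trans (add_le_add ?_ le_rfl)
  exact (norm_add_le _ _).trans (add_le_add n1 le_rfl)

/-- well separated translations give distinct shifts -/
theorem gm_injective {k : ℕ} {a b u : Fin k → ℝ} {B : ℝ} (ha : ∀ j, |a j| ≤ B)
    (hb : ∀ j, |b j| ≤ B) (hab : ∀ j, a j ≠ b j) (hu : u ∈ U1 k (2 * B + 1)) :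
    Function.Injective (gm a b u) := by
  have key : ∀ (j l : Fin k) (c d : ℝ), |c| ≤ B → |d| ≤ B → c + u j = d + u l → j = l := by
    intro j l c d hc hd h
    by_contra hne
    have h1 : 2 * B + 1 ≤ |u j - u l| := hu j l hne
    have h2 : u j - u l = d - c := by linarith
    rw [h2] at h1
    have h3 : |d - c| ≤ |d| + |c| := abs_sub d c
    linarith
  intro i i' h
  rcases i with j | j <;> rcases i' with l | l <;> simp only [gm, Sum.elim_inl, Sum.elim_inr] at h
  · rw [key j l _ _ (ha j) (ha l) h]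
  · have h1 := key j l _ _ (ha j) (hb l) h
    subst h1
    exact absurd (by linarith : a j = b j) (hab j)
  · have h1 := key j l _ _ (hb j) (ha l) h
    subst h1
    exact absurd (by linarith : a j = b j) (hab j)
  · rw [key j l _ _ (hb j) (hb l) h]

private lemma CR1_isCompact_box (k : ℕ) (H : ℝ) : IsCompact (box k H) :=
  isCompact_univ_pi fun _ => isCompact_Icc

/-- the mean over the translations of the product of the pairs for a fixed `t` -/
theorem exists_prod_pf_mean {w : ℝ} (hw : LocalBound w) (k : ℕ) (B ε : ℝ) (hB : 0 ≤ B)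
    (hε : 0 < ε) : ∃ C : ℝ, 1 ≤ C ∧ ∀ T T₀ H : ℝ, 1 ≤ T → 0 ≤ T₀ → T₀ ≤ T → T ^ w ≤ H → H ≤ T →
    ∀ a b : Fin k → ℝ, (∀ j, |a j| ≤ B) → (∀ j, |b j| ≤ B) →
    ∫ u in box k H, ∫ t in (0:ℝ)..T₀, ∏ j, ‖pf (a j) (b j) (t + u j)‖ ≤
      (2 * H) ^ k * (C * T ^ ε * T₀) := by
  obtain ⟨C1, hC1, h1⟩ := exists_pf_local hw B (ε / (k + 1)) hB (by positivity)
  refine ⟨C1 ^ k, one_le_pow₀ hC1, ?_⟩
  intro T T₀ H hT hT0 hT0T hwH hHT a b ha hb
  have hTpos : 0 < T := by linarith
  have hH : 0 < H := lt_of_lt_of_le (Real.rpow_pos_of_pos hTpos w) hwH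
  set F : (Fin k → ℝ) → ℝ → ℝ := fun u t => ∏ j, ‖pf (a j) (b j) (t + u j)‖ with hF
  have hFc : Continuous (Function.uncurry F) := by
    refine continuous_finsetProd _ fun j _ => ?_
    refine ((continuous_pf (a j) (b j)).comp ?_).norm
    fun_prop
  have hint : Integrable (Function.uncurry F)
      ((volume.restrict (box k H)).prod (volume.restrict (Ioc 0 T₀))) := by
    rw [Measure.prod_restrict]
    have hK : IsCompact (box k H ×ˢ Icc 0 T₀) := (CR1_isCompact_box k H).prod isCompact_Icc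
    exact (hFc.continuousOn.integrableOn_compact hK).mono_set
      (Set.prod_mono Set.Subset.rfl Ioc_subset_Icc_self)
  have hsw : ∫ u in box k H, ∫ t in (0:ℝ)..T₀, F u t =
      ∫ t in Ioc 0 T₀, ∫ u in box k H, F u t := by
    simp only [intervalIntegral.integral_of_le hT0]
    exact integral_integral_swap hint
  have hin : ∀ t ∈ Ioc 0 T₀, ‖∫ u in box k H, F u t‖ ≤ (2 * H) ^ k * (C1 ^ k * T ^ ε) := by
    intro t ht
    have hvol : (volume : Measure (Fin k → ℝ)).restrict (box k H) =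
        Measure.pi (fun _ : Fin k => (volume : Measure ℝ).restrict (Icc (-H) H)) := by
      rw [volume_pi, box, Measure.restrict_pi_pi]
    have hp : ∫ u in box k H, F u t =
        ∏ j, ∫ v in Icc (-H) H, ‖pf (a j) (b j) (t + v)‖ := by
      rw [hvol]
      exact integral_fintype_prod_eq_prod (𝕜 := ℝ)
        (fun j v => ‖pf (a j) (b j) (t + (v : ℝ))‖)
    rw [hp, Real.norm_of_nonneg (Finset.prod_nonneg fun j _ =>
      integral_nonneg fun v => norm_nonneg _)]
    have htT : |t| ≤ T := by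
      rw [abs_of_pos ht.1]
      exact ht.2.trans hT0T
    have hle : ∀ j ∈ (univ : Finset (Fin k)), ∫ v in Icc (-H) H, ‖pf (a j) (b j) (t + v)‖ ≤
        C1 * T ^ (ε / (k + 1)) * (2 * H) := by
      intro j _
      rw [integral_Icc_eq_integral_Ioc, ← intervalIntegral.integral_of_le (by linarith)]
      exact h1 T H hT hwH hHT (a j) (b j) (ha j) (hb j) t htT
    refine (Finset.prod_le_prod (fun j _ => integral_nonneg fun v => norm_nonneg _) hle).trans ?_
    rw [Finset.prod_const, Finset.card_univ, Fintype.card_fin, mul_pow, mul_pow, mul_comm]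
    refine mul_le_mul_of_nonneg_left ?_ (by positivity)
    refine mul_le_mul_of_nonneg_left ?_ (by positivity)
    rw [← Real.rpow_mul_natCast hTpos.le]
    refine Real.rpow_le_rpow_of_exponent_le hT ?_
    rw [div_mul_eq_mul_div, div_le_iff₀ (by positivity)]
    nlinarith
  change ∫ u in box k H, ∫ t in (0:ℝ)..T₀, F u t ≤ _
  rw [hsw]
  refine (le_abs_self _).trans ?_
  rw [← Real.norm_eq_abs]
  refine (norm_setIntegral_le_of_norm_le_const (by rw [Real.volume_Ioc]; exact
    ENNReal.ofReal_lt_top) hin).trans (le_of_eq ?_)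
  rw [Real.volume_real_Ioc_of_le hT0]
  ring

end Pool.Agent.AAS
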