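import Pool.Agent.AAS.OSC
import Pool.Agent.AAS.BLK
import Pool.Agent.AAS.XXF


set_option autoImplicit false

namespace Pool.Agent.AAS

open Complex Finset MeasureTheory Filter Topology Set
open Pool.Agent.H26

private theorem DIA_zeta {B a b : ℝ} (ha : |a| ≤ B) (hb : |b| ≤ B) (hab : a ≠ b) :
    ‖riemannZeta (1 + I * (a - b))‖ ≤ (2 + 2 * B) * (1 + 1 / |a - b|) := by
  have hB : 0 ≤ B := (abs_nonneg a).trans ha
  have hre : (1 + I * ((a : ℂ) - b)).re = 1 := by simp
  have hne : (1 + I * ((a : ℂ) - b)) ≠ 1 := by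
    intro h
    have h1 : I * ((a : ℂ) - b) = 0 := by linear_combination h
    rcases mul_eq_zero.1 h1 with h2 | h2
    · exact I_ne_zero h2
    · apply hab
      have : (a : ℂ) = b := by linear_combination h2
      exact_mod_cast this
  have h3 := norm_riemannZeta_le (s := 1 + I * ((a : ℂ) - b)) (by rw [hre]; norm_num) hne
  have h4 : ‖1 + I * ((a : ℂ) - b) - 1‖ = |a - b| := by
    rw [show 1 + I * ((a : ℂ) - b) - 1 = I * ((a - b : ℝ) : ℂ) by push_cast; ring, norm_mul,
      norm_I, one_mul, Complex.norm_real, Real.norm_eq_abs]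
  have h5 : ‖1 + I * ((a : ℂ) - b)‖ ≤ 1 + 2 * B := by
    refine (norm_add_le _ _).trans ?_
    have h6 : ‖I * ((a : ℂ) - b)‖ = |a - b| := by
      rw [show I * ((a : ℂ) - b) = I * ((a - b : ℝ) : ℂ) by push_cast; ring, norm_mul,
        norm_I, one_mul, Complex.norm_real, Real.norm_eq_abs]
    rw [h6, norm_one]
    have := abs_sub a b
    linarith
  rw [h4, hre, div_one] at h3
  have h6 : 0 < |a - b| := abs_pos.2 (sub_ne_zero.2 hab)
  have h7 : 0 ≤ 1 / |a - b| := by positivity
  rw [one_div] at h7 ⊢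
  nlinarith [mul_nonneg hB h7]

/-- the low part as a sum over the two swaps -/
private theorem DIA_lo (a b : ℝ) (J : ℕ) (x : ℝ) :
    lo a b J x = ∑ κ : Bool, (if κ then XX a b x else 1) *
      (riemannZeta (1 + I * (sw κ a b - sw κ b a)) * DP (low J) (sw κ a b) (sw κ b a) 0 x) := by
  rw [Fintype.sum_bool]
  simp only [sw, lo]
  simp only [if_true, Bool.false_eq_true, if_false, one_mul]
  ring

/-- the oscillating factor of a tuple -/
private noncomputable def DIA_W {k : ℕ} (A B u : Fin k → ℝ) (p : Fin k → ℕ × ℕ) : ℂ :=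
  ∏ j, (cf (A j) (B j) 0 (p j) * cexp (-(I * lq (p j) * u j)))

private theorem DIA_prodDP {k : ℕ} (A B u : Fin k → ℝ) (J : ℕ) (t : ℝ) :
    ∏ j, DP (low J) (A j) (B j) 0 (t + u j) =
      ∑ p ∈ Fintype.piFinset fun _ : Fin k => low J,
        DIA_W A B u p * cexp (-(I * ((∑ j, lq (p j) : ℝ) : ℂ) * t)) := by
  unfold DP
  rw [Finset.prod_univ_sum]
  refine Finset.sum_congr rfl fun p _ => ?_
  unfold DIA_W
  have h1 : cexp (-(I * ((∑ j, lq (p j) : ℝ) : ℂ) * t)) = ∏ j, cexp (-(I * lq (p j) * t)) := by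
    rw [← Complex.exp_sum]
    congr 1
    push_cast
    rw [Finset.mul_sum, Finset.sum_mul, ← Finset.sum_neg_distrib]
  rw [h1, ← Finset.prod_mul_distrib]
  refine Finset.prod_congr rfl fun j _ => ?_
  have h2 : cexp (-(I * lq (p j) * ((t + u j : ℝ) : ℂ))) =
      cexp (-(I * lq (p j) * u j)) * cexp (-(I * lq (p j) * t)) := by
    rw [← Complex.exp_add]
    congr 1
    push_cast
    ring
  rw [h2]
  ring

private theorem DIA_normW {k : ℕ} (A B u : Fin k → ℝ) {J : ℕ} {p : Fin k → ℕ × ℕ}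
    (hp : ∀ j, p j ∈ low J) : ‖DIA_W A B u p‖ ≤ 1 := by
  unfold DIA_W
  rw [norm_prod]
  refine Finset.prod_le_one (fun j _ => norm_nonneg _) fun j _ => ?_
  have hj := (mem_low.1 (hp j)).2.1
  rw [norm_mul, norm_cf _ _ _ hj]
  have h1 : ‖cexp (-(I * lq (p j) * u j))‖ = 1 := by
    rw [Complex.norm_exp]
    simp
  rw [h1, mul_one]
  have h2 : (1 : ℝ) ≤ (((p j).1 * (p j).2 : ℕ) : ℝ) := by exact_mod_cast hj
  refine Real.rpow_le_one_of_one_le_of_nonpos h2 ?_
  simp

private theorem DIA_lq_zero {k J : ℕ} {p : Fin k → ℕ × ℕ} (hp : ∀ j, p j ∈ low J)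
    (h : ∏ j, (p j).1 = ∏ j, (p j).2) : ∑ j, lq (p j) = 0 := by
  have hpos : ∀ j, (p j).1 ≠ 0 ∧ (p j).2 ≠ 0 := by
    intro j
    have h1 := (mem_low.1 (hp j)).2.1
    constructor
    · intro h0; rw [h0] at h1; simp at h1
    · intro h0; rw [h0] at h1; simp at h1
  unfold lq
  rw [Finset.sum_sub_distrib, ← Real.log_prod, ← Real.log_prod, ← Nat.cast_prod, ← Nat.cast_prod,
    h, sub_self]
  · intro j _
    exact_mod_cast (hpos j).2
  · intro j _
    exact_mod_cast (hpos j).1

/-- one swap: the diagonal terms give the main term -/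
private theorem DIA_split {ι : Type} [DecidableEq ι] (S : Finset ι) (q : ι → Prop)
    [DecidablePred q] (W : ι → ℂ) (Λ : ι → ℝ) (hq : ∀ p ∈ S, q p → Λ p = 0) (Z : ℂ)
    (X : ℝ → ℂ) (hX : Continuous X) (A B : ℝ) :
    (∫ t in A..B, X t * (Z * ∑ p ∈ S, W p * cexp (-(I * (Λ p : ℂ) * t)))) -
      (∫ t in A..B, X t) * (Z * ∑ p ∈ S.filter q, W p) =
      Z * ∑ p ∈ S.filter (fun p => ¬ q p), W p * ∫ t in A..B, X t * cexp (-(I * (Λ p : ℂ) * t)) := by
  have hc : ∀ p, Continuous fun t : ℝ => X t * cexp (-(I * (Λ p : ℂ) * t)) := by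
    intro p
    refine hX.mul (Complex.continuous_exp.comp ?_)
    exact (continuous_const.mul Complex.continuous_ofReal).neg
  have h1 : (∫ t in A..B, X t * (Z * ∑ p ∈ S, W p * cexp (-(I * (Λ p : ℂ) * t)))) =
      Z * ∑ p ∈ S, W p * ∫ t in A..B, X t * cexp (-(I * (Λ p : ℂ) * t)) := by
    have h2 : (fun t : ℝ => X t * (Z * ∑ p ∈ S, W p * cexp (-(I * (Λ p : ℂ) * t)))) =
        fun t : ℝ => Z * ∑ p ∈ S, W p * (X t * cexp (-(I * (Λ p : ℂ) * t))) := by
      funext t
      rw [Finset.mul_sum, Finset.mul_sum, Finset.mul_sum]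
      refine Finset.sum_congr rfl fun p _ => ?_
      ring
    rw [h2, intervalIntegral.integral_const_mul, intervalIntegral.integral_finsetSum]
    · congr 1
      refine Finset.sum_congr rfl fun p _ => ?_
      rw [intervalIntegral.integral_const_mul]
    · intro p _
      exact (continuous_const.mul (hc p)).intervalIntegrable _ _
  rw [h1, ← Finset.sum_filter_add_sum_filter_not S q, mul_add]
  have h3 : ∑ p ∈ S.filter q, W p * ∫ t in A..B, X t * cexp (-(I * (Λ p : ℂ) * t)) =
      (∫ t in A..B, X t) * ∑ p ∈ S.filter q, W p := by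
    rw [Finset.mul_sum]
    refine Finset.sum_congr rfl fun p hp => ?_
    rw [Finset.mem_filter] at hp
    rw [hq p hp.1 hp.2, mul_comm]
    congr 1
    refine intervalIntegral.integral_congr fun t _ => ?_
    simp
  rw [h3]
  ring

/-- the product of the factors and its derivative -/
private theorem DIA_deriv {k : ℕ} (f f' : Fin k → ℝ → ℂ) (hf : ∀ j x, HasDerivAt (f j) (f' j x) x)
    (hc : ∀ j, Continuous (f' j)) :
    (∀ x, HasDerivAt (fun x => ∏ j, f j x) (∑ i, (∏ j ∈ univ.erase i, f j x) * f' i x) x) ∧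
      Continuous fun x => ∑ i, (∏ j ∈ univ.erase i, f j x) * f' i x := by
  have hfc : ∀ j, Continuous (f j) := fun j =>
    continuous_iff_continuousAt.2 fun x => (hf j x).continuousAt
  constructor
  · intro x
    have h := HasDerivAt.fun_finsetProd (u := univ) (f := f) (f' := fun j => f' j x) (x := x)
      (fun j _ => hf j x)
    simpa [smul_eq_mul] using h
  · refine continuous_finsetSum _ fun i _ => ?_
    exact (continuous_finsetProd _ fun j _ => hfc j).mul (hc i)

/-- G1 -/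
theorem exists_diag (k : ℕ) (B ε : ℝ) (hB : 0 ≤ B) (hε : 0 < ε) :
    ∃ C : ℝ, 1 ≤ C ∧ ∀ T T₀ H : ℝ, 1 ≤ T → 4 ≤ T₀ → T₀ ≤ T → 1 ≤ H → H ≤ T₀ / 2 →
    ∀ J : ℕ, ∀ a b : Fin k → ℝ, (∀ j, |a j| ≤ B) → (∀ j, |b j| ≤ B) →
    (∀ j, T ^ (-ε) ≤ |a j - b j|) → ∀ u ∈ box k H,
    ‖(∫ t in T₀..T, ∏ j, lo (a j) (b j) J (t + u j)) - ∑ κ : Fin k → Bool,
      (∫ t in T₀..T, ∏ j, if κ j then XX (a j) (b j) (t + u j) else 1) *
        PP (fun j => sw (κ j) (a j) (b j)) (fun j => sw (κ j) (b j) (a j)) J u‖ ≤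
      C * T ^ (k * ε) * (8:ℝ) ^ (k * J) * (T / T₀) := by
  obtain ⟨C1, hC1, hder⟩ := exists_XX_deriv B hB
  refine ⟨2 ^ k * ((4 + 4 * B) ^ k * (2 + 2 * k * C1)), ?_, ?_⟩
  · have h1 : (1 : ℝ) ≤ 2 ^ k := one_le_pow₀ (by norm_num)
    have h2 : (1 : ℝ) ≤ (4 + 4 * B) ^ k := one_le_pow₀ (by linarith)
    have h3 : (1 : ℝ) ≤ 2 + 2 * k * C1 := by
      have : (0 : ℝ) ≤ 2 * k * C1 := by positivity
      linarith
    have h4 : (1 : ℝ) ≤ (4 + 4 * B) ^ k * (2 + 2 * k * C1) := one_le_mul_of_one_le_of_one_le h2 h3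
    exact one_le_mul_of_one_le_of_one_le h1 h4
  intro T T₀ H hT hT₀ hTT hH hHT J a b ha hb hab u hu
  have hT0 : 0 < T := by linarith
  have hT₀0 : 0 < T₀ := by linarith
  have hu' : ∀ j, |u j| ≤ T₀ / 2 := by
    intro j
    have := hu j (Set.mem_univ j)
    rw [Set.mem_Icc] at this
    exact (abs_le.2 this).trans hHT
  -- the expansion
  set S : Finset (Fin k → ℕ × ℕ) := Fintype.piFinset fun _ : Fin k => low J with hS
  have hSmem : ∀ p ∈ S, ∀ j, p j ∈ low J := fun p hp j => Fintype.mem_piFinset.1 hp j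
  let X : (Fin k → Bool) → ℝ → ℂ := fun κ t => ∏ j, if κ j then XX (a j) (b j) (t + u j) else 1
  let Z : (Fin k → Bool) → ℂ := fun κ =>
    ∏ j, riemannZeta (1 + I * (sw (κ j) (a j) (b j) - sw (κ j) (b j) (a j)))
  let W : (Fin k → Bool) → (Fin k → ℕ × ℕ) → ℂ := fun κ p =>
    DIA_W (fun j => sw (κ j) (a j) (b j)) (fun j => sw (κ j) (b j) (a j)) u p
  let Λ : (Fin k → ℕ × ℕ) → ℝ := fun p => ∑ j, lq (p j)
  have hexp : ∀ t, ∏ j, lo (a j) (b j) J (t + u j) = ∑ κ : Fin k → Bool,
      X κ t * (Z κ * ∑ p ∈ S, W κ p * cexp (-(I * (Λ p : ℂ) * t))) := by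
    intro t
    simp only [DIA_lo]
    rw [Finset.prod_univ_sum, Fintype.piFinset_univ]
    refine Finset.sum_congr rfl fun κ _ => ?_
    rw [Finset.prod_mul_distrib, Finset.prod_mul_distrib, DIA_prodDP]
  have hXc : ∀ κ, Continuous (X κ) := by
    intro κ
    refine continuous_finsetProd _ fun j _ => ?_
    by_cases h : κ j = true
    · simp only [h, if_true]
      exact (continuous_XX _ _).comp (continuous_id.add continuous_const)
    · simp only [h, if_false, Bool.false_eq_true]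
      exact continuous_const
  have hint : (∫ t in T₀..T, ∏ j, lo (a j) (b j) J (t + u j)) = ∑ κ : Fin k → Bool,
      ∫ t in T₀..T, X κ t * (Z κ * ∑ p ∈ S, W κ p * cexp (-(I * (Λ p : ℂ) * t))) := by
    simp only [hexp]
    refine intervalIntegral.integral_finsetSum fun κ _ => ?_
    refine Continuous.intervalIntegrable ?_ _ _
    refine (hXc κ).mul (continuous_const.mul (continuous_finsetSum _ fun p _ => ?_))
    refine continuous_const.mul (Complex.continuous_exp.comp ?_)
    exact (continuous_const.mul Complex.continuous_ofReal).neg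
  have hPP : ∀ κ : Fin k → Bool,
      PP (fun j => sw (κ j) (a j) (b j)) (fun j => sw (κ j) (b j) (a j)) J u =
        Z κ * ∑ p ∈ S.filter (fun p => ∏ j, (p j).1 = ∏ j, (p j).2), W κ p := fun κ => rfl
  rw [hint, ← Finset.sum_sub_distrib]
  -- the bound for one swap
  have hk : ∀ κ : Fin k → Bool,
      ‖(∫ t in T₀..T, X κ t * (Z κ * ∑ p ∈ S, W κ p * cexp (-(I * (Λ p : ℂ) * t)))) -
        (∫ t in T₀..T, ∏ j, if κ j then XX (a j) (b j) (t + u j) else 1) *
          PP (fun j => sw (κ j) (a j) (b j)) (fun j => sw (κ j) (b j) (a j)) J u‖ ≤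
        ((4 + 4 * B) ^ k * (2 + 2 * k * C1)) * (T ^ (k * ε) * (8:ℝ) ^ (k * J) * (T / T₀)) := by
    intro κ
    rw [hPP κ]
    have h0 := DIA_split S (fun p => ∏ j, (p j).1 = ∏ j, (p j).2) (W κ) Λ
      (fun p hp h => DIA_lq_zero (hSmem p hp) h) (Z κ) (X κ) (hXc κ) T₀ T
    rw [show (∫ t in T₀..T, ∏ j, if κ j then XX (a j) (b j) (t + u j) else 1) =
      ∫ t in T₀..T, X κ t from rfl, h0, norm_mul]
    -- zeta
    have hZ : ‖Z κ‖ ≤ (4 + 4 * B) ^ k * T ^ (k * ε) := by
      have hone : ∀ j, ‖riemannZeta (1 + I * ((sw (κ j) (a j) (b j) : ℝ) -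
          (sw (κ j) (b j) (a j) : ℝ)))‖ ≤ (4 + 4 * B) * T ^ ε := by
        intro j
        have hpos : 0 < T ^ (-ε) := Real.rpow_pos_of_pos hT0 _
        have habs : 0 < |a j - b j| := hpos.trans_le (hab j)
        have hne : a j ≠ b j := sub_ne_zero.1 (abs_pos.1 habs)
        have h1 : 1 / |a j - b j| ≤ T ^ ε := by
          rw [div_le_iff₀ habs]
          have h2 : T ^ ε * T ^ (-ε) = 1 := by
            rw [← Real.rpow_add hT0]; simp
          rw [← h2]
          exact mul_le_mul_of_nonneg_left (hab j) (Real.rpow_nonneg hT0.le _)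
        have h2 : (1 : ℝ) ≤ T ^ ε := Real.one_le_rpow hT hε.le
        have key : ∀ x y : ℝ, |x| ≤ B → |y| ≤ B → x ≠ y → |x - y| = |a j - b j| →
            ‖riemannZeta (1 + I * ((x : ℂ) - y))‖ ≤ (4 + 4 * B) * T ^ ε := by
          intro x y hx hy hxy hd
          refine (DIA_zeta hx hy hxy).trans ?_
          rw [hd]
          nlinarith
        cases hκ : κ j
        · simp only [sw, Bool.false_eq_true, if_false]
          exact key _ _ (ha j) (hb j) hne rfl
        · simp only [sw, if_true]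
          exact key _ _ (hb j) (ha j) (Ne.symm hne) (abs_sub_comm _ _)
      have h3 : ‖Z κ‖ ≤ ∏ _j : Fin k, ((4 + 4 * B) * T ^ ε) := by
        show ‖∏ j, riemannZeta (1 + I * ((sw (κ j) (a j) (b j) : ℝ) -
          (sw (κ j) (b j) (a j) : ℝ)))‖ ≤ _
        rw [norm_prod]
        exact Finset.prod_le_prod (fun j _ => norm_nonneg _) fun j _ => hone j
      refine h3.trans (le_of_eq ?_)
      rw [Finset.prod_const, Finset.card_univ, Fintype.card_fin, mul_pow, ← Real.rpow_natCast
        (T ^ ε) k, ← Real.rpow_mul hT0.le, mul_comm ε]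
    -- the oscillating integrals
    have hosc : ∀ p ∈ S.filter (fun p => ¬ ∏ j, (p j).1 = ∏ j, (p j).2),
        ‖W κ p * ∫ t in T₀..T, X κ t * cexp (-(I * (Λ p : ℂ) * t))‖ ≤
          (2 + 2 * k * C1) * (2:ℝ) ^ (k * J) * (T / T₀) := by
      intro p hp
      rw [Finset.mem_filter] at hp
      have hp1 := hSmem p hp.1
      have hΛ : 1 / (2:ℝ) ^ (k * J) ≤ |Λ p| := log_prod_ge hp1 hp.2
      have hΛpos : 0 < |Λ p| := lt_of_lt_of_le (by positivity) hΛ
      -- the derivative
      have hx := fun j => hder (a j) (b j) (ha j) (hb j)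
      choose X' hX'c hX'd hX'b using hx
      let f : Fin k → ℝ → ℂ := fun j t => if κ j then XX (a j) (b j) (t + u j) else 1
      let f' : Fin k → ℝ → ℂ := fun j t => if κ j then X' j (t + u j) else 0
      have hf : ∀ j x, HasDerivAt (f j) (f' j x) x := by
        intro j x
        by_cases h : κ j = true
        · simp only [f, f', h, if_true]
          exact HasDerivAt.comp_add_const x (u j) (hX'd j (x + u j))
        · simp only [f, f', h, if_false, Bool.false_eq_true]
          exact hasDerivAt_const x 1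
      have hf'c : ∀ j, Continuous (f' j) := by
        intro j
        by_cases h : κ j = true
        · simp only [f', h, if_true]
          exact (hX'c j).comp (continuous_id.add continuous_const)
        · simp only [f', h, if_false, Bool.false_eq_true]
          exact continuous_const
      have hf1 : ∀ j x, ‖f j x‖ = 1 := by
        intro j x
        by_cases h : κ j = true
        · simp only [f, h, if_true]; exact norm_XX _ _ _
        · simp only [f, h, if_false, Bool.false_eq_true]; exact norm_one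
      have hf'1 : ∀ j, ∀ x ∈ Set.Icc T₀ T, ‖f' j x‖ ≤ 2 * C1 / T₀ := by
        intro j x hx
        have hC0 : 0 ≤ 2 * C1 / T₀ := by positivity
        by_cases h : κ j = true
        · simp only [f', h, if_true]
          have hlow : T₀ / 2 ≤ x + u j := by
            have := (abs_le.1 (hu' j)).1
            linarith [hx.1]
          have h1 : 1 ≤ x + u j := by linarith
          refine (hX'b j _ h1).trans ?_
          rw [div_le_div_iff₀ (by linarith) hT₀0]
          nlinarith
        · simp only [f', h, if_false, Bool.false_eq_true, norm_zero]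
          exact hC0
      obtain ⟨hd, hdc⟩ := DIA_deriv f f' hf hf'c
      have h5 := norm_integral_osc_le (P := X κ)
        (P' := fun x => ∑ i, (∏ j ∈ univ.erase i, f j x) * f' i x) (Λ := Λ p) (M₀ := 1)
        (M₁ := k * (2 * C1 / T₀)) hTT (abs_pos.1 hΛpos) (fun x _ => hd x) hdc.continuousOn
        (fun x _ => by
          show ‖∏ j, f j x‖ ≤ 1
          rw [norm_prod]
          exact le_of_eq (Finset.prod_eq_one fun j _ => hf1 j x))
        (fun x hx => by
          refine (norm_sum_le _ _).trans ?_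
          have h6 : ∀ i ∈ (univ : Finset (Fin k)),
              ‖(∏ j ∈ univ.erase i, f j x) * f' i x‖ ≤ 2 * C1 / T₀ := by
            intro i _
            rw [norm_mul, norm_prod, Finset.prod_eq_one fun j _ => hf1 j x, one_mul]
            exact hf'1 i x hx
          refine (Finset.sum_le_sum h6).trans (le_of_eq ?_)
          rw [Finset.sum_const, Finset.card_univ, Fintype.card_fin, nsmul_eq_mul])
      rw [norm_mul]
      have hW : ‖W κ p‖ ≤ 1 := DIA_normW _ _ _ hp1
      have hTT1 : 1 ≤ T / T₀ := by rw [le_div_iff₀ hT₀0]; linarith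
      have h7 : 2 * 1 + k * (2 * C1 / T₀) * (T - T₀) ≤ (2 + 2 * k * C1) * (T / T₀) := by
        have h8 : k * (2 * C1 / T₀) * (T - T₀) ≤ 2 * k * C1 * (T / T₀) := by
          have h9 : k * (2 * C1 / T₀) * (T - T₀) = 2 * k * C1 * ((T - T₀) / T₀) := by ring
          rw [h9]
          have h10 : (T - T₀) / T₀ ≤ T / T₀ := by gcongr; linarith
          exact mul_le_mul_of_nonneg_left h10 (by positivity)
        nlinarith
      calc ‖W κ p‖ * ‖∫ t in T₀..T, X κ t * cexp (-(I * (Λ p : ℂ) * t))‖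
          ≤ 1 * ((2 * 1 + k * (2 * C1 / T₀) * (T - T₀)) / |Λ p|) := by
            exact mul_le_mul hW h5 (norm_nonneg _) zero_le_one
        _ = (2 * 1 + k * (2 * C1 / T₀) * (T - T₀)) * (1 / |Λ p|) := by ring
        _ ≤ ((2 + 2 * k * C1) * (T / T₀)) * (2:ℝ) ^ (k * J) := by
            refine mul_le_mul h7 ?_ (by positivity) (by positivity)
            rw [div_le_iff₀ hΛpos]
            rw [div_le_iff₀ (by positivity)] at hΛ
            linarith
        _ = _ := by ring
    have hcard : ((S.filter (fun p => ¬ ∏ j, (p j).1 = ∏ j, (p j).2)).card : ℝ) ≤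
        (4:ℝ) ^ (k * J) := by
      have h1 : ((S.filter (fun p => ¬ ∏ j, (p j).1 = ∏ j, (p j).2)).card : ℝ) ≤ (S.card : ℝ) := by
        exact_mod_cast Finset.card_filter_le _ _
      refine h1.trans ?_
      rw [hS, Fintype.card_piFinset, Finset.prod_const, Finset.card_univ, Fintype.card_fin]
      push_cast
      calc ((low J).card : ℝ) ^ k ≤ ((4:ℝ) ^ J) ^ k := by
            exact pow_le_pow_left₀ (Nat.cast_nonneg _) (card_low_le J) k
        _ = (4:ℝ) ^ (k * J) := by rw [← pow_mul, mul_comm]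
    have hsum : ‖∑ p ∈ S.filter (fun p => ¬ ∏ j, (p j).1 = ∏ j, (p j).2),
        W κ p * ∫ t in T₀..T, X κ t * cexp (-(I * (Λ p : ℂ) * t))‖ ≤
        (4:ℝ) ^ (k * J) * ((2 + 2 * k * C1) * (2:ℝ) ^ (k * J) * (T / T₀)) := by
      refine (norm_sum_le _ _).trans ((Finset.sum_le_sum hosc).trans ?_)
      rw [Finset.sum_const, nsmul_eq_mul]
      exact mul_le_mul_of_nonneg_right hcard (by positivity)
    calc ‖Z κ‖ * ‖∑ p ∈ S.filter (fun p => ¬ ∏ j, (p j).1 = ∏ j, (p j).2),
        W κ p * ∫ t in T₀..T, X κ t * cexp (-(I * (Λ p : ℂ) * t))‖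
        ≤ ((4 + 4 * B) ^ k * T ^ (k * ε)) *
          ((4:ℝ) ^ (k * J) * ((2 + 2 * k * C1) * (2:ℝ) ^ (k * J) * (T / T₀))) :=
          mul_le_mul hZ hsum (norm_nonneg _) (by positivity)
      _ = ((4 + 4 * B) ^ k * (2 + 2 * k * C1)) *
          (T ^ (k * ε) * ((4:ℝ) ^ (k * J) * (2:ℝ) ^ (k * J)) * (T / T₀)) := by ring
      _ = _ := by
          rw [← mul_pow]
          norm_num
  refine (norm_sum_le _ _).trans ((Finset.sum_le_sum fun κ _ => hk κ).trans (le_of_eq ?_))
  rw [Finset.sum_const, Finset.card_univ, Fintype.card_fun, Fintype.card_bool, Fintype.card_fin,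
    nsmul_eq_mul]
  push_cast
  ring

end Pool.Agent.AAS
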