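import Pool.Agent.AAS.Defs7

set_option autoImplicit false

namespace Pool.Agent.AAS

open Complex Finset MeasureTheory Filter Topology Set
open Pool.Agent.H26

variable {k : ℕ}

theorem gs_zero (a b u : Fin k → ℝ) : gs a b u 0 = fun i => (gm a b u i : ℂ) := by
  funext i
  rcases i with j | j
  · simp [gs, gm]
  · simp [gs, gm]

theorem Phi_eq (a b u : Fin k → ℝ) (s : ℂ) : Phi a b u s = zetaAB (S0 k) (gs a b u s) := rfl

/-- the shifts stay in the tube where `eulerF` is holomorphic -/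
theorem gs_mem_tube (a b u : Fin k → ℝ) {s : ℂ} (hs : |s.re| < 1 / 4) :
    gs a b u s ∈ tube (Ix k) := by
  have h := abs_lt.1 hs
  intro i
  rw [abs_lt]
  rcases i with j | j
  · have e : (gs a b u s (Sum.inl j)).im = -(s.re / 2) := by
      simp only [gs, Sum.elim_inl]
      rw [sub_im, ofReal_im]
      have : (I * s / 2).im = s.re / 2 := by
        rw [show (2 : ℂ) = ((2 : ℝ) : ℂ) by norm_num, div_ofReal_im]
        simp
      rw [this]; ring
    rw [e]
    constructor <;> linarith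
  · have e : (gs a b u s (Sum.inr j)).im = s.re / 2 := by
      simp only [gs, Sum.elim_inr]
      rw [add_im, ofReal_im]
      have : (I * s / 2).im = s.re / 2 := by
        rw [show (2 : ℂ) = ((2 : ℝ) : ℂ) by norm_num, div_ofReal_im]
        simp
      rw [this]; ring
    rw [e]
    constructor <;> linarith

theorem PP_eq (a b : Fin k → ℝ) (J : ℕ) (u : Fin k → ℝ) :
    PP a b J u = ZD a b 0 * SJ a b J u 0 := by
  unfold PP ZD SJ tq Qt
  congr 1
  · refine Finset.prod_congr rfl fun j _ => ?_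
    rw [add_zero]
  · refine Finset.sum_congr rfl fun p _ => ?_
    rw [zero_div]

/-- `Phi` as a product: `eulerF` times the `k^2` zeta values `ζ(1 + s + i dl_jl)` -/
theorem Phi_eq_prod (a b u : Fin k → ℝ) (s : ℂ) : Phi a b u s =
    eulerF (S0 k) (gs a b u s) * ∏ j, ∏ l, riemannZeta (1 + s + I * dl a b u j l) := by
  rw [Phi_eq]
  unfold zetaAB
  congr 1
  rw [prod_S0]
  refine Finset.prod_congr rfl fun j _ => ?_
  rw [prod_S0_compl]
  refine Finset.prod_congr rfl fun l _ => ?_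
  congr 1
  simp only [gs, Sum.elim_inl, Sum.elim_inr, dl]
  push_cast
  linear_combination (-s) * I_sq

/-- The entries of the tuples of `Qt` are positive. -/
theorem Qt_pos {J : ℕ} {p : Fin k → ℕ × ℕ} (hp : p ∈ Qt k J) (j : Fin k) :
    1 ≤ (p j).1 ∧ 1 ≤ (p j).2 := by
  have h1 := Fintype.mem_piFinset.1 (Finset.mem_filter.1 hp).1 j
  have h2 := (Finset.mem_filter.1 h1).2.2.1
  constructor
  · exact Nat.pos_of_ne_zero fun h => by rw [h, zero_mul] at h2; omega
  · exact Nat.pos_of_ne_zero fun h => by rw [h, mul_zero] at h2; omega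

theorem differentiable_SJ (a b : Fin k → ℝ) (J : ℕ) (u : Fin k → ℝ) :
    Differentiable ℂ (SJ a b J u) := by
  unfold SJ
  refine Differentiable.fun_sum fun p hp => ?_
  unfold tq
  refine Differentiable.fun_finsetProd fun j _ => ?_
  unfold cf
  have h := Qt_pos hp j
  have h1 : ((p j).1 : ℂ) ≠ 0 := by exact_mod_cast (by omega : (p j).1 ≠ 0)
  have h2 : ((p j).2 : ℂ) ≠ 0 := by exact_mod_cast (by omega : (p j).2 ≠ 0)
  refine Differentiable.mul (Differentiable.mul (Differentiable.const_cpow (by fun_prop) (Or.inl h1))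
    (Differentiable.const_cpow (by fun_prop) (Or.inl h2))) (by fun_prop)

theorem isOpen_strip : IsOpen {s : ℂ | |s.re| < 1 / 4} :=
  isOpen_lt (Complex.continuous_re.abs) continuous_const

theorem gF_differentiableOn {a b u : Fin k → ℝ} (J : ℕ) :
    DifferentiableOn ℂ (gF a b J u) {s : ℂ | |s.re| < 1 / 4} := by
  unfold gF
  have h1 : DifferentiableOn ℂ (fun s => eulerF (S0 k) (gs a b u s)) {s : ℂ | |s.re| < 1 / 4} := by
    refine differentiableOn_eulerF_comp (S0 k) isOpen_strip (fun i => ?_) fun z hz => gs_mem_tube a b u hz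
    rcases i with j | j
    · simp only [gs, Sum.elim_inl]
      fun_prop
    · simp only [gs, Sum.elim_inr]
      fun_prop
  have h2 : ∀ δ : ℝ, Differentiable ℂ (fun s : ℂ => riemannZeta₁ (1 + s + I * δ) / (I * δ)) := by
    intro δ
    refine Differentiable.div_const ?_ _
    exact differentiable_riemannZeta₁.comp (by fun_prop)
  have h3 : Differentiable ℂ (fun s : ℂ => ∏ j, ∏ l,
      (riemannZeta₁ (1 + s + I * dl a b u j l) / (I * dl a b u j l))) :=
    Differentiable.fun_finsetProd fun j _ => Differentiable.fun_finsetProd fun l _ => h2 _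
  have h4 : Differentiable ℂ (fun s : ℂ => ∏ j, ∏ l ∈ univ.erase j, (1 + s / (I * dl a b u j l))) := by
    refine Differentiable.fun_finsetProd fun j _ => Differentiable.fun_finsetProd fun l _ => ?_
    fun_prop
  have h5 : Differentiable ℂ (fun s : ℂ => ∏ j,
      (riemannZeta₁ (1 + s + I * dl a b u j j) / (I * dl a b u j j))) :=
    Differentiable.fun_finsetProd fun j _ => h2 _
  refine DifferentiableOn.mul (Differentiable.differentiableOn (by fun_prop)) ?_
  refine DifferentiableOn.sub (h1.mul h3.differentiableOn) ?_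
  exact ((h4.mul h5).mul (differentiable_SJ a b J u)).differentiableOn

/-- polynomial growth in the strip -/
def PB (f : ℂ → ℂ) : Prop :=
  ∃ (C : ℝ) (A : ℕ), 0 ≤ C ∧ ∀ x y : ℝ, |x| ≤ 1 / 8 → ‖f (x + y * I)‖ ≤ C * (1 + |y|) ^ A

theorem PB_const (c : ℂ) : PB fun _ => c :=
  ⟨‖c‖, 0, norm_nonneg _, fun x y _ => by simp⟩

theorem PB_of_bdd {f : ℂ → ℂ} {C : ℝ} (hC : 0 ≤ C) (h : ∀ x y : ℝ, |x| ≤ 1 / 8 → ‖f (x + y * I)‖ ≤ C) :
    PB f :=
  ⟨C, 0, hC, fun x y hx => by simpa using h x y hx⟩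

theorem PB.mul {f g : ℂ → ℂ} (hf : PB f) (hg : PB g) : PB fun s => f s * g s := by
  obtain ⟨C, A, hC, h⟩ := hf
  obtain ⟨C', A', hC', h'⟩ := hg
  refine ⟨C * C', A + A', mul_nonneg hC hC', fun x y hx => ?_⟩
  rw [norm_mul]
  refine (mul_le_mul (h x y hx) (h' x y hx) (norm_nonneg _) (by positivity)).trans_eq ?_
  rw [pow_add]; ring

theorem PB.add {f g : ℂ → ℂ} (hf : PB f) (hg : PB g) : PB fun s => f s + g s := by
  obtain ⟨C, A, hC, h⟩ := hf
  obtain ⟨C', A', hC', h'⟩ := hg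
  refine ⟨C + C', A + A', add_nonneg hC hC', fun x y hx => ?_⟩
  refine (norm_add_le _ _).trans ?_
  have h1 : (1 : ℝ) ≤ 1 + |y| := by linarith [abs_nonneg y]
  have e1 : (1 + |y|) ^ A ≤ (1 + |y|) ^ (A + A') := pow_le_pow_right₀ h1 (by omega)
  have e2 : (1 + |y|) ^ A' ≤ (1 + |y|) ^ (A + A') := pow_le_pow_right₀ h1 (by omega)
  rw [add_mul]
  exact add_le_add ((h x y hx).trans (mul_le_mul_of_nonneg_left e1 hC))
    ((h' x y hx).trans (mul_le_mul_of_nonneg_left e2 hC'))

theorem PB.prod {ι : Type*} (S : Finset ι) {f : ι → ℂ → ℂ} (hf : ∀ i ∈ S, PB (f i)) :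
    PB fun s => ∏ i ∈ S, f i s := by
  classical
  induction S using Finset.induction_on with
  | empty => simpa using PB_const 1
  | insert a S ha ih =>
    have h := (hf a (Finset.mem_insert_self a S)).mul (ih fun i hi => hf i (Finset.mem_insert_of_mem hi))
    have e : (fun s => ∏ i ∈ insert a S, f i s) = fun s => f a s * ∏ i ∈ S, f i s := by
      funext s
      rw [Finset.prod_insert ha]
    rw [e]
    exact h

theorem PB_id : PB fun s => s := by
  refine ⟨1, 1, zero_le_one, fun x y hx => ?_⟩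
  rw [one_mul, pow_one]
  refine (norm_add_le _ _).trans ?_
  rw [norm_mul, norm_I, mul_one, norm_real, norm_real, Real.norm_eq_abs, Real.norm_eq_abs]
  linarith

theorem PB_zeta1 (δ : ℝ) : PB fun s => riemannZeta₁ (1 + s + I * δ) := by
  have h0 : PB fun s => s + I * δ := PB_id.add (PB_const _)
  have h1 : PB fun s => riemannZeta₀ (1 + s + I * δ) := by
    refine ⟨4 + 2 * |δ|, 1, by positivity, fun x y hx => ?_⟩
    have hre : (1 + (x + y * I) + I * δ : ℂ).re = 1 + x := by simp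
    have hx' := abs_le.1 hx
    have hpos : 0 < (1 + (x + y * I) + I * δ : ℂ).re := by rw [hre]; linarith
    refine (norm_riemannZeta₀_le hpos).trans ?_
    have hn : ‖(1 + (x + y * I) + I * δ : ℂ)‖ ≤ 9 / 8 + |y| + |δ| := by
      refine (norm_add_le _ _).trans ?_
      have e1 : ‖(1 + (x + y * I) : ℂ)‖ ≤ 9 / 8 + |y| := by
        refine (norm_add_le _ _).trans ?_
        have e2 : ‖(x + y * I : ℂ)‖ ≤ |x| + |y| := by
          refine (norm_add_le _ _).trans ?_
          rw [norm_mul, norm_I, mul_one, norm_real, norm_real, Real.norm_eq_abs, Real.norm_eq_abs]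
        rw [norm_one]
        linarith
      rw [norm_mul, norm_I, one_mul, norm_real, Real.norm_eq_abs]
      linarith
    rw [hre]
    have h2 : ‖(1 + (x + y * I) + I * δ : ℂ)‖ / (1 + x) ≤ 2 * (9 / 8 + |y| + |δ|) := by
      rw [div_le_iff₀ (by linarith)]
      have : 0 ≤ 9 / 8 + |y| + |δ| := by positivity
      nlinarith
    have hy := abs_nonneg y
    have hd := abs_nonneg δ
    rw [pow_one]
    nlinarith [mul_nonneg hy hd]
  have h2 := (PB_const 1).add (h0.mul h1)
  have e : (fun s : ℂ => riemannZeta₁ (1 + s + I * δ)) =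
      fun s => 1 + (s + I * δ) * riemannZeta₀ (1 + s + I * δ) := by
    funext s
    unfold riemannZeta₁
    ring
  rw [e]
  exact h2

theorem PB_SJ (a b : Fin k → ℝ) (J : ℕ) (u : Fin k → ℝ) : PB (SJ a b J u) := by
  refine PB_of_bdd (C := ((Qt k J).card : ℝ)) (by positivity) fun x y hx => ?_
  unfold SJ
  refine (norm_sum_le _ _).trans ?_
  have : ∀ p ∈ Qt k J, ‖tq a b u (x + y * I) p‖ ≤ 1 := by
    intro p hp
    unfold tq
    rw [norm_prod]
    refine Finset.prod_le_one (fun _ _ => norm_nonneg _) fun j _ => ?_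
    have h := Qt_pos hp j
    have hx' := abs_le.1 hx
    unfold cf
    rw [norm_mul, norm_mul]
    have e1 : ‖cexp (-(I * lq (p j) * u j))‖ = 1 := by
      rw [show -(I * (lq (p j) : ℂ) * (u j : ℂ)) = ((-(lq (p j) * u j) : ℝ) : ℂ) * I by push_cast; ring,
        norm_exp_ofReal_mul_I]
    rw [e1, mul_one]
    have hp1 : (0 : ℕ) < (p j).1 := h.1
    have hp2 : (0 : ℕ) < (p j).2 := h.2
    have hre1 : (-(1 / 2 + I * (a j : ℂ) + (x + y * I) / 2)).re = -(1 / 2 + x / 2) := by
      rw [show (x + y * I : ℂ) / 2 = ((x / 2 : ℝ) : ℂ) + ((y / 2 : ℝ) : ℂ) * I by push_cast; ring]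
      simp
    have hre2 : (-(1 / 2 - I * (b j : ℂ) + (x + y * I) / 2)).re = -(1 / 2 + x / 2) := by
      rw [show (x + y * I : ℂ) / 2 = ((x / 2 : ℝ) : ℂ) + ((y / 2 : ℝ) : ℂ) * I by push_cast; ring]
      simp
    rw [norm_natCast_cpow_of_pos hp1, norm_natCast_cpow_of_pos hp2, hre1, hre2]
    have b1 : ((p j).1 : ℝ) ^ (-(1 / 2 + x / 2)) ≤ 1 :=
      Real.rpow_le_one_of_one_le_of_nonpos (by exact_mod_cast h.1) (by linarith)
    have b2 : ((p j).2 : ℝ) ^ (-(1 / 2 + x / 2)) ≤ 1 :=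
      Real.rpow_le_one_of_one_le_of_nonpos (by exact_mod_cast h.2) (by linarith)
    exact mul_le_one₀ b1 (by positivity) b2
  refine (Finset.sum_le_sum this).trans ?_
  simp

theorem poly_le_gauss (A : ℕ) (y : ℝ) : (1 + |y|) ^ A ≤ 4 ^ A * A.factorial * Real.exp 1 * Real.exp (y ^ 2 / 2) := by
  have h1 : (1 + |y|) ≤ 4 * (1 / 2 + y ^ 2 / 2) := by
    have : |y| ^ 2 = y ^ 2 := sq_abs y
    nlinarith [sq_nonneg (|y| - 1), abs_nonneg y]
  have h2 : (1 / 2 + y ^ 2 / 2) ^ A / A.factorial ≤ Real.exp (1 / 2 + y ^ 2 / 2) :=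
    Real.pow_div_factorial_le_exp _ (by positivity) A
  rw [div_le_iff₀ (by positivity)] at h2
  calc (1 + |y|) ^ A ≤ (4 * (1 / 2 + y ^ 2 / 2)) ^ A := pow_le_pow_left₀ (by positivity) h1 A
    _ = 4 ^ A * (1 / 2 + y ^ 2 / 2) ^ A := mul_pow _ _ _
    _ ≤ 4 ^ A * (Real.exp (1 / 2 + y ^ 2 / 2) * A.factorial) := by gcongr
    _ ≤ 4 ^ A * (Real.exp (1 + y ^ 2 / 2) * A.factorial) := by gcongr; norm_num
    _ = _ := by rw [Real.exp_add]; ring

/-- the decay of `gF`: `eulerF` is bounded, `riemannZeta₁ w = 1 + (w-1) riemannZeta₀ w` has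
polynomial growth (`H26.norm_riemannZeta₀_le`), `SJ` is bounded -/
theorem exists_gF_decay (a b u : Fin k → ℝ) (J : ℕ) : ∃ K : ℝ, 0 ≤ K ∧ ∀ x y : ℝ,
    |x| ≤ 1 / 8 → ‖gF a b J u (x + y * I)‖ ≤ K * Real.exp (-(y ^ 2) / 2) := by
  have hq : ∀ δ : ℝ, PB fun s : ℂ => riemannZeta₁ (1 + s + I * δ) / (I * δ) := by
    intro δ
    have := (PB_zeta1 δ).mul (PB_const (I * δ)⁻¹)
    simpa only [div_eq_mul_inv] using this
  have h1 : PB fun s => eulerF (S0 k) (gs a b u s) := by
    refine PB_of_bdd (C := |BF (Fintype.card (Ix k)) + 1|) (abs_nonneg _) fun x y hx => ?_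
    refine (norm_eulerF_le (gs_mem_tube a b u ?_)).trans (le_abs_self _)
    have : (x + y * I : ℂ).re = x := by simp
    rw [this]
    linarith
  have h2 : PB fun s : ℂ => ∏ j, ∏ l, (riemannZeta₁ (1 + s + I * dl a b u j l) / (I * dl a b u j l)) :=
    PB.prod _ fun j _ => PB.prod _ fun l _ => hq _
  have h3 : PB fun s : ℂ => ∏ j, ∏ l ∈ univ.erase j, (1 + s / (I * dl a b u j l)) := by
    refine PB.prod _ fun j _ => PB.prod _ fun l _ => ?_
    have := (PB_const 1).add (PB_id.mul (PB_const (I * dl a b u j l)⁻¹))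
    simpa only [div_eq_mul_inv] using this
  have h4 : PB fun s : ℂ => ∏ j, (riemannZeta₁ (1 + s + I * dl a b u j j) / (I * dl a b u j j)) :=
    PB.prod _ fun j _ => hq _
  obtain ⟨C, A, hC, h⟩ := (h1.mul h2).add ((PB_const (-1)).mul ((h3.mul h4).mul (PB_SJ a b J u)))
  refine ⟨C * (4 ^ A * A.factorial * Real.exp 1) * Real.exp 1, by positivity, fun x y hx => ?_⟩
  unfold gF
  rw [norm_mul]
  have e1 : ‖cexp ((x + y * I : ℂ) ^ 2)‖ ≤ Real.exp 1 * Real.exp (-(y ^ 2)) := by
    rw [norm_exp, ← Real.exp_add]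
    apply Real.exp_le_exp.2
    have : ((x + y * I : ℂ) ^ 2).re = x ^ 2 - y ^ 2 := by
      rw [show (x + y * I : ℂ) ^ 2 = ((x ^ 2 - y ^ 2 : ℝ) : ℂ) + ((2 * x * y : ℝ) : ℂ) * I by
        push_cast; linear_combination (y : ℂ) ^ 2 * I_sq]
      rw [add_re, ofReal_re, re_ofReal_mul, I_re, mul_zero, add_zero]
    rw [this]
    have hx' := abs_le.1 hx
    nlinarith
  have e2 := h x y hx
  have e3 : ∀ P Q R S T : ℂ, P * Q - R * S * T = P * Q + (-1) * (R * S * T) := fun P Q R S T => by ring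
  rw [e3]
  refine (mul_le_mul e1 e2 (norm_nonneg _) (by positivity)).trans ?_
  have e4 := poly_le_gauss A y
  calc Real.exp 1 * Real.exp (-y ^ 2) * (C * (1 + |y|) ^ A)
      ≤ Real.exp 1 * Real.exp (-y ^ 2) * (C * (4 ^ A * A.factorial * Real.exp 1 * Real.exp (y ^ 2 / 2))) := by
        gcongr
    _ = C * (4 ^ A * A.factorial * Real.exp 1) * Real.exp 1 * (Real.exp (-y ^ 2) * Real.exp (y ^ 2 / 2)) := by
        ring
    _ = _ := by
        rw [← Real.exp_add]
        congr 2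
        ring

theorem zeta1_div {δ : ℝ} (hδ : δ ≠ 0) {s : ℂ} (hs : s + I * δ ≠ 0) :
    riemannZeta₁ (1 + s + I * δ) / (I * δ) = (1 + s / (I * δ)) * riemannZeta (1 + s + I * δ) := by
  have hδ' : (δ : ℂ) ≠ 0 := by exact_mod_cast hδ
  have h1 : (1 + s + I * δ : ℂ) ≠ 1 := by
    intro h
    apply hs
    linear_combination h
  rw [riemannZeta_eq_inv_sub_mul h1]
  have h2 : (1 + s + I * δ - 1 : ℂ) = s + I * δ := by ring
  rw [h2]
  field_simp [I_ne_zero]
  ring

theorem gF_zero {a b u : Fin k → ℝ} (J : ℕ) (hd : ∀ j l, dl a b u j l ≠ 0) :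
    gF a b J u 0 = zetaAB (S0 k) (fun i => (gm a b u i : ℂ)) - PP a b J u := by
  have hz : ∀ j l, riemannZeta₁ (1 + 0 + I * dl a b u j l) / (I * dl a b u j l) =
      riemannZeta (1 + 0 + I * dl a b u j l) := by
    intro j l
    have h0 : (0 : ℂ) + I * dl a b u j l ≠ 0 := by
      rw [zero_add]
      exact mul_ne_zero I_ne_zero (by exact_mod_cast hd j l)
    rw [zeta1_div (hd j l) h0, zero_div, add_zero, one_mul]
  unfold gF
  rw [← gs_zero, ← Phi_eq, Phi_eq_prod, PP_eq]
  simp_rw [hz]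
  simp only [ne_eq, OfNat.ofNat_ne_zero, not_false_eq_true, zero_pow, Complex.exp_zero, one_mul, zero_div, add_zero,
    Finset.prod_const_one]
  congr 2
  unfold ZD
  refine Finset.prod_congr rfl fun j _ => ?_
  congr 2
  rw [add_zero]
  simp [dl]

theorem gF_eq {a b u : Fin k → ℝ} (J : ℕ) {s : ℂ} (hs : s.re ≠ 0)
    (hd : ∀ j l, dl a b u j l ≠ 0) :
    gF a b J u s = cexp (s ^ 2) * kf a b u s * (Phi a b u s - ZD a b s * SJ a b J u s) := by
  have hz : ∀ j l, riemannZeta₁ (1 + s + I * dl a b u j l) / (I * dl a b u j l) =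
      (1 + s / (I * dl a b u j l)) * riemannZeta (1 + s + I * dl a b u j l) := by
    intro j l
    refine zeta1_div (hd j l) fun h0 => hs ?_
    have := congrArg Complex.re h0
    simpa using this
  have h1 : ∏ j, ∏ l, (riemannZeta₁ (1 + s + I * dl a b u j l) / (I * dl a b u j l)) =
      kf a b u s * ∏ j, ∏ l, riemannZeta (1 + s + I * dl a b u j l) := by
    unfold kf
    rw [← Finset.prod_mul_distrib]
    refine Finset.prod_congr rfl fun j _ => ?_
    rw [← Finset.prod_mul_distrib]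
    exact Finset.prod_congr rfl fun l _ => hz j l
  have h2 : (∏ j, ∏ l ∈ univ.erase j, (1 + s / (I * dl a b u j l))) *
      (∏ j, (riemannZeta₁ (1 + s + I * dl a b u j j) / (I * dl a b u j j))) =
      kf a b u s * ZD a b s := by
    unfold kf ZD
    rw [← Finset.prod_mul_distrib, ← Finset.prod_mul_distrib]
    refine Finset.prod_congr rfl fun j _ => ?_
    rw [hz j j, ← Finset.mul_prod_erase univ (fun l => (1 + s / (I * dl a b u j l))) (Finset.mem_univ j)]
    have e : ((dl a b u j j : ℝ) : ℂ) = a j - b j := by simp [dl]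
    rw [e]
    ring
  unfold gF
  rw [h1, h2, Phi_eq_prod]
  ring

/-- the kernel factor, for well separated translations -/
theorem norm_kf_le {a b u : Fin k → ℝ} {r : ℝ} (hr : 0 < r) (hr1 : r ≤ 1)
    (hab : ∀ j, r ≤ |a j - b j|) (hd : ∀ j l, j ≠ l → 1 ≤ |dl a b u j l|) (s : ℂ) :
    ‖kf a b u s‖ ≤ r⁻¹ ^ k * (1 + ‖s‖) ^ (k ^ 2) := by
  have hf : ∀ j l, ‖1 + s / (I * dl a b u j l)‖ ≤ (if l = j then r⁻¹ else 1) * (1 + ‖s‖) := by
    intro j l
    have h0 : ‖1 + s / (I * dl a b u j l)‖ ≤ 1 + ‖s‖ / |dl a b u j l| := by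
      refine (norm_add_le _ _).trans ?_
      rw [norm_one, norm_div, norm_mul, norm_I, one_mul, norm_real, Real.norm_eq_abs]
    refine h0.trans ?_
    split_ifs with h
    · subst h
      have e : dl a b u l l = a l - b l := by simp [dl]
      rw [e]
      have h1 := hab l
      have h2 : ‖s‖ / |a l - b l| ≤ r⁻¹ * ‖s‖ := by
        rw [inv_mul_eq_div]
        exact div_le_div_of_nonneg_left (norm_nonneg _) hr h1
      have h3 : 1 ≤ r⁻¹ := (one_le_inv₀ hr).2 hr1
      rw [mul_add, mul_one]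
      linarith
    · have h1 := hd j l (fun h' => h h'.symm)
      have h2 : ‖s‖ / |dl a b u j l| ≤ ‖s‖ := div_le_self (norm_nonneg _) h1
      linarith
  unfold kf
  rw [norm_prod]
  have h1 : ∀ j, ‖∏ l, (1 + s / (I * dl a b u j l))‖ ≤ r⁻¹ * (1 + ‖s‖) ^ k := by
    intro j
    rw [norm_prod]
    refine (Finset.prod_le_prod (fun _ _ => norm_nonneg _) fun l _ => hf j l).trans ?_
    rw [Finset.prod_mul_distrib, Finset.prod_ite_eq' univ j fun _ => r⁻¹]
    simp
  refine (Finset.prod_le_prod (fun _ _ => norm_nonneg _) fun j _ => h1 j).trans ?_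
  rw [Finset.prod_const, Finset.card_univ, Fintype.card_fin, mul_pow, ← pow_mul, pow_two]

end Pool.Agent.AAS
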