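import Pool.Agent.AAS.PHS
import Pool.Agent.AAS.BLK
import Pool.Agent.AAS.CNT

set_option autoImplicit false

namespace Pool.Agent.AAS

open Complex Finset MeasureTheory Filter Topology Set
open Pool.Agent.H26

private theorem PLW_norm_exp (x y : ℝ) : ‖cexp (-(I * x * y))‖ = 1 := by
  have : -(I * (x : ℂ) * y) = ((-(x * y) : ℝ) : ℂ) * I := by
    push_cast
    ring
  rw [this, Complex.norm_exp_ofReal_mul_I]

/-- the norm of a term: `∏ (m_j n_j)^(-1/2 - Re s/2) = M^(-1 - Re s)` with `M = ∏ m_j = ∏ n_j` -/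
theorem norm_tq {k : ℕ} (a b u : Fin k → ℝ) (s : ℂ) {p : Fin k → ℕ × ℕ}
    (hp : ∀ j, 1 ≤ (p j).1 * (p j).2) (hM : ∏ j, (p j).1 = ∏ j, (p j).2) :
    ‖tq a b u s p‖ = ((∏ j, (p j).1 : ℕ) : ℝ) ^ (-1 - s.re) := by
  unfold tq
  rw [norm_prod]
  have h1 : ∀ j, ‖cf (a j) (b j) (s / 2) (p j) * cexp (-(I * lq (p j) * u j))‖ =
      (((p j).1 * (p j).2 : ℕ) : ℝ) ^ (-(1 / 2) - s.re / 2) := by
    intro j
    rw [norm_mul, PLW_norm_exp, mul_one, norm_cf _ _ _ (hp j)]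
    congr 2
    simp
  rw [Finset.prod_congr rfl fun j _ => h1 j]
  rw [Real.finsetProd_rpow _ _ (fun j _ => by positivity)]
  have h2 : (∏ j, (((p j).1 * (p j).2 : ℕ) : ℝ)) = ((∏ j, (p j).1 : ℕ) : ℝ) ^ (2 : ℝ) := by
    have h3 : (∏ j, ((p j).1 * (p j).2)) = (∏ j, (p j).1) ^ 2 := by
      rw [Finset.prod_mul_distrib, ← hM, sq]
    rw [← Nat.cast_prod, h3]
    push_cast
    norm_num
  rw [h2, ← Real.rpow_mul (by positivity)]
  congr 1
  ring

private theorem PLW_sum_Dg (k : ℕ) {δ : ℝ} (hδ : 0 < δ) : ∃ C : ℝ, 1 ≤ C ∧ ∀ X : ℕ,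
    ∑ p ∈ Dg k X, ((∏ j, (p j).1 : ℕ) : ℝ) ^ (-1 - δ) ≤ C := by
  obtain ⟨C, hC1, hC⟩ := exists_card_Dg k (δ / 2) (by positivity)
  have hsum : Summable fun n : ℕ => (n : ℝ) ^ (-1 - δ / 2) := by
    rw [Real.summable_nat_rpow]
    linarith
  refine ⟨max 1 (C * ∑' n : ℕ, (n : ℝ) ^ (-1 - δ / 2)), le_max_left _ _, fun X => ?_⟩
  refine le_trans ?_ (le_max_right _ _)
  have hmaps : ∀ p ∈ Dg k X, (∏ j, (p j).1) ∈ Finset.Icc 1 X := by
    intro p hp
    unfold Dg at hp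
    rw [Finset.mem_filter] at hp
    rw [Finset.mem_Icc]
    exact ⟨hp.2.2.2.1, hp.2.2.2.2⟩
  rw [← Finset.sum_fiberwise_of_maps_to hmaps]
  calc ∑ M ∈ Finset.Icc 1 X, ∑ p ∈ (Dg k X).filter (fun p => ∏ j, (p j).1 = M),
        ((∏ j, (p j).1 : ℕ) : ℝ) ^ (-1 - δ)
      ≤ ∑ M ∈ Finset.Icc 1 X, C * (M : ℝ) ^ (-1 - δ / 2) := by
        refine Finset.sum_le_sum fun M hM => ?_
        rw [Finset.mem_Icc] at hM
        have hM0 : (0 : ℝ) < M := by exact_mod_cast hM.1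
        have h1 : ∑ p ∈ (Dg k X).filter (fun p => ∏ j, (p j).1 = M),
            ((∏ j, (p j).1 : ℕ) : ℝ) ^ (-1 - δ) =
            (((Dg k X).filter (fun p => ∏ j, (p j).1 = M)).card : ℝ) * (M : ℝ) ^ (-1 - δ) := by
          rw [Finset.sum_congr rfl (g := fun _ => (M : ℝ) ^ (-1 - δ))]
          · rw [Finset.sum_const, nsmul_eq_mul]
          · intro p hp
            rw [Finset.mem_filter] at hp
            rw [hp.2]
        rw [h1]
        calc (((Dg k X).filter (fun p => ∏ j, (p j).1 = M)).card : ℝ) * (M : ℝ) ^ (-1 - δ)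
            ≤ (C * (M : ℝ) ^ (δ / 2)) * (M : ℝ) ^ (-1 - δ) :=
              mul_le_mul_of_nonneg_right (hC X M hM.1) (by positivity)
          _ = C * (M : ℝ) ^ (-1 - δ / 2) := by
              rw [mul_assoc, ← Real.rpow_add hM0]
              congr 2
              ring
    _ = C * ∑ M ∈ Finset.Icc 1 X, (M : ℝ) ^ (-1 - δ / 2) := by rw [Finset.mul_sum]
    _ ≤ C * ∑' n : ℕ, (n : ℝ) ^ (-1 - δ / 2) := by
        refine mul_le_mul_of_nonneg_left ?_ (by linarith)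
        exact hsum.sum_le_tsum _ fun n _ => by positivity

private theorem PLW_mem_Qt {k J : ℕ} {p : Fin k → ℕ × ℕ} (hp : p ∈ Qt k J) :
    (∀ j, p j ∈ low J) ∧ ∏ j, (p j).1 = ∏ j, (p j).2 := by
  unfold Qt at hp
  rw [Finset.mem_filter, Fintype.mem_piFinset] at hp
  exact hp

private theorem PLW_Qt_sub {k J X : ℕ} (hX : 2 ^ (k * J) ≤ X) (hX' : k ≠ 0 → 2 ^ J ≤ X) :
    Qt k J ⊆ Dg k X := by
  intro p hp
  obtain ⟨h1, h2⟩ := PLW_mem_Qt hp
  have h3 : ∀ j, 1 ≤ (p j).1 ∧ 1 ≤ (p j).2 ∧ (p j).1 < 2 ^ J ∧ (p j).2 < 2 ^ J := by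
    intro j
    obtain ⟨_, hb, hc⟩ := mem_low.1 (h1 j)
    have hb1 : 1 ≤ (p j).1 := Nat.pos_of_ne_zero fun h => by rw [h] at hb; simp at hb
    have hb2 : 1 ≤ (p j).2 := Nat.pos_of_ne_zero fun h => by rw [h] at hb; simp at hb
    refine ⟨hb1, hb2, lt_of_le_of_lt ?_ hc, lt_of_le_of_lt ?_ hc⟩
    · exact Nat.le_mul_of_pos_right _ hb2
    · exact Nat.le_mul_of_pos_left _ hb1
  unfold Dg
  rw [Finset.mem_filter, Fintype.mem_piFinset]
  refine ⟨fun j => ?_, fun j => (mem_low.1 (h1 j)).1, h2, ?_, ?_⟩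
  · rw [Finset.mem_product, Finset.mem_range, Finset.mem_range]
    have hk : k ≠ 0 := fun h => by subst h; exact j.elim0
    have := hX' hk
    have := h3 j
    omega
  · exact Finset.one_le_prod' fun j _ => (h3 j).1
  · refine le_trans ?_ hX
    calc ∏ j, (p j).1 ≤ ∏ _j : Fin k, 2 ^ J := Finset.prod_le_prod' fun j _ => (h3 j).2.2.1.le
      _ = 2 ^ (k * J) := by
        rw [Finset.prod_const, Finset.card_univ, Fintype.card_fin, ← pow_mul, mul_comm]

/-- `Qt k J ⊆ Dg k (2^(k*J))`, and a tuple of `Dg` with `M < 2^(J/2)` is in `Qt k J`; the number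
of tuples with given `M` is `≤ C M^ε` -/
theorem exists_sum_Qt_le (k : ℕ) {δ : ℝ} (hδ : 0 < δ) : ∃ C : ℝ, 1 ≤ C ∧ ∀ J : ℕ,
    ∑ p ∈ Qt k J, ((∏ j, (p j).1 : ℕ) : ℝ) ^ (-1 - δ) ≤ C := by
  obtain ⟨C, hC1, hC⟩ := PLW_sum_Dg k hδ
  refine ⟨C, hC1, fun J => le_trans ?_ (hC (2 ^ ((k + 1) * J)))⟩
  refine Finset.sum_le_sum_of_subset_of_nonneg (PLW_Qt_sub ?_ ?_) fun _ _ _ => by positivity
  · exact Nat.pow_le_pow_right (by norm_num) (Nat.mul_le_mul_right _ (Nat.le_succ k))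
  · intro _
    exact Nat.pow_le_pow_right (by norm_num) (Nat.le_mul_of_pos_left _ (Nat.succ_pos k))

private theorem PLW_norm_zeta {w : ℂ} (hw : w.re = 9 / 8) :
    ‖riemannZeta w‖ ≤ ∑' n : ℕ, ((n : ℝ) + 1) ^ (-(9 / 8) : ℝ) := by
  have hs : Summable fun n : ℕ => ((n : ℝ) + 1) ^ (-(9 / 8) : ℝ) := by
    have h := (summable_nat_add_iff 1).2 (Real.summable_nat_rpow (p := -(9 / 8)) |>.2 (by norm_num))
    refine h.congr fun n => ?_
    push_cast
    rfl
  have hn : ∀ n : ℕ, ‖1 / ((n : ℂ) + 1) ^ w‖ = ((n : ℝ) + 1) ^ (-(9 / 8) : ℝ) := by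
    intro n
    have : ((n : ℂ) + 1) = (((n : ℝ) + 1 : ℝ) : ℂ) := by push_cast; rfl
    rw [this, norm_div, norm_one, Complex.norm_cpow_eq_rpow_re_of_pos (by positivity), hw,
      Real.rpow_neg (by positivity), one_div]
  rw [zeta_eq_tsum_one_div_nat_add_one_cpow (by rw [hw]; norm_num)]
  refine le_trans (norm_tsum_le_tsum_norm ?_) ?_
  · exact hs.congr fun n => (hn n).symm
  · rw [tsum_congr hn]

/-- the main term on the line `Re s = 1/8` against the short sum.  From `exists_Phi_series` with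
`X = 2^((k+1)*J)` and the tail `∑_{M ≥ 2^(J/2)} C M^ε M^(-9/8)`. -/
theorem exists_Phi_low (k : ℕ) : ∃ C : ℝ, 1 ≤ C ∧ ∀ a b u : Fin k → ℝ, ∀ s : ℂ,
    s.re = 1 / 8 → ∀ J : ℕ,
    ‖Phi a b u s - ZD a b s * SJ a b J u s‖ ≤ C * (2 : ℝ) ^ (-(J : ℝ) / 24) := by
  obtain ⟨C1, hC1, h1⟩ := exists_Phi_series k
  obtain ⟨C2, hC2, h2⟩ := PLW_sum_Dg k (δ := 1 / 24) (by norm_num)
  set Z : ℝ := ∑' n : ℕ, ((n : ℝ) + 1) ^ (-(9 / 8) : ℝ) with hZ
  have hZ0 : 0 ≤ Z := tsum_nonneg fun n => by positivity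
  have hZk : 0 ≤ Z ^ k := pow_nonneg hZ0 k
  refine ⟨C1 + Z ^ k * C2, by nlinarith, fun a b u s hs J => ?_⟩
  set X : ℕ := 2 ^ ((k + 1) * J) with hX
  have hX1 : 1 ≤ X := Nat.one_le_two_pow
  have hsub : Qt k J ⊆ Dg k X := by
    refine PLW_Qt_sub ?_ ?_
    · exact Nat.pow_le_pow_right (by norm_num) (Nat.mul_le_mul_right _ (Nat.le_succ k))
    · intro _
      exact Nat.pow_le_pow_right (by norm_num) (Nat.le_mul_of_pos_left _ (Nat.succ_pos k))
  have hZD : ‖ZD a b s‖ ≤ Z ^ k := by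
    unfold ZD
    rw [norm_prod]
    calc ∏ j, ‖riemannZeta (1 + s + I * (a j - b j))‖ ≤ ∏ _j : Fin k, Z := by
          refine Finset.prod_le_prod (fun j _ => norm_nonneg _) fun j _ => ?_
          refine PLW_norm_zeta ?_
          have : (I * ((a j : ℂ) - b j)).re = 0 := by
            rw [← Complex.ofReal_sub, mul_comm, Complex.re_ofReal_mul]
            simp
          rw [Complex.add_re, this, Complex.add_re, hs]
          norm_num
      _ = Z ^ k := by rw [Finset.prod_const, Finset.card_univ, Fintype.card_fin]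
  -- the first part
  have hA : ‖Phi a b u s - ZD a b s * ∑ p ∈ Dg k X, tq a b u s p‖ ≤
      C1 * (2 : ℝ) ^ (-(J : ℝ) / 24) := by
    refine (h1 a b u s hs X hX1).trans ?_
    refine mul_le_mul_of_nonneg_left ?_ (by linarith)
    rw [hX]
    push_cast
    rw [← Real.rpow_natCast, ← Real.rpow_mul (by norm_num)]
    refine Real.rpow_le_rpow_of_exponent_le (by norm_num) ?_
    push_cast
    have hJ : (0 : ℝ) ≤ J := Nat.cast_nonneg J
    have hk : (0 : ℝ) ≤ k := Nat.cast_nonneg k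
    nlinarith [mul_nonneg hk hJ]
  -- the second part
  have hB : ‖∑ p ∈ Dg k X, tq a b u s p - SJ a b J u s‖ ≤ C2 * (2 : ℝ) ^ (-(J : ℝ) / 24) := by
    unfold SJ
    rw [← Finset.sum_sdiff hsub, add_sub_cancel_right]
    refine (norm_sum_le _ _).trans ?_
    calc ∑ p ∈ Dg k X \ Qt k J, ‖tq a b u s p‖
        ≤ ∑ p ∈ Dg k X \ Qt k J,
            ((∏ j, (p j).1 : ℕ) : ℝ) ^ (-1 - (1 / 24) : ℝ) * (2 : ℝ) ^ (-(J : ℝ) / 24) := by
          refine Finset.sum_le_sum fun p hp => ?_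
          rw [Finset.mem_sdiff] at hp
          obtain ⟨hpD, hpQ⟩ := hp
          unfold Dg at hpD
          rw [Finset.mem_filter, Fintype.mem_piFinset] at hpD
          obtain ⟨_, hcop, hpe, hge, _⟩ := hpD
          have hj1 : ∀ j, 1 ≤ (p j).1 := by
            intro j
            refine Nat.pos_of_ne_zero fun h => ?_
            rw [Finset.prod_eq_zero (Finset.mem_univ j) h] at hge
            omega
          have hj2 : ∀ j, 1 ≤ (p j).2 := by
            intro j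
            refine Nat.pos_of_ne_zero fun h => ?_
            rw [hpe, Finset.prod_eq_zero (Finset.mem_univ j) h] at hge
            omega
          have hj : ∀ j, 1 ≤ (p j).1 * (p j).2 := fun j => Nat.mul_pos (hj1 j) (hj2 j)
          rw [norm_tq a b u s hj hpe, hs]
          -- M² ≥ 2^J
          have hM2 : 2 ^ J ≤ (∏ j, (p j).1) ^ 2 := by
            by_contra hlt
            push Not at hlt
            apply hpQ
            unfold Qt
            rw [Finset.mem_filter, Fintype.mem_piFinset]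
            refine ⟨fun j => mem_low.2 ⟨hcop j, hj j, lt_of_le_of_lt ?_ hlt⟩, hpe⟩
            have h5 : (∏ j, (p j).1) ^ 2 = ∏ j, ((p j).1 * (p j).2) := by
              rw [Finset.prod_mul_distrib, ← hpe, sq]
            rw [h5]
            exact Finset.single_le_prod' (f := fun j => (p j).1 * (p j).2) (fun j _ => hj j)
              (Finset.mem_univ j)
          set M : ℕ := ∏ j, (p j).1 with hM
          have hM0 : (0 : ℝ) < M := by exact_mod_cast hge
          have hM2' : (2 : ℝ) ^ (J : ℝ) ≤ (M : ℝ) ^ (2 : ℝ) := by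
            rw [Real.rpow_natCast, Real.rpow_ofNat]
            exact_mod_cast hM2
          have h6 : (M : ℝ) ^ (-(1 / 12) : ℝ) ≤ (2 : ℝ) ^ (-(J : ℝ) / 24) := by
            have h7 : (2 : ℝ) ^ (-(J : ℝ) / 24) = ((2 : ℝ) ^ (J : ℝ)) ^ (-(1 / 24) : ℝ) := by
              rw [← Real.rpow_mul (by norm_num)]
              congr 1
              ring
            have h8 : (M : ℝ) ^ (-(1 / 12) : ℝ) = ((M : ℝ) ^ (2 : ℝ)) ^ (-(1 / 24) : ℝ) := by
              rw [← Real.rpow_mul hM0.le]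
              congr 1
              norm_num
            rw [h7, h8]
            exact Real.rpow_le_rpow_of_nonpos (by positivity) hM2' (by norm_num)
          calc (M : ℝ) ^ (-1 - 1 / 8 : ℝ)
              = (M : ℝ) ^ (-1 - (1 / 24) : ℝ) * (M : ℝ) ^ (-(1 / 12) : ℝ) := by
                rw [← Real.rpow_add hM0]
                congr 1
                norm_num
            _ ≤ _ := mul_le_mul_of_nonneg_left h6 (by positivity)
      _ = (∑ p ∈ Dg k X \ Qt k J, ((∏ j, (p j).1 : ℕ) : ℝ) ^ (-1 - (1 / 24) : ℝ)) *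
            (2 : ℝ) ^ (-(J : ℝ) / 24) := by rw [Finset.sum_mul]
      _ ≤ C2 * (2 : ℝ) ^ (-(J : ℝ) / 24) := by
          refine mul_le_mul_of_nonneg_right ?_ (by positivity)
          refine le_trans ?_ (h2 X)
          exact Finset.sum_le_sum_of_subset_of_nonneg Finset.sdiff_subset
            fun _ _ _ => by positivity
  have hE : Phi a b u s - ZD a b s * SJ a b J u s =
      (Phi a b u s - ZD a b s * ∑ p ∈ Dg k X, tq a b u s p) +
        ZD a b s * (∑ p ∈ Dg k X, tq a b u s p - SJ a b J u s) := by ring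
  rw [hE]
  calc _ ≤ ‖Phi a b u s - ZD a b s * ∑ p ∈ Dg k X, tq a b u s p‖ +
        ‖ZD a b s * (∑ p ∈ Dg k X, tq a b u s p - SJ a b J u s)‖ := norm_add_le _ _
    _ ≤ C1 * (2 : ℝ) ^ (-(J : ℝ) / 24) + Z ^ k * (C2 * (2 : ℝ) ^ (-(J : ℝ) / 24)) := by
        rw [norm_mul]
        exact add_le_add hA (mul_le_mul hZD hB (norm_nonneg _) hZk)
    _ = (C1 + Z ^ k * C2) * (2 : ℝ) ^ (-(J : ℝ) / 24) := by ring

end Pool.Agent.AAS
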