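import Pool.Agent.AAS.Defs

set_option autoImplicit false

namespace Pool.Agent.AAS

open Complex Finset MeasureTheory Filter Topology Set
open Pool.Agent.H26

private lemma TRG_one (μ : ℝ) {H : ℝ} (hH : 0 < H) :
    ‖∫ u in Icc (-H) H, cexp (-(I * μ * u))‖ ≤ 2 * H := by
  have h := norm_setIntegral_le_of_norm_le_const (μ := (volume : Measure ℝ)) (s := Icc (-H) H)
    (f := fun u : ℝ => cexp (-(I * μ * u))) (C := 1) (by
      rw [Real.volume_Icc]; exact ENNReal.ofReal_lt_top) (fun u _ => by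
      have : -(I * μ * u) = ((-(μ * u) : ℝ) : ℂ) * I := by push_cast; ring
      rw [this, norm_exp_ofReal_mul_I])
  refine h.trans ?_
  rw [Real.volume_real_Icc_of_le (by linarith)]
  linarith

private lemma TRG_far {μ δ : ℝ} {H : ℝ} (hH : 0 < H) (hδ : 0 < δ) (h : δ ≤ |μ|) :
    ‖∫ u in Icc (-H) H, cexp (-(I * μ * u))‖ ≤ 2 * H * (δ * H)⁻¹ := by
  have hμ : μ ≠ 0 := by
    intro h0
    rw [h0, abs_zero] at h
    linarith
  have hc : (-(I * μ) : ℂ) ≠ 0 := by
    simp [hμ]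
  rw [integral_Icc_eq_integral_Ioc, ← intervalIntegral.integral_of_le (by linarith)]
  have e1 : ∫ u in (-H)..H, cexp (-(I * μ * u)) = (cexp (-(I * μ) * H) - cexp (-(I * μ) * (-H : ℝ)))
      / (-(I * μ)) := by
    rw [← integral_exp_mul_complex hc]
    refine intervalIntegral.integral_congr fun u _ => ?_
    ring_nf
  rw [e1, norm_div]
  have n1 : ‖(-(I * μ) : ℂ)‖ = |μ| := by simp
  have n2 : ∀ v : ℝ, ‖cexp (-(I * μ) * v)‖ = 1 := by
    intro v
    have : -(I * μ) * v = ((-(μ * v) : ℝ) : ℂ) * I := by push_cast; ring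
    rw [this, norm_exp_ofReal_mul_I]
  rw [n1]
  have n3 : ‖cexp (-(I * μ) * H) - cexp (-(I * μ) * (-H : ℝ))‖ ≤ 2 := by
    refine (norm_sub_le _ _).trans ?_
    rw [n2, n2]
    norm_num
  have hμ0 : 0 < |μ| := lt_of_lt_of_le hδ h
  calc _ ≤ 2 / |μ| := div_le_div_of_nonneg_right n3 hμ0.le
    _ ≤ 2 / δ := div_le_div_of_nonneg_left (by norm_num) hδ h
    _ = 2 * H * (δ * H)⁻¹ := by
      field_simp

private lemma TRG_prod {k : ℕ} (μ : Fin k → ℝ) {H : ℝ} :
    ∫ u in box k H, ∏ j, cexp (-(I * μ j * u j)) =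
      ∏ j, ∫ u in Icc (-H) H, cexp (-(I * μ j * u)) := by
  have hvol : (volume : Measure (Fin k → ℝ)).restrict (box k H) =
      Measure.pi (fun _ : Fin k => (volume : Measure ℝ).restrict (Icc (-H) H)) := by
    rw [volume_pi, box, Measure.restrict_pi_pi]
  rw [hvol]
  exact integral_fintype_prod_eq_prod (fun j u => cexp (-(I * μ j * (u : ℝ))))

/-- A8: orthogonality of a trigonometric polynomial in several variables -/
theorem trig_orth {k : ℕ} {ι : Type*} (S : Finset ι) (lam : ι → Fin k → ℝ) {δ H : ℝ}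
    (hδ : 0 < δ) (hH : 0 < H)
    (hsep : ∀ r ∈ S, ∀ s ∈ S, r ≠ s → ∃ j, δ ≤ |lam r j - lam s j|) (c : ι → ℂ) :
    ∫ u in box k H, ‖∑ r ∈ S, c r * ∏ j, cexp (-(I * lam r j * u j))‖ ^ 2 ≤
      (2 * H) ^ k * (∑ r ∈ S, ‖c r‖ ^ 2 + (δ * H)⁻¹ * (∑ r ∈ S, ‖c r‖) ^ 2) := by
  classical
  have hexp : ∀ u : Fin k → ℝ,
      ((‖∑ r ∈ S, c r * ∏ j, cexp (-(I * lam r j * u j))‖ ^ 2 : ℝ) : ℂ) =
      ∑ r ∈ S, ∑ s ∈ S, c r * (starRingEnd ℂ) (c s) *
        ∏ j, cexp (-(I * ((lam r j - lam s j : ℝ) : ℂ) * u j)) := by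
    intro u
    push_cast
    rw [← Complex.mul_conj', map_sum, Finset.sum_mul_sum]
    refine Finset.sum_congr rfl fun r _ => Finset.sum_congr rfl fun s _ => ?_
    rw [map_mul, map_prod]
    have : ∀ j, cexp (-(I * ((lam r j : ℂ) - (lam s j : ℂ)) * u j)) =
        cexp (-(I * lam r j * u j)) * (starRingEnd ℂ) (cexp (-(I * lam s j * u j))) := by
      intro j
      rw [← exp_conj, ← Complex.exp_add]
      congr 1
      simp only [map_neg, map_mul, conj_I, conj_ofReal]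
      ring
    simp_rw [this, Finset.prod_mul_distrib]
    ring
  have hcomp : IsCompact (box k H) := isCompact_univ_pi fun _ => isCompact_Icc
  have hint : ∀ r s : ι, IntegrableOn (fun u : Fin k → ℝ => c r * (starRingEnd ℂ) (c s) *
        ∏ j, cexp (-(I * ((lam r j - lam s j : ℝ) : ℂ) * u j))) (box k H) := by
    intro r s
    refine ContinuousOn.integrableOn_compact hcomp (Continuous.continuousOn ?_)
    fun_prop
  have e1 : ((∫ u in box k H, ‖∑ r ∈ S, c r * ∏ j, cexp (-(I * lam r j * u j))‖ ^ 2 : ℝ) : ℂ) =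
      ∑ r ∈ S, ∑ s ∈ S, c r * (starRingEnd ℂ) (c s) *
        ∏ j, ∫ u in Icc (-H) H, cexp (-(I * ((lam r j - lam s j : ℝ) : ℂ) * u)) := by
    rw [← integral_complex_ofReal]
    simp_rw [hexp]
    rw [integral_finsetSum _ (fun r _ => integrable_finsetSum _ fun s _ => hint r s)]
    refine Finset.sum_congr rfl fun r _ => ?_
    rw [integral_finsetSum _ (fun s _ => hint r s)]
    refine Finset.sum_congr rfl fun s _ => ?_
    rw [integral_const_mul, TRG_prod]
  have hK : ∀ r ∈ S, ∀ s ∈ S,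
      ‖∏ j, ∫ u in Icc (-H) H, cexp (-(I * ((lam r j - lam s j : ℝ) : ℂ) * u))‖ ≤
        (2 * H) ^ k * ((if r = s then 1 else 0) + (δ * H)⁻¹) := by
    intro r hr s hs
    rw [norm_prod]
    have hp : 0 ≤ (δ * H)⁻¹ := by positivity
    by_cases h : r = s
    · rw [if_pos h]
      calc _ ≤ ∏ _j : Fin k, (2 * H) := Finset.prod_le_prod (fun _ _ => norm_nonneg _)
            fun j _ => TRG_one _ hH
        _ = (2 * H) ^ k := by simp
        _ ≤ _ := le_mul_of_one_le_right (by positivity) (by linarith)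
    · rw [if_neg h, zero_add]
      obtain ⟨j₀, hj₀⟩ := hsep r hr s hs h
      rw [← Finset.mul_prod_erase univ _ (Finset.mem_univ j₀)]
      have hcard : (univ.erase j₀ : Finset (Fin k)).card + 1 = k := by
        rw [Finset.card_erase_add_one (Finset.mem_univ j₀), Finset.card_univ, Fintype.card_fin]
      calc _ ≤ (2 * H * (δ * H)⁻¹) * ∏ _j ∈ (univ.erase j₀ : Finset (Fin k)), (2 * H) := by
            refine mul_le_mul (TRG_far hH hδ hj₀) (Finset.prod_le_prod (fun _ _ => norm_nonneg _)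
              fun j _ => TRG_one _ hH) (Finset.prod_nonneg fun _ _ => norm_nonneg _)
              (by positivity)
        _ = (2 * H) ^ k * (δ * H)⁻¹ := by
            rw [Finset.prod_const]
            conv_rhs => rw [← hcard, pow_succ]
            ring
  have hre : ∫ u in box k H, ‖∑ r ∈ S, c r * ∏ j, cexp (-(I * lam r j * u j))‖ ^ 2 ≤
      ‖((∫ u in box k H, ‖∑ r ∈ S, c r * ∏ j, cexp (-(I * lam r j * u j))‖ ^ 2 : ℝ) : ℂ)‖ := by
    rw [norm_real]
    exact le_abs_self _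
  refine hre.trans ?_
  rw [e1]
  calc _ ≤ ∑ r ∈ S, ∑ s ∈ S, ‖c r‖ * ‖c s‖ * ((2 * H) ^ k * ((if r = s then 1 else 0) +
        (δ * H)⁻¹)) := by
        refine (norm_sum_le _ _).trans (Finset.sum_le_sum fun r hr => ?_)
        refine (norm_sum_le _ _).trans (Finset.sum_le_sum fun s hs => ?_)
        rw [norm_mul, norm_mul, RCLike.norm_conj]
        exact mul_le_mul_of_nonneg_left (hK r hr s hs) (by positivity)
    _ = (2 * H) ^ k * (∑ r ∈ S, ‖c r‖ ^ 2 + (δ * H)⁻¹ * (∑ r ∈ S, ‖c r‖) ^ 2) := by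
        have e2 : ∀ r ∈ S, ∑ s ∈ S, ‖c r‖ * ‖c s‖ * ((2 * H) ^ k * ((if r = s then 1 else 0) +
            (δ * H)⁻¹)) = (2 * H) ^ k * (‖c r‖ ^ 2) + (2 * H) ^ k * (δ * H)⁻¹ *
              (‖c r‖ * ∑ s ∈ S, ‖c s‖) := by
          intro r hr
          have : ∀ s ∈ S, ‖c r‖ * ‖c s‖ * ((2 * H) ^ k * ((if r = s then 1 else 0) +
            (δ * H)⁻¹)) = (if r = s then (2 * H) ^ k * (‖c r‖ * ‖c s‖) else 0) +
              (2 * H) ^ k * (δ * H)⁻¹ * (‖c r‖ * ‖c s‖) := by
            intro s _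
            split_ifs <;> ring
          rw [Finset.sum_congr rfl this, Finset.sum_add_distrib, Finset.sum_ite_eq, if_pos hr,
            Finset.mul_sum, Finset.mul_sum]
          ring
        rw [Finset.sum_congr rfl e2, Finset.sum_add_distrib, ← Finset.mul_sum, ← Finset.mul_sum,
          ← Finset.sum_mul]
        ring

end Pool.Agent.AAS
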