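import Pool.Agent.AAS.Defs7
import Pool.Agent.AAS.TRG
import Pool.Agent.AAS.BLK
import Pool.Agent.AAS.PLW

set_option autoImplicit false

namespace Pool.Agent.AAS

open Complex Finset MeasureTheory Filter Topology Set
open Pool.Agent.H26

private theorem MSQ_box_eq (k : ℕ) (H : ℝ) :
    box k H = Set.Icc (fun _ => -H) (fun _ => H) := by
  unfold box
  rw [Set.pi_univ_Icc]

private theorem MSQ_volume (k : ℕ) {H : ℝ} (hH : 0 ≤ H) :
    (volume (box k H)).toReal = (2 * H) ^ k := by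
  rw [MSQ_box_eq, Real.volume_Icc_pi_toReal (fun _ => by linarith)]
  rw [Finset.prod_const, Finset.card_univ, Fintype.card_fin]
  congr 1
  ring

private theorem MSQ_compact (k : ℕ) (H : ℝ) : IsCompact (box k H) := by
  rw [MSQ_box_eq]
  exact isCompact_Icc

private theorem MSQ_cont {k : ℕ} (a b : Fin k → ℝ) (J : ℕ) (s : ℂ) :
    Continuous fun u : Fin k → ℝ => SJ a b J u s := by
  unfold SJ tq
  fun_prop

/-- the mean of the short diagonal sum on the line `-σ`: `trig_orth` with the frequencies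
`lam p j = lq (p j)` (separated by `2^(-J)` in some coordinate, `sep_low`), coefficients of norm
`M^(-1+σ)` (`norm_tq`), `∑ M^(-2+2σ) ≤ C` (`exists_sum_Qt_le`), number of tuples `≤ 16^(k*J)`,
and Cauchy-Schwarz -/
theorem exists_SJ_mean (k : ℕ) : ∃ C : ℝ, 1 ≤ C ∧ ∀ (a b : Fin k → ℝ) (J : ℕ) (σ y H : ℝ),
    0 ≤ σ → σ ≤ 1 / 8 → (2:ℝ) ^ ((8 * k + 1) * J) ≤ H →
    ∫ u in box k H, ‖SJ a b J u (-σ + y * I)‖ ≤ C * (2 * H) ^ k := by
  obtain ⟨C, hC1, hC⟩ := exists_sum_Qt_le k (δ := 3 / 4) (by norm_num)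
  refine ⟨1 + C, by linarith, fun a b J σ y H hσ0 hσ1 hH => ?_⟩
  have hH0 : 0 < H := lt_of_lt_of_le (by positivity) hH
  set s : ℂ := -σ + y * I with hs
  have hsre : s.re = -σ := by simp [hs]
  -- the coefficients
  set c : (Fin k → ℕ × ℕ) → ℂ := fun p => ∏ j, cf (a j) (b j) (s / 2) (p j) with hc
  have hQ : ∀ p ∈ Qt k J, (∀ j, p j ∈ low J) ∧ ∏ j, (p j).1 = ∏ j, (p j).2 := by
    intro p hp
    unfold Qt at hp
    rw [Finset.mem_filter, Fintype.mem_piFinset] at hp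
    exact hp
  have hcn : ∀ p ∈ Qt k J, ‖c p‖ = ((∏ j, (p j).1 : ℕ) : ℝ) ^ (-1 + σ) := by
    intro p hp
    obtain ⟨h1, h2⟩ := hQ p hp
    have h3 := norm_tq a b 0 s (fun j => (mem_low.1 (h1 j)).2.1) h2
    rw [hsre] at h3
    rw [show (-1 + σ : ℝ) = -1 - -σ by ring, ← h3]
    unfold tq
    simp [hc]
  have hM1 : ∀ p ∈ Qt k J, (1 : ℝ) ≤ ((∏ j, (p j).1 : ℕ) : ℝ) := by
    intro p hp
    obtain ⟨h1, _⟩ := hQ p hp
    have : 1 ≤ ∏ j, (p j).1 := Finset.one_le_prod' fun j _ => by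
      have hb := (mem_low.1 (h1 j)).2.1
      exact Nat.pos_of_ne_zero fun h => by rw [h] at hb; simp at hb
    exact_mod_cast this
  have hc1 : ∀ p ∈ Qt k J, ‖c p‖ ≤ 1 := by
    intro p hp
    rw [hcn p hp]
    exact Real.rpow_le_one_of_one_le_of_nonpos (hM1 p hp) (by linarith)
  have hc2 : ∑ p ∈ Qt k J, ‖c p‖ ^ 2 ≤ C := by
    refine le_trans (Finset.sum_le_sum fun p hp => ?_) (hC J)
    have hM := hM1 p hp
    rw [hcn p hp, ← Real.rpow_natCast, ← Real.rpow_mul (by linarith)]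
    refine Real.rpow_le_rpow_of_exponent_le hM ?_
    push_cast
    linarith
  have hcard : ((Qt k J).card : ℝ) ≤ 2 ^ (2 * k * J) := by
    have h1 : (Qt k J).card ≤ (low J).card ^ k := by
      unfold Qt
      refine (Finset.card_filter_le _ _).trans ?_
      rw [Fintype.card_piFinset_const]
    have h2 := card_low_le J
    calc ((Qt k J).card : ℝ) ≤ ((low J).card : ℝ) ^ k := by exact_mod_cast h1
      _ ≤ ((4 : ℝ) ^ J) ^ k := by gcongr
      _ = 2 ^ (2 * k * J) := by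
        rw [show (4 : ℝ) = 2 ^ 2 by norm_num, ← pow_mul, ← pow_mul]
        congr 1
        ring
  have hc3 : ∑ p ∈ Qt k J, ‖c p‖ ≤ 2 ^ (2 * k * J) := by
    refine le_trans (Finset.sum_le_sum hc1) ?_
    rw [Finset.sum_const, nsmul_eq_mul, mul_one]
    exact hcard
  have hSJ : ∀ u : Fin k → ℝ, SJ a b J u s =
      ∑ p ∈ Qt k J, c p * ∏ j, cexp (-(I * (lq (p j) : ℝ) * u j)) := by
    intro u
    unfold SJ tq
    refine Finset.sum_congr rfl fun p _ => ?_
    rw [Finset.prod_mul_distrib]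
  have hδ : (0 : ℝ) < 1 / 2 ^ J := by positivity
  have horth := trig_orth (k := k) (Qt k J) (fun p j => lq (p j)) (δ := 1 / 2 ^ J) (H := H) hδ hH0
    (by
      intro p hp q hq hpq
      have : ∃ j, p j ≠ q j := by
        by_contra hcon
        push Not at hcon
        exact hpq (funext hcon)
      obtain ⟨j, hj⟩ := this
      exact ⟨j, sep_low ((hQ p hp).1 j) ((hQ q hq).1 j) hj⟩) c
  have hsmall : (1 / 2 ^ J * H)⁻¹ * (∑ p ∈ Qt k J, ‖c p‖) ^ 2 ≤ 1 := by
    have h0 : 0 ≤ ∑ p ∈ Qt k J, ‖c p‖ := Finset.sum_nonneg fun _ _ => norm_nonneg _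
    have h4 : (∑ p ∈ Qt k J, ‖c p‖) ^ 2 ≤ 2 ^ (4 * k * J) := by
      calc (∑ p ∈ Qt k J, ‖c p‖) ^ 2 ≤ ((2 : ℝ) ^ (2 * k * J)) ^ 2 := by gcongr
        _ = 2 ^ (4 * k * J) := by rw [← pow_mul]; congr 1; ring
    have h5 : (2 : ℝ) ^ (4 * k * J) ≤ 1 / 2 ^ J * H := by
      have h6 : (2 : ℝ) ^ (4 * k * J) * 2 ^ J ≤ H := by
        refine le_trans ?_ hH
        rw [← pow_add]
        refine pow_le_pow_right₀ (by norm_num) ?_
        nlinarith [Nat.zero_le (k * J)]
      rw [div_mul_eq_mul_div, one_mul, le_div_iff₀ (by positivity)]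
      exact h6
    have h7 : 0 < 1 / 2 ^ J * H := by positivity
    rw [inv_mul_le_iff₀ h7, mul_one]
    exact h4.trans h5
  have hsq : ∫ u in box k H, ‖SJ a b J u s‖ ^ 2 ≤ (2 * H) ^ k * (C + 1) := by
    have : (fun u : Fin k → ℝ => ‖SJ a b J u s‖ ^ 2) =
        fun u => ‖∑ p ∈ Qt k J, c p * ∏ j, cexp (-(I * (lq (p j) : ℝ) * u j))‖ ^ 2 := by
      funext u
      rw [hSJ u]
    rw [this]
    refine horth.trans ?_
    refine mul_le_mul_of_nonneg_left ?_ (by positivity)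
    exact add_le_add hc2 hsmall
  have hcont := MSQ_cont a b J s
  have hi1 : IntegrableOn (fun u : Fin k → ℝ => ‖SJ a b J u s‖) (box k H) :=
    hcont.norm.continuousOn.integrableOn_compact (MSQ_compact k H)
  have hi2 : IntegrableOn (fun u : Fin k → ℝ => 1 + ‖SJ a b J u s‖ ^ 2) (box k H) :=
    (continuous_const.add (hcont.norm.pow 2)).continuousOn.integrableOn_compact (MSQ_compact k H)
  have hi3 : IntegrableOn (fun u : Fin k → ℝ => ‖SJ a b J u s‖ ^ 2) (box k H) :=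
    (hcont.norm.pow 2).continuousOn.integrableOn_compact (MSQ_compact k H)
  have hi4 : IntegrableOn (fun _ : Fin k → ℝ => (1 : ℝ)) (box k H) :=
    continuous_const.continuousOn.integrableOn_compact (MSQ_compact k H)
  have hmono : ∫ u in box k H, ‖SJ a b J u s‖ ≤
      ∫ u in box k H, (1 / 2 : ℝ) * (1 + ‖SJ a b J u s‖ ^ 2) := by
    refine integral_mono hi1 (hi2.const_mul _) fun u => ?_
    simp only
    nlinarith [sq_nonneg (‖SJ a b J u s‖ - 1)]
  refine hmono.trans ?_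
  rw [integral_const_mul, integral_add hi4 hi3, setIntegral_const, smul_eq_mul, mul_one]
  have hv : volume.real (box k H) = (2 * H) ^ k := MSQ_volume k hH0.le
  rw [hv]
  have hpos : 0 < (2 * H) ^ k := by positivity
  nlinarith

end Pool.Agent.AAS
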