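import Pool.Agent.AAS.LS
import Pool.Agent.AAS.BLK
import Pool.Agent.AAS.XXF
import Pool.Agent.AAS.CTS


set_option autoImplicit false

namespace Pool.Agent.AAS

open Complex Finset MeasureTheory Filter Topology Set
open Pool.Agent.H26

theorem lol_continuous_DP (S : Finset (ℕ × ℕ)) (a b : ℝ) (s : ℂ) :
    Continuous (fun x : ℝ => DP S a b s x) := by
  unfold DP
  refine continuous_finsetSum _ fun p _ => ?_
  refine continuous_const.mul ?_
  refine Complex.continuous_exp.comp ?_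
  exact (continuous_const.mul Complex.continuous_ofReal).neg

theorem lol_norm_zeta {B a b : ℝ} (ha : |a| ≤ B) (hb : |b| ≤ B) (hab : a ≠ b) :
    ‖riemannZeta (1 + I * (a - b))‖ ≤ (2 + 2 * B) * (1 + 1 / |a - b|) := by
  have hB : 0 ≤ B := (abs_nonneg a).trans ha
  have hre : (1 + I * ((a : ℂ) - b)).re = 1 := by simp
  have hne : (1 + I * ((a : ℂ) - b)) ≠ 1 := by
    intro h
    have h1 : I * ((a : ℂ) - b) = 0 := by linear_combination h
    rcases mul_eq_zero.1 h1 with h2 | h2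
    · exact I_ne_zero h2
    · apply hab
      have : (a : ℂ) = b := by linear_combination h2
      exact_mod_cast this
  have h3 := norm_riemannZeta_le (s := 1 + I * ((a : ℂ) - b)) (by rw [hre]; norm_num) hne
  have h4 : ‖1 + I * ((a : ℂ) - b) - 1‖ = |a - b| := by
    rw [show 1 + I * ((a : ℂ) - b) - 1 = I * ((a - b : ℝ) : ℂ) by push_cast; ring, norm_mul,
      norm_I, one_mul, Complex.norm_real, Real.norm_eq_abs]
  have h5 : ‖1 + I * ((a : ℂ) - b)‖ ≤ 1 + 2 * B := by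
    refine (norm_add_le _ _).trans ?_
    have h6 : ‖I * ((a : ℂ) - b)‖ = |a - b| := by
      rw [show I * ((a : ℂ) - b) = I * ((a - b : ℝ) : ℂ) by push_cast; ring, norm_mul,
        norm_I, one_mul, Complex.norm_real, Real.norm_eq_abs]
    rw [h6, norm_one]
    have := abs_sub a b
    linarith
  rw [h4, hre, div_one] at h3
  have h6 : 0 < |a - b| := abs_pos.2 (sub_ne_zero.2 hab)
  have h7 : 0 ≤ 1 / |a - b| := by positivity
  rw [one_div] at h7 ⊢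
  nlinarith [mul_nonneg hB h7]

theorem lol_J (ε : ℝ) (hε : 0 < ε) : ∃ K : ℝ, 1 ≤ K ∧ ∀ T : ℝ, 1 ≤ T → ∀ J : ℕ,
    (2:ℝ) ^ J ≤ T → ((J : ℝ) + 2) ^ 2 ≤ K * T ^ ε := by
  have hl : 0 < Real.log 2 := Real.log_pos (by norm_num)
  set e := ε * Real.log 2 with he
  have he0 : 0 < e := mul_pos hε hl
  refine ⟨max 1 (2 / e ^ 2 * Real.exp (2 * e)), le_max_left _ _, fun T hT J hJ => ?_⟩
  have hT0 : 0 < T := by linarith
  have h1 : (e * ((J : ℝ) + 2)) ^ 2 / 2 ≤ Real.exp (e * ((J : ℝ) + 2)) := by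
    have hx : 0 ≤ e * ((J : ℝ) + 2) := by positivity
    have := Real.quadratic_le_exp_of_nonneg hx
    nlinarith
  have h2 : Real.exp (e * ((J : ℝ) + 2)) ≤ Real.exp (2 * e) * T ^ ε := by
    rw [Real.rpow_def_of_pos hT0, ← Real.exp_add]
    apply Real.exp_le_exp.2
    have h3 : (J : ℝ) * Real.log 2 ≤ Real.log T := by
      rw [← Real.log_pow]
      exact Real.log_le_log (by positivity) hJ
    have := mul_le_mul_of_nonneg_left h3 hε.le
    rw [he]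
    nlinarith
  have h4 : ((J : ℝ) + 2) ^ 2 = 2 / e ^ 2 * ((e * ((J : ℝ) + 2)) ^ 2 / 2) := by
    field_simp
  have h5 : (0 : ℝ) ≤ T ^ ε := Real.rpow_nonneg hT0.le _
  calc ((J : ℝ) + 2) ^ 2 = 2 / e ^ 2 * ((e * ((J : ℝ) + 2)) ^ 2 / 2) := h4
    _ ≤ 2 / e ^ 2 * (Real.exp (2 * e) * T ^ ε) := by
        apply mul_le_mul_of_nonneg_left (h1.trans h2) (by positivity)
    _ = (2 / e ^ 2 * Real.exp (2 * e)) * T ^ ε := by ring
    _ ≤ _ := mul_le_mul_of_nonneg_right (le_max_right _ _) h5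

theorem lol_DP {H : ℝ} (hH : 1 ≤ H) (a b : ℝ) (J : ℕ) (hJ : (2:ℝ) ^ J ≤ H) (t : ℝ) :
    ∫ u in (-H)..H, ‖DP (low J) a b 0 (t + u)‖ ^ 2 ≤ 75 * ((J : ℝ) + 2) ^ 2 * (2 * H) := by
  have h1 := large_sieve (low J) lq (δ := 1 / (2:ℝ) ^ J) (by positivity)
    (fun r hr s hs hrs => sep_low hr hs hrs)
    (fun p => cf a b 0 p * cexp (-(I * lq p * t))) (A := -H) (B := H) (by linarith)
  have h2 : ∀ u : ℝ, DP (low J) a b 0 (t + u) =
      ∑ r ∈ low J, cf a b 0 r * cexp (-(I * lq r * t)) * cexp (-(I * lq r * u)) := by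
    intro u
    unfold DP
    refine Finset.sum_congr rfl fun p _ => ?_
    rw [mul_assoc (cf a b 0 p), ← Complex.exp_add]
    congr 2
    push_cast
    ring
  simp only [h2]
  refine h1.trans ?_
  have h3 : ∑ r ∈ low J, ‖cf a b 0 r * cexp (-(I * lq r * t))‖ ^ 2 ≤ 2 * ((J : ℝ) + 2) ^ 2 := by
    refine le_trans (le_of_eq ?_) (sum_low_inv_le J)
    refine Finset.sum_congr rfl fun p hp => ?_
    have hp1 := (mem_low.1 hp).2.1
    have h4 : ‖cexp (-(I * lq p * t))‖ = 1 := by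
      rw [show -(I * (lq p : ℂ) * t) = ((-(lq p * t) : ℝ) : ℂ) * I by push_cast; ring,
        Complex.norm_exp_ofReal_mul_I]
    rw [norm_mul, h4, mul_one, norm_cf a b 0 hp1]
    have h5 : (0 : ℝ) < ((p.1 * p.2 : ℕ) : ℝ) := by exact_mod_cast hp1
    rw [← Real.rpow_natCast, ← Real.rpow_mul h5.le, ← Real.rpow_neg_one]
    congr 1
    simp
  have h4 : 25 * ((H - -H) + 1 / (1 / (2:ℝ) ^ J)) ≤ 75 * H := by
    rw [one_div_one_div]
    linarith
  have h5 : (0 : ℝ) ≤ ∑ r ∈ low J, ‖cf a b 0 r * cexp (-(I * lq r * t))‖ ^ 2 :=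
    Finset.sum_nonneg fun _ _ => by positivity
  calc 25 * ((H - -H) + 1 / (1 / (2:ℝ) ^ J)) *
        ∑ r ∈ low J, ‖cf a b 0 r * cexp (-(I * lq r * t))‖ ^ 2
      ≤ (75 * H) * (2 * ((J : ℝ) + 2) ^ 2) := mul_le_mul h4 h3 h5 (by positivity)
    _ = 75 * ((J : ℝ) + 2) ^ 2 * (2 * H) := by ring

/-- E4 -/
theorem exists_lo_local (B ε : ℝ) (hB : 0 ≤ B) (hε : 0 < ε) :
    ∃ C : ℝ, 1 ≤ C ∧ ∀ T H : ℝ, 1 ≤ T → 1 ≤ H → ∀ a b : ℝ, |a| ≤ B → |b| ≤ B → a ≠ b →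
    ∀ J : ℕ, (2:ℝ) ^ J ≤ H → (2:ℝ) ^ J ≤ T → ∀ t : ℝ,
    ∫ u in (-H)..H, ‖lo a b J (t + u)‖ ^ 2 ≤ C * (1 + 1 / |a - b|) ^ 2 * T ^ ε * (2 * H) := by
  obtain ⟨K, hK, hKJ⟩ := lol_J ε hε
  refine ⟨300 * (2 + 2 * B) ^ 2 * K, ?_, ?_⟩
  · have : 1 ≤ (2 + 2 * B) ^ 2 := by nlinarith
    nlinarith
  intro T H hT hH a b ha hb hab J hJH hJT t
  have hHH : -H ≤ H := by linarith
  set Z := (2 + 2 * B) * (1 + 1 / |a - b|) with hZ
  have hZ0 : 0 ≤ Z := by positivity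
  have hz1 : ‖riemannZeta (1 + I * ((a : ℂ) - b))‖ ≤ Z := lol_norm_zeta ha hb hab
  have hz2 : ‖riemannZeta (1 + I * ((b : ℂ) - a))‖ ≤ Z := by
    have := lol_norm_zeta hb ha (Ne.symm hab)
    rwa [abs_sub_comm b a] at this
  have hc1 : Continuous fun u : ℝ => ‖DP (low J) a b 0 (t + u)‖ ^ 2 :=
    ((lol_continuous_DP (low J) a b 0).comp (continuous_const.add continuous_id)).norm.pow 2
  have hc2 : Continuous fun u : ℝ => ‖DP (low J) b a 0 (t + u)‖ ^ 2 :=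
    ((lol_continuous_DP (low J) b a 0).comp (continuous_const.add continuous_id)).norm.pow 2
  have hc3 : Continuous fun u : ℝ => ‖lo a b J (t + u)‖ ^ 2 :=
    ((continuous_lo a b J).comp (continuous_const.add continuous_id)).norm.pow 2
  have hpt : ∀ u : ℝ, ‖lo a b J (t + u)‖ ^ 2 ≤
      2 * Z ^ 2 * ‖DP (low J) a b 0 (t + u)‖ ^ 2 + 2 * Z ^ 2 * ‖DP (low J) b a 0 (t + u)‖ ^ 2 := by
    intro u
    have h1 : ‖lo a b J (t + u)‖ ≤
        Z * ‖DP (low J) a b 0 (t + u)‖ + Z * ‖DP (low J) b a 0 (t + u)‖ := by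
      unfold lo
      refine (norm_add_le _ _).trans ?_
      rw [norm_mul, norm_mul, norm_mul, norm_XX, one_mul]
      exact add_le_add (mul_le_mul_of_nonneg_right hz1 (norm_nonneg _))
        (mul_le_mul_of_nonneg_right hz2 (norm_nonneg _))
    have h2 := norm_nonneg (lo a b J (t + u))
    have h3 := norm_nonneg (DP (low J) a b 0 (t + u))
    have h4 := norm_nonneg (DP (low J) b a 0 (t + u))
    calc ‖lo a b J (t + u)‖ ^ 2
        ≤ (Z * ‖DP (low J) a b 0 (t + u)‖ + Z * ‖DP (low J) b a 0 (t + u)‖) ^ 2 :=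
          pow_le_pow_left₀ h2 h1 2
      _ ≤ _ := by
          nlinarith [sq_nonneg (Z * ‖DP (low J) a b 0 (t + u)‖ - Z * ‖DP (low J) b a 0 (t + u)‖)]
  have hi1 : IntervalIntegrable (fun u : ℝ => 2 * Z ^ 2 * ‖DP (low J) a b 0 (t + u)‖ ^ 2)
      volume (-H) H := (continuous_const.mul hc1).intervalIntegrable _ _
  have hi2 : IntervalIntegrable (fun u : ℝ => 2 * Z ^ 2 * ‖DP (low J) b a 0 (t + u)‖ ^ 2)
      volume (-H) H := (continuous_const.mul hc2).intervalIntegrable _ _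
  have h1 : ∫ u in (-H)..H, ‖lo a b J (t + u)‖ ^ 2 ≤
      ∫ u in (-H)..H, (2 * Z ^ 2 * ‖DP (low J) a b 0 (t + u)‖ ^ 2 +
        2 * Z ^ 2 * ‖DP (low J) b a 0 (t + u)‖ ^ 2) :=
    intervalIntegral.integral_mono_on hHH (hc3.intervalIntegrable _ _)
      (hi1.add hi2) fun u _ => hpt u
  rw [intervalIntegral.integral_add hi1 hi2, intervalIntegral.integral_const_mul,
    intervalIntegral.integral_const_mul] at h1
  have h2 := lol_DP hH a b J hJH t
  have h3 := lol_DP hH b a J hJH t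
  have h4 := hKJ T hT J hJT
  have hZ2 : 0 ≤ 2 * Z ^ 2 := by positivity
  have h5 : 75 * ((J : ℝ) + 2) ^ 2 * (2 * H) ≤ 75 * (K * T ^ ε) * (2 * H) := by
    gcongr
  calc _ ≤ _ := h1
    _ ≤ 2 * Z ^ 2 * (75 * (K * T ^ ε) * (2 * H)) + 2 * Z ^ 2 * (75 * (K * T ^ ε) * (2 * H)) :=
        add_le_add (mul_le_mul_of_nonneg_left (h2.trans h5) hZ2)
          (mul_le_mul_of_nonneg_left (h3.trans h5) hZ2)
    _ = 300 * (2 + 2 * B) ^ 2 * K * (1 + 1 / |a - b|) ^ 2 * T ^ ε * (2 * H) := by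
        rw [hZ]; ring

end Pool.Agent.AAS
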