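import Pool.Agent.AAS.TEL
import Pool.Agent.AAS.AVF
import Pool.Agent.AAS.L2F
import Pool.Agent.AAS.LOL
import Pool.Agent.AAS.PFL
import Pool.Agent.AAS.CTS


set_option autoImplicit false

namespace Pool.Agent.AAS

open Complex Finset MeasureTheory Filter Topology Set
open Pool.Agent.H26

private lemma tru_cont {φ : ℝ → ℝ} (hφ : Continuous φ) (H : ℝ) :
    Continuous fun t : ℝ => ∫ u in (-H)..H, φ (t + u) := by
  refine intervalIntegral.continuous_parametric_intervalIntegral_of_continuous' ?_ _ _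
  exact hφ.comp (continuous_fst.add continuous_snd)

private lemma tru_fubini {φ : ℝ → ℝ} (hφ : Continuous φ) {T₀ T H : ℝ} (hH : 0 < H)
    (hT : T₀ ≤ T) :
    ∫ t in T₀..T, ∫ u in (-H)..H, φ (t + u) = ∫ u in (-H)..H, ∫ t in T₀..T, φ (t + u) := by
  have hle : -H ≤ H := by linarith
  simp only [intervalIntegral.integral_of_le hT, intervalIntegral.integral_of_le hle]
  refine integral_integral_swap (f := fun t u => φ (t + u)) ?_
  rw [Measure.prod_restrict]
  have h1 : IntegrableOn (fun p : ℝ × ℝ => φ (p.1 + p.2)) (Icc T₀ T ×ˢ Icc (-H) H)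
      (volume.prod volume) := by
    refine ContinuousOn.integrableOn_compact (isCompact_Icc.prod isCompact_Icc) ?_
    exact (hφ.comp (continuous_fst.add continuous_snd)).continuousOn
  exact h1.mono_set (Set.prod_mono Ioc_subset_Icc_self Ioc_subset_Icc_self)

private lemma tru_cheb {φ : ℝ → ℝ} (hφ : Continuous φ) (hφ0 : ∀ x, 0 ≤ φ x)
    {A B T₀ T H S c : ℝ} (hH : 0 < H) (hT : T₀ ≤ T) (hA : A ≤ T₀ - H) (hB : T + H ≤ B)
    (hS : ∫ x in A..B, φ x ≤ S) (hc : 0 < c) :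
    volume (Icc T₀ T ∩ {t : ℝ | 2 * H * c < ∫ u in (-H)..H, φ (t + u)}) ≤
      ENNReal.ofReal (S / c) := by
  have hle : -H ≤ H := by linarith
  have hcg := tru_cont hφ H
  have hg0 : ∀ t : ℝ, 0 ≤ ∫ u in (-H)..H, φ (t + u) := fun t =>
    intervalIntegral.integral_nonneg hle fun u _ => hφ0 _
  have h1 : ∫ t in T₀..T, ∫ u in (-H)..H, φ (t + u) ≤ 2 * H * S := by
    rw [tru_fubini hφ hH hT]
    have h2 : ∀ u ∈ Icc (-H) H, ∫ t in T₀..T, φ (t + u) ≤ S := by
      intro u hu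
      rw [intervalIntegral.integral_comp_add_right]
      refine le_trans ?_ hS
      refine intervalIntegral.integral_mono_interval (by linarith [hu.1]) (by linarith)
        (by linarith [hu.2]) (Eventually.of_forall fun x => hφ0 x) (hφ.intervalIntegrable _ _)
    have hc2 : Continuous fun u : ℝ => ∫ t in T₀..T, φ (t + u) := by
      refine intervalIntegral.continuous_parametric_intervalIntegral_of_continuous' ?_ _ _
      exact hφ.comp (continuous_snd.add continuous_fst)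
    calc ∫ u in (-H)..H, ∫ t in T₀..T, φ (t + u) ≤ ∫ _u in (-H)..H, S :=
          intervalIntegral.integral_mono_on hle (hc2.intervalIntegrable _ _)
            intervalIntegrable_const h2
      _ = 2 * H * S := by rw [intervalIntegral.integral_const, smul_eq_mul]; ring
  set g : ℝ → ℝ := fun t => ∫ u in (-H)..H, φ (t + u) with hg
  set μ : Measure ℝ := volume.restrict (Icc T₀ T) with hμ
  have hint : Integrable g μ := hcg.continuousOn.integrableOn_Icc
  have h3 := mul_meas_ge_le_integral_of_nonneg (μ := μ) (Eventually.of_forall hg0) hint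
    (2 * H * c)
  have h4 : ∫ t, g t ∂μ ≤ 2 * H * S := by
    rw [hμ, integral_Icc_eq_integral_Ioc, ← intervalIntegral.integral_of_le hT]
    exact h1
  have hHc : 0 < 2 * H * c := by positivity
  have h5 : μ.real {t | 2 * H * c ≤ g t} ≤ S / c := by
    rw [le_div_iff₀ hc]
    have h6 : 2 * H * (μ.real {t | 2 * H * c ≤ g t} * c) ≤ 2 * H * S := by
      calc 2 * H * (μ.real {t | 2 * H * c ≤ g t} * c)
          = 2 * H * c * μ.real {t | 2 * H * c ≤ g t} := by ring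
        _ ≤ _ := h3.trans h4
    exact le_of_mul_le_mul_left h6 (by positivity)
  have hmeas : MeasurableSet {t | 2 * H * c ≤ g t} :=
    measurableSet_le measurable_const hcg.measurable
  have h7 : μ {t | 2 * H * c ≤ g t} ≤ ENNReal.ofReal (S / c) := by
    rw [measureReal_def] at h5
    have hfin : μ {t | 2 * H * c ≤ g t} ≠ ⊤ := by
      refine ne_of_lt (lt_of_le_of_lt (measure_mono (Set.subset_univ _)) ?_)
      rw [hμ, Measure.restrict_apply_univ, Real.volume_Icc]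
      exact ENNReal.ofReal_lt_top
    rw [← ENNReal.ofReal_toReal hfin]
    exact ENNReal.ofReal_le_ofReal h5
  refine le_trans ?_ h7
  rw [hμ, Measure.restrict_apply hmeas]
  refine measure_mono ?_
  rintro t ⟨ht1, ht2⟩
  refine ⟨?_, ht1⟩
  show 2 * H * c ≤ g t
  have ht3 : 2 * H * c < ∫ u in (-H)..H, φ (t + u) := ht2
  exact ht3.le

/-- F2 -/
theorem exists_trunc {w : ℝ} (hw : LocalBound w) (hw1 : 1 / 4 ≤ w) (k : ℕ) (B ε y : ℝ)
    (hB : 0 ≤ B) (hε : 0 < ε) (hy : 0 < y) (hy1 : y ≤ 1 / 40) (hεy : ε ≤ y / (100 * (k + 1))) :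
    ∃ C : ℝ, 1 ≤ C ∧ ∀ T T₀ H : ℝ, 1 ≤ T → T ^ (7 / 8 : ℝ) ≤ T₀ → T₀ ≤ T →
    T ^ w ≤ H → H ≤ T₀ / 2 → ∀ J : ℕ, T ^ y / 2 ≤ 2 ^ J → (2:ℝ) ^ J ≤ T ^ y →
    ∀ a b : Fin k → ℝ, (∀ j, |a j| ≤ B) → (∀ j, |b j| ≤ B) →
    (∀ j, T ^ (-ε) ≤ |a j - b j|) →
    ∫ u in box k H, ‖∫ t in T₀..T, (∏ j, pf (a j) (b j) (t + u j) -
      ∏ j, lo (a j) (b j) J (t + u j))‖ ≤
      (2 * H) ^ k * (C * T ^ (1 - y / (2 * (k + 1)) + (20 + 2 * k) * ε)) := by
  have hk0 : (0:ℝ) ≤ k := Nat.cast_nonneg k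
  have hk1 : (0:ℝ) < (k:ℝ) + 1 := by linarith
  have hε1 : ε ≤ 1 / 100 := by
    refine hεy.trans ?_
    rw [div_le_div_iff₀ (by positivity) (by norm_num)]
    nlinarith
  obtain ⟨C₁, hC₁, h₁⟩ := exists_avb_pf B ε hB hε hε1
  obtain ⟨C₂, hC₂, h₂⟩ := exists_l2_pf B ε hB hε hε1
  obtain ⟨C₃, hC₃, h₃⟩ := exists_lo_local B ε hB hε
  obtain ⟨C₄, hC₄, h₄⟩ := exists_pf_local hw B ε hB hε
  set d : ℝ := y / (2 * (k + 1)) with hd
  have hd0 : 0 < d := by positivity
  have h3εd : 3 * ε ≤ d := by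
    have : y / (100 * (k + 1)) = d / 50 := by rw [hd]; field_simp; norm_num
    rw [this] at hεy
    linarith
  have hdy : d * (k + 1) = y / 2 := by rw [hd]; field_simp
  set K : ℝ := 4 * C₃ with hK
  have hK0 : 1 ≤ K := by linarith
  set A₀ : ℝ := 2 * C₃ + C₄ with hA₀
  have hA₀1 : 1 ≤ A₀ := by linarith
  set R : ℝ := 8 * k * C₂ * A₀ ^ k + k * (6 * C₁) * K ^ k with hR
  have hR0 : 0 ≤ R := by positivity
  refine ⟨1 + R, by linarith, ?_⟩
  intro T T₀ H hT hT₀ hT₀T hTH hHT J hJ1 hJ2 a b ha hb hab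
  have hT0 : 0 < T := by linarith
  have hH1 : 1 ≤ H := le_trans (Real.one_le_rpow hT (by linarith)) hTH
  have hH0 : 0 < H := by linarith
  have hHle : H ≤ T := by linarith
  have hTε : 0 < T ^ (-ε) := Real.rpow_pos_of_pos hT0 _
  have hne : ∀ j, a j ≠ b j := fun j h => by
    have h5 := hab j
    rw [h, sub_self, abs_zero] at h5
    linarith
  have hJT : (2:ℝ) ^ J ≤ T := hJ2.trans (by
    conv_rhs => rw [← Real.rpow_one T]
    exact Real.rpow_le_rpow_of_exponent_le hT (by linarith))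
  have hJ40 : (2:ℝ) ^ J ≤ T ^ (1 / 40 : ℝ) :=
    hJ2.trans (Real.rpow_le_rpow_of_exponent_le hT hy1)
  have hJH : (2:ℝ) ^ J ≤ H :=
    (hJ2.trans (Real.rpow_le_rpow_of_exponent_le hT (by linarith))).trans hTH
  -- the size of the inverse differences
  have hT1 : 1 ≤ T ^ ε := Real.one_le_rpow hT hε.le
  have hinv : ∀ j, 1 / |a j - b j| ≤ T ^ ε := by
    intro j
    calc 1 / |a j - b j| ≤ 1 / T ^ (-ε) := one_div_le_one_div_of_le hTε (hab j)
      _ = T ^ ε := by rw [Real.rpow_neg hT0.le]; simp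
  have hinv0 : ∀ j, 0 ≤ 1 / |a j - b j| := fun j => by positivity
  have hE : ∀ j, 1 + 1 / (a j - b j) ^ 2 ≤ 2 * (T ^ ε * T ^ ε) := by
    intro j
    have e : 1 / (a j - b j) ^ 2 = (1 / |a j - b j|) * (1 / |a j - b j|) := by
      rw [← sq_abs]; field_simp
    rw [e]
    have := mul_le_mul (hinv j) (hinv j) (hinv0 j) (by positivity)
    have h1 : 1 ≤ T ^ ε * T ^ ε := by nlinarith
    linarith
  have hF : ∀ j, (1 + 1 / |a j - b j|) ^ 2 ≤ 4 * (T ^ ε * T ^ ε) := by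
    intro j
    have h1 : 1 + 1 / |a j - b j| ≤ 2 * T ^ ε := by linarith [hinv j]
    have h2 : 0 ≤ 1 + 1 / |a j - b j| := by linarith [hinv0 j]
    calc (1 + 1 / |a j - b j|) ^ 2 ≤ (2 * T ^ ε) ^ 2 := pow_le_pow_left₀ h2 h1 2
      _ = _ := by ring
  -- the parameters
  set Dd : ℝ := √K * T ^ (d / 2) with hDd
  have hDd2 : Dd ^ 2 = K * T ^ d := by
    rw [hDd, mul_pow, Real.sq_sqrt (by linarith), ← Real.rpow_natCast, ← Real.rpow_mul hT0.le]
    congr 2
    push_cast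
    ring
  set M : ℝ := 6 * C₁ * T ^ (1 / 2 + 5 * ε - y / 2) with hM
  set A : ℝ := A₀ * T ^ (3 / 2 * ε) with hA
  set m : ℝ := 4 * k * C₂ * T ^ (1 + 10 * ε - d) with hm
  set G : Set ℝ := {t | ∀ j : Fin k,
    ∫ u in (-H)..H, ‖pf (a j) (b j) (t + u)‖ ^ 2 ≤ 2 * H * (K * T ^ d)} with hG
  have hTd : 0 < T ^ d := Real.rpow_pos_of_pos hT0 _
  have hcpf : ∀ j, Continuous fun x => ‖pf (a j) (b j) x‖ ^ 2 := fun j =>
    (continuous_pf (a j) (b j)).norm.pow 2
  have hGm : MeasurableSet G := by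
    rw [hG, Set.ofPred_forall]
    refine MeasurableSet.iInter fun j => ?_
    exact measurableSet_le (tru_cont (hcpf j) H).measurable measurable_const
  have hlo2 : ∀ j (t : ℝ), ∫ u in (-H)..H, ‖lo (a j) (b j) J (t + u)‖ ^ 2 ≤
      2 * H * (4 * C₃ * T ^ (3 * ε)) := by
    intro j t
    refine (h₃ T H hT hH1 (a j) (b j) (ha j) (hb j) (hne j) J hJH hJT t).trans ?_
    have e : T ^ (3 * ε) = T ^ ε * T ^ ε * T ^ ε := by
      rw [← Real.rpow_add hT0, ← Real.rpow_add hT0]; congr 1; ring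
    have hTe : 0 < T ^ ε := by linarith
    calc C₃ * (1 + 1 / |a j - b j|) ^ 2 * T ^ ε * (2 * H)
        ≤ C₃ * (4 * (T ^ ε * T ^ ε)) * T ^ ε * (2 * H) := by
          gcongr
          exact hF j
      _ = _ := by rw [e]; ring
  have main := telescope (k := k) hH0 hT₀T hGm
    (f := fun j => pf (a j) (b j)) (l := fun j => lo (a j) (b j) J)
    (fun j => continuous_pf _ _) (fun j => continuous_lo _ _ _)
    (M := M) (D := Dd) (A := A) (m := m) (by positivity) (by positivity) (by positivity)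
    (fun j => ?_) (fun j t ht => ?_) (fun j t ht => ?_) (fun j t ht => ?_) (fun j t ht => ?_) ?_
  · refine main.trans ?_
    refine mul_le_mul_of_nonneg_left ?_ (by positivity)
    have hAk : A ^ k = A₀ ^ k * T ^ (3 / 2 * ε * k) := by
      rw [hA, mul_pow, ← Real.rpow_natCast (T ^ (3 / 2 * ε)) k, ← Real.rpow_mul hT0.le]
    set E : ℝ := 1 - y / (2 * (k + 1)) + (20 + 2 * k) * ε with hEE
    have hE1 : E = 1 - d + (20 + 2 * k) * ε := by rw [hEE, hd]
    have hTE : 0 < T ^ E := Real.rpow_pos_of_pos hT0 _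
    have p1 : 2 * m * A ^ k ≤ 8 * k * C₂ * A₀ ^ k * T ^ E := by
      have e1 : T ^ (1 + 10 * ε - d) * T ^ (3 / 2 * ε * k) ≤ T ^ E := by
        rw [← Real.rpow_add hT0]
        refine Real.rpow_le_rpow_of_exponent_le hT ?_
        rw [hE1]
        have : 0 ≤ k * ε := mul_nonneg hk0 hε.le
        linarith
      calc 2 * m * A ^ k = 8 * k * C₂ * A₀ ^ k * (T ^ (1 + 10 * ε - d) * T ^ (3 / 2 * ε * k)) := by
            rw [hm, hAk]; ring
        _ ≤ _ := by gcongr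
    have p2 : k * M * Dd ^ (k - 1) * √(T - T₀) ≤ k * (6 * C₁) * K ^ k * T ^ E := by
      rcases Nat.eq_zero_or_pos k with hk | hk
      · subst hk
        simp
      have hkc : ((k - 1 : ℕ) : ℝ) = k - 1 := by
        rw [Nat.cast_sub hk]; simp
      have e1 : Dd ^ (k - 1) ≤ K ^ k * T ^ (d / 2 * (k - 1)) := by
        rw [hDd, mul_pow]
        have e2 : (T ^ (d / 2)) ^ (k - 1) = T ^ (d / 2 * (k - 1)) := by
          rw [← Real.rpow_natCast (T ^ (d / 2)) (k - 1), ← Real.rpow_mul hT0.le, hkc]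
        have e3 : √K ^ (k - 1) ≤ K ^ k := by
          have h1 : √K ≤ K := by
            rw [Real.sqrt_le_left (by linarith)]
            nlinarith
          calc √K ^ (k - 1) ≤ K ^ (k - 1) := pow_le_pow_left₀ (Real.sqrt_nonneg _) h1 _
            _ ≤ K ^ k := pow_le_pow_right₀ hK0 (Nat.sub_le _ _)
        rw [e2]
        exact mul_le_mul_of_nonneg_right e3 (Real.rpow_nonneg hT0.le _)
      have e4 : √(T - T₀) ≤ T ^ (1 / 2 : ℝ) := by
        rw [← Real.sqrt_eq_rpow]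
        exact Real.sqrt_le_sqrt (by linarith [Real.rpow_pos_of_pos hT0 (7 / 8 : ℝ)])
      have e5 : T ^ (1 / 2 + 5 * ε - y / 2) * T ^ (d / 2 * (k - 1)) * T ^ (1 / 2 : ℝ) ≤ T ^ E := by
        rw [← Real.rpow_add hT0, ← Real.rpow_add hT0]
        refine Real.rpow_le_rpow_of_exponent_le hT ?_
        rw [hE1]
        have : 0 ≤ k * ε := mul_nonneg hk0 hε.le
        nlinarith
      have hMp : 0 < T ^ (1 / 2 + 5 * ε - y / 2) := Real.rpow_pos_of_pos hT0 _
      have hTp : 0 < T ^ (d / 2 * ((k:ℝ) - 1)) := Real.rpow_pos_of_pos hT0 _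
      calc k * M * Dd ^ (k - 1) * √(T - T₀)
          ≤ k * M * (K ^ k * T ^ (d / 2 * (k - 1))) * T ^ (1 / 2 : ℝ) := by
            gcongr
        _ = k * (6 * C₁) * K ^ k * (T ^ (1 / 2 + 5 * ε - y / 2) * T ^ (d / 2 * (k - 1)) *
            T ^ (1 / 2 : ℝ)) := by rw [hM]; ring
        _ ≤ _ := by gcongr
    calc 2 * m * A ^ k + k * M * Dd ^ (k - 1) * √(T - T₀)
        ≤ 8 * k * C₂ * A₀ ^ k * T ^ E + k * (6 * C₁) * K ^ k * T ^ E := add_le_add p1 p2
      _ = R * T ^ E := by rw [hR]; ring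
      _ ≤ (1 + R) * T ^ E := by gcongr; linarith
  · -- the averaging inequality
    refine AvB.mono hH0 hT₀T (h₁ T T₀ H hT hT₀ hT₀T hH1 hHT (a j) (b j) (ha j) (hb j) (hne j) J
      hJ40) ?_
    have q1 : (2:ℝ) ^ (-(J : ℝ) / 2) ≤ 2 * T ^ (-(y / 2)) := by
      have h1 : (2:ℝ) ^ (-(J : ℝ) / 2) = ((2:ℝ) ^ J) ^ (-(1 / 2) : ℝ) := by
        rw [← Real.rpow_natCast, ← Real.rpow_mul (by norm_num)]; congr 1; ring
      have hTy : 0 < T ^ y := Real.rpow_pos_of_pos hT0 _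
      have h2 : ((2:ℝ) ^ J) ^ (-(1 / 2) : ℝ) ≤ (T ^ y / 2) ^ (-(1 / 2) : ℝ) :=
        Real.rpow_le_rpow_of_nonpos (by positivity) hJ1 (by norm_num)
      have h3 : (T ^ y / 2) ^ (-(1 / 2) : ℝ) = T ^ (-(y / 2)) * 2 ^ (1 / 2 : ℝ) := by
        rw [div_eq_mul_inv, Real.mul_rpow hTy.le (by norm_num), ← Real.rpow_mul hT0.le]
        congr 1
        · congr 1; ring
        · rw [Real.inv_rpow (by norm_num), Real.rpow_neg (by norm_num), inv_inv]
      have h4 : (2:ℝ) ^ (1 / 2 : ℝ) ≤ 2 := by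
        conv_rhs => rw [← Real.rpow_one 2]
        exact Real.rpow_le_rpow_of_exponent_le (by norm_num) (by norm_num)
      rw [h1]
      refine h2.trans ?_
      rw [h3, mul_comm]
      exact mul_le_mul_of_nonneg_right h4 (Real.rpow_nonneg hT0.le _)
    have q2 : H ^ (-(1 / 2) : ℝ) ≤ T ^ (-(y / 2)) := by
      calc H ^ (-(1 / 2) : ℝ) ≤ (T ^ w) ^ (-(1 / 2) : ℝ) :=
            Real.rpow_le_rpow_of_nonpos (Real.rpow_pos_of_pos hT0 _) hTH (by norm_num)
        _ = T ^ (w * (-(1 / 2))) := by rw [← Real.rpow_mul hT0.le]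
        _ ≤ _ := Real.rpow_le_rpow_of_exponent_le hT (by linarith)
    have hTe : 0 < T ^ ε := by linarith
    have hT3 : 0 < T ^ (1 / 2 + 3 * ε) := Real.rpow_pos_of_pos hT0 _
    have hTy2 : 0 < T ^ (-(y / 2)) := Real.rpow_pos_of_pos hT0 _
    calc C₁ * (1 + 1 / (a j - b j) ^ 2) * (T ^ (1 / 2 + 3 * ε) *
          (2 ^ (-(J : ℝ) / 2) + H ^ (-(1 / 2) : ℝ)))
        ≤ C₁ * (2 * (T ^ ε * T ^ ε)) * (T ^ (1 / 2 + 3 * ε) *
          (2 * T ^ (-(y / 2)) + T ^ (-(y / 2)))) := by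
          gcongr
          exact hE j
      _ = 6 * C₁ * (T ^ ε * T ^ ε * T ^ (1 / 2 + 3 * ε) * T ^ (-(y / 2))) := by ring
      _ = M := by
          rw [hM, ← Real.rpow_add hT0, ← Real.rpow_add hT0, ← Real.rpow_add hT0]
          congr 2
          ring
  · -- first moments of the pairs
    have ht0 : 0 ≤ t := le_trans (le_trans (Real.rpow_nonneg hT0.le _) hT₀) ht.1
    have := h₄ T H hT hTH hHle (a j) (b j) (ha j) (hb j) t (by rw [abs_of_nonneg ht0]; exact ht.2)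
    refine this.trans ?_
    have e1 : T ^ ε ≤ T ^ (3 / 2 * ε) :=
      Real.rpow_le_rpow_of_exponent_le hT (by linarith)
    have e2 : 0 < T ^ ε := by linarith
    calc C₄ * T ^ ε * (2 * H) ≤ A₀ * T ^ (3 / 2 * ε) * (2 * H) := by
          gcongr
          rw [hA₀]; linarith
      _ = _ := by rw [hA]; ring
  · -- first moments of the low parts
    have e0 : (0:ℝ) < 2 * H := by linarith
    have hX : 0 < 4 * C₃ * T ^ (3 * ε) := by
      have := Real.rpow_pos_of_pos hT0 (3 * ε)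
      positivity
    have hcl : Continuous fun u : ℝ => lo (a j) (b j) J (t + u) :=
      (continuous_lo (a j) (b j) J).comp (continuous_const.add continuous_id)
    have h5 := L2B.cs (A := -H) (B := H) (by linarith) (G := fun _ => (1:ℝ))
      (g := fun u => lo (a j) (b j) J (t + u)) continuous_const hcl
      (s := √(2 * H)) (M := √(2 * H) * √(4 * C₃ * T ^ (3 * ε)))
      (Real.sqrt_pos.2 e0) (mul_pos (Real.sqrt_pos.2 e0) (Real.sqrt_pos.2 hX))
      (by
        rw [Real.sq_sqrt e0.le, intervalIntegral.integral_const, smul_eq_mul]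
        apply le_of_eq; ring)
      (by
        rw [mul_pow, Real.sq_sqrt e0.le, Real.sq_sqrt hX.le]
        exact hlo2 j t)
    simp only [one_mul] at h5
    refine h5.trans ?_
    have e1 : √(2 * H) * (√(2 * H) * √(4 * C₃ * T ^ (3 * ε))) =
        2 * H * √(4 * C₃ * T ^ (3 * ε)) := by
      rw [← mul_assoc, Real.mul_self_sqrt e0.le]
    rw [e1]
    refine mul_le_mul_of_nonneg_left ?_ e0.le
    apply Real.sqrt_le_iff.mpr
    refine ⟨by positivity, ?_⟩
    have e2 : T ^ (3 * ε) = T ^ (3 / 2 * ε) * T ^ (3 / 2 * ε) := by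
      rw [← Real.rpow_add hT0]; congr 1; ring
    have e3 : 4 * C₃ ≤ A₀ ^ 2 := by
      rw [hA₀]
      nlinarith
    calc 4 * C₃ * T ^ (3 * ε) ≤ A₀ ^ 2 * T ^ (3 * ε) := by gcongr
      _ = A ^ 2 := by rw [hA, e2]; ring
  · rw [hDd2]
    exact ht.1 j
  · rw [hDd2]
    refine (hlo2 j t).trans ?_
    refine mul_le_mul_of_nonneg_left ?_ (by linarith)
    rw [hK]
    refine mul_le_mul_of_nonneg_left ?_ (by linarith)
    exact Real.rpow_le_rpow_of_exponent_le hT h3εd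
  · -- the exceptional set
    have hsub : Icc T₀ T \ G ⊆ ⋃ j : Fin k, (Icc T₀ T ∩
        {t : ℝ | 2 * H * (K * T ^ d) < ∫ u in (-H)..H, ‖pf (a j) (b j) (t + u)‖ ^ 2}) := by
      rintro t ⟨ht1, ht2⟩
      simp only [hG, Set.mem_ofPred_eq, not_forall, not_le] at ht2
      obtain ⟨j, hj⟩ := ht2
      exact Set.mem_iUnion.2 ⟨j, ht1, hj⟩
    refine (measure_mono hsub).trans ((measure_iUnion_le _).trans ?_)
    have hone : ∀ j : Fin k, volume (Icc T₀ T ∩
        {t : ℝ | 2 * H * (K * T ^ d) < ∫ u in (-H)..H, ‖pf (a j) (b j) (t + u)‖ ^ 2}) ≤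
        ENNReal.ofReal (4 * C₂ * T ^ (1 + 10 * ε - d)) := by
      intro j
      refine (tru_cheb (hcpf j) (fun x => by positivity) (A := T ^ (7 / 8 : ℝ) / 2) (B := 3 * T)
        hH0 hT₀T (by linarith) (by linarith)
        (h₂ T hT (a j) (b j) (ha j) (hb j) (hne j)) (c := K * T ^ d) (by positivity)).trans ?_
      refine ENNReal.ofReal_le_ofReal ?_
      have hKT : 0 < K * T ^ d := by positivity
      rw [div_le_iff₀ hKT]
      have hTe : 0 < T ^ ε := by linarith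
      have hE2 : (1 + 1 / (a j - b j) ^ 2) ^ 2 ≤ 4 * (T ^ ε * T ^ ε * T ^ ε * T ^ ε) := by
        have h0 : 0 ≤ 1 + 1 / (a j - b j) ^ 2 := by positivity
        calc (1 + 1 / (a j - b j) ^ 2) ^ 2 ≤ (2 * (T ^ ε * T ^ ε)) ^ 2 :=
              pow_le_pow_left₀ h0 (hE j) 2
          _ = _ := by ring
      have e1 : T ^ ε * T ^ ε * T ^ ε * T ^ ε * T ^ (1 + 6 * ε) =
          T ^ (1 + 10 * ε - d) * T ^ d := by
        simp only [← Real.rpow_add hT0]
        congr 1; ring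
      have hT6 : 0 < T ^ (1 + 6 * ε) := Real.rpow_pos_of_pos hT0 _
      have hT10 : 0 < T ^ (1 + 10 * ε - d) := Real.rpow_pos_of_pos hT0 _
      calc C₂ * (1 + 1 / (a j - b j) ^ 2) ^ 2 * T ^ (1 + 6 * ε)
          ≤ C₂ * (4 * (T ^ ε * T ^ ε * T ^ ε * T ^ ε)) * T ^ (1 + 6 * ε) := by gcongr
        _ = 4 * C₂ * (T ^ (1 + 10 * ε - d) * T ^ d) * 1 := by rw [← e1]; ring
        _ ≤ 4 * C₂ * (T ^ (1 + 10 * ε - d) * T ^ d) * K := by gcongr
        _ = _ := by ring
    calc ∑' j : Fin k, volume (Icc T₀ T ∩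
        {t : ℝ | 2 * H * (K * T ^ d) < ∫ u in (-H)..H, ‖pf (a j) (b j) (t + u)‖ ^ 2})
        = ∑ j : Fin k, volume (Icc T₀ T ∩
        {t : ℝ | 2 * H * (K * T ^ d) < ∫ u in (-H)..H, ‖pf (a j) (b j) (t + u)‖ ^ 2}) :=
          tsum_fintype _
      _ ≤ ∑ _j : Fin k, ENNReal.ofReal (4 * C₂ * T ^ (1 + 10 * ε - d)) :=
          Finset.sum_le_sum fun j _ => hone j
      _ = ENNReal.ofReal m := by
          rw [Finset.sum_const, Finset.card_univ, Fintype.card_fin, nsmul_eq_mul, hm,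
            ← ENNReal.ofReal_natCast, ← ENNReal.ofReal_mul hk0]
          congr 1
          ring

end Pool.Agent.AAS
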