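import Pool.Agent.AAS.Defs

set_option autoImplicit false

namespace Pool.Agent.AAS

open Complex Finset MeasureTheory Filter Topology Set
open Pool.Agent.H26

open Stir in
private lemma unm_theta {t v : ℝ} (ht : 4 ≤ t) (hv : |v| ≤ t / 2) :
    ‖theta (t + v) + (Real.log (t / (2 * Real.pi)) : ℂ) + ((v / t : ℝ) : ℂ)‖ ≤
      12 / t + 2 * v ^ 2 / t ^ 2 := by
  have ht0 : 0 < t := by linarith
  have hv' := abs_le.1 hv
  have h1 : t / 2 ≤ t + v := by linarith
  have h2 : 0 < t + v := by linarith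
  have h3 := norm_theta_le (τ := t + v) (by linarith)
  have h4 : 6 / (t + v) ≤ 12 / t := by
    rw [div_le_div_iff₀ h2 ht0]; linarith
  have hpi := Real.pi_pos
  have e1 : Real.log (t / (2 * Real.pi)) - Real.log ((t + v) / (2 * Real.pi)) =
      -Real.log ((t + v) / t) := by
    rw [Real.log_div ht0.ne' (by positivity), Real.log_div h2.ne' (by positivity),
      Real.log_div h2.ne' ht0.ne']
    ring
  have h5 : |v / t - Real.log ((t + v) / t)| ≤ 2 * v ^ 2 / t ^ 2 := by
    have hx : 0 < (t + v) / t := by positivity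
    have a1 := Real.log_le_sub_one_of_pos hx
    have a2 := Real.one_sub_inv_le_log_of_pos hx
    have e2 : (t + v) / t - 1 = v / t := by field_simp; ring
    have e3 : 1 - ((t + v) / t)⁻¹ = v / (t + v) := by field_simp; ring
    rw [e2] at a1
    rw [e3] at a2
    have a3 : v / t - v / (t + v) ≤ 2 * v ^ 2 / t ^ 2 := by
      have : v / t - v / (t + v) = v ^ 2 / (t * (t + v)) := by field_simp; ring
      rw [this, div_le_div_iff₀ (by positivity) (by positivity)]
      nlinarith [sq_nonneg v, mul_nonneg (sq_nonneg v) ht0.le,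
        mul_nonneg (mul_nonneg (sq_nonneg v) ht0.le) (by linarith : 0 ≤ 2 * (t + v) - t)]
    rw [abs_of_nonneg (by linarith)]
    linarith
  have e4 : theta (t + v) + (Real.log (t / (2 * Real.pi)) : ℂ) + ((v / t : ℝ) : ℂ) =
      (theta (t + v) + (Real.log ((t + v) / (2 * Real.pi)) : ℂ)) +
        ((v / t - Real.log ((t + v) / t) : ℝ) : ℂ) := by
    have : (Real.log (t / (2 * Real.pi)) : ℂ) = (Real.log ((t + v) / (2 * Real.pi)) : ℂ) +
        ((-Real.log ((t + v) / t) : ℝ) : ℂ) := by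
      rw [← e1]; push_cast; ring
    rw [this]; push_cast; ring
  rw [e4]
  refine (norm_add_le _ _).trans ?_
  rw [Complex.norm_real, Real.norm_eq_abs]
  linarith

open Stir in
/-- the unmatched swaps oscillate.  `Stir.hasDerivAt_prod`, `Stir.G_mul_real`: the derivative of
`G S` is `i D(t) G S` with `D(t) = ∑_{i ∉ S} theta (t + γ_i) - ∑_j theta (t + γ_(inr j))`;
`Stir.norm_theta_le` and `|log (1+x) - x| ≤ x^2` give
`|D(t) - lamS S u / t| ≤ C ((H^2 + 1) / t^2 + 1 / t)`; write `G = t^(i lam) h`, integrate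
`t^(i lam)` by parts: `≤ (T / |lam|) (2 + ∫ |h'|)`. -/
theorem exists_unmatched (k : ℕ) (B : ℝ) (hB : 0 ≤ B) : ∃ C : ℝ, 1 ≤ C ∧ ∀ T T₀ H : ℝ,
    C ≤ T₀ → T₀ ≤ T → 1 ≤ H → H ≤ T₀ / 4 → ∀ a b u : Fin k → ℝ, (∀ j, |a j| ≤ B) →
    (∀ j, |b j| ≤ B) → u ∈ box k H → ∀ S ∈ (univ : Finset (Ix k)).powersetCard k,
    1 ≤ |lamS S u| →
    ‖∫ t in T₀..T, G S (fun i => (gm a b u i : ℂ)) t‖ ≤
      C * (T / |lamS S u|) * (1 + H ^ 2 / T₀ + Real.log T) := by
  set C₁ : ℝ := 2 * k * B + 2 * k * (12 + 4 * (1 + B ^ 2)) with hC₁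
  have hC₁0 : 0 ≤ C₁ := by positivity
  refine ⟨4 + 4 * B + 2 * C₁, by nlinarith, ?_⟩
  intro T T₀ H hT₀ hT hH hH4 a b u ha hb hu S hS hlam
  set C : ℝ := 4 + 4 * B + 2 * C₁ with hC
  have hScard : S.card = k := (Finset.mem_powersetCard.1 hS).2
  have hT₀4 : 4 ≤ T₀ := by linarith
  have hT₀0 : 0 < T₀ := by linarith
  have hT0 : 0 < T := by linarith
  set γ : Ix k → ℝ := gm a b u with hγ
  have hui : ∀ j, |u j| ≤ H := fun j => abs_le.2 (hu j (Set.mem_univ j))
  have hγi : ∀ i, |γ i| ≤ B + H := by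
    intro i
    rcases i with j | j
    · exact (abs_add_le _ _).trans (add_le_add (ha j) (hui j))
    · exact (abs_add_le _ _).trans (add_le_add (hb j) (hui j))
  set lam : ℝ := lamS S u with hlamdef
  have hGeq : ∀ t : ℝ, G S (fun i => (γ i : ℂ)) (t : ℂ) =
      (∏ i ∈ Sᶜ, Xr (t + γ i)) / ∏ j, Xr (t + γ (Sum.inr j)) := fun t => by
    rw [eq_div_iff (prod_ne _ _ _)]
    exact G_mul_real S γ t
  set D : ℝ → ℂ := fun t => ∑ i ∈ Sᶜ, theta (t + γ i) - ∑ j, theta (t + γ (Sum.inr j)) with hD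
  have hder : ∀ t : ℝ, HasDerivAt (fun t : ℝ => G S (fun i => (γ i : ℂ)) (t : ℂ))
      (I * D t * G S (fun i => (γ i : ℂ)) (t : ℂ)) t := by
    intro t
    have h1 := hasDerivAt_prod Sᶜ γ t
    have h2 := hasDerivAt_prod univ (fun j => γ (Sum.inr j)) t
    have h3 := h1.div h2 (prod_ne _ _ _)
    have e : (fun t : ℝ => G S (fun i => (γ i : ℂ)) (t : ℂ)) =
        (fun t : ℝ => ∏ i ∈ Sᶜ, Xr (t + γ i)) / fun t : ℝ => ∏ j, Xr (t + γ (Sum.inr j)) := by
      funext x
      exact hGeq x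
    rw [e]
    refine h3.congr_deriv ?_
    rw [hGeq, hD]
    have hne := prod_ne univ (fun j => γ (Sum.inr j)) t
    simp only at hne ⊢
    generalize ∏ j, Xr (t + γ (Sum.inr j)) = p at hne ⊢
    field_simp
  have hGc : Continuous (fun t : ℝ => G S (fun i => (γ i : ℂ)) (t : ℂ)) :=
    continuous_iff_continuousAt.2 fun t => (hder t).continuousAt
  have hDc : Continuous D := by
    refine Continuous.sub (continuous_finsetSum _ fun i _ => ?_)
      (continuous_finsetSum _ fun i _ => ?_)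
    · exact continuous_theta.comp (continuous_id.add continuous_const)
    · exact continuous_theta.comp (continuous_id.add continuous_const)
  -- the size of `D`
  have hDlam : ∀ t : ℝ, T₀ ≤ t → ‖(t : ℂ) * D t - (lam : ℂ)‖ ≤ C₁ * (2 + H ^ 2 / T₀) := by
    intro t ht
    have ht4 : 4 ≤ t := by linarith
    have ht0 : 0 < t := by linarith
    set L : ℝ := Real.log (t / (2 * Real.pi)) with hL
    set e : Ix k → ℂ := fun i => theta (t + γ i) + (L : ℂ) + ((γ i / t : ℝ) : ℂ) with he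
    have hei : ∀ i, ‖(t : ℂ) * e i‖ ≤ 12 + 4 * (1 + B ^ 2) * (1 + H ^ 2 / T₀) := by
      intro i
      have hg : |γ i| ≤ t / 2 := by
        have := hγi i
        linarith
      have h1 := unm_theta ht4 hg
      rw [norm_mul, Complex.norm_real, Real.norm_eq_abs, abs_of_pos ht0]
      have h2 : γ i ^ 2 ≤ (B + H) ^ 2 := by
        rw [← sq_abs (γ i)]
        exact pow_le_pow_left₀ (abs_nonneg _) (hγi i) 2
      have h3 : t * (12 / t + 2 * γ i ^ 2 / t ^ 2) = 12 + 2 * γ i ^ 2 / t := by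
        field_simp
      calc t * ‖e i‖ ≤ t * (12 / t + 2 * γ i ^ 2 / t ^ 2) := by gcongr
        _ = 12 + 2 * γ i ^ 2 / t := h3
        _ ≤ 12 + 2 * (2 * (B ^ 2 + H ^ 2)) / T₀ := by
            gcongr
            nlinarith [sq_nonneg (B - H)]
        _ ≤ 12 + 4 * (1 + B ^ 2) * (1 + H ^ 2 / T₀) := by
            have a1 : B ^ 2 / T₀ ≤ B ^ 2 := div_le_self (sq_nonneg _) (by linarith)
            have a2 : 0 ≤ H ^ 2 / T₀ := by positivity
            have a3 : 2 * (2 * (B ^ 2 + H ^ 2)) / T₀ = 4 * (B ^ 2 / T₀) + 4 * (H ^ 2 / T₀) := by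
              field_simp; ring
            rw [a3]
            nlinarith [sq_nonneg B, mul_nonneg (sq_nonneg B) a2]
    have hsum : ∑ i ∈ Sᶜ, γ i - ∑ j, γ (Sum.inr j) =
        -lam + ((∑ j, if Sum.inl j ∈ S then 0 else a j) - ∑ j, if Sum.inr j ∈ S then b j else 0)
        := by
      have e1 : ∑ i ∈ Sᶜ, γ i = ∑ i, if i ∈ S then 0 else γ i := by
        rw [← Finset.sum_filter_add_sum_filter_not univ (fun i => i ∈ S)]
        have a1 : ∑ x ∈ univ.filter (fun i => i ∈ S), (if x ∈ S then 0 else γ x) = 0 :=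
          Finset.sum_eq_zero fun x hx => by rw [if_pos (Finset.mem_filter.1 hx).2]
        have a2 : ∑ x ∈ univ.filter (fun i => ¬ i ∈ S), (if x ∈ S then 0 else γ x) =
            ∑ i ∈ Sᶜ, γ i := by
          have : univ.filter (fun i => ¬ i ∈ S) = Sᶜ := by ext; simp
          rw [this]
          exact Finset.sum_congr rfl fun x hx => by rw [if_neg (Finset.mem_compl.1 hx)]
        rw [a1, a2, zero_add]
      rw [e1, Fintype.sum_sum_type, hlamdef, lamS]
      have b1 : ∀ j : Fin k, (if Sum.inl j ∈ S then (0:ℝ) else γ (Sum.inl j)) =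
          (if Sum.inl j ∈ S then 0 else a j) + (if Sum.inl j ∈ S then 0 else u j) := by
        intro j
        by_cases h : Sum.inl j ∈ S
        · simp [h]
        · simp [h, hγ, gm]
      have b2 : ∀ j : Fin k, (if Sum.inr j ∈ S then (0:ℝ) else γ (Sum.inr j)) =
          γ (Sum.inr j) - ((if Sum.inr j ∈ S then b j else 0) +
            (if Sum.inr j ∈ S then u j else 0)) := by
        intro j
        by_cases h : Sum.inr j ∈ S
        · simp [h, hγ, gm]
        · simp [h]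
      rw [Finset.sum_congr rfl fun j _ => b1 j, Finset.sum_congr rfl fun j _ => b2 j,
        Finset.sum_add_distrib, Finset.sum_sub_distrib, Finset.sum_add_distrib]
      ring
    have hcard2 : (Sᶜ).card = k := card_compl_eq hScard
    have key : (t : ℂ) * D t - (lam : ℂ) = ∑ i ∈ Sᶜ, (t : ℂ) * e i -
        ∑ j : Fin k, (t : ℂ) * e (Sum.inr j) -
        (((∑ j, if Sum.inl j ∈ S then 0 else a j) - ∑ j, if Sum.inr j ∈ S then b j else 0 : ℝ) :
          ℂ) := by
      have c1 : ∑ i ∈ Sᶜ, (t : ℂ) * e i = (t : ℂ) * ∑ i ∈ Sᶜ, theta (t + γ i) +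
          (t : ℂ) * (k * L) + ((∑ i ∈ Sᶜ, γ i : ℝ) : ℂ) := by
        rw [← Finset.mul_sum, he, Finset.sum_add_distrib, Finset.sum_add_distrib,
          Finset.sum_const, hcard2, nsmul_eq_mul, mul_add, mul_add]
        congr 1
        rw [Finset.mul_sum]
        push_cast
        refine Finset.sum_congr rfl fun i _ => ?_
        have : (t : ℂ) ≠ 0 := by exact_mod_cast ht0.ne'
        field_simp
      have c2 : ∑ j : Fin k, (t : ℂ) * e (Sum.inr j) = (t : ℂ) * ∑ j, theta (t + γ (Sum.inr j)) +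
          (t : ℂ) * (k * L) + ((∑ j, γ (Sum.inr j) : ℝ) : ℂ) := by
        rw [← Finset.mul_sum, he]
        simp only
        rw [Finset.sum_add_distrib, Finset.sum_add_distrib,
          Finset.sum_const, Finset.card_univ, Fintype.card_fin, nsmul_eq_mul, mul_add, mul_add]
        congr 1
        rw [Finset.mul_sum]
        push_cast
        refine Finset.sum_congr rfl fun i _ => ?_
        have : (t : ℂ) ≠ 0 := by exact_mod_cast ht0.ne'
        field_simp
      have c3 : (((∑ i ∈ Sᶜ, γ i) - ∑ j, γ (Sum.inr j) : ℝ) : ℂ) = ((-lam + ((∑ j, if Sum.inl j ∈ S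
          then 0 else a j) - ∑ j, if Sum.inr j ∈ S then b j else 0) : ℝ) : ℂ) := by
        rw [hsum]
      rw [c1, c2, hD]
      push_cast at c3 ⊢
      linear_combination -c3
    rw [key]
    have n1 : ‖∑ i ∈ Sᶜ, (t : ℂ) * e i‖ ≤ k * (12 + 4 * (1 + B ^ 2) * (1 + H ^ 2 / T₀)) := by
      refine (norm_sum_le_of_le _ fun i _ => hei i).trans ?_
      rw [Finset.sum_const, hcard2, nsmul_eq_mul]
    have n2 : ‖∑ j : Fin k, (t : ℂ) * e (Sum.inr j)‖ ≤
        k * (12 + 4 * (1 + B ^ 2) * (1 + H ^ 2 / T₀)) := by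
      refine (norm_sum_le_of_le _ fun i _ => hei _).trans ?_
      rw [Finset.sum_const, Finset.card_univ, Fintype.card_fin, nsmul_eq_mul]
    have n3 : ‖(((∑ j, if Sum.inl j ∈ S then 0 else a j) -
        ∑ j, if Sum.inr j ∈ S then b j else 0 : ℝ) : ℂ)‖ ≤ 2 * k * B := by
      rw [Complex.norm_real, Real.norm_eq_abs]
      have m1 : |∑ j, if Sum.inl j ∈ S then 0 else a j| ≤ k * B := by
        refine (Finset.abs_sum_le_sum_abs _ _).trans ?_
        refine (Finset.sum_le_sum (g := fun _ => B) fun j _ => ?_).trans ?_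
        · split_ifs
          · simpa using hB
          · exact ha j
        · simp
      have m2 : |∑ j, if Sum.inr j ∈ S then b j else 0| ≤ k * B := by
        refine (Finset.abs_sum_le_sum_abs _ _).trans ?_
        refine (Finset.sum_le_sum (g := fun _ => B) fun j _ => ?_).trans ?_
        · split_ifs
          · exact hb j
          · simpa using hB
        · simp
      refine (abs_sub _ _).trans ?_
      linarith
    refine (norm_sub_le _ _).trans ?_
    have n4 := norm_sub_le (∑ i ∈ Sᶜ, (t : ℂ) * e i) (∑ j : Fin k, (t : ℂ) * e (Sum.inr j))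
    have a2 : 0 ≤ H ^ 2 / T₀ := by positivity
    have hk0 : (0:ℝ) ≤ k := Nat.cast_nonneg k
    have fin1 : 2 * k * B + 2 * (k * (12 + 4 * (1 + B ^ 2) * (1 + H ^ 2 / T₀))) ≤
        C₁ * (2 + H ^ 2 / T₀) := by
      rw [hC₁]
      have p1 : 0 ≤ (k:ℝ) * B := by positivity
      have p2 : 0 ≤ (k:ℝ) * (1 + B ^ 2) := by positivity
      nlinarith [mul_nonneg p1 a2, mul_nonneg p2 a2, mul_nonneg hk0 a2]
    linarith
  -- integration by parts
  have hF : ∀ t : ℝ, HasDerivAt (fun t : ℝ => (t : ℂ) * G S (fun i => (γ i : ℂ)) (t : ℂ))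
      (1 * G S (fun i => (γ i : ℂ)) (t : ℂ) +
        (t : ℂ) * (I * D t * G S (fun i => (γ i : ℂ)) (t : ℂ))) t := fun t =>
    ((hasDerivAt_id t).ofReal_comp).mul (hder t)
  have hFc : Continuous fun t : ℝ => (1 * G S (fun i => (γ i : ℂ)) (t : ℂ) +
        (t : ℂ) * (I * D t * G S (fun i => (γ i : ℂ)) (t : ℂ))) :=
    (continuous_const.mul hGc).add
      (Complex.continuous_ofReal.mul ((continuous_const.mul hDc).mul hGc))
  have hFTC := intervalIntegral.integral_eq_sub_of_hasDerivAt (a := T₀) (b := T)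
    (fun t _ => hF t) (hFc.intervalIntegrable _ _)
  have hRc : Continuous fun t : ℝ => I * ((t : ℂ) * D t - lam) *
      G S (fun i => (γ i : ℂ)) (t : ℂ) :=
    (continuous_const.mul ((Complex.continuous_ofReal.mul hDc).sub continuous_const)).mul hGc
  have hsplit : (1 + I * lam) * ∫ t in T₀..T, G S (fun i => (γ i : ℂ)) (t : ℂ) =
      ((T : ℂ) * G S (fun i => (γ i : ℂ)) (T : ℂ) - (T₀ : ℂ) * G S (fun i => (γ i : ℂ)) (T₀ : ℂ)) -
        ∫ t in T₀..T, I * ((t : ℂ) * D t - lam) * G S (fun i => (γ i : ℂ)) (t : ℂ) := by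
    rw [← hFTC, ← intervalIntegral.integral_const_mul, ← intervalIntegral.integral_sub
      (hFc.intervalIntegrable _ _) (hRc.intervalIntegrable _ _)]
    refine intervalIntegral.integral_congr fun t _ => ?_
    ring
  have hRb : ‖∫ t in T₀..T, I * ((t : ℂ) * D t - lam) * G S (fun i => (γ i : ℂ)) (t : ℂ)‖ ≤
      C₁ * (2 + H ^ 2 / T₀) * |T - T₀| := by
    refine intervalIntegral.norm_integral_le_of_norm_le_const fun t ht => ?_
    rw [Set.uIoc_of_le hT] at ht
    rw [norm_mul, norm_mul, Complex.norm_I, one_mul, norm_G, mul_one]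
    exact hDlam t ht.1.le
  have hb1 : ‖(T : ℂ) * G S (fun i => (γ i : ℂ)) (T : ℂ) -
      (T₀ : ℂ) * G S (fun i => (γ i : ℂ)) (T₀ : ℂ)‖ ≤ 2 * T := by
    refine (norm_sub_le _ _).trans ?_
    rw [norm_mul, norm_mul, norm_G, norm_G, Complex.norm_real, Complex.norm_real,
      Real.norm_eq_abs, Real.norm_eq_abs, abs_of_pos hT0, abs_of_pos hT₀0]
    linarith
  have hlow : |lam| ≤ ‖(1 + I * lam : ℂ)‖ := by
    have := Complex.abs_im_le_norm (1 + I * lam : ℂ)
    simpa using this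
  have hmain : |lam| * ‖∫ t in T₀..T, G S (fun i => (γ i : ℂ)) (t : ℂ)‖ ≤
      2 * T + C₁ * (2 + H ^ 2 / T₀) * T := by
    calc |lam| * ‖∫ t in T₀..T, G S (fun i => (γ i : ℂ)) (t : ℂ)‖
        ≤ ‖(1 + I * lam : ℂ)‖ * ‖∫ t in T₀..T, G S (fun i => (γ i : ℂ)) (t : ℂ)‖ := by
          gcongr
      _ = ‖(1 + I * lam) * ∫ t in T₀..T, G S (fun i => (γ i : ℂ)) (t : ℂ)‖ := (norm_mul _ _).symm
      _ ≤ 2 * T + C₁ * (2 + H ^ 2 / T₀) * |T - T₀| := by
          rw [hsplit]
          exact (norm_sub_le _ _).trans (add_le_add hb1 hRb)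
      _ ≤ _ := by
          have : |T - T₀| ≤ T := by
            rw [abs_of_nonneg (by linarith)]
            linarith
          gcongr
  have hlam0 : 0 < |lam| := by linarith
  have hlog : 0 ≤ Real.log T := Real.log_nonneg (by linarith)
  have a2 : 0 ≤ H ^ 2 / T₀ := by positivity
  have hfin : 2 * T + C₁ * (2 + H ^ 2 / T₀) * T ≤ C * T * (1 + H ^ 2 / T₀ + Real.log T) := by
    have p1 : 2 + C₁ * (2 + H ^ 2 / T₀) ≤ C * (1 + H ^ 2 / T₀ + Real.log T) := by
      rw [hC]
      have q1 : 0 ≤ C₁ * (H ^ 2 / T₀) := mul_nonneg hC₁0 a2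
      have q2 : 0 ≤ (4 + 4 * B + 2 * C₁) * Real.log T := mul_nonneg (by linarith) hlog
      have q3 : 0 ≤ B * (H ^ 2 / T₀) := mul_nonneg hB a2
      nlinarith
    nlinarith [mul_le_mul_of_nonneg_left p1 hT0.le]
  have e9 : C * (T / |lam|) * (1 + H ^ 2 / T₀ + Real.log T) =
      (C * T * (1 + H ^ 2 / T₀ + Real.log T)) / |lam| := by
    field_simp
  rw [e9, le_div_iff₀ hlam0, mul_comm]
  exact hmain.trans hfin

end Pool.Agent.AAS
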