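import Pool.Agent.AAS.COB
import Pool.Agent.AAS.TRU
import Pool.Agent.AAS.DIA
import Pool.Agent.AAS.PPA
import Pool.Agent.AAS.SKL
import Pool.Agent.AAS.UNM
import Pool.Agent.AAS.ZLE
import Pool.Agent.AAS.VOL
import Pool.Agent.AAS.EEQ
import Pool.Agent.AAS.CR1
import Pool.Agent.H26.SP.BASE

set_option autoImplicit false

namespace Pool.Agent.AAS

open Complex Finset MeasureTheory Filter Topology Set
open Pool.Agent.H26

namespace COR

variable {k : ℕ}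

/-- the inequalities between the parameters -/
lemma params (k : ℕ) {θ₁ θ cP y₀ : ℝ} (hθ0 : 1 / 4 < θ₁) (hθ₁ : θ₁ ≤ θ) (hθ1 : θ < 1)
    (hcP : 0 < cP)
    (hy₀ : 0 < y₀) (c₀ c₂ y c ε₀ ε : ℝ) (hc₀ : c₀ = (1 - θ) / 8)
    (hc₂ : c₂ = min ((1 - θ) / 8) (θ₁ / 4)) (hy : y = min y₀ (1 / (40 * ((k : ℝ) + 1))))
    (hc : c = min (c₀ / 2) (min (y / (4 * ((k : ℝ) + 1))) (min (cP / 2)
      (min ((1 - θ) / 4) (1 / 16)))))
    (hε₀ : ε₀ = min (y / (100 * ((k : ℝ) + 1) ^ 2)) (min (cP / (2 * ((k : ℝ) + 1)))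
      (min (c₀ / (8 * ((k : ℝ) + 1) ^ 2)) (min ((1 - θ) / (16 * ((k : ℝ) + 1) ^ 2))
        (1 / (64 * ((k : ℝ) + 1) ^ 2))))))
    (hε : 0 < ε) (hεε : ε ≤ ε₀) :
    (0 < c₀ ∧ 0 < c₂ ∧ 0 < y ∧ 0 < c ∧ 0 < ε₀ ∧ ε ≤ 1 ∧ y ≤ 1 / 40 ∧ ε ≤ y / (100 * (k + 1)) ∧
      c₀ ≤ 1 / 8 ∧ c₂ < θ₁ / 2) ∧
    (1 - c₀ + c₀ / 2 ≤ 1 - c) ∧ (1 - y / (2 * (k + 1)) + (20 + 2 * k) * ε ≤ 1 - c) ∧
    (k * ε + y * (3 * k) + c₀ ≤ 1 - c) ∧ (1 + (-cP + (k + 1) * ε) ≤ 1 - c) ∧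
    (1 + c₂ - θ₁ + 4 * k ^ 2 * ε ≤ 1 - c) ∧
    (1 + c₂ + θ - (1 - c₀) + 4 * k ^ 2 * ε ≤ 1 - c) ∧
    (1 + c₂ - θ₁ + c₂ + 4 * k ^ 2 * ε ≤ 1 - c) ∧
    (1 - c₀ + 4 * k ^ 2 * ε ≤ 1 - c) ∧ 1 - c₀ - θ > 0 := by
  have hk0 : (0:ℝ) ≤ k := Nat.cast_nonneg k
  have hK0 : (0:ℝ) < (k:ℝ) + 1 := by linarith
  have hK1 : (1:ℝ) ≤ (k:ℝ) + 1 := by linarith
  have hKK : (k:ℝ) ^ 2 ≤ ((k:ℝ) + 1) ^ 2 := by nlinarith
  have hK2 : (0:ℝ) < ((k:ℝ) + 1) ^ 2 := by positivity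
  have hK21 : (1:ℝ) ≤ ((k:ℝ) + 1) ^ 2 := by nlinarith
  have c00 : 0 < c₀ := by rw [hc₀]; linarith
  have c20 : 0 < c₂ := by rw [hc₂]; exact lt_min (by linarith) (by linarith)
  have y0 : 0 < y := by rw [hy]; exact lt_min hy₀ (by positivity)
  have c0 : 0 < c := by
    rw [hc]
    refine lt_min (by positivity) (lt_min (by positivity) (lt_min (by positivity)
      (lt_min (by linarith) (by norm_num))))
  have e0 : 0 < ε₀ := by
    rw [hε₀]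
    refine lt_min (by positivity) (lt_min (by positivity) (lt_min (by positivity)
      (lt_min (div_pos (by linarith) (by positivity)) (by positivity))))
  -- the bounds
  have hc1 : c ≤ c₀ / 2 := by rw [hc]; exact min_le_left _ _
  have hc2 : c ≤ y / (4 * ((k : ℝ) + 1)) := by
    rw [hc]; exact (min_le_right _ _).trans (min_le_left _ _)
  have hc3 : c ≤ cP / 2 := by
    rw [hc]; exact (min_le_right _ _).trans ((min_le_right _ _).trans (min_le_left _ _))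
  have hc4 : c ≤ (1 - θ) / 4 := by
    rw [hc]
    exact (min_le_right _ _).trans ((min_le_right _ _).trans ((min_le_right _ _).trans
      (min_le_left _ _)))
  have hc5 : c ≤ 1 / 16 := by
    rw [hc]
    exact (min_le_right _ _).trans ((min_le_right _ _).trans ((min_le_right _ _).trans
      (min_le_right _ _)))
  have he1 : ε * (100 * ((k : ℝ) + 1) ^ 2) ≤ y := by
    refine (le_div_iff₀ (by positivity)).1 (hεε.trans ?_)
    rw [hε₀]; exact min_le_left _ _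
  have he2 : ε * (2 * ((k : ℝ) + 1)) ≤ cP := by
    refine (le_div_iff₀ (by positivity)).1 (hεε.trans ?_)
    rw [hε₀]; exact (min_le_right _ _).trans (min_le_left _ _)
  have he3 : ε * (8 * ((k : ℝ) + 1) ^ 2) ≤ c₀ := by
    refine (le_div_iff₀ (by positivity)).1 (hεε.trans ?_)
    rw [hε₀]; exact (min_le_right _ _).trans ((min_le_right _ _).trans (min_le_left _ _))
  have he4 : ε * (16 * ((k : ℝ) + 1) ^ 2) ≤ 1 - θ := by
    refine (le_div_iff₀ (by positivity)).1 (hεε.trans ?_)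
    rw [hε₀]
    exact (min_le_right _ _).trans ((min_le_right _ _).trans ((min_le_right _ _).trans
      (min_le_left _ _)))
  have he5 : ε * (64 * ((k : ℝ) + 1) ^ 2) ≤ 1 := by
    refine (le_div_iff₀ (by positivity)).1 (hεε.trans ?_)
    rw [hε₀]
    exact (min_le_right _ _).trans ((min_le_right _ _).trans ((min_le_right _ _).trans
      (min_le_right _ _)))
  have hyK : y * (40 * ((k:ℝ) + 1)) ≤ 1 := by
    refine (le_div_iff₀ (by positivity)).1 ?_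
    rw [hy]; exact min_le_right _ _
  have hc21 : c₂ ≤ (1 - θ) / 8 := by rw [hc₂]; exact min_le_left _ _
  have hc22 : c₂ ≤ θ₁ / 4 := by rw [hc₂]; exact min_le_right _ _
  have h4 : 4 * (k:ℝ) ^ 2 * ε ≤ ε * (4 * ((k:ℝ) + 1) ^ 2) := by nlinarith
  have h4a : 4 * (k:ℝ) ^ 2 * ε ≤ c₀ / 2 := by linarith
  have h4b : 4 * (k:ℝ) ^ 2 * ε ≤ (1 - θ) / 4 := by linarith
  have h4c : 4 * (k:ℝ) ^ 2 * ε ≤ 1 / 16 := by linarith
  have hεK : ε * 1 ≤ ε * ((k:ℝ) + 1) ^ 2 := mul_le_mul_of_nonneg_left hK21 hε.le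
  have hεk : ε * k ≤ ε * ((k:ℝ) + 1) ^ 2 := mul_le_mul_of_nonneg_left (by nlinarith) hε.le
  refine ⟨⟨c00, c20, y0, c0, e0, by linarith, ?_, ?_, ?_, by linarith⟩, ?_, ?_, ?_, ?_, ?_, ?_,
    ?_, ?_, ?_⟩
  · nlinarith
  · rw [le_div_iff₀ (by positivity)]
    nlinarith
  · linarith
  · linarith
  · have h5 : (20 + 2 * (k:ℝ)) * ε ≤ y / (4 * ((k:ℝ) + 1)) := by
      rw [le_div_iff₀ (by positivity)]
      nlinarith [mul_nonneg hε.le hk0, mul_nonneg (mul_nonneg hε.le hk0) hk0]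
    have h6 : y / (2 * ((k:ℝ) + 1)) = y / (4 * ((k:ℝ) + 1)) + y / (4 * ((k:ℝ) + 1)) := by
      field_simp
      ring
    linarith
  · have h7 : y * (3 * (k:ℝ)) ≤ 3 / 40 := by nlinarith
    nlinarith
  · nlinarith
  · linarith
  · linarith
  · linarith
  · linarith
  · linarith


/-- the integrated bound for large `T` -/
lemma big {w : ℝ} {B ε θ₁ θ c₀ c₂ y c cP CA CB CC CD CU CZ T H R : ℝ} {k J : ℕ}
    (hT1 : 1 ≤ T) (hwθ : w ≤ θ₁) (hθ14 : 1 / 4 ≤ θ₁)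
    (hHl : T ^ θ₁ ≤ H) (hHu : H ≤ 4 * T ^ θ)
    (hR : H * T ^ (-c₂) / 4 ≤ R) (hR1 : 4 ≤ T ^ (θ₁ - c₂))
    (hc₀ : 0 < c₀) (hc₀1 : c₀ ≤ 1 / 8) (hc₂ : 0 < c₂)
    (hCA : 0 ≤ CA) (hCB : 0 ≤ CB) (hCC : 0 ≤ CC) (hCD : 0 ≤ CD) (hCU : 0 ≤ CU) (hCZ : 0 ≤ CZ)
    (hJ1 : T ^ y / 2 ≤ 2 ^ J) (hJ2 : (2:ℝ) ^ J ≤ T ^ y)
    (h4H : 4 * T ^ θ ≤ T ^ (1 - c₀) / 4) (h4 : 4 ≤ T ^ (1 - c₀)) (hCUT : CU ≤ T ^ (1 - c₀))
    (e1 : 1 - c₀ + c₀ / 2 ≤ 1 - c) (e2 : 1 - y / (2 * (k + 1)) + (20 + 2 * k) * ε ≤ 1 - c)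
    (e3 : k * ε + y * (3 * k) + c₀ ≤ 1 - c) (e4 : 1 + (-cP + (k + 1) * ε) ≤ 1 - c)
    (e5 : 1 + c₂ - θ₁ + 4 * k ^ 2 * ε ≤ 1 - c)
    (e6 : 1 + c₂ + θ - (1 - c₀) + 4 * k ^ 2 * ε ≤ 1 - c)
    (e7 : 1 + c₂ - θ₁ + c₂ + 4 * k ^ 2 * ε ≤ 1 - c)
    (e8 : 1 - c₀ + 4 * k ^ 2 * ε ≤ 1 - c)
    (hA : ∀ T T₀ H : ℝ, 1 ≤ T → 0 ≤ T₀ → T₀ ≤ T → T ^ w ≤ H → H ≤ T →
      ∀ a b : Fin k → ℝ, (∀ j, |a j| ≤ B) → (∀ j, |b j| ≤ B) →
      ∫ u in box k H, ∫ t in (0:ℝ)..T₀, ∏ j, ‖pf (a j) (b j) (t + u j)‖ ≤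
        (2 * H) ^ k * (CA * T ^ (c₀ / 2) * T₀))
    (hBt : ∀ T T₀ H : ℝ, 1 ≤ T → T ^ (7 / 8 : ℝ) ≤ T₀ → T₀ ≤ T →
      T ^ w ≤ H → H ≤ T₀ / 2 → ∀ J : ℕ, T ^ y / 2 ≤ 2 ^ J → (2:ℝ) ^ J ≤ T ^ y →
      ∀ a b : Fin k → ℝ, (∀ j, |a j| ≤ B) → (∀ j, |b j| ≤ B) →
      (∀ j, T ^ (-ε) ≤ |a j - b j|) →
      ∫ u in box k H, ‖∫ t in T₀..T, (∏ j, pf (a j) (b j) (t + u j) -
        ∏ j, lo (a j) (b j) J (t + u j))‖ ≤
        (2 * H) ^ k * (CB * T ^ (1 - y / (2 * (k + 1)) + (20 + 2 * k) * ε)))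
    (hCd : ∀ T T₀ H : ℝ, 1 ≤ T → 4 ≤ T₀ → T₀ ≤ T → 1 ≤ H → H ≤ T₀ / 2 →
      ∀ J : ℕ, ∀ a b : Fin k → ℝ, (∀ j, |a j| ≤ B) → (∀ j, |b j| ≤ B) →
      (∀ j, T ^ (-ε) ≤ |a j - b j|) → ∀ u ∈ box k H,
      ‖(∫ t in T₀..T, ∏ j, lo (a j) (b j) J (t + u j)) - ∑ κ : Fin k → Bool,
        (∫ t in T₀..T, ∏ j, if κ j then XX (a j) (b j) (t + u j) else 1) *
          PP (fun j => sw (κ j) (a j) (b j)) (fun j => sw (κ j) (b j) (a j)) J u‖ ≤
        CC * T ^ (k * ε) * (8:ℝ) ^ (k * J) * (T / T₀))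
    (hD : ∀ T H : ℝ, 1 ≤ T → T ^ (1 / 4 : ℝ) ≤ H → H ≤ T →
      ∀ J : ℕ, T ^ y / 2 ≤ 2 ^ J → (2:ℝ) ^ J ≤ T ^ y →
      ∀ a b : Fin k → ℝ, (∀ j, |a j| ≤ B) → (∀ j, |b j| ≤ B) → (∀ j, T ^ (-ε) ≤ |a j - b j|) →
      ∫ u in box k H ∩ U1 k (2 * B + 1),
        ‖PP a b J u - zetaAB (S0 k) (fun i => (gm a b u i : ℂ))‖ ≤
        (2 * H) ^ k * (CD * T ^ (-cP + (k + 1) * ε)))
    (hU : ∀ T T₀ H : ℝ, CU ≤ T₀ → T₀ ≤ T → 1 ≤ H → H ≤ T₀ / 4 → ∀ a b u : Fin k → ℝ,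
      (∀ j, |a j| ≤ B) → (∀ j, |b j| ≤ B) → u ∈ box k H →
      ∀ S ∈ (univ : Finset (Ix k)).powersetCard k, 1 ≤ |lamS S u| →
      ‖∫ t in T₀..T, G S (fun i => (gm a b u i : ℂ)) t‖ ≤
        CU * (T / |lamS S u|) * (1 + H ^ 2 / T₀ + Real.log T))
    (hZ : ∀ T : ℝ, 1 ≤ T → ∀ a b u : Fin k → ℝ, (∀ j, |a j| ≤ B) → (∀ j, |b j| ≤ B) →
      (∀ j, T ^ (-ε) ≤ |a j - b j|) → u ∈ box k T → u ∈ U1 k (2 * B + 1) →
      ∀ S : Finset (Ix k), ‖zetaAB S (fun i => (gm a b u i : ℂ))‖ ≤ CZ * T ^ (4 * k ^ 2 * ε))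
    {a b : Fin k → ℝ} (ha : ∀ j, |a j| ≤ B) (hb : ∀ j, |b j| ≤ B)
    (hab : ∀ j, T ^ (-ε) ≤ |a j - b j|) :
    ∫ u in box k H ∩ (U1 k (2 * B + 1) ∩ U2 k R),
      ‖E (fun j => a j + u j) (fun j => b j + u j) T‖ ≤
      (2 * H) ^ k * ((CA + CB + CC + 2 ^ k * CD +
        ((univ : Finset (Ix k)).powersetCard k).card * (4 * (CU * CZ) * (5 + 1 / c₂)) +
        ((univ : Finset (Ix k)).powersetCard k).card * CZ) * T ^ (1 - c)) := by
  classical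
  have hT0 : 0 < T := by linarith
  set T₀ : ℝ := T ^ (1 - c₀) with hT₀
  set N : ℕ := ((univ : Finset (Ix k)).powersetCard k).card with hN
  set Ω : Set (Fin k → ℝ) := box k H ∩ (U1 k (2 * B + 1) ∩ U2 k R) with hΩ
  have hΩm : MeasurableSet Ω :=
    (measurableSet_box k H).inter ((measurableSet_U1 k _).inter (measurableSet_U2 k _))
  have hΩb : Ω ⊆ box k H := Set.inter_subset_left
  have hΩ1 : Ω ⊆ box k H ∩ U1 k (2 * B + 1) := fun u hu => ⟨hu.1, hu.2.1⟩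
  have hH1 : 1 ≤ H := (Real.one_le_rpow hT1 (by linarith)).trans hHl
  have hT₀T : T₀ ≤ T := by
    calc T₀ ≤ T ^ (1:ℝ) := Real.rpow_le_rpow_of_exponent_le hT1 (by linarith)
      _ = T := Real.rpow_one T
  have hT₀0 : 0 < T₀ := Real.rpow_pos_of_pos hT0 _
  have hwH : T ^ w ≤ H := (Real.rpow_le_rpow_of_exponent_le hT1 hwθ).trans hHl
  have h14H : T ^ (1 / 4 : ℝ) ≤ H := (Real.rpow_le_rpow_of_exponent_le hT1 hθ14).trans hHl
  have hH4 : H ≤ T₀ / 4 := hHu.trans h4H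
  have hHT : H ≤ T := by linarith
  have hH0 : 0 < H := by linarith
  have h78 : T ^ (7 / 8 : ℝ) ≤ T₀ := Real.rpow_le_rpow_of_exponent_le hT1 (by linarith)
  have hH2 : H ≤ T₀ / 2 := by linarith
  have hP : ∀ x : ℝ, 0 ≤ T ^ x := fun x => (Real.rpow_pos_of_pos hT0 x).le
  have hTc : 0 ≤ T ^ (1 - c) := hP _
  have h2H : 0 ≤ (2 * H) ^ k := by positivity
  have hmono : ∀ x : ℝ, x ≤ 1 - c → T ^ x ≤ T ^ (1 - c) := fun x hx =>
    Real.rpow_le_rpow_of_exponent_le hT1 hx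
  have hne : ∀ j, a j ≠ b j := by
    intro j h
    have h1 := hab j
    rw [h, sub_self, abs_zero] at h1
    exact absurd h1 (not_le.2 (Real.rpow_pos_of_pos hT0 _))
  -- A
  have iA : IB Ω (fun u => ∫ t in (0:ℝ)..T₀, ∏ j, ‖pf (a j) (b j) (t + u j)‖)
      ((2 * H) ^ k * (CA * T ^ (1 - c))) := by
    refine (IB_of_cont hΩb (continuous_A a b T₀) ?_
      (hA T T₀ H hT1 hT₀0.le hT₀T hwH hHT a b ha hb)).mono ?_
    · intro u
      refine intervalIntegral.integral_nonneg hT₀0.le fun t _ => ?_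
      exact Finset.prod_nonneg fun j _ => norm_nonneg _
    · refine mul_le_mul_of_nonneg_left ?_ h2H
      rw [mul_assoc]
      refine mul_le_mul_of_nonneg_left ?_ hCA
      rw [hT₀, ← Real.rpow_add hT0]
      exact hmono _ (by linarith)
  -- B
  have iB : IB Ω (fun u => ‖∫ t in T₀..T, (∏ j, pf (a j) (b j) (t + u j) -
      ∏ j, lo (a j) (b j) J (t + u j))‖) ((2 * H) ^ k * (CB * T ^ (1 - c))) := by
    refine (IB_of_cont hΩb (continuous_Bt a b J T₀ T) (fun u => norm_nonneg _)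
      (hBt T T₀ H hT1 h78 hT₀T hwH hH2 J hJ1 hJ2 a b ha hb hab)).mono ?_
    refine mul_le_mul_of_nonneg_left ?_ h2H
    exact mul_le_mul_of_nonneg_left (hmono _ e2) hCB
  -- C
  have iC : IB Ω (fun _ => CC * T ^ (1 - c)) ((2 * H) ^ k * (CC * T ^ (1 - c))) :=
    IB_const (by linarith) hΩb (by positivity)
  have pC : ∀ u ∈ Ω, ‖(∫ t in T₀..T, ∏ j, lo (a j) (b j) J (t + u j)) - ∑ κ : Fin k → Bool,
        (∫ t in T₀..T, ∏ j, if κ j then XX (a j) (b j) (t + u j) else 1) *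
          PP (fun j => sw (κ j) (a j) (b j)) (fun j => sw (κ j) (b j) (a j)) J u‖ ≤
        CC * T ^ (1 - c) := by
    intro u hu
    refine (hCd T T₀ H hT1 h4 hT₀T hH1 hH2 J a b ha hb hab u (hΩb hu)).trans ?_
    have h8 : (8:ℝ) ^ (k * J) ≤ T ^ (y * (3 * k)) := by
      have h81 : (8:ℝ) ^ (k * J) = ((2:ℝ) ^ J) ^ (3 * k) := by
        rw [← pow_mul, show (8:ℝ) = 2 ^ 3 by norm_num, ← pow_mul]
        congr 1
        ring
      have h82 : T ^ (y * (3 * k)) = (T ^ y) ^ (3 * k) := by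
        rw [← Real.rpow_natCast (T ^ y), ← Real.rpow_mul hT0.le]
        push_cast
        rfl
      rw [h81, h82]
      exact pow_le_pow_left₀ (by positivity) hJ2 _
    have hTT : T / T₀ = T ^ c₀ := by
      rw [hT₀, div_eq_iff (Real.rpow_pos_of_pos hT0 _).ne', ← Real.rpow_add hT0]
      rw [show c₀ + (1 - c₀) = 1 by ring, Real.rpow_one]
    rw [hTT]
    calc CC * T ^ (k * ε) * (8:ℝ) ^ (k * J) * T ^ c₀
        ≤ CC * T ^ (k * ε) * T ^ (y * (3 * k)) * T ^ c₀ := by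
          refine mul_le_mul_of_nonneg_right ?_ (hP _)
          exact mul_le_mul_of_nonneg_left h8 (mul_nonneg hCC (hP _))
      _ = CC * T ^ (k * ε + y * (3 * k) + c₀) := by
          rw [Real.rpow_add hT0, Real.rpow_add hT0]; ring
      _ ≤ CC * T ^ (1 - c) := mul_le_mul_of_nonneg_left (hmono _ e3) hCC
  -- D
  have iD : IB Ω (fun u => T * ∑ κ : Fin k → Bool,
        ‖PP (fun j => sw (κ j) (a j) (b j)) (fun j => sw (κ j) (b j) (a j)) J u -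
          zetaAB (S0 k) (fun i => (gm (fun j => sw (κ j) (a j) (b j))
            (fun j => sw (κ j) (b j) (a j)) u i : ℂ))‖)
      ((2 * H) ^ k * (2 ^ k * CD * T ^ (1 - c))) := by
    have i1 : ∀ κ ∈ (univ : Finset (Fin k → Bool)), IB Ω (fun u =>
        ‖PP (fun j => sw (κ j) (a j) (b j)) (fun j => sw (κ j) (b j) (a j)) J u -
          zetaAB (S0 k) (fun i => (gm (fun j => sw (κ j) (a j) (b j))
            (fun j => sw (κ j) (b j) (a j)) u i : ℂ))‖)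
        ((2 * H) ^ k * (CD * T ^ (-cP + (k + 1) * ε))) := by
      intro κ _
      have ha' : ∀ j, |sw (κ j) (a j) (b j)| ≤ B := by
        intro j; unfold sw; split_ifs
        · exact hb j
        · exact ha j
      have hb' : ∀ j, |sw (κ j) (b j) (a j)| ≤ B := by
        intro j; unfold sw; split_ifs
        · exact ha j
        · exact hb j
      have hab' : ∀ j, T ^ (-ε) ≤ |sw (κ j) (a j) (b j) - sw (κ j) (b j) (a j)| := by
        intro j; unfold sw; split_ifs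
        · rw [abs_sub_comm]; exact hab j
        · exact hab j
      have hne' : ∀ j, sw (κ j) (a j) (b j) ≠ sw (κ j) (b j) (a j) := by
        intro j; unfold sw; split_ifs
        · exact (hne j).symm
        · exact hne j
      refine IB_of_contOn (K := box k H ∩ U1 k (2 * B + 1)) ?_ hΩ1 ?_
        (fun u => norm_nonneg _) (hD T H hT1 h14H hHT J hJ1 hJ2 _ _ ha' hb' hab')
      · exact (isCompact_box k H).inter_right (isClosed_U1 k _)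
      · refine ContinuousOn.norm ?_
        refine (continuous_PP _ _ J).continuousOn.sub ?_
        exact (continuousOn_zetaAB_gm ha' hb' hne' (S0 k)).mono Set.inter_subset_right
    refine ((IB.sum univ i1).const_mul hT0.le).mono ?_
    rw [Finset.sum_const, Finset.card_univ, Fintype.card_pi, nsmul_eq_mul]
    simp only [Fintype.card_bool, Finset.prod_const, Finset.card_univ, Fintype.card_fin]
    push_cast
    have h1 : T * T ^ (-cP + (k + 1) * ε) ≤ T ^ (1 - c) := by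
      calc T * T ^ (-cP + (k + 1) * ε) = T ^ (1:ℝ) * T ^ (-cP + (k + 1) * ε) := by
            rw [Real.rpow_one]
        _ = T ^ (1 + (-cP + (k + 1) * ε)) := (Real.rpow_add hT0 _ _).symm
        _ ≤ T ^ (1 - c) := hmono _ e4
    calc T * (2 ^ k * ((2 * H) ^ k * (CD * T ^ (-cP + (k + 1) * ε))))
        = (2 * H) ^ k * (2 ^ k * CD * (T * T ^ (-cP + (k + 1) * ε))) := by ring
      _ ≤ (2 * H) ^ k * (2 ^ k * CD * T ^ (1 - c)) := by
          refine mul_le_mul_of_nonneg_left ?_ h2H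
          exact mul_le_mul_of_nonneg_left h1 (by positivity)
  -- zeta values
  have pZ : ∀ u ∈ Ω, ∀ S : Finset (Ix k), ‖zetaAB S (fun i => (gm a b u i : ℂ))‖ ≤
      CZ * T ^ (4 * k ^ 2 * ε) := fun u hu S =>
    hZ T hT1 a b u ha hb hab (box_mono hHT (hΩb hu)) hu.2.1 S
  -- E
  have pE : ∀ u ∈ Ω, ∑ S ∈ ((univ : Finset (Ix k)).powersetCard k).filter (fun S => ∀ κ, S ≠ Sk κ),
        ‖∫ t in T₀..T, G S (fun i => (gm a b u i : ℂ)) t‖ *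
          ‖zetaAB S (fun i => (gm a b u i : ℂ))‖ ≤
        N * (4 * (CU * CZ) * (5 + 1 / c₂)) * T ^ (1 - c) := by
    intro u hu
    have h1 : ∀ S ∈ ((univ : Finset (Ix k)).powersetCard k).filter (fun S => ∀ κ, S ≠ Sk κ),
        ‖∫ t in T₀..T, G S (fun i => (gm a b u i : ℂ)) t‖ *
          ‖zetaAB S (fun i => (gm a b u i : ℂ))‖ ≤
          4 * (CU * CZ) * (5 + 1 / c₂) * T ^ (1 - c) := by
      intro S hS
      rw [Finset.mem_filter] at hS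
      have hl : R ≤ |lamS S u| := hu.2.2 S hS.1 hS.2
      have hl' : H * T ^ (-c₂) / 4 ≤ |lamS S u| := hR.trans hl
      have hTc2 : 0 < T ^ (-c₂) := Real.rpow_pos_of_pos hT0 _
      have hl1 : 1 ≤ |lamS S u| := by
        refine le_trans ?_ hl'
        have h1 : T ^ (θ₁ - c₂) ≤ H * T ^ (-c₂) := by
          rw [sub_eq_add_neg, Real.rpow_add hT0]
          exact mul_le_mul_of_nonneg_right hHl hTc2.le
        linarith
      have hl0 : 0 < H * T ^ (-c₂) / 4 := by positivity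
      have h2 := hU T T₀ H hCUT hT₀T hH1 hH4 a b u ha hb (hΩb hu) S hS.1 hl1
      have hTl : T / |lamS S u| ≤ 4 * (T ^ (1 + c₂) / H) := by
        calc T / |lamS S u| ≤ T / (H * T ^ (-c₂) / 4) := div_le_div_of_nonneg_left hT0.le hl0 hl'
          _ = 4 * (T ^ (1 + c₂) / H) := by
              rw [Real.rpow_add hT0 1 c₂, Real.rpow_one, Real.rpow_neg hT0.le]
              field_simp
      have hlog : Real.log T ≤ T ^ c₂ / c₂ := Real.log_le_rpow_div hT0.le hc₂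
      have hlog0 : 0 ≤ Real.log T := Real.log_nonneg hT1
      have hq1 : T ^ (1 + c₂) / H ≤ T ^ (1 + c₂ - θ₁) := by
        rw [Real.rpow_sub hT0 (1 + c₂) θ₁]
        exact div_le_div_of_nonneg_left (hP _) (Real.rpow_pos_of_pos hT0 _) hHl
      have hq2 : T ^ (1 + c₂) / H * (H ^ 2 / T₀) ≤ 4 * T ^ (1 + c₂ + θ - (1 - c₀)) := by
        have h21 : T ^ (1 + c₂) / H * (H ^ 2 / T₀) = T ^ (1 + c₂) * H / T₀ := by
          field_simp
        rw [h21, Real.rpow_sub hT0 (1 + c₂ + θ) (1 - c₀), Real.rpow_add hT0 (1 + c₂) θ, ← hT₀,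
          mul_div_assoc', div_le_div_iff_of_pos_right hT₀0]
        calc T ^ (1 + c₂) * H ≤ T ^ (1 + c₂) * (4 * T ^ θ) :=
              mul_le_mul_of_nonneg_left hHu (hP _)
          _ = 4 * (T ^ (1 + c₂) * T ^ θ) := by ring
      have h3 : ‖∫ t in T₀..T, G S (fun i => (gm a b u i : ℂ)) t‖ ≤
          4 * CU * (T ^ (1 + c₂ - θ₁) + 4 * T ^ (1 + c₂ + θ - (1 - c₀)) +
            1 / c₂ * (T ^ (1 + c₂ - θ₁) * T ^ c₂)) := by
        refine h2.trans ?_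
        have h31 : 0 ≤ 1 + H ^ 2 / T₀ + Real.log T := by
          have : 0 ≤ H ^ 2 / T₀ := by positivity
          linarith
        have h33 : 0 ≤ T ^ (1 + c₂) / H := div_nonneg (hP _) hH0.le
        have h32 : 0 ≤ CU * (4 * (T ^ (1 + c₂) / H)) := by positivity
        calc CU * (T / |lamS S u|) * (1 + H ^ 2 / T₀ + Real.log T)
            ≤ CU * (4 * (T ^ (1 + c₂) / H)) * (1 + H ^ 2 / T₀ + Real.log T) :=
              mul_le_mul_of_nonneg_right (mul_le_mul_of_nonneg_left hTl hCU) h31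
          _ ≤ CU * (4 * (T ^ (1 + c₂) / H)) * (1 + H ^ 2 / T₀ + T ^ c₂ / c₂) :=
              mul_le_mul_of_nonneg_left (by linarith) h32
          _ = 4 * CU * (T ^ (1 + c₂) / H + T ^ (1 + c₂) / H * (H ^ 2 / T₀) +
              1 / c₂ * (T ^ (1 + c₂) / H * T ^ c₂)) := by ring
          _ ≤ _ := by
              refine mul_le_mul_of_nonneg_left ?_ (by positivity)
              have h34 : 1 / c₂ * (T ^ (1 + c₂) / H * T ^ c₂) ≤
                  1 / c₂ * (T ^ (1 + c₂ - θ₁) * T ^ c₂) :=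
                mul_le_mul_of_nonneg_left (mul_le_mul_of_nonneg_right hq1 (hP _)) (by positivity)
              linarith
      have h4' := pZ u hu S
      have h5 : 0 ≤ 4 * CU * (T ^ (1 + c₂ - θ₁) + 4 * T ^ (1 + c₂ + θ - (1 - c₀)) +
            1 / c₂ * (T ^ (1 + c₂ - θ₁) * T ^ c₂)) :=
        (norm_nonneg _).trans h3
      refine (mul_le_mul h3 h4' (norm_nonneg _) h5).trans ?_
      have q1 : T ^ (1 + c₂ - θ₁) * T ^ (4 * k ^ 2 * ε) ≤ T ^ (1 - c) := by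
        rw [← Real.rpow_add hT0]; exact hmono _ e5
      have q2 : T ^ (1 + c₂ + θ - (1 - c₀)) * T ^ (4 * k ^ 2 * ε) ≤ T ^ (1 - c) := by
        rw [← Real.rpow_add hT0]; exact hmono _ e6
      have q3 : T ^ (1 + c₂ - θ₁) * T ^ c₂ * T ^ (4 * k ^ 2 * ε) ≤ T ^ (1 - c) := by
        rw [← Real.rpow_add hT0, ← Real.rpow_add hT0]; exact hmono _ e7
      have q4 : 0 ≤ 1 / c₂ := by positivity
      have q5 : 0 ≤ 4 * (CU * CZ) := by positivity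
      calc 4 * CU * (T ^ (1 + c₂ - θ₁) + 4 * T ^ (1 + c₂ + θ - (1 - c₀)) +
            1 / c₂ * (T ^ (1 + c₂ - θ₁) * T ^ c₂)) * (CZ * T ^ (4 * k ^ 2 * ε))
          = 4 * (CU * CZ) * (T ^ (1 + c₂ - θ₁) * T ^ (4 * k ^ 2 * ε) +
              4 * (T ^ (1 + c₂ + θ - (1 - c₀)) * T ^ (4 * k ^ 2 * ε)) +
              1 / c₂ * (T ^ (1 + c₂ - θ₁) * T ^ c₂ * T ^ (4 * k ^ 2 * ε))) := by ring
        _ ≤ 4 * (CU * CZ) * (T ^ (1 - c) + 4 * T ^ (1 - c) + 1 / c₂ * T ^ (1 - c)) := by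
            refine mul_le_mul_of_nonneg_left ?_ q5
            have := mul_le_mul_of_nonneg_left q3 q4
            linarith
        _ = 4 * (CU * CZ) * (5 + 1 / c₂) * T ^ (1 - c) := by ring
    refine (Finset.sum_le_card_nsmul _ _ _ h1).trans ?_
    rw [nsmul_eq_mul]
    have h6 : (((((univ : Finset (Ix k)).powersetCard k).filter
        (fun S => ∀ κ, S ≠ Sk κ)).card : ℕ) : ℝ) ≤ N := by
      exact_mod_cast Finset.card_filter_le _ _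
    have h7 : 0 ≤ 4 * (CU * CZ) * (5 + 1 / c₂) * T ^ (1 - c) := by positivity
    calc _ ≤ (N:ℝ) * (4 * (CU * CZ) * (5 + 1 / c₂) * T ^ (1 - c)) :=
          mul_le_mul_of_nonneg_right h6 h7
      _ = _ := by ring
  have iE : IB Ω (fun _ => N * (4 * (CU * CZ) * (5 + 1 / c₂)) * T ^ (1 - c))
      ((2 * H) ^ k * (N * (4 * (CU * CZ) * (5 + 1 / c₂)) * T ^ (1 - c))) :=
    IB_const (by linarith) hΩb (by positivity)
  -- F
  have pF : ∀ u ∈ Ω, T₀ * ∑ S ∈ (univ : Finset (Ix k)).powersetCard k,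
        ‖zetaAB S (fun i => (gm a b u i : ℂ))‖ ≤ N * CZ * T ^ (1 - c) := by
    intro u hu
    have h1 : ∑ S ∈ (univ : Finset (Ix k)).powersetCard k,
        ‖zetaAB S (fun i => (gm a b u i : ℂ))‖ ≤ N * (CZ * T ^ (4 * k ^ 2 * ε)) := by
      refine (Finset.sum_le_card_nsmul _ _ _ fun S _ => pZ u hu S).trans ?_
      rw [nsmul_eq_mul]
    have h2 : T₀ * T ^ (4 * k ^ 2 * ε) ≤ T ^ (1 - c) := by
      rw [hT₀, ← Real.rpow_add hT0]
      exact hmono _ e8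
    calc T₀ * ∑ S ∈ (univ : Finset (Ix k)).powersetCard k,
        ‖zetaAB S (fun i => (gm a b u i : ℂ))‖ ≤ T₀ * (N * (CZ * T ^ (4 * k ^ 2 * ε))) :=
          mul_le_mul_of_nonneg_left h1 hT₀0.le
      _ = N * CZ * (T₀ * T ^ (4 * k ^ 2 * ε)) := by ring
      _ ≤ N * CZ * T ^ (1 - c) := mul_le_mul_of_nonneg_left h2 (by positivity)
  have iF : IB Ω (fun _ => N * CZ * T ^ (1 - c)) ((2 * H) ^ k * (N * CZ * T ^ (1 - c))) :=
    IB_const (by linarith) hΩb (by positivity)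
  have iAll := ((((iA.add iB).add iC).add iD).add iE).add iF
  have hfin := IB.of_le (g := fun u => ‖E (fun j => a j + u j) (fun j => b j + u j) T‖) hΩm iAll
    (fun u _ => norm_nonneg _) (fun u hu => by
      have h := norm_E_le (gm_injective ha hb hne hu.2.1) J hT₀0.le hT₀T
      refine h.trans ?_
      have h1 := pC u hu
      have h2 := pE u hu
      have h3 := pF u hu
      linarith)
  refine hfin.trans (le_of_eq ?_)
  ring

end COR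

/-- K1: `norm_E_le` integrated over the translations, `T₀ = T^(1 - c₀)`, `2^J ≈ T^y`; for small
`T` the polynomial bound `BASE.exists_Er_poly_zero`; cubes between `T^θ₁` and `4 T^θ₂` -/
theorem exists_core_R {w : ℝ} (hw : LocalBound w) (hw1 : 1 / 4 ≤ w) (k : ℕ) (θ₁ θ₂ : ℝ)
    (hθ : w < θ₁) (hθ' : θ₁ ≤ θ₂) (hθ1 : θ₂ < 1) :
    ∃ c c₂ ε₀ : ℝ, 0 < c ∧ 0 < c₂ ∧ c₂ < θ₁ / 2 ∧ 0 < ε₀ ∧ ∀ B ε : ℝ,
    0 ≤ B → 0 < ε → ε ≤ ε₀ → ∃ C : ℝ, 1 ≤ C ∧ ∀ T H R : ℝ, 1 ≤ T → T ^ θ₁ ≤ H →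
    H ≤ 4 * T ^ θ₂ → H * T ^ (-c₂) / 4 ≤ R → ∀ a b : Fin k → ℝ,
    (∀ j, |a j| ≤ B) → (∀ j, |b j| ≤ B) → (∀ j, T ^ (-ε) ≤ |a j - b j|) →
    ∫ u in box k H ∩ (U1 k (2 * B + 1) ∩ U2 k R),
      ‖E (fun j => a j + u j) (fun j => b j + u j) T‖ ≤
      (2 * H) ^ k * (C * T ^ (1 - c)) := by
  classical
  have hθ4 : 1 / 4 < θ₁ := lt_of_le_of_lt hw1 hθ
  obtain ⟨y₀, hy₀, hy₀1, hPP⟩ := exists_PP_approx k
  set y : ℝ := min y₀ (1 / (40 * ((k : ℝ) + 1))) with hy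
  have hy0 : 0 < y := lt_min hy₀ (by positivity)
  obtain ⟨cP, hcP, hPP2⟩ := hPP y hy0 (min_le_left _ _)
  set c₀ : ℝ := (1 - θ₂) / 8 with hc₀
  set c₂ : ℝ := min ((1 - θ₂) / 8) (θ₁ / 4) with hc₂
  set c : ℝ := min (c₀ / 2) (min (y / (4 * ((k : ℝ) + 1))) (min (cP / 2)
      (min ((1 - θ₂) / 4) (1 / 16)))) with hc
  set ε₀ : ℝ := min (y / (100 * ((k : ℝ) + 1) ^ 2)) (min (cP / (2 * ((k : ℝ) + 1)))
      (min (c₀ / (8 * ((k : ℝ) + 1) ^ 2)) (min ((1 - θ₂) / (16 * ((k : ℝ) + 1) ^ 2))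
        (1 / (64 * ((k : ℝ) + 1) ^ 2))))) with hε₀
  have c00 : 0 < c₀ := by rw [hc₀]; linarith
  have e00 : 0 < ε₀ := by
    rw [hε₀]
    refine lt_min (by positivity) (lt_min (by positivity) (lt_min (by positivity)
      (lt_min (div_pos (by linarith) (by positivity)) (by positivity))))
  obtain ⟨⟨-, c20, -, c0, -, -, -, -, -, hc2θ⟩, -⟩ :=
    COR.params k hθ4 hθ' hθ1 hcP hy₀ c₀ c₂ y c ε₀ ε₀ hc₀ hc₂ hy hc hε₀ e00 le_rfl
  refine ⟨c, c₂, ε₀, c0, c20, hc2θ, e00, ?_⟩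
  intro B ε hB hε hεε
  obtain ⟨⟨-, -, -, -, -, hε1, hy1, hεy, hc₀1, -⟩, e1, e2, e3, e4, e5, e6, e7, e8, e9⟩ :=
    COR.params k hθ4 hθ' hθ1 hcP hy₀ c₀ c₂ y c ε₀ ε hc₀ hc₂ hy hc hε₀ hε hεε
  obtain ⟨CA, hCA, hA⟩ := exists_prod_pf_mean hw k B (c₀ / 2) hB (by positivity)
  obtain ⟨CB, hCB, hBt⟩ := exists_trunc hw hw1 k B ε y hB hε hy0 hy1 hεy
  obtain ⟨CC, hCC, hCd⟩ := exists_diag k B ε hB hε
  obtain ⟨CD, hCD, hD⟩ := hPP2 B ε hB hε hε1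
  obtain ⟨CU, hCU, hU⟩ := exists_unmatched k B hB
  obtain ⟨CZ, hCZ, hZ⟩ := exists_zetaAB_le k B ε hB hε
  obtain ⟨CE, hCE, hE⟩ := BASE.exists_Er_poly_zero k
  -- large T
  have hev : ∀ᶠ T : ℝ in atTop, (16 ≤ T ^ (1 - c₀ - θ₂) ∧ max CU 4 ≤ T ^ (1 - c₀)) ∧
      4 ≤ T ^ (θ₁ - c₂) := by
    refine (((tendsto_rpow_atTop (by linarith)).eventually_ge_atTop 16).and
      ((tendsto_rpow_atTop (by linarith)).eventually_ge_atTop _)).and
      ((tendsto_rpow_atTop (by linarith)).eventually_ge_atTop 4)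
  obtain ⟨T1, hT1⟩ := eventually_atTop.1 hev
  set T2 : ℝ := max T1 1 with hT2
  have hT21 : 1 ≤ T2 := le_max_right _ _
  set M1 : ℝ := CE * (1 + (B + 4 * T2)) ^ NK k * (1 + T2) ^ (2 * k + 1) with hM1
  have hM10 : 0 ≤ M1 := by positivity
  set M2 : ℝ := CA + CB + CC + 2 ^ k * CD +
        ((univ : Finset (Ix k)).powersetCard k).card * (4 * (CU * CZ) * (5 + 1 / c₂)) +
        ((univ : Finset (Ix k)).powersetCard k).card * CZ with hM2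
  have hM20 : 0 ≤ M2 := by positivity
  refine ⟨1 + M1 + M2, by linarith, ?_⟩
  intro T H R hT hHl hHu hR a b ha hb hab
  have hT0 : 0 < T := by linarith
  have hH0 : 0 < H := lt_of_lt_of_le (Real.rpow_pos_of_pos hT0 _) hHl
  have h2H : 0 ≤ (2 * H) ^ k := by positivity
  have hTc : 0 ≤ T ^ (1 - c) := (Real.rpow_pos_of_pos hT0 _).le
  by_cases hTT : T2 ≤ T
  · obtain ⟨⟨h41, h42⟩, h43⟩ := hT1 T ((le_max_left _ _).trans hTT)
    obtain ⟨J, hJ1, hJ2⟩ := COR.exists_two_pow (x := T ^ y) (Real.one_le_rpow hT hy0.le)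
    have h4H : 4 * T ^ θ₂ ≤ T ^ (1 - c₀) / 4 := by
      have h5 : T ^ (1 - c₀) = T ^ (1 - c₀ - θ₂) * T ^ θ₂ := by
        rw [← Real.rpow_add hT0]
        congr 1
        ring
      have h6 : 0 < T ^ θ₂ := Real.rpow_pos_of_pos hT0 _
      rw [h5]
      nlinarith
    have h := COR.big (w := w) (c := c) (cP := cP) hT hθ.le hθ4.le hHl hHu hR h43
      c00 hc₀1 c20 (by linarith) (by linarith) (by linarith) (by linarith)
      (by linarith) (by linarith) hJ1 hJ2 h4H ((le_max_right _ _).trans h42)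
      ((le_max_left _ _).trans h42) e1 e2 e3 e4 e5 e6 e7 e8 hA hBt hCd hD hU hZ ha hb hab
    refine h.trans ?_
    refine mul_le_mul_of_nonneg_left ?_ h2H
    exact mul_le_mul_of_nonneg_right (by linarith) hTc
  · push Not at hTT
    have hΩb : box k H ∩ (U1 k (2 * B + 1) ∩ U2 k R) ⊆ box k H :=
      Set.inter_subset_left
    have hHT : H ≤ 4 * T := by
      refine hHu.trans (mul_le_mul_of_nonneg_left ?_ (by norm_num))
      calc T ^ θ₂ ≤ T ^ (1:ℝ) := Real.rpow_le_rpow_of_exponent_le hT hθ1.le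
        _ = T := Real.rpow_one T
    have hI := COR.IB_const (H := H) hH0.le hΩb hM10
    have h := COR.IB.of_le (g := fun u => ‖E (fun j => a j + u j) (fun j => b j + u j) T‖)
      ((measurableSet_box k _).inter ((measurableSet_U1 k _).inter (measurableSet_U2 k _))) hI
      (fun u _ => norm_nonneg _) (fun u hu => by
        have h1 := hE (gm a b u) (B + 4 * T2) T (by linarith) hT0.le (by
          intro i
          rcases i with j | j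
          · simp only [gm, Sum.elim_inl]
            refine (abs_add_le _ _).trans ?_
            have := COR.mem_box (hΩb hu) j
            have := ha j
            linarith
          · simp only [gm, Sum.elim_inr]
            refine (abs_add_le _ _).trans ?_
            have := COR.mem_box (hΩb hu) j
            have := hb j
            linarith)
        refine (show ‖E (fun j => a j + u j) (fun j => b j + u j) T‖ ≤ _ from h1).trans ?_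
        rw [hM1]
        gcongr)
    refine h.trans ?_
    refine mul_le_mul_of_nonneg_left ?_ h2H
    have h1c : 1 ≤ T ^ (1 - c) := Real.one_le_rpow hT (by
      have : c ≤ 1 / 16 := by
        rw [hc]
        exact (min_le_right _ _).trans ((min_le_right _ _).trans ((min_le_right _ _).trans
          (min_le_right _ _)))
      linarith)
    nlinarith

/-- the core theorem for cubes between `T^θ₁` and `4 T^θ₂`, frequencies at least `H T^(-c₂)` -/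
theorem exists_core_gen {w : ℝ} (hw : LocalBound w) (hw1 : 1 / 4 ≤ w) (k : ℕ) (θ₁ θ₂ : ℝ)
    (hθ : w < θ₁) (hθ' : θ₁ ≤ θ₂) (hθ1 : θ₂ < 1) :
    ∃ c c₂ ε₀ : ℝ, 0 < c ∧ 0 < c₂ ∧ c₂ < θ₁ / 2 ∧ 0 < ε₀ ∧ ∀ B ε : ℝ,
    0 ≤ B → 0 < ε → ε ≤ ε₀ → ∃ C : ℝ, 1 ≤ C ∧ ∀ T H : ℝ, 1 ≤ T → T ^ θ₁ ≤ H →
    H ≤ 4 * T ^ θ₂ → ∀ a b : Fin k → ℝ,
    (∀ j, |a j| ≤ B) → (∀ j, |b j| ≤ B) → (∀ j, T ^ (-ε) ≤ |a j - b j|) →
    ∫ u in box k H ∩ (U1 k (2 * B + 1) ∩ U2 k (H * T ^ (-c₂))),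
      ‖E (fun j => a j + u j) (fun j => b j + u j) T‖ ≤
      (2 * H) ^ k * (C * T ^ (1 - c)) := by
  obtain ⟨c, c₂, ε₀, hc, hc₂, hc₂', hε₀, h⟩ := exists_core_R hw hw1 k θ₁ θ₂ hθ hθ' hθ1
  refine ⟨c, c₂, ε₀, hc, hc₂, hc₂', hε₀, ?_⟩
  intro B ε hB hε hεε
  obtain ⟨C, hC, h2⟩ := h B ε hB hε hεε
  refine ⟨C, hC, ?_⟩
  intro T H hT hHl hHu a b ha hb hab
  refine h2 T H _ hT hHl hHu ?_ a b ha hb hab
  have h3 : 0 ≤ H * T ^ (-c₂) := by
    have hT0 : 0 < T := by linarith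
    have hH0 : 0 < H := lt_of_lt_of_le (Real.rpow_pos_of_pos hT0 _) hHl
    positivity
  linarith

/-- K1: the core theorem for cubes between `T^θ` and `4 T^θ` -/
theorem exists_core {w : ℝ} (hw : LocalBound w) (hw1 : 1 / 4 ≤ w) (k : ℕ) (θ : ℝ) (hθ : w < θ)
    (hθ1 : θ < 1) :
    ∃ c c₂ ε₀ : ℝ, 0 < c ∧ 0 < c₂ ∧ c₂ < θ / 2 ∧ 0 < ε₀ ∧ ∀ B ε : ℝ,
    0 ≤ B → 0 < ε → ε ≤ ε₀ → ∃ C : ℝ, 1 ≤ C ∧ ∀ T H : ℝ, 1 ≤ T → T ^ θ ≤ H → H ≤ 4 * T ^ θ →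
    ∀ a b : Fin k → ℝ,
    (∀ j, |a j| ≤ B) → (∀ j, |b j| ≤ B) → (∀ j, T ^ (-ε) ≤ |a j - b j|) →
    ∫ u in box k H ∩ (U1 k (2 * B + 1) ∩ U2 k (T ^ (θ - c₂))),
      ‖E (fun j => a j + u j) (fun j => b j + u j) T‖ ≤
      (2 * H) ^ k * (C * T ^ (1 - c)) := by
  obtain ⟨c, c₂, ε₀, hc, hc₂, hc₂', hε₀, h⟩ := exists_core_R hw hw1 k θ θ hθ le_rfl hθ1
  refine ⟨c, c₂, ε₀, hc, hc₂, hc₂', hε₀, ?_⟩
  intro B ε hB hε hεε
  obtain ⟨C, hC, h2⟩ := h B ε hB hε hεε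
  refine ⟨C, hC, ?_⟩
  intro T H hT hHl hHu a b ha hb hab
  refine h2 T H _ hT hHl hHu ?_ a b ha hb hab
  have hT0 : 0 < T := by linarith
  have h3 : 0 < T ^ (-c₂) := Real.rpow_pos_of_pos hT0 _
  rw [sub_eq_add_neg, Real.rpow_add hT0]
  nlinarith

end Pool.Agent.AAS
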