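import Pool.Agent.AAS.DefsH
import Pool.Agent.AAS.CR1

set_option autoImplicit false

namespace Pool.Agent.AAS

open Complex Finset MeasureTheory Filter Topology Set
open Pool.Agent.H26

theorem PR_eq_Z {k : ℕ} (a b : Fin (k + 1) → ℝ) (v : Fin k → ℝ) (t : ℝ) :
    PR a b v t = Z (fun j => gm a b (fx v) (Sum.inl j)) (fun j => gm a b (fx v) (Sum.inr j)) t := by
  unfold PR Z pf
  refine Finset.prod_congr rfl fun j _ => ?_
  simp only [gm, Sum.elim_inl, Sum.elim_inr]
  push_cast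
  congr 3 <;> ring

theorem EGL_continuous_PR {k : ℕ} (a b : Fin (k + 1) → ℝ) (v : Fin k → ℝ) :
    Continuous (PR a b v) :=
  continuous_finsetProd _ fun j _ =>
    (continuous_pf (a j) (b j)).comp (continuous_id.add continuous_const)

theorem EGL_indicator {f : ℝ → ℂ} (_ : Continuous f) {G : Set ℝ} (hG : MeasurableSet G) {c d : ℝ}
    (hcd : c ≤ d) : ∫ t in G ∩ Icc c d, f t = ∫ t in c..d, G.indicator f t := by
  rw [intervalIntegral.integral_of_le hcd, ← integral_Icc_eq_integral_Ioc,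
    setIntegral_indicator hG, Set.inter_comm]

theorem EGL_indicator_int {f : ℝ → ℂ} (hf : Continuous f) {G : Set ℝ} (hG : MeasurableSet G)
    (c d : ℝ) : IntervalIntegrable (G.indicator f) volume c d := by
  rw [intervalIntegrable_iff]
  exact ((intervalIntegrable_iff.1 (hf.intervalIntegrable c d)).indicator hG)

theorem EGL_split {f : ℝ → ℂ} (hf : Continuous f) {G : Set ℝ} (hG : MeasurableSet G) {T T₀ : ℝ}
    (h0 : 0 ≤ T₀) (hT : T₀ ≤ T) :
    (∫ t in (0:ℝ)..T, f t) - (∫ t in Icc 0 T \ G, f t) =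
      (∫ t in G ∩ Icc 0 T₀, f t) + ∫ t in G ∩ Icc T₀ T, f t := by
  have h1 : (∫ t in (0:ℝ)..T, f t) = (∫ t in Icc 0 T ∩ G, f t) + ∫ t in Icc 0 T \ G, f t := by
    rw [integral_inter_add_sdiff hG (hf.continuousOn.integrableOn_Icc),
      intervalIntegral.integral_of_le (h0.trans hT), integral_Icc_eq_integral_Ioc]
  rw [h1, add_sub_cancel_right, Set.inter_comm, EGL_indicator hf hG (h0.trans hT),
    EGL_indicator hf hG h0, EGL_indicator hf hG hT]
  exact (intervalIntegral.integral_add_adjacent_intervals (EGL_indicator_int hf hG _ _)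
    (EGL_indicator_int hf hG _ _)).symm

private lemma EGL_continuous_G {k : ℕ} (S : Finset (Ix k)) (γ : Ix k → ℝ) :
    Continuous fun t : ℝ => H26.G S (fun i => (γ i : ℂ)) t := by
  have h1 : ∀ c : ℝ, Continuous fun t : ℝ => chi (1 / 2 - I * ((t : ℂ) + (c : ℂ))) := by
    intro c
    rw [continuous_iff_continuousAt]
    intro t
    have h := (differentiableAt_chi (s := 1 / 2 - I * ((t : ℂ) + (c : ℂ)))
      (by simp; norm_num)).continuousAt
    exact ContinuousAt.comp (f := fun t : ℝ => (1 / 2 - I * ((t : ℂ) + (c : ℂ)) : ℂ)) h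
      (by fun_prop)
  have h2 : ∀ c : ℝ, Continuous fun t : ℝ => chi (1 / 2 + I * ((t : ℂ) + (c : ℂ))) := by
    intro c
    rw [continuous_iff_continuousAt]
    intro t
    have h := (differentiableAt_chi (s := 1 / 2 + I * ((t : ℂ) + (c : ℂ)))
      (by simp; norm_num)).continuousAt
    exact ContinuousAt.comp (f := fun t : ℝ => (1 / 2 + I * ((t : ℂ) + (c : ℂ)) : ℂ)) h
      (by fun_prop)
  unfold H26.G
  refine Continuous.mul ?_ ?_
  · refine continuous_finsetProd _ fun j _ => ?_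
    by_cases h : (Sum.inr j : Ix k) ∈ S
    · simp only [if_pos h]; exact h1 _
    · simp only [if_neg h]; exact continuous_const
  · refine continuous_finsetProd _ fun j _ => ?_
    by_cases h : (Sum.inl j : Ix k) ∈ S
    · simp only [if_pos h]; exact continuous_const
    · simp only [if_neg h]; exact h2 _

/-- the decomposition of `EG` for well separated shifts (as `norm_E_le`) -/
theorem norm_EG_le {k : ℕ} {a b : Fin (k + 1) → ℝ} {v : Fin k → ℝ}
    (hinj : Function.Injective (gm a b (fx v))) (J : ℕ) {G : Set ℝ} (hG : MeasurableSet G)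
    {T T₀ : ℝ} (h0 : 0 ≤ T₀) (hT : T₀ ≤ T) :
    ‖EG G (gm a b (fx v)) T‖ ≤
      (∫ t in G ∩ Icc 0 T₀, ‖PR a b v t‖) +
      ‖(∫ t in G ∩ Icc T₀ T, PR a b v t) - ∫ t in T₀..T, PL a b J v t‖ +
      ‖(∫ t in T₀..T, ∏ j, lo (a j) (b j) J (t + fx v j)) - ∑ κ : Fin (k + 1) → Bool,
        (∫ t in T₀..T, ∏ j, if κ j then XX (a j) (b j) (t + fx v j) else 1) *
          PP (fun j => sw (κ j) (a j) (b j)) (fun j => sw (κ j) (b j) (a j)) J (fx v)‖ +
      T * ∑ κ : Fin (k + 1) → Bool,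
        ‖PP (fun j => sw (κ j) (a j) (b j)) (fun j => sw (κ j) (b j) (a j)) J (fx v) -
          zetaAB (S0 (k + 1)) (fun i => (gm (fun j => sw (κ j) (a j) (b j))
            (fun j => sw (κ j) (b j) (a j)) (fx v) i : ℂ))‖ +
      ∑ S ∈ ((univ : Finset (Ix (k + 1))).powersetCard (k + 1)).filter (fun S => ∀ κ, S ≠ Sk κ),
        ‖∫ t in T₀..T, H26.G S (fun i => (gm a b (fx v) i : ℂ)) t‖ *
          ‖zetaAB S (fun i => (gm a b (fx v) i : ℂ))‖ +
      T₀ * ∑ S ∈ (univ : Finset (Ix (k + 1))).powersetCard (k + 1),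
        ‖zetaAB S (fun i => (gm a b (fx v) i : ℂ))‖ := by
  classical
  set f : ℝ → ℂ := fun t => PR a b v t with hf
  set lw : ℝ → ℂ := fun t => PL a b J v t with hlw
  set g : Finset (Ix (k + 1)) → ℝ → ℂ := fun S t => H26.G S (fun i => (gm a b (fx v) i : ℂ)) t
    with hg
  set z : Finset (Ix (k + 1)) → ℂ := fun S => zetaAB S (fun i => (gm a b (fx v) i : ℂ)) with hz
  set P : Finset (Finset (Ix (k + 1))) := (univ : Finset (Ix (k + 1))).powersetCard (k + 1) with hP
  set pp : (Fin (k + 1) → Bool) → ℂ := fun κ =>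
    PP (fun j => sw (κ j) (a j) (b j)) (fun j => sw (κ j) (b j) (a j)) J (fx v) with hpp
  set X : (Fin (k + 1) → Bool) → ℂ := fun κ =>
    ∫ t in T₀..T, ∏ j, if κ j then XX (a j) (b j) (t + fx v j) else 1 with hX
  have cf : Continuous f := EGL_continuous_PR a b v
  have cg : ∀ S, Continuous (g S) := fun S => EGL_continuous_G S (gm a b (fx v))
  have hz2 : ∀ κ, z (Sk κ) = zetaAB (S0 (k + 1)) (fun i => (gm (fun j => sw (κ j) (a j) (b j))
            (fun j => sw (κ j) (b j) (a j)) (fx v) i : ℂ)) := fun κ => zetaAB_Sk κ a b (fx v)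
  have hX2 : ∀ κ, ∫ t in T₀..T, g (Sk κ) t = X κ := by
    intro κ
    refine intervalIntegral.integral_congr fun t _ => ?_
    exact G_Sk κ a b (fx v) t
  have ng : ∀ S (c d : ℝ), c ≤ d → ‖∫ t in c..d, g S t‖ ≤ d - c := by
    intro S c d hcd
    have h := intervalIntegral.norm_integral_le_of_norm_le_const (a := c) (b := d) (C := 1)
      (f := g S) (fun t _ => (norm_G_real S (gm a b (fx v)) t).le)
    rwa [one_mul, abs_of_nonneg (by linarith)] at h
  -- the sum over the matched sets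
  have hsplit : ∀ F : Finset (Ix (k + 1)) → ℂ, ∑ S ∈ P, F S =
      ∑ κ : Fin (k + 1) → Bool, F (Sk κ) +
      ∑ S ∈ P.filter (fun S => ∀ κ, S ≠ Sk κ), F S := by
    intro F
    rw [← Finset.sum_filter_add_sum_filter_not P (fun S => ∀ κ, S ≠ Sk κ) F, add_comm]
    congr 1
    have himg : P.filter (fun S => ¬ ∀ κ, S ≠ Sk κ) =
        (univ : Finset (Fin (k + 1) → Bool)).image Sk := by
      ext S
      rw [Finset.mem_filter, Finset.mem_image]
      constructor
      · rintro ⟨_, h⟩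
        push Not at h
        obtain ⟨κ, hκ⟩ := h
        exact ⟨κ, Finset.mem_univ _, hκ.symm⟩
      · rintro ⟨κ, _, hκ⟩
        refine ⟨?_, ?_⟩
        · rw [hP, Finset.mem_powersetCard, ← hκ]
          exact ⟨Finset.subset_univ _, card_Sk κ⟩
        · intro h
          exact h κ hκ.symm
    rw [himg, Finset.sum_image (fun κ _ κ' _ h => Sk_injective h)]
  have e0 := E_eq hinj T
  have e1 : Er (gm a b (fx v)) T =
      (∫ t in (0:ℝ)..T, f t) - ∑ S ∈ P, (∫ t in (0:ℝ)..T, g S t) * z S := by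
    have e0' : Er (gm a b (fx v)) T =
        ∫ t in (0:ℝ)..T, (f t - ∑ S ∈ P, g S t * z S) := e0
    have cgz : ∀ S, Continuous fun t => g S t * z S := fun S => (cg S).mul continuous_const
    have cs : Continuous fun t => ∑ S ∈ P, g S t * z S := continuous_finsetSum _ fun S _ => cgz S
    rw [e0', intervalIntegral.integral_sub (cf.intervalIntegrable _ _)
      (cs.intervalIntegrable _ _), intervalIntegral.integral_finsetSum
        (fun S _ => (cgz S).intervalIntegrable _ _)]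
    congr 1
    refine Finset.sum_congr rfl fun S _ => ?_
    rw [intervalIntegral.integral_mul_const]
  have e2 : EG G (gm a b (fx v)) T = (∫ t in G ∩ Icc 0 T₀, f t) +
      (∫ t in G ∩ Icc T₀ T, f t) - ∑ S ∈ P, (∫ t in (0:ℝ)..T, g S t) * z S := by
    have e3 : EG G (gm a b (fx v)) T = Er (gm a b (fx v)) T - ∫ t in Icc 0 T \ G, f t := by
      unfold EG
      congr 1
      refine integral_congr_ae (Eventually.of_forall fun t => ?_)
      exact (PR_eq_Z a b v t).symm
    rw [e3, e1, ← EGL_split cf hG h0 hT]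
    ring
  have e3 : ∀ S, (∫ t in (0:ℝ)..T, g S t) = (∫ t in (0:ℝ)..T₀, g S t) + ∫ t in T₀..T, g S t :=
    fun S => (intervalIntegral.integral_add_adjacent_intervals
        ((cg S).intervalIntegrable _ _) ((cg S).intervalIntegrable _ _)).symm
  have e4 : ∑ S ∈ P, (∫ t in (0:ℝ)..T, g S t) * z S =
      ∑ S ∈ P, (∫ t in (0:ℝ)..T₀, g S t) * z S + (∑ κ : Fin (k + 1) → Bool, X κ * z (Sk κ) +
      ∑ S ∈ P.filter (fun S => ∀ κ, S ≠ Sk κ), (∫ t in T₀..T, g S t) * z S) := by
    have h := hsplit (fun S => (∫ t in T₀..T, g S t) * z S)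
    simp only [hX2] at h
    rw [← h, ← Finset.sum_add_distrib]
    refine Finset.sum_congr rfl fun S _ => ?_
    rw [e3 S]
    ring
  have e5 : ∑ κ : Fin (k + 1) → Bool, X κ * z (Sk κ) =
      ∑ κ : Fin (k + 1) → Bool, X κ * pp κ -
      ∑ κ : Fin (k + 1) → Bool, X κ * (pp κ - z (Sk κ)) := by
    rw [← Finset.sum_sub_distrib]
    refine Finset.sum_congr rfl fun κ _ => ?_
    ring
  have e6 : EG G (gm a b (fx v)) T =
      (∫ t in G ∩ Icc 0 T₀, f t) + ((∫ t in G ∩ Icc T₀ T, f t) - ∫ t in T₀..T, lw t) +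
      ((∫ t in T₀..T, lw t) - ∑ κ : Fin (k + 1) → Bool, X κ * pp κ) +
      ∑ κ : Fin (k + 1) → Bool, X κ * (pp κ - z (Sk κ)) -
      ∑ S ∈ P.filter (fun S => ∀ κ, S ≠ Sk κ), (∫ t in T₀..T, g S t) * z S -
      ∑ S ∈ P, (∫ t in (0:ℝ)..T₀, g S t) * z S := by
    rw [e2, e4, e5]
    ring
  have n1 : ‖∫ t in G ∩ Icc 0 T₀, f t‖ ≤ ∫ t in G ∩ Icc 0 T₀, ‖PR a b v t‖ :=
    norm_integral_le_integral_norm _
  have n4 : ‖∑ κ : Fin (k + 1) → Bool, X κ * (pp κ - z (Sk κ))‖ ≤
      T * ∑ κ : Fin (k + 1) → Bool, ‖pp κ - z (Sk κ)‖ := by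
    rw [Finset.mul_sum]
    refine (norm_sum_le _ _).trans (Finset.sum_le_sum fun κ _ => ?_)
    rw [norm_mul]
    refine mul_le_mul_of_nonneg_right ?_ (norm_nonneg _)
    rw [← hX2 κ]
    exact (ng (Sk κ) T₀ T hT).trans (by linarith)
  have n5 : ‖∑ S ∈ P.filter (fun S => ∀ κ, S ≠ Sk κ), (∫ t in T₀..T, g S t) * z S‖ ≤
      ∑ S ∈ P.filter (fun S => ∀ κ, S ≠ Sk κ), ‖∫ t in T₀..T, g S t‖ * ‖z S‖ :=
    (norm_sum_le _ _).trans (le_of_eq (Finset.sum_congr rfl fun S _ => norm_mul _ _))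
  have n6 : ‖∑ S ∈ P, (∫ t in (0:ℝ)..T₀, g S t) * z S‖ ≤ T₀ * ∑ S ∈ P, ‖z S‖ := by
    rw [Finset.mul_sum]
    refine (norm_sum_le _ _).trans (Finset.sum_le_sum fun S _ => ?_)
    rw [norm_mul]
    refine mul_le_mul_of_nonneg_right ?_ (norm_nonneg _)
    exact (ng S 0 T₀ h0).trans (by linarith)
  simp only [hz2] at e6 n4
  rw [e6]
  refine (norm_sub_le _ _).trans (add_le_add ?_ n6)
  refine (norm_sub_le _ _).trans (add_le_add ?_ n5)
  refine (norm_add_le _ _).trans (add_le_add ?_ n4)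
  refine (norm_add_le _ _).trans (add_le_add ?_ le_rfl)
  exact (norm_add_le _ _).trans (add_le_add n1 le_rfl)

/-- the truncation and the bad set -/
theorem norm_EG_univ_le {k : ℕ} (a b : Fin (k + 1) → ℝ) (v : Fin k → ℝ) {G : Set ℝ}
    (hG : MeasurableSet G) (T : ℝ) :
    ‖EG univ (gm a b (fx v)) T‖ ≤ ‖EG G (gm a b (fx v)) T‖ +
      ∫ t in Icc 0 T \ G, ‖PR a b v t‖ := by
  have e1 : EG univ (gm a b (fx v)) T = EG G (gm a b (fx v)) T +
      ∫ t in Icc 0 T \ G, PR a b v t := by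
    have e2 : ∫ t in Icc 0 T \ G, PR a b v t = ∫ t in Icc 0 T \ G,
        Z (fun j => gm a b (fx v) (Sum.inl j)) (fun j => gm a b (fx v) (Sum.inr j)) t :=
      integral_congr_ae (Eventually.of_forall fun t => PR_eq_Z a b v t)
    unfold EG
    rw [e2]
    simp
  rw [e1]
  exact (norm_add_le _ _).trans (add_le_add le_rfl (norm_integral_le_integral_norm _))

end Pool.Agent.AAS
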