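import Pool.Agent.AAS.DefsH
import Pool.Agent.AAS.CTS

set_option autoImplicit false

namespace Pool.Agent.AAS

open Complex Finset MeasureTheory Filter Topology Set
open Pool.Agent.H26

private lemma gl_norm_neg (y : ℝ) :
    ‖riemannZeta (1 / 2 - I * (y : ℂ))‖ = ‖riemannZeta (1 / 2 + I * (y : ℂ))‖ := by
  have h : (1 / 2 - I * (y : ℂ)) = (starRingEnd ℂ) (1 / 2 + I * (y : ℂ)) := by
    apply Complex.ext <;> simp
  rw [h, riemannZeta_conj, Complex.norm_conj]

private lemma gl_cont : Continuous fun y : ℝ => ‖riemannZeta (1 / 2 + I * (y : ℂ))‖ ^ 4 := by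
  refine Continuous.pow (Continuous.norm ?_) 4
  rw [continuous_iff_continuousAt]
  intro y
  have hne : (1 / 2 + I * (y : ℂ)) ≠ 1 := by
    intro h
    have := congrArg Complex.re h
    norm_num at this
  exact ContinuousAt.comp (f := fun y : ℝ => (1 / 2 + I * (y : ℂ)))
    (differentiableAt_riemannZeta hne).continuousAt (by fun_prop)

private lemma gl_shift {T H d B : ℝ} {G : Set ℝ} (hG : Gd T H d G) (hB : 0 ≤ B) (hBH : B ≤ H)
    {a : ℝ} (ha : |a| ≤ B) {t : ℝ} (ht : t ∈ G) :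
    ∫ u in (-H)..H, ‖riemannZeta (1 / 2 + I * ((t + u + a : ℝ) : ℂ))‖ ^ 4 ≤ H * T ^ d := by
  have hH : 0 ≤ H := hB.trans hBH
  have ha' := abs_le.1 ha
  have e1 : ∫ u in (-H)..H, ‖riemannZeta (1 / 2 + I * ((t + u + a : ℝ) : ℂ))‖ ^ 4 =
      ∫ u in (-H + a)..(H + a), ‖riemannZeta (1 / 2 + I * ((t + u : ℝ) : ℂ))‖ ^ 4 := by
    rw [← intervalIntegral.integral_comp_add_right
      (fun u : ℝ => ‖riemannZeta (1 / 2 + I * ((t + u : ℝ) : ℂ))‖ ^ 4) a]
    refine intervalIntegral.integral_congr fun u _ => ?_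
    simp only [add_assoc]
  rw [e1]
  have h1 := hG t ht
  have e2 : ∫ u in (-(2 * H))..(2 * H), ‖riemannZeta (1 / 2 + I * (t + u))‖ ^ 4 =
      ∫ u in (-(2 * H))..(2 * H), ‖riemannZeta (1 / 2 + I * ((t + u : ℝ) : ℂ))‖ ^ 4 := by
    refine intervalIntegral.integral_congr fun u _ => ?_
    simp only [Complex.ofReal_add]
  rw [e2] at h1
  refine le_trans ?_ h1
  have hc : Continuous fun u : ℝ => ‖riemannZeta (1 / 2 + I * ((t + u : ℝ) : ℂ))‖ ^ 4 :=
    gl_cont.comp (continuous_const.add continuous_id)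
  refine intervalIntegral.integral_mono_interval (by linarith) (by linarith) (by linarith) ?_
    (hc.intervalIntegrable _ _)
  exact Filter.Eventually.of_forall fun u => by positivity

/-- `|pf a b x|^2 ≤ (|ζ(1/2+i(x+a))|^4 + |ζ(1/2+i(x+b))|^4)/2` -/
theorem gl_pf {T H d B : ℝ} {G : Set ℝ} (hG : Gd T H d G) (hB : 0 ≤ B) (hBH : B ≤ H) {a b : ℝ}
    (ha : |a| ≤ B) (hb : |b| ≤ B) {t : ℝ} (ht : t ∈ G) :
    ∫ u in (-H)..H, ‖pf a b (t + u)‖ ^ 2 ≤ H * T ^ d := by
  have hH : 0 ≤ H := hB.trans hBH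
  have hc : Continuous fun u : ℝ => ‖pf a b (t + u)‖ ^ 2 :=
    (((continuous_pf a b).comp (continuous_const.add continuous_id)).norm).pow 2
  have hca : ∀ a : ℝ, Continuous fun u : ℝ =>
      ‖riemannZeta (1 / 2 + I * ((t + u + a : ℝ) : ℂ))‖ ^ 4 := fun a =>
    gl_cont.comp ((continuous_const.add continuous_id).add continuous_const)
  have h1 : ∀ u : ℝ, ‖pf a b (t + u)‖ ^ 2 ≤
      (1 / 2) * ‖riemannZeta (1 / 2 + I * ((t + u + a : ℝ) : ℂ))‖ ^ 4 +
      (1 / 2) * ‖riemannZeta (1 / 2 + I * ((t + u + b : ℝ) : ℂ))‖ ^ 4 := by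
    intro u
    have e1 : ‖pf a b (t + u)‖ = ‖riemannZeta (1 / 2 + I * ((t + u + a : ℝ) : ℂ))‖ *
        ‖riemannZeta (1 / 2 + I * ((t + u + b : ℝ) : ℂ))‖ := by
      rw [← gl_norm_neg (t + u + b), pf, norm_mul]
      simp only [Complex.ofReal_add]
    rw [e1]
    nlinarith [sq_nonneg (‖riemannZeta (1 / 2 + I * ((t + u + a : ℝ) : ℂ))‖ ^ 2 -
      ‖riemannZeta (1 / 2 + I * ((t + u + b : ℝ) : ℂ))‖ ^ 2)]
  calc ∫ u in (-H)..H, ‖pf a b (t + u)‖ ^ 2
      ≤ ∫ u in (-H)..H, ((1 / 2) * ‖riemannZeta (1 / 2 + I * ((t + u + a : ℝ) : ℂ))‖ ^ 4 +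
      (1 / 2) * ‖riemannZeta (1 / 2 + I * ((t + u + b : ℝ) : ℂ))‖ ^ 4) :=
        intervalIntegral.integral_mono_on (by linarith) (hc.intervalIntegrable _ _)
          (((continuous_const.mul (hca a)).add
            (continuous_const.mul (hca b))).intervalIntegrable _ _) fun u _ => h1 u
    _ = (1 / 2) * (∫ u in (-H)..H, ‖riemannZeta (1 / 2 + I * ((t + u + a : ℝ) : ℂ))‖ ^ 4) +
        (1 / 2) * (∫ u in (-H)..H, ‖riemannZeta (1 / 2 + I * ((t + u + b : ℝ) : ℂ))‖ ^ 4) := by
        rw [intervalIntegral.integral_add, intervalIntegral.integral_const_mul,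
          intervalIntegral.integral_const_mul]
        · exact (continuous_const.mul (hca a)).intervalIntegrable _ _
        · exact (continuous_const.mul (hca b)).intervalIntegrable _ _
    _ ≤ H * T ^ d := by
        have h2 := gl_shift hG hB hBH ha ht
        have h3 := gl_shift hG hB hBH hb ht
        linarith

/-- one window -/
private lemma gl_window {T H d B A : ℝ} {G : Set ℝ} (hG : Gd T H d G)
    (hT : 0 ≤ T) (hB : 0 ≤ B) (hBH : B ≤ H) {a b : ℝ} (ha : |a| ≤ B) (hb : |b| ≤ B) :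
    ∫ t in G ∩ Icc A (A + H), ‖pf a b t‖ ^ 2 ≤ H * T ^ d := by
  have hH : 0 ≤ H := hB.trans hBH
  have hc : Continuous fun u : ℝ => ‖pf a b u‖ ^ 2 := (continuous_pf a b).norm.pow 2
  rcases (G ∩ Icc A (A + H)).eq_empty_or_nonempty with he | ⟨s, hsG, hs⟩
  · rw [he]
    simp only [Measure.restrict_empty, integral_zero_measure]
    exact mul_nonneg hH (Real.rpow_nonneg hT _)
  · have h1 := gl_pf hG hB hBH ha hb hsG
    refine le_trans ?_ h1
    have e1 : ∫ u in (-H)..H, ‖pf a b (s + u)‖ ^ 2 = ∫ t in Icc (s - H) (s + H), ‖pf a b t‖ ^ 2 := by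
      rw [intervalIntegral.integral_comp_add_left (fun t => ‖pf a b t‖ ^ 2) s,
        intervalIntegral.integral_of_le (by linarith), integral_Icc_eq_integral_Ioc,
        ← sub_eq_add_neg]
    rw [e1]
    refine setIntegral_mono_set (hc.continuousOn.integrableOn_compact isCompact_Icc)
      (Filter.Eventually.of_forall fun u => by positivity) ?_
    refine LE.le.eventuallyLE ?_
    intro x hx
    exact ⟨by linarith [hx.2.1, hs.2], by linarith [hx.2.2, hs.1]⟩

/-- the segment of length `N H` -/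
private lemma gl_windows {T H d B A : ℝ} {G : Set ℝ} (hGm : MeasurableSet G) (hG : Gd T H d G)
    (hT : 0 ≤ T) (hB : 0 ≤ B) (hBH : B ≤ H) {a b : ℝ} (ha : |a| ≤ B) (hb : |b| ≤ B) (N : ℕ) :
    ∫ t in G ∩ Icc A (A + N * H), ‖pf a b t‖ ^ 2 ≤ N * (H * T ^ d) := by
  have hH : 0 ≤ H := hB.trans hBH
  have hc : Continuous fun u : ℝ => ‖pf a b u‖ ^ 2 := (continuous_pf a b).norm.pow 2
  have hi : ∀ x y : ℝ, IntegrableOn (fun u : ℝ => ‖pf a b u‖ ^ 2) (G ∩ Icc x y) := fun x y =>
    (hc.continuousOn.integrableOn_compact isCompact_Icc).mono_set inter_subset_right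
  induction N with
  | zero =>
    simp only [Nat.cast_zero, zero_mul, add_zero, Set.Icc_self]
    have : volume (G ∩ {A}) = 0 := measure_mono_null inter_subset_right (by simp)
    rw [setIntegral_measure_zero _ this]
  | succ N ih =>
    have hsub : G ∩ Icc A (A + ((N + 1 : ℕ) : ℝ) * H) ⊆
        (G ∩ Icc A (A + N * H)) ∪ (G ∩ Ioc (A + N * H) (A + N * H + H)) := by
      intro x hx
      rcases le_or_gt x (A + N * H) with h | h
      · exact Or.inl ⟨hx.1, hx.2.1, h⟩
      · refine Or.inr ⟨hx.1, h, ?_⟩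
        have := hx.2.2
        push_cast at this
        linarith
    have hio : IntegrableOn (fun u : ℝ => ‖pf a b u‖ ^ 2) (G ∩ Ioc (A + N * H) (A + N * H + H)) :=
      (hi (A + N * H) (A + N * H + H)).mono_set (inter_subset_inter_right _ Ioc_subset_Icc_self)
    have hdis : Disjoint (G ∩ Icc A (A + N * H)) (G ∩ Ioc (A + N * H) (A + N * H + H)) := by
      rw [Set.disjoint_left]
      intro x hx hy
      linarith [hx.2.2, hy.2.1]
    have hw := gl_window (A := A + N * H) hG hT hB hBH ha hb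
    have hw' : ∫ t in G ∩ Ioc (A + N * H) (A + N * H + H), ‖pf a b t‖ ^ 2 ≤ H * T ^ d := by
      refine le_trans ?_ hw
      exact setIntegral_mono_set (hi _ _) (Filter.Eventually.of_forall fun u => by positivity)
        (LE.le.eventuallyLE (inter_subset_inter_right _ Ioc_subset_Icc_self))
    calc ∫ t in G ∩ Icc A (A + ((N + 1 : ℕ) : ℝ) * H), ‖pf a b t‖ ^ 2
        ≤ ∫ t in (G ∩ Icc A (A + N * H)) ∪ (G ∩ Ioc (A + N * H) (A + N * H + H)),
            ‖pf a b t‖ ^ 2 :=
          setIntegral_mono_set ((hi _ _).union hio)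
            (Filter.Eventually.of_forall fun u => by positivity) (LE.le.eventuallyLE hsub)
      _ = (∫ t in G ∩ Icc A (A + N * H), ‖pf a b t‖ ^ 2) +
          ∫ t in G ∩ Ioc (A + N * H) (A + N * H + H), ‖pf a b t‖ ^ 2 :=
          setIntegral_union hdis (hGm.inter measurableSet_Ioc) (hi _ _) hio
      _ ≤ _ := by
          push_cast
          linarith

/-- the second moment of the product over a segment of `G`: for fixed `t` integrate over `v`
(`gl_pf`), then cover the segment by `≤ 2 + h / H` windows of length `H`, each of which contains a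
point of `G` or does not meet `G` -/
theorem gl_segment {k : ℕ} {T H d B A h : ℝ} {G : Set ℝ} (hGm : MeasurableSet G)
    (hG : Gd T H d G) (hT : 1 ≤ T) (hd : 0 ≤ d) (hB : 0 ≤ B) (hBH : B ≤ H) (hH : 0 < H)
    (hh : 0 ≤ h) {a b : Fin (k + 1) → ℝ} (ha : ∀ j, |a j| ≤ B) (hb : ∀ j, |b j| ≤ B) :
    ∫ v in box k H, ∫ t in G ∩ Icc A (A + h), ‖PR a b v t‖ ^ 2 ≤
      (2 * H) ^ k * (3 * (h + H) * T ^ (((k : ℝ) + 1) * d)) := by
  have hT0 : 0 < T := by linarith
  have hTd : 0 < T ^ d := Real.rpow_pos_of_pos hT0 d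
  set F : ℝ → (Fin k → ℝ) → ℝ := fun t v => ‖PR a b v t‖ ^ 2 with hF
  have hfxc : ∀ j : Fin (k + 1), Continuous fun v : Fin k → ℝ => fx v j := by
    intro j
    refine Fin.cases ?_ (fun i => ?_) j
    · simp only [fx, Fin.cons_zero]; exact continuous_const
    · simp only [fx, Fin.cons_succ]; exact continuous_apply i
  have hFc : Continuous (Function.uncurry F) := by
    show Continuous fun p : ℝ × (Fin k → ℝ) => ‖∏ j, pf (a j) (b j) (p.1 + fx p.2 j)‖ ^ 2
    refine (Continuous.norm ?_).pow 2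
    refine continuous_finsetProd _ fun j _ => ?_
    exact (continuous_pf (a j) (b j)).comp
      (continuous_fst.add ((hfxc j).comp continuous_snd))
  have hbc : IsCompact (box k H) := isCompact_univ_pi fun _ => isCompact_Icc
  have hFint : Integrable (Function.uncurry F)
      ((volume.restrict (G ∩ Icc A (A + h))).prod (volume.restrict (box k H))) := by
    rw [Measure.prod_restrict]
    have h2 : IntegrableOn (Function.uncurry F) (Set.Icc A (A + h) ×ˢ box k H)
        ((volume : Measure ℝ).prod (volume : Measure (Fin k → ℝ))) :=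
      hFc.continuousOn.integrableOn_compact (isCompact_Icc.prod hbc)
    exact h2.mono_set (Set.prod_mono inter_subset_right le_rfl)
  have hswap : ∫ v in box k H, ∫ t in G ∩ Icc A (A + h), F t v =
      ∫ t in G ∩ Icc A (A + h), ∫ v in box k H, F t v := by
    exact (integral_integral_swap hFint).symm
  have hin : ∀ t : ℝ, ∫ v in box k H, F t v = ‖pf (a 0) (b 0) t‖ ^ 2 *
      ∏ i : Fin k, ∫ u in (-H)..H, ‖pf (a i.succ) (b i.succ) (t + u)‖ ^ 2 := by
    intro t
    have e : ∀ v : Fin k → ℝ, F t v = ‖pf (a 0) (b 0) t‖ ^ 2 *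
        ∏ i : Fin k, ‖pf (a i.succ) (b i.succ) (t + v i)‖ ^ 2 := by
      intro v
      simp only [hF, PR, Fin.prod_univ_succ, fx, Fin.cons_zero, Fin.cons_succ, add_zero, norm_mul,
        mul_pow, norm_prod, Finset.prod_pow]
    simp only [e]
    rw [integral_const_mul]
    congr 1
    rw [box, volume_pi, Measure.restrict_pi_pi]
    rw [integral_fintype_prod_eq_prod
      (fun (i : Fin k) x => ‖pf (a i.succ) (b i.succ) (t + x)‖ ^ 2)]
    refine Finset.prod_congr rfl fun i _ => ?_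
    rw [intervalIntegral.integral_of_le (by linarith), integral_Icc_eq_integral_Ioc]
  have hnn : ∀ (j : Fin (k + 1)) (t : ℝ), 0 ≤ ∫ u in (-H)..H, ‖pf (a j) (b j) (t + u)‖ ^ 2 :=
    fun j t => intervalIntegral.integral_nonneg (by linarith) fun _ _ => by positivity
  have hbd : ∀ t ∈ G ∩ Icc A (A + h),
      ∫ v in box k H, F t v ≤ ‖pf (a 0) (b 0) t‖ ^ 2 * (H * T ^ d) ^ k := by
    intro t ht
    rw [hin]
    refine mul_le_mul_of_nonneg_left ?_ (by positivity)
    calc ∏ i : Fin k, ∫ u in (-H)..H, ‖pf (a i.succ) (b i.succ) (t + u)‖ ^ 2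
        ≤ ∏ _i : Fin k, (H * T ^ d) := Finset.prod_le_prod (fun i _ => hnn _ _) fun i _ =>
          gl_pf hG hB hBH (ha _) (hb _) ht.1
      _ = (H * T ^ d) ^ k := by simp
  have hcF : Continuous fun t : ℝ => ∫ v in box k H, F t v :=
    continuous_parametric_integral_of_continuous hFc hbc
  have hp0 : Continuous fun t : ℝ => ‖pf (a 0) (b 0) t‖ ^ 2 := (continuous_pf _ _).norm.pow 2
  have hm : MeasurableSet (G ∩ Icc A (A + h)) := hGm.inter measurableSet_Icc
  have hii : ∀ f : ℝ → ℝ, Continuous f → ∀ x y : ℝ, IntegrableOn f (G ∩ Icc x y) :=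
    fun f hf x y => (hf.continuousOn.integrableOn_compact isCompact_Icc).mono_set
      inter_subset_right
  set N : ℕ := ⌈h / H⌉₊ with hN
  have hN1 : h ≤ N * H := by
    have := Nat.le_ceil (h / H)
    rwa [div_le_iff₀ hH] at this
  have hN2 : N * H ≤ h + H := by
    have h1 : (N : ℝ) < h / H + 1 := Nat.ceil_lt_add_one (by positivity)
    have h2 : (N : ℝ) * H < (h / H + 1) * H := mul_lt_mul_of_pos_right h1 hH
    have h3 : (h / H + 1) * H = h + H := by field_simp
    linarith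
  have h5 : ∫ t in G ∩ Icc A (A + h), ‖pf (a 0) (b 0) t‖ ^ 2 ≤ (h + H) * T ^ d := by
    calc ∫ t in G ∩ Icc A (A + h), ‖pf (a 0) (b 0) t‖ ^ 2
        ≤ ∫ t in G ∩ Icc A (A + N * H), ‖pf (a 0) (b 0) t‖ ^ 2 :=
          setIntegral_mono_set (hii _ hp0 _ _)
            (Filter.Eventually.of_forall fun u => by positivity)
            (LE.le.eventuallyLE (inter_subset_inter_right _
              (Icc_subset_Icc le_rfl (by linarith))))
      _ ≤ N * (H * T ^ d) := gl_windows hGm hG hT0.le hB hBH (ha 0) (hb 0) N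
      _ = (N * H) * T ^ d := by ring
      _ ≤ (h + H) * T ^ d := mul_le_mul_of_nonneg_right hN2 hTd.le
  show ∫ v in box k H, ∫ t in G ∩ Icc A (A + h), F t v ≤ _
  rw [hswap]
  have h6 : ∫ t in G ∩ Icc A (A + h), ∫ v in box k H, F t v ≤
      ∫ t in G ∩ Icc A (A + h), ‖pf (a 0) (b 0) t‖ ^ 2 * (H * T ^ d) ^ k :=
    setIntegral_mono_on (hii _ hcF _ _) (hii _ (hp0.mul continuous_const) _ _) hm hbd
  refine h6.trans ?_
  rw [integral_mul_const]
  have h7 : (∫ t in G ∩ Icc A (A + h), ‖pf (a 0) (b 0) t‖ ^ 2) * (H * T ^ d) ^ k ≤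
      ((h + H) * T ^ d) * (H * T ^ d) ^ k := mul_le_mul_of_nonneg_right h5 (by positivity)
  refine h7.trans ?_
  have e3 : T ^ (((k : ℝ) + 1) * d) = (T ^ d) ^ (k + 1) := by
    rw [← Real.rpow_natCast, ← Real.rpow_mul hT0.le]
    congr 1
    push_cast
    ring
  rw [e3]
  have e4 : ((h + H) * T ^ d) * (H * T ^ d) ^ k = H ^ k * ((h + H) * (T ^ d) ^ (k + 1)) := by
    rw [mul_pow, pow_succ]
    ring
  rw [e4]
  have h8 : H ^ k ≤ (2 * H) ^ k := pow_le_pow_left₀ hH.le (by linarith) k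
  have h9 : 0 ≤ (h + H) * (T ^ d) ^ (k + 1) := by positivity
  calc H ^ k * ((h + H) * (T ^ d) ^ (k + 1))
      ≤ (2 * H) ^ k * ((h + H) * (T ^ d) ^ (k + 1)) := mul_le_mul_of_nonneg_right h8 h9
    _ ≤ (2 * H) ^ k * (3 * (h + H) * (T ^ d) ^ (k + 1)) := by
        refine mul_le_mul_of_nonneg_left ?_ (by positivity)
        nlinarith

end Pool.Agent.AAS
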