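import Pool.Agent.AAS.PPA

set_option autoImplicit false

namespace Pool.Agent.AAS

open Complex Finset MeasureTheory Filter Topology Set
open Pool.Agent.H26

private lemma ppg_poly (n : ℕ) (y : ℝ) :
    (1 + |y|) ^ n ≤ Real.exp (n ^ 2) * Real.exp (y ^ 2 / 4) := by
  rw [← Real.exp_add]
  have h1 : 1 + |y| ≤ Real.exp |y| := by
    have := Real.add_one_le_exp |y|
    linarith
  calc (1 + |y|) ^ n ≤ (Real.exp |y|) ^ n := by gcongr
    _ = Real.exp (n * |y|) := by rw [← Real.exp_nat_mul]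
    _ ≤ _ := by
      apply Real.exp_le_exp.2
      have : y ^ 2 = |y| ^ 2 := (sq_abs y).symm
      rw [this]
      nlinarith [sq_nonneg ((n : ℝ) - |y| / 2)]

private lemma ppg_dl_le {k : ℕ} {a b u : Fin k → ℝ} {B H : ℝ} (ha : ∀ j, |a j| ≤ B)
    (hb : ∀ j, |b j| ≤ B) (hu : u ∈ box k H) (j l : Fin k) :
    |dl a b u j l| ≤ 2 * B + 2 * H := by
  have hui : ∀ j, |u j| ≤ H := fun j => abs_le.2 (hu j (Set.mem_univ j))
  rw [dl]
  refine (abs_add_le _ _).trans ?_
  have h1 := abs_sub (a j) (b l)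
  have h2 := abs_sub (u j) (u l)
  linarith [ha j, hb l, hui j, hui l]

private lemma ppg_low_mem {J : ℕ} {p : ℕ × ℕ} (hp : p ∈ low J) : 1 ≤ p.1 * p.2 :=
  (Finset.mem_filter.1 hp).2.2.1

private lemma ppg_SJ_le {k : ℕ} (a b u : Fin k → ℝ) (J : ℕ) {s : ℂ} (hs : -1 ≤ s.re) :
    ‖SJ a b J u s‖ ≤ (Qt k J).card := by
  unfold SJ
  refine (norm_sum_le_of_le (Qt k J) (n := fun _ => (1:ℝ)) fun p hp => ?_).trans (by simp)
  rw [Qt, Finset.mem_filter, Fintype.mem_piFinset] at hp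
  have h1 : ∀ j, 1 ≤ (p j).1 * (p j).2 := fun j => ppg_low_mem (hp.1 j)
  rw [norm_tq a b u s h1 hp.2]
  have h2 : 1 ≤ ∏ j, (p j).1 := Nat.one_le_iff_ne_zero.2
    (Finset.prod_ne_zero_iff.2 fun j _ => by
      intro h0
      have := h1 j
      rw [h0, zero_mul] at this
      omega)
  exact Real.rpow_le_one_of_one_le_of_nonpos (by exact_mod_cast h2) (by linarith)

private lemma ppg_phi_growth {k : ℕ} {a b : Fin k → ℝ} {B σ H : ℝ} (hB : 0 ≤ B)
    (ha : ∀ j, |a j| ≤ B) (hb : ∀ j, |b j| ≤ B) (hσ : 0 < σ) (hσ1 : σ ≤ 1 / 8) (hH : 0 ≤ H) :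
    ∃ K : ℝ, 0 ≤ K ∧ ∀ u ∈ box k H, ∀ y : ℝ,
      ‖Phi a b u (-σ + y * I)‖ ≤ K * (1 + |y|) ^ (k * k) := by
  set M : ℝ := σ⁻¹ + 1 + 8 / 7 * (2 + (2 * B + 2 * H)) with hM
  have hM0 : 0 ≤ M := by positivity
  have hBF : 0 ≤ BF (Fintype.card (Ix k)) + 1 := by
    have h0 : (0 : Ix k → ℂ) ∈ tube (Ix k) := by
      have := gs_mem_tube (k := k) 0 0 0 (s := 0) (by norm_num)
      have e : gs (k := k) 0 0 0 0 = 0 := by
        funext i
        rcases i with j | j <;> simp [gs]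
      rwa [e] at this
    exact (norm_nonneg _).trans (norm_eulerF_le (S := S0 k) h0)
  refine ⟨(BF (Fintype.card (Ix k)) + 1) * M ^ (k * k), by positivity, fun u hu y => ?_⟩
  have hsre : ((-σ : ℂ) + y * I).re = -σ := by simp
  rw [Phi_eq_prod, norm_mul, mul_assoc, ← mul_pow]
  refine mul_le_mul (norm_eulerF_le (gs_mem_tube a b u (by
    rw [hsre, abs_neg, abs_of_pos hσ]; linarith))) ?_ (norm_nonneg _) hBF
  rw [norm_prod]
  have hz : ∀ j l : Fin k, ‖riemannZeta (1 + (-σ + y * I) + I * dl a b u j l)‖ ≤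
      M * (1 + |y|) := by
    intro j l
    have hre : (1 + (-σ + y * I) + I * dl a b u j l : ℂ).re = 1 - σ := by
      simp; ring
    have hne : (1 + (-σ + y * I) + I * dl a b u j l : ℂ) ≠ 1 := by
      intro h
      have := congrArg Complex.re h
      rw [hre] at this
      simp at this
      linarith
    refine (norm_riemannZeta_le (by rw [hre]; linarith) hne).trans ?_
    have h1 : σ ≤ ‖(1 + (-σ + y * I) + I * dl a b u j l : ℂ) - 1‖ := by
      refine le_trans ?_ (Complex.abs_re_le_norm _)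
      rw [Complex.sub_re, hre, Complex.one_re]
      rw [show 1 - σ - 1 = -σ by ring, abs_neg]
      exact le_abs_self σ
    have h2 : ‖(1 + (-σ + y * I) + I * dl a b u j l : ℂ)‖ ≤
        2 + |y| + (2 * B + 2 * H) := by
      refine (norm_add_le _ _).trans ?_
      refine (add_le_add (norm_add_le _ _) le_rfl).trans ?_
      refine (add_le_add (add_le_add le_rfl (norm_add_le _ _)) le_rfl).trans ?_
      rw [norm_mul, norm_mul, Complex.norm_I, norm_neg, Complex.norm_real, Complex.norm_real,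
        Complex.norm_real, norm_one, Real.norm_eq_abs, Real.norm_eq_abs, Real.norm_eq_abs,
        abs_of_pos hσ, mul_one, one_mul]
      have := ppg_dl_le ha hb hu j l
      linarith
    rw [hre]
    have h3 : ‖(1 + (-σ + y * I) + I * dl a b u j l : ℂ) - 1‖⁻¹ ≤ σ⁻¹ := by
      gcongr
    have h4 : ‖(1 + (-σ + y * I) + I * dl a b u j l : ℂ)‖ / (1 - σ) ≤
        8 / 7 * (2 + |y| + (2 * B + 2 * H)) := by
      rw [div_le_iff₀ (by linarith)]
      have h5 : 0 ≤ 2 + |y| + (2 * B + 2 * H) := by positivity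
      nlinarith
    have h6 := abs_nonneg y
    have h7 : 0 < σ⁻¹ := by positivity
    calc _ ≤ σ⁻¹ + 1 + 8 / 7 * (2 + |y| + (2 * B + 2 * H)) := by linarith
      _ ≤ M * (1 + |y|) := by
        rw [hM]
        nlinarith [mul_nonneg h7.le h6, mul_nonneg (by linarith : 0 ≤ 2 * B + 2 * H) h6]
  calc ∏ j, ‖∏ l, riemannZeta (1 + (-σ + y * I) + I * dl a b u j l)‖
      ≤ ∏ _j : Fin k, (M * (1 + |y|)) ^ k := by
        refine Finset.prod_le_prod (fun _ _ => norm_nonneg _) fun j _ => ?_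
        rw [norm_prod]
        calc ∏ l, ‖riemannZeta (1 + (-σ + y * I) + I * dl a b u j l)‖
            ≤ ∏ _l : Fin k, M * (1 + |y|) :=
              Finset.prod_le_prod (fun _ _ => norm_nonneg _) fun l _ => hz j l
          _ = _ := by simp
    _ = (M * (1 + |y|)) ^ (k * k) := by
        rw [Finset.prod_const, Finset.card_univ, Fintype.card_fin, ← pow_mul]

private lemma ppg_gauss {c : ℝ} (hc : 0 < c) :
    Integrable fun y : ℝ => Real.exp (-(y ^ 2) / c) := by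
  have := integrable_exp_neg_mul_sq (b := c⁻¹) (by positivity)
  refine this.congr (Eventually.of_forall fun y => ?_)
  simp only
  congr 1
  field_simp

private lemma ppg_bound {k : ℕ} {a b : Fin k → ℝ} {B σ H : ℝ} (hB : 0 ≤ B)
    (ha : ∀ j, |a j| ≤ B) (hb : ∀ j, |b j| ≤ B) (hσ : 0 < σ) (hσ1 : σ ≤ 1 / 8) (hH : 0 ≤ H)
    (J : ℕ) : ∃ K : ℝ, 0 ≤ K ∧ ∀ u ∈ box k H, ∀ y : ℝ,
      Real.exp (-(y ^ 2) / 2) * (‖Phi a b u (-σ + y * I)‖ + ‖SJ a b J u (-σ + y * I)‖) ≤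
        K * Real.exp (-(y ^ 2) / 4) := by
  obtain ⟨K, hK, hK'⟩ := ppg_phi_growth hB ha hb hσ hσ1 hH
  refine ⟨K * Real.exp (((k * k : ℕ) : ℝ) ^ 2) + (Qt k J).card, by positivity,
    fun u hu y => ?_⟩
  have h1 := hK' u hu y
  have h2 : ‖SJ a b J u (-σ + y * I)‖ ≤ (Qt k J).card :=
    ppg_SJ_le a b u J (by simp; linarith)
  have h3 := ppg_poly (k * k) y
  have h4 : Real.exp (-(y ^ 2) / 2) * Real.exp (y ^ 2 / 4) = Real.exp (-(y ^ 2) / 4) := by
    rw [← Real.exp_add]; congr 1; ring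
  have h5 : Real.exp (-(y ^ 2) / 2) ≤ Real.exp (-(y ^ 2) / 4) :=
    Real.exp_le_exp.2 (by nlinarith [sq_nonneg y])
  calc _ ≤ Real.exp (-(y ^ 2) / 2) * (K * (Real.exp (((k * k : ℕ) : ℝ) ^ 2) *
        Real.exp (y ^ 2 / 4)) + (Qt k J).card) := by
        gcongr
        exact h1.trans (by gcongr)
    _ = K * Real.exp (((k * k : ℕ) : ℝ) ^ 2) * (Real.exp (-(y ^ 2) / 2) *
        Real.exp (y ^ 2 / 4)) + (Qt k J).card * Real.exp (-(y ^ 2) / 2) := by ring
    _ ≤ _ := by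
        rw [h4, add_mul]
        gcongr

/-- the pointwise bound: the residue at `0` of `gF(s) λ^s / s` with `λ = 2^(J/4)` and the lines
`1/8` and `-σ` -/

private lemma ppg_volume (k : ℕ) {H : ℝ} (hH : 0 ≤ H) :
    (volume (box k H)).toReal = (2 * H) ^ k := by
  rw [box, volume_pi_pi]
  simp only [Real.volume_Icc]
  rw [Finset.prod_const, Finset.card_univ, Fintype.card_fin, ENNReal.toReal_pow,
    ENNReal.toReal_ofReal (by linarith)]
  congr 1
  ring

private lemma ppg_two_pow {T y e : ℝ} {J : ℕ} (hT : 1 ≤ T) (he : 0 ≤ e) (he1 : e ≤ 1)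
    (hJ : T ^ y / 2 ≤ 2 ^ J) : (2:ℝ) ^ (-(e * J)) ≤ 2 * T ^ (-(e * y)) := by
  have hT0 : 0 < T := by linarith
  have h1 : (2:ℝ) ^ (-(e * J)) = ((2:ℝ) ^ J) ^ (-e) := by
    rw [← Real.rpow_natCast, ← Real.rpow_mul (by norm_num)]
    congr 1; ring
  have h2 : T ^ (-(e * y)) = (T ^ y) ^ (-e) := by
    rw [← Real.rpow_mul hT0.le]
    congr 1; ring
  rw [h1, h2]
  have h3 : 0 < T ^ y := Real.rpow_pos_of_pos hT0 y
  calc ((2:ℝ) ^ J) ^ (-e) ≤ (T ^ y / 2) ^ (-e) :=
        Real.rpow_le_rpow_of_nonpos (by positivity) hJ (by linarith)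
    _ = (T ^ y) ^ (-e) / 2 ^ (-e) := Real.div_rpow h3.le (by norm_num) _
    _ = 2 ^ e * (T ^ y) ^ (-e) := by
        rw [Real.rpow_neg (by norm_num : (0:ℝ) ≤ 2), div_inv_eq_mul, mul_comm]
    _ ≤ 2 * (T ^ y) ^ (-e) := by
        gcongr
        calc (2:ℝ) ^ e ≤ 2 ^ (1:ℝ) := Real.rpow_le_rpow_of_exponent_le (by norm_num) he1
          _ = 2 := Real.rpow_one 2

private lemma ppg_measurable (k : ℕ) (H R : ℝ) : MeasurableSet (box k H ∩ U1 k R) := by
  have h1 : IsClosed (box k H) := isClosed_set_pi fun _ _ => isClosed_Icc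
  have h2 : IsClosed (U1 k R) := by
    have : U1 k R = ⋂ j : Fin k, ⋂ l : Fin k, {u | j ≠ l → R ≤ |u j - u l|} := by
      ext u
      simp [U1]
    rw [this]
    refine isClosed_iInter fun j => isClosed_iInter fun l => ?_
    by_cases hjl : j = l
    · simp [hjl]
    · simp only [ne_eq, hjl, not_false_eq_true, forall_const]
      exact isClosed_le continuous_const (by fun_prop)
  exact (h1.inter h2).measurableSet

/-- `exists_PP_approx` with `T ^ w₀ ≤ H` for an arbitrary `w₀ > 0`: only the condition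
`y (8 k + 1) ≤ w₀` on `y₀` changes -/
theorem exists_PP_approx_gen (k : ℕ) (w₀ : ℝ) (hw₀ : 0 < w₀) : ∃ y₀ : ℝ, 0 < y₀ ∧ y₀ ≤ 1 / 40 ∧
    ∀ y : ℝ, 0 < y → y ≤ y₀ →
    ∃ c : ℝ, 0 < c ∧ ∀ B ε : ℝ, 0 ≤ B → 0 < ε → ε ≤ 1 → ∃ C : ℝ, 1 ≤ C ∧
    ∀ T H : ℝ, 1 ≤ T → T ^ w₀ ≤ H → H ≤ T →
    ∀ J : ℕ, T ^ y / 2 ≤ 2 ^ J → (2:ℝ) ^ J ≤ T ^ y →
    ∀ a b : Fin k → ℝ, (∀ j, |a j| ≤ B) → (∀ j, |b j| ≤ B) → (∀ j, T ^ (-ε) ≤ |a j - b j|) →
    ∫ u in box k H ∩ U1 k (2 * B + 1),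
      ‖PP a b J u - zetaAB (S0 k) (fun i => (gm a b u i : ℂ))‖ ≤
      (2 * H) ^ k * (C * T ^ (-c + (k + 1) * ε)) := by
  obtain ⟨σ, hσ, hσ1, hPhi⟩ := exists_Phi_mean k
  obtain ⟨C₅, hC₅, hSJ⟩ := exists_SJ_mean k
  have hk0 : (0:ℝ) ≤ k := Nat.cast_nonneg k
  refine ⟨min (1 / (40 * (k + 1))) (w₀ / (10 * (k + 1))), lt_min (by positivity) (by positivity),
    (min_le_left _ _).trans ?_, fun y hy hy00 => ?_⟩
  · apply one_div_le_one_div_of_le (by norm_num)
    linarith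
  have hy0 : y ≤ 1 / (40 * (k + 1)) := hy00.trans (min_le_left _ _)
  have hyw : y ≤ w₀ / (10 * (k + 1)) := hy00.trans (min_le_right _ _)
  have hy1 : y ≤ 1 := hy0.trans (by
    rw [div_le_one (by positivity)]; linarith)
  have hσy : 0 < σ * y := mul_pos hσ hy
  refine ⟨min (y / 96) (σ * y / 8), lt_min (by positivity) (by positivity),
    fun B ε hB hε hε1 => ?_⟩
  set c : ℝ := min (y / 96) (σ * y / 8) with hc
  obtain ⟨C₃, hC₃, hpt⟩ := exists_pointwise k B σ hB hσ hσ1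
  have hσy1 : σ * y / 8 ≤ 1 := by nlinarith
  obtain ⟨C₄, hC₄, hPm⟩ := hPhi B (σ * y / 8) hB (by positivity) hσy1
  set G₀ : ℝ := ∫ t : ℝ, Real.exp (-(t ^ 2) / 2) with hG₀
  have hG₀0 : 0 ≤ G₀ := integral_nonneg fun _ => (Real.exp_pos _).le
  set G₂ : ℝ := ∫ t : ℝ, Real.exp (-(t ^ 2) / 2) * (C₄ * (1 + |t|) ^ (k + 2)) with hG₂
  have hG₂0 : 0 ≤ G₂ := integral_nonneg fun _ => by positivity
  have hG₂i : Integrable fun t : ℝ => Real.exp (-(t ^ 2) / 2) * (C₄ * (1 + |t|) ^ (k + 2)) := by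
    refine ((ppg_gauss (c := 4) (by norm_num)).const_mul
      (C₄ * Real.exp (((k + 2 : ℕ) : ℝ) ^ 2))).mono' (by fun_prop)
      (Eventually.of_forall fun t => ?_)
    rw [Real.norm_eq_abs, abs_of_nonneg (by positivity)]
    have h3 := ppg_poly (k + 2) t
    have h4 : Real.exp (-(t ^ 2) / 2) * Real.exp (t ^ 2 / 4) = Real.exp (-(t ^ 2) / 4) := by
      rw [← Real.exp_add]; congr 1; ring
    calc _ ≤ Real.exp (-(t ^ 2) / 2) * (C₄ * (Real.exp (((k + 2 : ℕ) : ℝ) ^ 2) *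
          Real.exp (t ^ 2 / 4))) := by gcongr
      _ = C₄ * Real.exp (((k + 2 : ℕ) : ℝ) ^ 2) * (Real.exp (-(t ^ 2) / 2) *
          Real.exp (t ^ 2 / 4)) := by ring
      _ = _ := by rw [h4]
  refine ⟨1 + C₃ * (2 + 2 * (G₂ + C₅ * G₀)), by
    have : 0 ≤ C₃ * (2 + 2 * (G₂ + C₅ * G₀)) := by positivity
    linarith, ?_⟩
  intro T H hT hTH hHT J hJ1 hJ2 a b ha hb hab
  have hT0 : 0 < T := by linarith
  have hH1 : 1 ≤ H := le_trans (Real.one_le_rpow hT hw₀.le) hTH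
  have hH0 : 0 < H := by linarith
  set r : ℝ := T ^ (-ε) with hr
  have hr0 : 0 < r := Real.rpow_pos_of_pos hT0 _
  have hr1 : r ≤ 1 := Real.rpow_le_one_of_one_le_of_nonpos hT (by linarith)
  have hrk : r⁻¹ ^ k = T ^ (k * ε) := by
    rw [hr, Real.rpow_neg hT0.le, inv_inv, ← Real.rpow_natCast, ← Real.rpow_mul hT0.le]
    congr 1; ring
  have hJ3 : (2:ℝ) ^ ((8 * k + 1) * J) ≤ H := by
    calc (2:ℝ) ^ ((8 * k + 1) * J) = ((2:ℝ) ^ J) ^ (8 * k + 1) := by
          rw [← pow_mul]; congr 1; ring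
      _ ≤ (T ^ y) ^ (8 * k + 1) := by gcongr
      _ = T ^ (y * (8 * k + 1)) := by
          rw [← Real.rpow_natCast, ← Real.rpow_mul hT0.le]
          push_cast
          rfl
      _ ≤ T ^ w₀ := by
          apply Real.rpow_le_rpow_of_exponent_le hT
          have h5 : y * (10 * (k + 1)) ≤ w₀ := by
            rwa [le_div_iff₀ (by positivity)] at hyw
          nlinarith [mul_nonneg hy.le hk0]
      _ ≤ H := hTH
  set F : (Fin k → ℝ) → ℝ → ℝ := fun u t => Real.exp (-(t ^ 2) / 2) *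
    (‖Phi a b u (-σ + t * I)‖ + ‖SJ a b J u (-σ + t * I)‖) with hF
  have hF0 : ∀ u t, 0 ≤ F u t := fun u t => by positivity
  obtain ⟨K, hK, hbd⟩ := ppg_bound hB ha hb hσ hσ1 hH0.le J
  have hcP : Continuous fun p : (Fin k → ℝ) × ℝ => Phi a b p.1 (-σ + p.2 * I) := by
    have := continuous_Phi_line k a b (σ := -σ) (by rw [abs_neg, abs_of_pos hσ]; exact hσ)
        (by rw [abs_neg, abs_of_pos hσ]; exact hσ1)
    refine this.congr fun p => ?_
    push_cast
    rfl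
  have hcS : Continuous fun p : (Fin k → ℝ) × ℝ => SJ a b J p.1 (-σ + p.2 * I) :=
    (continuous_SJ k a b J).comp (f := fun p : (Fin k → ℝ) × ℝ => (p.1, (-σ + p.2 * I : ℂ)))
      (by fun_prop)
  have hcF : Continuous (Function.uncurry F) := by
    have c3 : Continuous fun p : (Fin k → ℝ) × ℝ => Real.exp (-(p.2 ^ 2) / 2) := by fun_prop
    exact c3.mul (hcP.norm.add hcS.norm)
  have hbox : IsCompact (box k H) := isCompact_univ_pi fun _ => isCompact_Icc
  have hboxm : MeasurableSet (box k H) := hbox.isClosed.measurableSet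
  have hboxv : volume (box k H) < ⊤ := hbox.measure_lt_top
  have : IsFiniteMeasure (volume.restrict (box k H)) := ⟨by
    rw [Measure.restrict_apply_univ]; exact hboxv⟩
  have hint : Integrable (Function.uncurry F) ((volume.restrict (box k H)).prod volume) := by
    have hg : Integrable (fun z : (Fin k → ℝ) × ℝ => (1:ℝ) * (K * Real.exp (-(z.2 ^ 2) / 4)))
        ((volume.restrict (box k H)).prod volume) :=
      (integrable_const (1:ℝ)).mul_prod ((ppg_gauss (c := 4) (by norm_num)).const_mul K)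
    refine hg.mono' hcF.aestronglyMeasurable ?_
    have hae : ∀ᵐ z ∂((volume.restrict (box k H)).prod (volume : Measure ℝ)),
        z.1 ∈ box k H :=
      Measure.quasiMeasurePreserving_fst.ae (ae_restrict_mem hboxm)
    filter_upwards [hae] with z hz
    have hz0 : 0 ≤ Function.uncurry F z := hF0 z.1 z.2
    rw [Real.norm_eq_abs, abs_of_nonneg hz0, one_mul]
    exact hbd z.1 hz z.2
  -- the double integral
  have hdouble : ∫ u in box k H, ∫ t, F u t ≤
      (2 * H) ^ k * (H ^ (σ * y / 8) * G₂ + C₅ * G₀) := by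
    rw [integral_integral_swap hint]
    have hstep : ∀ t : ℝ, ∫ u in box k H, F u t ≤ (2 * H) ^ k * (H ^ (σ * y / 8) *
        (Real.exp (-(t ^ 2) / 2) * (C₄ * (1 + |t|) ^ (k + 2))) +
          C₅ * Real.exp (-(t ^ 2) / 2)) := by
      intro t
      have i1 : IntegrableOn (fun u => ‖Phi a b u (-σ + t * I)‖) (box k H) :=
        (hcP.comp (f := fun u : Fin k → ℝ => (u, t))
          (by fun_prop)).norm.continuousOn.integrableOn_compact hbox
      have i2 : IntegrableOn (fun u => ‖SJ a b J u (-σ + t * I)‖) (box k H) :=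
        (hcS.comp (f := fun u : Fin k → ℝ => (u, t))
          (by fun_prop)).norm.continuousOn.integrableOn_compact hbox
      have e1 : ∫ u in box k H, F u t = Real.exp (-(t ^ 2) / 2) *
          ((∫ u in box k H, ‖Phi a b u (-σ + t * I)‖) +
            ∫ u in box k H, ‖SJ a b J u (-σ + t * I)‖) := by
        rw [← integral_add i1 i2, ← integral_const_mul]
      rw [e1]
      have e2 := hPm H hH1 a b ha hb t
      have e3 := hSJ a b J σ t H hσ.le hσ1 hJ3
      calc _ ≤ Real.exp (-(t ^ 2) / 2) * ((2 * H) ^ k * (C₄ * (1 + |t|) ^ (k + 2) *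
            H ^ (σ * y / 8)) + C₅ * (2 * H) ^ k) := by gcongr
        _ = _ := by ring
    have hI1 : Integrable fun t : ℝ => (2 * H) ^ k * (H ^ (σ * y / 8) *
        (Real.exp (-(t ^ 2) / 2) * (C₄ * (1 + |t|) ^ (k + 2))) +
          C₅ * Real.exp (-(t ^ 2) / 2)) :=
      ((hG₂i.const_mul _).add ((ppg_gauss (c := 2) (by norm_num)).const_mul _)).const_mul _
    refine (integral_mono_of_nonneg (Eventually.of_forall fun t =>
      integral_nonneg fun u => hF0 u t) hI1 (Eventually.of_forall hstep)).trans (le_of_eq ?_)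
    rw [integral_const_mul, integral_add (hG₂i.const_mul _)
      ((ppg_gauss (c := 2) (by norm_num)).const_mul _), integral_const_mul, integral_const_mul]
  -- the pointwise bound
  have hPhiInt : Integrable (fun u => ∫ t, F u t) (volume.restrict (box k H)) :=
    hint.integral_prod_left
  set g : (Fin k → ℝ) → ℝ := fun u => C₃ * r⁻¹ ^ k * ((2:ℝ) ^ (-(J:ℝ) / 96) +
    (2:ℝ) ^ (-(σ * J) / 4) * ∫ t, F u t) with hg
  have hg0 : ∀ u, 0 ≤ g u := fun u => by
    have : 0 ≤ ∫ t, F u t := integral_nonneg fun t => hF0 u t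
    positivity
  have hgi : Integrable g (volume.restrict (box k H)) :=
    ((integrable_const _).add (hPhiInt.const_mul _)).const_mul _
  have hm := ppg_measurable k H (2 * B + 1)
  have hgi' : IntegrableOn g (box k H ∩ U1 k (2 * B + 1)) :=
    IntegrableOn.mono_set hgi Set.inter_subset_left
  have h1 : ∫ u in box k H ∩ U1 k (2 * B + 1),
      ‖PP a b J u - zetaAB (S0 k) (fun i => (gm a b u i : ℂ))‖ ≤
      ∫ u in box k H ∩ U1 k (2 * B + 1), g u := by
    refine integral_mono_of_nonneg (Eventually.of_forall fun _ => norm_nonneg _) hgi' ?_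
    refine (ae_restrict_iff' hm).2 (Eventually.of_forall fun u hu => ?_)
    exact hpt r hr0 hr1 a b u ha hb hab hu.2 J
  have h2 : ∫ u in box k H ∩ U1 k (2 * B + 1), g u ≤ ∫ u in box k H, g u :=
    setIntegral_mono_set hgi (Eventually.of_forall hg0) (HasSubset.Subset.eventuallyLE
      Set.inter_subset_left)
  have h3 : ∫ u in box k H, g u = C₃ * r⁻¹ ^ k * ((2:ℝ) ^ (-(J:ℝ) / 96) * (2 * H) ^ k +
      (2:ℝ) ^ (-(σ * J) / 4) * ∫ u in box k H, ∫ t, F u t) := by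
    rw [hg, integral_const_mul, integral_add (integrable_const _) (hPhiInt.const_mul _),
      integral_const_mul, integral_const]
    congr 2
    rw [smul_eq_mul, mul_comm, measureReal_restrict_apply_univ]
    congr 1
    exact ppg_volume k hH0.le
  refine h1.trans (h2.trans ?_)
  rw [h3, hrk]
  have hT2 : (2:ℝ) ^ (-(J:ℝ) / 96) ≤ 2 * T ^ (-c) := by
    have e1 := ppg_two_pow (e := 1 / 96) hT (by norm_num) (by norm_num) hJ1
    have e2 : -((1:ℝ) / 96 * J) = -(J:ℝ) / 96 := by ring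
    rw [e2] at e1
    refine e1.trans ?_
    have h5 : T ^ (-(1 / 96 * y)) ≤ T ^ (-c) := by
      apply Real.rpow_le_rpow_of_exponent_le hT
      have := min_le_left (y / 96) (σ * y / 8)
      rw [← hc] at this
      linarith
    linarith
  have hT3 : (2:ℝ) ^ (-(σ * J) / 4) ≤ 2 * T ^ (-(σ / 4 * y)) := by
    have e1 := ppg_two_pow (e := σ / 4) hT (by positivity) (by linarith) hJ1
    have e2 : -(σ / 4 * J) = -(σ * J) / 4 := by ring
    rwa [e2] at e1
  have hH2 : H ^ (σ * y / 8) ≤ T ^ (σ * y / 8) := by gcongr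
  have hT4 : T ^ (-(σ / 4 * y)) * T ^ (σ * y / 8) ≤ T ^ (-c) := by
    rw [← Real.rpow_add hT0]
    apply Real.rpow_le_rpow_of_exponent_le hT
    have := min_le_right (y / 96) (σ * y / 8)
    rw [← hc] at this
    linarith
  have hT5 : (1:ℝ) ≤ T ^ (σ * y / 8) := Real.one_le_rpow hT (by positivity)
  have hT6 : (2:ℝ) ^ (-(σ * J) / 4) * ∫ u in box k H, ∫ t, F u t ≤
      (2 * H) ^ k * (2 * (G₂ + C₅ * G₀) * T ^ (-c)) := by
    have q0 : 0 ≤ (2 * H) ^ k := by positivity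
    calc _ ≤ (2 * T ^ (-(σ / 4 * y))) * ((2 * H) ^ k * (H ^ (σ * y / 8) * G₂ + C₅ * G₀)) := by
          gcongr
      _ ≤ (2 * T ^ (-(σ / 4 * y))) * ((2 * H) ^ k * (T ^ (σ * y / 8) * G₂ +
            T ^ (σ * y / 8) * (C₅ * G₀))) := by
          have : C₅ * G₀ ≤ T ^ (σ * y / 8) * (C₅ * G₀) :=
            le_mul_of_one_le_left (by positivity) hT5
          gcongr
      _ = (2 * H) ^ k * (2 * (G₂ + C₅ * G₀) * (T ^ (-(σ / 4 * y)) * T ^ (σ * y / 8))) := by
          ring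
      _ ≤ _ := by gcongr
  have hT7 : T ^ (k * ε) * T ^ (-c) ≤ T ^ (-c + (k + 1) * ε) := by
    rw [← Real.rpow_add hT0]
    apply Real.rpow_le_rpow_of_exponent_le hT
    linarith
  have hpos : 0 ≤ C₃ * (2 + 2 * (G₂ + C₅ * G₀)) := by positivity
  calc C₃ * T ^ (k * ε) * ((2:ℝ) ^ (-(J:ℝ) / 96) * (2 * H) ^ k +
      (2:ℝ) ^ (-(σ * J) / 4) * ∫ u in box k H, ∫ t, F u t)
      ≤ C₃ * T ^ (k * ε) * (2 * T ^ (-c) * (2 * H) ^ k +
        (2 * H) ^ k * (2 * (G₂ + C₅ * G₀) * T ^ (-c))) := by gcongr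
    _ = (2 * H) ^ k * (C₃ * (2 + 2 * (G₂ + C₅ * G₀)) * (T ^ (k * ε) * T ^ (-c))) := by ring
    _ ≤ (2 * H) ^ k * (C₃ * (2 + 2 * (G₂ + C₅ * G₀)) * T ^ (-c + (k + 1) * ε)) := by gcongr
    _ ≤ _ := by
        have : 0 ≤ T ^ (-c + (k + 1) * ε) := by positivity
        gcongr
        linarith

end Pool.Agent.AAS
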