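import Pool.Agent.AAS.DefsH
import Pool.Agent.AAS.PPG
import Pool.Agent.AAS.SHR
import Pool.Agent.AAS.VO2
import Pool.Agent.AAS.COB
import Pool.Agent.H26.Transl

set_option autoImplicit false

namespace Pool.Agent.AAS

open Complex Finset MeasureTheory Filter Topology Set
open Pool.Agent.H26

/-- the diagonal sum is invariant along the diagonal -/
theorem PP_sh {k : ℕ} (a b : Fin (k + 1) → ℝ) (J : ℕ) (s : ℝ) (v : Fin k → ℝ) :
    PP a b J (sh s v) = PP a b J (fx v) := by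
  unfold PP
  congr 1
  refine Finset.sum_congr rfl fun p hp => ?_
  obtain ⟨hp1, hp2⟩ := Finset.mem_filter.1 hp
  rw [Fintype.mem_piFinset] at hp1
  have hpos : ∀ j, 1 ≤ (p j).1 * (p j).2 := fun j => (Finset.mem_filter.1 (hp1 j)).2.2.1
  have hm : ∀ j, ((p j).1 : ℝ) ≠ 0 := fun j => by
    have := hpos j
    have h : (p j).1 ≠ 0 := fun h => by rw [h, zero_mul] at this; omega
    exact_mod_cast h
  have hn : ∀ j, ((p j).2 : ℝ) ≠ 0 := fun j => by
    have := hpos j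
    have h : (p j).2 ≠ 0 := fun h => by rw [h, mul_zero] at this; omega
    exact_mod_cast h
  have hsum : ∑ j, lq (p j) = 0 := by
    unfold lq
    rw [Finset.sum_sub_distrib, ← Real.log_prod (fun j _ => hm j),
      ← Real.log_prod (fun j _ => hn j)]
    have h1 : ∏ j, ((p j).1 : ℝ) = ∏ j, ((p j).2 : ℝ) := by exact_mod_cast hp2
    rw [h1, sub_self]
  rw [Finset.prod_mul_distrib, Finset.prod_mul_distrib]
  congr 1
  rw [← Complex.exp_sum, ← Complex.exp_sum]
  congr 1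
  have h2 : ∀ j, -(I * (lq (p j) : ℂ) * (sh s v j : ℂ)) =
      -(I * (lq (p j) : ℂ) * (fx v j : ℂ)) + -(I * s) * (lq (p j) : ℂ) := by
    intro j
    rw [sh_eq]; push_cast; ring
  simp only [h2]
  rw [Finset.sum_add_distrib, ← Finset.mul_sum]
  have h3 : ∑ j, (lq (p j) : ℂ) = 0 := by
    rw [← Complex.ofReal_sum, hsum, Complex.ofReal_zero]
  rw [h3, mul_zero, add_zero]

theorem zetaAB_sh {k : ℕ} (a b : Fin (k + 1) → ℝ) (S : Finset (Ix (k + 1))) (s : ℝ)
    (v : Fin k → ℝ) : zetaAB S (fun i => (gm a b (sh s v) i : ℂ)) =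
      zetaAB S (fun i => (gm a b (fx v) i : ℂ)) := by
  rw [← zetaAB_add S (fun i => (gm a b (fx v) i : ℂ)) (s : ℂ)]
  congr 1
  funext i
  rcases i with j | j
  · simp only [gm, Sum.elim_inl, sh_eq]; push_cast; ring
  · simp only [gm, Sum.elim_inr, sh_eq]; push_cast; ring

private lemma continuous_fx (k : ℕ) : Continuous (fun v : Fin k → ℝ => fx v) := by
  refine continuous_pi fun j => ?_
  refine Fin.cases ?_ (fun i => ?_) j
  · simp only [fx, Fin.cons_zero]; exact continuous_const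
  · simp only [fx, Fin.cons_succ]; exact continuous_apply i

/-- `exists_PP_approx_gen` with the first pair fixed: `lintegral_shear_le`, `PP_sh`, `zetaAB_sh`,
`sh_mem_U1` -/
theorem exists_PP_fixed (k : ℕ) (w₀ : ℝ) (hw₀ : 0 < w₀) : ∃ y₀ : ℝ, 0 < y₀ ∧ y₀ ≤ 1 / 40 ∧
    ∀ y : ℝ, 0 < y → y ≤ y₀ →
    ∃ c : ℝ, 0 < c ∧ ∀ B ε : ℝ, 0 ≤ B → 0 < ε → ε ≤ 1 → ∃ C : ℝ, 1 ≤ C ∧
    ∀ T H : ℝ, 1 ≤ T → T ^ w₀ ≤ H → 2 * H ≤ T →
    ∀ J : ℕ, T ^ y / 2 ≤ 2 ^ J → (2:ℝ) ^ J ≤ T ^ y →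
    ∀ a b : Fin (k + 1) → ℝ, (∀ j, |a j| ≤ B) → (∀ j, |b j| ≤ B) →
    (∀ j, T ^ (-ε) ≤ |a j - b j|) →
    IntegrableOn (fun v : Fin k → ℝ =>
      ‖PP a b J (fx v) - zetaAB (S0 (k + 1)) (fun i => (gm a b (fx v) i : ℂ))‖)
      {v | v ∈ box k H ∧ fx v ∈ U1 (k + 1) (2 * B + 1)} ∧
    ∫ v in {v | v ∈ box k H ∧ fx v ∈ U1 (k + 1) (2 * B + 1)},
      ‖PP a b J (fx v) - zetaAB (S0 (k + 1)) (fun i => (gm a b (fx v) i : ℂ))‖ ≤
      (2 * H) ^ k * (C * T ^ (-c + (k + 2) * ε)) := by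
  obtain ⟨y₀, hy0, hy1, h⟩ := exists_PP_approx_gen (k + 1) w₀ hw₀
  refine ⟨y₀, hy0, hy1, fun y hy hyy => ?_⟩
  obtain ⟨c, hc, h⟩ := h y hy hyy
  refine ⟨c, hc, fun B ε hB hε hε1 => ?_⟩
  obtain ⟨C, hC, h⟩ := h B ε hB hε hε1
  refine ⟨4 * 2 ^ k * C, ?_, ?_⟩
  · have := one_le_pow₀ (one_le_two (α := ℝ)) (n := k)
    nlinarith
  intro T H hT hTH hHT J hJ1 hJ2 a b ha hb hab
  have hT0 : 0 < T := by linarith
  have hH0 : 0 < H := lt_of_lt_of_le (by positivity) hTH
  have h1 := h T (2 * H) hT (by linarith) hHT J hJ1 hJ2 a b ha hb hab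
  have hne : ∀ j, a j ≠ b j := by
    intro j hj
    have h2 := hab j
    rw [hj, sub_self, abs_zero] at h2
    have : 0 < T ^ (-ε) := by positivity
    linarith
  set U : Set (Fin (k + 1) → ℝ) := U1 (k + 1) (2 * B + 1) with hU
  have hUc : IsClosed U := COR.isClosed_U1 _ _
  set Φ : (Fin (k + 1) → ℝ) → ℝ := fun u =>
    ‖PP a b J u - zetaAB (S0 (k + 1)) (fun i => (gm a b u i : ℂ))‖ with hΦ
  have hΦc : ContinuousOn Φ U :=
    ((COR.continuous_PP a b J).continuousOn.sub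
      (COR.continuousOn_zetaAB_gm ha hb hne (S0 (k + 1)))).norm
  have hΦsh : ∀ (s : ℝ) (v : Fin k → ℝ), Φ (sh s v) = Φ (fx v) := by
    intro s v
    simp only [hΦ]
    rw [PP_sh, zetaAB_sh]
  have hΩ : {v | v ∈ box k H ∧ fx v ∈ U} = box k H ∩ (fun v : Fin k → ℝ => fx v) ⁻¹' U := rfl
  have hK : IsCompact (box k H ∩ (fun v : Fin k → ℝ => fx v) ⁻¹' U) :=
    (COR.isCompact_box k H).inter_right (hUc.preimage (continuous_fx k))
  have hcomp : ContinuousOn (fun v : Fin k → ℝ => Φ (fx v))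
      (box k H ∩ (fun v : Fin k → ℝ => fx v) ⁻¹' U) := by
    refine hΦc.comp (continuous_fx k).continuousOn ?_
    intro v hv
    exact hv.2
  have hint : IntegrableOn (fun v : Fin k → ℝ => Φ (fx v)) {v | v ∈ box k H ∧ fx v ∈ U} := by
    rw [hΩ]
    exact hcomp.integrableOn_compact hK
  refine ⟨hint, ?_⟩
  -- the shear
  set f : (Fin (k + 1) → ℝ) → ENNReal := U.indicator (fun u => ENNReal.ofReal (Φ u)) with hf
  have hfm : Measurable f := by
    classical
    rw [hf, ← Set.piecewise_eq_indicator]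
    exact ContinuousOn.measurable_piecewise (ENNReal.continuous_ofReal.comp_continuousOn hΦc) continuousOn_const
      hUc.measurableSet
  have key := lintegral_shear_le (k := k) (H := H) hH0.le hfm
  have hfsh : ∀ (s : ℝ) (v : Fin k → ℝ), f (sh s v) =
      ((fun v : Fin k → ℝ => fx v) ⁻¹' U).indicator (fun v => ENNReal.ofReal (Φ (fx v))) v := by
    intro s v
    simp only [hf]
    by_cases hv : fx v ∈ U
    · rw [Set.indicator_of_mem ((sh_mem_U1 s v _).2 hv), Set.indicator_of_mem (by exact hv), hΦsh]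
    · rw [Set.indicator_of_notMem (fun hh => hv ((sh_mem_U1 s v _).1 hh)),
        Set.indicator_of_notMem (by exact hv)]
  simp only [hfsh] at key
  simp only [lintegral_const, Measure.restrict_apply_univ, Real.volume_Icc, sub_zero] at key
  have hmU : MeasurableSet ((fun v : Fin k → ℝ => fx v) ⁻¹' U) :=
    (hUc.preimage (continuous_fx k)).measurableSet
  have hfm2 : Measurable (((fun v : Fin k → ℝ => fx v) ⁻¹' U).indicator
      (fun v => ENNReal.ofReal (Φ (fx v)))) := by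
    have h3 := hfm.comp (vo2_measurable_fx k)
    have h4 : f ∘ (fun v : Fin k → ℝ => fx v) = ((fun v : Fin k → ℝ => fx v) ⁻¹' U).indicator
      (fun v => ENNReal.ofReal (Φ (fx v))) := by
      funext v
      rw [← hfsh 0 v]
      simp only [Function.comp]
      congr 1
      funext j
      rw [sh_eq, add_zero]
    rw [← h4]
    exact h3
  rw [lintegral_mul_const _ hfm2, setLIntegral_indicator hmU, hf,
    setLIntegral_indicator hUc.measurableSet] at key
  have e1 : ∫⁻ v in (fun v : Fin k → ℝ => fx v) ⁻¹' U ∩ box k H, ENNReal.ofReal (Φ (fx v)) =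
      ENNReal.ofReal (∫ v in {v | v ∈ box k H ∧ fx v ∈ U}, Φ (fx v)) := by
    rw [ofReal_integral_eq_lintegral_ofReal hint (Eventually.of_forall fun v => norm_nonneg _),
      hΩ, Set.inter_comm]
  have hint2 : IntegrableOn Φ (box (k + 1) (2 * H) ∩ U) :=
    (hΦc.mono Set.inter_subset_right).integrableOn_compact
      ((COR.isCompact_box _ _).inter_right hUc)
  have e2 : ∫⁻ u in U ∩ box (k + 1) (2 * H), ENNReal.ofReal (Φ u) =
      ENNReal.ofReal (∫ u in box (k + 1) (2 * H) ∩ U, Φ u) := by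
    rw [ofReal_integral_eq_lintegral_ofReal hint2 (Eventually.of_forall fun v => norm_nonneg _),
      Set.inter_comm]
  rw [e1, e2, ← ENNReal.ofReal_mul (setIntegral_nonneg_of_ae
    (Eventually.of_forall fun v => norm_nonneg _)), ENNReal.ofReal_le_ofReal_iff
      (setIntegral_nonneg_of_ae (Eventually.of_forall fun v => norm_nonneg _))] at key
  have key2 := key.trans h1
  have e3 : (2 * (2 * H)) ^ (k + 1) * (C * T ^ (-c + (((k + 1 : ℕ) : ℝ) + 1) * ε)) =
      ((2 * H) ^ k * (4 * 2 ^ k * C * T ^ (-c + ((k : ℝ) + 2) * ε))) * H := by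
    have e4 : (((k + 1 : ℕ) : ℝ) + 1) = (k : ℝ) + 2 := by push_cast; ring
    rw [e4, mul_pow 2 (2 * H) (k + 1), pow_succ (2 * H), pow_succ (2 : ℝ)]
    ring
  rw [e3] at key2
  exact le_of_mul_le_mul_right key2 hH0

end Pool.Agent.AAS
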