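import Pool.Agent.AAS.TGF
import Pool.Agent.AAS.EGL
import Pool.Agent.AAS.PPF
import Pool.Agent.AAS.DIA
import Pool.Agent.AAS.SKL
import Pool.Agent.AAS.UNM
import Pool.Agent.AAS.ZLE
import Pool.Agent.AAS.VO2
import Pool.Agent.AAS.GLP
import Pool.Agent.AAS.COB

set_option autoImplicit false

namespace Pool.Agent.AAS

open Complex Finset MeasureTheory Filter Topology Set
open Pool.Agent.H26

namespace CRG

open COR (IB)

variable {k : ℕ}

lemma continuous_fx : Continuous (fx (k := k)) := by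
  refine continuous_pi fun j => ?_
  refine Fin.cases ?_ (fun i => ?_) j
  · simp only [fx, Fin.cons_zero]; exact continuous_const
  · simp only [fx, Fin.cons_succ]; exact continuous_apply i

lemma fx_mem_box {H : ℝ} (hH : 0 ≤ H) {v : Fin k → ℝ} (hv : v ∈ box k H) :
    fx v ∈ box (k + 1) H := by
  unfold box at hv ⊢
  intro j _
  refine Fin.cases ?_ (fun i => ?_) j
  · simp only [fx, Fin.cons_zero, Set.mem_Icc]
    constructor <;> linarith
  · simp only [fx, Fin.cons_succ]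
    exact hv i (Set.mem_univ i)

lemma continuous_uncurry_PR (a b : Fin (k + 1) → ℝ) :
    Continuous (Function.uncurry fun (v : Fin k → ℝ) (t : ℝ) => PR a b v t) := by
  simp only [Function.uncurry_def, PR]
  refine continuous_finsetProd _ fun j _ => ?_
  refine (continuous_pf (a j) (b j)).comp ?_
  exact continuous_snd.add (((continuous_apply j).comp continuous_fx).comp continuous_fst)

lemma continuous_uncurry_PL (a b : Fin (k + 1) → ℝ) (J : ℕ) :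
    Continuous (Function.uncurry fun (v : Fin k → ℝ) (t : ℝ) => PL a b J v t) := by
  simp only [Function.uncurry_def, PL]
  refine continuous_finsetProd _ fun j _ => ?_
  refine (continuous_lo (a j) (b j) J).comp ?_
  exact continuous_snd.add (((continuous_apply j).comp continuous_fx).comp continuous_fst)

/-- parameter integrals over the intersection of a measurable set and a segment -/
lemma continuous_param {E : Type*} [NormedAddCommGroup E] [NormedSpace ℝ E]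
    {f : (Fin k → ℝ) → ℝ → E} (hf : Continuous (Function.uncurry f)) {G : Set ℝ}
    (A B : ℝ) : Continuous fun v : Fin k → ℝ => ∫ t in G ∩ Icc A B, f v t := by
  have h := continuous_parametric_integral_of_continuous (μ := (volume : Measure ℝ).restrict G)
    (f := f) hf (s := Icc A B) isCompact_Icc
  refine h.congr fun v => ?_
  rw [Measure.restrict_restrict measurableSet_Icc, Set.inter_comm]

lemma integrableOn_param {f : ℝ → ℝ} (hf : Continuous f) {G : Set ℝ} (A B : ℝ) :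
    IntegrableOn f (G ∩ Icc A B) :=
  (hf.continuousOn.integrableOn_Icc).mono_set Set.inter_subset_right

/-- the initial part -/
lemma initial {T H d B T₀ K : ℝ} {G : Set ℝ} (hGm : MeasurableSet G) (hG : Gd T H d G)
    (hT : 1 ≤ T) (hd : 0 ≤ d) (hB : 0 ≤ B) (hBH : B ≤ H) (hH : 0 < H) (hHT : H ≤ T₀)
    (hK : K = (k : ℝ) + 1) {a b : Fin (k + 1) → ℝ} (ha : ∀ j, |a j| ≤ B)
    (hb : ∀ j, |b j| ≤ B) :
    ∫ v in box k H, ∫ t in G ∩ Icc 0 T₀, ‖PR a b v t‖ ≤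
      (2 * H) ^ k * (4 * T ^ (K * d / 2) * T₀) := by
  have hT0 : 0 < T := by linarith
  have hT₀ : 0 < T₀ := by linarith
  set L : ℝ := T ^ (K * d / 2) with hL
  have hL0 : 0 < L := Real.rpow_pos_of_pos hT0 _
  have h1 := gl_segment (k := k) (A := 0) (h := T₀) hGm hG hT hd hB hBH hH hT₀.le ha hb
  rw [zero_add] at h1
  have hLL : T ^ (((k : ℝ) + 1) * d) = L * L := by
    rw [hL, ← Real.rpow_add hT0]
    congr 1
    rw [hK]; ring
  rw [hLL] at h1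
  have cPR := continuous_uncurry_PR (k := k) a b
  have cn : Continuous (Function.uncurry fun (v : Fin k → ℝ) (t : ℝ) => ‖PR a b v t‖) :=
    cPR.norm
  have cn2 : Continuous (Function.uncurry fun (v : Fin k → ℝ) (t : ℝ) => ‖PR a b v t‖ ^ 2) :=
    cPR.norm.pow 2
  have hpt : ∀ v : Fin k → ℝ, ∫ t in G ∩ Icc 0 T₀, ‖PR a b v t‖ ≤
      (2 * L)⁻¹ * (∫ t in G ∩ Icc 0 T₀, ‖PR a b v t‖ ^ 2) + L / 2 * T₀ := by
    intro v
    have c1 : Continuous fun t => ‖PR a b v t‖ := (EGL_continuous_PR a b v).norm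
    have c2 : Continuous fun t => ‖PR a b v t‖ ^ 2 := c1.pow 2
    have i1 := integrableOn_param c1 (G := G) 0 T₀
    have i2 := integrableOn_param c2 (G := G) 0 T₀
    have i3 : IntegrableOn (fun _ : ℝ => L / 2) (G ∩ Icc 0 T₀) :=
      integrableOn_param continuous_const 0 T₀
    have i5 : IntegrableOn (fun t : ℝ => (2 * L)⁻¹ * ‖PR a b v t‖ ^ 2) (G ∩ Icc 0 T₀) :=
      i2.const_mul ((2 * L)⁻¹)
    have i4 : IntegrableOn (fun t : ℝ => (2 * L)⁻¹ * ‖PR a b v t‖ ^ 2 + L / 2)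
        (G ∩ Icc 0 T₀) := i5.add i3
    have h2 : ∫ t in G ∩ Icc 0 T₀, ‖PR a b v t‖ ≤
        ∫ t in G ∩ Icc 0 T₀, ((2 * L)⁻¹ * ‖PR a b v t‖ ^ 2 + L / 2) := by
      refine setIntegral_mono i1 i4 fun t => ?_
      have h3 : 0 ≤ (‖PR a b v t‖ - L) ^ 2 := sq_nonneg _
      have h4 : (2 * L)⁻¹ * ‖PR a b v t‖ ^ 2 + L / 2 =
          (‖PR a b v t‖ ^ 2 + L ^ 2) / (2 * L) := by
        field_simp
      change ‖PR a b v t‖ ≤ (2 * L)⁻¹ * ‖PR a b v t‖ ^ 2 + L / 2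
      rw [h4, le_div_iff₀ (by positivity)]
      nlinarith
    refine h2.trans ?_
    rw [integral_add i5 i3, integral_const_mul, setIntegral_const, smul_eq_mul]
    refine add_le_add le_rfl ?_
    rw [mul_comm]
    refine mul_le_mul_of_nonneg_left ?_ (by positivity)
    rw [Measure.real]
    refine ENNReal.toReal_le_of_le_ofReal hT₀.le ?_
    refine (measure_mono Set.inter_subset_right).trans ?_
    rw [Real.volume_Icc, sub_zero]
  have I1 : IntegrableOn (fun v : Fin k → ℝ => ∫ t in G ∩ Icc 0 T₀, ‖PR a b v t‖) (box k H) :=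
    (continuous_param cn 0 T₀).continuousOn.integrableOn_compact (COR.isCompact_box k H)
  have I2 : IntegrableOn (fun v : Fin k → ℝ => ∫ t in G ∩ Icc 0 T₀, ‖PR a b v t‖ ^ 2)
      (box k H) :=
    (continuous_param cn2 0 T₀).continuousOn.integrableOn_compact (COR.isCompact_box k H)
  have I3 : IntegrableOn (fun _ : Fin k → ℝ => L / 2 * T₀) (box k H) :=
    continuous_const.continuousOn.integrableOn_compact (COR.isCompact_box k H)
  have I5 : IntegrableOn (fun v : Fin k → ℝ =>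
      (2 * L)⁻¹ * (∫ t in G ∩ Icc 0 T₀, ‖PR a b v t‖ ^ 2)) (box k H) :=
    I2.const_mul ((2 * L)⁻¹)
  have I4 : IntegrableOn (fun v : Fin k → ℝ =>
      (2 * L)⁻¹ * (∫ t in G ∩ Icc 0 T₀, ‖PR a b v t‖ ^ 2) + L / 2 * T₀) (box k H) := I5.add I3
  have hvol : (volume : Measure (Fin k → ℝ)).real (box k H) = (2 * H) ^ k := by
    rw [Measure.real, COR.volume_box k hH.le, ENNReal.toReal_ofReal (by positivity)]
  calc ∫ v in box k H, ∫ t in G ∩ Icc 0 T₀, ‖PR a b v t‖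
      ≤ ∫ v in box k H, ((2 * L)⁻¹ * (∫ t in G ∩ Icc 0 T₀, ‖PR a b v t‖ ^ 2) + L / 2 * T₀) :=
        setIntegral_mono I1 I4 fun v => hpt v
    _ = (2 * L)⁻¹ * (∫ v in box k H, ∫ t in G ∩ Icc 0 T₀, ‖PR a b v t‖ ^ 2) +
          (2 * H) ^ k * (L / 2 * T₀) := by
        rw [integral_add I5 I3, integral_const_mul, setIntegral_const, smul_eq_mul, hvol]
    _ ≤ (2 * L)⁻¹ * ((2 * H) ^ k * (3 * (T₀ + H) * (L * L))) + (2 * H) ^ k * (L / 2 * T₀) := by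
        refine add_le_add (mul_le_mul_of_nonneg_left h1 (by positivity)) le_rfl
    _ = (2 * H) ^ k * (L * ((3 * (T₀ + H) + T₀) / 2)) := by
        field_simp
    _ ≤ (2 * H) ^ k * (4 * L * T₀) := by
        refine mul_le_mul_of_nonneg_left ?_ (by positivity)
        nlinarith

/-- the inequalities between the parameters, all in terms of `m` -/
lemma params {k : ℕ} {θ₁ θ₂ κ cP y c₀ c₂ d m c ε₀ ε K : ℝ} (h0 : 0 < θ₁) (h1 : θ₁ ≤ θ₂)
    (h2 : θ₂ < 1) (hK : K = (k : ℝ) + 1)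
    (hc₀ : c₀ = (1 - θ₂) / 8) (hc₂ : c₂ = min ((1 - θ₂) / 8) (θ₁ / 4))
    (hyK : y * (40 * K) ≤ 1) (hd : d = min y c₀ / (4 * K)) (hy0 : 0 < y)
    (_ : 0 < m) (m1 : m ≤ y) (m2 : m ≤ κ) (_ : m ≤ 1 - θ₂) (m4 : m ≤ cP) (m5 : m ≤ θ₁)
    (m6 : m ≤ c₀)
    (hc : c = m / 16) (hε₀ : ε₀ = m / (256 * K ^ 2)) (hε : 0 < ε) (hεε : ε ≤ ε₀) :
    (0 < c₀ ∧ 0 < c₂ ∧ 0 < d ∧ 0 < c ∧ ε ≤ 1 / 100 ∧ c₀ ≤ 1 / 8 ∧ c₂ ≤ θ₁ / 4) ∧
    (1 - c₀ + K * d / 2 ≤ 1 - c) ∧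
    ((20 + 6 * k) * ε + (1 - y / 2 + k * d / 2) ≤ 1 - c) ∧
    ((20 + 6 * k) * ε + (1 - κ / 2) ≤ 1 - c) ∧
    ((20 + 6 * k) * ε + (1 + θ₂) / 2 ≤ 1 - c) ∧
    (K * ε + y * (3 * K) + c₀ ≤ 1 - c) ∧
    (1 + (-cP + (k + 2) * ε) ≤ 1 - c) ∧
    (1 + c₂ - θ₁ + 4 * K ^ 2 * ε ≤ 1 - c) ∧
    (1 + c₂ + θ₂ - (1 - c₀) + 4 * K ^ 2 * ε ≤ 1 - c) ∧
    (1 + c₂ - θ₁ + c₂ + 4 * K ^ 2 * ε ≤ 1 - c) ∧
    (1 - c₀ + 4 * K ^ 2 * ε ≤ 1 - c) ∧ 1 - c₀ - θ₂ > 0 := by
  have hk0 : (0:ℝ) ≤ k := Nat.cast_nonneg k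
  have hK1 : (1:ℝ) ≤ K := by linarith
  have hK0 : (0:ℝ) < K := by linarith
  have hK2 : K ≤ K ^ 2 := by nlinarith
  have c00 : 0 < c₀ := by rw [hc₀]; linarith
  have c20 : 0 < c₂ := by rw [hc₂]; exact lt_min (by linarith) (by linarith)
  have d0 : 0 < d := by rw [hd]; exact div_pos (lt_min hy0 c00) (by linarith)
  have hdK : d * (4 * K) = min y c₀ := by rw [hd]; field_simp
  have hdy : d * (4 * K) ≤ y := hdK.le.trans (min_le_left _ _)
  have hdc : d * (4 * K) ≤ c₀ := hdK.le.trans (min_le_right _ _)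
  have he : ε * (256 * K ^ 2) ≤ m := by
    refine (le_div_iff₀ (by positivity)).1 ?_
    rw [← hε₀]; exact hεε
  have heK : ε * (256 * K) ≤ m := by
    refine le_trans ?_ he
    exact mul_le_mul_of_nonneg_left (by linarith) hε.le
  have he1 : ε * 256 ≤ m := by
    refine le_trans ?_ heK
    exact mul_le_mul_of_nonneg_left (by linarith) hε.le
  have hc21 : c₂ ≤ (1 - θ₂) / 8 := by rw [hc₂]; exact min_le_left _ _
  have hc22 : c₂ ≤ θ₁ / 4 := by rw [hc₂]; exact min_le_right _ _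
  have hek : (20 + 6 * (k:ℝ)) * ε ≤ m / 8 := by
    have h3 : (20 + 6 * (k:ℝ)) * ε ≤ 26 * K * ε := by
      refine mul_le_mul_of_nonneg_right ?_ hε.le
      rw [hK]; linarith
    nlinarith
  have hek2 : ((k:ℝ) + 2) * ε ≤ m / 2 := by
    have h3 : ((k:ℝ) + 2) * ε ≤ 2 * K * ε := by
      refine mul_le_mul_of_nonneg_right ?_ hε.le
      rw [hK]; linarith
    nlinarith
  have hKd : K * d / 2 ≤ min y c₀ / 8 := by rw [← hdK]; linarith
  have hkd : (k:ℝ) * d / 2 ≤ y / 8 := by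
    have h3 : (k:ℝ) * d ≤ K * d := mul_le_mul_of_nonneg_right (by linarith) d0.le
    linarith
  have hKd2 : K * d / 2 ≤ c₀ / 8 := by linarith
  have h4 : 4 * K ^ 2 * ε ≤ m / 64 := by linarith
  have hKe : K * ε ≤ m / 256 := by linarith
  have hm1 : m ≤ 1 / 8 := by linarith
  have hy3 : y * (3 * K) ≤ 3 / 40 := by linarith
  refine ⟨⟨c00, c20, d0, by linarith, by linarith, by linarith, hc22⟩, ?_, ?_, ?_, ?_, ?_, ?_,
    ?_, ?_, ?_, ?_, ?_⟩ <;> linarith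

/-- the integrated bound for large `T` -/
lemma big {B ε θ₁ θ₂ κ d c₀ c₂ y c cP CB CC CD CU CZ T H K : ℝ} {k J : ℕ} {G : Set ℝ}
    (hK : K = (k : ℝ) + 1) (hGm : MeasurableSet G) (hG : Gd T H d G)
    (hvol : volume (Icc 0 T \ G) ≤ ENNReal.ofReal (T ^ (1 - κ)))
    (hT1 : 1 ≤ T) (hB : 0 ≤ B) (hBH : B ≤ H) (hd : 0 ≤ d) (hH1 : 1 ≤ H)
    (hyθ : y ≤ θ₁)
    (hHl : T ^ θ₁ ≤ H) (hHu : H ≤ 2 * T ^ θ₂) (hR1 : 1 ≤ T ^ (θ₁ - c₂))
    (hc₀ : 0 < c₀) (hc₀1 : c₀ ≤ 1 / 8) (hc₂ : 0 < c₂)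
    (hCB : 0 ≤ CB) (hCC : 0 ≤ CC) (hCD : 0 ≤ CD) (hCU : 0 ≤ CU) (hCZ : 0 ≤ CZ)
    (hJ1 : T ^ y / 2 ≤ 2 ^ J) (hJ2 : (2:ℝ) ^ J ≤ T ^ y)
    (h4H : 2 * T ^ θ₂ ≤ T ^ (1 - c₀) / 8) (h4 : 4 ≤ T ^ (1 - c₀)) (hCUT : CU ≤ T ^ (1 - c₀))
    (e1 : 1 - c₀ + K * d / 2 ≤ 1 - c)
    (e2 : (20 + 6 * k) * ε + (1 - y / 2 + k * d / 2) ≤ 1 - c)
    (e2' : (20 + 6 * k) * ε + (1 - κ / 2) ≤ 1 - c)
    (e2'' : (20 + 6 * k) * ε + (1 + θ₂) / 2 ≤ 1 - c)
    (e3 : K * ε + y * (3 * K) + c₀ ≤ 1 - c) (e4 : 1 + (-cP + (k + 2) * ε) ≤ 1 - c)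
    (e5 : 1 + c₂ - θ₁ + 4 * K ^ 2 * ε ≤ 1 - c)
    (e6 : 1 + c₂ + θ₂ - (1 - c₀) + 4 * K ^ 2 * ε ≤ 1 - c)
    (e7 : 1 + c₂ - θ₁ + c₂ + 4 * K ^ 2 * ε ≤ 1 - c)
    (e8 : 1 - c₀ + 4 * K ^ 2 * ε ≤ 1 - c)
    {a b : Fin (k + 1) → ℝ} (ha : ∀ j, |a j| ≤ B) (hb : ∀ j, |b j| ≤ B)
    (hab : ∀ j, T ^ (-ε) ≤ |a j - b j|)
    (hBt : ∀ T₀ : ℝ, T ^ (7 / 8 : ℝ) ≤ T₀ → T₀ ≤ T → 4 * H ≤ T₀ → (2:ℝ) ^ J ≤ H →
      ∀ G : Set ℝ, MeasurableSet G → G ⊆ Icc T₀ T → Gd T H d G →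
      ∫ v in box k H, ‖(∫ t in G, PR a b v t) - ∫ t in T₀..T, PL a b J v t‖ ≤
      (2 * H) ^ k * (CB * T ^ ((20 + 6 * k) * ε) * (T ^ (1 - y / 2 + k * d / 2) +
        (T * (volume (Icc T₀ T \ G)).toReal) ^ (1 / 2 : ℝ) + (T * H) ^ (1 / 2 : ℝ))))
    (hCd : ∀ T T₀ H : ℝ, 1 ≤ T → 4 ≤ T₀ → T₀ ≤ T → 1 ≤ H → H ≤ T₀ / 2 →
      ∀ J : ℕ, ∀ a b : Fin (k + 1) → ℝ, (∀ j, |a j| ≤ B) → (∀ j, |b j| ≤ B) →
      (∀ j, T ^ (-ε) ≤ |a j - b j|) → ∀ u ∈ box (k + 1) H,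
      ‖(∫ t in T₀..T, ∏ j, lo (a j) (b j) J (t + u j)) - ∑ κ : Fin (k + 1) → Bool,
        (∫ t in T₀..T, ∏ j, if κ j then XX (a j) (b j) (t + u j) else 1) *
          PP (fun j => sw (κ j) (a j) (b j)) (fun j => sw (κ j) (b j) (a j)) J u‖ ≤
        CC * T ^ (((k + 1 : ℕ) : ℝ) * ε) * (8:ℝ) ^ ((k + 1) * J) * (T / T₀))
    (hD : ∀ T H : ℝ, 1 ≤ T → T ^ θ₁ ≤ H → 2 * H ≤ T →
      ∀ J : ℕ, T ^ y / 2 ≤ 2 ^ J → (2:ℝ) ^ J ≤ T ^ y →
      ∀ a b : Fin (k + 1) → ℝ, (∀ j, |a j| ≤ B) → (∀ j, |b j| ≤ B) →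
      (∀ j, T ^ (-ε) ≤ |a j - b j|) →
      IntegrableOn (fun v : Fin k → ℝ =>
        ‖PP a b J (fx v) - zetaAB (S0 (k + 1)) (fun i => (gm a b (fx v) i : ℂ))‖)
        {v | v ∈ box k H ∧ fx v ∈ U1 (k + 1) (2 * B + 1)} ∧
      ∫ v in {v | v ∈ box k H ∧ fx v ∈ U1 (k + 1) (2 * B + 1)},
        ‖PP a b J (fx v) - zetaAB (S0 (k + 1)) (fun i => (gm a b (fx v) i : ℂ))‖ ≤
        (2 * H) ^ k * (CD * T ^ (-cP + (k + 2) * ε)))
    (hU : ∀ T T₀ H : ℝ, CU ≤ T₀ → T₀ ≤ T → 1 ≤ H → H ≤ T₀ / 4 →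
      ∀ a b u : Fin (k + 1) → ℝ,
      (∀ j, |a j| ≤ B) → (∀ j, |b j| ≤ B) → u ∈ box (k + 1) H →
      ∀ S ∈ (univ : Finset (Ix (k + 1))).powersetCard (k + 1), 1 ≤ |lamS S u| →
      ‖∫ t in T₀..T, H26.G S (fun i => (gm a b u i : ℂ)) t‖ ≤
        CU * (T / |lamS S u|) * (1 + H ^ 2 / T₀ + Real.log T))
    (hZ : ∀ T : ℝ, 1 ≤ T → ∀ a b u : Fin (k + 1) → ℝ, (∀ j, |a j| ≤ B) → (∀ j, |b j| ≤ B) →
      (∀ j, T ^ (-ε) ≤ |a j - b j|) → u ∈ box (k + 1) T → u ∈ U1 (k + 1) (2 * B + 1) →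
      ∀ S : Finset (Ix (k + 1)), ‖zetaAB S (fun i => (gm a b u i : ℂ))‖ ≤
        CZ * T ^ (4 * K ^ 2 * ε)) :
    ∫ v in Vg k H (2 * B + 1) (2 * H * T ^ (-c₂)), ‖EG G (gm a b (fx v)) T‖ ≤
      (2 * H) ^ k * ((4 + 4 * CB + CC + 2 ^ (k + 1) * CD +
        ((univ : Finset (Ix (k + 1))).powersetCard (k + 1)).card *
          (2 * (CU * CZ) * (3 + 1 / c₂)) +
        ((univ : Finset (Ix (k + 1))).powersetCard (k + 1)).card * CZ) * T ^ (1 - c)) := by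
  classical
  have hT0 : 0 < T := by linarith
  set T₀ : ℝ := T ^ (1 - c₀) with hT₀
  set N : ℕ := ((univ : Finset (Ix (k + 1))).powersetCard (k + 1)).card with hN
  set Ω : Set (Fin k → ℝ) := Vg k H (2 * B + 1) (2 * H * T ^ (-c₂)) with hΩ
  have hΩm : MeasurableSet Ω := measurableSet_Vg k H _ _
  have hΩb : Ω ⊆ box k H := fun v hv => hv.1
  have hΩ1 : Ω ⊆ {v | v ∈ box k H ∧ fx v ∈ U1 (k + 1) (2 * B + 1)} := fun v hv => ⟨hv.1, hv.2.1⟩
  have hT₀T : T₀ ≤ T := by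
    calc T₀ ≤ T ^ (1:ℝ) := Real.rpow_le_rpow_of_exponent_le hT1 (by linarith)
      _ = T := Real.rpow_one T
  have hT₀0 : 0 < T₀ := Real.rpow_pos_of_pos hT0 _
  have hH0 : 0 < H := by linarith
  have hH8 : H ≤ T₀ / 8 := hHu.trans h4H
  have hH4 : H ≤ T₀ / 4 := by linarith
  have hH2 : H ≤ T₀ / 2 := by linarith
  have hHT : H ≤ T := by linarith
  have hfxb : ∀ v ∈ Ω, fx v ∈ box (k + 1) H := fun v hv => fx_mem_box hH0.le (hΩb hv)
  have h78 : T ^ (7 / 8 : ℝ) ≤ T₀ := Real.rpow_le_rpow_of_exponent_le hT1 (by linarith)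
  have hP : ∀ x : ℝ, 0 ≤ T ^ x := fun x => (Real.rpow_pos_of_pos hT0 x).le
  have hTc : 0 ≤ T ^ (1 - c) := hP _
  have h2H : 0 ≤ (2 * H) ^ k := by positivity
  have hmono : ∀ x : ℝ, x ≤ 1 - c → T ^ x ≤ T ^ (1 - c) := fun x hx =>
    Real.rpow_le_rpow_of_exponent_le hT1 hx
  have hne : ∀ j, a j ≠ b j := by
    intro j h
    have h1 := hab j
    rw [h, sub_self, abs_zero] at h1
    exact absurd h1 (not_le.2 (Real.rpow_pos_of_pos hT0 _))
  have hK1 : ((k + 1 : ℕ) : ℝ) = K := by rw [hK]; push_cast; ring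
  have cPR := continuous_uncurry_PR (k := k) a b
  -- A
  have iA : IB Ω (fun v => ∫ t in G ∩ Icc 0 T₀, ‖PR a b v t‖)
      ((2 * H) ^ k * (4 * T ^ (1 - c))) := by
    refine (COR.IB_of_cont hΩb (continuous_param (f := fun v t => ‖PR a b v t‖) cPR.norm 0 T₀) ?_
      (initial hGm hG hT1 hd hB hBH hH0 (by linarith) hK ha hb)).mono ?_
    · intro v
      exact integral_nonneg fun t => norm_nonneg _
    · refine mul_le_mul_of_nonneg_left ?_ h2H
      rw [mul_assoc]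
      refine mul_le_mul_of_nonneg_left ?_ (by norm_num)
      rw [hT₀, ← Real.rpow_add hT0]
      exact hmono _ (by linarith)
  -- B
  have iB : IB Ω (fun v => ‖(∫ t in G ∩ Icc T₀ T, PR a b v t) - ∫ t in T₀..T, PL a b J v t‖)
      ((2 * H) ^ k * (4 * CB * T ^ (1 - c))) := by
    have h2J : (2:ℝ) ^ J ≤ H :=
      hJ2.trans ((Real.rpow_le_rpow_of_exponent_le hT1 hyθ).trans hHl)
    have hGd : Gd T H d (G ∩ Icc T₀ T) := fun t ht => hG t ht.1
    have hb1 := hBt T₀ h78 hT₀T (by linarith) h2J (G ∩ Icc T₀ T) (hGm.inter measurableSet_Icc)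
      Set.inter_subset_right hGd
    refine (COR.IB_of_cont hΩb ?_ (fun v => norm_nonneg _) hb1).mono ?_
    · refine Continuous.norm (Continuous.sub (continuous_param cPR T₀ T) ?_)
      exact intervalIntegral.continuous_parametric_intervalIntegral_of_continuous'
        (continuous_uncurry_PL a b J) T₀ T
    · refine mul_le_mul_of_nonneg_left ?_ h2H
      have hv : (volume (Icc T₀ T \ (G ∩ Icc T₀ T))).toReal ≤ T ^ (1 - κ) := by
        refine ENNReal.toReal_le_of_le_ofReal (hP _) (le_trans (measure_mono ?_) hvol)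
        intro t ht
        refine ⟨⟨hT₀0.le.trans ht.1.1, ht.1.2⟩, fun h => ht.2 ⟨h, ht.1⟩⟩
      have hv2 : (T * (volume (Icc T₀ T \ (G ∩ Icc T₀ T))).toReal) ^ (1 / 2 : ℝ) ≤
          T ^ (1 - κ / 2) := by
        calc (T * (volume (Icc T₀ T \ (G ∩ Icc T₀ T))).toReal) ^ (1 / 2 : ℝ)
            ≤ (T * T ^ (1 - κ)) ^ (1 / 2 : ℝ) := by
              refine Real.rpow_le_rpow (by positivity) ?_ (by norm_num)
              exact mul_le_mul_of_nonneg_left hv hT0.le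
          _ = (T ^ (1 + (1 - κ))) ^ (1 / 2 : ℝ) := by
              rw [Real.rpow_add hT0 1, Real.rpow_one]
          _ = T ^ (1 - κ / 2) := by
              rw [← Real.rpow_mul hT0.le]
              congr 1
              ring
      have hv3 : (T * H) ^ (1 / 2 : ℝ) ≤ 2 * T ^ ((1 + θ₂) / 2) := by
        calc (T * H) ^ (1 / 2 : ℝ) ≤ (T * (4 * T ^ θ₂)) ^ (1 / 2 : ℝ) := by
              refine Real.rpow_le_rpow (by positivity) ?_ (by norm_num)
              refine mul_le_mul_of_nonneg_left ?_ hT0.le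
              have := hP θ₂
              linarith
          _ = (4 * T ^ (1 + θ₂)) ^ (1 / 2 : ℝ) := by
              rw [Real.rpow_add hT0 1, Real.rpow_one]
              congr 1
              ring
          _ = 2 * T ^ ((1 + θ₂) / 2) := by
              rw [Real.mul_rpow (by norm_num) (hP _), ← Real.rpow_mul hT0.le]
              congr 1
              · rw [show (4:ℝ) = 2 ^ (2:ℝ) by norm_num, ← Real.rpow_mul (by norm_num)]
                norm_num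
              · congr 1
                ring
      have q1 : T ^ ((20 + 6 * k) * ε) * T ^ (1 - y / 2 + k * d / 2) ≤ T ^ (1 - c) := by
        rw [← Real.rpow_add hT0]; exact hmono _ e2
      have q2 : T ^ ((20 + 6 * k) * ε) * T ^ (1 - κ / 2) ≤ T ^ (1 - c) := by
        rw [← Real.rpow_add hT0]; exact hmono _ e2'
      have q3 : T ^ ((20 + 6 * k) * ε) * T ^ ((1 + θ₂) / 2) ≤ T ^ (1 - c) := by
        rw [← Real.rpow_add hT0]; exact hmono _ e2''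
      calc CB * T ^ ((20 + 6 * k) * ε) * (T ^ (1 - y / 2 + k * d / 2) +
            (T * (volume (Icc T₀ T \ (G ∩ Icc T₀ T))).toReal) ^ (1 / 2 : ℝ) +
              (T * H) ^ (1 / 2 : ℝ))
          ≤ CB * T ^ ((20 + 6 * k) * ε) * (T ^ (1 - y / 2 + k * d / 2) +
            T ^ (1 - κ / 2) + 2 * T ^ ((1 + θ₂) / 2)) := by
            refine mul_le_mul_of_nonneg_left ?_ (mul_nonneg hCB (hP _))
            linarith
        _ = CB * (T ^ ((20 + 6 * k) * ε) * T ^ (1 - y / 2 + k * d / 2) +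
            T ^ ((20 + 6 * k) * ε) * T ^ (1 - κ / 2) +
              2 * (T ^ ((20 + 6 * k) * ε) * T ^ ((1 + θ₂) / 2))) := by ring
        _ ≤ CB * (4 * T ^ (1 - c)) := by
            refine mul_le_mul_of_nonneg_left ?_ hCB
            linarith
        _ = 4 * CB * T ^ (1 - c) := by ring
  -- C
  have iC : IB Ω (fun _ => CC * T ^ (1 - c)) ((2 * H) ^ k * (CC * T ^ (1 - c))) :=
    COR.IB_const (by linarith) hΩb (by positivity)
  have pC : ∀ v ∈ Ω, ‖(∫ t in T₀..T, ∏ j, lo (a j) (b j) J (t + fx v j)) -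
        ∑ κ : Fin (k + 1) → Bool,
        (∫ t in T₀..T, ∏ j, if κ j then XX (a j) (b j) (t + fx v j) else 1) *
          PP (fun j => sw (κ j) (a j) (b j)) (fun j => sw (κ j) (b j) (a j)) J (fx v)‖ ≤
        CC * T ^ (1 - c) := by
    intro v hv
    refine (hCd T T₀ H hT1 h4 hT₀T hH1 hH2 J a b ha hb hab (fx v) (hfxb v hv)).trans ?_
    rw [hK1]
    have h8 : (8:ℝ) ^ ((k + 1) * J) ≤ T ^ (y * (3 * K)) := by
      have h81 : (8:ℝ) ^ ((k + 1) * J) = ((2:ℝ) ^ J) ^ (3 * (k + 1)) := by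
        rw [← pow_mul, show (8:ℝ) = 2 ^ 3 by norm_num, ← pow_mul]
        congr 1
        ring
      have h82 : T ^ (y * (3 * K)) = (T ^ y) ^ (3 * (k + 1)) := by
        rw [← Real.rpow_natCast (T ^ y), ← Real.rpow_mul hT0.le, hK]
        push_cast
        rfl
      rw [h81, h82]
      exact pow_le_pow_left₀ (by positivity) hJ2 _
    have hTT : T / T₀ = T ^ c₀ := by
      rw [hT₀, div_eq_iff (Real.rpow_pos_of_pos hT0 _).ne', ← Real.rpow_add hT0]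
      rw [show c₀ + (1 - c₀) = 1 by ring, Real.rpow_one]
    rw [hTT]
    calc CC * T ^ (K * ε) * (8:ℝ) ^ ((k + 1) * J) * T ^ c₀
        ≤ CC * T ^ (K * ε) * T ^ (y * (3 * K)) * T ^ c₀ := by
          refine mul_le_mul_of_nonneg_right ?_ (hP _)
          exact mul_le_mul_of_nonneg_left h8 (mul_nonneg hCC (hP _))
      _ = CC * T ^ (K * ε + y * (3 * K) + c₀) := by
          rw [Real.rpow_add hT0, Real.rpow_add hT0]; ring
      _ ≤ CC * T ^ (1 - c) := mul_le_mul_of_nonneg_left (hmono _ e3) hCC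
  -- D
  have iD : IB Ω (fun v => T * ∑ κ : Fin (k + 1) → Bool,
        ‖PP (fun j => sw (κ j) (a j) (b j)) (fun j => sw (κ j) (b j) (a j)) J (fx v) -
          zetaAB (S0 (k + 1)) (fun i => (gm (fun j => sw (κ j) (a j) (b j))
            (fun j => sw (κ j) (b j) (a j)) (fx v) i : ℂ))‖)
      ((2 * H) ^ k * (2 ^ (k + 1) * CD * T ^ (1 - c))) := by
    have i1 : ∀ κ ∈ (univ : Finset (Fin (k + 1) → Bool)), IB Ω (fun v =>
        ‖PP (fun j => sw (κ j) (a j) (b j)) (fun j => sw (κ j) (b j) (a j)) J (fx v) -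
          zetaAB (S0 (k + 1)) (fun i => (gm (fun j => sw (κ j) (a j) (b j))
            (fun j => sw (κ j) (b j) (a j)) (fx v) i : ℂ))‖)
        ((2 * H) ^ k * (CD * T ^ (-cP + (k + 2) * ε))) := by
      intro κ _
      have ha' : ∀ j, |sw (κ j) (a j) (b j)| ≤ B := by
        intro j; unfold sw; split_ifs
        · exact hb j
        · exact ha j
      have hb' : ∀ j, |sw (κ j) (b j) (a j)| ≤ B := by
        intro j; unfold sw; split_ifs
        · exact ha j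
        · exact hb j
      have hab' : ∀ j, T ^ (-ε) ≤ |sw (κ j) (a j) (b j) - sw (κ j) (b j) (a j)| := by
        intro j; unfold sw; split_ifs
        · rw [abs_sub_comm]; exact hab j
        · exact hab j
      obtain ⟨d1, d2⟩ := hD T H hT1 hHl (by linarith) J hJ1 hJ2 _ _ ha' hb' hab'
      exact ⟨d1.mono_set hΩ1, (setIntegral_mono_set d1
        (Eventually.of_forall fun v => norm_nonneg _) (Eventually.of_forall hΩ1)).trans d2⟩
    refine ((IB.sum univ i1).const_mul hT0.le).mono ?_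
    rw [Finset.sum_const, Finset.card_univ, Fintype.card_pi, nsmul_eq_mul]
    simp only [Fintype.card_bool, Finset.prod_const, Finset.card_univ, Fintype.card_fin]
    push_cast
    have h1 : T * T ^ (-cP + (k + 2) * ε) ≤ T ^ (1 - c) := by
      calc T * T ^ (-cP + (k + 2) * ε) = T ^ (1:ℝ) * T ^ (-cP + (k + 2) * ε) := by
            rw [Real.rpow_one]
        _ = T ^ (1 + (-cP + (k + 2) * ε)) := (Real.rpow_add hT0 _ _).symm
        _ ≤ T ^ (1 - c) := hmono _ e4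
    calc T * (2 ^ (k + 1) * ((2 * H) ^ k * (CD * T ^ (-cP + (k + 2) * ε))))
        = (2 * H) ^ k * (2 ^ (k + 1) * CD * (T * T ^ (-cP + (k + 2) * ε))) := by ring
      _ ≤ (2 * H) ^ k * (2 ^ (k + 1) * CD * T ^ (1 - c)) := by
          refine mul_le_mul_of_nonneg_left ?_ h2H
          exact mul_le_mul_of_nonneg_left h1 (by positivity)
  -- zeta values
  have pZ : ∀ v ∈ Ω, ∀ S : Finset (Ix (k + 1)), ‖zetaAB S (fun i => (gm a b (fx v) i : ℂ))‖ ≤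
      CZ * T ^ (4 * K ^ 2 * ε) := fun v hv S =>
    hZ T hT1 a b (fx v) ha hb hab (COR.box_mono hHT (hfxb v hv)) hv.2.1 S
  -- E
  have pE : ∀ v ∈ Ω, ∑ S ∈ ((univ : Finset (Ix (k + 1))).powersetCard (k + 1)).filter
        (fun S => ∀ κ, S ≠ Sk κ),
        ‖∫ t in T₀..T, H26.G S (fun i => (gm a b (fx v) i : ℂ)) t‖ *
          ‖zetaAB S (fun i => (gm a b (fx v) i : ℂ))‖ ≤
        N * (2 * (CU * CZ) * (3 + 1 / c₂)) * T ^ (1 - c) := by
    intro v hv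
    have h1 : ∀ S ∈ ((univ : Finset (Ix (k + 1))).powersetCard (k + 1)).filter
        (fun S => ∀ κ, S ≠ Sk κ),
        ‖∫ t in T₀..T, H26.G S (fun i => (gm a b (fx v) i : ℂ)) t‖ *
          ‖zetaAB S (fun i => (gm a b (fx v) i : ℂ))‖ ≤
          2 * (CU * CZ) * (3 + 1 / c₂) * T ^ (1 - c) := by
      intro S hS
      rw [Finset.mem_filter] at hS
      have hl' : 2 * H * T ^ (-c₂) ≤ |lamS S (fx v)| := hv.2.2 S hS.1 hS.2
      have hTc2 : 0 < T ^ (-c₂) := Real.rpow_pos_of_pos hT0 _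
      have hHc : 0 < H * T ^ (-c₂) := by positivity
      have hl1 : 1 ≤ |lamS S (fx v)| := by
        refine le_trans ?_ hl'
        have h1 : T ^ (θ₁ - c₂) ≤ H * T ^ (-c₂) := by
          rw [sub_eq_add_neg, Real.rpow_add hT0]
          exact mul_le_mul_of_nonneg_right hHl hTc2.le
        linarith
      have h2 := hU T T₀ H hCUT hT₀T hH1 hH4 a b (fx v) ha hb (hfxb v hv) S hS.1 hl1
      have hTl : T / |lamS S (fx v)| ≤ T ^ (1 + c₂) / H := by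
        calc T / |lamS S (fx v)| ≤ T / (H * T ^ (-c₂)) :=
              div_le_div_of_nonneg_left hT0.le hHc (by linarith)
          _ = T ^ (1 + c₂) / H := by
              rw [Real.rpow_add hT0 1 c₂, Real.rpow_one, Real.rpow_neg hT0.le]
              field_simp
      have hlog : Real.log T ≤ T ^ c₂ / c₂ := Real.log_le_rpow_div hT0.le hc₂
      have hlog0 : 0 ≤ Real.log T := Real.log_nonneg hT1
      have hq1 : T ^ (1 + c₂) / H ≤ T ^ (1 + c₂ - θ₁) := by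
        rw [Real.rpow_sub hT0 (1 + c₂) θ₁]
        exact div_le_div_of_nonneg_left (hP _) (Real.rpow_pos_of_pos hT0 _) hHl
      have hq2 : T ^ (1 + c₂) / H * (H ^ 2 / T₀) ≤ 2 * T ^ (1 + c₂ + θ₂ - (1 - c₀)) := by
        have h21 : T ^ (1 + c₂) / H * (H ^ 2 / T₀) = T ^ (1 + c₂) * H / T₀ := by
          field_simp
        rw [h21, Real.rpow_sub hT0 (1 + c₂ + θ₂) (1 - c₀), Real.rpow_add hT0 (1 + c₂) θ₂, ← hT₀,
          mul_div_assoc', div_le_div_iff_of_pos_right hT₀0]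
        calc T ^ (1 + c₂) * H ≤ T ^ (1 + c₂) * (2 * T ^ θ₂) :=
              mul_le_mul_of_nonneg_left hHu (hP _)
          _ = 2 * (T ^ (1 + c₂) * T ^ θ₂) := by ring
      have h3 : ‖∫ t in T₀..T, H26.G S (fun i => (gm a b (fx v) i : ℂ)) t‖ ≤
          CU * (T ^ (1 + c₂ - θ₁) + 2 * T ^ (1 + c₂ + θ₂ - (1 - c₀)) +
            1 / c₂ * (T ^ (1 + c₂ - θ₁) * T ^ c₂)) := by
        refine h2.trans ?_
        have h31 : 0 ≤ 1 + H ^ 2 / T₀ + Real.log T := by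
          have : 0 ≤ H ^ 2 / T₀ := by positivity
          linarith
        have h33 : 0 ≤ T ^ (1 + c₂) / H := div_nonneg (hP _) hH0.le
        have h32 : 0 ≤ CU * (T ^ (1 + c₂) / H) := by positivity
        calc CU * (T / |lamS S (fx v)|) * (1 + H ^ 2 / T₀ + Real.log T)
            ≤ CU * (T ^ (1 + c₂) / H) * (1 + H ^ 2 / T₀ + Real.log T) :=
              mul_le_mul_of_nonneg_right (mul_le_mul_of_nonneg_left hTl hCU) h31
          _ ≤ CU * (T ^ (1 + c₂) / H) * (1 + H ^ 2 / T₀ + T ^ c₂ / c₂) :=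
              mul_le_mul_of_nonneg_left (by linarith) h32
          _ = CU * (T ^ (1 + c₂) / H + T ^ (1 + c₂) / H * (H ^ 2 / T₀) +
              1 / c₂ * (T ^ (1 + c₂) / H * T ^ c₂)) := by ring
          _ ≤ _ := by
              refine mul_le_mul_of_nonneg_left ?_ hCU
              have h34 : 1 / c₂ * (T ^ (1 + c₂) / H * T ^ c₂) ≤
                  1 / c₂ * (T ^ (1 + c₂ - θ₁) * T ^ c₂) :=
                mul_le_mul_of_nonneg_left (mul_le_mul_of_nonneg_right hq1 (hP _)) (by positivity)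
              linarith
      have h4' := pZ v hv S
      have h5 : 0 ≤ CU * (T ^ (1 + c₂ - θ₁) + 2 * T ^ (1 + c₂ + θ₂ - (1 - c₀)) +
            1 / c₂ * (T ^ (1 + c₂ - θ₁) * T ^ c₂)) :=
        (norm_nonneg _).trans h3
      refine (mul_le_mul h3 h4' (norm_nonneg _) h5).trans ?_
      have q1 : T ^ (1 + c₂ - θ₁) * T ^ (4 * K ^ 2 * ε) ≤ T ^ (1 - c) := by
        rw [← Real.rpow_add hT0]; exact hmono _ e5
      have q2 : T ^ (1 + c₂ + θ₂ - (1 - c₀)) * T ^ (4 * K ^ 2 * ε) ≤ T ^ (1 - c) := by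
        rw [← Real.rpow_add hT0]; exact hmono _ e6
      have q3 : T ^ (1 + c₂ - θ₁) * T ^ c₂ * T ^ (4 * K ^ 2 * ε) ≤ T ^ (1 - c) := by
        rw [← Real.rpow_add hT0, ← Real.rpow_add hT0]; exact hmono _ e7
      have q4 : 0 ≤ 1 / c₂ := by positivity
      have q5 : 0 ≤ CU * CZ := by positivity
      calc CU * (T ^ (1 + c₂ - θ₁) + 2 * T ^ (1 + c₂ + θ₂ - (1 - c₀)) +
            1 / c₂ * (T ^ (1 + c₂ - θ₁) * T ^ c₂)) * (CZ * T ^ (4 * K ^ 2 * ε))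
          = (CU * CZ) * (T ^ (1 + c₂ - θ₁) * T ^ (4 * K ^ 2 * ε) +
              2 * (T ^ (1 + c₂ + θ₂ - (1 - c₀)) * T ^ (4 * K ^ 2 * ε)) +
              1 / c₂ * (T ^ (1 + c₂ - θ₁) * T ^ c₂ * T ^ (4 * K ^ 2 * ε))) := by ring
        _ ≤ (CU * CZ) * (T ^ (1 - c) + 2 * T ^ (1 - c) + 1 / c₂ * T ^ (1 - c)) := by
            refine mul_le_mul_of_nonneg_left ?_ q5
            have := mul_le_mul_of_nonneg_left q3 q4
            linarith
        _ = (CU * CZ) * (3 + 1 / c₂) * T ^ (1 - c) := by ring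
        _ ≤ 2 * (CU * CZ) * (3 + 1 / c₂) * T ^ (1 - c) := by
            refine mul_le_mul_of_nonneg_right ?_ hTc
            refine mul_le_mul_of_nonneg_right ?_ (by positivity)
            linarith
    refine (Finset.sum_le_card_nsmul _ _ _ h1).trans ?_
    rw [nsmul_eq_mul]
    have h6 : (((((univ : Finset (Ix (k + 1))).powersetCard (k + 1)).filter
        (fun S => ∀ κ, S ≠ Sk κ)).card : ℕ) : ℝ) ≤ N := by
      exact_mod_cast Finset.card_filter_le _ _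
    have h7 : 0 ≤ 2 * (CU * CZ) * (3 + 1 / c₂) * T ^ (1 - c) := by positivity
    calc _ ≤ (N:ℝ) * (2 * (CU * CZ) * (3 + 1 / c₂) * T ^ (1 - c)) :=
          mul_le_mul_of_nonneg_right h6 h7
      _ = _ := by ring
  have iE : IB Ω (fun _ => N * (2 * (CU * CZ) * (3 + 1 / c₂)) * T ^ (1 - c))
      ((2 * H) ^ k * (N * (2 * (CU * CZ) * (3 + 1 / c₂)) * T ^ (1 - c))) :=
    COR.IB_const (by linarith) hΩb (by positivity)
  -- F
  have pF : ∀ v ∈ Ω, T₀ * ∑ S ∈ (univ : Finset (Ix (k + 1))).powersetCard (k + 1),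
        ‖zetaAB S (fun i => (gm a b (fx v) i : ℂ))‖ ≤ N * CZ * T ^ (1 - c) := by
    intro v hv
    have h1 : ∑ S ∈ (univ : Finset (Ix (k + 1))).powersetCard (k + 1),
        ‖zetaAB S (fun i => (gm a b (fx v) i : ℂ))‖ ≤ N * (CZ * T ^ (4 * K ^ 2 * ε)) := by
      refine (Finset.sum_le_card_nsmul _ _ _ fun S _ => pZ v hv S).trans ?_
      rw [nsmul_eq_mul]
    have h2 : T₀ * T ^ (4 * K ^ 2 * ε) ≤ T ^ (1 - c) := by
      rw [hT₀, ← Real.rpow_add hT0]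
      exact hmono _ e8
    calc T₀ * ∑ S ∈ (univ : Finset (Ix (k + 1))).powersetCard (k + 1),
        ‖zetaAB S (fun i => (gm a b (fx v) i : ℂ))‖ ≤ T₀ * (N * (CZ * T ^ (4 * K ^ 2 * ε))) :=
          mul_le_mul_of_nonneg_left h1 hT₀0.le
      _ = N * CZ * (T₀ * T ^ (4 * K ^ 2 * ε)) := by ring
      _ ≤ N * CZ * T ^ (1 - c) := mul_le_mul_of_nonneg_left h2 (by positivity)
  have iF : IB Ω (fun _ => N * CZ * T ^ (1 - c)) ((2 * H) ^ k * (N * CZ * T ^ (1 - c))) :=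
    COR.IB_const (by linarith) hΩb (by positivity)
  have iAll := ((((iA.add iB).add iC).add iD).add iE).add iF
  have hfin := IB.of_le (g := fun v => ‖EG G (gm a b (fx v)) T‖) hΩm iAll
    (fun v _ => norm_nonneg _) (fun v hv => by
      have h := norm_EG_le (gm_injective ha hb hne hv.2.1) J hGm hT₀0.le hT₀T
      refine h.trans ?_
      have h1 := pC v hv
      have h2 := pE v hv
      have h3 := pF v hv
      linarith)
  refine hfin.trans (le_of_eq ?_)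
  ring

end CRG

/-- the core theorem on `G`, first pair fixed: `norm_EG_le` integrated over the translations,
`T₀ = T^(1 - c₀)`, `c₀ = (1 - θ₂) / 8`, `2^J ≈ T^y`; `gl_segment` for the initial part,
`exists_tgf`, `exists_diag`, `exists_PP_fixed`, `exists_unmatched`, `exists_zetaAB_le` -/
theorem exists_core_G (k : ℕ) (θ₁ θ₂ : ℝ) (h0 : 0 < θ₁) (h1 : θ₁ ≤ θ₂) (h2 : θ₂ < 1) :
    ∃ d : ℝ, 0 < d ∧ ∀ κ : ℝ, 0 < κ → ∃ c c₂ ε₀ : ℝ, 0 < c ∧ 0 < c₂ ∧ 0 < ε₀ ∧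
    ∀ B ε : ℝ, 0 ≤ B → 0 < ε → ε ≤ ε₀ → ∃ C T₁ : ℝ, 1 ≤ C ∧ 1 ≤ T₁ ∧ ∀ T H : ℝ, T₁ ≤ T →
    T ^ θ₁ ≤ H → H ≤ 2 * T ^ θ₂ → ∀ G : Set ℝ, MeasurableSet G → Gd T H d G →
    volume (Icc 0 T \ G) ≤ ENNReal.ofReal (T ^ (1 - κ)) →
    ∀ a b : Fin (k + 1) → ℝ, (∀ j, |a j| ≤ B) → (∀ j, |b j| ≤ B) →
    (∀ j, T ^ (-ε) ≤ |a j - b j|) →
    ∫ v in Vg k H (2 * B + 1) (2 * H * T ^ (-c₂)), ‖EG G (gm a b (fx v)) T‖ ≤
      (2 * H) ^ k * (C * T ^ (1 - c)) := by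
  classical
  obtain ⟨y₀, hy₀, hy₀1, hPP⟩ := exists_PP_fixed k θ₁ h0
  set K : ℝ := (k : ℝ) + 1 with hK
  have hk0 : (0:ℝ) ≤ k := Nat.cast_nonneg k
  have hK1 : (1:ℝ) ≤ K := by linarith
  set y : ℝ := min y₀ (min (θ₁ / 2) (1 / (40 * K))) with hy
  have hy0 : 0 < y := lt_min hy₀ (lt_min (by linarith) (by positivity))
  have hyy : y ≤ y₀ := min_le_left _ _
  have hyθ : y ≤ θ₁ := by
    have : y ≤ θ₁ / 2 := (min_le_right _ _).trans (min_le_left _ _)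
    linarith
  have hyK : y * (40 * K) ≤ 1 := by
    refine (le_div_iff₀ (by positivity)).1 ?_
    exact (min_le_right _ _).trans (min_le_right _ _)
  have hy40 : y ≤ 1 / 40 := hyy.trans hy₀1
  obtain ⟨cP, hcP, hPP2⟩ := hPP y hy0 hyy
  set c₀ : ℝ := (1 - θ₂) / 8 with hc₀
  set c₂ : ℝ := min ((1 - θ₂) / 8) (θ₁ / 4) with hc₂
  set d : ℝ := min y c₀ / (4 * K) with hd
  have c00 : 0 < c₀ := by rw [hc₀]; linarith
  have d0 : 0 < d := div_pos (lt_min hy0 c00) (by linarith)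
  refine ⟨d, d0, ?_⟩
  intro κ hκ
  set m : ℝ := min y (min κ (min (1 - θ₂) (min cP (min θ₁ c₀)))) with hm
  have m0 : 0 < m := lt_min hy0 (lt_min hκ (lt_min (by linarith) (lt_min hcP (lt_min h0 c00))))
  have m1 : m ≤ y := min_le_left _ _
  have m2 : m ≤ κ := (min_le_right _ _).trans (min_le_left _ _)
  have m3 : m ≤ 1 - θ₂ := (min_le_right _ _).trans ((min_le_right _ _).trans (min_le_left _ _))
  have m4 : m ≤ cP := (min_le_right _ _).trans ((min_le_right _ _).trans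
    ((min_le_right _ _).trans (min_le_left _ _)))
  have m5 : m ≤ θ₁ := (min_le_right _ _).trans ((min_le_right _ _).trans
    ((min_le_right _ _).trans ((min_le_right _ _).trans (min_le_left _ _))))
  have m6 : m ≤ c₀ := (min_le_right _ _).trans ((min_le_right _ _).trans
    ((min_le_right _ _).trans ((min_le_right _ _).trans (min_le_right _ _))))
  set c : ℝ := m / 16 with hc
  set ε₀ : ℝ := m / (256 * K ^ 2) with hε₀
  have e00 : 0 < ε₀ := by rw [hε₀]; positivity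
  obtain ⟨⟨-, c20, -, c0, -, hc₀1, hc₂4⟩, -⟩ :=
    CRG.params (k := k) (κ := κ) (cP := cP) h0 h1 h2 hK hc₀ hc₂ hyK hd hy0 m0 m1 m2 m3 m4 m5 m6
      hc hε₀ e00 le_rfl
  refine ⟨c, c₂, ε₀, c0, c20, e00, ?_⟩
  intro B ε hB hε hεε
  obtain ⟨⟨-, -, -, -, hε1, -, -⟩, e1, e2, e2', e2'', e3, e4, e5, e6, e7, e8, e9⟩ :=
    CRG.params (k := k) (κ := κ) (cP := cP) h0 h1 h2 hK hc₀ hc₂ hyK hd hy0 m0 m1 m2 m3 m4 m5 m6
      hc hε₀ hε hεε
  obtain ⟨CB, hCB, hBt⟩ := exists_tgf k B ε y θ₁ hB hε hε1 hy0 hy40 hyθ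
  obtain ⟨CC, hCC, hCd⟩ := exists_diag (k + 1) B ε hB hε
  obtain ⟨CD, hCD, hD⟩ := hPP2 B ε hB hε (by linarith)
  obtain ⟨CU, hCU, hU⟩ := exists_unmatched (k + 1) B hB
  obtain ⟨CZ, hCZ, hZ⟩ := exists_zetaAB_le (k + 1) B ε hB hε
  have hev : ∀ᶠ T : ℝ in atTop, (16 ≤ T ^ (1 - c₀ - θ₂) ∧ max CU 4 ≤ T ^ (1 - c₀)) ∧
      max B 1 ≤ T ^ θ₁ := by
    refine (((tendsto_rpow_atTop (by linarith)).eventually_ge_atTop 16).and
      ((tendsto_rpow_atTop (by linarith)).eventually_ge_atTop _)).and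
      ((tendsto_rpow_atTop h0).eventually_ge_atTop _)
  obtain ⟨T1, hT1⟩ := eventually_atTop.1 hev
  set N : ℕ := ((univ : Finset (Ix (k + 1))).powersetCard (k + 1)).card with hN
  refine ⟨1 + (4 + 4 * CB + CC + 2 ^ (k + 1) * CD + N * (2 * (CU * CZ) * (3 + 1 / c₂)) +
    N * CZ), max T1 1, ?_, le_max_right _ _, ?_⟩
  · have : 0 ≤ (4 + 4 * CB + CC + 2 ^ (k + 1) * CD + N * (2 * (CU * CZ) * (3 + 1 / c₂)) +
      N * CZ) := by positivity
    linarith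
  intro T H hTT hHl hHu G hGm hG hvol a b ha hb hab
  have hT : 1 ≤ T := (le_max_right _ _).trans hTT
  have hT0 : 0 < T := by linarith
  obtain ⟨⟨h41, h42⟩, h43⟩ := hT1 T ((le_max_left _ _).trans hTT)
  have hH1 : 1 ≤ H := ((le_max_right _ _).trans h43).trans hHl
  have hBH : B ≤ H := ((le_max_left _ _).trans h43).trans hHl
  have hH0 : 0 < H := by linarith
  obtain ⟨J, hJ1, hJ2⟩ := COR.exists_two_pow (x := T ^ y) (Real.one_le_rpow hT hy0.le)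
  have h4H : 2 * T ^ θ₂ ≤ T ^ (1 - c₀) / 8 := by
    have h5 : T ^ (1 - c₀) = T ^ (1 - c₀ - θ₂) * T ^ θ₂ := by
      rw [← Real.rpow_add hT0]
      congr 1
      ring
    have h6 : 0 < T ^ θ₂ := Real.rpow_pos_of_pos hT0 _
    rw [h5]
    have h7 := mul_le_mul_of_nonneg_right h41 h6.le
    linarith
  have hR1 : 1 ≤ T ^ (θ₁ - c₂) := Real.one_le_rpow hT (by linarith)
  have hcast : (((k + 1 : ℕ) : ℝ)) = K := by rw [hK]; push_cast; ring
  have hZ' : ∀ T : ℝ, 1 ≤ T → ∀ a b u : Fin (k + 1) → ℝ, (∀ j, |a j| ≤ B) → (∀ j, |b j| ≤ B) →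
      (∀ j, T ^ (-ε) ≤ |a j - b j|) → u ∈ box (k + 1) T → u ∈ U1 (k + 1) (2 * B + 1) →
      ∀ S : Finset (Ix (k + 1)), ‖zetaAB S (fun i => (gm a b u i : ℂ))‖ ≤
        CZ * T ^ (4 * K ^ 2 * ε) := by
    intro T hT a b u ha hb hab hu hu1 S
    have h := hZ T hT a b u ha hb hab hu hu1 S
    rwa [hcast] at h
  have h := CRG.big (κ := κ) (d := d) (y := y) (c := c) (cP := cP) (J := J) hK hGm hG hvol hT hB
    hBH d0.le hH1 hyθ hHl hHu hR1 c00 hc₀1 c20 (by linarith) (by linarith) (by linarith)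
    (by linarith) (by linarith) hJ1 hJ2 h4H ((le_max_right _ _).trans h42)
    ((le_max_left _ _).trans h42) e1 e2 e2' e2'' e3 e4 e5 e6 e7 e8 ha hb hab
    (fun T₀ h78 hT₀T h4H' h2J G' hGm' hGs hGd' =>
      hBt T T₀ H d hT h78 hT₀T (by linarith [Real.rpow_pos_of_pos hT0 θ₁]) hH1 hBH h4H' d0.le J
        hJ1 hJ2 h2J G' hGm' hGs hGd' a b ha hb hab)
    hCd hD hU hZ'
  refine h.trans ?_
  refine mul_le_mul_of_nonneg_left ?_ (by positivity)
  exact mul_le_mul_of_nonneg_right (by linarith) (Real.rpow_pos_of_pos hT0 _).le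

end Pool.Agent.AAS
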