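import Pool.Agent.AAS.LS
import Pool.Agent.AAS.ZTL

set_option autoImplicit false

namespace Pool.Agent.AAS

open Complex Finset MeasureTheory Filter Topology Set
open Pool.Agent.H26

/-- the block of index `j` -/
private def bk (X j : ℕ) : Finset ℕ := (Finset.Icc 1 X).filter (fun n => Nat.log 2 n = j)

private theorem bk_le {X j n : ℕ} (hn : n ∈ bk X j) : 2 ^ j ≤ n ∧ n < 2 ^ (j + 1) := by
  rw [bk, Finset.mem_filter, Finset.mem_Icc] at hn
  obtain ⟨⟨h1, h2⟩, h3⟩ := hn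
  subst h3
  exact ⟨Nat.pow_log_le_self 2 (by omega), Nat.lt_pow_succ_log_self (by norm_num) n⟩

private theorem sum_bk {M : Type*} [AddCommMonoid M] (X : ℕ) (f : ℕ → M) :
    ∑ n ∈ Finset.Icc 1 X, f n = ∑ j ∈ Finset.range (Nat.log 2 X + 1), ∑ n ∈ bk X j, f n := by
  symm
  apply Finset.sum_fiberwise_of_maps_to
  intro n hn
  rw [Finset.mem_Icc] at hn
  rw [Finset.mem_range, Nat.lt_succ_iff]
  exact Nat.log_mono_right hn.2

private theorem cpow_eq {n : ℕ} (hn : n ≠ 0) (y : ℝ) :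
    (n : ℂ) ^ (-(I * y)) = cexp (-(I * (Real.log n : ℝ) * y)) := by
  rw [Complex.cpow_def_of_ne_zero (by exact_mod_cast hn), Complex.ofReal_log (by positivity)]
  congr 1
  push_cast
  ring

private theorem block_le (X j : ℕ) {V : ℝ} (hV : 1 ≤ V) (c : ℕ → ℂ) :
    ∫ y in (-V)..V, ‖∑ n ∈ bk X j, c n * (n : ℂ) ^ (-(I * y))‖ ^ 2 ≤
      50 * ∑ n ∈ bk X j, (V + n) * ‖c n‖ ^ 2 := by
  have h1 : ∀ y : ℝ, ∑ n ∈ bk X j, c n * (n : ℂ) ^ (-(I * y)) =
      ∑ n ∈ bk X j, c n * cexp (-(I * ((fun n : ℕ => Real.log n) n : ℝ) * y)) := by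
    intro y
    refine Finset.sum_congr rfl fun n hn => ?_
    have h0 := (bk_le hn).1
    have h2 : 0 < 2 ^ j := by positivity
    rw [cpow_eq (by omega)]
  simp_rw [h1]
  have hδ : (0:ℝ) < 1 / 2 ^ (j + 1) := by positivity
  refine (large_sieve (bk X j) (fun n : ℕ => Real.log n) hδ ?_ c (by linarith)).trans ?_
  · intro r hr s hs hrs
    have h2 := bk_le hr
    have h3 := bk_le hs
    exact sep_log h2.1 h2.2 h3.1 h3.2 hrs
  · rw [Finset.mul_sum, Finset.mul_sum]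
    refine Finset.sum_le_sum fun n hn => ?_
    have h2 := (bk_le hn).1
    have h3 : (2:ℝ) ^ j ≤ n := by exact_mod_cast h2
    have h4 : 25 * (V - -V + 1 / (1 / (2:ℝ) ^ (j + 1))) ≤ 50 * (V + n) := by
      rw [one_div_one_div, pow_succ]
      linarith
    calc 25 * (V - -V + 1 / (1 / (2:ℝ) ^ (j + 1))) * ‖c n‖ ^ 2
        ≤ 50 * (V + n) * ‖c n‖ ^ 2 := mul_le_mul_of_nonneg_right h4 (by positivity)
      _ = 50 * ((V + n) * ‖c n‖ ^ 2) := by ring

private theorem cont_blk (S : Finset ℕ) (hS : ∀ n ∈ S, n ≠ 0) (c : ℕ → ℂ) :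
    Continuous fun y : ℝ => ∑ n ∈ S, c n * (n : ℂ) ^ (-(I * y)) := by
  refine continuous_finsetSum _ fun n hn => ?_
  have h := hS n hn
  have : (fun y : ℝ => c n * (n : ℂ) ^ (-(I * y))) =
      fun y : ℝ => c n * cexp (-(I * (Real.log n : ℝ) * y)) := by
    funext y
    rw [cpow_eq h]
  rw [this]
  fun_prop

/-- mean value of a Dirichlet polynomial: split into dyadic blocks (at most `2 + log X / log 2` of
them), Cauchy-Schwarz over the blocks, `large_sieve` with `sep_log` on each block -/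
theorem exists_mean_le : ∃ C : ℝ, 1 ≤ C ∧ ∀ (X : ℕ) (V : ℝ) (c : ℕ → ℂ), 1 ≤ X → 1 ≤ V →
    ∫ y in (-V)..V, ‖∑ n ∈ Finset.Icc 1 X, c n * (n : ℂ) ^ (-(I * y))‖ ^ 2 ≤
      C * (1 + Real.log X) * ∑ n ∈ Finset.Icc 1 X, (V + n) * ‖c n‖ ^ 2 := by
  refine ⟨100, by norm_num, fun X V c hX hV => ?_⟩
  set J := Nat.log 2 X + 1 with hJ
  have hJle : (J : ℝ) ≤ 2 * (1 + Real.log X) := by
    have h1 : 2 ^ Nat.log 2 X ≤ X := Nat.pow_log_le_self 2 (by omega)
    have h2 : (Nat.log 2 X : ℝ) * Real.log 2 ≤ Real.log X := by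
      rw [← Real.log_pow]
      exact Real.log_le_log (by positivity) (by exact_mod_cast h1)
    have h3 : (0.6931471803 : ℝ) < Real.log 2 := Real.log_two_gt_d9
    have h4 : (0:ℝ) ≤ Nat.log 2 X := by positivity
    rw [hJ]
    push_cast
    nlinarith
  have hlog : 0 ≤ Real.log X := Real.log_nonneg (by exact_mod_cast hX)
  have hpt : ∀ y : ℝ, ‖∑ n ∈ Finset.Icc 1 X, c n * (n : ℂ) ^ (-(I * y))‖ ^ 2 ≤
      J * ∑ j ∈ Finset.range J, ‖∑ n ∈ bk X j, c n * (n : ℂ) ^ (-(I * y))‖ ^ 2 := by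
    intro y
    rw [sum_bk]
    calc ‖∑ j ∈ Finset.range (Nat.log 2 X + 1), ∑ n ∈ bk X j, c n * (n : ℂ) ^ (-(I * y))‖ ^ 2
        ≤ (∑ j ∈ Finset.range J, ‖∑ n ∈ bk X j, c n * (n : ℂ) ^ (-(I * y))‖) ^ 2 := by
          gcongr
          exact norm_sum_le _ _
      _ ≤ (Finset.range J).card * ∑ j ∈ Finset.range J,
            ‖∑ n ∈ bk X j, c n * (n : ℂ) ^ (-(I * y))‖ ^ 2 := sq_sum_le_card_mul_sum_sq
      _ = _ := by rw [Finset.card_range]
  have hne : ∀ j, ∀ n ∈ bk X j, n ≠ 0 := by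
    intro j n hn
    have h1 := (bk_le hn).1
    have h2 : 0 < 2 ^ j := by positivity
    omega
  have hcj : ∀ j, Continuous fun y : ℝ => ‖∑ n ∈ bk X j, c n * (n : ℂ) ^ (-(I * y))‖ ^ 2 :=
    fun j => (cont_blk (bk X j) (hne j) c).norm.pow 2
  have hc0 : Continuous fun y : ℝ => ‖∑ n ∈ Finset.Icc 1 X, c n * (n : ℂ) ^ (-(I * y))‖ ^ 2 :=
    (cont_blk (Finset.Icc 1 X) (fun n hn => by rw [Finset.mem_Icc] at hn; omega) c).norm.pow 2
  calc ∫ y in (-V)..V, ‖∑ n ∈ Finset.Icc 1 X, c n * (n : ℂ) ^ (-(I * y))‖ ^ 2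
      ≤ ∫ y in (-V)..V, J * ∑ j ∈ Finset.range J,
          ‖∑ n ∈ bk X j, c n * (n : ℂ) ^ (-(I * y))‖ ^ 2 := by
        refine intervalIntegral.integral_mono_on (by linarith) (hc0.intervalIntegrable _ _)
          (Continuous.intervalIntegrable ?_ _ _) (fun y _ => hpt y)
        exact continuous_const.mul (continuous_finsetSum _ fun j _ => hcj j)
    _ = J * ∑ j ∈ Finset.range J,
          ∫ y in (-V)..V, ‖∑ n ∈ bk X j, c n * (n : ℂ) ^ (-(I * y))‖ ^ 2 := by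
        rw [intervalIntegral.integral_const_mul, intervalIntegral.integral_finsetSum]
        intro j _
        exact (hcj j).intervalIntegrable _ _
    _ ≤ J * ∑ j ∈ Finset.range J, 50 * ∑ n ∈ bk X j, (V + n) * ‖c n‖ ^ 2 := by
        gcongr with j hj
        exact block_le X j hV c
    _ = 50 * J * ∑ n ∈ Finset.Icc 1 X, (V + n) * ‖c n‖ ^ 2 := by
        rw [← Finset.mul_sum, sum_bk X (fun n => (V + n) * ‖c n‖ ^ 2)]
        ring
    _ ≤ 100 * (1 + Real.log X) * ∑ n ∈ Finset.Icc 1 X, (V + n) * ‖c n‖ ^ 2 := by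
        apply mul_le_mul_of_nonneg_right
        · linarith
        · exact Finset.sum_nonneg fun n _ => by positivity

end Pool.Agent.AAS
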