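import Pool.Agent.H26.SP.CHI
import Pool.Agent.H26.SP.CS

/-!
# Almost all shifts: definitions

The recipe of Conrey, Farmer, Keating, Rubinstein and Snaith for almost all translates
`(α + u, β + u)` of the shifts, `u` in the box `[-T^θ, T^θ]^k`.
-/

set_option autoImplicit false

namespace Pool.Agent.AAS

open Complex Finset MeasureTheory Filter Topology
open Pool.Agent.H26

/-- The pair `ζ(1/2 + i(x+a)) ζ(1/2 - i(x+b))`. -/
noncomputable def pf (a b x : ℝ) : ℂ :=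
  riemannZeta (1 / 2 + I * (x + a)) * riemannZeta (1 / 2 - I * (x + b))

/-- The factor `χ(1/2 + i(x+a)) χ(1/2 - i(x+b))`. -/
noncomputable def XX (a b x : ℝ) : ℂ := chi (1 / 2 + I * (x + a)) * chi (1 / 2 - I * (x + b))

/-- Coprime pairs with product in `[2^j, 2^(j+1))`. -/
def blk (j : ℕ) : Finset (ℕ × ℕ) :=
  ((Finset.range (2 ^ (j + 1))) ×ˢ (Finset.range (2 ^ (j + 1)))).filter
    (fun p => Nat.Coprime p.1 p.2 ∧ 2 ^ j ≤ p.1 * p.2 ∧ p.1 * p.2 < 2 ^ (j + 1))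

/-- Coprime pairs with product in `[1, 2^J)`. -/
def low (J : ℕ) : Finset (ℕ × ℕ) :=
  ((Finset.range (2 ^ J)) ×ˢ (Finset.range (2 ^ J))).filter
    (fun p => Nat.Coprime p.1 p.2 ∧ 1 ≤ p.1 * p.2 ∧ p.1 * p.2 < 2 ^ J)

/-- The frequency `log (m / n)`. -/
noncomputable def lq (p : ℕ × ℕ) : ℝ := Real.log p.1 - Real.log p.2

/-- The coefficient `m^(-1/2-ia-s) n^(-1/2+ib-s)`. -/
noncomputable def cf (a b : ℝ) (s : ℂ) (p : ℕ × ℕ) : ℂ :=
  (p.1 : ℂ) ^ (-(1 / 2 + I * a + s)) * (p.2 : ℂ) ^ (-(1 / 2 - I * b + s))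

/-- The generalized Dirichlet polynomial of a finite set of pairs. -/
noncomputable def DP (S : Finset (ℕ × ℕ)) (a b : ℝ) (s : ℂ) (x : ℝ) : ℂ :=
  ∑ p ∈ S, cf a b s p * cexp (-(I * lq p * x))

/-- The kernel; it vanishes at `s = ±iD/2`. -/
noncomputable def KD (D : ℝ) (s : ℂ) : ℂ := cexp (s ^ 2) * (1 + 4 * s ^ 2 / D ^ 2) / s

/-- The factor which cancels the poles of `ζ(1/2 + i(x+a) + s) ζ(1/2 - i(x+b) + s)`. -/
noncomputable def P1 (a b : ℝ) (s : ℂ) (x : ℝ) : ℂ :=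
  (1 - s / (1 / 2 - I * (x + a))) * (1 - s / (1 / 2 + I * (x + b)))

/-- The slowly varying factors. -/
noncomputable def Yk (a b T : ℝ) (κ : Bool) (s : ℂ) (x : ℝ) : ℂ :=
  if κ then (T : ℂ) ^ (-s) * P1 a b (-s) x *
      (chi (1 / 2 + I * (x + a) - s) * chi (1 / 2 - I * (x + b) - s))
  else (T : ℂ) ^ s * P1 a b s x

/-- The swap of two shifts. -/
def sw (κ : Bool) (a b : ℝ) : ℝ := if κ then b else a

/-- The integrand of a block in the approximate functional equation. -/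
noncomputable def AI (a b T : ℝ) (κ : Bool) (j : ℕ) (s : ℂ) (x : ℝ) : ℂ :=
  KD (a - b) s * Yk a b T κ s x * riemannZeta (1 + 2 * s + I * (sw κ a b - sw κ b a)) *
    DP (blk j) (sw κ a b) (sw κ b a) s x

/-- `(2πi)⁻¹` times the integral over the line `Re s = c`. -/
noncomputable def LI (c : ℝ) (g : ℂ → ℂ) : ℂ := (2 * Real.pi : ℂ)⁻¹ * ∫ y : ℝ, g (c + y * I)

/-- A block of the approximate functional equation. -/
noncomputable def LIb (a b T : ℝ) (κ : Bool) (j : ℕ) (c : ℝ) (x : ℝ) : ℂ :=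
  LI c (fun s => AI a b T κ j s x)

/-- The low part of a pair. -/
noncomputable def lo (a b : ℝ) (J : ℕ) (x : ℝ) : ℂ :=
  riemannZeta (1 + I * (a - b)) * DP (low J) a b 0 x +
    XX a b x * (riemannZeta (1 + I * (b - a)) * DP (low J) b a 0 x)

/-- The cube `[-H, H]^k`. -/
def box (k : ℕ) (H : ℝ) : Set (Fin k → ℝ) := Set.univ.pi fun _ => Set.Icc (-H) H

/-- The diagonal sum of the low parts. -/
noncomputable def PP {k : ℕ} (a b : Fin k → ℝ) (J : ℕ) (u : Fin k → ℝ) : ℂ :=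
  (∏ j, riemannZeta (1 + I * (a j - b j))) *
    ∑ p ∈ (Fintype.piFinset fun _ : Fin k => low J).filter
      (fun p => ∏ j, (p j).1 = ∏ j, (p j).2),
      ∏ j, (cf (a j) (b j) 0 (p j) * cexp (-(I * lq (p j) * u j)))

/-- The translated shifts. -/
def gm {k : ℕ} (a b u : Fin k → ℝ) : Ix k → ℝ := Sum.elim (fun j => a j + u j) (fun j => b j + u j)

/-- The set of the recipe which swaps exactly the pairs `j` with `κ j = true`. -/
def Sk {k : ℕ} (κ : Fin k → Bool) : Finset (Ix k) :=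
  univ.filter (fun i => Sum.elim (fun j => !κ j) κ i = true)

/-- Well separated translations. -/
def U1 (k : ℕ) (R : ℝ) : Set (Fin k → ℝ) := {u | ∀ j l, j ≠ l → R ≤ |u j - u l|}

/-- The frequency of an unmatched swap. -/
def lamS {k : ℕ} (S : Finset (Ix k)) (u : Fin k → ℝ) : ℝ :=
  (∑ j, if Sum.inr j ∈ S then u j else 0) - ∑ j, if Sum.inl j ∈ S then 0 else u j

/-- Translations for which no unmatched swap has a small frequency. -/
def U2 (k : ℕ) (R : ℝ) : Set (Fin k → ℝ) :=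
  {u | ∀ S ∈ (univ : Finset (Ix k)).powersetCard k, (∀ κ, S ≠ Sk κ) → R ≤ |lamS S u|}

/-- `g` is `M` in mean square on `[A, B]`. -/
def L2B (A B : ℝ) (g : ℝ → ℂ) (M : ℝ) : Prop := 0 ≤ M ∧ ∫ x in A..B, ‖g x‖ ^ 2 ≤ M ^ 2

/-- The averaging inequality with constant `M`. -/
def AvB (H T₀ T : ℝ) (g : ℝ → ℂ) (M : ℝ) : Prop :=
  0 ≤ M ∧ ∀ Ψ : ℝ → ℂ, Measurable Ψ → (∃ K, ∀ t, ‖Ψ t‖ ≤ K) →
    ∫ u in (-H)..H, ‖∫ t in T₀..T, Ψ t * g (t + u)‖ ^ 2 ≤
      2 * H * M ^ 2 * ∫ t in T₀..T, ‖Ψ t‖ ^ 2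

/-- B4: tuples of coprime pairs with equal products, bounded by `X` -/
def Dg (k X : ℕ) : Finset (Fin k → ℕ × ℕ) :=
  (Fintype.piFinset fun _ : Fin k => (Finset.range (X + 1)) ×ˢ (Finset.range (X + 1))).filter
    (fun p => (∀ j, Nat.Coprime (p j).1 (p j).2) ∧ ∏ j, (p j).1 = ∏ j, (p j).2 ∧
      1 ≤ ∏ j, (p j).1 ∧ ∏ j, (p j).1 ≤ X)

/-- The main term along the complex line. -/
noncomputable def Phi {k : ℕ} (a b u : Fin k → ℝ) (s : ℂ) : ℂ :=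
  zetaAB (S0 k) (Sum.elim (fun j => ((a j + u j : ℝ) : ℂ) - I * s / 2)
    (fun j => ((b j + u j : ℝ) : ℂ) + I * s / 2))

/-- The kernel with zeros at `-i D_j`. -/
noncomputable def KK {k : ℕ} (D : Fin k → ℝ) (s : ℂ) : ℂ :=
  cexp (s ^ 2) / s * ∏ j, (1 + s / (I * D j))

/-- The weight of a tuple. -/
noncomputable def Vf {k : ℕ} (D : Fin k → ℝ) (N : ℝ) (M : ℕ) : ℂ :=
  LI (1 / 8) (fun s => KK D s * (∏ j, riemannZeta (1 + s + I * D j)) * ((N / M : ℝ) : ℂ) ^ s)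

/-- The coefficient of a tuple. -/
noncomputable def ct {k : ℕ} (a b : Fin k → ℝ) (p : Fin k → ℕ × ℕ) : ℂ :=
  ∏ j, cf (a j) (b j) 0 (p j)

/-- The grid. -/
noncomputable def grA (r : ℝ) {k : ℕ} (m : Fin k → ℤ) : Fin k → ℝ := fun j => r * m j

noncomputable def grB (r : ℝ) {k : ℕ} (m : Fin k → ℤ) : Fin k → ℝ := fun j => r * (m j + 1 / 2)

/-- The local second moment of zeta in windows of length at least `T^w`. -/
def LocalBound (w : ℝ) : Prop := ∀ B ε : ℝ, 0 ≤ B → 0 < ε →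
    ∃ C : ℝ, 1 ≤ C ∧ ∀ T H : ℝ, 1 ≤ T → T ^ w ≤ H → H ≤ T → ∀ a : ℝ, |a| ≤ B →
    ∀ t : ℝ, |t| ≤ T →
    ∫ u in (-H)..H, ‖riemannZeta (1 / 2 + I * (t + u + a))‖ ^ 2 ≤ C * T ^ ε * (2 * H)

end Pool.Agent.AAS
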