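import Pool.Agent.AAS.Defs

/-!
# Almost all shifts: definitions for the comparison of the diagonal sum with the recipe
-/

set_option autoImplicit false

namespace Pool.Agent.AAS

open Complex Finset MeasureTheory Filter Topology
open Pool.Agent.H26

/-- The tuples of reduced fractions of height less than `2^J` with product one. -/
def Qt (k J : ℕ) : Finset (Fin k → ℕ × ℕ) :=
  (Fintype.piFinset fun _ : Fin k => low J).filter (fun p => ∏ j, (p j).1 = ∏ j, (p j).2)

/-- A term of the diagonal sum with the complex parameter `s`. -/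
noncomputable def tq {k : ℕ} (a b u : Fin k → ℝ) (s : ℂ) (p : Fin k → ℕ × ℕ) : ℂ :=
  ∏ j, (cf (a j) (b j) (s / 2) (p j) * cexp (-(I * lq (p j) * u j)))

/-- The short diagonal sum with the complex parameter `s`. -/
noncomputable def SJ {k : ℕ} (a b : Fin k → ℝ) (J : ℕ) (u : Fin k → ℝ) (s : ℂ) : ℂ :=
  ∑ p ∈ Qt k J, tq a b u s p

/-- The product of the zeta values of the pairs with the complex parameter `s`. -/
noncomputable def ZD {k : ℕ} (a b : Fin k → ℝ) (s : ℂ) : ℂ :=
  ∏ j, riemannZeta (1 + s + I * (a j - b j))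

/-- The differences of the shifts. -/
def dl {k : ℕ} (a b u : Fin k → ℝ) (j l : Fin k) : ℝ := a j - b l + (u j - u l)

/-- The factor of the kernel which kills the poles. -/
noncomputable def kf {k : ℕ} (a b u : Fin k → ℝ) (s : ℂ) : ℂ :=
  ∏ j, ∏ l, (1 + s / (I * dl a b u j l))

/-- The arguments of the recipe with the complex parameter `s`. -/
noncomputable def gs {k : ℕ} (a b u : Fin k → ℝ) (s : ℂ) : Ix k → ℂ :=
  Sum.elim (fun j => ((a j + u j : ℝ) : ℂ) - I * s / 2) (fun j => ((b j + u j : ℝ) : ℂ) + I * s / 2)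

/-- The difference between the recipe and the short diagonal sum, times the kernel, without
poles. -/
noncomputable def gF {k : ℕ} (a b : Fin k → ℝ) (J : ℕ) (u : Fin k → ℝ) (s : ℂ) : ℂ :=
  cexp (s ^ 2) *
    (eulerF (S0 k) (gs a b u s) *
        ∏ j, ∏ l, (riemannZeta₁ (1 + s + I * dl a b u j l) / (I * dl a b u j l)) -
      (∏ j, ∏ l ∈ univ.erase j, (1 + s / (I * dl a b u j l))) *
        (∏ j, (riemannZeta₁ (1 + s + I * dl a b u j j) / (I * dl a b u j j))) *
          SJ a b J u s)

/-- The coefficients of the series of reduced tuples. -/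
noncomputable def cq {k : ℕ} (a b u : Fin k → ℝ) (M : ℕ) : ℂ :=
  ∑ p ∈ (Dg k M).filter (fun p => ∏ j, (p j).1 = M),
    ∏ j, (((p j).1 : ℂ) ^ (-(I * (a j + u j))) * ((p j).2 : ℂ) ^ (I * (b j + u j)))

end Pool.Agent.AAS
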