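import Pool.Agent.AAS.Defs7
import Pool.Agent.AAS.VO2

/-!
# Almost all shifts: definitions for the truncated moments
-/

set_option autoImplicit false

namespace Pool.Agent.AAS

open Complex Finset MeasureTheory Filter Topology
open Pool.Agent.H26

/-- The error of the recipe when the moment is restricted to `G`. -/
noncomputable def EG {k : ℕ} (G : Set ℝ) (γ : Ix k → ℝ) (T : ℝ) : ℂ :=
  Er γ T - ∫ t in Set.Icc 0 T \ G,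
    Z (fun j => γ (Sum.inl j)) (fun j => γ (Sum.inr j)) t

/-- The largest integral over `G` and a short interval of the product of the pairs, the first pair
fixed. -/
noncomputable def SpG {k : ℕ} (G : Set ℝ) (a b : Fin (k + 1) → ℝ) (T h : ℝ) (N : ℕ)
    (v : Fin k → ℝ) : ℝ :=
  (Finset.range (N + 1)).sup' Finset.nonempty_range_add_one (fun i =>
    ∫ t in Set.Icc (T + i * h) (T + (i + 1) * h) ∩ G, ∏ j, ‖pf (a j) (b j) (t + fx v j)‖)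

/-- The core estimate for the truncated moments. -/
def CoreG (k : ℕ) (G : Set ℝ) (θ₁ θ₂ : ℝ) : Prop :=
  ∃ c c₂ ε₀ : ℝ, 0 < c ∧ 0 < c₂ ∧ 0 < ε₀ ∧ ∀ B ε : ℝ,
    0 ≤ B → 0 < ε → ε ≤ ε₀ → ∃ C T₁ : ℝ, 1 ≤ C ∧ 1 ≤ T₁ ∧ ∀ T H : ℝ, T₁ ≤ T → T ^ θ₁ ≤ H →
    H ≤ 2 * T ^ θ₂ → ∀ a b : Fin (k + 1) → ℝ,
    (∀ j, |a j| ≤ B) → (∀ j, |b j| ≤ B) → (∀ j, T ^ (-ε) ≤ |a j - b j|) →
    ∫ v in Vg k H (2 * B + 1) (2 * H * T ^ (-c₂)), ‖EG G (gm a b (fx v)) T‖ ≤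
      (2 * H) ^ k * (C * T ^ (1 - c))

/-- The maximal inequality for short intervals. -/
def MaxG (k : ℕ) (G : Set ℝ) (θ₁ θ₂ : ℝ) : Prop :=
  ∀ κ : ℝ, 0 < κ → κ ≤ 1 → ∃ c ε₀ : ℝ, 0 < c ∧ 0 < ε₀ ∧ ∀ B ε : ℝ,
    0 ≤ B → 0 < ε → ε ≤ ε₀ → ∃ C T₁ : ℝ, 1 ≤ C ∧ 1 ≤ T₁ ∧ ∀ T H : ℝ, T₁ ≤ T → T ^ θ₁ ≤ H →
    H ≤ 2 * T ^ θ₂ → ∀ a b : Fin (k + 1) → ℝ,
    (∀ j, |a j| ≤ B) → (∀ j, |b j| ≤ B) → (∀ j, T ^ (-ε) ≤ |a j - b j|) →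
    ∀ N : ℕ, N * T ^ (1 - κ) ≤ T →
    ∫ v in box k H, SpG G a b T (T ^ (1 - κ)) N v ≤ (2 * H) ^ k * (C * T ^ (1 - c))

/-- From small measure to the supremum over the shifts. -/
def SupG (k : ℕ) (G : Set ℝ) : Prop :=
  ∀ B e c : ℝ, 0 ≤ B → 0 < e → 0 ≤ c → c ≤ 1 → ∃ C : ℝ, 1 ≤ C ∧ ∀ T : ℝ, 1 ≤ T →
    ∀ u ∈ box k T,
    volume {γ : Ix k → ℝ | (∀ i, |γ i| ≤ B + 1) ∧ T ^ (1 - c) < ‖EG G (γ + Sum.elim u u) T‖} ≤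
      ENNReal.ofReal (C⁻¹ * T ^ (-e)) →
    ∀ γ : Ix k → ℝ, (∀ i, |γ i| ≤ B) → ‖EG G (γ + Sum.elim u u) T‖ ≤ C * T ^ (1 - c)

end Pool.Agent.AAS
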