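import Pool.Agent.AAS.DefsG

set_option autoImplicit false

namespace Pool.Agent.AAS

open Complex Finset MeasureTheory Filter Topology Set
open Pool.Agent.H26

/-- The local fourth moment condition at the height `T` and the scale `H`. -/
def Gd (T H d : ℝ) (G : Set ℝ) : Prop :=
  ∀ t ∈ G, ∫ u in (-(2 * H))..(2 * H), ‖riemannZeta (1 / 2 + I * (t + u))‖ ^ 4 ≤ H * T ^ d

/-- The product of the pairs, the first pair fixed. -/
noncomputable def PR {k : ℕ} (a b : Fin (k + 1) → ℝ) (v : Fin k → ℝ) (t : ℝ) : ℂ :=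
  ∏ j, pf (a j) (b j) (t + fx v j)

/-- The product of the low parts, the first pair fixed. -/
noncomputable def PL {k : ℕ} (a b : Fin (k + 1) → ℝ) (J : ℕ) (v : Fin k → ℝ) (t : ℝ) : ℂ :=
  ∏ j, lo (a j) (b j) J (t + fx v j)

/-- The set of the heights whose local fourth moments are small, for all dyadic windows between
`t ^ κ` and `t`. -/
def Gset (κ d : ℝ) : Set ℝ :=
  {t | 1 ≤ t ∧ ∀ m : ℕ, t ^ κ ≤ (2:ℝ) ^ m → (2:ℝ) ^ m ≤ t →
    ∫ u in (-(4 * 2 ^ m : ℝ))..(4 * 2 ^ m), ‖riemannZeta (1 / 2 + I * (t + u))‖ ^ 4 ≤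
      2 ^ m * t ^ d}

/-- The union of the windows `[m H, (m + 1) H)` near which the fourth moment is small. -/
def GW (T H d : ℝ) : Set ℝ :=
  {t | ∫ x in ((⌊t / H⌋ : ℝ) * H - 4 * H)..((⌊t / H⌋ : ℝ) * H + 5 * H),
    ‖riemannZeta (1 / 2 + I * x)‖ ^ 4 ≤ H * T ^ d}

end Pool.Agent.AAS
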