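import Pool.Agent.AAS.BDW
import Pool.Agent.AAS.GLP

set_option autoImplicit false

namespace Pool.Agent.AAS

open Complex Finset MeasureTheory Filter Topology Set
open Pool.Agent.H26

private lemma mga_cont {k : ℕ} (a b : Fin (k + 1) → ℝ) :
    Continuous (Function.uncurry fun (v : Fin k → ℝ) (t : ℝ) => ‖PR a b v t‖) := by
  have hfxc : ∀ j : Fin (k + 1), Continuous fun v : Fin k → ℝ => fx v j := by
    intro j
    refine Fin.cases ?_ (fun i => ?_) j
    · simp only [fx, Fin.cons_zero]; exact continuous_const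
    · simp only [fx, Fin.cons_succ]; exact continuous_apply i
  show Continuous fun p : (Fin k → ℝ) × ℝ => ‖∏ j, pf (a j) (b j) (p.2 + fx p.1 j)‖
  refine Continuous.norm ?_
  refine continuous_finsetProd _ fun j _ => ?_
  exact (continuous_pf (a j) (b j)).comp (continuous_snd.add ((hfxc j).comp continuous_fst))

private lemma mga_cont1 {k : ℕ} (a b : Fin (k + 1) → ℝ) (v : Fin k → ℝ) :
    Continuous fun t : ℝ => ‖PR a b v t‖ := by
  unfold PR
  refine Continuous.norm ?_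
  refine continuous_finsetProd _ fun j _ => ?_
  exact (continuous_pf (a j) (b j)).comp (continuous_id.add continuous_const)

private lemma mga_cont2 {k : ℕ} (a b : Fin (k + 1) → ℝ) :
    Continuous (Function.uncurry fun (v : Fin k → ℝ) (t : ℝ) => ‖PR a b v t‖ ^ 2) := by
  have h := (mga_cont a b).pow 2
  exact h.congr fun p => rfl

private lemma mga_setInt {k : ℕ} {f : (Fin k → ℝ) → ℝ → ℝ}
    (hf : Continuous (Function.uncurry f)) (G : Set ℝ) (x y : ℝ) :
    Continuous fun v => ∫ t in Icc x y ∩ G, f v t := by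
  have h := continuous_parametric_integral_of_continuous (μ := volume.restrict G) hf
    (isCompact_Icc (a := x) (b := y))
  refine h.congr fun q => ?_
  rw [Measure.restrict_restrict measurableSet_Icc]

private lemma mga_vol {k : ℕ} {H : ℝ} (hH : 0 < H) : volume.real (box k H) = (2 * H) ^ k := by
  rw [Measure.real, VOL_box, ENNReal.toReal_pow, ENNReal.toReal_ofReal (by linarith)]

/-- the pointwise bound -/
private lemma mga_point {k : ℕ} (a b : Fin (k + 1) → ℝ) {T h l : ℝ} {G : Set ℝ}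
    (hG : MeasurableSet G) (hT : 0 ≤ T) (hh : 0 ≤ h) (hl : 0 < l) {N : ℕ}
    (hN : (N + 1) * h ≤ 2 * T) (v : Fin k → ℝ) :
    SpG univ a b T h N v ≤ l * h / 2 + (∫ t in Icc T (T + 2 * T) ∩ G, ‖PR a b v t‖ ^ 2) / (2 * l) +
      ∫ t in Icc 0 (4 * T) ∩ Gᶜ, ‖PR a b v t‖ := by
  have hc : Continuous fun t => ‖PR a b v t‖ := mga_cont1 a b v
  unfold SpG
  refine Finset.sup'_le _ _ fun i hi => ?_
  have hiN : (i : ℝ) ≤ N := by
    have := Finset.mem_range.1 hi
    exact_mod_cast Nat.lt_succ_iff.1 this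
  have hi0 : (0 : ℝ) ≤ i := Nat.cast_nonneg i
  set S : Set ℝ := Icc (T + i * h) (T + (i + 1) * h) with hS
  have hSm : MeasurableSet S := measurableSet_Icc
  have hS1 : S ⊆ Icc T (T + 2 * T) := by
    intro t ht
    have e1 : 0 ≤ i * h := mul_nonneg hi0 hh
    have e2 : (i + 1) * h ≤ (N + 1) * h := by gcongr
    exact ⟨by linarith [ht.1], by linarith [ht.2]⟩
  have hS2 : S ⊆ Icc 0 (4 * T) := fun t ht => ⟨by linarith [(hS1 ht).1], by linarith [(hS1 ht).2]⟩
  have hvol : volume.real S = h := by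
    rw [Measure.real, Real.volume_Icc, ENNReal.toReal_ofReal]
    · ring
    · nlinarith
  have e0 : ∫ t in S ∩ univ, ∏ j, ‖pf (a j) (b j) (t + fx v j)‖ = ∫ t in S, ‖PR a b v t‖ := by
    rw [Set.inter_univ]
    refine setIntegral_congr_fun hSm fun t _ => ?_
    simp only [PR, norm_prod]
  rw [e0, ← integral_inter_add_sdiff (μ := volume) (s := S) hG (hc.integrableOn_Icc)]
  have i1 : IntegrableOn (fun t => ‖PR a b v t‖) (S ∩ G) :=
    (hc.integrableOn_Icc).mono_set Set.inter_subset_left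
  have i2 : IntegrableOn (fun t => ‖PR a b v t‖ ^ 2) (Icc T (T + 2 * T) ∩ G) :=
    ((hc.pow 2).integrableOn_Icc).mono_set Set.inter_subset_left
  have i3 : IntegrableOn (fun t => ‖PR a b v t‖) (Icc 0 (4 * T) ∩ Gᶜ) :=
    (hc.integrableOn_Icc).mono_set Set.inter_subset_left
  have hsub : S ∩ G ⊆ Icc T (T + 2 * T) ∩ G := Set.inter_subset_inter_left _ hS1
  refine add_le_add ?_ ?_
  · have hfin : volume (S ∩ G) ≠ ⊤ :=
      ((measure_mono Set.inter_subset_left).trans_lt (by rw [hS]; exact measure_Icc_lt_top)).ne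
    have j1 : IntegrableOn (fun t => ‖PR a b v t‖ ^ 2 / (2 * l)) (S ∩ G) :=
      (i2.mono_set hsub).div_const _
    have j2 : IntegrableOn (fun _ : ℝ => l / 2) (S ∩ G) := integrableOn_const hfin
    calc ∫ t in S ∩ G, ‖PR a b v t‖ ≤ ∫ t in S ∩ G, (l / 2 + ‖PR a b v t‖ ^ 2 / (2 * l)) := by
          refine integral_mono i1 (j2.add j1) fun t => ?_
          have hp : 0 ≤ ‖PR a b v t‖ := norm_nonneg _
          have : ‖PR a b v t‖ = l / 2 + ‖PR a b v t‖ ^ 2 / (2 * l) -
              (l - ‖PR a b v t‖) ^ 2 / (2 * l) := by field_simp; ring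
          have h2 : 0 ≤ (l - ‖PR a b v t‖) ^ 2 / (2 * l) := by positivity
          show ‖PR a b v t‖ ≤ l / 2 + ‖PR a b v t‖ ^ 2 / (2 * l)
          linarith
      _ = volume.real (S ∩ G) * (l / 2) + (∫ t in S ∩ G, ‖PR a b v t‖ ^ 2) / (2 * l) := by
          have z1 : ∫ _t in S ∩ G, l / 2 = volume.real (S ∩ G) * (l / 2) := by
            rw [setIntegral_const, smul_eq_mul]
          have z2 : ∫ t in S ∩ G, ‖PR a b v t‖ ^ 2 / (2 * l) =
              (∫ t in S ∩ G, ‖PR a b v t‖ ^ 2) / (2 * l) := integral_div _ _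
          rw [integral_add j2 j1, z1, z2]
      _ ≤ h * (l / 2) + (∫ t in Icc T (T + 2 * T) ∩ G, ‖PR a b v t‖ ^ 2) / (2 * l) := by
          refine add_le_add ?_ ?_
          · refine mul_le_mul_of_nonneg_right ?_ (by positivity)
            rw [← hvol]
            exact measureReal_mono Set.inter_subset_left (by rw [hS]; exact measure_Icc_lt_top.ne)
          · refine div_le_div_of_nonneg_right ?_ (by positivity)
            exact setIntegral_mono_set i2 (Eventually.of_forall fun t => by positivity)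
              (LE.le.eventuallyLE hsub)
      _ = _ := by ring
  · refine setIntegral_mono_set i3 (Eventually.of_forall fun t => norm_nonneg _)
      (LE.le.eventuallyLE ?_)
    intro t ht
    exact ⟨hS2 ht.1, ht.2⟩

/-- the first moment as a lower integral -/
private lemma mga_lint {k : ℕ} (a b : Fin (k + 1) → ℝ) {T H M : ℝ} {G : Set ℝ}
    (hM : 0 ≤ M)
    (hb : ∫⁻ v in box k H, ∫⁻ t in Icc 0 (4 * T) \ G, ‖PR a b v t‖ₑ ≤ ENNReal.ofReal M) :
    ∫ v in box k H, ∫ t in Icc 0 (4 * T) ∩ Gᶜ, ‖PR a b v t‖ ≤ M := by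
  have hw : Continuous fun v : Fin k → ℝ => ∫ t in Icc 0 (4 * T) ∩ Gᶜ, ‖PR a b v t‖ :=
    mga_setInt (mga_cont a b) Gᶜ _ _
  have h1 : ENNReal.ofReal (∫ v in box k H, ∫ t in Icc 0 (4 * T) ∩ Gᶜ, ‖PR a b v t‖) =
      ∫⁻ v in box k H, ENNReal.ofReal (∫ t in Icc 0 (4 * T) ∩ Gᶜ, ‖PR a b v t‖) := by
    refine ofReal_integral_eq_lintegral_ofReal
      (hw.continuousOn.integrableOn_compact (isCompact_univ_pi fun _ => isCompact_Icc)) ?_
    exact Eventually.of_forall fun v => integral_nonneg fun t => norm_nonneg _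
  have h2 : ∀ v : Fin k → ℝ, ENNReal.ofReal (∫ t in Icc 0 (4 * T) ∩ Gᶜ, ‖PR a b v t‖) =
      ∫⁻ t in Icc 0 (4 * T) \ G, ‖PR a b v t‖ₑ := by
    intro v
    have hc : Continuous fun t => ‖PR a b v t‖ := mga_cont1 a b v
    rw [ofReal_integral_eq_lintegral_ofReal
      ((hc.integrableOn_Icc).mono_set Set.inter_subset_left)
      (Eventually.of_forall fun t => norm_nonneg _), ← Set.sdiff_eq]
    refine lintegral_congr fun t => ?_
    rw [ofReal_norm]
  rw [← ENNReal.ofReal_le_ofReal_iff hM, h1]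
  simp only [h2]
  exact hb

/-- the maximal inequality for `G = univ` -/
theorem maxG_univ (k : ℕ) (hk : 1 ≤ k) (θ₁ θ₂ : ℝ) (h0 : 0 < θ₁)
    (hθ : ((k : ℝ) - 1) / (3 * k) < θ₁) (h1 : θ₁ ≤ θ₂) (h2 : θ₂ < 1) : MaxG k univ θ₁ θ₂ := by
  intro κ hκ0 hκ1
  obtain ⟨d, hd⟩ : ∃ d : ℝ, d = κ / (4 * ((k : ℝ) + 1)) := ⟨_, rfl⟩
  have hk0 : (0 : ℝ) < (k : ℝ) + 1 := by positivity
  have hd0 : 0 < d := by rw [hd]; positivity
  have hkd : ((k : ℝ) + 1) * d = κ / 4 := by rw [hd]; field_simp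
  obtain ⟨c, hc, hbw⟩ := exists_bad_windows k hk θ₁ θ₂ d h0 hθ h1 h2 hd0
  refine ⟨min c (κ / 4), 1, lt_min hc (by positivity), one_pos, fun B ε hB hε hε1 => ?_⟩
  obtain ⟨C, T₁, hC, hT₁, hbw⟩ := hbw B hB
  refine ⟨C + 7, max T₁ ((B + 1) ^ (1 / θ₁)), by linarith, le_max_of_le_left hT₁, ?_⟩
  intro T H hT hH1 hH2 a b ha hb _ N hN
  have hTT : T₁ ≤ T := (le_max_left _ _).trans hT
  have hT1 : 1 ≤ T := hT₁.trans hTT
  have hT0 : 0 < T := by linarith
  have hBH : B + 1 ≤ H := by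
    refine le_trans ?_ hH1
    have e1 : (B + 1) ^ (1 / θ₁) ≤ T := (le_max_right _ _).trans hT
    have e2 : ((B + 1) ^ (1 / θ₁)) ^ θ₁ ≤ T ^ θ₁ :=
      Real.rpow_le_rpow (Real.rpow_nonneg (by linarith) _) e1 h0.le
    rwa [← Real.rpow_mul (by linarith), one_div_mul_cancel h0.ne', Real.rpow_one] at e2
  have hH0 : 0 < H := by linarith
  have hHT : H ≤ 2 * T := by
    refine hH2.trans ?_
    have : T ^ θ₂ ≤ T ^ (1 : ℝ) := Real.rpow_le_rpow_of_exponent_le hT1 h2.le
    rw [Real.rpow_one] at this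
    linarith
  obtain ⟨h, hh⟩ : ∃ h : ℝ, h = T ^ (1 - κ) := ⟨_, rfl⟩
  rw [← hh] at hN ⊢
  have hh0 : 0 < h := by rw [hh]; positivity
  have hhT : h ≤ T := by
    have : T ^ (1 - κ) ≤ T ^ (1 : ℝ) := Real.rpow_le_rpow_of_exponent_le hT1 (by linarith)
    rw [Real.rpow_one] at this
    rwa [hh]
  have hN2 : ((N : ℝ) + 1) * h ≤ 2 * T := by linarith
  set G : Set ℝ := GW T H d with hG
  have hGm : MeasurableSet G := measurableSet_GW hH0
  obtain ⟨l, hl⟩ : ∃ l : ℝ, l = T ^ (κ / 2) := ⟨_, rfl⟩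
  have hl0 : 0 < l := by rw [hl]; positivity
  have hbc : IsCompact (box k H) := isCompact_univ_pi fun _ => isCompact_Icc
  set Y : (Fin k → ℝ) → ℝ := fun v => ∫ t in Icc T (T + 2 * T) ∩ G, ‖PR a b v t‖ ^ 2 with hY
  set W : (Fin k → ℝ) → ℝ := fun v => ∫ t in Icc 0 (4 * T) ∩ Gᶜ, ‖PR a b v t‖ with hW
  have hYc : Continuous Y := mga_setInt (mga_cont2 a b) G _ _
  have hWc : Continuous W := mga_setInt (mga_cont a b) Gᶜ _ _
  have hYi : IntegrableOn Y (box k H) := hYc.continuousOn.integrableOn_compact hbc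
  have hWi : IntegrableOn W (box k H) := hWc.continuousOn.integrableOn_compact hbc
  have hbox0 : (0 : ℝ) ≤ (2 * H) ^ k := by positivity
  have hY1 : ∫ v in box k H, Y v ≤ (2 * H) ^ k * (12 * T ^ (1 + κ / 4)) := by
    have e1 := gl_segment (A := T) (h := 2 * T) hGm (GW_Gd hH0) hT1 hd0.le hB (by linarith) hH0
      (by linarith) ha hb
    rw [hkd] at e1
    have e2 : ∀ v : Fin k → ℝ, Y v = ∫ t in G ∩ Icc T (T + 2 * T), ‖PR a b v t‖ ^ 2 := by
      intro v
      rw [hY, Set.inter_comm]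
    simp only [e2]
    refine e1.trans (mul_le_mul_of_nonneg_left ?_ hbox0)
    rw [Real.rpow_add hT0, Real.rpow_one]
    have : 0 < T ^ (κ / 4) := by positivity
    nlinarith
  have hW1 : ∫ v in box k H, W v ≤ (2 * H) ^ k * (C * T ^ (1 - c)) :=
    mga_lint a b (by positivity) (hbw T H hTT hH1 hH2 a b ha hb)
  have hmain : ∫ v in box k H, SpG univ a b T h N v ≤
      ∫ v in box k H, (l * h / 2 + Y v / (2 * l) + W v) := by
    refine integral_mono_of_nonneg (Eventually.of_forall fun v => ?_) ?_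
      (Eventually.of_forall fun v => mga_point a b hGm hT0.le hh0.le hl0 hN2 v)
    · show 0 ≤ SpG univ a b T h N v
      unfold SpG
      refine le_trans ?_ (Finset.le_sup' _ (Finset.mem_range.2 (Nat.succ_pos N)))
      exact integral_nonneg fun t => Finset.prod_nonneg fun j _ => norm_nonneg _
    · exact ((integrableOn_const hbc.measure_lt_top.ne).add (hYi.div_const _)).add hWi
  refine hmain.trans ?_
  have ic : IntegrableOn (fun _ : Fin k → ℝ => l * h / 2) (box k H) :=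
    integrableOn_const hbc.measure_lt_top.ne
  have iY : IntegrableOn (fun v => Y v / (2 * l)) (box k H) := hYi.div_const _
  have i1 : IntegrableOn (fun v => l * h / 2 + Y v / (2 * l)) (box k H) := ic.add iY
  have s1 : ∫ v in box k H, (l * h / 2 + Y v / (2 * l) + W v) =
      (∫ v in box k H, (l * h / 2 + Y v / (2 * l))) + ∫ v in box k H, W v := integral_add i1 hWi
  have s2 : ∫ v in box k H, (l * h / 2 + Y v / (2 * l)) =
      (∫ _v in box k H, l * h / 2) + ∫ v in box k H, Y v / (2 * l) := integral_add ic iY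
  have s3 : ∫ _v in box k H, l * h / 2 = (2 * H) ^ k * (l * h / 2) := by
    rw [setIntegral_const, smul_eq_mul, mga_vol hH0]
  have s4 : ∫ v in box k H, Y v / (2 * l) = (∫ v in box k H, Y v) / (2 * l) := integral_div _ _
  rw [s1, s2, s3, s4]
  have p1 : l * h = T ^ (1 - κ / 2) := by
    rw [hl, hh, ← Real.rpow_add hT0]
    congr 1
    ring
  have p2 : T ^ (1 + κ / 4) / l = T ^ (1 - κ / 4) := by
    rw [hl, ← Real.rpow_sub hT0]
    congr 1
    ring
  have q1 : T ^ (1 - κ / 2) ≤ T ^ (1 - min c (κ / 4)) :=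
    Real.rpow_le_rpow_of_exponent_le hT1 (by linarith [min_le_right c (κ / 4)])
  have q2 : T ^ (1 - κ / 4) ≤ T ^ (1 - min c (κ / 4)) :=
    Real.rpow_le_rpow_of_exponent_le hT1 (by linarith [min_le_right c (κ / 4)])
  have q3 : T ^ (1 - c) ≤ T ^ (1 - min c (κ / 4)) :=
    Real.rpow_le_rpow_of_exponent_le hT1 (by linarith [min_le_left c (κ / 4)])
  set P : ℝ := T ^ (1 - min c (κ / 4)) with hP
  have hP0 : 0 < P := by rw [hP]; positivity
  have r1 : (2 * H) ^ k * (l * h / 2) ≤ (2 * H) ^ k * P := by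
    refine mul_le_mul_of_nonneg_left ?_ hbox0
    rw [p1]
    have : 0 < T ^ (1 - κ / 2) := by positivity
    linarith
  have r2 : (∫ v in box k H, Y v) / (2 * l) ≤ (2 * H) ^ k * (6 * P) := by
    calc (∫ v in box k H, Y v) / (2 * l) ≤ (2 * H) ^ k * (12 * T ^ (1 + κ / 4)) / (2 * l) := by
          gcongr
      _ = (2 * H) ^ k * (6 * (T ^ (1 + κ / 4) / l)) := by field_simp; ring
      _ ≤ _ := by rw [p2]; gcongr
  have r3 : ∫ v in box k H, W v ≤ (2 * H) ^ k * (C * P) := by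
    refine hW1.trans ?_
    gcongr
  have : (2 * H) ^ k * ((C + 7) * P) = (2 * H) ^ k * P + (2 * H) ^ k * (6 * P) +
      (2 * H) ^ k * (C * P) := by ring
  rw [this]
  linarith

end Pool.Agent.AAS
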