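import Pool.Agent.AAS.AUB
import Pool.Agent.AAS.CGA
import Pool.Agent.AAS.MGA

set_option autoImplicit false

namespace Pool.Agent.AAS

open Complex Finset MeasureTheory Filter Topology Set
open Pool.Agent.H26

/-- Theorem A': the recipe for almost all shifts, `(k - 1) / (3 k) < θ₁`. -/
theorem almost_all_sharp (k : ℕ) (hk : 1 ≤ k) (θ₁ θ₂ : ℝ) (h₀ : 0 < θ₁)
    (h₁ : ((k : ℝ) - 1) / (3 * k) < θ₁) (h₁₂ : θ₁ ≤ θ₂) (h₂ : θ₂ < 1) : ∃ c : ℝ, 0 < c ∧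
    ∃ Ex : Set (Fin k → ℝ), MeasurableSet Ex ∧
    (∀ V : ℝ, 1 ≤ V → volume (Ex ∩ {v | ‖v‖ ≤ V}) ≤ ENNReal.ofReal (V ^ (k - c))) ∧
    ∀ B : ℝ, ∃ C : ℝ, ∀ v, v ∉ Ex → ∀ T : ℝ, 1 ≤ T → T ^ θ₁ ≤ ‖v‖ → ‖v‖ ≤ T ^ θ₂ →
    ∀ α β : Fin (k + 1) → ℝ, (∀ j, |α j| ≤ B) → (∀ j, |β j| ≤ B) →
    ‖E (fun j => α j + fx v j) (fun j => β j + fx v j) T‖ ≤ C * T ^ (1 - c) := by
  have hk0 : (1:ℝ) ≤ k := by exact_mod_cast hk
  have hm : 0 ≤ ((k : ℝ) - 1) / (3 * k) := div_nonneg (by linarith) (by linarith)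
  exact final_of_univ (θ₀ := (((k : ℝ) - 1) / (3 * k) + θ₁) / 2) (θ₃ := (θ₂ + 1) / 2)
    (by linarith) (by linarith) h₁₂ (by linarith) (by linarith)
    (coreG_univ k hk _ _ (by linarith) (by linarith) (by linarith) (by linarith))
    (maxG_univ k hk _ _ (by linarith) (by linarith) (by linarith) (by linarith))

end Pool.Agent.AAS
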