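import Pool.Agent.AAS.BDW
import Pool.Agent.AAS.GST
import Pool.Agent.AAS.GLP

set_option autoImplicit false

namespace Pool.Agent.AAS

open Complex Finset MeasureTheory Filter Topology Set
open Pool.Agent.H26

private lemma mgb_compact (k : ℕ) (H : ℝ) : IsCompact (box k H) :=
  isCompact_univ_pi fun _ => isCompact_Icc

private lemma mgb_meas (k : ℕ) (H : ℝ) : MeasurableSet (box k H) :=
  (mgb_compact k H).measurableSet

private lemma mgb_volume (k : ℕ) {H : ℝ} (hH : 0 ≤ H) :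
    volume.real (box k H) = (2 * H) ^ k := by
  have h : volume (box k H) = ENNReal.ofReal ((2 * H) ^ k) := by
    unfold box
    rw [volume_pi_pi]
    simp only [Real.volume_Icc, Finset.prod_const, Finset.card_univ, Fintype.card_fin]
    rw [← ENNReal.ofReal_pow (by linarith)]
    congr 2
    ring
  rw [Measure.real, h, ENNReal.toReal_ofReal (by positivity)]

private lemma mgb_fx {k : ℕ} (j : Fin (k + 1)) : Continuous fun v : Fin k → ℝ => fx v j := by
  refine Fin.cases ?_ (fun i => ?_) j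
  · simp only [fx, Fin.cons_zero]; exact continuous_const
  · simp only [fx, Fin.cons_succ]; exact continuous_apply i

private lemma mgb_PR {k : ℕ} (a b : Fin (k + 1) → ℝ) :
    Continuous fun p : (Fin k → ℝ) × ℝ => PR a b p.1 p.2 := by
  unfold PR
  refine continuous_finsetProd _ fun j _ => ?_
  exact (continuous_pf (a j) (b j)).comp (continuous_snd.add ((mgb_fx j).comp continuous_fst))

private lemma mgb_PRt {k : ℕ} (a b : Fin (k + 1) → ℝ) (v : Fin k → ℝ) :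
    Continuous fun t : ℝ => PR a b v t := by
  unfold PR
  refine continuous_finsetProd _ fun j _ => ?_
  exact (continuous_pf (a j) (b j)).comp (continuous_id.add continuous_const)

/-- iterated integrals of continuous functions over bounded sets -/
private lemma mgb_fub {k : ℕ} {H A₀ B₀ : ℝ} {E : Set ℝ} (hE : E ⊆ Icc A₀ B₀)
    {F : (Fin k → ℝ) × ℝ → ℝ} (hF : Continuous F) :
    IntegrableOn (fun v => ∫ t in E, F (v, t)) (box k H) := by
  have h1 : IntegrableOn F (box k H ×ˢ E) (volume.prod volume) := by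
    have : IntegrableOn F (box k H ×ˢ Icc A₀ B₀) (volume.prod volume) :=
      hF.continuousOn.integrableOn_compact ((mgb_compact k H).prod isCompact_Icc)
    exact this.mono_set (Set.prod_mono le_rfl hE)
  rw [IntegrableOn, ← Measure.prod_restrict] at h1
  exact h1.integral_prod_left

private lemma mgb_int1 {E : Set ℝ} {A₀ B₀ : ℝ} (hE : E ⊆ Icc A₀ B₀) {f : ℝ → ℝ}
    (hf : Continuous f) : IntegrableOn f E :=
  (hf.continuousOn.integrableOn_compact isCompact_Icc).mono_set hE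

/-- an integral over a segment, by the second moment -/
private lemma mgb_amgm {E : Set ℝ} {A₀ h μ : ℝ} (hE : E ⊆ Icc A₀ (A₀ + h)) (hh : 0 ≤ h)
    (hμ : 0 < μ) {f : ℝ → ℝ} (hf : Continuous f) :
    ∫ t in E, f t ≤ (μ * h + μ⁻¹ * ∫ t in E, f t ^ 2) / 2 := by
  have hvol : volume.real E ≤ h := by
    have h1 : volume E ≤ ENNReal.ofReal h := by
      refine (measure_mono hE).trans ?_
      rw [Real.volume_Icc]
      exact ENNReal.ofReal_le_ofReal (by linarith)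
    rw [Measure.real]
    exact ENNReal.toReal_le_of_le_ofReal hh h1
  have hfin : volume E ≠ ⊤ := by
    refine ne_top_of_le_ne_top ?_ (measure_mono hE)
    rw [Real.volume_Icc]
    exact ENNReal.ofReal_ne_top
  have i1 := mgb_int1 hE hf
  have i2 : IntegrableOn (fun t => μ⁻¹ * f t ^ 2) E :=
    mgb_int1 hE (continuous_const.mul (hf.pow 2))
  have i3 : IntegrableOn (fun _ : ℝ => μ) E := integrableOn_const hfin
  have h1 : ∫ t in E, f t ≤ ∫ t in E, (μ + μ⁻¹ * f t ^ 2) / 2 := by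
    refine integral_mono i1 ((i3.add i2).div_const 2) fun t => ?_
    have e : 0 ≤ μ⁻¹ * (f t - μ) ^ 2 := by positivity
    have e2 : μ⁻¹ * (f t - μ) ^ 2 = μ⁻¹ * f t ^ 2 - 2 * f t + μ := by
      field_simp
      ring
    show f t ≤ (μ + μ⁻¹ * f t ^ 2) / 2
    linarith
  have h2 : ∫ t in E, (μ + μ⁻¹ * f t ^ 2) / 2 =
      (volume.real E * μ + μ⁻¹ * ∫ t in E, f t ^ 2) / 2 := by
    rw [integral_div, integral_add i3 i2, integral_const_mul, setIntegral_const, smul_eq_mul]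
  rw [h2] at h1
  refine h1.trans ?_
  have : volume.real E * μ ≤ h * μ := mul_le_mul_of_nonneg_right hvol hμ.le
  linarith

private lemma mgb_norm {k : ℕ} (a b : Fin (k + 1) → ℝ) (v : Fin k → ℝ) (t : ℝ) :
    ∏ j, ‖pf (a j) (b j) (t + fx v j)‖ = ‖PR a b v t‖ := by
  unfold PR; rw [norm_prod]

/-- the iterated integral of the norm from the Lebesgue integrals -/
private lemma mgb_toReal {k : ℕ} {H A₀ B₀ M : ℝ} (hM : 0 ≤ M) {E : Set ℝ} (hE : E ⊆ Icc A₀ B₀)
    (a b : Fin (k + 1) → ℝ)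
    (h : ∫⁻ v in box k H, ∫⁻ t in E, ‖PR a b v t‖ₑ ≤ ENNReal.ofReal M) :
    ∫ v in box k H, ∫ t in E, ‖PR a b v t‖ ≤ M := by
  have hi : IntegrableOn (fun v => ∫ t in E, ‖PR a b v t‖) (box k H) :=
    mgb_fub hE (F := fun p => ‖PR a b p.1 p.2‖) (mgb_PR a b).norm
  rw [integral_eq_lintegral_of_nonneg_ae (ae_of_all _ fun v => integral_nonneg fun t =>
    norm_nonneg _) hi.aestronglyMeasurable]
  refine ENNReal.toReal_le_of_le_ofReal hM ?_
  refine le_trans (le_of_eq ?_) h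
  refine lintegral_congr fun v => ?_
  refine ofReal_integral_norm_eq_lintegral_enorm ?_
  exact ((mgb_PRt a b v).continuousOn.integrableOn_compact isCompact_Icc).mono_set hE

/-- the pointwise bound of the largest integral -/
private lemma mgb_sup {k : ℕ} (a b : Fin (k + 1) → ℝ) {G W : Set ℝ} (hW : MeasurableSet W)
    {T h μ : ℝ} (hT : 0 ≤ T) (hh : 0 ≤ h) (hhT : h ≤ T) {N : ℕ} (hN : N * h ≤ T) (hμ : 0 < μ)
    (v : Fin k → ℝ) :
    SpG G a b T h N v ≤ (μ * h + μ⁻¹ * ∑ i ∈ Finset.range (N + 1),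
      ∫ t in (G ∩ W) ∩ Icc (T + i * h) (T + i * h + h), ‖PR a b v t‖ ^ 2) / 2 +
      ∫ t in (G ∩ Icc 0 (4 * T)) \ W, ‖PR a b v t‖ := by
  unfold SpG
  refine Finset.sup'_le _ _ fun i hi => ?_
  simp only [mgb_norm]
  have hf : Continuous fun t => ‖PR a b v t‖ := (mgb_PRt a b v).norm
  have hiN : (i : ℝ) ≤ N := by exact_mod_cast Nat.lt_succ_iff.1 (Finset.mem_range.1 hi)
  have hi0 : (0:ℝ) ≤ i := Nat.cast_nonneg i
  have hih : i * h ≤ T := (mul_le_mul_of_nonneg_right hiN hh).trans hN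
  have hih0 : 0 ≤ i * h := by positivity
  have e1 : T + (i + 1) * h = T + i * h + h := by ring
  rw [e1]
  set I : Set ℝ := Icc (T + i * h) (T + i * h + h) with hI
  have hint : IntegrableOn (fun t => ‖PR a b v t‖) (I ∩ G) :=
    mgb_int1 (Set.inter_subset_left) hf
  rw [← integral_inter_add_sdiff hW hint]
  refine add_le_add ?_ ?_
  · have hE : I ∩ G ∩ W = (G ∩ W) ∩ I := by
      ext t; simp only [Set.mem_inter_iff]; tauto
    rw [hE]
    refine (mgb_amgm (Set.inter_subset_right) hh hμ hf).trans ?_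
    have h2 : ∫ t in (G ∩ W) ∩ I, ‖PR a b v t‖ ^ 2 ≤ ∑ i ∈ Finset.range (N + 1),
        ∫ t in (G ∩ W) ∩ Icc (T + i * h) (T + i * h + h), ‖PR a b v t‖ ^ 2 :=
      Finset.single_le_sum (f := fun i : ℕ =>
        ∫ t in (G ∩ W) ∩ Icc (T + i * h) (T + i * h + h), ‖PR a b v t‖ ^ 2)
        (fun i _ => integral_nonneg fun t => by positivity) hi
    have h3 := mul_le_mul_of_nonneg_left h2 (inv_nonneg.2 hμ.le)
    linarith
  · refine setIntegral_mono_set ?_ (ae_of_all _ fun t => norm_nonneg _) ?_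
    · exact mgb_int1 (A₀ := 0) (B₀ := 4 * T) (Set.sdiff_subset.trans Set.inter_subset_right) hf
    · refine LE.le.eventuallyLE ?_
      rintro t ⟨⟨htI, htG⟩, htW⟩
      refine ⟨⟨htG, ?_, ?_⟩, htW⟩
      · linarith [htI.1]
      · linarith [htI.2]

/-- the maximal inequality on a set with small local fourth moments: for given `κ` take
`d₁ = κ / (4 (k + 1))`; on `GW T H d₁` the sum of the squares over the intervals (`gl_segment`),
outside `exists_bad_windows_G` -/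
theorem exists_maxG_Gset (k : ℕ) (θ₁ θ₂ : ℝ) (h0 : 0 < θ₁) (h1 : θ₁ ≤ θ₂) (h2 : θ₂ < 1) :
    ∃ d : ℝ, 0 < d ∧ ∀ κ d' : ℝ, 0 < κ → κ < θ₁ → 0 < d' → d' ≤ d →
    MaxG k (Gset κ d') θ₁ θ₂ := by
  have hk : (0:ℝ) < (k:ℝ) + 1 := by positivity
  refine ⟨θ₁ / (4 * (k + 1)), by positivity, fun κ d' hκ hκθ hd' hd'd => ?_⟩
  intro κ₀ hκ₀ hκ₁
  set m : ℝ := min κ₀ (1 - θ₂) with hm
  have hm0 : 0 < m := lt_min hκ₀ (by linarith)
  have hmκ : m ≤ κ₀ := min_le_left _ _
  have hmθ : m ≤ 1 - θ₂ := min_le_right _ _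
  set d₁ : ℝ := m / (4 * (k + 1)) with hd₁
  have hd₁0 : 0 < d₁ := by positivity
  have hkd₁ : ((k:ℝ) + 1) * d₁ = m / 4 := by rw [hd₁]; field_simp
  set d₂ : ℝ := θ₁ / (2 * (k + 1)) with hd₂
  have hd₂0 : 0 < d₂ := by positivity
  have hkd₂ : ((k:ℝ) + 1) * d₂ = θ₁ / 2 := by rw [hd₂]; field_simp
  have hd'2 : d' < d₂ := by
    refine lt_of_le_of_lt hd'd ?_
    rw [hd₂]
    exact div_lt_div_of_pos_left h0 (by positivity) (by linarith)
  obtain ⟨cb, hcb, hbad⟩ := exists_bad_windows_G k θ₁ θ₂ d₂ d₁ h0 h1 h2 hd₂0 hkd₂.le hd₁0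
  obtain ⟨T₂, hT₂, hGL⟩ := exists_Gset_GL κ θ₁ d₂ d' hκ hκθ hd' hd'2
  set c : ℝ := min cb (3 * m / 8) with hc
  have hcb' : c ≤ cb := min_le_left _ _
  have hcm : c ≤ 3 * m / 8 := min_le_right _ _
  refine ⟨c, 1, lt_min hcb (by positivity), one_pos, fun B ε hB hε hε1 => ?_⟩
  obtain ⟨Cb, Tb, hCb, hTb, hb⟩ := hbad B hB
  -- large heights
  set T₃ : ℝ := 2 ^ (1 / (1 - θ₂)) with hT₃
  have hθ2 : 0 < 1 - θ₂ := by linarith
  set T₄ : ℝ := (max B 1) ^ (1 / θ₁) with hT₄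
  refine ⟨10 + Cb, max (max Tb T₂) (max T₃ T₄), by linarith,
    le_trans hTb ((le_max_left _ _).trans (le_max_left _ _)), ?_⟩
  intro T H hT hH1 hH2 a b ha hb' hab N hN
  have hTTb : Tb ≤ T := ((le_max_left _ _).trans (le_max_left _ _)).trans hT
  have hTT₂ : T₂ ≤ T := ((le_max_right _ _).trans (le_max_left _ _)).trans hT
  have hTT₃ : T₃ ≤ T := ((le_max_left _ _).trans (le_max_right _ _)).trans hT
  have hTT₄ : T₄ ≤ T := ((le_max_right _ _).trans (le_max_right _ _)).trans hT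
  have hT1 : 1 ≤ T := hTb.trans hTTb
  have hT0 : 0 < T := by linarith
  have hH1' : 1 ≤ H := (Real.one_le_rpow hT1 h0.le).trans hH1
  have hH0 : 0 < H := by linarith
  have h2T : 2 * T ^ θ₂ ≤ T := by
    have e1 : (2:ℝ) ≤ T ^ (1 - θ₂) := by
      calc (2:ℝ) = T₃ ^ (1 - θ₂) := by
            rw [hT₃, ← Real.rpow_mul (by norm_num), one_div, inv_mul_cancel₀ hθ2.ne',
              Real.rpow_one]
        _ ≤ _ := Real.rpow_le_rpow (by positivity) hTT₃ hθ2.le
    have e2 : T = T ^ (1 - θ₂) * T ^ θ₂ := by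
      rw [← Real.rpow_add hT0, sub_add_cancel, Real.rpow_one]
    calc 2 * T ^ θ₂ ≤ T ^ (1 - θ₂) * T ^ θ₂ := by gcongr
      _ = T := e2.symm
  have hHT : H ≤ T := hH2.trans h2T
  have hBH : B ≤ H := by
    refine le_trans ?_ hH1
    calc B ≤ max B 1 := le_max_left _ _
      _ = T₄ ^ θ₁ := by
        rw [hT₄, ← Real.rpow_mul (by positivity), one_div, inv_mul_cancel₀ h0.ne', Real.rpow_one]
      _ ≤ _ := Real.rpow_le_rpow (by positivity) hTT₄ h0.le
  set h : ℝ := T ^ (1 - κ₀) with hh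
  have hh0 : 0 < h := by positivity
  have hhT : h ≤ T := by
    calc h ≤ T ^ (1:ℝ) := Real.rpow_le_rpow_of_exponent_le hT1 (by linarith)
      _ = T := Real.rpow_one T
  set G : Set ℝ := Gset κ d' with hG
  have hGm : MeasurableSet G := measurableSet_Gset κ d'
  set W : Set ℝ := GW T H d₁ with hW
  have hWm : MeasurableSet W := measurableSet_GW hH0
  have hGW : Gd T H d₁ (G ∩ W) := fun t ht => GW_Gd hH0 t ht.2
  set μ : ℝ := T ^ (κ₀ - 3 * m / 8) with hμ
  have hμ0 : 0 < μ := by positivity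
  -- the second moments
  set S : (Fin k → ℝ) → ℝ := fun v => ∑ i ∈ Finset.range (N + 1),
      ∫ t in (G ∩ W) ∩ Icc (T + i * h) (T + i * h + h), ‖PR a b v t‖ ^ 2 with hS
  set Q : (Fin k → ℝ) → ℝ := fun v => ∫ t in (G ∩ Icc 0 (4 * T)) \ W, ‖PR a b v t‖ with hQ
  have iS1 : ∀ i : ℕ, IntegrableOn (fun v => ∫ t in (G ∩ W) ∩ Icc (T + i * h) (T + i * h + h),
      ‖PR a b v t‖ ^ 2) (box k H) := fun i =>
    mgb_fub (F := fun p => ‖PR a b p.1 p.2‖ ^ 2) (Set.inter_subset_right)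
      ((mgb_PR a b).norm.pow 2)
  have iS : IntegrableOn S (box k H) := integrable_finsetSum _ fun i _ => iS1 i
  have iQ : IntegrableOn Q (box k H) :=
    mgb_fub (F := fun p => ‖PR a b p.1 p.2‖) (A₀ := 0) (B₀ := 4 * T)
      (Set.sdiff_subset.trans Set.inter_subset_right) (mgb_PR a b).norm
  have hvfin : volume (box k H) ≠ ⊤ := (mgb_compact k H).measure_lt_top.ne
  have iC : IntegrableOn (fun _ : Fin k → ℝ => μ * h) (box k H) := integrableOn_const hvfin
  have iB : IntegrableOn (fun v => (μ * h + μ⁻¹ * S v) / 2 + Q v) (box k H) :=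
    ((iC.add (iS.const_mul μ⁻¹)).div_const 2).add iQ
  have hpt : ∀ v, SpG G a b T h N v ≤ (μ * h + μ⁻¹ * S v) / 2 + Q v := fun v =>
    mgb_sup a b hWm hT0.le hh0.le hhT hN hμ0 v
  have hnn : ∀ v, 0 ≤ SpG G a b T h N v := by
    intro v
    unfold SpG
    refine le_trans ?_ (Finset.le_sup' _ (Finset.mem_range.2 (Nat.succ_pos N)))
    exact integral_nonneg fun t => Finset.prod_nonneg fun j _ => norm_nonneg _
  have hmain : ∫ v in box k H, SpG G a b T h N v ≤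
      ∫ v in box k H, ((μ * h + μ⁻¹ * S v) / 2 + Q v) :=
    integral_mono_of_nonneg (ae_of_all _ hnn) iB (ae_of_all _ hpt)
  refine hmain.trans ?_
  have iD : IntegrableOn (fun v => (μ * h + μ⁻¹ * S v) / 2) (box k H) :=
    (iC.add (iS.const_mul μ⁻¹)).div_const 2
  have iE : IntegrableOn (fun v => μ⁻¹ * S v) (box k H) := iS.const_mul μ⁻¹
  have z1 : ∫ v in box k H, ((μ * h + μ⁻¹ * S v) / 2 + Q v) =
      (∫ v in box k H, (μ * h + μ⁻¹ * S v) / 2) + ∫ v in box k H, Q v := integral_add iD iQ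
  have z2 : ∫ v in box k H, (μ * h + μ⁻¹ * S v) / 2 =
      (∫ v in box k H, (μ * h + μ⁻¹ * S v)) / 2 := integral_div _ _
  have z3 : ∫ v in box k H, (μ * h + μ⁻¹ * S v) =
      (∫ _ in box k H, μ * h) + ∫ v in box k H, μ⁻¹ * S v := integral_add iC iE
  have z4 : ∫ _ in box k H, μ * h = (2 * H) ^ k * (μ * h) := by
    rw [setIntegral_const, smul_eq_mul, mgb_volume k hH0.le]
  have z5 : ∫ v in box k H, μ⁻¹ * S v = μ⁻¹ * ∫ v in box k H, S v := integral_const_mul _ _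
  rw [z1, z2, z3, z4, z5]
  -- the sum of the second moments
  have hSi : ∫ v in box k H, S v ≤
      ((N:ℝ) + 1) * ((2 * H) ^ k * (3 * (h + H) * T ^ (m / 4))) := by
    rw [hS, integral_finsetSum _ fun i _ => iS1 i]
    refine (Finset.sum_le_card_nsmul _ _ ((2 * H) ^ k * (3 * (h + H) * T ^ (m / 4)))
      fun i _ => ?_).trans (le_of_eq ?_)
    · have := gl_segment (A := T + i * h) (h := h) (hGm.inter hWm) hGW hT1 hd₁0.le hB hBH hH0
        hh0.le ha hb'
      rw [hkd₁] at this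
      exact this
    · rw [Finset.card_range, nsmul_eq_mul]
      push_cast
      ring
  have hQi : ∫ v in box k H, Q v ≤ (2 * H) ^ k * (Cb * T ^ (1 - cb)) := by
    refine mgb_toReal (by positivity) (A₀ := 0) (B₀ := 4 * T)
      (Set.sdiff_subset.trans Set.inter_subset_right) a b ?_
    have h3 := hb T H hTTb hH1 hH2 (G ∩ Icc 0 (4 * T)) (hGm.inter measurableSet_Icc)
      (hGL T H hTT₂ hH1 hHT) a b ha hb'
    have e : (G ∩ Icc 0 (4 * T)) ∩ Icc 0 (4 * T) = G ∩ Icc 0 (4 * T) := by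
      rw [Set.inter_assoc, Set.inter_self]
    rw [e] at h3
    exact h3
  -- powers of T
  have hN1 : ((N:ℝ) + 1) * h ≤ 2 * T := by linarith [add_mul (N:ℝ) 1 h]
  have hN2 : (N:ℝ) + 1 ≤ 2 * T ^ κ₀ := by
    have e : h * T ^ κ₀ = T := by
      rw [hh, ← Real.rpow_add hT0, sub_add_cancel, Real.rpow_one]
    have e2 : ((N:ℝ) + 1) * h ≤ (2 * T ^ κ₀) * h := by
      calc ((N:ℝ) + 1) * h ≤ 2 * T := hN1
        _ = 2 * (h * T ^ κ₀) := by rw [e]
        _ = (2 * T ^ κ₀) * h := by ring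
    exact le_of_mul_le_mul_right e2 hh0
  have hhH : h + H ≤ 3 * T ^ (1 - m) := by
    have e1 : h ≤ T ^ (1 - m) := Real.rpow_le_rpow_of_exponent_le hT1 (by linarith)
    have e2 : H ≤ 2 * T ^ (1 - m) := by
      refine hH2.trans ?_
      have : T ^ θ₂ ≤ T ^ (1 - m) := Real.rpow_le_rpow_of_exponent_le hT1 (by linarith)
      linarith
    linarith
  have hμh : μ * h = T ^ (1 - 3 * m / 8) := by
    rw [hμ, hh, ← Real.rpow_add hT0]; congr 1; ring
  have hμS : μ⁻¹ * (((N:ℝ) + 1) * (3 * (h + H) * T ^ (m / 4))) ≤ 18 * T ^ (1 - 3 * m / 8) := by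
    have e1 : μ⁻¹ = T ^ (-(κ₀ - 3 * m / 8)) := by rw [hμ, Real.rpow_neg hT0.le]
    calc μ⁻¹ * (((N:ℝ) + 1) * (3 * (h + H) * T ^ (m / 4)))
        ≤ μ⁻¹ * ((2 * T ^ κ₀) * (3 * (3 * T ^ (1 - m)) * T ^ (m / 4))) := by gcongr
      _ = 18 * (T ^ (-(κ₀ - 3 * m / 8)) * (T ^ κ₀ * (T ^ (1 - m) * T ^ (m / 4)))) := by
        rw [e1]; ring
      _ = 18 * T ^ (1 - 3 * m / 8) := by
        rw [← Real.rpow_add hT0, ← Real.rpow_add hT0, ← Real.rpow_add hT0]
        congr 2; ring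
  have hTc1 : T ^ (1 - 3 * m / 8) ≤ T ^ (1 - c) :=
    Real.rpow_le_rpow_of_exponent_le hT1 (by linarith)
  have hTc2 : T ^ (1 - cb) ≤ T ^ (1 - c) :=
    Real.rpow_le_rpow_of_exponent_le hT1 (by linarith)
  have hV : (0:ℝ) ≤ (2 * H) ^ k := by positivity
  have q1 : μ⁻¹ * ∫ v in box k H, S v ≤ (2 * H) ^ k * (18 * T ^ (1 - c)) := by
    calc μ⁻¹ * ∫ v in box k H, S v
        ≤ μ⁻¹ * (((N:ℝ) + 1) * ((2 * H) ^ k * (3 * (h + H) * T ^ (m / 4)))) := by gcongr
      _ = (2 * H) ^ k * (μ⁻¹ * (((N:ℝ) + 1) * (3 * (h + H) * T ^ (m / 4)))) := by ring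
      _ ≤ (2 * H) ^ k * (18 * T ^ (1 - c)) := by
        refine mul_le_mul_of_nonneg_left (hμS.trans ?_) hV
        linarith
  have q2 : (2 * H) ^ k * (μ * h) ≤ (2 * H) ^ k * T ^ (1 - c) := by
    rw [hμh]
    exact mul_le_mul_of_nonneg_left hTc1 hV
  have q3 : (2 * H) ^ k * (Cb * T ^ (1 - cb)) ≤ (2 * H) ^ k * (Cb * T ^ (1 - c)) := by gcongr
  have q4 : 0 ≤ (2 * H) ^ k * T ^ (1 - c) := by positivity
  calc ((2 * H) ^ k * (μ * h) + μ⁻¹ * ∫ v in box k H, S v) / 2 + ∫ v in box k H, Q v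
      ≤ ((2 * H) ^ k * T ^ (1 - c) + (2 * H) ^ k * (18 * T ^ (1 - c))) / 2 +
        (2 * H) ^ k * (Cb * T ^ (1 - c)) := by linarith
    _ ≤ (2 * H) ^ k * ((10 + Cb) * T ^ (1 - c)) := by
      have : (2 * H) ^ k * ((10 + Cb) * T ^ (1 - c)) -
        (((2 * H) ^ k * T ^ (1 - c) + (2 * H) ^ k * (18 * T ^ (1 - c))) / 2 +
        (2 * H) ^ k * (Cb * T ^ (1 - c))) = (2 * H) ^ k * T ^ (1 - c) / 2 := by ring
      linarith

end Pool.Agent.AAS
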