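import Pool.Agent.AAS.DefsG
import Pool.Agent.H26.Err
import Mathlib.NumberTheory.Harmonic.ZetaAsymp

set_option autoImplicit false

namespace Pool.Agent.AAS

open Complex Finset MeasureTheory Filter Topology Set
open Pool.Agent.H26

/-- the main term is continuous in `t` (`Q_eq_Qext`, `continuousOn_Qext`) -/
theorem continuous_Q {k : ℕ} (α β : Fin k → ℝ) : Continuous (Q α β) := by
  obtain ⟨r, hr⟩ := exists_adm (Sum.elim α β)
  have hmem : (fun i => ((Sum.elim α β i : ℝ) : ℂ)) ∈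
      polyD (fun i => ((Sum.elim α β i : ℝ) : ℂ)) r := fun i => Metric.mem_ball_self (hr.pos i)
  have h1 : ∀ t : ℝ, Q α β t = Qext (fun i => ((Sum.elim α β i : ℝ) : ℂ)) r t
      (fun i => ((Sum.elim α β i : ℝ) : ℂ)) := fun t => Q_eq_Qext hr hmem t
  have h2 : Continuous fun t : ℝ => Qext (fun i => ((Sum.elim α β i : ℝ) : ℂ)) r t
      (fun i => ((Sum.elim α β i : ℝ) : ℂ)) :=
    (continuousOn_Qext hr).comp_continuous
      (f := fun t : ℝ => (((t : ℂ), fun i => ((Sum.elim α β i : ℝ) : ℂ)) : ℂ × (Ix k → ℂ)))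
      (by fun_prop) fun t => ⟨im_ofReal_lt t, hmem⟩
  exact h2.congr fun t => (h1 t).symm

private lemma qin_cont_zeta (c : ℝ) (s : ℂ) (hs : s.re = 0) :
    Continuous fun x : ℝ => riemannZeta (1 / 2 + s * (x + c)) := by
  refine continuous_iff_continuousAt.2 fun x => ?_
  have h1 : (1 / 2 + s * ((x : ℂ) + c)) ≠ 1 := by
    intro h
    have := congrArg Complex.re h
    simp [hs] at this
  exact ContinuousAt.comp (f := fun x : ℝ => (1 / 2 + s * ((x : ℂ) + c)))
    (differentiableAt_riemannZeta h1).continuousAt (by fun_prop)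

theorem continuous_Zt {k : ℕ} (α β : Fin k → ℝ) : Continuous (Z α β) := by
  unfold Z
  refine continuous_finsetProd _ fun j _ => Continuous.mul ?_ ?_
  · exact qin_cont_zeta (α j) I (by simp)
  · have h := qin_cont_zeta (β j) (-I) (by simp)
    refine h.congr fun t => ?_
    congr 1
    ring

theorem EG_eq {k : ℕ} {G : Set ℝ} (hG : MeasurableSet G) (γ : Ix k → ℝ) {T : ℝ} (hT : 0 ≤ T) :
    EG G γ T = (∫ t in G ∩ Icc 0 T, Z (fun j => γ (Sum.inl j)) (fun j => γ (Sum.inr j)) t) -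
      ∫ t in (0:ℝ)..T, Q (fun j => γ (Sum.inl j)) (fun j => γ (Sum.inr j)) t := by
  unfold EG Er E
  have hZ := continuous_Zt (fun j => γ (Sum.inl j)) (fun j => γ (Sum.inr j))
  have hQ := continuous_Q (fun j => γ (Sum.inl j)) (fun j => γ (Sum.inr j))
  rw [intervalIntegral.integral_sub (hZ.intervalIntegrable _ _) (hQ.intervalIntegrable _ _)]
  have h1 : (∫ t in (0:ℝ)..T, Z (fun j => γ (Sum.inl j)) (fun j => γ (Sum.inr j)) t) =
      ∫ t in Icc 0 T, Z (fun j => γ (Sum.inl j)) (fun j => γ (Sum.inr j)) t := by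
    rw [intervalIntegral.integral_of_le hT, integral_Icc_eq_integral_Ioc]
  have h2 := integral_inter_add_sdiff (μ := volume) (s := Icc 0 T) hG
    ((hZ.integrableOn_Icc (a := 0) (b := T)))
  rw [h1, ← h2, Set.inter_comm G (Icc 0 T)]
  ring

/-- the sharp lower bound: for equal shifts `Z` is nonnegative -/
theorem lower_bound_of_EG {k : ℕ} {G : Set ℝ} (hG : MeasurableSet G) (α : Fin k → ℝ) {T K : ℝ}
    (hT : 0 ≤ T) (h : ‖EG G (Sum.elim α α) T‖ ≤ K) :
    (∫ t in (0:ℝ)..T, Q α α t).re - K ≤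
      ∫ t in (0:ℝ)..T, ∏ j, ‖riemannZeta (1 / 2 + I * (t + α j))‖ ^ 2 := by
  have hZr : ∀ t : ℝ, Z α α t = ((∏ j, ‖riemannZeta (1 / 2 + I * (t + α j))‖ ^ 2 : ℝ) : ℂ) := by
    intro t
    unfold Z
    push_cast
    refine Finset.prod_congr rfl fun j _ => ?_
    have h1 : (1 / 2 - I * ((t : ℂ) + α j)) = (starRingEnd ℂ) (1 / 2 + I * ((t : ℂ) + α j)) := by
      rw [map_add, map_mul, map_add, conj_I, conj_ofReal, conj_ofReal, map_div₀, map_one, map_ofNat]
      ring
    rw [h1, riemannZeta_conj, Complex.mul_conj, Complex.normSq_eq_norm_sq]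
    push_cast
    rfl
  have hc : Continuous fun t : ℝ => ∏ j, ‖riemannZeta (1 / 2 + I * (t + α j))‖ ^ 2 :=
    continuous_finsetProd _ fun j _ => ((qin_cont_zeta (α j) I (by simp)).norm).pow 2
  have h0 := EG_eq hG (Sum.elim α α) hT
  have h1 : EG G (Sum.elim α α) T = (∫ t in G ∩ Icc 0 T, Z α α t) -
      ∫ t in (0:ℝ)..T, Q α α t := h0
  have h2 : (∫ t in G ∩ Icc 0 T, Z α α t) =
      ((∫ t in G ∩ Icc 0 T, ∏ j, ‖riemannZeta (1 / 2 + I * (t + α j))‖ ^ 2 : ℝ) : ℂ) := by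
    rw [setIntegral_congr_fun (hG.inter measurableSet_Icc) fun t _ => hZr t]
    exact integral_ofReal
  have h3 : (∫ t in G ∩ Icc 0 T, ∏ j, ‖riemannZeta (1 / 2 + I * (t + α j))‖ ^ 2) ≤
      ∫ t in (0:ℝ)..T, ∏ j, ‖riemannZeta (1 / 2 + I * (t + α j))‖ ^ 2 := by
    rw [intervalIntegral.integral_of_le hT, ← integral_Icc_eq_integral_Ioc]
    refine setIntegral_mono_set hc.integrableOn_Icc ?_ ?_
    · exact Filter.Eventually.of_forall fun t => Finset.prod_nonneg fun j _ => by positivity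
    · exact (Set.inter_subset_right).eventuallyLE
  have h4 : |(EG G (Sum.elim α α) T).re| ≤ K := (Complex.abs_re_le_norm _).trans h
  rw [h1, h2, Complex.sub_re, Complex.ofReal_re] at h4
  have h5 := (abs_le.1 h4).1
  linarith

end Pool.Agent.AAS
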