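import Pool.Agent.AAS.AUB
import Pool.Agent.AAS.CGB
import Pool.Agent.AAS.MGB
import Pool.Agent.AAS.SGB
import Pool.Agent.AAS.GST
import Pool.Agent.AAS.QIN

set_option autoImplicit false

namespace Pool.Agent.AAS

open Complex Finset MeasureTheory Filter Topology Set
open Pool.Agent.H26

/-- Theorem B: for every range of powers, the recipe for the moments restricted to a set `G` with
small complement. -/
theorem truncated (k : ℕ) (θ₁ θ₂ : ℝ) (h₁ : 0 < θ₁) (h₁₂ : θ₁ ≤ θ₂) (h₂ : θ₂ < 1) :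
    ∃ c : ℝ, 0 < c ∧ ∃ G : Set ℝ, MeasurableSet G ∧
    (∃ C : ℝ, ∀ T : ℝ, 1 ≤ T → volume (Set.Icc 0 T \ G) ≤ ENNReal.ofReal (C * T ^ (1 - c))) ∧
    ∃ Ex : Set (Fin k → ℝ), MeasurableSet Ex ∧
    (∀ V : ℝ, 1 ≤ V → volume (Ex ∩ {v | ‖v‖ ≤ V}) ≤ ENNReal.ofReal (V ^ (k - c))) ∧
    ∀ B : ℝ, ∃ C : ℝ, ∀ v, v ∉ Ex → ∀ T : ℝ, 1 ≤ T → T ^ θ₁ ≤ ‖v‖ → ‖v‖ ≤ T ^ θ₂ →
    ∀ α β : Fin (k + 1) → ℝ, (∀ j, |α j| ≤ B) → (∀ j, |β j| ≤ B) →
    ‖(∫ t in Set.Icc 0 T ∩ G, Z (fun j => α j + fx v j) (fun j => β j + fx v j) t) -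
      ∫ t in (0:ℝ)..T, Q (fun j => α j + fx v j) (fun j => β j + fx v j) t‖ ≤
      C * T ^ (1 - c) := by
  set θ₀ : ℝ := θ₁ / 2 with hθ₀
  set θ₃ : ℝ := (θ₂ + 1) / 2 with hθ₃
  obtain ⟨d₁, hd₁, hcore⟩ := exists_coreG_Gset k θ₀ θ₃ (by linarith) (by linarith) (by linarith)
  obtain ⟨d₂, hd₂, hmax⟩ := exists_maxG_Gset k θ₀ θ₃ (by linarith) (by linarith) (by linarith)
  set d : ℝ := min (min d₁ d₂) (1 / 2) with hd
  have hd0 : 0 < d := lt_min (lt_min hd₁ hd₂) (by norm_num)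
  have hd1 : d ≤ d₁ := (min_le_left _ _).trans (min_le_left _ _)
  have hd2 : d ≤ d₂ := (min_le_left _ _).trans (min_le_right _ _)
  have hd3 : d ≤ 1 / 2 := min_le_right _ _
  have hκ0 : 0 < θ₀ / 2 := by linarith
  have hG : MeasurableSet (Gset (θ₀ / 2) d) := measurableSet_Gset _ _
  obtain ⟨CG, -, hvol⟩ := exists_volume_Gset (θ₀ / 2) d hκ0 hd0 hd3
  obtain ⟨c, hc, -, Ex, h1, h2, h3⟩ := final_of_G (k := k) hG (θ₀ := θ₀) (θ₁ := θ₁) (θ₂ := θ₂)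
    (θ₃ := θ₃) (by linarith) (by linarith) h₁₂ (by linarith) (by linarith)
    (hcore _ d hκ0 (by linarith) hd0 hd1) (hmax _ d hκ0 (by linarith) hd0 hd2)
    (supG_of_measurable (k + 1) hG)
  have hmin1 : min c (d / 2) ≤ c := min_le_left _ _
  have hmin2 : min c (d / 2) ≤ d / 2 := min_le_right _ _
  refine ⟨min c (d / 2), lt_min hc (by positivity), Gset (θ₀ / 2) d, hG,
    ⟨max CG 0, fun T hT => (hvol T hT).trans (ENNReal.ofReal_le_ofReal ?_)⟩, Ex, h1,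
    fun V hV => (h2 V hV).trans (ENNReal.ofReal_le_ofReal ?_), fun B => ?_⟩
  · have hx : T ^ (1 - d / 2) ≤ T ^ (1 - min c (d / 2)) :=
      Real.rpow_le_rpow_of_exponent_le hT (by linarith)
    calc CG * T ^ (1 - d / 2) ≤ max CG 0 * T ^ (1 - d / 2) := by
          gcongr
          exact le_max_left _ _
      _ ≤ _ := by gcongr
  · exact Real.rpow_le_rpow_of_exponent_le hV (by linarith)
  · obtain ⟨C, hC0, hC⟩ := h3 B
    refine ⟨C, fun v hv T hT hv1 hv2 α β hα hβ => ?_⟩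
    have h := hC v hv T hT hv1 hv2 α β hα hβ
    rw [EG_eq hG _ (by linarith)] at h
    simp only [Sum.elim_inl, Sum.elim_inr] at h
    rw [Set.inter_comm] at h
    refine h.trans ?_
    have hx : T ^ (1 - c) ≤ T ^ (1 - min c (d / 2)) :=
      Real.rpow_le_rpow_of_exponent_le hT (by linarith)
    gcongr

end Pool.Agent.AAS
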