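import Pool.Agent.AAS.QIN

/-!
# Almost all shifts: the part outside `G`, when a higher moment of zeta is known
-/

set_option autoImplicit false

namespace Pool.Agent.AAS

open Complex Finset MeasureTheory Filter Topology Set
open Pool.Agent.H26

/-- The bound `T ^ (1 + ε)` for the moment of order `p` of zeta. -/
def MomentBound (p : ℝ) : Prop :=
  ∀ ε : ℝ, 0 < ε → ∃ C : ℝ, ∀ T : ℝ, 1 ≤ T →
    ∫ t in (0:ℝ)..T, ‖riemannZeta (1 / 2 + I * t)‖ ^ p ≤ C * T ^ (1 + ε)

namespace MOM

private lemma cont_zeta : Continuous fun x : ℝ => riemannZeta (1 / 2 + I * x) := by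
  refine continuous_iff_continuousAt.2 fun x => ?_
  have h1 : (1 / 2 + I * (x : ℂ)) ≠ 1 := by
    intro h
    have := congrArg Complex.re h
    simp at this
  exact ContinuousAt.comp (f := fun x : ℝ => (1 / 2 + I * (x : ℂ)))
    (differentiableAt_riemannZeta h1).continuousAt (by fun_prop)

private lemma norm_zeta_neg (x : ℝ) :
    ‖riemannZeta (1 / 2 + I * ((-x : ℝ) : ℂ))‖ = ‖riemannZeta (1 / 2 + I * x)‖ := by
  have h : (1 / 2 + I * ((-x : ℝ) : ℂ)) = (starRingEnd ℂ) (1 / 2 + I * x) := by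
    rw [map_add, map_mul, conj_I, conj_ofReal, map_div₀, map_one, map_ofNat]
    push_cast
    ring
  rw [h, riemannZeta_conj, Complex.norm_conj]

/-- the moment over a translated interval -/
private lemma shifted (p : ℝ) (hp : 0 ≤ p) {C ε : ℝ}
    (hC : ∀ T : ℝ, 1 ≤ T →
      ∫ t in (0:ℝ)..T, ‖riemannZeta (1 / 2 + I * t)‖ ^ p ≤ C * T ^ (1 + ε))
    {B T x : ℝ} (hB : 0 ≤ B) (hT : 1 ≤ T) (hx : |x| ≤ T + B) :
    ∫ t in (0:ℝ)..T, ‖riemannZeta (1 / 2 + I * ((t + x : ℝ) : ℂ))‖ ^ p ≤
      2 * (|C| * (2 + B) ^ (1 + ε)) * T ^ (1 + ε) := by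
  set f : ℝ → ℝ := fun t => ‖riemannZeta (1 / 2 + I * (t : ℂ))‖ ^ p with hf
  have hfc : Continuous f := (cont_zeta.norm).rpow_const fun _ => Or.inr hp
  have hf0 : ∀ t, 0 ≤ f t := fun t => Real.rpow_nonneg (norm_nonneg _) _
  have hneg : ∀ t, f (-t) = f t := by
    intro t
    simp only [hf]
    rw [norm_zeta_neg]
  have h1 : ∫ t in (0:ℝ)..T, ‖riemannZeta (1 / 2 + I * ((t + x : ℝ) : ℂ))‖ ^ p =
      ∫ t in (0:ℝ)..T, f (t + x) := rfl
  set R : ℝ := (2 + B) * T with hR
  have hR1 : 1 ≤ R := by nlinarith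
  have hx1 := abs_le.1 hx
  have hBT : B ≤ B * T := le_mul_of_one_le_right hB hT
  rw [h1, intervalIntegral.integral_comp_add_right]
  have h2 : ∫ t in (0 + x)..(T + x), f t ≤ ∫ t in (-R)..R, f t := by
    refine intervalIntegral.integral_mono_interval (by nlinarith) (by linarith) (by nlinarith)
      (Eventually.of_forall hf0) (hfc.intervalIntegrable _ _)
  have h3 : ∫ t in (-R)..R, f t = 2 * ∫ t in (0:ℝ)..R, f t := by
    rw [← intervalIntegral.integral_add_adjacent_intervals (hfc.intervalIntegrable (-R) 0)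
      (hfc.intervalIntegrable 0 R)]
    have h4 : ∫ t in (-R)..0, f t = ∫ t in (0:ℝ)..R, f t := by
      have h5 := intervalIntegral.integral_comp_neg (a := -R) (b := 0) f
      simp only [hneg, neg_zero, neg_neg] at h5
      exact h5
    rw [h4]
    ring
  have h5 : ∫ t in (0:ℝ)..R, f t ≤ |C| * R ^ (1 + ε) :=
    (hC R hR1).trans (mul_le_mul_of_nonneg_right (le_abs_self C) (by positivity))
  have h6 : R ^ (1 + ε) = (2 + B) ^ (1 + ε) * T ^ (1 + ε) :=
    Real.mul_rpow (by linarith) (by linarith)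
  calc ∫ t in (0 + x)..(T + x), f t ≤ 2 * ∫ t in (0:ℝ)..R, f t := h2.trans h3.le
    _ ≤ 2 * (|C| * R ^ (1 + ε)) := by linarith
    _ = _ := by rw [h6]; ring

/-- the pointwise bound -/
private lemma point {x lam : ℝ} (hx : 0 ≤ x) (hl : 0 < lam) (n : ℕ) {p : ℝ} (hp : (n : ℝ) ≤ p) :
    x ^ n ≤ lam ^ n + lam ^ ((n : ℝ) - p) * x ^ p := by
  rcases le_total x lam with h | h
  · have h1 : x ^ n ≤ lam ^ n := pow_le_pow_left₀ hx h n
    have h2 : 0 ≤ lam ^ ((n : ℝ) - p) * x ^ p := by positivity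
    linarith
  · have hx0 : 0 < x := hl.trans_le h
    have h1 : x ^ n = x ^ ((n : ℝ) - p) * x ^ p := by
      rw [← Real.rpow_natCast, ← Real.rpow_add hx0]
      congr 1
      ring
    have h2 : x ^ ((n : ℝ) - p) ≤ lam ^ ((n : ℝ) - p) :=
      Real.rpow_le_rpow_of_nonpos hl h (by linarith)
    rw [h1]
    have h3 : x ^ ((n : ℝ) - p) * x ^ p ≤ lam ^ ((n : ℝ) - p) * x ^ p :=
      mul_le_mul_of_nonneg_right h2 (by positivity)
    have h4 : 0 ≤ lam ^ n := by positivity
    linarith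

/-- the product of the `2 (k + 1)` values against the sum of the powers -/
private lemma prod_le_sum {ι : Type*} [Fintype ι] [Nonempty ι] (f : ι → ℝ) (hf : ∀ i, 0 ≤ f i) :
    ∏ i, f i ≤ ∑ i, f i ^ (Fintype.card ι) := by
  obtain ⟨i, -, hi⟩ := Finset.exists_max_image Finset.univ f Finset.univ_nonempty
  calc ∏ j, f j ≤ ∏ _j : ι, f i := Finset.prod_le_prod (fun j _ => hf j) fun j hj => hi j hj
    _ = f i ^ (Fintype.card ι) := by rw [Finset.prod_const, Finset.card_univ]
    _ ≤ ∑ j, f j ^ (Fintype.card ι) :=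
      Finset.single_le_sum (f := fun j => f j ^ (Fintype.card ι))
        (fun j _ => pow_nonneg (hf j) _) (Finset.mem_univ i)

end MOM

/-- The part of the moment outside `G` is small when a moment of order more than `2 (k + 1)` of
zeta is essentially bounded. -/
theorem mom_bound (k : ℕ) {G : Set ℝ} (hG : MeasurableSet G) {c : ℝ} (hc : 0 < c)
    (hvol : ∃ C : ℝ, ∀ T : ℝ, 1 ≤ T →
      volume (Set.Icc 0 T \ G) ≤ ENNReal.ofReal (C * T ^ (1 - c)))
    (p : ℝ) (hp : 2 * ((k : ℝ) + 1) < p) (hM : MomentBound p) :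
    ∃ c' : ℝ, 0 < c' ∧ ∀ B : ℝ, ∃ C : ℝ, ∀ T : ℝ, 1 ≤ T → ∀ α β : Fin (k + 1) → ℝ,
    (∀ j, |α j| ≤ T + B) → (∀ j, |β j| ≤ T + B) →
    ‖∫ t in Set.Icc 0 T \ G, Z α β t‖ ≤ C * T ^ (1 - c') := by
  set n : ℕ := 2 * (k + 1) with hn
  have hnc : Fintype.card (Ix (k + 1)) = n := by simp [hn]; ring
  have hnr : (n : ℝ) = 2 * ((k : ℝ) + 1) := by simp [hn]
  have hn0 : (0:ℝ) < n := by rw [hnr]; positivity
  set η : ℝ := c / (2 * n) with hη
  have hη0 : 0 < η := by positivity
  set ε : ℝ := η * (p - n) / 2 with hε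
  have hpn : 0 < p - n := by rw [hnr]; linarith
  have hε0 : 0 < ε := by positivity
  obtain ⟨C₀, hC₀⟩ := hM ε hε0
  obtain ⟨CG, hCG⟩ := hvol
  refine ⟨min (c / 2) ε, lt_min (by linarith) hε0, fun B => ?_⟩
  set B' : ℝ := max B 0 with hB'
  have hB0 : 0 ≤ B' := le_max_right _ _
  have hBB : B ≤ B' := le_max_left _ _
  set D : ℝ := 2 * (|C₀| * (2 + B') ^ (1 + ε)) with hD
  have hD0 : 0 ≤ D := by positivity
  refine ⟨n * (|CG| + D), fun T hT α β hα hβ => ?_⟩
  have hT0 : 0 < T := by linarith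
  -- the values
  set x : Ix (k + 1) → ℝ := Sum.elim α β with hx
  have hxb : ∀ i, |x i| ≤ T + B' := by
    intro i
    cases i with
    | inl j => exact (hα j).trans (by linarith)
    | inr j => exact (hβ j).trans (by linarith)
  set f : Ix (k + 1) → ℝ → ℝ := fun i t => ‖riemannZeta (1 / 2 + I * ((t + x i : ℝ) : ℂ))‖ with hf
  have hfc : ∀ i, Continuous (f i) := fun i =>
    (MOM.cont_zeta.comp (continuous_id.add continuous_const)).norm
  have hf0 : ∀ i t, 0 ≤ f i t := fun i t => norm_nonneg _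
  have hZ : ∀ t : ℝ, ‖Z α β t‖ = ∏ i, f i t := by
    intro t
    unfold Z
    rw [norm_prod, Fintype.prod_sum_type, ← Finset.prod_mul_distrib]
    refine Finset.prod_congr rfl fun j _ => ?_
    rw [norm_mul]
    congr 1
    · simp only [hf, hx, Sum.elim_inl]
      push_cast
      rfl
    · have h1 : (1 / 2 - I * ((t : ℂ) + β j)) = 1 / 2 + I * ((-(t + β j) : ℝ) : ℂ) := by
        push_cast
        ring
      rw [h1, MOM.norm_zeta_neg]
      simp only [hf, hx, Sum.elim_inr]
  set S : Set ℝ := Set.Icc 0 T \ G with hS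
  have hSm : MeasurableSet S := measurableSet_Icc.diff hG
  have hSsub : S ⊆ Set.Icc 0 T := Set.sdiff_subset
  have hSfin : volume S ≠ ⊤ := ((measure_mono hSsub).trans_lt (by simp)).ne
  have hSvol : (volume S).toReal ≤ |CG| * T ^ (1 - c) := by
    have h1 := hCG T hT
    have h2 : (volume S).toReal ≤ (ENNReal.ofReal (CG * T ^ (1 - c))).toReal :=
      ENNReal.toReal_mono ENNReal.ofReal_ne_top h1
    refine h2.trans ?_
    rw [ENNReal.toReal_ofReal']
    have h3 : 0 ≤ T ^ (1 - c) := by positivity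
    exact max_le (mul_le_mul_of_nonneg_right (le_abs_self _) h3) (by positivity)
  set lam : ℝ := T ^ η with hlam
  have hlam0 : 0 < lam := by positivity
  -- one factor
  have hone : ∀ i, ∫ t in S, f i t ^ n ≤ (|CG| + D) * T ^ (1 - min (c / 2) ε) := by
    intro i
    have hint1 : IntegrableOn (fun t => f i t ^ n) S :=
      (((hfc i).pow n).integrableOn_Icc (a := 0) (b := T)).mono_set hSsub
    have hcp : Continuous fun t => f i t ^ p := (hfc i).rpow_const fun _ => Or.inr (by linarith)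
    have hint2 : IntegrableOn (fun t => f i t ^ p) S :=
      (hcp.integrableOn_Icc (a := 0) (b := T)).mono_set hSsub
    have hconst : IntegrableOn (fun _ : ℝ => lam ^ n) S :=
      integrableOn_const hSfin
    have h1 : ∫ t in S, f i t ^ n ≤
        ∫ t in S, (lam ^ n + lam ^ ((n : ℝ) - p) * f i t ^ p) :=
      setIntegral_mono hint1 (hconst.add (hint2.const_mul _)) fun t =>
        MOM.point (hf0 i t) hlam0 n (by linarith)
    have h2 : ∫ t in S, (lam ^ n + lam ^ ((n : ℝ) - p) * f i t ^ p) =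
        (volume S).toReal * lam ^ n + lam ^ ((n : ℝ) - p) * ∫ t in S, f i t ^ p := by
      rw [integral_add hconst (hint2.const_mul _), setIntegral_const, integral_const_mul]
      simp [Measure.real]
    have h3 : ∫ t in S, f i t ^ p ≤ D * T ^ (1 + ε) := by
      have h4 : ∫ t in S, f i t ^ p ≤ ∫ t in Set.Icc 0 T, f i t ^ p :=
        setIntegral_mono_set (hcp.integrableOn_Icc)
          (Eventually.of_forall fun t => Real.rpow_nonneg (hf0 i t) _)
          (Eventually.of_forall hSsub)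
      have h5 : ∫ t in Set.Icc 0 T, f i t ^ p = ∫ t in (0:ℝ)..T, f i t ^ p := by
        rw [intervalIntegral.integral_of_le hT0.le, integral_Icc_eq_integral_Ioc]
      rw [h5] at h4
      exact h4.trans (MOM.shifted p (by linarith) hC₀ hB0 hT (hxb i))
    have h4 : lam ^ n = T ^ (η * n) := by
      rw [hlam, ← Real.rpow_natCast, ← Real.rpow_mul hT0.le]
    have h5 : lam ^ ((n : ℝ) - p) = T ^ (η * (n - p)) := by
      rw [hlam, ← Real.rpow_mul hT0.le]
    have h6 : η * n = c / 2 := by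
      rw [hη]
      field_simp
    have h7 : (volume S).toReal * lam ^ n ≤ |CG| * T ^ (1 - c / 2) := by
      rw [h4, h6]
      calc (volume S).toReal * T ^ (c / 2) ≤ (|CG| * T ^ (1 - c)) * T ^ (c / 2) :=
            mul_le_mul_of_nonneg_right hSvol (by positivity)
        _ = |CG| * T ^ (1 - c / 2) := by
            rw [mul_assoc, ← Real.rpow_add hT0]
            congr 2
            ring
    have h8 : lam ^ ((n : ℝ) - p) * ∫ t in S, f i t ^ p ≤ D * T ^ (1 - ε) := by
      rw [h5]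
      calc T ^ (η * (n - p)) * ∫ t in S, f i t ^ p ≤ T ^ (η * (n - p)) * (D * T ^ (1 + ε)) :=
            mul_le_mul_of_nonneg_left h3 (by positivity)
        _ = D * (T ^ (η * (n - p)) * T ^ (1 + ε)) := by ring
        _ = D * T ^ (1 - ε) := by
            rw [← Real.rpow_add hT0]
            congr 2
            rw [hε]
            ring
    have h9 : T ^ (1 - c / 2) ≤ T ^ (1 - min (c / 2) ε) :=
      Real.rpow_le_rpow_of_exponent_le hT (by linarith [min_le_left (c / 2) ε])
    have h10 : T ^ (1 - ε) ≤ T ^ (1 - min (c / 2) ε) :=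
      Real.rpow_le_rpow_of_exponent_le hT (by linarith [min_le_right (c / 2) ε])
    calc ∫ t in S, f i t ^ n ≤ |CG| * T ^ (1 - c / 2) + D * T ^ (1 - ε) := by
          rw [h2] at h1
          linarith
      _ ≤ |CG| * T ^ (1 - min (c / 2) ε) + D * T ^ (1 - min (c / 2) ε) := by
          have := abs_nonneg CG
          gcongr
      _ = _ := by ring
  -- the sum
  have hint : ∀ i, IntegrableOn (fun t => f i t ^ n) S := fun i =>
    (((hfc i).pow n).integrableOn_Icc (a := 0) (b := T)).mono_set hSsub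
  calc ‖∫ t in S, Z α β t‖ ≤ ∫ t in S, ‖Z α β t‖ := norm_integral_le_integral_norm _
    _ ≤ ∫ t in S, ∑ i, f i t ^ n := by
        refine setIntegral_mono ?_ (integrable_finsetSum _ fun i _ => hint i) fun t => ?_
        · exact ((continuous_Zt α β).norm.integrableOn_Icc (a := 0) (b := T)).mono_set hSsub
        · show ‖Z α β t‖ ≤ ∑ i, f i t ^ n
          rw [hZ, ← hnc]
          exact MOM.prod_le_sum (fun i => f i t) fun i => hf0 i t
    _ = ∑ i, ∫ t in S, f i t ^ n := integral_finsetSum _ fun i _ => hint i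
    _ ≤ ∑ _i : Ix (k + 1), (|CG| + D) * T ^ (1 - min (c / 2) ε) :=
        Finset.sum_le_sum fun i _ => hone i
    _ = n * (|CG| + D) * T ^ (1 - min (c / 2) ε) := by
        rw [Finset.sum_const, Finset.card_univ, hnc, nsmul_eq_mul]
        ring

end Pool.Agent.AAS
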