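import Pool.Agent.AAS.FNB
import Pool.Agent.AAS.MOM

set_option autoImplicit false

namespace Pool.Agent.AAS

open Complex Finset MeasureTheory Filter Topology Set
open Pool.Agent.H26

/-- Theorem B with its two consequences for the complete moments: the sharp lower bound, and the
whole recipe when one moment of zeta of order more than `2 (k + 1)` is essentially bounded. -/
theorem truncated_all (k : ℕ) (θ₁ θ₂ : ℝ) (h₁ : 0 < θ₁) (h₁₂ : θ₁ ≤ θ₂) (h₂ : θ₂ < 1) :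
    ∃ c : ℝ, 0 < c ∧ ∃ G : Set ℝ, MeasurableSet G ∧
    (∃ C : ℝ, ∀ T : ℝ, 1 ≤ T → volume (Set.Icc 0 T \ G) ≤ ENNReal.ofReal (C * T ^ (1 - c))) ∧
    ∃ Ex : Set (Fin k → ℝ), MeasurableSet Ex ∧
    (∀ V : ℝ, 1 ≤ V → volume (Ex ∩ {v | ‖v‖ ≤ V}) ≤ ENNReal.ofReal (V ^ (k - c))) ∧
    (∀ B : ℝ, ∃ C : ℝ, ∀ v, v ∉ Ex → ∀ T : ℝ, 1 ≤ T → T ^ θ₁ ≤ ‖v‖ → ‖v‖ ≤ T ^ θ₂ →
      ∀ α β : Fin (k + 1) → ℝ, (∀ j, |α j| ≤ B) → (∀ j, |β j| ≤ B) →
      ‖(∫ t in Set.Icc 0 T ∩ G, Z (fun j => α j + fx v j) (fun j => β j + fx v j) t) -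
        ∫ t in (0:ℝ)..T, Q (fun j => α j + fx v j) (fun j => β j + fx v j) t‖ ≤
        C * T ^ (1 - c)) ∧
    (∀ B : ℝ, ∃ C : ℝ, ∀ v, v ∉ Ex → ∀ T : ℝ, 1 ≤ T → T ^ θ₁ ≤ ‖v‖ → ‖v‖ ≤ T ^ θ₂ →
      ∀ α : Fin (k + 1) → ℝ, (∀ j, |α j| ≤ B) →
      (∫ t in (0:ℝ)..T, Q (fun j => α j + fx v j) (fun j => α j + fx v j) t).re -
        C * T ^ (1 - c) ≤
        ∫ t in (0:ℝ)..T, ∏ j, ‖riemannZeta (1 / 2 + I * (t + (α j + fx v j)))‖ ^ 2) ∧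
    ∀ p : ℝ, 2 * ((k : ℝ) + 1) < p →
      (∀ ε : ℝ, 0 < ε → ∃ C : ℝ, ∀ T : ℝ, 1 ≤ T →
        ∫ t in (0:ℝ)..T, ‖riemannZeta (1 / 2 + I * t)‖ ^ p ≤ C * T ^ (1 + ε)) →
      ∃ c' : ℝ, 0 < c' ∧
      ∀ B : ℝ, ∃ C : ℝ, ∀ v, v ∉ Ex → ∀ T : ℝ, 1 ≤ T → T ^ θ₁ ≤ ‖v‖ → ‖v‖ ≤ T ^ θ₂ →
      ∀ α β : Fin (k + 1) → ℝ, (∀ j, |α j| ≤ B) → (∀ j, |β j| ≤ B) →
      ‖∫ t in (0:ℝ)..T, (Z (fun j => α j + fx v j) (fun j => β j + fx v j) t -
        Q (fun j => α j + fx v j) (fun j => β j + fx v j) t)‖ ≤ C * T ^ (1 - c') := by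
  obtain ⟨c, hc, G, hG, hvol, Ex, hEm, hEv, hmain⟩ := truncated k θ₁ θ₂ h₁ h₁₂ h₂
  have hEG : ∀ (γ₁ γ₂ : Fin (k + 1) → ℝ) (T : ℝ), 1 ≤ T →
      EG G (Sum.elim γ₁ γ₂) T = (∫ t in Set.Icc 0 T ∩ G, Z γ₁ γ₂ t) -
        ∫ t in (0:ℝ)..T, Q γ₁ γ₂ t := by
    intro γ₁ γ₂ T hT
    rw [EG_eq hG _ (by linarith), Set.inter_comm]
    rfl
  refine ⟨c, hc, G, hG, hvol, Ex, hEm, hEv, hmain, fun B => ?_, fun p hp hM => ?_⟩
  · obtain ⟨C, hC⟩ := hmain B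
    refine ⟨C, fun v hv T hT hv1 hv2 α hα => ?_⟩
    have h := hC v hv T hT hv1 hv2 α α hα hα
    rw [← hEG _ _ T hT] at h
    have h2 := lower_bound_of_EG hG (fun j => α j + fx v j) (by linarith : (0:ℝ) ≤ T) h
    refine h2.trans (le_of_eq ?_)
    simp only [Complex.ofReal_add]
  · obtain ⟨c', hc', hb⟩ := mom_bound k hG hc hvol p hp hM
    refine ⟨min c c', lt_min hc hc', fun B => ?_⟩
    obtain ⟨C₁, hC₁⟩ := hmain B
    obtain ⟨C₂, hC₂⟩ := hb B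
    refine ⟨max C₁ 0 + max C₂ 0, fun v hv T hT hv1 hv2 α β hα hβ => ?_⟩
    have hT0 : 0 < T := by linarith
    have hvT : ‖v‖ ≤ T := hv2.trans (by
      calc T ^ θ₂ ≤ T ^ (1:ℝ) := Real.rpow_le_rpow_of_exponent_le hT h₂.le
        _ = T := Real.rpow_one T)
    have hv' : v ∈ box k T := (IND.mem_box_iff (by linarith)).2 hvT
    have hfx : ∀ j, |fx v j| ≤ T := fun j => MXA.abs_fx_le (by linarith) hv' j
    have h := hC₁ v hv T hT hv1 hv2 α β hα hβ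
    rw [← hEG _ _ T hT] at h
    have h2 := hC₂ T hT (fun j => α j + fx v j) (fun j => β j + fx v j)
      (fun j => (abs_add_le _ _).trans (by linarith [hα j, hfx j]))
      (fun j => (abs_add_le _ _).trans (by linarith [hβ j, hfx j]))
    have h3 : (∫ t in (0:ℝ)..T, (Z (fun j => α j + fx v j) (fun j => β j + fx v j) t -
        Q (fun j => α j + fx v j) (fun j => β j + fx v j) t)) =
        EG G (Sum.elim (fun j => α j + fx v j) (fun j => β j + fx v j)) T +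
        ∫ t in Set.Icc 0 T \ G, Z (fun j => α j + fx v j) (fun j => β j + fx v j) t := by
      unfold EG Er E
      simp
    rw [h3]
    have h4 : T ^ (1 - c) ≤ T ^ (1 - min c c') :=
      Real.rpow_le_rpow_of_exponent_le hT (by linarith [min_le_left c c'])
    have h5 : T ^ (1 - c') ≤ T ^ (1 - min c c') :=
      Real.rpow_le_rpow_of_exponent_le hT (by linarith [min_le_right c c'])
    calc _ ≤ C₁ * T ^ (1 - c) + C₂ * T ^ (1 - c') := (norm_add_le _ _).trans (add_le_add h h2)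
      _ ≤ max C₁ 0 * T ^ (1 - min c c') + max C₂ 0 * T ^ (1 - min c c') := by
          have h6 : (0:ℝ) ≤ T ^ (1 - c) := by positivity
          have h7 : (0:ℝ) ≤ T ^ (1 - c') := by positivity
          have h8 := le_max_left C₁ 0
          have h9 := le_max_left C₂ 0
          have h10 := le_max_right C₁ 0
          have h11 := le_max_right C₂ 0
          gcongr
      _ = _ := by ring

end Pool.Agent.AAS
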