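import Pool.Agent.AAS.FNA
import Pool.Agent.AAS.FNB

set_option autoImplicit false

namespace Pool.Agent.AAS

open Complex Finset MeasureTheory Filter Topology Set
open Pool.Agent.H26

/-- Theorems A' and B together: the recipe for almost all shifts in every range of powers, for the
moments restricted to a set `G` with small complement, where `G` is the whole line above the
threshold `(k - 1) / (3 k)`. -/
theorem unified (k : ℕ) (hk : 1 ≤ k) (θ₁ θ₂ : ℝ) (h₁ : 0 < θ₁) (h₁₂ : θ₁ ≤ θ₂) (h₂ : θ₂ < 1) :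
    ∃ c : ℝ, 0 < c ∧ ∃ G : Set ℝ, MeasurableSet G ∧
    (((k : ℝ) - 1) / (3 * k) < θ₁ → G = Set.univ) ∧
    (∃ C : ℝ, ∀ T : ℝ, 1 ≤ T → volume (Set.Icc 0 T \ G) ≤ ENNReal.ofReal (C * T ^ (1 - c))) ∧
    ∃ Ex : Set (Fin k → ℝ), MeasurableSet Ex ∧
    (∀ V : ℝ, 1 ≤ V → volume (Ex ∩ {v | ‖v‖ ≤ V}) ≤ ENNReal.ofReal (V ^ ((k : ℝ) - c))) ∧
    ∀ B : ℝ, ∃ C : ℝ, ∀ v, v ∉ Ex → ∀ T : ℝ, 1 ≤ T → T ^ θ₁ ≤ ‖v‖ → ‖v‖ ≤ T ^ θ₂ →
    ∀ α β : Fin (k + 1) → ℝ, (∀ j, |α j| ≤ B) → (∀ j, |β j| ≤ B) →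
    ‖(∫ t in Set.Icc 0 T ∩ G, Z (fun j => α j + fx v j) (fun j => β j + fx v j) t) -
      ∫ t in (0:ℝ)..T, Q (fun j => α j + fx v j) (fun j => β j + fx v j) t‖ ≤
      C * T ^ (1 - c) := by
  by_cases h : ((k : ℝ) - 1) / (3 * k) < θ₁
  · obtain ⟨c, hc, Ex, hEm, hEv, hmain⟩ := almost_all_sharp k hk θ₁ θ₂ h₁ h h₁₂ h₂
    refine ⟨c, hc, Set.univ, MeasurableSet.univ, fun _ => rfl, ⟨0, fun T _ => by simp⟩, Ex, hEm,
      hEv, fun B => ?_⟩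
    obtain ⟨C, hC⟩ := hmain B
    refine ⟨C, fun v hv T hT hv1 hv2 α β hα hβ => ?_⟩
    have h0 : (∫ t in Set.Icc 0 T ∩ Set.univ,
        Z (fun j => α j + fx v j) (fun j => β j + fx v j) t) -
        (∫ t in (0:ℝ)..T, Q (fun j => α j + fx v j) (fun j => β j + fx v j) t) =
        E (fun j => α j + fx v j) (fun j => β j + fx v j) T := by
      have h3 := EG_eq (G := Set.univ) MeasurableSet.univ
        (Sum.elim (fun j => α j + fx v j) (fun j => β j + fx v j)) (T := T) (by linarith)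
      rw [EG_univ] at h3
      simp only [Sum.elim_inl, Sum.elim_inr] at h3
      rw [Set.inter_comm, ← h3]
      rfl
    rw [h0]
    exact hC v hv T hT hv1 hv2 α β hα hβ
  · obtain ⟨c, hc, G, hG, hvol, Ex, hEm, hEv, hmain⟩ := truncated k θ₁ θ₂ h₁ h₁₂ h₂
    exact ⟨c, hc, G, hG, fun h' => absurd h' h, hvol, Ex, hEm, hEv, hmain⟩

end Pool.Agent.AAS
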