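import Pool.Agent.AAS.DefsH
import Pool.Agent.AAS.M4

set_option autoImplicit false

namespace Pool.Agent.AAS

open Complex Finset MeasureTheory Filter Topology Set
open Pool.Agent.H26

private theorem gws_cont : Continuous fun x : ℝ => ‖riemannZeta (1 / 2 + I * (x : ℂ))‖ ^ 4 := by
  refine (Continuous.norm ?_).pow 4
  refine continuous_iff_continuousAt.2 fun x => ?_
  have h1 : (1 / 2 + I * (x : ℂ)) ≠ 1 := by
    intro h
    have := congrArg Complex.re h
    norm_num at this
  have h2 : ContinuousAt riemannZeta (1 / 2 + I * (x : ℂ)) :=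
    (differentiableAt_riemannZeta h1).continuousAt
  have h3 : ContinuousAt (fun x : ℝ => (1 / 2 + I * (x : ℂ))) x := by fun_prop
  exact ContinuousAt.comp (f := fun x : ℝ => (1 / 2 + I * (x : ℂ))) (g := riemannZeta) h2 h3

private theorem gws_shift (t a b : ℝ) :
    ∫ u in a..b, ‖riemannZeta (1 / 2 + I * ((t : ℂ) + (u : ℂ)))‖ ^ 4 =
      ∫ x in (t + a)..(t + b), ‖riemannZeta (1 / 2 + I * (x : ℂ))‖ ^ 4 := by
  have h := intervalIntegral.integral_comp_add_left (a := a) (b := b)
    (fun x : ℝ => ‖riemannZeta (1 / 2 + I * (x : ℂ))‖ ^ 4) t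
  rw [← h]
  refine intervalIntegral.integral_congr fun u _ => ?_
  show ‖riemannZeta (1 / 2 + I * ((t : ℂ) + (u : ℂ)))‖ ^ 4 =
    ‖riemannZeta (1 / 2 + I * ((t + u : ℝ) : ℂ))‖ ^ 4
  rw [ofReal_add]

private theorem gws_mono {a b c d : ℝ} (h1 : c ≤ a) (h2 : a ≤ b) (h3 : b ≤ d) :
    ∫ x in a..b, ‖riemannZeta (1 / 2 + I * (x : ℂ))‖ ^ 4 ≤
      ∫ x in c..d, ‖riemannZeta (1 / 2 + I * (x : ℂ))‖ ^ 4 := by
  refine intervalIntegral.integral_mono_interval h1 h2 h3 ?_ (gws_cont.intervalIntegrable _ _)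
  exact Filter.Eventually.of_forall fun x => by positivity

theorem measurableSet_GW {T H d : ℝ} (hH : 0 < H) : MeasurableSet (GW T H d) := by
  have h1 : Measurable fun t : ℝ => ⌊t / H⌋ := Int.measurable_floor.comp (measurable_id.div_const H)
  have h2 : GW T H d = (fun t : ℝ => ⌊t / H⌋) ⁻¹' {m : ℤ |
      ∫ x in ((m : ℝ) * H - 4 * H)..((m : ℝ) * H + 5 * H),
        ‖riemannZeta (1 / 2 + I * x)‖ ^ 4 ≤ H * T ^ d} := rfl
  rw [h2]
  exact h1 (MeasurableSet.of_discrete)

private theorem gws_floor {H t : ℝ} (hH : 0 < H) :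
    (⌊t / H⌋ : ℝ) * H ≤ t ∧ t < (⌊t / H⌋ : ℝ) * H + H := by
  constructor
  · have := Int.floor_le (t / H)
    rwa [le_div_iff₀ hH] at this
  · have := Int.lt_floor_add_one (t / H)
    rw [div_lt_iff₀ hH] at this
    linarith

theorem GW_Gd {T H d : ℝ} (hH : 0 < H) : Gd T H d (GW T H d) := by
  intro t ht
  have h1 := gws_floor (t := t) hH
  rw [gws_shift t (-(2 * H)) (2 * H)]
  refine le_trans (gws_mono ?_ ?_ ?_) ht <;> linarith [h1.1, h1.2]

theorem GW_window {T H d : ℝ} (hH : 0 < H) {t t' : ℝ} (h : ⌊t / H⌋ = ⌊t' / H⌋) :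
    t ∈ GW T H d ↔ t' ∈ GW T H d := by
  unfold GW
  simp only [Set.mem_ofPred_eq, h]

private theorem gws_lint {a b : ℝ} (hab : a ≤ b) :
    ∫⁻ x in Icc a b, ENNReal.ofReal (‖riemannZeta (1 / 2 + I * (x : ℂ))‖ ^ 4) =
      ENNReal.ofReal (∫ x in a..b, ‖riemannZeta (1 / 2 + I * (x : ℂ))‖ ^ 4) := by
  rw [intervalIntegral.integral_of_le hab, ← integral_Icc_eq_integral_Ioc,
    ofReal_integral_eq_lintegral_ofReal]
  · exact (gws_cont.integrableOn_Icc)
  · exact Filter.Eventually.of_forall fun x => by positivity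

theorem exists_volume_GW (d : ℝ) (hd : 0 < d) : ∃ C : ℝ, 1 ≤ C ∧ ∀ T H : ℝ, 1 ≤ T → 1 ≤ H →
    H ≤ T → volume (Icc 0 (4 * T) \ GW T H d) ≤ ENNReal.ofReal (C * T ^ (1 - d / 2)) := by
  obtain ⟨C, hC, hM⟩ := exists_zeta_fourth (d / 2) (by linarith)
  refine ⟨10 * (C * 9 ^ (1 + d / 2)), ?_, ?_⟩
  · have : (1 : ℝ) ≤ 9 ^ (1 + d / 2) := Real.one_le_rpow (by norm_num) (by linarith)
    nlinarith
  intro T H hT hH hHT
  have hT0 : 0 < T := by linarith
  have hH0 : 0 < H := by linarith
  set f : ℝ → ENNReal := fun x => ENNReal.ofReal (‖riemannZeta (1 / 2 + I * (x : ℂ))‖ ^ 4) with hf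
  have hfm : Measurable f := (gws_cont.measurable).ennreal_ofReal
  set g : ℝ → ENNReal := fun t => ∫⁻ u in Icc (-(5 * H)) (5 * H), f (t + u) with hg
  have hgm : Measurable g := by
    have : Measurable (Function.uncurry fun t u : ℝ => f (t + u)) :=
      hfm.comp (measurable_fst.add measurable_snd)
    exact Measurable.lintegral_prod_right' (f := Function.uncurry fun t u : ℝ => f (t + u)) this
  -- bad points have a large value of `g`
  have hbad : ∀ t ∈ Icc 0 (4 * T) \ GW T H d, ENNReal.ofReal (H * T ^ d) ≤ g t := by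
    rintro t ⟨-, ht⟩
    have h1 := gws_floor (t := t) hH0
    have h2 : H * T ^ d < ∫ x in ((⌊t / H⌋ : ℝ) * H - 4 * H)..((⌊t / H⌋ : ℝ) * H + 5 * H),
        ‖riemannZeta (1 / 2 + I * x)‖ ^ 4 := not_le.1 ht
    have h3 : H * T ^ d ≤ ∫ x in (t - 5 * H)..(t + 5 * H),
        ‖riemannZeta (1 / 2 + I * x)‖ ^ 4 := by
      refine le_trans h2.le (gws_mono ?_ ?_ ?_) <;> linarith [h1.1, h1.2]
    have h4 : g t = ∫⁻ x in Icc (t - 5 * H) (t + 5 * H), f x := by
      simp only [hg]
      have h5 : ∀ u, (Icc (-(5 * H)) (5 * H)).indicator (fun u => f (t + u)) u =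
          (fun x => (Icc (t - 5 * H) (t + 5 * H)).indicator f x) (t + u) := by
        intro u
        simp only [Set.indicator_apply, Set.mem_Icc]
        have h6 : (-(5 * H) ≤ u ∧ u ≤ 5 * H) ↔ (t - 5 * H ≤ t + u ∧ t + u ≤ t + 5 * H) := by
          constructor <;> rintro ⟨a, b⟩ <;> constructor <;> linarith
        simp only [h6]
      rw [← lintegral_indicator measurableSet_Icc, ← lintegral_indicator measurableSet_Icc]
      rw [lintegral_congr h5]
      exact lintegral_add_left_eq_self (μ := volume)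
        (fun x => (Icc (t - 5 * H) (t + 5 * H)).indicator f x) t
    rw [h4, hf, gws_lint (by linarith)]
    exact ENNReal.ofReal_le_ofReal h3
  -- the integral of `g`
  have hint : ∫⁻ t in Icc 0 (4 * T), g t ≤
      ENNReal.ofReal (10 * H) * ENNReal.ofReal (C * (9 * T) ^ (1 + d / 2)) := by
    simp only [hg]
    rw [lintegral_lintegral_swap]
    · have h1 : ∀ u ∈ Icc (-(5 * H)) (5 * H), ∫⁻ t in Icc 0 (4 * T), f (t + u) ≤
          ENNReal.ofReal (C * (9 * T) ^ (1 + d / 2)) := by
        intro u hu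
        have h2 : ∫⁻ t in Icc 0 (4 * T), f (t + u) ≤ ∫⁻ x in Icc (-(9 * T)) (9 * T), f x := by
          have h5 : ∀ t, (Icc 0 (4 * T)).indicator (fun t => f (t + u)) t ≤
              (fun x => (Icc (-(9 * T)) (9 * T)).indicator f x) (t + u) := by
            intro t
            simp only [Set.indicator_apply, Set.mem_Icc]
            split_ifs with a b b
            · exact le_rfl
            · exfalso
              apply b
              constructor <;> nlinarith [hu.1, hu.2, a.1, a.2]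
            · exact bot_le
            · exact le_rfl
          rw [← lintegral_indicator measurableSet_Icc, ← lintegral_indicator measurableSet_Icc]
          refine le_trans (lintegral_mono h5) (le_of_eq ?_)
          exact lintegral_add_right_eq_self (μ := volume)
            (fun x => (Icc (-(9 * T)) (9 * T)).indicator f x) u
        refine le_trans h2 ?_
        rw [hf, gws_lint (by linarith)]
        exact ENNReal.ofReal_le_ofReal (hM (9 * T) (by linarith))
      refine le_trans (setLIntegral_mono measurable_const h1) ?_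
      rw [setLIntegral_const, Real.volume_Icc, mul_comm]
      refine mul_le_mul' (le_of_eq ?_) le_rfl
      congr 1
      ring
    · exact (hfm.comp (measurable_fst.add measurable_snd)).aemeasurable
  have hmark : ENNReal.ofReal (H * T ^ d) * volume (Icc 0 (4 * T) \ GW T H d) ≤
      ENNReal.ofReal (10 * H) * ENNReal.ofReal (C * (9 * T) ^ (1 + d / 2)) := by
    refine le_trans ?_ hint
    have h1 : Icc 0 (4 * T) \ GW T H d ⊆ Icc 0 (4 * T) := Set.sdiff_subset
    have h2 : ∫⁻ t in Icc 0 (4 * T) \ GW T H d, ENNReal.ofReal (H * T ^ d) ≤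
        ∫⁻ t in Icc 0 (4 * T) \ GW T H d, g t := setLIntegral_mono hgm hbad
    rw [setLIntegral_const] at h2
    exact le_trans h2 (lintegral_mono_set h1)
  have hpos : 0 < H * T ^ d := by positivity
  have hne : ENNReal.ofReal (H * T ^ d) ≠ 0 := by
    simpa using hpos
  have hfin : ENNReal.ofReal (H * T ^ d) ≠ ⊤ := ENNReal.ofReal_ne_top
  rw [mul_comm, ← ENNReal.le_div_iff_mul_le (Or.inl hne) (Or.inl hfin)] at hmark
  refine le_trans hmark (le_of_eq ?_)
  rw [← ENNReal.ofReal_mul (by positivity), ← ENNReal.ofReal_div_of_pos hpos]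
  congr 1
  rw [Real.mul_rpow (by norm_num) hT0.le, show (1 - d / 2) = (1 + d / 2) - d by ring,
    Real.rpow_sub hT0]
  field_simp

end Pool.Agent.AAS
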