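import Pool.Agent.AAS.LS
import Pool.Agent.AAS.L2C
import Pool.Agent.AAS.YKB
import Pool.Agent.AAS.YKC
import Pool.Agent.AAS.BLK
import Pool.Agent.AAS.CTS


set_option autoImplicit false

namespace Pool.Agent.AAS

open Complex Finset MeasureTheory Filter Topology Set
open Pool.Agent.H26

/-- The weight of the line integral. -/
private noncomputable def l2kW (c y : ℝ) : ℝ :=
  (1 + ‖((c : ℂ) + y * I)‖) ^ 8 * ((1 + y ^ 2) * Real.exp (-y ^ 2))

private lemma l2k_pos (c y : ℝ) : 0 < l2kW c y := by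
  unfold l2kW; positivity

private lemma l2k_norm_le {c : ℝ} (hc : 0 < c) (hc1 : c ≤ 3 / 4) (y : ℝ) :
    1 + ‖((c : ℂ) + y * I)‖ ≤ 2 + |y| := by
  have h1 : ‖((c : ℂ) + y * I)‖ ≤ ‖(c : ℂ)‖ + ‖(y : ℂ) * I‖ := norm_add_le _ _
  have h2 : ‖(c : ℂ)‖ = c := by
    rw [Complex.norm_real, Real.norm_eq_abs, abs_of_pos hc]
  have h3 : ‖(y : ℂ) * I‖ = |y| := by
    rw [norm_mul, Complex.norm_I, mul_one, Complex.norm_real, Real.norm_eq_abs]
  rw [h2, h3] at h1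
  linarith

private lemma l2k_le {c : ℝ} (hc : 0 < c) (hc1 : c ≤ 3 / 4) (y : ℝ) :
    l2kW c y ≤ 4096 * 10 ^ 5 * Real.exp (1 / 2) * Real.exp (-(1 / 2) * y ^ 2) := by
  have h1 := l2k_norm_le hc hc1 y
  have h0 : 0 ≤ 1 + ‖((c : ℂ) + y * I)‖ := by positivity
  have h2 : (1 + ‖((c : ℂ) + y * I)‖) ^ 2 ≤ 8 * (1 + y ^ 2) := by
    have h3 : (1 + ‖((c : ℂ) + y * I)‖) ^ 2 ≤ (2 + |y|) ^ 2 := pow_le_pow_left₀ h0 h1 2
    have h4 : |y| ^ 2 = y ^ 2 := sq_abs y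
    nlinarith [sq_nonneg (|y| - 2), abs_nonneg y]
  have h5 : (1 + ‖((c : ℂ) + y * I)‖) ^ 8 ≤ 4096 * (1 + y ^ 2) ^ 4 := by
    calc (1 + ‖((c : ℂ) + y * I)‖) ^ 8 = ((1 + ‖((c : ℂ) + y * I)‖) ^ 2) ^ 4 := by ring
      _ ≤ (8 * (1 + y ^ 2)) ^ 4 := pow_le_pow_left₀ (by positivity) h2 4
      _ = 4096 * (1 + y ^ 2) ^ 4 := by ring
  have h6 : (1 + y ^ 2) ^ 5 ≤ 10 ^ 5 * Real.exp ((1 + y ^ 2) / 2) := by
    have h7 : (1 + y ^ 2) / 10 ≤ Real.exp ((1 + y ^ 2) / 10) := by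
      have := Real.add_one_le_exp ((1 + y ^ 2) / 10)
      linarith
    calc (1 + y ^ 2) ^ 5 = 10 ^ 5 * ((1 + y ^ 2) / 10) ^ 5 := by ring
      _ ≤ 10 ^ 5 * (Real.exp ((1 + y ^ 2) / 10)) ^ 5 := by
          gcongr
      _ = 10 ^ 5 * Real.exp ((1 + y ^ 2) / 2) := by
          rw [← Real.exp_nat_mul]; congr 2; push_cast; ring
  have h8 : Real.exp ((1 + y ^ 2) / 2) * Real.exp (-y ^ 2) =
      Real.exp (1 / 2) * Real.exp (-(1 / 2) * y ^ 2) := by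
    rw [← Real.exp_add, ← Real.exp_add]; congr 1; ring
  unfold l2kW
  calc (1 + ‖((c : ℂ) + y * I)‖) ^ 8 * ((1 + y ^ 2) * Real.exp (-y ^ 2))
      ≤ (4096 * (1 + y ^ 2) ^ 4) * ((1 + y ^ 2) * Real.exp (-y ^ 2)) := by gcongr
    _ = 4096 * (1 + y ^ 2) ^ 5 * Real.exp (-y ^ 2) := by ring
    _ ≤ 4096 * (10 ^ 5 * Real.exp ((1 + y ^ 2) / 2)) * Real.exp (-y ^ 2) := by gcongr
    _ = 4096 * 10 ^ 5 * (Real.exp ((1 + y ^ 2) / 2) * Real.exp (-y ^ 2)) := by ring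
    _ = _ := by rw [h8]; ring

private lemma l2k_cont (c : ℝ) : Continuous (l2kW c) := by
  unfold l2kW; fun_prop

private lemma l2k_int {c : ℝ} (hc : 0 < c) (hc1 : c ≤ 3 / 4) : Integrable (l2kW c) := by
  have h1 : Integrable fun y : ℝ =>
      4096 * 10 ^ 5 * Real.exp (1 / 2) * Real.exp (-(1 / 2) * y ^ 2) :=
    (integrable_exp_neg_mul_sq (by norm_num : (0:ℝ) < 1 / 2)).const_mul _
  refine h1.mono' (l2k_cont c).aestronglyMeasurable (Filter.Eventually.of_forall fun y => ?_)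
  rw [Real.norm_eq_abs, abs_of_pos (l2k_pos c y)]
  exact l2k_le hc hc1 y

private lemma l2k_zeta {c : ℝ} (hc : 0 < c) : ∃ Z : ℝ, 1 ≤ Z ∧
    ∀ w : ℂ, w.re = 1 + 2 * c → ‖riemannZeta w‖ ≤ Z := by
  have hs : Summable fun n : ℕ => 1 / ((n : ℝ) + 1) ^ (1 + 2 * c) := by
    have h := (Real.summable_one_div_nat_rpow (p := 1 + 2 * c)).2 (by linarith)
    have h2 := (summable_nat_add_iff 1).2 h
    simpa using h2
  refine ⟨1 + ∑' n : ℕ, 1 / ((n : ℝ) + 1) ^ (1 + 2 * c), ?_, ?_⟩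
  · have : 0 ≤ ∑' n : ℕ, 1 / ((n : ℝ) + 1) ^ (1 + 2 * c) := tsum_nonneg fun n => by positivity
    linarith
  · intro w hw
    rw [zeta_eq_tsum_one_div_nat_add_one_cpow (by rw [hw]; linarith)]
    have hn : ∀ n : ℕ, ‖1 / ((n : ℂ) + 1) ^ w‖ = 1 / ((n : ℝ) + 1) ^ (1 + 2 * c) := by
      intro n
      rw [norm_div, norm_one]
      congr 1
      have : ((n : ℂ) + 1) = (((n : ℝ) + 1 : ℝ) : ℂ) := by push_cast; ring
      rw [this, Complex.norm_cpow_eq_rpow_re_of_pos (by positivity), hw]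
    have h3 := norm_tsum_le_tsum_norm (f := fun n : ℕ => 1 / ((n : ℂ) + 1) ^ w) (by
      simp_rw [hn]; exact hs)
    simp_rw [hn] at h3
    linarith

/-- The sum of squares of the coefficients of a block. -/
private lemma l2k_sumsq {c : ℝ} (hc : 0 < c) (a b y : ℝ) (j : ℕ) :
    ∑ p ∈ blk j, ‖cf a b ((c : ℂ) + y * I) p‖ ^ 2 ≤
      4 * (((j : ℝ) + 1) * (2:ℝ) ^ (-c * j)) ^ 2 := by
  have h1 : ∀ p ∈ blk j, ‖cf a b ((c : ℂ) + y * I) p‖ ^ 2 ≤ (2:ℝ) ^ (-(j:ℝ)) *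
      ((2:ℝ) ^ (-c * j)) ^ 2 := by
    intro p hp
    have hm := mem_blk.1 hp
    have h1 : 1 ≤ p.1 * p.2 := le_trans Nat.one_le_two_pow hm.2.1
    rw [norm_cf a b _ h1]
    have hre : ((c : ℂ) + y * I).re = c := by simp
    rw [hre]
    have h2 : ((2:ℝ) ^ j) ≤ ((p.1 * p.2 : ℕ) : ℝ) := by exact_mod_cast hm.2.1
    have h3 : ((p.1 * p.2 : ℕ) : ℝ) ^ (-(1 / 2) - c) ≤ ((2:ℝ) ^ j) ^ (-(1 / 2) - c) :=
      Real.rpow_le_rpow_of_nonpos (by positivity) h2 (by linarith)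
    have h4 : (((p.1 * p.2 : ℕ) : ℝ) ^ (-(1 / 2) - c)) ^ 2 ≤ (((2:ℝ) ^ j) ^ (-(1 / 2) - c)) ^ 2 :=
      pow_le_pow_left₀ (by positivity) h3 2
    refine h4.trans (le_of_eq ?_)
    rw [← Real.rpow_natCast 2 j, ← Real.rpow_mul (by norm_num), ← Real.rpow_natCast _ 2,
      ← Real.rpow_mul (by norm_num), ← Real.rpow_natCast ((2:ℝ) ^ (-c * (j:ℝ))) 2,
      ← Real.rpow_mul (by norm_num), ← Real.rpow_add (by norm_num)]
    congr 1
    push_cast
    ring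
  have h2 := Finset.sum_le_sum h1
  rw [Finset.sum_const, nsmul_eq_mul] at h2
  refine h2.trans ?_
  have h3 := card_blk_le j
  have h4 : (2:ℝ) ^ (j + 1) * (2:ℝ) ^ (-(j:ℝ)) = 2 := by
    rw [← Real.rpow_natCast 2 (j + 1), ← Real.rpow_add (by norm_num)]
    push_cast
    rw [show ((j:ℝ) + 1 + -(j:ℝ)) = 1 by ring, Real.rpow_one]
  calc ((blk j).card : ℝ) * ((2:ℝ) ^ (-(j:ℝ)) * ((2:ℝ) ^ (-c * j)) ^ 2)
      ≤ ((j + 2) * 2 ^ (j + 1)) * ((2:ℝ) ^ (-(j:ℝ)) * ((2:ℝ) ^ (-c * j)) ^ 2) := by gcongr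
    _ = (j + 2) * ((2:ℝ) ^ (j + 1) * (2:ℝ) ^ (-(j:ℝ))) * ((2:ℝ) ^ (-c * j)) ^ 2 := by ring
    _ = (2 * (j + 2)) * ((2:ℝ) ^ (-c * j)) ^ 2 := by rw [h4]; ring
    _ ≤ (4 * ((j:ℝ) + 1) ^ 2) * ((2:ℝ) ^ (-c * j)) ^ 2 := by
        have h5 : (0:ℝ) ≤ j := by positivity
        have h6 : 2 * ((j:ℝ) + 2) ≤ 4 * ((j:ℝ) + 1) ^ 2 := by nlinarith
        exact mul_le_mul_of_nonneg_right h6 (by positivity)
    _ = _ := by ring

private lemma l2k_norm_DP (a b x : ℝ) (s : ℂ) (j : ℕ) :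
    ‖DP (blk j) a b s x‖ ≤ ∑ p ∈ blk j, ((p.1 * p.2 : ℕ) : ℝ) ^ (-(1 / 2) - s.re) := by
  unfold DP
  refine (norm_sum_le _ _).trans (Finset.sum_le_sum fun p hp => ?_)
  have hm := mem_blk.1 hp
  have h1 : 1 ≤ p.1 * p.2 := le_trans Nat.one_le_two_pow hm.2.1
  rw [norm_mul, norm_cf a b _ h1]
  have h2 : ‖cexp (-(I * lq p * x))‖ = 1 := by
    rw [Complex.norm_exp]
    simp
  rw [h2, mul_one]

private lemma l2k_cont_DP (a b c : ℝ) (j : ℕ) :
    Continuous fun p : ℝ × ℝ => DP (blk j) a b ((c : ℂ) + p.1 * I) p.2 := by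
  unfold DP cf
  refine continuous_finsetSum _ fun q hq => ?_
  have hm := mem_blk.1 hq
  have h1 : 1 ≤ q.1 * q.2 := le_trans Nat.one_le_two_pow hm.2.1
  have h2 : (q.1 : ℂ) ≠ 0 := by
    have : q.1 ≠ 0 := by rintro h; simp [h] at h1
    exact_mod_cast this
  have h3 : (q.2 : ℂ) ≠ 0 := by
    have : q.2 ≠ 0 := by rintro h; simp [h] at h1
    exact_mod_cast this
  refine Continuous.mul (Continuous.mul ?_ ?_) ?_
  · exact Continuous.const_cpow (by fun_prop) (Or.inl h2)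
  · exact Continuous.const_cpow (by fun_prop) (Or.inl h3)
  · fun_prop

private lemma l2k_ne {c : ℝ} (hc : 0 < c) (y : ℝ) : ((c : ℂ) + y * I) ≠ 0 := by
  intro h
  have := congrArg Complex.re h
  simp at this
  linarith

private lemma l2k_cont_AI {c : ℝ} (hc : 0 < c) (a b T : ℝ) (hT : 0 < T) (κ : Bool) (j : ℕ) :
    Continuous fun p : ℝ × ℝ => AI a b T κ j ((c : ℂ) + p.1 * I) p.2 := by
  unfold AI
  refine Continuous.mul (Continuous.mul (Continuous.mul ?_ ?_) ?_) ?_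
  · unfold KD
    refine Continuous.div (by fun_prop) (by fun_prop) fun p => l2k_ne hc p.1
  · exact continuous_Yk a b T hT κ (by linarith)
  · rw [continuous_iff_continuousAt]
    intro p
    have h1 : (1 + 2 * ((c : ℂ) + p.1 * I) + I * (sw κ a b - sw κ b a)) ≠ 1 := by
      intro h
      have := congrArg Complex.re h
      simp at this
      linarith
    exact ContinuousAt.comp (f := fun p : ℝ × ℝ =>
      (1 + 2 * ((c : ℂ) + p.1 * I) + I * (sw κ a b - sw κ b a)))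
      (differentiableAt_riemannZeta h1).continuousAt (by fun_prop)
  · exact l2k_cont_DP _ _ c j

/-- E3 -/
theorem exists_l2_block (B c : ℝ) (hB : 0 ≤ B) (hc : 0 < c) (hc1 : c ≤ 3 / 4) :
    ∃ C : ℝ, 1 ≤ C ∧ ∀ T : ℝ, 1 ≤ T → ∀ a b : ℝ, |a| ≤ B → |b| ≤ B → a ≠ b →
    ∀ κ : Bool, ∀ j : ℕ, L2B (T ^ (7 / 8 : ℝ) / 2) (3 * T) (LIb a b T κ j c)
      (C * (1 + 1 / (a - b) ^ 2) * (T ^ c * 2 ^ (-c * j) * ((j : ℝ) + 1) * √(T + 2 ^ j))) := by
  obtain ⟨CY, hCY1, hCY⟩ := exists_Yk_bound B hB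
  obtain ⟨Z, hZ1, hZ⟩ := l2k_zeta hc
  set W : ℝ := ∫ y, l2kW c y with hW
  have hW0 : 0 ≤ W := integral_nonneg fun y => (l2k_pos c y).le
  set K : ℝ := 100 / c * CY * Z with hK
  have hK0 : 0 < K := by positivity
  refine ⟨1 + 18 * K * W, by nlinarith [mul_nonneg hK0.le hW0], ?_⟩
  intro T hT a b ha hb hab κ j
  have hT0 : 0 < T := by linarith
  have hD : a - b ≠ 0 := sub_ne_zero.2 hab
  have hD0 : 0 < 1 + 1 / (a - b) ^ 2 := by positivity
  have hAB : T ^ (7 / 8 : ℝ) / 2 ≤ 3 * T := by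
    have h1 : T ^ (7 / 8 : ℝ) ≤ T ^ (1 : ℝ) := Real.rpow_le_rpow_of_exponent_le hT (by norm_num)
    rw [Real.rpow_one] at h1
    linarith
  have hA0 : 0 ≤ T ^ (7 / 8 : ℝ) / 2 := by positivity
  -- the pointwise bound of the integrand without the polynomial
  have hco : ∀ y x : ℝ, |x| ≤ 3 * T →
      ‖AI a b T κ j ((c : ℂ) + y * I) x‖ ≤ K * (1 + 1 / (a - b) ^ 2) * T ^ c * l2kW c y *
        ‖DP (blk j) (sw κ a b) (sw κ b a) ((c : ℂ) + y * I) x‖ := by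
    intro y x hx
    have hre : ((c : ℂ) + y * I).re = c := by simp
    unfold AI
    rw [norm_mul, norm_mul, norm_mul]
    have h1 := norm_KD_le hD hc.ne' (by rw [abs_of_pos hc]; linarith) y
    rw [abs_of_pos hc] at h1
    have h2 := hCY T hT a b ha hb κ ((c : ℂ) + y * I) (by rw [hre]; exact hc.le)
      (by rw [hre]; exact hc1) x hx
    rw [hre] at h2
    have h3 := hZ (1 + 2 * ((c : ℂ) + y * I) + I * (sw κ a b - sw κ b a)) (by simp)
    calc ‖KD (a - b) ((c : ℂ) + y * I)‖ * ‖Yk a b T κ ((c : ℂ) + y * I) x‖ *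
          ‖riemannZeta (1 + 2 * ((c : ℂ) + y * I) + I * (sw κ a b - sw κ b a))‖ *
          ‖DP (blk j) (sw κ a b) (sw κ b a) ((c : ℂ) + y * I) x‖
        ≤ (100 / c * (1 + 1 / (a - b) ^ 2) * ((1 + y ^ 2) * Real.exp (-y ^ 2))) *
          (CY * (1 + ‖((c : ℂ) + y * I)‖) ^ 8 * T ^ c) * Z *
          ‖DP (blk j) (sw κ a b) (sw κ b a) ((c : ℂ) + y * I) x‖ := by gcongr
      _ = _ := by
          rw [hK]; unfold l2kW; ring
  have hpi : ‖((2 * Real.pi : ℂ)⁻¹)‖ ≤ 1 := by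
    rw [norm_inv]
    have : ‖(2 * Real.pi : ℂ)‖ = 2 * Real.pi := by
      rw [norm_mul, Complex.norm_real, Real.norm_eq_abs, abs_of_pos Real.pi_pos]; simp
    rw [this]
    exact inv_le_one_of_one_le₀ (by nlinarith [Real.pi_gt_three])
  set Q : ℝ := (2:ℝ) ^ (-c * j) * ((j : ℝ) + 1) * √(T + 2 ^ j) with hQ
  have hQ0 : 0 < Q := by positivity
  have hsep : ∀ r ∈ blk j, ∀ s ∈ blk j, r ≠ s → 1 / (2:ℝ) ^ (j + 1) ≤ |lq r - lq s| :=
    fun r hr s hs hrs => sep_blk hr hs hrs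
  have hkey := L2B.integral (A := T ^ (7 / 8 : ℝ) / 2) (B := 3 * T) hAB
    (g := fun y x => (2 * Real.pi : ℂ)⁻¹ * AI a b T κ j ((c : ℂ) + y * I) x)
    (continuous_const.mul (l2k_cont_AI hc a b T hT0 κ j))
    (m := fun y => K * (1 + 1 / (a - b) ^ 2) * T ^ c *
      (∑ p ∈ blk j, ((p.1 * p.2 : ℕ) : ℝ) ^ (-(1 / 2) - c)) * l2kW c y)
    ((l2k_int hc hc1).const_mul _)
    (by
      intro y x hx
      have hx1 : |x| ≤ 3 * T := by
        rw [abs_of_nonneg (hA0.trans hx.1)]; exact hx.2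
      have h1 := hco y x hx1
      have h2 := l2k_norm_DP (sw κ a b) (sw κ b a) x ((c : ℂ) + y * I) j
      have hre : ((c : ℂ) + y * I).re = c := by simp
      rw [hre] at h2
      have h3 := l2k_pos c y
      calc ‖(2 * Real.pi : ℂ)⁻¹ * AI a b T κ j ((c : ℂ) + y * I) x‖
          ≤ 1 * ‖AI a b T κ j ((c : ℂ) + y * I) x‖ := by rw [norm_mul]; gcongr
        _ ≤ K * (1 + 1 / (a - b) ^ 2) * T ^ c * l2kW c y *
            ‖DP (blk j) (sw κ a b) (sw κ b a) ((c : ℂ) + y * I) x‖ := by rw [one_mul]; exact h1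
        _ ≤ K * (1 + 1 / (a - b) ^ 2) * T ^ c * l2kW c y *
            (∑ p ∈ blk j, ((p.1 * p.2 : ℕ) : ℝ) ^ (-(1 / 2) - c)) := by gcongr
        _ = _ := by ring)
    (M := fun y => 18 * K * (1 + 1 / (a - b) ^ 2) * T ^ c * Q * l2kW c y)
    ((l2k_int hc hc1).const_mul _)
    (fun y => by have := l2k_pos c y; positivity)
    (by
      intro y
      have hw := l2k_pos c y
      refine ⟨by positivity, ?_⟩
      have h1 : ∫ x in (T ^ (7 / 8 : ℝ) / 2)..(3 * T),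
          ‖(2 * Real.pi : ℂ)⁻¹ * AI a b T κ j ((c : ℂ) + y * I) x‖ ^ 2 ≤
          ∫ x in (T ^ (7 / 8 : ℝ) / 2)..(3 * T),
            (K * (1 + 1 / (a - b) ^ 2) * T ^ c * l2kW c y) ^ 2 *
            ‖∑ p ∈ blk j, cf (sw κ a b) (sw κ b a) ((c : ℂ) + y * I) p *
              cexp (-(I * lq p * x))‖ ^ 2 := by
        have hc1 : Continuous fun x : ℝ =>
            ‖(2 * Real.pi : ℂ)⁻¹ * AI a b T κ j ((c : ℂ) + y * I) x‖ ^ 2 :=
          ((continuous_const.mul ((l2k_cont_AI hc a b T hT0 κ j).comp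
            (Continuous.prodMk_right y))).norm).pow 2
        have hc2 : Continuous fun x : ℝ =>
            (K * (1 + 1 / (a - b) ^ 2) * T ^ c * l2kW c y) ^ 2 *
            ‖∑ p ∈ blk j, cf (sw κ a b) (sw κ b a) ((c : ℂ) + y * I) p *
              cexp (-(I * lq p * x))‖ ^ 2 := by fun_prop
        refine intervalIntegral.integral_mono_on hAB (hc1.intervalIntegrable _ _)
          (hc2.intervalIntegrable _ _) fun x hx => ?_
        have hx1 : |x| ≤ 3 * T := by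
          rw [abs_of_nonneg (hA0.trans hx.1)]; exact hx.2
        rw [← mul_pow]
        refine pow_le_pow_left₀ (norm_nonneg _) ?_ 2
        have h1 := hco y x hx1
        calc ‖(2 * Real.pi : ℂ)⁻¹ * AI a b T κ j ((c : ℂ) + y * I) x‖
            ≤ 1 * ‖AI a b T κ j ((c : ℂ) + y * I) x‖ := by rw [norm_mul]; gcongr
          _ ≤ _ := by rw [one_mul]; exact h1
      refine h1.trans ?_
      rw [intervalIntegral.integral_const_mul]
      have h2 := large_sieve (blk j) lq (by positivity : (0:ℝ) < 1 / (2:ℝ) ^ (j + 1)) hsep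
        (cf (sw κ a b) (sw κ b a) ((c : ℂ) + y * I)) hAB
      have h3 := l2k_sumsq hc (sw κ a b) (sw κ b a) y j
      have h4 : (3 * T - T ^ (7 / 8 : ℝ) / 2) + 1 / (1 / (2:ℝ) ^ (j + 1)) ≤ 3 * (T + 2 ^ j) := by
        rw [one_div_one_div, pow_succ]
        have : (0:ℝ) < 2 ^ j := by positivity
        linarith
      have h5 : (√(T + 2 ^ j)) ^ 2 = T + 2 ^ j := Real.sq_sqrt (by positivity)
      calc (K * (1 + 1 / (a - b) ^ 2) * T ^ c * l2kW c y) ^ 2 *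
            ∫ x in (T ^ (7 / 8 : ℝ) / 2)..(3 * T),
            ‖∑ p ∈ blk j, cf (sw κ a b) (sw κ b a) ((c : ℂ) + y * I) p *
              cexp (-(I * lq p * x))‖ ^ 2
          ≤ (K * (1 + 1 / (a - b) ^ 2) * T ^ c * l2kW c y) ^ 2 *
            (25 * (3 * (T + 2 ^ j)) * (4 * (((j : ℝ) + 1) * (2:ℝ) ^ (-c * j)) ^ 2)) := by
            gcongr
            refine h2.trans ?_
            gcongr
        _ ≤ (18 * K * (1 + 1 / (a - b) ^ 2) * T ^ c * Q * l2kW c y) ^ 2 := by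
            rw [hQ]
            have h6 : (18 * K * (1 + 1 / (a - b) ^ 2) * T ^ c *
                ((2:ℝ) ^ (-c * j) * ((j : ℝ) + 1) * √(T + 2 ^ j)) * l2kW c y) ^ 2 =
                (K * (1 + 1 / (a - b) ^ 2) * T ^ c * l2kW c y) ^ 2 *
                (324 * (√(T + 2 ^ j)) ^ 2 * (((j : ℝ) + 1) * (2:ℝ) ^ (-c * j)) ^ 2) := by
              generalize √(T + 2 ^ j) = s0
              generalize (2:ℝ) ^ (-c * j) = s1
              ring
            rw [h6, h5]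
            refine mul_le_mul_of_nonneg_left ?_ (by positivity)
            have h7 : 0 ≤ (T + 2 ^ j) * (((j : ℝ) + 1) * (2:ℝ) ^ (-c * j)) ^ 2 := by positivity
            linarith)
  have hfun : (fun x : ℝ => ∫ y : ℝ, (2 * Real.pi : ℂ)⁻¹ * AI a b T κ j ((c : ℂ) + y * I) x) =
      LIb a b T κ j c := by
    funext x
    unfold LIb LI
    rw [← integral_const_mul]
  rw [hfun] at hkey
  refine L2B.mono hkey ?_
  rw [integral_const_mul, ← hW]
  have h9 : 0 ≤ (1 + 1 / (a - b) ^ 2) * (T ^ c * Q) := by positivity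
  calc 18 * K * (1 + 1 / (a - b) ^ 2) * T ^ c * Q * W
      = (18 * K * W) * ((1 + 1 / (a - b) ^ 2) * (T ^ c * Q)) := by ring
    _ ≤ (1 + 18 * K * W) * ((1 + 1 / (a - b) ^ 2) * (T ^ c * Q)) := by
        gcongr; linarith
    _ = _ := by rw [hQ]; ring

end Pool.Agent.AAS
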