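import Pool.Agent.AAS.EGB
import Pool.Agent.AAS.CHB
import Pool.Agent.AAS.CR1

set_option autoImplicit false

namespace Pool.Agent.AAS

open Complex Finset MeasureTheory Filter Topology Set
open Pool.Agent.H26
open scoped ENNReal

namespace MXA

variable {k : ℕ}

/-- the shifts in a box with a separated pair -/
def Wd (k : ℕ) (R r : ℝ) : Set (Ix k → ℝ) :=
  {γ | (∀ i, |γ i| ≤ R) ∧ ∀ j, r ≤ |γ (Sum.inl j) - γ (Sum.inr j)|}

lemma measurableSet_Wd (k : ℕ) (R r : ℝ) : MeasurableSet (Wd k R r) := by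
  have e : Wd k R r = (⋂ i : Ix k, {γ : Ix k → ℝ | |γ i| ≤ R}) ∩
      ⋂ j : Fin k, {γ : Ix k → ℝ | r ≤ |γ (Sum.inl j) - γ (Sum.inr j)|} := by
    ext γ
    simp only [Wd, Set.mem_inter_iff, Set.mem_iInter, Set.mem_ofPred_eq]
  rw [e]
  refine (IsClosed.inter ?_ ?_).measurableSet
  · exact isClosed_iInter fun i => isClosed_le (by fun_prop) continuous_const
  · exact isClosed_iInter fun j => isClosed_le continuous_const (by fun_prop)

lemma volume_Wd_le (k : ℕ) {R : ℝ} (hR : 0 ≤ R) (r : ℝ) :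
    volume (Wd k R r) ≤ ENNReal.ofReal ((2 * R) ^ (2 * k)) := by
  have h1 : Wd k R r ⊆ Set.univ.pi fun _ : Ix k => Set.Icc (-R) R := by
    intro γ hγ i _
    exact abs_le.1 (hγ.1 i)
  refine (measure_mono h1).trans ?_
  rw [volume_pi_pi]
  simp only [Real.volume_Icc, Finset.prod_const, Finset.card_univ, Fintype.card_sum,
    Fintype.card_fin]
  rw [← ENNReal.ofReal_pow (by linarith)]
  apply le_of_eq
  congr 1
  rw [show k + k = 2 * k by ring]
  congr 1
  ring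

lemma continuous_elim : Continuous fun p : (Fin k → ℝ) × (Ix (k + 1) → ℝ) =>
    p.2 + Sum.elim (fx p.1) (fx p.1) := by
  refine continuous_pi fun i => ?_
  cases i with
  | inl j =>
    have h1 : Continuous fun p : (Fin k → ℝ) × (Ix (k + 1) → ℝ) => fx p.1 j :=
      (continuous_fxj j).comp continuous_fst
    simpa using (by fun_prop : Continuous fun p : (Fin k → ℝ) × (Ix (k + 1) → ℝ) =>
      p.2 (Sum.inl j) + fx p.1 j)
  | inr j =>
    have h1 : Continuous fun p : (Fin k → ℝ) × (Ix (k + 1) → ℝ) => fx p.1 j :=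
      (continuous_fxj j).comp continuous_fst
    simpa using (by fun_prop : Continuous fun p : (Fin k → ℝ) × (Ix (k + 1) → ℝ) =>
      p.2 (Sum.inr j) + fx p.1 j)

lemma isCompact_box (k : ℕ) (H : ℝ) : IsCompact (box k H) :=
  isCompact_univ_pi fun _ => isCompact_Icc

lemma gm_eq (γ : Ix (k + 1) → ℝ) (v : Fin k → ℝ) :
    gm (fun j => γ (Sum.inl j)) (fun j => γ (Sum.inr j)) (fx v) =
      γ + Sum.elim (fx v) (fx v) := by
  funext i
  cases i with
  | inl j => rfl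
  | inr j => rfl

lemma abs_fx_le {H : ℝ} (hH : 0 ≤ H) {v : Fin k → ℝ} (hv : v ∈ box k H) (j : Fin (k + 1)) :
    |fx v j| ≤ H := by
  unfold fx
  refine Fin.cases ?_ (fun i => ?_) j
  · simpa using hH
  · simpa using abs_le.2 (hv i (Set.mem_univ i))

lemma fx_mem_box {H H' : ℝ} (hH : 0 ≤ H) (hHH : H ≤ H') {v : Fin k → ℝ} (hv : v ∈ box k H) :
    fx v ∈ box (k + 1) H' := fun j _ => abs_le.1 ((abs_fx_le hH hv j).trans hHH)

lemma Vg_anti {H R R' R'' : ℝ} (h : R'' ≤ R') : Vg k H R R' ⊆ Vg k H R R'' :=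
  fun _ hv => ⟨hv.1, hv.2.1, fun S hS hκ => h.trans (hv.2.2 S hS hκ)⟩

/-- from the integral of the norm to the lower integral -/
lemma lintegral_le {E : Type*} [NormedAddCommGroup E] [MeasurableSpace E] [BorelSpace E]
    [SecondCountableTopology E] {g : (Fin k → ℝ) → E} (hg : Continuous g)
    {U U' : Set (Fin k → ℝ)} {H M : ℝ} (hUU : U ⊆ U') (hU : U' ⊆ box k H)
    (h : ∫ v in U', ‖g v‖ ≤ M) : ∫⁻ v in U, ‖g v‖ₑ ≤ ENNReal.ofReal M := by
  have h2 : IntegrableOn g U' :=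
    (hg.continuousOn.integrableOn_compact (isCompact_box k H)).mono_set hU
  refine (lintegral_mono_set hUU).trans ?_
  rw [← ofReal_integral_norm_eq_lintegral_enorm h2]
  exact ENNReal.ofReal_le_ofReal h

/-- the sum of the errors at the net and the maximal function -/
noncomputable def F (G : Set ℝ) (T h : ℝ) (N : ℕ) (v : Fin k → ℝ) (γ : Ix (k + 1) → ℝ) : ℝ≥0∞ :=
  (∑ i ∈ Finset.range (N + 1), ‖EG G (γ + Sum.elim (fx v) (fx v)) (T + i * h)‖ₑ) +
    ‖SpG G (fun j => γ (Sum.inl j)) (fun j => γ (Sum.inr j)) T h N v‖ₑ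

lemma measurable_F {G : Set ℝ} (hG : MeasurableSet G) (T h : ℝ) (N : ℕ) :
    Measurable fun p : (Fin k → ℝ) × (Ix (k + 1) → ℝ) => F G T h N p.1 p.2 := by
  unfold F
  refine (Finset.measurable_sum _ fun i _ => ?_).add ?_
  · exact (((continuous_EG hG _).comp continuous_elim).enorm).measurable
  · exact (continuous_SpG hG T h N).enorm.measurable

lemma continuous_SpG_left {G : Set ℝ} (hG : MeasurableSet G) (T h : ℝ) (N : ℕ)
    (γ : Ix (k + 1) → ℝ) : Continuous fun v : Fin k → ℝ =>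
      SpG G (fun j => γ (Sum.inl j)) (fun j => γ (Sum.inr j)) T h N v := by
  have h1 := continuous_SpG (k := k) hG T h N
  have h2 : Continuous fun v : Fin k → ℝ => (v, γ) := Continuous.prodMk_left γ
  have h3 := Continuous.comp (g := fun q : (Fin k → ℝ) × (Ix (k + 1) → ℝ) =>
      SpG G (fun j => q.2 (Sum.inl j)) (fun j => q.2 (Sum.inr j)) T h N q.1)
    (f := fun v : Fin k → ℝ => (v, γ)) h1 h2
  exact h3

lemma continuous_EG_left {G : Set ℝ} (hG : MeasurableSet G) (T : ℝ) (γ : Ix (k + 1) → ℝ) :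
    Continuous fun v : Fin k → ℝ => EG G (γ + Sum.elim (fx v) (fx v)) T := by
  have h1 : Continuous fun p : (Fin k → ℝ) × (Ix (k + 1) → ℝ) =>
      EG G (p.2 + Sum.elim (fx p.1) (fx p.1)) T := (continuous_EG hG T).comp continuous_elim
  have h2 : Continuous fun v : Fin k → ℝ => (v, γ) := Continuous.prodMk_left γ
  have h3 := Continuous.comp (g := fun p : (Fin k → ℝ) × (Ix (k + 1) → ℝ) =>
      EG G (p.2 + Sum.elim (fx p.1) (fx p.1)) T)
    (f := fun v : Fin k → ℝ => (v, γ)) h1 h2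
  exact h3

/-- the pointwise bound at all times in `[T, 2T]` -/
lemma le_of_F_le {G : Set ℝ} (hG : MeasurableSet G) {T h lam M : ℝ} {N : ℕ} (hT : 0 ≤ T)
    (hh : 0 < h) (hN : N = ⌊T / h⌋₊) (hlam : 0 ≤ lam) {v : Fin k → ℝ} {γ : Ix (k + 1) → ℝ}
    (hinj : Function.Injective (gm (fun j => γ (Sum.inl j)) (fun j => γ (Sum.inr j)) (fx v)))
    (hF : F G T h N v γ ≤ ENNReal.ofReal lam)
    (hM : ∑ S ∈ (univ : Finset (Ix (k + 1))).powersetCard (k + 1),
      ‖zetaAB S (fun i => (gm (fun j => γ (Sum.inl j)) (fun j => γ (Sum.inr j)) (fx v) i : ℂ))‖ ≤ M)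
    {T' : ℝ} (hT' : T' ∈ Icc T (2 * T)) :
    ‖EG G (γ + Sum.elim (fx v) (fx v)) T'‖ ≤ lam + h * M := by
  set a : Fin (k + 1) → ℝ := fun j => γ (Sum.inl j) with ha
  set b : Fin (k + 1) → ℝ := fun j => γ (Sum.inr j) with hb
  have hM0 : 0 ≤ M := le_trans (Finset.sum_nonneg fun _ _ => norm_nonneg _) hM
  set i : ℕ := ⌊(T' - T) / h⌋₊ with hi
  have hx0 : 0 ≤ (T' - T) / h := div_nonneg (by linarith [hT'.1]) hh.le
  have hi1 : (i:ℝ) ≤ (T' - T) / h := Nat.floor_le hx0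
  have hi2 : (T' - T) / h < i + 1 := Nat.lt_floor_add_one _
  have hiN : i ≤ N := by
    rw [hN, hi]
    refine Nat.floor_le_floor ?_
    gcongr
    linarith [hT'.2]
  have hA1 : T + i * h ≤ T' := by
    rw [le_div_iff₀ hh] at hi1
    linarith
  have hA2 : T' ≤ T + (i + 1) * h := by
    rw [div_lt_iff₀ hh] at hi2
    linarith
  have hmem : i ∈ Finset.range (N + 1) := Finset.mem_range.2 (Nat.lt_succ_of_le hiN)
  have hinc := norm_EG_le_add hG hinj (A := T + i * h) (A' := T') (by positivity) hA1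
  rw [gm_eq] at hinc
  have h1 : ∫ t in Icc (T + i * h) T' ∩ G, ∏ j, ‖pf (a j) (b j) (t + fx v j)‖ ≤
      SpG G a b T h N v := by
    have h2 : ∫ t in Icc (T + i * h) T' ∩ G, ∏ j, ‖pf (a j) (b j) (t + fx v j)‖ ≤
        ∫ t in Icc (T + i * h) (T + (i + 1) * h) ∩ G,
          ∏ j, ‖pf (a j) (b j) (t + fx v j)‖ := by
      have hc : Continuous fun t : ℝ => ∏ j, ‖pf (a j) (b j) (t + fx v j)‖ := by
        refine continuous_finsetProd _ fun j _ => ?_
        exact ((fx1_continuous_pf (a j) (b j)).comp (by fun_prop)).norm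
      refine setIntegral_mono_set ((hc.integrableOn_Icc).mono_set Set.inter_subset_left)
        (Eventually.of_forall fun t => Finset.prod_nonneg fun j _ => norm_nonneg _) ?_
      exact Eventually.of_forall fun t ht => ⟨⟨ht.1.1, ht.1.2.trans hA2⟩, ht.2⟩
    refine h2.trans ?_
    unfold SpG
    exact Finset.le_sup' (fun i : ℕ => ∫ t in Icc (T + i * h) (T + (i + 1) * h) ∩ G,
      ∏ j, ‖pf (a j) (b j) (t + fx v j)‖) hmem
  have h3 : (T' - (T + i * h)) * ∑ S ∈ (univ : Finset (Ix (k + 1))).powersetCard (k + 1),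
      ‖zetaAB S (fun i => (gm a b (fx v) i : ℂ))‖ ≤ h * M := by
    have : T' - (T + i * h) ≤ h := by linarith
    gcongr
  rw [gm_eq] at h3
  have h4 : ‖EG G (γ + Sum.elim (fx v) (fx v)) (T + i * h)‖ + SpG G a b T h N v ≤ lam := by
    have h5 : ENNReal.ofReal (‖EG G (γ + Sum.elim (fx v) (fx v)) (T + i * h)‖ +
        SpG G a b T h N v) ≤ ENNReal.ofReal lam := by
      refine le_trans ?_ hF
      rw [ENNReal.ofReal_add (norm_nonneg _) (SpG_nonneg G a b T h N v)]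
      unfold F
      refine add_le_add ?_ ?_
      · rw [ofReal_norm]
        exact Finset.single_le_sum (f := fun i : ℕ =>
          ‖EG G (γ + Sum.elim (fx v) (fx v)) (T + i * h)‖ₑ) (fun _ _ => zero_le) hmem
      · rw [Real.enorm_of_nonneg (SpG_nonneg G a b T h N v)]
    exact (ENNReal.ofReal_le_ofReal_iff hlam).1 h5
  refine hinc.trans ?_
  linarith

/-- a threshold -/
lemma le_rpow_of_le {x p T : ℝ} (hx : 0 ≤ x) (hp : 0 < p) (h : x ^ p⁻¹ ≤ T) : x ≤ T ^ p := by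
  have h1 : (x ^ p⁻¹) ^ p ≤ T ^ p := Real.rpow_le_rpow (by positivity) h hp.le
  rwa [← Real.rpow_mul hx, inv_mul_cancel₀ hp.ne', Real.rpow_one] at h1

end MXA

open MXA in
/-- the exceptional translations: uniform in the time and in the shifts -/
theorem exists_exceptional {k : ℕ} {G : Set ℝ} (hG : MeasurableSet G) {θ₁ θ₂ : ℝ} (hθ : 0 < θ₁)
    (hθ' : 0 ≤ θ₂) (hθ2 : θ₂ < 1) (hcore : CoreG k G θ₁ θ₂) (hmax : MaxG k G θ₁ θ₂) (hsup : SupG (k + 1) G) :
    ∃ c : ℝ, 0 < c ∧ c ≤ 1 ∧ ∀ B : ℝ, 0 ≤ B → ∃ C T₁ : ℝ, 1 ≤ C ∧ 1 ≤ T₁ ∧ ∀ T H : ℝ, T₁ ≤ T →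
    (2 * T) ^ θ₁ ≤ H → H ≤ 2 * T ^ θ₂ → ∃ Ex : Set (Fin k → ℝ),
    volume Ex ≤ ENNReal.ofReal (C * H ^ k * T ^ (-c)) ∧ ∀ v ∈ box k H, v ∉ Ex →
    ∀ T' ∈ Set.Icc T (2 * T), ∀ α β : Fin (k + 1) → ℝ, (∀ j, |α j| ≤ B) → (∀ j, |β j| ≤ B) →
    ‖EG G (Sum.elim (fun j => α j + fx v j) (fun j => β j + fx v j)) T'‖ ≤ C * T ^ (1 - c) := by
  obtain ⟨ca, c₂, εa, hca, hc₂, hεa, hcore⟩ := hcore
  set ca' : ℝ := min ca 1 with hca'
  have hca'0 : 0 < ca' := lt_min hca one_pos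
  have hca'1 : ca' ≤ 1 := min_le_right _ _
  have hca'2 : ca' ≤ ca := min_le_left _ _
  set κ : ℝ := ca' / 2 with hκ
  have hκ0 : 0 < κ := by positivity
  have hκ1 : κ ≤ 1 / 2 := by rw [hκ]; linarith
  obtain ⟨cm, εm, hcm, hεm, hmax⟩ := hmax κ hκ0 (by linarith)
  obtain ⟨CV, hCV1, hCV⟩ := exists_volume_bad_fixed k
  set c₃ : ℝ := min (κ / 2) cm with hc₃
  have hc₃0 : 0 < c₃ := lt_min (by positivity) hcm
  have hc₃κ : c₃ ≤ κ / 2 := min_le_left _ _
  have hc₃m : c₃ ≤ cm := min_le_right _ _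
  set ε : ℝ := min (min εa εm) (κ / (8 * ((k:ℝ) + 1) ^ 2)) with hε
  have hε0 : 0 < ε := lt_min (lt_min hεa hεm) (by positivity)
  have hε1 : ε ≤ εa := (min_le_left _ _).trans (min_le_left _ _)
  have hε2 : ε ≤ εm := (min_le_left _ _).trans (min_le_right _ _)
  have hε3 : 4 * ((k:ℝ) + 1) ^ 2 * ε ≤ κ / 2 := by
    have h1 : ε ≤ κ / (8 * ((k:ℝ) + 1) ^ 2) := min_le_right _ _
    rw [le_div_iff₀ (by positivity)] at h1
    linarith
  set e : ℝ := min (ε / 2) (c₃ / 4) with he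
  have he0 : 0 < e := lt_min (by positivity) (by positivity)
  have heε : e ≤ ε / 2 := min_le_left _ _
  have hec : e ≤ c₃ / 4 := min_le_right _ _
  set c' : ℝ := min (min θ₁ c₂) (c₃ / 8) with hc'
  have hc'0 : 0 < c' := lt_min (lt_min hθ hc₂) (by positivity)
  have hc'1 : c' ≤ θ₁ := (min_le_left _ _).trans (min_le_left _ _)
  have hc'2 : c' ≤ c₂ := (min_le_left _ _).trans (min_le_right _ _)
  have hc'3 : c' ≤ c₃ / 8 := min_le_right _ _
  refine ⟨c', hc'0, by linarith, fun B hB => ?_⟩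
  obtain ⟨C₁, Ta, hC₁, hTa, hcore⟩ := hcore (B + 1) ε (by linarith) hε0 hε1
  obtain ⟨C₂, Tm, hC₂, hTm, hmax⟩ := hmax (B + 1) ε (by linarith) hε0 hε2
  obtain ⟨C₃, hC₃, hzeta⟩ := exists_zetaAB_le (k + 1) (B + 1) ε (by linarith) hε0
  obtain ⟨CR, hCR1, hCR⟩ := hsup B e (c₃ / 8) hB he0 (by positivity) (by linarith)
  obtain ⟨CC, hCC1, hCC⟩ := exists_volume_close (k + 1) (B + 1) (by linarith)
  have hCR0 : 0 < CR := by linarith
  have hCC0 : 0 < CC := by linarith
  set NS : ℝ := (((univ : Finset (Ix (k + 1))).powersetCard (k + 1)).card : ℝ) with hNS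
  have hNS0 : 0 ≤ NS := Nat.cast_nonneg _
  set C₄ : ℝ := 4 * C₁ + C₂ with hC₄
  have hC₄0 : 0 < C₄ := by positivity
  set M : ℝ := (2 * (B + 1)) ^ (2 * (k + 1)) * 2 ^ k * C₄ * (4 * CR) with hM
  have hM0 : 0 ≤ M := by positivity
  set C : ℝ := CV * (2 * B + 5) + M + 2 * CR with hC
  have hCge1 : CV * (2 * B + 5) + M ≤ C := by rw [hC]; linarith
  have hCge2 : 2 * CR ≤ C := by
    have : 0 ≤ CV * (2 * B + 5) := by positivity
    rw [hC]; linarith
  set X : ℝ := 2 * (1 + NS * C₃) with hX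
  have hX0 : 0 ≤ X := by positivity
  set Y : ℝ := 4 * CR * CC with hY
  have hY0 : 0 ≤ Y := by positivity
  set T₁ : ℝ := max (max Ta Tm) (max (2 ^ (1 - θ₂)⁻¹) (max (X ^ (c₃ / 8)⁻¹) (Y ^ (ε / 2)⁻¹)))
    with hT₁
  have hT₁a : Ta ≤ T₁ := (le_max_left _ _).trans (le_max_left _ _)
  have hT₁m : Tm ≤ T₁ := (le_max_right _ _).trans (le_max_left _ _)
  have hT₁2 : 2 ^ (1 - θ₂)⁻¹ ≤ T₁ := (le_max_left _ _).trans (le_max_right _ _)
  have hT₁X : X ^ (c₃ / 8)⁻¹ ≤ T₁ :=
    ((le_max_left _ _).trans (le_max_right _ _)).trans (le_max_right _ _)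
  have hT₁Y : Y ^ (ε / 2)⁻¹ ≤ T₁ :=
    ((le_max_right _ _).trans (le_max_right _ _)).trans (le_max_right _ _)
  refine ⟨C, T₁, by linarith, hTa.trans hT₁a, fun T H hTT hTH hHT' => ?_⟩
  have hT : 1 ≤ T := (hTa.trans hT₁a).trans hTT
  have hT0 : 0 < T := by linarith
  have hH0 : 0 < H := lt_of_lt_of_le (by positivity) hTH
  have h2θ : 2 ≤ T ^ (1 - θ₂) := le_rpow_of_le (by norm_num) (by linarith) (hT₁2.trans hTT)
  have hTX : X ≤ T ^ (c₃ / 8) := le_rpow_of_le hX0 (by positivity) (hT₁X.trans hTT)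
  have hTY : Y ≤ T ^ (ε / 2) := le_rpow_of_le hY0 (by positivity) (hT₁Y.trans hTT)
  have hHT : H ≤ T := by
    refine hHT'.trans ?_
    calc 2 * T ^ θ₂ ≤ T ^ (1 - θ₂) * T ^ θ₂ := by gcongr
      _ = T := by rw [← Real.rpow_add hT0, sub_add_cancel, Real.rpow_one]
  have hHθ : T ^ θ₁ ≤ H := by
    refine le_trans ?_ hTH
    exact Real.rpow_le_rpow hT0.le (by linarith) hθ.le
  have hH1 : 1 ≤ H := (Real.one_le_rpow hT hθ.le).trans hHθ
  set h : ℝ := T ^ (1 - κ) with hh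
  have hh0 : 0 < h := by positivity
  have hTh : T / h = T ^ κ := by
    rw [hh, div_eq_iff (by positivity), ← Real.rpow_add hT0]
    have : κ + (1 - κ) = 1 := by ring
    rw [this, Real.rpow_one]
  set N : ℕ := ⌊T / h⌋₊ with hN
  have hNle : (N:ℝ) ≤ T ^ κ := by
    rw [← hTh]
    exact Nat.floor_le (by positivity)
  have hNh : (N:ℝ) * h ≤ T := by
    calc (N:ℝ) * h ≤ T ^ κ * h := by gcongr
      _ = T := by rw [← hTh]; field_simp
  have hN1 : (N:ℝ) + 1 ≤ 2 * T ^ κ := by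
    have := Real.one_le_rpow hT hκ0.le
    linarith
  set R : ℝ := 2 * (B + 1) + 1 with hR
  set R' : ℝ := 2 * H * T ^ (-c₂) with hR'
  set U : Set (Fin k → ℝ) := Vg k H R R' with hU
  have hUm : MeasurableSet U := measurableSet_Vg k _ _ _
  have hUb : U ⊆ box k H := fun v hv => hv.1
  set W : Set (Ix (k + 1) → ℝ) := Wd (k + 1) (B + 1) (T ^ (-ε)) with hW
  have hWm : MeasurableSet W := measurableSet_Wd _ _ _
  set lam : ℝ := T ^ (1 - c₃ / 4) with hlam
  have hlam0 : 0 < lam := by positivity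
  set δ : ℝ := CR⁻¹ / 4 * T ^ (-e) with hδ
  have hδ0 : 0 < δ := by positivity
  set K : ℝ := (2 * H) ^ k * (C₄ * T ^ (1 - c₃)) with hK
  have hK0 : 0 ≤ K := by positivity
  -- the mean of `F`
  have hint : ∀ γ ∈ W, ∫⁻ v in U, F G T h N v γ ≤ ENNReal.ofReal K := by
    intro γ hγ
    set a : Fin (k + 1) → ℝ := fun j => γ (Sum.inl j) with ha
    set b : Fin (k + 1) → ℝ := fun j => γ (Sum.inr j) with hb
    have haB : ∀ j, |a j| ≤ B + 1 := fun j => hγ.1 _
    have hbB : ∀ j, |b j| ≤ B + 1 := fun j => hγ.1 _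
    have hab : ∀ j, T ^ (-ε) ≤ |a j - b j| := hγ.2
    have hgm : ∀ v : Fin k → ℝ, gm a b (fx v) = γ + Sum.elim (fx v) (fx v) := fun v =>
      gm_eq γ v
    have h1 : ∀ i ∈ Finset.range (N + 1),
        ∫⁻ v in U, ‖EG G (γ + Sum.elim (fx v) (fx v)) (T + i * h)‖ₑ ≤
        ENNReal.ofReal ((2 * H) ^ k * (C₁ * (2 * T ^ (1 - ca')))) := by
      intro i hi
      have hi' : (i:ℝ) ≤ N := by
        exact_mod_cast Nat.lt_succ_iff.1 (Finset.mem_range.1 hi)
      set Ti : ℝ := T + i * h with hTi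
      have h2 : T ≤ Ti := by
        have : 0 ≤ (i:ℝ) * h := by positivity
        rw [hTi]; linarith
      have h3 : Ti ≤ 2 * T := by
        have : (i:ℝ) * h ≤ N * h := by gcongr
        rw [hTi]; linarith
      have hTi0 : 0 < Ti := by linarith
      have h4 : Ti ^ θ₁ ≤ H := (Real.rpow_le_rpow hTi0.le h3 hθ.le).trans hTH
      have h5 : T ^ θ₂ ≤ Ti ^ θ₂ := Real.rpow_le_rpow hT0.le h2 hθ'
      have h6 : H ≤ 2 * Ti ^ θ₂ := by linarith
      have h7 : Ti ^ (-ε) ≤ T ^ (-ε) :=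
        Real.rpow_le_rpow_of_nonpos hT0 h2 (by linarith)
      have h8 := hcore Ti H ((hT₁a.trans hTT).trans h2) h4 h6 a b haB hbB
        (fun j => h7.trans (hab j))
      have h9 : Vg k H R R' ⊆ Vg k H (2 * (B + 1) + 1) (2 * H * Ti ^ (-c₂)) := by
        refine Vg_anti ?_
        rw [hR']
        have : Ti ^ (-c₂) ≤ T ^ (-c₂) := Real.rpow_le_rpow_of_nonpos hT0 h2 (by linarith)
        gcongr
      simp only [hgm] at h8
      have hcont : Continuous fun v : Fin k → ℝ => EG G (γ + Sum.elim (fx v) (fx v)) Ti :=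
        continuous_EG_left hG Ti γ
      refine (lintegral_le hcont h9 (fun v hv => hv.1) h8).trans ?_
      apply ENNReal.ofReal_le_ofReal
      have h10 : Ti ^ (1 - ca) ≤ 2 * T ^ (1 - ca') := by
        calc Ti ^ (1 - ca) ≤ Ti ^ (1 - ca') :=
              Real.rpow_le_rpow_of_exponent_le (by linarith) (by linarith)
          _ ≤ (2 * T) ^ (1 - ca') := Real.rpow_le_rpow hTi0.le h3 (by linarith)
          _ = 2 ^ (1 - ca') * T ^ (1 - ca') := Real.mul_rpow (by norm_num) hT0.le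
          _ ≤ 2 * T ^ (1 - ca') := by
              gcongr
              calc (2:ℝ) ^ (1 - ca') ≤ 2 ^ (1:ℝ) :=
                    Real.rpow_le_rpow_of_exponent_le (by norm_num) (by linarith)
                _ = 2 := Real.rpow_one 2
      gcongr
    have h2 : ∫⁻ v in U, ‖SpG G a b T h N v‖ₑ ≤
        ENNReal.ofReal ((2 * H) ^ k * (C₂ * T ^ (1 - cm))) := by
      have h3 := hmax T H (hT₁m.trans hTT) hHθ hHT' a b haB hbB hab N hNh
      have hcont : Continuous fun v : Fin k → ℝ => SpG G a b T h N v :=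
        continuous_SpG_left hG T h N γ
      have h4 : ∀ v, ‖SpG G a b T h N v‖ = SpG G a b T h N v := fun v =>
        Real.norm_of_nonneg (SpG_nonneg G a b T h N v)
      exact lintegral_le hcont hUb le_rfl (by simp only [h4]; exact h3)
    have hmeas : ∀ i ∈ Finset.range (N + 1), Measurable fun v : Fin k → ℝ =>
        ‖EG G (γ + Sum.elim (fx v) (fx v)) (T + i * h)‖ₑ := fun i _ =>
      (continuous_EG_left hG _ γ).enorm.measurable
    unfold F
    rw [lintegral_add_left (Finset.measurable_sum _ hmeas), lintegral_finsetSum _ hmeas]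
    refine (add_le_add (Finset.sum_le_sum h1) h2).trans ?_
    rw [Finset.sum_const, Finset.card_range, nsmul_eq_mul, ← ENNReal.ofReal_natCast,
      ← ENNReal.ofReal_mul (by positivity), ← ENNReal.ofReal_add (by positivity) (by positivity)]
    apply ENNReal.ofReal_le_ofReal
    have h3 : T ^ κ * T ^ (1 - ca') ≤ T ^ (1 - c₃) := by
      rw [← Real.rpow_add hT0]
      exact Real.rpow_le_rpow_of_exponent_le hT (by rw [hκ] at hc₃κ ⊢; linarith)
    have h4 : T ^ (1 - cm) ≤ T ^ (1 - c₃) :=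
      Real.rpow_le_rpow_of_exponent_le hT (by linarith)
    push_cast
    calc ((N:ℝ) + 1) * ((2 * H) ^ k * (C₁ * (2 * T ^ (1 - ca')))) +
          (2 * H) ^ k * (C₂ * T ^ (1 - cm)) ≤
          (2 * T ^ κ) * ((2 * H) ^ k * (C₁ * (2 * T ^ (1 - ca')))) +
          (2 * H) ^ k * (C₂ * T ^ (1 - c₃)) := by gcongr
      _ = (2 * H) ^ k * (4 * C₁ * (T ^ κ * T ^ (1 - ca')) + C₂ * T ^ (1 - c₃)) := by ring
      _ ≤ (2 * H) ^ k * (4 * C₁ * T ^ (1 - c₃) + C₂ * T ^ (1 - c₃)) := by gcongr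
      _ = K := by rw [hK, hC₄]; ring
  have hlamp : ENNReal.ofReal lam ≠ 0 := (ENNReal.ofReal_pos.2 hlam0).ne'
  have hδp : ENNReal.ofReal δ ≠ 0 := (ENNReal.ofReal_pos.2 hδ0).ne'
  have hbad := volume_bad_le (F := F G T h N) (measurable_F hG T h N) hUm hWm
    (K := ENNReal.ofReal K) (lam := ENNReal.ofReal lam) (δ := ENNReal.ofReal δ) hlamp
    ENNReal.ofReal_ne_top hδp ENNReal.ofReal_ne_top hint
  set Bd : Set (Fin k → ℝ) := {v | v ∈ U ∧ ENNReal.ofReal δ <
    volume {γ | γ ∈ W ∧ ENNReal.ofReal lam < F G T h N v γ}} with hBd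
  have hBdv : volume Bd ≤ ENNReal.ofReal (M * H ^ k * T ^ (-c')) := by
    refine hbad.trans ?_
    have h1 : volume W * ENNReal.ofReal K / (ENNReal.ofReal lam * ENNReal.ofReal δ) ≤
        ENNReal.ofReal ((2 * (B + 1)) ^ (2 * (k + 1))) * ENNReal.ofReal K /
          (ENNReal.ofReal lam * ENNReal.ofReal δ) := by
      gcongr
      exact volume_Wd_le (k + 1) (by linarith) _
    refine h1.trans ?_
    rw [← ENNReal.ofReal_mul (by positivity), ← ENNReal.ofReal_mul (by positivity),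
      ← ENNReal.ofReal_div_of_pos (by positivity)]
    apply ENNReal.ofReal_le_ofReal
    rw [div_le_iff₀ (by positivity), hK, hM, hlam, hδ, mul_pow 2 H k]
    have h3 : T ^ (1 - c₃) ≤ T ^ (-c') * (T ^ (1 - c₃ / 4) * T ^ (-e)) := by
      rw [← Real.rpow_add hT0, ← Real.rpow_add hT0]
      exact Real.rpow_le_rpow_of_exponent_le hT (by linarith)
    calc (2 * (B + 1)) ^ (2 * (k + 1)) * (2 ^ k * H ^ k * (C₄ * T ^ (1 - c₃))) ≤
          (2 * (B + 1)) ^ (2 * (k + 1)) * (2 ^ k * H ^ k *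
            (C₄ * (T ^ (-c') * (T ^ (1 - c₃ / 4) * T ^ (-e))))) := by gcongr
      _ = _ := by field_simp
  have hcomp : volume (box k H \ U) ≤ ENNReal.ofReal (CV * (2 * B + 5) * H ^ k * T ^ (-c')) := by
    refine (hCV H R R' hH1 (by positivity) (by positivity)).trans ?_
    apply ENNReal.ofReal_le_ofReal
    have h1 : H ^ ((k:ℝ) - 1) = H ^ k / H := by
      rw [Real.rpow_sub hH0, Real.rpow_natCast, Real.rpow_one]
    have h2 : 1 / H ≤ T ^ (-c') := by
      calc 1 / H ≤ 1 / T ^ θ₁ := one_div_le_one_div_of_le (by positivity) hHθ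
        _ = T ^ (-θ₁) := by rw [Real.rpow_neg hT0.le, one_div]
        _ ≤ T ^ (-c') := Real.rpow_le_rpow_of_exponent_le hT (by linarith)
    have h3 : T ^ (-c₂) ≤ T ^ (-c') := Real.rpow_le_rpow_of_exponent_le hT (by linarith)
    rw [h1, hR', hR]
    calc CV * (H ^ k / H * (2 * (B + 1) + 1 + 2 * H * T ^ (-c₂))) =
          CV * (H ^ k * ((2 * B + 3) * (1 / H) + 2 * T ^ (-c₂))) := by
          field_simp
          ring
      _ ≤ CV * (H ^ k * ((2 * B + 3) * T ^ (-c') + 2 * T ^ (-c'))) := by gcongr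
      _ = _ := by ring
  refine ⟨(box k H \ U) ∪ Bd, ?_, ?_⟩
  · refine (measure_union_le _ _).trans ((add_le_add hcomp hBdv).trans ?_)
    rw [← ENNReal.ofReal_add (by positivity) (by positivity)]
    apply ENNReal.ofReal_le_ofReal
    calc CV * (2 * B + 5) * H ^ k * T ^ (-c') + M * H ^ k * T ^ (-c') =
          (CV * (2 * B + 5) + M) * H ^ k * T ^ (-c') := by ring
      _ ≤ C * H ^ k * T ^ (-c') := by gcongr
  · intro v hvb hve T' hT' α β hα hβ
    have hvU : v ∈ U := by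
      by_contra hn
      exact hve (Or.inl ⟨hvb, hn⟩)
    have hvB : volume {γ | γ ∈ W ∧ ENNReal.ofReal lam < F G T h N v γ} ≤ ENNReal.ofReal δ := by
      by_contra hn
      push Not at hn
      exact hve (Or.inr ⟨hvU, hn⟩)
    have hfxT : fx v ∈ box (k + 1) T := fx_mem_box hH0.le hHT hvb
    have hfxT' : fx v ∈ box (k + 1) T' := fx_mem_box hH0.le (hHT.trans hT'.1) hvb
    have hT'1 : 1 ≤ T' := hT.trans hT'.1
    set D : ℝ := h * (NS * (C₃ * T ^ (4 * ((k:ℝ) + 1) ^ 2 * ε))) with hD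
    have hpt : ∀ γ ∈ W, F G T h N v γ ≤ ENNReal.ofReal lam →
        ‖EG G (γ + Sum.elim (fx v) (fx v)) T'‖ ≤ lam + D := by
      intro γ hγ hFγ
      have haB : ∀ j : Fin (k + 1), |γ (Sum.inl j)| ≤ B + 1 := fun j => hγ.1 _
      have hbB : ∀ j : Fin (k + 1), |γ (Sum.inr j)| ≤ B + 1 := fun j => hγ.1 _
      have hne : ∀ j : Fin (k + 1), γ (Sum.inl j) ≠ γ (Sum.inr j) := fun j hj => by
        have := hγ.2 j
        rw [hj, sub_self, abs_zero] at this
        have h2 : 0 < T ^ (-ε) := by positivity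
        linarith
      refine le_of_F_le hG hT0.le hh0 hN hlam0.le (gm_injective haB hbB hne hvU.2.1) hFγ ?_ hT'
      calc ∑ S ∈ (univ : Finset (Ix (k + 1))).powersetCard (k + 1),
            ‖zetaAB S (fun i => (gm (fun j => γ (Sum.inl j)) (fun j => γ (Sum.inr j)) (fx v) i :
              ℂ))‖ ≤
            ∑ S ∈ (univ : Finset (Ix (k + 1))).powersetCard (k + 1),
              C₃ * T ^ (4 * ((k:ℝ) + 1) ^ 2 * ε) := by
            refine Finset.sum_le_sum fun S _ => ?_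
            have h := hzeta T hT _ _ (fx v) haB hbB hγ.2 hfxT hvU.2.1 S
            push_cast at h
            exact h
        _ = NS * (C₃ * T ^ (4 * ((k:ℝ) + 1) ^ 2 * ε)) := by
            rw [Finset.sum_const, nsmul_eq_mul]
    have hlamD : lam + D ≤ T ^ (1 - c₃ / 8) := by
      have h1 : lam = T ^ (1 - c₃ / 8) * (T ^ (c₃ / 8))⁻¹ := by
        rw [hlam, ← Real.rpow_neg hT0.le, ← Real.rpow_add hT0]
        congr 1
        ring
      have h2 : D ≤ NS * C₃ * (T ^ (1 - c₃ / 8) * (T ^ (c₃ / 8))⁻¹) := by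
        rw [hD, hh, ← Real.rpow_neg hT0.le, ← Real.rpow_add hT0]
        calc T ^ (1 - κ) * (NS * (C₃ * T ^ (4 * ((k:ℝ) + 1) ^ 2 * ε))) =
              NS * C₃ * (T ^ (1 - κ) * T ^ (4 * ((k:ℝ) + 1) ^ 2 * ε)) := by ring
          _ ≤ _ := by
              rw [← Real.rpow_add hT0]
              gcongr NS * C₃ * ?_
              exact Real.rpow_le_rpow_of_exponent_le hT (by linarith)
      have h3 : (1 + NS * C₃) * (T ^ (c₃ / 8))⁻¹ ≤ 1 := by
        have h4 : 0 < T ^ (c₃ / 8) := by positivity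
        rw [← div_eq_mul_inv, div_le_one h4]
        have : 1 + NS * C₃ ≤ X := by
          rw [hX]
          have : 0 ≤ NS * C₃ := by positivity
          linarith
        linarith
      calc lam + D ≤ T ^ (1 - c₃ / 8) * (T ^ (c₃ / 8))⁻¹ +
            NS * C₃ * (T ^ (1 - c₃ / 8) * (T ^ (c₃ / 8))⁻¹) := add_le_add h1.le h2
        _ = T ^ (1 - c₃ / 8) * ((1 + NS * C₃) * (T ^ (c₃ / 8))⁻¹) := by ring
        _ ≤ T ^ (1 - c₃ / 8) * 1 := by gcongr
        _ = _ := mul_one _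
    have hTT' : T ^ (1 - c₃ / 8) ≤ T' ^ (1 - c₃ / 8) :=
      Real.rpow_le_rpow hT0.le hT'.1 (by linarith)
    have hsub : {γ : Ix (k + 1) → ℝ | (∀ i, |γ i| ≤ B + 1) ∧
        T' ^ (1 - c₃ / 8) < ‖EG G (γ + Sum.elim (fx v) (fx v)) T'‖} ⊆
        {γ | γ ∈ W ∧ ENNReal.ofReal lam < F G T h N v γ} ∪
        {γ : Ix (k + 1) → ℝ | (∀ i, |γ i| ≤ B + 1) ∧
          ∃ j, |γ (Sum.inl j) - γ (Sum.inr j)| < T ^ (-ε)} := by
      intro γ hγ
      by_cases hn : ∃ j, |γ (Sum.inl j) - γ (Sum.inr j)| < T ^ (-ε)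
      · exact Or.inr ⟨hγ.1, hn⟩
      · push Not at hn
        have hγW : γ ∈ W := ⟨hγ.1, hn⟩
        refine Or.inl ⟨hγW, ?_⟩
        by_contra hc
        push Not at hc
        have := hpt γ hγW hc
        linarith [hγ.2]
    have hvol : volume {γ : Ix (k + 1) → ℝ | (∀ i, |γ i| ≤ B + 1) ∧
        T' ^ (1 - c₃ / 8) < ‖EG G (γ + Sum.elim (fx v) (fx v)) T'‖} ≤
        ENNReal.ofReal (CR⁻¹ * T' ^ (-e)) := by
      refine (measure_mono hsub).trans ((measure_union_le _ _).trans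
        ((add_le_add hvB (hCC (T ^ (-ε)) (by positivity))).trans ?_))
      rw [← ENNReal.ofReal_add hδ0.le (by positivity)]
      apply ENNReal.ofReal_le_ofReal
      have h1 : T ^ (-e) ≤ 2 * T' ^ (-e) := by
        have h2 : T' ^ e ≤ 2 * T ^ e := by
          calc T' ^ e ≤ (2 * T) ^ e := Real.rpow_le_rpow (by linarith) hT'.2 he0.le
            _ = 2 ^ e * T ^ e := Real.mul_rpow (by norm_num) hT0.le
            _ ≤ 2 * T ^ e := by
              gcongr
              calc (2:ℝ) ^ e ≤ 2 ^ (1:ℝ) :=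
                    Real.rpow_le_rpow_of_exponent_le (by norm_num) (by linarith)
                _ = 2 := Real.rpow_one 2
        have hT'0 : 0 < T' := by linarith
        rw [Real.rpow_neg hT0.le, Real.rpow_neg hT'0.le]
        have h3 : 0 < T ^ e := by positivity
        have h4 : 0 < T' ^ e := by positivity
        rw [← div_eq_mul_inv, inv_eq_one_div, div_le_div_iff₀ h3 h4]
        linarith
      have h2 : CC * T ^ (-ε) ≤ δ := by
        have h3 : T ^ (-e) = T ^ (ε - e) * T ^ (-ε) := by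
          rw [← Real.rpow_add hT0]; congr 1; ring
        have h4 : T ^ (ε / 2) ≤ T ^ (ε - e) :=
          Real.rpow_le_rpow_of_exponent_le hT (by linarith)
        rw [hδ, h3, ← mul_assoc]
        refine mul_le_mul_of_nonneg_right ?_ (by positivity)
        calc CC = CR⁻¹ / 4 * (4 * CR * CC) := by field_simp
          _ ≤ CR⁻¹ / 4 * T ^ (ε - e) := by
            have := hTY.trans h4
            gcongr
      calc δ + CC * T ^ (-ε) ≤ δ + δ := by linarith
        _ = CR⁻¹ / 2 * T ^ (-e) := by rw [hδ]; ring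
        _ ≤ CR⁻¹ / 2 * (2 * T' ^ (-e)) := by gcongr
        _ = _ := by ring
    have hfin := hCR T' hT'1 (fx v) hfxT' hvol (Sum.elim α β) (by
      intro i
      cases i with
      | inl j => exact hα j
      | inr j => exact hβ j)
    have e1 : (Sum.elim α β + Sum.elim (fx v) (fx v) : Ix (k + 1) → ℝ) =
        Sum.elim (fun j => α j + fx v j) (fun j => β j + fx v j) := by
      funext i
      cases i with
      | inl j => rfl
      | inr j => rfl
    rw [e1] at hfin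
    refine hfin.trans ?_
    have h1 : T' ^ (1 - c₃ / 8) ≤ 2 * T ^ (1 - c') := by
      calc T' ^ (1 - c₃ / 8) ≤ (2 * T) ^ (1 - c₃ / 8) :=
            Real.rpow_le_rpow (by linarith) hT'.2 (by linarith)
        _ = 2 ^ (1 - c₃ / 8) * T ^ (1 - c₃ / 8) := Real.mul_rpow (by norm_num) hT0.le
        _ ≤ 2 * T ^ (1 - c') := by
            gcongr
            calc (2:ℝ) ^ (1 - c₃ / 8) ≤ 2 ^ (1:ℝ) :=
                  Real.rpow_le_rpow_of_exponent_le (by norm_num) (by linarith)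
              _ = 2 := Real.rpow_one 2
    calc CR * T' ^ (1 - c₃ / 8) ≤ CR * (2 * T ^ (1 - c')) := by gcongr
      _ = 2 * CR * T ^ (1 - c') := by ring
      _ ≤ C * T ^ (1 - c') := by gcongr

end Pool.Agent.AAS
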