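import Pool.Agent.AAS.Defs


set_option autoImplicit false

namespace Pool.Agent.AAS

open Complex Finset MeasureTheory Filter Topology Set
open Pool.Agent.H26

/-- A7: oscillation -/
theorem norm_integral_osc_le {P P' : ℝ → ℂ} {A B Λ M₀ M₁ : ℝ} (hAB : A ≤ B) (hΛ : Λ ≠ 0)
    (hP : ∀ x ∈ Icc A B, HasDerivAt P (P' x) x) (hPc : ContinuousOn P' (Icc A B))
    (h0 : ∀ x ∈ Icc A B, ‖P x‖ ≤ M₀) (h1 : ∀ x ∈ Icc A B, ‖P' x‖ ≤ M₁) :
    ‖∫ t in A..B, P t * cexp (-(I * Λ * t))‖ ≤ (2 * M₀ + M₁ * (B - A)) / |Λ| := by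
  have hΛc : (-(I * Λ) : ℂ) ≠ 0 := by
    simp [hΛ]
  have hΛpos : 0 < |Λ| := abs_pos.mpr hΛ
  set v : ℝ → ℂ := fun t => cexp (-(I * Λ * t)) / (-(I * Λ)) with hv
  have hnexp : ∀ t : ℝ, ‖cexp (-(I * Λ * t))‖ = 1 := by
    intro t
    rw [Complex.norm_exp]
    simp
  have hnv : ∀ t : ℝ, ‖v t‖ = 1 / |Λ| := by
    intro t
    simp only [hv, norm_div, hnexp, norm_neg, norm_mul, Complex.norm_I, one_mul,
      Complex.norm_real, Real.norm_eq_abs]
  have hvd : ∀ t : ℝ, HasDerivAt v (cexp (-(I * Λ * t))) t := by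
    intro t
    have h1 : HasDerivAt (fun x : ℝ => (-(I * Λ * (x : ℂ)))) (-(I * Λ)) t := by
      have h2 : HasDerivAt (fun x : ℝ => (x : ℂ)) 1 t := Complex.ofRealCLM.hasDerivAt
      have h3 := (h2.const_mul (I * Λ)).fun_neg
      rw [mul_one] at h3
      exact h3
    have h4 := (h1.cexp).div_const (-(I * Λ))
    rw [mul_div_cancel_right₀ _ hΛc] at h4
    exact h4
  have huIcc : uIcc A B = Icc A B := uIcc_of_le hAB
  have hP' : IntervalIntegrable P' volume A B :=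
    ContinuousOn.intervalIntegrable (by rw [huIcc]; exact hPc)
  have hce : Continuous fun t : ℝ => cexp (-(I * Λ * t)) := by fun_prop
  have hv' : IntervalIntegrable (fun t : ℝ => cexp (-(I * Λ * t))) volume A B :=
    hce.intervalIntegrable _ _
  have hibp := intervalIntegral.integral_mul_deriv_eq_deriv_mul (a := A) (b := B) (u := P)
    (v := v) (u' := P') (v' := fun t : ℝ => cexp (-(I * Λ * t)))
    (fun x hx => hP x (by rw [huIcc] at hx; exact hx)) (fun x _ => hvd x) hP' hv'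
  rw [hibp]
  have hA : A ∈ Icc A B := left_mem_Icc.mpr hAB
  have hB : B ∈ Icc A B := right_mem_Icc.mpr hAB
  have hint : ‖∫ x in A..B, P' x * v x‖ ≤ (M₁ * (1 / |Λ|)) * |B - A| := by
    apply intervalIntegral.norm_integral_le_of_norm_le_const
    intro x hx
    rw [uIoc_of_le hAB] at hx
    rw [norm_mul, hnv]
    exact mul_le_mul_of_nonneg_right (h1 x (Ioc_subset_Icc_self hx)) (by positivity)
  have hb1 : ‖P B * v B‖ ≤ M₀ * (1 / |Λ|) := by
    rw [norm_mul, hnv]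
    exact mul_le_mul_of_nonneg_right (h0 B hB) (by positivity)
  have hb2 : ‖P A * v A‖ ≤ M₀ * (1 / |Λ|) := by
    rw [norm_mul, hnv]
    exact mul_le_mul_of_nonneg_right (h0 A hA) (by positivity)
  rw [abs_of_nonneg (by linarith : 0 ≤ B - A)] at hint
  calc ‖P B * v B - P A * v A - ∫ x in A..B, P' x * v x‖
      ≤ ‖P B * v B‖ + ‖P A * v A‖ + ‖∫ x in A..B, P' x * v x‖ := by
        refine (norm_sub_le _ _).trans ?_
        gcongr
        exact norm_sub_le _ _
    _ ≤ M₀ * (1 / |Λ|) + M₀ * (1 / |Λ|) + (M₁ * (1 / |Λ|)) * (B - A) := by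
        gcongr
    _ = (2 * M₀ + M₁ * (B - A)) / |Λ| := by
        field_simp
        ring

end Pool.Agent.AAS
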