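import Pool.Agent.AAS.ZAV
import Pool.Agent.AAS.HOL

set_option autoImplicit false

namespace Pool.Agent.AAS

open Complex Finset MeasureTheory Filter Topology Set
open Pool.Agent.H26

namespace PHM

variable {k : ℕ}

lemma isCompact_box (k : ℕ) (H : ℝ) : IsCompact (box k H) := by
  unfold box
  exact isCompact_univ_pi fun _ => isCompact_Icc

lemma ne_one_of_re {w : ℂ} (h : w.re ≠ 1) : w ≠ 1 := by
  rintro rfl
  simp at h

lemma continuous_zeta_comp {X : Type*} [TopologicalSpace X] {f : X → ℂ} (hf : Continuous f)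
    (h : ∀ x, (f x).re ≠ 1) : Continuous fun x => riemannZeta (f x) := by
  rw [continuous_iff_continuousAt]
  intro x
  exact (differentiableAt_riemannZeta (ne_one_of_re (h x))).continuousAt.comp hf.continuousAt

/-- a crude bound of zeta near the line `Re = 1` -/
lemma norm_zeta_le {σ B : ℝ} (hB : 0 ≤ B) (hσ : 0 < |σ|) (hσ1 : |σ| ≤ 1 / 8) {D : ℝ}
    (hD : |D| ≤ 2 * B) (y : ℝ) :
    ‖riemannZeta (1 + σ + I * (y + D))‖ ≤ (|σ|⁻¹ + 4 + 4 * B) * (1 + |y|) := by
  set w : ℂ := 1 + σ + I * (y + D) with hw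
  have hre : w.re = 1 + σ := by simp [hw]
  have him : w.im = y + D := by simp [hw]
  have hσ0 : σ ≠ 0 := abs_pos.1 hσ
  have hre1 : 7 / 8 ≤ w.re := by
    rw [hre]
    have := (abs_le.1 hσ1).1
    linarith
  have hne : w ≠ 1 := ne_one_of_re (by rw [hre]; intro h; exact hσ0 (by linarith))
  have h := norm_riemannZeta_le (s := w) (by linarith) hne
  have h1 : ‖w - 1‖⁻¹ ≤ |σ|⁻¹ := by
    refine inv_anti₀ hσ ?_
    have h2 := Complex.abs_re_le_norm (w - 1)
    have h3 : (w - 1).re = σ := by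
      rw [Complex.sub_re, hre, Complex.one_re]
      ring
    rwa [h3] at h2
  have h4 : ‖w‖ ≤ 9 / 8 + (|y| + 2 * B) := by
    refine (Complex.norm_le_abs_re_add_abs_im w).trans ?_
    rw [him, abs_of_nonneg (by linarith : 0 ≤ w.re), hre]
    have h5 := abs_add_le y D
    have h6 := (abs_le.1 hσ1).2
    linarith
  have h7 : ‖w‖ / w.re ≤ 8 / 7 * (9 / 8 + (|y| + 2 * B)) := by
    rw [div_le_iff₀ (by linarith)]
    have h8 : 0 ≤ |y| := abs_nonneg y
    nlinarith
  have h9 : 0 ≤ |y| := abs_nonneg y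
  have h10 : 0 < |σ|⁻¹ := inv_pos.2 hσ
  refine h.trans ?_
  nlinarith [mul_nonneg h10.le h9, mul_nonneg hB h9]

lemma dl_self (a b u : Fin k → ℝ) (j : Fin k) : dl a b u j j = a j - b j := by
  simp [dl]

lemma continuous_dl (a b : Fin k → ℝ) (j l : Fin k) :
    Continuous fun u : Fin k → ℝ => dl a b u j l := by
  unfold dl
  fun_prop

lemma low_ne_zero {J : ℕ} {p : ℕ × ℕ} (hp : p ∈ low J) : p.1 ≠ 0 ∧ p.2 ≠ 0 := by
  unfold low at hp
  obtain ⟨-, -, h, -⟩ := Finset.mem_filter.1 hp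
  have h1 : p.1 * p.2 ≠ 0 := by omega
  exact ⟨left_ne_zero_of_mul h1, right_ne_zero_of_mul h1⟩

end PHM

/-- measurability in the translation and the height -/
theorem continuous_Phi_line (k : ℕ) (a b : Fin k → ℝ) {σ : ℝ} (hσ : 0 < |σ|) (hσ1 : |σ| ≤ 1 / 8) :
    Continuous fun p : (Fin k → ℝ) × ℝ => Phi a b p.1 (σ + p.2 * I) := by
  have hσ0 : σ ≠ 0 := abs_pos.1 hσ
  simp only [Phi_eq_prod]
  refine Continuous.mul ?_ ?_
  · have h1 : Continuous fun p : (Fin k → ℝ) × ℝ => gs a b p.1 (σ + p.2 * I) := by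
      unfold gs
      refine continuous_pi fun i => ?_
      rcases i with i | i
      · simp only [Sum.elim_inl]
        fun_prop
      · simp only [Sum.elim_inr]
        fun_prop
    refine (continuousOn_eulerF (S0 k)).comp_continuous h1 fun p => gs_mem_tube _ _ _ ?_
    have : (σ + p.2 * I : ℂ).re = σ := by simp
    rw [this]
    linarith
  · refine continuous_finsetProd _ fun j _ => continuous_finsetProd _ fun l _ => ?_
    refine PHM.continuous_zeta_comp ?_ fun p => ?_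
    · have h2 : Continuous fun p : (Fin k → ℝ) × ℝ => dl a b p.1 j l :=
        (PHM.continuous_dl a b j l).comp continuous_fst
      fun_prop
    · simp [hσ0]

theorem continuous_SJ (k : ℕ) (a b : Fin k → ℝ) (J : ℕ) :
    Continuous fun p : (Fin k → ℝ) × ℂ => SJ a b J p.1 p.2 := by
  unfold SJ
  refine continuous_finsetSum _ fun q hq => ?_
  unfold tq
  refine continuous_finsetProd _ fun j _ => ?_
  have hq1 : q j ∈ low J := by
    unfold Qt at hq
    exact Fintype.mem_piFinset.1 (Finset.mem_filter.1 hq).1 j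
  obtain ⟨h1, h2⟩ := PHM.low_ne_zero hq1
  unfold cf
  refine Continuous.mul (Continuous.mul ?_ ?_) ?_
  · exact Continuous.const_cpow (by fun_prop) (Or.inl (by exact_mod_cast h1))
  · exact Continuous.const_cpow (by fun_prop) (Or.inl (by exact_mod_cast h2))
  · fun_prop

/-- the zeta values of the pairs on the line `-σ` and on the line `1/8` -/
theorem exists_ZD_le (k : ℕ) (B σ : ℝ) (hB : 0 ≤ B) (hσ : 0 < |σ|) (hσ1 : |σ| ≤ 1 / 8) :
    ∃ C : ℝ, 1 ≤ C ∧ ∀ a b : Fin k → ℝ, (∀ j, |a j| ≤ B) → (∀ j, |b j| ≤ B) → ∀ y : ℝ,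
    ‖ZD a b (σ + y * I)‖ ≤ C * (1 + |y|) ^ k := by
  have h10 : 0 < |σ|⁻¹ := inv_pos.2 hσ
  refine ⟨(|σ|⁻¹ + 4 + 4 * B) ^ k, one_le_pow₀ (by linarith), fun a b ha hb y => ?_⟩
  unfold ZD
  rw [norm_prod, ← mul_pow]
  calc ∏ j, ‖riemannZeta (1 + (σ + y * I) + I * (a j - b j))‖
      ≤ ∏ _j : Fin k, ((|σ|⁻¹ + 4 + 4 * B) * (1 + |y|)) := by
        refine Finset.prod_le_prod (fun _ _ => norm_nonneg _) fun j _ => ?_
        have hD : |a j - b j| ≤ 2 * B := by
          have := abs_sub (a j) (b j)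
          linarith [ha j, hb j]
        have h := PHM.norm_zeta_le hB hσ hσ1 hD y
        have e : (1 + (σ + y * I) + I * (a j - b j) : ℂ) =
            1 + σ + I * (y + ((a j - b j : ℝ) : ℂ)) := by
          push_cast
          ring
        rw [e]
        exact h
    _ = _ := by simp

/-- the mean of `Phi` on the line `-σ`: `Phi_eq_prod`, `norm_eulerF_le`, the diagonal factors by
`H26.norm_riemannZeta_le` (`Re = 1 - σ`), the others by `exists_zeta_average` -/
theorem exists_Phi_mean (k : ℕ) : ∃ σ : ℝ, 0 < σ ∧ σ ≤ 1 / 8 ∧ ∀ B ε : ℝ, 0 ≤ B → 0 < ε →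
    ε ≤ 1 → ∃ C : ℝ, 1 ≤ C ∧ ∀ H : ℝ, 1 ≤ H → ∀ a b : Fin k → ℝ, (∀ j, |a j| ≤ B) →
    (∀ j, |b j| ≤ B) → ∀ y : ℝ,
    ∫ u in box k H, ‖Phi a b u (-σ + y * I)‖ ≤ (2 * H) ^ k * (C * (1 + |y|) ^ (k + 2) * H ^ ε) := by
  obtain ⟨σ, hσ0, hσ1, hav⟩ := exists_zeta_average k
  refine ⟨σ, hσ0, hσ1, fun B ε hB hε hε1 => ?_⟩
  obtain ⟨C₁, hC₁, h1⟩ := hav σ hσ0 le_rfl B ε hB hε hε1
  set A : ℝ := BF (Fintype.card (Ix k)) + 1 with hA
  set Z₀ : ℝ := σ⁻¹ + 4 + 4 * B with hZ₀
  have hA0 : 0 ≤ A := (norm_nonneg _).trans (norm_eulerF_le (S := S0 k)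
    (gs_mem_tube (0 : Fin k → ℝ) 0 0 (s := 0) (by simp)))
  have hZ0 : 0 ≤ Z₀ := by positivity
  refine ⟨1 + A * Z₀ ^ k * C₁, by
    have : 0 ≤ A * Z₀ ^ k * C₁ := by positivity
    linarith, fun H hH a b ha hb y => ?_⟩
  have hy : 0 ≤ |y| := abs_nonneg y
  have hre : ((-σ : ℝ) + y * I : ℂ).re = -σ := by simp
  set g : (Fin k → ℝ) → ℝ := fun u => ∏ j, ∏ l ∈ univ.erase j,
      ‖riemannZeta (1 - σ + I * (y + dl a b u j l))‖ with hg
  have hgc : Continuous g := by
    rw [hg]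
    refine continuous_finsetProd _ fun j _ => continuous_finsetProd _ fun l _ => ?_
    refine (PHM.continuous_zeta_comp ?_ fun u => ?_).norm
    · have h2 := PHM.continuous_dl a b j l
      fun_prop
    · simp [hσ0.ne']
  have hgi : IntegrableOn g (box k H) :=
    hgc.continuousOn.integrableOn_compact (PHM.isCompact_box k H)
  have hpt : ∀ u : Fin k → ℝ, ‖Phi a b u (-σ + y * I)‖ ≤
      (A * (Z₀ * (1 + |y|)) ^ k) * g u := by
    intro u
    have e0 : (-σ + y * I : ℂ) = ((-σ : ℝ) + y * I : ℂ) := by push_cast; ring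
    rw [Phi_eq_prod, norm_mul, mul_assoc]
    refine mul_le_mul (norm_eulerF_le (gs_mem_tube _ _ _ ?_)) ?_ (norm_nonneg _) hA0
    · rw [e0, hre, abs_neg, abs_of_pos hσ0]
      linarith
    · rw [norm_prod]
      have e1 : (Z₀ * (1 + |y|)) ^ k * g u = ∏ j, ((Z₀ * (1 + |y|)) *
          ∏ l ∈ univ.erase j, ‖riemannZeta (1 - σ + I * (y + dl a b u j l))‖) := by
        rw [Finset.prod_mul_distrib, hg]
        simp
      rw [e1]
      refine Finset.prod_le_prod (fun _ _ => norm_nonneg _) fun j _ => ?_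
      rw [← Finset.mul_prod_erase univ _ (Finset.mem_univ j), norm_mul, norm_prod]
      refine mul_le_mul ?_ (le_of_eq ?_) (Finset.prod_nonneg fun _ _ => norm_nonneg _)
        (by positivity)
      · have hD : |a j - b j| ≤ 2 * B := by
          have := abs_sub (a j) (b j)
          linarith [ha j, hb j]
        have h := PHM.norm_zeta_le (σ := -σ) hB (by rw [abs_neg, abs_of_pos hσ0]; exact hσ0)
          (by rw [abs_neg, abs_of_pos hσ0]; exact hσ1) hD y
        rw [abs_neg, abs_of_pos hσ0] at h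
        have e : (1 + (-σ + y * I) + I * (dl a b u j j : ℝ) : ℂ) =
            1 + ((-σ : ℝ) : ℂ) + I * (y + ((a j - b j : ℝ) : ℂ)) := by
          rw [PHM.dl_self]
          push_cast
          ring
        rw [e]
        exact h
      · refine Finset.prod_congr rfl fun l _ => ?_
        congr 2
        ring
  calc ∫ u in box k H, ‖Phi a b u (-σ + y * I)‖
      ≤ ∫ u in box k H, (A * (Z₀ * (1 + |y|)) ^ k) * g u := by
        refine integral_mono_of_nonneg (Eventually.of_forall fun u => norm_nonneg _)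
          (hgi.const_mul _) (Eventually.of_forall hpt)
    _ = (A * (Z₀ * (1 + |y|)) ^ k) * ∫ u in box k H, g u := integral_const_mul _ _
    _ ≤ (A * (Z₀ * (1 + |y|)) ^ k) * ((2 * H) ^ k * (C₁ * (1 + |y|) ^ 2 * H ^ ε)) :=
        mul_le_mul_of_nonneg_left (h1 H hH a b ha hb y) (by positivity)
    _ = (2 * H) ^ k * ((A * Z₀ ^ k * C₁) * (1 + |y|) ^ (k + 2) * H ^ ε) := by
        rw [mul_pow, pow_add]
        ring
    _ ≤ _ := by
        have : 0 ≤ H := by linarith
        gcongr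
        linarith

end Pool.Agent.AAS
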