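import Pool.Agent.AAS.TUP
import Pool.Agent.AAS.CNT
import Pool.Agent.H26.LA4

set_option autoImplicit false

namespace Pool.Agent.AAS

open Complex Finset MeasureTheory Filter Topology Set
open Pool.Agent.H26

namespace PHS

variable {k : ℕ}

lemma Phi_eq_LSeries (a b u : Fin k → ℝ) {s : ℂ} (hs : s.re = 1 / 8) :
    Phi a b u s = LSeries (dcoef (S0 k) (gm a b u)) (1 + s) := by
  have him : (I * s / 2).im = 1 / 16 := by
    simp only [Complex.div_ofNat_im, Complex.mul_im, Complex.I_re, Complex.I_im, zero_mul,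
      one_mul, zero_add]
    rw [hs]
    norm_num
  have e : 1 + 2 * I * (-(I * s / 2)) = 1 + s := by linear_combination (-s) * I_sq
  have h := zetaAB_eq_LSeries (S0 k) (gm a b u)
    (γ := Sum.elim (fun j => ((a j + u j : ℝ) : ℂ) - I * s / 2)
      (fun j => ((b j + u j : ℝ) : ℂ) + I * s / 2)) (z := -(I * s / 2)) ?_ ?_ ?_ ?_
  · unfold Phi
    rw [h, e]
  · intro i
    rcases i with i | i
    · simp only [Sum.elim_inl, Complex.sub_im, Complex.ofReal_im, him]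
      norm_num
    · simp only [Sum.elim_inr, Complex.add_im, Complex.ofReal_im, him]
      norm_num
  · intro i hi
    rcases i with i | i
    · simp only [Sum.elim_inl, gm]
      ring
    · exact absurd hi (inr_notMem_S0 i)
  · intro i hi
    rcases i with i | i
    · exact absurd (inl_mem_S0 i) (Finset.mem_compl.1 hi)
    · simp only [Sum.elim_inr, gm]
      ring
  · rw [Complex.neg_im, him]
    norm_num

lemma norm_term_le {x y : ℝ} {m n : ℕ} (hm : m ≠ 0) (hn : n ≠ 0) :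
    ‖(m : ℂ) ^ (-(I * x)) * (n : ℂ) ^ (I * y)‖ = 1 := by
  rw [norm_mul, Complex.norm_natCast_cpow_of_pos (Nat.pos_of_ne_zero hm),
    Complex.norm_natCast_cpow_of_pos (Nat.pos_of_ne_zero hn)]
  simp

lemma mem_Dg {X : ℕ} {p : Fin k → ℕ × ℕ} : p ∈ Dg k X ↔
    (∀ j, (p j).1 ≤ X ∧ (p j).2 ≤ X) ∧ (∀ j, Nat.Coprime (p j).1 (p j).2) ∧
      ∏ j, (p j).1 = ∏ j, (p j).2 ∧ 1 ≤ ∏ j, (p j).1 ∧ ∏ j, (p j).1 ≤ X := by
  unfold Dg
  simp only [Finset.mem_filter, Fintype.mem_piFinset, Finset.mem_product, Finset.mem_range,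
    Nat.lt_succ_iff]

lemma ne_zero_of_mem {X : ℕ} {p : Fin k → ℕ × ℕ} (hp : p ∈ Dg k X) (j : Fin k) :
    (p j).1 ≠ 0 ∧ (p j).2 ≠ 0 := by
  obtain ⟨-, -, h3, h4, -⟩ := mem_Dg.1 hp
  have h1 : ∏ j, (p j).1 ≠ 0 := by omega
  have h2 : ∏ j, (p j).2 ≠ 0 := by omega
  exact ⟨Finset.prod_ne_zero_iff.1 h1 j (Finset.mem_univ _),
    Finset.prod_ne_zero_iff.1 h2 j (Finset.mem_univ _)⟩

lemma filter_Dg_eq {X M : ℕ} (hMX : M ≤ X) :
    (Dg k X).filter (fun p => ∏ j, (p j).1 = M) = (Dg k M).filter (fun p => ∏ j, (p j).1 = M) := by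
  ext p
  simp only [Finset.mem_filter, mem_Dg]
  constructor
  · rintro ⟨⟨h1, h2, h3, h4, h5⟩, h6⟩
    refine ⟨⟨fun j => ?_, h2, h3, h4, h6.le⟩, h6⟩
    have hd1 : (p j).1 ∣ M := h6 ▸ Finset.dvd_prod_of_mem (fun j => (p j).1) (Finset.mem_univ j)
    have hd2 : (p j).2 ∣ M := by
      rw [← h6, h3]
      exact Finset.dvd_prod_of_mem (fun j => (p j).2) (Finset.mem_univ j)
    have hM : 0 < M := by omega
    exact ⟨Nat.le_of_dvd hM hd1, Nat.le_of_dvd hM hd2⟩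
  · rintro ⟨⟨h1, h2, h3, h4, h5⟩, h6⟩
    exact ⟨⟨fun j => ⟨(h1 j).1.trans hMX, (h1 j).2.trans hMX⟩, h2, h3, h4, by omega⟩, h6⟩

lemma norm_cq_le (a b u : Fin k → ℝ) (M : ℕ) :
    ‖cq a b u M‖ ≤ (((Dg k M).filter (fun p => ∏ j, (p j).1 = M)).card : ℝ) := by
  unfold cq
  refine (norm_sum_le _ _).trans ?_
  rw [← nsmul_one, ← Finset.sum_const]
  refine Finset.sum_le_sum fun p hp => ?_
  rw [norm_prod]
  refine le_of_eq (Finset.prod_eq_one fun j _ => ?_)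
  have h := ne_zero_of_mem (Finset.mem_filter.1 hp).1 j
  have h1 := norm_term_le (x := a j + u j) (y := b j + u j) h.1 h.2
  push_cast at h1
  exact h1

lemma cf_mul_exp {a b u : ℝ} {s : ℂ} {p : ℕ × ℕ} (h1 : p.1 ≠ 0) (h2 : p.2 ≠ 0) :
    cf a b (s / 2) p * cexp (-(I * lq p * u)) =
      ((p.1 : ℂ) ^ (-(I * (a + u))) * (p.2 : ℂ) ^ (I * (b + u))) *
        (((p.1 * p.2 : ℕ) : ℂ) ^ (-(1 / 2 + s / 2))) := by
  have c1 : (p.1 : ℂ) ≠ 0 := by exact_mod_cast h1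
  have c2 : (p.2 : ℂ) ≠ 0 := by exact_mod_cast h2
  have e1 : cexp (-(I * lq p * u)) = (p.1 : ℂ) ^ (-(I * u)) * (p.2 : ℂ) ^ (I * u) := by
    rw [Complex.cpow_def_of_ne_zero c1, Complex.cpow_def_of_ne_zero c2, ← Complex.exp_add]
    congr 1
    unfold lq
    rw [← Complex.ofReal_natCast p.1, ← Complex.ofReal_natCast p.2,
      ← Complex.ofReal_log (Nat.cast_nonneg _), ← Complex.ofReal_log (Nat.cast_nonneg _)]
    push_cast
    ring
  rw [e1]
  unfold cf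
  rw [Nat.cast_mul, Complex.natCast_mul_natCast_cpow]
  have e2 : (p.1 : ℂ) ^ (-(1 / 2 + I * a + s / 2)) * (p.1 : ℂ) ^ (-(I * u)) =
      (p.1 : ℂ) ^ (-(I * (a + u))) * (p.1 : ℂ) ^ (-(1 / 2 + s / 2)) := by
    rw [← Complex.cpow_add _ _ c1, ← Complex.cpow_add _ _ c1]
    congr 1
    ring
  have e3 : (p.2 : ℂ) ^ (-(1 / 2 - I * b + s / 2)) * (p.2 : ℂ) ^ (I * u) =
      (p.2 : ℂ) ^ (I * (b + u)) * (p.2 : ℂ) ^ (-(1 / 2 + s / 2)) := by
    rw [← Complex.cpow_add _ _ c2, ← Complex.cpow_add _ _ c2]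
    congr 1
    ring
  calc _ = ((p.1 : ℂ) ^ (-(1 / 2 + I * a + s / 2)) * (p.1 : ℂ) ^ (-(I * u))) *
        ((p.2 : ℂ) ^ (-(1 / 2 - I * b + s / 2)) * (p.2 : ℂ) ^ (I * u)) := by ring
    _ = _ := by rw [e2, e3]; ring

lemma prod_cpow {ι : Type*} (S : Finset ι) (f : ι → ℕ) (w : ℂ) :
    ∏ j ∈ S, ((f j : ℕ) : ℂ) ^ w = ((∏ j ∈ S, f j : ℕ) : ℂ) ^ w := by
  classical
  induction S using Finset.induction_on with
  | empty => simp
  | insert i S hi ih =>
    rw [Finset.prod_insert hi, Finset.prod_insert hi, ih, Nat.cast_mul,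
      Complex.natCast_mul_natCast_cpow]

lemma tq_eq (a b u : Fin k → ℝ) (s : ℂ) {X : ℕ} {p : Fin k → ℕ × ℕ} (hp : p ∈ Dg k X) :
    tq a b u s p = (∏ j, (((p j).1 : ℂ) ^ (-(I * (a j + u j))) *
      ((p j).2 : ℂ) ^ (I * (b j + u j)))) * ((∏ j, (p j).1 : ℕ) : ℂ) ^ (-(1 + s)) := by
  unfold tq
  rw [Finset.prod_congr rfl (fun j _ => cf_mul_exp (ne_zero_of_mem hp j).1 (ne_zero_of_mem hp j).2),
    Finset.prod_mul_distrib, prod_cpow]
  congr 1
  obtain ⟨-, -, h3, h4, -⟩ := mem_Dg.1 hp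
  rw [Finset.prod_mul_distrib, ← h3, Nat.cast_mul, Complex.natCast_mul_natCast_cpow]
  have c : ((∏ j, (p j).1 : ℕ) : ℂ) ≠ 0 := by
    have : ∏ j, (p j).1 ≠ 0 := by omega
    exact_mod_cast this
  rw [← Complex.cpow_add _ _ c]
  congr 1
  ring

lemma sum_tq_eq (a b u : Fin k → ℝ) (s : ℂ) (X : ℕ) :
    ∑ p ∈ Dg k X, tq a b u s p =
      ∑ M ∈ Finset.Icc 1 X, cq a b u M * (M : ℂ) ^ (-(1 + s)) := by
  have h : ∀ p ∈ Dg k X, ∏ j, (p j).1 ∈ Finset.Icc 1 X := fun p hp => by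
    obtain ⟨-, -, -, h4, h5⟩ := mem_Dg.1 hp
    exact Finset.mem_Icc.2 ⟨h4, h5⟩
  rw [← Finset.sum_fiberwise_of_maps_to h]
  refine Finset.sum_congr rfl fun M hM => ?_
  rw [filter_Dg_eq (Finset.mem_Icc.1 hM).2]
  unfold cq
  rw [Finset.sum_mul]
  refine Finset.sum_congr rfl fun p hp => ?_
  obtain ⟨hp1, hp2⟩ := Finset.mem_filter.1 hp
  rw [tq_eq a b u s hp1, hp2]

lemma norm_zeta_le (x : ℝ) {s : ℂ} (hs : s.re = 1 / 8) :
    ‖riemannZeta (1 + s + I * x)‖ ≤ ∑' n : ℕ, 1 / (n : ℝ) ^ (9 / 8 : ℝ) := by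
  have hre : (1 + s + I * x).re = 9 / 8 := by
    simp [hs]
    norm_num
  rw [zeta_eq_tsum_one_div_nat_cpow (by rw [hre]; norm_num)]
  have hsum : Summable fun n : ℕ => 1 / (n : ℝ) ^ (9 / 8 : ℝ) :=
    Real.summable_one_div_nat_rpow.2 (by norm_num)
  have hn : ∀ n : ℕ, ‖1 / (n : ℂ) ^ (1 + s + I * x)‖ = 1 / (n : ℝ) ^ (9 / 8 : ℝ) := by
    intro n
    rcases Nat.eq_zero_or_pos n with h | h
    · subst h
      have : (1 + s + I * x) ≠ 0 := by
        intro h0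
        rw [h0] at hre
        norm_num at hre
      rw [Nat.cast_zero, Complex.zero_cpow this, Nat.cast_zero, Real.zero_rpow (by norm_num)]
      simp
    · rw [norm_div, norm_one, Complex.norm_natCast_cpow_of_pos h, hre]
  refine (norm_tsum_le_tsum_norm ?_).trans (le_of_eq ?_)
  · simpa only [hn] using hsum
  · simp only [hn]

end PHS

/-- factorization of the Dirichlet series and truncation.
`Phi a b u s = LSeries (dcoef (S0 k) (gm a b u)) (1 + s)` (`H26.zetaAB_eq_LSeries` with `z = -I*s/2`),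
`dcoef = (∏ pw D_j) * cq` (`dcoef_eq_conv`), so that
`Phi = ZD a b s * LSeries (cq a b u) (1 + s)` (`LSeries_AF`, `LSeries_convolution`); the tail of the
second series is bounded with `exists_card_Dg`; `∑_{M ≤ X} cq M M^(-1-s) = ∑_{p ∈ Dg k X} tq p`. -/
theorem exists_Phi_series (k : ℕ) : ∃ C : ℝ, 1 ≤ C ∧ ∀ a b u : Fin k → ℝ, ∀ s : ℂ,
    s.re = 1 / 8 → ∀ X : ℕ, 1 ≤ X →
    ‖Phi a b u s - ZD a b s * ∑ p ∈ Dg k X, tq a b u s p‖ ≤ C * (X : ℝ) ^ (-(1 / 16) : ℝ) := by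
  obtain ⟨C₁, hC₁, hcard⟩ := exists_card_Dg k (1 / 32) (by norm_num)
  set Z₀ : ℝ := ∑' n : ℕ, 1 / (n : ℝ) ^ (9 / 8 : ℝ) with hZ₀
  set W₀ : ℝ := ∑' n : ℕ, 1 / (n : ℝ) ^ (33 / 32 : ℝ) with hW₀
  have hZ0 : 0 ≤ Z₀ := tsum_nonneg fun n => by positivity
  have hW0 : 0 ≤ W₀ := tsum_nonneg fun n => by positivity
  have hWs : Summable fun n : ℕ => 1 / (n : ℝ) ^ (33 / 32 : ℝ) :=
    Real.summable_one_div_nat_rpow.2 (by norm_num)
  refine ⟨1 + Z₀ ^ k * (C₁ * W₀), by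
    have : 0 ≤ Z₀ ^ k * (C₁ * W₀) := by positivity
    linarith, fun a b u s hs X hX => ?_⟩
  have hX0 : (0:ℝ) < X := by exact_mod_cast hX
  -- the series of `cq`
  have hcqle : ∀ M : ℕ, 1 ≤ M → ‖cq a b u M‖ ≤ C₁ * (M : ℝ) ^ (1 / 32 : ℝ) := fun M hM =>
    (PHS.norm_cq_le a b u M).trans (hcard M M hM)
  have hre : (1 + s).re = 9 / 8 := by
    simp [hs]
    norm_num
  have hterm : ∀ M : ℕ, 1 ≤ M → ‖LSeries.term (cq a b u) (1 + s) M‖ ≤
      C₁ * (M : ℝ) ^ (-(35 / 32) : ℝ) := by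
    intro M hM
    have hM0 : (0:ℝ) < M := by exact_mod_cast hM
    rw [LSeries.term_of_ne_zero (by omega), norm_div,
      Complex.norm_natCast_cpow_of_pos (by omega), hre]
    rw [div_le_iff₀ (by positivity)]
    refine (hcqle M hM).trans (le_of_eq ?_)
    rw [mul_assoc, ← Real.rpow_add hM0]
    norm_num
  have hcqS : LSeriesSummable (cq a b u) (1 + s) := by
    refine LSeriesSummable_of_le_const_mul_rpow (x := 33 / 32) (by rw [hre]; norm_num)
      ⟨C₁, fun n hn => ?_⟩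
    refine (hcqle n (Nat.pos_of_ne_zero hn)).trans (le_of_eq ?_)
    norm_num
  -- factorization
  have hfac : Phi a b u s = ZD a b s * LSeries (cq a b u) (1 + s) := by
    rw [PHS.Phi_eq_LSeries a b u hs]
    have h1 : LSeries (dcoef (S0 k) (gm a b u)) (1 + s) =
        LSeries (LSeries.convolution (fun n => AF univ
          (fun j => (((a j - b j : ℝ)) : ℂ)) n) (cq a b u)) (1 + s) := by
      refine LSeries_congr (fun {N} hN => ?_) _
      rw [LSeries.convolution_def]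
      have := dcoef_eq_conv a b u hN
      simpa only [AF] using this
    have h2 : 1 < (1 + s).re := by rw [hre]; norm_num
    rw [h1, LSeries_convolution' (LSeriesSummable_AF univ (fun j => a j - b j) h2) hcqS,
      LSeries_AF univ (fun j => a j - b j) h2]
    congr 1
    unfold ZD
    refine Finset.prod_congr rfl fun j _ => ?_
    push_cast
    rfl
  -- the tail
  have htail : ‖LSeries (cq a b u) (1 + s) -
      ∑ M ∈ Finset.Icc 1 X, cq a b u M * (M : ℂ) ^ (-(1 + s))‖ ≤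
      C₁ * W₀ * (X : ℝ) ^ (-(1 / 16) : ℝ) := by
    have e0 : ∑ M ∈ Finset.Icc 1 X, cq a b u M * (M : ℂ) ^ (-(1 + s)) =
        ∑ M ∈ Finset.range (X + 1), LSeries.term (cq a b u) (1 + s) M := by
      rw [Finset.range_eq_Ico, Finset.sum_eq_sum_Ico_succ_bot (by omega), LSeries.term_zero,
        zero_add]
      refine Finset.sum_congr ?_ fun M hM => ?_
      · ext M
        simp only [Finset.mem_Icc, Finset.mem_Ico]
        omega
      · have : M ≠ 0 := by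
          have := Finset.mem_Icc.1 hM
          omega
        rw [LSeries.term_of_ne_zero this, Complex.cpow_neg, div_eq_mul_inv]
    rw [e0]
    have hs1 : Summable (LSeries.term (cq a b u) (1 + s)) := hcqS
    have e1 := hs1.sum_add_tsum_nat_add (X + 1)
    have e2 : LSeries (cq a b u) (1 + s) -
        ∑ M ∈ Finset.range (X + 1), LSeries.term (cq a b u) (1 + s) M =
        ∑' n, LSeries.term (cq a b u) (1 + s) (n + (X + 1)) := by
      unfold LSeries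
      rw [← e1]
      ring
    rw [e2]
    have hb : ∀ n : ℕ, ‖LSeries.term (cq a b u) (1 + s) (n + (X + 1))‖ ≤
        C₁ * (X : ℝ) ^ (-(1 / 16) : ℝ) * (1 / ((n + (X + 1) : ℕ) : ℝ) ^ (33 / 32 : ℝ)) := by
      intro n
      refine (hterm _ (by omega)).trans ?_
      have hM0 : (0:ℝ) < ((n + (X + 1) : ℕ) : ℝ) := by positivity
      have e3 : ((n + (X + 1) : ℕ) : ℝ) ^ (-(35 / 32) : ℝ) =
          ((n + (X + 1) : ℕ) : ℝ) ^ (-(1 / 16) : ℝ) *
            (1 / ((n + (X + 1) : ℕ) : ℝ) ^ (33 / 32 : ℝ)) := by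
        have e6 : 1 / ((n + (X + 1) : ℕ) : ℝ) ^ (33 / 32 : ℝ) =
            ((n + (X + 1) : ℕ) : ℝ) ^ (-(33 / 32) : ℝ) := by
          rw [Real.rpow_neg hM0.le, one_div]
        rw [e6, ← Real.rpow_add hM0]
        norm_num
      rw [e3, ← mul_assoc]
      refine mul_le_mul_of_nonneg_right ?_ (by positivity)
      refine mul_le_mul_of_nonneg_left ?_ (by linarith)
      refine Real.rpow_le_rpow_of_nonpos hX0 ?_ (by norm_num)
      push_cast
      have : (0:ℝ) ≤ n := Nat.cast_nonneg _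
      linarith
    have hs2 : Summable fun n : ℕ => C₁ * (X : ℝ) ^ (-(1 / 16) : ℝ) *
        (1 / ((n + (X + 1) : ℕ) : ℝ) ^ (33 / 32 : ℝ)) :=
      (((summable_nat_add_iff (X + 1)).2 hWs)).mul_left _
    refine (tsum_of_norm_bounded hs2.hasSum hb).trans ?_
    rw [tsum_mul_left]
    have h5 : ∑' n : ℕ, (1 / ((n + (X + 1) : ℕ) : ℝ) ^ (33 / 32 : ℝ)) ≤ W₀ := by
      have e4 := hWs.sum_add_tsum_nat_add (X + 1)
      have e5 : 0 ≤ ∑ i ∈ Finset.range (X + 1), 1 / (i : ℝ) ^ (33 / 32 : ℝ) :=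
        Finset.sum_nonneg fun i _ => by positivity
      rw [hW₀, ← e4]
      linarith
    calc C₁ * (X : ℝ) ^ (-(1 / 16) : ℝ) *
          ∑' n : ℕ, (1 / ((n + (X + 1) : ℕ) : ℝ) ^ (33 / 32 : ℝ))
        ≤ C₁ * (X : ℝ) ^ (-(1 / 16) : ℝ) * W₀ :=
          mul_le_mul_of_nonneg_left h5 (by positivity)
      _ = _ := by ring
  have hZD : ‖ZD a b s‖ ≤ Z₀ ^ k := by
    unfold ZD
    rw [norm_prod]
    calc ∏ j, ‖riemannZeta (1 + s + I * (a j - b j))‖ ≤ ∏ _j : Fin k, Z₀ := by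
          refine Finset.prod_le_prod (fun _ _ => norm_nonneg _) fun j _ => ?_
          have := PHS.norm_zeta_le (a j - b j) hs
          push_cast at this
          exact this
      _ = Z₀ ^ k := by simp
  rw [hfac, PHS.sum_tq_eq, ← mul_sub, norm_mul]
  have hXp : 0 ≤ (X : ℝ) ^ (-(1 / 16) : ℝ) := by positivity
  calc ‖ZD a b s‖ * ‖LSeries (cq a b u) (1 + s) -
        ∑ M ∈ Finset.Icc 1 X, cq a b u M * (M : ℂ) ^ (-(1 + s))‖
      ≤ Z₀ ^ k * (C₁ * W₀ * (X : ℝ) ^ (-(1 / 16) : ℝ)) :=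
        mul_le_mul hZD htail (norm_nonneg _) (by positivity)
    _ = Z₀ ^ k * (C₁ * W₀) * (X : ℝ) ^ (-(1 / 16) : ℝ) := by ring
    _ ≤ _ := mul_le_mul_of_nonneg_right (by linarith) hXp

end Pool.Agent.AAS
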