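import Pool.Agent.AAS.AVL
import Pool.Agent.AAS.DEC
import Pool.Agent.AAS.AVF

set_option autoImplicit false

namespace Pool.Agent.AAS

open Complex Finset MeasureTheory Filter Topology Set
open Pool.Agent.H26

private lemma prm_zeta {B : ℝ} (hB : 0 ≤ B) {a b : ℝ} (ha : |a| ≤ B) (hb : |b| ≤ B)
    (hab : a ≠ b) :
    ‖riemannZeta (1 + I * (a - b))‖ ≤ 4 * (1 + B) * (1 + 1 / (a - b) ^ 2) := by
  have hpos : 0 < |a - b| := abs_pos.2 (sub_ne_zero.2 hab)
  have hd : dist (a : ℂ) (b : ℂ) = |a - b| := by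
    rw [dist_eq_norm, ← Complex.ofReal_sub, Complex.norm_real, Real.norm_eq_abs]
  have h := norm_zeta_pair_le (η := |a - b|) (B := B) hpos hB
    (a := (a : ℂ)) (b := (b : ℂ)) (by simp) (by simp) (by rw [hd])
    (by simpa using ha) (by simpa using hb)
  have h1 : |a - b|⁻¹ ≤ 1 + 1 / (a - b) ^ 2 := by
    have e : 1 / (a - b) ^ 2 = (|a - b|⁻¹) ^ 2 := by
      rw [inv_pow, sq_abs, one_div]
    rw [e]
    nlinarith [sq_nonneg (|a - b|⁻¹ - 1 / 2)]
  have h2 : 0 ≤ 1 / (a - b) ^ 2 := by positivity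
  calc ‖riemannZeta (1 + I * (a - b))‖ ≤ (|a - b|⁻¹ + 3) * (1 + B) := h
    _ ≤ (4 * (1 + 1 / (a - b) ^ 2)) * (1 + B) := by gcongr; linarith
    _ = _ := by ring

private lemma prm_low : low 1 = {(1, 1)} := by
  unfold low
  decide

private lemma prm_DP (a b x : ℝ) : DP (low 1) a b 0 x = 1 := by
  rw [prm_low, DP, Finset.sum_singleton]
  simp [cf, lq]

private lemma prm_lo {B : ℝ} (hB : 0 ≤ B) {a b : ℝ} (ha : |a| ≤ B) (hb : |b| ≤ B)
    (hab : a ≠ b) (x : ℝ) : ‖lo a b 1 x‖ ≤ 8 * (1 + B) * (1 + 1 / (a - b) ^ 2) := by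
  unfold lo
  rw [prm_DP, prm_DP, mul_one, mul_one]
  have h1 := prm_zeta hB ha hb hab
  have h2 := prm_zeta hB hb ha hab.symm
  have e : (b - a) ^ 2 = (a - b) ^ 2 := by ring
  rw [e] at h2
  refine (norm_add_le _ _).trans ?_
  rw [norm_mul, norm_XX, one_mul]
  linarith

private lemma prm_pf {B X : ℝ} {a b : ℝ} (ha : |a| ≤ B) (hb : |b| ≤ B) {x : ℝ}
    (hx : |x| ≤ X) : ‖pf a b x‖ ≤ (4 * (1 + (X + B))) ^ 2 := by
  unfold pf
  have h1 := norm_zeta_line (σ := 1 / 2) (u := x + a) le_rfl (Or.inl rfl)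
  have h2 := norm_zeta_line (σ := 1 / 2) (u := -(x + b)) le_rfl (Or.inl rfl)
  have e1 : (((1 / 2 : ℝ) : ℂ) + I * ((x + a : ℝ) : ℂ)) = 1 / 2 + I * (x + a) := by
    push_cast; ring
  have e2 : (((1 / 2 : ℝ) : ℂ) + I * ((-(x + b) : ℝ) : ℂ)) = 1 / 2 - I * (x + b) := by
    push_cast; ring
  rw [e1] at h1
  rw [e2] at h2
  have h3 : |x + a| ≤ X + B := (abs_add_le _ _).trans (add_le_add hx ha)
  have h4 : |-(x + b)| ≤ X + B := by
    rw [abs_neg]; exact (abs_add_le _ _).trans (add_le_add hx hb)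
  rw [norm_mul, sq]
  have h0 : 0 ≤ X + B := (abs_nonneg _).trans h3
  refine mul_le_mul (h1.trans ?_) (h2.trans ?_) (norm_nonneg _) (by positivity)
  · linarith
  · linarith

private lemma prm_int {H K : ℝ} (hH : 0 ≤ H) {f : ℝ → ℂ} (h : ∀ u ∈ Icc (-H) H, ‖f u‖ ≤ K) :
    ‖∫ u in (-H)..H, f u‖ ≤ 2 * K * H := by
  have h1 := intervalIntegral.norm_integral_le_of_norm_le_const (a := -H) (b := H) (C := K)
    (f := f) (fun x hx => by
      rw [uIoc_of_le (by linarith)] at hx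
      exact h x ⟨hx.1.le, hx.2⟩)
  have e : |H - -H| = 2 * H := by
    rw [abs_of_nonneg (by linarith)]; ring
  rw [e] at h1
  linarith

/-- the local mean of a pair: `exists_pf_decomp` with `J = 1` (so `lo` is bounded by
`|ζ(1+i(a-b))| + |ζ(1+i(b-a))|`), `R` the mean of the blocks -/
theorem exists_pair_mean (B ε : ℝ) (hB : 0 ≤ B) (hε : 0 < ε) (hε1 : ε ≤ 1 / 100) :
    ∃ C : ℝ, 1 ≤ C ∧ ∀ T H : ℝ, 2 ≤ T → 1 ≤ H → H ≤ T / 4 → ∀ a b : ℝ, |a| ≤ B → |b| ≤ B →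
    a ≠ b → ∃ R : ℝ → ℂ, Continuous R ∧
    (∀ t ∈ Icc T (2 * T), ‖(∫ u in (-H)..H, pf a b (t + u)) - R t‖ ≤
      C * (1 + 1 / (a - b) ^ 2) * H) ∧
    ∫ t in T..(2 * T), ‖R t‖ ^ 2 ≤ C * (1 + 1 / (a - b) ^ 2) ^ 2 * T ^ (1 + 6 * ε) * H := by
  obtain ⟨C₁, hC₁, h₁⟩ := exists_avl_block B ε hB hε (by linarith)
  obtain ⟨C₂, hC₂, h₂⟩ := exists_avl_block B (3 / 4) hB (by norm_num) le_rfl
  obtain ⟨C₃, hC₃, h₃⟩ := exists_pf_decomp B ε hB hε hε1
  set N : ℝ := 1 / ε / Real.log 2 + 1 with hN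
  have hlog2 : 0 < Real.log 2 := Real.log_pos (by norm_num)
  have hN1 : 1 ≤ N := by
    have : 0 ≤ 1 / ε / Real.log 2 := by positivity
    linarith
  set K₀ : ℝ := (4 * (1 + (3 * 2 ^ 40 + B))) ^ 2 with hK₀
  set K₁ : ℝ := 2 * (8 * (1 + B) + C₃) with hK₁
  set K₂ : ℝ := (4 * C₁ + 256 * C₂) * N ^ 2 with hK₂
  have hK₀0 : 0 ≤ K₀ := by positivity
  have hK₁0 : 0 ≤ K₁ := by positivity
  have hK₂0 : 0 ≤ K₂ := by positivity
  refine ⟨1 + 2 * K₀ + K₁ + K₂ ^ 2, by nlinarith [sq_nonneg K₂], ?_⟩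
  intro T H hT hH hHT a b ha hb hab
  have hT0 : 0 < T := by linarith
  have hT1 : 1 ≤ T := by linarith
  have hH0 : 0 < H := by linarith
  set D : ℝ := 1 + 1 / (a - b) ^ 2 with hD
  have hD1 : 1 ≤ D := by
    have : 0 ≤ 1 / (a - b) ^ 2 := by positivity
    linarith
  have hD0 : 0 < D := by linarith
  rcases lt_or_ge T ((2:ℝ) ^ 40) with hsmall | hbig
  · refine ⟨fun _ => 0, continuous_const, ?_, ?_⟩
    · intro t ht
      rw [sub_zero]
      have h := prm_int (K := K₀) hH0.le (f := fun u => pf a b (t + u)) (fun u hu => by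
        refine prm_pf ha hb ?_
        have h1 := ht.1
        have h2 := ht.2
        have h3 := hu.1
        have h4 := hu.2
        rw [abs_le]
        constructor <;> nlinarith)
      refine h.trans ?_
      have : 2 * K₀ * H ≤ 2 * K₀ * D * H := by
        have h0 : 0 ≤ 2 * K₀ * H := by positivity
        nlinarith
      have h5 : 0 ≤ (1 + K₁ + K₂ ^ 2) * D * H := by positivity
      linarith
    · simp only [norm_zero]
      have e : ∫ _ in T..(2 * T), (0:ℝ) ^ 2 = 0 := by simp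
      rw [e]
      positivity
  -- the large case
  obtain ⟨n, hn1, hn2⟩ := exists_nat_pow_near hT1 (by norm_num : (1:ℝ) < 2)
  set J₁ := n + 1 with hJ₁
  set J₂ := 8 * J₁ with hJ₂
  have hJJ : 1 ≤ J₁ := by omega
  have hJ12 : J₁ ≤ J₂ := by omega
  have hT8 : T ^ (8:ℝ) ≤ 2 ^ J₂ := by
    have h8 : T ^ (8:ℝ) = T ^ 8 := by exact_mod_cast Real.rpow_natCast T 8
    rw [h8, hJ₂, mul_comm, pow_mul]
    exact pow_le_pow_left₀ hT0.le hn2.le 8
  have hJ : (2:ℝ) ^ 1 ≤ T ^ (1 / 40 : ℝ) := by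
    have h1 : ((2:ℝ) ^ 40) ^ (1 / 40 : ℝ) ≤ T ^ (1 / 40 : ℝ) :=
      Real.rpow_le_rpow (by positivity) hbig (by norm_num)
    have h2 : ((2:ℝ) ^ 40) ^ (1 / 40 : ℝ) = 2 := by
      rw [← Real.rpow_natCast, ← Real.rpow_mul (by norm_num)]
      norm_num
    rw [h2] at h1
    rwa [pow_one]
  have hnT : (J₁ : ℝ) ≤ N * T ^ ε := by
    have h1 : (n:ℝ) * Real.log 2 ≤ Real.log T := by
      rw [← Real.log_pow]
      exact Real.log_le_log (by positivity) hn1
    have h2 : Real.log T ≤ T ^ ε / ε := Real.log_le_rpow_div hT0.le hε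
    have h3 : (n:ℝ) ≤ 1 / ε / Real.log 2 * T ^ ε := by
      have : (n:ℝ) ≤ T ^ ε / ε / Real.log 2 := by
        rw [le_div_iff₀ hlog2]; linarith
      calc (n:ℝ) ≤ T ^ ε / ε / Real.log 2 := this
        _ = _ := by ring
    have h4 : 1 ≤ T ^ ε := Real.one_le_rpow hT1 hε.le
    rw [hJ₁, hN]; push_cast; nlinarith
  have hJ1r : (1:ℝ) ≤ J₁ := by exact_mod_cast hJJ
  -- the blocks
  set A : Bool → ℕ → ℝ → ℝ → ℂ := fun κ j c t => ∫ u in (-H)..H, LIb a b T κ j c (t + u) with hA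
  have cL : ∀ κ : Bool, ∀ j : ℕ, ∀ c : ℝ, 0 < c → c ≤ 3 / 4 → Continuous (LIb a b T κ j c) :=
    fun κ j c hc hc1 => continuous_LIb hab hT0 κ j hc hc1
  have cA : ∀ κ : Bool, ∀ j : ℕ, ∀ c : ℝ, 0 < c → c ≤ 3 / 4 → Continuous (A κ j c) := by
    intro κ j c hc hc1
    have h := cL κ j c hc hc1
    exact intervalIntegral.continuous_parametric_intervalIntegral_of_continuous' (μ := volume)
      (f := fun t u => LIb a b T κ j c (t + u)) (by
        exact h.comp (continuous_fst.add continuous_snd)) (-H) H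
  set W : ℝ := T ^ (1 / 2 : ℝ) * √H with hW
  have hW0 : 0 ≤ W := by positivity
  have hsqT : √T = T ^ (1 / 2 : ℝ) := Real.sqrt_eq_rpow T
  have hlow : ∀ κ : Bool, ∀ j ∈ Finset.Ico 1 J₁,
      L2B T (2 * T) (A κ j ε) (2 * C₁ * D * (J₁ * (T ^ ε * W))) := by
    intro κ j hj
    rw [Finset.mem_Ico] at hj
    refine (h₁ T H hT hH hHT a b ha hb hab κ j hj.1).mono ?_
    have hjT : (2:ℝ) ^ j ≤ T := le_trans (pow_le_pow_right₀ (by norm_num) (by omega)) hn1
    have q1 : (2:ℝ) ^ (-ε * (j:ℝ)) ≤ 1 := by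
      refine Real.rpow_le_one_of_one_le_of_nonpos (by norm_num) ?_
      have : 0 ≤ ε * (j:ℝ) := by positivity
      linarith
    have q2 : (j:ℝ) + 1 ≤ J₁ := by exact_mod_cast hj.2
    have q3 : √(T + 2 ^ j) ≤ 2 * T ^ (1 / 2 : ℝ) := by
      rw [← hsqT]
      refine Real.sqrt_le_iff.2 ⟨by positivity, ?_⟩
      rw [mul_pow, Real.sq_sqrt hT0.le]
      linarith
    calc C₁ * D * (T ^ ε * 2 ^ (-ε * (j:ℝ)) * ((j : ℝ) + 1) * √(T + 2 ^ j) * √H)
        ≤ C₁ * D * (T ^ ε * 1 * J₁ * (2 * T ^ (1 / 2 : ℝ)) * √H) := by gcongr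
      _ = _ := by rw [hW]; ring
  have hhigh : ∀ κ : Bool, ∀ j ∈ Finset.Ico J₁ J₂,
      L2B T (2 * T) (A κ j (3 / 4)) (16 * C₂ * D * (J₁ * W)) := by
    intro κ j hj
    rw [Finset.mem_Ico] at hj
    refine (h₂ T H hT hH hHT a b ha hb hab κ j (by omega)).mono ?_
    have hjT : T ≤ (2:ℝ) ^ j := le_trans hn2.le (pow_le_pow_right₀ (by norm_num) hj.1)
    have q2 : (j:ℝ) + 1 ≤ 8 * J₁ := by
      have : j + 1 ≤ J₂ := hj.2
      rw [hJ₂] at this
      exact_mod_cast this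
    set X : ℝ := (2:ℝ) ^ j with hX
    have hX0 : 0 < X := by positivity
    have q3 : √(T + X) ≤ 2 * X ^ (1 / 2 : ℝ) := by
      rw [← Real.sqrt_eq_rpow]
      refine Real.sqrt_le_iff.2 ⟨by positivity, ?_⟩
      rw [mul_pow, Real.sq_sqrt hX0.le]
      linarith
    have q4 : (2:ℝ) ^ (-(3 / 4) * (j:ℝ)) = X ^ (-(3 / 4) : ℝ) := by
      rw [hX, ← Real.rpow_natCast, ← Real.rpow_mul (by norm_num)]
      congr 1; ring
    have q5 : T ^ (3 / 4 : ℝ) * X ^ (-(3 / 4) : ℝ) * X ^ (1 / 2 : ℝ) ≤ T ^ (1 / 2 : ℝ) := by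
      rw [mul_assoc, ← Real.rpow_add hX0]
      have e : T ^ (1 / 2 : ℝ) = T ^ (3 / 4 : ℝ) * T ^ (-(3 / 4) + 1 / 2 : ℝ) := by
        rw [← Real.rpow_add hT0]; congr 1; norm_num
      rw [e]
      refine mul_le_mul_of_nonneg_left ?_ (by positivity)
      exact Real.rpow_le_rpow_of_nonpos hT0 hjT (by norm_num)
    calc C₂ * D * (T ^ (3 / 4 : ℝ) * 2 ^ (-(3 / 4) * (j:ℝ)) * ((j : ℝ) + 1) * √(T + X) * √H)
        ≤ C₂ * D * (T ^ (3 / 4 : ℝ) * 2 ^ (-(3 / 4) * (j:ℝ)) * (8 * J₁) * (2 * X ^ (1 / 2 : ℝ)) *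
          √H) := by gcongr
      _ = 16 * C₂ * D * (J₁ * ((T ^ (3 / 4 : ℝ) * X ^ (-(3 / 4) : ℝ) * X ^ (1 / 2 : ℝ)) * √H)) := by
          rw [q4]; ring
      _ ≤ _ := by rw [hW]; gcongr
  have hTT : T ≤ 2 * T := by linarith
  have b1 : ∀ κ : Bool, L2B T (2 * T) (fun t => ∑ j ∈ Finset.Ico 1 J₁, A κ j ε t +
      ∑ j ∈ Finset.Ico J₁ J₂, A κ j (3 / 4) t)
      (∑ j ∈ Finset.Ico 1 J₁, 2 * C₁ * D * (J₁ * (T ^ ε * W)) +
        ∑ j ∈ Finset.Ico J₁ J₂, 16 * C₂ * D * (J₁ * W)) :=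
    fun κ => L2B.add hTT (continuous_finsetSum _ fun j _ => cA κ j ε hε (by linarith))
      (continuous_finsetSum _ fun j _ => cA κ j (3 / 4) (by norm_num) le_rfl)
      (L2B.sum hTT _ (fun j _ => cA κ j ε hε (by linarith)) (hlow κ))
      (L2B.sum hTT _ (fun j _ => cA κ j (3 / 4) (by norm_num) le_rfl) (hhigh κ))
  have cb : ∀ κ : Bool, Continuous (fun t => ∑ j ∈ Finset.Ico 1 J₁, A κ j ε t +
      ∑ j ∈ Finset.Ico J₁ J₂, A κ j (3 / 4) t) := fun κ =>
    (continuous_finsetSum _ fun j _ => cA κ j ε hε (by linarith)).add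
      (continuous_finsetSum _ fun j _ => cA κ j (3 / 4) (by norm_num) le_rfl)
  have b2 := L2B.sum hTT (Finset.univ : Finset Bool) (fun κ _ => cb κ) (fun κ _ => b1 κ)
  refine ⟨fun t => ∑ κ : Bool, (∑ j ∈ Finset.Ico 1 J₁, A κ j ε t +
      ∑ j ∈ Finset.Ico J₁ J₂, A κ j (3 / 4) t), continuous_finsetSum _ fun κ _ => cb κ, ?_, ?_⟩
  · intro t ht
    -- R t is the integral of the sum of the blocks
    have hR : (∑ κ : Bool, (∑ j ∈ Finset.Ico 1 J₁, A κ j ε t +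
        ∑ j ∈ Finset.Ico J₁ J₂, A κ j (3 / 4) t)) =
        ∫ u in (-H)..H, ∑ κ : Bool, (∑ j ∈ Finset.Ico 1 J₁, LIb a b T κ j ε (t + u) +
          ∑ j ∈ Finset.Ico J₁ J₂, LIb a b T κ j (3 / 4) (t + u)) := by
      have i1 : ∀ κ : Bool, ∀ j : ℕ, ∀ c : ℝ, 0 < c → c ≤ 3 / 4 →
          IntervalIntegrable (fun u => LIb a b T κ j c (t + u)) volume (-H) H :=
        fun κ j c hc hc1 => ((cL κ j c hc hc1).comp
          (continuous_const.add continuous_id)).intervalIntegrable _ _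
      have i2 : ∀ κ : Bool, IntervalIntegrable
          (fun u => ∑ j ∈ Finset.Ico 1 J₁, LIb a b T κ j ε (t + u)) volume (-H) H := by
        intro κ
        refine Continuous.intervalIntegrable ?_ _ _
        exact continuous_finsetSum _ fun j _ => (cL κ j ε hε (by linarith)).comp
          (continuous_const.add continuous_id)
      have i3 : ∀ κ : Bool, IntervalIntegrable
          (fun u => ∑ j ∈ Finset.Ico J₁ J₂, LIb a b T κ j (3 / 4) (t + u)) volume (-H) H := by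
        intro κ
        refine Continuous.intervalIntegrable ?_ _ _
        exact continuous_finsetSum _ fun j _ => (cL κ j (3 / 4) (by norm_num) le_rfl).comp
          (continuous_const.add continuous_id)
      rw [intervalIntegral.integral_finsetSum fun κ _ => (i2 κ).add (i3 κ)]
      refine Finset.sum_congr rfl fun κ _ => ?_
      rw [intervalIntegral.integral_add (i2 κ) (i3 κ),
        intervalIntegral.integral_finsetSum fun j _ => i1 κ j ε hε (by linarith),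
        intervalIntegral.integral_finsetSum fun j _ => i1 κ j (3 / 4) (by norm_num) le_rfl]
    have i4 : IntervalIntegrable (fun u => ∑ κ : Bool,
        (∑ j ∈ Finset.Ico 1 J₁, LIb a b T κ j ε (t + u) +
          ∑ j ∈ Finset.Ico J₁ J₂, LIb a b T κ j (3 / 4) (t + u))) volume (-H) H := by
      refine Continuous.intervalIntegrable ?_ _ _
      refine continuous_finsetSum _ fun κ _ => Continuous.add ?_ ?_
      · exact continuous_finsetSum _ fun j _ => (cL κ j ε hε (by linarith)).comp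
          (continuous_const.add continuous_id)
      · exact continuous_finsetSum _ fun j _ => (cL κ j (3 / 4) (by norm_num) le_rfl).comp
          (continuous_const.add continuous_id)
    have i5 : IntervalIntegrable (fun u => pf a b (t + u)) volume (-H) H :=
      ((continuous_pf a b).comp (continuous_const.add continuous_id)).intervalIntegrable _ _
    beta_reduce
    rw [hR, ← intervalIntegral.integral_sub i5 i4]
    have hpt : ∀ u ∈ Icc (-H) H, ‖pf a b (t + u) - ∑ κ : Bool,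
        (∑ j ∈ Finset.Ico 1 J₁, LIb a b T κ j ε (t + u) +
          ∑ j ∈ Finset.Ico J₁ J₂, LIb a b T κ j (3 / 4) (t + u))‖ ≤
        (8 * (1 + B) + C₃) * D := by
      intro u hu
      have h1 := ht.1
      have h2 := ht.2
      have h3 := hu.1
      have h4 := hu.2
      have hx1 : T ^ (7 / 8 : ℝ) / 2 ≤ t + u := by
        have : T ^ (7 / 8 : ℝ) ≤ T := by
          conv_rhs => rw [← Real.rpow_one T]
          exact Real.rpow_le_rpow_of_exponent_le hT1 (by norm_num)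
        linarith
      have h5 := h₃ T hT1 a b ha hb hab 1 J₁ J₂ hJJ hJ12 hJ hT8 (t + u) hx1 (by linarith)
      have h6 := prm_lo hB ha hb hab (t + u)
      generalize (∑ κ : Bool, (∑ j ∈ Finset.Ico 1 J₁, LIb a b T κ j ε (t + u) +
          ∑ j ∈ Finset.Ico J₁ J₂, LIb a b T κ j (3 / 4) (t + u))) = S at h5 ⊢
      have h7 : T ^ (-(1 / 10) : ℝ) ≤ 1 := Real.rpow_le_one_of_one_le_of_nonpos hT1 (by norm_num)
      have h8 : C₃ * D * T ^ (-(1 / 10) : ℝ) ≤ C₃ * D := by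
        have : 0 ≤ C₃ * D := by positivity
        nlinarith
      have e : pf a b (t + u) - S = (pf a b (t + u) - lo a b 1 (t + u) - S) + lo a b 1 (t + u) := by
        ring
      rw [e]
      refine (norm_add_le _ _).trans ((add_le_add h5 h6).trans ?_)
      linarith
    have hmain := prm_int hH0.le hpt
    refine hmain.trans ?_
    have h9 : 0 ≤ (1 + 2 * K₀ + K₂ ^ 2) * D * H := by positivity
    have e : 2 * ((8 * (1 + B) + C₃) * D) * H = K₁ * D * H := by rw [hK₁]; ring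
    rw [e]
    linarith
  · refine b2.2.trans ?_
    have card1 : ((Finset.Ico 1 J₁).card : ℝ) ≤ J₁ := by
      rw [Nat.card_Ico]; exact_mod_cast Nat.sub_le _ _
    have card2 : ((Finset.Ico J₁ J₂).card : ℝ) ≤ 8 * J₁ := by
      rw [Nat.card_Ico]
      have : J₂ - J₁ ≤ 8 * J₁ := by omega
      exact_mod_cast this
    simp only [Finset.sum_const, nsmul_eq_mul, Finset.card_univ, Fintype.card_bool]
    have hTe : 1 ≤ T ^ ε := Real.one_le_rpow hT1 hε.le
    set V : ℝ := T ^ ε * T ^ ε * T ^ ε * W with hV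
    have hV0 : 0 ≤ V := by positivity
    have hJsq : (J₁ : ℝ) * J₁ ≤ N ^ 2 * (T ^ ε * T ^ ε) := by
      calc (J₁ : ℝ) * J₁ ≤ (N * T ^ ε) * (N * T ^ ε) := by gcongr
        _ = _ := by ring
    have m1 : ((Finset.Ico 1 J₁).card : ℝ) * (2 * C₁ * D * (J₁ * (T ^ ε * W))) ≤
        2 * C₁ * N ^ 2 * D * V := by
      calc ((Finset.Ico 1 J₁).card : ℝ) * (2 * C₁ * D * (J₁ * (T ^ ε * W)))
          ≤ J₁ * (2 * C₁ * D * (J₁ * (T ^ ε * W))) := by gcongr
        _ = 2 * C₁ * D * (((J₁ : ℝ) * J₁) * (T ^ ε * W)) := by ring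
        _ ≤ 2 * C₁ * D * ((N ^ 2 * (T ^ ε * T ^ ε)) * (T ^ ε * W)) := by gcongr
        _ = _ := by rw [hV]; ring
    have m2 : ((Finset.Ico J₁ J₂).card : ℝ) * (16 * C₂ * D * (J₁ * W)) ≤
        128 * C₂ * N ^ 2 * D * V := by
      calc ((Finset.Ico J₁ J₂).card : ℝ) * (16 * C₂ * D * (J₁ * W))
          ≤ (8 * J₁) * (16 * C₂ * D * (J₁ * W)) := by gcongr
        _ = 128 * C₂ * D * (((J₁ : ℝ) * J₁) * (1 * W)) := by ring
        _ ≤ 128 * C₂ * D * ((N ^ 2 * (T ^ ε * T ^ ε)) * (T ^ ε * W)) := by gcongr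
        _ = _ := by rw [hV]; ring
    have m3 : ((2 : ℕ) : ℝ) * (((Finset.Ico 1 J₁).card : ℝ) *
        (2 * C₁ * D * (J₁ * (T ^ ε * W))) + ((Finset.Ico J₁ J₂).card : ℝ) *
        (16 * C₂ * D * (J₁ * W))) ≤ K₂ * D * V := by
      rw [hK₂]; push_cast; linarith
    have m0 : (0:ℝ) ≤ ((2 : ℕ) : ℝ) * (((Finset.Ico 1 J₁).card : ℝ) *
        (2 * C₁ * D * (J₁ * (T ^ ε * W))) + ((Finset.Ico J₁ J₂).card : ℝ) *
        (16 * C₂ * D * (J₁ * W))) := by positivity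
    have hVsq : V ^ 2 = T ^ (1 + 6 * ε) * H := by
      have e1 : V = T ^ (1 / 2 + 3 * ε) * √H := by
        rw [hV, hW, ← Real.rpow_add hT0, ← Real.rpow_add hT0, ← mul_assoc, ← Real.rpow_add hT0]
        congr 2; ring
      rw [e1, mul_pow, Real.sq_sqrt hH0.le, ← Real.rpow_natCast, ← Real.rpow_mul hT0.le]
      congr 2; push_cast; ring
    calc _ ≤ (K₂ * D * V) ^ 2 := pow_le_pow_left₀ m0 m3 2
      _ = K₂ ^ 2 * D ^ 2 * (T ^ (1 + 6 * ε) * H) := by rw [mul_pow, mul_pow, hVsq]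
      _ ≤ (1 + 2 * K₀ + K₁ + K₂ ^ 2) * D ^ 2 * (T ^ (1 + 6 * ε) * H) := by
        gcongr; linarith
      _ = _ := by ring

end Pool.Agent.AAS
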