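import Pool.Agent.AAS.Defs
import Pool.Agent.H26.DSer

set_option autoImplicit false

namespace Pool.Agent.AAS

open Complex Finset MeasureTheory Filter Topology Set
open Pool.Agent.H26

/-- the number of `m`-tuples of numbers up to `N` with product `n` -/
def dm (m N n : ℕ) : ℕ :=
  ((Fintype.piFinset fun _ : Fin m => Finset.Icc 1 N).filter (fun f => ∏ i, f i = n)).card

private lemma prod_cpow {ι : Type*} (S : Finset ι) (f : ι → ℕ) (z : ℂ) :
    ∏ i ∈ S, ((f i : ℕ) : ℂ) ^ z = ((∏ i ∈ S, f i : ℕ) : ℂ) ^ z := by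
  classical
  induction S using Finset.induction_on with
  | empty => simp
  | insert a S ha ih =>
    rw [Finset.prod_insert ha, Finset.prod_insert ha, ih, Nat.cast_mul,
      Complex.natCast_mul_natCast_cpow]

/-- powers of a Dirichlet polynomial -/
theorem sum_pow_eq (m N : ℕ) (s : ℂ) : (∑ n ∈ Finset.Icc 1 N, (n : ℂ) ^ (-s)) ^ m =
    ∑ n ∈ Finset.Icc 1 (N ^ m), (dm m N n : ℂ) * (n : ℂ) ^ (-s) := by
  have h1 : (∑ n ∈ Finset.Icc 1 N, (n : ℂ) ^ (-s)) ^ m =
      ∏ _i : Fin m, ∑ n ∈ Finset.Icc 1 N, (n : ℂ) ^ (-s) := by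
    rw [Finset.prod_const, Finset.card_univ, Fintype.card_fin]
  rw [h1, Finset.prod_univ_sum]
  have h2 : ∀ f ∈ Fintype.piFinset (fun _ : Fin m => Finset.Icc 1 N),
      (∏ i, f i) ∈ Finset.Icc 1 (N ^ m) := by
    intro f hf
    rw [Fintype.mem_piFinset] at hf
    rw [Finset.mem_Icc]
    constructor
    · exact Nat.pos_of_ne_zero (Finset.prod_ne_zero_iff.mpr
        (fun i _ => by have := Finset.mem_Icc.mp (hf i); omega))
    · calc ∏ i, f i ≤ ∏ _i : Fin m, N :=
            Finset.prod_le_prod' (fun i _ => (Finset.mem_Icc.mp (hf i)).2)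
        _ = N ^ m := by rw [Finset.prod_const, Finset.card_univ, Fintype.card_fin]
  rw [← Finset.sum_fiberwise_of_maps_to h2]
  apply Finset.sum_congr rfl
  intro n _
  have h3 : ∀ f ∈ (Fintype.piFinset (fun _ : Fin m => Finset.Icc 1 N)).filter
      (fun f => ∏ i, f i = n), ∏ i, ((f i : ℕ) : ℂ) ^ (-s) = (n : ℂ) ^ (-s) := by
    intro f hf
    rw [Finset.mem_filter] at hf
    rw [prod_cpow, hf.2]
  rw [Finset.sum_congr rfl h3, Finset.sum_const, nsmul_eq_mul]
  rfl

theorem exists_dm_le (m : ℕ) (ε : ℝ) (hε : 0 < ε) : ∃ C : ℝ, 1 ≤ C ∧ ∀ N n : ℕ, 1 ≤ n →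
    (dm m N n : ℝ) ≤ C * (n : ℝ) ^ ε := by
  obtain ⟨C, hC1, hC⟩ := card_divisors_pow_le m hε
  refine ⟨C, hC1, fun N n hn => ?_⟩
  refine le_trans ?_ (hC n (by omega))
  have h1 : dm m N n ≤ n.divisors.card ^ m := by
    have h2 : (Fintype.piFinset fun _ : Fin m => Finset.Icc 1 N).filter (fun f => ∏ i, f i = n) ⊆
        Fintype.piFinset fun _ : Fin m => n.divisors := by
      intro f hf
      rw [Finset.mem_filter] at hf
      rw [Fintype.mem_piFinset]
      intro i
      rw [Nat.mem_divisors]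
      refine ⟨?_, by omega⟩
      rw [← hf.2]
      exact Finset.dvd_prod_of_mem f (Finset.mem_univ i)
    have h3 := Finset.card_le_card h2
    rw [Fintype.card_piFinset, Finset.prod_const, Finset.card_univ, Fintype.card_fin] at h3
    exact h3
  exact_mod_cast h1

end Pool.Agent.AAS
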