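import Pool.Agent.AAS.Defs

set_option autoImplicit false

namespace Pool.Agent.AAS

open Complex Finset MeasureTheory Filter Topology Set
open Pool.Agent.H26

namespace RM1

variable {k : ℕ}

/-- The line. -/
noncomputable def ln (γ v : Ix k → ℝ) (z : ℂ) : Ix k → ℂ := fun i => (γ i : ℂ) + z * (v i : ℂ)

/-- The points of the line where two coordinates coincide. -/
noncomputable def bad (γ v : Ix k → ℝ) : Set ℂ :=
  ⋃ p : (Ix k) × (Ix k), {((γ p.2 : ℂ) - γ p.1) / ((v p.1 : ℂ) - v p.2)}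

lemma bad_finite (γ v : Ix k → ℝ) : (bad γ v).Finite :=
  Set.finite_iUnion fun _ => Set.finite_singleton _

lemma ln_injective {γ v : Ix k → ℝ} (hv : Function.Injective v) {z : ℂ} (hz : z ∉ bad γ v) :
    Function.Injective (ln γ v z) := by
  intro a b hab
  by_contra hne
  apply hz
  rw [bad, Set.mem_iUnion]
  refine ⟨(a, b), ?_⟩
  have hvab : (v a : ℂ) - v b ≠ 0 := by
    rw [sub_ne_zero]
    intro h
    exact hne (hv (Complex.ofReal_injective h))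
  rw [Set.mem_singleton_iff, eq_div_iff hvab]
  simp only [ln] at hab ⊢
  linear_combination hab

lemma ln_im (γ v : Ix k → ℝ) (z : ℂ) (i : Ix k) : (ln γ v z i).im = z.im * v i := by
  simp [ln]

lemma ln_re (γ v : Ix k → ℝ) (z : ℂ) (i : Ix k) : (ln γ v z i).re = γ i + z.re * v i := by
  simp [ln]

lemma ln_im_le {γ v : Ix k → ℝ} (hv1 : ∀ i, |v i| ≤ 1) {z : ℂ}
    (hz : z ∈ Metric.ball (0 : ℂ) (1 / 16)) (i : Ix k) : |(ln γ v z i).im| < 1 / 16 := by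
  rw [mem_ball_zero_iff] at hz
  rw [ln_im, abs_mul]
  have h1 : |z.im| ≤ ‖z‖ := Complex.abs_im_le_norm z
  calc |z.im| * |v i| ≤ |z.im| * 1 := mul_le_mul_of_nonneg_left (hv1 i) (abs_nonneg _)
    _ < 1 / 16 := by linarith

lemma ln_tube {γ v : Ix k → ℝ} (hv1 : ∀ i, |v i| ≤ 1) {z : ℂ}
    (hz : z ∈ Metric.ball (0 : ℂ) (1 / 16)) : ln γ v z ∈ tube (Ix k) := by
  intro i
  have := ln_im_le (γ := γ) hv1 hz i
  linarith

lemma ln_re_le {γ v : Ix k → ℝ} {W : ℝ} (hγ : ∀ i, |γ i| ≤ W) (hv1 : ∀ i, |v i| ≤ 1) {z : ℂ}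
    (hz : z ∈ Metric.ball (0 : ℂ) (1 / 16)) (i : Ix k) : |(ln γ v z i).re| ≤ W + 1 := by
  rw [mem_ball_zero_iff] at hz
  rw [ln_re]
  have h1 : |z.re| ≤ ‖z‖ := Complex.abs_re_le_norm z
  have h2 : |z.re * v i| ≤ 1 := by
    rw [abs_mul]
    calc |z.re| * |v i| ≤ |z.re| * 1 := mul_le_mul_of_nonneg_left (hv1 i) (abs_nonneg _)
      _ ≤ 1 := by linarith
  calc |γ i + z.re * v i| ≤ |γ i| + |z.re * v i| := abs_add_le _ _
    _ ≤ W + 1 := add_le_add (hγ i) h2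

lemma continuous_ln (γ v : Ix k → ℝ) : Continuous fun p : ℝ × ℂ =>
    ((((p.1 : ℝ) : ℂ), ln γ v p.2) : ℂ × (Ix k → ℂ)) := by
  unfold ln
  fun_prop

/-- The integrand. -/
noncomputable def Fi (γ v : Ix k → ℝ) (t : ℝ) (z : ℂ) : ℂ :=
  Zc (ln γ v z) t - Qsum (ln γ v z) t

lemma norm_Fi_le {CQ : ℝ} (hCQ0 : 0 ≤ CQ)
    (hCQ : ∀ γ : Ix k → ℂ, Function.Injective γ → (∀ i, |(γ i).im| + 1 / 16 ≤ 1 / 8) →
      ∀ B : ℝ, 0 ≤ B → (∀ i, |(γ i).re| ≤ B) → ∀ t : ℝ,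
      ‖Qsum γ t‖ ≤ CQ * (1 + B) ^ NK k * (1 + |t|) ^ (2 * k))
    {γ v : Ix k → ℝ} {T W : ℝ} (hT : 0 ≤ T) (hW : 0 ≤ W) (hγ : ∀ i, |γ i| ≤ W)
    (hv : Function.Injective v) (hv1 : ∀ i, |v i| ≤ 1) {z : ℂ}
    (hz : z ∈ Metric.ball (0 : ℂ) (1 / 16)) (hzb : z ∉ bad γ v) {t : ℝ} (ht : |t| ≤ T) :
    ‖Fi γ v t z‖ ≤ (9 ^ (2 * k) + CQ * 2 ^ NK k) * (1 + W) ^ NK k * (1 + T) ^ NK k := by
  have hW1 : 0 ≤ W + 1 := by linarith
  have h1 := norm_Zc_le (ln_tube (γ := γ) hv1 hz) (t := t) hW1 (ln_re_le hγ hv1 hz)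
  have h2 := hCQ (ln γ v z) (ln_injective hv hzb)
    (fun i => by have := ln_im_le (γ := γ) hv1 hz i; linarith) (W + 1) hW1
    (ln_re_le hγ hv1 hz) t
  have ht0 : 0 ≤ |t| := abs_nonneg t
  have hN : 2 * k ≤ NK k := by unfold NK; omega
  have h3 : ((6 + 3 * (W + 1)) * (1 + |t|)) ^ (2 * k) ≤
      9 ^ (2 * k) * (1 + W) ^ NK k * (1 + T) ^ NK k := by
    calc ((6 + 3 * (W + 1)) * (1 + |t|)) ^ (2 * k)
        ≤ ((9 * (1 + W)) * (1 + T)) ^ (2 * k) := by gcongr; linarith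
      _ = 9 ^ (2 * k) * (1 + W) ^ (2 * k) * (1 + T) ^ (2 * k) := by rw [mul_pow, mul_pow]
      _ ≤ 9 ^ (2 * k) * (1 + W) ^ NK k * (1 + T) ^ NK k := by
          gcongr <;> linarith
  have h4 : CQ * (1 + (W + 1)) ^ NK k * (1 + |t|) ^ (2 * k) ≤
      CQ * 2 ^ NK k * (1 + W) ^ NK k * (1 + T) ^ NK k := by
    calc CQ * (1 + (W + 1)) ^ NK k * (1 + |t|) ^ (2 * k)
        ≤ CQ * (2 * (1 + W)) ^ NK k * (1 + T) ^ (2 * k) := by gcongr; linarith
      _ = CQ * 2 ^ NK k * (1 + W) ^ NK k * (1 + T) ^ (2 * k) := by rw [mul_pow]; ring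
      _ ≤ CQ * 2 ^ NK k * (1 + W) ^ NK k * (1 + T) ^ NK k := by
          gcongr; linarith
  calc ‖Fi γ v t z‖ ≤ ‖Zc (ln γ v z) t‖ + ‖Qsum (ln γ v z) t‖ := norm_sub_le _ _
    _ ≤ _ := add_le_add h1 h2
    _ ≤ _ := add_le_add h3 h4
    _ = _ := by ring

lemma differentiableOn_f0 {γ v : Ix k → ℝ} (hv : Function.Injective v) (hv1 : ∀ i, |v i| ≤ 1)
    (T : ℝ) : DifferentiableOn ℂ (fun z => ∫ t in (0:ℝ)..T, Fi γ v t z)
      (Metric.ball (0 : ℂ) (1 / 16) \ bad γ v) := by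
  have hU : IsOpen (Metric.ball (0 : ℂ) (1 / 16) \ bad γ v) :=
    Metric.isOpen_ball.sdiff (bad_finite γ v).isClosed
  refine differentiableOn_intervalIntegral hU ?_ ?_
  · rintro ⟨t, z⟩ ⟨-, hz, hzb⟩
    have hg : (((t : ℝ) : ℂ), ln γ v z) ∈ good k := ⟨im_ofReal_lt t, ln_tube hv1 hz⟩
    have h1 := continuousAt_Zc hg
    have h2 := continuousAt_Qsum hg (ln_injective hv hzb)
    have h3 : ContinuousAt (fun p : ℝ × ℂ => ((((p.1 : ℝ) : ℂ), ln γ v p.2) : ℂ × (Ix k → ℂ)))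
        (t, z) := (continuous_ln γ v).continuousAt
    have h4 : ContinuousAt (fun p : ℝ × ℂ => Zc (ln γ v p.2) (p.1 : ℂ)) (t, z) :=
      ContinuousAt.comp (f := fun p : ℝ × ℂ => ((((p.1 : ℝ) : ℂ), ln γ v p.2) :
        ℂ × (Ix k → ℂ))) (x := (t, z)) h1 h3
    have h5 : ContinuousAt (fun p : ℝ × ℂ => Qsum (ln γ v p.2) (p.1 : ℂ)) (t, z) :=
      ContinuousAt.comp (f := fun p : ℝ × ℂ => ((((p.1 : ℝ) : ℂ), ln γ v p.2) :
        ℂ × (Ix k → ℂ))) (x := (t, z)) h2 h3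
    exact (h4.sub h5).continuousWithinAt
  · intro t
    have hd : ∀ i, DifferentiableOn ℂ (fun z => ln γ v z i)
        (Metric.ball (0 : ℂ) (1 / 16) \ bad γ v) := by
      intro i
      unfold ln
      fun_prop
    exact (differentiableOn_Zc_comp (im_ofReal_lt t) hd (fun z hz => ln_tube hv1 hz.1)).sub
      (differentiableOn_Qsum_comp hU (im_ofReal_lt t) hd (fun z hz => ln_tube hv1 hz.1)
        (fun z hz => ln_injective hv hz.2))

end RM1

open RM1 in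
/-- the error as a holomorphic function on a complex line, with a polynomial bound.  On the ball
minus the finite set where `γ + z v` is not injective, `f z = ∫_0^T (Zc - Qsum)(γ + z v, t) dt`
(`differentiableOn_Zc_comp`, `norm_Zc_le`, `exists_norm_Qsum_le` with `ρ = 1/16`,
`differentiableOn_integral_of_locally_majorant`); removable singularities
(`exists_holo_extension`), and `continuous_Er` at the exceptional real points. -/
theorem exists_line_extension (k : ℕ) : ∃ (C : ℝ) (A : ℕ), 0 ≤ C ∧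
    ∀ (γ v : Ix k → ℝ) (T W : ℝ), 0 ≤ T → 0 ≤ W → (∀ i, |γ i| ≤ W) → Function.Injective v →
    (∀ i, |v i| ≤ 1) → ∃ f : ℂ → ℂ, DifferentiableOn ℂ f (Metric.ball 0 (1 / 16)) ∧
      (∀ z ∈ Metric.ball (0 : ℂ) (1 / 16), ‖f z‖ ≤ C * (1 + W) ^ A * (1 + T) ^ A) ∧
      ∀ x : ℝ, |x| < 1 / 16 → f x = Er (γ + x • v) T := by
  obtain ⟨CQ, hCQ0, hCQ⟩ := exists_norm_Qsum_le k (ρ := 1 / 16) (by norm_num)
  refine ⟨9 ^ (2 * k) + CQ * 2 ^ NK k, NK k + 1, by positivity, ?_⟩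
  intro γ v T W hT hW hγ hv hv1
  set M : ℝ := (9 ^ (2 * k) + CQ * 2 ^ NK k) * (1 + W) ^ (NK k + 1) * (1 + T) ^ (NK k + 1)
    with hM
  have hM0 : 0 ≤ M := by positivity
  set f₀ : ℂ → ℂ := fun z => ∫ t in (0:ℝ)..T, Fi γ v t z with hf₀
  have hbound : ∀ z ∈ Metric.ball (0 : ℂ) (1 / 16) \ bad γ v, ‖f₀ z‖ ≤ M := by
    rintro z ⟨hz, hzb⟩
    have h1 : ∀ t ∈ Set.uIoc (0:ℝ) T, ‖Fi γ v t z‖ ≤
        (9 ^ (2 * k) + CQ * 2 ^ NK k) * (1 + W) ^ NK k * (1 + T) ^ NK k := by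
      intro t ht
      rw [Set.uIoc_of_le hT] at ht
      exact norm_Fi_le hCQ0 hCQ hT hW hγ hv hv1 hz hzb (by rw [abs_of_pos ht.1]; exact ht.2)
    have h2 := intervalIntegral.norm_integral_le_of_norm_le_const h1
    refine h2.trans ?_
    rw [sub_zero, abs_of_nonneg hT, hM, pow_succ, pow_succ]
    have hA : 0 ≤ (9 ^ (2 * k) + CQ * 2 ^ NK k) * (1 + W) ^ NK k * (1 + T) ^ NK k := by
      positivity
    calc (9 ^ (2 * k) + CQ * 2 ^ NK k) * (1 + W) ^ NK k * (1 + T) ^ NK k * T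
        ≤ (9 ^ (2 * k) + CQ * 2 ^ NK k) * (1 + W) ^ NK k * (1 + T) ^ NK k *
          ((1 + W) * (1 + T)) := by
          refine mul_le_mul_of_nonneg_left ?_ hA
          nlinarith
      _ = _ := by ring
  have hdense : ∀ a : ℂ, a ∈ Metric.ball (0 : ℂ) (1 / 16) →
      ∀ᶠ z in 𝓝[≠] a, z ∈ Metric.ball (0 : ℂ) (1 / 16) \ bad γ v := by
    intro a ha
    have h1 : IsOpen (Metric.ball (0 : ℂ) (1 / 16) \ (bad γ v \ {a})) :=
      Metric.isOpen_ball.sdiff ((bad_finite γ v).subset Set.sdiff_subset).isClosed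
    have h2 : Metric.ball (0 : ℂ) (1 / 16) \ (bad γ v \ {a}) ∈ 𝓝 a :=
      h1.mem_nhds ⟨ha, fun h => h.2 rfl⟩
    filter_upwards [mem_nhdsWithin_of_mem_nhds h2, self_mem_nhdsWithin] with z hz hza
    exact ⟨hz.1, fun h => hz.2 ⟨h, hza⟩⟩
  obtain ⟨g, hg, hgeq⟩ := exists_holo_extension (U := Metric.ball (0 : ℂ) (1 / 16))
    (A := bad γ v) Metric.isOpen_ball (bad_finite γ v) (f := f₀) (differentiableOn_f0 hv hv1 T)
    (by
      intro a _ haU
      rw [tendsto_zero_iff_norm_tendsto_zero]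
      have h1 : Tendsto (fun z : ℂ => ‖z - a‖ * M) (𝓝[≠] a) (𝓝 0) := by
        have h2 : Continuous fun z : ℂ => ‖z - a‖ * M := by fun_prop
        have h3 := h2.tendsto a
        simp only [sub_self, norm_zero, zero_mul] at h3
        exact h3.mono_left nhdsWithin_le_nhds
      refine squeeze_zero' (Eventually.of_forall fun z => norm_nonneg _) ?_ h1
      filter_upwards [hdense a haU] with z hz
      rw [norm_mul]
      exact mul_le_mul_of_nonneg_left (hbound z hz) (norm_nonneg _))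
  have hgc : ∀ a ∈ Metric.ball (0 : ℂ) (1 / 16), ContinuousAt g a := fun a ha =>
    (hg.differentiableAt (Metric.isOpen_ball.mem_nhds ha)).continuousAt
  refine ⟨g, hg, ?_, ?_⟩
  · intro z hz
    have h1 : Tendsto (fun w => ‖g w‖) (𝓝[≠] z) (𝓝 ‖g z‖) :=
      ((hgc z hz).tendsto.mono_left nhdsWithin_le_nhds).norm
    refine le_of_tendsto h1 ?_
    filter_upwards [hdense z hz] with w hw
    rw [hgeq w hw]
    exact hbound w hw
  · intro x hx
    have hreal : ∀ y : ℝ, (y : ℂ) ∈ Metric.ball (0 : ℂ) (1 / 16) \ bad γ v →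
        g y = Er (γ + y • v) T := by
      intro y hy
      rw [hgeq _ hy]
      have hinjC := ln_injective hv hy.2
      have heq : ln γ v (y : ℂ) = fun i => (((γ + y • v) i : ℝ) : ℂ) := by
        funext i
        simp [ln]
      have hinj : Function.Injective (γ + y • v) := by
        intro i j hij
        apply hinjC
        rw [heq]
        simp only [hij]
      rw [Er_eq_integral hinj, hf₀]
      simp only [Fi, heq]
    have hxb : (x : ℂ) ∈ Metric.ball (0 : ℂ) (1 / 16) := by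
      rw [mem_ball_zero_iff, Complex.norm_real, Real.norm_eq_abs]
      exact hx
    have h1 : Tendsto (fun y : ℝ => g (y : ℂ)) (𝓝[≠] x) (𝓝 (g x)) := by
      have h2 : Tendsto (fun y : ℝ => (y : ℂ)) (𝓝[≠] x) (𝓝 (x : ℂ)) :=
        (Complex.continuous_ofReal.tendsto x).mono_left nhdsWithin_le_nhds
      exact (hgc x hxb).tendsto.comp h2
    have h3 : Tendsto (fun y : ℝ => Er (γ + y • v) T) (𝓝[≠] x) (𝓝 (Er (γ + x • v) T)) := by
      have h4 : Continuous fun y : ℝ => Er (γ + y • v) T := by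
        have h5 : Continuous fun y : ℝ => γ + y • v := by fun_prop
        exact (continuous_Er T).comp h5
      exact (h4.tendsto x).mono_left nhdsWithin_le_nhds
    have h6 : ∀ᶠ y : ℝ in 𝓝[≠] x, (y : ℂ) ∈ Metric.ball (0 : ℂ) (1 / 16) \ bad γ v := by
      have h7 : Tendsto (fun y : ℝ => (y : ℂ)) (𝓝[≠] x) (𝓝[≠] (x : ℂ)) := by
        refine tendsto_nhdsWithin_iff.2 ⟨(Complex.continuous_ofReal.tendsto x).mono_left
          nhdsWithin_le_nhds, ?_⟩
        filter_upwards [self_mem_nhdsWithin] with y hy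
        intro h
        exact hy (Complex.ofReal_injective h)
      exact h7.eventually (hdense x hxb)
    refine tendsto_nhds_unique (h1.congr' ?_) h3
    filter_upwards [h6] with y hy
    exact hreal y hy

end Pool.Agent.AAS
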