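import Pool.Agent.AAS.DefsH
import Pool.Agent.AAS.TEL
import Pool.Agent.AAS.AVF
import Pool.Agent.AAS.L2F
import Pool.Agent.AAS.LOL
import Pool.Agent.AAS.GLP
import Pool.Agent.AAS.CTS

set_option autoImplicit false

namespace Pool.Agent.AAS

open Complex Finset MeasureTheory Filter Topology Set
open Pool.Agent.H26
open scoped ENNReal

/-- telescoping on `G` with a weight -/
theorem tg1_core {k : ℕ} {H T₀ T : ℝ} (hH : 0 < H) (hT : T₀ ≤ T) {G : Set ℝ}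
    (hG : MeasurableSet G) (hGI : G ⊆ Icc T₀ T) {f l : Fin k → ℝ → ℂ}
    (hf : ∀ j, Continuous (f j)) (hl : ∀ j, Continuous (l j)) {M D y : ℝ} (hM : 0 ≤ M)
    (hD : 0 ≤ D) (hy : 0 ≤ y)
    (h1 : ∀ j, AvB H T₀ T (fun x => f j x - l j x) M)
    (h3 : ∀ j, ∀ t ∈ G, ∫ u in (-H)..H, ‖f j (t + u)‖ ^ 2 ≤ 2 * H * D ^ 2)
    (h3' : ∀ j, ∀ t ∈ G, ∫ u in (-H)..H, ‖l j (t + u)‖ ^ 2 ≤ 2 * H * D ^ 2)
    {Φ : ℝ → ℂ} (hΦ : Continuous Φ) (hΦy : ∫ t in T₀..T, ‖Φ t‖ ^ 2 ≤ y ^ 2) :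
    ∫ u in box k H, ‖∫ t in G, Φ t * (∏ j, f j (t + u j) - ∏ j, l j (t + u j))‖ ≤
      (2 * H) ^ k * (k * M * D ^ (k - 1) * y) := by
  have hHH : -H ≤ H := by linarith
  set μ : Measure ℝ := volume.restrict (Icc T₀ T) with hμ
  set ν : Measure ℝ := volume.restrict (Icc (-H) H) with hν
  set C : ℝ≥0∞ := ENNReal.ofReal (2 * H) with hC
  have : IsFiniteMeasure μ := by rw [hμ]; infer_instance
  have : IsFiniteMeasure ν := by rw [hν]; infer_instance
  have hνu : ν univ = C := by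
    rw [hν, Measure.restrict_apply_univ, Real.volume_Icc, hC]; congr 1; ring
  have hbox : volume.restrict (box k H) = Measure.pi fun _ : Fin k => ν := by
    rw [box, volume_pi, Measure.restrict_pi_pi]
  have hfm : ∀ j, Measurable (f j) := fun j => (hf j).measurable
  have hlm : ∀ j, Measurable (l j) := fun j => (hl j).measurable
  have hνi : ∀ g : ℝ → ℝ, ∫ u in (-H)..H, g u = ∫ u, g u ∂ν := fun g => by
    rw [intervalIntegral.integral_of_le hHH, hν, integral_Icc_eq_integral_Ioc]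
  have hμi : ∀ g : ℝ → ℂ, ∫ t in T₀..T, g t = ∫ t, g t ∂μ := fun g => by
    rw [intervalIntegral.integral_of_le hT, hμ, integral_Icc_eq_integral_Ioc]
  have hμi' : ∀ g : ℝ → ℝ, ∫ t in T₀..T, g t = ∫ t, g t ∂μ := fun g => by
    rw [intervalIntegral.integral_of_le hT, hμ, integral_Icc_eq_integral_Ioc]
  have hνae : ∀ᵐ x ∂ν, x ∈ Icc (-H) H := ae_restrict_mem measurableSet_Icc
  have hμae : ∀ᵐ t ∂μ, t ∈ Icc T₀ T := ae_restrict_mem measurableSet_Icc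
  -- bounds on windows
  have hwin : ∀ {g : ℝ → ℂ}, Continuous g → ∀ t, ∃ K, ∀ᵐ x ∂ν, ‖g (t + x)‖ ≤ K := by
    intro g hg t
    obtain ⟨K, hK⟩ := isCompact_Icc.exists_bound_of_continuousOn (s := Icc (-H) H)
      (f := fun x => g (t + x)) (hg.comp (continuous_const.add continuous_id)).continuousOn
    exact ⟨K, by filter_upwards [hνae] with x hx using hK x hx⟩
  have hsm : ∀ {g : ℝ → ℂ}, Continuous g → ∀ t, AEStronglyMeasurable (fun x => g (t + x)) ν :=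
    fun {g} hg t => (hg.comp (continuous_const.add continuous_id)).aestronglyMeasurable
  -- (h1) as lintegral
  have h1c : ∀ j, ∀ Ψ, TEL_Bd G Ψ → ∫⁻ x, ‖∫ t, Ψ t * (f j (t + x) - l j (t + x)) ∂μ‖ₑ ^ 2 ∂ν ≤
      ENNReal.ofReal (M ^ 2) * (C * ∫⁻ t, ‖Ψ t‖ₑ ^ 2 ∂μ) := by
    intro j Ψ hΨ
    obtain ⟨K, hK⟩ := hΨ.bdd
    have hgc : Continuous fun x => f j x - l j x := (hf j).sub (hl j)
    obtain ⟨L, hL⟩ := isCompact_Icc.exists_bound_of_continuousOn (s := Icc (T₀ - H) (T + H))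
      hgc.continuousOn
    have hfin := (h1 j).2 Ψ hΨ.meas hΨ.bdd
    have hφm : Measurable fun x => ∫ t, Ψ t * (f j (t + x) - l j (t + x)) ∂μ := by
      have : Measurable (Function.uncurry fun (x : ℝ) (t : ℝ) =>
          Ψ t * (f j (t + x) - l j (t + x))) :=
        (hΨ.meas.comp measurable_snd).mul
          (((hfm j).comp (measurable_snd.add measurable_fst)).sub
          ((hlm j).comp (measurable_snd.add measurable_fst)))
      exact (this.stronglyMeasurable.integral_prod_right).measurable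
    have hφb : ∀ᵐ x ∂ν, ‖∫ t, Ψ t * (f j (t + x) - l j (t + x)) ∂μ‖ ≤
        |K| * |L| * μ.real univ := by
      filter_upwards [hνae] with x hx
      refine norm_integral_le_of_norm_le_const ?_
      filter_upwards [hμae] with t ht
      rw [norm_mul]
      refine mul_le_mul ((hK t).trans (le_abs_self _)) ?_ (norm_nonneg _) (abs_nonneg _)
      exact (hL (t + x) ⟨by linarith [ht.1, hx.1], by linarith [ht.2, hx.2]⟩).trans
        (le_abs_self _)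
    rw [TEL_lint_sq hφm.aestronglyMeasurable hφb,
      TEL_lint_sq hΨ.meas.aestronglyMeasurable (Eventually.of_forall hK), hC,
      ← ENNReal.ofReal_mul (by positivity), ← ENNReal.ofReal_mul (by positivity)]
    refine ENNReal.ofReal_le_ofReal ?_
    rw [hνi, hμi'] at hfin
    simp only [hμi] at hfin
    refine hfin.trans (le_of_eq (by ring))
  have h3c : ∀ {g : ℝ → ℂ}, Continuous g → ∀ t,
      ∫ u in (-H)..H, ‖g (t + u)‖ ^ 2 ≤ 2 * H * D ^ 2 →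
      ∫⁻ x, ‖g (t + x)‖ₑ ^ 2 ∂ν ≤ ENNReal.ofReal (D ^ 2) * C := by
    intro g hg t h
    obtain ⟨K, hK⟩ := hwin hg t
    rw [TEL_lint_sq (hsm hg t) hK, hC, ← ENNReal.ofReal_mul (by positivity)]
    refine ENNReal.ofReal_le_ofReal ?_
    rw [hνi] at h
    linarith
  -- the test function
  let Ψ : ℝ → ℂ := G.indicator Φ
  obtain ⟨L, hL⟩ := isCompact_Icc.exists_bound_of_continuousOn (s := Icc T₀ T) hΦ.continuousOn
  have hΨK : ∀ t, ‖Ψ t‖ ≤ |L| := by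
    intro t
    by_cases ht : t ∈ G
    · simp only [Ψ, ht, Set.indicator_of_mem]
      exact (hL t (hGI ht)).trans (le_abs_self _)
    · simp [Ψ, ht]
  have hΨ : TEL_Bd G Ψ := ⟨hΦ.measurable.indicator hG, ⟨|L|, hΨK⟩, fun t ht => by simp [Ψ, ht]⟩
  have hcl := TEL_claim hGI μ ν hM hD C k f l hf hl h1c
    (fun j t ht => h3c (hf j) t (h3 j t ht)) (fun j t ht => h3c (hl j) t (h3' j t ht)) Ψ hΨ
  have hPm : Measurable fun p : (Fin k → ℝ) × ℝ =>
      (∏ j, f j (p.2 + p.1 j) - ∏ j, l j (p.2 + p.1 j)) :=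
    (Finset.measurable_prod _ fun j _ => (hfm j).comp
        (measurable_snd.add ((measurable_pi_apply j).comp measurable_fst))).sub
        (Finset.measurable_prod _ fun j _ => (hlm j).comp
        (measurable_snd.add ((measurable_pi_apply j).comp measurable_fst)))
  have hpiu : (Measure.pi fun _ : Fin k => ν) univ = C ^ k := by
    rw [Measure.pi_univ]; simp [hνu]
  have hΨN : ∫⁻ t, ‖Ψ t‖ₑ ^ 2 ∂μ ≤ ENNReal.ofReal (y ^ 2) := by
    rw [TEL_lint_sq hΨ.meas.aestronglyMeasurable (Eventually.of_forall hΨK)]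
    refine ENNReal.ofReal_le_ofReal (le_trans ?_ hΦy)
    rw [hμi']
    refine integral_mono_of_nonneg (Eventually.of_forall fun t => by positivity) ?_
      (Eventually.of_forall fun t => ?_)
    · rw [hμ]
      exact (hΦ.norm.pow 2).continuousOn.integrableOn_Icc
    · by_cases ht : t ∈ G
      · simp [Ψ, ht]
      · simp only [Ψ, ht, not_false_eq_true, Set.indicator_of_notMem, norm_zero]
        have := sq_nonneg ‖Φ t‖
        simpa using this
  have hI1 : ∫⁻ u, ‖∫ t, Ψ t * (∏ j, f j (t + u j) - ∏ j, l j (t + u j)) ∂μ‖ₑ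
      ∂(Measure.pi fun _ : Fin k => ν) ≤
      ENNReal.ofReal (k * M * D ^ (k - 1)) * (C ^ k * ENNReal.ofReal y) := by
    rw [← hpiu]
    refine TEL_cs ?_ (by positivity) hy ?_
    · exact (TEL_meas_int μ (F := fun (u : Fin k → ℝ) t =>
        Ψ t * (∏ j, f j (t + u j) - ∏ j, l j (t + u j)))
        ((hΨ.meas.comp measurable_snd).mul hPm)).aemeasurable
    · refine hcl.trans ?_
      rw [hpiu]
      gcongr
  have hGe : ∀ u : Fin k → ℝ, ∫ t in G, Φ t * (∏ j, f j (t + u j) - ∏ j, l j (t + u j)) =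
      ∫ t, Ψ t * (∏ j, f j (t + u j) - ∏ j, l j (t + u j)) ∂μ := by
    intro u
    have e1 : (fun t => Ψ t * (∏ j, f j (t + u j) - ∏ j, l j (t + u j))) =
        G.indicator (fun t => Φ t * (∏ j, f j (t + u j) - ∏ j, l j (t + u j))) := by
      funext t
      by_cases ht : t ∈ G
      · simp [Ψ, ht]
      · simp [Ψ, ht]
    rw [e1, hμ, setIntegral_indicator hG, Set.inter_eq_right.2 hGI]
  have hmeasL : AEStronglyMeasurable (fun u : Fin k → ℝ =>
      ∫ t, Ψ t * (∏ j, f j (t + u j) - ∏ j, l j (t + u j)) ∂μ)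
      (Measure.pi fun _ : Fin k => ν) :=
    (((hΨ.meas.comp measurable_snd).mul hPm).stronglyMeasurable.integral_prod_right
      (f := fun (u : Fin k → ℝ) t =>
        Ψ t * (∏ j, f j (t + u j) - ∏ j, l j (t + u j)))).aestronglyMeasurable
  simp only [hGe]
  rw [hbox, integral_norm_eq_lintegral_enorm hmeasL]
  refine ENNReal.toReal_le_of_le_ofReal (by positivity) ?_
  refine hI1.trans (le_of_eq ?_)
  rw [hC, ← ENNReal.ofReal_pow (by positivity), ← ENNReal.ofReal_mul (by positivity),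
    ← ENNReal.ofReal_mul (by positivity)]
  congr 1
  ring

private lemma tg1_sep {T ε s : ℝ} (hT : 1 ≤ T) (hs : T ^ (-ε) ≤ |s|) :
    1 + 1 / s ^ 2 ≤ 1 + T ^ (2 * ε) ∧ 1 + 1 / |s| ≤ 1 + T ^ ε ∧ s ≠ 0 := by
  have hT0 : 0 < T := by linarith
  have h0 : 0 < T ^ (-ε) := Real.rpow_pos_of_pos hT0 _
  have hs0 : 0 < |s| := lt_of_lt_of_le h0 hs
  have h1 : 1 / |s| ≤ T ^ ε := by
    rw [div_le_iff₀ hs0]
    calc (1 : ℝ) = T ^ ε * T ^ (-ε) := by
          rw [← Real.rpow_add hT0]; simp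
      _ ≤ T ^ ε * |s| := by gcongr
  refine ⟨?_, by linarith, abs_pos.1 hs0⟩
  have h2 : 1 / s ^ 2 = (1 / |s|) ^ 2 := by
    rw [div_pow, one_pow, sq_abs]
  have h3 : (T ^ ε) ^ 2 = T ^ (2 * ε) := by
    rw [← Real.rpow_natCast, ← Real.rpow_mul hT0.le]
    congr 1
    push_cast; ring
  rw [h2, ← h3]
  have h4 : 0 ≤ 1 / |s| := by positivity
  have := pow_le_pow_left₀ h4 h1 2
  linarith

/-- the telescope with the fixed first pair in the test function: `TEL_claim` with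
`Ψ = 1_G pf (a 0) (b 0)`, `exists_avb_pf`, `gl_pf`, `exists_lo_local`, `exists_l2_pf`,
Cauchy-Schwarz -/
theorem exists_tg1 (k : ℕ) (B ε y θ₁ : ℝ) (hB : 0 ≤ B) (hε : 0 < ε) (hε1 : ε ≤ 1 / 100)
    (hy : 0 < y) (hy1 : y ≤ 1 / 40) (hyθ : y ≤ θ₁) :
    ∃ C : ℝ, 1 ≤ C ∧ ∀ T T₀ H d : ℝ, 1 ≤ T → T ^ (7 / 8 : ℝ) ≤ T₀ → T₀ ≤ T →
    T ^ θ₁ / 2 ≤ H → 1 ≤ H → B ≤ H → H ≤ T₀ / 2 → 0 ≤ d →
    ∀ J : ℕ, T ^ y / 2 ≤ 2 ^ J → (2:ℝ) ^ J ≤ T ^ y → (2:ℝ) ^ J ≤ H →
    ∀ G : Set ℝ, MeasurableSet G → G ⊆ Icc T₀ T → Gd T H d G →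
    ∀ a b : Fin (k + 1) → ℝ, (∀ j, |a j| ≤ B) → (∀ j, |b j| ≤ B) →
    (∀ j, T ^ (-ε) ≤ |a j - b j|) →
    ∫ v in box k H, ‖∫ t in G, pf (a 0) (b 0) t * (∏ j : Fin k, pf (a j.succ) (b j.succ) (t + v j) -
      ∏ j : Fin k, lo (a j.succ) (b j.succ) J (t + v j))‖ ≤
      (2 * H) ^ k * (C * T ^ (1 - y / 2 + k * d / 2 + (20 + 6 * k) * ε)) := by
  obtain ⟨C₁, hC₁, h₁⟩ := exists_avb_pf B ε hB hε hε1
  obtain ⟨C₂, hC₂, h₂⟩ := exists_lo_local B ε hB hε
  obtain ⟨C₃, hC₃, h₃⟩ := exists_l2_pf B ε hB hε hε1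
  refine ⟨1 + k * (8 * C₁) * (4 * C₂) ^ (k - 1) * (4 * C₃), ?_, ?_⟩
  · have : 0 ≤ k * (8 * C₁) * (4 * C₂) ^ (k - 1) * (4 * C₃) := by positivity
    linarith
  intro T T₀ H d hT hT₀ hT₀T hHθ hH hBH hHT hd J hJ1 hJ2 hJH G hG hGI hGd a b ha hb hab
  have hT0 : 0 < T := by linarith
  have hH0 : 0 < H := by linarith
  have hTe : 1 ≤ T ^ ε := Real.one_le_rpow hT hε.le
  have hT2e : 1 ≤ T ^ (2 * ε) := Real.one_le_rpow hT (by linarith)
  -- M
  have hTy0 : 0 < T ^ y := Real.rpow_pos_of_pos hT0 _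
  have hhalf : ∀ x : ℝ, 0 < x → T ^ y / 2 ≤ x → x ^ (-(1 / 2) : ℝ) ≤ 2 * T ^ (-y / 2) := by
    intro x hx hxy
    have h1 : x ^ (-(1 / 2) : ℝ) ≤ (T ^ y / 2) ^ (-(1 / 2) : ℝ) :=
      Real.rpow_le_rpow_of_nonpos (by positivity) hxy (by norm_num)
    refine h1.trans ?_
    rw [Real.div_rpow hTy0.le (by norm_num), ← Real.rpow_mul hT0.le]
    have h2 : (2 : ℝ) ^ (-(1 / 2) : ℝ) = ((2 : ℝ) ^ (1 / 2 : ℝ))⁻¹ := by
      rw [← Real.rpow_neg (by norm_num)]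
    have h3 : (2 : ℝ) ^ (1 / 2 : ℝ) ≤ 2 := by
      calc (2 : ℝ) ^ (1 / 2 : ℝ) ≤ (2 : ℝ) ^ (1 : ℝ) :=
            Real.rpow_le_rpow_of_exponent_le (by norm_num) (by norm_num)
        _ = 2 := by norm_num
    rw [h2, div_inv_eq_mul, mul_comm]
    have h4 : y * -(1 / 2) = -y / 2 := by ring
    rw [h4]
    have : 0 ≤ T ^ (-y / 2) := by positivity
    exact mul_le_mul_of_nonneg_right h3 this
  have hJhalf : (2 : ℝ) ^ (-(J : ℝ) / 2) ≤ 2 * T ^ (-y / 2) := by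
    have h1 := hhalf ((2 : ℝ) ^ J) (by positivity) hJ1
    have h2 : ((2 : ℝ) ^ J) ^ (-(1 / 2) : ℝ) = (2 : ℝ) ^ (-(J : ℝ) / 2) := by
      rw [← Real.rpow_natCast, ← Real.rpow_mul (by norm_num)]
      congr 1; ring
    rwa [h2] at h1
  have hHhalf : H ^ (-(1 / 2) : ℝ) ≤ 2 * T ^ (-y / 2) := by
    refine hhalf H hH0 (le_trans ?_ hHθ)
    have := Real.rpow_le_rpow_of_exponent_le hT hyθ
    linarith
  set M : ℝ := 8 * C₁ * T ^ (1 / 2 + 5 * ε - y / 2) with hM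
  have hM0 : 0 ≤ M := by positivity
  have hMj : ∀ j : Fin (k + 1), C₁ * (1 + 1 / (a j - b j) ^ 2) * (T ^ (1 / 2 + 3 * ε) *
        (2 ^ (-(J : ℝ) / 2) + H ^ (-(1 / 2) : ℝ))) ≤ M := by
    intro j
    have hs := (tg1_sep hT (hab j)).1
    calc C₁ * (1 + 1 / (a j - b j) ^ 2) * (T ^ (1 / 2 + 3 * ε) *
        (2 ^ (-(J : ℝ) / 2) + H ^ (-(1 / 2) : ℝ)))
        ≤ C₁ * (2 * T ^ (2 * ε)) * (T ^ (1 / 2 + 3 * ε) *
          (2 * T ^ (-y / 2) + 2 * T ^ (-y / 2))) := by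
          gcongr
          linarith
      _ = 8 * C₁ * (T ^ (2 * ε) * T ^ (1 / 2 + 3 * ε) * T ^ (-y / 2)) := by ring
      _ = M := by
          rw [← Real.rpow_add hT0, ← Real.rpow_add hT0, hM]
          congr 2
          ring
  have hJ40 : (2:ℝ) ^ J ≤ T ^ (1 / 40 : ℝ) :=
    hJ2.trans (Real.rpow_le_rpow_of_exponent_le hT hy1)
  have hJT : (2:ℝ) ^ J ≤ T := by
    refine hJ2.trans ?_
    calc T ^ y ≤ T ^ (1 : ℝ) := Real.rpow_le_rpow_of_exponent_le hT (by linarith)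
      _ = T := Real.rpow_one T
  -- D
  set D2 : ℝ := 4 * C₂ * T ^ (d + 3 * ε) with hD2
  have hD20 : 0 ≤ D2 := by positivity
  have hDsq : √D2 ^ 2 = D2 := Real.sq_sqrt hD20
  -- y
  set Y2 : ℝ := 4 * C₃ * T ^ (1 + 10 * ε) with hY2
  have hY20 : 0 ≤ Y2 := by positivity
  have key := tg1_core (k := k) (H := H) (T₀ := T₀) (T := T) hH0 hT₀T hG hGI
    (f := fun j => pf (a j.succ) (b j.succ)) (l := fun j => lo (a j.succ) (b j.succ) J)
    (fun j => continuous_pf _ _) (fun j => continuous_lo _ _ _) (M := M) (D := √D2) (y := √Y2)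
    hM0 (Real.sqrt_nonneg _) (Real.sqrt_nonneg _)
    (by
      intro j
      have h := h₁ T T₀ H hT hT₀ hT₀T hH hHT (a j.succ) (b j.succ) (ha _) (hb _)
        (sub_ne_zero.1 (tg1_sep hT (hab _)).2.2) J hJ40
      refine ⟨hM0, fun Ψ hΨ hK => (h.2 Ψ hΨ hK).trans ?_⟩
      have h5 := hMj j.succ
      have h6 : 0 ≤ ∫ t in T₀..T, ‖Ψ t‖ ^ 2 :=
        intervalIntegral.integral_nonneg hT₀T fun t _ => by positivity
      have h7 := pow_le_pow_left₀ h.1 h5 2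
      gcongr)
    (by
      intro j t ht
      refine (gl_pf hGd hB hBH (ha _) (hb _) ht).trans ?_
      rw [hDsq, hD2]
      have h5 : T ^ d ≤ T ^ (d + 3 * ε) := Real.rpow_le_rpow_of_exponent_le hT (by linarith)
      have h6 : 0 ≤ T ^ d := by positivity
      have h7 : T ^ d ≤ 2 * (4 * C₂ * T ^ (d + 3 * ε)) := by nlinarith
      calc H * T ^ d ≤ H * (2 * (4 * C₂ * T ^ (d + 3 * ε))) := by gcongr
        _ = _ := by ring)
    (by
      intro j t ht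
      refine (h₂ T H hT hH (a j.succ) (b j.succ) (ha _) (hb _)
        (sub_ne_zero.1 (tg1_sep hT (hab _)).2.2) J hJH hJT t).trans ?_
      rw [hDsq, hD2]
      have hs := (tg1_sep hT (hab j.succ)).2.1
      have h5 : (1 + 1 / |a j.succ - b j.succ|) ^ 2 ≤ (2 * T ^ ε) ^ 2 := by
        apply pow_le_pow_left₀ (by positivity)
        linarith
      calc C₂ * (1 + 1 / |a j.succ - b j.succ|) ^ 2 * T ^ ε * (2 * H)
          ≤ C₂ * (2 * T ^ ε) ^ 2 * T ^ ε * (2 * H) := by gcongr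
        _ = 2 * H * (4 * C₂ * (T ^ ε) ^ 3) := by ring
        _ ≤ 2 * H * (4 * C₂ * T ^ (d + 3 * ε)) := by
            have h6 : (T ^ ε) ^ 3 ≤ T ^ (d + 3 * ε) := by
              rw [← Real.rpow_natCast, ← Real.rpow_mul hT0.le]
              refine Real.rpow_le_rpow_of_exponent_le hT ?_
              push_cast; linarith
            gcongr)
    (Φ := pf (a 0) (b 0)) (continuous_pf _ _)
    (by
      rw [Real.sq_sqrt hY20]
      have h := h₃ T hT (a 0) (b 0) (ha _) (hb _) (sub_ne_zero.1 (tg1_sep hT (hab _)).2.2)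
      have h5 : ∫ t in T₀..T, ‖pf (a 0) (b 0) t‖ ^ 2 ≤
          ∫ x in (T ^ (7 / 8 : ℝ) / 2)..(3 * T), ‖pf (a 0) (b 0) x‖ ^ 2 := by
        refine intervalIntegral.integral_mono_interval ?_ hT₀T (by linarith)
          (Eventually.of_forall fun t => by positivity)
          (((continuous_pf _ _).norm.pow 2).intervalIntegrable _ _)
        have : 0 ≤ T ^ (7 / 8 : ℝ) := by positivity
        linarith
      refine h5.trans (h.trans ?_)
      have hs := (tg1_sep hT (hab 0)).1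
      have h6 : (1 + 1 / (a 0 - b 0) ^ 2) ^ 2 ≤ (2 * T ^ (2 * ε)) ^ 2 := by
        apply pow_le_pow_left₀ (by positivity)
        linarith
      calc C₃ * (1 + 1 / (a 0 - b 0) ^ 2) ^ 2 * T ^ (1 + 6 * ε)
          ≤ C₃ * (2 * T ^ (2 * ε)) ^ 2 * T ^ (1 + 6 * ε) := by gcongr
        _ = 4 * C₃ * (T ^ (2 * ε) * T ^ (2 * ε) * T ^ (1 + 6 * ε)) := by ring
        _ = Y2 := by
            rw [← Real.rpow_add hT0, ← Real.rpow_add hT0, hY2]
            congr 2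
            ring)
  refine key.trans ?_
  refine mul_le_mul_of_nonneg_left ?_ (by positivity)
  -- sizes
  have hD : √D2 ≤ 4 * C₂ * T ^ ((d + 3 * ε) / 2) := by
    rw [Real.sqrt_le_left (by positivity), hD2, mul_pow, ← Real.rpow_natCast (T ^ _),
      ← Real.rpow_mul hT0.le]
    have e : (d + 3 * ε) / 2 * ((2 : ℕ) : ℝ) = d + 3 * ε := by push_cast; ring
    rw [e]
    have : 4 * C₂ ≤ (4 * C₂) ^ 2 := by nlinarith
    gcongr
  have hY : √Y2 ≤ 4 * C₃ * T ^ (1 / 2 + 5 * ε) := by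
    rw [Real.sqrt_le_left (by positivity), hY2, mul_pow, ← Real.rpow_natCast (T ^ _),
      ← Real.rpow_mul hT0.le]
    have e : (1 / 2 + 5 * ε) * ((2 : ℕ) : ℝ) = 1 + 10 * ε := by push_cast; ring
    rw [e]
    have : 4 * C₃ ≤ (4 * C₃) ^ 2 := by nlinarith
    gcongr
  calc k * M * √D2 ^ (k - 1) * √Y2
      ≤ k * M * (4 * C₂ * T ^ ((d + 3 * ε) / 2)) ^ (k - 1) * (4 * C₃ * T ^ (1 / 2 + 5 * ε)) := by
        gcongr
    _ = k * (8 * C₁) * (4 * C₂) ^ (k - 1) * (4 * C₃) *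
        (T ^ (1 / 2 + 5 * ε - y / 2) * (T ^ ((d + 3 * ε) / 2)) ^ (k - 1) *
          T ^ (1 / 2 + 5 * ε)) := by
        rw [hM, mul_pow]; ring
    _ ≤ k * (8 * C₁) * (4 * C₂) ^ (k - 1) * (4 * C₃) *
        T ^ (1 - y / 2 + k * d / 2 + (20 + 6 * k) * ε) := by
        have h9 : T ^ (1 / 2 + 5 * ε - y / 2) * (T ^ ((d + 3 * ε) / 2)) ^ (k - 1) *
            T ^ (1 / 2 + 5 * ε) ≤ T ^ (1 - y / 2 + k * d / 2 + (20 + 6 * k) * ε) := by
          rw [← Real.rpow_natCast (T ^ ((d + 3 * ε) / 2)), ← Real.rpow_mul hT0.le,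
            ← Real.rpow_add hT0, ← Real.rpow_add hT0]
          refine Real.rpow_le_rpow_of_exponent_le hT ?_
          have hk1 : ((k - 1 : ℕ) : ℝ) ≤ k := by exact_mod_cast Nat.sub_le k 1
          have hk0 : (0 : ℝ) ≤ k := Nat.cast_nonneg k
          have h10 : (d + 3 * ε) / 2 * ((k - 1 : ℕ) : ℝ) ≤ (d + 3 * ε) / 2 * k := by gcongr
          have h11 : 0 ≤ (k : ℝ) * ε := by positivity
          nlinarith
        gcongr
    _ ≤ _ := by
        have : 0 ≤ T ^ (1 - y / 2 + k * d / 2 + (20 + 6 * k) * ε) := by positivity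
        nlinarith

end Pool.Agent.AAS
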