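import Pool.Agent.AAS.DefsH
import Pool.Agent.AAS.L2F
import Pool.Agent.AAS.LOL
import Pool.Agent.AAS.CTS
import Pool.Agent.AAS.TEL

set_option autoImplicit false

namespace Pool.Agent.AAS

open Complex Finset MeasureTheory Filter Topology Set
open Pool.Agent.H26
open scoped ENNReal

/-- Tonelli and Cauchy-Schwarz for a product of translates against a fixed function. -/
theorem tg2_core {k : ℕ} {H : ℝ} (hH : 0 < H) {S : Set ℝ} (hSm : MeasurableSet S) {A B : ℝ}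
    (hS : S ⊆ Icc A B) {g : ℝ → ℂ} (hg : Continuous g) {l : Fin k → ℝ → ℂ}
    (hl : ∀ j, Continuous (l j)) {D Y : ℝ} (hD : 0 ≤ D) (hY : 0 ≤ Y)
    (h1 : ∀ j, ∀ t, ∫ u in (-H)..H, ‖l j (t + u)‖ ^ 2 ≤ 2 * H * D ^ 2)
    (h2 : ∫ t in S, ‖g t‖ ^ 2 ≤ Y) :
    ∫ v in box k H, ∫ t in S, ‖g t‖ * ∏ j, ‖l j (t + v j)‖ ≤
      (2 * H) ^ k * (D ^ k * (Y ^ (1 / 2 : ℝ) * (volume S).toReal ^ (1 / 2 : ℝ))) := by
  have hHH : -H ≤ H := by linarith
  set μ : Measure ℝ := volume.restrict S with hμ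
  set ν : Measure ℝ := volume.restrict (Icc (-H) H) with hν
  set C : ℝ≥0∞ := ENNReal.ofReal (2 * H) with hC
  have hSfin : volume S < ⊤ := lt_of_le_of_lt (measure_mono hS) (by simp)
  have : IsFiniteMeasure μ := ⟨by rw [hμ, Measure.restrict_apply_univ]; exact hSfin⟩
  have : IsFiniteMeasure ν := by rw [hν]; infer_instance
  have hνu : ν univ = C := by
    rw [hν, Measure.restrict_apply_univ, Real.volume_Icc, hC]; congr 1; ring
  have hμu : μ univ = ENNReal.ofReal (volume S).toReal := by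
    rw [hμ, Measure.restrict_apply_univ, ENNReal.ofReal_toReal hSfin.ne]
  have hbox : volume.restrict (box k H) = Measure.pi fun _ : Fin k => ν := by
    rw [box, volume_pi, Measure.restrict_pi_pi]
  have hlm : ∀ j, Measurable (l j) := fun j => (hl j).measurable
  have hνi : ∀ f : ℝ → ℝ, ∫ u in (-H)..H, f u = ∫ u, f u ∂ν := fun f => by
    rw [intervalIntegral.integral_of_le hHH, hν, integral_Icc_eq_integral_Ioc]
  have hνae : ∀ᵐ x ∂ν, x ∈ Icc (-H) H := ae_restrict_mem measurableSet_Icc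
  have hμae : ∀ᵐ t ∂μ, t ∈ S := ae_restrict_mem hSm
  -- the inner integrals
  have h1c : ∀ j, ∀ t, ∫⁻ x, ‖l j (t + x)‖ₑ ∂ν ≤ ENNReal.ofReal D * C := by
    intro j t
    obtain ⟨K, hK⟩ := isCompact_Icc.exists_bound_of_continuousOn (s := Icc (-H) H)
      (f := fun x => l j (t + x)) ((hl j).comp (continuous_const.add continuous_id)).continuousOn
    have hcont : Continuous fun x => l j (t + x) :=
      (hl j).comp (continuous_const.add continuous_id)
    have e := TEL_lint_sq (ν := ν) hcont.aestronglyMeasurable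
      (K := K) (by filter_upwards [hνae] with x hx using hK x hx)
    have h := TEL_cs (μ := ν) (F := fun x => ‖l j (t + x)‖ₑ) (x := D) (y := 1)
      hcont.aestronglyMeasurable.enorm hD zero_le_one (by
        rw [e, hνu, hC]
        simp only [one_pow, ENNReal.ofReal_one, mul_one]
        rw [← ENNReal.ofReal_mul (by positivity)]
        refine ENNReal.ofReal_le_ofReal ?_
        rw [← hνi]
        exact (h1 j t).trans (le_of_eq (by ring)))
    simpa [hνu] using h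
  -- the outer integral
  have h2c : ∫⁻ t, ‖g t‖ₑ ∂μ ≤ ENNReal.ofReal (Y ^ (1 / 2 : ℝ) * (volume S).toReal ^ (1 / 2 : ℝ)) := by
    obtain ⟨K, hK⟩ := isCompact_Icc.exists_bound_of_continuousOn (s := Icc A B) hg.continuousOn
    have e := TEL_lint_sq (ν := μ) hg.aestronglyMeasurable
      (K := K) (by filter_upwards [hμae] with x hx using hK x (hS hx))
    have h := ENNReal.lintegral_mul_le_Lp_mul_Lq μ Real.HolderConjugate.two_two
      hg.aestronglyMeasurable.enorm (g := fun _ => 1) aemeasurable_const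
    simp only [Pi.mul_apply, mul_one, ENNReal.rpow_two, one_pow, lintegral_one] at h
    refine h.trans ?_
    rw [e, hμu, ENNReal.ofReal_mul (by positivity), ← ENNReal.ofReal_rpow_of_nonneg hY (by norm_num),
      ← ENNReal.ofReal_rpow_of_nonneg ENNReal.toReal_nonneg (by norm_num)]
    gcongr
  -- Tonelli
  have hFm : Measurable fun p : (Fin k → ℝ) × ℝ =>
      ‖g p.2‖ₑ * ∏ j, ‖l j (p.2 + p.1 j)‖ₑ :=
    (hg.measurable.comp measurable_snd).enorm.mul
      (Finset.measurable_prod _ fun j _ => ((hlm j).comp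
        (measurable_snd.add ((measurable_pi_apply j).comp measurable_fst))).enorm)
  have hT : ∫⁻ v, ∫⁻ t, ‖g t‖ₑ * ∏ j, ‖l j (t + v j)‖ₑ ∂μ ∂(Measure.pi fun _ : Fin k => ν) ≤
      ENNReal.ofReal ((2 * H) ^ k * (D ^ k * (Y ^ (1 / 2 : ℝ) *
        (volume S).toReal ^ (1 / 2 : ℝ)))) := by
    rw [lintegral_lintegral_swap hFm.aemeasurable]
    have hin : ∀ t, ∫⁻ v, ‖g t‖ₑ * ∏ j, ‖l j (t + v j)‖ₑ ∂(Measure.pi fun _ : Fin k => ν) ≤
        ‖g t‖ₑ * (ENNReal.ofReal D * C) ^ k := by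
      intro t
      rw [lintegral_const_mul' _ _ (by simp)]
      gcongr
      rw [TEL_prod ν (fun j x => ‖l j (t + x)‖ₑ) (fun j =>
        ((hlm j).comp (measurable_const.add measurable_id)).enorm)]
      refine (Finset.prod_le_prod' fun j _ => h1c j t).trans ?_
      simp
    refine (lintegral_mono hin).trans ?_
    rw [lintegral_mul_const' _ _ (by
      rw [hC]
      exact ENNReal.pow_ne_top (ENNReal.mul_ne_top ENNReal.ofReal_ne_top ENNReal.ofReal_ne_top))]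
    refine (mul_le_mul' h2c le_rfl).trans (le_of_eq ?_)
    rw [hC, ← ENNReal.ofReal_mul hD, ← ENNReal.ofReal_pow (by positivity),
      ← ENNReal.ofReal_mul (by positivity)]
    congr 1
    rw [mul_pow]
    ring
  rw [hbox]
  refine (Real.le_norm_self _).trans ?_
  rw [← toReal_enorm]
  refine ENNReal.toReal_le_of_le_ofReal (by positivity) ?_
  refine (enorm_integral_le_lintegral_enorm _).trans (le_trans ?_ hT)
  refine lintegral_mono fun v => (enorm_integral_le_lintegral_enorm _).trans ?_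
  refine lintegral_mono fun t => le_of_eq ?_
  simp only
  rw [enorm_mul, enorm_norm]
  congr 1
  rw [← TEL_enorm_prod]
  rw [← enorm_norm (∏ j, l j (t + v j)), norm_prod]

private lemma tg2_sep {T ε s : ℝ} (hT : 1 ≤ T) (hs : T ^ (-ε) ≤ |s|) :
    1 + 1 / s ^ 2 ≤ 1 + T ^ (2 * ε) ∧ 1 + 1 / |s| ≤ 1 + T ^ ε ∧ s ≠ 0 := by
  have hT0 : 0 < T := by linarith
  have h0 : 0 < T ^ (-ε) := Real.rpow_pos_of_pos hT0 _
  have hs0 : 0 < |s| := lt_of_lt_of_le h0 hs
  have h1 : 1 / |s| ≤ T ^ ε := by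
    rw [div_le_iff₀ hs0]
    calc (1 : ℝ) = T ^ ε * T ^ (-ε) := by
          rw [← Real.rpow_add hT0]; simp
      _ ≤ T ^ ε * |s| := by gcongr
  refine ⟨?_, by linarith, abs_pos.1 hs0⟩
  have h2 : 1 / s ^ 2 = (1 / |s|) ^ 2 := by
    rw [div_pow, one_pow, sq_abs]
  have h3 : (T ^ ε) ^ 2 = T ^ (2 * ε) := by
    rw [← Real.rpow_natCast, ← Real.rpow_mul hT0.le]
    congr 1
    push_cast; ring
  rw [h2, ← h3]
  have h4 : 0 ≤ 1 / |s| := by positivity
  have := pow_le_pow_left₀ h4 h1 2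
  linarith

/-- the low parts on a small set -/
theorem exists_tg2 (k : ℕ) (B ε : ℝ) (hB : 0 ≤ B) (hε : 0 < ε) (hε1 : ε ≤ 1 / 100) :
    ∃ C : ℝ, 1 ≤ C ∧ ∀ T H : ℝ, 1 ≤ T → 1 ≤ H → H ≤ T →
    ∀ J : ℕ, (2:ℝ) ^ J ≤ H → (2:ℝ) ^ J ≤ T →
    ∀ S : Set ℝ, MeasurableSet S → S ⊆ Icc (T ^ (7 / 8 : ℝ)) T →
    ∀ a b : Fin (k + 1) → ℝ, (∀ j, |a j| ≤ B) → (∀ j, |b j| ≤ B) →
    (∀ j, T ^ (-ε) ≤ |a j - b j|) →
    ∫ v in box k H, ∫ t in S, ‖pf (a 0) (b 0) t‖ *
      ∏ j : Fin k, ‖lo (a j.succ) (b j.succ) J (t + v j)‖ ≤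
      (2 * H) ^ k * (C * T ^ ((10 + 3 * k) * ε) * (T * (volume S).toReal) ^ (1 / 2 : ℝ)) := by
  obtain ⟨C₂, hC₂, h₂⟩ := exists_lo_local B ε hB hε
  obtain ⟨C₃, hC₃, h₃⟩ := exists_l2_pf B ε hB hε hε1
  refine ⟨(4 * C₂) ^ k * (4 * C₃), ?_, ?_⟩
  · have : 1 ≤ (4 * C₂) ^ k := one_le_pow₀ (by linarith)
    nlinarith
  intro T H hT hH hHT J hJH hJT S hSm hS a b ha hb hab
  have hT0 : 0 < T := by linarith
  have hH0 : 0 < H := by linarith
  have hTe : 1 ≤ T ^ ε := Real.one_le_rpow hT hε.le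
  have hT2e : 1 ≤ T ^ (2 * ε) := Real.one_le_rpow hT (by linarith)
  have h78 : T ^ (7 / 8 : ℝ) ≤ T := by
    calc T ^ (7 / 8 : ℝ) ≤ T ^ (1 : ℝ) := Real.rpow_le_rpow_of_exponent_le hT (by norm_num)
      _ = T := Real.rpow_one T
  have h780 : 0 ≤ T ^ (7 / 8 : ℝ) := by positivity
  set D2 : ℝ := 4 * C₂ * T ^ (3 * ε) with hD2
  have hT3 : 1 ≤ T ^ (3 * ε) := Real.one_le_rpow hT (by linarith)
  have hT10 : 1 ≤ T ^ (10 * ε) := Real.one_le_rpow hT (by linarith)
  have hD21 : 1 ≤ D2 := by rw [hD2]; nlinarith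
  have hD20 : 0 ≤ D2 := by linarith
  have hDsq : √D2 ^ 2 = D2 := Real.sq_sqrt hD20
  have hDle : √D2 ≤ D2 := by
    rw [Real.sqrt_le_left (by linarith)]
    nlinarith
  set Y2 : ℝ := 4 * C₃ * T ^ (10 * ε) with hY2
  have hY21 : 1 ≤ Y2 := by rw [hY2]; nlinarith
  have key := tg2_core (k := k) (H := H) hH0 hSm hS
    (g := pf (a 0) (b 0)) (continuous_pf _ _)
    (l := fun j => lo (a j.succ) (b j.succ) J) (fun j => continuous_lo _ _ _) (D := √D2)
    (Y := Y2 * T) (Real.sqrt_nonneg _) (by positivity)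
    (by
      intro j t
      refine (h₂ T H hT hH (a j.succ) (b j.succ) (ha _) (hb _)
        (sub_ne_zero.1 (tg2_sep hT (hab _)).2.2) J hJH hJT t).trans ?_
      rw [hDsq, hD2]
      have hs := (tg2_sep hT (hab j.succ)).2.1
      have h5 : (1 + 1 / |a j.succ - b j.succ|) ^ 2 ≤ (2 * T ^ ε) ^ 2 := by
        apply pow_le_pow_left₀ (by positivity)
        linarith
      calc C₂ * (1 + 1 / |a j.succ - b j.succ|) ^ 2 * T ^ ε * (2 * H)
          ≤ C₂ * (2 * T ^ ε) ^ 2 * T ^ ε * (2 * H) := by gcongr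
        _ = 2 * H * (4 * C₂ * (T ^ ε) ^ 3) := by ring
        _ = 2 * H * (4 * C₂ * T ^ (3 * ε)) := by
            have h6 : (T ^ ε) ^ 3 = T ^ (3 * ε) := by
              rw [← Real.rpow_natCast, ← Real.rpow_mul hT0.le]
              congr 1
              push_cast; ring
            rw [h6])
    (by
      have h := h₃ T hT (a 0) (b 0) (ha _) (hb _) (sub_ne_zero.1 (tg2_sep hT (hab _)).2.2)
      have h5 : ∫ t in S, ‖pf (a 0) (b 0) t‖ ^ 2 ≤
          ∫ x in (T ^ (7 / 8 : ℝ) / 2)..(3 * T), ‖pf (a 0) (b 0) x‖ ^ 2 := by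
        rw [intervalIntegral.integral_of_le (by linarith), ← integral_Icc_eq_integral_Ioc]
        have hSI : S ≤ Icc (T ^ (7 / 8 : ℝ) / 2) (3 * T) := fun t ht =>
          ⟨by linarith [(hS ht).1], by linarith [(hS ht).2]⟩
        refine setIntegral_mono_set ?_ (Eventually.of_forall fun t => by positivity)
          hSI.eventuallyLE
        exact ((continuous_pf _ _).norm.pow 2).continuousOn.integrableOn_Icc
      refine h5.trans (h.trans ?_)
      have hs := (tg2_sep hT (hab 0)).1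
      have h6 : (1 + 1 / (a 0 - b 0) ^ 2) ^ 2 ≤ (2 * T ^ (2 * ε)) ^ 2 := by
        apply pow_le_pow_left₀ (by positivity)
        linarith
      calc C₃ * (1 + 1 / (a 0 - b 0) ^ 2) ^ 2 * T ^ (1 + 6 * ε)
          ≤ C₃ * (2 * T ^ (2 * ε)) ^ 2 * T ^ (1 + 6 * ε) := by gcongr
        _ = 4 * C₃ * (T ^ (2 * ε) * T ^ (2 * ε) * T ^ (1 + 6 * ε)) := by ring
        _ = 4 * C₃ * (T ^ (10 * ε) * T ^ (1 : ℝ)) := by
            rw [← Real.rpow_add hT0, ← Real.rpow_add hT0, ← Real.rpow_add hT0]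
            congr 2
            ring
        _ = Y2 * T := by rw [Real.rpow_one, hY2]; ring)
  refine key.trans ?_
  have hv : 0 ≤ (volume S).toReal := ENNReal.toReal_nonneg
  have hYT : (Y2 * T) ^ (1 / 2 : ℝ) ≤ Y2 * T ^ (1 / 2 : ℝ) := by
    rw [Real.mul_rpow (by linarith) hT0.le]
    gcongr
    calc Y2 ^ (1 / 2 : ℝ) ≤ Y2 ^ (1 : ℝ) := Real.rpow_le_rpow_of_exponent_le hY21 (by norm_num)
      _ = Y2 := Real.rpow_one _
  have hTk : T ^ ((10 + 3 * k) * ε) = (T ^ (3 * ε)) ^ k * T ^ (10 * ε) := by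
    rw [← Real.rpow_natCast, ← Real.rpow_mul hT0.le, ← Real.rpow_add hT0]
    congr 1
    ring
  calc (2 * H) ^ k * (√D2 ^ k * ((Y2 * T) ^ (1 / 2 : ℝ) * (volume S).toReal ^ (1 / 2 : ℝ)))
      ≤ (2 * H) ^ k * (D2 ^ k * (Y2 * T ^ (1 / 2 : ℝ) * (volume S).toReal ^ (1 / 2 : ℝ))) := by
        gcongr
    _ = (2 * H) ^ k * ((4 * C₂) ^ k * (4 * C₃) * T ^ ((10 + 3 * k) * ε) *
        (T * (volume S).toReal) ^ (1 / 2 : ℝ)) := by
        rw [hTk, Real.mul_rpow hT0.le hv, hD2, hY2, mul_pow]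
        ring

end Pool.Agent.AAS
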