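import Pool.Agent.AAS.DefsH
import Pool.Agent.AAS.AVF
import Pool.Agent.AAS.L2F
import Pool.Agent.AAS.LOL
import Pool.Agent.AAS.CTS
import Pool.Agent.AAS.SHR

set_option autoImplicit false

namespace Pool.Agent.AAS

open Complex Finset MeasureTheory Filter Topology Set
open Pool.Agent.H26

private lemma tg3_box_compact (k : ℕ) (H : ℝ) : IsCompact (box k H) :=
  isCompact_univ_pi fun _ => isCompact_Icc

private lemma tg3_vol (k : ℕ) {H : ℝ} (hH : 0 ≤ H) :
    volume.real (box k H) = (2 * H) ^ k := by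
  rw [box, Measure.real, volume_pi_pi]
  simp only [Real.volume_Icc, Finset.prod_const, Finset.card_univ, Fintype.card_fin]
  rw [ENNReal.toReal_pow, ENNReal.toReal_ofReal (by linarith)]
  congr 1
  ring

private lemma tg3_int {k : ℕ} {F : (Fin k → ℝ) → ℝ → ℝ} (hF : Continuous (Function.uncurry F))
    (R a b : ℝ) : Integrable (Function.uncurry F)
      ((volume.restrict (box k R)).prod (volume.restrict (Ioc a b))) := by
  rw [Measure.prod_restrict]
  exact (hF.continuousOn.integrableOn_compact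
    ((tg3_box_compact k R).prod isCompact_Icc)).mono_set
    (Set.prod_mono Set.Subset.rfl Ioc_subset_Icc_self)

private lemma tg3_swap {k : ℕ} {F : (Fin k → ℝ) → ℝ → ℝ} (hF : Continuous (Function.uncurry F))
    (R a b : ℝ) (hab : a ≤ b) :
    ∫ v in box k R, ∫ s in a..b, F v s = ∫ s in a..b, ∫ v in box k R, F v s := by
  simp only [intervalIntegral.integral_of_le hab]
  exact integral_integral_swap (tg3_int hF R a b)

private lemma tg3_amgm {l x : ℝ} (hl : 0 < l) : x ≤ l / 2 * x ^ 2 + 1 / (2 * l) := by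
  have h : l / 2 * x ^ 2 + 1 / (2 * l) - x = (l * x - 1) ^ 2 / (2 * l) := by
    field_simp
    ring
  have h2 : 0 ≤ (l * x - 1) ^ 2 / (2 * l) := by positivity
  linarith

private lemma tg3_box_l1 {k : ℕ} {f : (Fin k → ℝ) → ℝ} (hf : Continuous f) {R l : ℝ}
    (hR : 0 ≤ R) (hl : 0 < l) :
    ∫ v in box k R, f v ≤ l / 2 * (∫ v in box k R, f v ^ 2) + (2 * R) ^ k * (1 / (2 * l)) := by
  have hc := tg3_box_compact k R
  have i1 : IntegrableOn f (box k R) := hf.continuousOn.integrableOn_compact hc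
  have i2 : IntegrableOn (fun v => f v ^ 2) (box k R) :=
    (hf.pow 2).continuousOn.integrableOn_compact hc
  have i3 : IntegrableOn (fun _ : Fin k → ℝ => 1 / (2 * l)) (box k R) :=
    continuous_const.continuousOn.integrableOn_compact hc
  have h1 : ∫ v in box k R, f v ≤ ∫ v in box k R, (l / 2 * f v ^ 2 + 1 / (2 * l)) :=
    integral_mono i1 ((i2.const_mul _).add i3) fun v => tg3_amgm hl
  rw [integral_add (i2.const_mul _) i3, integral_const_mul, setIntegral_const,
    tg3_vol k hR, smul_eq_mul] at h1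
  exact h1

private lemma tg3_iv_l1 {f : ℝ → ℝ} (hf : Continuous f) {a b l : ℝ} (hab : a ≤ b) (hl : 0 < l) :
    ∫ s in a..b, f s ≤ l / 2 * (∫ s in a..b, f s ^ 2) + (b - a) * (1 / (2 * l)) := by
  have i2 : IntervalIntegrable (fun s => l / 2 * f s ^ 2) volume a b :=
    (continuous_const.mul (hf.pow 2)).intervalIntegrable _ _
  have i3 : IntervalIntegrable (fun _ : ℝ => 1 / (2 * l)) volume a b :=
    continuous_const.intervalIntegrable _ _
  have h1 : ∫ s in a..b, f s ≤ ∫ s in a..b, (l / 2 * f s ^ 2 + 1 / (2 * l)) :=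
    intervalIntegral.integral_mono_on hab (hf.intervalIntegrable _ _) (i2.add i3)
      fun s _ => tg3_amgm hl
  rw [intervalIntegral.integral_add i2 i3, intervalIntegral.integral_const_mul,
    intervalIntegral.integral_const, smul_eq_mul] at h1
  exact h1

private lemma tg3_av {g Λ : ℝ → ℂ} (hΛ : Continuous Λ) {H T₀ T M : ℝ} (hT : T₀ ≤ T)
    (hav : AvB H T₀ T g M) :
    ∫ u in (-H)..H, ‖∫ t in T₀..T, Λ t * g (t + u)‖ ^ 2 ≤
      2 * H * M ^ 2 * ∫ t in T₀..T, ‖Λ t‖ ^ 2 := by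
  classical
  have hb : ∃ K, ∀ t, ‖(Icc T₀ T).indicator Λ t‖ ≤ K := by
    obtain ⟨K, hK⟩ := isCompact_Icc.exists_bound_of_continuousOn (hΛ.continuousOn (s := Icc T₀ T))
    refine ⟨max K 0, fun t => ?_⟩
    by_cases ht : t ∈ Icc T₀ T
    · rw [Set.indicator_of_mem ht]; exact (hK t ht).trans (le_max_left _ _)
    · rw [Set.indicator_of_notMem ht, norm_zero]; exact le_max_right _ _
  have h := hav.2 _ (hΛ.measurable.indicator measurableSet_Icc) hb
  have e1 : ∀ u, ∫ t in T₀..T, (Icc T₀ T).indicator Λ t * g (t + u) =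
      ∫ t in T₀..T, Λ t * g (t + u) := by
    intro u
    refine intervalIntegral.integral_congr fun t ht => ?_
    rw [uIcc_of_le hT] at ht
    simp only [Set.indicator_of_mem ht]
  have e2 : ∫ t in T₀..T, ‖(Icc T₀ T).indicator Λ t‖ ^ 2 = ∫ t in T₀..T, ‖Λ t‖ ^ 2 := by
    refine intervalIntegral.integral_congr fun t ht => ?_
    rw [uIcc_of_le hT] at ht
    simp only [Set.indicator_of_mem ht]
  simp only [e1] at h
  rw [e2] at h
  exact h

private lemma tg3_box_shift {k : ℕ} {Φ : (Fin k → ℝ) → ℝ} (hΦ : Continuous Φ)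
    (h0 : ∀ v, 0 ≤ Φ v) {H s : ℝ} (hs : 0 ≤ s) (hsH : s ≤ H) :
    ∫ v in box k H, Φ v ≤ ∫ v in box k (2 * H), Φ (fun j => v j + s) := by
  have hc1 := tg3_box_compact k H
  have hc2 := tg3_box_compact k (2 * H)
  set c : Fin k → ℝ := fun _ => s with hc
  have hadd : ∀ v : Fin k → ℝ, (fun j => v j + s) = v + c := fun v => rfl
  simp only [hadd]
  have hi1 : Integrable ((box k H).indicator Φ) :=
    (hΦ.continuousOn.integrableOn_compact hc1).integrable_indicator hc1.measurableSet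
  have hi2 : Integrable ((box k (2 * H)).indicator fun v => Φ (v + c)) :=
    ((hΦ.comp (continuous_id.add continuous_const)).continuousOn.integrableOn_compact
      hc2).integrable_indicator hc2.measurableSet
  rw [← integral_indicator hc1.measurableSet, ← integral_indicator hc2.measurableSet,
    ← integral_add_right_eq_self _ c]
  refine integral_mono (hi1.comp_add_right c) hi2 fun v => ?_
  show (box k H).indicator Φ (v + c) ≤ (box k (2 * H)).indicator (fun v => Φ (v + c)) v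
  by_cases hv : v + c ∈ box k H
  · have hv2 : v ∈ box k (2 * H) := by
      intro j _
      have := hv j (Set.mem_univ j)
      simp only [Pi.add_apply, hc, Set.mem_Icc] at this ⊢
      constructor <;> linarith [this.1, this.2]
    rw [Set.indicator_of_mem hv, Set.indicator_of_mem hv2]
  · rw [Set.indicator_of_notMem hv]
    exact Set.indicator_nonneg (fun v _ => h0 _) v

private lemma tg3_abs {k : ℕ} {g : ℝ → ℂ} (hg : Continuous g) {L : (Fin k → ℝ) → ℝ → ℂ}
    (hL : Continuous (Function.uncurry L))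
    (hsh : ∀ (v : Fin k → ℝ) (s t : ℝ), L (fun j => v j + s) t = L v (t + s))
    {H T₀ T M A G X : ℝ} (hH : 0 < H) (hT : T₀ ≤ T) (hM : 0 < M) (hA : 0 < A) (hG : 0 < G)
    (hX : 0 < X) (hXT : T - T₀ ≤ X ^ 2) (hav : AvB H T₀ T g M)
    (h1 : ∀ t, ∫ v in box k (2 * H), ‖L v t‖ ^ 2 ≤ (4 * H) ^ k * A ^ 2)
    (h2 : ∫ x in (T₀ - H)..T₀, ‖g x‖ ^ 2 ≤ G ^ 2)
    (h3 : ∫ x in (T - H)..T, ‖g x‖ ^ 2 ≤ G ^ 2) :
    ∫ v in box k H, ‖∫ t in T₀..T, g t * L v t‖ ≤
      (4 * H) ^ k * A * (2 * M * X + 2 * (√H * G)) := by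
  have hLt : ∀ v, Continuous (L v) := fun v => hL.comp (Continuous.prodMk continuous_const continuous_id)
  have hLv : ∀ t, Continuous fun v => L v t := fun t => hL.comp (Continuous.prodMk continuous_id continuous_const)
  set V : ℝ := (4 * H) ^ k with hV
  have hV0 : 0 < V := by positivity
  have hV2 : (2 * (2 * H)) ^ k = V := by rw [hV]; congr 1; ring
  set Φ : (Fin k → ℝ) → ℝ := fun v => ‖∫ t in T₀..T, g t * L v t‖ with hΦ
  have hΦc : Continuous Φ := by
    refine Continuous.norm ?_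
    apply intervalIntegral.continuous_parametric_intervalIntegral_of_continuous'
    exact (hg.comp continuous_snd).mul hL
  set P : (Fin k → ℝ) → ℝ → ℝ := fun v s => ‖∫ t in T₀..T, L v t * g (t - s)‖ with hP
  have hPc : Continuous (Function.uncurry P) := by
    show Continuous fun p : (Fin k → ℝ) × ℝ => ‖∫ t in T₀..T, L p.1 t * g (t - p.2)‖
    refine Continuous.norm ?_
    apply intervalIntegral.continuous_parametric_intervalIntegral_of_continuous'
    refine Continuous.mul ?_ ?_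
    · exact hL.comp (Continuous.prodMk (continuous_fst.comp continuous_fst) continuous_snd)
    · exact hg.comp (continuous_snd.sub (continuous_snd.comp continuous_fst))
  set F : ℝ → (Fin k → ℝ) → ℝ → ℝ :=
    fun y v s => ∫ x in (y - H)..y, ‖g x‖ * ‖L v (x + s)‖ with hF
  have hFc : ∀ y, Continuous (Function.uncurry (F y)) := by
    intro y
    show Continuous fun p : (Fin k → ℝ) × ℝ => ∫ x in (y - H)..y, ‖g x‖ * ‖L p.1 (x + p.2)‖
    apply intervalIntegral.continuous_parametric_intervalIntegral_of_continuous'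
    refine Continuous.mul ?_ ?_
    · exact (hg.comp continuous_snd).norm
    · exact (hL.comp (Continuous.prodMk (continuous_fst.comp continuous_fst)
        (continuous_snd.add (continuous_snd.comp continuous_fst)))).norm
  -- pointwise
  have hpt : ∀ (v : Fin k → ℝ) (s : ℝ), 0 ≤ s → s ≤ H →
      Φ (fun j => v j + s) ≤ P v s + (F T v s + F T₀ v s) := by
    intro v s hs hsH
    set Ξ : ℝ → ℂ := fun x => g x * L v (x + s) with hΞ
    have hΞc : Continuous Ξ := hg.mul ((hLt v).comp (continuous_id.add continuous_const))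
    have e1 : Φ (fun j => v j + s) = ‖∫ t in T₀..T, Ξ t‖ := by
      simp only [hΦ, hΞ, hsh]
    have e2 : P v s = ‖∫ t in (T₀ - s)..(T - s), Ξ t‖ := by
      simp only [hP, hΞ]
      rw [← intervalIntegral.integral_comp_sub_right (fun x => g x * L v (x + s)) s]
      congr 1
      refine intervalIntegral.integral_congr fun t _ => ?_
      simp only [sub_add_cancel]
      ring
    have hii : ∀ a b : ℝ, IntervalIntegrable Ξ volume a b := fun a b => hΞc.intervalIntegrable _ _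
    have e3 : ∫ t in T₀..T, Ξ t = (∫ t in (T₀ - s)..(T - s), Ξ t) +
        ((∫ t in (T - s)..T, Ξ t) - ∫ t in (T₀ - s)..T₀, Ξ t) := by
      have a1 := intervalIntegral.integral_add_adjacent_intervals (hii (T₀ - s) T₀) (hii T₀ T)
      have a2 := intervalIntegral.integral_add_adjacent_intervals
        (hii (T₀ - s) (T - s)) (hii (T - s) T)
      have : (∫ t in (T₀ - s)..T₀, Ξ t) + ∫ t in T₀..T, Ξ t =
        (∫ t in (T₀ - s)..(T - s), Ξ t) + ∫ t in (T - s)..T, Ξ t := by rw [a1, a2]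
      linear_combination this
    have e4 : ∀ y : ℝ, ‖∫ t in (y - s)..y, Ξ t‖ ≤ F y v s := by
      intro y
      have b1 : ‖∫ t in (y - s)..y, Ξ t‖ ≤ ∫ t in (y - s)..y, ‖Ξ t‖ :=
        intervalIntegral.norm_integral_le_integral_norm (by linarith)
      refine b1.trans ?_
      have b2 : ∀ x, ‖Ξ x‖ = ‖g x‖ * ‖L v (x + s)‖ := fun x => norm_mul _ _
      simp only [b2, hF]
      refine intervalIntegral.integral_mono_interval (by linarith) (by linarith) le_rfl
        (ae_of_all _ fun x => by positivity) ?_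
      exact ((hg.norm).mul ((hLt v).comp
        (continuous_id.add continuous_const)).norm).intervalIntegrable _ _
    rw [e1, e2, e3]
    refine (norm_add_le _ _).trans ?_
    refine add_le_add le_rfl ?_
    refine (norm_sub_le _ _).trans ?_
    exact add_le_add (e4 T) (e4 T₀)
  -- the L1 norms
  have hL1 : ∀ t, ∫ v in box k (2 * H), ‖L v t‖ ≤ V * A := by
    intro t
    have h4 := tg3_box_l1 (k := k) (hLv t).norm (R := 2 * H) (l := 1 / A) (by linarith)
      (by positivity)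
    have h5 := mul_le_mul_of_nonneg_left (h1 t) (show 0 ≤ 1 / A / 2 by positivity)
    rw [hV2] at h4
    have e : 1 / A / 2 * (V * A ^ 2) + V * (1 / (2 * (1 / A))) = V * A := by
      field_simp
      ring
    linarith
  have hg1 : ∀ y : ℝ, ∫ x in (y - H)..y, ‖g x‖ ^ 2 ≤ G ^ 2 → ∫ x in (y - H)..y, ‖g x‖ ≤ √H * G := by
    intro y hy
    have hsq : 0 < √H := Real.sqrt_pos.2 hH
    have h4 := tg3_iv_l1 hg.norm (a := y - H) (b := y) (l := √H / G) (by linarith) (by positivity)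
    have h5 := mul_le_mul_of_nonneg_left hy (show 0 ≤ √H / G / 2 by positivity)
    have hHH : √H * √H = H := Real.mul_self_sqrt hH.le
    have e : √H / G / 2 * G ^ 2 + (y - (y - H)) * (1 / (2 * (√H / G))) = √H * G := by
      have : y - (y - H) = √H * √H := by rw [hHH]; ring
      rw [this]
      field_simp
      ring
    linarith
  have hFb : ∀ y s : ℝ, ∫ x in (y - H)..y, ‖g x‖ ^ 2 ≤ G ^ 2 →
      ∫ v in box k (2 * H), F y v s ≤ V * A * (√H * G) := by
    intro y s hy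
    have hc : Continuous (Function.uncurry fun (v : Fin k → ℝ) (x : ℝ) => ‖g x‖ * ‖L v (x + s)‖) := by
      refine Continuous.mul ?_ ?_
      · exact (hg.comp continuous_snd).norm
      · exact (hL.comp (Continuous.prodMk continuous_fst
          (continuous_snd.add continuous_const))).norm
    have e := tg3_swap hc (2 * H) (y - H) y (by linarith)
    have e2 : ∫ v in box k (2 * H), F y v s =
      ∫ x in (y - H)..y, ‖g x‖ * ∫ v in box k (2 * H), ‖L v (x + s)‖ := by
      simp only [hF]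
      rw [e]
      refine intervalIntegral.integral_congr fun x _ => ?_
      simp only [integral_const_mul]
    rw [e2]
    have hcI : Continuous fun x : ℝ => ∫ v in box k (2 * H), ‖L v (x + s)‖ := by
      have : Continuous (Function.uncurry fun (x : ℝ) (v : Fin k → ℝ) => ‖L v (x + s)‖) :=
        (hL.comp (Continuous.prodMk continuous_snd (continuous_fst.add continuous_const))).norm
      exact continuous_parametric_integral_of_continuous this (tg3_box_compact k (2 * H))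
    have h4 : ∫ x in (y - H)..y, ‖g x‖ * ∫ v in box k (2 * H), ‖L v (x + s)‖ ≤
        ∫ x in (y - H)..y, ‖g x‖ * (V * A) := by
      refine intervalIntegral.integral_mono_on (by linarith)
        ((hg.norm.mul hcI).intervalIntegrable _ _)
        ((hg.norm.mul continuous_const).intervalIntegrable _ _) fun x _ => ?_
      exact mul_le_mul_of_nonneg_left (hL1 _) (norm_nonneg _)
    rw [intervalIntegral.integral_mul_const] at h4
    have h5 := mul_le_mul_of_nonneg_right (hg1 y hy) (show 0 ≤ V * A by positivity)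
    nlinarith
  -- the mean square
  have hP2 : ∀ v, ∫ s in (0:ℝ)..H, P v s ^ 2 ≤ 2 * H * M ^ 2 * ∫ t in T₀..T, ‖L v t‖ ^ 2 := by
    intro v
    refine le_trans ?_ (tg3_av (hLt v) hT hav)
    have e : ∫ s in (0:ℝ)..H, P v s ^ 2 =
        ∫ u in (-H)..0, ‖∫ t in T₀..T, L v t * g (t + u)‖ ^ 2 := by
      have := intervalIntegral.integral_comp_neg (a := 0) (b := H)
        (fun u : ℝ => ‖∫ t in T₀..T, L v t * g (t + u)‖ ^ 2)
      rw [neg_zero] at this
      rw [← this]
      simp only [hP, sub_eq_add_neg]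
    rw [e]
    refine intervalIntegral.integral_mono_interval le_rfl (by linarith) hH.le
      (ae_of_all _ fun x => by positivity) ?_
    refine Continuous.intervalIntegrable ?_ _ _
    refine (Continuous.norm ?_).pow 2
    apply intervalIntegral.continuous_parametric_intervalIntegral_of_continuous'
    exact ((hLt v).comp continuous_snd).mul (hg.comp (continuous_snd.add continuous_fst))
  have hLL : ∫ v in box k (2 * H), ∫ t in T₀..T, ‖L v t‖ ^ 2 ≤ X ^ 2 * (V * A ^ 2) := by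
    have hc : Continuous (Function.uncurry fun (v : Fin k → ℝ) (t : ℝ) => ‖L v t‖ ^ 2) :=
      hL.norm.pow 2
    rw [tg3_swap hc (2 * H) T₀ T hT]
    have hcI : Continuous fun t : ℝ => ∫ v in box k (2 * H), ‖L v t‖ ^ 2 := by
      have : Continuous (Function.uncurry fun (x : ℝ) (v : Fin k → ℝ) => ‖L v x‖ ^ 2) :=
        (hL.comp (Continuous.prodMk continuous_snd continuous_fst)).norm.pow 2
      exact continuous_parametric_integral_of_continuous this (tg3_box_compact k (2 * H))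
    have h4 : ∫ t in T₀..T, ∫ v in box k (2 * H), ‖L v t‖ ^ 2 ≤ ∫ t in T₀..T, V * A ^ 2 :=
      intervalIntegral.integral_mono_on hT (hcI.intervalIntegrable _ _)
        (continuous_const.intervalIntegrable _ _) fun t _ => h1 t
    rw [intervalIntegral.integral_const, smul_eq_mul] at h4
    exact h4.trans (mul_le_mul_of_nonneg_right hXT (by positivity))
  have hPP : ∫ v in box k (2 * H), ∫ s in (0:ℝ)..H, P v s ≤ H * (V * A * (2 * M * X)) := by
    set l : ℝ := 1 / (M * X * A) with hl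
    have hl0 : 0 < l := by positivity
    have hPvc : ∀ v, Continuous (P v) := fun v =>
      hPc.comp (Continuous.prodMk continuous_const continuous_id)
    have h4 : ∀ v, ∫ s in (0:ℝ)..H, P v s ≤
        l / 2 * (2 * H * M ^ 2) * (∫ t in T₀..T, ‖L v t‖ ^ 2) + H * (1 / (2 * l)) := by
      intro v
      have h5 := tg3_iv_l1 (hPvc v) (a := 0) (b := H) hH.le hl0
      have h6 := mul_le_mul_of_nonneg_left (hP2 v) (show 0 ≤ l / 2 by positivity)
      rw [sub_zero] at h5
      calc ∫ s in (0:ℝ)..H, P v s ≤ _ := h5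
        _ ≤ l / 2 * (2 * H * M ^ 2 * ∫ t in T₀..T, ‖L v t‖ ^ 2) + H * (1 / (2 * l)) := by
            linarith
        _ = _ := by ring
    have hc1 : Continuous fun v => ∫ s in (0:ℝ)..H, P v s := by
      apply intervalIntegral.continuous_parametric_intervalIntegral_of_continuous'
      exact hPc
    have hc2 : Continuous fun v => ∫ t in T₀..T, ‖L v t‖ ^ 2 := by
      apply intervalIntegral.continuous_parametric_intervalIntegral_of_continuous'
      exact hL.norm.pow 2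
    have hcb := tg3_box_compact k (2 * H)
    have i1 : IntegrableOn (fun v => ∫ s in (0:ℝ)..H, P v s) (box k (2 * H)) :=
      hc1.continuousOn.integrableOn_compact hcb
    have i2 : IntegrableOn (fun v => l / 2 * (2 * H * M ^ 2) * ∫ t in T₀..T, ‖L v t‖ ^ 2)
        (box k (2 * H)) := (continuous_const.mul hc2).continuousOn.integrableOn_compact hcb
    have i3 : IntegrableOn (fun _ : Fin k → ℝ => H * (1 / (2 * l))) (box k (2 * H)) :=
      continuous_const.continuousOn.integrableOn_compact hcb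
    have h7 : ∫ v in box k (2 * H), ∫ s in (0:ℝ)..H, P v s ≤
        ∫ v in box k (2 * H), (l / 2 * (2 * H * M ^ 2) * (∫ t in T₀..T, ‖L v t‖ ^ 2) +
          H * (1 / (2 * l))) := integral_mono i1 (i2.add i3) h4
    rw [integral_add i2 i3, integral_const_mul, setIntegral_const, tg3_vol k (by linarith),
      smul_eq_mul, hV2] at h7
    have h8 := mul_le_mul_of_nonneg_left hLL
      (show 0 ≤ l / 2 * (2 * H * M ^ 2) by positivity)
    have e : l / 2 * (2 * H * M ^ 2) * (X ^ 2 * (V * A ^ 2)) + V * (H * (1 / (2 * l))) =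
        H * (V * A * (M * X)) * (3 / 2) := by
      rw [hl]
      field_simp
      ring
    have h9 : 0 ≤ H * (V * A * (M * X)) := by positivity
    linarith
  -- assembly
  have hmain : ∀ s ∈ Icc 0 H, ∫ v in box k H, Φ v ≤
      (∫ v in box k (2 * H), P v s) + 2 * (V * A * (√H * G)) := by
    intro s hs
    have h4 := tg3_box_shift hΦc (fun v => norm_nonneg _) hs.1 hs.2
    have hcb := tg3_box_compact k (2 * H)
    have hPs : Continuous fun v => P v s :=
      hPc.comp (Continuous.prodMk continuous_id continuous_const)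
    have hFs : ∀ y, Continuous fun v => F y v s := fun y =>
      (hFc y).comp (Continuous.prodMk continuous_id continuous_const)
    have i0 : IntegrableOn (fun v : Fin k → ℝ => Φ (fun j => v j + s)) (box k (2 * H)) := by
      refine (hΦc.comp ?_).continuousOn.integrableOn_compact hcb
      exact continuous_pi fun j => (continuous_apply j).add continuous_const
    have i1 : IntegrableOn (fun v => P v s) (box k (2 * H)) :=
      hPs.continuousOn.integrableOn_compact hcb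
    have i2 : ∀ y, IntegrableOn (fun v => F y v s) (box k (2 * H)) := fun y =>
      (hFs y).continuousOn.integrableOn_compact hcb
    have i3 : IntegrableOn (fun v => F T v s + F T₀ v s) (box k (2 * H)) := (i2 T).add (i2 T₀)
    have h5 : ∫ v in box k (2 * H), Φ (fun j => v j + s) ≤
        ∫ v in box k (2 * H), (P v s + (F T v s + F T₀ v s)) :=
      integral_mono i0 (i1.add i3) fun v => hpt v s hs.1 hs.2
    rw [integral_add i1 i3, integral_add (i2 T) (i2 T₀)] at h5
    have h6 := hFb T s h3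
    have h7 := hFb T₀ s h2
    linarith
  have hPint : Continuous fun s => ∫ v in box k (2 * H), P v s := by
    have : Continuous (Function.uncurry fun (s : ℝ) (v : Fin k → ℝ) => P v s) :=
      hPc.comp (Continuous.prodMk continuous_snd continuous_fst)
    exact continuous_parametric_integral_of_continuous this (tg3_box_compact k (2 * H))
  have h4 : ∫ s in (0:ℝ)..H, ∫ v in box k H, Φ v ≤
      ∫ s in (0:ℝ)..H, ((∫ v in box k (2 * H), P v s) + 2 * (V * A * (√H * G))) :=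
    intervalIntegral.integral_mono_on hH.le (continuous_const.intervalIntegrable _ _)
      ((hPint.add continuous_const).intervalIntegrable _ _) hmain
  rw [intervalIntegral.integral_const, intervalIntegral.integral_add
    (hPint.intervalIntegrable _ _) (continuous_const.intervalIntegrable _ _),
    intervalIntegral.integral_const, ← tg3_swap hPc (2 * H) 0 H hH.le, sub_zero, smul_eq_mul,
    smul_eq_mul] at h4
  have h5 : H * ∫ v in box k H, Φ v ≤ H * (V * A * (2 * M * X + 2 * (√H * G))) := by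
    calc H * ∫ v in box k H, Φ v ≤ _ := h4
      _ ≤ H * (V * A * (2 * M * X)) + H * (2 * (V * A * (√H * G))) := by linarith
      _ = _ := by ring
  exact le_of_mul_le_mul_left h5 hH

/-- the high part of the first pair: translate all the `v j` by `s` (the box becomes
`box k (2 H)`), change `t` to `t - s`, average over `s ∈ [0, H]` and use `exists_avb_pf` with
`Ψ = ∏ lo`; the two edges of length `s` by Cauchy-Schwarz -/
theorem exists_tg3 (k : ℕ) (B ε : ℝ) (hB : 0 ≤ B) (hε : 0 < ε) (hε1 : ε ≤ 1 / 100) :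
    ∃ C : ℝ, 1 ≤ C ∧ ∀ T T₀ H : ℝ, 1 ≤ T → T ^ (7 / 8 : ℝ) ≤ T₀ → T₀ ≤ T →
    1 ≤ H → 4 * H ≤ T₀ →
    ∀ J : ℕ, (2:ℝ) ^ J ≤ T ^ (1 / 40 : ℝ) → (2:ℝ) ^ J ≤ H →
    ∀ a b : Fin (k + 1) → ℝ, (∀ j, |a j| ≤ B) → (∀ j, |b j| ≤ B) →
    (∀ j, T ^ (-ε) ≤ |a j - b j|) →
    ∫ v in box k H, ‖∫ t in T₀..T, (pf (a 0) (b 0) t - lo (a 0) (b 0) J t) *
      ∏ j : Fin k, lo (a j.succ) (b j.succ) J (t + v j)‖ ≤
      (2 * H) ^ k * (C * T ^ ((20 + 6 * k) * ε) *
        (T * (2 ^ (-(J : ℝ) / 2) + H ^ (-(1 / 2) : ℝ)) + (T * H) ^ (1 / 2 : ℝ))) := by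
  obtain ⟨C₁, hC₁, hv⟩ := exists_avb_pf B ε hB hε hε1
  obtain ⟨C₂, hC₂, hlo⟩ := exists_lo_local B ε hB hε
  obtain ⟨C₃, hC₃, hl2⟩ := exists_l2_pf B ε hB hε hε1
  refine ⟨2 ^ k * (4 * C₂) ^ k * (4 * C₁ + 2 * (8 * C₃ + 16 * C₂)), ?_, ?_⟩
  · have e1 : (1:ℝ) ≤ 2 ^ k := one_le_pow₀ (by norm_num)
    have e2 : (1:ℝ) ≤ (4 * C₂) ^ k := one_le_pow₀ (by linarith)
    have e3 : (1:ℝ) ≤ 2 ^ k * (4 * C₂) ^ k := one_le_mul_of_one_le_of_one_le e1 e2
    exact one_le_mul_of_one_le_of_one_le e3 (by linarith)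
  intro T T₀ H hT hT₀ hT₀T hH hHT J hJ hJH a b ha hb hab
  have hT0 : 0 < T := by linarith
  have hH0 : 0 < H := by linarith
  have hTe : 0 < T ^ (-ε) := Real.rpow_pos_of_pos hT0 _
  have hne : ∀ j, a j ≠ b j := by
    intro j h
    have := hab j
    rw [h, sub_self, abs_zero] at this
    linarith
  have hJT : (2:ℝ) ^ J ≤ T := by
    refine hJ.trans ?_
    calc T ^ (1 / 40 : ℝ) ≤ T ^ (1:ℝ) := Real.rpow_le_rpow_of_exponent_le hT (by norm_num)
      _ = T := Real.rpow_one T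
  have hTε1 : 1 ≤ T ^ ε := Real.one_le_rpow hT hε.le
  have hd0 : ∀ j, 1 / |a j - b j| ≤ T ^ ε := by
    intro j
    have h2 : 1 / |a j - b j| ≤ 1 / T ^ (-ε) := one_div_le_one_div_of_le hTe (hab j)
    have h3 : 1 / T ^ (-ε) = T ^ ε := by rw [Real.rpow_neg hT0.le, one_div, inv_inv]
    rw [h3] at h2
    exact h2
  have hd1 : ∀ j, 1 + 1 / |a j - b j| ≤ 2 * T ^ ε := by
    intro j
    linarith [hd0 j]
  have hd2 : ∀ j, 1 + 1 / (a j - b j) ^ 2 ≤ 2 * T ^ (2 * ε) := by
    intro j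
    have h1 : 1 / |a j - b j| ≤ T ^ ε := hd0 j
    have h2 : 1 / (a j - b j) ^ 2 = (1 / |a j - b j|) ^ 2 := by
      rw [div_pow, sq_abs, one_pow]
    have h3 : (T ^ ε) ^ 2 = T ^ (2 * ε) := by
      rw [← Real.rpow_natCast, ← Real.rpow_mul hT0.le]
      congr 1
      push_cast
      ring
    have h0 : 0 ≤ 1 / |a j - b j| := by positivity
    have h4 : (1 / |a j - b j|) ^ 2 ≤ (T ^ ε) ^ 2 := pow_le_pow_left₀ h0 h1 2
    have h5 : 1 ≤ T ^ (2 * ε) := Real.one_le_rpow hT (by linarith)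
    rw [h2]
    linarith
  set g : ℝ → ℂ := fun t => pf (a 0) (b 0) t - lo (a 0) (b 0) J t with hg
  have hgc : Continuous g := (continuous_pf _ _).sub (continuous_lo _ _ _)
  set L : (Fin k → ℝ) → ℝ → ℂ := fun v t => ∏ j : Fin k, lo (a j.succ) (b j.succ) J (t + v j)
    with hL
  have hLc : Continuous (Function.uncurry L) := by
    show Continuous fun p : (Fin k → ℝ) × ℝ => ∏ j : Fin k, lo (a j.succ) (b j.succ) J (p.2 + p.1 j)
    refine continuous_finsetProd _ fun j _ => ?_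
    refine (continuous_lo _ _ _).comp ?_
    fun_prop
  have hsh : ∀ (v : Fin k → ℝ) (s t : ℝ), L (fun j => v j + s) t = L v (t + s) := by
    intro v s t
    simp only [hL]
    refine Finset.prod_congr rfl fun j _ => ?_
    congr 1
    ring
  set M : ℝ := C₁ * (1 + 1 / (a 0 - b 0) ^ 2) * (T ^ (1 / 2 + 3 * ε) *
        (2 ^ (-(J : ℝ) / 2) + H ^ (-(1 / 2) : ℝ))) with hM
  have hTT₀ : 0 < T₀ := lt_of_lt_of_le (Real.rpow_pos_of_pos hT0 _) hT₀
  have hs0 : 0 < (2:ℝ) ^ (-(J : ℝ) / 2) + H ^ (-(1 / 2) : ℝ) := by positivity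
  have hM0 : 0 < M := by
    have : 0 ≤ 1 / (a 0 - b 0) ^ 2 := by positivity
    have h2 : 0 < T ^ (1 / 2 + 3 * ε) := Real.rpow_pos_of_pos hT0 _
    positivity
  set A : ℝ := (4 * C₂ * T ^ (3 * ε)) ^ k with hA
  have hTe3 : 1 ≤ T ^ (3 * ε) := Real.one_le_rpow hT (by linarith)
  have hA1 : 1 ≤ 4 * C₂ * T ^ (3 * ε) := one_le_mul_of_one_le_of_one_le (by linarith) hTe3
  have hA0 : 1 ≤ A := one_le_pow₀ hA1
  set G : ℝ := (8 * C₃ + 16 * C₂) * T ^ (1 / 2 + 5 * ε) with hG
  have hG0 : 0 < G := by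
    have := Real.rpow_pos_of_pos hT0 (1 / 2 + 5 * ε)
    positivity
  have hX0 : 0 < T ^ (1 / 2 : ℝ) := Real.rpow_pos_of_pos hT0 _
  have hX2 : (T ^ (1 / 2 : ℝ)) ^ 2 = T := by
    rw [← Real.rpow_natCast, ← Real.rpow_mul hT0.le]
    norm_num
  have hav : AvB H T₀ T g M :=
    hv T T₀ H hT hT₀ hT₀T hH (by linarith) (a 0) (b 0) (ha 0) (hb 0) (hne 0) J hJ
  have hlo1 : ∀ t, ∫ v in box k (2 * H), ‖L v t‖ ^ 2 ≤ (4 * H) ^ k * A ^ 2 := by
    intro t
    have hvol : (volume : Measure (Fin k → ℝ)).restrict (box k (2 * H)) =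
        Measure.pi (fun _ : Fin k => (volume : Measure ℝ).restrict (Icc (-(2 * H)) (2 * H))) := by
      rw [volume_pi, box, Measure.restrict_pi_pi]
    have hp : ∫ v in box k (2 * H), ‖L v t‖ ^ 2 =
        ∏ j : Fin k, ∫ u in Icc (-(2 * H)) (2 * H), ‖lo (a j.succ) (b j.succ) J (t + u)‖ ^ 2 := by
      have e : ∀ v, ‖L v t‖ ^ 2 = ∏ j : Fin k, ‖lo (a j.succ) (b j.succ) J (t + v j)‖ ^ 2 := by
        intro v
        simp only [hL]
        rw [norm_prod, Finset.prod_pow]
      simp only [e]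
      rw [hvol]
      exact integral_fintype_prod_eq_prod (𝕜 := ℝ)
        (fun (j : Fin k) u => ‖lo (a j.succ) (b j.succ) J (t + (u : ℝ))‖ ^ 2)
    rw [hp]
    have hle : ∀ j ∈ (univ : Finset (Fin k)),
        ∫ u in Icc (-(2 * H)) (2 * H), ‖lo (a j.succ) (b j.succ) J (t + u)‖ ^ 2 ≤
        4 * C₂ * T ^ (3 * ε) * (4 * H) := by
      intro j _
      rw [integral_Icc_eq_integral_Ioc, ← intervalIntegral.integral_of_le (by linarith)]
      have h5 := hlo T (2 * H) hT (by linarith) _ _ (ha j.succ) (hb j.succ) (hne j.succ) J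
        (by linarith) hJT t
      refine h5.trans ?_
      have h6 : (1 + 1 / |a j.succ - b j.succ|) ^ 2 ≤ (2 * T ^ ε) ^ 2 :=
        pow_le_pow_left₀ (by positivity) (hd1 _) 2
      have h7 : (2 * T ^ ε) ^ 2 * T ^ ε = 4 * T ^ (3 * ε) := by
        have : T ^ (3 * ε) = (T ^ ε) ^ 3 := by
          rw [← Real.rpow_natCast, ← Real.rpow_mul hT0.le]
          congr 1
          push_cast
          ring
        rw [this]
        ring
      calc C₂ * (1 + 1 / |a j.succ - b j.succ|) ^ 2 * T ^ ε * (2 * (2 * H))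
          ≤ C₂ * (2 * T ^ ε) ^ 2 * T ^ ε * (2 * (2 * H)) := by gcongr
        _ = C₂ * ((2 * T ^ ε) ^ 2 * T ^ ε) * (4 * H) := by ring
        _ = _ := by rw [h7]; ring
    refine (Finset.prod_le_prod (fun j _ => integral_nonneg fun v => by positivity) hle).trans ?_
    rw [Finset.prod_const, Finset.card_univ, Fintype.card_fin, mul_pow, mul_comm]
    have : A ≤ A ^ 2 := by nlinarith
    rw [← hA]
    exact mul_le_mul_of_nonneg_left this (by positivity)
  have hg2 : ∀ y : ℝ, T₀ ≤ y → y ≤ T → ∫ x in (y - H)..y, ‖g x‖ ^ 2 ≤ G ^ 2 := by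
    intro y hy hyT
    have hcp : Continuous fun x => ‖pf (a 0) (b 0) x‖ ^ 2 := (continuous_pf _ _).norm.pow 2
    have hcl : Continuous fun x => ‖lo (a 0) (b 0) J x‖ ^ 2 := (continuous_lo _ _ _).norm.pow 2
    have j1 : IntervalIntegrable (fun x => 2 * ‖pf (a 0) (b 0) x‖ ^ 2) volume (y - H) y :=
      (continuous_const.mul hcp).intervalIntegrable _ _
    have j2 : IntervalIntegrable (fun x => 2 * ‖lo (a 0) (b 0) J x‖ ^ 2) volume (y - H) y :=
      (continuous_const.mul hcl).intervalIntegrable _ _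
    have h5 : ∫ x in (y - H)..y, ‖g x‖ ^ 2 ≤
        ∫ x in (y - H)..y, (2 * ‖pf (a 0) (b 0) x‖ ^ 2 + 2 * ‖lo (a 0) (b 0) J x‖ ^ 2) := by
      refine intervalIntegral.integral_mono_on (by linarith)
        ((hgc.norm.pow 2).intervalIntegrable _ _) (j1.add j2) fun x _ => ?_
      have h6 : ‖g x‖ ≤ ‖pf (a 0) (b 0) x‖ + ‖lo (a 0) (b 0) J x‖ := norm_sub_le _ _
      have h7 : ‖g x‖ ^ 2 ≤ (‖pf (a 0) (b 0) x‖ + ‖lo (a 0) (b 0) J x‖) ^ 2 :=
        pow_le_pow_left₀ (norm_nonneg _) h6 2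
      nlinarith [sq_nonneg (‖pf (a 0) (b 0) x‖ - ‖lo (a 0) (b 0) J x‖)]
    rw [intervalIntegral.integral_add j1 j2, intervalIntegral.integral_const_mul,
      intervalIntegral.integral_const_mul] at h5
    have h78 : T ^ (7 / 8 : ℝ) / 2 ≤ y - H := by linarith
    have h6 : ∫ x in (y - H)..y, ‖pf (a 0) (b 0) x‖ ^ 2 ≤
        C₃ * (1 + 1 / (a 0 - b 0) ^ 2) ^ 2 * T ^ (1 + 6 * ε) := by
      refine le_trans ?_ (hl2 T hT _ _ (ha 0) (hb 0) (hne 0))
      exact intervalIntegral.integral_mono_interval h78 (by linarith) (by linarith)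
        (ae_of_all _ fun x => by positivity) (hcp.intervalIntegrable _ _)
    have h7 : ∫ x in (y - H)..y, ‖lo (a 0) (b 0) J x‖ ^ 2 ≤
        C₂ * (1 + 1 / |a 0 - b 0|) ^ 2 * T ^ ε * (2 * T) := by
      refine le_trans ?_ (hlo T T hT hT _ _ (ha 0) (hb 0) (hne 0) J hJT hJT 0)
      simp only [zero_add]
      exact intervalIntegral.integral_mono_interval (by linarith) (by linarith) hyT
        (ae_of_all _ fun x => by positivity) (hcl.intervalIntegrable _ _)
    have hT10 : T ^ (1 + 10 * ε) = T * (T ^ ε) ^ 10 := by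
      rw [Real.rpow_add hT0, Real.rpow_one, ← Real.rpow_natCast, ← Real.rpow_mul hT0.le]
      congr 2
      push_cast
      ring
    have hT6 : T ^ (1 + 6 * ε) = T * (T ^ ε) ^ 6 := by
      rw [Real.rpow_add hT0, Real.rpow_one, ← Real.rpow_natCast, ← Real.rpow_mul hT0.le]
      congr 2
      push_cast
      ring
    have hT2 : T ^ (2 * ε) = (T ^ ε) ^ 2 := by
      rw [← Real.rpow_natCast, ← Real.rpow_mul hT0.le]
      congr 1
      push_cast
      ring
    have h8 : C₃ * (1 + 1 / (a 0 - b 0) ^ 2) ^ 2 * T ^ (1 + 6 * ε) ≤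
        4 * C₃ * (T * (T ^ ε) ^ 10) := by
      have h9 : (1 + 1 / (a 0 - b 0) ^ 2) ^ 2 ≤ (2 * (T ^ ε) ^ 2) ^ 2 := by
        rw [← hT2]
        exact pow_le_pow_left₀ (by positivity) (hd2 0) 2
      calc C₃ * (1 + 1 / (a 0 - b 0) ^ 2) ^ 2 * T ^ (1 + 6 * ε)
          ≤ C₃ * (2 * (T ^ ε) ^ 2) ^ 2 * T ^ (1 + 6 * ε) := by gcongr
        _ = _ := by rw [hT6]; ring
    have h10 : C₂ * (1 + 1 / |a 0 - b 0|) ^ 2 * T ^ ε * (2 * T) ≤
        8 * C₂ * (T * (T ^ ε) ^ 10) := by
      have h9 : (1 + 1 / |a 0 - b 0|) ^ 2 ≤ (2 * T ^ ε) ^ 2 :=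
        pow_le_pow_left₀ (by positivity) (hd1 0) 2
      have h11 : (T ^ ε) ^ 3 ≤ (T ^ ε) ^ 10 := pow_le_pow_right₀ hTε1 (by norm_num)
      calc C₂ * (1 + 1 / |a 0 - b 0|) ^ 2 * T ^ ε * (2 * T)
          ≤ C₂ * (2 * T ^ ε) ^ 2 * T ^ ε * (2 * T) := by gcongr
        _ = 8 * C₂ * (T * (T ^ ε) ^ 3) := by ring
        _ ≤ _ := by gcongr
    have hG2 : G ^ 2 = (8 * C₃ + 16 * C₂) ^ 2 * (T * (T ^ ε) ^ 10) := by
      rw [hG, mul_pow, ← hT10]
      congr 1
      rw [← Real.rpow_natCast, ← Real.rpow_mul hT0.le]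
      congr 1
      push_cast
      ring
    have hY : 0 ≤ T * (T ^ ε) ^ 10 := by positivity
    have h12 : (8 * C₃ + 16 * C₂) * (T * (T ^ ε) ^ 10) ≤
        (8 * C₃ + 16 * C₂) ^ 2 * (T * (T ^ ε) ^ 10) := by
      refine mul_le_mul_of_nonneg_right ?_ hY
      nlinarith
    rw [hG2]
    refine h5.trans (le_trans ?_ h12)
    linarith
  have hfin := tg3_abs hgc hLc hsh hH0 hT₀T hM0 (by linarith : 0 < A) hG0 hX0
    (by rw [hX2]; linarith) hav hlo1 (hg2 T₀ le_rfl hT₀T) (hg2 T hT₀T le_rfl)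
  refine hfin.trans ?_
  -- final bookkeeping
  set S : ℝ := (2:ℝ) ^ (-(J : ℝ) / 2) + H ^ (-(1 / 2) : ℝ) with hS
  have hk0 : (0:ℝ) ≤ k := Nat.cast_nonneg k
  have hM1 : M ≤ 2 * C₁ * (T ^ (1 / 2 : ℝ) * (T ^ ε) ^ 5) * S := by
    have e1 : T ^ (2 * ε) * T ^ (1 / 2 + 3 * ε) = T ^ (1 / 2 : ℝ) * (T ^ ε) ^ 5 := by
      rw [← Real.rpow_add hT0, ← Real.rpow_natCast, ← Real.rpow_mul hT0.le,
        ← Real.rpow_add hT0]
      congr 1
      push_cast
      ring
    calc M = C₁ * (1 + 1 / (a 0 - b 0) ^ 2) * (T ^ (1 / 2 + 3 * ε) * S) := hM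
      _ ≤ C₁ * (2 * T ^ (2 * ε)) * (T ^ (1 / 2 + 3 * ε) * S) := by
          have := hd2 0
          gcongr
      _ = 2 * C₁ * (T ^ (2 * ε) * T ^ (1 / 2 + 3 * ε)) * S := by ring
      _ = _ := by rw [e1]
  have hG1 : G = (8 * C₃ + 16 * C₂) * (T ^ (1 / 2 : ℝ) * (T ^ ε) ^ 5) := by
    rw [hG]
    congr 1
    rw [← Real.rpow_natCast, ← Real.rpow_mul hT0.le, ← Real.rpow_add hT0]
    congr 1
    push_cast
    ring
  have hsq : √H = H ^ (1 / 2 : ℝ) := Real.sqrt_eq_rpow H
  have hTH : (T * H) ^ (1 / 2 : ℝ) = T ^ (1 / 2 : ℝ) * H ^ (1 / 2 : ℝ) :=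
    Real.mul_rpow hT0.le hH0.le
  have hXX : T ^ (1 / 2 : ℝ) * T ^ (1 / 2 : ℝ) = T := by rw [← sq]; exact hX2
  have hH2 : 0 < H ^ (1 / 2 : ℝ) := Real.rpow_pos_of_pos hH0 _
  have hin : 2 * M * T ^ (1 / 2 : ℝ) + 2 * (√H * G) ≤
      (4 * C₁ + 2 * (8 * C₃ + 16 * C₂)) * (T ^ ε) ^ 5 * (T * S + (T * H) ^ (1 / 2 : ℝ)) := by
    rw [hG1, hsq, hTH]
    have h13 : 2 * M * T ^ (1 / 2 : ℝ) ≤ 4 * C₁ * (T ^ ε) ^ 5 * (T * S) := by
      calc 2 * M * T ^ (1 / 2 : ℝ) ≤
          2 * (2 * C₁ * (T ^ (1 / 2 : ℝ) * (T ^ ε) ^ 5) * S) * T ^ (1 / 2 : ℝ) := by gcongr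
        _ = 4 * C₁ * (T ^ ε) ^ 5 * ((T ^ (1 / 2 : ℝ) * T ^ (1 / 2 : ℝ)) * S) := by ring
        _ = _ := by rw [hXX]
    have h14 : 0 ≤ (T ^ ε) ^ 5 * (T * S) := by positivity
    have h15 : 0 ≤ (T ^ ε) ^ 5 * (T ^ (1 / 2 : ℝ) * H ^ (1 / 2 : ℝ)) := by positivity
    have h16 : 0 ≤ 2 * (8 * C₃ + 16 * C₂) := by positivity
    have h17 : 0 ≤ 4 * C₁ := by positivity
    have h18 := mul_nonneg h16 h14
    have h19 := mul_nonneg h17 h15
    calc 2 * M * T ^ (1 / 2 : ℝ) + 2 * (H ^ (1 / 2 : ℝ) *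
          ((8 * C₃ + 16 * C₂) * (T ^ (1 / 2 : ℝ) * (T ^ ε) ^ 5)))
        ≤ 4 * C₁ * (T ^ ε) ^ 5 * (T * S) + 2 * (8 * C₃ + 16 * C₂) *
          ((T ^ ε) ^ 5 * (T ^ (1 / 2 : ℝ) * H ^ (1 / 2 : ℝ))) := by linarith
      _ ≤ 4 * C₁ * (T ^ ε) ^ 5 * (T * S) + 2 * (8 * C₃ + 16 * C₂) *
          ((T ^ ε) ^ 5 * (T ^ (1 / 2 : ℝ) * H ^ (1 / 2 : ℝ))) +
          (2 * (8 * C₃ + 16 * C₂) * ((T ^ ε) ^ 5 * (T * S)) +
          4 * C₁ * ((T ^ ε) ^ 5 * (T ^ (1 / 2 : ℝ) * H ^ (1 / 2 : ℝ)))) := by linarith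
      _ = _ := by ring
  have hAe : A = (4 * C₂) ^ k * T ^ (3 * ε * k) := by
    rw [hA, mul_pow, ← Real.rpow_mul_natCast hT0.le]
  have hexp : T ^ (3 * ε * k) * (T ^ ε) ^ 5 ≤ T ^ ((20 + 6 * k) * ε) := by
    rw [← Real.rpow_natCast (T ^ ε), ← Real.rpow_mul hT0.le, ← Real.rpow_add hT0]
    refine Real.rpow_le_rpow_of_exponent_le hT ?_
    push_cast
    nlinarith [mul_nonneg hε.le hk0]
  have hY0 : 0 ≤ T * S + (T * H) ^ (1 / 2 : ℝ) := by positivity
  have h4k : (4 * H) ^ k = 2 ^ k * (2 * H) ^ k := by rw [← mul_pow]; congr 1; ring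
  calc (4 * H) ^ k * A * (2 * M * T ^ (1 / 2 : ℝ) + 2 * (√H * G))
      ≤ (4 * H) ^ k * A * ((4 * C₁ + 2 * (8 * C₃ + 16 * C₂)) * (T ^ ε) ^ 5 *
          (T * S + (T * H) ^ (1 / 2 : ℝ))) := by gcongr
    _ = (2 * H) ^ k * (2 ^ k * (4 * C₂) ^ k * (4 * C₁ + 2 * (8 * C₃ + 16 * C₂)) *
          (T ^ (3 * ε * k) * (T ^ ε) ^ 5) * (T * S + (T * H) ^ (1 / 2 : ℝ))) := by
        rw [hAe, h4k]; ring
    _ ≤ (2 * H) ^ k * (2 ^ k * (4 * C₂) ^ k * (4 * C₁ + 2 * (8 * C₃ + 16 * C₂)) *
          T ^ ((20 + 6 * k) * ε) * (T * S + (T * H) ^ (1 / 2 : ℝ))) := by gcongr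

end Pool.Agent.AAS
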