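import Pool.Agent.AAS.TG1
import Pool.Agent.AAS.TG2
import Pool.Agent.AAS.TG3

set_option autoImplicit false

namespace Pool.Agent.AAS

open Complex Finset MeasureTheory Filter Topology Set
open Pool.Agent.H26

private theorem tgf_compact (k : ℕ) (H : ℝ) : IsCompact (box k H) :=
  isCompact_univ_pi fun _ => isCompact_Icc

private theorem tgf_cont {k : ℕ} {E : Type*} [NormedAddCommGroup E] [NormedSpace ℝ E]
    (F : (Fin k → ℝ) → ℝ → E)
    (hF : Continuous (Function.uncurry F)) {G : Set ℝ} {A B : ℝ}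
    (hGs : G ⊆ Icc A B) : Continuous fun v => ∫ t in G, F v t := by
  have h := continuous_parametric_integral_of_continuous (μ := volume.restrict G) hF
    (isCompact_Icc (a := A) (b := B))
  have e : (volume.restrict G).restrict (Icc A B) = volume.restrict G := by
    rw [Measure.restrict_restrict measurableSet_Icc, Set.inter_eq_self_of_subset_right hGs]
  simpa only [e] using h

private theorem tgf_mono {k : ℕ} (f g₁ g₂ g₃ : (Fin k → ℝ) → ℝ) (H : ℝ)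
    (h₁ : Continuous g₁) (h₂ : Continuous g₂) (h₃ : Continuous g₃)
    (hf : Continuous f)
    (h : ∀ v, f v ≤ g₁ v + g₂ v + g₃ v) :
    ∫ v in box k H, f v ≤ (∫ v in box k H, g₁ v) + (∫ v in box k H, g₂ v) +
      ∫ v in box k H, g₃ v := by
  have hc := tgf_compact k H
  have i₁ := h₁.continuousOn.integrableOn_compact (μ := volume) hc
  have i₂ := h₂.continuousOn.integrableOn_compact (μ := volume) hc
  have i₃ := h₃.continuousOn.integrableOn_compact (μ := volume) hc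
  have i₀ := hf.continuousOn.integrableOn_compact (μ := volume) hc
  have e₁ := integral_add i₁ i₂
  have e₂ := integral_add (i₁.add i₂) i₃
  have e₃ := integral_mono i₀ ((i₁.add i₂).add i₃) h
  simp only [Pi.add_apply] at e₁ e₂ e₃
  rw [← e₁, ← e₂]
  exact e₃

/-- the truncation on `G`, first pair fixed -/
theorem exists_tgf (k : ℕ) (B ε y θ₁ : ℝ) (hB : 0 ≤ B) (hε : 0 < ε) (hε1 : ε ≤ 1 / 100)
    (hy : 0 < y) (hy1 : y ≤ 1 / 40) (hyθ : y ≤ θ₁) :
    ∃ C : ℝ, 1 ≤ C ∧ ∀ T T₀ H d : ℝ, 1 ≤ T → T ^ (7 / 8 : ℝ) ≤ T₀ → T₀ ≤ T →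
    T ^ θ₁ / 2 ≤ H → 1 ≤ H → B ≤ H → 4 * H ≤ T₀ → 0 ≤ d →
    ∀ J : ℕ, T ^ y / 2 ≤ 2 ^ J → (2:ℝ) ^ J ≤ T ^ y → (2:ℝ) ^ J ≤ H →
    ∀ G : Set ℝ, MeasurableSet G → G ⊆ Icc T₀ T → Gd T H d G →
    ∀ a b : Fin (k + 1) → ℝ, (∀ j, |a j| ≤ B) → (∀ j, |b j| ≤ B) →
    (∀ j, T ^ (-ε) ≤ |a j - b j|) →
    ∫ v in box k H, ‖(∫ t in G, PR a b v t) - ∫ t in T₀..T, PL a b J v t‖ ≤
      (2 * H) ^ k * (C * T ^ ((20 + 6 * k) * ε) * (T ^ (1 - y / 2 + k * d / 2) +
        (T * (volume (Icc T₀ T \ G)).toReal) ^ (1 / 2 : ℝ) + (T * H) ^ (1 / 2 : ℝ))) := by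
  obtain ⟨C₁, hC₁, h₁⟩ := exists_tg1 k B ε y θ₁ hB hε hε1 hy hy1 hyθ
  obtain ⟨C₂, hC₂, h₂⟩ := exists_tg2 k B ε hB hε hε1
  obtain ⟨C₃, hC₃, h₃⟩ := exists_tg3 k B ε hB hε hε1
  refine ⟨C₁ + C₂ + 4 * C₃, by linarith, ?_⟩
  intro T T₀ H d hT hT₀ hT₀T hθH hH hBH h4H hd J hJ1 hJ2 hJH G hG hGs hGd a b ha hb hab
  have hT0 : 0 < T := by linarith
  have hH0 : 0 < H := by linarith
  have hT₀0 : 0 < T₀ := by linarith
  have hJT : (2:ℝ) ^ J ≤ T := by
    refine hJ2.trans ?_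
    calc T ^ y ≤ T ^ (1:ℝ) := Real.rpow_le_rpow_of_exponent_le hT (by linarith)
      _ = T := Real.rpow_one T
  have hJ40 : (2:ℝ) ^ J ≤ T ^ (1 / 40 : ℝ) :=
    hJ2.trans (Real.rpow_le_rpow_of_exponent_le hT hy1)
  set S : Set ℝ := Icc T₀ T \ G with hS
  have hSm : MeasurableSet S := measurableSet_Icc.diff hG
  have hSs : S ⊆ Icc T₀ T := Set.sdiff_subset
  have b₁ := h₁ T T₀ H d hT hT₀ hT₀T hθH hH hBH (by linarith) hd J hJ1 hJ2 hJH G hG hGs hGd
    a b ha hb hab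
  have b₂ := h₂ T H hT hH (by linarith) J hJH hJT S hSm
    (hSs.trans (Set.Icc_subset_Icc_left hT₀)) a b ha hb hab
  have b₃ := h₃ T T₀ H hT hT₀ hT₀T hH h4H J hJ40 hJH a b ha hb hab
  -- continuity
  have cpf : ∀ j : Fin k, Continuous fun p : (Fin k → ℝ) × ℝ =>
      pf (a j.succ) (b j.succ) (p.2 + p.1 j) := fun j =>
    (continuous_pf _ _).comp (by fun_prop)
  have clo : ∀ j : Fin k, Continuous fun p : (Fin k → ℝ) × ℝ =>
      lo (a j.succ) (b j.succ) J (p.2 + p.1 j) := fun j =>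
    (continuous_lo _ _ _).comp (by fun_prop)
  have cpf0 : Continuous fun p : (Fin k → ℝ) × ℝ => pf (a 0) (b 0) p.2 :=
    (continuous_pf _ _).comp (by fun_prop)
  have clo0 : Continuous fun p : (Fin k → ℝ) × ℝ => lo (a 0) (b 0) J p.2 :=
    (continuous_lo _ _ _).comp (by fun_prop)
  have cP : Continuous fun p : (Fin k → ℝ) × ℝ =>
      ∏ j : Fin k, pf (a j.succ) (b j.succ) (p.2 + p.1 j) :=
    continuous_finsetProd _ fun j _ => cpf j
  have cL : Continuous fun p : (Fin k → ℝ) × ℝ =>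
      ∏ j : Fin k, lo (a j.succ) (b j.succ) J (p.2 + p.1 j) :=
    continuous_finsetProd _ fun j _ => clo j
  have cLn : Continuous fun p : (Fin k → ℝ) × ℝ =>
      ∏ j : Fin k, ‖lo (a j.succ) (b j.succ) J (p.2 + p.1 j)‖ :=
    continuous_finsetProd _ fun j _ => (clo j).norm
  have ePR : ∀ v t, PR a b v t = pf (a 0) (b 0) t *
      ∏ j : Fin k, pf (a j.succ) (b j.succ) (t + v j) := by
    intro v t
    unfold PR
    rw [Fin.prod_univ_succ]
    simp [fx]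
  have ePL : ∀ v t, PL a b J v t = lo (a 0) (b 0) J t *
      ∏ j : Fin k, lo (a j.succ) (b j.succ) J (t + v j) := by
    intro v t
    unfold PL
    rw [Fin.prod_univ_succ]
    simp [fx]
  -- the three test functions
  set F₁ : (Fin k → ℝ) → ℝ → ℂ := fun v t => pf (a 0) (b 0) t *
    (∏ j : Fin k, pf (a j.succ) (b j.succ) (t + v j) -
      ∏ j : Fin k, lo (a j.succ) (b j.succ) J (t + v j)) with hF₁
  set F₂ : (Fin k → ℝ) → ℝ → ℝ := fun v t => ‖pf (a 0) (b 0) t‖ *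
      ∏ j : Fin k, ‖lo (a j.succ) (b j.succ) J (t + v j)‖ with hF₂
  set F₃ : (Fin k → ℝ) → ℝ → ℂ := fun v t => (pf (a 0) (b 0) t - lo (a 0) (b 0) J t) *
      ∏ j : Fin k, lo (a j.succ) (b j.succ) J (t + v j) with hF₃
  set F₄ : (Fin k → ℝ) → ℝ → ℂ := fun v t => pf (a 0) (b 0) t *
      ∏ j : Fin k, lo (a j.succ) (b j.succ) J (t + v j) with hF₄
  have cF₁ : Continuous (Function.uncurry F₁) := cpf0.mul (cP.sub cL)
  have cF₂ : Continuous (Function.uncurry F₂) := cpf0.norm.mul cLn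
  have cF₃ : Continuous (Function.uncurry F₃) := (cpf0.sub clo0).mul cL
  have cF₄ : Continuous (Function.uncurry F₄) := cpf0.mul cL
  have cPR : Continuous (Function.uncurry fun v t => PR a b v t) := by
    have : (Function.uncurry fun v t => PR a b v t) = fun p : (Fin k → ℝ) × ℝ =>
        pf (a 0) (b 0) p.2 * ∏ j : Fin k, pf (a j.succ) (b j.succ) (p.2 + p.1 j) := by
      funext p
      exact ePR p.1 p.2
    rw [this]
    exact cpf0.mul cP
  have cPL : Continuous (Function.uncurry fun v t => PL a b J v t) := by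
    have : (Function.uncurry fun v t => PL a b J v t) = fun p : (Fin k → ℝ) × ℝ =>
        lo (a 0) (b 0) J p.2 * ∏ j : Fin k, lo (a j.succ) (b j.succ) J (p.2 + p.1 j) := by
      funext p
      exact ePL p.1 p.2
    rw [this]
    exact clo0.mul cL
  have hIoc : ∀ (F : ℝ → ℂ), ∫ t in T₀..T, F t = ∫ t in Icc T₀ T, F t := by
    intro F
    rw [intervalIntegral.integral_of_le hT₀T, ← integral_Icc_eq_integral_Ioc]
  have sec : ∀ {E : Type} [NormedAddCommGroup E] (F : (Fin k → ℝ) → ℝ → E),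
      Continuous (Function.uncurry F) → ∀ v, IntegrableOn (F v) (Icc T₀ T) := by
    intro E _ F hF v
    have : Continuous (F v) := hF.comp (by fun_prop : Continuous fun t : ℝ => (v, t))
    exact this.continuousOn.integrableOn_compact isCompact_Icc
  have hpt : ∀ v : Fin k → ℝ, ‖(∫ t in G, PR a b v t) - ∫ t in T₀..T, PL a b J v t‖ ≤
      ‖∫ t in G, F₁ v t‖ + (∫ t in S, F₂ v t) + ‖∫ t in T₀..T, F₃ v t‖ := by
    intro v
    have i1 := sec F₁ cF₁ v
    have i4 := sec F₄ cF₄ v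
    have i3 := sec F₃ cF₃ v
    have iL := sec (fun v t => PL a b J v t) cPL v
    have e1 : ∫ t in G, PR a b v t = (∫ t in G, F₁ v t) + ∫ t in G, F₄ v t := by
      rw [← integral_add (i1.mono_set hGs) (i4.mono_set hGs)]
      refine setIntegral_congr_fun hG fun t _ => ?_
      simp only [ePR, hF₁, hF₄]
      ring
    have e2 : ∫ t in Icc T₀ T, F₄ v t = (∫ t in S, F₄ v t) + ∫ t in G, F₄ v t := by
      rw [hS, ← setIntegral_union Set.disjoint_sdiff_left hG (i4.mono_set Set.sdiff_subset)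
        (i4.mono_set hGs), Set.sdiff_union_of_subset hGs]
    have e3 : ∫ t in T₀..T, PL a b J v t = (∫ t in Icc T₀ T, F₄ v t) - ∫ t in T₀..T, F₃ v t := by
      rw [hIoc, hIoc, ← integral_sub i4 i3]
      refine setIntegral_congr_fun measurableSet_Icc fun t _ => ?_
      simp only [ePL, hF₃, hF₄]
      ring
    have e4 : (∫ t in G, PR a b v t) - ∫ t in T₀..T, PL a b J v t =
        (∫ t in G, F₁ v t) - (∫ t in S, F₄ v t) + ∫ t in T₀..T, F₃ v t := by
      rw [e1, e3, e2]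
      ring
    have e5 : ‖∫ t in S, F₄ v t‖ ≤ ∫ t in S, F₂ v t := by
      refine (norm_integral_le_integral_norm _).trans (le_of_eq ?_)
      refine setIntegral_congr_fun hSm fun t _ => ?_
      simp only [hF₂, hF₄, norm_mul, norm_prod]
    rw [e4]
    refine (norm_add_le _ _).trans ?_
    have := norm_sub_le (∫ t in G, F₁ v t) (∫ t in S, F₄ v t)
    linarith
  have c1 : Continuous fun v => ‖∫ t in G, F₁ v t‖ := (tgf_cont F₁ cF₁ hGs).norm
  have c2 : Continuous fun v => ∫ t in S, F₂ v t := tgf_cont F₂ cF₂ hSs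
  have c3 : Continuous fun v => ‖∫ t in T₀..T, F₃ v t‖ := by
    simp only [hIoc]
    exact (tgf_cont F₃ cF₃ subset_rfl).norm
  have c0 : Continuous fun v => ‖(∫ t in G, PR a b v t) - ∫ t in T₀..T, PL a b J v t‖ := by
    simp only [hIoc]
    exact ((tgf_cont _ cPR hGs).sub (tgf_cont _ cPL subset_rfl)).norm
  have main := tgf_mono _ _ _ _ H c1 c2 c3 c0 hpt
  refine main.trans ?_
  set X := T ^ ((20 + 6 * (k:ℝ)) * ε) with hX
  set P := T ^ (1 - y / 2 + k * d / 2) with hP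
  set V := (T * (volume S).toReal) ^ (1 / 2 : ℝ) with hV
  set W := (T * H) ^ (1 / 2 : ℝ) with hW
  have hX0 : 0 < X := Real.rpow_pos_of_pos hT0 _
  have hP0 : 0 < P := Real.rpow_pos_of_pos hT0 _
  have hV0 : 0 ≤ V := Real.rpow_nonneg (mul_nonneg hT0.le ENNReal.toReal_nonneg) _
  have hW0 : 0 ≤ W := Real.rpow_nonneg (by positivity) _
  have hk0 : (0:ℝ) ≤ k := Nat.cast_nonneg k
  have hE : (0:ℝ) ≤ (2 * H) ^ k := by positivity
  have r1 : C₁ * T ^ (1 - y / 2 + k * d / 2 + (20 + 6 * k) * ε) = C₁ * X * P := by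
    rw [Real.rpow_add hT0]
    ring
  have r2 : C₂ * T ^ ((10 + 3 * (k:ℝ)) * ε) * V ≤ C₂ * X * V := by
    have : T ^ ((10 + 3 * (k:ℝ)) * ε) ≤ X :=
      Real.rpow_le_rpow_of_exponent_le hT (by nlinarith)
    have hC₂0 : 0 ≤ C₂ := by linarith
    gcongr
  have hpow : ∀ {z w : ℝ}, 0 < z → T ^ w / 2 ≤ z → y ≤ w →
      z ^ (-(1 / 2) : ℝ) ≤ 2 * T ^ (-(y / 2)) := by
    intro z w hz hzw hyw
    have hTw : 0 < T ^ w := Real.rpow_pos_of_pos hT0 _
    have hTy : 0 < T ^ y := Real.rpow_pos_of_pos hT0 _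
    have s1 : T ^ y / 2 ≤ z := by
      have := Real.rpow_le_rpow_of_exponent_le hT hyw
      linarith
    have s2 : z ^ (-(1 / 2) : ℝ) ≤ (T ^ y / 2) ^ (-(1 / 2) : ℝ) :=
      Real.rpow_le_rpow_of_nonpos (by positivity) s1 (by norm_num)
    have s3 : (T ^ y / 2) ^ (-(1 / 2) : ℝ) = T ^ (-(y / 2)) * 2 ^ (1 / 2 : ℝ) := by
      rw [div_eq_mul_inv, Real.mul_rpow hTy.le (by norm_num), ← Real.rpow_mul hT0.le,
        Real.inv_rpow (by norm_num), ← Real.rpow_neg (by norm_num)]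
      congr 1
      · congr 1; ring
      · norm_num
    have s4 : (2:ℝ) ^ (1 / 2 : ℝ) ≤ 2 := by
      calc (2:ℝ) ^ (1 / 2 : ℝ) ≤ 2 ^ (1:ℝ) :=
            Real.rpow_le_rpow_of_exponent_le (by norm_num) (by norm_num)
        _ = 2 := Real.rpow_one 2
    have s5 : 0 < T ^ (-(y / 2)) := Real.rpow_pos_of_pos hT0 _
    rw [s3] at s2
    nlinarith
  have q1 : (2:ℝ) ^ (-(J : ℝ) / 2) ≤ 2 * T ^ (-(y / 2)) := by
    have := hpow (z := (2:ℝ) ^ J) (w := y) (by positivity) hJ1 le_rfl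
    have e : ((2:ℝ) ^ J) ^ (-(1 / 2) : ℝ) = (2:ℝ) ^ (-(J : ℝ) / 2) := by
      rw [← Real.rpow_natCast, ← Real.rpow_mul (by norm_num)]
      congr 1
      ring
    rwa [e] at this
  have q2 : H ^ (-(1 / 2) : ℝ) ≤ 2 * T ^ (-(y / 2)) := hpow hH0 hθH hyθ
  have q3 : T * T ^ (-(y / 2)) ≤ P := by
    calc T * T ^ (-(y / 2)) = T ^ (1 + -(y / 2)) := by
          rw [Real.rpow_add hT0, Real.rpow_one]
      _ ≤ P := Real.rpow_le_rpow_of_exponent_le hT (by
          have : 0 ≤ (k:ℝ) * d / 2 := by positivity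
          linarith)
  have r3 : C₃ * X * (T * (2 ^ (-(J : ℝ) / 2) + H ^ (-(1 / 2) : ℝ)) + W) ≤
      4 * C₃ * X * (P + W) := by
    have : T * ((2:ℝ) ^ (-(J : ℝ) / 2) + H ^ (-(1 / 2) : ℝ)) ≤ 4 * P := by nlinarith
    have hC₃0 : 0 ≤ C₃ * X := mul_nonneg (by linarith) hX0.le
    nlinarith
  have t1 : ∫ v in box k H, ‖∫ t in G, F₁ v t‖ ≤ (2 * H) ^ k * (C₁ * X * P) := by
    rw [← r1]; exact b₁
  have t2 : ∫ v in box k H, ∫ t in S, F₂ v t ≤ (2 * H) ^ k * (C₂ * X * V) :=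
    b₂.trans (mul_le_mul_of_nonneg_left r2 hE)
  have t3 : ∫ v in box k H, ‖∫ t in T₀..T, F₃ v t‖ ≤ (2 * H) ^ k * (4 * C₃ * X * (P + W)) :=
    b₃.trans (mul_le_mul_of_nonneg_left r3 hE)
  have t4 : C₁ * X * P + C₂ * X * V + 4 * C₃ * X * (P + W) ≤
      (C₁ + C₂ + 4 * C₃) * X * (P + V + W) := by
    have a1 : 0 ≤ C₁ * X * (V + W) := by
      have : 0 ≤ C₁ := by linarith
      positivity
    have a2 : 0 ≤ C₂ * X * (P + W) := by
      have : 0 ≤ C₂ := by linarith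
      positivity
    have a3 : 0 ≤ C₃ * X * V := by
      have : 0 ≤ C₃ := by linarith
      positivity
    nlinarith
  calc _ ≤ (2 * H) ^ k * (C₁ * X * P) + (2 * H) ^ k * (C₂ * X * V) +
        (2 * H) ^ k * (4 * C₃ * X * (P + W)) := by linarith
    _ = (2 * H) ^ k * (C₁ * X * P + C₂ * X * V + 4 * C₃ * X * (P + W)) := by ring
    _ ≤ (2 * H) ^ k * ((C₁ + C₂ + 4 * C₃) * X * (P + V + W)) :=
        mul_le_mul_of_nonneg_left t4 hE

end Pool.Agent.AAS
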