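import Pool.Agent.AAS.Defs7

set_option autoImplicit false

namespace Pool.Agent.AAS

open Complex Finset MeasureTheory Filter Topology Set
open Pool.Agent.H26

/-- The tuples with product `n`. -/
def TP (k n : ℕ) : Finset (Fin k → ℕ) :=
  (Fintype.piFinset fun _ : Fin k => n.divisors).filter (fun m => ∏ j, m j = n)

theorem mem_TP {k n : ℕ} (hn : n ≠ 0) {m : Fin k → ℕ} : m ∈ TP k n ↔ ∏ j, m j = n := by
  unfold TP
  rw [Finset.mem_filter, Fintype.mem_piFinset]
  refine ⟨fun h => h.2, fun h => ⟨fun j => ?_, h⟩⟩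
  rw [Nat.mem_divisors]
  exact ⟨h ▸ Finset.dvd_prod_of_mem m (Finset.mem_univ j), hn⟩

theorem prod_AF_apply {k : ℕ} (f : Fin k → ArithmeticFunction ℂ) {n : ℕ} (hn : n ≠ 0) :
    (∏ j, f j) n = ∑ m ∈ TP k n, ∏ j, f j (m j) := by
  induction k generalizing n with
  | zero =>
    simp only [Finset.univ_eq_empty, Finset.prod_empty, Finset.sum_const, nsmul_eq_mul, mul_one]
    rw [ArithmeticFunction.one_apply]
    by_cases h : n = 1
    · have : (TP 0 n).card = 1 := by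
        rw [Finset.card_eq_one]
        refine ⟨fun j => 0, ?_⟩
        ext m
        rw [mem_TP hn, Finset.mem_singleton]
        constructor
        · intro _
          exact Subsingleton.elim _ _
        · intro _
          simp [h]
      rw [if_pos h, this]
      simp
    · have : TP 0 n = ∅ := by
        rw [Finset.eq_empty_iff_forall_notMem]
        intro m hm
        rw [mem_TP hn] at hm
        simp only [Finset.univ_eq_empty, Finset.prod_empty] at hm
        exact h hm.symm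
      rw [if_neg h, this]
      simp
  | succ k ih =>
    rw [Fin.prod_univ_succ, ArithmeticFunction.mul_apply]
    have h1 : ∀ x ∈ n.divisorsAntidiagonal, f 0 x.1 * (∏ j : Fin k, f j.succ) x.2 =
        ∑ m ∈ TP k x.2, f 0 x.1 * ∏ j, f j.succ (m j) := by
      intro x hx
      rw [ih (fun j => f j.succ) (Nat.ne_zero_of_mem_divisorsAntidiagonal hx).2, Finset.mul_sum]
    rw [Finset.sum_congr rfl h1, Finset.sum_sigma']
    refine Finset.sum_bij' (fun x _ => (Fin.cons x.1.1 x.2 : Fin (k + 1) → ℕ))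
      (fun m _ => ⟨(m 0, ∏ j : Fin k, m j.succ), fun j => m j.succ⟩) ?_ ?_ ?_ ?_ ?_
    · rintro ⟨x, m⟩ hx
      rw [Finset.mem_sigma] at hx
      obtain ⟨hx1, hx2⟩ := hx
      simp only at hx1 hx2
      have hx3 := (Nat.ne_zero_of_mem_divisorsAntidiagonal hx1).2
      rw [mem_TP hx3] at hx2
      rw [mem_TP hn, Fin.prod_univ_succ]
      simp only [Fin.cons_zero, Fin.cons_succ]
      rw [hx2]
      exact (Nat.mem_divisorsAntidiagonal.1 hx1).1
    · intro m hm
      rw [mem_TP hn, Fin.prod_univ_succ] at hm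
      rw [Finset.mem_sigma]
      have h2 : (m 0, ∏ j : Fin k, m j.succ) ∈ n.divisorsAntidiagonal :=
        Nat.mem_divisorsAntidiagonal.2 ⟨hm, hn⟩
      exact ⟨h2, (mem_TP (Nat.ne_zero_of_mem_divisorsAntidiagonal h2).2).2 rfl⟩
    · rintro ⟨x, m⟩ hx
      rw [Finset.mem_sigma] at hx
      obtain ⟨hx1, hx2⟩ := hx
      simp only at hx1 hx2
      have hx3 := (Nat.ne_zero_of_mem_divisorsAntidiagonal hx1).2
      rw [mem_TP hx3] at hx2
      simp only [Fin.cons_zero, Fin.cons_succ]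
      rw [hx2]
    · intro m hm
      funext j
      refine Fin.cases ?_ (fun j => ?_) j
      · simp
      · simp
    · rintro ⟨x, m⟩ hx
      rw [Fin.prod_univ_succ]
      simp only [Fin.cons_zero, Fin.cons_succ]

/-- the coefficients of a product of `pw`s over `Fin k`, as a sum over tuples with product `n`
(by induction on a finset of indices) -/
theorem prod_pw_apply {k : ℕ} (c : Fin k → ℂ) {n : ℕ} (hn : n ≠ 0) :
    (∏ j, pw (c j)) n = ∑ m ∈ (Fintype.piFinset fun _ : Fin k => n.divisors).filter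
      (fun m => ∏ j, m j = n), ∏ j, ((m j : ℕ) : ℂ) ^ (-(I * c j)) := by
  rw [prod_AF_apply _ hn]
  refine Finset.sum_congr rfl fun m hm => Finset.prod_congr rfl fun j _ => ?_
  have h := Fintype.mem_piFinset.1 (Finset.mem_filter.1 hm).1 j
  exact pw_apply _ (Nat.pos_of_mem_divisors h).ne'

theorem AF_S0 {k : ℕ} (f : Ix k → ℂ) : AF (S0 k) f = ∏ j : Fin k, pw (f (Sum.inl j)) := by
  unfold AF
  have : S0 k = (univ : Finset (Fin k)).map ⟨Sum.inl, Sum.inl_injective⟩ := by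
    ext i
    rcases i with i | i <;> simp [S0]
  rw [this, Finset.prod_map]
  rfl

theorem AF_S0_compl {k : ℕ} (f : Ix k → ℂ) : AF (S0 k)ᶜ f = ∏ j : Fin k, pw (f (Sum.inr j)) := by
  unfold AF
  have : (S0 k)ᶜ = (univ : Finset (Fin k)).map ⟨Sum.inr, Sum.inr_injective⟩ := by
    ext i
    rcases i with i | i <;> simp [S0]
  rw [this, Finset.prod_map]
  rfl

/-- every pair of tuples `(m, n)` with product `N` is uniquely `g` times a reduced tuple: the
Dirichlet convolution identity -/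
theorem dcoef_eq_conv {k : ℕ} (a b u : Fin k → ℝ) {N : ℕ} (hN : N ≠ 0) :
    dcoef (S0 k) (fun i => gm a b u i) N =
      ∑ x ∈ N.divisorsAntidiagonal,
        (∏ j, pw (((a j - b j : ℝ)) : ℂ)) x.1 * cq a b u x.2 := by
  unfold dcoef
  rw [AF_S0, AF_S0_compl, prod_pw_apply _ hN, prod_pw_apply _ hN, Finset.sum_mul_sum, ← Finset.sum_product']
  have h1 : ∀ x ∈ N.divisorsAntidiagonal,
      (∏ j, pw (((a j - b j : ℝ)) : ℂ)) x.1 * cq a b u x.2 =
      ∑ y ∈ (TP k x.1) ×ˢ ((Dg k x.2).filter (fun p => ∏ j, (p j).1 = x.2)),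
        (∏ j, ((y.1 j : ℕ) : ℂ) ^ (-(I * ((a j - b j : ℝ) : ℂ)))) *
        ∏ j, (((y.2 j).1 : ℂ) ^ (-(I * (a j + u j))) * ((y.2 j).2 : ℂ) ^ (I * (b j + u j))) := by
    intro x hx
    rw [prod_pw_apply _ (Nat.ne_zero_of_mem_divisorsAntidiagonal hx).1]
    unfold cq
    rw [Finset.sum_mul_sum, ← Finset.sum_product']
    rfl
  rw [Finset.sum_congr rfl h1, Finset.sum_sigma']
  change ∑ x ∈ TP k N ×ˢ TP k N, _ = _
  refine Finset.sum_bij'
    (fun x _ => (⟨(∏ j, Nat.gcd (x.1 j) (x.2 j), ∏ j, x.1 j / Nat.gcd (x.1 j) (x.2 j)),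
      (fun j => Nat.gcd (x.1 j) (x.2 j),
        fun j => (x.1 j / Nat.gcd (x.1 j) (x.2 j), x.2 j / Nat.gcd (x.1 j) (x.2 j)))⟩ :
        Σ _ : ℕ × ℕ, (Fin k → ℕ) × (Fin k → ℕ × ℕ)))
    (fun y _ => (fun j => y.2.1 j * (y.2.2 j).1, fun j => y.2.1 j * (y.2.2 j).2)) ?_ ?_ ?_ ?_ ?_
  · rintro ⟨m, n⟩ hx
    rw [Finset.mem_product, mem_TP hN, mem_TP hN] at hx
    obtain ⟨hm, hn⟩ := hx
    simp only at hm hn
    have hm0 : ∀ j, m j ≠ 0 := fun j h0 => hN (by
      rw [← hm]; exact Finset.prod_eq_zero (Finset.mem_univ j) h0)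
    have hg0 : ∀ j, Nat.gcd (m j) (n j) ≠ 0 := fun j h0 => hm0 j (Nat.eq_zero_of_gcd_eq_zero_left h0)
    have hN1 : (∏ j, Nat.gcd (m j) (n j)) * ∏ j, m j / Nat.gcd (m j) (n j) = N := by
      rw [← Finset.prod_mul_distrib, ← hm]
      exact Finset.prod_congr rfl fun j _ => Nat.mul_div_cancel' (Nat.gcd_dvd_left _ _)
    have hN2 : (∏ j, Nat.gcd (m j) (n j)) * ∏ j, n j / Nat.gcd (m j) (n j) = N := by
      rw [← Finset.prod_mul_distrib, ← hn]
      exact Finset.prod_congr rfl fun j _ => Nat.mul_div_cancel' (Nat.gcd_dvd_right _ _)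
    have hG0 : (∏ j, Nat.gcd (m j) (n j)) ≠ 0 := Finset.prod_ne_zero_iff.2 fun j _ => hg0 j
    have hEq : ∏ j, m j / Nat.gcd (m j) (n j) = ∏ j, n j / Nat.gcd (m j) (n j) :=
      Nat.eq_of_mul_eq_mul_left (Nat.pos_of_ne_zero hG0) (hN1.trans hN2.symm)
    have hM0 : (∏ j, m j / Nat.gcd (m j) (n j)) ≠ 0 := fun h => hN (by rw [← hN1, h, mul_zero])
    have hM0' : (∏ j, n j / Nat.gcd (m j) (n j)) ≠ 0 := hEq ▸ hM0
    rw [Finset.mem_sigma, Finset.mem_product]
    refine ⟨Nat.mem_divisorsAntidiagonal.2 ⟨hN1, hN⟩, (mem_TP hG0).2 rfl, ?_⟩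
    rw [Finset.mem_filter]
    refine ⟨?_, rfl⟩
    unfold Dg
    rw [Finset.mem_filter, Fintype.mem_piFinset]
    refine ⟨fun j => ?_, fun j => ?_, hEq, Nat.pos_of_ne_zero hM0, le_refl _⟩
    · rw [Finset.mem_product, Finset.mem_range, Finset.mem_range, Nat.lt_succ_iff, Nat.lt_succ_iff]
      constructor
      · exact Nat.le_of_dvd (Nat.pos_of_ne_zero hM0)
          (Finset.dvd_prod_of_mem (fun j => m j / Nat.gcd (m j) (n j)) (Finset.mem_univ j))
      · refine (Nat.le_of_dvd (Nat.pos_of_ne_zero hM0')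
          (Finset.dvd_prod_of_mem (fun j => n j / Nat.gcd (m j) (n j)) (Finset.mem_univ j))).trans ?_
        exact hEq.symm.le
    · exact Nat.coprime_div_gcd_div_gcd (Nat.pos_of_ne_zero (hg0 j))
  · rintro ⟨x, g, p⟩ hy
    rw [Finset.mem_sigma, Finset.mem_product] at hy
    obtain ⟨hx, hg, hp⟩ := hy
    simp only at hx hg hp
    have hx0 := Nat.ne_zero_of_mem_divisorsAntidiagonal hx
    rw [mem_TP hx0.1] at hg
    rw [Finset.mem_filter] at hp
    obtain ⟨hp1, hp2⟩ := hp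
    unfold Dg at hp1
    rw [Finset.mem_filter] at hp1
    obtain ⟨-, hcop, hEq, -, -⟩ := hp1
    rw [Finset.mem_product, mem_TP hN, mem_TP hN]
    simp only
    have hxN := (Nat.mem_divisorsAntidiagonal.1 hx).1
    constructor
    · rw [Finset.prod_mul_distrib, hg, hp2, hxN]
    · rw [Finset.prod_mul_distrib, hg, ← hEq, hp2, hxN]
  · rintro ⟨m, n⟩ hx
    simp only
    rw [Prod.mk.injEq]
    constructor
    · funext j
      exact Nat.mul_div_cancel' (Nat.gcd_dvd_left _ _)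
    · funext j
      exact Nat.mul_div_cancel' (Nat.gcd_dvd_right _ _)
  · rintro ⟨x, g, p⟩ hy
    rw [Finset.mem_sigma, Finset.mem_product] at hy
    obtain ⟨hx, hg, hp⟩ := hy
    simp only at hx hg hp
    have hx0 := Nat.ne_zero_of_mem_divisorsAntidiagonal hx
    rw [mem_TP hx0.1] at hg
    rw [Finset.mem_filter] at hp
    obtain ⟨hp1, hp2⟩ := hp
    unfold Dg at hp1
    rw [Finset.mem_filter] at hp1
    obtain ⟨-, hcop, hEq, -, -⟩ := hp1
    have hg0 : ∀ j, g j ≠ 0 := fun j h0 => hx0.1 (by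
      rw [← hg]; exact Finset.prod_eq_zero (Finset.mem_univ j) h0)
    have hgcd : ∀ j, Nat.gcd (g j * (p j).1) (g j * (p j).2) = g j := fun j => by
      rw [Nat.gcd_mul_left, Nat.Coprime.gcd_eq_one (hcop j), mul_one]
    simp only [hgcd]
    have hd1 : ∀ j, g j * (p j).1 / g j = (p j).1 := fun j =>
      Nat.mul_div_cancel_left _ (Nat.pos_of_ne_zero (hg0 j))
    have hd2 : ∀ j, g j * (p j).2 / g j = (p j).2 := fun j =>
      Nat.mul_div_cancel_left _ (Nat.pos_of_ne_zero (hg0 j))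
    simp only [hd1, hd2]
    rw [hg, hp2]
  · rintro ⟨m, n⟩ hx
    rw [Finset.mem_product, mem_TP hN, mem_TP hN] at hx
    obtain ⟨hm, hn⟩ := hx
    simp only at hm hn
    have hm0 : ∀ j, m j ≠ 0 := fun j h0 => hN (by
      rw [← hm]; exact Finset.prod_eq_zero (Finset.mem_univ j) h0)
    have hg0 : ∀ j, Nat.gcd (m j) (n j) ≠ 0 := fun j h0 => hm0 j (Nat.eq_zero_of_gcd_eq_zero_left h0)
    simp only
    rw [← Finset.prod_mul_distrib, ← Finset.prod_mul_distrib]
    refine Finset.prod_congr rfl fun j _ => ?_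
    set g := Nat.gcd (m j) (n j) with hg
    have hgne : (g : ℂ) ≠ 0 := by exact_mod_cast hg0 j
    have e1 : ((m j : ℕ) : ℂ) = (g : ℂ) * ((m j / g : ℕ) : ℂ) := by
      rw [← Nat.cast_mul, Nat.mul_div_cancel' (Nat.gcd_dvd_left _ _)]
    have e2 : ((n j : ℕ) : ℂ) = (g : ℂ) * ((n j / g : ℕ) : ℂ) := by
      rw [← Nat.cast_mul, Nat.mul_div_cancel' (Nat.gcd_dvd_right _ _)]
    rw [e1, e2, natCast_mul_natCast_cpow, natCast_mul_natCast_cpow]
    simp only [gm, Sum.elim_inl, Sum.elim_inr]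
    have e3 : (g : ℂ) ^ (-(I * ((a j - b j : ℝ) : ℂ))) =
        (g : ℂ) ^ (-(I * ((a j + u j : ℝ) : ℂ))) * (g : ℂ) ^ (-(I * ((-(b j + u j) : ℝ) : ℂ))) := by
      rw [← Complex.cpow_add _ _ hgne]
      congr 1
      push_cast
      ring
    rw [e3]
    have e4 : -(I * ((-(b j + u j) : ℝ) : ℂ)) = I * (b j + u j) := by push_cast; ring
    have e5 : -(I * ((a j + u j : ℝ) : ℂ)) = -(I * (a j + u j)) := by push_cast; ring
    rw [e4, e5]
    ring

end Pool.Agent.AAS
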