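import Pool.Agent.AAS.Defs

set_option autoImplicit false

namespace Pool.Agent.AAS

open Complex Finset MeasureTheory Filter Topology Set
open Pool.Agent.H26

namespace VKL

/-- lower bound for the sine away from the multiples of `π` -/
lemma sin_ge {δ θ : ℝ} (h1 : Real.pi * δ ≤ θ) (h2 : θ ≤ Real.pi - Real.pi * δ) (hδ : 0 < δ) :
    2 * δ ≤ Real.sin θ := by
  have hpi := Real.pi_pos
  have h0 : 0 < Real.pi * δ := by positivity
  rcases le_total θ (Real.pi / 2) with h | h
  · have h3 := Real.mul_le_sin (by linarith : 0 ≤ θ) h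
    have h4 : 2 * δ = 2 / Real.pi * (Real.pi * δ) := by field_simp
    rw [h4]
    refine le_trans ?_ h3
    gcongr
  · rw [← Real.sin_pi_sub]
    have h3 := Real.mul_le_sin (by linarith : 0 ≤ Real.pi - θ) (by linarith)
    have h4 : 2 * δ = 2 / Real.pi * (Real.pi * δ) := by field_simp
    rw [h4]
    refine le_trans ?_ h3
    gcongr
    linarith

/-- the cotangent -/
noncomputable def ct (θ : ℝ) : ℝ := Real.cos θ / Real.sin θ

lemma ct_anti {x y : ℝ} (hx : 0 < Real.sin x) (hy : 0 < Real.sin y) (hxy : x ≤ y)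
    (hpi : y - x ≤ Real.pi) : ct y ≤ ct x := by
  unfold ct
  rw [div_le_div_iff₀ hy hx]
  have h1 := Real.sin_nonneg_of_nonneg_of_le_pi (by linarith : 0 ≤ y - x) hpi
  rw [Real.sin_sub] at h1
  linarith

lemma abs_ct_le {δ θ : ℝ} (hδ : 0 < δ) (h : 2 * δ ≤ Real.sin θ) : |ct θ| ≤ 1 / (2 * δ) := by
  have hs : 0 < Real.sin θ := by linarith
  unfold ct
  rw [abs_div, abs_of_pos hs]
  exact div_le_div₀ zero_le_one (Real.abs_cos_le_one θ) (by positivity) h

/-- the factor of the summation by parts -/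
noncomputable def cc (θ : ℝ) : ℂ := (1 + (ct θ : ℂ) * I) / 2

lemma cc_mul {θ : ℝ} (hs : Real.sin θ ≠ 0) : cc θ * (1 - cexp (2 * θ * I)) = 1 := by
  have hs' : (Real.sin θ : ℂ) ≠ 0 := by exact_mod_cast hs
  have e : cexp (2 * θ * I) = ((Real.cos θ : ℂ) + (Real.sin θ : ℂ) * I) ^ 2 := by
    rw [show (2 * θ * I : ℂ) = ((2 : ℕ) : ℂ) * (θ * I) by push_cast; ring, Complex.exp_nat_mul,
      Complex.exp_mul_I, Complex.ofReal_cos, Complex.ofReal_sin]
  have h1 : (Real.sin θ : ℂ) ^ 2 + (Real.cos θ : ℂ) ^ 2 = 1 := by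
    exact_mod_cast Real.sin_sq_add_cos_sq θ
  have h2 : I ^ 2 = -1 := Complex.I_sq
  have hct : (ct θ : ℂ) = (Real.cos θ : ℂ) / (Real.sin θ : ℂ) := Complex.ofReal_div _ _
  rw [e]
  unfold cc
  rw [hct]
  generalize (Real.sin θ : ℂ) = s at *
  generalize (Real.cos θ : ℂ) = c at *
  have h3 : (1 + c / s * I) / 2 * (1 - (c + s * I) ^ 2) =
      ((s + c * I) * (1 - (c + s * I) ^ 2)) / (2 * s) := by
    field_simp
  rw [h3, div_eq_one_iff_eq (by simpa using hs')]
  linear_combination (2 * s - (s + c * I)) * h1 + (-2 * s * c ^ 2 - (s + c * I) * s ^ 2) * h2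

lemma norm_cc {δ θ : ℝ} (hδ : 0 < δ) (h : 2 * δ ≤ Real.sin θ) : ‖cc θ‖ ≤ 1 / (4 * δ) := by
  have hs : 0 < Real.sin θ := by linarith
  have h1 : ‖(1 + (ct θ : ℂ) * I)‖ = 1 / Real.sin θ := by
    have e : (1 + (ct θ : ℂ) * I) = ((1 : ℝ) : ℂ) + (ct θ : ℂ) * I := by push_cast; ring
    rw [e, Complex.norm_add_mul_I]
    have h2 : (1 : ℝ) ^ 2 + ct θ ^ 2 = (1 / Real.sin θ) ^ 2 := by
      unfold ct
      field_simp
      exact Real.sin_sq_add_cos_sq θ
    rw [h2, Real.sqrt_sq (by positivity)]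
  unfold cc
  rw [norm_div, h1]
  have h2 : ‖(2 : ℂ)‖ = 2 := by norm_num
  rw [h2, div_div]
  apply one_div_le_one_div_of_le (by positivity)
  linarith

/-- summation by parts -/
lemma by_parts (E C : ℕ → ℂ) (a k : ℕ) (h : ∀ n, a ≤ n → n ≤ a + k → C n * (E n - E (n + 1)) = E n) :
    ∑ n ∈ Finset.Ico a (a + k + 1), E n = C a * E a - C (a + k) * E (a + k + 1) +
      ∑ j ∈ Finset.range k, (C (a + j + 1) - C (a + j)) * E (a + j + 1) := by
  induction k with
  | zero =>
    rw [Finset.sum_Ico_succ_top (by omega)]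
    simp only [add_zero, Finset.Ico_self, Finset.sum_empty, Finset.range_zero, zero_add]
    have := h a le_rfl (by omega)
    linear_combination -this
  | succ k ih =>
    rw [Finset.sum_Ico_succ_top (by omega), show a + (k + 1) = a + k + 1 by ring,
      ih (fun n h1 h2 => h n h1 (by omega)), Finset.sum_range_succ]
    have := h (a + k + 1) (by omega) (by omega)
    linear_combination -this

end VKL

/-- the inequality of Kusmin and Landau.  `g n = f (n+1) - f n`, `C n = (1 - e(g n))⁻¹ =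
(1 + i cot (π g n)) / 2`, `e(f n) = C n (e(f n) - e(f (n+1)))`, summation by parts, `cot` is
monotone on `(ν, ν+1)` (scaled by `π`), `|C n| ≤ 1 / (4 δ)`, `|cot (π g)| ≤ 1 / (2 δ)`. -/
theorem kusmin_landau {f : ℕ → ℝ} {a b : ℕ} {δ : ℝ} {ν : ℤ} (hδ : 0 < δ)
    (hmono : ∀ n, a ≤ n → n + 1 < b → f (n + 1) - f n ≤ f (n + 2) - f (n + 1))
    (hl : ∀ n, a ≤ n → n < b → (ν : ℝ) + δ ≤ f (n + 1) - f n)
    (hu : ∀ n, a ≤ n → n < b → f (n + 1) - f n ≤ (ν : ℝ) + 1 - δ) :
    ‖∑ n ∈ Finset.Ico a b, cexp (2 * Real.pi * I * f n)‖ ≤ 1 / δ := by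
  rcases le_or_gt b a with hab | hab
  · rw [Finset.Ico_eq_empty_of_le hab, Finset.sum_empty, norm_zero]
    positivity
  obtain ⟨k, rfl⟩ : ∃ k, b = a + k + 1 := ⟨b - a - 1, by omega⟩
  have hpi := Real.pi_pos
  set th : ℕ → ℝ := fun n => Real.pi * (f (n + 1) - f n - ν) with hth
  have hth1 : ∀ n, a ≤ n → n ≤ a + k → Real.pi * δ ≤ th n := by
    intro n h1 h2
    have := hl n h1 (by omega)
    simp only [hth]
    gcongr
    linarith
  have hth2 : ∀ n, a ≤ n → n ≤ a + k → th n ≤ Real.pi - Real.pi * δ := by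
    intro n h1 h2
    have := hu n h1 (by omega)
    have e : Real.pi - Real.pi * δ = Real.pi * (1 - δ) := by ring
    simp only [hth]
    rw [e]
    exact mul_le_mul_of_nonneg_left (by linarith) hpi.le
  have hsin : ∀ n, a ≤ n → n ≤ a + k → 2 * δ ≤ Real.sin (th n) := fun n h1 h2 =>
    VKL.sin_ge (hth1 n h1 h2) (hth2 n h1 h2) hδ
  have hE : ∀ n, cexp (2 * Real.pi * I * f (n + 1)) =
      cexp (2 * Real.pi * I * f n) * cexp (2 * (th n : ℂ) * I) := by
    intro n
    rw [← Complex.exp_add]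
    have e : (2 * Real.pi * I * f (n + 1) : ℂ) =
        2 * Real.pi * I * f n + 2 * (th n : ℂ) * I + ν * (2 * Real.pi * I) := by
      simp only [hth]
      push_cast
      ring
    rw [e, Complex.exp_add, Complex.exp_int_mul_two_pi_mul_I, mul_one]
  have hC : ∀ n, a ≤ n → n ≤ a + k → VKL.cc (th n) *
      (cexp (2 * Real.pi * I * f n) - cexp (2 * Real.pi * I * f (n + 1))) =
        cexp (2 * Real.pi * I * f n) := by
    intro n h1 h2
    have h3 := VKL.cc_mul (θ := th n) (by have := hsin n h1 h2; linarith)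
    rw [hE n]
    linear_combination cexp (2 * Real.pi * I * f n) * h3
  have hnorm : ∀ n, ‖cexp (2 * Real.pi * I * f n)‖ = 1 := by
    intro n
    rw [show (2 * Real.pi * I * f n : ℂ) = ((2 * Real.pi * f n : ℝ) : ℂ) * I by push_cast; ring]
    exact Complex.norm_exp_ofReal_mul_I _
  rw [VKL.by_parts (fun n => cexp (2 * Real.pi * I * f n)) (fun n => VKL.cc (th n)) a k hC]
  have b1 : ‖VKL.cc (th a) * cexp (2 * Real.pi * I * f a)‖ ≤ 1 / (4 * δ) := by
    rw [norm_mul, hnorm, mul_one]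
    exact VKL.norm_cc hδ (hsin a le_rfl (by omega))
  have b2 : ‖VKL.cc (th (a + k)) * cexp (2 * Real.pi * I * f (a + k + 1))‖ ≤ 1 / (4 * δ) := by
    rw [norm_mul, hnorm, mul_one]
    exact VKL.norm_cc hδ (hsin (a + k) (by omega) (by omega))
  have b3 : ‖∑ j ∈ Finset.range k, (VKL.cc (th (a + j + 1)) - VKL.cc (th (a + j))) *
      cexp (2 * Real.pi * I * f (a + j + 1))‖ ≤
      (VKL.ct (th a) - VKL.ct (th (a + k))) / 2 := by
    refine (norm_sum_le _ _).trans ?_
    have h1 : ∀ j ∈ Finset.range k, ‖(VKL.cc (th (a + j + 1)) - VKL.cc (th (a + j))) *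
        cexp (2 * Real.pi * I * f (a + j + 1))‖ ≤
        VKL.ct (th (a + j)) / 2 - VKL.ct (th (a + (j + 1))) / 2 := by
      intro j hj
      rw [Finset.mem_range] at hj
      rw [norm_mul, hnorm, mul_one]
      have e : VKL.cc (th (a + j + 1)) - VKL.cc (th (a + j)) =
          (((VKL.ct (th (a + j + 1)) - VKL.ct (th (a + j))) / 2 : ℝ) : ℂ) * I := by
        unfold VKL.cc
        push_cast
        ring
      rw [e, norm_mul, Complex.norm_I, mul_one, Complex.norm_real, Real.norm_eq_abs]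
      have h2 : VKL.ct (th (a + j + 1)) ≤ VKL.ct (th (a + j)) := by
        have s1 := hsin (a + j) (by omega) (by omega)
        have s2 := hsin (a + j + 1) (by omega) (by omega)
        apply VKL.ct_anti (by linarith) (by linarith)
        · have := hmono (a + j) (by omega) (by omega)
          simp only [hth]
          rw [show a + j + 1 + 1 = a + j + 2 by ring]
          gcongr
        · have := hth1 (a + j) (by omega) (by omega)
          have := hth2 (a + j + 1) (by omega) (by omega)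
          have : 0 < Real.pi * δ := by positivity
          linarith
      rw [abs_of_nonpos (by linarith), show a + (j + 1) = a + j + 1 by ring]
      linarith
    refine (Finset.sum_le_sum h1).trans ?_
    have h2 := Finset.sum_range_sub' (fun j => VKL.ct (th (a + j)) / 2) k
    rw [h2, add_zero]
    linarith
  have c1 := abs_le.1 (VKL.abs_ct_le hδ (hsin a le_rfl (by omega)))
  have c2 := abs_le.1 (VKL.abs_ct_le hδ (hsin (a + k) (by omega) (by omega)))
  refine (norm_add_le _ _).trans ?_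
  have b4 := norm_sub_le (VKL.cc (th a) * cexp (2 * Real.pi * I * f a))
    (VKL.cc (th (a + k)) * cexp (2 * Real.pi * I * f (a + k + 1)))
  have e1 : 1 / δ = 1 / (4 * δ) + 1 / (4 * δ) + (1 / (2 * δ) + 1 / (2 * δ)) / 2 := by
    field_simp
    norm_num
  linarith [c1.1, c1.2, c2.1, c2.2]

end Pool.Agent.AAS
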