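import Pool.Agent.AAS.Defs

set_option autoImplicit false

namespace Pool.Agent.AAS

open Complex Finset MeasureTheory Filter Topology Set
open Pool.Agent.H26

/-- partial summation with an increasing weight: `∑ w z = w a Z(a,b) + ∑ (w (n+1) - w n) Z(n+1,b)` -/
theorem norm_sum_mono_le {z : ℕ → ℂ} {w : ℕ → ℝ} {a b : ℕ} {S W : ℝ} (hS0 : 0 ≤ S)
    (hS : ∀ a', a ≤ a' → a' ≤ b → ‖∑ n ∈ Finset.Ico a' b, z n‖ ≤ S)
    (hw0 : ∀ n, a ≤ n → n < b → 0 ≤ w n) (hW0 : 0 ≤ W) (hW : ∀ n, a ≤ n → n < b → w n ≤ W)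
    (hw : ∀ n, a ≤ n → n + 1 < b → w n ≤ w (n + 1)) :
    ‖∑ n ∈ Finset.Ico a b, (w n : ℂ) * z n‖ ≤ W * S := by
  rcases le_or_gt b a with hab | hab
  · rw [Finset.Ico_eq_empty_of_le hab, Finset.sum_empty, norm_zero]
    positivity
  have key : ∀ k a', a ≤ a' → a' + k + 1 = b →
      ‖∑ n ∈ Finset.Ico a' b, ((w n - w a' : ℝ) : ℂ) * z n‖ ≤ (w (b - 1) - w a') * S := by
    intro k
    induction k with
    | zero =>
      intro a' ha' hb
      subst hb
      simp
    | succ k ih =>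
      intro a' ha' hb
      have h1 := ih (a' + 1) (by omega) (by omega)
      have h2 : ∑ n ∈ Finset.Ico a' b, ((w n - w a' : ℝ) : ℂ) * z n =
          ∑ n ∈ Finset.Ico (a' + 1) b, ((w n - w (a' + 1) : ℝ) : ℂ) * z n +
            ((w (a' + 1) - w a' : ℝ) : ℂ) * ∑ n ∈ Finset.Ico (a' + 1) b, z n := by
        rw [Finset.sum_eq_sum_Ico_succ_bot (by omega : a' < b), sub_self, ofReal_zero, zero_mul,
          zero_add, Finset.mul_sum, ← Finset.sum_add_distrib]
        refine Finset.sum_congr rfl fun n _ => ?_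
        push_cast
        ring
      have h3 : 0 ≤ w (a' + 1) - w a' := sub_nonneg.2 (hw a' ha' (by omega))
      rw [h2]
      refine (norm_add_le _ _).trans ?_
      rw [norm_mul, Complex.norm_real, Real.norm_of_nonneg h3]
      have h4 := mul_le_mul_of_nonneg_left (hS (a' + 1) (by omega) (by omega)) h3
      linarith
  have h1 := key (b - 1 - a) a le_rfl (by omega)
  have h2 : ∑ n ∈ Finset.Ico a b, (w n : ℂ) * z n =
      ∑ n ∈ Finset.Ico a b, ((w n - w a : ℝ) : ℂ) * z n + (w a : ℂ) * ∑ n ∈ Finset.Ico a b, z n := by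
    rw [Finset.mul_sum, ← Finset.sum_add_distrib]
    refine Finset.sum_congr rfl fun n _ => ?_
    push_cast
    ring
  rw [h2]
  refine (norm_add_le _ _).trans ?_
  rw [norm_mul, Complex.norm_real, Real.norm_of_nonneg (hw0 a le_rfl hab)]
  have h4 := mul_le_mul_of_nonneg_left (hS a le_rfl hab.le) (hw0 a le_rfl hab)
  have h5 := mul_le_mul_of_nonneg_right (hW (b - 1) (by omega) (by omega)) hS0
  linarith

/-- partial summation with a decreasing weight -/
theorem norm_sum_anti_le {z : ℕ → ℂ} {w : ℕ → ℝ} {a b : ℕ} {S W : ℝ} (hS0 : 0 ≤ S)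
    (hS : ∀ b', a ≤ b' → b' ≤ b → ‖∑ n ∈ Finset.Ico a b', z n‖ ≤ S)
    (hw0 : ∀ n, a ≤ n → n < b → 0 ≤ w n) (hW0 : 0 ≤ W) (hW : ∀ n, a ≤ n → n < b → w n ≤ W)
    (hw : ∀ n, a ≤ n → n + 1 < b → w (n + 1) ≤ w n) :
    ‖∑ n ∈ Finset.Ico a b, (w n : ℂ) * z n‖ ≤ W * S := by
  rcases le_or_gt b a with hab | hab
  · rw [Finset.Ico_eq_empty_of_le hab, Finset.sum_empty, norm_zero]
    positivity
  have key : ∀ k, a + k + 1 ≤ b →
      ‖∑ n ∈ Finset.Ico a (a + k + 1), ((w n - w (a + k) : ℝ) : ℂ) * z n‖ ≤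
        (w a - w (a + k)) * S := by
    intro k
    induction k with
    | zero =>
      intro _
      simp
    | succ k ih =>
      intro hb
      have h1 := ih (by omega)
      have h2 : ∑ n ∈ Finset.Ico a (a + (k + 1) + 1), ((w n - w (a + (k + 1)) : ℝ) : ℂ) * z n =
          ∑ n ∈ Finset.Ico a (a + k + 1), ((w n - w (a + k) : ℝ) : ℂ) * z n +
            ((w (a + k) - w (a + (k + 1)) : ℝ) : ℂ) * ∑ n ∈ Finset.Ico a (a + k + 1), z n := by
        rw [Finset.sum_Ico_succ_top (by omega : a ≤ a + (k + 1)), sub_self, ofReal_zero, zero_mul,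
          add_zero, Finset.mul_sum]
        have h3 : a + (k + 1) = a + k + 1 := by ring
        rw [h3, ← Finset.sum_add_distrib]
        refine Finset.sum_congr rfl fun n _ => ?_
        push_cast
        ring
      have h3 : 0 ≤ w (a + k) - w (a + (k + 1)) :=
        sub_nonneg.2 (hw (a + k) (by omega) (by omega))
      rw [h2]
      refine (norm_add_le _ _).trans ?_
      rw [norm_mul, Complex.norm_real, Real.norm_of_nonneg h3]
      have h4 := mul_le_mul_of_nonneg_left (hS (a + k + 1) (by omega) (by omega)) h3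
      linarith
  have h1 := key (b - 1 - a) (by omega)
  have hb1 : a + (b - 1 - a) + 1 = b := by omega
  have hb2 : a + (b - 1 - a) = b - 1 := by omega
  rw [hb1, hb2] at h1
  have h2 : ∑ n ∈ Finset.Ico a b, (w n : ℂ) * z n =
      ∑ n ∈ Finset.Ico a b, ((w n - w (b - 1) : ℝ) : ℂ) * z n +
        (w (b - 1) : ℂ) * ∑ n ∈ Finset.Ico a b, z n := by
    rw [Finset.mul_sum, ← Finset.sum_add_distrib]
    refine Finset.sum_congr rfl fun n _ => ?_
    push_cast
    ring
  rw [h2]
  refine (norm_add_le _ _).trans ?_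
  have h0 := hw0 (b - 1) (by omega) (by omega)
  rw [norm_mul, Complex.norm_real, Real.norm_of_nonneg h0]
  have h4 := mul_le_mul_of_nonneg_left (hS b hab.le le_rfl) h0
  have h5 := mul_le_mul_of_nonneg_right (hW a le_rfl hab) hS0
  linarith

end Pool.Agent.AAS
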