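import Pool.Agent.AAS.VPH
import Pool.Agent.AAS.VPS

set_option autoImplicit false

namespace Pool.Agent.AAS

open Complex Finset MeasureTheory Filter Topology Set
open Pool.Agent.H26

private lemma VMS_gauss {H : ℝ} (hH : 0 < H) (μ : ℝ) :
    ∫ u : ℝ, ((Real.exp (1 - (u / H) ^ 2) : ℝ) : ℂ) * cexp (-(I * μ * u)) =
      ((Real.exp 1 * √Real.pi * H * Real.exp (-(H * μ) ^ 2 / 4) : ℝ) : ℂ) := by
  have hHc : (H : ℂ) ≠ 0 := by exact_mod_cast hH.ne'
  have h2 : ∀ u : ℝ, ((Real.exp (1 - (u / H) ^ 2) : ℝ) : ℂ) * cexp (-(I * μ * u)) =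
      cexp 1 * (cexp (I * ((-μ : ℝ) : ℂ) * u) * cexp (-((1 / H ^ 2 : ℝ) : ℂ) * u ^ 2)) := by
    intro u
    rw [Complex.ofReal_exp, ← Complex.exp_add, ← Complex.exp_add, ← Complex.exp_add]
    congr 1
    push_cast
    ring
  have hb : 0 < (((1 / H ^ 2 : ℝ)) : ℂ).re := by
    rw [Complex.ofReal_re]; positivity
  simp_rw [h2]
  rw [integral_const_mul, fourierIntegral_gaussian hb]
  have e1 : ((Real.pi : ℂ) / ((1 / H ^ 2 : ℝ) : ℂ)) ^ (1 / 2 : ℂ) = ((√Real.pi * H : ℝ) : ℂ) := by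
    have e2 : ((Real.pi : ℂ) / ((1 / H ^ 2 : ℝ) : ℂ)) = ((Real.pi * H ^ 2 : ℝ) : ℂ) := by
      push_cast
      field_simp
    rw [e2]
    have e3 : (1 / 2 : ℂ) = ((1 / 2 : ℝ) : ℂ) := by push_cast; ring
    rw [e3, ← Complex.ofReal_cpow (by positivity), ← Real.sqrt_eq_rpow,
      Real.sqrt_mul Real.pi_pos.le, Real.sqrt_sq hH.le]
  rw [e1]
  have e4 : -((-μ : ℝ) : ℂ) ^ 2 / (4 * ((1 / H ^ 2 : ℝ) : ℂ)) = ((-(H * μ) ^ 2 / 4 : ℝ) : ℂ) := by
    push_cast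
    field_simp
  rw [e4]
  push_cast
  ring

private lemma VMS_int {H : ℝ} (hH : 0 < H) (μ : ℝ) :
    Integrable (fun u : ℝ => ((Real.exp (1 - (u / H) ^ 2) : ℝ) : ℂ) * cexp (-(I * μ * u))) := by
  have h1 : Integrable (fun u : ℝ => Real.exp 1 * Real.exp (-(1 / H ^ 2) * u ^ 2)) :=
    (integrable_exp_neg_mul_sq (by positivity)).const_mul _
  refine Integrable.mono' h1 ?_ (Eventually.of_forall fun u => ?_)
  · refine Continuous.aestronglyMeasurable ?_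
    fun_prop
  · rw [norm_mul, norm_real, Real.norm_eq_abs, abs_of_pos (Real.exp_pos _)]
    have : -(I * μ * u) = ((-(μ * u) : ℝ) : ℂ) * I := by push_cast; ring
    rw [this, norm_exp_ofReal_mul_I, mul_one, ← Real.exp_add]
    apply Real.exp_le_exp.2
    apply le_of_eq
    field_simp
    ring

private lemma VMS_major {ι : Type*} (S : Finset ι) (b : ι → ℂ) (lam : ι → ℝ) {H : ℝ}
    (hH : 0 < H) :
    ∫ u in (-H)..H, ‖∑ r ∈ S, b r * cexp (-(I * lam r * u))‖ ^ 2 ≤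
      Real.exp 1 * √Real.pi * H * ‖∑ r ∈ S, ∑ s ∈ S, b r * (starRingEnd ℂ) (b s) *
        ((Real.exp (-(H * (lam r - lam s)) ^ 2 / 4) : ℝ) : ℂ)‖ := by
  set F : ℝ → ℂ := fun u => ∑ r ∈ S, b r * cexp (-(I * lam r * u)) with hF
  have hFc : Continuous F := by
    rw [hF]
    fun_prop
  have hexp : ∀ u : ℝ, ((Real.exp (1 - (u / H) ^ 2) * ‖F u‖ ^ 2 : ℝ) : ℂ) =
      ∑ r ∈ S, ∑ s ∈ S, b r * (starRingEnd ℂ) (b s) *
        (((Real.exp (1 - (u / H) ^ 2) : ℝ) : ℂ) * cexp (-(I * ((lam r - lam s : ℝ) : ℂ) * u))) := by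
    intro u
    rw [Complex.ofReal_mul, Complex.ofReal_pow, ← Complex.mul_conj']
    rw [hF]
    simp only [map_sum]
    rw [Finset.sum_mul_sum, Finset.mul_sum]
    refine Finset.sum_congr rfl fun r _ => ?_
    rw [Finset.mul_sum]
    refine Finset.sum_congr rfl fun s _ => ?_
    rw [map_mul]
    have : cexp (-(I * ((lam r - lam s : ℝ) : ℂ) * u)) =
        cexp (-(I * lam r * u)) * (starRingEnd ℂ) (cexp (-(I * lam s * u))) := by
      rw [← exp_conj, ← Complex.exp_add]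
      congr 1
      simp only [map_neg, map_mul, conj_I, conj_ofReal]
      push_cast
      ring
    rw [this]
    ring
  have hint : ∀ r s : ι, Integrable (fun u : ℝ => b r * (starRingEnd ℂ) (b s) *
        (((Real.exp (1 - (u / H) ^ 2) : ℝ) : ℂ) *
          cexp (-(I * ((lam r - lam s : ℝ) : ℂ) * u)))) := fun r s =>
    (VMS_int hH (lam r - lam s)).const_mul _
  have hintC : Integrable (fun u : ℝ => ((Real.exp (1 - (u / H) ^ 2) * ‖F u‖ ^ 2 : ℝ) : ℂ)) := by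
    simp_rw [hexp]
    exact integrable_finsetSum _ fun r _ => integrable_finsetSum _ fun s _ => hint r s
  have hintR : Integrable (fun u : ℝ => Real.exp (1 - (u / H) ^ 2) * ‖F u‖ ^ 2) := by
    refine hintC.re.congr (Eventually.of_forall fun u => ?_)
    simp only [RCLike.re_eq_complex_re, ofReal_re]
  have e1 : ((∫ u : ℝ, Real.exp (1 - (u / H) ^ 2) * ‖F u‖ ^ 2 : ℝ) : ℂ) =
      ∑ r ∈ S, ∑ s ∈ S, b r * (starRingEnd ℂ) (b s) *
        ((Real.exp 1 * √Real.pi * H * Real.exp (-(H * (lam r - lam s)) ^ 2 / 4) : ℝ) : ℂ) := by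
    rw [← integral_complex_ofReal]
    simp_rw [hexp]
    rw [integral_finsetSum _ (fun r _ => integrable_finsetSum _ fun s _ => hint r s)]
    refine Finset.sum_congr rfl fun r _ => ?_
    rw [integral_finsetSum _ (fun s _ => hint r s)]
    refine Finset.sum_congr rfl fun s _ => ?_
    rw [integral_const_mul, VMS_gauss hH]
  have e2 : ∫ u in (-H)..H, ‖F u‖ ^ 2 ≤ ∫ u : ℝ, Real.exp (1 - (u / H) ^ 2) * ‖F u‖ ^ 2 := by
    rw [intervalIntegral.integral_of_le (by linarith)]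
    calc ∫ u in Set.Ioc (-H) H, ‖F u‖ ^ 2
        ≤ ∫ u in Set.Ioc (-H) H, Real.exp (1 - (u / H) ^ 2) * ‖F u‖ ^ 2 := by
          refine setIntegral_mono_on ?_ hintR.integrableOn measurableSet_Ioc fun u hu => ?_
          · exact ((hFc.norm.pow 2).integrableOn_Icc).mono_set Set.Ioc_subset_Icc_self
          · refine le_mul_of_one_le_left (by positivity) (Real.one_le_exp ?_)
            have : |u / H| ≤ 1 := by
              rw [abs_div, abs_of_pos hH, div_le_one hH, abs_le]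
              exact ⟨hu.1.le, hu.2⟩
            have h3 : (u / H) ^ 2 ≤ 1 := by
              rw [← sq_abs]
              nlinarith [abs_nonneg (u / H)]
            linarith
      _ ≤ _ := setIntegral_le_integral hintR (Eventually.of_forall fun u => by positivity)
  refine e2.trans ?_
  have e3 : ∫ u : ℝ, Real.exp (1 - (u / H) ^ 2) * ‖F u‖ ^ 2 ≤
      ‖((∫ u : ℝ, Real.exp (1 - (u / H) ^ 2) * ‖F u‖ ^ 2 : ℝ) : ℂ)‖ := by
    rw [norm_real]
    exact le_abs_self _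
  refine e3.trans ?_
  rw [e1]
  have e4 : ∑ r ∈ S, ∑ s ∈ S, b r * (starRingEnd ℂ) (b s) *
        ((Real.exp 1 * √Real.pi * H * Real.exp (-(H * (lam r - lam s)) ^ 2 / 4) : ℝ) : ℂ) =
      ((Real.exp 1 * √Real.pi * H : ℝ) : ℂ) * ∑ r ∈ S, ∑ s ∈ S, b r * (starRingEnd ℂ) (b s) *
        ((Real.exp (-(H * (lam r - lam s)) ^ 2 / 4) : ℝ) : ℂ) := by
    rw [Finset.mul_sum]
    refine Finset.sum_congr rfl fun r _ => ?_
    rw [Finset.mul_sum]
    refine Finset.sum_congr rfl fun s _ => ?_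
    push_cast
    ring
  rw [e4, norm_mul, norm_real, Real.norm_eq_abs, abs_of_pos (by positivity)]

private lemma VMS_split (M : ℕ) (g : ℕ → ℕ → ℂ) (hg : ∀ m n, g n m = (starRingEnd ℂ) (g m n)) :
    ‖∑ m ∈ Finset.Ico M (2 * M), ∑ n ∈ Finset.Ico M (2 * M), g m n‖ ≤
      ∑ n ∈ Finset.Ico M (2 * M), ‖g n n‖ +
        2 * ∑ h ∈ Finset.Ico 1 M, ‖∑ n ∈ Finset.Ico M (2 * M - h), g (n + h) n‖ := by
  set J := Finset.Ico M (2 * M) with hJ
  have h1 : ∑ m ∈ J, ∑ n ∈ J, g m n = ∑ n ∈ J, g n n +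
      (∑ m ∈ J, ∑ n ∈ J.filter (fun n => n < m), g m n +
        (starRingEnd ℂ) (∑ m ∈ J, ∑ n ∈ J.filter (fun n => n < m), g m n)) := by
    have h2 : ∀ m ∈ J, ∑ n ∈ J, g m n = g m m + (∑ n ∈ J.filter (fun n => n < m), g m n +
        ∑ n ∈ J.filter (fun n => m < n), g m n) := by
      intro m hm
      rw [← Finset.add_sum_erase J _ hm]
      congr 1
      rw [← Finset.sum_union]
      · refine Finset.sum_congr ?_ fun _ _ => rfl
        ext n
        simp only [Finset.mem_erase, Finset.mem_union, Finset.mem_filter]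
        constructor
        · rintro ⟨h3, h4⟩
          rcases lt_or_gt_of_ne h3 with h5 | h5
          · exact Or.inl ⟨h4, h5⟩
          · exact Or.inr ⟨h4, h5⟩
        · rintro (⟨h3, h4⟩ | ⟨h3, h4⟩)
          · exact ⟨h4.ne, h3⟩
          · exact ⟨h4.ne', h3⟩
      · rw [Finset.disjoint_left]
        intro n hn hn'
        rw [Finset.mem_filter] at hn hn'
        exact lt_asymm hn.2 hn'.2
    rw [Finset.sum_congr rfl h2, Finset.sum_add_distrib, Finset.sum_add_distrib]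
    congr 2
    rw [map_sum]
    simp_rw [map_sum, ← hg]
    rw [Finset.sum_sigma', Finset.sum_sigma']
    refine Finset.sum_nbij' (fun p => ⟨p.2, p.1⟩) (fun p => ⟨p.2, p.1⟩) ?_ ?_ ?_ ?_ ?_
    · intro p hp
      simp only [Finset.mem_sigma, Finset.mem_filter] at hp ⊢
      exact ⟨hp.2.1, hp.1, hp.2.2⟩
    · intro p hp
      simp only [Finset.mem_sigma, Finset.mem_filter] at hp ⊢
      exact ⟨hp.2.1, hp.1, hp.2.2⟩
    · intro p hp; rfl
    · intro p hp; rfl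
    · intro p hp; rfl
  have h3 : ∑ m ∈ J, ∑ n ∈ J.filter (fun n => n < m), g m n =
      ∑ h ∈ Finset.Ico 1 M, ∑ n ∈ Finset.Ico M (2 * M - h), g (n + h) n := by
    rw [Finset.sum_sigma', Finset.sum_sigma']
    refine Finset.sum_nbij' (fun p => ⟨p.1 - p.2, p.2⟩) (fun p => ⟨p.2 + p.1, p.2⟩) ?_ ?_ ?_ ?_ ?_
    · intro p hp
      simp only [hJ, Finset.mem_sigma, Finset.mem_filter, Finset.mem_Ico] at hp ⊢
      omega
    · intro p hp
      simp only [hJ, Finset.mem_sigma, Finset.mem_filter, Finset.mem_Ico] at hp ⊢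
      omega
    · rintro ⟨m, n⟩ hp
      simp only [hJ, Finset.mem_sigma, Finset.mem_filter, Finset.mem_Ico] at hp
      simp only [Sigma.mk.injEq, heq_eq_eq, and_true]
      omega
    · rintro ⟨m, n⟩ hp
      simp only [Finset.mem_sigma, Finset.mem_Ico] at hp
      simp only [Sigma.mk.injEq, heq_eq_eq, and_true]
      omega
    · rintro ⟨m, n⟩ hp
      simp only [hJ, Finset.mem_sigma, Finset.mem_filter, Finset.mem_Ico] at hp
      have : n + (m - n) = m := by omega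
      simp only [this]
  rw [h1]
  set T := ∑ m ∈ J, ∑ n ∈ J.filter (fun n => n < m), g m n with hT
  calc ‖∑ n ∈ J, g n n + (T + (starRingEnd ℂ) T)‖ ≤ ‖∑ n ∈ J, g n n‖ + ‖T + (starRingEnd ℂ) T‖ :=
        norm_add_le _ _
    _ ≤ ∑ n ∈ J, ‖g n n‖ + (‖T‖ + ‖T‖) := by
        refine add_le_add (norm_sum_le _ _) ((norm_add_le _ _).trans ?_)
        rw [RCLike.norm_conj]
    _ = ∑ n ∈ J, ‖g n n‖ + 2 * ‖T‖ := by ring
    _ ≤ _ := by
        rw [h3]
        gcongr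
        exact norm_sum_le _ _

private lemma VMS_exp {y p : ℝ} (hy : 0 < y) (hp0 : 0 ≤ p) (hp : p ≤ 4) :
    Real.exp (-y ^ 2) ≤ 2 * y ^ (-p) := by
  have h1 : y ^ p ≤ 1 + y ^ 4 := by
    rcases le_total y 1 with h | h
    · have := Real.rpow_le_one hy.le h hp0
      have : 0 ≤ y ^ 4 := by positivity
      linarith
    · have h2 : y ^ p ≤ y ^ (4 : ℝ) := Real.rpow_le_rpow_of_exponent_le h hp
      have h3 : y ^ (4 : ℝ) = y ^ 4 := by
        rw [show (4 : ℝ) = ((4 : ℕ) : ℝ) by norm_num, Real.rpow_natCast]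
      rw [h3] at h2
      linarith
  have h2 : (1 + y ^ 4) / 2 ≤ Real.exp (y ^ 2) := by
    have := Real.quadratic_le_exp_of_nonneg (sq_nonneg y)
    nlinarith [sq_nonneg y]
  have h3 : 0 < y ^ p := Real.rpow_pos_of_pos hy p
  rw [Real.exp_neg, Real.rpow_neg hy.le, ← div_eq_mul_inv, inv_eq_one_div,
    div_le_div_iff₀ (Real.exp_pos _) h3]
  linarith

private lemma VMS_t1 {M H h : ℝ} (η c : ℝ) (hM : 0 < M) (hH : 0 < H) (hh : 0 < h) :
    M ^ (-1 - 2 * c) * ((H * h / (4 * M)) ^ (-(3 / 2 + η)) * (√h * (√M)⁻¹)) =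
      4 ^ (3 / 2 + η) * (M ^ (-(2 * c)) * (H ^ (-(3 / 2) : ℝ) * (M / H) ^ η * h ^ (-1 - η))) := by
  obtain ⟨m, rfl⟩ : ∃ m, M = Real.exp m := ⟨Real.log M, (Real.exp_log hM).symm⟩
  obtain ⟨k, rfl⟩ : ∃ m, H = Real.exp m := ⟨Real.log H, (Real.exp_log hH).symm⟩
  obtain ⟨l, rfl⟩ : ∃ m, h = Real.exp m := ⟨Real.log h, (Real.exp_log hh).symm⟩
  obtain ⟨q, hq⟩ : ∃ m, (4 : ℝ) = Real.exp m := ⟨Real.log 4, (Real.exp_log (by norm_num)).symm⟩
  rw [hq]
  simp only [← Real.exp_half, ← Real.exp_add, ← Real.exp_sub, ← Real.exp_neg, ← Real.exp_mul]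
  congr 1
  ring

private lemma VMS_t2 {M H h : ℝ} (η c : ℝ) (hM : 0 < M) (hH : 0 < H) (hh : 0 < h) :
    M ^ (-1 - 2 * c) * ((H * h / (4 * M)) ^ (-(1 / 2 + η)) * (√(M ^ 3) * (√h)⁻¹)) =
      4 ^ (1 / 2 + η) * (M ^ (-(2 * c)) * (M * (√H)⁻¹ * (M / H) ^ η * h ^ (-1 - η))) := by
  obtain ⟨m, rfl⟩ : ∃ m, M = Real.exp m := ⟨Real.log M, (Real.exp_log hM).symm⟩
  obtain ⟨k, rfl⟩ : ∃ m, H = Real.exp m := ⟨Real.log H, (Real.exp_log hH).symm⟩
  obtain ⟨l, rfl⟩ : ∃ m, h = Real.exp m := ⟨Real.log h, (Real.exp_log hh).symm⟩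
  obtain ⟨q, hq⟩ : ∃ m, (4 : ℝ) = Real.exp m := ⟨Real.log 4, (Real.exp_log (by norm_num)).symm⟩
  rw [hq]
  simp only [← Real.exp_nat_mul, ← Real.exp_half, ← Real.exp_add, ← Real.exp_sub, ← Real.exp_neg,
    ← Real.exp_mul]
  congr 1
  push_cast
  ring

private lemma VMS_zeta {η : ℝ} (hη : 0 < η) : ∃ Z : ℝ, 0 ≤ Z ∧ ∀ s : Finset ℕ,
    ∑ h ∈ s, (h : ℝ) ^ (-1 - η) ≤ Z := by
  have hs : Summable (fun n : ℕ => (n : ℝ) ^ (-1 - η)) :=
    Real.summable_nat_rpow.2 (by linarith)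
  refine ⟨∑' n : ℕ, (n : ℝ) ^ (-1 - η), tsum_nonneg fun n => by positivity, fun s => ?_⟩
  exact hs.sum_le_tsum s fun n _ => by positivity

/-- one value of `h` -/
private lemma VMS_h {x H c S : ℝ} {M h : ℕ} (hM : 1 ≤ M) (hh : 1 ≤ h)
    (hH : 0 < H) (hc : 0 ≤ c) (hS0 : 0 ≤ S)
    (hS : ∀ a b, M ≤ a → a ≤ b → b + h ≤ 2 * M →
      ‖∑ n ∈ Finset.Ico a b, cexp (-(I * x * (Real.log ((n + h : ℕ) : ℝ) -
        Real.log (n : ℝ))))‖ ≤ S) (hhM : h < M) :
    ‖∑ n ∈ Finset.Ico M (2 * M - h), (((n : ℝ) ^ (-(1 / 2 + c)) *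
      ((n + h : ℕ) : ℝ) ^ (-(1 / 2 + c)) : ℝ) : ℂ) *
      (((Real.exp (-(H * (Real.log ((n + h : ℕ) : ℝ) - Real.log (n : ℝ))) ^ 2 / 4) : ℝ) : ℂ) *
        cexp (-(I * x * (Real.log ((n + h : ℕ) : ℝ) - Real.log (n : ℝ)))))‖ ≤
      (M : ℝ) ^ (-1 - 2 * c) * (Real.exp (-(H * h / (4 * M)) ^ 2) * S) := by
  have hM0 : (0 : ℝ) < M := by exact_mod_cast hM
  have hlog : ∀ n : ℕ, M ≤ n → 0 ≤ Real.log ((n + h : ℕ) : ℝ) - Real.log (n : ℝ) := by
    intro n hn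
    have hn0 : (0 : ℝ) < n := by exact_mod_cast (lt_of_lt_of_le hM hn)
    have := Real.log_le_log hn0 (show (n : ℝ) ≤ ((n + h : ℕ) : ℝ) by push_cast; linarith [
      (Nat.cast_nonneg h : (0 : ℝ) ≤ h)])
    linarith
  -- the lower bound for the logarithm
  have hlow : ∀ n : ℕ, M ≤ n → n + h < 2 * M →
      (h : ℝ) / (2 * M) ≤ Real.log ((n + h : ℕ) : ℝ) - Real.log (n : ℝ) := by
    intro n hn hn2
    have hn0 : (0 : ℝ) < n := by exact_mod_cast (lt_of_lt_of_le hM hn)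
    have hnh : (0 : ℝ) < ((n + h : ℕ) : ℝ) := by exact_mod_cast (by omega : 0 < n + h)
    rw [← Real.log_div hnh.ne' hn0.ne']
    have h1 := Real.one_sub_inv_le_log_of_pos (show 0 < ((n + h : ℕ) : ℝ) / n by positivity)
    refine le_trans ?_ h1
    rw [inv_div]
    have h2 : (((n + h : ℕ) : ℝ)) ≤ 2 * M := by exact_mod_cast hn2.le
    have h3 : 1 - (n : ℝ) / ((n + h : ℕ) : ℝ) = (h : ℝ) / ((n + h : ℕ) : ℝ) := by
      field_simp
      push_cast
      ring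
    rw [h3]
    exact div_le_div_of_nonneg_left (Nat.cast_nonneg h) hnh h2
  -- the logarithm decreases
  have hdec : ∀ n : ℕ, M ≤ n → Real.log ((n + 1 + h : ℕ) : ℝ) - Real.log ((n + 1 : ℕ) : ℝ) ≤
      Real.log ((n + h : ℕ) : ℝ) - Real.log (n : ℝ) := by
    intro n hn
    have hn0 : (0 : ℝ) < n := by exact_mod_cast (lt_of_lt_of_le hM hn)
    have hn1 : (0 : ℝ) < ((n + 1 : ℕ) : ℝ) := by positivity
    have hnh : (0 : ℝ) < ((n + h : ℕ) : ℝ) := by exact_mod_cast (by omega : 0 < n + h)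
    have hnh1 : (0 : ℝ) < ((n + 1 + h : ℕ) : ℝ) := by exact_mod_cast (by omega : 0 < n + 1 + h)
    rw [← Real.log_div hnh.ne' hn0.ne', ← Real.log_div hnh1.ne' hn1.ne']
    apply Real.log_le_log (by positivity)
    rw [div_le_div_iff₀ hn1 hn0]
    push_cast
    nlinarith [(Nat.cast_nonneg h : (0 : ℝ) ≤ h)]
  set w1 : ℕ → ℝ := fun n => (n : ℝ) ^ (-(1 / 2 + c)) * ((n + h : ℕ) : ℝ) ^ (-(1 / 2 + c)) with hw1
  set w2 : ℕ → ℝ := fun n =>
    Real.exp (-(H * (Real.log ((n + h : ℕ) : ℝ) - Real.log (n : ℝ))) ^ 2 / 4) with hw2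
  have hz2 : ∀ b', M ≤ b' → b' ≤ 2 * M - h →
      ‖∑ n ∈ Finset.Ico M b', (w2 n : ℂ) *
        cexp (-(I * x * (Real.log ((n + h : ℕ) : ℝ) - Real.log (n : ℝ))))‖ ≤
      Real.exp (-(H * h / (4 * M)) ^ 2) * S := by
    intro b' hb1 hb2
    refine norm_sum_mono_le hS0 (fun a' ha1 ha2 => hS a' b' ha1 ha2 (by omega)) ?_
      (Real.exp_pos _).le ?_ ?_
    · intro n _ _
      exact (Real.exp_pos _).le
    · intro n hn1 hn2
      simp only [hw2]
      apply Real.exp_le_exp.2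
      have h1 := hlow n hn1 (by omega)
      have h2 : H * h / (4 * M) ≤ H * (Real.log ((n + h : ℕ) : ℝ) - Real.log (n : ℝ)) / 2 := by
        calc H * h / (4 * M) = H * ((h : ℝ) / (2 * M)) / 2 := by
              field_simp
              ring
          _ ≤ _ := by
              have := mul_le_mul_of_nonneg_left h1 hH.le
              linarith
      have h3 : 0 ≤ H * h / (4 * M) := by positivity
      have h4 := pow_le_pow_left₀ h3 h2 2
      nlinarith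
    · intro n hn1 hn2
      simp only [hw2]
      apply Real.exp_le_exp.2
      have h1 := hdec n hn1
      have h2 := hlog (n + 1) (by omega)
      have h3 := mul_le_mul_of_nonneg_left h1 hH.le
      have h4 := mul_nonneg hH.le h2
      have h5 := pow_le_pow_left₀ h4 h3 2
      nlinarith
  refine norm_sum_anti_le (by positivity) (fun b' h1 h2 => hz2 b' h1 h2) ?_ (by positivity) ?_ ?_
  · intro n _ _
    positivity
  · intro n hn1 hn2
    have hn0 : (M : ℝ) ≤ n := by exact_mod_cast hn1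
    have hn3 : (M : ℝ) ≤ ((n + h : ℕ) : ℝ) := by exact_mod_cast (by omega : M ≤ n + h)
    have e1 : (M : ℝ) ^ (-1 - 2 * c) = (M : ℝ) ^ (-(1 / 2 + c)) * (M : ℝ) ^ (-(1 / 2 + c)) := by
      rw [← Real.rpow_add hM0]
      congr 1
      ring
    rw [e1]
    have he : -(1 / 2 + c) ≤ 0 := by linarith
    exact mul_le_mul (Real.rpow_le_rpow_of_nonpos hM0 hn0 he)
      (Real.rpow_le_rpow_of_nonpos hM0 hn3 he) (by positivity) (by positivity)
  · intro n hn1 hn2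
    have hn0 : (0 : ℝ) < n := by exact_mod_cast (lt_of_lt_of_le hM hn1)
    have hnh : (0 : ℝ) < ((n + h : ℕ) : ℝ) := by exact_mod_cast (by omega : 0 < n + h)
    have he : -(1 / 2 + c) ≤ 0 := by linarith
    exact mul_le_mul (Real.rpow_le_rpow_of_nonpos hn0 (by push_cast; linarith) he)
      (Real.rpow_le_rpow_of_nonpos hnh (by push_cast; linarith) he) (by positivity) (by positivity)

/-- the mean square of a block over a short window.  `1 ≤ e e^{-u²/H²}` on the window, the Gaussian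
integral of `|∑|²` is `√π H ∑_{m,n} (m n)^(-1/2-c) (m/n)^(-iτ) e^{-(H log (m/n))²/4}`; diagonal
`≤ M^(-2c)`; off-diagonal `m = n + h`, `h ≥ 1`: the weight `(n (n+h))^(-1/2-c)` is decreasing and
`e^{-(H log (1 + h/n))²/4}` is increasing in `n`, at most `M^(-1-2c)` and `e^{-(H h/(4M))²}`:
`norm_sum_mono_le`, `norm_sum_anti_le`, `exists_phase_sum`; finally
`e^{-y²} ≤ C y^(-3/2-η)` and `∑ h^(-1-η)`. -/
theorem exists_local_block (η : ℝ) (hη : 0 < η) (hη1 : η ≤ 1) : ∃ C : ℝ, 1 ≤ C ∧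
    ∀ (j : ℕ) (x H c : ℝ), 1 ≤ |x| → 1 ≤ H → 0 ≤ c → c ≤ 1 →
    ∫ u in (-H)..H, ‖∑ n ∈ Finset.Ico (2 ^ j : ℕ) (2 ^ (j + 1)),
      (n : ℂ) ^ (-(1 / 2 + c + I * (x + u)))‖ ^ 2 ≤
      C * H * 2 ^ (-2 * c * j) * (1 + (1 + 2 ^ j / H) ^ η *
        (√|x| * H ^ (-(3 / 2) : ℝ) + 2 ^ j * (√|x|)⁻¹ * (√H)⁻¹)) := by
  obtain ⟨C₁, hC₁, hP⟩ := exists_phase_sum
  obtain ⟨Z, hZ0, hZ⟩ := VMS_zeta hη
  set E : ℝ := Real.exp 1 * √Real.pi with hE
  have hE0 : 0 < E := by positivity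
  refine ⟨1 + E * (1 + 128 * C₁ * Z), ?_, ?_⟩
  · have : 0 ≤ E * (1 + 128 * C₁ * Z) := by positivity
    linarith
  intro j x H c hx hH hc hc1
  have hH0 : 0 < H := by linarith
  have hx0 : x ≠ 0 := by
    intro h0
    rw [h0, abs_zero] at hx
    linarith
  have hax : 0 < |x| := abs_pos.2 hx0
  obtain ⟨M, hMdef⟩ : ∃ M : ℕ, M = 2 ^ j := ⟨_, rfl⟩
  have hM1 : 1 ≤ M := by rw [hMdef]; exact Nat.one_le_two_pow
  have hM0 : (0 : ℝ) < M := by exact_mod_cast hM1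
  have h2M : (2 : ℕ) ^ (j + 1) = 2 * M := by rw [hMdef, pow_succ]; ring
  have hMr : (2 : ℝ) ^ j = M := by rw [hMdef]; push_cast; rfl
  have hMc : (2 : ℝ) ^ (-2 * c * j) = (M : ℝ) ^ (-(2 * c)) := by
    rw [← hMr, ← Real.rpow_natCast 2 j, ← Real.rpow_mul (by norm_num)]
    congr 1
    ring
  rw [← hMdef, h2M, hMr, hMc]
  set b : ℕ → ℂ := fun n => (((n : ℝ) ^ (-(1 / 2 + c)) : ℝ) : ℂ) *
    cexp (-(I * x * Real.log (n : ℝ))) with hb
  have hterm : ∀ u : ℝ, ∑ n ∈ Finset.Ico M (2 * M), (n : ℂ) ^ (-(1 / 2 + c + I * (x + u))) =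
      ∑ n ∈ Finset.Ico M (2 * M), b n * cexp (-(I * Real.log (n : ℝ) * u)) := by
    intro u
    refine Finset.sum_congr rfl fun n hn => ?_
    have hn0 : 0 < n := lt_of_lt_of_le hM1 (Finset.mem_Ico.1 hn).1
    have hn0' : (0 : ℝ) < n := by exact_mod_cast hn0
    have hnc : (n : ℂ) ≠ 0 := by exact_mod_cast hn0.ne'
    rw [Complex.cpow_def_of_ne_zero hnc, hb]
    simp only
    rw [Real.rpow_def_of_pos hn0', Complex.ofReal_exp, ← Complex.exp_add, ← Complex.exp_add,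
      Complex.natCast_log.symm]
    congr 1
    push_cast
    ring
  simp_rw [hterm]
  refine (VMS_major (Finset.Ico M (2 * M)) b (fun n => Real.log (n : ℝ)) hH0).trans ?_
  set g : ℕ → ℕ → ℂ := fun m n => b m * (starRingEnd ℂ) (b n) *
    ((Real.exp (-(H * (Real.log (m : ℝ) - Real.log (n : ℝ))) ^ 2 / 4) : ℝ) : ℂ) with hg
  have hgc : ∀ m n, g n m = (starRingEnd ℂ) (g m n) := by
    intro m n
    simp only [hg, map_mul, conj_ofReal, Complex.conj_conj]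
    have : (H * (Real.log (n : ℝ) - Real.log (m : ℝ))) ^ 2 =
      (H * (Real.log (m : ℝ) - Real.log (n : ℝ))) ^ 2 := by ring
    rw [this]
    ring
  have hsplit := VMS_split M g hgc
  -- the diagonal
  have hdiag : ∑ n ∈ Finset.Ico M (2 * M), ‖g n n‖ ≤ (M : ℝ) ^ (-(2 * c)) := by
    have h1 : ∀ n ∈ Finset.Ico M (2 * M), ‖g n n‖ ≤ (M : ℝ) ^ (-1 - 2 * c) := by
      intro n hn
      have hnM : (M : ℝ) ≤ n := by exact_mod_cast (Finset.mem_Ico.1 hn).1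
      have hn0' : (0 : ℝ) < n := by linarith
      have hbn : ‖b n‖ = (n : ℝ) ^ (-(1 / 2 + c)) := by
        simp only [hb]
        rw [norm_mul, norm_real, Real.norm_eq_abs, abs_of_nonneg (by positivity)]
        have : -(I * x * Real.log (n : ℝ)) = ((-(x * Real.log (n : ℝ)) : ℝ) : ℂ) * I := by
          push_cast; ring
        rw [this, norm_exp_ofReal_mul_I, mul_one]
      simp only [hg]
      rw [norm_mul, norm_mul, RCLike.norm_conj, hbn, norm_real, Real.norm_eq_abs,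
        abs_of_pos (Real.exp_pos _), sub_self, mul_zero]
      norm_num
      have e1 : (n : ℝ) ^ (-c + -(1 / 2)) * (n : ℝ) ^ (-c + -(1 / 2)) = (n : ℝ) ^ (-1 - 2 * c) := by
        rw [← Real.rpow_add hn0']
        congr 1
        ring
      have e2 : (n : ℝ) ^ (-1 - 2 * c) ≤ (M : ℝ) ^ (-1 - 2 * c) :=
        Real.rpow_le_rpow_of_nonpos hM0 hnM (by linarith)
      rw [e1]
      exact e2
    refine (Finset.sum_le_sum h1).trans (le_of_eq ?_)
    rw [Finset.sum_const, Nat.card_Ico, nsmul_eq_mul]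
    have e3 : ((2 * M - M : ℕ) : ℝ) = (M : ℝ) ^ (1 : ℝ) := by
      rw [Real.rpow_one]
      congr 1
      omega
    rw [e3, ← Real.rpow_add hM0]
    congr 1
    ring
  -- the off-diagonal
  set Q : ℝ := (M : ℝ) ^ (-(2 * c)) * (((M : ℝ) / H) ^ η *
    (√|x| * H ^ (-(3 / 2) : ℝ) + M * (√|x|)⁻¹ * (√H)⁻¹)) with hQ
  have hoff : ∀ h ∈ Finset.Ico 1 M, ‖∑ n ∈ Finset.Ico M (2 * M - h), g (n + h) n‖ ≤
      64 * C₁ * Q * (h : ℝ) ^ (-1 - η) := by
    intro h hh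
    rw [Finset.mem_Ico] at hh
    have hh0 : (0 : ℝ) < h := by exact_mod_cast (by omega : 0 < h)
    set S : ℝ := C₁ * (√(|x| * h / M) + √((M : ℝ) ^ 3 / (|x| * h))) with hSdef
    have hS0 : 0 ≤ S := by positivity
    have h1 := VMS_h (x := x) (H := H) (c := c) (S := S) hM1 hh.1 hH0 hc hS0
      (fun a' b' ha hab hbh => hP x M h a' b' hx0 hh.1 hh.2.le ha hab hbh) hh.2
    have h2 : ∑ n ∈ Finset.Ico M (2 * M - h), g (n + h) n =
        ∑ n ∈ Finset.Ico M (2 * M - h), (((n : ℝ) ^ (-(1 / 2 + c)) *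
      ((n + h : ℕ) : ℝ) ^ (-(1 / 2 + c)) : ℝ) : ℂ) *
      (((Real.exp (-(H * (Real.log ((n + h : ℕ) : ℝ) - Real.log (n : ℝ))) ^ 2 / 4) : ℝ) : ℂ) *
        cexp (-(I * x * (Real.log ((n + h : ℕ) : ℝ) - Real.log (n : ℝ))))) := by
      refine Finset.sum_congr rfl fun n _ => ?_
      simp only [hg, hb, map_mul, conj_ofReal]
      rw [← exp_conj]
      simp only [map_neg, map_mul, conj_I, conj_ofReal]
      have e4 : cexp (-(I * x * (Real.log ((n + h : ℕ) : ℝ) - Real.log (n : ℝ)))) =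
          cexp (-(I * x * Real.log ((n + h : ℕ) : ℝ))) * cexp (-(-I * x * Real.log (n : ℝ))) := by
        rw [← Complex.exp_add]
        congr 1
        ring
      rw [e4, Complex.ofReal_mul]
      ring
    rw [h2]
    refine h1.trans ?_
    -- numerical part
    have hy : 0 < H * h / (4 * M) := by positivity
    have hA : (M : ℝ) ^ (-1 - 2 * c) * (Real.exp (-(H * h / (4 * M)) ^ 2) * √(|x| * h / M)) ≤
        64 * (√|x| * ((M : ℝ) ^ (-(2 * c)) * (H ^ (-(3 / 2) : ℝ) * ((M : ℝ) / H) ^ η *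
          (h : ℝ) ^ (-1 - η)))) := by
      have k1 := VMS_exp (p := 3 / 2 + η) hy (by linarith) (by linarith)
      have k2 : √(|x| * h / M) = √|x| * (√(h : ℝ) * (√(M : ℝ))⁻¹) := by
        rw [Real.sqrt_div (by positivity), Real.sqrt_mul (abs_nonneg x)]
        ring
      have k3 : (4 : ℝ) ^ (3 / 2 + η) ≤ 32 := by
        calc (4 : ℝ) ^ (3 / 2 + η) ≤ 4 ^ (5 / 2 : ℝ) :=
              Real.rpow_le_rpow_of_exponent_le (by norm_num) (by linarith)
          _ = 32 := by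
              rw [show (4 : ℝ) = 2 ^ (2 : ℝ) by norm_num, ← Real.rpow_mul (by norm_num)]
              norm_num
      have k4 := VMS_t1 η c hM0 hH0 hh0
      calc (M : ℝ) ^ (-1 - 2 * c) * (Real.exp (-(H * h / (4 * M)) ^ 2) * √(|x| * h / M))
          ≤ (M : ℝ) ^ (-1 - 2 * c) * ((2 * (H * h / (4 * M)) ^ (-(3 / 2 + η))) *
            √(|x| * h / M)) := by gcongr
        _ = 2 * √|x| * ((M : ℝ) ^ (-1 - 2 * c) * ((H * h / (4 * M)) ^ (-(3 / 2 + η)) *
            (√(h : ℝ) * (√(M : ℝ))⁻¹))) := by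
            rw [k2]
            ring
        _ = 4 ^ (3 / 2 + η) * (2 * (√|x| * ((M : ℝ) ^ (-(2 * c)) * (H ^ (-(3 / 2) : ℝ) *
            ((M : ℝ) / H) ^ η * (h : ℝ) ^ (-1 - η))))) := by
            rw [k4]
            ring
        _ ≤ 32 * (2 * (√|x| * ((M : ℝ) ^ (-(2 * c)) * (H ^ (-(3 / 2) : ℝ) *
            ((M : ℝ) / H) ^ η * (h : ℝ) ^ (-1 - η))))) := by gcongr
        _ = _ := by ring
    have hB : (M : ℝ) ^ (-1 - 2 * c) * (Real.exp (-(H * h / (4 * M)) ^ 2) *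
        √((M : ℝ) ^ 3 / (|x| * h))) ≤
        64 * ((√|x|)⁻¹ * ((M : ℝ) ^ (-(2 * c)) * (M * (√H)⁻¹ * ((M : ℝ) / H) ^ η *
          (h : ℝ) ^ (-1 - η)))) := by
      have k1 := VMS_exp (p := 1 / 2 + η) hy (by linarith) (by linarith)
      have k2 : √((M : ℝ) ^ 3 / (|x| * h)) = (√|x|)⁻¹ * (√((M : ℝ) ^ 3) * (√(h : ℝ))⁻¹) := by
        rw [Real.sqrt_div (by positivity), Real.sqrt_mul (abs_nonneg x), div_eq_mul_inv, mul_inv]
        ring
      have k3 : (4 : ℝ) ^ (1 / 2 + η) ≤ 32 := by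
        calc (4 : ℝ) ^ (1 / 2 + η) ≤ 4 ^ (5 / 2 : ℝ) :=
              Real.rpow_le_rpow_of_exponent_le (by norm_num) (by linarith)
          _ = 32 := by
              rw [show (4 : ℝ) = 2 ^ (2 : ℝ) by norm_num, ← Real.rpow_mul (by norm_num)]
              norm_num
      have k4 := VMS_t2 η c hM0 hH0 hh0
      calc (M : ℝ) ^ (-1 - 2 * c) * (Real.exp (-(H * h / (4 * M)) ^ 2) *
            √((M : ℝ) ^ 3 / (|x| * h)))
          ≤ (M : ℝ) ^ (-1 - 2 * c) * ((2 * (H * h / (4 * M)) ^ (-(1 / 2 + η))) *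
            √((M : ℝ) ^ 3 / (|x| * h))) := by gcongr
        _ = 2 * (√|x|)⁻¹ * ((M : ℝ) ^ (-1 - 2 * c) * ((H * h / (4 * M)) ^ (-(1 / 2 + η)) *
            (√((M : ℝ) ^ 3) * (√(h : ℝ))⁻¹))) := by
            rw [k2]
            ring
        _ = 4 ^ (1 / 2 + η) * (2 * ((√|x|)⁻¹ * ((M : ℝ) ^ (-(2 * c)) * (M * (√H)⁻¹ *
            ((M : ℝ) / H) ^ η * (h : ℝ) ^ (-1 - η))))) := by
            rw [k4]
            ring
        _ ≤ 32 * (2 * ((√|x|)⁻¹ * ((M : ℝ) ^ (-(2 * c)) * (M * (√H)⁻¹ *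
            ((M : ℝ) / H) ^ η * (h : ℝ) ^ (-1 - η))))) := by gcongr
        _ = _ := by ring
    calc (M : ℝ) ^ (-1 - 2 * c) * (Real.exp (-(H * h / (4 * M)) ^ 2) * S)
        = C₁ * ((M : ℝ) ^ (-1 - 2 * c) * (Real.exp (-(H * h / (4 * M)) ^ 2) * √(|x| * h / M)) +
          (M : ℝ) ^ (-1 - 2 * c) * (Real.exp (-(H * h / (4 * M)) ^ 2) *
            √((M : ℝ) ^ 3 / (|x| * h)))) := by
          rw [hSdef]
          ring
      _ ≤ C₁ * (64 * (√|x| * ((M : ℝ) ^ (-(2 * c)) * (H ^ (-(3 / 2) : ℝ) * ((M : ℝ) / H) ^ η *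
          (h : ℝ) ^ (-1 - η)))) + 64 * ((√|x|)⁻¹ * ((M : ℝ) ^ (-(2 * c)) * (M * (√H)⁻¹ *
            ((M : ℝ) / H) ^ η * (h : ℝ) ^ (-1 - η))))) :=
          mul_le_mul_of_nonneg_left (add_le_add hA hB) (by linarith)
      _ = _ := by
          rw [hQ]
          ring
  have hQ0 : 0 ≤ Q := by positivity
  have hoff2 : ∑ h ∈ Finset.Ico 1 M, ‖∑ n ∈ Finset.Ico M (2 * M - h), g (n + h) n‖ ≤
      64 * C₁ * Q * Z := by
    refine (Finset.sum_le_sum hoff).trans ?_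
    rw [← Finset.mul_sum]
    exact mul_le_mul_of_nonneg_left (hZ _) (by positivity)
  have hQ2 : Q ≤ (M : ℝ) ^ (-(2 * c)) * ((1 + (M : ℝ) / H) ^ η *
    (√|x| * H ^ (-(3 / 2) : ℝ) + M * (√|x|)⁻¹ * (√H)⁻¹)) := by
    rw [hQ]
    gcongr
    linarith
  set Q2 : ℝ := (1 + (M : ℝ) / H) ^ η *
    (√|x| * H ^ (-(3 / 2) : ℝ) + M * (√|x|)⁻¹ * (√H)⁻¹) with hQ2def
  have hQ20 : 0 ≤ Q2 := by positivity
  set P : ℝ := (M : ℝ) ^ (-(2 * c)) with hPdef
  have hP0 : 0 < P := by positivity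
  calc Real.exp 1 * √Real.pi * H * ‖∑ r ∈ Finset.Ico M (2 * M), ∑ s ∈ Finset.Ico M (2 * M), g r s‖
      ≤ E * H * (P + 2 * (64 * C₁ * (P * Q2) * Z)) := by
        refine mul_le_mul_of_nonneg_left (hsplit.trans ?_) (by positivity)
        refine add_le_add hdiag (mul_le_mul_of_nonneg_left (hoff2.trans ?_) (by norm_num))
        gcongr
    _ = E * H * P * (1 + 128 * C₁ * Z * Q2) := by ring
    _ ≤ E * H * P * ((1 + 128 * C₁ * Z) * (1 + Q2)) := by
        refine mul_le_mul_of_nonneg_left ?_ (by positivity)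
        have : 0 ≤ 128 * C₁ * Z := by positivity
        nlinarith
    _ ≤ (1 + E * (1 + 128 * C₁ * Z)) * H * P * (1 + Q2) := by
        have : E * H * P * ((1 + 128 * C₁ * Z) * (1 + Q2)) =
          (E * (1 + 128 * C₁ * Z)) * (H * P * (1 + Q2)) := by ring
        rw [this]
        have h5 : 0 ≤ H * P * (1 + Q2) := by positivity
        nlinarith

end Pool.Agent.AAS
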