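import Pool.Agent.AAS.VSD

set_option autoImplicit false

namespace Pool.Agent.AAS

open Complex Finset MeasureTheory Filter Topology Set
open Pool.Agent.H26

namespace VPH

/-- the phase -/
noncomputable def ph (h n : ℕ) : ℝ := Real.log ((n + h : ℕ) : ℝ) - Real.log (n : ℝ)

/-- the second difference as a logarithm -/
lemma second_diff {h n : ℕ} (hn : 1 ≤ n) :
    ph h (n + 2) - 2 * ph h (n + 1) + ph h n =
      Real.log (1 + (h:ℝ) * (2 * ((n:ℝ) + 1) + h) /
        ((((n:ℝ) + 1) + h) ^ 2 * (((n:ℝ) + 1) ^ 2 - 1))) := by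
  have hn0 : (0:ℝ) < n := by exact_mod_cast hn
  have hh : (0:ℝ) ≤ h := Nat.cast_nonneg h
  have h1 : ((n:ℝ) + 1) ^ 2 - 1 = (n:ℝ) * (n + 2) := by ring
  have e : 1 + (h:ℝ) * (2 * ((n:ℝ) + 1) + h) /
        ((((n:ℝ) + 1) + h) ^ 2 * (((n:ℝ) + 1) ^ 2 - 1)) =
      ((n:ℝ) + 2 + h) * ((n:ℝ) + h) * (((n:ℝ) + 1) ^ 2) /
        ((((n:ℝ) + 1) + h) ^ 2 * ((n:ℝ) * (n + 2))) := by
    rw [h1]
    field_simp
    ring
  rw [e]
  unfold ph
  push_cast
  have p1 : (0:ℝ) < (n:ℝ) + 2 + h := by positivity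
  have p2 : (0:ℝ) < (n:ℝ) + h := by positivity
  have p3 : (0:ℝ) < (n:ℝ) + 1 := by positivity
  have p4 : (0:ℝ) < (n:ℝ) + 1 + h := by positivity
  have p5 : (0:ℝ) < (n:ℝ) + 2 := by positivity
  rw [Real.log_div (by positivity) (by positivity), Real.log_mul (by positivity) (by positivity),
    Real.log_mul (by positivity) (by positivity), Real.log_mul (by positivity) (by positivity),
    Real.log_mul (by positivity) (by positivity), Real.log_pow, Real.log_pow]
  push_cast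
  ring

lemma second_diff_lower {h n M : ℕ} (hh : 1 ≤ h) (hn : 1 ≤ n) (hM : n + 1 + h ≤ 2 * M) :
    (h:ℝ) / (8 * (M:ℝ) ^ 3) ≤ ph h (n + 2) - 2 * ph h (n + 1) + ph h n := by
  rw [second_diff hn]
  have hn1 : (1:ℝ) ≤ n := by exact_mod_cast hn
  have hh1 : (1:ℝ) ≤ h := by exact_mod_cast hh
  have hM' : (n:ℝ) + 1 + h ≤ 2 * M := by exact_mod_cast hM
  have hM0 : (0:ℝ) < M := by linarith
  set N : ℝ := (n:ℝ) + 1 with hN
  have hN2 : 2 ≤ N := by linarith
  have hN0 : 0 < N ^ 2 - 1 := by nlinarith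
  set δ : ℝ := (h:ℝ) * (2 * N + h) / ((N + h) ^ 2 * (N ^ 2 - 1)) with hδ
  have hδ0 : 0 < δ := by positivity
  have hlog : δ / (1 + δ) ≤ Real.log (1 + δ) := by
    have h1 := Real.one_sub_inv_le_log_of_pos (show 0 < 1 + δ by linarith)
    have h2 : δ / (1 + δ) = 1 - (1 + δ)⁻¹ := by
      field_simp
      ring
    rw [h2]; exact h1
  refine le_trans ?_ hlog
  have e1 : δ / (1 + δ) = (h:ℝ) * (2 * N + h) / (N ^ 2 * ((N + h) ^ 2 - 1)) := by
    have h3 : 0 < (N + h) ^ 2 - 1 := by nlinarith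
    rw [hδ]
    rw [div_eq_div_iff (by positivity) (by positivity)]
    field_simp
    ring
  rw [e1]
  have h3 : 0 < (N + h) ^ 2 - 1 := by nlinarith
  have h4 : (h:ℝ) / (N ^ 2 * (N + h)) ≤ (h:ℝ) * (2 * N + h) / (N ^ 2 * ((N + h) ^ 2 - 1)) := by
    rw [div_le_div_iff₀ (by positivity) (by positivity)]
    have h5 : N ^ 2 * ((N + h) ^ 2 - 1) ≤ (2 * N + h) * (N ^ 2 * (N + h)) := by
      have : (N + h) ^ 2 - 1 ≤ (2 * N + h) * (N + h) := by nlinarith
      calc N ^ 2 * ((N + h) ^ 2 - 1) ≤ N ^ 2 * ((2 * N + h) * (N + h)) :=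
            mul_le_mul_of_nonneg_left this (by positivity)
        _ = _ := by ring
    calc (h:ℝ) * (N ^ 2 * ((N + h) ^ 2 - 1)) ≤ h * ((2 * N + h) * (N ^ 2 * (N + h))) :=
          mul_le_mul_of_nonneg_left h5 (by linarith)
      _ = _ := by ring
  refine le_trans ?_ h4
  refine div_le_div_of_nonneg_left (by linarith) (by positivity) ?_
  have h6 : N ≤ 2 * M := by linarith
  calc N ^ 2 * (N + h) ≤ (2 * M) ^ 2 * (2 * M) := by
        refine mul_le_mul ?_ (by linarith) (by positivity) (by positivity)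
        exact pow_le_pow_left₀ (by linarith) h6 2
    _ = 8 * (M:ℝ) ^ 3 := by ring

lemma second_diff_upper {h n M : ℕ} (hM1 : 1 ≤ M) (hn : M ≤ n) :
    ph h (n + 2) - 2 * ph h (n + 1) + ph h n ≤ 8 / 3 * ((h:ℝ) / (M:ℝ) ^ 3) := by
  have hn' : 1 ≤ n := hM1.trans hn
  rw [second_diff hn']
  have hM0 : (1:ℝ) ≤ M := by exact_mod_cast hM1
  have hn1 : (M:ℝ) ≤ n := by exact_mod_cast hn
  have hh0 : (0:ℝ) ≤ h := Nat.cast_nonneg h
  set N : ℝ := (n:ℝ) + 1 with hN
  have hN2 : 2 ≤ N := by linarith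
  have hNM : (M:ℝ) ≤ N := by linarith
  have hN0 : 3 / 4 * N ^ 2 ≤ N ^ 2 - 1 := by nlinarith
  have hN3 : 0 < 3 / 4 * N ^ 2 := by positivity
  have hN4 : 0 < N ^ 2 - 1 := by linarith
  set δ : ℝ := (h:ℝ) * (2 * N + h) / ((N + h) ^ 2 * (N ^ 2 - 1)) with hδ
  have hδ0 : 0 ≤ δ := by positivity
  have hlog : Real.log (1 + δ) ≤ δ := by
    have := Real.log_le_sub_one_of_pos (show 0 < 1 + δ by linarith)
    linarith
  refine hlog.trans ?_
  rw [hδ]
  have h1 : (h:ℝ) * (2 * N + h) / ((N + h) ^ 2 * (N ^ 2 - 1)) ≤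
      (h:ℝ) * (2 * (N + h)) / ((N + h) ^ 2 * (3 / 4 * N ^ 2)) := by
    refine div_le_div₀ (by positivity) ?_ (by positivity) ?_
    · exact mul_le_mul_of_nonneg_left (by linarith) hh0
    · exact mul_le_mul_of_nonneg_left hN0 (by positivity)
  refine h1.trans ?_
  have h2 : (h:ℝ) * (2 * (N + h)) / ((N + h) ^ 2 * (3 / 4 * N ^ 2)) =
      8 / 3 * ((h:ℝ) / ((N + h) * N ^ 2)) := by
    field_simp
    ring
  rw [h2]
  refine mul_le_mul_of_nonneg_left ?_ (by norm_num)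
  refine div_le_div_of_nonneg_left hh0 (by positivity) ?_
  calc (M:ℝ) ^ 3 = M * M ^ 2 := by ring
    _ ≤ (N + h) * N ^ 2 := by
        refine mul_le_mul (by linarith) ?_ (by positivity) (by positivity)
        exact pow_le_pow_left₀ (by linarith) hNM 2

lemma pos_case {y : ℝ} {M h a b : ℕ} (hy : 0 < y) (hh : 1 ≤ h) (hhM : h ≤ M) (ha : M ≤ a)
    (hab : a ≤ b) (hb : b + h ≤ 2 * M) :
    ‖∑ n ∈ Finset.Ico a b, cexp (I * y * ph h n)‖ ≤
      440 * (√(y * h / M) + √((M : ℝ) ^ 3 / (y * h))) := by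
  have hM1 : 1 ≤ M := hh.trans hhM
  have hM0 : (0:ℝ) < M := by exact_mod_cast hM1
  have hh0 : (0:ℝ) < h := by exact_mod_cast hh
  have hπ := Real.pi_pos
  set lam : ℝ := y / (2 * Real.pi) * ((h:ℝ) / (8 * (M:ℝ) ^ 3)) with hlam
  have hlam0 : 0 < lam := by positivity
  have hy2 : 0 < y / (2 * Real.pi) := by positivity
  have key := second_difference_test (f := fun n => y / (2 * Real.pi) * ph h n) (a := a) (b := b)
    (lam := lam) (A := 22) hlam0 (by norm_num) (by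
      intro n hn1 hn2
      have h1 := second_diff_lower (h := h) (n := n) (M := M) hh (by omega) (by omega)
      have h2 := mul_le_mul_of_nonneg_left h1 hy2.le
      calc lam ≤ y / (2 * Real.pi) * (ph h (n + 2) - 2 * ph h (n + 1) + ph h n) := h2
        _ = _ := by ring) (by
      intro n hn1 hn2
      have h1 := second_diff_upper (h := h) (n := n) (M := M) hM1 (by omega)
      have h2 := mul_le_mul_of_nonneg_left h1 hy2.le
      have h3 : 0 ≤ y / (2 * Real.pi) * ((h:ℝ) / (M:ℝ) ^ 3) := by positivity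
      calc y / (2 * Real.pi) * ph h (n + 2) - 2 * (y / (2 * Real.pi) * ph h (n + 1)) +
            y / (2 * Real.pi) * ph h n
          = y / (2 * Real.pi) * (ph h (n + 2) - 2 * ph h (n + 1) + ph h n) := by ring
        _ ≤ y / (2 * Real.pi) * (8 / 3 * ((h:ℝ) / (M:ℝ) ^ 3)) := h2
        _ ≤ 22 * lam := by
            have h4 : 22 * lam = 22 / 8 * (y / (2 * Real.pi) * ((h:ℝ) / (M:ℝ) ^ 3)) := by
              rw [hlam]
              field_simp
            rw [h4]
            linarith) hab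
  have hsum : ∑ n ∈ Finset.Ico a b, cexp (I * y * ph h n) =
      ∑ n ∈ Finset.Ico a b, cexp (2 * Real.pi * I * ((y / (2 * Real.pi) * ph h n : ℝ) : ℂ)) := by
    refine Finset.sum_congr rfl fun n _ => ?_
    congr 1
    push_cast
    have hπc : (Real.pi : ℂ) ≠ 0 := by exact_mod_cast hπ.ne'
    field_simp
  rw [hsum]
  refine key.trans ?_
  have hba : (b:ℝ) - a ≤ M := by
    have h1 : b ≤ a + M := by omega
    have h2 : (b:ℝ) ≤ a + M := by exact_mod_cast h1
    linarith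
  have hba0 : 0 ≤ (b:ℝ) - a := by
    have : (a:ℝ) ≤ b := by exact_mod_cast hab
    linarith
  have hs1 : ((b:ℝ) - a) * √lam ≤ √(y * h / M) := by
    refine (mul_le_mul_of_nonneg_right hba (Real.sqrt_nonneg _)).trans ?_
    refine Real.le_sqrt_of_sq_le ?_
    rw [mul_pow, Real.sq_sqrt hlam0.le, hlam]
    have e1 : (M:ℝ) ^ 2 * (y / (2 * Real.pi) * ((h:ℝ) / (8 * (M:ℝ) ^ 3))) =
        1 / (16 * Real.pi) * (y * h / M) := by
      field_simp
      ring
    rw [e1]
    have h5 : 1 / (16 * Real.pi) ≤ 1 := by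
      rw [div_le_one (by positivity)]
      have := Real.pi_gt_three
      linarith
    have h6 : 0 ≤ y * h / M := by positivity
    calc 1 / (16 * Real.pi) * (y * h / M) ≤ 1 * (y * h / M) := mul_le_mul_of_nonneg_right h5 h6
      _ = _ := one_mul _
  have hs2 : 1 / √lam ≤ 8 * √((M : ℝ) ^ 3 / (y * h)) := by
    rw [one_div, ← Real.sqrt_inv]
    have e2 : lam⁻¹ = 16 * Real.pi * ((M : ℝ) ^ 3 / (y * h)) := by
      rw [hlam]
      field_simp
      ring
    rw [e2, Real.sqrt_mul (by positivity)]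
    refine mul_le_mul_of_nonneg_right ?_ (Real.sqrt_nonneg _)
    refine Real.sqrt_le_iff.2 ⟨by norm_num, ?_⟩
    have := Real.pi_lt_four
    linarith
  have h7 : 0 ≤ √(y * h / M) := Real.sqrt_nonneg _
  have h8 : 0 ≤ √((M : ℝ) ^ 3 / (y * h)) := Real.sqrt_nonneg _
  calc 20 * (22 * ((b:ℝ) - a) * √lam + 1 / √lam)
      = 440 * (((b:ℝ) - a) * √lam) + 20 * (1 / √lam) := by ring
    _ ≤ 440 * √(y * h / M) + 20 * (8 * √((M : ℝ) ^ 3 / (y * h))) := by linarith
    _ ≤ _ := by linarith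

end VPH

/-- the exponential sums of the off-diagonal terms.  `f n = x / (2π) (log (n+h) - log n)`,
`f (n+2) - 2 f (n+1) + f n = x / (2π) log ((1 - 1/(n+h+1)^2) / (1 - 1/(n+1)^2))`, which is between
`x h / (16 π M^3)` and `22` times this for `M ≤ n`, `n + h < 2 M`.  The case `x < 0` by conjugation. -/
theorem exists_phase_sum : ∃ C : ℝ, 1 ≤ C ∧ ∀ (x : ℝ) (M h a b : ℕ), x ≠ 0 → 1 ≤ h → h ≤ M →
    M ≤ a → a ≤ b → b + h ≤ 2 * M →
    ‖∑ n ∈ Finset.Ico a b, cexp (-(I * x * (Real.log ((n + h : ℕ) : ℝ) - Real.log (n : ℝ))))‖ ≤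
      C * (√(|x| * h / M) + √((M : ℝ) ^ 3 / (|x| * h))) := by
  refine ⟨440, by norm_num, ?_⟩
  intro x M h a b hx hh hhM ha hab hb
  rcases lt_or_gt_of_ne hx with hx0 | hx0
  · have h1 := VPH.pos_case (y := -x) (by linarith) hh hhM ha hab hb
    rw [abs_of_neg hx0]
    refine le_trans (le_of_eq ?_) h1
    congr 1
    refine Finset.sum_congr rfl fun n _ => ?_
    congr 1
    unfold VPH.ph
    push_cast
    ring
  · have h1 := VPH.pos_case (y := x) hx0 hh hhM ha hab hb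
    rw [abs_of_pos hx0]
    refine le_trans (le_of_eq ?_) h1
    rw [← Complex.norm_conj (∑ n ∈ Finset.Ico a b, cexp (I * x * VPH.ph h n)), map_sum]
    congr 1
    refine Finset.sum_congr rfl fun n _ => ?_
    rw [← Complex.exp_conj]
    congr 1
    unfold VPH.ph
    simp only [map_mul, Complex.conj_I, Complex.conj_ofReal]
    push_cast
    ring

end Pool.Agent.AAS
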