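import Pool.Agent.AAS.ZMO
import Pool.Agent.AAS.Defs7

set_option autoImplicit false

namespace Pool.Agent.AAS

open Complex Finset MeasureTheory Filter Topology Set
open Pool.Agent.H26

private lemma ZAV_vol (k : ℕ) (H : ℝ) : (volume : Measure (Fin k → ℝ)).restrict (box k H) =
    Measure.pi (fun _ : Fin k => (volume : Measure ℝ).restrict (Icc (-H) H)) := by
  rw [volume_pi, box, Measure.restrict_pi_pi]

private lemma ZAV_real_box (k : ℕ) {H : ℝ} (hH : 0 ≤ H) :
    (Measure.pi (fun _ : Fin k => (volume : Measure ℝ).restrict (Icc (-H) H))).real univ =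
      (2 * H) ^ k := by
  rw [Measure.real, Measure.pi_univ, ENNReal.toReal_prod]
  simp only [Measure.restrict_apply_univ, Real.volume_Icc]
  rw [Finset.prod_const, Finset.card_univ, Fintype.card_fin, ENNReal.toReal_ofReal (by linarith)]
  congr 1
  ring

private lemma ZAV_isCompact_box (k : ℕ) (H : ℝ) : IsCompact (box k H) :=
  isCompact_univ_pi fun _ => isCompact_Icc

/-- Fubini for a difference of two coordinates -/
theorem integral_box_sub_le {k : ℕ} {j l : Fin k} (hjl : j ≠ l) {F : ℝ → ℝ} (hF : Continuous F)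
    (hF0 : ∀ x, 0 ≤ F x) {H : ℝ} (hH : 0 ≤ H) :
    ∫ u in box k H, F (u j - u l) ≤ (2 * H) ^ (k - 1) * ∫ w in (-(2 * H))..(2 * H), F w := by
  obtain ⟨n, rfl⟩ : ∃ n, k = n + 1 := by
    rcases k with _ | n
    · exact j.elim0
    · exact ⟨n, rfl⟩
  obtain ⟨l', hl'⟩ := Fin.exists_succAbove_eq hjl.symm
  subst hl'
  set μ : Measure ℝ := (volume : Measure ℝ).restrict (Icc (-H) H) with hμ
  have hint : Integrable (fun u : Fin (n + 1) → ℝ => F (u j - u (j.succAbove l')))
      (Measure.pi (fun _ : Fin (n + 1) => μ)) := by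
    rw [← ZAV_vol]
    have hc : Continuous fun u : Fin (n + 1) → ℝ => F (u j - u (j.succAbove l')) := by
      fun_prop
    exact hc.continuousOn.integrableOn_compact (ZAV_isCompact_box (n + 1) H)
  have hmp := measurePreserving_piFinSuccAbove (fun _ : Fin (n + 1) => μ) j
  set e := MeasurableEquiv.piFinSuccAbove (fun _ : Fin (n + 1) => ℝ) j with he
  set K : ℝ × (Fin n → ℝ) → ℝ := fun p => F (p.1 - p.2 l') with hK
  have hKe : ∀ u : Fin (n + 1) → ℝ, K (e u) = F (u j - u (j.succAbove l')) := fun u => rfl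
  have hKint : Integrable K (μ.prod (Measure.pi fun _ : Fin n => μ)) := by
    rw [← hmp.integrable_comp_emb e.measurableEmbedding]
    exact hint
  have h1 : ∫ u in box (n + 1) H, F (u j - u (j.succAbove l')) =
      ∫ y, (∫ x, F (x - y l') ∂μ) ∂(Measure.pi fun _ : Fin n => μ) := by
    rw [ZAV_vol]
    have h2 := hmp.integral_comp e.measurableEmbedding K
    simp only [hKe] at h2
    rw [h2]
    exact integral_prod_symm K hKint
  rw [h1]
  refine (le_abs_self _).trans ?_
  rw [← Real.norm_eq_abs]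
  have hb : ∀ᵐ y ∂(Measure.pi fun _ : Fin n => μ), ‖∫ x, F (x - y l') ∂μ‖ ≤
      ∫ w in (-(2 * H))..(2 * H), F w := by
    have hae : ∀ᵐ y ∂(Measure.pi fun _ : Fin n => μ), y ∈ box n H := by
      rw [hμ, ← ZAV_vol]
      exact ae_restrict_mem (ZAV_isCompact_box n H).measurableSet
    filter_upwards [hae] with y hy
    have hyl : y l' ∈ Icc (-H) H := hy l' (mem_univ _)
    rw [Real.norm_of_nonneg (integral_nonneg fun x => hF0 _), hμ,
      integral_Icc_eq_integral_Ioc, ← intervalIntegral.integral_of_le (by linarith),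
      intervalIntegral.integral_comp_sub_right]
    refine intervalIntegral.integral_mono_interval (by linarith [hyl.2]) (by linarith)
      (by linarith [hyl.1]) (Filter.Eventually.of_forall fun x => hF0 x)
      (hF.intervalIntegrable _ _)
  refine (norm_integral_le_of_norm_le_const hb).trans (le_of_eq ?_)
  rw [ZAV_real_box n hH, Nat.add_sub_cancel, mul_comm]

private lemma ZAV_prod_le {ι : Type*} (s : Finset ι) (x : ι → ℝ) (hx : ∀ i ∈ s, 0 ≤ x i) :
    ∏ i ∈ s, x i ≤ 1 + ∑ i ∈ s, x i ^ s.card := by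
  rcases s.eq_empty_or_nonempty with h | h
  · subst h
    simp
  · obtain ⟨i0, hi0, hmax⟩ := s.exists_max_image x h
    have h1 : ∏ i ∈ s, x i ≤ x i0 ^ s.card := by
      rw [← Finset.prod_const]
      exact Finset.prod_le_prod hx fun i hi => hmax i hi
    have h2 : x i0 ^ s.card ≤ ∑ i ∈ s, x i ^ s.card :=
      Finset.single_le_sum (f := fun i => x i ^ s.card) (fun i hi => pow_nonneg (hx i hi) _) hi0
    linarith

private lemma ZAV_cont {σ : ℝ} (hσ : 0 < σ) (c : ℝ) (m : ℕ) :
    Continuous fun w : ℝ => ‖riemannZeta (1 - σ + I * ((c : ℂ) + w))‖ ^ m := by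
  refine Continuous.pow (Continuous.norm ?_) m
  rw [continuous_iff_continuousAt]
  intro w
  have hne : (1 - σ + I * ((c : ℂ) + w) : ℂ) ≠ 1 := by
    intro h
    have h1 := congrArg Complex.re h
    simp at h1
    linarith
  exact ContinuousAt.comp (f := fun w : ℝ => (1 - σ + I * ((c : ℂ) + w) : ℂ))
    (differentiableAt_riemannZeta hne).continuousAt (by fun_prop)

/-- the average over the translations.  `∏_{j ≠ l} x_jl ≤ 1 + ∑_{j ≠ l} x_jl^(k^2 - k)` for
`x_jl ≥ 0`, `k^2 - k = 2m`, `integral_box_sub_le`, and `exists_zeta_moment m` with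
`V = 2H + |y| + 2B + 1`. -/
theorem exists_zeta_average (k : ℕ) : ∃ σ₀ : ℝ, 0 < σ₀ ∧ σ₀ ≤ 1 / 8 ∧ ∀ σ : ℝ, 0 < σ → σ ≤ σ₀ →
    ∀ B ε : ℝ, 0 ≤ B → 0 < ε → ε ≤ 1 → ∃ C : ℝ, 1 ≤ C ∧ ∀ H : ℝ, 1 ≤ H →
    ∀ a b : Fin k → ℝ, (∀ j, |a j| ≤ B) → (∀ j, |b j| ≤ B) → ∀ y : ℝ,
    ∫ u in box k H, ∏ j, ∏ l ∈ univ.erase j,
      ‖riemannZeta (1 - σ + I * (y + dl a b u j l))‖ ≤
        (2 * H) ^ k * (C * (1 + |y|) ^ 2 * H ^ ε) := by
  classical
  obtain ⟨m, hm⟩ := Nat.even_mul_pred_self k
  obtain ⟨σ₀, h0, h8, hmom⟩ := exists_zeta_moment m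
  refine ⟨σ₀, h0, h8, ?_⟩
  intro σ hσ hσ0 B ε hB hε hε1
  obtain ⟨C, hC, hV⟩ := hmom σ hσ hσ0 ε hε
  set s : Finset (Σ _ : Fin k, Fin k) := univ.sigma (fun j => univ.erase j) with hs
  have hcard : s.card = 2 * m := by
    rw [hs, Finset.card_sigma]
    simp only [Finset.card_erase_of_mem (Finset.mem_univ _), Finset.card_univ, Fintype.card_fin,
      Finset.sum_const, smul_eq_mul]
    omega
  refine ⟨1 + (2 * m : ℕ) * (C * (2 * (2 * B + 2) ^ 2)), ?_, ?_⟩
  · have : (0:ℝ) ≤ (2 * m : ℕ) * (C * (2 * (2 * B + 2) ^ 2)) := by positivity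
    linarith
  intro H hH a b ha hb y
  have hH0 : 0 < H := by linarith
  set x : (Σ _ : Fin k, Fin k) → (Fin k → ℝ) → ℝ := fun i u =>
    ‖riemannZeta (1 - σ + I * (y + dl a b u i.1 i.2))‖ with hx
  set M : ℝ := C * (2 * (2 * B + 2) ^ 2) * ((1 + |y|) ^ 2 * H ^ ε) with hM
  -- each factor
  have hcx : ∀ i : (Σ _ : Fin k, Fin k), ∀ n : ℕ, Continuous fun u => x i u ^ n := by
    intro i n
    have h1 : (fun u : Fin k → ℝ => x i u ^ n) = (fun w : ℝ =>
        ‖riemannZeta (1 - σ + I * (((y + (a i.1 - b i.2) : ℝ) : ℂ) + w))‖ ^ n) ∘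
        fun u : Fin k → ℝ => u i.1 - u i.2 := by
      funext u
      simp only [hx, Function.comp, dl]
      push_cast
      congr 4
      ring
    rw [h1]
    exact (ZAV_cont hσ _ n).comp (by fun_prop)
  have hone : ∀ i ∈ s, ∫ u in box k H, x i u ^ (2 * m) ≤ (2 * H) ^ k * M := by
    intro i hi
    have hne : i.1 ≠ i.2 := by
      rw [hs, Finset.mem_sigma] at hi
      exact (Finset.ne_of_mem_erase hi.2).symm
    have hk1 : 1 ≤ k := by
      have := i.1.pos
      omega
    set c : ℝ := y + (a i.1 - b i.2) with hc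
    have h1 : ∀ u : Fin k → ℝ, x i u ^ (2 * m) =
        (fun w : ℝ => ‖riemannZeta (1 - σ + I * ((c : ℂ) + w))‖ ^ (2 * m)) (u i.1 - u i.2) := by
      intro u
      simp only [hx, dl, hc]
      push_cast
      congr 4
      ring
    simp only [h1]
    have h2 := integral_box_sub_le hne (ZAV_cont hσ c (2 * m))
      (fun w => pow_nonneg (norm_nonneg _) _) hH0.le
    refine h2.trans ?_
    have hcB : |c| ≤ |y| + 2 * B := by
      rw [hc]
      have t1 := abs_add_le y (a i.1 - b i.2)
      have t2 := abs_sub (a i.1) (b i.2)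
      have t3 := ha i.1
      have t4 := hb i.2
      linarith
    set V : ℝ := 2 * H + |y| + 2 * B + 1 with hVdef
    have hV1 : 1 ≤ V := by
      have := abs_nonneg y
      linarith
    have hint : ∫ w in (-(2 * H))..(2 * H),
        ‖riemannZeta (1 - σ + I * ((c : ℂ) + w))‖ ^ (2 * m) ≤ C * V ^ (1 + ε) := by
      have h3 : ∫ w in (-(2 * H))..(2 * H),
          ‖riemannZeta (1 - σ + I * ((c : ℂ) + w))‖ ^ (2 * m) =
          ∫ w in (c + -(2 * H))..(c + 2 * H),
            ‖riemannZeta (1 - σ + I * (w : ℂ))‖ ^ (2 * m) := by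
        rw [← intervalIntegral.integral_comp_add_left
          (fun w : ℝ => ‖riemannZeta (1 - σ + I * (w : ℂ))‖ ^ (2 * m)) c]
        refine intervalIntegral.integral_congr fun w _ => ?_
        push_cast
        rfl
      rw [h3]
      refine le_trans ?_ (hV V hV1)
      have hab := abs_le.1 hcB
      have hcont : Continuous fun w : ℝ => ‖riemannZeta (1 - σ + I * (w : ℂ))‖ ^ (2 * m) := by
        have h4 := ZAV_cont hσ 0 (2 * m)
        simpa using h4
      exact intervalIntegral.integral_mono_interval (by linarith) (by linarith) (by linarith)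
        (Filter.Eventually.of_forall fun x => pow_nonneg (norm_nonneg _) _)
        (hcont.intervalIntegrable _ _)
    have hVle : V ^ (1 + ε) ≤ (2 * H) * (2 * (2 * B + 2) ^ 2 * ((1 + |y|) ^ 2 * H ^ ε)) := by
      have hy0 := abs_nonneg y
      have hVle1 : V ≤ (2 * H) * ((2 * B + 2) * (1 + |y|)) := by
        have e1 : |y| + 2 * B + 1 ≤ (2 * H) * (|y| + 2 * B + 1) := by nlinarith
        have e2 : |y| + 2 * B + 2 ≤ (2 * B + 2) * (1 + |y|) := by nlinarith
        calc V = 2 * H + (|y| + 2 * B + 1) := by rw [hVdef]; ring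
          _ ≤ 2 * H + (2 * H) * (|y| + 2 * B + 1) := by linarith
          _ = (2 * H) * (|y| + 2 * B + 2) := by ring
          _ ≤ _ := mul_le_mul_of_nonneg_left e2 (by positivity)
      have hP1 : 1 ≤ (2 * B + 2) * (1 + |y|) := by nlinarith
      calc V ^ (1 + ε) ≤ ((2 * H) * ((2 * B + 2) * (1 + |y|))) ^ (1 + ε) :=
            Real.rpow_le_rpow (by linarith) hVle1 (by linarith)
        _ = (2 * H) ^ (1 + ε) * ((2 * B + 2) * (1 + |y|)) ^ (1 + ε) :=
            Real.mul_rpow (by positivity) (by positivity)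
        _ ≤ ((2 * H) * (2 * H ^ ε)) * ((2 * B + 2) * (1 + |y|)) ^ (2:ℝ) := by
            refine mul_le_mul ?_ ?_ (by positivity) (by positivity)
            · rw [Real.rpow_add (by positivity), Real.rpow_one,
                Real.mul_rpow (by norm_num) hH0.le]
              refine mul_le_mul_of_nonneg_left ?_ (by positivity)
              refine mul_le_mul_of_nonneg_right ?_ (by positivity)
              calc (2:ℝ) ^ ε ≤ 2 ^ (1:ℝ) :=
                    Real.rpow_le_rpow_of_exponent_le (by norm_num) hε1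
                _ = 2 := Real.rpow_one 2
            · exact Real.rpow_le_rpow_of_exponent_le hP1 (by linarith)
        _ = _ := by
            rw [Real.rpow_two]
            ring
    have hfin : (2 * H) ^ (k - 1) * (C * V ^ (1 + ε)) ≤ (2 * H) ^ k * M := by
      have e3 : (2 * H) ^ k = (2 * H) ^ (k - 1) * (2 * H) := by
        rw [← pow_succ, Nat.sub_add_cancel hk1]
      rw [e3, mul_assoc ((2 * H) ^ (k - 1))]
      refine mul_le_mul_of_nonneg_left ?_ (by positivity)
      calc C * V ^ (1 + ε) ≤ C * ((2 * H) * (2 * (2 * B + 2) ^ 2 * ((1 + |y|) ^ 2 * H ^ ε))) :=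
            mul_le_mul_of_nonneg_left hVle (by linarith)
        _ = 2 * H * M := by rw [hM]; ring
    exact (mul_le_mul_of_nonneg_left hint (by positivity)).trans hfin
  have hpw : ∀ u : Fin k → ℝ, ∏ j, ∏ l ∈ univ.erase j,
      ‖riemannZeta (1 - σ + I * (y + dl a b u j l))‖ ≤ 1 + ∑ i ∈ s, x i u ^ (2 * m) := by
    intro u
    have h1 := ZAV_prod_le s (fun i => x i u) (fun i _ => norm_nonneg _)
    rw [hcard] at h1
    refine le_trans (le_of_eq ?_) h1
    rw [hs, Finset.prod_sigma]
  have hKc := ZAV_isCompact_box k H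
  have hintg : ∀ i ∈ s, Integrable (fun u => x i u ^ (2 * m)) (volume.restrict (box k H)) :=
    fun i _ => (hcx i (2 * m)).continuousOn.integrableOn_compact hKc
  have hfinm : IsFiniteMeasure (volume.restrict (box k H)) := by
    refine ⟨?_⟩
    rw [Measure.restrict_apply_univ]
    exact hKc.measure_lt_top
  have hconst : Integrable (fun _ : Fin k → ℝ => (1:ℝ)) (volume.restrict (box k H)) :=
    integrable_const _
  calc ∫ u in box k H, ∏ j, ∏ l ∈ univ.erase j,
        ‖riemannZeta (1 - σ + I * (y + dl a b u j l))‖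
      ≤ ∫ u in box k H, (1 + ∑ i ∈ s, x i u ^ (2 * m)) := by
        refine integral_mono_of_nonneg (Filter.Eventually.of_forall fun u =>
          Finset.prod_nonneg fun j _ => Finset.prod_nonneg fun l _ => norm_nonneg _)
          (hconst.add (integrable_finset_sum s hintg)) (Filter.Eventually.of_forall hpw)
    _ = (2 * H) ^ k + ∑ i ∈ s, ∫ u in box k H, x i u ^ (2 * m) := by
        rw [integral_add hconst (integrable_finset_sum s hintg), integral_finset_sum s hintg]
        congr 1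
        rw [integral_const, smul_eq_mul, mul_one, ZAV_vol, ZAV_real_box k hH0.le]
    _ ≤ (2 * H) ^ k + ∑ i ∈ s, (2 * H) ^ k * M := by
        gcongr with i hi
        exact hone i hi
    _ = (2 * H) ^ k * (1 + (2 * m : ℕ) * M) := by
        rw [Finset.sum_const, hcard, nsmul_eq_mul]
        ring
    _ ≤ (2 * H) ^ k * ((1 + (2 * m : ℕ) * (C * (2 * (2 * B + 2) ^ 2))) * (1 + |y|) ^ 2 *
          H ^ ε) := by
        refine mul_le_mul_of_nonneg_left ?_ (by positivity)
        have hy1 : 1 ≤ (1 + |y|) ^ 2 := by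
          have := abs_nonneg y
          nlinarith
        have hHe : 1 ≤ H ^ ε := Real.one_le_rpow hH hε.le
        have hprod : 1 ≤ (1 + |y|) ^ 2 * H ^ ε := one_le_mul_of_one_le_of_one_le hy1 hHe
        rw [hM]
        calc 1 + ((2 * m : ℕ) : ℝ) * (C * (2 * (2 * B + 2) ^ 2) * ((1 + |y|) ^ 2 * H ^ ε))
            ≤ (1 + |y|) ^ 2 * H ^ ε +
              ((2 * m : ℕ) : ℝ) * (C * (2 * (2 * B + 2) ^ 2) * ((1 + |y|) ^ 2 * H ^ ε)) := by
              linarith
          _ = _ := by ring

end Pool.Agent.AAS
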