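import Pool.Agent.AAS.AF1
import Pool.Agent.AAS.ZTL
import Pool.Agent.AAS.LS
import Pool.Agent.AAS.L2C
import Pool.Agent.AAS.BLO
import Pool.Agent.AAS.SHF

/-!
# Blockwise decomposition of zeta on the critical line
-/

set_option autoImplicit false

namespace Pool.Agent.AAS

open Complex Finset MeasureTheory Filter Topology Set
open Pool.Agent.H26

/-- a dyadic block of the zeta function -/
noncomputable def zl1P (j : ℕ) (w : ℂ) : ℂ :=
  ∑ n ∈ Finset.Ico (2 ^ j : ℕ) (2 ^ (j + 1)), (n : ℂ) ^ (-w)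

/-- the weight of the two parts -/
noncomputable def zl1A (κ : Bool) (N v : ℝ) (s : ℂ) : ℂ :=
  if κ then (N : ℂ) ^ (-s) * (1 + s / (1 / 2 - I * v)) * chi (1 / 2 + I * v - s)
  else (N : ℂ) ^ s * (1 - s / (1 / 2 - I * v))

/-- the argument of the two parts -/
noncomputable def zl1W (κ : Bool) (v : ℝ) (s : ℂ) : ℂ :=
  if κ then 1 / 2 - I * v + s else 1 / 2 + I * v + s

/-- the integrand of a block -/
noncomputable def zl1I (κ : Bool) (N : ℝ) (j : ℕ) (s : ℂ) (v : ℝ) : ℂ :=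
  cexp (s ^ 2) / s * (zl1A κ N v s * zl1P j (zl1W κ v s))

/-- a block of the approximate functional equation -/
noncomputable def zl1F (κ : Bool) (N c : ℝ) (j : ℕ) (v : ℝ) : ℂ :=
  LI c (fun s => zl1I κ N j s v)

/-- the truncated zeta function -/
noncomputable def zl1R (J : ℕ) (w : ℂ) : ℂ :=
  riemannZeta w - ∑ n ∈ Finset.Ico (1 : ℕ) (2 ^ J), (n : ℂ) ^ (-w)

noncomputable def zl1J (κ : Bool) (N : ℝ) (J : ℕ) (s : ℂ) (v : ℝ) : ℂ :=
  cexp (s ^ 2) / s * (zl1A κ N v s * zl1R J (zl1W κ v s))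

lemma zl1R_sub (J : ℕ) (w : ℂ) : zl1R J w - zl1R (J + 1) w = zl1P J w := by
  unfold zl1R zl1P
  have h : ∑ n ∈ Finset.Ico (1 : ℕ) (2 ^ (J + 1)), (n : ℂ) ^ (-w) =
      ∑ n ∈ Finset.Ico (1 : ℕ) (2 ^ J), (n : ℂ) ^ (-w) +
      ∑ n ∈ Finset.Ico (2 ^ J : ℕ) (2 ^ (J + 1)), (n : ℂ) ^ (-w) :=
    (Finset.sum_Ico_consecutive _ Nat.one_le_two_pow
      (Nat.pow_le_pow_right (by norm_num) (Nat.le_succ J))).symm
  rw [h]
  ring

lemma zl1_norm_line {c : ℝ} (hc : 0 < c) (hc1 : c ≤ 1) (y : ℝ) :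
    1 + ‖((c : ℂ) + y * I)‖ ≤ 2 + |y| := by
  have h1 : ‖((c : ℂ) + y * I)‖ ≤ ‖(c : ℂ)‖ + ‖(y : ℂ) * I‖ := norm_add_le _ _
  have h2 : ‖(c : ℂ)‖ = c := by
    rw [Complex.norm_real, Real.norm_eq_abs, abs_of_pos hc]
  have h3 : ‖(y : ℂ) * I‖ = |y| := by
    rw [norm_mul, Complex.norm_I, mul_one, Complex.norm_real, Real.norm_eq_abs]
  rw [h2, h3] at h1
  linarith

lemma zl1_half_ne (v : ℝ) : (1 / 2 - I * (v : ℂ)) ≠ 0 := by
  intro h
  have := congrArg Complex.re h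
  simp at this

lemma zl1_half_norm (v : ℝ) : 1 / 2 ≤ ‖(1 / 2 - I * (v : ℂ))‖ := by
  have h := Complex.abs_re_le_norm (1 / 2 - I * (v : ℂ))
  have e : (1 / 2 - I * (v : ℂ)).re = 1 / 2 := by simp
  rw [e, abs_of_pos (by norm_num)] at h
  exact h

lemma zl1_div_le (v : ℝ) (s : ℂ) : ‖s / (1 / 2 - I * (v : ℂ))‖ ≤ 2 * ‖s‖ := by
  rw [norm_div, div_le_iff₀ (norm_pos_iff.2 (zl1_half_ne v))]
  have := zl1_half_norm v
  nlinarith [norm_nonneg s]

lemma zl1A_false (N v : ℝ) (s : ℂ) :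
    zl1A false N v s = (N : ℂ) ^ s * (1 - s / (1 / 2 - I * v)) := by simp [zl1A]

lemma zl1A_true (N v : ℝ) (s : ℂ) : zl1A true N v s =
    (N : ℂ) ^ (-s) * (1 + s / (1 / 2 - I * v)) * chi (1 / 2 + I * v - s) := by simp [zl1A]

lemma zl1W_false (v : ℝ) (s : ℂ) : zl1W false v s = 1 / 2 + I * v + s := by simp [zl1W]

lemma zl1W_true (v : ℝ) (s : ℂ) : zl1W true v s = 1 / 2 - I * v + s := by simp [zl1W]

lemma zl1W_re (κ : Bool) (v : ℝ) (s : ℂ) : (zl1W κ v s).re = 1 / 2 + s.re := by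
  cases κ
  · simp [zl1W_false]
  · simp [zl1W_true]

/-- bound of the weights -/
lemma exists_zl1A_le : ∃ C : ℝ, 1 ≤ C ∧ ∀ (κ : Bool) (N v : ℝ) (s : ℂ), 1 ≤ N →
    |v| ≤ 4 * N ^ 2 → 0 ≤ s.re → s.re ≤ 3 / 4 →
    ‖zl1A κ N v s‖ ≤ C * (1 + ‖s‖) ^ 2 * N ^ s.re := by
  obtain ⟨C, hC1, hC⟩ := CHI.exists_norm_chi_strip
  refine ⟨12 * C, by linarith, fun κ N v s hN hv h0 h1 => ?_⟩
  have hN0 : 0 < N := by linarith
  have hs0 := norm_nonneg s
  have hNp : 0 < N ^ s.re := Real.rpow_pos_of_pos hN0 _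
  have hd := zl1_div_le v s
  cases κ with
  | false =>
    rw [zl1A_false, norm_mul, Complex.norm_cpow_eq_rpow_re_of_pos hN0]
    have h2 : ‖1 - s / (1 / 2 - I * (v : ℂ))‖ ≤ 1 + 2 * ‖s‖ := by
      refine (norm_sub_le _ _).trans ?_
      rw [norm_one]
      linarith
    calc N ^ s.re * ‖1 - s / (1 / 2 - I * (v : ℂ))‖ ≤ N ^ s.re * (1 + 2 * ‖s‖) := by gcongr
      _ ≤ N ^ s.re * (12 * C * (1 + ‖s‖) ^ 2) := by
          gcongr
          nlinarith
      _ = _ := by ring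
  | true =>
    rw [zl1A_true, norm_mul, norm_mul, Complex.norm_cpow_eq_rpow_re_of_pos hN0]
    have h2 : ‖1 + s / (1 / 2 - I * (v : ℂ))‖ ≤ 1 + 2 * ‖s‖ := by
      refine (norm_add_le _ _).trans ?_
      rw [norm_one]
      linarith
    set w : ℂ := 1 / 2 + I * (v : ℂ) - s with hw
    have hre : w.re = 1 / 2 - s.re := by simp [hw]
    have him : w.im = v - s.im := by simp [hw]
    have h3 := hC w (by rw [hre]; linarith) (by rw [hre]; linarith)
    have h4 : ‖chi w‖ ≤ C * (5 * N ^ (2 * s.re) * (1 + ‖s‖)) := by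
      refine h3.trans ?_
      have e : 1 / 2 - w.re = s.re := by rw [hre]; ring
      rw [e]
      have h5 : 1 + |w.im| ≤ 5 * N ^ 2 * (1 + ‖s‖) := by
        have h6 : |w.im| ≤ |v| + ‖s‖ := by
          rw [him]
          exact (abs_sub _ _).trans (add_le_add le_rfl (Complex.abs_im_le_norm s))
        have h7 : (1:ℝ) ≤ N ^ 2 := by nlinarith
        have h8 : ‖s‖ ≤ N ^ 2 * ‖s‖ := by nlinarith
        nlinarith
      have h9 : (1 + |w.im|) ^ s.re ≤ 5 * N ^ (2 * s.re) * (1 + ‖s‖) := by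
        calc (1 + |w.im|) ^ s.re ≤ (5 * N ^ 2 * (1 + ‖s‖)) ^ s.re := by
              gcongr
          _ = 5 ^ s.re * N ^ (2 * s.re) * (1 + ‖s‖) ^ s.re := by
              rw [Real.mul_rpow (by positivity) (by positivity), Real.mul_rpow (by norm_num)
                (by positivity), ← Real.rpow_natCast N 2, ← Real.rpow_mul hN0.le]
              norm_num
          _ ≤ 5 ^ (1:ℝ) * N ^ (2 * s.re) * (1 + ‖s‖) ^ (1:ℝ) := by
              gcongr
              · norm_num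
              · linarith
              · linarith
              · linarith
          _ = _ := by rw [Real.rpow_one, Real.rpow_one]
      gcongr
    have h10 : N ^ (-s).re = (N ^ s.re)⁻¹ := by
      rw [Complex.neg_re, Real.rpow_neg hN0.le]
    have h11 : N ^ (2 * s.re) = N ^ s.re * N ^ s.re := by
      rw [← Real.rpow_add hN0]; congr 1; ring
    rw [h10]
    calc (N ^ s.re)⁻¹ * ‖1 + s / (1 / 2 - I * (v : ℂ))‖ * ‖chi w‖
        ≤ (N ^ s.re)⁻¹ * (1 + 2 * ‖s‖) * (C * (5 * N ^ (2 * s.re) * (1 + ‖s‖))) := by gcongr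
      _ = 5 * C * ((1 + 2 * ‖s‖) * (1 + ‖s‖)) * N ^ s.re * ((N ^ s.re)⁻¹ * N ^ s.re) := by
          rw [h11]; ring
      _ = 5 * C * ((1 + 2 * ‖s‖) * (1 + ‖s‖)) * N ^ s.re := by
          rw [inv_mul_cancel₀ hNp.ne', mul_one]
      _ ≤ 12 * C * (1 + ‖s‖) ^ 2 * N ^ s.re := by
          gcongr ?_ * _
          nlinarith

/-- the weight of the line integral -/
noncomputable def zl1m (y : ℝ) : ℝ := (2 + |y|) ^ 2 * Real.exp (-y ^ 2)

lemma zl1m_pos (y : ℝ) : 0 < zl1m y := by unfold zl1m; positivity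

lemma zl1m_cont : Continuous zl1m := by unfold zl1m; fun_prop

lemma zl1m_le (y : ℝ) : zl1m y ≤ 2 * Real.exp 3 * Real.exp (-(y ^ 2 / 2)) := by
  have := shf_gauss 2 y
  unfold zl1m
  simpa using this

lemma zl1m_int : Integrable zl1m := by
  refine (shf_int (2 * Real.exp 3)).mono' zl1m_cont.aestronglyMeasurable
    (Eventually.of_forall fun y => ?_)
  rw [Real.norm_eq_abs, abs_of_pos (zl1m_pos y)]
  exact zl1m_le y

lemma zl1_exp_div_le {c : ℝ} (hc : 0 < c) (hc1 : c ≤ 1) (y : ℝ) :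
    ‖cexp (((c : ℂ) + y * I) ^ 2) / ((c : ℂ) + y * I)‖ ≤ 3 / c * Real.exp (-y ^ 2) := by
  have h1 := shf_exp_le (u := c) (v := y) (by rw [abs_of_pos hc]; exact hc1)
  have h2 : c ≤ ‖((c : ℂ) + y * I)‖ := by
    have h := Complex.abs_re_le_norm ((c : ℂ) + y * I)
    have e : ((c : ℂ) + y * I).re = c := by simp
    rw [e, abs_of_pos hc] at h
    exact h
  rw [norm_div]
  have h3 : Real.exp 1 ≤ 3 := by
    have := Real.exp_one_lt_d9
    linarith
  calc ‖cexp (((c : ℂ) + y * I) ^ 2)‖ / ‖((c : ℂ) + y * I)‖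
      ≤ (Real.exp 1 * Real.exp (-y ^ 2)) / c := by gcongr
    _ ≤ (3 * Real.exp (-y ^ 2)) / c := by gcongr
    _ = _ := by ring

/-- bound of the weights with the kernel -/
lemma exists_zl1K_le : ∃ C : ℝ, 1 ≤ C ∧ ∀ (κ : Bool) (N v c y : ℝ), 1 ≤ N →
    |v| ≤ 4 * N ^ 2 → 0 < c → c ≤ 3 / 4 →
    ‖cexp (((c : ℂ) + y * I) ^ 2) / ((c : ℂ) + y * I)‖ * ‖zl1A κ N v ((c : ℂ) + y * I)‖ ≤
      C / c * N ^ c * zl1m y := by
  obtain ⟨C, hC1, hC⟩ := exists_zl1A_le
  refine ⟨3 * C, by linarith, fun κ N v c y hN hv hc hc1 => ?_⟩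
  have hre : ((c : ℂ) + y * I).re = c := by simp
  have h1 := hC κ N v ((c : ℂ) + y * I) hN hv (by rw [hre]; exact hc.le) (by rw [hre]; exact hc1)
  rw [hre] at h1
  have h2 := zl1_exp_div_le hc (by linarith) y
  have h3 := zl1_norm_line hc (by linarith) y
  have hN0 : 0 < N := by linarith
  calc _ ≤ (3 / c * Real.exp (-y ^ 2)) * (C * (1 + ‖((c : ℂ) + y * I)‖) ^ 2 * N ^ c) := by gcongr
    _ ≤ (3 / c * Real.exp (-y ^ 2)) * (C * (2 + |y|) ^ 2 * N ^ c) := by gcongr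
    _ = _ := by unfold zl1m; ring

lemma zl1A_cont (κ : Bool) {N c : ℝ} (hN : 0 < N) (hc : -(1 / 2) < c) :
    Continuous fun p : ℝ × ℝ => zl1A κ N p.2 ((c : ℂ) + p.1 * I) := by
  have hNc : (N : ℂ) ≠ 0 := by exact_mod_cast hN.ne'
  have h1 : Continuous fun p : ℝ × ℝ => ((c : ℂ) + p.1 * I) / (1 / 2 - I * (p.2 : ℂ)) :=
    Continuous.div (by fun_prop) (by fun_prop) fun p => zl1_half_ne p.2
  cases κ with
  | false =>
    simp only [zl1A_false]
    exact (Continuous.const_cpow (by fun_prop) (Or.inl hNc)).mul (continuous_const.sub h1)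
  | true =>
    simp only [zl1A_true]
    refine ((Continuous.const_cpow (by fun_prop) (Or.inl hNc)).mul
      (continuous_const.add h1)).mul ?_
    have h2 : Continuous fun p : ℝ × ℝ => (1 / 2 + I * (p.2 : ℂ) - ((c : ℂ) + p.1 * I)) := by
      fun_prop
    refine CHI.differentiableOn_chi.continuousOn.comp_continuous h2 fun p => ?_
    have e : (1 / 2 + I * (p.2 : ℂ) - ((c : ℂ) + p.1 * I)).re = 1 / 2 - c := by simp
    rw [Set.mem_ofPred_eq, e]
    linarith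

lemma zl1_pow_ne {j n : ℕ} (hn : n ∈ Finset.Ico (2 ^ j : ℕ) (2 ^ (j + 1))) : (n : ℂ) ≠ 0 := by
  have h1 := (Finset.mem_Ico.1 hn).1
  have h2 : 1 ≤ 2 ^ j := Nat.one_le_two_pow
  exact_mod_cast (by omega : n ≠ 0)

lemma zl1W_cont (κ : Bool) (c : ℝ) :
    Continuous fun p : ℝ × ℝ => zl1W κ p.2 ((c : ℂ) + p.1 * I) := by
  cases κ
  · simp only [zl1W_false]; fun_prop
  · simp only [zl1W_true]; fun_prop

lemma zl1P_cont (j : ℕ) : Continuous fun w : ℂ => zl1P j w := by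
  unfold zl1P
  refine continuous_finsetSum _ fun n hn => ?_
  exact Continuous.const_cpow (by fun_prop) (Or.inl (zl1_pow_ne hn))

lemma zl1K_cont {c : ℝ} (hc : 0 < c) : Continuous fun p : ℝ × ℝ =>
    cexp (((c : ℂ) + p.1 * I) ^ 2) / ((c : ℂ) + p.1 * I) := by
  refine Continuous.div (by fun_prop) (by fun_prop) fun p => ?_
  intro h
  have := congrArg Complex.re h
  simp at this
  linarith

lemma zl1I_cont (κ : Bool) {N c : ℝ} (hN : 0 < N) (hc : 0 < c) (j : ℕ) :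
    Continuous fun p : ℝ × ℝ => zl1I κ N j ((c : ℂ) + p.1 * I) p.2 := by
  unfold zl1I
  exact (zl1K_cont hc).mul ((zl1A_cont κ hN (by linarith)).mul
    ((zl1P_cont j).comp (zl1W_cont κ c)))

lemma zl1R_cont_line (κ : Bool) (J : ℕ) (v : ℝ) :
    Continuous fun y : ℝ => zl1R J (zl1W κ v (((3 / 4 : ℝ) : ℂ) + y * I)) := by
  have h0 : Continuous fun y : ℝ => zl1W κ v (((3 / 4 : ℝ) : ℂ) + y * I) :=
    (zl1W_cont κ (3 / 4)).comp (continuous_id.prodMk continuous_const)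
  unfold zl1R
  refine Continuous.sub (BLO_zeta_cont h0 fun y => ?_) ?_
  · rw [zl1W_re]
    simp
    norm_num
  · refine continuous_finsetSum _ fun n hn => ?_
    have h1 := (Finset.mem_Ico.1 hn).1
    have h2 : (n : ℂ) ≠ 0 := by exact_mod_cast (by omega : n ≠ 0)
    exact Continuous.const_cpow h0.neg (Or.inl h2)

lemma zl1J_cont_line (κ : Bool) {N : ℝ} (hN : 0 < N) (J : ℕ) (v : ℝ) :
    Continuous fun y : ℝ => zl1J κ N J (((3 / 4 : ℝ) : ℂ) + y * I) v := by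
  have hp : Continuous fun y : ℝ => ((y, v) : ℝ × ℝ) := continuous_id.prodMk continuous_const
  unfold zl1J
  exact ((zl1K_cont (c := 3 / 4) (by norm_num)).comp hp).mul
    (((zl1A_cont κ hN (c := 3 / 4) (by norm_num)).comp hp).mul (zl1R_cont_line κ J v))

lemma zl1_two_pi : ‖(2 * Real.pi : ℂ)⁻¹‖ ≤ 1 := by
  rw [norm_inv, norm_mul, Complex.norm_real, Real.norm_eq_abs, abs_of_pos Real.pi_pos]
  have e : ‖(2 : ℂ)‖ = 2 := by simp
  rw [e]
  have := Real.pi_gt_three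
  exact inv_le_one_of_one_le₀ (by linarith)

lemma exists_zl1J_le : ∃ C : ℝ, 1 ≤ C ∧ ∀ (κ : Bool) (N v : ℝ) (J : ℕ), 1 ≤ N →
    |v| ≤ 4 * N ^ 2 →
    Integrable (fun y : ℝ => zl1J κ N J (((3 / 4 : ℝ) : ℂ) + y * I) v) ∧
    ‖LI (3 / 4) (fun s => zl1J κ N J s v)‖ ≤ C * (N ^ (3 / 4 : ℝ) * 2 ^ (-(J : ℝ) / 8)) := by
  obtain ⟨C₁, hC₁1, hC₁⟩ := exists_zl1K_le
  obtain ⟨C₂, hC₂0, hC₂⟩ := exists_zeta_tail
  have hI0 : 0 ≤ ∫ y, zl1m y := integral_nonneg fun y => (zl1m_pos y).le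
  refine ⟨2 * C₁ * C₂ * (∫ y, zl1m y) + 1, by
    have : 0 ≤ 2 * C₁ * C₂ * (∫ y, zl1m y) := by positivity
    linarith, fun κ N v J hN hv => ?_⟩
  have hN0 : 0 < N := by linarith
  set E : ℝ := N ^ (3 / 4 : ℝ) * 2 ^ (-(J : ℝ) / 8) with hE
  have hE0 : 0 ≤ E := by positivity
  have hb : ∀ y : ℝ, ‖zl1J κ N J (((3 / 4 : ℝ) : ℂ) + y * I) v‖ ≤ 2 * C₁ * C₂ * E * zl1m y := by
    intro y
    have h1 := hC₁ κ N v (3 / 4) y hN hv (by norm_num) le_rfl
    have h2 := hC₂ (zl1W κ v (((3 / 4 : ℝ) : ℂ) + y * I)) (by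
      rw [zl1W_re]
      simp
      norm_num) J
    unfold zl1J
    rw [norm_mul, norm_mul, ← mul_assoc]
    have h3 : ‖zl1R J (zl1W κ v (((3 / 4 : ℝ) : ℂ) + y * I))‖ ≤ C₂ * 2 ^ (-(J : ℝ) / 8) := h2
    have hm := (zl1m_pos y).le
    calc _ ≤ (C₁ / (3 / 4) * N ^ (3 / 4 : ℝ) * zl1m y) * (C₂ * 2 ^ (-(J : ℝ) / 8)) := by gcongr
      _ = 4 / 3 * C₁ * C₂ * E * zl1m y := by rw [hE]; ring
      _ ≤ 2 * C₁ * C₂ * E * zl1m y := by gcongr; norm_num
  refine ⟨(zl1m_int.const_mul _).mono' (zl1J_cont_line κ hN0 J v).aestronglyMeasurable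
    (Eventually.of_forall hb), ?_⟩
  unfold LI
  rw [norm_mul]
  have h4 : ‖∫ y : ℝ, zl1J κ N J (((3 / 4 : ℝ) : ℂ) + y * I) v‖ ≤
      ∫ y, 2 * C₁ * C₂ * E * zl1m y :=
    norm_integral_le_of_norm_le (zl1m_int.const_mul _) (Eventually.of_forall hb)
  rw [integral_const_mul] at h4
  calc _ ≤ 1 * (2 * C₁ * C₂ * E * ∫ y, zl1m y) := by
        gcongr
        exact zl1_two_pi
    _ = 2 * C₁ * C₂ * (∫ y, zl1m y) * E := by ring
    _ ≤ _ := by gcongr; linarith

/-- the blockwise decomposition -/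
theorem exists_zeta_blocks : ∃ C : ℝ, 1 ≤ C ∧ ∀ (N v : ℝ) (J : ℕ), 1 ≤ N → |v| ≤ 4 * N ^ 2 →
    ‖riemannZeta (1 / 2 + I * v) - ∑ κ : Bool, ∑ j ∈ Finset.range J, zl1F κ N (3 / 4) j v‖ ≤
      C * (N ^ (3 / 4 : ℝ) * 2 ^ (-(J : ℝ) / 8)) := by
  obtain ⟨C, hC1, hC⟩ := exists_zl1J_le
  refine ⟨2 * C, by linarith, fun N v J hN hv => ?_⟩
  have hN0 : 0 < N := by linarith
  have hL : ∀ (κ : Bool) (j : ℕ), zl1F κ N (3 / 4) j v =
      LI (3 / 4) (fun s => zl1J κ N j s v) - LI (3 / 4) (fun s => zl1J κ N (j + 1) s v) := by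
    intro κ j
    unfold zl1F LI
    rw [← mul_sub, ← integral_sub (hC κ N v j hN hv).1 (hC κ N v (j + 1) hN hv).1]
    congr 1
    refine integral_congr_ae (Eventually.of_forall fun y => ?_)
    simp only [zl1I, zl1J]
    rw [← zl1R_sub]
    ring
  have hS : ∀ κ : Bool, ∑ j ∈ Finset.range J, zl1F κ N (3 / 4) j v =
      LI (3 / 4) (fun s => zl1J κ N 0 s v) - LI (3 / 4) (fun s => zl1J κ N J s v) := by
    intro κ
    rw [Finset.sum_congr rfl fun j _ => hL κ j]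
    exact Finset.sum_range_sub' (fun j => LI (3 / 4) (fun s => zl1J κ N j s v)) J
  have hR0 : ∀ w, zl1R 0 w = riemannZeta w := by
    intro w
    unfold zl1R
    simp
  have hp : riemannZeta (1 / 2 + I * v) = LI (3 / 4) (fun s => zl1J false N 0 s v) +
      LI (3 / 4) (fun s => zl1J true N 0 s v) := by
    rw [zeta_single_AFE hN0 v]
    congr 1
    · congr 1
      funext s
      simp only [zl1J, hR0, zl1A_false, zl1W_false]
    · congr 1
      funext s
      simp only [zl1J, hR0, zl1A_true, zl1W_true]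
  have e : riemannZeta (1 / 2 + I * v) - ∑ κ : Bool, ∑ j ∈ Finset.range J, zl1F κ N (3 / 4) j v =
      LI (3 / 4) (fun s => zl1J false N J s v) + LI (3 / 4) (fun s => zl1J true N J s v) := by
    rw [Fintype.sum_bool, hS, hS, hp]
    ring
  rw [e]
  refine (norm_add_le _ _).trans ?_
  have h1 := (hC false N v J hN hv).2
  have h2 := (hC true N v J hN hv).2
  linarith

/-- the integrand times `s` -/
noncomputable def zl1h (κ : Bool) (N : ℝ) (j : ℕ) (v : ℝ) (s : ℂ) : ℂ :=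
  cexp (s ^ 2) * (zl1A κ N v s * zl1P j (zl1W κ v s))

lemma zl1h_diff (κ : Bool) {N : ℝ} (hN : 0 < N) (j : ℕ) (v : ℝ) {s : ℂ} (hs : -(1 / 2) < s.re) :
    DifferentiableAt ℂ (zl1h κ N j v) s := by
  have hNc : (N : ℂ) ≠ 0 := by exact_mod_cast hN.ne'
  have hP : DifferentiableAt ℂ (fun s => zl1P j (zl1W κ v s)) s := by
    unfold zl1P
    refine DifferentiableAt.fun_sum fun n hn => ?_
    refine DifferentiableAt.const_cpow ?_ (Or.inl (zl1_pow_ne hn))
    cases κ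
    · simp only [zl1W_false]; fun_prop
    · simp only [zl1W_true]; fun_prop
  have hA : DifferentiableAt ℂ (fun s => zl1A κ N v s) s := by
    cases κ with
    | false =>
      simp only [zl1A_false]
      exact (DifferentiableAt.const_cpow (by fun_prop) (Or.inl hNc)).mul (by fun_prop)
    | true =>
      simp only [zl1A_true]
      refine ((DifferentiableAt.const_cpow (by fun_prop) (Or.inl hNc)).mul (by fun_prop)).mul ?_
      have e : (1 / 2 + I * (v : ℂ) - s).re = 1 / 2 - s.re := by simp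
      have h2 : DifferentiableAt ℂ chi (1 / 2 + I * (v : ℂ) - s) :=
        (CHI.differentiableOn_chi _ (by rw [Set.mem_ofPred_eq, e]; linarith)).differentiableAt
          (CHI.isOpen_strip.mem_nhds (by rw [Set.mem_ofPred_eq, e]; linarith))
      exact DifferentiableAt.comp (f := fun s : ℂ => 1 / 2 + I * (v : ℂ) - s) s h2 (by fun_prop)
  unfold zl1h
  exact (by fun_prop : DifferentiableAt ℂ (fun s : ℂ => cexp (s ^ 2)) s).mul (hA.mul hP)

lemma zl1P_le (j : ℕ) {w : ℂ} (hw : 0 ≤ w.re) : ‖zl1P j w‖ ≤ 2 ^ j := by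
  unfold zl1P
  refine (norm_sum_le _ _).trans ?_
  calc ∑ n ∈ Finset.Ico (2 ^ j : ℕ) (2 ^ (j + 1)), ‖(n : ℂ) ^ (-w)‖
      ≤ ∑ _n ∈ Finset.Ico (2 ^ j : ℕ) (2 ^ (j + 1)), (1:ℝ) := by
        refine Finset.sum_le_sum fun n hn => ?_
        have h1 := (Finset.mem_Ico.1 hn).1
        have h2 : 1 ≤ 2 ^ j := Nat.one_le_two_pow
        have h3 : 1 ≤ n := by omega
        have h4 : (1:ℝ) ≤ n := by exact_mod_cast h3
        have h : ((n : ℝ) : ℂ) = (n : ℂ) := by simp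
        rw [← h, Complex.norm_cpow_eq_rpow_re_of_pos (by linarith)]
        apply Real.rpow_le_one_of_one_le_of_nonpos h4
        simpa using hw
    _ = 2 ^ j := by
        rw [Finset.sum_const, Nat.card_Ico, nsmul_eq_mul, mul_one]
        have : 2 ^ (j + 1) - 2 ^ j = 2 ^ j := by
          rw [pow_succ]; omega
        rw [this]
        push_cast
        rfl

lemma zl1h_bound' (κ : Bool) {N : ℝ} (hN : 1 ≤ N) (j : ℕ) : ∃ K : ℝ, 0 ≤ K ∧
    ∀ v x y : ℝ, -(1 / 4) ≤ x → x ≤ 3 / 4 →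
    ‖zl1h κ N j v (x + y * I)‖ ≤ K * (1 + |v|) * Real.exp (-(y ^ 2 / 2)) := by
  obtain ⟨C, hC1, hC⟩ := CHI.exists_norm_chi_strip
  have hN0 : 0 < N := by linarith
  refine ⟨3 * (2 * N * C) * 2 ^ j * (2 * Real.exp 3), by positivity,
    fun v x y hx0 hx1 => ?_⟩
  set s : ℂ := x + y * I with hs
  have hre : s.re = x := by simp [hs]
  have him : s.im = y := by simp [hs]
  have hns : ‖s‖ ≤ 1 + |y| := by
    refine (Complex.norm_le_abs_re_add_abs_im _).trans ?_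
    rw [hre, him]
    have : |x| ≤ 1 := abs_le.2 ⟨by linarith, by linarith⟩
    linarith
  have hy0 := abs_nonneg y
  have hv0 := abs_nonneg v
  have h1 : ‖cexp (s ^ 2)‖ ≤ 3 * Real.exp (-y ^ 2) := by
    have h := shf_exp_le (u := x) (v := y) (abs_le.2 ⟨by linarith, by linarith⟩)
    have h3 : Real.exp 1 ≤ 3 := by
      have := Real.exp_one_lt_d9
      linarith
    exact h.trans (by gcongr)
  have h2 : ‖zl1P j (zl1W κ v s)‖ ≤ 2 ^ j := by
    refine zl1P_le j ?_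
    rw [zl1W_re, hre]
    linarith
  have hd := zl1_div_le v s
  have hC1v : 1 ≤ C * (1 + |v|) := by nlinarith
  have h3 : ‖zl1A κ N v s‖ ≤ 2 * N * (C * (1 + |v|)) * (2 + |y|) ^ 2 := by
    cases κ with
    | false =>
      rw [zl1A_false, norm_mul, Complex.norm_cpow_eq_rpow_re_of_pos hN0, hre]
      have h4 : N ^ x ≤ N := by
        calc N ^ x ≤ N ^ (1:ℝ) := Real.rpow_le_rpow_of_exponent_le hN (by linarith)
          _ = N := Real.rpow_one N
      have h5 : ‖1 - s / (1 / 2 - I * (v : ℂ))‖ ≤ 2 * (2 + |y|) := by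
        refine (norm_sub_le _ _).trans ?_
        rw [norm_one]
        linarith
      calc N ^ x * ‖1 - s / (1 / 2 - I * (v : ℂ))‖ ≤ N * (2 * (2 + |y|)) := by gcongr
        _ = 2 * N * 1 * (2 + |y|) := by ring
        _ ≤ 2 * N * (C * (1 + |v|)) * (2 + |y|) ^ 2 := by
            gcongr
            nlinarith
    | true =>
      rw [zl1A_true, norm_mul, norm_mul, Complex.norm_cpow_eq_rpow_re_of_pos hN0]
      have h4 : N ^ (-s).re ≤ N := by
        rw [Complex.neg_re, hre]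
        calc N ^ (-x) ≤ N ^ (1:ℝ) := Real.rpow_le_rpow_of_exponent_le hN (by linarith)
          _ = N := Real.rpow_one N
      have h5 : ‖1 + s / (1 / 2 - I * (v : ℂ))‖ ≤ 2 * (2 + |y|) := by
        refine (norm_add_le _ _).trans ?_
        rw [norm_one]
        linarith
      set w : ℂ := 1 / 2 + I * (v : ℂ) - s with hw
      have hwre : w.re = 1 / 2 - x := by simp [hw, hre]
      have hwim : w.im = v - y := by simp [hw, him]
      have h6 := hC w (by rw [hwre]; linarith) (by rw [hwre]; linarith)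
      have h7 : (1 + |w.im|) ^ (1 / 2 - w.re) ≤ (1 + |v|) * (2 + |y|) := by
        have e : 1 / 2 - w.re = x := by rw [hwre]; ring
        rw [e]
        have h8 : (1:ℝ) ≤ 1 + |w.im| := by linarith [abs_nonneg w.im]
        calc (1 + |w.im|) ^ x ≤ (1 + |w.im|) ^ (1:ℝ) :=
              Real.rpow_le_rpow_of_exponent_le h8 (by linarith)
          _ = 1 + |v - y| := by rw [Real.rpow_one, hwim]
          _ ≤ 1 + (|v| + |y|) := by gcongr; exact abs_sub _ _
          _ ≤ _ := by nlinarith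
      have h8 : ‖chi w‖ ≤ C * ((1 + |v|) * (2 + |y|)) := h6.trans (by gcongr)
      calc N ^ (-s).re * ‖1 + s / (1 / 2 - I * (v : ℂ))‖ * ‖chi w‖
          ≤ N * (2 * (2 + |y|)) * (C * ((1 + |v|) * (2 + |y|))) := by gcongr
        _ = _ := by ring
  unfold zl1h
  rw [norm_mul, norm_mul]
  have h9 := zl1m_le y
  unfold zl1m at h9
  calc _ ≤ (3 * Real.exp (-y ^ 2)) * ((2 * N * (C * (1 + |v|)) * (2 + |y|) ^ 2) * 2 ^ j) := by
        gcongr
    _ = 3 * (2 * N * (C * (1 + |v|))) * 2 ^ j * ((2 + |y|) ^ 2 * Real.exp (-y ^ 2)) := by ring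
    _ ≤ 3 * (2 * N * (C * (1 + |v|))) * 2 ^ j *
          (2 * Real.exp 3 * Real.exp (-(y ^ 2 / 2))) := by gcongr
    _ = _ := by ring

lemma zl1h_bound (κ : Bool) {N : ℝ} (hN : 1 ≤ N) (j : ℕ) (v : ℝ) : ∃ K : ℝ, 0 ≤ K ∧
    ∀ x y : ℝ, -(1 / 4) ≤ x → x ≤ 3 / 4 →
    ‖zl1h κ N j v (x + y * I)‖ ≤ K * Real.exp (-(y ^ 2 / 2)) := by
  obtain ⟨K, hK0, hK⟩ := zl1h_bound' κ hN j
  exact ⟨K * (1 + |v|), by positivity, fun x y h1 h2 => hK v x y h1 h2⟩

/-- moving the line -/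
theorem zl1F_shift (κ : Bool) {N : ℝ} (hN : 1 ≤ N) (j : ℕ) (v : ℝ) {c : ℝ} (hc : 0 < c)
    (hc1 : c ≤ 3 / 4) : zl1F κ N (3 / 4) j v = zl1F κ N c j v := by
  obtain ⟨K, hK0, hK⟩ := zl1h_bound κ hN j v
  have hN0 : 0 < N := by linarith
  have key : ∀ b : ℝ, 0 < b → b ≤ 3 / 4 → LI b (fun s => zl1h κ N j v s / s) -
      LI (-(1 / 4)) (fun s => zl1h κ N j v s / s) = zl1h κ N j v 0 := by
    intro b hb hb1
    refine LI_res (m := fun y => K * Real.exp (-(y ^ 2 / 2))) (by norm_num) hb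
      (fun z hz1 hz2 => zl1h_diff κ hN0 j v (by linarith)) (fun x y hx1 hx2 => ?_)
      (shf_int K) (shf_top K) (shf_bot K)
    exact hK x y hx1 (by linarith)
  have h1 := key (3 / 4) (by norm_num) le_rfl
  have h2 := key c hc hc1
  have e : ∀ b : ℝ, zl1F κ N b j v = LI b (fun s => zl1h κ N j v s / s) := by
    intro b
    unfold zl1F
    congr 1
    funext s
    unfold zl1I zl1h
    ring
  rw [e, e]
  have h3 := h1.trans h2.symm
  exact sub_left_injective h3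

lemma zl1_cont_P_line (j : ℕ) (c x y : ℝ) :
    Continuous fun u : ℝ => zl1P j (1 / 2 + c + I * (x + y + u)) :=
  (zl1P_cont j).comp (by fun_prop)

lemma zl1_exp_int : Integrable fun y : ℝ => zl1m y * Real.exp (y ^ 2 / 4) := by
  have h := (integrable_exp_neg_mul_sq (b := 1 / 4) (by norm_num)).const_mul (2 * Real.exp 3)
  refine h.mono' (zl1m_cont.mul (by fun_prop)).aestronglyMeasurable
    (Eventually.of_forall fun y => ?_)
  rw [Real.norm_eq_abs, abs_of_pos (mul_pos (zl1m_pos y) (Real.exp_pos _))]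
  calc zl1m y * Real.exp (y ^ 2 / 4)
      ≤ (2 * Real.exp 3 * Real.exp (-(y ^ 2 / 2))) * Real.exp (y ^ 2 / 4) := by
        gcongr
        exact zl1m_le y
    _ = 2 * Real.exp 3 * Real.exp (-(1 / 4) * y ^ 2) := by
        rw [mul_assoc, ← Real.exp_add]
        congr 2
        ring

/-- continuity of the blocks -/
theorem continuous_zl1F (κ : Bool) {N c : ℝ} (hN : 1 ≤ N) (hc : 0 < c) (hc1 : c ≤ 3 / 4)
    (j : ℕ) : Continuous (zl1F κ N c j) := by
  obtain ⟨K, hK0, hK⟩ := zl1h_bound' κ hN j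
  have hN0 : 0 < N := by linarith
  have hI := zl1I_cont κ hN0 hc j
  have key : Continuous fun v : ℝ => ∫ y : ℝ, zl1I κ N j ((c : ℂ) + y * I) v := by
    rw [continuous_iff_continuousAt]
    intro v₀
    refine continuousAt_of_dominated (bound := fun y => K * (2 + |v₀|) / c *
      Real.exp (-(y ^ 2 / 2))) ?_ ?_ (shf_int _) ?_
    · refine Eventually.of_forall fun v => ?_
      have h2 : Continuous fun y : ℝ => ((y, v) : ℝ × ℝ) := by fun_prop
      exact (hI.comp h2).aestronglyMeasurable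
    · filter_upwards [Metric.ball_mem_nhds v₀ one_pos] with v hv
      refine Eventually.of_forall fun y => ?_
      have h1 : |v| ≤ 1 + |v₀| := by
        have h3 : |v - v₀| < 1 := by rwa [Metric.mem_ball, Real.dist_eq] at hv
        have h4 := abs_sub_abs_le_abs_sub v v₀
        linarith
      have h2 := hK v c y (by linarith) hc1
      have e : zl1I κ N j ((c : ℂ) + y * I) v =
          zl1h κ N j v ((c : ℂ) + y * I) / ((c : ℂ) + y * I) := by
        unfold zl1I zl1h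
        ring
      have h5 : c ≤ ‖((c : ℂ) + y * I)‖ := by
        have h := Complex.abs_re_le_norm ((c : ℂ) + y * I)
        have e : ((c : ℂ) + y * I).re = c := by simp
        rw [e, abs_of_pos hc] at h
        exact h
      rw [e, norm_div]
      calc ‖zl1h κ N j v ((c : ℂ) + y * I)‖ / ‖((c : ℂ) + y * I)‖
          ≤ (K * (1 + |v|) * Real.exp (-(y ^ 2 / 2))) / c := by gcongr
        _ ≤ (K * (2 + |v₀|) * Real.exp (-(y ^ 2 / 2))) / c := by
            have h6 : K * (1 + |v|) ≤ K * (2 + |v₀|) :=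
              mul_le_mul_of_nonneg_left (by linarith) hK0
            exact div_le_div_of_nonneg_right
              (mul_le_mul_of_nonneg_right h6 (Real.exp_pos _).le) hc.le
        _ = _ := by ring
    · refine Eventually.of_forall fun y => ?_
      have h2 : Continuous fun v : ℝ => ((y, v) : ℝ × ℝ) := by fun_prop
      exact (hI.comp h2).continuousAt
  unfold zl1F LI
  exact continuous_const.mul key

end Pool.Agent.AAS
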