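import Pool.Agent.AAS.ZTR
import Pool.Agent.AAS.DYM
import Pool.Agent.AAS.PWR

set_option autoImplicit false

namespace Pool.Agent.AAS

open Complex Finset MeasureTheory Filter Topology Set
open Pool.Agent.H26

private lemma ZMO_add3_pow {x y z : ℝ} (hx : 0 ≤ x) (hy : 0 ≤ y) (hz : 0 ≤ z) (n : ℕ) :
    (x + y + z) ^ n ≤ 3 ^ n * (x ^ n + y ^ n + z ^ n) := by
  have h1 : x ≤ max x (max y z) := le_max_left _ _
  have h2 : y ≤ max x (max y z) := (le_max_left _ _).trans (le_max_right _ _)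
  have h3 : z ≤ max x (max y z) := (le_max_right _ _).trans (le_max_right _ _)
  have h4 : (x + y + z) ^ n ≤ (3 * max x (max y z)) ^ n := by
    gcongr
    linarith
  refine h4.trans ?_
  rw [mul_pow]
  gcongr
  have hxn : 0 ≤ x ^ n := by positivity
  have hyn : 0 ≤ y ^ n := by positivity
  have hzn : 0 ≤ z ^ n := by positivity
  rcases max_choice x (max y z) with h | h
  · rw [h]; linarith
  · rw [h]
    rcases max_choice y z with h' | h'
    · rw [h']; linarith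
    · rw [h']; linarith

private lemma ZMO_log_le {V ε : ℝ} (hV : 1 ≤ V) (hε : 0 < ε) (m N : ℕ) (hN1 : 1 ≤ N)
    (hN : (N : ℝ) ≤ 2 * V ^ 2) :
    1 + Real.log ((N ^ m : ℕ) : ℝ) ≤ (1 + m + 2 * m / ε) * V ^ ε := by
  have hV0 : 0 < V := by linarith
  have hN0 : (0:ℝ) < N := by exact_mod_cast hN1
  have h1 : Real.log N ≤ Real.log 2 + 2 * Real.log V := by
    have := Real.log_le_log hN0 hN
    rwa [Real.log_mul (by norm_num) (by positivity), Real.log_pow, Nat.cast_ofNat] at this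
  have h2 : Real.log 2 ≤ 1 := by
    have := Real.log_le_sub_one_of_pos (show (0:ℝ) < 2 by norm_num)
    linarith
  have h3 := Real.log_le_rpow_div hV0.le hε
  have h4 : 1 ≤ V ^ ε := Real.one_le_rpow hV hε.le
  push_cast
  rw [Real.log_pow]
  have h5 : (m : ℝ) * Real.log N ≤ m * (1 + 2 * (V ^ ε / ε)) := by
    gcongr
    linarith
  have hm : (0:ℝ) ≤ m := Nat.cast_nonneg _
  calc 1 + (m : ℝ) * Real.log N ≤ 1 + m * (1 + 2 * (V ^ ε / ε)) := by linarith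
    _ = (1 + m) * 1 + 2 * m / ε * V ^ ε := by ring
    _ ≤ (1 + m) * V ^ ε + 2 * m / ε * V ^ ε := by gcongr
    _ = _ := by ring

/-- moments near the line `1`.  For `|y| ≤ V`, `N = ⌈V^2⌉`, `s = 1 - σ + iy`: `norm_zeta_sub_le`
gives `ζ(s) = ∑_{n ≤ N} n^(-s) + O(N^σ / |s-1|) + O(1)`; take the power `m`
(`‖x + y + z‖^(2m) ≤ 3^(2m) (‖x‖^(2m) + ..)`), `sum_pow_eq`, and `exists_mean_le` with
`X = N^m`: `∑ (V + n) d(n)^2 n^(-2+2σ) ≤ C (V + N^(m (2σ + ε)))`; the second term contributes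
`N^(2mσ) ∫ |s-1|^(-2m) ≤ C_σ V^(4mσ+..)`.  `σ₀` with `m σ₀` small (for instance `σ₀ = 1/(32 (m+1))`). -/
theorem exists_zeta_moment (m : ℕ) : ∃ σ₀ : ℝ, 0 < σ₀ ∧ σ₀ ≤ 1 / 8 ∧ ∀ σ : ℝ, 0 < σ → σ ≤ σ₀ →
    ∀ ε : ℝ, 0 < ε → ∃ C : ℝ, 1 ≤ C ∧ ∀ V : ℝ, 1 ≤ V →
    ∫ y in (-V)..V, ‖riemannZeta (1 - σ + I * y)‖ ^ (2 * m) ≤ C * V ^ (1 + ε) := by
  have hm0 : (0:ℝ) ≤ m := Nat.cast_nonneg _
  refine ⟨1 / (32 * ((m : ℝ) + 1)), by positivity, ?_, ?_⟩
  · rw [div_le_div_iff₀ (by positivity) (by norm_num)]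
    linarith
  intro σ hσ hσ1 ε hε
  rcases Nat.eq_zero_or_pos m with hmz | hmpos
  · subst hmz
    refine ⟨2, by norm_num, fun V hV => ?_⟩
    simp only [Nat.mul_zero, pow_zero, intervalIntegral.integral_const, smul_eq_mul, mul_one]
    have h1 : V ^ (1:ℝ) ≤ V ^ (1 + ε) := Real.rpow_le_rpow_of_exponent_le hV (by linarith)
    rw [Real.rpow_one] at h1
    linarith
  -- parameters
  have hm1 : (1:ℝ) ≤ m := by exact_mod_cast hmpos
  set e' : ℝ := 1 / (16 * ((m : ℝ) + 1)) with he'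
  have he'0 : 0 < e' := by positivity
  have hme' : (m : ℝ) * e' ≤ 1 / 16 := by
    rw [he', mul_one_div, div_le_div_iff₀ (by positivity) (by norm_num)]
    linarith
  have hσm : (m : ℝ) * σ ≤ 1 / 32 := by
    calc (m : ℝ) * σ ≤ m * (1 / (32 * ((m : ℝ) + 1))) := by gcongr
      _ ≤ 1 / 32 := by
        rw [mul_one_div, div_le_div_iff₀ (by positivity) (by norm_num)]
        linarith
  have hσ32 : σ ≤ 1 / 32 := by nlinarith
  have he16 : e' ≤ 1 / 16 := by nlinarith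
  obtain ⟨C₁, hC₁, h₁⟩ := exists_mean_le
  obtain ⟨C₂, hC₂, h₂⟩ := exists_dm_le m e' he'0
  have hs1 : Summable fun n : ℕ => (n : ℝ) ^ (-(3 / 2) : ℝ) :=
    Real.summable_nat_rpow.2 (by norm_num)
  have hs2 : Summable fun n : ℕ => (n : ℝ) ^ (-1 - e') :=
    Real.summable_nat_rpow.2 (by linarith)
  set S1 : ℝ := ∑' n : ℕ, (n : ℝ) ^ (-(3 / 2) : ℝ) with hS1
  set S2 : ℝ := ∑' n : ℕ, (n : ℝ) ^ (-1 - e') with hS2
  have hS10 : 0 ≤ S1 := tsum_nonneg fun n => by positivity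
  have hS20 : 0 ≤ S2 := tsum_nonneg fun n => by positivity
  set A₁ : ℝ := C₁ * (1 + m + 2 * m / ε) * (C₂ ^ 2 * (S1 + 2 * S2)) with hA₁
  have hA₁0 : 0 ≤ A₁ := by positivity
  set A₂ : ℝ := 2 * (σ⁻¹ ^ (2 * m) * Real.pi) with hA₂
  have hA₂0 : 0 ≤ A₂ := by positivity
  refine ⟨3 ^ (2 * m) * (A₁ + A₂ + 2 * 3 ^ (2 * m)), ?_, ?_⟩
  · have h3 : (1:ℝ) ≤ 3 ^ (2 * m) := one_le_pow₀ (by norm_num)
    nlinarith
  intro V hV
  have hV0 : 0 < V := by linarith
  set N : ℕ := ⌈V ^ 2⌉₊ with hN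
  have hVN : V ^ 2 ≤ N := Nat.le_ceil _
  have hN1' : (1:ℝ) ≤ N := by nlinarith
  have hN1 : 1 ≤ N := by exact_mod_cast hN1'
  have hN2 : (N : ℝ) ≤ 2 * V ^ 2 := by
    have := Nat.ceil_lt_add_one (a := V ^ 2) (by positivity)
    rw [← hN] at this
    nlinarith
  have hN0 : (0:ℝ) < N := by linarith
  set c : ℕ → ℂ := fun n => (dm m N n : ℂ) * (n : ℂ) ^ (-(1 - σ : ℂ)) with hc
  -- pointwise bound
  have hpt : ∀ y ∈ Icc (-V) V, ‖riemannZeta (1 - σ + I * y)‖ ^ (2 * m) ≤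
      3 ^ (2 * m) * (‖∑ n ∈ Finset.Icc 1 (N ^ m), c n * (n : ℂ) ^ (-(I * y))‖ ^ 2 +
        ((N : ℝ) ^ (2 * m * σ) * σ⁻¹ ^ (2 * m)) * (1 + y ^ 2)⁻¹ + 3 ^ (2 * m)) := by
    intro y hy
    have hyV : |y| ≤ V := abs_le.2 hy
    set s : ℂ := 1 - σ + I * y with hs
    have hre : s.re = 1 - σ := by simp [hs]
    have him : s.im = y := by simp [hs]
    have hs1' : s - 1 = -σ + I * y := by rw [hs]; ring
    have hsne : s ≠ 1 := by
      intro h
      have := congrArg Complex.re h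
      rw [hre] at this
      simp at this
      linarith
    have hz := norm_zeta_sub_le (s := s) (by rw [hre]; linarith) hsne hN1
    have hb3 : ‖s‖ / s.re * (N : ℝ) ^ (-s.re) ≤ 3 := by
      rw [hre]
      have h1 : ‖s‖ ≤ 2 * V := by
        have := Complex.norm_le_abs_re_add_abs_im s
        rw [hre, him, abs_of_nonneg (by linarith)] at this
        linarith
      have h2 : (N : ℝ) ^ (-(1 - σ)) ≤ V⁻¹ := by
        have h3 : (N : ℝ) ^ (-(1 - σ)) ≤ (N : ℝ) ^ (-(1 / 2) : ℝ) :=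
          Real.rpow_le_rpow_of_exponent_le hN1' (by linarith)
        refine h3.trans ?_
        have h4 : (N : ℝ) ^ (-(1 / 2) : ℝ) ≤ (V ^ 2) ^ (-(1 / 2) : ℝ) :=
          Real.rpow_le_rpow_of_nonpos (by positivity) hVN (by norm_num)
        refine h4.trans (le_of_eq ?_)
        rw [← Real.rpow_natCast, ← Real.rpow_mul hV0.le, ← Real.rpow_neg_one]
        congr 1
        norm_num
      calc ‖s‖ / (1 - σ) * (N : ℝ) ^ (-(1 - σ)) ≤ (2 * V) / (31 / 32) * V⁻¹ := by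
            gcongr
            linarith
        _ ≤ 3 := by
          have : V * V⁻¹ = 1 := mul_inv_cancel₀ hV0.ne'
          have e : (2 * V) / (31 / 32) * V⁻¹ = 64 / 31 * (V * V⁻¹) := by ring
          rw [e, this]
          norm_num
    have hnorm : ‖riemannZeta s‖ ≤ ‖∑ n ∈ Finset.Icc 1 N, (n : ℂ) ^ (-s)‖ +
        (N : ℝ) ^ σ * (σ⁻¹ * (√(1 + y ^ 2))⁻¹) + 3 := by
      have h1 : ‖(N : ℂ) ^ (1 - s) / (s - 1)‖ ≤ (N : ℝ) ^ σ * (σ⁻¹ * (√(1 + y ^ 2))⁻¹) := by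
        rw [norm_div]
        have e1 : ‖(N : ℂ) ^ (1 - s)‖ = (N : ℝ) ^ σ := by
          have h : ((N : ℝ) : ℂ) = (N : ℂ) := by simp
          rw [← h, Complex.norm_cpow_eq_rpow_re_of_pos hN0]
          congr 1
          simp [hre]
        have e2 : σ * √(1 + y ^ 2) ≤ ‖s - 1‖ := by
          have e3 : ‖s - 1‖ = √(σ ^ 2 + y ^ 2) := by
            rw [hs1', Complex.norm_eq_sqrt_sq_add_sq]
            simp
          rw [e3]
          have e4 : σ * √(1 + y ^ 2) = √(σ ^ 2 * (1 + y ^ 2)) := by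
            rw [Real.sqrt_mul (by positivity), Real.sqrt_sq hσ.le]
          rw [e4]
          apply Real.sqrt_le_sqrt
          nlinarith [sq_nonneg y, mul_nonneg (sq_nonneg y) (show 0 ≤ 1 - σ ^ 2 by nlinarith)]
        rw [e1, ← mul_inv, div_eq_mul_inv]
        have h5 : 0 < √(1 + y ^ 2) := Real.sqrt_pos.2 (by positivity)
        gcongr
      have h2 := norm_sub_norm_le (riemannZeta s - ∑ n ∈ Finset.Icc 1 N, (n : ℂ) ^ (-s))
        ((N : ℂ) ^ (1 - s) / (s - 1))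
      have h3 := norm_sub_norm_le (riemannZeta s) (∑ n ∈ Finset.Icc 1 N, (n : ℂ) ^ (-s))
      linarith
    have hpow : ‖∑ n ∈ Finset.Icc 1 N, (n : ℂ) ^ (-s)‖ ^ (2 * m) =
        ‖∑ n ∈ Finset.Icc 1 (N ^ m), c n * (n : ℂ) ^ (-(I * y))‖ ^ 2 := by
      rw [mul_comm 2 m, pow_mul, ← norm_pow, sum_pow_eq]
      congr 2
      refine Finset.sum_congr rfl fun n hn => ?_
      have hn0 : (n : ℂ) ≠ 0 := by
        have := (Finset.mem_Icc.1 hn).1
        exact_mod_cast (by omega : n ≠ 0)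
      rw [hc, mul_assoc, ← Complex.cpow_add _ _ hn0]
      congr 2
      rw [hs]; ring
    have h6 := pow_le_pow_left₀ (norm_nonneg _) hnorm (2 * m)
    refine h6.trans ((ZMO_add3_pow (norm_nonneg _) (by positivity) (by norm_num) _).trans ?_)
    rw [hpow]
    gcongr
    have h7 : ((N : ℝ) ^ σ * (σ⁻¹ * (√(1 + y ^ 2))⁻¹)) ^ (2 * m) =
        ((N : ℝ) ^ (2 * m * σ) * σ⁻¹ ^ (2 * m)) * ((1 + y ^ 2)⁻¹) ^ m := by
      rw [mul_pow, mul_pow, ← Real.rpow_mul_natCast hN0.le]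
      have e5 : ((√(1 + y ^ 2))⁻¹) ^ (2 * m) = ((1 + y ^ 2)⁻¹) ^ m := by
        rw [pow_mul, inv_pow, Real.sq_sqrt (by positivity)]
      have e6 : σ * ((2 * m : ℕ) : ℝ) = 2 * m * σ := by push_cast; ring
      rw [e5, e6]
      ring
    rw [h7]
    have h8 : ((1 + y ^ 2)⁻¹) ^ m ≤ (1 + y ^ 2)⁻¹ := by
      have h9 : (1 + y ^ 2)⁻¹ ≤ 1 := inv_le_one_of_one_le₀ (by nlinarith [sq_nonneg y])
      calc ((1 + y ^ 2)⁻¹) ^ m ≤ ((1 + y ^ 2)⁻¹) ^ 1 :=
            pow_le_pow_of_le_one (by positivity) h9 hmpos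
        _ = _ := pow_one _
    gcongr
  -- continuity
  have hcz : Continuous fun y : ℝ => riemannZeta (1 - σ + I * y) := by
    rw [continuous_iff_continuousAt]
    intro y
    have hne : (1 - σ + I * y : ℂ) ≠ 1 := by
      intro h
      have := congrArg Complex.re h
      simp at this
      linarith
    exact ContinuousAt.comp (f := fun y : ℝ => (1 - σ + I * y : ℂ))
      (differentiableAt_riemannZeta hne).continuousAt (by fun_prop)
  have hcp : Continuous fun y : ℝ =>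
      ∑ n ∈ Finset.Icc 1 (N ^ m), c n * (n : ℂ) ^ (-(I * (y : ℂ))) := by
    refine continuous_finsetSum _ fun n hn => continuous_const.mul ?_
    have hn0 : (n : ℂ) ≠ 0 := by
      have := (Finset.mem_Icc.1 hn).1
      exact_mod_cast (by omega : n ≠ 0)
    exact continuous_const.cpow (by fun_prop) (fun _ => Complex.natCast_mem_slitPlane.2
      (by exact_mod_cast hn0))
  have hci : Continuous fun y : ℝ => (1 + y ^ 2)⁻¹ := by
    refine Continuous.inv₀ (by fun_prop) fun y => ?_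
    positivity
  have hF1 : Continuous fun y : ℝ =>
      ‖∑ n ∈ Finset.Icc 1 (N ^ m), c n * (n : ℂ) ^ (-(I * (y : ℂ)))‖ ^ 2 := hcp.norm.pow 2
  have hF2 : Continuous fun y : ℝ =>
      ((N : ℝ) ^ (2 * m * σ) * σ⁻¹ ^ (2 * m)) * (1 + y ^ 2)⁻¹ := continuous_const.mul hci
  have hF12 : Continuous fun y : ℝ =>
      ‖∑ n ∈ Finset.Icc 1 (N ^ m), c n * (n : ℂ) ^ (-(I * (y : ℂ)))‖ ^ 2 +
        ((N : ℝ) ^ (2 * m * σ) * σ⁻¹ ^ (2 * m)) * (1 + y ^ 2)⁻¹ := hF1.add hF2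
  have hF3 : Continuous fun _ : ℝ => (3:ℝ) ^ (2 * m) := continuous_const
  have hG : Continuous fun y : ℝ => (3:ℝ) ^ (2 * m) *
      (‖∑ n ∈ Finset.Icc 1 (N ^ m), c n * (n : ℂ) ^ (-(I * y))‖ ^ 2 +
        ((N : ℝ) ^ (2 * m * σ) * σ⁻¹ ^ (2 * m)) * (1 + y ^ 2)⁻¹ + 3 ^ (2 * m)) :=
    continuous_const.mul (hF12.add hF3)
  have hmono := intervalIntegral.integral_mono_on (μ := volume) (a := -V) (b := V) (by linarith)
    ((hcz.norm.pow (2 * m)).intervalIntegrable _ _) (hG.intervalIntegrable _ _) hpt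
  refine hmono.trans ?_
  rw [intervalIntegral.integral_const_mul, intervalIntegral.integral_add
    (hF12.intervalIntegrable _ _) (hF3.intervalIntegrable _ _), intervalIntegral.integral_add
    (hF1.intervalIntegrable _ _) (hF2.intervalIntegrable _ _),
    intervalIntegral.integral_const_mul, intervalIntegral.integral_const, smul_eq_mul, mul_assoc]
  have hVε : V ≤ V ^ (1 + ε) := by
    have h1 : V ^ (1:ℝ) ≤ V ^ (1 + ε) := Real.rpow_le_rpow_of_exponent_le hV (by linarith)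
    rwa [Real.rpow_one] at h1
  have hVεeq : V ^ (1 + ε) = V ^ ε * V := by
    rw [add_comm, Real.rpow_add hV0, Real.rpow_one]
  -- first part
  have hX1 : 1 ≤ N ^ m := Nat.one_le_pow _ _ hN1
  have hfirst : ∫ y in (-V)..V, ‖∑ n ∈ Finset.Icc 1 (N ^ m), c n * (n : ℂ) ^ (-(I * (y : ℂ)))‖ ^ 2
      ≤ A₁ * V ^ (1 + ε) := by
    refine (h₁ (N ^ m) V c hX1 hV).trans ?_
    have hlog := ZMO_log_le hV hε m N hN1 hN2
    have hsum : ∑ n ∈ Finset.Icc 1 (N ^ m), (V + n) * ‖c n‖ ^ 2 ≤ C₂ ^ 2 * (S1 + 2 * S2) * V := by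
      have hterm : ∀ n ∈ Finset.Icc 1 (N ^ m), (V + n) * ‖c n‖ ^ 2 ≤
          C₂ ^ 2 * (V * (n : ℝ) ^ (-(3 / 2) : ℝ) + 2 * V * (n : ℝ) ^ (-1 - e')) := by
        intro n hn
        have hn1 := (Finset.mem_Icc.1 hn).1
        have hnX := (Finset.mem_Icc.1 hn).2
        have hn1' : (1:ℝ) ≤ n := by exact_mod_cast hn1
        have hn0 : (0:ℝ) < n := by linarith
        have e1 : ‖c n‖ = (dm m N n : ℝ) * (n : ℝ) ^ (-(1 - σ)) := by
          have h : ((n : ℝ) : ℂ) = (n : ℂ) := by simp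
          rw [hc, norm_mul, Complex.norm_natCast, ← h, Complex.norm_cpow_eq_rpow_re_of_pos hn0]
          simp
        have e2 : ‖c n‖ ≤ C₂ * (n : ℝ) ^ (e' - 1 + σ) := by
          rw [e1]
          calc (dm m N n : ℝ) * (n : ℝ) ^ (-(1 - σ)) ≤ (C₂ * (n : ℝ) ^ e') * (n : ℝ) ^ (-(1 - σ)) := by
                gcongr
                exact h₂ N n hn1
            _ = _ := by
                rw [mul_assoc, ← Real.rpow_add hn0]
                congr 2
                ring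
        have e3 : ‖c n‖ ^ 2 ≤ C₂ ^ 2 * (n : ℝ) ^ (2 * (e' - 1 + σ)) := by
          have := pow_le_pow_left₀ (norm_nonneg _) e2 2
          rw [mul_pow, ← Real.rpow_mul_natCast hn0.le] at this
          refine this.trans (le_of_eq ?_)
          congr 2
          push_cast
          ring
        have e4 : (n : ℝ) ^ (2 * (e' - 1 + σ)) ≤ (n : ℝ) ^ (-(3 / 2) : ℝ) :=
          Real.rpow_le_rpow_of_exponent_le hn1' (by linarith)
        have e5 : (n : ℝ) * (n : ℝ) ^ (2 * (e' - 1 + σ)) ≤ 2 * V * (n : ℝ) ^ (-1 - e') := by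
          have e6 : (n : ℝ) * (n : ℝ) ^ (2 * (e' - 1 + σ)) =
              (n : ℝ) ^ (3 * e' + 2 * σ) * (n : ℝ) ^ (-1 - e') := by
            nth_rewrite 1 [← Real.rpow_one (n : ℝ)]
            rw [← Real.rpow_add hn0, ← Real.rpow_add hn0]
            congr 1
            ring
          rw [e6]
          gcongr
          have e7 : (n : ℝ) ≤ (2 * V ^ 2) ^ m := by
            calc (n : ℝ) ≤ ((N ^ m : ℕ) : ℝ) := by exact_mod_cast hnX
              _ = (N : ℝ) ^ m := by push_cast; ring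
              _ ≤ _ := by gcongr
          have e8 : (0:ℝ) < 2 * V ^ 2 := by positivity
          have e9 : (1:ℝ) ≤ 2 * V ^ 2 := by nlinarith
          calc (n : ℝ) ^ (3 * e' + 2 * σ) ≤ ((2 * V ^ 2) ^ m) ^ (3 * e' + 2 * σ) := by gcongr
            _ = (2 * V ^ 2) ^ ((m : ℝ) * (3 * e' + 2 * σ)) := by
                rw [← Real.rpow_natCast, ← Real.rpow_mul e8.le]
            _ ≤ (2 * V ^ 2) ^ (1 / 2 : ℝ) :=
                Real.rpow_le_rpow_of_exponent_le e9 (by nlinarith)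
            _ = √(2 * V ^ 2) := by rw [Real.sqrt_eq_rpow]
            _ ≤ 2 * V := by
                rw [Real.sqrt_le_left (by positivity)]
                nlinarith
        calc (V + n) * ‖c n‖ ^ 2 ≤ (V + n) * (C₂ ^ 2 * (n : ℝ) ^ (2 * (e' - 1 + σ))) := by gcongr
          _ = C₂ ^ 2 * (V * (n : ℝ) ^ (2 * (e' - 1 + σ)) + n * (n : ℝ) ^ (2 * (e' - 1 + σ))) := by
              ring
          _ ≤ _ := by gcongr
      refine (Finset.sum_le_sum hterm).trans ?_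
      rw [← Finset.mul_sum, Finset.sum_add_distrib, ← Finset.mul_sum, ← Finset.mul_sum]
      have t1 : ∑ n ∈ Finset.Icc 1 (N ^ m), (n : ℝ) ^ (-(3 / 2) : ℝ) ≤ S1 :=
        hs1.sum_le_tsum _ fun n _ => by positivity
      have t2 : ∑ n ∈ Finset.Icc 1 (N ^ m), (n : ℝ) ^ (-1 - e') ≤ S2 :=
        hs2.sum_le_tsum _ fun n _ => by positivity
      calc _ ≤ C₂ ^ 2 * (V * S1 + 2 * V * S2) := by gcongr
        _ = _ := by ring
    have hlog0 : 0 ≤ 1 + Real.log ((N ^ m : ℕ) : ℝ) := by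
      have : 0 ≤ Real.log ((N ^ m : ℕ) : ℝ) := Real.log_nonneg (by exact_mod_cast hX1)
      linarith
    have hsum0 : 0 ≤ ∑ n ∈ Finset.Icc 1 (N ^ m), (V + n) * ‖c n‖ ^ 2 :=
      Finset.sum_nonneg fun n _ => by positivity
    calc C₁ * (1 + Real.log ((N ^ m : ℕ) : ℝ)) *
          ∑ n ∈ Finset.Icc 1 (N ^ m), (V + n) * ‖c n‖ ^ 2
        ≤ C₁ * ((1 + m + 2 * m / ε) * V ^ ε) * (C₂ ^ 2 * (S1 + 2 * S2) * V) := by gcongr
      _ = A₁ * V ^ (1 + ε) := by rw [hVεeq, hA₁]; ring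
  -- second part
  have hsecond : ((N : ℝ) ^ (2 * m * σ) * σ⁻¹ ^ (2 * m)) * ∫ y in (-V)..V, (1 + y ^ 2)⁻¹ ≤
      A₂ * V ^ (1 + ε) := by
    have h1 : ∫ y in (-V)..V, (1 + y ^ 2)⁻¹ ≤ Real.pi := by
      rw [integral_inv_one_add_sq, Real.arctan_neg]
      have := Real.arctan_lt_pi_div_two V
      linarith
    have h10 : 0 ≤ ∫ y in (-V)..V, (1 + y ^ 2)⁻¹ :=
      intervalIntegral.integral_nonneg (by linarith) fun y _ => by positivity
    have h2 : (N : ℝ) ^ (2 * m * σ) ≤ 2 * V := by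
      have e8 : (0:ℝ) < 2 * V ^ 2 := by positivity
      have e9 : (1:ℝ) ≤ 2 * V ^ 2 := by nlinarith
      calc (N : ℝ) ^ (2 * m * σ) ≤ (2 * V ^ 2) ^ (2 * m * σ) := by gcongr
        _ ≤ (2 * V ^ 2) ^ (1 / 2 : ℝ) := Real.rpow_le_rpow_of_exponent_le e9 (by nlinarith)
        _ = √(2 * V ^ 2) := by rw [Real.sqrt_eq_rpow]
        _ ≤ 2 * V := by
            rw [Real.sqrt_le_left (by positivity)]
            nlinarith
    calc _ ≤ (2 * V * σ⁻¹ ^ (2 * m)) * Real.pi := by gcongr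
      _ = A₂ * V := by rw [hA₂]; ring
      _ ≤ _ := by gcongr
  have hthird : (V - -V) * 3 ^ (2 * m) ≤ 2 * 3 ^ (2 * m) * V ^ (1 + ε) := by
    calc (V - -V) * 3 ^ (2 * m) = 2 * 3 ^ (2 * m) * V := by ring
      _ ≤ _ := by gcongr
  have h3 : (0:ℝ) < 3 ^ (2 * m) := by positivity
  have := add_le_add (add_le_add hfirst hsecond) hthird
  nlinarith

end Pool.Agent.AAS
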