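import Pool.Agent.AAS.PRM
import Pool.Agent.AAS.ITP

set_option autoImplicit false

namespace Pool.Agent.AAS

open Complex Finset MeasureTheory Filter Topology Set
open Pool.Agent.H26

private noncomputable def zrF (t u : ℝ) (z : ℂ) : ℂ :=
  riemannZeta (1 / 2 + I * (t + u)) * riemannZeta (1 / 2 - I * (t + u + z))

private theorem zrF_zero (t u : ℝ) :
    zrF t u 0 = ((‖riemannZeta (1 / 2 + I * (t + u))‖ ^ 2 : ℝ) : ℂ) := by
  have h : (1 / 2 - I * (t + u + 0) : ℂ) = (starRingEnd ℂ) (1 / 2 + I * (t + u)) := by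
    apply Complex.ext <;> simp
  rw [zrF, h, riemannZeta_conj, Complex.mul_conj, Complex.normSq_eq_norm_sq]

private theorem zrF_real (t u b : ℝ) : zrF t u (b : ℂ) = pf 0 b (t + u) := by
  rw [zrF, pf]
  push_cast
  congr 3
  ring

private theorem zr_ne1 (x : ℝ) : (1 / 2 + I * (x : ℂ)) ≠ 1 := by
  intro h
  have := congrArg Complex.re h
  norm_num at this

private theorem zr_re {x : ℝ} {z : ℂ} : (1 / 2 - I * ((x : ℂ) + z)).re = 1 / 2 + z.im := by
  simp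

private theorem zr_im {x : ℝ} {z : ℂ} : (1 / 2 - I * ((x : ℂ) + z)).im = -(x + z.re) := by
  simp

private theorem zr_ne2 {x : ℝ} {z : ℂ} (hz : z ∈ Metric.ball (0 : ℂ) (1 / 4)) :
    (1 / 2 - I * ((x : ℂ) + z)) ≠ 1 := by
  intro h
  have h1 := congrArg Complex.re h
  rw [zr_re] at h1
  rw [mem_ball_zero_iff] at hz
  have h2 := Complex.abs_im_le_norm z
  have h3 := le_abs_self z.im
  simp at h1
  linarith

private theorem zr_cast (t u : ℝ) : ((t : ℂ) + u) = ((t + u : ℝ) : ℂ) := by push_cast; ring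

private theorem zrF_cont (t : ℝ) :
    ContinuousOn (fun q : ℝ × ℂ => zrF t q.1 q.2) (univ ×ˢ Metric.ball (0 : ℂ) (1 / 4)) := by
  have h0 : ∀ s : ℂ, s ≠ 1 → ContinuousAt riemannZeta s := fun s hs =>
    (differentiableAt_riemannZeta hs).continuousAt
  intro q hq
  refine ContinuousAt.continuousWithinAt ?_
  refine ContinuousAt.mul ?_ ?_
  · refine ContinuousAt.comp (f := fun q : ℝ × ℂ => (1 / 2 + I * ((t : ℂ) + (q.1 : ℂ)) : ℂ))
      (g := riemannZeta) ?_ (by fun_prop)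
    refine h0 _ ?_
    rw [zr_cast]
    exact zr_ne1 _
  · refine ContinuousAt.comp
      (f := fun q : ℝ × ℂ => (1 / 2 - I * ((t : ℂ) + (q.1 : ℂ) + q.2) : ℂ))
      (g := riemannZeta) ?_ (by fun_prop)
    refine h0 _ ?_
    rw [zr_cast]
    exact zr_ne2 hq.2

private theorem zrF_diff (t u : ℝ) :
    DifferentiableOn ℂ (zrF t u) (Metric.ball (0 : ℂ) (1 / 4)) := by
  intro z hz
  refine DifferentiableAt.differentiableWithinAt ?_
  refine DifferentiableAt.mul (by fun_prop) ?_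
  refine DifferentiableAt.comp (f := fun z : ℂ => (1 / 2 - I * ((t : ℂ) + (u : ℂ) + z) : ℂ))
      (g := riemannZeta) z ?_ (by fun_prop)
  refine differentiableAt_riemannZeta ?_
  rw [zr_cast]
  exact zr_ne2 hz

private theorem zr_b1 {x X : ℝ} (hx : |x| ≤ X) :
    ‖riemannZeta (1 / 2 + I * (x : ℂ))‖ ≤ 4 + 2 * X := by
  have h := norm_riemannZeta_le (s := 1 / 2 + I * (x : ℂ)) (by simp) (zr_ne1 x)
  have h2 : ‖(1 / 2 + I * (x : ℂ)) - 1‖⁻¹ ≤ 2 := by
    have : 1 / 2 ≤ ‖(1 / 2 + I * (x : ℂ)) - 1‖ := by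
      have h3 := Complex.abs_re_le_norm ((1 / 2 + I * (x : ℂ)) - 1)
      have h4 : ((1 / 2 + I * (x : ℂ)) - 1).re = -(1 / 2) := by norm_num
      rw [h4, abs_neg, abs_of_pos (by norm_num)] at h3
      exact h3
    rw [show (2 : ℝ) = (1 / 2)⁻¹ by norm_num]
    exact inv_anti₀ (by norm_num) this
  have h3 : ‖(1 / 2 + I * (x : ℂ))‖ ≤ 1 / 2 + X := by
    refine (norm_add_le _ _).trans ?_
    rw [norm_mul, Complex.norm_I, one_mul, Complex.norm_real, Real.norm_eq_abs]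
    have : ‖(1 / 2 : ℂ)‖ = 1 / 2 := by norm_num
    linarith
  have h5 : (1 / 2 + I * (x : ℂ)).re = 1 / 2 := by simp
  rw [h5] at h
  have h6 : ‖(1 / 2 + I * (x : ℂ))‖ / (1 / 2) ≤ (1 / 2 + X) / (1 / 2) := by gcongr
  have h7 : (1 / 2 + X) / (1 / 2) = 1 + 2 * X := by ring
  linarith

private theorem zr_b2 {x X : ℝ} {z : ℂ} (hx : |x| ≤ X) (hz : z ∈ Metric.ball (0 : ℂ) (1 / 4)) :
    ‖riemannZeta (1 / 2 - I * ((x : ℂ) + z))‖ ≤ 9 + 4 * X := by
  have hz' : ‖z‖ < 1 / 4 := mem_ball_zero_iff.1 hz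
  have hi := abs_le.1 ((Complex.abs_im_le_norm z).trans hz'.le)
  have hr := (Complex.abs_re_le_norm z).trans hz'.le
  have hX : 0 ≤ X := (abs_nonneg _).trans hx
  have hre : 1 / 4 ≤ (1 / 2 - I * ((x : ℂ) + z)).re := by
    rw [zr_re]
    linarith [hi.1]
  have h := norm_riemannZeta_le (s := 1 / 2 - I * ((x : ℂ) + z)) (by linarith) (zr_ne2 hz)
  have h2 : ‖(1 / 2 - I * ((x : ℂ) + z)) - 1‖⁻¹ ≤ 4 := by
    have : 1 / 4 ≤ ‖(1 / 2 - I * ((x : ℂ) + z)) - 1‖ := by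
      have h3 := Complex.abs_re_le_norm ((1 / 2 - I * ((x : ℂ) + z)) - 1)
      have h4 : ((1 / 2 - I * ((x : ℂ) + z)) - 1).re = z.im - 1 / 2 := by
        rw [Complex.sub_re, zr_re, Complex.one_re]
        ring
      rw [h4, abs_of_nonpos (by linarith [hi.2])] at h3
      linarith [hi.2]
    rw [show (4 : ℝ) = (1 / 4)⁻¹ by norm_num]
    exact inv_anti₀ (by norm_num) this
  have h3 : ‖(1 / 2 - I * ((x : ℂ) + z))‖ ≤ 1 + X := by
    refine (Complex.norm_le_abs_re_add_abs_im _).trans ?_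
    rw [zr_re, zr_im, abs_neg]
    have h8 := abs_add_le x z.re
    have h9 : |1 / 2 + z.im| ≤ 3 / 4 := by
      rw [abs_le]
      constructor <;> linarith [hi.1, hi.2]
    linarith
  have h6 : ‖(1 / 2 - I * ((x : ℂ) + z))‖ / (1 / 2 - I * ((x : ℂ) + z)).re ≤
      (1 + X) / (1 / 4) := by gcongr
  have h7 : (1 + X) / (1 / 4) = 4 + 4 * X := by ring
  linarith

private theorem zrF_bound {T H t u : ℝ} {z : ℂ} (hT : 2 ≤ T) (hH : H ≤ T / 4)
    (ht : t ∈ Icc T (2 * T)) (hu : |u| ≤ H) (hz : z ∈ Metric.ball (0 : ℂ) (1 / 4)) :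
    ‖zrF t u z‖ ≤ 132 * T ^ 2 := by
  have hx : |t + u| ≤ 3 * T := by
    have h1 := abs_le.1 hu
    rw [abs_le]
    constructor <;> linarith [h1.1, h1.2, ht.1, ht.2]
  rw [zrF, norm_mul, zr_cast]
  have h1 := zr_b1 hx
  have h2 := zr_b2 hx hz
  have h3 : (4 + 2 * (3 * T)) * (9 + 4 * (3 * T)) ≤ 132 * T ^ 2 := by nlinarith
  exact (mul_le_mul h1 h2 (norm_nonneg _) (by linarith)).trans h3

/-- the local mean of `|ζ|^2`: extrapolation (`exists_interp0`) in `z` of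
`∫ u in (-H)..H, ζ(1/2+i(t+u)) ζ(1/2-i(t+u+z))` from real nodes of size `T^(-ε')` -/
theorem exists_zeta_mean (ε : ℝ) (hε : 0 < ε) : ∃ C : ℝ, 1 ≤ C ∧ ∀ T H : ℝ, 2 ≤ T → 1 ≤ H →
    H ≤ T / 4 → ∃ R : ℝ → ℝ, Continuous R ∧ (∀ t, 0 ≤ R t) ∧
    (∀ t ∈ Icc T (2 * T), ∫ u in (-H)..H, ‖riemannZeta (1 / 2 + I * (t + u))‖ ^ 2 ≤
      C * T ^ ε * H + R t) ∧
    ∫ t in T..(2 * T), R t ^ 2 ≤ C * T ^ (1 + ε) * H := by
  set e1 : ℝ := ε / 8 with he1
  have he10 : 0 < e1 := by positivity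
  set e2 : ℝ := min (ε / 12) (1 / 100) with he2
  have he20 : 0 < e2 := lt_min (by positivity) (by norm_num)
  have he21 : e2 ≤ 1 / 100 := min_le_right _ _
  have he22 : e2 ≤ ε / 12 := min_le_left _ _
  obtain ⟨n, hn⟩ := exists_nat_gt (2 / e1)
  have hn2 : 2 ≤ (n : ℝ) * e1 := by
    rw [div_lt_iff₀ he10] at hn
    exact hn.le
  obtain ⟨C₁, hC₁, hI⟩ := exists_interp0 n
  obtain ⟨C₂, hC₂, hP⟩ := exists_pair_mean 1 e2 zero_le_one he20 he21
  set K : ℝ := 65 * ((n : ℝ) + 1) ^ 2 with hK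
  have hn0 : 0 ≤ (n : ℝ) := Nat.cast_nonneg _
  have hK1 : 1 ≤ K := by rw [hK]; nlinarith
  have hC₁0 : 0 ≤ C₁ := by linarith
  have hC₂0 : 0 ≤ C₂ := by linarith
  have hK0 : 0 ≤ K := by linarith
  refine ⟨1 + C₁ * n * C₂ * K + 264 * C₁ + C₁ ^ 2 * n ^ 2 * C₂ * K ^ 2, ?_, ?_⟩
  · have h1 : 0 ≤ C₁ * n * C₂ * K := by positivity
    have h2 : 0 ≤ C₁ ^ 2 * n ^ 2 * C₂ * K ^ 2 := by positivity
    linarith
  intro T H hT hH1 hH
  have hT0 : 0 < T := by linarith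
  have hT1 : 1 ≤ T := by linarith
  have hH0 : 0 ≤ H := by linarith
  set r : ℝ := T ^ (-e1) with hr
  have hr0 : 0 < r := Real.rpow_pos_of_pos hT0 _
  have hr1 : r ≤ 1 := Real.rpow_le_one_of_one_le_of_nonpos hT1 (by linarith)
  set b : ℕ → ℝ := fun i => ((i : ℝ) + 1) * r / (8 * ((n : ℝ) + 1)) with hb
  have hb0 : ∀ i, 0 < b i := fun i => by rw [hb]; positivity
  have hb1 : ∀ i ∈ Finset.range n, |b i| ≤ 1 := by
    intro i hi
    have hi' : (i : ℝ) + 1 ≤ n := by exact_mod_cast Finset.mem_range.1 hi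
    have hi0 : 0 ≤ (i : ℝ) := Nat.cast_nonneg _
    rw [abs_of_pos (hb0 i), hb]
    simp only
    rw [div_le_one (by positivity)]
    nlinarith
  have hbK : ∀ i, 1 + 1 / (0 - b i) ^ 2 ≤ K * T ^ (2 * e1) := by
    intro i
    have hi0 : 0 ≤ (i : ℝ) := Nat.cast_nonneg _
    have h1 : r / (8 * ((n : ℝ) + 1)) ≤ b i := by
      rw [hb]
      simp only
      gcongr
      nlinarith
    have h2 : (r / (8 * ((n : ℝ) + 1))) ^ 2 ≤ (0 - b i) ^ 2 := by
      rw [zero_sub, neg_sq]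
      exact pow_le_pow_left₀ (by positivity) h1 2
    have h3 : 1 / (0 - b i) ^ 2 ≤ 1 / (r / (8 * ((n : ℝ) + 1))) ^ 2 :=
      one_div_le_one_div_of_le (by positivity) h2
    have h4 : 1 / (r / (8 * ((n : ℝ) + 1))) ^ 2 = 64 * ((n : ℝ) + 1) ^ 2 * T ^ (2 * e1) := by
      have h5 : T ^ (2 * e1) = (r ^ 2)⁻¹ := by
        rw [hr, ← Real.rpow_natCast, ← Real.rpow_mul hT0.le, ← Real.rpow_neg hT0.le]
        congr 1
        push_cast
        ring
      rw [h5]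
      field_simp
      norm_num
    have h6 : 1 ≤ T ^ (2 * e1) := Real.one_le_rpow hT1 (by positivity)
    rw [hK]
    have h7 : 1 ≤ ((n : ℝ) + 1) ^ 2 * T ^ (2 * e1) := by
      have : 1 ≤ ((n : ℝ) + 1) ^ 2 := by nlinarith
      nlinarith
    linarith
  have hR : ∀ i, ∃ R : ℝ → ℂ, i ∈ Finset.range n → (Continuous R ∧
    (∀ t ∈ Icc T (2 * T), ‖(∫ u in (-H)..H, pf 0 (b i) (t + u)) - R t‖ ≤
      C₂ * (1 + 1 / (0 - b i) ^ 2) * H) ∧
    ∫ t in T..(2 * T), ‖R t‖ ^ 2 ≤ C₂ * (1 + 1 / (0 - b i) ^ 2) ^ 2 * T ^ (1 + 6 * e2) * H) := by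
    intro i
    by_cases hi : i ∈ Finset.range n
    · obtain ⟨R, h⟩ := hP T H hT hH1 hH 0 (b i) (by simp) (hb1 i hi) (hb0 i).ne
      exact ⟨R, fun _ => h⟩
    · exact ⟨0, fun h => absurd h hi⟩
  choose R hR using hR
  have hRc : ∀ i ∈ Finset.range n, Continuous fun t => ‖R i t‖ := fun i hi => (hR i hi).1.norm
  refine ⟨fun t => C₁ * ∑ i ∈ Finset.range n, ‖R i t‖, ?_, ?_, ?_, ?_⟩
  · exact continuous_const.mul (continuous_finsetSum _ hRc)
  · intro t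
    exact mul_nonneg hC₁0 (Finset.sum_nonneg fun _ _ => norm_nonneg _)
  · intro t ht
    have hsub : ∀ u ∈ Set.uIoc (-H) H, |u| ≤ H := by
      intro u hu
      rw [Set.uIoc_of_le (by linarith)] at hu
      exact abs_le.2 ⟨hu.1.le, hu.2⟩
    have hM : ∀ z ∈ Metric.ball (0 : ℂ) (1 / 4), ‖∫ u in (-H)..H, zrF t u z‖ ≤ 264 * T ^ 2 * H := by
      intro z hz
      refine (intervalIntegral.norm_integral_le_of_norm_le_const (C := 132 * T ^ 2) ?_).trans ?_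
      · intro u hu
        exact zrF_bound hT hH ht (hsub u hu) hz
      · rw [abs_of_nonneg (by linarith)]
        nlinarith
    have h := hI (fun z => ∫ u in (-H)..H, zrF t u z) (264 * T ^ 2 * H) r hr0 hr1
      (differentiableOn_intervalIntegral Metric.isOpen_ball (zrF_cont t) (zrF_diff t)) hM
    have h0 : (∫ u in (-H)..H, zrF t u 0) =
        ((∫ u in (-H)..H, ‖riemannZeta (1 / 2 + I * (t + u))‖ ^ 2 : ℝ) : ℂ) := by
      rw [← intervalIntegral.integral_ofReal]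
      exact intervalIntegral.integral_congr fun u _ => zrF_zero t u
    rw [h0, Complex.norm_real] at h
    have h1 := (Real.le_norm_self _).trans h
    have h2 : ∀ i ∈ Finset.range n, ‖∫ u in (-H)..H, zrF t u
        ((((i : ℝ) + 1) * r / (8 * ((n : ℝ) + 1)) : ℝ) : ℂ)‖ ≤
        ‖R i t‖ + C₂ * (K * T ^ (2 * e1)) * H := by
      intro i hi
      have h3 := (hR i hi).2.1 t ht
      have h4 : (∫ u in (-H)..H, zrF t u ((((i : ℝ) + 1) * r / (8 * ((n : ℝ) + 1)) : ℝ) : ℂ)) =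
          ∫ u in (-H)..H, pf 0 (b i) (t + u) :=
        intervalIntegral.integral_congr fun u _ => zrF_real t u _
      rw [h4]
      have h5 : ‖∫ u in (-H)..H, pf 0 (b i) (t + u)‖ ≤
          ‖R i t‖ + ‖(∫ u in (-H)..H, pf 0 (b i) (t + u)) - R i t‖ := by
        have := norm_add_le (R i t) ((∫ u in (-H)..H, pf 0 (b i) (t + u)) - R i t)
        rwa [add_sub_cancel] at this
      have h6 : C₂ * (1 + 1 / (0 - b i) ^ 2) * H ≤ C₂ * (K * T ^ (2 * e1)) * H := by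
        gcongr
        exact hbK i
      linarith
    have h3 : r ^ n * T ^ 2 ≤ 1 := by
      rw [hr, ← Real.rpow_natCast (T ^ (-e1)) n, ← Real.rpow_mul hT0.le,
        ← Real.rpow_natCast T 2, ← Real.rpow_add hT0]
      refine Real.rpow_le_one_of_one_le_of_nonpos hT1 ?_
      push_cast
      nlinarith
    have h4 : C₁ * r ^ n * (264 * T ^ 2 * H) ≤ 264 * C₁ * H := by
      have : C₁ * r ^ n * (264 * T ^ 2 * H) = (264 * C₁ * H) * (r ^ n * T ^ 2) := by ring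
      rw [this]
      exact mul_le_of_le_one_right (by positivity) h3
    have h5 := Finset.sum_le_sum h2
    rw [Finset.sum_add_distrib, Finset.sum_const, Finset.card_range, nsmul_eq_mul] at h5
    have h6 := mul_le_mul_of_nonneg_left h5 hC₁0
    have h7 : T ^ (2 * e1) ≤ T ^ ε := Real.rpow_le_rpow_of_exponent_le hT1 (by rw [he1]; linarith)
    have h8 : 1 ≤ T ^ ε := Real.one_le_rpow hT1 hε.le
    have h9 : C₁ * ((n : ℝ) * (C₂ * (K * T ^ (2 * e1)) * H)) ≤ C₁ * n * C₂ * K * T ^ ε * H := by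
      calc C₁ * ((n : ℝ) * (C₂ * (K * T ^ (2 * e1)) * H)) = C₁ * n * C₂ * K * T ^ (2 * e1) * H := by
            ring
        _ ≤ _ := by gcongr
    have h10 : 264 * C₁ * H ≤ 264 * C₁ * T ^ ε * H := by
      have : 264 * C₁ * H * 1 ≤ 264 * C₁ * H * T ^ ε :=
        mul_le_mul_of_nonneg_left h8 (by positivity)
      linarith
    have h11 : 0 ≤ (1 + C₁ ^ 2 * n ^ 2 * C₂ * K ^ 2) * T ^ ε * H := by positivity
    have h12 : (1 + C₁ * n * C₂ * K + 264 * C₁ + C₁ ^ 2 * n ^ 2 * C₂ * K ^ 2) * T ^ ε * H =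
        C₁ * n * C₂ * K * T ^ ε * H + 264 * C₁ * T ^ ε * H +
          (1 + C₁ ^ 2 * n ^ 2 * C₂ * K ^ 2) * T ^ ε * H := by ring
    change _ ≤ _ + C₁ * ∑ i ∈ Finset.range n, ‖R i t‖
    rw [h12]
    rw [mul_add C₁] at h6
    linarith
  · have hTT : T ≤ 2 * T := by linarith
    have h1 : ∀ t, (C₁ * ∑ i ∈ Finset.range n, ‖R i t‖) ^ 2 ≤
        C₁ ^ 2 * n * ∑ i ∈ Finset.range n, ‖R i t‖ ^ 2 := by
      intro t
      have := sq_sum_le_card_mul_sum_sq (s := Finset.range n) (f := fun i => ‖R i t‖)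
      rw [Finset.card_range] at this
      rw [mul_pow, mul_assoc]
      exact mul_le_mul_of_nonneg_left this (by positivity)
    have hc2 : ∀ i ∈ Finset.range n, Continuous fun t => ‖R i t‖ ^ 2 := fun i hi => (hRc i hi).pow 2
    have h2 : ∫ t in T..(2 * T), (C₁ * ∑ i ∈ Finset.range n, ‖R i t‖) ^ 2 ≤
        ∫ t in T..(2 * T), C₁ ^ 2 * n * ∑ i ∈ Finset.range n, ‖R i t‖ ^ 2 := by
      refine intervalIntegral.integral_mono_on hTT ?_ ?_ fun t _ => h1 t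
      · exact ((continuous_const.mul (continuous_finsetSum _ hRc)).pow 2).intervalIntegrable _ _
      · exact (continuous_const.mul (continuous_finsetSum _ hc2)).intervalIntegrable _ _
    refine h2.trans ?_
    rw [intervalIntegral.integral_const_mul,
      intervalIntegral.integral_finsetSum fun i hi => (hc2 i hi).intervalIntegrable _ _]
    have h3 : ∀ i ∈ Finset.range n, ∫ t in T..(2 * T), ‖R i t‖ ^ 2 ≤
        C₂ * K ^ 2 * T ^ (1 + ε) * H := by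
      intro i hi
      refine (hR i hi).2.2.trans ?_
      have h4 : (1 + 1 / (0 - b i) ^ 2) ^ 2 ≤ (K * T ^ (2 * e1)) ^ 2 :=
        pow_le_pow_left₀ (by positivity) (hbK i) 2
      have h5 : (T ^ (2 * e1)) ^ 2 * T ^ (1 + 6 * e2) ≤ T ^ (1 + ε) := by
        rw [← Real.rpow_natCast (T ^ (2 * e1)) 2, ← Real.rpow_mul hT0.le, ← Real.rpow_add hT0]
        refine Real.rpow_le_rpow_of_exponent_le hT1 ?_
        push_cast
        rw [he1]
        linarith
      calc C₂ * (1 + 1 / (0 - b i) ^ 2) ^ 2 * T ^ (1 + 6 * e2) * H ≤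
            C₂ * (K * T ^ (2 * e1)) ^ 2 * T ^ (1 + 6 * e2) * H := by gcongr
        _ = C₂ * K ^ 2 * ((T ^ (2 * e1)) ^ 2 * T ^ (1 + 6 * e2)) * H := by ring
        _ ≤ _ := by gcongr
    have h4 := Finset.sum_le_sum h3
    rw [Finset.sum_const, Finset.card_range, nsmul_eq_mul] at h4
    have h5 := mul_le_mul_of_nonneg_left h4 (show 0 ≤ C₁ ^ 2 * (n : ℝ) by positivity)
    refine h5.trans ?_
    have h6 : 0 ≤ (1 + C₁ * n * C₂ * K + 264 * C₁) * T ^ (1 + ε) * H := by positivity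
    have h7 : (1 + C₁ * n * C₂ * K + 264 * C₁ + C₁ ^ 2 * n ^ 2 * C₂ * K ^ 2) * T ^ (1 + ε) * H =
        C₁ ^ 2 * n * (n * (C₂ * K ^ 2 * T ^ (1 + ε) * H)) +
        (1 + C₁ * n * C₂ * K + 264 * C₁) * T ^ (1 + ε) * H := by ring
    rw [h7]
    linarith

end Pool.Agent.AAS
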